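import Pool.Agent.NUO.DispQ

/-!
# Vertical displacement of the satellites and the total displacement field (O4d)
-/

set_option autoImplicit false

open MeasureTheory Set Filter Topology

noncomputable section

namespace NUDispV

open NUMF NUO NUDispE NUDispW NUDispP NUDispQ Pool.Agent.Szego62

variable {κ : Type*}

/-! ### bilinear window bound -/

/-- the product of two exponentially decaying fields -/
theorem bmaj_mul_int {B B' : ℝ} (s : Finset κ) (τ : κ → ℝ) {μ F : ℝ → ℝ}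
    (hμ : AEStronglyMeasurable μ) (hF : AEStronglyMeasurable F)
    (h1 : ∀ t, |μ t| ≤ B * bmaj s τ 2 t) (h2 : ∀ t, |F t| ≤ B' * bmaj s τ 2 t) :
    Integrable (fun t => μ t * F t) ∧ ∫ t, |μ t * F t| ≤ B * B' * (Kw * win s τ) := by
  have h0 := bmaj_sq_int (c := 2) (by norm_num) s τ
  have hb : ∀ t, |μ t * F t| ≤ B * B' * bmaj s τ 2 t ^ 2 := by
    intro t
    rw [abs_mul]
    have a1 := abs_nonneg (μ t)
    have a2 := abs_nonneg (F t)
    calc |μ t| * |F t| ≤ (B * bmaj s τ 2 t) * (B' * bmaj s τ 2 t) :=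
          mul_le_mul (h1 t) (h2 t) a2 (a1.trans (h1 t))
      _ = _ := by ring
  have hi : Integrable (fun t => μ t * F t) :=
    (h0.1.const_mul (B * B')).mono' (hμ.mul hF) (ae_of_all _ fun t => hb t)
  refine ⟨hi, ?_⟩
  refine (integral_mono hi.abs (h0.1.const_mul (B * B')) hb).trans ?_
  rw [integral_const_mul]
  have hBB : 0 ≤ B * B' ∨ win s τ = 0 := by
    rcases s.eq_empty_or_nonempty with hs | ⟨i, hi⟩
    · right
      rw [hs]
      simp [win]
    · left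
      have hpos : 0 < bmaj s τ 2 0 :=
        Finset.sum_pos (fun _ _ => Real.exp_pos _) ⟨i, hi⟩
      have b1 : 0 ≤ B := by
        have := (abs_nonneg _).trans (h1 0)
        exact le_of_mul_le_mul_right (by simpa using this) hpos
      have b2 : 0 ≤ B' := by
        have := (abs_nonneg _).trans (h2 0)
        exact le_of_mul_le_mul_right (by simpa using this) hpos
      positivity
  rcases hBB with h | h
  · exact mul_le_mul_of_nonneg_left h0.2 h
  · have h3 := h0.2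
    rw [h] at h3 ⊢
    have h4 : ∫ t, bmaj s τ 2 t ^ 2 = 0 := le_antisymm (by simpa using h3)
      (integral_nonneg fun t => sq_nonneg _)
    rw [h4]
    simp

/-! ### vertical displacement -/

/-- fields with decaying derivative -/
structure VF (A B τ : ℝ) (f f' : ℝ → ℝ) : Prop where
  deriv : ∀ t, HasDerivAt f (f' t) t
  cont : Continuous f'
  le : ∀ t, |f t| ≤ A
  le' : ∀ t, |f' t| ≤ B * Real.exp (-2 * |t - τ|)

/-- existential form -/
def VFe (A B τ : ℝ) (f : ℝ → ℝ) : Prop := ∃ f', VF A B τ f f'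

theorem VFe.add {A A' B B' τ : ℝ} {f g : ℝ → ℝ} (hf : VFe A B τ f) (hg : VFe A' B' τ g) :
    VFe (A + A') (B + B') τ (fun t => f t + g t) := by
  obtain ⟨f', hf⟩ := hf
  obtain ⟨g', hg⟩ := hg
  exact ⟨fun t => f' t + g' t, fun t => (hf.deriv t).add (hg.deriv t), hf.cont.add hg.cont,
    fun t => (abs_add_le _ _).trans (add_le_add (hf.le t) (hg.le t)),
    fun t => (abs_add_le _ _).trans (by rw [add_mul]; exact add_le_add (hf.le' t) (hg.le' t))⟩

theorem VFe.smul {A B τ : ℝ} {f : ℝ → ℝ} (c : ℝ) (hf : VFe A B τ f) :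
    VFe (|c| * A) (|c| * B) τ (fun t => c * f t) := by
  obtain ⟨f', hf⟩ := hf
  exact ⟨fun t => c * f' t, fun t => (hf.deriv t).const_mul c, continuous_const.mul hf.cont,
    fun t => by rw [abs_mul]; exact mul_le_mul_of_nonneg_left (hf.le t) (abs_nonneg c),
    fun t => by
      rw [abs_mul, mul_assoc]
      exact mul_le_mul_of_nonneg_left (hf.le' t) (abs_nonneg c)⟩

theorem VFe.mono {A A' B B' τ : ℝ} {f : ℝ → ℝ} (hf : VFe A B τ f) (h : A ≤ A') (h' : B ≤ B') :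
    VFe A' B' τ f := by
  obtain ⟨f', hf⟩ := hf
  exact ⟨f', hf.deriv, hf.cont, fun t => (hf.le t).trans h,
    fun t => (hf.le' t).trans (mul_le_mul_of_nonneg_right h' (Real.exp_pos _).le)⟩

theorem VFe.congr {A B τ : ℝ} {f g : ℝ → ℝ} (hf : VFe A B τ f) (h : ∀ t, g t = f t) :
    VFe A B τ g := by
  have e : g = f := funext h
  rw [e]
  exact hf

theorem VFe.zero (τ : ℝ) : VFe 0 0 τ (fun _ => 0) :=
  ⟨fun _ => 0, fun t => hasDerivAt_const t 0, continuous_const, fun t => by simp,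
    fun t => by simp⟩

/-- derivative of `h` in the height -/
def hd (a t : ℝ) : ℝ := 2 * Real.sinh (2 * t) / (Real.cosh (2 * t) + Real.cos (2 * a))

theorem abs_sinh_le (t : ℝ) : |Real.sinh t| ≤ Real.cosh t := by
  rw [abs_le, Real.sinh_eq, Real.cosh_eq]
  have e1 := Real.exp_pos t
  have e2 := Real.exp_pos (-t)
  constructor <;> linarith

theorem h_deriv {k a : ℝ} (hk : 0 < k) (ha : k ≤ |Real.cos a|) (t : ℝ) :
    HasDerivAt (fun t => h t a) (hd a t) t := by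
  have p := arg_ge hk.le ha t
  have p0 : 0 < k ^ 2 * Real.cosh (2 * t) := mul_pos (by positivity) (Real.cosh_pos _)
  have b1 : HasDerivAt (fun t : ℝ => 2 * t) 2 t := by
    simpa using (hasDerivAt_id t).const_mul 2
  have c1 := (b1.cosh.add_const (Real.cos (2 * a))).log (p0.trans_le p).ne'
  refine c1.congr_deriv ?_
  unfold hd
  congr 1
  ring

theorem hd_le {k a : ℝ} (hk : 0 < k) (ha : k ≤ |Real.cos a|) (t : ℝ) :
    |hd a t| ≤ 2 / k ^ 2 := by
  have p := arg_ge hk.le ha t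
  have p0 : 0 < k ^ 2 * Real.cosh (2 * t) := mul_pos (by positivity) (Real.cosh_pos _)
  have c0 := Real.cosh_pos (2 * t)
  unfold hd
  rw [abs_div, abs_mul, abs_two, abs_of_pos (p0.trans_le p)]
  calc 2 * |Real.sinh (2 * t)| / (Real.cosh (2 * t) + Real.cos (2 * a)) ≤
      2 * Real.cosh (2 * t) / (k ^ 2 * Real.cosh (2 * t)) := by
        gcongr
        exact abs_sinh_le _
    _ = _ := by field_simp

/-- second derivative -/
def hd2 (a t : ℝ) : ℝ := 4 * (1 + Real.cosh (2 * t) * Real.cos (2 * a)) /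
  (Real.cosh (2 * t) + Real.cos (2 * a)) ^ 2

theorem hd_deriv {k a : ℝ} (hk : 0 < k) (ha : k ≤ |Real.cos a|) (t : ℝ) :
    HasDerivAt (hd a) (hd2 a t) t := by
  have p := arg_ge hk.le ha t
  have p0 : 0 < k ^ 2 * Real.cosh (2 * t) := mul_pos (by positivity) (Real.cosh_pos _)
  have p1 := (p0.trans_le p).ne'
  have b1 : HasDerivAt (fun t : ℝ => 2 * t) 2 t := by
    simpa using (hasDerivAt_id t).const_mul 2
  have c1 := (b1.sinh.const_mul 2).div (b1.cosh.add_const (Real.cos (2 * a))) p1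
  refine c1.congr_deriv ?_
  unfold hd2
  have e := Real.cosh_sq (2 * t)
  congr 1
  linear_combination (-4 : ℝ) * 0 + 4 * e

theorem hd2_le {k a : ℝ} (hk : 0 < k) (ha : k ≤ |Real.cos a|) (t : ℝ) :
    |hd2 a t| ≤ 16 / k ^ 4 * Real.exp (-2 * |t|) := by
  have p := arg_ge hk.le ha t
  have p0 : 0 < k ^ 2 * Real.cosh (2 * t) := mul_pos (by positivity) (Real.cosh_pos _)
  have c0 := Real.cosh_pos (2 * t)
  have c1 := Real.one_le_cosh (2 * t)
  have q := NUDispE.inv_cosh_le t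
  unfold hd2
  rw [abs_div, abs_mul, abs_of_pos (by norm_num : (0:ℝ) < 4), abs_of_pos (pow_pos (p0.trans_le p) 2)]
  have h1 : |1 + Real.cosh (2 * t) * Real.cos (2 * a)| ≤ 2 * Real.cosh (2 * t) := by
    refine (abs_add_le _ _).trans ?_
    rw [abs_one, abs_mul, abs_of_pos c0]
    have := mul_le_of_le_one_right c0.le (Real.abs_cos_le_one (2 * a))
    linarith
  calc 4 * |1 + Real.cosh (2 * t) * Real.cos (2 * a)| /
      (Real.cosh (2 * t) + Real.cos (2 * a)) ^ 2 ≤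
      4 * (2 * Real.cosh (2 * t)) / (k ^ 2 * Real.cosh (2 * t)) ^ 2 := by gcongr
    _ = 8 / k ^ 4 * (Real.cosh (2 * t))⁻¹ := by
      field_simp
      ring
    _ ≤ 8 / k ^ 4 * (2 * Real.exp (-2 * |t|)) := by gcongr
    _ = _ := by ring

/-- **vertical displacement of `h`** -/
theorem VFe_h {k a τ τ' ρ : ℝ} (hk : 0 < k) (ha : k ≤ |Real.cos a|) (hτ : |τ' - τ| ≤ ρ) :
    VFe (2 / k ^ 2 * ρ) (16 / k ^ 4 * Real.exp (2 * ρ) * ρ) τ
      (fun t => h (t - τ') a - h (t - τ) a) := by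
  have hρ : 0 ≤ ρ := (abs_nonneg _).trans hτ
  have hc : Continuous (hd a) := continuous_iff_continuousAt.2 fun t => (hd_deriv hk ha t).continuousAt
  refine ⟨fun t => hd a (t - τ') - hd a (t - τ), fun t => ?_, ?_, fun t => ?_, fun t => ?_⟩
  · exact ((h_deriv hk ha (t - τ')).comp_sub_const t τ').sub
      ((h_deriv hk ha (t - τ)).comp_sub_const t τ)
  · fun_prop
  · have h1 := Convex.norm_image_sub_le_of_norm_hasDerivWithin_le (f := fun t => h t a)
      (f' := hd a) (C := 2 / k ^ 2) (s := univ) (x := t - τ) (y := t - τ')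
      (fun x _ => (h_deriv hk ha x).hasDerivWithinAt) (fun x _ => hd_le hk ha x) convex_univ
      (mem_univ _) (mem_univ _)
    rw [Real.norm_eq_abs, Real.norm_eq_abs] at h1
    refine h1.trans ?_
    rw [show t - τ' - (t - τ) = -(τ' - τ) by ring, abs_neg]
    gcongr
  · have h1 := Convex.norm_image_sub_le_of_norm_hasDerivWithin_le (f := hd a)
      (f' := hd2 a) (C := 16 / k ^ 4 * (Real.exp (2 * ρ) * Real.exp (-2 * |t - τ|)))
      (s := uIcc (t - τ) (t - τ')) (x := t - τ) (y := t - τ')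
      (fun x _ => (hd_deriv hk ha x).hasDerivWithinAt) (fun x hx => ?_) (convex_uIcc _ _)
      left_mem_uIcc right_mem_uIcc
    · rw [Real.norm_eq_abs, Real.norm_eq_abs] at h1
      refine h1.trans ?_
      rw [show t - τ' - (t - τ) = -(τ' - τ) by ring, abs_neg]
      have : |τ' - τ| ≤ ρ := hτ
      calc 16 / k ^ 4 * (Real.exp (2 * ρ) * Real.exp (-2 * |t - τ|)) * |τ' - τ| ≤
          16 / k ^ 4 * (Real.exp (2 * ρ) * Real.exp (-2 * |t - τ|)) * ρ := by gcongr
        _ = _ := by ring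
    · rw [Real.norm_eq_abs]
      refine (hd2_le hk ha x).trans ?_
      rw [← Real.exp_add]
      gcongr
      have h2 : |x - (t - τ)| ≤ |t - τ' - (t - τ)| := abs_sub_left_of_mem_uIcc hx
      rw [show t - τ' - (t - τ) = -(τ' - τ) by ring, abs_neg] at h2
      have h3 := abs_sub_abs_le_abs_sub (t - τ) x
      rw [abs_sub_comm (t - τ) x] at h3
      linarith

theorem VFe_block {δ j τ τ' ρ : ℝ} (h0 : 0 < δ) (h01 : δ ≤ 1) (hj : Off δ j) (hτ : |τ' - τ| ≤ ρ)
    (a : ℤ) : VFe (2 / Real.sin (δ * NUMF.l) ^ 2 * ρ)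
      (16 / Real.sin (δ * NUMF.l) ^ 4 * Real.exp (2 * ρ) * ρ) τ
      (fun t => h (t - τ') ((a - j) * NUMF.l) - h (t - τ) ((a - j) * NUMF.l)) := by
  have hl := l_pos
  have hfl := NUO.four_l
  have hs : 0 < Real.sin (δ * NUMF.l) := by
    refine Real.sin_pos_of_pos_of_lt_pi (by positivity) ?_
    nlinarith [Real.pi_pos]
  exact VFe_h hs (cos_red_ge h0.le hj a) hτ

theorem VFe_lq {δ j τ τ' ρ : ℝ} (h0 : 0 < δ) (h01 : δ ≤ 1) (hj : Off δ j) (hτ : |τ' - τ| ≤ ρ) :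
    VFe (6 / Real.sin (δ * NUMF.l) ^ 2 * ρ)
      (48 / Real.sin (δ * NUMF.l) ^ 4 * Real.exp (2 * ρ) * ρ) τ
      (fun t => lq j (t - τ') - lq j (t - τ)) := by
  have hb := fun a : ℤ => VFe_block h0 h01 hj hτ a
  refine ((((hb 4).add ((hb 2).smul (1 / 2))).add ((hb (-2)).smul (1 / 2))).add
    (((hb 3).smul (-1 / 2)).add ((hb 5).smul (-1 / 2)))).mono ?_ ?_ |>.congr fun t => ?_
  · rw [show |(1:ℝ) / 2| = 1 / 2 by norm_num, show |(-1:ℝ) / 2| = 1 / 2 by norm_num]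
    apply le_of_eq
    ring
  · rw [show |(1:ℝ) / 2| = 1 / 2 by norm_num, show |(-1:ℝ) / 2| = 1 / 2 by norm_num]
    apply le_of_eq
    ring
  · unfold lq ro
    push_cast
    rw [← h_neg_right (t - τ') ((2 + j) * NUMF.l), ← h_neg_right (t - τ) ((2 + j) * NUMF.l),
      show -((2 + j) * NUMF.l) = (-2 - j) * NUMF.l by ring]
    ring

theorem VFe_lqg {δ j τ τ' ρ : ℝ} (h0 : 0 < δ) (h01 : δ ≤ 1) (hj : Off δ j) (hτ : |τ' - τ| ≤ ρ) :
    VFe (6 / Real.sin (δ * NUMF.l) ^ 2 * ρ)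
      (48 / Real.sin (δ * NUMF.l) ^ 4 * Real.exp (2 * ρ) * ρ) τ
      (fun t => lqg j (t - τ') - lqg j (t - τ)) := by
  have hb := fun a : ℤ => VFe_block h0 h01 hj hτ a
  refine (((hb 0).add ((hb (-1)).smul (-1))).add ((hb 1).smul (-1))).mono ?_ ?_ |>.congr
    fun t => ?_
  · rw [show |(-1:ℝ)| = 1 by norm_num]
    apply le_of_eq
    ring
  · rw [show |(-1:ℝ)| = 1 by norm_num]
    apply le_of_eq
    ring
  · unfold lqg
    push_cast
    rw [← h_neg_right (t - τ') (j * NUMF.l), ← h_neg_right (t - τ) (j * NUMF.l),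
      ← h_neg_right (t - τ') (j * NUMF.l + NUMF.l), ← h_neg_right (t - τ) (j * NUMF.l + NUMF.l),
      ← h_neg_right (t - τ') (j * NUMF.l - NUMF.l), ← h_neg_right (t - τ) (j * NUMF.l - NUMF.l),
      show -(j * NUMF.l) = (0 - j) * NUMF.l by ring,
      show -(j * NUMF.l + NUMF.l) = (-1 - j) * NUMF.l by ring,
      show -(j * NUMF.l - NUMF.l) = (1 - j) * NUMF.l by ring]
    ring

theorem VFe_lp {δ j τ τ' ρ : ℝ} (h0 : 0 < δ) (h01 : δ ≤ 1) (hj : Off δ j) (hτ : |τ' - τ| ≤ ρ)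
    (s s' : Bool) : VFe (6 / Real.sin (δ * NUMF.l) ^ 2 * ρ)
      (48 / Real.sin (δ * NUMF.l) ^ 4 * Real.exp (2 * ρ) * ρ) τ
      (fun t => lp s s' j (t - τ') - lp s s' j (t - τ)) := by
  unfold NUDispP.lp
  by_cases hs : s = s'
  · simp only [if_pos hs]
    exact VFe_lq h0 h01 hj hτ
  · simp only [if_neg hs]
    exact VFe_lqg h0 h01 hj hτ

/-- the base constituents of the object `i`: string at offset `2 + P.e`, satellites at offset
`P.e`, all at the height of the object -/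
def cbase (P : Par) (x : Xo) : List (Bool × Bool × ℝ × ℝ) := cl P.jL (2 + P.e) P.e (ht x) x

/-- **vertical displacement of the satellite of `Sv`** -/
theorem VFe_sat {δ0 : ℝ} (P : Par) {r : ℕ} (O : Fin r → Xo) (i : Fin r) (h0 : 0 < δ0)
    (h01 : δ0 ≤ 1) (he0 : Off δ0 P.e) (hρ0 : 0 ≤ rr P O i) (s : Bool) :
    VFe (6 / Real.sin (δ0 * NUMF.l) ^ 2 * rr P O i)
      (48 / Real.sin (δ0 * NUMF.l) ^ 4 * Real.exp (2 * rr P O i) * rr P O i) (ht (O i))
      (fun t => PT s (cref P O i) 0 t - PT s (cbase P (O i)) 0 t) := by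
  have hl := l_pos
  have hfl := NUO.four_l
  have hs : 0 < Real.sin (δ0 * NUMF.l) := by
    refine Real.sin_pos_of_pos_of_lt_pi (by positivity) ?_
    nlinarith [Real.pi_pos]
  have hV1 : |hV (rr P O i) (O i) - ht (O i)| ≤ rr P O i := by
    simp only [hV]
    rw [add_sub_cancel_left, abs_mul, abs_of_nonneg hρ0]
    exact mul_le_of_le_one_right hρ0 (Real.abs_sin_le_one _)
  have h1 := VFe_lp h0 h01 he0 hV1 s (!(sp (O i)))
  have h00 : VFe (6 / Real.sin (δ0 * NUMF.l) ^ 2 * rr P O i)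
      (48 / Real.sin (δ0 * NUMF.l) ^ 4 * Real.exp (2 * rr P O i) * rr P O i) (ht (O i))
      (fun _ => 0) := (VFe.zero _).mono (by positivity) (by positivity)
  unfold cref cbase
  revert h1 h00
  generalize hV (rr P O i) (O i) = H
  generalize rr P O i = ρ
  generalize O i = x
  intro h1 h00
  obtain ⟨⟨sx, k⟩, tx, ax⟩ := x
  cases k
  · exact h00.congr fun t => by simp [PT, cl]
  · exact h00.congr fun t => by simp [PT, cl]
  · exact h00.congr fun t => by simp [PT, cl]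
  · refine h1.congr fun t => ?_
    simp only [PT, cl, lpt, sp, ht, List.map_cons, List.map_nil, List.sum_cons, List.sum_nil,
      add_zero, if_true, Bool.false_eq_true, if_false]
    ring
  · exact h00.congr fun t => by simp [PT, cl]

/-- **representation and energy of the total field** -/
theorem fieldsV_repr {G L T A B : ℝ} (hG : 9 ≤ G) (hL : 0 < L) (hT : 2 * T + 2 ≤ L)
    (s : Finset κ) (τ a : κ → ℝ) (f g : κ → ℝ → ℝ) (hf : ∀ i ∈ s, SFe B (τ i) (f i))
    (hg : ∀ i ∈ s, VFe (a i) B (τ i) (g i)) (hA : ∑ i ∈ s, a i ≤ A) :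
    ∃ (F0 : ℝ) (c : ℕ → ℂ), (Summable fun p => ‖c p‖) ∧
      (∀ t, |t| ≤ T → ∑ i ∈ s, (f i t + g i t) = F0 + Aser c (2 * Real.pi * t / L)) ∧
      (Summable fun p => L * ‖c p‖ ^ 2 / NUC62.uh G (NUC62.kp L p)) ∧
      L * F0 ^ 2 ≤ 2 * (B ^ 2 * Kw * win s τ) + 2 * A ^ 2 * L ∧
      ∑' p, L * ‖c p‖ ^ 2 / NUC62.uh G (NUC62.kp L p) ≤
        36 * (B ^ 2 * Kw * win s τ) + 12 * A ^ 2 * L := by
  classical
  have h0 : ∀ i, ∃ f', i ∈ s → SF B (τ i) (f i) f' := by
    intro i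
    by_cases hi : i ∈ s
    · obtain ⟨f', h⟩ := hf i hi
      exact ⟨f', fun _ => h⟩
    · exact ⟨fun _ => 0, fun h => absurd h hi⟩
  have h1 : ∀ i, ∃ g', i ∈ s → VF (a i) B (τ i) (g i) g' := by
    intro i
    by_cases hi : i ∈ s
    · obtain ⟨g', h⟩ := hg i hi
      exact ⟨g', fun _ => h⟩
    · exact ⟨fun _ => 0, fun h => absurd h hi⟩
  choose f' hf' using h0
  choose g' hg' using h1
  have hd : ∀ x, HasDerivAt (fun t => ∑ i ∈ s, (f i t + g i t)) (∑ i ∈ s, (f' i x + g' i x)) x := by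
    intro x
    exact HasDerivAt.fun_sum fun i hi => ((hf' i hi).deriv x).add ((hg' i hi).deriv x)
  have hc' : Continuous fun x => ∑ i ∈ s, (f' i x + g' i x) :=
    continuous_finsetSum _ fun i hi => (hf' i hi).cont.add (hg' i hi).cont
  have hc : Continuous fun x => ∑ i ∈ s, (f i x + g i x) :=
    continuous_iff_continuousAt.2 fun x => (hd x).continuousAt
  obtain ⟨F0, c, k1, k2, k3, k4, k5⟩ := NUC37.repr hG hL hT
    (E := fun t => ∑ i ∈ s, (f i t + g i t))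
    (E' := fun x => ∑ i ∈ s, (f' i x + g' i x)) (fun x _ => hd x) hc'.continuousOn
  have hLL : -(L / 2) ≤ L / 2 := by linarith
  -- pointwise bounds
  have e1 : ∀ t, |∑ i ∈ s, (f i t + g i t)| ≤ B * bmaj s τ 2 t + A := by
    intro t
    rw [Finset.sum_add_distrib]
    refine (abs_add_le _ _).trans (add_le_add (sum_abs_le s τ f t fun i hi => (hf' i hi).le t) ?_)
    exact (Finset.abs_sum_le_sum_abs _ _).trans ((Finset.sum_le_sum fun i hi =>
      (hg' i hi).le t).trans hA)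
  have e2 : ∀ t, |∑ i ∈ s, (f' i t + g' i t)| ≤ (2 * B) * bmaj s τ 2 t := by
    intro t
    rw [Finset.sum_add_distrib]
    refine (abs_add_le _ _).trans ((add_le_add (sum_abs_le s τ f' t fun i hi =>
      (hf' i hi).le' t) (sum_abs_le s τ g' t fun i hi => (hg' i hi).le' t)).trans_eq ?_)
    ring
  have b2 := int_sq_le hLL s τ hc'.continuousOn e2
  have w := bmaj_sq_int (c := 2) (by norm_num) s τ
  have b1 : ∫ x in (-(L / 2))..(L / 2), (∑ i ∈ s, (f i x + g i x)) ^ 2 ≤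
      2 * (B ^ 2 * Kw * win s τ) + 2 * A ^ 2 * L := by
    have q : ∀ x, (∑ i ∈ s, (f i x + g i x)) ^ 2 ≤ 2 * (B ^ 2 * bmaj s τ 2 x ^ 2) + 2 * A ^ 2 := by
      intro x
      have h2 : (∑ i ∈ s, (f i x + g i x)) ^ 2 ≤ (B * bmaj s τ 2 x + A) ^ 2 := by
        rw [← sq_abs (∑ i ∈ s, (f i x + g i x))]
        exact pow_le_pow_left₀ (abs_nonneg _) (e1 x) 2
      refine h2.trans ?_
      nlinarith [sq_nonneg (B * bmaj s τ 2 x - A)]
    have i1 : IntervalIntegrable (fun x => 2 * (B ^ 2 * bmaj s τ 2 x ^ 2)) volume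
        (-(L / 2)) (L / 2) := by
      have : Continuous fun x => 2 * (B ^ 2 * bmaj s τ 2 x ^ 2) := by
        have := bmaj_cont s τ 2
        fun_prop
      exact this.intervalIntegrable _ _
    have hc2 : Continuous fun x => (∑ i ∈ s, (f i x + g i x)) ^ 2 := hc.pow 2
    refine (intervalIntegral.integral_mono_on hLL (hc2.intervalIntegrable _ _)
      (i1.add intervalIntegrable_const) fun x _ => q x).trans ?_
    rw [intervalIntegral.integral_add i1 intervalIntegrable_const, intervalIntegral.integral_const]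
    have i2 : ∫ x in (-(L / 2))..(L / 2), 2 * (B ^ 2 * bmaj s τ 2 x ^ 2) ≤
        2 * (B ^ 2 * Kw * win s τ) := by
      rw [intervalIntegral.integral_of_le hLL]
      refine (setIntegral_le_integral ((w.1.const_mul _).const_mul _)
        (ae_of_all _ fun x => by positivity)).trans ?_
      rw [integral_const_mul, integral_const_mul, mul_assoc]
      have := mul_le_mul_of_nonneg_left w.2 (sq_nonneg B)
      have e : Kw * win s τ = 4 / 2 * (Real.exp (2 / 2) * Sd (2 / 2)) * win s τ := rfl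
      rw [← e] at this
      linarith
    have i3 : (L / 2 - -(L / 2)) • (2 * A ^ 2) = 2 * A ^ 2 * L := by
      rw [smul_eq_mul]
      ring
    linarith
  refine ⟨F0, c, k1, k2, k3, k4.trans b1, k5.trans ?_⟩
  have q1 : Continuous fun x => (∑ i ∈ s, (f i x + g i x)) ^ 2 := hc.pow 2
  have q2 : Continuous fun x => (∑ i ∈ s, (f' i x + g' i x)) ^ 2 := hc'.pow 2
  rw [intervalIntegral.integral_add (q1.intervalIntegrable _ _) (q2.intervalIntegrable _ _)]
  nlinarith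

/-- the total displacement field of the configuration against the base configuration, on the
quanta of species `s` -/
def dFB (P : Par) {r : ℕ} (O : Fin r → Xo) (η : ℝ → ℝ) (s : Bool) (t : ℝ) : ℝ :=
  ∑ i, (Real.log (potN P O i s (NUP1.vl (NUP1.l - η t) t)) - PT s (cbase P (O i)) 0 t)

/-- size of the localised part -/
def Bd (δ0 ε : ℝ) : ℝ := 400 * ε / Real.sin (δ0 * NUMF.l) ^ 4

/-- size of the part which does not decay -/
def Ad (δ0 : ℝ) (P : Par) {r : ℕ} (O : Fin r → Xo) : ℝ :=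
  6 / Real.sin (δ0 * NUMF.l) ^ 2 * ∑ i, rr P O i

theorem parts_fields {δ0 ε ε1 : ℝ} {η η' : ℝ → ℝ} (P : Par) {r : ℕ} (O : Fin r → Xo)
    (h0 : 0 < δ0) (hε2 : δ0 + ε ≤ 1 / 2)
    (hη : ∀ t, |η t| ≤ ε1) (hη' : ∀ t, |η' t| ≤ ε1) (hdη : ∀ t, HasDerivAt η (η' t) t)
    (hcη : Continuous η') (hd : 0 ≤ P.d r) (hρ0 : ∀ i, 0 ≤ rr P O i) (hρ1 : ∀ i, rr P O i ≤ 1)
    (he : ∀ i, P.d r + rr P O i / NUMF.l + ε1 / NUMF.l ≤ ε) (hjL : Off (δ0 + ε) P.jL)
    (he0 : Off (δ0 + ε) P.e) (s : Bool) (i : Fin r) :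
    SFe (Bd δ0 ε) (ht (O i))
      (fun t => Real.log (potN P O i s (NUP1.vl (NUP1.l - η t) t)) - PT s (cref P O i) 0 t) ∧
    VFe (6 / Real.sin (δ0 * NUMF.l) ^ 2 * rr P O i) (Bd δ0 ε) (ht (O i))
      (fun t => PT s (cref P O i) 0 t - PT s (cbase P (O i)) 0 t) := by
  have hl := l_pos
  have hfl := NUO.four_l
  have h1 := SFe_potN P O i h0 hε2 hη hη' hdη hcη hd (hρ0 i) (hρ1 i) (he i) hjL he0 s
  refine ⟨h1, ?_⟩
  have hl1 : NUMF.l ≤ 1 := by
    have := Real.pi_lt_four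
    linarith
  have hε1 : 0 ≤ ε1 := (abs_nonneg _).trans (hη 0)
  have hρl : rr P O i / NUMF.l ≤ ε := by
    have h2 := he i
    have h3 : 0 ≤ ε1 / NUMF.l := by positivity
    linarith
  have hρε : rr P O i ≤ ε := by
    rw [div_le_iff₀ hl] at hρl
    have h4 : 0 ≤ ε := by
      have h5 := hρ0 i
      by_contra h
      push Not at h
      nlinarith
    nlinarith
  have hε0 : 0 ≤ ε := (hρ0 i).trans hρε
  have h01 : δ0 ≤ 1 := by linarith
  have h2 : Off δ0 P.e := NUDispP.Off.weaken he0 (by linarith)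
  refine (VFe_sat P O i h0 h01 h2 (hρ0 i) s).mono le_rfl ?_
  have hs : 0 < Real.sin (δ0 * NUMF.l) := by
    refine Real.sin_pos_of_pos_of_lt_pi (by positivity) ?_
    nlinarith [Real.pi_pos]
  have hexp : Real.exp (2 * rr P O i) ≤ 8 := by
    have h3 : Real.exp (2 * rr P O i) ≤ Real.exp 2 := Real.exp_le_exp.2 (by linarith [hρ1 i])
    have h4 : Real.exp 2 = Real.exp 1 * Real.exp 1 := by rw [← Real.exp_add]; norm_num
    have h5 := Real.exp_one_lt_d9
    have h6 := Real.exp_pos 1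
    nlinarith
  have h7 := hρ0 i
  unfold Bd
  calc 48 / Real.sin (δ0 * NUMF.l) ^ 4 * Real.exp (2 * rr P O i) * rr P O i ≤
      48 / Real.sin (δ0 * NUMF.l) ^ 4 * 8 * ε := by gcongr
    _ = 384 * ε / Real.sin (δ0 * NUMF.l) ^ 4 := by ring
    _ ≤ _ := by
      gcongr
      norm_num

/-- **the total displacement field** (O4d): on the window it is a Fourier series with energy
`≤ 36 B² Kw win + 12 A² L` -/
theorem dFB_repr {G L T δ0 ε ε1 : ℝ} (hG : 9 ≤ G) (hL : 0 < L) (hT : 2 * T + 2 ≤ L)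
    {η η' : ℝ → ℝ} (P : Par) {r : ℕ} (O : Fin r → Xo)
    (h0 : 0 < δ0) (hε2 : δ0 + ε ≤ 1 / 2)
    (hη : ∀ t, |η t| ≤ ε1) (hη' : ∀ t, |η' t| ≤ ε1) (hdη : ∀ t, HasDerivAt η (η' t) t)
    (hcη : Continuous η') (hd : 0 ≤ P.d r) (hρ0 : ∀ i, 0 ≤ rr P O i) (hρ1 : ∀ i, rr P O i ≤ 1)
    (he : ∀ i, P.d r + rr P O i / NUMF.l + ε1 / NUMF.l ≤ ε) (hjL : Off (δ0 + ε) P.jL)
    (he0 : Off (δ0 + ε) P.e) (s : Bool) :
    ∃ (F0 : ℝ) (c : ℕ → ℂ), (Summable fun p => ‖c p‖) ∧
      (∀ t, |t| ≤ T → dFB P O η s t = F0 + Aser c (2 * Real.pi * t / L)) ∧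
      (Summable fun p => L * ‖c p‖ ^ 2 / NUC62.uh G (NUC62.kp L p)) ∧
      L * F0 ^ 2 ≤ 2 * (Bd δ0 ε ^ 2 * Kw * win Finset.univ (fun i => ht (O i))) +
        2 * Ad δ0 P O ^ 2 * L ∧
      ∑' p, L * ‖c p‖ ^ 2 / NUC62.uh G (NUC62.kp L p) ≤
        36 * (Bd δ0 ε ^ 2 * Kw * win Finset.univ (fun i => ht (O i))) +
          12 * Ad δ0 P O ^ 2 * L := by
  have hp := parts_fields P O h0 hε2 hη hη' hdη hcη hd hρ0 hρ1 he hjL he0 s
  obtain ⟨F0, c, k1, k2, k3⟩ := fieldsV_repr (A := Ad δ0 P O) hG hL hT Finset.univ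
    (fun i => ht (O i)) (fun i => 6 / Real.sin (δ0 * NUMF.l) ^ 2 * rr P O i)
    (fun i t => Real.log (potN P O i s (NUP1.vl (NUP1.l - η t) t)) - PT s (cref P O i) 0 t)
    (fun i t => PT s (cref P O i) 0 t - PT s (cbase P (O i)) 0 t)
    (fun i _ => (hp i).1) (fun i _ => (hp i).2) (by rw [Ad, Finset.mul_sum])
  refine ⟨F0, c, k1, fun t ht' => ?_, k3⟩
  rw [← k2 t ht', dFB]
  refine Finset.sum_congr rfl fun i _ => ?_
  ring

/-- pointwise bound of the total displacement field -/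
theorem dFB_le {δ0 ε ε1 : ℝ} {η η' : ℝ → ℝ} (P : Par) {r : ℕ} (O : Fin r → Xo)
    (h0 : 0 < δ0) (hε2 : δ0 + ε ≤ 1 / 2)
    (hη : ∀ t, |η t| ≤ ε1) (hη' : ∀ t, |η' t| ≤ ε1) (hdη : ∀ t, HasDerivAt η (η' t) t)
    (hcη : Continuous η') (hd : 0 ≤ P.d r) (hρ0 : ∀ i, 0 ≤ rr P O i) (hρ1 : ∀ i, rr P O i ≤ 1)
    (he : ∀ i, P.d r + rr P O i / NUMF.l + ε1 / NUMF.l ≤ ε) (hjL : Off (δ0 + ε) P.jL)
    (he0 : Off (δ0 + ε) P.e) (s : Bool) (t : ℝ) :
    |dFB P O η s t| ≤ Bd δ0 ε * bmaj Finset.univ (fun i => ht (O i)) 2 t + Ad δ0 P O := by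
  have hp := parts_fields P O h0 hε2 hη hη' hdη hcη hd hρ0 hρ1 he hjL he0 s
  have e : dFB P O η s t = ∑ i, (Real.log (potN P O i s (NUP1.vl (NUP1.l - η t) t)) -
      PT s (cref P O i) 0 t) + ∑ i, (PT s (cref P O i) 0 t - PT s (cbase P (O i)) 0 t) := by
    rw [dFB, ← Finset.sum_add_distrib]
    refine Finset.sum_congr rfl fun i _ => ?_
    ring
  rw [e]
  refine (abs_add_le _ _).trans (add_le_add ?_ ?_)
  · refine sum_abs_le Finset.univ (fun i => ht (O i))
      (fun i t => Real.log (potN P O i s (NUP1.vl (NUP1.l - η t) t)) - PT s (cref P O i) 0 t)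
      t fun i _ => ?_
    obtain ⟨f', h⟩ := (hp i).1
    exact h.le t
  · rw [Ad, Finset.mul_sum]
    refine (Finset.abs_sum_le_sum_abs _ _).trans (Finset.sum_le_sum fun i _ => ?_)
    obtain ⟨f', h⟩ := (hp i).2
    exact h.le t

end NUDispV
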