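import Pool.Agent.NUO.SBlock

/-!
# NUO/MHat (helper9): the transforms of the dressed pair kernels of (STAB), divided by `P`

`z = y / 4 = π k / 32`, `ch n z = cosh (n z) = c_{n/4}`, `P = 2π / (k sinh 4y)` (as in `NUSB`).
Base kinds `L` (offset 9/4), `T = St` (3/2, 5/2), `S` (9/4, 13/4), `V = Svv` (`S` with two satellites
at 1/4); `Sv = (S + Svv) / 2`.
* `fX a`, `fY a`: transforms of the potentials `-log |pair function|` with a quantum of the own /
  other species on the line `A`; for `S` the slack `psi` is subtracted from `fX`;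
* `bb a b`, `xb a b`: direct pair energies, same / opposite species;
* `Ms a b`, `Mc a b`: the dressed kernels (full Schur form), same / opposite species.
-/

set_option autoImplicit false

namespace NUMH

open NUSB

noncomputable section

/-- base kinds -/
inductive B
  | L | T | S | V
  deriving DecidableEq

def fXL (z : ℝ) : ℝ := (ch 1 z - ch 3 z + 2 * ch 7 z - ch 11 z + ch 15 z) / 2
def fYL (z : ℝ) : ℝ := - ch 5 z + ch 9 z - ch 13 z
def fXT (z : ℝ) : ℝ := (ch 2 z + ch 6 z + ch 10 z + ch 14 z) / 2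
def fYT (z : ℝ) : ℝ := - ch 2 z - ch 14 z

/-- own species potential (slack included) -/
def fX : B → ℝ → ℝ
  | .L => fXL
  | .T => fXT
  | .S => fun z => fXS z - psi z
  | .V => fXV

/-- other species potential -/
def fY : B → ℝ → ℝ
  | .L => fYL
  | .T => fYT
  | .S => fYS
  | .V => fYV

def bLT (z : ℝ) : ℝ := (ch 5 z + ch 7 z + ch 13 z + ch 15 z) / 2
def bLS (z : ℝ) : ℝ := (ch 4 z + ch 8 z + ch 12 z + ch 16 z) / 2
def bLV (z : ℝ) : ℝ := (-3 * ch 4 z + 5 * ch 8 z - 3 * ch 12 z + ch 16 z) / 2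
def bTS (z : ℝ) : ℝ :=
  (ch 1 z + ch 5 z + ch 7 z + ch 9 z + ch 11 z + 2 * ch 13 z + ch 15 z) / 2
def bTV (z : ℝ) : ℝ :=
  (-3 * ch 1 z + ch 5 z + ch 7 z + ch 9 z + ch 11 z - 2 * ch 13 z + ch 15 z) / 2

/-- direct energy, same species -/
def bb : B → B → ℝ → ℝ
  | .L, .L => fun z => ch 8 z - ch 12 z + ch 16 z
  | .L, .T => bLT
  | .T, .L => bLT
  | .L, .S => bLS
  | .S, .L => bLS
  | .L, .V => bLV
  | .V, .L => bLV
  | .T, .T => fun z => ch 4 z + ch 8 z + ch 12 z + ch 16 z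
  | .T, .S => bTS
  | .S, .T => bTS
  | .T, .V => bTV
  | .V, .T => bTV
  | .S, .S => bSS
  | .S, .V => bSV
  | .V, .S => bSV
  | .V, .V => bVV

def xLT (z : ℝ) : ℝ := - ch 5 z - ch 7 z
def xLS (z : ℝ) : ℝ := - ch 4 z - ch 8 z
def xLV (z : ℝ) : ℝ := 1 - 2 * ch 4 z + ch 8 z - ch 12 z + ch 16 z
def xTS (z : ℝ) : ℝ := - ch 1 z - ch 5 z - ch 7 z - ch 11 z
def xTV (z : ℝ) : ℝ := - ch 5 z + ch 13 z
def xSV (z : ℝ) : ℝ := - ch 8 z + ch 16 z

/-- direct energy, opposite species -/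
def xb : B → B → ℝ → ℝ
  | .L, .L => fun z => 1 - 2 * ch 4 z
  | .L, .T => xLT
  | .T, .L => xLT
  | .L, .S => xLS
  | .S, .L => xLS
  | .L, .V => xLV
  | .V, .L => xLV
  | .T, .T => fun z => -2 * ch 4 z - 2 * ch 8 z
  | .T, .S => xTS
  | .S, .T => xTS
  | .T, .V => xTV
  | .V, .T => xTV
  | .S, .S => fun z => -2 * ch 4 z - 2 * ch 8 z
  | .S, .V => xSV
  | .V, .S => xSV
  | .V, .V => fun z => 4 - 6 * ch 4 z + 2 * ch 16 z

/-- dressed kernel, same species, over `P` -/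
def Ms (a b : B) (z : ℝ) : ℝ :=
  bb a b z - (1 / 2) * ((fX a z + fY a z) * (fX b z + fY b z) / up z
    + (fX a z - fY a z) * (fX b z - fY b z) / um z)

/-- dressed kernel, opposite species, over `P` -/
def Mc (a b : B) (z : ℝ) : ℝ :=
  xb a b z - (1 / 2) * ((fX a z + fY a z) * (fX b z + fY b z) / up z
    - (fX a z - fY a z) * (fX b z - fY b z) / um z)

theorem bb_symm (a b : B) (z : ℝ) : bb a b z = bb b a z := by cases a <;> cases b <;> rfl
theorem xb_symm (a b : B) (z : ℝ) : xb a b z = xb b a z := by cases a <;> cases b <;> rfl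

theorem Ms_symm (a b : B) (z : ℝ) : Ms a b z = Ms b a z := by
  unfold Ms; rw [bb_symm]; ring
theorem Mc_symm (a b : B) (z : ℝ) : Mc a b z = Mc b a z := by
  unfold Mc; rw [xb_symm]; ring

/-- `k ↦ z` -/
def zk (k : ℝ) : ℝ := Real.pi * k / 32

/-- `P = 2π / (k sinh 4y)` -/
def PP (k : ℝ) : ℝ := 2 * Real.pi / (k * Real.sinh (16 * zk k))

theorem zk_pos {k : ℝ} (hk : 0 < k) : 0 < zk k := by
  unfold zk; have := Real.pi_pos; positivity

theorem PP_pos {k : ℝ} (hk : 0 < k) : 0 < PP k := by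
  unfold PP
  have := Real.pi_pos
  have := zk_pos hk
  have : 0 < Real.sinh (16 * zk k) := Real.sinh_pos_iff.2 (by positivity)
  positivity

/-! the entries of `NUSB` -/

theorem Ms_SS (z : ℝ) : Ms .S .S z = eSS z + NN z + core z + gg z := by
  unfold Ms eSS; simp only [bb, fX, fY]; ring
theorem Ms_SV (z : ℝ) : Ms .S .V z = eSV z + NN z - core z - gg z * al z := by
  unfold Ms eSV; simp only [bb, fX, fY]; ring
theorem Ms_VV (z : ℝ) : Ms .V .V z = eVV z + NN z + core z + gg z * al z ^ 2 := by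
  unfold Ms eVV; simp only [bb, fX, fY]; ring

end

end NUMH
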