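import Pool.Agent.NUO.PosK
import Pool.Agent.NUP.MF.Forward

/-!
# Non-unimodal base kernels

`A (cosh (x y) - cosh (a y)) - (cosh (b y) - cosh (x y))` over `k sinh (N y)`, `y = π k / 8`, is in `PK`
when the real space function `A log ((C + α)/(C + β)) - log ((C + β)/(C + γ))` is nonnegative at `C = 1`
(and `β - γ ≤ A (α - β)`); `α = cos (a π/N)`, `β = cos (x π/N)`, `γ = cos (b π/N)`.
-/

set_option autoImplicit false

open MeasureTheory Set Filter Topology

namespace NUPosK

/-- the real inequality -/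
lemma logcomb_nonneg {α β γ A : ℝ} (hγ : -1 < γ) (hγβ : γ ≤ β) (hβα : β ≤ α)
    (h1 : β - γ ≤ A * (α - β))
    (h2 : Real.log (1 + β) - Real.log (1 + γ) ≤ A * (Real.log (1 + α) - Real.log (1 + β)))
    {C : ℝ} (hC : 1 ≤ C) :
    0 ≤ A * (Real.log (C + α) - Real.log (C + β)) - (Real.log (C + β) - Real.log (C + γ)) := by
  set F : ℝ → ℝ := fun C => A * (Real.log (C + α) - Real.log (C + β)) -
    (Real.log (C + β) - Real.log (C + γ)) with hF
  have hd : ∀ C : ℝ, 1 ≤ C → HasDerivAt F
      (((β - γ) * (C + α) - A * (α - β) * (C + γ)) / ((C + α) * (C + β) * (C + γ))) C := by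
    intro C hC
    have p1 : C + α ≠ 0 := by linarith
    have p2 : C + β ≠ 0 := by linarith
    have p3 : C + γ ≠ 0 := by linarith
    have e : ∀ a : ℝ, C + a ≠ 0 → HasDerivAt (fun C : ℝ => Real.log (C + a)) (C + a)⁻¹ C := by
      intro a h
      have := ((hasDerivAt_id C).add_const a).log h
      simpa using this
    have := (((e α p1).sub (e β p2)).const_mul A).sub ((e β p2).sub (e γ p3))
    refine this.congr_deriv ?_
    field_simp
    ring
  have hcont : ∀ s : Set ℝ, s ⊆ Ici 1 → ContinuousOn F s :=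
    fun s hs x hx => (hd x (hs hx)).continuousAt.continuousWithinAt
  have hsl : ∀ C D : ℝ, C ≤ D → (β - γ) * (D + α) - A * (α - β) * (D + γ) ≤
      (β - γ) * (C + α) - A * (α - β) * (C + γ) := by
    intro C D h
    nlinarith
  have h0 : 0 ≤ F 1 := by
    simp only [hF]
    linarith
  change 0 ≤ F C
  rcases le_or_gt 0 ((β - γ) * (C + α) - A * (α - β) * (C + γ)) with h | h
  · have hm : MonotoneOn F (Icc 1 C) := by
      refine monotoneOn_of_deriv_nonneg (convex_Icc _ _) (hcont _ fun x hx => hx.1) ?_ ?_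
      · intro x hx
        rw [interior_Icc] at hx
        exact (hd x hx.1.le).differentiableAt.differentiableWithinAt
      · intro x hx
        rw [interior_Icc] at hx
        rw [(hd x hx.1.le).deriv]
        have q1 : 0 < x + α := by linarith [hx.1]
        have q2 : 0 < x + β := by linarith [hx.1]
        have q3 : 0 < x + γ := by linarith [hx.1]
        exact div_nonneg (h.trans (hsl x C hx.2.le)) (by positivity)
    exact h0.trans (hm ⟨le_rfl, hC⟩ ⟨hC, le_rfl⟩ hC)
  · have hm : AntitoneOn F (Ici C) := by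
      refine antitoneOn_of_deriv_nonpos (convex_Ici _) (hcont _ fun x hx => hC.trans hx) ?_ ?_
      · intro x hx
        rw [interior_Ici] at hx
        exact (hd x (hC.trans hx.le)).differentiableAt.differentiableWithinAt
      · intro x hx
        rw [interior_Ici] at hx
        have hx1 : 1 < x := lt_of_le_of_lt hC hx
        rw [(hd x hx1.le).deriv]
        have q1 : 0 < x + α := by linarith
        have q2 : 0 < x + β := by linarith
        have q3 : 0 < x + γ := by linarith
        exact div_nonpos_of_nonpos_of_nonneg ((hsl C x hx.le).trans h.le) (by positivity)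
    have hlim : Tendsto F atTop (𝓝 0) := by
      have e1 := Real.tendsto_log_comp_add_sub_log α
      have e2 := Real.tendsto_log_comp_add_sub_log β
      have e3 := Real.tendsto_log_comp_add_sub_log γ
      have := ((e1.sub e2).const_mul A).sub (e2.sub e3)
      simp only [sub_zero, mul_zero] at this
      refine this.congr fun x => ?_
      simp only [hF]
      ring
    exact le_of_tendsto hlim (eventually_atTop.2 ⟨C, fun x hx => hm self_mem_Ici hx hx⟩)

/-- differences of two cosh over `k sinh (4 y)`, with the value of the transform -/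
lemma cosh_sub_transform {a b : ℝ} (ha : |a| < 4) (hb : |b| < 4) (t : ℝ) :
    IntegrableOn (fun k => 1 / k * (Real.cosh (b * (Real.pi * k / 8)) - Real.cosh (a * (Real.pi * k / 8))) /
        Real.sinh (4 * (Real.pi * k / 8)) * Real.cos (k * t)) (Ioi 0) ∧
    ∫ k in Ioi (0:ℝ), 1 / k * (Real.cosh (b * (Real.pi * k / 8)) - Real.cosh (a * (Real.pi * k / 8))) /
        Real.sinh (4 * (Real.pi * k / 8)) * Real.cos (k * t) =
      (Real.log (Real.cosh (2 * t) + Real.cos (a * Real.pi / 4)) -
        Real.log (Real.cosh (2 * t) + Real.cos (b * Real.pi / 4))) / 2 := by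
  have hpi := Real.pi_pos
  have aux : ∀ c : ℝ, |c| < 4 → |Real.pi / 8 * c| < Real.pi / 2 := by
    intro c hc
    rw [abs_mul, abs_of_pos (by positivity : (0:ℝ) < Real.pi / 8)]
    calc Real.pi / 8 * |c| < Real.pi / 8 * 4 := by gcongr
      _ = Real.pi / 2 := by ring
  obtain ⟨i, e⟩ := NUMF.h_sub_fourier (aux a ha) (aux b hb) t
  have hf : ∀ k : ℝ, 2 * Real.cos (t * k) * (Real.cosh (Real.pi / 8 * b * k) - Real.cosh (Real.pi / 8 * a * k)) /
      (k * NUMF.sk k) = 2 * (1 / k * (Real.cosh (b * (Real.pi * k / 8)) - Real.cosh (a * (Real.pi * k / 8))) /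
        Real.sinh (4 * (Real.pi * k / 8)) * Real.cos (k * t)) := by
    intro k
    unfold NUMF.sk
    have e1 : Real.pi / 8 * b * k = b * (Real.pi * k / 8) := by ring
    have e2 : Real.pi / 8 * a * k = a * (Real.pi * k / 8) := by ring
    have e3 : Real.pi / 2 * k = 4 * (Real.pi * k / 8) := by ring
    rw [e1, e2, e3, mul_comm t k]
    rcases eq_or_ne k 0 with rfl | hk
    · simp
    · field_simp
  simp_rw [hf] at i e
  rw [integral_const_mul] at e
  refine ⟨?_, ?_⟩
  · have := i.const_mul (1 / 2)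
    refine this.congr (Eventually.of_forall fun k => ?_)
    simp only []
    ring
  · have e4 : NUMF.h t (Real.pi / 8 * a) = Real.log (Real.cosh (2 * t) + Real.cos (a * Real.pi / 4)) := by
      unfold NUMF.h
      congr 3
      ring
    have e5 : NUMF.h t (Real.pi / 8 * b) = Real.log (Real.cosh (2 * t) + Real.cos (b * Real.pi / 4)) := by
      unfold NUMF.h
      congr 3
      ring
    rw [e4, e5] at e
    linarith

/-- **(E4)** -/
theorem PK_E4 {a x b A : ℝ} (ha : 0 ≤ a) (hax : a ≤ x) (hxb : x ≤ b) (hb : b < 4)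
    (h1 : Real.cos (x * Real.pi / 4) - Real.cos (b * Real.pi / 4) ≤
      A * (Real.cos (a * Real.pi / 4) - Real.cos (x * Real.pi / 4)))
    (h2 : Real.log (1 + Real.cos (x * Real.pi / 4)) - Real.log (1 + Real.cos (b * Real.pi / 4)) ≤
      A * (Real.log (1 + Real.cos (a * Real.pi / 4)) - Real.log (1 + Real.cos (x * Real.pi / 4)))) :
    PK (fun k => 1 / k * (A * (Real.cosh (x * (Real.pi * k / 8)) - Real.cosh (a * (Real.pi * k / 8))) -
      (Real.cosh (b * (Real.pi * k / 8)) - Real.cosh (x * (Real.pi * k / 8)))) /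
        Real.sinh (4 * (Real.pi * k / 8))) := by
  have hpi := Real.pi_pos
  have hx4 : x < 4 := lt_of_le_of_lt hxb hb
  have ha4 : a < 4 := lt_of_le_of_lt hax hx4
  have ab : ∀ c : ℝ, 0 ≤ c → c < 4 → |c| < 4 := fun c h0 h4 => by rwa [abs_of_nonneg h0]
  have ta := ab a ha ha4
  have tx := ab x (ha.trans hax) hx4
  have tb := ab b ((ha.trans hax).trans hxb) hb
  have hf : ∀ k t : ℝ, 1 / k * (A * (Real.cosh (x * (Real.pi * k / 8)) - Real.cosh (a * (Real.pi * k / 8))) -
      (Real.cosh (b * (Real.pi * k / 8)) - Real.cosh (x * (Real.pi * k / 8)))) /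
        Real.sinh (4 * (Real.pi * k / 8)) * Real.cos (k * t) =
      A * (1 / k * (Real.cosh (x * (Real.pi * k / 8)) - Real.cosh (a * (Real.pi * k / 8))) /
        Real.sinh (4 * (Real.pi * k / 8)) * Real.cos (k * t)) -
      1 / k * (Real.cosh (b * (Real.pi * k / 8)) - Real.cosh (x * (Real.pi * k / 8))) /
        Real.sinh (4 * (Real.pi * k / 8)) * Real.cos (k * t) := fun k t => by ring
  refine ⟨?_, fun t => ?_⟩
  · have i1 := (cosh_sub_transform ta tx 0).1.const_mul A
    have i2 := (cosh_sub_transform tx tb 0).1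
    refine (i1.sub i2).congr (Eventually.of_forall fun k => ?_)
    have := hf k 0
    simp only [mul_zero, Real.cos_zero, mul_one, Pi.sub_apply] at this ⊢
    exact this.symm
  · obtain ⟨i1, e1⟩ := cosh_sub_transform ta tx t
    obtain ⟨i2, e2⟩ := cosh_sub_transform tx tb t
    simp_rw [hf _ t]
    rw [integral_sub (i1.const_mul A) i2, integral_const_mul, e1, e2]
    have c1 : Real.cos (x * Real.pi / 4) ≤ Real.cos (a * Real.pi / 4) :=
      Real.cos_le_cos_of_nonneg_of_le_pi (by positivity) (by nlinarith) (by nlinarith)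
    have c2 : Real.cos (b * Real.pi / 4) ≤ Real.cos (x * Real.pi / 4) :=
      Real.cos_le_cos_of_nonneg_of_le_pi (by have := ha.trans hax; positivity) (by nlinarith) (by nlinarith)
    have c3 : -1 < Real.cos (b * Real.pi / 4) := by
      rw [← Real.cos_pi]
      exact Real.cos_lt_cos_of_nonneg_of_le_pi (by have := (ha.trans hax).trans hxb; positivity) le_rfl
        (by nlinarith)
    have := logcomb_nonneg c3 c2 c1 h1 h2 (C := Real.cosh (2 * t)) (Real.one_le_cosh _)
    linarith

/-- `log` hypothesis from a power inequality, `A = p / q` -/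
lemma log_hyp {α β γ : ℝ} (hγ : -1 < γ) (hγβ : γ ≤ β) (hβα : β ≤ α) {p q : ℕ} (hq : 0 < q)
    (h : (1 + β) ^ (p + q) ≤ (1 + α) ^ p * (1 + γ) ^ q) :
    Real.log (1 + β) - Real.log (1 + γ) ≤ (p / q : ℝ) * (Real.log (1 + α) - Real.log (1 + β)) := by
  have h1 : 0 < 1 + γ := by linarith
  have h2 : 0 < 1 + β := by linarith
  have h3 : 0 < 1 + α := by linarith
  have := Real.log_le_log (by positivity) h
  rw [Real.log_mul (by positivity) (by positivity), Real.log_pow, Real.log_pow, Real.log_pow] at this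
  push_cast at this
  have hq' : (0:ℝ) < q := by exact_mod_cast hq
  rw [div_mul_eq_mul_div, le_div_iff₀ hq']
  linarith

/-- **(E)**, general `N` -/
theorem PK_E {a x b A N : ℝ} (hN : 0 < N) (ha : 0 ≤ a) (hax : a ≤ x) (hxb : x ≤ b) (hb : b < N)
    (h1 : Real.cos (x * Real.pi / N) - Real.cos (b * Real.pi / N) ≤
      A * (Real.cos (a * Real.pi / N) - Real.cos (x * Real.pi / N)))
    (h2 : Real.log (1 + Real.cos (x * Real.pi / N)) - Real.log (1 + Real.cos (b * Real.pi / N)) ≤
      A * (Real.log (1 + Real.cos (a * Real.pi / N)) - Real.log (1 + Real.cos (x * Real.pi / N)))) :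
    PK (fun k => 1 / k * (A * (Real.cosh (x * (Real.pi * k / 8)) - Real.cosh (a * (Real.pi * k / 8))) -
      (Real.cosh (b * (Real.pi * k / 8)) - Real.cosh (x * (Real.pi * k / 8)))) /
        Real.sinh (N * (Real.pi * k / 8))) := by
  have e : ∀ c : ℝ, 4 * c / N * Real.pi / 4 = c * Real.pi / N := fun c => by ring
  have hb' : 4 * b / N < 4 := by
    rw [div_lt_iff₀ hN]
    linarith
  have h := PK_E4 (a := 4 * a / N) (x := 4 * x / N) (b := 4 * b / N) (A := A)
    (by positivity) (by gcongr) (by gcongr) hb' (by rw [e, e, e]; exact h1) (by rw [e, e, e]; exact h2)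
  refine ((h.dilate (l := N / 4) (by positivity)).smul (c := N / 4) (by positivity)).congr fun k hk => ?_
  have e2 : ∀ c : ℝ, 4 * c / N * (Real.pi * (N / 4 * k) / 8) = c * (Real.pi * k / 8) := fun c => by
    field_simp
  have e3 : 4 * (Real.pi * (N / 4 * k) / 8) = N * (Real.pi * k / 8) := by ring
  rw [e2, e2, e2, e3]
  field_simp

/-- **(E4)**, multiplier form -/
theorem MK_E4 {a x b A : ℝ} (ha : 0 ≤ a) (hax : a ≤ x) (hxb : x ≤ b) (hb : b < 4)
    (h1 : Real.cos (x * Real.pi / 4) - Real.cos (b * Real.pi / 4) ≤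
      A * (Real.cos (a * Real.pi / 4) - Real.cos (x * Real.pi / 4)))
    (h2 : Real.log (1 + Real.cos (x * Real.pi / 4)) - Real.log (1 + Real.cos (b * Real.pi / 4)) ≤
      A * (Real.log (1 + Real.cos (a * Real.pi / 4)) - Real.log (1 + Real.cos (x * Real.pi / 4)))) :
    MK (fun k => 1 / k * (A * (Real.cosh (x * (Real.pi * k / 8)) - Real.cosh (a * (Real.pi * k / 8))) -
      (Real.cosh (b * (Real.pi * k / 8)) - Real.cosh (x * (Real.pi * k / 8)))) /
        Real.sinh (4 * (Real.pi * k / 8))) := by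
  have hpi := Real.pi_pos
  have hx4 : x < 4 := lt_of_le_of_lt hxb hb
  have ha4 : a < 4 := lt_of_le_of_lt hax hx4
  have aux : ∀ c : ℝ, 0 ≤ c → c < 4 → |Real.pi / 8 * c| ≤ Real.pi / 2 := by
    intro c h0 hc
    rw [abs_of_nonneg (by positivity)]
    nlinarith
  have hl4 : 4 * NUMF.l = Real.pi / 2 := by unfold NUMF.l; ring
  have ta := aux a ha ha4
  have tx := aux x (ha.trans hax) hx4
  have tb := aux b ((ha.trans hax).trans hxb) hb
  have i1 := (NUMF.integral_h_sub (by rw [hl4]; exact ta) (by rw [hl4]; exact tx)).1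
  have i2 := (NUMF.integral_h_sub (by rw [hl4]; exact tx) (by rw [hl4]; exact tb)).1
  refine ⟨fun t => (2 * Real.pi)⁻¹ * (A * (NUMF.h t (Real.pi / 8 * a) - NUMF.h t (Real.pi / 8 * x)) -
    (NUMF.h t (Real.pi / 8 * x) - NUMF.h t (Real.pi / 8 * b))), ((i1.const_mul A).sub i2).const_mul _,
    fun t => ?_, fun k hk => ?_⟩
  · have e : ∀ c : ℝ, NUMF.h t (Real.pi / 8 * c) = Real.log (Real.cosh (2 * t) + Real.cos (c * Real.pi / 4)) := by
      intro c
      unfold NUMF.h
      congr 3
      ring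
    simp only [e]
    have c1 : Real.cos (x * Real.pi / 4) ≤ Real.cos (a * Real.pi / 4) :=
      Real.cos_le_cos_of_nonneg_of_le_pi (by positivity) (by nlinarith) (by nlinarith)
    have c2 : Real.cos (b * Real.pi / 4) ≤ Real.cos (x * Real.pi / 4) :=
      Real.cos_le_cos_of_nonneg_of_le_pi (by have := ha.trans hax; positivity) (by nlinarith) (by nlinarith)
    have c3 : -1 < Real.cos (b * Real.pi / 4) := by
      rw [← Real.cos_pi]
      exact Real.cos_lt_cos_of_nonneg_of_le_pi (by have := (ha.trans hax).trans hxb; positivity) le_rfl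
        (by nlinarith)
    exact mul_nonneg (by positivity)
      (logcomb_nonneg c3 c2 c1 h1 h2 (C := Real.cosh (2 * t)) (Real.one_le_cosh _))
  · obtain ⟨j1, f1⟩ := NUMF.h_forward ta tx hk
    obtain ⟨j2, f2⟩ := NUMF.h_forward tx tb hk
    have e : (fun t => (2 * Real.pi)⁻¹ * (A * (NUMF.h t (Real.pi / 8 * a) - NUMF.h t (Real.pi / 8 * x)) -
        (NUMF.h t (Real.pi / 8 * x) - NUMF.h t (Real.pi / 8 * b))) * Real.cos (k * t)) =
        fun t => (2 * Real.pi)⁻¹ * (A * ((NUMF.h t (Real.pi / 8 * a) - NUMF.h t (Real.pi / 8 * x)) *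
          Real.cos (k * t)) - (NUMF.h t (Real.pi / 8 * x) - NUMF.h t (Real.pi / 8 * b)) * Real.cos (k * t)) := by
      funext t
      ring
    rw [e, integral_const_mul, integral_sub (j1.const_mul A) j2, integral_const_mul, f1, f2]
    have hs := NUMF.sk_pos hk
    have e1 : ∀ c : ℝ, Real.pi / 8 * c * k = c * (Real.pi * k / 8) := fun c => by ring
    have e3 : NUMF.sk k = Real.sinh (4 * (Real.pi * k / 8)) := by
      unfold NUMF.sk
      congr 1
      ring
    rw [e1, e1, e1]
    rw [e3] at hs ⊢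
    field_simp

/-- **(E)**, multiplier form, general `N` -/
theorem MK_E {a x b A N : ℝ} (hN : 0 < N) (ha : 0 ≤ a) (hax : a ≤ x) (hxb : x ≤ b) (hb : b < N)
    (h1 : Real.cos (x * Real.pi / N) - Real.cos (b * Real.pi / N) ≤
      A * (Real.cos (a * Real.pi / N) - Real.cos (x * Real.pi / N)))
    (h2 : Real.log (1 + Real.cos (x * Real.pi / N)) - Real.log (1 + Real.cos (b * Real.pi / N)) ≤
      A * (Real.log (1 + Real.cos (a * Real.pi / N)) - Real.log (1 + Real.cos (x * Real.pi / N)))) :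
    MK (fun k => 1 / k * (A * (Real.cosh (x * (Real.pi * k / 8)) - Real.cosh (a * (Real.pi * k / 8))) -
      (Real.cosh (b * (Real.pi * k / 8)) - Real.cosh (x * (Real.pi * k / 8)))) /
        Real.sinh (N * (Real.pi * k / 8))) := by
  have e : ∀ c : ℝ, 4 * c / N * Real.pi / 4 = c * Real.pi / N := fun c => by ring
  have hb' : 4 * b / N < 4 := by
    rw [div_lt_iff₀ hN]
    linarith
  have h := MK_E4 (a := 4 * a / N) (x := 4 * x / N) (b := 4 * b / N) (A := A)
    (by positivity) (by gcongr) (by gcongr) hb' (by rw [e, e, e]; exact h1) (by rw [e, e, e]; exact h2)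
  refine ((h.dilate (l := N / 4) (by positivity)).smul (c := N / 4) (by positivity)).congr fun k hk => ?_
  have e2 : ∀ c : ℝ, 4 * c / N * (Real.pi * (N / 4 * k) / 8) = c * (Real.pi * k / 8) := fun c => by
    field_simp
  have e3 : 4 * (Real.pi * (N / 4 * k) / 8) = N * (Real.pi * k / 8) := by ring
  rw [e2, e2, e2, e3]
  field_simp

/-! ### the instance used for the pair string / half string of the other kind -/

lemma cos3_sq : Real.cos (3 * Real.pi / 8) ^ 2 = (2 - Real.sqrt 2) / 4 := by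
  have h := Real.cos_sq (3 * Real.pi / 8)
  have e : 2 * (3 * Real.pi / 8) = Real.pi - Real.pi / 4 := by ring
  rw [h, e, Real.cos_pi_sub, Real.cos_pi_div_four]
  ring

lemma cos1_sq : Real.cos (Real.pi / 8) ^ 2 = (2 + Real.sqrt 2) / 4 := by
  have h := Real.cos_sq (Real.pi / 8)
  have e : 2 * (Real.pi / 8) = Real.pi / 4 := by ring
  rw [h, e, Real.cos_pi_div_four]
  ring

lemma cos5_eq : Real.cos (5 * Real.pi / 8) = -Real.cos (3 * Real.pi / 8) := by
  rw [← Real.cos_pi_sub]
  congr 1
  ring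

lemma sqrt2_lo : (1.4142:ℝ) ≤ Real.sqrt 2 := Real.le_sqrt_of_sq_le (by norm_num)

lemma cos3_le : Real.cos (3 * Real.pi / 8) ≤ 0.3827 := by
  have h := cos3_sq
  have h1 := sqrt2_lo
  by_contra h2
  push Not at h2
  nlinarith

lemma cos1_ge : (0.9238:ℝ) ≤ Real.cos (Real.pi / 8) := by
  have h := cos1_sq
  have h1 := sqrt2_lo
  have h3 : 0 ≤ Real.cos (Real.pi / 8) :=
    Real.cos_nonneg_of_mem_Icc ⟨by linarith [Real.pi_pos], by linarith [Real.pi_pos]⟩
  by_contra h2
  push Not at h2
  nlinarith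

lemma cos3_nonneg : 0 ≤ Real.cos (3 * Real.pi / 8) :=
  Real.cos_nonneg_of_mem_Icc ⟨by linarith [Real.pi_pos], by linarith [Real.pi_pos]⟩

/-- `(1+cos 3π/8)^7 ≤ (1+cos π/8)^5 (1+cos 5π/8)^2` -/
lemma num_E2 : (1 + Real.cos (3 * Real.pi / 8)) ^ (5 + 2) ≤
    (1 + Real.cos (Real.pi / 8)) ^ 5 * (1 + Real.cos (5 * Real.pi / 8)) ^ 2 := by
  rw [cos5_eq]
  have h1 := cos3_le
  have h2 := cos1_ge
  have h3 := cos3_nonneg
  calc (1 + Real.cos (3 * Real.pi / 8)) ^ (5 + 2) ≤ (1 + 0.3827) ^ 7 := by gcongr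
    _ ≤ (1 + 0.9238) ^ 5 * (1 + -0.3827) ^ 2 := by norm_num
    _ ≤ _ := by
      have h4 : (0:ℝ) ≤ 1 + -0.3827 := by norm_num
      gcongr

/-- **the base kernel `E2[1/4, 3/4, 5/4; 5/2]`** -/
theorem MK_E2 :
    MK (fun k => 1 / k * (5 / 2 * (Real.cosh (3 / 4 * (Real.pi * k / 8)) - Real.cosh (1 / 4 * (Real.pi * k / 8))) -
      (Real.cosh (5 / 4 * (Real.pi * k / 8)) - Real.cosh (3 / 4 * (Real.pi * k / 8)))) /
        Real.sinh (2 * (Real.pi * k / 8))) := by
  have e1 : (1 / 4 : ℝ) * Real.pi / 2 = Real.pi / 8 := by ring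
  have e2 : (3 / 4 : ℝ) * Real.pi / 2 = 3 * Real.pi / 8 := by ring
  have e3 : (5 / 4 : ℝ) * Real.pi / 2 = 5 * Real.pi / 8 := by ring
  have h1 := cos3_le
  have h2 := cos1_ge
  have h3 := cos3_nonneg
  have h5 : -1 < Real.cos (5 * Real.pi / 8) := by rw [cos5_eq]; linarith
  have h := log_hyp (α := Real.cos (Real.pi / 8)) (β := Real.cos (3 * Real.pi / 8))
    (γ := Real.cos (5 * Real.pi / 8)) h5 (by rw [cos5_eq]; linarith) (by linarith) (p := 5) (q := 2)
    (by norm_num) num_E2
  refine MK_E (a := 1 / 4) (x := 3 / 4) (b := 5 / 4) (A := 5 / 2) (N := 2) (by norm_num) (by norm_num)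
    (by norm_num) (by norm_num) (by norm_num) ?_ ?_
  · rw [e1, e2, e3, cos5_eq]
    linarith
  · rw [e1, e2, e3]
    exact_mod_cast h

end NUPosK
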