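import Pool.Agent.NUO.PosConv
import Pool.Agent.NUO.PosE

/-!
# Generators of the kernel certificates

`z = y / 4 = π k / 32`, `ch n k = cosh (n z)`, `PP k = 2π / (k sinh 16 z)`, `Am = 2 ch 4 - 1`, `BpG = 2 ch 4 + 1`;
denominators `Am^i BpG^j (ch 1)^m (ch 2)^l`.

`G w i j m l`: the kernel `PP * w / (Am^i BpG^j (ch 1)^m (ch 2)^l)` is `PK`;
`U v i j m l`: the factor `v / (Am^i BpG^j (ch 1)^m (ch 2)^l)` is `MK`.
-/

set_option autoImplicit false

open MeasureTheory Set Filter Topology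

namespace NUO

open NUMF NUPosK

noncomputable section

/-- `cosh` in quarter units -/
def ch (n : ℕ) (k : ℝ) : ℝ := Real.cosh (n * (yk k / 4))

/-- the prefactor -/
def PP (k : ℝ) : ℝ := 2 * Real.pi / (k * Real.sinh (4 * yk k))

/-- `2c - 1` -/
def Am (k : ℝ) : ℝ := 2 * ch 4 k - 1

/-- `2c + 1` -/
def BpG (k : ℝ) : ℝ := 2 * ch 4 k + 1

lemma ch_pos (n : ℕ) (k : ℝ) : 0 < ch n k := Real.cosh_pos _

lemma one_le_ch (n : ℕ) (k : ℝ) : 1 ≤ ch n k := Real.one_le_cosh _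

lemma Am_pos (k : ℝ) : 0 < Am k := by
  have := one_le_ch 4 k
  unfold Am
  linarith

lemma Bp_pos (k : ℝ) : 0 < BpG k := by
  have := one_le_ch 4 k
  unfold BpG
  linarith

/-- the kernel is `PK` -/
def G (w : ℝ → ℝ) (i j m l : ℕ) : Prop :=
  PK (fun k => PP k * (w k / (Am k ^ i * BpG k ^ j * ch 1 k ^ m * ch 2 k ^ l)))

/-- the factor is `MK` -/
def U (v : ℝ → ℝ) (i j m l : ℕ) : Prop :=
  MK (fun k => v k / (Am k ^ i * BpG k ^ j * ch 1 k ^ m * ch 2 k ^ l))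

/-! ### algebra -/

lemma G.mul {w v : ℝ → ℝ} {i j m l i' j' m' l' : ℕ} (h : G w i j m l) (hv : U v i' j' m' l') :
    G (fun k => w k * v k) (i + i') (j + j') (m + m') (l + l') := by
  refine (PK.mul h hv).congr fun k _ => ?_
  have h1 := (Am_pos k).ne'
  have h2 := (Bp_pos k).ne'
  have h3 := (ch_pos 1 k).ne'
  have h4 := (ch_pos 2 k).ne'
  field_simp
  ring

lemma G.add {w w' : ℝ → ℝ} {i j m l : ℕ} (h : G w i j m l) (h' : G w' i j m l) :
    G (fun k => w k + w' k) i j m l := by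
  refine (PK.add h h').congr fun k _ => ?_
  ring

lemma G.smul {w : ℝ → ℝ} {i j m l : ℕ} (h : G w i j m l) {c : ℝ} (hc : 0 ≤ c) :
    G (fun k => c * w k) i j m l := by
  refine (PK.smul h hc).congr fun k _ => ?_
  ring

lemma G.congr {w w' : ℝ → ℝ} {i j m l : ℕ} (h : G w i j m l) (e : ∀ k : ℝ, 0 < k → w k = w' k) :
    G w' i j m l := by
  refine PK.congr h fun k hk => ?_
  simp only [e k hk]

lemma G.lift {w : ℝ → ℝ} {i j m l : ℕ} (h : G w i j m l) (i' j' m' l' : ℕ) :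
    G (fun k => w k * (Am k ^ i' * BpG k ^ j' * ch 1 k ^ m' * ch 2 k ^ l')) (i + i') (j + j') (m + m') (l + l') := by
  refine PK.congr h fun k _ => ?_
  have h1 := (Am_pos k).ne'
  have h2 := (Bp_pos k).ne'
  have h3 := (ch_pos 1 k).ne'
  have h4 := (ch_pos 2 k).ne'
  have h5 : 0 < Am k ^ i' * BpG k ^ j' * ch 1 k ^ m' * ch 2 k ^ l' := by
    have := Am_pos k
    have := Bp_pos k
    have := ch_pos 1 k
    have := ch_pos 2 k
    positivity
  have h6 : Am k ^ (i + i') * BpG k ^ (j + j') * ch 1 k ^ (m + m') * ch 2 k ^ (l + l') =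
      Am k ^ i * BpG k ^ j * ch 1 k ^ m * ch 2 k ^ l * (Am k ^ i' * BpG k ^ j' * ch 1 k ^ m' * ch 2 k ^ l') := by
    ring
  rw [h6, mul_div_mul_right _ _ h5.ne']

/-! ### hyperbolic identities -/

lemma z4 (k : ℝ) : yk k = 4 * (yk k / 4) := by ring

lemma ch_eq {n : ℕ} {a : ℝ} (h : a * 4 = n) (k : ℝ) : ch n k = Real.cosh (a * yk k) := by
  unfold ch
  congr 1
  rw [← h]
  ring

lemma ch6 (k : ℝ) : ch 6 k = Am k * ch 2 k := by
  unfold Am ch
  have e1 : ((6 : ℕ) : ℝ) * (yk k / 4) = 3 * (2 * (yk k / 4)) := by push_cast; ring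
  have e2 : ((4 : ℕ) : ℝ) * (yk k / 4) = 2 * (2 * (yk k / 4)) := by push_cast; ring
  have e3 : ((2 : ℕ) : ℝ) * (yk k / 4) = 2 * (yk k / 4) := by push_cast; ring
  rw [e1, e2, e3, Real.cosh_three_mul, Real.cosh_two_mul (2 * (yk k / 4)), Real.sinh_sq]
  ring

/-- `sinh (n z)` -/
def sh (n : ℕ) (k : ℝ) : ℝ := Real.sinh (n * (yk k / 4))

lemma sh_pos {n : ℕ} (hn : 0 < n) {k : ℝ} (hk : 0 < k) : 0 < sh n k := by
  have := yk_pos hk
  unfold sh
  apply Real.sinh_pos_iff.2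
  positivity

lemma sh_eq {n : ℕ} {a : ℝ} (h : a * 4 = n) (k : ℝ) : sh n k = Real.sinh (a * yk k) := by
  unfold sh
  congr 1
  rw [← h]
  ring

lemma sh6 (k : ℝ) : sh 6 k = sh 2 k * BpG k := by
  unfold BpG ch sh
  have e1 : ((6 : ℕ) : ℝ) * (yk k / 4) = 3 * (2 * (yk k / 4)) := by push_cast; ring
  have e2 : ((4 : ℕ) : ℝ) * (yk k / 4) = 2 * (2 * (yk k / 4)) := by push_cast; ring
  have e3 : ((2 : ℕ) : ℝ) * (yk k / 4) = 2 * (yk k / 4) := by push_cast; ring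
  rw [e1, e2, e3, Real.sinh_three_mul, Real.cosh_two_mul (2 * (yk k / 4)), Real.cosh_sq]
  ring

lemma sh_dbl (n : ℕ) (k : ℝ) : sh (2 * n) k = 2 * sh n k * ch n k := by
  unfold sh ch
  have e : ((2 * n : ℕ) : ℝ) * (yk k / 4) = 2 * (n * (yk k / 4)) := by push_cast; ring
  rw [e, Real.sinh_two_mul]

lemma ch_dbl (n : ℕ) (k : ℝ) : ch (2 * n) k = 2 * ch n k ^ 2 - 1 := by
  unfold ch
  have e : ((2 * n : ℕ) : ℝ) * (yk k / 4) = 2 * (n * (yk k / 4)) := by push_cast; ring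
  rw [e, Real.cosh_two_mul, Real.sinh_sq]
  ring

lemma sh16 (k : ℝ) : sh 16 k = 2 * sh 8 k * ch 8 k := sh_dbl 8 k
lemma sh8 (k : ℝ) : sh 8 k = 2 * sh 4 k * ch 4 k := sh_dbl 4 k
lemma sh4 (k : ℝ) : sh 4 k = 2 * sh 2 k * ch 2 k := sh_dbl 2 k

lemma sh12 (k : ℝ) : sh 12 k = sh 4 k * (Am k * BpG k) := by
  have h1 : sh 12 k = 2 * sh 6 k * ch 6 k := sh_dbl 6 k
  rw [h1, sh6, ch6, sh4]
  ring

lemma PP_eq (k : ℝ) : PP k = 2 * Real.pi / (k * sh 16 k) := by
  unfold PP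
  rw [sh_eq (n := 16) (a := 4) (by norm_num)]

/-! ### base kernels -/

/-- common form of the logarithmic base kernels -/
lemma base {N : ℝ} {n a b : ℕ} (hn : N * 4 = n) (hab : a < b) (hb : b < n) {q : ℝ → ℝ} {i j : ℕ}
    (hq : ∀ k : ℝ, 0 < k → sh 16 k * (Am k ^ i * BpG k ^ j) = q k * sh n k) :
    G (fun k => q k * (ch b k - ch a k)) i j 0 0 := by
  have hpi := Real.pi_pos
  have h1 := (pk_log (N := N) (a := (a : ℝ) / 4) (b := (b : ℝ) / 4) (by positivity)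
    (by gcongr) (by
      have : (b : ℝ) < n := by exact_mod_cast hb
      linarith)).smul (c := 2 * Real.pi) (by positivity)
  refine h1.congr fun k hk => ?_
  have hn0 : 0 < n := by omega
  have e1 := sh_pos hn0 hk
  have e2 := sh_pos (n := 16) (by norm_num) hk
  have e3 := Am_pos k
  have e4 := Bp_pos k
  have e5 := hq k hk
  rw [← ch_eq (n := b) (by ring), ← ch_eq (n := a) (by ring), ← sh_eq hn, PP_eq, pow_zero, pow_zero,
    mul_one, mul_one]
  have e6 : 0 < Am k ^ i * BpG k ^ j := by positivity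
  field_simp
  linear_combination (ch b k - ch a k) * e5

/-- `D4 a b`, `a < b < 16` -/
lemma D4 (a b : ℕ) (hab : a < b) (hb : b < 16) : G (fun k => 1 * (ch b k - ch a k)) 0 0 0 0 :=
  base (N := 4) (n := 16) (by norm_num) hab hb (q := fun _ => 1) (i := 0) (j := 0) fun k _ => by ring

/-- `D3 a b`, `a < b < 12` -/
lemma D3 (a b : ℕ) (hab : a < b) (hb : b < 12) :
    G (fun k => 4 * ch 4 k * ch 8 k * (ch b k - ch a k)) 1 1 0 0 :=
  base (N := 3) (n := 12) (by norm_num) hab hb (q := fun k => 4 * ch 4 k * ch 8 k) (i := 1) (j := 1) fun k _ => by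
    rw [sh12, sh16, sh8]; ring

/-- `D2 a b`, `a < b < 8` -/
lemma D2 (a b : ℕ) (hab : a < b) (hb : b < 8) :
    G (fun k => 2 * ch 8 k * (ch b k - ch a k)) 0 0 0 0 :=
  base (N := 2) (n := 8) (by norm_num) hab hb (q := fun k => 2 * ch 8 k) (i := 0) (j := 0) fun k _ => by
    rw [sh16]; ring

/-- `D32 a b`, `a < b < 6` -/
lemma D32 (a b : ℕ) (hab : a < b) (hb : b < 6) :
    G (fun k => 8 * ch 2 k * ch 4 k * ch 8 k * (ch b k - ch a k)) 0 1 0 0 :=
  base (N := 3 / 2) (n := 6) (by norm_num) hab hb (q := fun k => 8 * ch 2 k * ch 4 k * ch 8 k) (i := 0) (j := 1)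
    fun k _ => by rw [sh6, sh16, sh8, sh4]; ring

/-- `D1 a b`, `a < b < 4` -/
lemma D1 (a b : ℕ) (hab : a < b) (hb : b < 4) :
    G (fun k => 4 * ch 4 k * ch 8 k * (ch b k - ch a k)) 0 0 0 0 :=
  base (N := 1) (n := 4) (by norm_num) hab hb (q := fun k => 4 * ch 4 k * ch 8 k) (i := 0) (j := 0) fun k _ => by
    rw [sh16, sh8]; ring

/-- `Dh a b`, `a < b < 2` -/
lemma Dh (a b : ℕ) (hab : a < b) (hb : b < 2) :
    G (fun k => 8 * ch 2 k * ch 4 k * ch 8 k * (ch b k - ch a k)) 0 0 0 0 :=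
  base (N := 1 / 2) (n := 2) (by norm_num) hab hb (q := fun k => 8 * ch 2 k * ch 4 k * ch 8 k) (i := 0) (j := 0)
    fun k _ => by rw [sh16, sh8, sh4]; ring

lemma ch_sub_mul {a b : ℕ} (h : a ≤ b) (k : ℝ) : ch (b + a) k + ch (b - a) k = 2 * ch b k * ch a k := by
  unfold ch
  push_cast [Nat.cast_sub h]
  rw [add_mul, sub_mul, Real.cosh_add, Real.cosh_sub]
  ring

lemma sh_sub_mul {a b : ℕ} (h : a ≤ b) (k : ℝ) : ch (b + a) k - ch (b - a) k = 2 * sh b k * sh a k := by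
  unfold ch sh
  push_cast [Nat.cast_sub h]
  rw [add_mul, sub_mul, Real.cosh_add, Real.cosh_sub]
  ring

/-- `Cm a b = (2π/k) (sinh (b z) - sinh (a z)) / (2c - 1)`, `a < b < 4` -/
lemma Cm (a b : ℕ) (hab : a < b) (hb : b < 4) :
    G (fun k => 2 * ch 4 k * ch 8 k * ((ch (4 + b) k - ch (4 - b) k) - (ch (4 + a) k - ch (4 - a) k))) 1 0 0 0 := by
  have hpi := Real.pi_pos
  have ha' : (a : ℝ) < b := by exact_mod_cast hab
  have hb' : (b : ℝ) < 4 := by exact_mod_cast hb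
  have ha0 : (0 : ℝ) ≤ a := by positivity
  have h1 := pk_sc (N := 3 / 2) (a := (a : ℝ) / 4 + 1 / 2) (b := (b : ℝ) / 4 + 1 / 2) (by linarith) (by linarith)
    (by linarith)
  have h2 := pk_sc (N := 3 / 2) (a := (a : ℝ) / 4 - 1 / 2) (b := (b : ℝ) / 4 - 1 / 2) (by linarith) (by linarith)
    (by linarith)
  refine ((h1.add h2).smul (c := Real.pi) hpi.le).congr fun k hk => ?_
  have e0 := sh_pos (n := 4) (by norm_num) hk
  have e1 := ch_pos 4 k
  have e1' := ch_pos 8 k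
  have e2 := sh_pos (n := 16) (by norm_num) hk
  have e3 := Am_pos k
  have e4 := ch_pos 2 k
  have e6 := ch6 k
  rw [← ch_eq (n := 6) (a := 3 / 2) (by norm_num), e6]
  have s1 : ∀ n : ℕ, Real.sinh (((n : ℝ) / 4 + 1 / 2) * yk k) + Real.sinh (((n : ℝ) / 4 - 1 / 2) * yk k) =
      2 * sh n k * ch 2 k := by
    intro n
    unfold sh ch
    rw [add_mul, sub_mul, Real.sinh_add, Real.sinh_sub]
    have q1 : (n : ℝ) / 4 * yk k = n * (yk k / 4) := by ring
    have q2 : 1 / 2 * yk k = ((2 : ℕ) : ℝ) * (yk k / 4) := by push_cast; ring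
    rw [q1, q2]
    ring
  have s2 : 1 / k * (Real.sinh (((b : ℝ) / 4 + 1 / 2) * yk k) - Real.sinh (((a : ℝ) / 4 + 1 / 2) * yk k)) / (Am k * ch 2 k) +
      1 / k * (Real.sinh (((b : ℝ) / 4 - 1 / 2) * yk k) - Real.sinh (((a : ℝ) / 4 - 1 / 2) * yk k)) / (Am k * ch 2 k) =
      1 / k * (2 * sh b k * ch 2 k - 2 * sh a k * ch 2 k) / (Am k * ch 2 k) := by
    rw [← s1 b, ← s1 a]
    ring
  show _ = PP k * (2 * ch 4 k * ch 8 k * (ch (4 + b) k - ch (4 - b) k - (ch (4 + a) k - ch (4 - a) k)) /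
    (Am k ^ 1 * BpG k ^ 0 * ch 1 k ^ 0 * ch 2 k ^ 0))
  rw [s2, sh_sub_mul (a := b) (b := 4) (by omega), sh_sub_mul (a := a) (b := 4) (by omega), PP_eq, sh16, sh8, pow_one,
    pow_zero, pow_zero, pow_zero, mul_one, mul_one, mul_one]
  field_simp

/-! ### multipliers -/

lemma u_r (a : ℕ) (ha : a < 6) : U (ch a) 1 0 0 1 := by
  have ha' : (a : ℝ) < 6 := by exact_mod_cast ha
  refine (mk_cc (N := 3 / 2) (a := (a : ℝ) / 4) (by positivity) (by linarith)).congr fun k _ => ?_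
  rw [← ch_eq (n := a) (by ring), ← ch_eq (n := 6) (a := 3 / 2) (by norm_num), ch6]
  ring

lemma u_h (a : ℕ) (ha : a < 2) : U (ch a) 0 0 0 1 := by
  have ha' : (a : ℝ) < 2 := by exact_mod_cast ha
  refine (mk_cc (N := 1 / 2) (a := (a : ℝ) / 4) (by positivity) (by linarith)).congr fun k _ => ?_
  rw [← ch_eq (n := a) (by ring), ← ch_eq (n := 2) (a := 1 / 2) (by norm_num)]
  ring

lemma u_x : U (fun _ => 1) 0 0 1 0 := by
  refine (mk_cc (N := 1 / 4) (a := 0) le_rfl (by norm_num)).congr fun k _ => ?_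
  rw [zero_mul, Real.cosh_zero, ← ch_eq (n := 1) (a := 1 / 4) (by norm_num)]
  ring

lemma u_h0 : U (fun _ => 1) 0 0 0 1 := by
  refine MK.congr (u_h 0 (by norm_num)) fun k _ => ?_
  have : ch 0 k = 1 := by unfold ch; simp
  rw [this]

lemma u_m (a : ℕ) (ha : a < 4) : U (ch a) 1 0 0 0 := by
  have ha' : (a : ℝ) < 4 := by exact_mod_cast ha
  have ha0 : (0 : ℝ) ≤ a := by positivity
  have h1 := mk_cc (N := 3 / 2) (a := (a : ℝ) / 4 + 1 / 2) (by positivity) (by linarith)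
  have h2 := mk_cc (N := 3 / 2) (a := |(a : ℝ) / 4 - 1 / 2|) (abs_nonneg _) (abs_lt.2 ⟨by linarith, by linarith⟩)
  refine ((h1.add h2).smul (c := 1 / 2) (by norm_num)).congr fun k _ => ?_
  have e3 := Am_pos k
  have e4 := ch_pos 2 k
  rw [← ch_eq (n := 6) (a := 3 / 2) (by norm_num), ch6]
  have s0 : Real.cosh (|(a : ℝ) / 4 - 1 / 2| * yk k) = Real.cosh (((a : ℝ) / 4 - 1 / 2) * yk k) := by
    rcases abs_cases ((a : ℝ) / 4 - 1 / 2) with ⟨h, _⟩ | ⟨h, _⟩
    · rw [h]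
    · rw [h, neg_mul, Real.cosh_neg]
  have s1 : Real.cosh (((a : ℝ) / 4 + 1 / 2) * yk k) + Real.cosh (((a : ℝ) / 4 - 1 / 2) * yk k) =
      2 * ch a k * ch 2 k := by
    unfold ch
    rw [add_mul, sub_mul, Real.cosh_add, Real.cosh_sub]
    have q1 : (a : ℝ) / 4 * yk k = a * (yk k / 4) := by ring
    have q2 : 1 / 2 * yk k = ((2 : ℕ) : ℝ) * (yk k / 4) := by push_cast; ring
    rw [q1, q2]
    ring
  rw [s0, ← add_div, s1, pow_one, pow_zero, pow_zero, pow_zero, mul_one, mul_one, mul_one]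
  field_simp

lemma u_p (a : ℕ) (ha : a ≤ 3) : U (ch a) 0 1 0 0 := by
  have ha' : (a : ℝ) ≤ 3 := by exact_mod_cast ha
  refine (mk_css (N := 3 / 2) (a := (a : ℝ) / 4) (b := 1 / 2) (by positivity) (by linarith) (by norm_num)
    (by linarith)).congr fun k hk => ?_
  have e1 := sh_pos (n := 2) (by norm_num) hk
  have e2 := Bp_pos k
  rw [← ch_eq (n := a) (by ring), ← sh_eq (n := 2) (a := 1 / 2) (by norm_num),
    ← sh_eq (n := 6) (a := 3 / 2) (by norm_num), sh6, pow_one, pow_zero, pow_zero, pow_zero, mul_one, mul_one, one_mul]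
  field_simp

lemma u_q (a : ℕ) (ha : a ≤ 6) : U (ch a) 1 1 0 0 := by
  have ha' : (a : ℝ) ≤ 6 := by exact_mod_cast ha
  refine (mk_css (N := 3) (a := (a : ℝ) / 4) (b := 1) (by positivity) (by linarith) (by norm_num)
    (by linarith)).congr fun k hk => ?_
  have e1 := sh_pos (n := 4) (by norm_num) hk
  have e2 := Bp_pos k
  have e3 := Am_pos k
  rw [← ch_eq (n := a) (by ring), ← sh_eq (n := 4) (a := 1) (by norm_num),
    ← sh_eq (n := 12) (a := 3) (by norm_num), sh12, pow_one, pow_one, pow_zero, pow_zero, mul_one, mul_one]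
  field_simp

/-- `c / (2c - 1) = (1 + 1/(2c-1)) / 2` acts on `PK` -/
lemma G.m4 {w : ℝ → ℝ} {i j m l : ℕ} (h : G w i j m l) : G (fun k => w k * ch 4 k) (i + 1) j m l := by
  have h1 := h.mul (u_m 0 (by norm_num))
  have h2 := h.lift 1 0 0 0
  refine ((h1.add h2).smul (c := 1 / 2) (by norm_num)).congr fun k _ => ?_
  have : ch 0 k = 1 := by unfold ch; simp
  rw [this]
  unfold Am
  ring

/-! ### the non-unimodal base kernels -/

lemma baseE {N A : ℝ} {n a x b : ℕ} (hn : N * 4 = n) (hax : a ≤ x) (hxb : x ≤ b) (hb : b < n) {q : ℝ → ℝ} {i j : ℕ}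
    (hq : ∀ k : ℝ, 0 < k → sh 16 k * (Am k ^ i * BpG k ^ j) = q k * sh n k)
    (h1 : Real.cos (x * Real.pi / n) - Real.cos (b * Real.pi / n) ≤
      A * (Real.cos (a * Real.pi / n) - Real.cos (x * Real.pi / n)))
    (h2 : Real.log (1 + Real.cos (x * Real.pi / n)) - Real.log (1 + Real.cos (b * Real.pi / n)) ≤
      A * (Real.log (1 + Real.cos (a * Real.pi / n)) - Real.log (1 + Real.cos (x * Real.pi / n)))) :
    G (fun k => q k * (A * (ch x k - ch a k) - (ch b k - ch x k))) i j 0 0 := by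
  have hpi := Real.pi_pos
  have hn0 : 0 < n := by omega
  have hN : 0 < N := by
    have : (0:ℝ) < n := by exact_mod_cast hn0
    linarith
  have ha' : (a : ℝ) ≤ x := by exact_mod_cast hax
  have hx' : (x : ℝ) ≤ b := by exact_mod_cast hxb
  have hb' : (b : ℝ) < n := by exact_mod_cast hb
  have ec : ∀ c : ℕ, ((c : ℝ) / 4) * Real.pi / N = c * Real.pi / n := by
    intro c
    rw [← hn]
    field_simp
  have h3 := (PK_E (N := N) (a := (a : ℝ) / 4) (x := (x : ℝ) / 4) (b := (b : ℝ) / 4) (A := A) hN (by positivity)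
    (by linarith) (by linarith) (by linarith) (by rw [ec, ec, ec]; exact h1) (by rw [ec, ec, ec]; exact h2)).smul
    (c := 2 * Real.pi) (by positivity)
  refine h3.congr fun k hk => ?_
  have e1 := sh_pos hn0 hk
  have e2 := sh_pos (n := 16) (by norm_num) hk
  have e3 := Am_pos k
  have e4 := Bp_pos k
  have e5 := hq k hk
  have ey : Real.pi * k / 8 = yk k := rfl
  have cx : ∀ c : ℕ, Real.cosh ((c : ℝ) / 4 * yk k) = ch c k := fun c => (ch_eq (by ring) k).symm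
  rw [ey, cx, cx, cx, ← sh_eq hn, PP_eq, pow_zero, pow_zero, mul_one, mul_one]
  have e6 : 0 < Am k ^ i * BpG k ^ j := by positivity
  field_simp
  linear_combination (A * (ch x k - ch a k) - (ch b k - ch x k)) * e5

end

end NUO
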