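import Pool.Agent.NUO.SBlock

/-!
NUO/SBlockK (helper25): the `{S, Svv}` block as functions of `k > 0` (normalised so that
`∫_{k>0} · cos (k t)` is the real space kernel): inequalities and integrability needed by
`Pool.Agent.NUM3.stab_lift`.
-/

namespace NUSB

open NUPolyR Real MeasureTheory Set

noncomputable section

/-- `z = y / 4 = π k / 32` -/
def zk (k : ℝ) : ℝ := π * k / 32
/-- `P / π = 2 / (k sinh (4 y))` -/
def PQ (k : ℝ) : ℝ := 2 / (k * Real.sinh (16 * zk k))

/-- `alpha`: `M_SS - N - core`, `beta`: `M_S,Svv - N + core`, `gam`: `M_Svv,Svv - N - core` -/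
def alphaK (k : ℝ) : ℝ := PQ k * (eSS (zk k) + gg (zk k))
def betaK (k : ℝ) : ℝ := PQ k * (eSV (zk k) - al (zk k) * gg (zk k))
def gamK (k : ℝ) : ℝ := PQ k * (eVV (zk k) + al (zk k) ^ 2 * gg (zk k))
def gK (k : ℝ) : ℝ := PQ k * gg (zk k)
def wK (k : ℝ) : ℝ := al (zk k)

theorem zk_pos {k : ℝ} (hk : 0 < k) : 0 < zk k := by unfold zk; positivity

theorem PQ_pos {k : ℝ} (hk : 0 < k) : 0 < PQ k := by
  have := zk_pos hk
  have h : 0 < Real.sinh (16 * zk k) := Real.sinh_pos_iff.2 (by positivity)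
  unfold PQ; positivity

theorem gK_nonneg {k : ℝ} (hk : 0 < k) : 0 ≤ gK k := mul_nonneg (PQ_pos hk).le (gg_nonneg _)

theorem eSS_nonneg {z : ℝ} (hz : 0 < z) : 0 ≤ eSS z := by simpa using block_nonneg hz 1 0
theorem eVV_nonneg {z : ℝ} (hz : 0 < z) : 0 ≤ eVV z := by simpa using block_nonneg hz 0 1
theorem e_det {z : ℝ} (hz : 0 < z) : eSV z ^ 2 ≤ eSS z * eVV z := by
  have hA := eSS_nonneg hz
  rcases hA.eq_or_lt with h0 | h0
  · have h1 : ∀ s : ℝ, 0 ≤ 2 * eSV z * s + eVV z := by
      intro s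
      have := block_nonneg hz s 1
      rw [← h0] at this
      linarith
    have h2 : eSV z = 0 := by
      by_contra hne
      have := h1 (-(eVV z + 1) / (2 * eSV z))
      rw [mul_div_cancel₀ _ (by positivity)] at this
      linarith
    rw [h2, ← h0]; simp
  · have := block_nonneg hz (-eSV z / eSS z) 1
    have e : eSS z * (-eSV z / eSS z) ^ 2 + 2 * eSV z * (-eSV z / eSS z * 1) + eVV z * 1 ^ 2
        = (eSS z * eVV z - eSV z ^ 2) / eSS z := by
      field_simp; ring
    rw [e] at this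
    have h1 := mul_nonneg this h0.le
    rw [div_mul_cancel₀ _ h0.ne'] at h1
    linarith

theorem g_le_alpha {k : ℝ} (hk : 0 < k) : gK k ≤ alphaK k := by
  unfold gK alphaK
  exact mul_le_mul_of_nonneg_left (by linarith [eSS_nonneg (zk_pos hk)]) (PQ_pos hk).le

theorem wwg_le_gam {k : ℝ} (hk : 0 < k) : wK k ^ 2 * gK k ≤ gamK k := by
  unfold gK gamK wK
  have := mul_nonneg (PQ_pos hk).le (eVV_nonneg (zk_pos hk))
  nlinarith

theorem det_block {k : ℝ} (hk : 0 < k) : (betaK k + wK k * gK k) ^ 2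
    ≤ (alphaK k - gK k) * (gamK k - wK k ^ 2 * gK k) := by
  have h := e_det (zk_pos hk)
  have e1 : betaK k + wK k * gK k = PQ k * eSV (zk k) := by unfold betaK wK gK; ring
  have e2 : alphaK k - gK k = PQ k * eSS (zk k) := by unfold alphaK gK; ring
  have e3 : gamK k - wK k ^ 2 * gK k = PQ k * eVV (zk k) := by unfold gamK wK gK; ring
  rw [e1, e2, e3]
  nlinarith [mul_le_mul_of_nonneg_left h (sq_nonneg (PQ k))]

/-! ### integrability -/

/-- sum of absolute values of the coefficients -/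
def n1 : IP → ℝ
  | [] => 0
  | a :: l => |(a : ℝ)| + n1 l

theorem n1_nonneg (l : IP) : 0 ≤ n1 l := by
  induction l with
  | nil => exact le_rfl
  | cons a l ih => simp only [n1]; positivity

theorem abs_ev_le (l : IP) {w : ℝ} (hw : 0 ≤ w) : |ev l w| ≤ n1 l * (1 + w) ^ (l.length - 1) := by
  induction l with
  | nil => simp [n1]
  | cons a l ih =>
    have h1 : (1 : ℝ) ≤ 1 + w := by linarith
    simp only [ev_cons, n1, List.length_cons, Nat.add_sub_cancel]
    have h2 : |w * ev l w| ≤ n1 l * (1 + w) ^ l.length := by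
      rw [abs_mul, abs_of_nonneg hw]
      rcases l with _ | ⟨b, l⟩
      · simp [n1]
      · have h3 := mul_le_mul_of_nonneg_left ih hw
        simp only [List.length_cons, Nat.add_sub_cancel] at h3 ⊢
        refine h3.trans ?_
        rw [pow_succ]
        have h4 : 0 ≤ n1 (b :: l) * (1 + w) ^ l.length :=
          mul_nonneg (n1_nonneg _) (by positivity)
        nlinarith
    have h5 : |(a : ℝ)| ≤ |(a : ℝ)| * (1 + w) ^ l.length :=
      le_mul_of_one_le_right (abs_nonneg _) (one_le_pow₀ h1)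
    calc |(a : ℝ) + w * ev l w| ≤ |(a : ℝ)| + |w * ev l w| := abs_add_le _ _
      _ ≤ |(a : ℝ)| * (1 + w) ^ l.length + n1 l * (1 + w) ^ l.length := add_le_add h5 h2
      _ = _ := by ring

theorem ch1_eq (z : ℝ) : ch 1 z = 1 + ww z := by unfold ch ww; push_cast; ring_nf
theorem ch2_ge (z : ℝ) : ch 1 z ^ 2 ≤ ch 2 z := by
  have h : ch 2 z = 2 * ch 1 z ^ 2 - 1 := by
    rw [← e2, ← e1]; simp only [t2, t1, ev_cons, ev_nil]; push_cast; ring
  have := one_le_ch 1 z
  rw [h]; nlinarith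
theorem ch4_ge (z : ℝ) : ch 1 z ^ 4 ≤ ch 4 z := by
  have := ch4_eq z
  have h := one_le_ch 1 z
  nlinarith [mul_nonneg (show (0:ℝ) ≤ 7 * ch 1 z ^ 2 - 1 by nlinarith)
    (show (0:ℝ) ≤ ch 1 z ^ 2 - 1 by nlinarith)]
theorem ch8_ge (z : ℝ) : ch 1 z ^ 8 ≤ ch 8 z := by
  have h : ch 8 z = 2 * ch 4 z ^ 2 - 1 := by
    rw [← e8, ← e4]
    have hz : isZ (sub t8 (sub (smul 2 (mul t4 t4)) [1])) = true := by decide +kernel
    rw [ev_eq hz, ev_sub, ev_smul, ev_mul]; simp only [ev_cons, ev_nil]; push_cast; ring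
  have h4 := ch4_ge z
  have h1 := one_le_ch 4 z
  have h0 : (0:ℝ) ≤ ch 1 z ^ 4 := by have := one_le_ch 1 z; positivity
  have h5 : (ch 1 z ^ 4) ^ 2 ≤ ch 4 z ^ 2 := by gcongr
  have h6 : ch 1 z ^ 8 = (ch 1 z ^ 4) ^ 2 := by ring
  rw [h, h6]; nlinarith

theorem MM_ge (z : ℝ) : 8000 * ww z * ch 1 z ^ 40 ≤ MM z := by
  have hx := one_le_ch 1 z
  have hw := ww_nonneg z
  have h2 := ch2_ge z
  have h4 := ch4_ge z
  have hc4 := one_le_ch 4 z
  have hxw : ch 1 z = 1 + ww z := ch1_eq z
  have a1 : 8 * ww z * ch 1 z ^ 3 ≤ ch 4 z - 1 := by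
    rw [ch4_eq]
    have : ch 1 z ^ 2 - 1 = ww z * (ch 1 z + 1) := by rw [hxw]; ring
    rw [this]
    nlinarith [mul_nonneg hw (show (0:ℝ) ≤ ch 1 z ^ 2 by positivity)]
  have a2 : ch 1 z ^ 4 ≤ 2 * ch 4 z - 1 := by linarith
  have a3 : ch 1 z ^ 8 ≤ (2 * ch 4 z + 1) ^ 2 := by
    have : (ch 1 z ^ 4) ^ 2 ≤ (2 * ch 4 z + 1) ^ 2 := by gcongr; linarith
    calc ch 1 z ^ 8 = (ch 1 z ^ 4) ^ 2 := by ring
      _ ≤ _ := this
  have a4 : ch 1 z ^ 4 ≤ ch 4 z + 1 := by linarith
  have a5 : ch 1 z ^ 12 ≤ (2 * ch 4 z - 1) ^ 3 := by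
    have : (ch 1 z ^ 4) ^ 3 ≤ (2 * ch 4 z - 1) ^ 3 := by gcongr
    calc ch 1 z ^ 12 = (ch 1 z ^ 4) ^ 3 := by ring
      _ ≤ _ := this
  have a6 : ch 1 z ^ 8 ≤ ch 2 z ^ 4 := by
    have : (ch 1 z ^ 2) ^ 4 ≤ ch 2 z ^ 4 := by gcongr
    calc ch 1 z ^ 8 = (ch 1 z ^ 2) ^ 4 := by ring
      _ ≤ _ := this
  have a7 : ch 1 z ≤ 31 + ch 1 z := by linarith
  have hup : (8 * ww z * ch 1 z ^ 3) * ch 1 z ^ 4 * ch 1 z ^ 8 ≤ up z := by
    unfold up
    exact mul_le_mul (mul_le_mul a1 a2 (by positivity) (by linarith)) a3 (by positivity)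
      (mul_nonneg (by linarith) (by linarith))
  have hum : ch 1 z ^ 4 * ch 1 z ^ 12 ≤ um z := by
    unfold um
    exact mul_le_mul a4 a5 (by positivity) (by linarith)
  have hup0 : 0 ≤ up z := le_trans (by positivity) hup
  have hum0 : 0 ≤ um z := le_trans (by positivity) hum
  have h20 : 0 ≤ ch 2 z := by linarith [one_le_ch 2 z]
  have hfin : 1000 * ((8 * ww z * ch 1 z ^ 3) * ch 1 z ^ 4 * ch 1 z ^ 8) * (ch 1 z ^ 4 * ch 1 z ^ 12)
      * ch 1 z ^ 8 * ch 1 z ≤ MM z := by
    unfold MM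
    gcongr
  calc 8000 * ww z * ch 1 z ^ 40 = _ := by ring
    _ ≤ _ := hfin

theorem ev_take2 (l : IP) (h : isZ (l.take 2) = true) (w : ℝ) : ev l w = w ^ 2 * ev (l.drop 2) w := by
  rcases l with _ | ⟨a, _ | ⟨b, l⟩⟩
  · simp
  · simp only [List.take, isZ, Bool.and_true, beq_iff_eq] at h; simp [h]
  · simp only [List.take, isZ, Bool.and_eq_true, beq_iff_eq, Bool.and_true] at h
    simp [h.1, h.2]; ring

theorem ev_take1 (l : IP) (h : isZ (l.take 1) = true) (w : ℝ) : ev l w = w * ev (l.drop 1) w := by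
  rcases l with _ | ⟨a, l⟩
  · simp
  · simp only [List.take, isZ, beq_iff_eq, Bool.and_true] at h
    simp [h]

theorem w_pos {z : ℝ} (hz : 0 < z) : 0 < ww z := by
  have := one_lt_ch (n := 1) (by norm_num) hz
  rw [ch1_eq] at this; linarith

/-- quotient bound -/
theorem quot_le {l : IP} (h : isZ (l.take 2) = true) (hl : (l.drop 2).length = 55) {z : ℝ}
    (hz : 0 < z) : |ev l (ww z) / MM z| ≤ n1 (l.drop 2) * (ww z * ch 1 z ^ 14) := by
  have hw := w_pos hz
  have hM := MM_pos hz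
  have hx := one_le_ch 1 z
  rw [abs_div, abs_of_pos hM, div_le_iff₀ hM, ev_take2 l h]
  have h1 := abs_ev_le (l.drop 2) hw.le
  rw [hl, ← ch1_eq] at h1
  rw [abs_mul, abs_of_nonneg (sq_nonneg (ww z))]
  have h2 := MM_ge z
  have h3 := n1_nonneg (l.drop 2)
  have h4 : ww z * ch 1 z ^ 40 ≤ MM z := by
    have : 0 ≤ ww z * ch 1 z ^ 40 := by positivity
    nlinarith
  calc ww z ^ 2 * |ev (l.drop 2) (ww z)| ≤ ww z ^ 2 * (n1 (l.drop 2) * ch 1 z ^ (55 - 1)) := by gcongr
    _ = n1 (l.drop 2) * (ww z * ch 1 z ^ 14) * (ww z * ch 1 z ^ 40) := by ring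
    _ ≤ _ := by gcongr

theorem ww_le {z : ℝ} (hz : 0 ≤ z) : ww z ≤ z * Real.sinh z := by
  unfold ww
  rw [Real.cosh_eq, Real.sinh_eq]
  have h1 : Real.exp z * (1 - z) ≤ 1 := by
    have := Real.add_one_le_exp (-z)
    calc Real.exp z * (1 - z) ≤ Real.exp z * Real.exp (-z) := by gcongr; linarith
      _ = 1 := by rw [← Real.exp_add]; simp
  have h2 : Real.exp (-z) * (1 + z) ≤ 1 := by
    have := Real.add_one_le_exp z
    calc Real.exp (-z) * (1 + z) ≤ Real.exp (-z) * Real.exp z := by gcongr; linarith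
      _ = 1 := by rw [← Real.exp_add]; simp
  nlinarith

theorem sinh16_ge {z : ℝ} (hz : 0 ≤ z) :
    16 * Real.sinh z * ch 1 z ^ 15 ≤ Real.sinh (16 * z) := by
  have e : Real.sinh (16 * z) = 16 * Real.sinh z * (ch 1 z * ch 2 z * ch 4 z * ch 8 z) := by
    have h16 : Real.sinh (16 * z) = 2 * Real.sinh (8 * z) * Real.cosh (8 * z) := by
      rw [← Real.sinh_two_mul]; ring_nf
    have h8 : Real.sinh (8 * z) = 2 * Real.sinh (4 * z) * Real.cosh (4 * z) := by
      rw [← Real.sinh_two_mul]; ring_nf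
    have h4 : Real.sinh (4 * z) = 2 * Real.sinh (2 * z) * Real.cosh (2 * z) := by
      rw [← Real.sinh_two_mul]; ring_nf
    have h2 : Real.sinh (2 * z) = 2 * Real.sinh z * Real.cosh z := Real.sinh_two_mul z
    rw [h16, h8, h4, h2]; simp only [ch]; push_cast; ring_nf
  have hs : 0 ≤ Real.sinh z := Real.sinh_nonneg_iff.2 hz
  have hx := one_le_ch 1 z
  have h2 := ch2_ge z
  have h4 := ch4_ge z
  have h8 := ch8_ge z
  rw [e]
  calc 16 * Real.sinh z * ch 1 z ^ 15
      = 16 * Real.sinh z * (ch 1 z * ch 1 z ^ 2 * ch 1 z ^ 4 * ch 1 z ^ 8) := by ring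
    _ ≤ _ := by
        apply mul_le_mul_of_nonneg_left _ (by positivity)
        have a1 : ch 1 z * ch 1 z ^ 2 ≤ ch 1 z * ch 2 z := mul_le_mul_of_nonneg_left h2 (by linarith)
        have a2 : ch 1 z * ch 1 z ^ 2 * ch 1 z ^ 4 ≤ ch 1 z * ch 2 z * ch 4 z :=
          mul_le_mul a1 h4 (by positivity) (mul_nonneg (by linarith) (by linarith [one_le_ch 2 z]))
        exact mul_le_mul a2 h8 (by positivity) (mul_nonneg (mul_nonneg (by linarith)
          (by linarith [one_le_ch 2 z])) (by linarith [one_le_ch 4 z]))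

/-- the basic decay bound -/
theorem PQ_w {k : ℝ} (hk : 0 < k) : PQ k * (ww (zk k) * ch 1 (zk k) ^ 14) ≤ 2 * Real.exp (-(zk k)) := by
  have hz := zk_pos hk
  set z := zk k with hzdef
  have hs : 0 < Real.sinh z := Real.sinh_pos_iff.2 hz
  have hx := one_le_ch 1 z
  have hx0 : 0 < ch 1 z := by linarith
  have h16 := sinh16_ge hz.le
  have hs16 : 0 < Real.sinh (16 * z) := lt_of_lt_of_le (by positivity) h16
  have hw := ww_le hz.le
  have h1 : PQ k * (ww z * ch 1 z ^ 14) ≤ π / (256 * ch 1 z) := by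
    unfold PQ
    rw [← hzdef, div_mul_eq_mul_div, div_le_div_iff₀ (by positivity) (by positivity)]
    have hkz : 32 * z = π * k := by rw [hzdef, zk]; ring
    calc 2 * (ww z * ch 1 z ^ 14) * (256 * ch 1 z)
        = 512 * ww z * ch 1 z ^ 15 := by ring
      _ ≤ 512 * (z * Real.sinh z) * ch 1 z ^ 15 := by gcongr
      _ = (32 * z) * (16 * Real.sinh z * ch 1 z ^ 15) := by ring
      _ ≤ (32 * z) * Real.sinh (16 * z) := by gcongr
      _ = π * (k * Real.sinh (16 * z)) := by rw [hkz]; ring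
  refine h1.trans ?_
  have h2 : Real.exp z ≤ 2 * ch 1 z := by
    have : ch 1 z = Real.cosh z := by unfold ch; push_cast; ring_nf
    rw [this, Real.cosh_eq]
    have := Real.exp_pos (-z)
    linarith
  rw [Real.exp_neg, div_le_iff₀ (by positivity)]
  have hpi : π ≤ 4 := Real.pi_le_four
  have h3 : (Real.exp z)⁻¹ * (2 * ch 1 z) ≥ 1 := by
    rw [ge_iff_le, ← div_eq_inv_mul, le_div_iff₀ (Real.exp_pos z)]; linarith
  nlinarith

theorem co_eq (z : ℝ) : co z = Real.sinh (16 * z) * (Real.sinh z / (31 + Real.cosh z)) := by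
  have e : (ch 17 z - ch 15 z) / 2 = Real.sinh (16 * z) * Real.sinh z := by
    have e1 : ch 17 z = Real.cosh (16 * z + z) := by unfold ch; congr 1; push_cast; ring
    have e2 : ch 15 z = Real.cosh (16 * z - z) := by unfold ch; congr 1; push_cast; ring
    rw [e1, e2, Real.cosh_add, Real.cosh_sub]; ring
  have e3 : ch 1 z = Real.cosh z := by unfold ch; congr 1; push_cast; ring
  unfold co
  rw [e, e3, mul_div_assoc]

theorem sinh_le_two_mul {z : ℝ} (hz : 0 ≤ z) (hz1 : z ≤ 1 / 2) : Real.sinh z ≤ 2 * z := by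
  have h1 : Real.exp z ≤ 1 / (1 - z) := by
    have := Real.add_one_le_exp (-z)
    rw [le_div_iff₀ (by linarith)]
    calc Real.exp z * (1 - z) ≤ Real.exp z * Real.exp (-z) := by gcongr; linarith
      _ = 1 := by rw [← Real.exp_add]; simp
  have h2 := Real.add_one_le_exp (-z)
  rw [Real.sinh_eq]
  have h3 : 1 / (1 - z) ≤ 1 + 2 * z := by
    rw [div_le_iff₀ (by linarith)]; nlinarith
  linarith

theorem one_sub_tanh {u : ℝ} : 1 - Real.tanh u ≤ 2 * Real.exp (-(2 * u)) := by
  rw [Real.tanh_eq_sinh_div_cosh, Real.sinh_eq, Real.cosh_eq]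
  have h1 := Real.exp_pos u
  have h2 := Real.exp_pos (-u)
  have e : 1 - (Real.exp u - Real.exp (-u)) / 2 / ((Real.exp u + Real.exp (-u)) / 2)
      = 2 * Real.exp (-u) / (Real.exp u + Real.exp (-u)) := by
    field_simp; ring
  rw [e, div_le_iff₀ (by positivity)]
  have e1 : Real.exp (-(2 * u)) * Real.exp u = Real.exp (-u) := by rw [← Real.exp_add]; ring_nf
  have e2 : 0 ≤ Real.exp (-(2 * u)) * Real.exp (-u) := by positivity
  nlinarith

theorem PQ_core {k : ℝ} (hk : 0 < k) :
    |PQ k * (co (zk k) - core (zk k))| ≤ 2 * Real.exp (-(zk k / 16)) := by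
  have hz := zk_pos hk
  have hkz : k = 32 * zk k / π := by unfold zk; field_simp
  have hcore := core_le hz.le
  have hPQ := PQ_pos hk
  set z := zk k with hzdef
  have hs16 : 0 < Real.sinh (16 * z) := Real.sinh_pos_iff.2 (by positivity)
  have hnn : 0 ≤ PQ k * (co z - core z) := mul_nonneg hPQ.le (sub_nonneg.2 hcore)
  rw [abs_of_nonneg hnn]
  have e : PQ k * (co z - core z) = 2 / k * (Real.sinh z / (31 + Real.cosh z) - Real.tanh (z / 32)) := by
    rw [co_eq, core, PQ, ← hzdef]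
    field_simp
  rw [e]
  have hc1 : 1 ≤ Real.cosh z := Real.one_le_cosh z
  have hsz : 0 ≤ Real.sinh z := Real.sinh_nonneg_iff.2 hz.le
  have hth : 0 ≤ Real.tanh (z / 32) := by
    rw [Real.tanh_eq_sinh_div_cosh]
    exact div_nonneg (Real.sinh_nonneg_iff.2 (by positivity)) (Real.cosh_pos _).le
  have h2k : 2 / k = π / (16 * z) := by rw [hkz]; field_simp; ring
  have hpi : π ≤ 4 := Real.pi_le_four
  have hpi0 := Real.pi_pos
  rw [h2k]
  rcases le_total z (1 / 2) with h | h
  · have h1 : Real.sinh z / (31 + Real.cosh z) - Real.tanh (z / 32) ≤ z / 16 := by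
      have := sinh_le_two_mul hz.le h
      have h2 : Real.sinh z / (31 + Real.cosh z) ≤ 2 * z / 32 := by
        apply div_le_div₀ (by positivity) this (by norm_num) (by linarith)
      linarith
    have h3 : π / (16 * z) * (Real.sinh z / (31 + Real.cosh z) - Real.tanh (z / 32))
        ≤ π / (16 * z) * (z / 16) := mul_le_mul_of_nonneg_left h1 (by positivity)
    have h4 : π / (16 * z) * (z / 16) = π / 256 := by field_simp; ring
    have h5 := Real.add_one_le_exp (-(z / 16))
    rw [h4] at h3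
    linarith
  · have h1 : Real.sinh z / (31 + Real.cosh z) ≤ 1 := by
      rw [div_le_one (by linarith)]
      have := Real.sinh_lt_cosh z
      linarith
    have h2 := one_sub_tanh (u := z / 32)
    have h3 : Real.sinh z / (31 + Real.cosh z) - Real.tanh (z / 32)
        ≤ 2 * Real.exp (-(z / 16)) := by
      have e2 : -(2 * (z / 32)) = -(z / 16) := by ring
      rw [e2] at h2
      linarith
    have h4 : π / (16 * z) ≤ 1 := by
      rw [div_le_one (by positivity)]; linarith
    have h5 : 0 ≤ Real.sinh z / (31 + Real.cosh z) - Real.tanh (z / 32) :=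
      sub_nonneg.2 (tanh_le_core hz.le)
    calc _ ≤ 1 * (Real.sinh z / (31 + Real.cosh z) - Real.tanh (z / 32)) := by gcongr
      _ ≤ _ := by rw [one_mul]; exact h3

theorem gg_le {z : ℝ} (hz : 0 < z) : |gg z| ≤ n1 (lG5.drop 1) * (ww z * ch 1 z ^ 14) := by
  have hw := w_pos hz
  have hx := one_le_ch 1 z
  have h1 : gg z = ww z * ev (lG5.drop 1) (ww z) / 5 := by
    rw [← ev_take1 lG5 (by decide +kernel), evG5]; ring
  have h2 := abs_ev_le (lG5.drop 1) hw.le
  have hl : (lG5.drop 1).length = 14 := by decide +kernel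
  rw [hl, ← ch1_eq] at h2
  have h3 := n1_nonneg (lG5.drop 1)
  rw [h1, abs_div, abs_mul, abs_of_pos hw, abs_of_pos (by norm_num : (0:ℝ) < 5)]
  have h4 : ch 1 z ^ (14 - 1) ≤ ch 1 z ^ 14 := pow_le_pow_right₀ hx (by norm_num)
  calc ww z * |ev (lG5.drop 1) (ww z)| / 5 ≤ ww z * |ev (lG5.drop 1) (ww z)| := by
        apply div_le_self (by positivity) (by norm_num)
    _ ≤ ww z * (n1 (lG5.drop 1) * ch 1 z ^ (14 - 1)) := by gcongr
    _ ≤ ww z * (n1 (lG5.drop 1) * ch 1 z ^ 14) := by gcongr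
    _ = _ := by ring

theorem al_mem (z : ℝ) : 0 ≤ al z ∧ al z ≤ 1 := by
  have h := one_le_ch 2 z
  have h1 : 1 ≤ ch 2 z ^ 2 := one_le_pow₀ h
  unfold al
  have h2 : (3 / 5 : ℝ) / ch 2 z ^ 2 ≤ 3 / 5 := div_le_self (by norm_num) h1
  have h3 : 0 ≤ (3 / 5 : ℝ) / ch 2 z ^ 2 := by positivity
  constructor <;> linarith

/-- the class of functions we need: measurable and exponentially small -/
def Dec (f : ℝ → ℝ) : Prop := Measurable f ∧ ∃ C, ∀ k : ℝ, 0 < k → |f k| ≤ C * Real.exp (-(zk k / 16))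

theorem Dec.int {f : ℝ → ℝ} (h : Dec f) : IntegrableOn f (Ioi 0) := by
  obtain ⟨hm, C, hC⟩ := h
  have h1 : IntegrableOn (fun k : ℝ => C * Real.exp (-(π / 512) * k)) (Ioi 0) :=
    (exp_neg_integrableOn_Ioi 0 (by positivity)).const_mul C
  refine Integrable.mono' h1 hm.aestronglyMeasurable ?_
  refine (ae_restrict_iff' measurableSet_Ioi).2 (Filter.Eventually.of_forall fun k hk => ?_)
  have := hC k hk
  rw [Real.norm_eq_abs]
  have e : -(zk k / 16) = -(π / 512) * k := by unfold zk; ring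
  rwa [e] at this

theorem Dec.add {f g : ℝ → ℝ} (hf : Dec f) (hg : Dec g) : Dec fun k => f k + g k := by
  obtain ⟨hm, C, hC⟩ := hf
  obtain ⟨hm', C', hC'⟩ := hg
  refine ⟨hm.add hm', C + C', fun k hk => ?_⟩
  calc |f k + g k| ≤ |f k| + |g k| := abs_add_le _ _
    _ ≤ C * Real.exp (-(zk k / 16)) + C' * Real.exp (-(zk k / 16)) := add_le_add (hC k hk) (hC' k hk)
    _ = _ := by ring

theorem Dec.neg {f : ℝ → ℝ} (hf : Dec f) : Dec fun k => - f k := by
  obtain ⟨hm, C, hC⟩ := hf
  exact ⟨hm.neg, C, fun k hk => by rw [abs_neg]; exact hC k hk⟩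

theorem Dec.mul_bdd {f g : ℝ → ℝ} (hf : Dec f) (hg : Measurable g) (hb : ∀ k, |g k| ≤ 1) :
    Dec fun k => g k * f k := by
  obtain ⟨hm, C, hC⟩ := hf
  refine ⟨hg.mul hm, C, fun k hk => ?_⟩
  rw [abs_mul]
  calc |g k| * |f k| ≤ 1 * |f k| := by gcongr; exact hb k
    _ ≤ _ := by rw [one_mul]; exact hC k hk

theorem Dec.congr {f g : ℝ → ℝ} (hf : Dec f) (hg : Measurable g) (h : ∀ k : ℝ, 0 < k → g k = f k) :
    Dec g := by
  obtain ⟨_, C, hC⟩ := hf
  exact ⟨hg, C, fun k hk => by rw [h k hk]; exact hC k hk⟩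

theorem exp_z_le {k : ℝ} (hk : 0 < k) : Real.exp (-(zk k)) ≤ Real.exp (-(zk k / 16)) := by
  have := zk_pos hk
  apply Real.exp_le_exp.2; linarith

/-- anything bounded by `C w x^14` (times `PQ`) is in the class -/
theorem dec_of_le {R : ℝ → ℝ} (hm : Measurable R) {C : ℝ} (hC0 : 0 ≤ C)
    (hC : ∀ z : ℝ, 0 < z → |R z| ≤ C * (ww z * ch 1 z ^ 14)) (hPQ : Measurable PQ)
    (hzk : Measurable zk) : Dec fun k => PQ k * R (zk k) := by
  refine ⟨hPQ.mul (hm.comp hzk), C * 2, fun k hk => ?_⟩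
  have h1 := hC _ (zk_pos hk)
  have h2 := PQ_w hk
  have h3 := PQ_pos hk
  have h4 := exp_z_le hk
  rw [abs_mul, abs_of_pos h3]
  calc PQ k * |R (zk k)| ≤ PQ k * (C * (ww (zk k) * ch 1 (zk k) ^ 14)) := by gcongr
    _ = C * (PQ k * (ww (zk k) * ch 1 (zk k) ^ 14)) := by ring
    _ ≤ C * (2 * Real.exp (-(zk k))) := by gcongr
    _ ≤ C * (2 * Real.exp (-(zk k / 16))) := by gcongr
    _ = _ := by ring

theorem meas_zk : Measurable zk := by unfold zk; fun_prop
theorem meas_PQ : Measurable PQ := by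
  unfold PQ zk
  have : Measurable fun k : ℝ => Real.sinh (16 * (π * k / 32)) := by
    exact Real.measurable_sinh.comp (by fun_prop)
  exact measurable_const.div (measurable_id.mul this)
theorem meas_ch (n : ℕ) : Measurable (ch n) := by
  unfold ch; exact Real.measurable_cosh.comp (by fun_prop)
theorem meas_gg : Measurable gg := by
  unfold gg
  have := meas_ch 14; have := meas_ch 12; have := meas_ch 8; have := meas_ch 4
  fun_prop
theorem meas_al : Measurable al := by
  unfold al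
  have := meas_ch 2
  fun_prop
theorem meas_core : Measurable core := by
  unfold core
  have h1 : Measurable fun z : ℝ => Real.sinh (16 * z) := Real.measurable_sinh.comp (by fun_prop)
  have h2 : Measurable fun z : ℝ => Real.tanh (z / 32) := by
    have e : (fun z : ℝ => Real.tanh (z / 32)) = fun z => Real.sinh (z / 32) / Real.cosh (z / 32) := by
      funext z; rw [Real.tanh_eq_sinh_div_cosh]
    rw [e]
    exact (Real.measurable_sinh.comp (by fun_prop)).div (Real.measurable_cosh.comp (by fun_prop))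
  exact h1.mul h2
theorem meas_up : Measurable up := by
  unfold up; have := meas_ch 4; fun_prop
theorem meas_um : Measurable um := by
  unfold um; have := meas_ch 4; fun_prop
theorem meas_psi : Measurable psi := by
  unfold psi
  have := meas_ch 1; have := meas_ch 2; have := meas_ch 8; have := meas_ch 4
  fun_prop
theorem meas_NN : Measurable NN := by
  unfold NN; have := meas_ch 8; have := meas_ch 10; fun_prop
theorem meas_fXS : Measurable fXS := by
  unfold fXS; have := meas_ch 3; have := meas_ch 5; have := meas_ch 7; have := meas_ch 15; fun_prop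
theorem meas_fYS : Measurable fYS := by
  unfold fYS; have := meas_ch 5; have := meas_ch 15; fun_prop
theorem meas_fXV : Measurable fXV := by
  unfold fXV; have := meas_ch 1; have := meas_ch 3; have := meas_ch 5; have := meas_ch 7
  have := meas_ch 15; fun_prop
theorem meas_fYV : Measurable fYV := by
  unfold fYV; have := meas_ch 9; have := meas_ch 11; have := meas_ch 5; have := meas_ch 7
  have := meas_ch 15; have := meas_ch 13; fun_prop
theorem meas_b : Measurable bSS ∧ Measurable bSV ∧ Measurable bVV := by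
  unfold bSS bSV bVV
  have := meas_ch 4; have := meas_ch 8; have := meas_ch 12; have := meas_ch 16
  refine ⟨?_, ?_, ?_⟩ <;> fun_prop
theorem meas_e : Measurable eSS ∧ Measurable eSV ∧ Measurable eVV := by
  unfold eSS eSV eVV
  obtain ⟨h1, h2, h3⟩ := meas_b
  have := meas_up; have := meas_um; have := meas_psi; have := meas_NN
  have := meas_fXS; have := meas_fYS; have := meas_fXV; have := meas_fYV
  have := meas_gg; have := meas_al; have := meas_core
  refine ⟨?_, ?_, ?_⟩ <;> fun_prop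
theorem meas_ww : Measurable ww := by
  unfold ww; exact Real.measurable_cosh.sub_const 1
theorem meas_ev (l : IP) : Measurable (ev l) := by
  induction l with
  | nil => exact measurable_const
  | cons a l ih => exact measurable_const.add (measurable_id.mul ih)
theorem meas_MM : Measurable MM := by
  unfold MM
  have := meas_up; have := meas_um; have := meas_ch 2; have := meas_ch 1
  fun_prop
theorem meas_co : Measurable co := by
  unfold co
  have := meas_ch 17; have := meas_ch 15; have := meas_ch 1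
  fun_prop

theorem dec_g : Dec gK := dec_of_le meas_gg (n1_nonneg _) (fun _ hz => gg_le hz) meas_PQ meas_zk

theorem dec_core : Dec fun k => PQ k * (co (zk k) - core (zk k)) :=
  ⟨meas_PQ.mul ((meas_co.comp meas_zk).sub (meas_core.comp meas_zk)), 2, fun _ hk => PQ_core hk⟩

theorem dec_quot {l : IP} (h : isZ (l.take 2) = true) (hl : (l.drop 2).length = 55) :
    Dec fun k => PQ k * (ev l (ww (zk k)) / MM (zk k)) :=
  dec_of_le (R := fun z => ev l (ww z) / MM z) (((meas_ev l).comp meas_ww).div meas_MM)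
    (n1_nonneg _) (fun _ hz => quot_le h hl hz) meas_PQ meas_zk

theorem dec_alpha : Dec alphaK := by
  refine (((dec_quot (l := lA) (by decide +kernel) (by decide +kernel)).add dec_core).add dec_g).congr
    (meas_PQ.mul ((meas_e.1.comp meas_zk).add (meas_gg.comp meas_zk))) fun k hk => ?_
  have hz := zk_pos hk
  have hM := (MM_pos hz).ne'
  rw [alphaK, gK, evA hz]
  field_simp
  ring

theorem dec_gam : Dec gamK := by
  refine (((dec_quot (l := lD) (by decide +kernel) (by decide +kernel)).add dec_core).add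
    (((dec_g.mul_bdd (meas_al.comp meas_zk) (fun k => ?_)).mul_bdd (meas_al.comp meas_zk)
      (fun k => ?_)))).congr ?_ fun k hk => ?_
  · have := al_mem (zk k); exact abs_le.2 ⟨by simp only [Function.comp]; linarith, this.2⟩
  · have := al_mem (zk k); exact abs_le.2 ⟨by simp only [Function.comp]; linarith, this.2⟩
  · exact meas_PQ.mul ((meas_e.2.2.comp meas_zk).add
      (((meas_al.comp meas_zk).pow_const 2).mul (meas_gg.comp meas_zk)))
  · have hz := zk_pos hk
    have hM := (MM_pos hz).ne'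
    simp only [Function.comp]
    rw [gamK, gK, evD hz]
    field_simp
    ring

theorem dec_wg : Dec fun k => wK k * gK k :=
  dec_g.mul_bdd (g := wK) (meas_al.comp meas_zk) (fun k => by
    have := al_mem (zk k)
    show |al (zk k)| ≤ 1
    exact abs_le.2 ⟨by linarith, this.2⟩)

theorem dec_wwg : Dec fun k => wK k ^ 2 * gK k := by
  refine (dec_wg.mul_bdd (meas_al.comp meas_zk) (fun k => ?_)).congr
    (((meas_al.comp meas_zk).pow_const 2).mul dec_g.1) fun k _ => ?_
  · have := al_mem (zk k)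
    show |al (zk k)| ≤ 1
    exact abs_le.2 ⟨by linarith, this.2⟩
  · simp only [wK, Function.comp]; ring

theorem dec_beta : Dec betaK := by
  refine (((dec_quot (l := lB) (by decide +kernel) (by decide +kernel)).add dec_core.neg).add
    dec_wg.neg).congr ?_ fun k hk => ?_
  · exact meas_PQ.mul ((meas_e.2.1.comp meas_zk).sub
      ((meas_al.comp meas_zk).mul (meas_gg.comp meas_zk)))
  · have hz := zk_pos hk
    have hM := (MM_pos hz).ne'
    rw [betaK, gK, wK, evB hz]
    field_simp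
    ring

theorem int_alpha : IntegrableOn alphaK (Ioi 0) := dec_alpha.int
theorem int_beta : IntegrableOn betaK (Ioi 0) := dec_beta.int
theorem int_gam : IntegrableOn gamK (Ioi 0) := dec_gam.int
theorem int_g : IntegrableOn gK (Ioi 0) := dec_g.int
theorem int_wg : IntegrableOn (fun k => wK k * gK k) (Ioi 0) := dec_wg.int
theorem int_wwg : IntegrableOn (fun k => wK k ^ 2 * gK k) (Ioi 0) := dec_wwg.int

end

end NUSB
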