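import Pool.Agent.NUP.MF.Str
import Pool.Agent.NUO.SBlockK
import Pool.Agent.NUO.PosGen
import Pool.Agent.NUO.MHat

/-!
# NUO/SlackN (helper66): the elementary real space facts of (STAB), board/ABS O4

* `Nt t = (3/5)[(17/10) log ((C+1)/C) - log ((C+1)/(C+cos (5π/8)))]`, `C = cosh 2t`:
  `Nt_fourier` (its transform is `PQ k * NN (zk k)`), `Nt_pos`, `Nt_ge` (`≥ (3/2000)/C`),
  `Nt_ge_one` (`≥ 1/2600` on `|t| ≤ 1`).
* `psiS` : the slack `ψ_S`, transform `(2π/k) sinh (y/4) (1/h + (3/5)/h²)`.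
* `slk t = ∫ P(s) ψ_S(t - s) ds`, `slk_nonneg`, `slk_le : slk t + P t/50 ≤ 2 Ag (1/4) t`.
-/

set_option autoImplicit false

open MeasureTheory Set Filter Topology

namespace NUSlk

open NUMF NUPosK

noncomputable section

/-! ## the kernel `N` -/

/-- the pointwise positive kernel taken out of the `{S, Svv}` block -/
def Nt (t : ℝ) : ℝ :=
  (3 / 5) * ((17 / 10) * Real.log ((Real.cosh (2 * t) + 1) / Real.cosh (2 * t)) -
    Real.log ((Real.cosh (2 * t) + 1) / (Real.cosh (2 * t) + Real.cos (5 * Real.pi / 8))))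

lemma cos58 : Real.cos (5 * Real.pi / 8) = -Real.sin (Real.pi / 8) := by
  rw [show 5 * Real.pi / 8 = Real.pi / 8 + Real.pi / 2 by ring, Real.cos_add_pi_div_two]

lemma sin8_bounds : 0.382 < Real.sin (Real.pi / 8) ∧ Real.sin (Real.pi / 8) < 0.382684 := by
  have h1 := Real.sin_pi_div_eight
  have h2 : √(2:ℝ) < 1.4142136 := by
    rw [Real.sqrt_lt' (by norm_num)]; norm_num
  have h3 : (1.4142135:ℝ) < √2 := by
    rw [Real.lt_sqrt (by norm_num)]; norm_num
  have h4 : √(2 - √(2:ℝ)) < 0.765368 := by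
    rw [Real.sqrt_lt' (by norm_num)]; norm_num; linarith
  have h5 : (0.765:ℝ) < √(2 - √2) := by
    rw [Real.lt_sqrt (by norm_num)]; norm_num; linarith
  rw [h1]
  constructor <;> linarith

lemma Nt_eq (t : ℝ) : Nt t = (3 / 5) * ((17 / 10) * (h t 0 - h t (2 * l)) - (h t 0 - h t (5 * Real.pi / 16))) := by
  have hc : 0 < Real.cosh (2 * t) := Real.cosh_pos _
  have h1c := Real.one_le_cosh (2 * t)
  have hb := sin8_bounds
  have hp : 0 < Real.cosh (2 * t) + Real.cos (5 * Real.pi / 8) := by rw [cos58]; linarith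
  have e : h t (5 * Real.pi / 16) = Real.log (Real.cosh (2 * t) + Real.cos (5 * Real.pi / 8)) := by
    unfold h
    congr 3
    ring
  rw [h0, h2, e]
  unfold Nt
  rw [Real.log_div (by linarith) hc.ne', Real.log_div (by linarith) hp.ne']

theorem Nt_fourier (t : ℝ) :
    IntegrableOn (fun k => NUSB.PQ k * NUSB.NN (NUSB.zk k) * Real.cos (k * t)) (Ioi 0) ∧
    Nt t = ∫ k in Ioi (0:ℝ), NUSB.PQ k * NUSB.NN (NUSB.zk k) * Real.cos (k * t) := by
  have hpi := Real.pi_pos
  have hl : 2 * l = Real.pi / 4 := by unfold l; ring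
  obtain ⟨i1, e1⟩ := h_sub_fourier (a := 0) (b := 2 * l) (by rw [abs_zero]; positivity)
    (by rw [hl, abs_of_pos (by positivity)]; linarith) t
  obtain ⟨i2, e2⟩ := h_sub_fourier (a := 0) (b := 5 * Real.pi / 16) (by rw [abs_zero]; positivity)
    (by rw [abs_of_pos (by positivity)]; linarith) t
  have j1 := (i1.const_mul (17 / 10)).sub i2
  have j2 := j1.const_mul (3 / 5)
  have hf : ∀ k : ℝ, NUSB.PQ k * NUSB.NN (NUSB.zk k) * Real.cos (k * t) =
      3 / 5 * (17 / 10 * (2 * Real.cos (t * k) * (Real.cosh (2 * l * k) - Real.cosh (0 * k)) / (k * sk k)) -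
        2 * Real.cos (t * k) * (Real.cosh (5 * Real.pi / 16 * k) - Real.cosh (0 * k)) / (k * sk k)) := by
    intro k
    have a1 : NUSB.PQ k = 2 / (k * sk k) := by
      unfold NUSB.PQ NUSB.zk sk
      congr 3
      ring
    have a2 : NUSB.NN (NUSB.zk k) = 3 / 5 * (17 / 10 * (Real.cosh (2 * l * k) - 1) -
        (Real.cosh (5 * Real.pi / 16 * k) - 1)) := by
      unfold NUSB.NN NUSB.ch NUSB.zk
      have b1 : ((8:ℕ):ℝ) * (Real.pi * k / 32) = 2 * l * k := by rw [hl]; push_cast; ring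
      have b2 : ((10:ℕ):ℝ) * (Real.pi * k / 32) = 5 * Real.pi / 16 * k := by push_cast; ring
      rw [b1, b2]
    rw [a1, a2, zero_mul, Real.cosh_zero, mul_comm k t]
    ring
  refine ⟨j2.congr (Eventually.of_forall fun k => (hf k).symm), ?_⟩
  have b1 := integral_sub (i1.const_mul (17 / 10)) i2
  simp_rw [hf]
  rw [integral_const_mul, b1, integral_const_mul, ← e1, ← e2, Nt_eq]

theorem NN_integrable : IntegrableOn (fun k => NUSB.PQ k * NUSB.NN (NUSB.zk k)) (Ioi 0) := by
  simpa using (Nt_fourier 0).1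

/-- the constant of `N`: `(7/10) log 2 + log (1 - sin (π/8)) ≥ 1/400` -/
lemma const_N : (1:ℝ) / 400 ≤ 7 / 10 * Real.log 2 + Real.log (1 - Real.sin (Real.pi / 8)) := by
  have h1 := Real.log_two_gt_d9
  have hb := sin8_bounds.2
  have h2 : Real.log (1 - Real.sin (Real.pi / 8)) ≥ -0.4825 := by
    have h3 : Real.exp (-0.4825) ≤ 1 - Real.sin (Real.pi / 8) := by
      have h4 : (1.62:ℝ) ≤ Real.exp 0.4825 := by
        have h5 := Real.sum_le_exp_of_nonneg (x := 0.4825) (by norm_num) 6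
        refine le_trans ?_ h5
        norm_num [Finset.sum_range_succ, Nat.factorial]
      rw [Real.exp_neg]
      have h6 : (Real.exp 0.4825)⁻¹ ≤ (1.62)⁻¹ := by
        gcongr
      refine h6.trans ?_
      have : (1.62:ℝ)⁻¹ ≤ 0.6173 := by norm_num
      linarith
    have h7 := Real.log_le_log (Real.exp_pos _) h3
    rw [Real.log_exp] at h7
    exact h7
  norm_num at h1 h2 ⊢
  linarith

/-- concavity: `(7/10) log (1+u) + log (1 - s u) ≥ u ((7/10) log 2 + log (1-s))` for `0 ≤ u ≤ 1` -/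
lemma conc_N {s u : ℝ} (hs1 : s < 1) (hu0 : 0 ≤ u) (hu1 : u ≤ 1) :
    u * (7 / 10 * Real.log 2 + Real.log (1 - s)) ≤ 7 / 10 * Real.log (1 + u) + Real.log (1 - s * u) := by
  have hc := strictConcaveOn_log_Ioi.concaveOn
  have h1 := hc.2 (show (1:ℝ) ∈ Ioi 0 by simp) (show (2:ℝ) ∈ Ioi 0 by simp)
    (show (0:ℝ) ≤ 1 - u by linarith) hu0 (by ring)
  have h2 := hc.2 (show (1:ℝ) ∈ Ioi 0 by simp) (show 1 - s ∈ Ioi (0:ℝ) by simpa using hs1)
    (show (0:ℝ) ≤ 1 - u by linarith) hu0 (by ring)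
  simp only [smul_eq_mul, Real.log_one, mul_zero, zero_add] at h1 h2
  have e1 : (1 - u) * 1 + u * 2 = 1 + u := by ring
  have e2 : (1 - u) * 1 + u * (1 - s) = 1 - s * u := by ring
  rw [e1] at h1
  rw [e2] at h2
  linarith

theorem Nt_ge (t : ℝ) : 3 / 2000 / Real.cosh (2 * t) ≤ Nt t := by
  have hc : 0 < Real.cosh (2 * t) := Real.cosh_pos _
  have h1c := Real.one_le_cosh (2 * t)
  have hb := sin8_bounds
  set s := Real.sin (Real.pi / 8) with hs
  set C := Real.cosh (2 * t) with hC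
  have hu1 : 1 / C ≤ 1 := by rw [div_le_one hc]; exact h1c
  have hu0 : 0 ≤ 1 / C := by positivity
  have h2 := conc_N (s := s) (u := 1 / C) (by linarith) hu0 hu1
  have h3 := const_N
  rw [← hs] at h3
  have h4 : 1 / C * (1 / 400) ≤ 1 / C * (7 / 10 * Real.log 2 + Real.log (1 - s)) :=
    mul_le_mul_of_nonneg_left h3 hu0
  have e1 : Real.log (1 + 1 / C) = Real.log (C + 1) - Real.log C := by
    rw [← Real.log_div (by linarith) hc.ne']
    congr 1
    field_simp
  have e2 : Real.log (1 - s * (1 / C)) = Real.log (C - s) - Real.log C := by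
    rw [← Real.log_div (by linarith) hc.ne']
    congr 1
    field_simp
  rw [e1, e2] at h2
  have e3 : Nt t = (3 / 5) * ((17 / 10) * (Real.log (C + 1) - Real.log C) -
      (Real.log (C + 1) - Real.log (C - s))) := by
    unfold Nt
    rw [cos58, ← hs, ← hC, Real.log_div (by linarith) hc.ne', ← sub_eq_add_neg,
      Real.log_div (by linarith) (by linarith)]
  rw [e3]
  have e4 : 3 / 2000 / C = 3 / 5 * (1 / C * (1 / 400)) := by ring
  rw [e4]
  linarith

theorem Nt_pos (t : ℝ) : 0 < Nt t := lt_of_lt_of_le (by have := Real.cosh_pos (2 * t); positivity) (Nt_ge t)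

/-- `N ≥ 1/2600` on `|t| ≤ 1` -/
theorem Nt_ge_one {t : ℝ} (ht : |t| ≤ 1) : 1 / 2600 ≤ Nt t := by
  refine le_trans ?_ (Nt_ge t)
  have h1 : Real.cosh (2 * t) ≤ Real.cosh 2 := by
    rw [Real.cosh_le_cosh, abs_mul, abs_of_pos (show (0:ℝ) < 2 by norm_num)]
    linarith
  have h2 : Real.cosh 2 < 3.8 := by
    have e := Real.exp_one_lt_d9
    have e' := Real.exp_one_gt_d9
    rw [Real.cosh_eq]
    have a1 : Real.exp 2 = Real.exp 1 ^ 2 := by rw [← Real.exp_nat_mul]; norm_num
    have a2 : Real.exp (-2) = (Real.exp 1 ^ 2)⁻¹ := by rw [Real.exp_neg, a1]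
    have a3 : Real.exp 1 ^ 2 < 7.39 := by nlinarith
    have a4 : (7.38:ℝ) < Real.exp 1 ^ 2 := by nlinarith
    have a5 : (Real.exp 1 ^ 2)⁻¹ < (7.38)⁻¹ := by gcongr
    have a6 : (7.38:ℝ)⁻¹ < 0.14 := by norm_num
    rw [a1, a2]
    linarith
  have hc : 0 < Real.cosh (2 * t) := Real.cosh_pos _
  rw [div_le_div_iff₀ (by norm_num) hc]
  linarith


/-! ## transform pairs -/

/-- `f` is the inverse cosine transform of `u` -/
structure Inv (f u : ℝ → ℝ) : Prop where
  intu : IntegrableOn u (Ioi 0)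
  inv : ∀ t, f t = 1 / Real.pi * ∫ k in Ioi (0:ℝ), u k * Real.cos (k * t)

/-- `f` integrable with cosine transform `u`, and the inversion formula holds everywhere -/
structure Pair (f u : ℝ → ℝ) : Prop extends Inv f u where
  int : Integrable f
  fwd : ∀ k : ℝ, 0 < k → ∫ t, f t * Real.cos (k * t) = u k

lemma Inv.even {f u : ℝ → ℝ} (h : Inv f u) (t : ℝ) : f (-t) = f t := by
  rw [h.inv, h.inv t]
  simp only [mul_neg, Real.cos_neg]

lemma Inv.congr {f u v : ℝ → ℝ} (h : Inv f u) (e : ∀ k : ℝ, 0 < k → v k = u k) : Inv f v := by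
  refine ⟨h.intu.congr_fun (fun k hk => (e k hk).symm) measurableSet_Ioi, fun t => ?_⟩
  rw [h.inv t]
  congr 1
  exact setIntegral_congr_fun measurableSet_Ioi fun k hk => by simp only [e k hk]

lemma Inv.add {f g u v : ℝ → ℝ} (h : Inv f u) (h' : Inv g v) :
    Inv (fun t => f t + g t) (fun k => u k + v k) := by
  refine ⟨h.intu.add h'.intu, fun t => ?_⟩
  have b := integral_add (intOn_mul_cos h.intu t) (intOn_mul_cos h'.intu t)
  simp_rw [add_mul]
  rw [b, h.inv, h'.inv]
  ring

lemma Inv.smul {f u : ℝ → ℝ} (h : Inv f u) (c : ℝ) : Inv (fun t => c * f t) (fun k => c * u k) := by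
  refine ⟨h.intu.const_mul c, fun t => ?_⟩
  simp_rw [mul_assoc c]
  rw [integral_const_mul, h.inv]
  ring

lemma Inv.sub {f g u v : ℝ → ℝ} (h : Inv f u) (h' : Inv g v) :
    Inv (fun t => f t - g t) (fun k => u k - v k) := by
  have h1 := h.add (h'.smul (-1))
  refine ⟨?_, fun t => ?_⟩
  · have := h1.intu
    simpa [sub_eq_add_neg] using this
  · have := h1.inv t
    rw [sub_eq_add_neg, show -g t = -1 * g t by ring, this]
    congr 2
    funext k
    ring

/-- uniqueness -/
lemma Inv.unique {f g u : ℝ → ℝ} (h : Inv f u) (h' : Inv g u) : f = g := by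
  funext t
  rw [h.inv, h'.inv]

lemma Inv.cont {f u : ℝ → ℝ} (h : Inv f u) : Continuous f := by
  have e : f = fun t => 1 / Real.pi * ∫ k in Ioi (0:ℝ), u k * Real.cos (k * t) := funext h.inv
  rw [e]
  refine continuous_const.mul ?_
  refine continuous_of_dominated (bound := fun k => ‖u k‖) ?_ ?_ h.intu.norm ?_
  · exact fun t => (intOn_mul_cos h.intu t).aestronglyMeasurable
  · refine fun t => Eventually.of_forall fun k => ?_
    rw [norm_mul]
    exact mul_le_of_le_one_right (norm_nonneg _) (by rw [Real.norm_eq_abs]; exact Real.abs_cos_le_one _)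
  · exact Eventually.of_forall fun k => by fun_prop

lemma Inv.nonneg {f u : ℝ → ℝ} (h : Inv f u) (hu : PK u) (t : ℝ) : 0 ≤ f t := by
  rw [h.inv]
  have := hu.2 t
  have := Real.pi_pos
  positivity

lemma Pair.congr {f u v : ℝ → ℝ} (h : Pair f u) (e : ∀ k : ℝ, 0 < k → v k = u k) : Pair f v :=
  ⟨h.toInv.congr e, h.int, fun k hk => by rw [h.fwd k hk, e k hk]⟩

lemma Pair.add {f g u v : ℝ → ℝ} (h : Pair f u) (h' : Pair g v) :
    Pair (fun t => f t + g t) (fun k => u k + v k) := by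
  refine ⟨h.toInv.add h'.toInv, h.int.add h'.int, fun k hk => ?_⟩
  have b := integral_add (int_mul_cos h.int k) (int_mul_cos h'.int k)
  simp_rw [add_mul]
  rw [b, h.fwd k hk, h'.fwd k hk]

lemma Pair.smul {f u : ℝ → ℝ} (h : Pair f u) (c : ℝ) : Pair (fun t => c * f t) (fun k => c * u k) := by
  refine ⟨h.toInv.smul c, h.int.const_mul c, fun k hk => ?_⟩
  simp_rw [mul_assoc c]
  rw [integral_const_mul, h.fwd k hk]

/-- the cosine transform of a translate -/
lemma cos_shift {G : ℝ → ℝ} (hG : Integrable G) (he : ∀ s, G (-s) = G s) (k x : ℝ) :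
    ∫ s, G s * Real.cos (k * (x - s)) = (∫ s, G s * Real.cos (k * s)) * Real.cos (k * x) := by
  have hsin : ∫ y, G y * Real.sin (k * y) = 0 := by
    have h1 := integral_neg_eq_self (fun y => G y * Real.sin (k * y)) volume
    have h2 : (fun y => G (-y) * Real.sin (k * -y)) = fun y => -(G y * Real.sin (k * y)) := by
      funext y
      rw [he, mul_neg, Real.sin_neg]
      ring
    rw [h2, integral_neg] at h1
    linarith
  have h2 : ∀ s : ℝ, G s * Real.cos (k * (x - s)) =
      Real.cos (k * x) * (G s * Real.cos (k * s)) + Real.sin (k * x) * (G s * Real.sin (k * s)) := by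
    intro s
    rw [mul_sub, Real.cos_sub]
    ring
  simp_rw [h2]
  rw [integral_add ((int_mul_cos hG k).const_mul _) ((int_mul_sin hG k).const_mul _), integral_const_mul,
    integral_const_mul, hsin]
  ring

/-- convolution with an even integrable function -/
theorem Pair.conv {f u G v : ℝ → ℝ} (h : Pair f u) (hG : Integrable G) (he : ∀ s, G (-s) = G s)
    (hv : ∀ k : ℝ, 0 < k → ∫ s, G s * Real.cos (k * s) = v k) :
    Pair (fun x => ∫ s, G s * f (x - s)) (fun k => u k * v k) := by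
  have hcV := MK.cont hG
  set V : ℝ → ℝ := fun k => ∫ s, G s * Real.cos (k * s) with hV
  have hb : ∀ k, ‖V k‖ ≤ ∫ s, ‖G s‖ := fun k => by
    refine (norm_integral_le_integral_norm _).trans ?_
    refine integral_mono (int_mul_cos hG k).norm hG.norm fun s => ?_
    simp only [norm_mul]
    exact mul_le_of_le_one_right (norm_nonneg _) (by rw [Real.norm_eq_abs]; exact Real.abs_cos_le_one _)
  have hprod : Integrable (fun p : ℝ × ℝ => G p.2 * f (p.1 - p.2)) (volume.prod volume) :=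
    Integrable.convolution_integrand (ContinuousLinearMap.mul ℝ ℝ) hG h.int
  have huV : IntegrableOn (fun k => u k * V k) (Ioi 0) :=
    Integrable.mul_bdd h.intu hcV.aestronglyMeasurable (Eventually.of_forall hb)
  have huv : ∀ k : ℝ, 0 < k → u k * v k = u k * V k := fun k hk => by rw [hV]; simp only [hv k hk]
  refine Pair.congr (u := fun k => u k * V k) ⟨⟨huV, fun x => ?_⟩, ?_, fun k hk => ?_⟩ huv
  · -- inversion formula
    have hp : Integrable (fun p : ℝ × ℝ => G p.1 * (u p.2 * Real.cos (p.2 * (x - p.1))))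
        (volume.prod (volume.restrict (Ioi 0))) := by
      have h1 : Integrable (fun p : ℝ × ℝ => G p.1 * u p.2) (volume.prod (volume.restrict (Ioi 0))) :=
        Integrable.mul_prod hG h.intu
      have h2 := h1.mul_bdd (g := fun p : ℝ × ℝ => Real.cos (p.2 * (x - p.1))) (c := 1)
        (Continuous.aestronglyMeasurable (by fun_prop))
        (Eventually.of_forall fun p => by rw [Real.norm_eq_abs]; exact Real.abs_cos_le_one _)
      refine h2.congr (Eventually.of_forall fun p => ?_)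
      simp only []
      ring
    have e1 : ∀ s, G s * f (x - s) =
        1 / Real.pi * ∫ k in Ioi (0:ℝ), G s * (u k * Real.cos (k * (x - s))) := by
      intro s
      rw [h.inv, integral_const_mul]
      ring
    simp_rw [e1]
    rw [integral_const_mul, integral_integral_swap hp]
    congr 1
    refine setIntegral_congr_fun measurableSet_Ioi fun k _ => ?_
    have e2 : ∀ s, G s * (u k * Real.cos (k * (x - s))) = u k * (G s * Real.cos (k * (x - s))) := by
      intro s; ring
    simp_rw [e2]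
    rw [integral_const_mul, cos_shift hG he]
    ring
  · exact hprod.integral_prod_left
  · have hp2 : Integrable (fun p : ℝ × ℝ => G p.2 * f (p.1 - p.2) * Real.cos (k * p.1)) (volume.prod volume) := by
      refine hprod.mul_bdd (c := 1) (Continuous.aestronglyMeasurable (by fun_prop)) ?_
      refine Eventually.of_forall fun p => ?_
      rw [Real.norm_eq_abs]
      exact Real.abs_cos_le_one _
    have e1 : ∀ s, (∫ x, G x * f (s - x)) * Real.cos (k * s) = ∫ x, G x * f (s - x) * Real.cos (k * s) := by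
      intro s
      rw [integral_mul_const]
    simp_rw [e1]
    rw [integral_integral_swap hp2]
    have e2 : ∀ x, ∫ s, G x * f (s - x) * Real.cos (k * s) = G x * Real.cos (k * x) * u k := by
      intro x
      have h1 := integral_add_right_eq_self (μ := volume) (fun s => G x * f (s - x) * Real.cos (k * s)) x
      rw [← h1]
      have h2 : ∀ y : ℝ, G x * f (y + x - x) * Real.cos (k * (y + x)) =
          G x * (f y * Real.cos (k * (-x - y))) := by
        intro y
        rw [add_sub_cancel_right, show k * (-x - y) = -(k * (y + x)) by ring, Real.cos_neg]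
        ring
      simp_rw [h2]
      rw [integral_const_mul, cos_shift h.int h.toInv.even, h.fwd k hk, mul_neg, Real.cos_neg]
      ring
    simp_rw [e2]
    rw [integral_mul_const]
    ring

/-! ## log kernels of general scale -/

/-- `log ((C + s)/(C - s))`, `C = cosh (8t/N)`, `s = sin (π b/N)` -/
def Lk (N b t : ℝ) : ℝ :=
  Real.log ((Real.cosh (8 / N * t) + Real.sin (Real.pi * b / N)) /
    (Real.cosh (8 / N * t) - Real.sin (Real.pi * b / N)))

lemma sin_lt_one' {N b : ℝ} (hb : 0 < b) (hN : b < N / 2) :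
    0 < Real.sin (Real.pi * b / N) ∧ Real.sin (Real.pi * b / N) < 1 := by
  have hpi := Real.pi_pos
  have hN0 : 0 < N := by linarith
  have h1 : Real.pi * b / N < Real.pi / 2 := by
    rw [div_lt_div_iff₀ hN0 (by norm_num)]
    nlinarith
  have h0 : 0 < Real.pi * b / N := by positivity
  refine ⟨Real.sin_pos_of_pos_of_lt_pi h0 (by linarith), ?_⟩
  rw [← Real.sin_pi_div_two]
  exact Real.sin_lt_sin_of_lt_of_le_pi_div_two (by linarith) le_rfl h1

lemma Lk_eq {N b : ℝ} (hb : 0 < b) (hN : b < N / 2) (t : ℝ) :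
    Lk N b t = h (4 / N * t) (Real.pi / 4 - Real.pi * b / (2 * N)) -
      h (4 / N * t) (Real.pi / 4 + Real.pi * b / (2 * N)) := by
  have hN0 : 0 < N := by linarith
  obtain ⟨s0, s1⟩ := sin_lt_one' hb hN
  have hc := Real.one_le_cosh (8 / N * t)
  have e1 : 2 * (4 / N * t) = 8 / N * t := by ring
  have e2 : Real.cos (2 * (Real.pi / 4 - Real.pi * b / (2 * N))) = Real.sin (Real.pi * b / N) := by
    rw [show 2 * (Real.pi / 4 - Real.pi * b / (2 * N)) = Real.pi / 2 - Real.pi * b / N by field_simp; ring,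
      Real.cos_pi_div_two_sub]
  have e3 : Real.cos (2 * (Real.pi / 4 + Real.pi * b / (2 * N))) = -Real.sin (Real.pi * b / N) := by
    rw [show 2 * (Real.pi / 4 + Real.pi * b / (2 * N)) = Real.pi * b / N + Real.pi / 2 by field_simp; ring,
      Real.cos_add_pi_div_two]
  unfold Lk h
  rw [e1, e2, e3, Real.log_div (by linarith) (by linarith), sub_eq_add_neg (Real.cosh _)]

lemma ab_bounds {N b : ℝ} (hb : 0 < b) (hN : b < N / 2) :
    |Real.pi / 4 - Real.pi * b / (2 * N)| < Real.pi / 2 ∧ |Real.pi / 4 + Real.pi * b / (2 * N)| < Real.pi / 2 := by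
  have hpi := Real.pi_pos
  have hN0 : 0 < N := by linarith
  have h1 : Real.pi * b / (2 * N) < Real.pi / 4 := by
    rw [div_lt_div_iff₀ (by positivity) (by norm_num)]
    nlinarith
  have h0 : 0 < Real.pi * b / (2 * N) := by positivity
  constructor
  · rw [abs_of_pos (by linarith)]; linarith
  · rw [abs_of_pos (by linarith)]; linarith

/-- the quotient after the dilation -/
lemma quot_dil {N b k : ℝ} (hb : 0 < b) (hN : b < N / 2) (hk : 0 < k) :
    (Real.cosh ((Real.pi / 4 + Real.pi * b / (2 * N)) * (N / 4 * k)) -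
      Real.cosh ((Real.pi / 4 - Real.pi * b / (2 * N)) * (N / 4 * k))) / (N / 4 * k * sk (N / 4 * k)) =
      4 / N * (Real.sinh (b * NUO.yk k) / (k * Real.cosh (N / 2 * NUO.yk k))) := by
  have hN0 : 0 < N := by linarith
  have hy := NUO.yk_pos hk
  have e1 : (Real.pi / 4 + Real.pi * b / (2 * N)) * (N / 4 * k) = N / 2 * NUO.yk k + b * NUO.yk k := by
    unfold NUO.yk; field_simp; ring
  have e2 : (Real.pi / 4 - Real.pi * b / (2 * N)) * (N / 4 * k) = N / 2 * NUO.yk k - b * NUO.yk k := by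
    unfold NUO.yk; field_simp; ring
  rw [e1, e2, NUO.sk_scale, show N * NUO.yk k = 2 * (N / 2 * NUO.yk k) by ring, Real.sinh_two_mul,
    Real.cosh_add, Real.cosh_sub]
  have h3 : 0 < Real.sinh (N / 2 * NUO.yk k) := Real.sinh_pos_iff.2 (by positivity)
  have h4 := Real.cosh_pos (N / 2 * NUO.yk k)
  field_simp
  ring

/-- transform of the log kernel -/
def uL (N b k : ℝ) : ℝ := 2 * Real.pi / k * (Real.sinh (b * NUO.yk k) / Real.cosh (N / 2 * NUO.yk k))

theorem Lk_pair {N b : ℝ} (hb : 0 < b) (hN : b < N / 2) : Pair (Lk N b) (uL N b) := by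
  have hpi := Real.pi_pos
  have hN0 : 0 < N := by linarith
  have hN4 : 0 < N / 4 := by positivity
  obtain ⟨ha1, hb1⟩ := ab_bounds hb hN
  set a' := Real.pi / 4 - Real.pi * b / (2 * N) with ha'
  set b' := Real.pi / 4 + Real.pi * b / (2 * N) with hb'
  -- the integrand after dilation
  have hg : ∀ t k : ℝ, 0 < k →
      2 * Real.cos (4 / N * t * (N / 4 * k)) * (Real.cosh (b' * (N / 4 * k)) - Real.cosh (a' * (N / 4 * k))) /
        (N / 4 * k * sk (N / 4 * k)) = 4 / N * (1 / Real.pi * (uL N b k * Real.cos (k * t))) := by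
    intro t k hk
    have e := quot_dil hb hN hk
    rw [← ha', ← hb'] at e
    rw [mul_div_assoc, e, show 4 / N * t * (N / 4 * k) = k * t by field_simp]
    unfold uL
    field_simp
  have hint : ∀ t : ℝ, IntegrableOn (fun k => 1 / Real.pi * (uL N b k * Real.cos (k * t))) (Ioi 0) ∧
      ∫ k in Ioi (0:ℝ), 1 / Real.pi * (uL N b k * Real.cos (k * t)) = Lk N b t := by
    intro t
    obtain ⟨i1, e1⟩ := h_sub_fourier ha1 hb1 (4 / N * t)
    have i2 := (integrableOn_Ioi_comp_mul_left_iff (fun k => 2 * Real.cos (4 / N * t * k) *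
      (Real.cosh (b' * k) - Real.cosh (a' * k)) / (k * sk k)) 0 hN4).2 (by simpa using i1)
    have i3 : IntegrableOn (fun k => 4 / N * (1 / Real.pi * (uL N b k * Real.cos (k * t)))) (Ioi 0) :=
      i2.congr_fun (fun k hk => hg t k hk) measurableSet_Ioi
    have i4 := i3.const_mul (N / 4)
    have e4 : ∀ k : ℝ, N / 4 * (4 / N * (1 / Real.pi * (uL N b k * Real.cos (k * t)))) =
        1 / Real.pi * (uL N b k * Real.cos (k * t)) := by
      intro k; field_simp
    simp_rw [e4] at i4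
    refine ⟨i4, ?_⟩
    have e2 := integral_comp_mul_left_Ioi (fun k => 2 * Real.cos (4 / N * t * k) *
      (Real.cosh (b' * k) - Real.cosh (a' * k)) / (k * sk k)) 0 hN4
    simp only [mul_zero, smul_eq_mul] at e2
    rw [← e1] at e2
    rw [setIntegral_congr_fun measurableSet_Ioi (fun k hk => hg t k hk), integral_const_mul] at e2
    have e5 := Lk_eq hb hN t
    rw [← ha', ← hb'] at e5
    rw [← e5] at e2
    generalize (∫ k in Ioi (0:ℝ), 1 / Real.pi * (uL N b k * Real.cos (k * t))) = J at e2 ⊢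
    have e6 : (N / 4)⁻¹ = 4 / N := by field_simp
    rw [e6] at e2
    exact mul_left_cancel₀ (by positivity) e2
  refine ⟨⟨?_, fun t => ?_⟩, ?_, fun k hk => ?_⟩
  · have h1 := (hint 0).1.const_mul Real.pi
    refine h1.congr (Eventually.of_forall fun k => ?_)
    simp only [mul_zero, Real.cos_zero]
    field_simp
  · rw [← (hint t).2, integral_const_mul]
  · have i1 := (integral_h_sub (y := a') (y' := b') (by
      have : 4 * l = Real.pi / 2 := by unfold l; ring
      rw [this]; exact ha1.le) (by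
      have : 4 * l = Real.pi / 2 := by unfold l; ring
      rw [this]; exact hb1.le)).1
    have i2 := i1.comp_mul_left' (by positivity : (4 / N : ℝ) ≠ 0)
    refine i2.congr (Eventually.of_forall fun t => ?_)
    simp only []
    rw [Lk_eq hb hN]
  · have hk4 : 0 < N / 4 * k := by positivity
    have e1 := (h_forward ha1.le hb1.le hk4).2
    have e2 := Measure.integral_comp_mul_left (fun t => (h t a' - h t b') * Real.cos (N / 4 * k * t)) (4 / N)
    rw [e1] at e2
    have e3 : ∀ t : ℝ, (h (4 / N * t) a' - h (4 / N * t) b') * Real.cos (N / 4 * k * (4 / N * t)) =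
        Lk N b t * Real.cos (k * t) := by
      intro t
      rw [Lk_eq hb hN, show N / 4 * k * (4 / N * t) = k * t by field_simp]
    simp_rw [e3] at e2
    have e4 := quot_dil hb hN hk
    rw [← ha', ← hb'] at e4
    rw [e2, e4, abs_of_pos (by positivity), smul_eq_mul]
    unfold uL
    field_simp

/-! ## the slack `ψ_S` -/

/-- `h = cosh (y/2)` -/
def hh (k : ℝ) : ℝ := Real.cosh (1 / 2 * NUO.yk k)

lemma hh_pos (k : ℝ) : 0 < hh k := Real.cosh_pos _

/-- `ψ_S^ (k) = (2π/k) sinh (y/4) (1/h + (3/5)/h²)` -/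
def psk (k : ℝ) : ℝ :=
  2 * Real.pi / k * Real.sinh (1 / 4 * NUO.yk k) * (1 / hh k + (3 / 5) / hh k ^ 2)

/-- `ψ_S` in real space -/
def psiS (t : ℝ) : ℝ := 1 / Real.pi * ∫ k in Ioi (0:ℝ), psk k * Real.cos (k * t)

lemma uL1 (k : ℝ) : uL 1 (1 / 4) k = 2 * Real.pi / k * Real.sinh (1 / 4 * NUO.yk k) * (1 / hh k) := by
  unfold uL hh
  rw [show (1:ℝ) / 2 * NUO.yk k = 1 / 2 * NUO.yk k by ring]
  ring

/-- the transform in the notation of `NUSB` / `NUMH` -/
theorem psk_eq {k : ℝ} (hk : 0 < k) : psk k = NUMH.PP k * NUSB.psi (NUMH.zk k) := by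
  have hy := NUO.yk_pos hk
  set z := NUMH.zk k with hz
  have hzp : 0 < z := NUMH.zk_pos hk
  have ez : NUO.yk k = 4 * z := by rw [hz]; unfold NUO.yk NUMH.zk; ring
  have c1 := Real.cosh_pos z
  have c2 := Real.cosh_pos (2 * z)
  have s1 : 0 < Real.sinh z := Real.sinh_pos_iff.2 hzp
  have s2 : 0 < Real.sinh (2 * z) := Real.sinh_pos_iff.2 (by positivity)
  have c4 := Real.cosh_pos (4 * z)
  have c8 := Real.cosh_pos (8 * z)
  have a1 : Real.sinh (16 * z) = 2 * Real.sinh (8 * z) * Real.cosh (8 * z) := by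
    rw [← Real.sinh_two_mul]; congr 1; ring
  have a2 : Real.sinh (8 * z) = 2 * Real.sinh (4 * z) * Real.cosh (4 * z) := by
    rw [← Real.sinh_two_mul]; congr 1; ring
  have a3 : Real.sinh (4 * z) = 2 * Real.sinh (2 * z) * Real.cosh (2 * z) := by
    rw [← Real.sinh_two_mul]; congr 1; ring
  have a4 : Real.cosh (4 * z) = 1 + 2 * Real.sinh (2 * z) ^ 2 := by
    rw [show 4 * z = 2 * (2 * z) by ring, Real.cosh_two_mul, Real.cosh_sq]; ring
  have a5 : Real.sinh (2 * z) = 2 * Real.sinh z * Real.cosh z := Real.sinh_two_mul z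
  unfold psk NUMH.PP NUSB.psi NUSB.ch hh
  rw [← hz, ez, show (1:ℝ) / 4 * (4 * z) = z by ring, show (1:ℝ) / 2 * (4 * z) = 2 * z by ring]
  push_cast
  rw [a1, a2, a3, one_mul]
  have a6 : Real.cosh (4 * z) - 1 = 2 * Real.sinh (2 * z) ^ 2 := by rw [a4]; ring
  rw [a6, a5]
  field_simp
  ring

/-- the kernel of `1/h` -/
lemma exists_h : ∃ G : ℝ → ℝ, Integrable G ∧ (∀ s, 0 ≤ G s) ∧ (∀ s, G (-s) = G s) ∧
    ∀ k : ℝ, 0 < k → ∫ s, G s * Real.cos (k * s) = 1 / hh k := by
  have h1 := (NUO.mk_cc (N := 1 / 2) (a := 0) le_rfl (by norm_num)).even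
  obtain ⟨G, g1, g2, g3, g4⟩ := h1
  refine ⟨G, g1, g2, g3, fun k hk => ?_⟩
  rw [g4 k hk, zero_mul, Real.cosh_zero]
  rfl

lemma Lk_nonneg {N b : ℝ} (hb : 0 < b) (hN : b < N / 2) (t : ℝ) : 0 ≤ Lk N b t := by
  obtain ⟨s0, s1⟩ := sin_lt_one' hb hN
  have hc := Real.one_le_cosh (8 / N * t)
  refine Real.log_nonneg ?_
  rw [one_le_div (by linarith)]
  linarith

/-- the kernel `D` of `S/h²` -/
def Dk (t : ℝ) : ℝ := 1 / Real.pi * ∫ k in Ioi (0:ℝ), 2 * Real.pi / k * Real.sinh (1 / 4 * NUO.yk k) * (1 / hh k ^ 2) * Real.cos (k * t)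

lemma Dk_all : Pair Dk (fun k => 2 * Real.pi / k * Real.sinh (1 / 4 * NUO.yk k) * (1 / hh k ^ 2)) ∧ ∀ t, 0 ≤ Dk t := by
  obtain ⟨G, g1, g2, g3, g4⟩ := exists_h
  have h1 := (Lk_pair (N := 1) (b := 1 / 4) (by norm_num) (by norm_num)).conv g1 g3 g4
  have h2 := h1.congr (v := fun k => 2 * Real.pi / k * Real.sinh (1 / 4 * NUO.yk k) * (1 / hh k ^ 2))
    (fun k hk => by
      rw [uL1]
      have := hh_pos k
      field_simp)
  have e : Dk = fun x => ∫ s, G s * Lk 1 (1 / 4) (x - s) := by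
    funext t
    rw [h2.inv t]
    rfl
  rw [e]
  exact ⟨h2, fun t => integral_nonneg fun s => mul_nonneg (g2 s) (Lk_nonneg (by norm_num) (by norm_num) _)⟩

lemma psiS_eq (t : ℝ) : psiS t = Lk 1 (1 / 4) t + (3 / 5) * Dk t := by
  have h1 := ((Lk_pair (N := 1) (b := 1 / 4) (by norm_num) (by norm_num)).add (Dk_all.1.smul (3 / 5)))
  rw [h1.inv t]
  unfold psiS
  congr 1
  refine setIntegral_congr_fun measurableSet_Ioi fun k _ => ?_
  show psk k * Real.cos (k * t) = (uL 1 (1 / 4) k + 3 / 5 * (2 * Real.pi / k * Real.sinh (1 / 4 * NUO.yk k) *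
    (1 / hh k ^ 2))) * Real.cos (k * t)
  rw [uL1]
  unfold psk
  ring

/-- **`ψ_S`: integrable, with transform `psk`, inversion formula everywhere** -/
theorem psiS_pair : Pair psiS psk := by
  have h1 := ((Lk_pair (N := 1) (b := 1 / 4) (by norm_num) (by norm_num)).add (Dk_all.1.smul (3 / 5)))
  have e : psiS = fun t => Lk 1 (1 / 4) t + (3 / 5) * Dk t := funext psiS_eq
  rw [e]
  refine h1.congr fun k hk => ?_
  rw [uL1]
  unfold psk
  have := hh_pos k
  field_simp

theorem psiS_nonneg (t : ℝ) : 0 ≤ psiS t := by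
  rw [psiS_eq]
  have h1 := Lk_nonneg (N := 1) (b := 1 / 4) (by norm_num) (by norm_num) t
  have h2 := Dk_all.2 t
  linarith

theorem psiS_neg (t : ℝ) : psiS (-t) = psiS t := psiS_pair.toInv.even t
theorem psiS_cont : Continuous psiS := psiS_pair.toInv.cont
theorem psiS_integrable : Integrable psiS := psiS_pair.int

/-! ## the one-body slack -/

/-- the pair of the density `P` -/
theorem P_pair : Pair P (fun k => 1 / (2 * ck1 k - 1)) := by
  have hpi := Real.pi_pos
  have hm : Measurable fun t : ℝ => 1 / (2 * ck1 t - 1) := by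
    have := ck1_meas
    fun_prop
  have h1 : IntegrableOn (fun t : ℝ => 1 / (2 * ck1 t - 1)) (Ioi 0) := by
    refine Integrable.mono' (dm_integrable (b := 0) l_pos) hm.aestronglyMeasurable ?_
    filter_upwards [ae_restrict_mem measurableSet_Ioi] with k hk
    have h2 := dkp k
    have h3 := exp_mul_inv (b := 0) hk
    rw [zero_mul, Real.exp_zero, one_mul] at h3
    rw [Real.norm_eq_abs, abs_of_pos (by positivity)]
    exact h3
  set F : ℝ → ℝ := fun t => 1 / Real.pi * ∫ k in Ioi (0:ℝ), 1 / (2 * ck1 k - 1) * Real.cos (k * t) with hF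
  have hFi : Inv F (fun k => 1 / (2 * ck1 k - 1)) := ⟨h1, fun t => rfl⟩
  have hpos : ∀ x : ℝ, 0 < x → P x = F x := by
    intro x hx
    have h2 := P_inverse hx
    simp only [hF]
    have h3 : ∫ k in Ioi (0:ℝ), 1 / (2 * ck1 k - 1) * Real.cos (k * x) = Real.pi * P x := by
      rw [← h2]
      refine setIntegral_congr_fun measurableSet_Ioi fun k _ => ?_
      ring
    rw [h3]
    field_simp
  have hall : ∀ x : ℝ, P x = F x := by
    intro x
    rcases lt_trichotomy x 0 with hx | hx | hx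
    · rw [← P_neg, ← hFi.even, hpos (-x) (by linarith)]
    · subst hx
      have h3 : EqOn P F (closure (Ioi 0)) := by
        refine EqOn.closure (fun x hx => hpos x hx) P_cont hFi.cont
      exact h3 (by rw [closure_Ioi]; simp)
    · exact hpos x hx
  have e : P = F := funext hall
  exact ⟨⟨h1, fun t => by rw [hall]⟩, P_integrable, fun k _ => (P_forward k).2⟩

/-- `slk t = ∫ P(s) ψ_S (t - s) ds` -/
def slk (t : ℝ) : ℝ := ∫ s, P s * psiS (t - s)

theorem slk_pair : Pair slk (fun k => psk k * (1 / (2 * ck1 k - 1))) :=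
  psiS_pair.conv P_integrable P_neg P_pair.fwd

theorem slk_nonneg (t : ℝ) : 0 ≤ slk t := integral_nonneg fun s => mul_nonneg (P_pos s).le (psiS_nonneg _)
theorem slk_neg (t : ℝ) : slk (-t) = slk t := slk_pair.toInv.even t
theorem slk_cont : Continuous slk := slk_pair.toInv.cont
theorem slk_integrable : Integrable slk := slk_pair.int

/-- `2 Ag (1/4)` as an inverse transform -/
theorem Ag_inv : Inv (fun t => 2 * Ag (1 / 4) t)
    (fun k => 4 * Real.pi / k * Real.sinh (1 / 4 * NUO.yk k) * (1 / (2 * ck1 k - 1))) := by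
  have hpi := Real.pi_pos
  have hl := l_pos
  have hτ : |(1 / 4 * l : ℝ)| < l := by rw [abs_of_pos (by positivity)]; linarith
  have hf : ∀ x k : ℝ, 4 * Real.pi / k * Real.sinh (1 / 4 * NUO.yk k) * (1 / (2 * ck1 k - 1)) * Real.cos (k * x) =
      4 * Real.pi * (Real.cos (k * x) * Real.sinh (k * (1 / 4 * l)) / (k * (2 * ck1 k - 1))) := by
    intro x k
    have e : 1 / 4 * NUO.yk k = k * (1 / 4 * l) := by unfold NUO.yk l; ring
    rw [e]
    by_cases hk : k = 0
    · subst hk; simp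
    · have := dkp k
      field_simp
  refine ⟨?_, fun t => ?_⟩
  · have h1 := (Gc_im_fourier 0 hτ).1.const_mul (4 * Real.pi)
    refine h1.congr (Eventually.of_forall fun k => ?_)
    have := hf 0 k
    simp only [mul_zero, Real.cos_zero, mul_one] at this ⊢
    exact this.symm
  · have h1 := (Gc_im_fourier t hτ).2
    simp_rw [hf]
    rw [integral_const_mul, ← h1]
    unfold Ag
    push_cast
    field_simp
    ring

lemma ck1_eq (k : ℝ) : 2 * ck1 k - 1 = 4 * hh k ^ 2 - 3 := by
  unfold ck1 hh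
  have e : l * k = 2 * (1 / 2 * NUO.yk k) := by unfold l NUO.yk; ring
  rw [e, Real.cosh_two_mul, Real.sinh_sq]
  ring

lemma cosh32 (k : ℝ) : Real.cosh (3 / 2 * NUO.yk k) = hh k * (4 * hh k ^ 2 - 3) := by
  unfold hh
  rw [show 3 / 2 * NUO.yk k = 3 * (1 / 2 * NUO.yk k) by ring, Real.cosh_three_mul]
  ring

/-- `2 Ag (1/4) - slk = (3/5) L₁ - (8/5) L₂ + (1/5) D` -/
theorem Ag_sub_slk (t : ℝ) : 2 * Ag (1 / 4) t - slk t =
    3 / 5 * Lk 3 (3 / 4) t - 8 / 5 * Lk 3 (1 / 4) t + 1 / 5 * Dk t := by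
  have h1 := Ag_inv.sub slk_pair.toInv
  have h2 := (((Lk_pair (N := 3) (b := 3 / 4) (by norm_num) (by norm_num)).toInv.smul (3 / 5)).sub
    ((Lk_pair (N := 3) (b := 1 / 4) (by norm_num) (by norm_num)).toInv.smul (8 / 5))).add
    (Dk_all.1.toInv.smul (1 / 5))
  have h3 := h2.congr (v := fun k => 4 * Real.pi / k * Real.sinh (1 / 4 * NUO.yk k) * (1 / (2 * ck1 k - 1)) -
    psk k * (1 / (2 * ck1 k - 1))) (fun k hk => by
      have hp := hh_pos k
      have hd := dkp k
      have e1 := ck1_eq k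
      rw [e1] at hd ⊢
      have e2 : Real.sinh (3 / 4 * NUO.yk k) = Real.sinh (1 / 4 * NUO.yk k) * (2 * hh k + 1) := by
        unfold hh
        have a1 : 3 / 4 * NUO.yk k = 1 / 2 * NUO.yk k + 1 / 4 * NUO.yk k := by ring
        have a2 : Real.sinh (1 / 4 * NUO.yk k) = Real.sinh (1 / 2 * NUO.yk k - 1 / 4 * NUO.yk k) := by
          congr 1; ring
        have a3 := Real.sinh_add (1 / 2 * NUO.yk k) (1 / 4 * NUO.yk k)
        have a4 := Real.sinh_sub (1 / 2 * NUO.yk k) (1 / 4 * NUO.yk k)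
        rw [← a2] at a4
        rw [a1]
        linarith
      unfold uL psk
      rw [cosh32, e2]
      field_simp
      ring)
  have h4 := congrFun (h1.unique h3) t
  simpa using h4

/-! ## the inequality -/

lemma artanh_lower {x : ℝ} (h0 : 0 ≤ x) (h1 : x < 1) :
    2 * x + 2 / 3 * x ^ 3 ≤ Real.log ((1 + x) / (1 - x)) := by
  have hs := Real.hasSum_log_sub_log_of_abs_lt_one (x := x) (by rw [abs_of_nonneg h0]; exact h1)
  rw [Real.log_div (by linarith) (by linarith)]
  have h2 := sum_le_hasSum (Finset.range 2) (fun i _ => by positivity) hs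
  refine le_trans (le_of_eq ?_) h2
  rw [Finset.sum_range_succ, Finset.sum_range_one]
  push_cast
  ring

lemma artanh_upper {x : ℝ} (h0 : 0 ≤ x) (h1 : x < 1) :
    Real.log ((1 + x) / (1 - x)) ≤ 2 * x + 2 / 3 * (x ^ 3 / (1 - x ^ 2)) := by
  have hs := Real.hasSum_log_sub_log_of_abs_lt_one (x := x) (by rw [abs_of_nonneg h0]; exact h1)
  rw [Real.log_div (by linarith) (by linarith)]
  have hx2 : x ^ 2 < 1 := by nlinarith
  have hg := hasSum_geometric_of_lt_one (r := x ^ 2) (by positivity) hx2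
  have h3 := (hg.mul_left (2 / 3 * x)).add (hasSum_ite_eq (0:ℕ) (4 / 3 * x))
  have h4 : 2 / 3 * x * (1 - x ^ 2)⁻¹ + 4 / 3 * x = 2 * x + 2 / 3 * (x ^ 3 / (1 - x ^ 2)) := by
    have : 0 < 1 - x ^ 2 := by linarith
    field_simp
    ring
  rw [h4] at h3
  refine hasSum_le (fun k => ?_) hs h3
  by_cases hk : k = 0
  · subst hk
    simp
    linarith
  · rw [if_neg hk, add_zero, ← pow_mul, pow_succ]
    have hk1 : (1:ℝ) ≤ k := by exact_mod_cast Nat.one_le_iff_ne_zero.2 hk
    have h5 : 2 * (1 / (2 * (k:ℝ) + 1)) ≤ 2 / 3 := by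
      rw [mul_one_div, div_le_div_iff₀ (by positivity) (by norm_num)]
      linarith
    calc 2 * (1 / (2 * (k:ℝ) + 1)) * (x ^ (2 * k) * x) ≤ 2 / 3 * (x ^ (2 * k) * x) :=
          mul_le_mul_of_nonneg_right h5 (by positivity)
      _ = 2 / 3 * x * x ^ (2 * k) := by ring

lemma sin12_lt : Real.sin (Real.pi / 12) < 0.25882 := by
  have hpi := Real.pi_pos
  have h1 : Real.cos (Real.pi / 6) = 2 * Real.cos (Real.pi / 12) ^ 2 - 1 := by
    rw [← Real.cos_two_mul]; congr 1; ring
  have h2 := Real.sin_sq_add_cos_sq (Real.pi / 12)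
  rw [Real.cos_pi_div_six] at h1
  have h3 : (1.73205:ℝ) < √3 := by
    rw [Real.lt_sqrt (by norm_num)]; norm_num
  have h4 : Real.sin (Real.pi / 12) ^ 2 < 0.25882 ^ 2 := by norm_num; linarith
  exact lt_of_pow_lt_pow_left₀ 2 (by norm_num) h4

lemma sin12_pos : 0 < Real.sin (Real.pi / 12) := by
  have hpi := Real.pi_pos
  exact Real.sin_pos_of_pos_of_lt_pi (by positivity) (by linarith)

lemma real_ineq (t : ℝ) : P t / 50 ≤ 3 / 5 * Lk 3 (3 / 4) t - 8 / 5 * Lk 3 (1 / 4) t := by
  have hpi := Real.pi_pos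
  have hpi' := Real.pi_gt_d4
  have h3s : (1.732:ℝ) < √3 := by
    rw [Real.lt_sqrt (by norm_num)]; norm_num
  have h2s : (1.4142:ℝ) < √2 := by
    rw [Real.lt_sqrt (by norm_num)]; norm_num
  have h2s' : √(2:ℝ) < 1.4143 := by
    rw [Real.sqrt_lt' (by norm_num)]; norm_num
  have hC := one_le_ch t
  have hC0 := ch_pos t
  set C := ch t with hCd
  set u := 1 / C with hu
  have hu0 : 0 < u := by positivity
  have hu1 : u ≤ 1 := by rw [hu, div_le_one hC0]; exact hC
  have hCu : C = 1 / u := by rw [hu]; field_simp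
  have hu2 : u ^ 2 ≤ 1 := pow_le_one₀ hu0.le hu1
  set s1 := √2 / 2 with hs1
  set s2 := Real.sin (Real.pi / 12) with hs2
  have s2l : s2 < 0.25882 := sin12_lt
  have s2p : 0 < s2 := sin12_pos
  have e1 : Lk 3 (3 / 4) t = Real.log ((1 + s1 * u) / (1 - s1 * u)) := by
    unfold Lk
    rw [show Real.pi * (3 / 4) / 3 = Real.pi / 4 by ring, Real.sin_pi_div_four, ← hs1]
    have : Real.cosh (8 / 3 * t) = C := rfl
    rw [this, hu]
    congr 1
    field_simp
  have e2 : Lk 3 (1 / 4) t = Real.log ((1 + s2 * u) / (1 - s2 * u)) := by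
    unfold Lk
    rw [show Real.pi * (1 / 4) / 3 = Real.pi / 12 by ring, ← hs2]
    have : Real.cosh (8 / 3 * t) = C := rfl
    rw [this, hu]
    congr 1
    field_simp
  have s1p : 0 < s1 := by positivity
  have hs1u : s1 * u < 1 := lt_of_le_of_lt (mul_le_of_le_one_right s1p.le hu1) (by rw [hs1]; linarith)
  have hs2u' : s2 * u ≤ 0.25882 := (mul_le_of_le_one_right s2p.le hu1).trans s2l.le
  have hs2u : s2 * u < 1 := lt_of_le_of_lt hs2u' (by norm_num)
  have b1 := artanh_lower (x := s1 * u) (by positivity) hs1u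
  have b2 := artanh_upper (x := s2 * u) (by positivity) hs2u
  rw [e1, e2]
  -- the density
  have e3 : P t / 50 ≤ 0.05882 * (u / 4 + u ^ 3 / 12) := by
    have a1 : P t = 16 / (√3 * Real.pi) * (C / (4 * C ^ 2 - 1)) := rfl
    have a2 : C / (4 * C ^ 2 - 1) ≤ u / 4 + u ^ 3 / 12 := by
      have a3 : C / (4 * C ^ 2 - 1) = u / (4 - u ^ 2) := by
        rw [hCu]
        have : (0:ℝ) < 4 - u ^ 2 := by linarith
        field_simp
      have a6 : (u / 4 + u ^ 3 / 12) * (4 - u ^ 2) - u = u ^ 3 * (1 - u ^ 2) / 12 := by ring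
      have a7 : 0 ≤ u ^ 3 * (1 - u ^ 2) / 12 := by
        have : 0 ≤ 1 - u ^ 2 := by linarith
        positivity
      rw [a3, div_le_iff₀ (by linarith)]
      linarith
    have a4 : 16 / (√3 * Real.pi) / 50 ≤ 0.05882 := by
      rw [div_div, div_le_iff₀ (by positivity)]
      have : (1.732:ℝ) * 3.1415 ≤ √3 * Real.pi := by gcongr
      norm_num at this ⊢
      linarith
    have a5 : 0 ≤ C / (4 * C ^ 2 - 1) := div_nonneg hC0.le (den_pos t).le
    calc P t / 50 = (16 / (√3 * Real.pi) / 50) * (C / (4 * C ^ 2 - 1)) := by rw [a1]; ring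
      _ ≤ 0.05882 * (C / (4 * C ^ 2 - 1)) := mul_le_mul_of_nonneg_right a4 a5
      _ ≤ _ := mul_le_mul_of_nonneg_left a2 (by norm_num)
  -- cubic terms
  have s2c : (s2 * u) ^ 3 / (1 - (s2 * u) ^ 2) ≤ 0.0186 * u ^ 3 := by
    have h6 : (s2 * u) ^ 2 ≤ 0.067 := by
      have h7 : 0 ≤ s2 * u := by positivity
      have : (s2 * u) ^ 2 ≤ 0.25882 ^ 2 := by gcongr
      refine this.trans ?_
      norm_num
    rw [div_le_iff₀ (by linarith), mul_pow]
    have h8 : s2 ^ 3 ≤ 0.017338 := by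
      have : s2 ^ 3 ≤ 0.25882 ^ 3 := by gcongr
      refine this.trans ?_
      norm_num
    have h9 : 0 < u ^ 3 := by positivity
    have h10 : s2 ^ 3 * u ^ 3 ≤ 0.017338 * u ^ 3 := mul_le_mul_of_nonneg_right h8 h9.le
    have h11 : 0.0186 * u ^ 3 * 0.933 ≤ 0.0186 * u ^ 3 * (1 - (s2 * u) ^ 2) :=
      mul_le_mul_of_nonneg_left (by linarith) (by positivity)
    refine h10.trans (le_trans ?_ h11)
    rw [mul_right_comm]
    exact mul_le_mul_of_nonneg_right (by norm_num) h9.le
  have s1c : 0.3535 * u ^ 3 ≤ (s1 * u) ^ 3 := by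
    have h8 : 0.3535 ≤ s1 ^ 3 := by
      have : (0.7071:ℝ) ^ 3 ≤ s1 ^ 3 := by
        gcongr
        rw [hs1]; linarith
      refine le_trans ?_ this
      norm_num
    rw [mul_pow]
    exact mul_le_mul_of_nonneg_right h8 (by positivity)
  have s1l : 0.7071 * u ≤ s1 * u := by
    refine mul_le_mul_of_nonneg_right ?_ hu0.le
    rw [hs1]; linarith
  have s2l' : s2 * u ≤ 0.25882 * u := mul_le_mul_of_nonneg_right s2l.le hu0.le
  have hu3 : 0 < u ^ 3 := by positivity
  linarith

/-- **one-body inequality of the slack** -/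
theorem slk_le (t : ℝ) : slk t + 1 / 50 * P t ≤ 2 * Ag (1 / 4) t := by
  have h1 := Ag_sub_slk t
  have h2 := real_ineq t
  have h3 := Dk_all.2 t
  linarith

/-! ## the forms used by STAB (`PQ = PP/π`) -/

theorem psiS_fourier (t : ℝ) :
    IntegrableOn (fun k => NUSB.PQ k * NUSB.psi (NUSB.zk k) * Real.cos (k * t)) (Ioi 0) ∧
    psiS t = ∫ k in Ioi (0:ℝ), NUSB.PQ k * NUSB.psi (NUSB.zk k) * Real.cos (k * t) := by
  have hpi := Real.pi_pos
  have e : ∀ k : ℝ, 0 < k → 1 / Real.pi * (psk k * Real.cos (k * t)) =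
      NUSB.PQ k * NUSB.psi (NUSB.zk k) * Real.cos (k * t) := by
    intro k hk
    have e2 : NUMH.PP k = Real.pi * NUSB.PQ k := by
      unfold NUMH.PP NUSB.PQ NUMH.zk NUSB.zk
      ring
    have e3 : NUMH.zk k = NUSB.zk k := rfl
    rw [psk_eq hk, e2, e3]
    field_simp
  have i1 := (intOn_mul_cos psiS_pair.intu t).const_mul (1 / Real.pi)
  refine ⟨IntegrableOn.congr_fun i1 (fun k hk => e k hk) measurableSet_Ioi, ?_⟩
  rw [psiS_pair.inv t, ← integral_const_mul]
  exact setIntegral_congr_fun measurableSet_Ioi fun k hk => e k hk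

theorem Nt_neg (t : ℝ) : Nt (-t) = Nt t := by
  unfold Nt
  rw [mul_neg, Real.cosh_neg]

theorem Nt_cont : Continuous Nt := by
  have hb := sin8_bounds
  have h1 : ∀ t : ℝ, 0 < Real.cosh (2 * t) + Real.cos (5 * Real.pi / 8) := fun t => by
    have := Real.one_le_cosh (2 * t)
    rw [cos58]; linarith
  have h2 : ∀ t : ℝ, 0 < Real.cosh (2 * t) := fun t => Real.cosh_pos _
  have c1 : Continuous fun t : ℝ => Real.cosh (2 * t) := by fun_prop
  unfold Nt
  refine continuous_const.mul (Continuous.sub (continuous_const.mul ?_) ?_)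
  · refine Continuous.log ((c1.add continuous_const).div c1 fun t => (h2 t).ne') fun t => ?_
    exact (div_pos (by have := h2 t; linarith) (h2 t)).ne'
  · refine Continuous.log ((c1.add continuous_const).div (c1.add continuous_const) fun t => (h1 t).ne') fun t => ?_
    exact (div_pos (by have := h2 t; linarith) (h1 t)).ne'

end

end NUSlk
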