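import Pool.Agent.NUO.Sum

/-!
# Activities and the edge zone ([3.7] of proof/NU_ABS_3, version 2: cutoff `phi_0` for S, Sv, Svv)

`L = log m`, `Tb L = (3/8) L`.  `act` is the bound of the activity of one object at height `t` when
there are `r` objects.  First part (flat objects): `exp (-2 π J)` on `|t| ≤ (1 - 3 e1) T`, `1`
outside, cutoff at `T / (1 - ep)`.  Second part (suppressed objects): `(r + L)^k exp (-c ρ)`,
`ρ ≥ exp ((8/3) (T - |t|))`, cutoff at `T`.  Every activity of the text is at most `act` for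
suitable constants `C, C', c, b, k` (`b = 1/4`: decay `2 beta` of the cutoff minus the excess
`7/3` of far objects).
-/

open MeasureTheory Finset

noncomputable section

namespace NUO

/-- half length of the bulk -/
def Tb (L : ℝ) : ℝ := 3 / 8 * L

/-- decay of a cutoff beyond `T` -/
def Phi (C' b T t : ℝ) : ℝ := min 1 (C' * Real.exp (-(b * (|t| - T))))

/-- bound of the activity of one object at the height `t` when there are `r` objects -/
def act (C C' c b : ℝ) (k : ℕ) (L ep e1 J : ℝ) (r : ℕ) (t : ℝ) : ℝ :=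
  C * (Phi C' b (Tb L / (1 - ep)) t *
      (if |t| ≤ (1 - 3 * e1) * Tb L then Real.exp (-(2 * Real.pi * J)) else 1) +
    ((r : ℝ) + L) ^ k * Phi C' b (Tb L) t * Real.exp (-(c * Real.exp (8 / 3 * (Tb L - |t|)))))

/-- the windows of the edge zone `Tb L - log L ≤ |t| ≤ Tb L + D log (r + L)` -/
def WZ (D L : ℝ) (r : ℕ) : Finset ℤ :=
  (Finset.Icc (-(⌈Tb L + D * Real.log (r + L)⌉ + 1)) (⌈Tb L + D * Real.log (r + L)⌉ + 1)).filter
    (fun w => Tb L - Real.log L - 2 ≤ |(w : ℝ)|)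

/-- the tilt `k' log (r + L)` -/
def lamZ (k' L : ℝ) (r : ℕ) : ℤ → ℝ := fun _ => k' * Real.log (r + L)

/-- the integral estimate of the activities (statement (A1), proved in `NUO/ActInt`) -/
def ActInt (C C' c b : ℝ) (k : ℕ) : Prop :=
  ∃ D k' B L0 : ℝ, 0 < D ∧ 0 < k' ∧ 0 ≤ B ∧ ∀ L ≥ L0, ∀ ep : ℝ, 0 ≤ ep → ep ≤ 1 / 4 →
    ∀ e1 : ℝ, 0 < e1 → e1 ≤ 1 / 4 → ∀ J : ℝ, 0 ≤ J → ∀ r : ℕ, (r : ℝ) ≤ Real.exp (2 * L) →
      Integrable (fun t => act C C' c b k L ep e1 J r t *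
        Real.exp (-tilt (WZ D L r) (lamZ k' L r) t)) ∧
      ∫ t, act C C' c b k L ep e1 J r t * Real.exp (-tilt (WZ D L r) (lamZ k' L r) t) ≤
        C * (Real.exp (-(2 * Real.pi * J)) + 3 * e1 + 3 * ep) * L + B

lemma Phi_nonneg {C' b T t : ℝ} (hC' : 0 ≤ C') : 0 ≤ Phi C' b T t :=
  le_min zero_le_one (mul_nonneg hC' (Real.exp_pos _).le)

lemma act_nonneg {C C' c b : ℝ} {k : ℕ} {L ep e1 J : ℝ} {r : ℕ} {t : ℝ} (hC : 0 ≤ C)
    (hC' : 0 ≤ C') (hL : 0 ≤ L) : 0 ≤ act C C' c b k L ep e1 J r t := by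
  unfold act
  have h1 : 0 ≤ Phi C' b (Tb L / (1 - ep)) t := Phi_nonneg hC'
  have h2 : 0 ≤ Phi C' b (Tb L) t := Phi_nonneg hC'
  have h3 : 0 ≤ (if |t| ≤ (1 - 3 * e1) * Tb L then Real.exp (-(2 * Real.pi * J)) else 1) := by
    split_ifs
    · exact (Real.exp_pos _).le
    · exact zero_le_one
  positivity

end NUO
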