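import Pool.Agent.NUO.OneW
import Pool.Agent.NUO.Act
import Pool.Agent.NUCUR.A

/-!
# One body factor of an object: bound by the activity (part P3 of the inequality per configuration)

`one_act`: `ob * exp (m mfo + m slack - 2 π ν h + (5/2) (|t| - T')_+ + K0)` (times `(r + 1)^k0` for
the kinds `S`, `Sv`) is at most `act`.
-/

set_option autoImplicit false

noncomputable section

open Complex MeasureTheory Set

namespace NUO

open NUP1

/-! ### monotonicity of `Ag` in the offset -/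

theorem Ag_mono {a a' : ℝ} (h0 : 0 ≤ a) (h : a ≤ a') (h1 : a' < 1) (t : ℝ) :
    NUMF.Ag a t ≤ NUMF.Ag a' t := by
  have ha : |a| < 1 := by rw [abs_of_nonneg h0]; linarith
  have ha' : |a'| < 1 := by rw [abs_of_nonneg (h0.trans h)]; exact h1
  obtain ⟨p1, p2⟩ := NUMF.Dg_pm ha t
  obtain ⟨p3, p4⟩ := NUMF.Dg_pm ha' t
  have hpi := Real.pi_pos
  have hl : NUMF.l = Real.pi / 8 := rfl
  have hC := Real.one_le_cosh (8 / 3 * t)
  have s3 : 0 < √3 := Real.sqrt_pos.2 (by norm_num)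
  have hS0 := NUMF.sin_ag_nonneg h0 (h.trans h1.le)
  have hS1 : Real.sin (8 / 3 * (a * NUMF.l)) ≤ Real.sin (8 / 3 * (a' * NUMF.l)) := by
    refine Real.sin_le_sin_of_le_of_le_pi_div_two ?_ ?_ ?_
    · rw [hl]; nlinarith
    · rw [hl]; nlinarith
    · rw [hl]; nlinarith
  have hS2 : Real.sin (8 / 3 * (a' * NUMF.l)) ≤ √3 / 2 := by
    rw [← Real.sin_pi_div_three]
    refine Real.sin_le_sin_of_le_of_le_pi_div_two ?_ ?_ ?_
    · rw [hl]; nlinarith
    · linarith
    · rw [hl]; nlinarith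
  have hc := Real.sin_sq_add_cos_sq (8 / 3 * (a * NUMF.l))
  have hc' := Real.sin_sq_add_cos_sq (8 / 3 * (a' * NUMF.l))
  have hsq : √3 * √3 = 3 := Real.mul_self_sqrt (by norm_num)
  rw [NUMF.Ag_closed ha, NUMF.Ag_closed ha']
  have key : (NUMF.Dg a t + NUMF.Eg a t) * (NUMF.Dg a' t - NUMF.Eg a' t) ≤
      (NUMF.Dg a' t + NUMF.Eg a' t) * (NUMF.Dg a t - NUMF.Eg a t) := by
    have h2 : NUMF.Eg a t * NUMF.Dg a' t ≤ NUMF.Eg a' t * NUMF.Dg a t := by
      unfold NUMF.Eg NUMF.Dg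
      set S := Real.sin (8 / 3 * (a * NUMF.l)) with hS
      set S' := Real.sin (8 / 3 * (a' * NUMF.l)) with hS'
      set C := Real.cosh (8 / 3 * t) with hCd
      have e1 : Real.cos (8 / 3 * (a * NUMF.l)) ^ 2 = 1 - S ^ 2 := by linarith
      have e2 : Real.cos (8 / 3 * (a' * NUMF.l)) ^ 2 = 1 - S' ^ 2 := by linarith
      rw [e1, e2]
      have h3 : S * S' ≤ 3 / 4 := by
        calc S * S' ≤ √3 / 2 * (√3 / 2) := mul_le_mul (hS1.trans hS2) hS2 (hS0.trans hS1) (by positivity)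
          _ = 3 / 4 := by linarith
      have h4 : 0 ≤ (S' - S) * (1 + 4 / 3 * (C ^ 2 - 1) - 4 / 3 * (S * S')) := by
        refine mul_nonneg (by linarith) ?_
        nlinarith
      have h5 : 0 ≤ 4 / √3 * C := by positivity
      nlinarith [mul_nonneg h5 h4]
    nlinarith
  have h5 : Real.log ((NUMF.Dg a t + NUMF.Eg a t) * (NUMF.Dg a' t - NUMF.Eg a' t)) ≤
      Real.log ((NUMF.Dg a' t + NUMF.Eg a' t) * (NUMF.Dg a t - NUMF.Eg a t)) :=
    Real.log_le_log (mul_pos p2 p3) key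
  rw [Real.log_mul p2.ne' p3.ne', Real.log_mul p4.ne' p1.ne'] at h5
  linarith

/-! ### the cutoff and the excess of far objects -/

/-- excess of a far object -/
def exc (T' t : ℝ) : ℝ := 5 / 2 * max (|t| - T') 0

theorem exc_nonneg (T' t : ℝ) : 0 ≤ exc T' t := mul_nonneg (by norm_num) (le_max_right _ _)

theorem cut_exc {m : ℕ} (hm : 1 ≤ m) {ep T' t : ℝ} (h1 : ep ≤ 1 / 100)
    (hT : Tb (Real.log m) / (1 - ep) ≤ T') :
    cut m (4 / 3 * (1 - ep)) t * Real.exp (exc T' t) ≤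
      Phi 1 (1 / 10) (Tb (Real.log m) / (1 - ep)) t := by
  set β : ℝ := 4 / 3 * (1 - ep) with hβ
  set Te : ℝ := Tb (Real.log m) / (1 - ep) with hTe
  have hm0 : (0 : ℝ) < m := by exact_mod_cast hm
  have h2 : 2 * β * Te = Real.log m := by
    rw [hβ, hTe]
    unfold Tb
    have : (1 : ℝ) - ep ≠ 0 := by linarith
    field_simp
    ring
  have h3 : (m : ℝ) * Real.exp (-(2 * β) * |t|) = Real.exp (-(2 * β) * (|t| - Te)) := by
    rw [mul_sub, sub_eq_add_neg, Real.exp_add, mul_comm, neg_mul (2 * β) Te, neg_neg, h2,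
      Real.exp_log hm0]
  unfold cut Phi exc
  rw [h3, one_mul]
  rcases le_total |t| Te with h4 | h4
  · have h5 : max (|t| - T') 0 = 0 := max_eq_right (by linarith)
    rw [h5, mul_zero, Real.exp_zero, mul_one]
    have h6 : (1 : ℝ) ≤ Real.exp (-(1 / 10 * (|t| - Te))) := Real.one_le_exp (by linarith)
    rw [min_eq_left h6]
    exact min_le_left _ _
  · have h5 : max (|t| - T') 0 ≤ |t| - Te := max_le (by linarith) (by linarith)
    have h6 : Real.exp (-(1 / 10 * (|t| - Te))) ≤ 1 := Real.exp_le_one_iff.2 (by linarith)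
    rw [min_eq_right h6]
    calc min 1 (Real.exp (-(2 * β) * (|t| - Te))) * Real.exp (5 / 2 * max (|t| - T') 0) ≤
        Real.exp (-(2 * β) * (|t| - Te)) * Real.exp (5 / 2 * (|t| - Te)) :=
          mul_le_mul (min_le_right _ _) (Real.exp_le_exp.2 (by linarith)) (Real.exp_pos _).le
            (Real.exp_pos _).le
      _ = Real.exp (-(2 * β - 5 / 2) * (|t| - Te)) := by
          rw [← Real.exp_add]
          ring_nf
      _ ≤ _ := by
          refine Real.exp_le_exp.2 ?_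
          have h7 : 1 / 10 ≤ 2 * β - 5 / 2 := by rw [hβ]; linarith
          have h8 : 0 ≤ |t| - Te := by linarith
          nlinarith

theorem cut_exc' {m : ℕ} (hm : 1 ≤ m) {T' t : ℝ} (hT : Tb (Real.log m) ≤ T') :
    cut m (4 / 3) t * Real.exp (exc T' t) ≤ Phi 1 (1 / 10) (Tb (Real.log m)) t := by
  have := cut_exc hm (t := t) (T' := T') (by norm_num : (0 : ℝ) ≤ 1 / 100)
    (by rw [sub_zero, _root_.div_one]; exact hT)
  rwa [sub_zero, mul_one, _root_.div_one] at this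

/-! ### the density -/

theorem seven_tenths_le_P (t : ℝ) : 7 / 10 * Real.exp (-(8 / 3) * |t|) ≤ NUMF.P t := by
  refine le_trans ?_ (NUMF.le_P t)
  refine mul_le_mul_of_nonneg_right ?_ (Real.exp_pos _).le
  have hpi := Real.pi_lt_d2
  have hpi0 := Real.pi_pos
  have s3 : √3 < 1.7321 := by
    rw [Real.sqrt_lt' (by norm_num)]
    norm_num
  have s30 : 0 < √3 := Real.sqrt_pos.2 (by norm_num)
  rw [div_le_div_iff₀ (by norm_num) (by positivity)]
  nlinarith [mul_pos s30 hpi0]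

theorem dens_ge {m : ℕ} (hm : 1 ≤ m) (t : ℝ) :
    7 / 10 * Real.exp (8 / 3 * (Tb (Real.log m) - |t|)) ≤ m * NUMF.P t := by
  have hm0 : (0 : ℝ) < m := by exact_mod_cast hm
  have e : Real.exp (8 / 3 * (Tb (Real.log m) - |t|)) = m * Real.exp (-(8 / 3) * |t|) := by
    unfold Tb
    rw [show 8 / 3 * (3 / 8 * Real.log m - |t|) = Real.log m + -(8 / 3) * |t| by ring,
      Real.exp_add, Real.exp_log hm0]
  rw [e]
  have := mul_le_mul_of_nonneg_left (seven_tenths_le_P t) hm0.le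
  linarith

/-! ### the conditions on the parameters -/

/-- the lines and the circles of the objects, as needed by the one body bounds -/
structure ParOK (P : Par) (m : ℕ) (K1 : ℝ) : Prop where
  j1 : 2 ≤ P.jL
  j2 : P.jL ≤ 5 / 2
  e0 : 1 / 4 ≤ P.e
  d0 : ∀ r, 0 ≤ P.d r
  e1 : ∀ r, P.e + P.d r ≤ 31 / 100
  r0 : ∀ r t, 0 < P.rad r t
  r1 : ∀ r t, P.rad r t ≤ l / 20
  r2 : ∀ r t, P.rad r t * (1 + m * NUMF.P t) ≤ 1
  r3 : ∀ r t, 1 / P.rad r t ≤ K1 * ((r : ℝ) + 1) ^ 5 * (1 + Real.log m) * (1 + m * NUMF.P t)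

theorem ei_bd {P : Par} {m : ℕ} {K1 : ℝ} (h : ParOK P m K1) {r : ℕ} (O : Fin r → Xo) (i : Fin r) :
    1 / 4 ≤ ei P O i ∧ ei P O i ≤ 31 / 100 := by
  have h0 := h.e0
  have h1 := h.e1 r
  have h2 := h.d0 r
  have hr : (rk O i : ℝ) / r ≤ 1 := by
    refine div_le_one_of_le₀ ?_ (Nat.cast_nonneg r)
    have : rk O i ≤ r := by
      unfold rk
      exact (Finset.card_le_univ _).trans (by rw [Fintype.card_fin])
    exact_mod_cast this
  have hr0 : 0 ≤ (rk O i : ℝ) / r := by positivity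
  unfold ei
  constructor
  · nlinarith
  · nlinarith

/-- slack of an object, by kinds -/
def slkK (slk : ℝ → ℝ) : Kind → ℝ → ℝ
  | .S, t => slk t
  | .Sv, t => slk t / 2
  | _, _ => 0

/-- winding number of an object, by kinds -/
def wK : Kind → ℝ
  | .L => 1
  | .St => 1
  | .S => 0
  | .Sv => 1
  | .Svv => 2

/-- the factor of the collisions, by kinds -/
def colK (x : ℝ) : Kind → ℝ
  | .S => x
  | .Sv => x
  | _ => 1

theorem exp_split (a b c d e : ℝ) : Real.exp (a + b - c + d + e) =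
    Real.exp a * Real.exp b * Real.exp (-c) * Real.exp d * Real.exp e := by
  rw [← Real.exp_add, ← Real.exp_add, ← Real.exp_add, ← Real.exp_add]
  ring_nf

/-- the current: `e^{-2 π w h}` -/
theorem cur_fac {e1 T J t w : ℝ} (he : 0 < e1) (hT : 0 < T) (hJ : 0 ≤ J) (hw : 1 ≤ w) :
    Real.exp (-(2 * Real.pi * w * NUCUR.cur e1 T J t)) ≤
      if |t| ≤ (1 - 3 * e1) * T then Real.exp (-(2 * Real.pi * J)) else 1 := by
  have hpi := Real.pi_pos
  have h0 := NUCUR.cur_nonneg (e := e1) (T := T) hJ t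
  have h1 : 2 * Real.pi * NUCUR.cur e1 T J t ≤ 2 * Real.pi * w * NUCUR.cur e1 T J t := by
    have : 0 ≤ 2 * Real.pi * NUCUR.cur e1 T J t := by positivity
    nlinarith
  split_ifs with h
  · rw [NUCUR.cur_eq he hT (by nlinarith)] at h1 ⊢
    exact Real.exp_le_exp.2 (by linarith)
  · refine Real.exp_le_one_iff.2 ?_
    have : 0 ≤ 2 * Real.pi * NUCUR.cur e1 T J t := by positivity
    linarith

theorem cur_le_one {e1 T J t w : ℝ} (hJ : 0 ≤ J) (hw : 0 ≤ w) :
    Real.exp (-(2 * Real.pi * w * NUCUR.cur e1 T J t)) ≤ 1 := by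
  have hpi := Real.pi_pos
  have h0 := NUCUR.cur_nonneg (e := e1) (T := T) hJ t
  refine Real.exp_le_one_iff.2 (neg_nonpos.2 (by positivity))

/-- flat objects -/
theorem flat_act {C₀ C K0 : ℝ} (hC₀ : 0 ≤ C₀) (hC : C₀ * Real.exp K0 ≤ C) {m : ℕ} (hm : 1 ≤ m)
    {ep e1 J T' t w o a : ℝ} (h1 : ep ≤ 1 / 100) (he : 0 < e1) (hTb : 0 < Tb (Real.log m))
    (hJ : 0 ≤ J) (hw : 1 ≤ w) (hT : Tb (Real.log m) / (1 - ep) ≤ T')
    (ho : o * Real.exp a ≤ C₀ * cut m (4 / 3 * (1 - ep)) t) {c : ℝ} (k : ℕ) {r : ℕ} :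
    o * Real.exp (a + 0 - 2 * Real.pi * w * NUCUR.cur e1 (Tb (Real.log m)) J t + exc T' t + K0) ≤
      act C 1 c (1 / 10) k (Real.log m) ep e1 J r t := by
  have q1 := cut_exc hm (t := t) h1 hT
  have q2 := cur_fac (t := t) he hTb hJ hw
  set I : ℝ := if |t| ≤ (1 - 3 * e1) * Tb (Real.log m) then Real.exp (-(2 * Real.pi * J)) else 1
    with hI
  have hI0 : 0 ≤ I := by
    rw [hI]
    split_ifs
    · exact (Real.exp_pos _).le
    · exact zero_le_one
  have hPh := Phi_nonneg (C' := 1) (b := 1 / 10) (T := Tb (Real.log m) / (1 - ep)) (t := t)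
    zero_le_one
  have hPh2 := Phi_nonneg (C' := 1) (b := 1 / 10) (T := Tb (Real.log m)) (t := t) zero_le_one
  have hC' : 0 ≤ C := le_trans (by positivity) hC
  rw [exp_split, Real.exp_zero, mul_one]
  calc o * (Real.exp a * Real.exp (-(2 * Real.pi * w * NUCUR.cur e1 (Tb (Real.log m)) J t)) *
        Real.exp (exc T' t) * Real.exp K0) =
      (o * Real.exp a) * (Real.exp (exc T' t) *
        Real.exp (-(2 * Real.pi * w * NUCUR.cur e1 (Tb (Real.log m)) J t)) * Real.exp K0) := by ring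
    _ ≤ (C₀ * cut m (4 / 3 * (1 - ep)) t) * (Real.exp (exc T' t) *
        Real.exp (-(2 * Real.pi * w * NUCUR.cur e1 (Tb (Real.log m)) J t)) * Real.exp K0) :=
        mul_le_mul_of_nonneg_right ho (by positivity)
    _ = C₀ * Real.exp K0 * ((cut m (4 / 3 * (1 - ep)) t * Real.exp (exc T' t)) *
        Real.exp (-(2 * Real.pi * w * NUCUR.cur e1 (Tb (Real.log m)) J t))) := by ring
    _ ≤ C * (Phi 1 (1 / 10) (Tb (Real.log m) / (1 - ep)) t * I) := by
        refine mul_le_mul hC (mul_le_mul q1 q2 (Real.exp_pos _).le hPh) ?_ hC'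
        exact mul_nonneg (mul_nonneg (cut_nonneg _ _ _) (Real.exp_pos _).le) (Real.exp_pos _).le
    _ ≤ act C 1 c (1 / 10) k (Real.log m) ep e1 J r t := by
        unfold act
        rw [← hI]
        have : 0 ≤ ((r : ℝ) + Real.log m) ^ k * Phi 1 (1 / 10) (Tb (Real.log m)) t *
            Real.exp (-(c * Real.exp (8 / 3 * (Tb (Real.log m) - |t|)))) := by positivity
        nlinarith

/-- suppressed objects -/
theorem supp_act {C₀ C K0 κ : ℝ} (hC₀ : 0 ≤ C₀) (hC : C₀ * Real.exp K0 ≤ C) (hκ : 0 ≤ κ) {m : ℕ}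
    (hm : 1 ≤ m) {ep e1 J T' t w o a b : ℝ} (hJ : 0 ≤ J) (hw : 0 ≤ w)
    (hT : Tb (Real.log m) ≤ T') {X : ℝ} {k : ℕ} {r : ℕ} (hL : 1 ≤ Real.log m)
    (ho : o * Real.exp (a + b) * X ≤ C₀ * ((r : ℝ) + Real.log m) ^ k * (cut m (4 / 3) t *
      Real.exp (-(κ * (m * NUMF.P t))))) :
    o * Real.exp (a + b - 2 * Real.pi * w * NUCUR.cur e1 (Tb (Real.log m)) J t + exc T' t + K0) *
      X ≤ act C 1 (7 / 10 * κ) (1 / 10) k (Real.log m) ep e1 J r t := by
  have q1 := cut_exc' hm (t := t) hT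
  have q2 := cur_le_one (e1 := e1) (T := Tb (Real.log m)) (t := t) hJ hw
  have q3 := dens_ge hm t
  have hPh := Phi_nonneg (C' := 1) (b := 1 / 10) (T := Tb (Real.log m) / (1 - ep)) (t := t)
    zero_le_one
  have hPh2 := Phi_nonneg (C' := 1) (b := 1 / 10) (T := Tb (Real.log m)) (t := t) zero_le_one
  have hC' : 0 ≤ C := le_trans (by positivity) hC
  have hrL : 0 ≤ (r : ℝ) + Real.log m := by positivity
  have q4 : Real.exp (-(κ * (m * NUMF.P t))) ≤
      Real.exp (-(7 / 10 * κ * Real.exp (8 / 3 * (Tb (Real.log m) - |t|)))) := by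
    refine Real.exp_le_exp.2 ?_
    nlinarith
  rw [exp_split, ← Real.exp_add]
  calc o * (Real.exp (a + b) * Real.exp (-(2 * Real.pi * w * NUCUR.cur e1 (Tb (Real.log m)) J t)) *
        Real.exp (exc T' t) * Real.exp K0) * X =
      (o * Real.exp (a + b) * X) * (Real.exp (exc T' t) *
        Real.exp (-(2 * Real.pi * w * NUCUR.cur e1 (Tb (Real.log m)) J t)) * Real.exp K0) := by ring
    _ ≤ (C₀ * ((r : ℝ) + Real.log m) ^ k * (cut m (4 / 3) t *
          Real.exp (-(κ * (m * NUMF.P t))))) * (Real.exp (exc T' t) * 1 * Real.exp K0) := by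
        have hc := cut_nonneg m (4 / 3) t
        gcongr
    _ = C₀ * Real.exp K0 * (((r : ℝ) + Real.log m) ^ k * (cut m (4 / 3) t *
          Real.exp (exc T' t)) * Real.exp (-(κ * (m * NUMF.P t)))) := by ring
    _ ≤ C * (((r : ℝ) + Real.log m) ^ k * Phi 1 (1 / 10) (Tb (Real.log m)) t *
          Real.exp (-(7 / 10 * κ * Real.exp (8 / 3 * (Tb (Real.log m) - |t|))))) := by
        have hc := cut_nonneg m (4 / 3) t
        gcongr
    _ ≤ _ := by
        unfold act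
        have : 0 ≤ Phi 1 (1 / 10) (Tb (Real.log m) / (1 - ep)) t *
            (if |t| ≤ (1 - 3 * e1) * Tb (Real.log m) then Real.exp (-(2 * Real.pi * J)) else 1) := by
          refine mul_nonneg hPh ?_
          split_ifs
          · exact (Real.exp_pos _).le
          · exact zero_le_one
        nlinarith

theorem one_add_mul_exp {κ y : ℝ} (hκ : 0 < κ) (hy : 0 ≤ y) :
    (1 + y) * Real.exp (-(κ * y)) ≤ 1 + 1 / κ := by
  have h1 : κ * y + 1 ≤ Real.exp (κ * y) := Real.add_one_le_exp _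
  have h2 : Real.exp (-(κ * y)) * Real.exp (κ * y) = 1 := by
    rw [← Real.exp_add, neg_add_cancel, Real.exp_zero]
  have h3 : Real.exp (-(κ * y)) ≤ 1 := Real.exp_le_one_iff.2 (by nlinarith)
  have h4 := Real.exp_pos (-(κ * y))
  have h5 : κ * y * Real.exp (-(κ * y)) ≤ 1 := by nlinarith
  have h6 : y * Real.exp (-(κ * y)) ≤ 1 / κ := by
    rw [le_div_iff₀ hκ]
    linarith
  linarith

theorem adm_ep {ep : ℝ} (h0 : 0 < ep) (h1 : ep < 1) : Adm (4 / 3 * (1 - ep)) (3 * l / 2) := by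
  have := adm h0 h1 le_rfl (by linarith : (0 : ℝ) ≤ ep / 2)
  rwa [add_zero] at this

theorem log_ge_one {m : ℕ} (hm : 3 ≤ m) : 1 ≤ Real.log m := by
  have h1 : (3 : ℝ) ≤ m := by exact_mod_cast hm
  rw [Real.le_log_iff_exp_le (by linarith)]
  exact (Real.exp_one_lt_d9.trans (by norm_num)).le.trans h1

/-- **P3**: the one body factor of every object is at most the activity -/
theorem one_act {κ : ℝ} (hκ : 0 < κ) (K0 K1 : ℝ) (hK1 : 0 ≤ K1) (k0 : ℕ) :
    ∃ C c : ℝ, 0 < C ∧ 0 < c ∧ ∀ (m : ℕ), 3 ≤ m → ∀ P : Par, ParOK P m K1 →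
      ∀ slk : ℝ → ℝ, (∀ t, slk t + κ * NUMF.P t ≤ 2 * NUMF.Ag (1 / 4) t) →
      ∀ ep : ℝ, 0 < ep → ep ≤ 1 / 100 → ∀ e1 : ℝ, 0 < e1 → ∀ J : ℝ, 0 ≤ J →
      ∀ T' : ℝ, Tb (Real.log m) / (1 - ep) ≤ T' → ∀ (r : ℕ) (O : Fin r → Xo) (i : Fin r),
        ob m (4 / 3 * (1 - ep)) P O i * Real.exp (m * mfo (cons P O i) +
          m * slkK slk (kd (O i)) (ht (O i)) -
            2 * Real.pi * wK (kd (O i)) * NUCUR.cur e1 (Tb (Real.log m)) J (ht (O i)) +
              exc T' (ht (O i)) + K0) * colK (((r : ℝ) + 1) ^ k0) (kd (O i)) ≤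
          act C 1 c (1 / 10) (k0 + 6) (Real.log m) ep e1 J r (ht (O i)) := by
  obtain ⟨CT, hCT, hT⟩ := ob_T_le
  have hl := l_pos
  have hpi := Real.pi_pos
  have hcl := cos_l_pos
  have hac := aS_pos
  -- the constants of the kinds
  set e1' : ℝ := 31 / 100 with he1'
  have hkS := (adm43 (s := (1 / 2 + e1') * l) (by positivity) (by rw [he1']; nlinarith)).kap_pos
  set CS : ℝ := aS * (2 * Real.cos l) ^ 2 * (4 / kap (4 / 3) ((1 / 2 + e1') * l)) with hCS
  have hCS0 : 0 < CS := by positivity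
  set CF : ℝ := CS * (4 * Real.cos l ^ 2 * (4 * Real.cos l / Real.sin (5 * l) ^ 2) ^ 2) with hCF
  have hCF0 : 0 ≤ CF := by positivity
  set CVV : ℝ := CV e1' * K1 * Real.exp (KV e1' * (10 / 7)) * (1 + 1 / (κ / 4)) * 2 with hCVV
  have hCV0 := CV_pos (e1 := e1') (by norm_num) (by norm_num)
  have hKV0 := KV_pos (e1 := e1') (by norm_num) (by norm_num)
  have hCVV0 : 0 ≤ CVV := by positivity
  have hkL := (adm43 (s := l) hl.le (by linarith)).kap_pos
  set CL : ℝ := Real.cos l / Real.pi * (4 / kap (4 / 3) l) with hCL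
  have hCL0 : 0 < CL := by positivity
  set C : ℝ := (CT + CS + CF + CVV + CL) * Real.exp K0 with hC
  have hC0 : 0 < C := by positivity
  have hE0 := Real.exp_pos K0
  refine ⟨C, 7 / 10 * (κ / 4), hC0, by positivity, fun m hm P hP slk hslk ep hep hep1 e1 he1 J hJ
    T' hT' r O i => ?_⟩
  have hL := log_ge_one hm
  have hm1 : 1 ≤ m := by omega
  have hTb : 0 < Tb (Real.log m) := by
    unfold Tb
    linarith
  have hTT : Tb (Real.log m) ≤ T' := by
    refine le_trans ?_ hT'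
    rw [le_div_iff₀ (by linarith)]
    nlinarith
  obtain ⟨ee0, ee1⟩ := ei_bd hP O i
  have hr0 : (0 : ℝ) ≤ r := Nat.cast_nonneg r
  have hrL : (r : ℝ) + 1 ≤ r + Real.log m := by linarith
  have hβ0 : 0 < 4 / 3 * (1 - ep) := by linarith
  have hβ1 : 4 / 3 * (1 - ep) ≤ 4 / 3 := by linarith
  have hA := adm_ep hep (by linarith)
  have hmP : 0 ≤ m * NUMF.P (ht (O i)) := by
    have := NUMF.P_pos (ht (O i))
    positivity
  have hmP' : (0 : ℝ) ≤ m := Nat.cast_nonneg m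
  have hAg := Ag_mono (a := 1 / 4) (a' := ei P O i) (by norm_num) ee0 (by linarith) (ht (O i))
  have hs := hslk (ht (O i))
  unfold cons ob
  generalize hk : kd (O i) = kk
  cases kk with
  | L =>
    simp only [slkK, wK, colK, mul_zero, mul_one]
    have h1 := ob_L_le' hP.j1 (by linarith [hP.j2] : P.jL < 3) hβ0 hβ1 m (ei P O i) (rr P O i) hk
    have h2 : kap (4 / 3) l ≤ kap (4 / 3) (|3 / 2 - P.jL| * l) := by
      have hab : |3 / 2 - P.jL| ≤ 1 := by
        rw [abs_le]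
        constructor <;> linarith [hP.j1, hP.j2]
      unfold kap
      refine Real.cos_le_cos_of_nonneg_of_le_pi (by positivity) ?_ ?_
      · unfold l
        linarith
      · nlinarith
    have h3 : Real.cos l / Real.pi * (4 / kap (4 / 3) (|3 / 2 - P.jL| * l)) ≤ CL := by
      rw [hCL]
      gcongr
    have h4 := flat_act (C := C) (K0 := K0) (c := 7 / 10 * (κ / 4)) (r := r) hCL0.le (by
      rw [hC]
      gcongr
      linarith [hCT.le, hCS0.le, hCF0, hCVV0]) hm1 (w := 1) hep1 he1 hTb hJ le_rfl hT'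
      (h1.trans (mul_le_mul_of_nonneg_right h3 (cut_nonneg _ _ _))) (k0 + 6)
    rw [mul_one] at h4
    exact h4
  | St =>
    simp only [slkK, wK, colK, mul_zero, mul_one]
    have h1 := hT _ hβ0 hβ1 m P.jL (ei P O i) (rr P O i) (O i) hk
    have h4 := flat_act (C := C) (K0 := K0) (c := 7 / 10 * (κ / 4)) (r := r) hCT.le (by
      rw [hC]
      gcongr
      linarith [hCL0.le, hCS0.le, hCF0, hCVV0]) hm1 (w := 1) hep1 he1 hTb hJ le_rfl hT' h1 (k0 + 6)
    rw [mul_one] at h4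
    exact h4
  | Svv =>
    simp only [slkK, wK, colK, mul_zero, mul_one]
    have h1 := ob_Svv_le hA (by linarith) ee1 (by norm_num : (31 / 100 : ℝ) < 1) m P.jL (rr P O i) hk
    have h2 : cut m (4 / 3) (ht (O i)) ≤ cut m (4 / 3 * (1 - ep)) (ht (O i)) := cut_anti m hβ1 _
    exact flat_act (C := C) (K0 := K0) (c := 7 / 10 * (κ / 4)) (r := r) hCF0 (by
      rw [hC]
      gcongr
      linarith [hCL0.le, hCS0.le, hCT.le, hCVV0]) hm1 (w := 2) hep1 he1 hTb hJ (by norm_num) hT'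
      (h1.trans (mul_le_mul_of_nonneg_left h2 hCF0)) (k0 + 6)
  | S =>
    simp only [slkK, wK, colK]
    have h1 := ob_S_le (by linarith) ee1 (by norm_num : (31 / 100 : ℝ) < 1) m (4 / 3 * (1 - ep))
      P.jL (rr P O i) hk
    refine supp_act (C₀ := CS) (κ := κ / 4) hCS0.le (by
      rw [hC]
      gcongr
      linarith [hCL0.le, hCT.le, hCF0, hCVV0]) (by positivity) hm1 hJ le_rfl hTT hL ?_
    rw [Real.exp_add]
    set t := ht (O i) with ht'
    have hcut := cut_nonneg m (4 / 3) t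
    have h5 : Real.exp (-(2 * m * NUMF.Ag (ei P O i) t)) * Real.exp (m * slk t) ≤
        Real.exp (-(κ / 4 * (m * NUMF.P t))) := by
      rw [← Real.exp_add]
      refine Real.exp_le_exp.2 ?_
      have h6 : m * (slk t + κ * NUMF.P t) ≤ m * (2 * NUMF.Ag (ei P O i) t) :=
        mul_le_mul_of_nonneg_left (by linarith) hmP'
      nlinarith
    have h7 : ((r : ℝ) + 1) ^ k0 ≤ ((r : ℝ) + Real.log m) ^ (k0 + 6) :=
      (pow_le_pow_left₀ (by linarith) hrL k0).trans
        (pow_le_pow_right₀ (by linarith) (by omega))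
    calc ob1 m (4 / 3 * (1 - ep)) P.jL (ei P O i) (rr P O i) (O i) *
          (Real.exp (m * mfo (parts P.jL (ei P O i) (rr P O i) (O i))) * Real.exp (m * slk t)) *
          ((r : ℝ) + 1) ^ k0 =
        (ob1 m (4 / 3 * (1 - ep)) P.jL (ei P O i) (rr P O i) (O i) *
          Real.exp (m * mfo (parts P.jL (ei P O i) (rr P O i) (O i)))) * Real.exp (m * slk t) *
          ((r : ℝ) + 1) ^ k0 := by ring
      _ ≤ (CS * cut m (4 / 3) t * Real.exp (-(2 * m * NUMF.Ag (ei P O i) t))) *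
          Real.exp (m * slk t) * ((r : ℝ) + 1) ^ k0 := by gcongr
      _ = CS * ((r : ℝ) + 1) ^ k0 * (cut m (4 / 3) t *
          (Real.exp (-(2 * m * NUMF.Ag (ei P O i) t)) * Real.exp (m * slk t))) := by ring
      _ ≤ _ := by gcongr
  | Sv =>
    simp only [slkK, wK, colK]
    set ρ := rr P O i with hρ
    set t := ht (O i) with ht'
    have hρ0 : 0 < ρ := hP.r0 r t
    have hρ1 : ρ ≤ l / 20 := hP.r1 r t
    have hρ2 : ρ * (1 + m * NUMF.P t) ≤ 1 := hP.r2 r t
    have hρ3 : 1 / ρ ≤ K1 * ((r : ℝ) + 1) ^ 5 * (1 + Real.log m) * (1 + m * NUMF.P t) := hP.r3 r t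
    have h1 := ob_Sv_le hA ee1 (by norm_num : (31 / 100 : ℝ) < 1) hρ0
      (by nlinarith : ρ ≤ ei P O i * l) (by linarith) (by nlinarith) m P.jL hk
    refine supp_act (C₀ := CVV) (κ := κ / 4) hCVV0 (by
      rw [hC]
      gcongr
      linarith [hCL0.le, hCT.le, hCF0, hCS0.le]) (by positivity) hm1 hJ zero_le_one hTT hL ?_
    rw [Real.exp_add]
    have hcut := cut_nonneg m (4 / 3) t
    have hy := one_add_mul_exp (κ := κ / 4) (by positivity) hmP
    have hKV : KV (31 / 100) * (m * ρ * Real.exp (-(8 / 3) * |t|)) ≤ KV e1' * (10 / 7) := by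
      refine mul_le_mul_of_nonneg_left ?_ hKV0.le
      have h8 := seven_tenths_le_P t
      have h9 : m * ρ * Real.exp (-(8 / 3) * |t|) ≤ m * ρ * (10 / 7 * NUMF.P t) := by
        refine mul_le_mul_of_nonneg_left (by linarith) (by positivity)
      nlinarith
    have h5 : Real.exp (-(m * NUMF.Ag (ei P O i) t) + KV (31 / 100) *
        (m * ρ * Real.exp (-(8 / 3) * |t|))) * Real.exp (m * (slk t / 2)) ≤
        Real.exp (KV e1' * (10 / 7)) * (Real.exp (-(κ / 4 * (m * NUMF.P t))) *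
          Real.exp (-(κ / 4 * (m * NUMF.P t)))) := by
      rw [← Real.exp_add, ← Real.exp_add, ← Real.exp_add]
      refine Real.exp_le_exp.2 ?_
      have h6 : m * (slk t + κ * NUMF.P t) ≤ m * (2 * NUMF.Ag (ei P O i) t) :=
        mul_le_mul_of_nonneg_left (by linarith) hmP'
      nlinarith
    have h7 : ((r : ℝ) + 1) ^ 5 * (1 + Real.log m) * ((r : ℝ) + 1) ^ k0 ≤
        2 * ((r : ℝ) + Real.log m) ^ (k0 + 6) := by
      have h8 : 1 + Real.log m ≤ 2 * ((r : ℝ) + Real.log m) := by linarith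
      have h9 : ((r : ℝ) + 1) ^ (5 + k0) ≤ ((r : ℝ) + Real.log m) ^ (5 + k0) :=
        pow_le_pow_left₀ (by linarith) hrL _
      calc ((r : ℝ) + 1) ^ 5 * (1 + Real.log m) * ((r : ℝ) + 1) ^ k0 =
          ((r : ℝ) + 1) ^ (5 + k0) * (1 + Real.log m) := by ring
        _ ≤ ((r : ℝ) + Real.log m) ^ (5 + k0) * (2 * ((r : ℝ) + Real.log m)) := by
          gcongr
        _ = _ := by ring
    calc ob1 m (4 / 3 * (1 - ep)) P.jL (ei P O i) ρ (O i) *
          (Real.exp (m * mfo (parts P.jL (ei P O i) ρ (O i))) * Real.exp (m * (slk t / 2))) *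
          ((r : ℝ) + 1) ^ k0 =
        (ob1 m (4 / 3 * (1 - ep)) P.jL (ei P O i) ρ (O i) *
          Real.exp (m * mfo (parts P.jL (ei P O i) ρ (O i)))) * Real.exp (m * (slk t / 2)) *
          ((r : ℝ) + 1) ^ k0 := by ring
      _ ≤ (CV (31 / 100) / ρ * cut m (4 / 3) t * Real.exp (-(m * NUMF.Ag (ei P O i) t) +
          KV (31 / 100) * (m * ρ * Real.exp (-(8 / 3) * |t|)))) *
          Real.exp (m * (slk t / 2)) * ((r : ℝ) + 1) ^ k0 := by gcongr
      _ = CV e1' * (1 / ρ) * ((r : ℝ) + 1) ^ k0 * (cut m (4 / 3) t *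
          (Real.exp (-(m * NUMF.Ag (ei P O i) t) +
          KV (31 / 100) * (m * ρ * Real.exp (-(8 / 3) * |t|))) *
          Real.exp (m * (slk t / 2)))) := by
          rw [he1']
          ring
      _ ≤ CV e1' * (K1 * ((r : ℝ) + 1) ^ 5 * (1 + Real.log m) * (1 + m * NUMF.P t)) * ((r : ℝ) + 1) ^ k0 *
          (cut m (4 / 3) t * (Real.exp (KV e1' * (10 / 7)) *
            (Real.exp (-(κ / 4 * (m * NUMF.P t))) * Real.exp (-(κ / 4 * (m * NUMF.P t)))))) := by
          gcongr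
      _ = CV e1' * K1 * Real.exp (KV e1' * (10 / 7)) *
          ((1 + m * NUMF.P t) * Real.exp (-(κ / 4 * (m * NUMF.P t)))) *
          (((r : ℝ) + 1) ^ 5 * (1 + Real.log m) * ((r : ℝ) + 1) ^ k0) *
          (cut m (4 / 3) t * Real.exp (-(κ / 4 * (m * NUMF.P t)))) := by ring
      _ ≤ CV e1' * K1 * Real.exp (KV e1' * (10 / 7)) * (1 + 1 / (κ / 4)) *
          (2 * ((r : ℝ) + Real.log m) ^ (k0 + 6)) *
          (cut m (4 / 3) t * Real.exp (-(κ / 4 * (m * NUMF.P t)))) := by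
          gcongr
      _ = _ := by rw [hCVV]; ring

end NUO
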