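import Pool.Agent.NUO.PotF

/-!
# The potentials of `PotC` in terms of the blocks `fq`, `fg` of `NUO/Blocks`
-/

set_option autoImplicit false

open Complex Set Filter Topology

namespace NUO

noncomputable section


/-- offset of a position -/
def off (w : ℂ) : ℝ := 1 - w.re / NUMF.l

lemma red_add8 (y : ℝ) : red (y + 8) = red y := by
  unfold red
  have e : (y + 8) / 8 = y / 8 + 1 := by ring
  rw [e, round_add_one]
  push_cast
  ring

lemma yw_off (w : ℂ) (k : ℤ) : yw w k = red ((4 - k : ℤ) - off w) * NUMF.l := by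
  unfold yw off
  congr 2
  push_cast
  ring

/-- the block at shift `y` -/
def sb (y : ℝ) (z : ℂ) : ℂ := Complex.log (Complex.cosh (z + (red y * NUMF.l : ℝ) * I))

lemma sb_add8 (y : ℝ) (z : ℂ) : sb (y + 8) z = sb y z := by
  unfold sb
  rw [red_add8]

lemma bk_eq (w : ℂ) (k : ℤ) (ζ : ℂ) : bk w k ζ = sb ((4 - k : ℤ) - off w) (ζ - w.im) := by
  unfold bk wz sb
  rw [yw_off]

lemma F_sb (j : ℝ) (i : Fin 8) (z : ℂ) :
    NUMF.F (z + yv j i * I) = 2 * sb (av i - j) z + Real.log 2 := by
  unfold NUMF.F sb yv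
  rfl

lemma fq_sb (j : ℝ) (z : ℂ) : fq j z =
    2 * sb (4 - j) z + sb (2 - j) z + sb (-2 - j) z - sb (3 - j) z - sb (5 - j) z := by
  unfold fq
  simp_rw [F_sb]
  rw [Fin.sum_univ_eight]
  simp only [co, av, Matrix.cons_val]
  push_cast
  ring

lemma fg_sb (j : ℝ) (z : ℂ) : fg j z = 2 * sb (0 - j) z - 2 * sb (1 - j) z - 2 * sb (-1 - j) z := by
  unfold fg
  simp_rw [F_sb]
  rw [Fin.sum_univ_eight]
  simp only [cx, av, Matrix.cons_val]
  push_cast
  ring

/-- offsets and heights of the quanta of a constituent -/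
def offs (x : Bool × Bool × ℂ) : List (ℝ × ℝ) :=
  if x.2.1 then [(off x.2.2, x.2.2.im), (off x.2.2 + 1, x.2.2.im)] else [(off x.2.2, x.2.2.im)]

/-- **the potential of a constituent is the sum of the blocks of its quanta** -/
theorem cp_eq (s : Bool) (x : Bool × Bool × ℂ) (ζ : ℂ) : cp s x ζ =
    ((offs x).map fun p => (if s = x.1 then fq p.1 else fg p.1) (ζ - p.2)).sum := by
  obtain ⟨sx, ty, w⟩ := x
  unfold cp offs
  simp only [bk_eq]
  set j := off w with hj
  set z : ℂ := ζ - w.im with hz
  have e6 : sb (6 - j) z = sb (-2 - j) z := by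
    rw [← sb_add8 (-2 - j)]
    congr 1
    ring
  have e7 : sb (7 - j) z = sb (-1 - j) z := by
    rw [← sb_add8 (-1 - j)]
    congr 1
    ring
  have e5 : sb (5 - j) z = sb (-3 - j) z := by
    rw [← sb_add8 (-3 - j)]
    congr 1
    ring
  by_cases hs : s = sx
  · subst hs
    cases ty
    · simp only [decide_true, mlt, List.map_cons, List.map_nil, List.sum_cons, List.sum_nil,
        if_true, Bool.false_eq_true, if_false]
      rw [← hz, fq_sb]
      norm_num
      rw [e6]
      ring
    · simp only [decide_true, mlt, List.map_cons, List.map_nil, List.sum_cons, List.sum_nil,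
        if_true]
      rw [← hz, fq_sb, fq_sb]
      have a1 : (4 : ℝ) - (j + 1) = 3 - j := by ring
      have a2 : (2 : ℝ) - (j + 1) = 1 - j := by ring
      have a3 : (-2 : ℝ) - (j + 1) = -3 - j := by ring
      have a4 : (3 : ℝ) - (j + 1) = 2 - j := by ring
      have a5 : (5 : ℝ) - (j + 1) = 4 - j := by ring
      rw [a1, a2, a3, a4, a5, e5]
      norm_num
      rw [e6]
      ring
  · have hd : decide (s = sx) = false := by simpa using hs
    cases ty
    · simp only [hd, mlt, List.map_cons, List.map_nil, List.sum_cons, List.sum_nil, if_neg hs,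
        Bool.false_eq_true, if_false]
      rw [← hz, fg_sb]
      norm_num
      rw [e7]
      ring
    · simp only [hd, mlt, List.map_cons, List.map_nil, List.sum_cons, List.sum_nil, if_neg hs,
        if_true]
      rw [← hz, fg_sb, fg_sb]
      have a1 : (0 : ℝ) - (j + 1) = -1 - j := by ring
      have a2 : (1 : ℝ) - (j + 1) = 0 - j := by ring
      have a3 : (-1 : ℝ) - (j + 1) = -2 - j := by ring
      rw [a1, a2, a3]
      norm_num
      rw [e6]
      ring

theorem cp_sum (x : Bool × Bool × ℂ) (ζ : ℂ) : cp true x ζ + cp false x ζ =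
    ((offs x).map fun p => fq p.1 (ζ - p.2) + fg p.1 (ζ - p.2)).sum := by
  rw [cp_eq, cp_eq]
  obtain ⟨sx, ty, w⟩ := x
  unfold offs
  cases sx <;> cases ty <;> simp <;> ring

/-- offsets and heights of all quanta of the object `i` -/
def offO (P : Par) {r : ℕ} (O : Fin r → Xo) (i : Fin r) : List (ℝ × ℝ) :=
  (cons P O i).flatMap offs

/-- **both species together** -/
theorem fO_sum (P : Par) {r : ℕ} (O : Fin r → Xo) (i : Fin r) (ζ : ℂ) :
    fO P O i true ζ + fO P O i false ζ =
      ((offO P O i).map fun p => fq p.1 (ζ - p.2) + fg p.1 (ζ - p.2)).sum := by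
  unfold fO offO
  generalize cons P O i = L
  induction L with
  | nil => simp
  | cons a L ih =>
    rw [List.map_cons, List.sum_cons, List.map_cons, List.sum_cons, List.flatMap_cons, List.map_append,
      List.sum_append, ← ih, ← cp_sum]
    ring

/-- the offsets are away from the integers -/
theorem offO_off {δ : ℝ} {P : Par} (h : PG δ P) {r : ℕ} (O : Fin r → Xo) (i : Fin r) :
    ∀ p ∈ offO P O i, Off δ p.1 ∧ |p.2 - ht (O i)| ≤ 1 := by
  intro p hp
  unfold offO at hp
  rw [List.mem_flatMap] at hp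
  obtain ⟨x, hx, hp⟩ := hp
  obtain ⟨h1, h2⟩ := cons_away h O i x hx
  have h3 : Off δ (off x.2.2) := by
    intro n
    have h4 := h1.off (n - 1)
    have e : off x.2.2 - n = -(x.2.2.re / NUMF.l) - ((n - 1 : ℤ) : ℝ) := by
      unfold off
      push_cast
      ring
    rw [e]
    exact h4
  have h4 : Off δ (off x.2.2 + 1) := by
    intro n
    have h5 := h3 (n - 1)
    have e : off x.2.2 + 1 - n = off x.2.2 - ((n - 1 : ℤ) : ℝ) := by
      push_cast
      ring
    rw [e]
    exact h5
  unfold offs at hp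
  split_ifs at hp with hty
  · simp only [List.mem_cons, List.not_mem_nil, or_false] at hp
    rcases hp with rfl | rfl
    · exact ⟨h3, h2⟩
    · exact ⟨h4, h2⟩
  · simp only [List.mem_cons, List.not_mem_nil, or_false] at hp
    subst hp
    exact ⟨h3, h2⟩

end

end NUO
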