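import Pool.Agent.NUO.S4

/-!
# The ranges of section 4

`CrudeA`: the crude bound, for every configuration, with a slightly smaller far factor and for all
small tilts; `SharpA`: the sharp bound for few objects, not too far, and `n` near `m`.
`s4_of : CrudeA → SharpA → S4`.
-/

set_option autoImplicit false

noncomputable section

open MeasureTheory Finset
open scoped ENNReal

namespace NUO

open NUStabP NUDispW

/-- sum of the excesses of the far objects -/
def excS (T' : ℝ) {r : ℕ} (O : Fin r → Xo) : ℝ := ∑ i, max (|ht (O i)| - T') 0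

/-- **the crude bound**: every number of objects, every height, every `n`, every small tilt -/
def CrudeA : Prop :=
  ∃ K Ca : ℝ, 0 ≤ K ∧ 0 ≤ Ca ∧ ∀ kap : ℝ, 0 < kap →
    ∀ ep : ℝ, 0 < ep → ep ≤ 1 / 100 → ∀ e1 : ℝ, 0 < e1 → e1 ≤ 1 / 100 → ∀ J : ℝ, 0 ≤ J →
    ∀ δ : ℝ, 0 < δ → ∃ d Cst : ℝ, 0 < d ∧ 0 ≤ Cst ∧ ∃ m0 : ℕ, ∀ m ≥ m0,
      ∀ n ≤ 2 * m, ∀ b' : ℝ, |b'| ≤ d → ∀ r ≤ 4 * m, ∀ O : Fin r → Xo,
      chgO O true ≤ n → chgO O false ≤ n →
        ENNReal.ofReal (Real.exp (b' * (m - n))) *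
          Z1 m (4 / 3 * (1 - ep)) (par0 m) (etaA e1 J m) (etaA' e1 J m) O
            (n - chgO O true) (n - chgO O false) ≤
          ENNReal.ofReal (Cst * MF m * (m : ℝ) ^ (7 / 8 + Ca * (ep + e1) + δ) *
            Real.exp (confE (par0 m) m e1 J (TW ep e1 m) K kap O - 1 / 10 * excS (TW ep e1 m) O))

/-- **the sharp bound**: at most `log m` objects, at heights at most `(log m)^2`, `n` near `m` -/
def SharpA : Prop :=
  ∃ K Ca : ℝ, 0 ≤ K ∧ 0 ≤ Ca ∧ ∀ kap : ℝ, 0 < kap →
    ∀ ep : ℝ, 0 < ep → ep ≤ 1 / 100 → ∀ e1 : ℝ, 0 < e1 → e1 ≤ 1 / 100 → ∀ J : ℝ, 0 ≤ J →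
    ∀ δ : ℝ, 0 < δ → ∃ d Cst : ℝ, 0 < d ∧ 0 ≤ Cst ∧ ∃ m0 : ℕ, ∀ m ≥ m0,
      ∀ n ≤ 2 * m, |(m : ℝ) - n| ≤ Real.log m ^ 3 → ∀ b' : ℝ, |b'| ≤ d → ∀ r ≤ 4 * m,
      (r : ℝ) ≤ Real.log m → ∀ O : Fin r → Xo, (∀ i, |ht (O i)| ≤ Real.log m ^ 2) →
      chgO O true ≤ n → chgO O false ≤ n →
        ENNReal.ofReal (Real.exp (b' * (m - n))) *
          Z1 m (4 / 3 * (1 - ep)) (par0 m) (etaA e1 J m) (etaA' e1 J m) O
            (n - chgO O true) (n - chgO O false) ≤
          ENNReal.ofReal (Cst * MF m * (m : ℝ) ^ (3 / 8 + Ca * (ep + e1) + δ) *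
            Real.exp (confE (par0 m) m e1 J (TW ep e1 m) K kap O))

theorem excS_nonneg (T' : ℝ) {r : ℕ} (O : Fin r → Xo) : 0 ≤ excS T' O :=
  Finset.sum_nonneg fun _ _ => le_max_right _ _

theorem excS_ge (T' : ℝ) {r : ℕ} (O : Fin r → Xo) (i : Fin r) : |ht (O i)| - T' ≤ excS T' O :=
  (le_max_left _ _).trans
    (Finset.single_le_sum (f := fun i => max (|ht (O i)| - T') 0) (fun _ _ => le_max_right _ _)
      (mem_univ i))

theorem confE_mono {P : Par} {m : ℕ} {e1 J T' K K' kap : ℝ} (hK : K ≤ K') {r : ℕ}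
    (O : Fin r → Xo) : confE P m e1 J T' K kap O ≤ confE P m e1 J T' K' kap O := by
  unfold confE
  have : K * (r : ℝ) ≤ K' * r := mul_le_mul_of_nonneg_right hK (Nat.cast_nonneg r)
  linarith

/-- `log m` is large -/
theorem log_large (x : ℝ) : ∃ m0 : ℕ, ∀ m ≥ m0, x ≤ Real.log m := by
  have := (Real.tendsto_log_atTop.comp tendsto_natCast_atTop_atTop).eventually_ge_atTop x
  exact Filter.eventually_atTop.1 this

/-- **section 4 from the crude and the sharp bound** -/
theorem s4_of (hC : CrudeA) (hS : SharpA) : S4 := by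
  obtain ⟨K1, Ca1, hK1, hCa1, hC⟩ := hC
  obtain ⟨K2, Ca2, hK2, hCa2, hS⟩ := hS
  refine ⟨max K1 K2, max Ca1 Ca2, 1 / 2, hK1.trans (le_max_left _ _), hCa1.trans (le_max_left _ _),
    by norm_num, ?_⟩
  intro kap hkap ep hep hep' e1 he1 he1' J hJ δ hδ
  obtain ⟨d1, Cst1, hd1, hCst1, m1, hC⟩ := hC kap hkap ep hep hep' e1 he1 he1' J hJ δ hδ
  obtain ⟨d2, Cst2, hd2, hCst2, m2, hS⟩ := hS kap hkap ep hep hep' e1 he1 he1' J hJ δ hδ
  set d : ℝ := min (d1 / 2) d2 with hd
  have hd0 : 0 < d := lt_min (by positivity) hd2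
  have hdd1 : d ≤ d1 / 2 := min_le_left _ _
  have hdd2 : d ≤ d2 := min_le_right _ _
  obtain ⟨m3, hm3⟩ := log_large (max 20 (1 / d))
  refine ⟨d, max Cst1 Cst2, hd0, hCst1.trans (le_max_left _ _), max (max m1 m2) (max m3 3), ?_⟩
  intro m hm n hn b' hb' r hr O hct hcf
  have hm1 : m1 ≤ m := ((le_max_left _ _).trans (le_max_left _ _)).trans hm
  have hm2 : m2 ≤ m := ((le_max_right _ _).trans (le_max_left _ _)).trans hm
  have hm3' : m3 ≤ m := ((le_max_left _ _).trans (le_max_right _ _)).trans hm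
  have hm4 : 3 ≤ m := ((le_max_right _ _).trans (le_max_right _ _)).trans hm
  set L : ℝ := Real.log m with hL
  have hL20 : 20 ≤ L := (le_max_left _ _).trans (hm3 m hm3')
  have hLd : 1 ≤ d * L := by
    have h := (le_max_right _ _).trans (hm3 m hm3')
    rw [div_le_iff₀ hd0] at h
    linarith
  have hmR : (1 : ℝ) ≤ m := by
    have : 1 ≤ m := by omega
    exact_mod_cast this
  have hmpos : (0 : ℝ) < m := by linarith
  have hMF : 0 ≤ MF m := (Real.exp_pos _).le
  have hbabs : |b'| ≤ d := by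
    rcases hb' with h | h
    · rw [h, abs_of_pos hd0]
    · rw [h, abs_neg, abs_of_pos hd0]
  set X : ℝ := confE (par0 m) m e1 J (TW ep e1 m) (max K1 K2) kap O with hX
  set p : ℝ := 3 / 8 + max Ca1 Ca2 * (ep + e1) + δ with hp
  -- the crude bound with a gain
  have crude : ∀ b'' : ℝ, |b''| ≤ 2 * d → ∀ g : ℝ,
      b' * ((m : ℝ) - n) + (1 / 2) * L + g ≤ b'' * ((m : ℝ) - n) + 1 / 10 * excS (TW ep e1 m) O →
      ENNReal.ofReal (Real.exp (b' * (m - n))) *
          Z1 m (4 / 3 * (1 - ep)) (par0 m) (etaA e1 J m) (etaA' e1 J m) O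
            (n - chgO O true) (n - chgO O false) ≤
        ENNReal.ofReal (max Cst1 Cst2 * MF m * (m : ℝ) ^ p * Real.exp (X - g)) := by
    intro b'' hb'' g hg
    have h := hC m hm1 n hn b'' (by linarith) r hr O hct hcf
    have e1' : Real.exp (b' * (m - n)) = Real.exp (b' * (m - n) - b'' * (m - n)) *
        Real.exp (b'' * (m - n)) := by
      rw [← Real.exp_add]
      ring_nf
    rw [e1', ENNReal.ofReal_mul (Real.exp_pos _).le, mul_assoc]
    refine (mul_le_mul_right h _).trans ?_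
    rw [← ENNReal.ofReal_mul (Real.exp_pos _).le]
    refine ENNReal.ofReal_le_ofReal ?_
    have h1 : (m : ℝ) ^ (7 / 8 + Ca1 * (ep + e1) + δ) ≤ (m : ℝ) ^ p * Real.exp ((1 / 2) * L) := by
      have h2 : Real.exp ((1 / 2) * L) = (m : ℝ) ^ (1 / 2 : ℝ) := by
        rw [Real.rpow_def_of_pos hmpos, ← hL, mul_comm]
      rw [h2, ← Real.rpow_add hmpos]
      refine Real.rpow_le_rpow_of_exponent_le hmR ?_
      have : Ca1 * (ep + e1) ≤ max Ca1 Ca2 * (ep + e1) :=
        mul_le_mul_of_nonneg_right (le_max_left _ _) (by linarith)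
      rw [hp]
      linarith
    have h3 : confE (par0 m) m e1 J (TW ep e1 m) K1 kap O ≤ X := confE_mono (le_max_left _ _) O
    have h4 : (0 : ℝ) ≤ (m : ℝ) ^ p := Real.rpow_nonneg hmpos.le _
    calc Real.exp (b' * (m - n) - b'' * (m - n)) *
          (Cst1 * MF m * (m : ℝ) ^ (7 / 8 + Ca1 * (ep + e1) + δ) *
            Real.exp (confE (par0 m) m e1 J (TW ep e1 m) K1 kap O -
              1 / 10 * excS (TW ep e1 m) O))
        ≤ Real.exp (b' * (m - n) - b'' * (m - n)) *
          (max Cst1 Cst2 * MF m * ((m : ℝ) ^ p * Real.exp ((1 / 2) * L)) *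
            Real.exp (X - 1 / 10 * excS (TW ep e1 m) O)) := by
          refine mul_le_mul_of_nonneg_left ?_ (Real.exp_pos _).le
          refine mul_le_mul (mul_le_mul (mul_le_mul_of_nonneg_right (le_max_left _ _) hMF) h1
            (Real.rpow_nonneg hmpos.le _) (mul_nonneg (hCst1.trans (le_max_left _ _)) hMF))
            (Real.exp_le_exp.2 (by linarith)) (Real.exp_pos _).le ?_
          exact mul_nonneg (mul_nonneg (hCst1.trans (le_max_left _ _)) hMF)
            (mul_nonneg h4 (Real.exp_pos _).le)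
      _ = max Cst1 Cst2 * MF m * (m : ℝ) ^ p * Real.exp (b' * (m - n) - b'' * (m - n) +
            (1 / 2) * L + (X - 1 / 10 * excS (TW ep e1 m) O)) := by
          rw [Real.exp_add, Real.exp_add]
          ring
      _ ≤ _ := by
          refine mul_le_mul_of_nonneg_left (Real.exp_le_exp.2 (by linarith)) ?_
          exact mul_nonneg (mul_nonneg (hCst1.trans (le_max_left _ _)) hMF) h4
  have hexc := excS_nonneg (TW ep e1 m) O
  by_cases hrL : (r : ℝ) ≤ L
  · rw [if_pos hrL, mul_one]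
    by_cases hnm : |(m : ℝ) - n| ≤ L ^ 3
    · by_cases hht : ∀ i, |ht (O i)| ≤ L ^ 2
      · -- the sharp bound
        refine (hS m hm2 n hn hnm b' (by linarith) r hr hrL O hht hct hcf).trans ?_
        refine ENNReal.ofReal_le_ofReal ?_
        have h1 : (m : ℝ) ^ (3 / 8 + Ca2 * (ep + e1) + δ) ≤ (m : ℝ) ^ p := by
          refine Real.rpow_le_rpow_of_exponent_le hmR ?_
          have : Ca2 * (ep + e1) ≤ max Ca1 Ca2 * (ep + e1) :=
            mul_le_mul_of_nonneg_right (le_max_right _ _) (by linarith)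
          rw [hp]
          linarith
        have h3 : confE (par0 m) m e1 J (TW ep e1 m) K2 kap O ≤ X :=
          confE_mono (le_max_right _ _) O
        refine mul_le_mul (mul_le_mul (mul_le_mul_of_nonneg_right (le_max_right _ _) hMF) h1
            (Real.rpow_nonneg hmpos.le _) (mul_nonneg (hCst2.trans (le_max_right _ _)) hMF))
            (Real.exp_le_exp.2 h3) (Real.exp_pos _).le ?_
        exact mul_nonneg (mul_nonneg (hCst2.trans (le_max_right _ _)) hMF)
          (Real.rpow_nonneg hmpos.le _)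
      · -- a far object
        push Not at hht
        obtain ⟨i, hi⟩ := hht
        have h1 := excS_ge (TW ep e1 m) O i
        have h2 : TW ep e1 m ≤ L := by
          unfold TW Tb
          rw [← hL]
          have : (1 + 2 * e1 + 2 * ep) ≤ 2 := by linarith
          nlinarith
        have h3 := crude b' (by linarith) 0 (by nlinarith)
        rwa [sub_zero] at h3
    · -- `n` far from `m`
      push Not at hnm
      rcases le_total 0 ((m : ℝ) - n) with h0 | h0
      · rw [abs_of_nonneg h0] at hnm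
        have h3 := crude (b' + d) ((abs_add_le _ _).trans (by rw [abs_of_pos hd0]; linarith)) 0
          (by nlinarith [mul_le_mul_of_nonneg_left hnm.le hd0.le, sq_nonneg L, sq_nonneg (L - 1)])
        rwa [sub_zero] at h3
      · rw [abs_of_nonpos h0] at hnm
        have h3 := crude (b' - d) ((abs_sub _ _).trans (by rw [abs_of_pos hd0]; linarith)) 0
          (by nlinarith [mul_le_mul_of_nonneg_left hnm.le hd0.le, sq_nonneg L, sq_nonneg (L - 1)])
        rwa [sub_zero] at h3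
  · -- many objects
    rw [if_neg hrL]
    have h3 := crude b' (by linarith) (-(1 / 2 * L)) (by linarith)
    refine h3.trans (le_of_eq ?_)
    congr 1
    rw [sub_neg_eq_add, Real.exp_add]
    ring

end NUO
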