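import Pool.Agent.NUH0.DatO
import Pool.Agent.NUH0.H0fin
import Pool.Agent.NUS4.SharpD
import Pool.Agent.NUO.Ranges

/-!
# The gas on the curve in the presence of the objects: data and the two bounds

`DatG`: hypotheses on the data `datO I P O` (rows `I.s`, curve `I.η`, extra analytic potentials
`I.A`, extra real potentials `I.B`, extra densities `I.ν`, objects `O`) and on the one body factors
`aX * cf`, `aY * cf`.  `CrudeG`, `SharpG`: the bounds of the gas integral, with the exponent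
`En` of the data kept.  TARGET-A and TARGET-B are instances.
-/

set_option autoImplicit false

noncomputable section

open MeasureTheory Finset
open scoped ENNReal

namespace NUO

open NUH0 NUStabP NUDispW

/-- the extra one body potential: the extra analytic potential on the curve and the extra real
potential, minus the potential of the extra density -/
def xiO (I : Inp) (a : Bool) (t : ℝ) : ℝ :=
  (I.A a (NUAct.zt (NUKer.iD I.η) t)).re + I.B a t - Vn I a t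

/-- the parameters of the representation (satisfied by `par0 M`, `m ≤ M`) -/
structure ParG (m : ℕ) (P : Par) : Prop where
  jL : P.jL = 9 / 4
  e : P.e = 1 / 4
  d0 : ∀ r, 0 ≤ P.d r
  d1 : ∀ r, P.d r * ((r : ℝ) + 1) ^ 2 ≤ 1 / 6144
  r0 : ∀ r t, 0 ≤ P.rad r t
  r1 : ∀ r t, P.rad r t * (64 * ((r : ℝ) + 1) * (1 + Real.log m)) ≤ NUP1.l * P.d r

/-- **data of the gas**.  `κ`: the curve has size `m^(-κ)`; `k`: power of the logarithm in the mass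
of the curve; `CB`: bound of the extra potentials and densities; `ϑ`: density of the energy of the
extra potential; the cutoff factor `cf` is at most `CB m exp (-(8/3) (1 - ep) |t|)` -/
structure DatG (ep e1 κ CB ϑ : ℝ) (k m : ℕ) (I : Inp) (P : Par) {r : ℕ} (O : Fin r → Xo)
    (p n : ℕ) (aX aY cf B1 : ℝ → ℝ) : Prop where
  s1 : (m : ℝ) / 2 ≤ I.s
  s2 : I.s ≤ 2 * m
  pk : (p : ℝ) ≤ 8 * m
  nk : (n : ℝ) ≤ 8 * m
  rk : (r : ℝ) ≤ 8 * m
  par : ParG m P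
  ok : ∃ (dl ε M : ℝ) (e : ℝ → ℝ), IOk dl ε M ((1 - e1) * Tb (Real.log m)) e I P r ∧
    ε ≤ (m : ℝ) ^ (-κ) ∧ M ≤ Real.log m ^ k ∧
    dl ≤ 1 / (6000 * ((r : ℝ) + 1) ^ 2) + 3 * (m : ℝ) ^ (-κ)
  fld : Fld (datO I P O) p n
  shl : Shl (datO I P O) aX aY cf B1 (CB * m) (8 / 3 * (1 - ep))
  ν0 : ∀ a t, |I.ν a t| ≤ CB
  ν1 : ∀ a t, TW ep e1 m ≤ |t| →
    |I.ν a t| ≤ CB * Real.exp (-(5 / 2 * (|t| - TW ep e1 m)))
  xi : ∀ a, ∃ xi1 : ℝ → ℝ, (∀ t, HasDerivAt (xiO I a) (xi1 t) t) ∧ Continuous xi1 ∧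
    (∀ t, |xiO I a t| ≤ CB) ∧ ∀ T, 0 ≤ T →
      ∫ t in (-(T + 1))..(T + 1), (xiO I a t ^ 2 + xi1 t ^ 2) ≤ CB + ϑ * (T + 1)

/-- the right side: mean field exponent, `En`, `K` per object, far factor, windows -/
def confG (ep e1 : ℝ) (m : ℕ) (I : Inp) (P : Par) (p n : ℕ) (K kap : ℝ) {r : ℕ}
    (O : Fin r → Xo) : ℝ :=
  NUMFC.MFs I.s p n + (datO I P O).En + K * r + 12 / 5 * excS (TW ep e1 m) O +
    kap * win univ (fun i => ht (O i))

/-- **the crude bound** -/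
def CrudeG : Prop :=
  ∃ K Ca : ℝ, 0 ≤ K ∧ 0 ≤ Ca ∧ ∀ kap : ℝ, 0 < kap →
    ∀ ep : ℝ, 0 < ep → ep ≤ 1 / 100 → ∀ e1 : ℝ, 0 < e1 → e1 ≤ 1 / 100 → ∀ δ : ℝ, 0 < δ →
    ∀ (k : ℕ) (κ CB : ℝ), 0 < κ → 0 ≤ CB →
    ∃ ϑ Cst : ℝ, 0 < ϑ ∧ 0 ≤ Cst ∧ ∃ m0 : ℕ, ∀ m ≥ m0,
      ∀ (I : Inp) (P : Par) (r : ℕ) (O : Fin r → Xo) (p n : ℕ) (aX aY cf B1 : ℝ → ℝ),
      DatG ep e1 κ CB ϑ k m I P O p n aX aY cf B1 →
        ∫⁻ x, ENNReal.ofReal (W0 (datO I P O) p n aX aY cf x) ≤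
          ENNReal.ofReal ((p.factorial : ℝ) * n.factorial *
            (Cst * (m : ℝ) ^ (7 / 8 + Ca * (ep + e1) + δ) *
              Real.exp (confG ep e1 m I P p n K kap O)))

/-- **the sharp bound**: at most `log m` objects, at heights at most `(log m)^2`; `GD` = the one
body factors in the bulk (helper53's structure) -/
def SharpG : Prop :=
  ∃ K Ca : ℝ, 0 ≤ K ∧ 0 ≤ Ca ∧ ∀ kap : ℝ, 0 < kap →
    ∀ ep : ℝ, 0 < ep → ep ≤ 1 / 100 → ∀ e1 : ℝ, 0 < e1 → e1 ≤ 1 / 100 → ∀ δ : ℝ, 0 < δ →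
    ∀ (k : ℕ) (κ CB w : ℝ), 0 < κ → 0 ≤ CB → 0 < w → w ≤ 1 / 10 →
    ∃ ϑ Cst : ℝ, 0 < ϑ ∧ 0 ≤ Cst ∧ ∃ m0 : ℕ, ∀ m ≥ m0,
      ∀ (I : Inp) (P : Par) (r : ℕ) (O : Fin r → Xo) (p n : ℕ) (aX aY cf B1 : ℝ → ℝ),
      DatG ep e1 κ CB ϑ k m I P O p n aX aY cf B1 →
      NUS4.GD m k κ e1 w I.s (2 * Real.log m ^ 2) ((1 - e1) * Tb (Real.log m)) I.η I.η1 I.η I.η1
        (fun t => aX t * cf t) (fun t => aY t * cf t) →
      (r : ℝ) ≤ Real.log m → (∀ i, |ht (O i)| ≤ Real.log m ^ 2) →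
        ∫⁻ x, ENNReal.ofReal (W0 (datO I P O) p n aX aY cf x) ≤
          ENNReal.ofReal ((p.factorial : ℝ) * n.factorial *
            (Cst * (m : ℝ) ^ (3 / 8 + Ca * (ep + e1) + δ) *
              Real.exp (confG ep e1 m I P p n K kap O)))

end NUO
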