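import Pool.Agent.NUO.PotC
import Pool.Agent.NUAct.Two

/-!
# Complex potentials of a configuration

`FO P O s`: sum over the objects of their potentials on species `s`.
-/

set_option autoImplicit false

open Complex Set Filter Topology

namespace NUO

noncomputable section


/-- potential of the configuration on a quantum of species `s` -/
def FO (P : Par) {r : ℕ} (O : Fin r → Xo) (s : Bool) (ζ : ℂ) : ℂ := ∑ i, fO P O i s ζ

/-- its derivative -/
def FO1 (P : Par) {r : ℕ} (O : Fin r → Xo) (s : Bool) (ζ : ℂ) : ℂ := ∑ i, fO1 P O i s ζ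

variable {δ b : ℝ} {P : Par} {r : ℕ} (O : Fin r → Xo)

/-- **exactness** -/
theorem exp_FO (h : PG δ P) (s : Bool) {ζ : ℂ} (hζ : |ζ.im| < δ * NUMF.l) :
    ∏ i, potN P O i s (NUMF.l + I * ζ) = Real.exp (FO P O s ζ).re := by
  unfold FO
  rw [Complex.re_sum, Real.exp_sum]
  exact Finset.prod_congr rfl fun i _ => exp_fO h O i s hζ

theorem vl_eq (η : ℝ → ℝ) (t : ℝ) :
    NUP1.vl (NUP1.l - η t) t = NUMF.l + I * (t + (η t : ℂ) * I) := by
  unfold NUP1.vl
  rw [ll_eq]
  push_cast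
  linear_combination -(η t : ℂ) * Complex.I_sq

/-- **exactness on the curve** (`pA η t`, `dA η t` of `NUO.Glue`) -/
theorem prod_potN (h : PG δ P) (s : Bool) {η : ℝ → ℝ} {t : ℝ} (hη : |η t| < δ * NUMF.l) :
    ∏ i, potN P O i s (NUP1.vl (NUP1.l - η t) t) =
      Real.exp (FO P O s (t + (η t : ℂ) * I)).re := by
  rw [vl_eq]
  exact exp_FO O h s (by simpa using hη)

theorem hasDerivAt_FO (hb0 : 0 < b) (hb : b < δ * NUMF.l) (h : PG δ P) (s : Bool) {z : ℂ}
    (hz : |z.im| < b) : HasDerivAt (FO P O s) (FO1 P O s z) z :=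
  HasDerivAt.fun_sum fun i _ => (potB_fO hb0 hb h O i s).hd z hz

theorem an_FO (hb0 : 0 < b) (hb : b < δ * NUMF.l) (h : PG δ P) (s : Bool) :
    AnalyticOnNhd ℂ (FO P O s) {z : ℂ | |z.im| < b} := by
  refine DifferentiableOn.analyticOnNhd (fun z hz => ?_) (PotB.isOpen_strip b)
  exact (hasDerivAt_FO O hb0 hb h s hz).differentiableAt.differentiableWithinAt

theorem hasDerivAt_iter_FO (hb0 : 0 < b) (hb : b < δ * NUMF.l) (h : PG δ P) (s : Bool) (k : ℕ) {z : ℂ}
    (hz : |z.im| < b) :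
    HasDerivAt (iteratedDeriv k (FO P O s)) (iteratedDeriv (k + 1) (FO P O s) z) z := by
  have h1 : AnalyticAt ℂ (iteratedDeriv k (FO P O s)) z := by
    rw [iteratedDeriv_eq_iterate]
    exact (an_FO O hb0 hb h s z hz).iterated_deriv k
  rw [iteratedDeriv_succ]
  exact h1.differentiableAt.hasDerivAt

theorem iter_FO_eq (hb0 : 0 < b) (hb : b < δ * NUMF.l) (h : PG δ P) (s : Bool) (k : ℕ) {z : ℂ}
    (hz : |z.im| < b) : iteratedDeriv k (FO P O s) z = ∑ i, iteratedDeriv k (fO P O i s) z := by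
  have h0 : FO P O s = fun z => ∑ i ∈ Finset.univ, fO P O i s z := rfl
  rw [h0, iteratedDeriv_fun_sum]
  intro i _
  exact ((potB_fO hb0 hb h O i s).an z hz).contDiffAt

/-- constants of the Cauchy bounds -/
def KI (δ b ρ : ℝ) (n : ℕ) : ℝ := n.factorial * ((KO δ b + 2 * 4) * Real.exp 2) / ρ ^ n

lemma abs_qO_le (s : Bool) (x : Xo) : |qO s x| ≤ 4 := by
  unfold qO chg
  rcases hk : kd x with _ | _ | _ | _ | _ <;> rcases hsp : sp x with _ | _ <;> cases s <;>
    simp <;> norm_num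

/-- **derivatives of order `≥ 1`** -/
theorem norm_iter_FO (hb0 : 0 < b) (hb : b < δ * NUMF.l) (h : PG δ P) (s : Bool) {b' ρ : ℝ} (hρ : 0 < ρ)
    (hρ1 : ρ ≤ 1) (hbρ : b' + ρ < b) (n : ℕ) {z : ℂ} (hz : |z.im| ≤ b') :
    ‖iteratedDeriv (n + 1) (FO P O s) z‖ ≤ KI δ b ρ n * r := by
  rw [iter_FO_eq O hb0 hb h s _ (by linarith)]
  refine (norm_sum_le _ _).trans ?_
  have h1 : ∀ i : Fin r, ‖iteratedDeriv (n + 1) (fO P O i s) z‖ ≤ KI δ b ρ n := by
    intro i
    refine ((potB_fO hb0 hb h O i s).iter_bound' hρ hρ1 hbρ n hz).trans ?_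
    unfold KI
    have := abs_qO_le s (O i)
    gcongr
  refine (Finset.sum_le_sum fun i _ => h1 i).trans (le_of_eq ?_)
  rw [Finset.sum_const, Finset.card_univ, Fintype.card_fin, nsmul_eq_mul]
  ring

/-- **derivatives of order `≥ 2`** decay -/
theorem norm_iter2_FO (hb0 : 0 < b) (hb : b < δ * NUMF.l) (h : PG δ P) (s : Bool) {b' ρ : ℝ} (hρ : 0 < ρ)
    (hρ1 : ρ ≤ 1) (hbρ : b' + ρ < b) (n : ℕ) {z : ℂ} (hz : |z.im| ≤ b') :
    ‖iteratedDeriv (n + 2) (FO P O s) z‖ ≤
      KI δ b ρ (n + 1) * ∑ i, Real.exp (-2 * |z.re - ht (O i)|) := by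
  rw [iter_FO_eq O hb0 hb h s _ (by linarith), Finset.mul_sum]
  refine (norm_sum_le _ _).trans (Finset.sum_le_sum fun i _ => ?_)
  refine ((potB_fO hb0 hb h O i s).iter_bound hρ hρ1 hbρ n hz).trans ?_
  unfold KI
  have := abs_qO_le s (O i)
  gcongr

theorem norm_FO (hb0 : 0 < b) (hb : b < δ * NUMF.l) (h : PG δ P) (s : Bool) {z : ℂ}
    (hz : |z.im| < b) : ‖FO P O s z‖ ≤ KO δ b * ∑ i, (1 + |z.re - ht (O i)|) := by
  unfold FO
  rw [Finset.mul_sum]
  exact (norm_sum_le _ _).trans (Finset.sum_le_sum fun i _ => (potB_fO hb0 hb h O i s).val z hz)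

/-- class of `NUAct` -/
theorem ext_FO (hb0 : 0 < b) (hb : b < δ * NUMF.l) (h : PG δ P) (s : Bool) {b' : ℝ} (hb' : b' < b) :
    NUAct.Ext b' (FO P O s) := by
  have hK : 0 ≤ KO δ b * r := by
    rcases Nat.eq_zero_or_pos r with hr | hr
    · subst hr
      simp
    · exact mul_nonneg (potB_fO hb0 hb h O ⟨0, hr⟩ s).κ0 (Nat.cast_nonneg _)
  refine NUAct.Ext_of_lin (K := KO δ b * ∑ i, (1 + |ht (O i)|)) (fun z hz =>
    (hasDerivAt_FO O hb0 hb h s (by linarith)).differentiableAt) fun z hz => ?_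
  refine (norm_FO O hb0 hb h s (by linarith)).trans ?_
  rw [mul_assoc]
  rcases Nat.eq_zero_or_pos r with hr | hr
  · subst hr
    simp
  · have hk := (potB_fO hb0 hb h O ⟨0, hr⟩ s).κ0
    refine mul_le_mul_of_nonneg_left ?_ hk
    rw [Finset.sum_mul]
    refine Finset.sum_le_sum fun i _ => ?_
    have h1 := abs_sub z.re (ht (O i))
    have h2 := abs_nonneg z.re
    have h3 := abs_nonneg (ht (O i))
    nlinarith

/-! ### both species -/

/-- the neutral sum -/
theorem potB_neutral (hb0 : 0 < b) (hb : b < δ * NUMF.l) (h : PG δ P) (i : Fin r) :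
    PotB b (2 * KO δ b) 0 (ht (O i)) (fun z => fO P O i true z + fO P O i false z)
      (fun z => fO1 P O i true z + fO1 P O i false z) := by
  have h1 := (potB_fO hb0 hb h O i true).add (potB_fO hb0 hb h O i false)
  have e : qO true (O i) + qO false (O i) = 0 := by
    unfold qO
    simp only [Bool.not_true, Bool.not_false]
    ring
  rw [e] at h1
  exact h1.mono (by linarith)

theorem FO_sum (z : ℂ) : FO P O true z + FO P O false z =
    ∑ i, (fO P O i true z + fO P O i false z) := by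
  unfold FO
  rw [Finset.sum_add_distrib]

/-- **both species together**: all derivatives of order `≥ 1` decay -/
theorem norm_iter_sum (hb0 : 0 < b) (hb : b < δ * NUMF.l) (h : PG δ P) {b' ρ : ℝ} (hρ : 0 < ρ)
    (hρ1 : ρ ≤ 1) (hbρ : b' + ρ < b) (n : ℕ) {z : ℂ} (hz : |z.im| ≤ b') :
    ‖iteratedDeriv (n + 1) (fun z => FO P O true z + FO P O false z) z‖ ≤
      n.factorial * (2 * KO δ b * Real.exp 2) / ρ ^ n * ∑ i, Real.exp (-2 * |z.re - ht (O i)|) := by
  have h0 : (fun z => FO P O true z + FO P O false z) =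
      fun z => ∑ i ∈ Finset.univ, (fO P O i true z + fO P O i false z) := funext fun z => FO_sum O z
  rw [h0, iteratedDeriv_fun_sum fun i _ => ((potB_neutral O hb0 hb h i).an z
    (by simp only [mem_ofPred_eq]; linarith)).contDiffAt, Finset.mul_sum]
  exact (norm_sum_le _ _).trans (Finset.sum_le_sum fun i _ =>
    (potB_neutral O hb0 hb h i).iter_bound_neutral hρ hρ1 hbρ n hz)

end

end NUO
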