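import Pool.Agent.NUO.Act

/-!
# The sum over all contents ([3.7] of proof/NU_ABS_3)

`sum_core`: form-independent (kinds or words); `gas_sum_of`: contents of kinds with the activities
`act`.
-/

open MeasureTheory Finset Filter

noncomputable section

namespace NUO

/-- number of windows of the edge zone -/
lemma card_WZ {D L : ℝ} {r : ℕ} (h : Tb L - Real.log L ≤ Tb L + D * Real.log (r + L)) :
    ((WZ D L r).card : ℝ) ≤ 2 * (Real.log L + D * Real.log (r + L)) + 10 := by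
  classical
  set a : ℝ := Tb L - Real.log L - 2 with ha
  set y : ℝ := Tb L + D * Real.log (r + L) with hy
  set N : ℤ := ⌈y⌉ + 1 with hN
  have hsub : WZ D L r ⊆ Finset.Icc ⌈a⌉ N ∪ Finset.Icc (-N) (-⌈a⌉) := by
    intro w hw
    unfold WZ at hw
    rw [Finset.mem_filter, Finset.mem_Icc] at hw
    obtain ⟨⟨h1, h2⟩, h3⟩ := hw
    rw [Finset.mem_union, Finset.mem_Icc, Finset.mem_Icc]
    rcases le_abs.mp h3 with h4 | h4
    · left; exact ⟨Int.ceil_le.mpr h4, h2⟩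
    · right
      refine ⟨h1, ?_⟩
      have : ⌈a⌉ ≤ -w := Int.ceil_le.mpr (by push_cast; exact h4)
      omega
  have hc := (Finset.card_le_card hsub).trans (Finset.card_union_le _ _)
  rw [Int.card_Icc, Int.card_Icc] at hc
  have e1 : (y : ℝ) ≤ ⌈y⌉ := Int.le_ceil y
  have e2 : (⌈y⌉ : ℝ) < y + 1 := Int.ceil_lt_add_one y
  have e3 : a ≤ ⌈a⌉ := Int.le_ceil a
  have e4 : (⌈a⌉ : ℝ) < a + 1 := Int.ceil_lt_add_one a
  have e5 : (⌈a⌉ : ℝ) ≤ N := by rw [hN]; push_cast; linarith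
  have e6 : ⌈a⌉ ≤ N := by exact_mod_cast e5
  have e7 : (((N + 1 - ⌈a⌉).toNat : ℕ) : ℝ) = (N : ℝ) + 1 - ⌈a⌉ := by
    have : (((N + 1 - ⌈a⌉).toNat : ℤ) : ℝ) = ((N + 1 - ⌈a⌉ : ℤ) : ℝ) := by
      rw [Int.toNat_of_nonneg (by omega)]
    push_cast at this
    exact_mod_cast this
  have e8 : (-⌈a⌉ + 1 - -N : ℤ) = N + 1 - ⌈a⌉ := by ring
  rw [e8] at hc
  have hc' : ((WZ D L r).card : ℝ) ≤ ((N : ℝ) + 1 - ⌈a⌉) + ((N : ℝ) + 1 - ⌈a⌉) := by
    rw [← e7]; exact_mod_cast hc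
  have e9 : (N : ℝ) = ⌈y⌉ + 1 := by rw [hN]; push_cast; ring
  rw [e9] at hc'
  calc ((WZ D L r).card : ℝ) ≤ _ := hc'
    _ ≤ 2 * (y + 1 + 1 + 1 - a) := by linarith
    _ = _ := by rw [ha, hy]; ring

/-- the cost of the tilt -/
def cost (D k' c1 L : ℝ) (r : ℕ) : ℝ := (∑ w ∈ WZ D L r, lamZ k' L r w ^ 2) / (4 * c1)

lemma sum_lamZ (D k' L : ℝ) (r : ℕ) :
    ∑ w ∈ WZ D L r, lamZ k' L r w ^ 2 = (WZ D L r).card * (k' * Real.log (r + L)) ^ 2 := by
  unfold lamZ
  rw [Finset.sum_const, nsmul_eq_mul]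

/-- basic facts for large `L` -/
lemma large_L : ∀ᶠ L : ℝ in atTop, 8 ≤ L ∧ 2 ≤ Real.log L := by
  filter_upwards [eventually_ge_atTop (8 : ℝ),
    Real.tendsto_log_atTop.eventually_ge_atTop 2] with L h1 h2
  exact ⟨h1, h2⟩

/-- (A2) the cost of the tilt for `r ≤ L^2` is `o(L)` -/
theorem cost_small {D k' c1 δ : ℝ} (hD : 0 ≤ D) (hc1 : 0 < c1) (hδ : 0 < δ) :
    ∃ L0 : ℝ, ∀ L ≥ L0, ∀ r : ℕ, (r : ℝ) ≤ L ^ 2 → cost D k' c1 L r ≤ δ * L := by
  -- `log L ^ 3 ≤ η L`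
  have o1 : ∀ η : ℝ, 0 < η → ∀ᶠ L : ℝ in atTop, Real.log L ^ 3 ≤ η * L := by
    intro η hη
    have h1 : (fun x : ℝ => Real.log x ^ (3 : ℝ)) =o[atTop] fun x => x ^ (1 : ℝ) :=
      isLittleO_log_rpow_rpow_atTop 3 (by norm_num)
    filter_upwards [h1.bound hη, eventually_ge_atTop 1] with x hx hx1
    rw [Real.rpow_one, Real.norm_eq_abs, Real.norm_eq_abs, abs_of_nonneg (by linarith : 0 ≤ x)]
      at hx
    have := (le_abs_self _).trans hx
    exact_mod_cast this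
  set B : ℝ := 9 * k' ^ 2 / (4 * c1) with hB
  have hB0 : 0 ≤ B := by positivity
  set B2 : ℝ := B * (2 + 6 * D + 10) with hB2
  have hB20 : 0 ≤ B2 := by positivity
  have o3 := o1 (δ / (B2 + 1)) (by positivity)
  obtain ⟨L0, hL0⟩ := eventually_atTop.mp (large_L.and o3)
  refine ⟨L0, fun L hL r hr => ?_⟩
  obtain ⟨⟨g1, g2⟩, g6⟩ := hL0 L hL
  have hLpos : 0 < L := by linarith
  have hr0 : (0 : ℝ) ≤ r := Nat.cast_nonneg r
  have hlog0 : 0 ≤ Real.log (r + L) := Real.log_nonneg (by linarith)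
  have hlog3 : Real.log (r + L) ≤ 3 * Real.log L := by
    have h1 : (r : ℝ) + L ≤ L ^ 3 := by
      have : L ^ 2 * 8 ≤ L ^ 2 * L := mul_le_mul_of_nonneg_left g1 (by positivity)
      nlinarith
    calc Real.log (r + L) ≤ Real.log (L ^ 3) := Real.log_le_log (by linarith) h1
      _ = 3 * Real.log L := by rw [Real.log_pow]; norm_num
  have hcard := card_WZ (D := D) (L := L) (r := r)
    (by have := mul_nonneg hD hlog0; linarith)
  unfold cost
  rw [sum_lamZ]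
  have hcard2 : ((WZ D L r).card : ℝ) ≤ (2 + 6 * D) * Real.log L + 10 := by
    have : D * Real.log (r + L) ≤ D * (3 * Real.log L) := mul_le_mul_of_nonneg_left hlog3 hD
    linarith
  have hsq : (k' * Real.log (r + L)) ^ 2 ≤ 9 * k' ^ 2 * Real.log L ^ 2 := by
    have : Real.log (r + L) ^ 2 ≤ (3 * Real.log L) ^ 2 := pow_le_pow_left₀ hlog0 hlog3 2
    calc (k' * Real.log (r + L)) ^ 2 = k' ^ 2 * Real.log (r + L) ^ 2 := by ring
      _ ≤ k' ^ 2 * (3 * Real.log L) ^ 2 := mul_le_mul_of_nonneg_left this (by positivity)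
      _ = _ := by ring
  have hlL : 0 < Real.log L := by linarith
  calc (WZ D L r).card * (k' * Real.log (r + L)) ^ 2 / (4 * c1)
      ≤ ((2 + 6 * D) * Real.log L + 10) * (9 * k' ^ 2 * Real.log L ^ 2) / (4 * c1) := by
        refine div_le_div_of_nonneg_right ?_ (by positivity)
        exact mul_le_mul hcard2 hsq (by positivity) (by positivity)
    _ = B * (((2 + 6 * D) * Real.log L + 10) * Real.log L ^ 2) := by rw [hB]; field_simp
    _ ≤ B * ((2 + 6 * D + 10) * Real.log L ^ 3) := by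
        refine mul_le_mul_of_nonneg_left ?_ hB0
        have : 0 ≤ (Real.log L - 1) * Real.log L ^ 2 := mul_nonneg (by linarith) (by positivity)
        nlinarith
    _ = B2 * Real.log L ^ 3 := by rw [hB2]; ring
    _ ≤ (B2 + 1) * Real.log L ^ 3 := by
        have : 0 ≤ Real.log L ^ 3 := by positivity
        linarith
    _ ≤ (B2 + 1) * (δ / (B2 + 1) * L) := mul_le_mul_of_nonneg_left g6 (by positivity)
    _ = δ * L := by field_simp

/-- (A3) the cost of the tilt for `L^2 ≤ r ≤ exp (2 L)` -/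
theorem cost_large {D k' c1 : ℝ} (hD : 0 ≤ D) (hc1 : 0 < c1) :
    ∃ C3 L0 : ℝ, 0 ≤ C3 ∧ ∀ L ≥ L0, ∀ r : ℕ, L ^ 2 ≤ (r : ℝ) → (r : ℝ) ≤ Real.exp (2 * L) →
      cost D k' c1 L r ≤ C3 * Real.log r ^ 2 * L := by
  set B : ℝ := 4 * k' ^ 2 / (4 * c1) with hB
  have hB0 : 0 ≤ B := by positivity
  obtain ⟨L0, hL0⟩ := eventually_atTop.mp large_L
  refine ⟨B * (12 + 8 * D), L0, by positivity, fun L hL r hr1 hr2 => ?_⟩
  obtain ⟨g1, g2⟩ := hL0 L hL
  have hLpos : 0 < L := by linarith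
  have hr64 : (64 : ℝ) ≤ r := by nlinarith
  have hrpos : (0 : ℝ) < r := by linarith
  have hlogr : 0 ≤ Real.log r := Real.log_nonneg (by linarith)
  have hlogr2 : Real.log r ≤ 2 * L := by
    rw [Real.log_le_iff_le_exp hrpos]; exact hr2
  have hlog0 : 0 ≤ Real.log (r + L) := Real.log_nonneg (by linarith)
  have hlog2 : Real.log (r + L) ≤ 2 * Real.log r := by
    have h1 : (r : ℝ) + L ≤ (r : ℝ) ^ 2 := by nlinarith
    calc Real.log (r + L) ≤ Real.log ((r : ℝ) ^ 2) := Real.log_le_log (by linarith) h1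
      _ = 2 * Real.log r := by rw [Real.log_pow]; norm_num
  have hlogL : Real.log L ≤ L := (Real.log_le_sub_one_of_pos hLpos).trans (by linarith)
  have hcard := card_WZ (D := D) (L := L) (r := r)
    (by have := mul_nonneg hD hlog0; linarith)
  unfold cost
  rw [sum_lamZ]
  have hcard2 : ((WZ D L r).card : ℝ) ≤ (12 + 8 * D) * L := by
    have h1 : D * Real.log (r + L) ≤ D * (2 * (2 * L)) :=
      mul_le_mul_of_nonneg_left (hlog2.trans (by linarith)) hD
    linarith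
  have hsq : (k' * Real.log (r + L)) ^ 2 ≤ 4 * k' ^ 2 * Real.log r ^ 2 := by
    have : Real.log (r + L) ^ 2 ≤ (2 * Real.log r) ^ 2 := pow_le_pow_left₀ hlog0 hlog2 2
    calc (k' * Real.log (r + L)) ^ 2 = k' ^ 2 * Real.log (r + L) ^ 2 := by ring
      _ ≤ k' ^ 2 * (2 * Real.log r) ^ 2 := mul_le_mul_of_nonneg_left this (by positivity)
      _ = _ := by ring
  calc (WZ D L r).card * (k' * Real.log (r + L)) ^ 2 / (4 * c1)
      ≤ ((12 + 8 * D) * L) * (4 * k' ^ 2 * Real.log r ^ 2) / (4 * c1) := by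
        refine div_le_div_of_nonneg_right ?_ (by positivity)
        exact mul_le_mul hcard2 hsq (by positivity) (by positivity)
    _ = B * (12 + 8 * D) * Real.log r ^ 2 * L := by rw [hB]; ring

/-- **the sum over the total number of objects**, form-independent -/
theorem sum_core {c' δ : ℝ} (hc' : 0 ≤ c') (hδ : 0 < δ) :
    ∃ a0 : ℝ, 0 < a0 ∧ ∀ C3 : ℝ, 0 ≤ C3 → ∃ L0 : ℝ, ∀ L ≥ L0, ∀ M : ℝ, 0 ≤ M → ∀ R : ℕ,
      ∀ A cst S : ℕ → ℝ, (∀ r < R, 0 ≤ A r) → (∀ r < R, A r ≤ a0 * L) →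
      (∀ r < R, (r : ℝ) ≤ L ^ 2 → cst r ≤ δ / 2 * L) →
      (∀ r < R, L ^ 2 ≤ (r : ℝ) → cst r ≤ C3 * Real.log r ^ 2 * L) →
      (∀ r < R, S r ≤ (if (r : ℝ) ≤ L then M else M * Real.exp (c' * L)) *
        Real.exp (cst r) * (A r ^ r / (r.factorial : ℝ))) →
      ∑ r ∈ range R, S r ≤ M * Real.exp (δ * L) := by
  set a : ℝ := min (δ / 8) (Real.exp (-(2 * (c' + δ + 1))) / (2 * Real.exp 1)) with ha
  have hapos : 0 < a := lt_min (by linarith) (by positivity)
  have ha1 : a ≤ δ / 8 := min_le_left _ _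
  have ha2 : a * (2 * Real.exp 1) ≤ Real.exp (-(2 * (c' + δ + 1))) := by
    rw [← le_div_iff₀ (by positivity)]; exact min_le_right _ _
  refine ⟨a, hapos, fun C3 hC3 => ?_⟩
  obtain ⟨r2, hr2⟩ := huge C3 a c' hC3 hapos hc'
  obtain ⟨LD, hLD⟩ := eventually_atTop.mp large_L
  refine ⟨max LD (max (r2 + 1) (16 / δ)),
    fun L hL M hM R A cst S hA0 hA hB hCc one => ?_⟩
  have l4 : LD ≤ L := (le_max_left _ _).trans hL
  have l6 : (r2 : ℝ) + 1 ≤ L := ((le_max_left _ _).trans (le_max_right _ _)).trans hL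
  have l7 : 16 / δ ≤ L := ((le_max_right _ _).trans (le_max_right _ _)).trans hL
  obtain ⟨g1, g2⟩ := hLD L l4
  have hLpos : 0 < L := by linarith
  set r0 : ℕ := ⌊L⌋₊ with hr0
  set r1 : ℕ := ⌊L ^ 2⌋₊ with hr1
  have hr0L : (r0 : ℝ) ≤ L := Nat.floor_le hLpos.le
  have hr0L' : L / 2 ≤ r0 := by
    have := Nat.lt_floor_add_one L
    rw [← hr0] at this
    linarith
  set θ : ℝ := 2 * Real.exp 1 * a with hθdef
  have hθ0 : 0 ≤ θ := by positivity
  have hθle : θ ≤ Real.exp (-(2 * (c' + δ + 1))) := by rw [hθdef]; linarith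
  have hθ1 : θ ≤ 1 / 2 := by
    refine hθle.trans ?_
    have h1 : Real.exp (-(2 * (c' + δ + 1))) ≤ Real.exp (-1) :=
      Real.exp_le_exp.mpr (by linarith)
    have h2 : Real.exp (-1) ≤ 1 / 2 := by
      rw [Real.exp_neg, inv_le_comm₀ (Real.exp_pos _) (by norm_num)]
      have := Real.add_one_le_exp (1 : ℝ)
      linarith
    linarith
  set AA : ℝ := a * L with hAAdef
  have hAA0 : 0 ≤ AA := by positivity
  have hAθ : AA * Real.exp 1 ≤ θ * r0 := by
    calc AA * Real.exp 1 = 2 * Real.exp 1 * a * (L / 2) := by rw [hAAdef]; ring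
      _ ≤ θ * r0 := mul_le_mul_of_nonneg_left hr0L' hθ0
  have hpow : ∀ r < R, A r ^ r / (r.factorial : ℝ) ≤ AA ^ r / (r.factorial : ℝ) := by
    intro r hr
    exact div_le_div_of_nonneg_right (pow_le_pow_left₀ (hA0 r hr) (hA r hr) r) (by positivity)
  set S' : ℕ → ℝ := fun r => if r < R then S r else 0 with hS'
  have hSsum : ∑ r ∈ range R, S r = ∑ r ∈ range R, S' r := by
    refine Finset.sum_congr rfl fun r hr => ?_
    rw [hS']; simp only [if_pos (Finset.mem_range.mp hr)]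
  have hcase : ∀ (r : ℕ) (y : ℝ), 0 ≤ y → (r < R → S r ≤ y) → S' r ≤ y := by
    intro r y hy h
    rw [hS']
    simp only
    split_ifs with h1
    · exact h h1
    · exact hy
  have H1 : ∀ r ≤ r0, S' r ≤ M * Real.exp (δ / 2 * L) * (AA ^ r / (r.factorial : ℝ)) := by
    intro r hr
    have hrL : (r : ℝ) ≤ L := le_trans (by exact_mod_cast hr) hr0L
    refine hcase r _ (by positivity) fun hrR => (one r hrR).trans ?_
    rw [if_pos hrL]
    have h2 := hB r hrR (by nlinarith)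
    have h3 := hpow r hrR
    have h4 := hA0 r hrR
    have h5 := Real.exp_le_exp.mpr h2
    exact mul_le_mul (mul_le_mul_of_nonneg_left h5 hM) h3 (by positivity) (by positivity)
  have H2 : ∀ r, r0 < r → r ≤ r1 →
      S' r ≤ M * Real.exp (c' * L + δ / 2 * L) * (AA ^ r / (r.factorial : ℝ)) := by
    intro r hr hr'
    have hrL : (r : ℝ) ≤ L ^ 2 := le_trans (by exact_mod_cast hr') (Nat.floor_le (by positivity))
    refine hcase r _ (by positivity) fun hrR => (one r hrR).trans ?_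
    have h2 := hB r hrR hrL
    have h1 : ¬ (r : ℝ) ≤ L := by
      rw [not_le]; exact (Nat.floor_lt hLpos.le).mp hr
    have h3 := hpow r hrR
    have h4 := hA0 r hrR
    have h5 := Real.exp_le_exp.mpr h2
    rw [if_neg h1, Real.exp_add, ← mul_assoc]
    exact mul_le_mul (mul_le_mul_of_nonneg_left h5 (by positivity)) h3 (by positivity)
      (by positivity)
  have H3 : ∀ r, r0 < r → r1 < r → S' r ≤ M * (1 / 2) ^ r := by
    intro r hr hr'
    have hrL : L ^ 2 ≤ (r : ℝ) := ((Nat.floor_lt (by positivity)).mp hr').le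
    refine hcase r _ (by positivity) fun hrR => (one r hrR).trans ?_
    have h1 : ¬ (r : ℝ) ≤ L := by
      rw [not_le]; exact (Nat.floor_lt hLpos.le).mp hr
    have h2 := hCc r hrR hrL
    have h3 : r2 ≤ r := by
      have : (r2 : ℝ) ≤ r := by nlinarith
      exact_mod_cast this
    have h4 := hr2 r h3 L (by linarith) hrL AA hAA0 (le_of_eq hAAdef)
    have h5 := Real.exp_le_exp.mpr h2
    have h6 := hpow r hrR
    have h7 := hA0 r hrR
    rw [if_neg h1]
    calc M * Real.exp (c' * L) * Real.exp (cst r) * (A r ^ r / (r.factorial : ℝ))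
        ≤ M * Real.exp (c' * L) * Real.exp (C3 * Real.log r ^ 2 * L) *
          (AA ^ r / (r.factorial : ℝ)) :=
          mul_le_mul (mul_le_mul_of_nonneg_left h5 (by positivity)) h6 (by positivity)
            (by positivity)
      _ = M * (Real.exp (C3 * Real.log r ^ 2 * L + c' * L) * (AA ^ r / (r.factorial : ℝ))) := by
          rw [Real.exp_add]; ring
      _ ≤ _ := mul_le_mul_of_nonneg_left h4 hM
  have hreg := regimes S' r0 r1 R hM (Real.exp_pos (δ / 2 * L)).le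
    (Real.exp_pos (c' * L + δ / 2 * L)).le hAA0 hθ0 hθ1 hAθ H1 H2 H3
  rw [hSsum]
  refine hreg.trans (mul_le_mul_of_nonneg_left ?_ hM)
  have t1 : Real.exp (δ / 2 * L) * Real.exp AA ≤ Real.exp (5 * δ / 8 * L) := by
    rw [← Real.exp_add]
    refine Real.exp_le_exp.mpr ?_
    have : AA ≤ δ / 8 * L := by rw [hAAdef]; gcongr
    linarith
  have t2 : Real.exp (c' * L + δ / 2 * L) * (2 * θ ^ r0) ≤ 2 := by
    have h1 : θ ^ r0 ≤ Real.exp (-((c' + δ + 1) * L)) := by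
      calc θ ^ r0 ≤ Real.exp (-(2 * (c' + δ + 1))) ^ r0 := pow_le_pow_left₀ hθ0 hθle r0
        _ = Real.exp (r0 * (-(2 * (c' + δ + 1)))) := by rw [Real.exp_nat_mul]
        _ ≤ Real.exp (-((c' + δ + 1) * L)) := by
            refine Real.exp_le_exp.mpr ?_
            nlinarith
    calc Real.exp (c' * L + δ / 2 * L) * (2 * θ ^ r0)
        ≤ Real.exp (c' * L + δ / 2 * L) * (2 * Real.exp (-((c' + δ + 1) * L))) := by gcongr
      _ = 2 * Real.exp (c' * L + δ / 2 * L + -((c' + δ + 1) * L)) := by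
          rw [Real.exp_add (c' * L + δ / 2 * L)]; ring
      _ ≤ 2 * 1 := by
          refine mul_le_mul_of_nonneg_left ?_ (by norm_num)
          refine Real.exp_le_one_iff.mpr ?_
          nlinarith
      _ = 2 := by ring
  have t3 : Real.exp (5 * δ / 8 * L) + 4 ≤ Real.exp (δ * L) := by
    have h1 : 16 ≤ δ * L := by rw [div_le_iff₀ hδ] at l7; linarith
    have h2 : δ * L = 5 * δ / 8 * L + 3 * δ / 8 * L := by ring
    have h3 : 7 ≤ Real.exp (3 * δ / 8 * L) := by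
      have := Real.add_one_le_exp (3 * δ / 8 * L)
      linarith
    have h4 : 1 ≤ Real.exp (5 * δ / 8 * L) := Real.one_le_exp (by positivity)
    rw [h2, Real.exp_add]
    nlinarith
  linarith

/-- the activities: what `sum_core` needs, for `N` times the activity `act` -/
theorem act_sum {C C' c b c1 : ℝ} {k : ℕ} (hC : 0 < C) (hC' : 0 ≤ C') (hc1 : 0 < c1)
    {a0 δ : ℝ} (ha0 : 0 < a0) (hδ : 0 < δ) (NK : ℕ) (hAct : ActInt C C' c b k) :
    ∃ D k' C3 L0 : ℝ, 0 < D ∧ 0 ≤ C3 ∧ ∀ L ≥ L0, ∀ ep : ℝ, 0 ≤ ep → ep ≤ 1 / 4 →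
      ∀ e1 : ℝ, 0 < e1 → e1 ≤ 1 / 4 → ∀ J : ℝ, 0 ≤ J →
      NK * C * (Real.exp (-(2 * Real.pi * J)) + 3 * e1 + 3 * ep) ≤ a0 / 2 →
      ∀ r : ℕ, (r : ℝ) ≤ Real.exp (2 * L) →
        Integrable (fun t => act C C' c b k L ep e1 J r t *
          Real.exp (-tilt (WZ D L r) (lamZ k' L r) t)) ∧
        0 ≤ ∫ t, act C C' c b k L ep e1 J r t * Real.exp (-tilt (WZ D L r) (lamZ k' L r) t) ∧
        NK * ∫ t, act C C' c b k L ep e1 J r t * Real.exp (-tilt (WZ D L r) (lamZ k' L r) t) ≤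
          a0 * L ∧
        ((r : ℝ) ≤ L ^ 2 → cost D k' c1 L r ≤ δ * L) ∧
        (L ^ 2 ≤ (r : ℝ) → cost D k' c1 L r ≤ C3 * Real.log r ^ 2 * L) := by
  obtain ⟨D, k', B, LA, hD, hk', hB0, hA⟩ := hAct
  obtain ⟨LB, hB⟩ := cost_small (k' := k') hD.le hc1 hδ
  obtain ⟨C3, LC, hC3, hCc⟩ := cost_large (k' := k') hD.le hc1
  refine ⟨D, k', C3, max (max LA LB) (max LC (max 1 (2 * NK * B / a0))), hD, hC3,
    fun L hL ep hep hep' e1 he1 he1' J hJ hsm r hr => ?_⟩
  have l1 : LA ≤ L := ((le_max_left _ _).trans (le_max_left _ _)).trans hL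
  have l2 : LB ≤ L := ((le_max_right _ _).trans (le_max_left _ _)).trans hL
  have l3 : LC ≤ L := ((le_max_left _ _).trans (le_max_right _ _)).trans hL
  have l4 : 1 ≤ L := ((le_max_left _ _).trans
    ((le_max_right _ _).trans (le_max_right _ _))).trans hL
  have l5 : 2 * NK * B / a0 ≤ L := ((le_max_right _ _).trans
    ((le_max_right _ _).trans (le_max_right _ _))).trans hL
  obtain ⟨hi, hb⟩ := hA L l1 ep hep hep' e1 he1 he1' J hJ r hr
  have hLpos : 0 ≤ L := by linarith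
  refine ⟨hi, integral_nonneg fun t => mul_nonneg (act_nonneg hC.le hC' hLpos)
    (Real.exp_pos _).le, ?_, fun h => hB L l2 r h, fun h => hCc L l3 r h hr⟩
  calc NK * ∫ t, act C C' c b k L ep e1 J r t * Real.exp (-tilt (WZ D L r) (lamZ k' L r) t)
      ≤ NK * (C * (Real.exp (-(2 * Real.pi * J)) + 3 * e1 + 3 * ep) * L + B) :=
        mul_le_mul_of_nonneg_left hb (Nat.cast_nonneg _)
    _ = NK * C * (Real.exp (-(2 * Real.pi * J)) + 3 * e1 + 3 * ep) * L + NK * B := by ring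
    _ ≤ a0 / 2 * L + a0 / 2 * L := by
        have h1 : NK * B ≤ a0 / 2 * L := by
          rw [div_le_iff₀ ha0] at l5
          linarith
        exact add_le_add (mul_le_mul_of_nonneg_right hsm hLpos) h1
    _ = a0 * L := by ring

/-- **[3.7]** the sum over all contents is at most `M exp (δ L)`.  Order of the parameters:
`a0` depends only on `C, c', δ, NK`; then `ep, e1, J` with `... ≤ a0`; then `C'` (of the cutoff
`ep`), and `L0`. -/
theorem gas_sum_of {C c b c1 c' : ℝ} {k : ℕ} (hC : 0 < C) (hc1 : 0 < c1) (hc' : 0 ≤ c')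
    (NK : ℕ) {δ : ℝ} (hδ : 0 < δ) :
    ∃ a0 : ℝ, 0 < a0 ∧ ∀ C' : ℝ, 0 ≤ C' → ActInt C C' c b k → ∃ D L0 : ℝ, 0 < D ∧
      ∀ L ≥ L0, ∀ ep : ℝ, 0 ≤ ep → ep ≤ 1 / 4 →
      ∀ e1 : ℝ, 0 < e1 → e1 ≤ 1 / 4 → ∀ J : ℝ, 0 ≤ J →
      Real.exp (-(2 * Real.pi * J)) + 3 * e1 + 3 * ep ≤ a0 →
      ∀ (K : Type) [Fintype K] [DecidableEq K], Fintype.card K ≤ NK → ∀ M : ℝ, 0 ≤ M →
      ∀ R : ℕ, (R : ℝ) ≤ Real.exp (2 * L) →
      ∀ G : (n : K → ℕ) → ((i : Σ κ : K, Fin (n κ)) → ℝ) → ℝ, (∀ n x, 0 ≤ G n x) →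
      (∀ r < R, ∀ n ∈ piAntidiag (univ : Finset K) r, ∀ x, G n x ≤
        (if (r : ℝ) ≤ L then M else M * Real.exp (c' * L)) *
          (∏ i, act C C' c b k L ep e1 J r (x i)) *
          Real.exp (-(c1 * ∑ w ∈ WZ D L r, (cnt x w : ℝ) ^ 2))) →
      ∑ r ∈ range R, ∑ n ∈ piAntidiag (univ : Finset K) r,
        (∏ κ, ((n κ).factorial : ℝ)⁻¹) * ∫ x, G n x ≤ M * Real.exp (δ * L) := by
  obtain ⟨a, ha, hcore⟩ := sum_core hc' hδ
  refine ⟨a / 2 / ((NK + 1) * C), by positivity, fun C' hC' hAct => ?_⟩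
  obtain ⟨D, k', C3, LA, hD, hC3, hA⟩ := act_sum hC hC' hc1 ha
    (show 0 < δ / 2 by linarith) NK hAct
  obtain ⟨LS, hS⟩ := hcore C3 hC3
  refine ⟨D, max (max LA LS) 0, hD, fun L hL ep hep hep' e1 he1 he1' J hJ hsm K _ _ hK M hM R hR
    G hG0 hG => ?_⟩
  have l1 : LA ≤ L := ((le_max_left _ _).trans (le_max_left _ _)).trans hL
  have l2 : LS ≤ L := ((le_max_right _ _).trans (le_max_left _ _)).trans hL
  have l3 : 0 ≤ L := (le_max_right _ _).trans hL
  have hsm' : NK * C * (Real.exp (-(2 * Real.pi * J)) + 3 * e1 + 3 * ep) ≤ a / 2 := by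
    rw [le_div_iff₀ (by positivity)] at hsm
    refine le_trans ?_ hsm
    have : 0 ≤ C * (Real.exp (-(2 * Real.pi * J)) + 3 * e1 + 3 * ep) := by positivity
    calc NK * C * (Real.exp (-(2 * Real.pi * J)) + 3 * e1 + 3 * ep)
        = NK * (C * (Real.exp (-(2 * Real.pi * J)) + 3 * e1 + 3 * ep)) := by ring
      _ ≤ (NK + 1) * (C * (Real.exp (-(2 * Real.pi * J)) + 3 * e1 + 3 * ep)) :=
          mul_le_mul_of_nonneg_right (by linarith) this
      _ = _ := by ring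
  have hAr := hA L l1 ep hep hep' e1 he1 he1' J hJ hsm'
  have hrR : ∀ r < R, (r : ℝ) ≤ Real.exp (2 * L) := fun r hr =>
    le_trans (by exact_mod_cast hr.le) hR
  have hKc : (Fintype.card K : ℝ) ≤ NK := by exact_mod_cast hK
  refine hS L l2 M hM R (fun r => NK * ∫ t, act C C' c b k L ep e1 J r t *
    Real.exp (-tilt (WZ D L r) (lamZ k' L r) t)) (cost D k' c1 L) _
    (fun r hr => mul_nonneg (Nat.cast_nonneg _) (hAr r (hrR r hr)).2.1)
    (fun r hr => (hAr r (hrR r hr)).2.2.1) (fun r hr h => (hAr r (hrR r hr)).2.2.2.1 h)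
    (fun r hr h => (hAr r (hrR r hr)).2.2.2.2 h) (fun r hr => ?_)
  obtain ⟨hi, hI0, -, -, -⟩ := hAr r (hrR r hr)
  have hact0 : ∀ t, 0 ≤ act C C' c b k L ep e1 J r t := fun t => act_nonneg hC.le hC' l3
  have hMr : 0 ≤ (if (r : ℝ) ≤ L then M else M * Real.exp (c' * L)) := by
    split_ifs
    · exact hM
    · positivity
  have hk := kinds_le (K := K) (X := fun _ => ℝ) (ν := fun _ => volume)
    (fun _ t => t) (fun _ => act C C' c b k L ep e1 J r) (WZ D L r) (lamZ k' L r) hc1 hMr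
    (fun _ => hact0) (fun _ => hi) r G hG0 (hG r hr)
  refine hk.trans ?_
  unfold cost
  refine mul_le_mul_of_nonneg_left ?_ (by positivity)
  refine div_le_div_of_nonneg_right ?_ (by positivity)
  rw [Finset.sum_const, Finset.card_univ, nsmul_eq_mul]
  exact pow_le_pow_left₀ (mul_nonneg (Nat.cast_nonneg _) hI0)
    (mul_le_mul_of_nonneg_right hKc hI0) r

end NUO
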