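import Pool.Agent.NUP1.Kinds
import Pool.Agent.NUP1.Cutoff

/-!
# Objects (interface of sections 2, 3, 4 of proof/NU_ABS)

An object has a species (`Bool`), a kind, a height `t` and an angle `a` (in `(0, 1]`, only used by
`Sv`).  Its constituents (the parts) are triples (species, type, position), type `true` = string
`(w, w - l)`, `false` = one quantum, as in `NUP1.Kn`.

* `L`: a quantum at offset `jL`, i.e. real part `(1 - jL) l`;
* `St`: a string at offset `3/2`;
* `S`: a string at offset `2 + e'`, `e'` = the shift of its line;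
* `Sv`: the same string and one quantum `v` of the other species on the circle of radius `ρ` round
  `w + 2 l`;
* `Svv`: the same string and two quanta of the other species at the point `w + 2 l`.
-/

set_option autoImplicit false

noncomputable section

open Complex MeasureTheory Finset

namespace NUO

open NUP1

/-- the five kinds of objects -/
inductive Kind
  | L | St | S | Sv | Svv
  deriving DecidableEq

instance : Fintype Kind := ⟨{.L, .St, .S, .Sv, .Svv}, fun x => by cases x <;> decide⟩
instance : MeasurableSpace Kind := ⊤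
instance : DiscreteMeasurableSpace Kind := ⟨fun _ => trivial⟩
instance : Nonempty Kind := ⟨Kind.L⟩

/-- an object: ((species, kind), (height, angle / 2π)) -/
abbrev Xo := (Bool × Kind) × (ℝ × ℝ)

/-- species of an object -/
abbrev sp (x : Xo) : Bool := x.1.1
/-- kind of an object -/
abbrev kd (x : Xo) : Kind := x.1.2
/-- height of an object -/
abbrev ht (x : Xo) : ℝ := x.2.1
/-- angle of the satellite of an object of kind `Sv`, divided by `2 π` -/
abbrev an (x : Xo) : ℝ := x.2.2

/-- the measure on the space of objects -/
def nu : Measure Xo :=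
  (Measure.count : Measure (Bool × Kind)).prod
    ((volume : Measure ℝ).prod ((volume : Measure ℝ).restrict (Set.Ioc 0 1)))

instance : SigmaFinite nu := by unfold nu; infer_instance

/-- the parameters of the representation: offset of `L`, base shift `e` of the lines of the strings
`S`, `Sv`, `Svv` (offset `2 + e`), spread `d r` of these lines when there are `r` objects, radius
`rad r t` of the circle of a satellite when there are `r` objects and the string is at height `t` -/
structure Par where
  /-- offset of the objects `L` -/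
  jL : ℝ
  /-- the strings `S`, `Sv`, `Svv` are at offsets between `2 + e` and `2 + e + d r` -/
  e : ℝ
  /-- spread of the lines of the strings -/
  d : ℕ → ℝ
  /-- radius of the circle of a satellite -/
  rad : ℕ → ℝ → ℝ

/-- rank of the object `i` among the objects of its species -/
def rk {r : ℕ} (O : Fin r → Xo) (i : Fin r) : ℕ :=
  (univ.filter fun j => j < i ∧ sp (O j) = sp (O i)).card

/-- shift of the line of the string `i` -/
def ei (P : Par) {r : ℕ} (O : Fin r → Xo) (i : Fin r) : ℝ := P.e + P.d r * (rk O i / r)

/-- radius of the circle of the satellite of the string `i` -/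
def rr (P : Par) {r : ℕ} (O : Fin r → Xo) (i : Fin r) : ℝ := P.rad r (ht (O i))

/-- position of the quantum `L` -/
def posL (jL t : ℝ) : ℂ := vl ((1 - jL) * l) t
/-- position (upper quantum `w`) of the string `St` -/
def posT (t : ℝ) : ℂ := vl (-(1 / 2 * l)) t
/-- position (upper quantum `w`) of a string at offset `2 + e` -/
def posS (e t : ℝ) : ℂ := vl (-((1 + e) * l)) t
/-- position of the satellite(s) of the string at offset `2 + e`; `ρ = 0` for `Svv` -/
def posV (e ρ t a : ℝ) : ℂ := posS e t + 2 * l + ρ * Complex.exp (2 * Real.pi * a * I)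

/-- the constituents: (species, type, position), type `true` = string -/
def parts (jL e ρ : ℝ) (x : Xo) : List (Bool × Bool × ℂ) :=
  match kd x with
  | .L => [(sp x, false, posL jL (ht x))]
  | .St => [(sp x, true, posT (ht x))]
  | .S => [(sp x, true, posS e (ht x))]
  | .Sv => [(sp x, true, posS e (ht x)), (!sp x, false, posV e ρ (ht x) (an x))]
  | .Svv => [(sp x, true, posS e (ht x)), (!sp x, false, posS e (ht x) + 2 * l),
      (!sp x, false, posS e (ht x) + 2 * l)]

/-- pair function of two constituents -/
def pp (a b : Bool × Bool × ℂ) : ℂ :=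
  if a.1 = b.1 then Kn.pz a.2.1 b.2.1 (a.2.2 - b.2.2) else Kn.cz a.2.1 b.2.1 (a.2.2 - b.2.2)

/-- modulus of the pair weight of two lists of constituents -/
def ppN (A B : List (Bool × Bool × ℂ)) : ℝ := (A.map fun a => (B.map fun b => ‖pp a b‖).prod).prod

/-- the constituents of the object `i` of the configuration `O` -/
def cons (P : Par) {r : ℕ} (O : Fin r → Xo) (i : Fin r) : List (Bool × Bool × ℂ) :=
  parts P.jL (ei P O i) (rr P O i) (O i)

/-- modulus of the pair weight of the objects `i`, `j` -/
def pairN (P : Par) {r : ℕ} (O : Fin r → Xo) (i j : Fin r) : ℝ := ppN (cons P O i) (cons P O j)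

/-- modulus of the pair weight of the object `i` and of a quantum of species `s` at `z` -/
def potN (P : Par) {r : ℕ} (O : Fin r → Xo) (i : Fin r) (s : Bool) (z : ℂ) : ℝ :=
  ppN [(s, false, z)] (cons P O i)

/-- number of quanta of species `s` of an object -/
def chg (s : Bool) (x : Xo) : ℕ :=
  match kd x with
  | .L => if sp x = s then 1 else 0
  | .St => if sp x = s then 2 else 0
  | .S => if sp x = s then 2 else 0
  | .Sv => if sp x = s then 2 else 1
  | .Svv => if sp x = s then 2 else 2

/-- number of quanta of species `s` of all objects -/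
def chgO {r : ℕ} (O : Fin r → Xo) (s : Bool) : ℕ := ∑ i, chg s (O i)

/-! ### one body weights (`m` rows at `0` in each group) -/

/-- modulus of the row factor of a quantum (activity `2 cos l` included) -/
def RN (m : ℕ) (u : ℂ) : ℝ :=
  2 * Real.cos l * (‖sin (u + 3 * l)‖ ^ 2 / (‖sin u‖ * ‖sin (u - 2 * l)‖)) ^ m

/-- cutoff factor -/
def ph (m : ℕ) (β : ℝ) (u : ℂ) : ℂ := 1 - psi β u ^ m

/-- `ρ_s / 2π`, the activity of a string -/
def aS : ℝ := Real.sin l ^ 3 * Real.sin (3 * l) / Real.sin (2 * l) / (2 * Real.pi)

/-- modulus of the weight of the string of `S`, `Sv`, `Svv` -/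
def oS (m : ℕ) (w : ℂ) : ℝ := aS * (RN m w * RN m (w - l)) * ‖ph m (4 / 3) w‖

/-- modulus of the one body weight of an object; for `Sv` with the interaction of the satellite
with its string and the length element of the circle -/
def ob1 (m : ℕ) (β jL e ρ : ℝ) (x : Xo) : ℝ :=
  match kd x with
  | .L => (2 * Real.pi)⁻¹ * (RN m (posL jL (ht x)) * ‖ph m β (posL jL (ht x))‖)
  | .St => aS * (RN m (posT (ht x)) * RN m (posT (ht x) - l)) *
      ‖ph m β (posT (ht x)) * ph m β (posT (ht x) - l) - ph m (4 / 3) (posT (ht x))‖
  | .S => oS m (posS e (ht x))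
  | .Sv => oS m (posS e (ht x)) * (ρ * (RN m (posV e ρ (ht x) (an x)) *
      ‖ph m β (posV e ρ (ht x) (an x))‖) *
      ‖Kn.cz false true (posV e ρ (ht x) (an x) - posS e (ht x))‖)
  | .Svv => oS m (posS e (ht x)) * (4 * Real.cos l ^ 2 *
      (RN m (posS e (ht x) + 2 * l) * ‖ph m β (posS e (ht x) + 2 * l)‖ /
        Real.sin (5 * l) ^ 2) ^ 2)

/-- modulus of the one body weight of the object `i` -/
def ob (m : ℕ) (β : ℝ) (P : Par) {r : ℕ} (O : Fin r → Xo) (i : Fin r) : ℝ :=
  ob1 m β P.jL (ei P O i) (rr P O i) (O i)

/-- modulus of the weight of the configuration without the quanta on `A'` -/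
def objW (m : ℕ) (β : ℝ) (P : Par) {r : ℕ} (O : Fin r → Xo) : ℝ :=
  (∏ i, ob m β P O i) * ∏ i, ∏ j, if i < j then pairN P O i j else 1

theorem ppN_nonneg (A B : List (Bool × Bool × ℂ)) : 0 ≤ ppN A B := by
  unfold ppN
  refine List.prod_nonneg fun x hx => ?_
  obtain ⟨a, _, rfl⟩ := List.mem_map.1 hx
  refine List.prod_nonneg fun y hy => ?_
  obtain ⟨b, _, rfl⟩ := List.mem_map.1 hy
  exact norm_nonneg _

theorem pairN_nonneg (P : Par) {r : ℕ} (O : Fin r → Xo) (i j : Fin r) : 0 ≤ pairN P O i j :=
  ppN_nonneg _ _

theorem potN_nonneg (P : Par) {r : ℕ} (O : Fin r → Xo) (i : Fin r) (s : Bool) (z : ℂ) :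
    0 ≤ potN P O i s z := ppN_nonneg _ _

end NUO
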