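import Pool.Agent.NUO.Top
import Pool.Agent.NUO.Obj
import Pool.Agent.NUO.GasSum
import Pool.Agent.NU42.Defs

/-!
# The final glue of TARGET-A

`Fn m β P η η' n O`: modulus of the term of the configuration `O` of objects with `n` quanta of each
species (object weight times the positive gas `Z1` on the curve `A'`).
`R4`: the representation corollary; `PerConf`: the bound of `∑ n, Fn`; `numUp_of_R4`.
-/

set_option autoImplicit false

noncomputable section

open MeasureTheory Finset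
open scoped ENNReal

namespace NUO

/-! ### integrals over the object space -/

/-- a function of the height over the object space -/
theorem integral_ht {f : ℝ → ℝ} (hf : Integrable f) :
    Integrable (fun x : Xo => f (ht x)) nu ∧ ∫ x, f (ht x) ∂nu = 10 * ∫ t, f t := by
  have h1 : Integrable (fun y : ℝ × ℝ => f y.1 * (1 : ℝ))
      ((volume : Measure ℝ).prod ((volume : Measure ℝ).restrict (Set.Ioc 0 1))) :=
    hf.mul_prod (g := fun _ : ℝ => (1 : ℝ)) (integrable_const 1)
  have h2 : ∫ y : ℝ × ℝ, f y.1 * (1 : ℝ)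
      ∂((volume : Measure ℝ).prod ((volume : Measure ℝ).restrict (Set.Ioc 0 1))) = ∫ t, f t := by
    rw [integral_prod_mul (μ := (volume : Measure ℝ))
      (ν := (volume : Measure ℝ).restrict (Set.Ioc 0 1)) f (fun _ => (1 : ℝ))]
    simp
  constructor
  · have h3 : Integrable (fun x : Xo => (1 : ℝ) * (f x.2.1 * 1)) nu := by
      unfold nu
      exact Integrable.mul_prod (f := fun _ : Bool × Kind => (1 : ℝ))
        (g := fun y : ℝ × ℝ => f y.1 * (1 : ℝ)) (integrable_const 1) h1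
    simpa using h3
  · have h4 : ∫ x : Xo, (1 : ℝ) * (f x.2.1 * 1) ∂nu = 10 * ∫ t, f t := by
      unfold nu
      rw [integral_prod_mul (μ := (Measure.count : Measure (Bool × Kind)))
        (ν := (volume : Measure ℝ).prod ((volume : Measure ℝ).restrict (Set.Ioc 0 1)))
        (fun _ => (1 : ℝ)) (fun y => f y.1 * (1 : ℝ)), h2, integral_count]
      have : Fintype.card (Bool × Kind) = 10 := rfl
      rw [Finset.sum_const, Finset.card_univ, this]
      norm_num
    rw [← h4]
    simp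

/-- **integral over the configurations of `r` objects** -/
theorem lint_conf_le {r : ℕ} (z : ℝ → ℝ) (hz0 : ∀ t, 0 ≤ z t) (W : Finset ℤ) (lam : ℤ → ℝ) {c M : ℝ}
    (hc : 0 < c) (hM : 0 ≤ M) (hz : Integrable (fun t => z t * Real.exp (-tilt W lam t))) :
    ∫⁻ O : Fin r → Xo, ENNReal.ofReal (M * (∏ i, z (ht (O i))) *
        Real.exp (-(c * ∑ w ∈ W, (cnt (fun i => ht (O i)) w : ℝ) ^ 2)))
        ∂(Measure.pi fun _ => nu) ≤
      ENNReal.ofReal (M * Real.exp ((∑ w ∈ W, lam w ^ 2) / (4 * c)) *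
        (10 * ∫ t, z t * Real.exp (-tilt W lam t)) ^ r) := by
  obtain ⟨i1, i2⟩ := integral_ht hz
  have h1 : ∀ O : Fin r → Xo, M * (∏ i, z (ht (O i))) *
      Real.exp (-(c * ∑ w ∈ W, (cnt (fun i => ht (O i)) w : ℝ) ^ 2)) ≤
      M * Real.exp ((∑ w ∈ W, lam w ^ 2) / (4 * c)) *
        ∏ i, (z (ht (O i)) * Real.exp (-tilt W lam (ht (O i)))) := by
    intro O
    rw [Finset.prod_mul_distrib]
    have h2 := energy_le W lam hc (fun i => ht (O i))
    have h3 : 0 ≤ M * ∏ i, z (ht (O i)) := mul_nonneg hM (Finset.prod_nonneg fun i _ => hz0 _)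
    calc _ ≤ M * (∏ i, z (ht (O i))) * (Real.exp ((∑ w ∈ W, lam w ^ 2) / (4 * c)) *
          ∏ i, Real.exp (-tilt W lam (ht (O i)))) := mul_le_mul_of_nonneg_left h2 h3
      _ = _ := by ring
  have h0 : ∀ O : Fin r → Xo, 0 ≤ M * Real.exp ((∑ w ∈ W, lam w ^ 2) / (4 * c)) *
        ∏ i, (z (ht (O i)) * Real.exp (-tilt W lam (ht (O i)))) := fun O =>
    mul_nonneg (by positivity) (Finset.prod_nonneg fun i _ => mul_nonneg (hz0 _)
      (Real.exp_pos _).le)
  refine (lintegral_mono fun O => ENNReal.ofReal_le_ofReal (h1 O)).trans ?_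
  have hI : Integrable (fun O : Fin r → Xo => M * Real.exp ((∑ w ∈ W, lam w ^ 2) / (4 * c)) *
        ∏ i, (z (ht (O i)) * Real.exp (-tilt W lam (ht (O i))))) (Measure.pi fun _ => nu) :=
    (Integrable.fintype_prod (f := fun _ x => z (ht x) * Real.exp (-tilt W lam (ht x)))
      fun _ => i1).const_mul _
  rw [← ofReal_integral_eq_lintegral_ofReal hI (Filter.Eventually.of_forall h0)]
  refine ENNReal.ofReal_le_ofReal (le_of_eq ?_)
  rw [integral_const_mul,
    integral_fintype_prod_eq_prod (fun (_ : Fin r) x => z (ht x) * Real.exp (-tilt W lam (ht x))),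
    Finset.prod_const, Finset.card_univ, Fintype.card_fin, i2]

/-! ### the terms -/

/-- point of the curve `A'` -/
def pA (η : ℝ → ℝ) (t : ℝ) : ℂ := NUP1.vl (NUP1.l - η t) t

/-- one body factor of a quantum of species `s` on `A'`, with the potentials of the objects -/
def qA (m : ℕ) (β : ℝ) (P : Par) (η : ℝ → ℝ) {r : ℕ} (O : Fin r → Xo) (s : Bool) (t : ℝ) : ℝ :=
  (2 * Real.pi)⁻¹ * (RN m (pA η t) * ‖ph m β (pA η t)‖) * ∏ i, potN P O i s (pA η t)

/-- the displacement of the curve -/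
def dA (η : ℝ → ℝ) (t : ℝ) : ℂ := (η t : ℂ) * Complex.I

/-- the positive gas of `a` quanta X and `b` quanta Y on `A'` -/
def Z1 (m : ℕ) (β : ℝ) (P : Par) (η η' : ℝ → ℝ) {r : ℕ} (O : Fin r → Xo) (a b : ℕ) : ℝ≥0∞ :=
  ((a.factorial : ℝ≥0∞) * b.factorial)⁻¹ * ∫⁻ x : (Fin a → ℝ) × (Fin b → ℝ),
    ENNReal.ofReal (NU42.WO (dA η) (dA η') (dA η) (dA η') (qA m β P η O true)
      (qA m β P η O false) x.1 x.2)

/-- the term of the configuration `O` with `n` quanta of each species -/
def Fn (m : ℕ) (β : ℝ) (P : Par) (η η' : ℝ → ℝ) (n : ℕ) {r : ℕ} (O : Fin r → Xo) : ℝ≥0∞ :=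
  if chgO O true ≤ n ∧ chgO O false ≤ n then
    ENNReal.ofReal (objW m β P O) * Z1 m β P η η' O (n - chgO O true) (n - chgO O false)
  else 0

/-- conditions on the parameters and on the curve -/
structure Good (P : Par) (η η' : ℝ → ℝ) : Prop where
  j1 : 2 < P.jL
  j2 : P.jL < 3
  e1 : 1 / 10 ≤ P.e
  d0 : ∀ r, 0 < P.d r
  e2 : ∀ r, P.e + P.d r ≤ 3 / 5
  rm : ∀ r, Measurable (P.rad r)
  r0 : ∀ r t, 0 < P.rad r t
  r1 : ∀ r t, P.rad r t ≤ NUP1.l * P.d r / (8 * (r + 1))
  hd : ∀ t, HasDerivAt η (η' t) t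
  hc : Continuous η'
  h0 : ∀ t, 0 ≤ η t
  h1 : ∀ t, η t ≤ NUP1.l / 20
  hb : ∃ B, ∀ t, |η' t| ≤ B

/-- **R4**: the representation corollary -/
def R4 : Prop := ∀ (m : ℕ) (β : ℝ), 0 < β → β < 4 / 3 → ∀ (P : Par) (η η' : ℝ → ℝ),
  Good P η η' → ∀ n : ℕ, ‖Zn m m β n‖ₑ ≤ ∑ r ∈ range (2 * n + 1), ((r.factorial : ℝ≥0∞))⁻¹ *
    ∫⁻ O : Fin r → Xo, Fn m β P η η' n O ∂(Measure.pi fun _ => nu)

/-- exponential of the mean field -/
def MF (m : ℕ) : ℝ := Real.exp ((m : ℝ) ^ 2 * ∫ s, NUMF.P s * NUMF.v s)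

/-- the windows of the configuration -/
def cO {r : ℕ} (O : Fin r → Xo) (w : ℤ) : ℕ := cnt (fun i => ht (O i)) w

/-- **O6**: the inequality for one configuration -/
def PerConf : Prop := ∃ (C c b c1 c' Ca : ℝ) (k : ℕ), 0 < C ∧ 0 < c ∧ 0 < b ∧ 0 < c1 ∧ 0 ≤ c' ∧
  0 ≤ Ca ∧ ∀ ep : ℝ, 0 < ep → ep ≤ 1 / 100 → ∀ e1 : ℝ, 0 < e1 → e1 ≤ 1 / 100 → ∀ J : ℝ, 0 ≤ J →
    ∀ δ : ℝ, 0 < δ → ∃ C' Cst : ℝ, 0 ≤ C' ∧ 0 ≤ Cst ∧ ∃ m0 : ℕ, ∀ m ≥ m0,
      ∃ (P : Par) (η η' : ℝ → ℝ), Good P η η' ∧ ∀ r ≤ 4 * m, ∀ (O : Fin r → Xo) (W : Finset ℤ),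
        ∑ n ∈ range (2 * m + 1), Fn m (4 / 3 * (1 - ep)) P η η' n O ≤
          ENNReal.ofReal (Cst * MF m * (m : ℝ) ^ (3 / 8 + Ca * (ep + e1) + δ) *
            (if (r : ℝ) ≤ Real.log m then 1 else Real.exp (c' * Real.log m)) *
            (∏ i, act C C' c b k (Real.log m) ep e1 J r (ht (O i))) *
            Real.exp (-(c1 * ∑ w ∈ W, (cO O w : ℝ) ^ 2)))

theorem sum_lint_le {α : Type*} [MeasurableSpace α] (μ : Measure α) (s : Finset ℕ)
    (F : ℕ → α → ℝ≥0∞) : ∑ n ∈ s, ∫⁻ x, F n x ∂μ ≤ ∫⁻ x, ∑ n ∈ s, F n x ∂μ := by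
  classical
  induction s using Finset.induction_on with
  | empty => simp
  | insert a s ha ih =>
    rw [Finset.sum_insert ha]
    simp_rw [Finset.sum_insert ha]
    exact (add_le_add le_rfl ih).trans (le_lintegral_add _ _)

/-- **the final glue** -/
theorem numUp_of_R4 (hR : R4) (hP : PerConf)
    (hAct : ∀ C C' c b : ℝ, ∀ k : ℕ, 0 ≤ C → 0 ≤ C' → 0 < c → 0 < b → ActInt C C' c b k) :
    Pool.Agent.NUF.NumUp := by
  refine numUp_of fun ε hε => ?_
  obtain ⟨C, c, b, c1, c', Ca, k, hC, hc, hb, hc1, hc', hCa, hP⟩ := hP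
  obtain ⟨a, ha, hcore⟩ := sum_core (c' := c') (δ := ε / 4) hc' (by positivity)
  -- the parameters
  set κ : ℝ := min (a / 2 / (10 * C)) 1 with hκ
  have hκ0 : 0 < κ := lt_min (by positivity) one_pos
  have hκ1 : 10 * C * κ ≤ a / 2 := by
    have : κ ≤ a / 2 / (10 * C) := min_le_left _ _
    rw [le_div_iff₀ (by positivity)] at this
    linarith
  set ep : ℝ := min (κ / 12) (min (1 / 100) (ε / (8 * (Ca + 1)))) with hep
  have hep0 : 0 < ep := lt_min (by positivity) (lt_min (by norm_num) (by positivity))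
  have hep1 : ep ≤ κ / 12 := min_le_left _ _
  have hep2' : ep ≤ 1 / 100 := (min_le_right _ _).trans (min_le_left _ _)
  have hep2 : ep ≤ 1 / 4 := hep2'.trans (by norm_num)
  have hep3 : ep ≤ ε / (8 * (Ca + 1)) := (min_le_right _ _).trans (min_le_right _ _)
  obtain ⟨J, hJ0, hJ⟩ : ∃ J : ℝ, 0 ≤ J ∧ Real.exp (-(2 * Real.pi * J)) ≤ κ / 2 := by
    refine ⟨max 0 (-Real.log (κ / 2)), le_max_left _ _, ?_⟩
    have hpi := Real.pi_gt_three
    have h1 : -Real.log (κ / 2) ≤ 2 * Real.pi * max 0 (-Real.log (κ / 2)) := by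
      have h2 := le_max_right 0 (-Real.log (κ / 2))
      have h3 := le_max_left 0 (-Real.log (κ / 2))
      nlinarith
    calc Real.exp (-(2 * Real.pi * max 0 (-Real.log (κ / 2)))) ≤ Real.exp (Real.log (κ / 2)) :=
          Real.exp_le_exp.2 (by linarith)
      _ = κ / 2 := Real.exp_log (by positivity)
  obtain ⟨C', Cst, hC', hCst, m0, hm0⟩ := hP ep hep0 hep2' ep hep0 hep2' J hJ0 (ε / 4) (by positivity)
  obtain ⟨D, k', C3, LA, hD, hC3, hA⟩ := act_sum (c1 := c1) hC hC' hc1 ha
    (show 0 < ε / 4 / 2 by positivity) 10 (hAct C C' c b k hC.le hC' hc hb)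
  obtain ⟨LS, hS⟩ := hcore C3 hC3
  -- large `m`
  obtain ⟨m1, hm1⟩ : ∃ m1 : ℕ, ∀ m ≥ m1, max (max LA LS) 2 ≤ Real.log m := by
    have := (Real.tendsto_log_atTop.comp tendsto_natCast_atTop_atTop).eventually_ge_atTop
      (max (max LA LS) 2)
    exact Filter.eventually_atTop.1 this
  -- small `m`
  set N : ℕ := max m0 m1 with hN
  set f : ℕ → ℝ := fun m => ∑ n ∈ range (2 * m + 1), ‖Zn m m (4 / 3 * (1 - ep)) n‖ with hf
  have hf0 : ∀ m, 0 ≤ f m := fun m => Finset.sum_nonneg fun n _ => norm_nonneg _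
  have hβ0 : 0 < 4 / 3 * (1 - ep) := by linarith
  have hβ1 : 4 / 3 * (1 - ep) < 4 / 3 := by linarith
  have hMF : ∀ m, 0 < MF m := fun m => Real.exp_pos _
  set B : ℝ := ∑ m ∈ range N, f m / MF m with hB
  have hB0 : 0 ≤ B := Finset.sum_nonneg fun m _ => div_nonneg (hf0 m) (hMF m).le
  refine ⟨max Cst B, fun m hm => ⟨m, 4 / 3 * (1 - ep), le_rfl, hβ0, hβ1, ?_⟩⟩
  have hm1' : (1 : ℝ) ≤ m := by exact_mod_cast hm
  rcases lt_or_ge m N with hlt | hge
  · -- small
    have h1 : f m / MF m ≤ B := Finset.single_le_sum (f := fun m => f m / MF m)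
      (fun m _ => div_nonneg (hf0 m) (hMF m).le) (Finset.mem_range.2 hlt)
    have h2 : (1 : ℝ) ≤ (m : ℝ) ^ (3 / 8 + ε) := Real.one_le_rpow hm1' (by positivity)
    have h3 : f m ≤ B * MF m := by rwa [div_le_iff₀ (hMF m)] at h1
    calc f m ≤ B * MF m := h3
      _ ≤ max Cst B * MF m := mul_le_mul_of_nonneg_right (le_max_right _ _) (hMF m).le
      _ ≤ max Cst B * (m : ℝ) ^ (3 / 8 + ε) * MF m := by
          refine mul_le_mul_of_nonneg_right ?_ (hMF m).le
          exact le_mul_of_one_le_right (hB0.trans (le_max_right _ _)) h2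
  · -- large
    have g0 : m0 ≤ m := (le_max_left _ _).trans hge
    have g1 := hm1 m ((le_max_right _ _).trans hge)
    set L : ℝ := Real.log m with hL
    have gA : LA ≤ L := ((le_max_left _ _).trans (le_max_left _ _)).trans g1
    have gS : LS ≤ L := ((le_max_right _ _).trans (le_max_left _ _)).trans g1
    have gL : 2 ≤ L := (le_max_right _ _).trans g1
    have hL0 : 0 ≤ L := by linarith
    have hmpos : (0 : ℝ) < m := by linarith
    have hmL : (m : ℝ) = Real.exp L := (Real.exp_log hmpos).symm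
    obtain ⟨P, η, η', hG, hO⟩ := hm0 m g0
    set M : ℝ := Cst * MF m * (m : ℝ) ^ (3 / 8 + Ca * (ep + ep) + ε / 4) with hM
    have hM0 : 0 ≤ M := by
      have := (hMF m).le
      positivity
    have hrR : ∀ r < 4 * m + 1, (r : ℝ) ≤ Real.exp (2 * L) := by
      intro r hr
      have h1 : (r : ℝ) ≤ 4 * m := by exact_mod_cast Nat.lt_succ_iff.1 hr
      have h2 : (4 : ℝ) ≤ m := by
        rw [hmL]
        have := Real.add_one_le_exp (1 : ℝ)
        have h3 : Real.exp 1 * Real.exp 1 = Real.exp 2 := by rw [← Real.exp_add]; norm_num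
        have h4 : Real.exp 2 ≤ Real.exp L := Real.exp_le_exp.2 gL
        nlinarith
      have h5 : Real.exp (2 * L) = m * m := by rw [two_mul, Real.exp_add, ← hmL]
      rw [h5]
      nlinarith
    have hsm : (10 : ℕ) * C * (Real.exp (-(2 * Real.pi * J)) + 3 * ep + 3 * ep) ≤ a / 2 := by
      refine le_trans ?_ hκ1
      push_cast
      refine mul_le_mul_of_nonneg_left ?_ (by positivity)
      linarith
    have hAr := hA L gA ep hep0.le hep2 ep hep0 hep2 J hJ0 hsm
    -- the chain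
    set A : ℕ → ℝ := fun r => 10 * ∫ t, act C C' c b k L ep ep J r t *
      Real.exp (-tilt (WZ D L r) (lamZ k' L r) t) with hAdef
    set Bf : ℕ → ℝ := fun r => if (r : ℝ) ≤ L then M else M * Real.exp (c' * L) with hBf
    have hBf0 : ∀ r, 0 ≤ Bf r := fun r => by
      simp only [hBf]
      split_ifs
      · exact hM0
      · positivity
    have hact0 : ∀ r t, 0 ≤ act C C' c b k L ep ep J r t := fun r t => act_nonneg hC.le hC' hL0
    have key : ∑ n ∈ range (2 * m + 1), ‖Zn m m (4 / 3 * (1 - ep)) n‖ₑ ≤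
        ENNReal.ofReal (∑ r ∈ range (4 * m + 1),
          Bf r * Real.exp (cost D k' c1 L r) * (A r ^ r / (r.factorial : ℝ))) := by
      calc ∑ n ∈ range (2 * m + 1), ‖Zn m m (4 / 3 * (1 - ep)) n‖ₑ
          ≤ ∑ n ∈ range (2 * m + 1), ∑ r ∈ range (4 * m + 1), ((r.factorial : ℝ≥0∞))⁻¹ *
            ∫⁻ O : Fin r → Xo, Fn m (4 / 3 * (1 - ep)) P η η' n O ∂(Measure.pi fun _ => nu) := by
            refine Finset.sum_le_sum fun n hn => ?_
            refine (hR m _ hβ0 hβ1 P η η' hG n).trans ?_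
            refine Finset.sum_le_sum_of_subset ?_
            intro r hr
            have := Finset.mem_range.1 hn
            have := Finset.mem_range.1 hr
            exact Finset.mem_range.2 (by omega)
        _ = ∑ r ∈ range (4 * m + 1), ((r.factorial : ℝ≥0∞))⁻¹ * ∑ n ∈ range (2 * m + 1),
            ∫⁻ O : Fin r → Xo, Fn m (4 / 3 * (1 - ep)) P η η' n O ∂(Measure.pi fun _ => nu) := by
            rw [Finset.sum_comm]
            refine Finset.sum_congr rfl fun r _ => ?_
            rw [Finset.mul_sum]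
        _ ≤ ∑ r ∈ range (4 * m + 1), ((r.factorial : ℝ≥0∞))⁻¹ *
            ENNReal.ofReal (Bf r * Real.exp (cost D k' c1 L r) * A r ^ r) := by
            refine Finset.sum_le_sum fun r hr => ?_
            refine mul_le_mul_right ?_ _
            refine (sum_lint_le _ _ _).trans ?_
            have hr4 : r ≤ 4 * m := Nat.lt_succ_iff.1 (Finset.mem_range.1 hr)
            obtain ⟨hi, -, -, -, -⟩ := hAr r (hrR r (Finset.mem_range.1 hr))
            refine le_trans (lintegral_mono fun O => hO r hr4 O (WZ D L r)) ?_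
            have h1 := lint_conf_le (r := r) (act C C' c b k L ep ep J r) (hact0 r) (WZ D L r)
              (lamZ k' L r) hc1 (hBf0 r) hi
            refine le_trans (le_of_eq ?_) h1
            refine lintegral_congr fun O => ?_
            congr 1
            simp only [hBf, cO]
            split_ifs
            · rw [mul_one]
            · rfl
        _ = ENNReal.ofReal (∑ r ∈ range (4 * m + 1),
          Bf r * Real.exp (cost D k' c1 L r) * (A r ^ r / (r.factorial : ℝ))) := by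
            rw [ENNReal.ofReal_sum_of_nonneg]
            · refine Finset.sum_congr rfl fun r hr => ?_
              have hfac : (0 : ℝ) < (r.factorial : ℝ) := by positivity
              have e1 : ((r.factorial : ℝ≥0∞))⁻¹ = ENNReal.ofReal ((r.factorial : ℝ)⁻¹) := by
                rw [ENNReal.ofReal_inv_of_pos hfac, ENNReal.ofReal_natCast]
              rw [e1, ← ENNReal.ofReal_mul (by positivity)]
              congr 1
              field_simp
            · intro r hr
              have hI := (hAr r (hrR r (Finset.mem_range.1 hr))).2.1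
              have h2 := hBf0 r
              have h3 : 0 ≤ A r := by simp only [hAdef]; positivity
              positivity
    have hsum : ∑ r ∈ range (4 * m + 1),
        Bf r * Real.exp (cost D k' c1 L r) * (A r ^ r / (r.factorial : ℝ)) ≤
          M * Real.exp (ε / 4 * L) := by
      refine hS L gS M hM0 (4 * m + 1) A (cost D k' c1 L) _ ?_ ?_ ?_ ?_ ?_
      · intro r hr
        have hI := (hAr r (hrR r hr)).2.1
        simp only [hAdef]
        positivity
      · intro r hr
        have hI := (hAr r (hrR r hr)).2.2.1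
        simpa [hAdef] using hI
      · intro r hr h
        have := (hAr r (hrR r hr)).2.2.2.1 h
        linarith
      · intro r hr h
        exact (hAr r (hrR r hr)).2.2.2.2 h
      · intro r hr
        exact le_rfl
    have hfin : f m ≤ M * Real.exp (ε / 4 * L) := by
      have h1 : ENNReal.ofReal (f m) ≤ ENNReal.ofReal (M * Real.exp (ε / 4 * L)) := by
        refine le_trans (le_of_eq ?_) (key.trans (ENNReal.ofReal_le_ofReal hsum))
        simp only [hf]
        rw [ENNReal.ofReal_sum_of_nonneg fun n _ => norm_nonneg _]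
        exact Finset.sum_congr rfl fun n _ => ofReal_norm _
      exact (ENNReal.ofReal_le_ofReal_iff (by positivity)).1 h1
    have hexp : Real.exp (ε / 4 * L) = (m : ℝ) ^ (ε / 4) := by
      rw [Real.rpow_def_of_pos hmpos, ← hL]
      ring_nf
    calc f m ≤ M * Real.exp (ε / 4 * L) := hfin
      _ = Cst * (m : ℝ) ^ (3 / 8 + Ca * (ep + ep) + ε / 4 + ε / 4) * MF m := by
          rw [hexp, hM, Real.rpow_add hmpos (3 / 8 + Ca * (ep + ep) + ε / 4)]
          ring
      _ ≤ Cst * (m : ℝ) ^ (3 / 8 + ε) * MF m := by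
          refine mul_le_mul_of_nonneg_right (mul_le_mul_of_nonneg_left ?_ hCst) (hMF m).le
          refine Real.rpow_le_rpow_of_exponent_le hm1' ?_
          have h1 : Ca * ep ≤ ε / 8 := by
            rw [le_div_iff₀ (by positivity)] at hep3
            nlinarith
          linarith
      _ ≤ max Cst B * (m : ℝ) ^ (3 / 8 + ε) * MF m := by
          refine mul_le_mul_of_nonneg_right ?_ (hMF m).le
          exact mul_le_mul_of_nonneg_right (le_max_left _ _) (by positivity)

end NUO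

end
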