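import Mathlib

/-!
# Summation over objects in arbitrary number (module O5 of proof/NU_ABS_3)

A gas of objects of finitely many kinds whose weight is at most
`M * ∏ z κ (x i) * exp (-c ∑_{w ∈ W} (number of objects in the window w)^2)`.
The windows are the intervals `[w, w+1)`.  For every choice of `lam : ℤ → ℝ` the quadratic energy
is replaced by a product (`energy_le`), integrated (`integral_le`), summed over the numbers of
the kinds (`kinds_le`), and over the total number (`sum_pow_div_factorial_le`, `tail_*`).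
-/

open MeasureTheory Finset

noncomputable section

namespace NUO

/-- number of points of `x` in the window `[w, w+1)` -/
def cnt {ι : Type*} [Fintype ι] (x : ι → ℝ) (w : ℤ) : ℕ :=
  (univ.filter (fun i => ⌊x i⌋ = w)).card

/-- the potential `lam` on the windows `W`, `0` elsewhere -/
def tilt (W : Finset ℤ) (lam : ℤ → ℝ) (t : ℝ) : ℝ := if ⌊t⌋ ∈ W then lam ⌊t⌋ else 0

lemma tilt_measurable (W : Finset ℤ) (lam : ℤ → ℝ) : Measurable (tilt W lam) := by
  have : tilt W lam = (fun k : ℤ => if k ∈ W then lam k else 0) ∘ (fun t : ℝ => ⌊t⌋) := by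
    funext t; rfl
  rw [this]
  exact (measurable_from_top).comp Int.measurable_floor

lemma sum_cnt {ι : Type*} [Fintype ι] (W : Finset ℤ) (lam : ℤ → ℝ) (x : ι → ℝ) :
    ∑ w ∈ W, lam w * (cnt x w : ℝ) = ∑ i, tilt W lam (x i) := by
  classical
  unfold cnt tilt
  simp_rw [Finset.card_filter, Nat.cast_sum, Finset.mul_sum]
  rw [Finset.sum_comm]
  refine Finset.sum_congr rfl fun i _ => ?_
  by_cases h : ⌊x i⌋ ∈ W
  · rw [if_pos h, Finset.sum_eq_single ⌊x i⌋]
    · simp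
    · intro b _ hb; simp [Ne.symm hb]
    · intro h'; exact absurd h h'
  · rw [if_neg h]
    refine Finset.sum_eq_zero fun w hw => ?_
    have : ⌊x i⌋ ≠ w := fun h' => h (h' ▸ hw)
    simp [this]

/-- **linearisation of the quadratic energy** -/
lemma energy_le {ι : Type*} [Fintype ι] (W : Finset ℤ) (lam : ℤ → ℝ) {c : ℝ} (hc : 0 < c)
    (x : ι → ℝ) :
    Real.exp (-(c * ∑ w ∈ W, (cnt x w : ℝ) ^ 2)) ≤
      Real.exp ((∑ w ∈ W, lam w ^ 2) / (4 * c)) * ∏ i, Real.exp (-tilt W lam (x i)) := by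
  rw [← Real.exp_sum, ← Real.exp_add, Real.exp_le_exp, Finset.sum_neg_distrib, ← sum_cnt,
    Finset.mul_sum, Finset.sum_div, ← sub_eq_add_neg, ← Finset.sum_sub_distrib,
    ← Finset.sum_neg_distrib]
  refine Finset.sum_le_sum fun w _ => ?_
  have h : lam w ^ 2 / (4 * c) - lam w * (cnt x w : ℝ) - -(c * (cnt x w : ℝ) ^ 2)
      = c * ((cnt x w : ℝ) - lam w / (2 * c)) ^ 2 := by
    field_simp
    ring
  have h2 : 0 ≤ c * ((cnt x w : ℝ) - lam w / (2 * c)) ^ 2 := by positivity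
  linarith

/-- **integral over the positions** for a fixed finite family of objects -/
theorem integral_le {ι : Type*} [Fintype ι] {E : ι → Type*} {mE : ∀ i, MeasurableSpace (E i)}
    {μ : ∀ i, Measure (E i)} [∀ i, SigmaFinite (μ i)] (ht : ∀ i, E i → ℝ) (z : ∀ i, E i → ℝ)
    (W : Finset ℤ) (lam : ℤ → ℝ) {c M : ℝ} (hc : 0 < c) (hM : 0 ≤ M)
    (hz0 : ∀ i y, 0 ≤ z i y)
    (hz : ∀ i, Integrable (fun y => z i y * Real.exp (-tilt W lam (ht i y))) (μ i))
    (G : (∀ i, E i) → ℝ) (hG0 : ∀ x, 0 ≤ G x)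
    (hG : ∀ x, G x ≤ M * (∏ i, z i (x i)) *
      Real.exp (-(c * ∑ w ∈ W, (cnt (fun i => ht i (x i)) w : ℝ) ^ 2))) :
    ∫ x, G x ∂(Measure.pi μ) ≤ M * Real.exp ((∑ w ∈ W, lam w ^ 2) / (4 * c)) *
      ∏ i, ∫ y, z i y * Real.exp (-tilt W lam (ht i y)) ∂(μ i) := by
  have h1 : ∀ x, G x ≤ M * Real.exp ((∑ w ∈ W, lam w ^ 2) / (4 * c)) *
      ∏ i, (z i (x i) * Real.exp (-tilt W lam (ht i (x i)))) := by
    intro x
    refine (hG x).trans ?_
    rw [Finset.prod_mul_distrib]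
    have h2 := energy_le W lam hc (fun i => ht i (x i))
    have h3 : 0 ≤ M * ∏ i, z i (x i) := mul_nonneg hM (Finset.prod_nonneg fun i _ => hz0 i _)
    calc M * (∏ i, z i (x i)) * Real.exp (-(c * ∑ w ∈ W, (cnt (fun i => ht i (x i)) w : ℝ) ^ 2))
        ≤ M * (∏ i, z i (x i)) * (Real.exp ((∑ w ∈ W, lam w ^ 2) / (4 * c)) *
          ∏ i, Real.exp (-tilt W lam (ht i (x i)))) := mul_le_mul_of_nonneg_left h2 h3
      _ = _ := by ring
  rw [← integral_fintype_prod_eq_prod (fun i y => z i y * Real.exp (-tilt W lam (ht i y))),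
    ← integral_const_mul]
  exact integral_mono_of_nonneg (Filter.Eventually.of_forall hG0)
    ((Integrable.fintype_prod_dep hz).const_mul _) (Filter.Eventually.of_forall h1)

/-- the product over all objects when there are `n κ` of kind `κ` -/
lemma prod_sigma_fin {K : Type*} [Fintype K] (n : K → ℕ) (A : K → ℝ) :
    ∏ i : (Σ κ : K, Fin (n κ)), A i.1 = ∏ κ, A κ ^ n κ := by
  rw [Fintype.prod_sigma]
  simp

/-- **sum over the numbers of the kinds**: multinomial theorem with factorials -/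
lemma multi {K : Type*} [Fintype K] [DecidableEq K] (A : K → ℝ) (r : ℕ) :
    ∑ n ∈ piAntidiag (univ : Finset K) r, (∏ κ, ((n κ).factorial : ℝ)⁻¹) * ∏ κ, A κ ^ n κ
      = (∑ κ, A κ) ^ r / (r.factorial : ℝ) := by
  rw [Finset.sum_pow_eq_sum_piAntidiag, Finset.sum_div]
  refine Finset.sum_congr rfl fun n hn => ?_
  have h1 := Nat.multinomial_spec (univ : Finset K) n
  rw [Finset.mem_piAntidiag] at hn
  rw [hn.1] at h1
  have h2 : (∏ κ, ((n κ).factorial : ℝ)) * (Nat.multinomial univ n : ℝ) = (r.factorial : ℝ) := by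
    exact_mod_cast h1
  have h3 : (∏ κ, ((n κ).factorial : ℝ)) ≠ 0 :=
    Finset.prod_ne_zero_iff.mpr fun κ _ => by positivity
  have h4 : (r.factorial : ℝ) ≠ 0 := by positivity
  rw [Finset.prod_inv_distrib, ← h2]
  have h5 : (Nat.multinomial univ n : ℝ) ≠ 0 := by
    intro h; rw [h, mul_zero] at h2; exact h4 h2.symm
  field_simp

/-- **one total number `r`**: objects of the kinds `K`, `n κ` of kind `κ`; the positions of kind
`κ` are in the measure space `(X κ, ν κ)` with height `ht κ`. -/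
theorem kinds_le {K : Type*} [Fintype K] [DecidableEq K] {X : K → Type*}
    {mX : ∀ κ, MeasurableSpace (X κ)} {ν : ∀ κ, Measure (X κ)} [∀ κ, SigmaFinite (ν κ)]
    (ht : ∀ κ, X κ → ℝ) (z : ∀ κ, X κ → ℝ) (W : Finset ℤ) (lam : ℤ → ℝ) {c M : ℝ}
    (hc : 0 < c) (hM : 0 ≤ M) (hz0 : ∀ κ y, 0 ≤ z κ y)
    (hz : ∀ κ, Integrable (fun y => z κ y * Real.exp (-tilt W lam (ht κ y))) (ν κ)) (r : ℕ)
    (G : (n : K → ℕ) → ((i : Σ κ : K, Fin (n κ)) → X i.1) → ℝ)
    (hG0 : ∀ n x, 0 ≤ G n x)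
    (hG : ∀ n ∈ piAntidiag (univ : Finset K) r, ∀ x, G n x ≤ M * (∏ i, z i.1 (x i)) *
      Real.exp (-(c * ∑ w ∈ W,
        (cnt (fun i : (Σ κ : K, Fin (n κ)) => ht i.1 (x i)) w : ℝ) ^ 2))) :
    ∑ n ∈ piAntidiag (univ : Finset K) r, (∏ κ, ((n κ).factorial : ℝ)⁻¹) *
        ∫ x, G n x ∂(Measure.pi fun i : (Σ κ : K, Fin (n κ)) => ν i.1) ≤
      M * Real.exp ((∑ w ∈ W, lam w ^ 2) / (4 * c)) *
        ((∑ κ, ∫ y, z κ y * Real.exp (-tilt W lam (ht κ y)) ∂(ν κ)) ^ r / (r.factorial : ℝ)) := by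
  rw [← multi, Finset.mul_sum]
  refine Finset.sum_le_sum fun n hn => ?_
  have h1 := integral_le (μ := fun i : (Σ κ : K, Fin (n κ)) => ν i.1) (fun i => ht i.1)
    (fun i => z i.1) W lam hc hM (fun i y => hz0 i.1 y) (fun i => hz i.1) (G n) (hG0 n) (hG n hn)
  rw [prod_sigma_fin n (fun κ => ∫ y, z κ y * Real.exp (-tilt W lam (ht κ y)) ∂(ν κ))] at h1
  calc (∏ κ, ((n κ).factorial : ℝ)⁻¹) *
        ∫ x, G n x ∂(Measure.pi fun i : (Σ κ : K, Fin (n κ)) => ν i.1)
      ≤ (∏ κ, ((n κ).factorial : ℝ)⁻¹) * (M * Real.exp ((∑ w ∈ W, lam w ^ 2) / (4 * c)) *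
        ∏ κ, (∫ y, z κ y * Real.exp (-tilt W lam (ht κ y)) ∂(ν κ)) ^ n κ) :=
        mul_le_mul_of_nonneg_left h1 (Finset.prod_nonneg fun κ _ => by positivity)
    _ = _ := by ring

/-! ### sums over the total number -/

lemma sum_pow_div_factorial_le {A : ℝ} (hA : 0 ≤ A) (s : Finset ℕ) :
    ∑ r ∈ s, A ^ r / (r.factorial : ℝ) ≤ Real.exp A := by
  obtain ⟨N, hN⟩ : ∃ N, s ⊆ range N := ⟨s.sup id + 1, fun x hx => by
    rw [mem_range]; exact Nat.lt_succ_of_le (Finset.le_sup (f := id) hx)⟩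
  exact (Finset.sum_le_sum_of_subset_of_nonneg hN fun _ _ _ => by positivity).trans
    (Real.sum_le_exp_of_nonneg hA N)

lemma pow_div_factorial_le_pow {A θ : ℝ} (hA : 0 ≤ A) {r : ℕ}
    (h : A * Real.exp 1 ≤ θ * r) : A ^ r / (r.factorial : ℝ) ≤ θ ^ r := by
  rcases Nat.eq_zero_or_pos r with rfl | hr
  · simp
  have hr' : (0 : ℝ) < r := by exact_mod_cast hr
  have h1 : (r : ℝ) ^ r / (r.factorial : ℝ) ≤ Real.exp r :=
    Real.pow_div_factorial_le_exp (r : ℝ) hr'.le r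
  have h2 : Real.exp (r : ℝ) = Real.exp 1 ^ r := by rw [← Real.exp_nat_mul]; simp
  have h3 : A / r * Real.exp 1 ≤ θ := by
    rw [div_mul_eq_mul_div, div_le_iff₀ hr']; exact h
  calc A ^ r / (r.factorial : ℝ) = (A / r) ^ r * ((r : ℝ) ^ r / (r.factorial : ℝ)) := by
        rw [div_pow]; field_simp
    _ ≤ (A / r) ^ r * Real.exp 1 ^ r := by
        rw [← h2]; exact mul_le_mul_of_nonneg_left h1 (by positivity)
    _ = (A / r * Real.exp 1) ^ r := by rw [mul_pow]
    _ ≤ θ ^ r := pow_le_pow_left₀ (by positivity) h3 r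

/-- geometric tail: all `r ≥ r0` -/
lemma tail_le {A θ : ℝ} (hA : 0 ≤ A) (hθ : 0 ≤ θ) (hθ1 : θ ≤ 1 / 2) {r0 : ℕ}
    (h : A * Real.exp 1 ≤ θ * r0) (s : Finset ℕ) (hs : ∀ r ∈ s, r0 ≤ r) :
    ∑ r ∈ s, A ^ r / (r.factorial : ℝ) ≤ 2 * θ ^ r0 := by
  have h1 : ∀ r ∈ s, A ^ r / (r.factorial : ℝ) ≤ θ ^ r0 * θ ^ (r - r0) := by
    intro r hr
    rw [← pow_add, Nat.add_sub_cancel' (hs r hr)]
    refine pow_div_factorial_le_pow hA (h.trans ?_)
    exact mul_le_mul_of_nonneg_left (by exact_mod_cast hs r hr) hθ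
  refine (Finset.sum_le_sum h1).trans ?_
  rw [← Finset.mul_sum, mul_comm 2]
  refine mul_le_mul_of_nonneg_left ?_ (by positivity)
  have h2 : Function.Injective (fun x : ℕ => x) := fun _ _ h => h
  have h3 : ∑ r ∈ s, θ ^ (r - r0) = ∑ k ∈ s.image (fun r => r - r0), θ ^ k := by
    rw [Finset.sum_image]
    intro a ha b hb hab
    have := hs a ha; have := hs b hb
    simp only at hab
    omega
  rw [h3]
  have h4 : HasSum (fun k : ℕ => θ ^ k) (1 - θ)⁻¹ :=
    hasSum_geometric_of_lt_one hθ (by linarith)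
  refine (sum_le_hasSum _ (fun _ _ => by positivity) h4).trans ?_
  rw [inv_le_comm₀ (by linarith) (by norm_num)]
  linarith

/-- the three regimes of the total number `r` of objects: `r ≤ r0` (sharp constant), `r0 < r ≤ r1`
(crude constant, factorial), `r1 < r` (anything summable) -/
theorem regimes (S : ℕ → ℝ) {M k1 k2 A θ : ℝ} (r0 r1 R : ℕ) (hM : 0 ≤ M) (hk1 : 0 ≤ k1)
    (hk2 : 0 ≤ k2) (hA : 0 ≤ A) (hθ : 0 ≤ θ) (hθ1 : θ ≤ 1 / 2) (hAθ : A * Real.exp 1 ≤ θ * r0)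
    (h1 : ∀ r ≤ r0, S r ≤ M * k1 * (A ^ r / (r.factorial : ℝ)))
    (h2 : ∀ r, r0 < r → r ≤ r1 → S r ≤ M * k2 * (A ^ r / (r.factorial : ℝ)))
    (h3 : ∀ r, r0 < r → r1 < r → S r ≤ M * (1 / 2) ^ r) :
    ∑ r ∈ range R, S r ≤ M * (k1 * Real.exp A + k2 * (2 * θ ^ r0) + 2) := by
  classical
  have hs : ∀ r ∈ range R, S r ≤
      (if r ≤ r0 then M * k1 * (A ^ r / (r.factorial : ℝ)) else 0) +
      (if r0 < r then M * k2 * (A ^ r / (r.factorial : ℝ)) else 0) + M * (1 / 2) ^ r := by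
    intro r _
    have e1 : 0 ≤ M * (1 / 2 : ℝ) ^ r := by positivity
    rcases le_or_gt r r0 with h | h
    · rw [if_pos h, if_neg (not_lt.mpr h)]
      linarith [h1 r h]
    · rw [if_neg (not_le.mpr h), if_pos h]
      rcases le_or_gt r r1 with h' | h'
      · linarith [h2 r h h']
      · have := h3 r h h'
        have e2 : 0 ≤ M * k2 * (A ^ r / (r.factorial : ℝ)) := by positivity
        linarith
  refine (Finset.sum_le_sum hs).trans ?_
  rw [Finset.sum_add_distrib, Finset.sum_add_distrib, ← Finset.sum_filter, ← Finset.sum_filter,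
    ← Finset.mul_sum, ← Finset.mul_sum, ← Finset.mul_sum]
  have a1 := sum_pow_div_factorial_le hA ((range R).filter (fun r => r ≤ r0))
  have a2 := tail_le hA hθ hθ1 hAθ ((range R).filter (fun r => r0 < r))
    (fun r hr => (Finset.mem_filter.mp hr).2.le)
  have a3 : ∑ r ∈ range R, (1 / 2 : ℝ) ^ r ≤ 2 := by
    have h4 : HasSum (fun k : ℕ => (1 / 2 : ℝ) ^ k) 2 := hasSum_geometric_two
    exact sum_le_hasSum _ (fun _ _ => by positivity) h4
  have b1 := mul_le_mul_of_nonneg_left a1 (mul_nonneg hM hk1)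
  have b2 := mul_le_mul_of_nonneg_left a2 (mul_nonneg hM hk2)
  have b3 := mul_le_mul_of_nonneg_left a3 hM
  calc _ ≤ M * k1 * Real.exp A + M * k2 * (2 * θ ^ r0) + M * 2 := by linarith
    _ = _ := by ring

/-- very many objects (`r ≥ L^2`): the factorial beats `exp (C (log r)^2 L)` -/
theorem huge (C a c' : ℝ) (hC : 0 ≤ C) (ha : 0 < a) (hc' : 0 ≤ c') :
    ∃ r2 : ℕ, ∀ r : ℕ, r2 ≤ r → ∀ L : ℝ, 1 ≤ L → L ^ 2 ≤ r → ∀ A : ℝ, 0 ≤ A → A ≤ a * L →
      Real.exp (C * Real.log r ^ 2 * L + c' * L) * (A ^ r / (r.factorial : ℝ)) ≤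
        (1 / 2 : ℝ) ^ r := by
  -- `log r ≥ 2 (log (2 a e) + 1)` and `C (log r)^2 + c' ≤ √r`
  have l1 : ∀ᶠ x : ℝ in Filter.atTop, 2 * (Real.log (2 * a) + 2) ≤ Real.log x :=
    Real.tendsto_log_atTop.eventually_ge_atTop _
  have l2 : ∀ᶠ x : ℝ in Filter.atTop, C * Real.log x ^ 2 + c' ≤ Real.sqrt x := by
    have h1 : (fun x : ℝ => Real.log x ^ (2 : ℝ)) =o[Filter.atTop] fun x => x ^ (1 / 2 : ℝ) :=
      isLittleO_log_rpow_rpow_atTop 2 (by norm_num)
    have h2 : (fun _ : ℝ => c') =o[Filter.atTop] fun x : ℝ => x ^ (1 / 2 : ℝ) := by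
      refine Asymptotics.isLittleO_const_left.mpr (Or.inr ?_)
      exact (Filter.tendsto_abs_atTop_atTop.comp (tendsto_rpow_atTop (by norm_num)))
    have h3 : (fun x : ℝ => C * Real.log x ^ (2 : ℝ) + c') =o[Filter.atTop]
        fun x => x ^ (1 / 2 : ℝ) := (h1.const_mul_left C).add h2
    filter_upwards [h3.bound (c := 1) one_pos, Filter.eventually_ge_atTop 0] with x hx hx0
    rw [Real.norm_eq_abs, Real.norm_eq_abs, one_mul, abs_of_nonneg (Real.rpow_nonneg hx0 _)] at hx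
    rw [Real.sqrt_eq_rpow]
    have := (le_abs_self _).trans hx
    rwa [Real.rpow_two] at this
  obtain ⟨x0, hx0⟩ := Filter.eventually_atTop.mp (l1.and l2)
  refine ⟨max ⌈x0⌉₊ 1, fun r hr L hL hLr A hA0 hA => ?_⟩
  have hr1 : 1 ≤ r := (le_max_right _ _).trans hr
  have hr1' : (1 : ℝ) ≤ r := by exact_mod_cast hr1
  have hrpos : (0 : ℝ) < r := by linarith
  have hrx : x0 ≤ r := (Nat.le_ceil x0).trans (by exact_mod_cast (le_max_left _ _).trans hr)
  obtain ⟨g1, g2⟩ := hx0 r hrx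
  have hLs : L ≤ Real.sqrt r := Real.le_sqrt_of_sq_le hLr
  have hlog0 : 0 ≤ Real.log r := Real.log_nonneg hr1'
  -- `A^r / r! ≤ (A e / r)^r`
  have q1 : A ^ r / (r.factorial : ℝ) ≤ (A * Real.exp 1 / r) ^ r := by
    refine pow_div_factorial_le_pow hA0 ?_
    rw [div_mul_cancel₀ _ hrpos.ne']
  have q2 : A * Real.exp 1 / r ≤ a * Real.exp 1 / Real.sqrt r := by
    have hsq : Real.sqrt r * Real.sqrt r = r := Real.mul_self_sqrt hrpos.le
    have hspos : 0 < Real.sqrt r := Real.sqrt_pos.mpr hrpos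
    rw [div_le_div_iff₀ hrpos hspos]
    have : A ≤ a * Real.sqrt r := hA.trans (mul_le_mul_of_nonneg_left hLs ha.le)
    calc A * Real.exp 1 * Real.sqrt r ≤ a * Real.sqrt r * Real.exp 1 * Real.sqrt r := by
          have := Real.exp_pos 1
          gcongr
      _ = a * Real.exp 1 * (Real.sqrt r * Real.sqrt r) := by ring
      _ = _ := by rw [hsq]
  have q3 : a * Real.exp 1 / Real.sqrt r ≤ Real.exp (-(1 + Real.log 2)) := by
    have hspos : 0 < Real.sqrt r := Real.sqrt_pos.mpr hrpos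
    rw [div_le_iff₀ hspos, ← Real.log_le_log_iff (by positivity) (by positivity),
      Real.log_mul (by positivity) (by positivity), Real.log_mul (by positivity) (by positivity),
      Real.log_exp, Real.log_exp, Real.log_sqrt hrpos.le]
    rw [Real.log_mul (by norm_num) ha.ne'] at g1
    linarith
  have q4 : (A * Real.exp 1 / r) ^ r ≤ Real.exp (-(1 + Real.log 2)) ^ r :=
    pow_le_pow_left₀ (by positivity) (q2.trans q3) r
  have q5 : C * Real.log r ^ 2 * L + c' * L ≤ r := by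
    have hsq : Real.sqrt r * Real.sqrt r = r := Real.mul_self_sqrt hrpos.le
    calc C * Real.log r ^ 2 * L + c' * L = (C * Real.log r ^ 2 + c') * L := by ring
      _ ≤ (C * Real.log r ^ 2 + c') * Real.sqrt r :=
          mul_le_mul_of_nonneg_left hLs (by positivity)
      _ ≤ Real.sqrt r * Real.sqrt r := mul_le_mul_of_nonneg_right g2 (Real.sqrt_nonneg _)
      _ = r := hsq
  calc Real.exp (C * Real.log r ^ 2 * L + c' * L) * (A ^ r / (r.factorial : ℝ))
      ≤ Real.exp r * Real.exp (-(1 + Real.log 2)) ^ r :=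
        mul_le_mul (Real.exp_le_exp.mpr q5) (q1.trans q4) (by positivity) (Real.exp_pos _).le
    _ = (1 / 2 : ℝ) ^ r := by
        rw [← Real.exp_nat_mul, ← Real.exp_add]
        have : (r : ℝ) + r * (-(1 + Real.log 2)) = r * (-Real.log 2) := by ring
        rw [this, Real.exp_nat_mul, Real.exp_neg, Real.exp_log (by norm_num)]
        norm_num

end NUO
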