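import Pool.Agent.NUO.DispQ
import Pool.Agent.NUO.Sum
import Pool.Agent.NUWC.LemA

/-!
# Quadratic errors of localised fields (P4)

Fields and densities bounded by `A * bmaj s τ c x = A * ∑ i ∈ s, exp (- c |x - τ i|)`:
pair sums, `L¹`, `L²`, products, values at the points, convolution with an integrable kernel
(`V`), energies; everything is bounded by the window energy `win s τ = ∑_w n_w ^ 2`.
-/

set_option autoImplicit false

open MeasureTheory Set Filter Topology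

noncomputable section

namespace NUEnW

open NUO NUDispE NUDispW NUDispP NUDispQ

variable {κ : Type*}

/-- constant of the pair sums -/
def Kp (d : ℝ) : ℝ := Real.exp d * Sd d

/-- constant of the products of two fields -/
def Kc (c : ℝ) : ℝ := 4 / c * Kp (c / 2)

theorem Kp_pos {d : ℝ} (hd : 0 < d) : 0 < Kp d := mul_pos (Real.exp_pos _) (Sd_pos hd)

theorem Kc_pos {c : ℝ} (hc : 0 < c) : 0 < Kc c := mul_pos (by positivity) (Kp_pos (by positivity))

/-! ### windows -/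

theorem winO_eq {ι : Type*} [Fintype ι] (x : ι → ℝ) : win Finset.univ x =
    ∑ w ∈ Finset.univ.image (fun i => ⌊x i⌋), (cnt x w : ℝ) ^ 2 := rfl

theorem cnt_zero {ι : Type*} [Fintype ι] (x : ι → ℝ) {w : ℤ}
    (h : w ∉ Finset.univ.image (fun i => ⌊x i⌋)) : cnt x w = 0 := by
  unfold cnt
  rw [Finset.card_eq_zero, Finset.filter_eq_empty_iff]
  intro i _ hi
  exact h (Finset.mem_image.2 ⟨i, Finset.mem_univ _, hi⟩)

/-- the window energy is the sum over every set of windows which contains the points -/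
theorem sum_cnt_sq_eq {ι : Type*} [Fintype ι] (x : ι → ℝ) {W : Finset ℤ} (hW : ∀ i, ⌊x i⌋ ∈ W) :
    ∑ w ∈ W, (cnt x w : ℝ) ^ 2 = win Finset.univ x := by
  rw [winO_eq]
  symm
  refine Finset.sum_subset (fun w hw => ?_) fun w _ hw => ?_
  · obtain ⟨i, _, rfl⟩ := Finset.mem_image.1 hw
    exact hW i
  · rw [cnt_zero x hw]
    simp

/-- every sum over windows is at most the window energy -/
theorem sum_cnt_sq_le {ι : Type*} [Fintype ι] (x : ι → ℝ) (W : Finset ℤ) :
    ∑ w ∈ W, (cnt x w : ℝ) ^ 2 ≤ win Finset.univ x := by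
  classical
  rw [← sum_cnt_sq_eq x (W := W ∪ Finset.univ.image (fun i => ⌊x i⌋)) fun i =>
    Finset.mem_union_right _ (Finset.mem_image.2 ⟨i, Finset.mem_univ _, rfl⟩)]
  exact Finset.sum_le_sum_of_subset_of_nonneg Finset.subset_union_left fun _ _ _ => sq_nonneg _

/-- number of points in one window -/
theorem card_win_le (s : Finset κ) (τ : κ → ℝ) (w : ℤ) :
    ((s.filter fun i => ⌊τ i⌋ = w).card : ℝ) ≤ √(win s τ) := by
  apply Real.le_sqrt_of_sq_le
  by_cases hw : w ∈ s.image (fun i => ⌊τ i⌋)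
  · exact Finset.single_le_sum (f := fun w => ((s.filter fun i => ⌊τ i⌋ = w).card : ℝ) ^ 2)
      (fun _ _ => sq_nonneg _) hw
  · have : (s.filter fun i => ⌊τ i⌋ = w) = ∅ := by
      rw [Finset.filter_eq_empty_iff]
      intro i hi h
      exact hw (Finset.mem_image.2 ⟨i, hi, h⟩)
    rw [this]
    simpa using win_nonneg s τ

/-! ### the majorant -/

theorem bmaj_anti {c d : ℝ} (h : c ≤ d) (s : Finset κ) (τ : κ → ℝ) (x : ℝ) :
    bmaj s τ d x ≤ bmaj s τ c x := by
  unfold bmaj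
  refine Finset.sum_le_sum fun i _ => Real.exp_le_exp.2 ?_
  have := abs_nonneg (x - τ i)
  nlinarith

theorem bmaj_le_card {c : ℝ} (hc : 0 ≤ c) (s : Finset κ) (τ : κ → ℝ) (x : ℝ) :
    bmaj s τ c x ≤ s.card := by
  unfold bmaj
  calc ∑ i ∈ s, Real.exp (-(c * |x - τ i|)) ≤ ∑ i ∈ s, (1 : ℝ) := Finset.sum_le_sum fun i _ => by
        rw [Real.exp_le_one_iff]
        have := abs_nonneg (x - τ i)
        have := mul_nonneg hc this
        linarith
    _ = s.card := by simp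

theorem bmaj_int {c : ℝ} (hc : 0 < c) (s : Finset κ) (τ : κ → ℝ) :
    ∫ x, bmaj s τ c x = 2 / c * s.card := by
  unfold bmaj
  rw [integral_finsetSum _ fun i _ => (int_exp_abs hc (τ i)).1]
  simp_rw [(int_exp_abs hc _).2]
  rw [Finset.sum_const, nsmul_eq_mul]
  ring

/-- values at the points -/
theorem sum_bmaj_le {c : ℝ} (hc : 0 < c) (s : Finset κ) (τ : κ → ℝ) :
    ∑ i ∈ s, bmaj s τ c (τ i) ≤ Kp c * win s τ := pair_exp_le hc s τ

/-- pointwise bound by the largest number of points in a window -/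
theorem bmaj_le_sup {c N : ℝ} (hc : 0 < c) (s : Finset κ) (τ : κ → ℝ)
    (hN : ∀ w : ℤ, ((s.filter fun i => ⌊τ i⌋ = w).card : ℝ) ≤ N) (x : ℝ) :
    bmaj s τ c x ≤ Kp c * N := by
  have h1 : ∀ i, Real.exp (-(c * |x - τ i|)) ≤
      Real.exp c * Real.exp (-(c * |((⌊x⌋ : ℤ) : ℝ) - ((⌊τ i⌋ : ℤ) : ℝ)|)) := by
    intro i
    rw [← Real.exp_add]
    apply Real.exp_le_exp.2
    have a1 := Int.floor_le x
    have a2 := Int.lt_floor_add_one x
    have a3 := Int.floor_le (τ i)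
    have a4 := Int.lt_floor_add_one (τ i)
    have h2 : |((⌊x⌋ : ℤ) : ℝ) - ((⌊τ i⌋ : ℤ) : ℝ)| ≤ |x - τ i| + 1 := by
      rw [abs_le]
      have b1 := le_abs_self (x - τ i)
      have b2 := neg_abs_le (x - τ i)
      constructor <;> linarith
    nlinarith
  unfold bmaj
  refine (Finset.sum_le_sum fun i _ => h1 i).trans ?_
  rw [← Finset.mul_sum, Kp, mul_assoc]
  refine mul_le_mul_of_nonneg_left ?_ (Real.exp_pos _).le
  rw [Finset.sum_comp (fun w : ℤ => Real.exp (-(c * |((⌊x⌋ : ℤ) : ℝ) - (w : ℝ)|))) fun i => ⌊τ i⌋]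
  have hN0 : 0 ≤ N := (Nat.cast_nonneg _).trans (hN 0)
  calc ∑ w ∈ s.image (fun i => ⌊τ i⌋), (s.filter fun i => ⌊τ i⌋ = w).card •
        Real.exp (-(c * |((⌊x⌋ : ℤ) : ℝ) - (w : ℝ)|)) ≤
      ∑ w ∈ s.image (fun i => ⌊τ i⌋), N * Real.exp (-(c * |((⌊x⌋ : ℤ) : ℝ) - (w : ℝ)|)) :=
        Finset.sum_le_sum fun w _ => by
          rw [nsmul_eq_mul]
          exact mul_le_mul_of_nonneg_right (hN w) (Real.exp_pos _).le
    _ = N * ∑ w ∈ s.image (fun i => ⌊τ i⌋), Real.exp (-(c * |((⌊x⌋ : ℤ) : ℝ) - (w : ℝ)|)) := by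
        rw [Finset.mul_sum]
    _ ≤ N * Sd c := mul_le_mul_of_nonneg_left (sum_exp_le hc _ _) hN0
    _ = Sd c * N := mul_comm _ _

theorem bmaj_le_sqrt {c : ℝ} (hc : 0 < c) (s : Finset κ) (τ : κ → ℝ) (x : ℝ) :
    bmaj s τ c x ≤ Kp c * √(win s τ) := bmaj_le_sup hc s τ (card_win_le s τ) x

/-! ### integrals of localised fields -/

variable {A B c d : ℝ} {s : Finset κ} {τ : κ → ℝ} {μ F F' : ℝ → ℝ}

theorem sq_int' (hc : 0 < c) (s : Finset κ) (τ : κ → ℝ) :
    ∫ x, bmaj s τ c x ^ 2 ≤ Kc c * win s τ := (bmaj_sq_int hc s τ).2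

theorem abs_int (hc : 0 < c) (hA : 0 ≤ A) (hμm : AEStronglyMeasurable μ)
    (hμ : ∀ x, |μ x| ≤ A * bmaj s τ c x) :
    Integrable μ ∧ ∫ x, |μ x| ≤ A * (2 / c) * s.card ∧ ∫ x, |μ x| ≤ A * (2 / c) * win s τ := by
  have hi : Integrable μ := Integrable.mono' ((bmaj_integrable hc s τ).const_mul A) hμm
    (ae_of_all _ fun x => by rw [Real.norm_eq_abs]; exact hμ x)
  have h1 : ∫ x, |μ x| ≤ A * (2 / c) * s.card := by
    refine (integral_mono hi.abs ((bmaj_integrable hc s τ).const_mul A) hμ).trans ?_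
    rw [integral_const_mul, bmaj_int hc]
    exact (mul_assoc _ _ _).symm.le
  exact ⟨hi, h1, h1.trans (mul_le_mul_of_nonneg_left (card_le_win s τ) (by positivity))⟩

/-- product of two localised functions -/
theorem mul_int (hc : 0 < c) (hd : 0 < d) (hA : 0 ≤ A) (hB : 0 ≤ B)
    (hμm : AEStronglyMeasurable μ) (hFm : AEStronglyMeasurable F)
    (hμ : ∀ x, |μ x| ≤ A * bmaj s τ c x) (hF : ∀ x, |F x| ≤ B * bmaj s τ d x) :
    Integrable (fun x => μ x * F x) ∧
      ∫ x, |μ x * F x| ≤ A * B * Kc (min c d) * win s τ := by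
  have hm : 0 < min c d := lt_min hc hd
  have h0 : ∀ x, |μ x * F x| ≤ A * B * bmaj s τ (min c d) x ^ 2 := by
    intro x
    rw [abs_mul]
    have h1 := (hμ x).trans (mul_le_mul_of_nonneg_left (bmaj_anti (min_le_left c d) s τ x) hA)
    have h2 := (hF x).trans (mul_le_mul_of_nonneg_left (bmaj_anti (min_le_right c d) s τ x) hB)
    refine (mul_le_mul h1 h2 (abs_nonneg _) (mul_nonneg hA (bmaj_nonneg _ _ _ _))).trans_eq ?_
    ring
  have hi2 := (bmaj_sq_int hm s τ).1.const_mul (A * B)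
  have hi : Integrable (fun x => μ x * F x) := Integrable.mono' hi2 (hμm.mul hFm)
    (ae_of_all _ fun x => by rw [Real.norm_eq_abs]; exact h0 x)
  refine ⟨hi, (integral_mono hi.abs hi2 h0).trans ?_⟩
  rw [integral_const_mul, mul_assoc (A * B)]
  exact mul_le_mul_of_nonneg_left (sq_int' hm s τ) (mul_nonneg hA hB)

theorem mul_int_abs (hc : 0 < c) (hd : 0 < d) (hA : 0 ≤ A) (hB : 0 ≤ B)
    (hμm : AEStronglyMeasurable μ) (hFm : AEStronglyMeasurable F)
    (hμ : ∀ x, |μ x| ≤ A * bmaj s τ c x) (hF : ∀ x, |F x| ≤ B * bmaj s τ d x) :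
    |∫ x, μ x * F x| ≤ A * B * Kc (min c d) * win s τ :=
  (abs_integral_le_integral_abs).trans (mul_int hc hd hA hB hμm hFm hμ hF).2

/-- the same on a set -/
theorem mul_int_set (hc : 0 < c) (hd : 0 < d) (hA : 0 ≤ A) (hB : 0 ≤ B)
    (hμm : AEStronglyMeasurable μ) (hFm : AEStronglyMeasurable F)
    (hμ : ∀ x, |μ x| ≤ A * bmaj s τ c x) (hF : ∀ x, |F x| ≤ B * bmaj s τ d x) (S : Set ℝ) :
    |∫ x in S, μ x * F x| ≤ A * B * Kc (min c d) * win s τ := by
  obtain ⟨h1, h2⟩ := mul_int hc hd hA hB hμm hFm hμ hF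
  refine (abs_integral_le_integral_abs).trans (le_trans ?_ h2)
  exact setIntegral_le_integral h1.abs (ae_of_all _ fun x => abs_nonneg _)

theorem sq_int (hc : 0 < c) (hB : 0 ≤ B) (hFm : AEStronglyMeasurable F)
    (hF : ∀ x, |F x| ≤ B * bmaj s τ c x) :
    Integrable (fun x => F x ^ 2) ∧ ∫ x, F x ^ 2 ≤ B ^ 2 * Kc c * win s τ := by
  obtain ⟨h1, h2⟩ := mul_int hc hc hB hB hFm hFm hF hF
  rw [min_self] at h2
  have e : (fun x => F x ^ 2) = fun x => F x * F x := by
    funext x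
    ring
  rw [e]
  refine ⟨h1, ?_⟩
  have e2 : ∫ x, F x * F x = ∫ x, |F x * F x| := by
    congr 1
    funext x
    rw [abs_of_nonneg (mul_self_nonneg _)]
  rw [e2, sq B]
  exact h2

/-- `∫ F² + F'²` -/
theorem c1_int (hc : 0 < c) (hB : 0 ≤ B) (hFm : AEStronglyMeasurable F)
    (hFm' : AEStronglyMeasurable F') (hF : ∀ x, |F x| ≤ B * bmaj s τ c x)
    (hF' : ∀ x, |F' x| ≤ B * bmaj s τ c x) :
    Integrable (fun x => F x ^ 2 + F' x ^ 2) ∧
      ∫ x, (F x ^ 2 + F' x ^ 2) ≤ 2 * B ^ 2 * Kc c * win s τ := by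
  obtain ⟨h1, h2⟩ := sq_int hc hB hFm hF
  obtain ⟨h3, h4⟩ := sq_int hc hB hFm' hF'
  refine ⟨h1.add h3, ?_⟩
  rw [integral_add h1 h3]
  linarith

/-- values at the points -/
theorem sum_at_le (hc : 0 < c) (hB : 0 ≤ B) (hF : ∀ x, |F x| ≤ B * bmaj s τ c x) :
    ∑ i ∈ s, |F (τ i)| ≤ B * Kp c * win s τ := by
  refine (Finset.sum_le_sum fun i _ => hF (τ i)).trans ?_
  rw [← Finset.mul_sum, mul_assoc]
  exact mul_le_mul_of_nonneg_left (sum_bmaj_le hc s τ) hB

/-- a sum of localised fields -/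
theorem field_le (f : κ → ℝ → ℝ) (h : ∀ i ∈ s, ∀ x, |f i x| ≤ B * Real.exp (-(c * |x - τ i|)))
    (x : ℝ) : |∑ i ∈ s, f i x| ≤ B * bmaj s τ c x := by
  refine (Finset.abs_sum_le_sum_abs _ _).trans ?_
  rw [bmaj, Finset.mul_sum]
  exact Finset.sum_le_sum fun i hi => h i hi x

/-! ### convolution -/

/-- convolution with a kernel which decays exponentially -/
theorem conv_le (hA : 0 ≤ A) (hμm : AEStronglyMeasurable μ)
    (hμ : ∀ x, |μ x| ≤ A * bmaj s τ c x) {k : ℝ → ℝ}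
    (hk : Integrable fun t => |k t| * Real.exp (c * |t|)) (hkm : Measurable k) (hc : 0 ≤ c) (x : ℝ) :
    Integrable (fun u => μ u * k (x - u)) ∧
      |∫ u, μ u * k (x - u)| ≤ A * (∫ t, |k t| * Real.exp (c * |t|)) * bmaj s τ c x := by
  set K := ∫ t, |k t| * Real.exp (c * |t|) with hK
  have hkx : Integrable fun u => |k (x - u)| * Real.exp (c * |x - u|) := hk.comp_sub_left x
  have hKx : ∫ u, |k (x - u)| * Real.exp (c * |x - u|) = K :=
    integral_sub_left_eq_self (fun t => |k t| * Real.exp (c * |t|)) volume x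
  have hp : ∀ u, |μ u * k (x - u)| ≤
      A * bmaj s τ c x * (|k (x - u)| * Real.exp (c * |x - u|)) := by
    intro u
    have h1 : bmaj s τ c u ≤ bmaj s τ c x * Real.exp (c * |x - u|) := by
      unfold bmaj
      rw [Finset.sum_mul]
      refine Finset.sum_le_sum fun i _ => ?_
      rw [← Real.exp_add]
      apply Real.exp_le_exp.2
      have h2 : |x - τ i| ≤ |x - u| + |u - τ i| := abs_sub_le x u (τ i)
      nlinarith
    rw [abs_mul]
    calc |μ u| * |k (x - u)| ≤ A * (bmaj s τ c x * Real.exp (c * |x - u|)) * |k (x - u)| := by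
          refine mul_le_mul_of_nonneg_right ((hμ u).trans ?_) (abs_nonneg _)
          exact mul_le_mul_of_nonneg_left h1 hA
      _ = _ := by ring
  have hi : Integrable (fun u => μ u * k (x - u)) := by
    refine Integrable.mono' (hkx.const_mul (A * bmaj s τ c x)) ?_ (ae_of_all _ fun u => by
      rw [Real.norm_eq_abs]; exact hp u)
    exact hμm.mul (hkm.comp (measurable_const.sub measurable_id)).aestronglyMeasurable
  refine ⟨hi, ?_⟩
  refine (abs_integral_le_integral_abs).trans ((integral_mono hi.abs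
    (hkx.const_mul (A * bmaj s τ c x)) hp).trans ?_)
  rw [integral_const_mul, hKx]
  exact le_of_eq (by ring)

/-- exponential moment of `V` -/
def KV (c : ℝ) : ℝ := ∫ t, |NUMF.V t| * Real.exp (c * |t|)

theorem KV_nonneg (c : ℝ) : 0 ≤ KV c := integral_nonneg fun _ => by positivity

theorem V_exp_int (hc : c < 2) : Integrable fun t => |NUMF.V t| * Real.exp (c * |t|) := by
  set b := max c 0 with hb
  have hb2 : b < 2 := max_lt hc (by norm_num)
  have hb0 : 0 ≤ b := le_max_right _ _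
  have hVm : Measurable NUMF.V := NUWC.V_meas
  have h1 : Integrable fun t => |NUMF.V t| * Real.exp b + 24 * Real.exp (-((2 - b) * |t|)) :=
    (NUMF.V_integral.1.abs.mul_const _).add ((integrable_exp_abs (by linarith)).const_mul 24)
  refine Integrable.mono' h1 ?_ (ae_of_all _ fun t => ?_)
  · exact (hVm.abs.mul (by fun_prop)).aestronglyMeasurable
  · rw [Real.norm_eq_abs, abs_of_nonneg (by positivity)]
    have h2 : Real.exp (c * |t|) ≤ Real.exp (b * |t|) :=
      Real.exp_le_exp.2 (mul_le_mul_of_nonneg_right (le_max_left _ _) (abs_nonneg _))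
    rcases le_or_gt |t| 1 with h | h
    · have h3 : Real.exp (b * |t|) ≤ Real.exp b := Real.exp_le_exp.2 (by nlinarith [abs_nonneg t])
      have h4 : |NUMF.V t| * Real.exp (c * |t|) ≤ |NUMF.V t| * Real.exp b :=
        mul_le_mul_of_nonneg_left (h2.trans h3) (abs_nonneg _)
      have := Real.exp_pos (-((2 - b) * |t|))
      linarith
    · have h3 := NUWC.V_abs_le h.le
      rw [NUWC.V_abs] at h3
      have h4 : |NUMF.V t| * Real.exp (c * |t|) ≤ 24 * Real.exp (-(2 * |t|)) * Real.exp (b * |t|) :=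
        mul_le_mul h3 h2 (Real.exp_pos _).le (by positivity)
      have h5 : 24 * Real.exp (-(2 * |t|)) * Real.exp (b * |t|) = 24 * Real.exp (-((2 - b) * |t|)) := by
        rw [mul_assoc, ← Real.exp_add]
        congr 2
        ring
      rw [h5] at h4
      have : 0 ≤ |NUMF.V t| * Real.exp b := by positivity
      linarith

theorem Vmu_le (hc : 0 ≤ c) (hc2 : c < 2) (hA : 0 ≤ A) (hμm : AEStronglyMeasurable μ)
    (hμ : ∀ x, |μ x| ≤ A * bmaj s τ c x) (x : ℝ) :
    |∫ u, μ u * NUMF.V (x - u)| ≤ A * KV c * bmaj s τ c x :=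
  (conv_le hA hμm hμ (V_exp_int hc2) NUWC.V_meas hc x).2

theorem Vmu_meas {ρ : ℝ → ℝ} (hρ : Measurable ρ) :
    Measurable fun x => ∫ u, ρ u * NUMF.V (x - u) := by
  have h1 : Measurable fun z : ℝ × ℝ => ρ z.2 * NUMF.V (z.1 - z.2) :=
    (hρ.comp measurable_snd).mul (NUWC.V_meas.comp (measurable_fst.sub measurable_snd))
  exact (h1.stronglyMeasurable.integral_prod_right' (ν := volume)).measurable

/-- **the energy `⟨μ, V ν⟩` of two localised densities** -/
theorem energy_V_le (hc : 0 < c) (hc2 : c < 2) (hA : 0 ≤ A) (hB : 0 ≤ B) {ν : ℝ → ℝ}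
    (hμm : Measurable μ) (hνm : Measurable ν)
    (hμ : ∀ x, |μ x| ≤ A * bmaj s τ c x) (hν : ∀ x, |ν x| ≤ B * bmaj s τ c x) :
    Integrable (fun x => μ x * ∫ u, ν u * NUMF.V (x - u)) ∧
      |∫ x, μ x * ∫ u, ν u * NUMF.V (x - u)| ≤ A * B * (KV c * Kc c) * win s τ := by
  have h1 := fun x => Vmu_le hc.le hc2 hB hνm.aestronglyMeasurable hν x
  have h2 := mul_int hc hc hA (mul_nonneg hB (KV_nonneg c)) hμm.aestronglyMeasurable
    (Vmu_meas hνm).aestronglyMeasurable hμ h1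
  refine ⟨h2.1, (abs_integral_le_integral_abs).trans (h2.2.trans_eq ?_)⟩
  rw [min_self]
  ring

/-! ### the displacement field of a configuration of objects -/

/-- the displacement field is of class `C¹`, localised with size `400 ε / sin⁴`, rate `2` -/
theorem dFO_C1 {δ0 ε ε1 : ℝ} {η η' : ℝ → ℝ} (P : Par) {r : ℕ} (O : Fin r → Xo)
    (h0 : 0 < δ0) (hε2 : δ0 + ε ≤ 1 / 2)
    (hη : ∀ t, |η t| ≤ ε1) (hη' : ∀ t, |η' t| ≤ ε1) (hdη : ∀ t, HasDerivAt η (η' t) t)
    (hcη : Continuous η') (hd : 0 ≤ P.d r) (hρ0 : ∀ i, 0 ≤ rr P O i) (hρ1 : ∀ i, rr P O i ≤ 1)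
    (he : ∀ i, P.d r + rr P O i / NUMF.l + ε1 / NUMF.l ≤ ε) (hjL : Off (δ0 + ε) P.jL)
    (he0 : Off (δ0 + ε) P.e) (s : Bool) :
    ∃ F' : ℝ → ℝ, (∀ x, HasDerivAt (dFO P O η s) (F' x) x) ∧ Continuous F' ∧
      (∀ x, |dFO P O η s x| ≤ 400 * ε / Real.sin (δ0 * NUMF.l) ^ 4 *
        bmaj Finset.univ (fun i => ht (O i)) 2 x) ∧
      (∀ x, |F' x| ≤ 400 * ε / Real.sin (δ0 * NUMF.l) ^ 4 *
        bmaj Finset.univ (fun i => ht (O i)) 2 x) := by
  have h1 : ∀ i, SFe (400 * ε / Real.sin (δ0 * NUMF.l) ^ 4) (ht (O i))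
      (fun t => Real.log (potN P O i s (NUP1.vl (NUP1.l - η t) t)) - PT s (cref P O i) 0 t) :=
    fun i => SFe_potN P O i h0 hε2 hη hη' hdη hcη hd (hρ0 i) (hρ1 i) (he i) hjL he0 s
  choose f' hf' using h1
  refine ⟨fun x => ∑ i, f' i x, fun x => ?_, continuous_finsetSum _ fun i _ => (hf' i).cont,
    fun x => ?_, fun x => ?_⟩
  · exact HasDerivAt.fun_sum fun i _ => (hf' i).deriv x
  · exact sum_abs_le Finset.univ (fun i => ht (O i))
      (fun i t => Real.log (potN P O i s (NUP1.vl (NUP1.l - η t) t)) - PT s (cref P O i) 0 t)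
      x fun i _ => (hf' i).le x
  · exact sum_abs_le Finset.univ (fun i => ht (O i)) f' x fun i _ => (hf' i).le' x

/-- **size of the quadratic errors**: the spread `d r ≤ 1 / (a (r + 1)²)` of the lines and radii
`≤ d r` cost a constant, the curve `ε1` costs `C ε1 win` -/
theorem disp_win_le {r : ℕ} (τ : Fin r → ℝ) {a C D ε ε1 : ℝ} (ha : 0 < a) (hC : 0 ≤ C) (hD : 0 ≤ D)
    (hε : ε ≤ D * (1 / (a * (r + 1) ^ 2)) + D * ε1) :
    C * ε * win Finset.univ τ ≤ C * D / a + C * D * ε1 * win Finset.univ τ := by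
  have h1 := win_nonneg Finset.univ τ
  have h2 := win_le_card_sq Finset.univ τ
  rw [Finset.card_univ, Fintype.card_fin] at h2
  have h3 : win Finset.univ τ / (a * (r + 1) ^ 2) ≤ 1 / a := by
    rw [div_le_div_iff₀ (by positivity) ha]
    have hr : (0 : ℝ) ≤ r := Nat.cast_nonneg r
    nlinarith
  calc C * ε * win Finset.univ τ ≤
      C * (D * (1 / (a * (r + 1) ^ 2)) + D * ε1) * win Finset.univ τ := by gcongr
    _ = C * D * (win Finset.univ τ / (a * (r + 1) ^ 2)) + C * D * ε1 * win Finset.univ τ := by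
        ring
    _ ≤ C * D * (1 / a) + C * D * ε1 * win Finset.univ τ := by gcongr
    _ = _ := by ring

end NUEnW
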