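import Pool.Agent.NUM3.StabInst
import Pool.Agent.NUO.EnW
import Pool.Agent.NUP1S.Obw

/-!
# The product form of the stability bound

`stabP`: the product of the pair weights of the objects and the exponential of the energy of the gas.
-/

set_option autoImplicit false

noncomputable section

open Finset

namespace NUStabP

open NUO NUDispO NUDirP NUDispW Pool.Agent.NUM3

/-- the energy of the gas of a configuration of objects, with the response densities `sX`, `sY`
(quanta of the own species, of the other species) and the density `τ` of the splitting -/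
def EGO (sX sY τ : Kind → ℝ → ℝ) {r : ℕ} (O : Fin r → Xo) : ℝ :=
  1 / 2 * ∑ i, ∑ j, ER sX sY τ (sp (O i) == sp (O j)) (kd (O i)) (kd (O j)) (ht (O i)) (ht (O j))

/-- cost of the collisions of an object with all the others -/
def collC (C : ℝ) (k : ℕ) (P : Par) (r : ℕ) (x : Xo) : ℝ :=
  if kd x = .S ∨ kd x = .Sv then (C * (r + 1) / P.d r) ^ k else 1

theorem pairN_symm (P : Par) {r : ℕ} (O : Fin r → Xo) (i j : Fin r) :
    pairN P O i j = pairN P O j i := NUP1S.Ab.ppN_symm _ _

/-- ordered pairs and unordered pairs -/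
theorem sum_pairs {r : ℕ} (f : Fin r → Fin r → ℝ) (hf : ∀ i j, f i j = f j i) :
    ∑ i, ∑ j ∈ univ.erase i, f i j = 2 * ∑ i, ∑ j, if i < j then f i j else 0 := by
  have h1 : ∑ i, ∑ j ∈ univ.erase i, f i j =
      ∑ i, ∑ j, ((if i < j then f i j else 0) + (if j < i then f i j else 0)) := by
    refine sum_congr rfl fun i _ => ?_
    rw [← Finset.sum_erase_add _ _ (mem_univ i), if_neg (lt_irrefl i), add_zero, add_zero]
    refine sum_congr rfl fun j hj => ?_
    rcases lt_or_gt_of_ne (ne_of_mem_erase hj) with h | h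
    · rw [if_neg (not_lt_of_gt h), if_pos h, zero_add]
    · rw [if_pos h, if_neg (not_lt_of_gt h), add_zero]
  have h2 : ∑ i, ∑ j, (if j < i then f i j else 0) = ∑ i, ∑ j, (if i < j then f i j else 0) := by
    rw [sum_comm]
    refine sum_congr rfl fun i _ => sum_congr rfl fun j _ => ?_
    rw [hf j i]
  rw [h1]
  simp_rw [sum_add_distrib]
  rw [h2]
  ring

/-- diagonal and ordered pairs -/
theorem sum_diag {r : ℕ} (f : Fin r → Fin r → ℝ) :
    ∑ i, ∑ j, f i j = ∑ i, f i i + ∑ i, ∑ j ∈ univ.erase i, f i j := by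
  rw [← sum_add_distrib]
  refine sum_congr rfl fun i _ => ?_
  rw [add_comm, Finset.sum_erase_add _ _ (mem_univ i)]

/-- the exponential of the cost of the collisions -/
theorem coll_le {P : Par} {r : ℕ} (hS : Small 8 P r) (O : Fin r → Xo) {C : ℝ} (hC : 4 ≤ C) :
    Real.exp ((4 * nk O .S * Real.log (r * (2 + 2 / (2 ^ 8 * (P.d r * NUP1.l / r)))) +
      4 * nk O .Sv * (1 + Real.log r)) / 2) ≤ ∏ i, collC C 4 P r (O i) := by
  rcases Nat.eq_zero_or_pos r with rfl | hr
  · simp [nk]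
  have hr1 : (1 : ℝ) ≤ r := by exact_mod_cast hr
  have hd := hS.d0
  have hd1 : P.d r ≤ 1 / 6144 := by
    have := hS.d1
    norm_num at this ⊢
    linarith
  have hl : 1 / 4 < NUP1.l := by
    unfold NUP1.l
    have := Real.pi_gt_three
    linarith
  set A : ℝ := C * (r + 1) / P.d r with hA
  have hA1 : 1 ≤ A := by
    rw [hA, le_div_iff₀ hd]
    nlinarith
  -- each factor
  have hx : r * (2 + 2 / (2 ^ 8 * (P.d r * NUP1.l / r))) ≤ A ^ 2 := by
    have e1 : (r : ℝ) * (2 + 2 / (2 ^ 8 * (P.d r * NUP1.l / r))) =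
        2 * r + r ^ 2 / (128 * (P.d r * NUP1.l)) := by
      field_simp
      ring
    have h2 : (r : ℝ) ^ 2 / (128 * (P.d r * NUP1.l)) ≤ r ^ 2 / P.d r := by
      apply div_le_div_of_nonneg_left (by positivity) hd
      nlinarith
    have h3 : 2 * (r : ℝ) ≤ r ^ 2 / P.d r := by
      rw [le_div_iff₀ hd]
      nlinarith
    have h4 : (r : ℝ) ^ 2 / P.d r ≤ (r / P.d r) ^ 2 := by
      rw [div_pow]
      apply div_le_div_of_nonneg_left (by positivity) (by positivity)
      nlinarith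
    have h5 : 4 * (r / P.d r) ≤ A := by
      rw [hA, ← mul_div_assoc]
      apply div_le_div_of_nonneg_right _ hd.le
      nlinarith
    have h6 : 0 ≤ (r : ℝ) / P.d r := by positivity
    rw [e1]
    nlinarith
  have hx0 : 0 < (r : ℝ) * (2 + 2 / (2 ^ 8 * (P.d r * NUP1.l / r))) := by
    have : 0 < NUP1.l := by linarith
    positivity
  have hlogA : 0 ≤ Real.log A := Real.log_nonneg hA1
  have hlx : Real.log (r * (2 + 2 / (2 ^ 8 * (P.d r * NUP1.l / r)))) ≤ 2 * Real.log A := by
    have := Real.log_le_log hx0 hx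
    rw [Real.log_pow] at this
    push_cast at this
    exact this
  have hlr : 1 + Real.log r ≤ 2 * Real.log A := by
    have h1 : Real.exp 1 * r ≤ A := by
      rw [hA, le_div_iff₀ hd]
      have h3 : Real.exp 1 < 3 := by linarith [Real.exp_one_lt_d9]
      have h4 : Real.exp 1 * r * P.d r ≤ Real.exp 1 * r * 1 := by
        apply mul_le_mul_of_nonneg_left (by linarith) (by positivity)
      nlinarith
    have h2 := Real.log_le_log (by positivity) h1
    rw [Real.log_mul (by positivity) (by positivity), Real.log_exp] at h2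
    linarith
  have hprod : ∏ i, collC C 4 P r (O i) = Real.exp (∑ i, if kd (O i) = .S ∨ kd (O i) = .Sv then
      4 * Real.log A else 0) := by
    rw [Real.exp_sum]
    refine prod_congr rfl fun i _ => ?_
    unfold collC
    split_ifs
    · rw [← hA, show (4 : ℝ) * Real.log A = ((4 : ℕ) : ℝ) * Real.log A by norm_num,
        ← Real.log_pow, Real.exp_log (by positivity)]
    · simp
  rw [hprod]
  apply Real.exp_le_exp.2
  have hs : (∑ i, if kd (O i) = .S ∨ kd (O i) = .Sv then 4 * Real.log A else 0) =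
      4 * Real.log A * nk O .S + 4 * Real.log A * nk O .Sv := by
    unfold nk
    rw [card_filter, card_filter]
    push_cast
    rw [mul_sum, mul_sum, ← sum_add_distrib]
    refine sum_congr rfl fun i _ => ?_
    cases h : kd (O i) <;> simp
  rw [hs]
  have n1 : (0 : ℝ) ≤ nk O .S := by positivity
  have n2 : (0 : ℝ) ≤ nk O .Sv := by positivity
  nlinarith [mul_le_mul_of_nonneg_left hlx n1, mul_le_mul_of_nonneg_left hlr n2]

/-- the product form from the bound for ordered pairs, one configuration -/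
theorem prod_form {P : Par} {r : ℕ} (hS : Small 8 P r) (O : Fin r → Xo) (en : Fin r → Fin r → ℝ)
    {c1 B B0 D C : ℝ} (hc1 : 0 ≤ c1) (hBC : B + B0 ≤ C) (hDC : D ≤ C)
    (hC4 : 4 ≤ C) (hself : ∀ i, en i i ≤ B0)
    (hmain : (∀ i j, i ≠ j → 0 < pairN P O i j) →
      c1 * W2 univ (fun i => ⌊ht (O i)⌋) - B * r -
        (4 * nk O .S * Real.log (r * (2 + 2 / (2 ^ 8 * (P.d r * NUP1.l / r)))) +
          4 * nk O .Sv * (1 + Real.log r)) - D * P.d r * (r : ℝ) ^ 2 ≤
      ∑ i, ∑ j ∈ univ.erase i, (-Real.log (pairN P O i j) - en i j)) (W : Finset ℤ) :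
    (∏ i, ∏ j, if i < j then pairN P O i j else 1) * Real.exp (1 / 2 * ∑ i, ∑ j, en i j) ≤
        Real.exp (C * r + C * r ^ 2 * P.d r) * (∏ i, collC C 4 P r (O i)) *
          Real.exp (-(c1 / 2 * ∑ w ∈ W, (cnt (fun i => ht (O i)) w : ℝ) ^ 2)) := by
  have hd := hS.d0
  have hC0 : 0 ≤ C := by linarith
  have hcoll0 : ∀ i, 0 ≤ collC C 4 P r (O i) := by
    intro i
    unfold collC
    split_ifs <;> positivity
  have hR0 : 0 ≤ Real.exp (C * r + C * r ^ 2 * P.d r) * (∏ i, collC C 4 P r (O i)) *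
      Real.exp (-(c1 / 2 * ∑ w ∈ W, (cnt (fun i => ht (O i)) w : ℝ) ^ 2)) :=
    mul_nonneg (mul_nonneg (Real.exp_pos _).le (prod_nonneg fun i _ => hcoll0 i))
      (Real.exp_pos _).le
  by_cases hz : ∃ i j, i < j ∧ pairN P O i j = 0
  · obtain ⟨i, j, hij, h0⟩ := hz
    have : (∏ i, ∏ j, if i < j then pairN P O i j else 1) = 0 := by
      apply prod_eq_zero (mem_univ i)
      apply prod_eq_zero (mem_univ j)
      rw [if_pos hij, h0]
    rw [this, zero_mul]
    exact hR0
  push Not at hz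
  have hpos : ∀ i j, i ≠ j → 0 < pairN P O i j := by
    intro i j hij
    rcases lt_or_gt_of_ne hij with h | h
    · exact lt_of_le_of_ne (pairN_nonneg _ _ _ _) (Ne.symm (hz i j h))
    · rw [pairN_symm]
      exact lt_of_le_of_ne (pairN_nonneg _ _ _ _) (Ne.symm (hz j i h))
  have hm := hmain hpos
  set Cc : ℝ := 4 * nk O .S * Real.log (r * (2 + 2 / (2 ^ 8 * (P.d r * NUP1.l / r)))) +
      4 * nk O .Sv * (1 + Real.log r) with hCc
  set E : ℝ := 1 / 2 * ∑ i, ∑ j, en i j with hE
  have hsum : ∑ i, ∑ j ∈ univ.erase i, (-Real.log (pairN P O i j) - en i j) =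
      -2 * (∑ i, ∑ j, if i < j then Real.log (pairN P O i j) else 0) -
        (2 * E - ∑ i, en i i) := by
    have e2 : ∑ i, ∑ j ∈ univ.erase i, (-Real.log (pairN P O i j)) =
        -2 * (∑ i, ∑ j, if i < j then Real.log (pairN P O i j) else 0) := by
      rw [sum_pairs _ fun i j => by rw [pairN_symm]]
      have : (∑ i, ∑ j, if i < j then -Real.log (pairN P O i j) else 0) =
          -(∑ i, ∑ j, if i < j then Real.log (pairN P O i j) else 0) := by
        rw [← sum_neg_distrib]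
        refine sum_congr rfl fun i _ => ?_
        rw [← sum_neg_distrib]
        refine sum_congr rfl fun j _ => ?_
        split_ifs <;> simp
      rw [this]
      ring
    have e3 : 2 * E = ∑ i, en i i + ∑ i, ∑ j ∈ univ.erase i, en i j := by
      rw [← sum_diag]
      rw [hE]
      ring
    simp only [sum_sub_distrib]
    rw [e2]
    linarith
  have hs : ∑ i, en i i ≤ B0 * r := by
    calc ∑ i, en i i ≤ ∑ _i : Fin r, B0 := sum_le_sum fun i _ => hself i
      _ = B0 * r := by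
          rw [sum_const, card_univ, Fintype.card_fin, nsmul_eq_mul, mul_comm]
  have hwin : ∑ w ∈ W, (cnt (fun i => ht (O i)) w : ℝ) ^ 2 ≤
      W2 univ (fun i => ⌊ht (O i)⌋) := by
    refine (NUEnW.sum_cnt_sq_le (fun i => ht (O i)) W).trans (le_of_eq ?_)
    rw [W2_eq]
    rfl
  have hlog : (∑ i, ∑ j, if i < j then Real.log (pairN P O i j) else 0) + E ≤
      (C * r + C * r ^ 2 * P.d r) + Cc / 2 +
      -(c1 / 2 * ∑ w ∈ W, (cnt (fun i => ht (O i)) w : ℝ) ^ 2) := by
    have h1 : c1 * ∑ w ∈ W, (cnt (fun i => ht (O i)) w : ℝ) ^ 2 ≤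
        c1 * W2 univ (fun i => ⌊ht (O i)⌋) := mul_le_mul_of_nonneg_left hwin hc1
    have h2 : D * P.d r * (r : ℝ) ^ 2 ≤ 2 * (C * r ^ 2 * P.d r) := by
      have h3 : 0 ≤ P.d r * (r : ℝ) ^ 2 := by positivity
      calc D * P.d r * (r : ℝ) ^ 2 = D * (P.d r * (r : ℝ) ^ 2) := by ring
        _ ≤ (2 * C) * (P.d r * (r : ℝ) ^ 2) := mul_le_mul_of_nonneg_right (by linarith) h3
        _ = _ := by ring
    have h5 : (B + B0) * (r : ℝ) ≤ 2 * (C * r) := by
      have h6 : (0 : ℝ) ≤ r := by positivity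
      nlinarith
    linarith
  have hL : (∏ i, ∏ j, if i < j then pairN P O i j else 1) =
      Real.exp (∑ i, ∑ j, if i < j then Real.log (pairN P O i j) else 0) := by
    rw [Real.exp_sum]
    refine prod_congr rfl fun i _ => ?_
    rw [Real.exp_sum]
    refine prod_congr rfl fun j _ => ?_
    split_ifs with h
    · rw [Real.exp_log (hpos i j h.ne)]
    · simp
  rw [hL, ← Real.exp_add]
  refine (Real.exp_le_exp.2 hlog).trans ?_
  rw [Real.exp_add, Real.exp_add]
  refine mul_le_mul_of_nonneg_right ?_ (Real.exp_pos _).le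
  exact mul_le_mul_of_nonneg_left (coll_le hS O hC4) (Real.exp_pos _).le

/-- the stability bound for objects in exact positions, ordered pairs (the conclusion of
`stab_obj`) -/
def StabObj (sX sY τ : Kind → ℝ → ℝ) (c0 : ℝ) : Prop :=
  ∃ C1 : ℝ, 0 ≤ C1 ∧ ∀ (P : Par) (r : ℕ), P.e = 1 / 4 → P.jL = 9 / 4 → NUDirP.Small 8 P r →
    ∀ O : Fin r → Xo, (∀ i j, i ≠ j → 0 < pairN P O i j) →
    c0 / 4 * W2 univ (fun i => ⌊ht (O i)⌋) - C1 * r -
      (4 * NUDirP.nk O .S * Real.log (r * (2 + 2 / (2 ^ 8 * (P.d r * NUP1.l / r)))) +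
        4 * NUDirP.nk O .Sv * (1 + Real.log r)) - C1 * P.d r * (r : ℝ) ^ 2 ≤
    ∑ i, ∑ j ∈ univ.erase i, (-Real.log (pairN P O i j) -
      ER sX sY τ (sp (O i) == sp (O j)) (kd (O i)) (kd (O j)) (ht (O i)) (ht (O j)))

/-- **product form of the stability bound**, from the bound for ordered pairs -/
theorem stabP_of {sX sY τ : Kind → ℝ → ℝ} (R : Resp sX sY τ) {c0 : ℝ} (hc0 : 0 < c0)
    (hS0 : StabObj sX sY τ c0) : ∃ C c1 : ℝ, 0 < C ∧ 0 < c1 ∧ ∀ P : Par, P.jL = 9 / 4 →
      P.e = 1 / 4 → ∀ r : ℕ, Small 8 P r → ∀ (O : Fin r → Xo) (W : Finset ℤ),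
      (∏ i, ∏ j, if i < j then pairN P O i j else 1) * Real.exp (EGO sX sY τ O) ≤
        Real.exp (C * r + C * r ^ 2 * P.d r) * (∏ i, collC C 4 P r (O i)) *
          Real.exp (-(c1 * ∑ w ∈ W, (cnt (fun i => ht (O i)) w : ℝ) ^ 2)) := by
  obtain ⟨C1, hC1, H⟩ := hS0
  have hER : ∀ (κ : Kind) (x : ℝ), ER sX sY τ true κ κ x x = ER sX sY τ true κ κ 0 0 := by
    intro κ x
    have h1 := pair_RK R true κ κ x x
    have h2 := pair_RK R true κ κ 0 0
    rw [sub_self] at h1 h2
    linarith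
  set B0 : ℝ := ∑ κ : Kind, |ER sX sY τ true κ κ 0 0| with hB0
  have hB0' : ∀ κ, ER sX sY τ true κ κ 0 0 ≤ B0 := fun κ => (le_abs_self _).trans
    (Finset.single_le_sum (f := fun κ => |ER sX sY τ true κ κ 0 0|) (fun _ _ => abs_nonneg _)
      (mem_univ κ))
  have hB00 : 0 ≤ B0 := Finset.sum_nonneg fun _ _ => abs_nonneg _
  refine ⟨C1 + B0 + 4, c0 / 4 / 2, by positivity, by positivity, ?_⟩
  intro P hj he r hS O W
  refine prod_form hS O _ (by positivity) (B := C1) (B0 := B0) (D := C1) (by linarith)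
    (by linarith) (by linarith) (fun i => ?_) (fun hpos => H P r he hj hS O hpos) W
  rw [beq_self_eq_true, hER]
  exact hB0' _

/-- **product form of the stability bound** -/
theorem stabP {sX sY τ : Kind → ℝ → ℝ} (R : Resp sX sY τ) {c0 : ℝ} (Ce : NUStabT.Certs c0)
    (hc0 : 0 < c0) : ∃ C c1 : ℝ, 0 < C ∧ 0 < c1 ∧ ∀ P : Par, P.jL = 9 / 4 → P.e = 1 / 4 →
      ∀ r : ℕ, Small 8 P r → ∀ (O : Fin r → Xo) (W : Finset ℤ),
      (∏ i, ∏ j, if i < j then pairN P O i j else 1) * Real.exp (EGO sX sY τ O) ≤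
        Real.exp (C * r + C * r ^ 2 * P.d r) * (∏ i, collC C 4 P r (O i)) *
          Real.exp (-(c1 * ∑ w ∈ W, (cnt (fun i => ht (O i)) w : ℝ) ^ 2)) :=
  stabP_of R hc0 (stab_obj R Ce hc0.le)

end NUStabP
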