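import Pool.Agent.NUO.OneAct
import Pool.Agent.NUO.StabP

/-!
# Algebra of one configuration

`conf_alg`: one body bounds, product form of the stability bound and the bound of the gas give the
product of the activities. Nothing in it depends on the number of rows: it serves TARGET-A and
TARGET-B.
-/

set_option autoImplicit false

noncomputable section

open Finset

namespace NUO

open NUStabP NUDispW

theorem win_le_sq {r : ℕ} (x : Fin r → ℝ) : win univ x ≤ (r : ℝ) ^ 2 := by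
  unfold win
  have h1 : ∑ w ∈ univ.image (fun i => ⌊x i⌋), ((univ.filter fun i => ⌊x i⌋ = w).card : ℝ) = r := by
    have := Finset.card_eq_sum_card_image (fun i => ⌊x i⌋) (univ : Finset (Fin r))
    rw [card_univ, Fintype.card_fin] at this
    exact_mod_cast this.symm
  calc ∑ w ∈ univ.image (fun i => ⌊x i⌋), ((univ.filter fun i => ⌊x i⌋ = w).card : ℝ) ^ 2
      ≤ ∑ w ∈ univ.image (fun i => ⌊x i⌋), ((univ.filter fun i => ⌊x i⌋ = w).card : ℝ) * r := by
        refine sum_le_sum fun w _ => ?_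
        rw [sq]
        refine mul_le_mul_of_nonneg_left ?_ (Nat.cast_nonneg _)
        have : (univ.filter fun i => ⌊x i⌋ = w).card ≤ r := by
          calc _ ≤ (univ : Finset (Fin r)).card := card_filter_le _ _
            _ = r := by rw [card_univ, Fintype.card_fin]
        exact_mod_cast this
    _ = (r : ℝ) ^ 2 := by rw [← sum_mul, h1, sq]

theorem RN_nonneg' (m : ℕ) (u : ℂ) : 0 ≤ RN m u := by
  unfold RN
  have h1 : 0 ≤ Real.cos NUP1.l := by
    unfold NUP1.l
    have hpi := Real.pi_pos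
    exact Real.cos_nonneg_of_neg_pi_div_two_le_of_le (by linarith) (by linarith)
  positivity

theorem ob_nonneg' (m : ℕ) (β : ℝ) {P : Par} {r : ℕ} (O : Fin r → Xo) (i : Fin r)
    (hr : 0 ≤ P.rad r (ht (O i))) : 0 ≤ ob m β P O i := by
  have haS : 0 ≤ aS := aS_pos.le
  have hoS : ∀ w : ℂ, 0 ≤ oS m w := by
    intro w
    unfold oS
    have h1 := RN_nonneg' m w
    have h2 := RN_nonneg' m (w - NUP1.l)
    positivity
  unfold ob ob1
  have hrr : 0 ≤ rr P O i := hr
  rcases h : kd (O i) with _ | _ | _ | _ | _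
  · have h1 := RN_nonneg' m (posL P.jL (ht (O i)))
    simp only
    positivity
  · have h1 := RN_nonneg' m (posT (ht (O i)))
    have h2 := RN_nonneg' m (posT (ht (O i)) - NUP1.l)
    simp only
    positivity
  · exact hoS _
  · have h1 := hoS (posS (ei P O i) (ht (O i)))
    have h2 := RN_nonneg' m (posV (ei P O i) (rr P O i) (ht (O i)) (an (O i)))
    simp only
    positivity
  · have h1 := hoS (posS (ei P O i) (ht (O i)))
    have h2 := RN_nonneg' m (posS (ei P O i) (ht (O i)) + 2 * NUP1.l)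
    simp only
    positivity

/-- **the algebra of one configuration**: `o` one body weights, `u` one body exponents, `PP` product
of the pair weights, `EG` energy of the gas, `coll` cost of the collisions -/
theorem conf_alg {r : ℕ} {x o u act' coll col : Fin r → ℝ} {PP EG B K C2 A c1 kap dr : ℝ}
    (W : Finset ℤ) (hC2 : 0 ≤ C2) (hkap0 : 0 ≤ kap) (hkap : kap ≤ c1 / 2)
    (hdr : (r : ℝ) ^ 2 * dr ≤ r) (ho : ∀ i, 0 ≤ o i) (hcoll0 : ∀ i, 0 ≤ coll i)
    (hcoll : ∀ i, coll i ≤ Real.exp A * col i)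
    (hstab : ∀ W : Finset ℤ, PP * Real.exp EG ≤
      Real.exp (C2 * r + C2 * r ^ 2 * dr) * (∏ i, coll i) *
        Real.exp (-(c1 * ∑ w ∈ W, (cnt x w : ℝ) ^ 2)))
    (hone : ∀ i, o i * Real.exp (u i + (2 * C2 + K + A)) * col i ≤ act' i) (hB : 0 ≤ B) :
    (∏ i, o i) * PP * (B * Real.exp (∑ i, u i + K * r + EG + kap * win univ x)) ≤
      B * (∏ i, act' i) * Real.exp (-(c1 / 2 * ∑ w ∈ W, (cnt x w : ℝ) ^ 2)) := by
  have hr : (0 : ℝ) ≤ r := Nat.cast_nonneg r
  have hc1 : 0 ≤ c1 := by linarith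
  -- the windows
  set W' : Finset ℤ := W ∪ univ.image (fun i => ⌊x i⌋) with hW'
  set wn : ℝ := win univ x with hwn
  have hw1 : ∑ w ∈ W, (cnt x w : ℝ) ^ 2 ≤ ∑ w ∈ W', (cnt x w : ℝ) ^ 2 :=
    sum_le_sum_of_subset_of_nonneg subset_union_left fun _ _ _ => sq_nonneg _
  have hw2 : wn ≤ ∑ w ∈ W', (cnt x w : ℝ) ^ 2 :=
    sum_le_sum_of_subset_of_nonneg subset_union_right fun _ _ _ => sq_nonneg _
  have hwn0 : 0 ≤ wn := win_nonneg _ _
  -- one body
  have hbody : (∏ i, o i) * Real.exp (∑ i, u i) * Real.exp (K * r + 2 * C2 * r) *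
      (∏ i, coll i) ≤ ∏ i, act' i := by
    have e1 : (∏ i, o i) * Real.exp (∑ i, u i) * Real.exp (K * r + 2 * C2 * r) *
        (∏ i, coll i) = ∏ i, (o i * Real.exp (u i + (2 * C2 + K)) * coll i) := by
      rw [prod_mul_distrib, prod_mul_distrib, ← Real.exp_sum, sum_add_distrib, sum_const,
        card_univ, Fintype.card_fin, nsmul_eq_mul, Real.exp_add (∑ i, u i),
        show (r : ℝ) * (2 * C2 + K) = K * r + 2 * C2 * r by ring]
      ring
    rw [e1]
    refine prod_le_prod (fun i _ => mul_nonneg (mul_nonneg (ho i) (Real.exp_pos _).le)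
      (hcoll0 i)) fun i _ => ?_
    refine le_trans ?_ (hone i)
    calc o i * Real.exp (u i + (2 * C2 + K)) * coll i
        ≤ o i * Real.exp (u i + (2 * C2 + K)) * (Real.exp A * col i) :=
          mul_le_mul_of_nonneg_left (hcoll i) (mul_nonneg (ho i) (Real.exp_pos _).le)
      _ = o i * Real.exp (u i + (2 * C2 + K + A)) * col i := by
          rw [show u i + (2 * C2 + K + A) = u i + (2 * C2 + K) + A by ring,
            Real.exp_add (u i + _)]
          ring
  -- everything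
  have hS := hstab W'
  set S' : ℝ := ∑ w ∈ W', (cnt x w : ℝ) ^ 2 with hS'
  have hexp : Real.exp (C2 * r + C2 * r ^ 2 * dr) * Real.exp (-(c1 * S')) *
      Real.exp (K * r + kap * wn) ≤
      Real.exp (K * r + 2 * C2 * r) *
        Real.exp (-(c1 / 2 * ∑ w ∈ W, (cnt x w : ℝ) ^ 2)) := by
    rw [← Real.exp_add, ← Real.exp_add, ← Real.exp_add]
    refine Real.exp_le_exp.2 ?_
    have h1 : C2 * r ^ 2 * dr ≤ C2 * r := by
      rw [mul_assoc]
      exact mul_le_mul_of_nonneg_left hdr hC2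
    have h2 : c1 / 2 * ∑ w ∈ W, (cnt x w : ℝ) ^ 2 ≤ c1 / 2 * S' :=
      mul_le_mul_of_nonneg_left hw1 (by linarith)
    have h3 : c1 / 2 * wn ≤ c1 / 2 * S' := mul_le_mul_of_nonneg_left hw2 (by linarith)
    have h4 : kap * wn ≤ c1 / 2 * wn := mul_le_mul_of_nonneg_right hkap hwn0
    linarith
  have hop : 0 ≤ ∏ i, o i := prod_nonneg fun i _ => ho i
  have hcp : 0 ≤ ∏ i, coll i := prod_nonneg fun i _ => hcoll0 i
  calc (∏ i, o i) * PP * (B * Real.exp (∑ i, u i + K * r + EG + kap * wn))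
      = B * ((∏ i, o i) * Real.exp (∑ i, u i) * (PP * Real.exp EG) *
          Real.exp (K * r + kap * wn)) := by
        rw [show ∑ i, u i + K * r + EG + kap * wn =
          ∑ i, u i + EG + (K * r + kap * wn) by ring, Real.exp_add, Real.exp_add (∑ i, u i) EG]
        ring
    _ ≤ B * ((∏ i, o i) * Real.exp (∑ i, u i) * (Real.exp (C2 * r + C2 * r ^ 2 * dr) *
          (∏ i, coll i) * Real.exp (-(c1 * S'))) * Real.exp (K * r + kap * wn)) := by
        refine mul_le_mul_of_nonneg_left ?_ hB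
        refine mul_le_mul_of_nonneg_right ?_ (Real.exp_pos _).le
        exact mul_le_mul_of_nonneg_left hS (mul_nonneg hop (Real.exp_pos _).le)
    _ = B * ((∏ i, o i) * Real.exp (∑ i, u i) * (∏ i, coll i) *
          (Real.exp (C2 * r + C2 * r ^ 2 * dr) * Real.exp (-(c1 * S')) *
          Real.exp (K * r + kap * wn))) := by ring
    _ ≤ B * ((∏ i, o i) * Real.exp (∑ i, u i) * (∏ i, coll i) *
          (Real.exp (K * r + 2 * C2 * r) *
            Real.exp (-(c1 / 2 * ∑ w ∈ W, (cnt x w : ℝ) ^ 2)))) := by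
        refine mul_le_mul_of_nonneg_left ?_ hB
        exact mul_le_mul_of_nonneg_left hexp (mul_nonneg (mul_nonneg hop (Real.exp_pos _).le) hcp)
    _ = B * ((∏ i, o i) * Real.exp (∑ i, u i) * Real.exp (K * r + 2 * C2 * r) *
          (∏ i, coll i) *
            Real.exp (-(c1 / 2 * ∑ w ∈ W, (cnt x w : ℝ) ^ 2))) := by ring
    _ ≤ B * ((∏ i, act' i) * Real.exp (-(c1 / 2 * ∑ w ∈ W, (cnt x w : ℝ) ^ 2))) := by
        refine mul_le_mul_of_nonneg_left ?_ hB
        exact mul_le_mul_of_nonneg_right hbody (Real.exp_pos _).le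
    _ = _ := by ring

/-- the cost of the collisions, when `1 / d r ≤ K2 (r + 1)^2` -/
theorem coll_bd {P : Par} {r : ℕ} {C2 K2 : ℝ} (hC2 : 0 ≤ C2) (hK2 : 0 ≤ K2) (hd0 : 0 < P.d r)
    (hd2 : 1 / P.d r ≤ K2 * ((r : ℝ) + 1) ^ 2) (x : Xo) :
    collC C2 4 P r x ≤
      Real.exp ((C2 * K2 + 1) * 4) * colK (((r : ℝ) + 1) ^ 12) (kd x) := by
  have hA : (C2 * K2) ^ 4 ≤ Real.exp ((C2 * K2 + 1) * 4) := by
    have h1 : C2 * K2 ≤ Real.exp (C2 * K2 + 1) := by
      have := Real.add_one_le_exp (C2 * K2 + 1)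
      linarith
    calc (C2 * K2) ^ 4 ≤ (Real.exp (C2 * K2 + 1)) ^ 4 :=
          pow_le_pow_left₀ (by positivity) h1 4
      _ = Real.exp ((C2 * K2 + 1) * 4) := by
          rw [← Real.exp_nat_mul]
          congr 1
          push_cast
          ring
  have hbig : (C2 * (r + 1) / P.d r) ^ 4 ≤
      Real.exp ((C2 * K2 + 1) * 4) * ((r : ℝ) + 1) ^ 12 := by
    have h1 : C2 * (r + 1) / P.d r ≤ C2 * K2 * ((r : ℝ) + 1) ^ 3 := by
      calc C2 * (r + 1) / P.d r = C2 * (r + 1) * (1 / P.d r) := by ring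
        _ ≤ C2 * (r + 1) * (K2 * ((r : ℝ) + 1) ^ 2) :=
            mul_le_mul_of_nonneg_left hd2 (by positivity)
        _ = _ := by ring
    calc (C2 * (r + 1) / P.d r) ^ 4 ≤ (C2 * K2 * ((r : ℝ) + 1) ^ 3) ^ 4 :=
          pow_le_pow_left₀ (by positivity) h1 4
      _ = (C2 * K2) ^ 4 * ((r : ℝ) + 1) ^ 12 := by ring
      _ ≤ _ := mul_le_mul_of_nonneg_right hA (by positivity)
  have hone1 : (1 : ℝ) ≤ Real.exp ((C2 * K2 + 1) * 4) := Real.one_le_exp (by positivity)
  unfold collC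
  rcases h : kd x with _ | _ | _ | _ | _ <;> simp [colK, hbig, hone1]

theorem collC_nonneg {P : Par} {r : ℕ} {C2 : ℝ} {k : ℕ} (hC2 : 0 ≤ C2) (hd0 : 0 < P.d r)
    (x : Xo) : 0 ≤ collC C2 k P r x := by
  unfold collC
  split_ifs
  · positivity
  · exact zero_le_one

end NUO
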