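import Pool.Agent.NUO.DirP4

/-!
# Direct pair functions of the objects, part 5: configurations
-/

set_option autoImplicit false
set_option linter.unusedSimpArgs false
set_option linter.unusedVariables false

noncomputable section

open Complex Finset

namespace NUDirP

open NUP1 NUO NUDispR

/-! ### ranks -/

lemma rk_lt {r : ℕ} (O : Fin r → Xo) {i j : Fin r} (hij : i < j) (hs : sp (O i) = sp (O j)) :
    rk O i < rk O j := by
  unfold rk
  apply Finset.card_lt_card
  rw [Finset.ssubset_iff_of_subset]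
  · refine ⟨i, ?_, ?_⟩
    · simp only [mem_filter, mem_univ, true_and]
      exact ⟨hij, hs⟩
    · simp
  · intro x hx
    simp only [mem_filter, mem_univ, true_and] at hx ⊢
    exact ⟨hx.1.trans hij, hx.2.trans hs⟩

lemma rk_ne {r : ℕ} (O : Fin r → Xo) {i j : Fin r} (hij : i ≠ j) (hs : sp (O i) = sp (O j)) :
    rk O i ≠ rk O j := by
  rcases lt_or_gt_of_ne hij with h | h
  · exact (rk_lt O h hs).ne
  · exact (rk_lt O h hs.symm).ne'

lemma rk_lt_r {r : ℕ} (O : Fin r → Xo) (i : Fin r) : rk O i < r := by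
  unfold rk
  calc _ < (univ : Finset (Fin r)).card := by
        apply Finset.card_lt_card
        rw [Finset.ssubset_iff_of_subset (Finset.subset_univ _)]
        exact ⟨i, mem_univ _, by simp⟩
    _ = r := by simp

/-- `|rk i - rk j|` -/
def rd {r : ℕ} (O : Fin r → Xo) (i j : Fin r) : ℝ := |(rk O i : ℝ) - rk O j|

lemma one_le_rd {r : ℕ} (O : Fin r → Xo) {i j : Fin r} (hij : i ≠ j) (hs : sp (O i) = sp (O j)) :
    1 ≤ rd O i j := by
  have h := rk_ne O hij hs
  unfold rd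
  have h1 : ((rk O i : ℤ) - rk O j) ≠ 0 := by omega
  have h2 := Int.one_le_abs h1
  exact_mod_cast h2

/-! ### displacements -/

/-- displacement of the line of the object `i` -/
def dis (P : Par) {r : ℕ} (O : Fin r → Xo) (i : Fin r) : ℝ := P.d r * (rk O i / r)

/-- displacement of the string -/
def kap (P : Par) {r : ℕ} (O : Fin r → Xo) (i : Fin r) : ℂ := ((-(dis P O i * l) : ℝ) : ℂ)

/-- displacement of the satellite against its string -/
def eps (P : Par) {r : ℕ} (O : Fin r → Xo) (i : Fin r) : ℂ :=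
  (rr P O i : ℂ) * Complex.exp (2 * Real.pi * (an (O i) : ℝ) * I)

lemma norm_eps (P : Par) {r : ℕ} (O : Fin r → Xo) (i : Fin r) : ‖eps P O i‖ = |rr P O i| := by
  unfold eps
  have h : (2 * (Real.pi : ℂ) * ((an (O i) : ℝ) : ℂ) * I) = ((2 * Real.pi * an (O i) : ℝ) : ℂ) * I := by
    push_cast; ring
  rw [norm_mul, Complex.norm_real, Real.norm_eq_abs, h, Complex.norm_exp_ofReal_mul_I, mul_one]

lemma cons_eq {P : Par} {ne nL : ℤ} (he : P.e = ne / 8) (hj : P.jL = nL / 8) {r : ℕ} (O : Fin r → Xo)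
    (i : Fin r) : NUO.cons P O i =
      (dp ne nL (sp (O i)) (kd (O i)) (kap P O i) (eps P O i)).map (toC (ht (O i))) := by
  have e1 : ei P O i = ne / 8 + dis P O i := by unfold ei dis; rw [he]
  have pL : posL P.jL (ht (O i)) =
      (((((8 - nL : ℤ) : ℝ) * (l / 8) : ℝ) : ℂ) + (ht (O i) : ℝ) * I + 0) := by
    unfold posL vl; rw [hj]; push_cast; ring
  have pT : posT (ht (O i)) = (((((-4 : ℤ) : ℝ) * (l / 8) : ℝ) : ℂ) + (ht (O i) : ℝ) * I + 0) := by
    unfold posT vl; push_cast; ring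
  have pS : posS (ei P O i) (ht (O i)) =
      (((((-(8 + ne) : ℤ) : ℝ) * (l / 8) : ℝ) : ℂ) + (ht (O i) : ℝ) * I + kap P O i) := by
    unfold posS vl kap; rw [e1]; push_cast; ring
  have pV : posV (ei P O i) (rr P O i) (ht (O i)) (an (O i)) =
      (((((8 - ne : ℤ) : ℝ) * (l / 8) : ℝ) : ℂ) + (ht (O i) : ℝ) * I + (kap P O i + eps P O i)) := by
    unfold posV eps; rw [pS]; push_cast; ring
  have pW : posS (ei P O i) (ht (O i)) + 2 * l =
      (((((8 - ne : ℤ) : ℝ) * (l / 8) : ℝ) : ℂ) + (ht (O i) : ℝ) * I + kap P O i) := by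
    rw [pS]; push_cast; ring
  unfold NUO.cons parts
  cases h : kd (O i)
  · simp only [dp, List.map_cons, List.map_nil, toC, pL]
  · simp only [dp, List.map_cons, List.map_nil, toC, pT]
  · simp only [dp, List.map_cons, List.map_nil, toC, pS]
  · simp only [dp, List.map_cons, List.map_nil, toC, pV, pS]
  · simp only [dp, List.map_cons, List.map_nil, toC, pW]
    rw [pS]

/-- smallness of the parameters for `r` objects -/
structure Small (K : ℕ) (P : Par) (r : ℕ) : Prop where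
  d0 : 0 < P.d r
  d1 : 2 ^ K * P.d r ≤ 1 / 24
  r0 : ∀ t, 0 ≤ P.rad r t
  r1 : ∀ t, 64 * r * P.rad r t ≤ P.d r * l

lemma l_lt : l < 2 / 5 := by unfold l; linarith [Real.pi_lt_d2]

section

variable {K : ℕ} {P : Par} {r : ℕ} (hS : Small K P r) (O : Fin r → Xo) (i j : Fin r)

include hS

lemma dis_nonneg : 0 ≤ dis P O i := by
  unfold dis; have := hS.d0; positivity

lemma dis_le : dis P O i ≤ P.d r := by
  unfold dis
  have h1 : (rk O i : ℝ) / r ≤ 1 := by
    have h2 := rk_lt_r O i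
    have h3 : (0 : ℝ) < r := by
      have : 0 < r := by omega
      exact_mod_cast this
    rw [div_le_one h3]
    exact_mod_cast h2.le
  have := hS.d0
  nlinarith

lemma rr_le : 0 ≤ rr P O i ∧ 64 * rr P O i ≤ P.d r * l := by
  unfold rr
  have h0 := hS.r0 (ht (O i))
  have h1 := hS.r1 (ht (O i))
  refine ⟨h0, ?_⟩
  have h2 : (1 : ℝ) ≤ r := by
    have : 1 ≤ r := by have := i.2; omega
    exact_mod_cast this
  nlinarith

/-- the displacements of the constituents -/
lemma dp_disp {ne nL : ℤ} {s : Bool} {k : Kind} {a : Ec}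
    (ha : a ∈ dp ne nL s k (kap P O i) (eps P O i)) :
    ∃ (x : ℝ) (w : ℂ), a.2.2.2 = ((-(x * l) : ℝ) : ℂ) + w ∧ 0 ≤ x ∧ x ≤ P.d r ∧
      64 * ‖w‖ ≤ P.d r * l := by
  have hl := NUP1.l_pos
  have hd := hS.d0
  have h1 := dis_nonneg hS O i
  have h2 := dis_le hS O i
  obtain ⟨h3, h4⟩ := rr_le hS O i
  have c0 : ∃ (x : ℝ) (w : ℂ), (0 : ℂ) = ((-(x * l) : ℝ) : ℂ) + w ∧ 0 ≤ x ∧ x ≤ P.d r ∧
      64 * ‖w‖ ≤ P.d r * l := ⟨0, 0, by simp, le_rfl, hd.le, by simp; positivity⟩
  have c1 : ∃ (x : ℝ) (w : ℂ), kap P O i = ((-(x * l) : ℝ) : ℂ) + w ∧ 0 ≤ x ∧ x ≤ P.d r ∧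
      64 * ‖w‖ ≤ P.d r * l := ⟨dis P O i, 0, by simp [kap], h1, h2, by simp; positivity⟩
  have c2 : ∃ (x : ℝ) (w : ℂ), kap P O i + eps P O i = ((-(x * l) : ℝ) : ℂ) + w ∧ 0 ≤ x ∧
      x ≤ P.d r ∧ 64 * ‖w‖ ≤ P.d r * l :=
    ⟨dis P O i, eps P O i, rfl, h1, h2, by rw [norm_eps, abs_of_nonneg h3]; exact h4⟩
  cases k <;> simp only [dp, List.mem_cons, List.not_mem_nil, or_false] at ha
  · rw [ha]; exact c0
  · rw [ha]; exact c0
  · rw [ha]; exact c1
  · rcases ha with ha | ha <;> rw [ha]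
    · exact c1
    · exact c2
  · rcases ha with ha | ha | ha <;> rw [ha] <;> exact c1

lemma disp_le {ne nL : ℤ} {s s' : Bool} {k k' : Kind} :
    ∀ a ∈ dp ne nL s k (kap P O i) (eps P O i), ∀ b ∈ dp ne nL s' k' (kap P O j) (eps P O j),
      ‖a.2.2.2 - b.2.2.2‖ ≤ P.d r / 2 := by
  intro a ha b hb
  obtain ⟨x, w, e, h1, h2, h3⟩ := dp_disp hS O i ha
  obtain ⟨x', w', e', h1', h2', h3'⟩ := dp_disp hS O j hb
  have hl := NUP1.l_pos
  have hl2 := l_lt
  have hd := hS.d0
  have e2 : a.2.2.2 - b.2.2.2 = (((x' - x) * l : ℝ) : ℂ) + (w - w') := by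
    rw [e, e']; push_cast; ring
  rw [e2]
  have h4 : ‖(((x' - x) * l : ℝ) : ℂ)‖ ≤ P.d r * l := by
    rw [Complex.norm_real, Real.norm_eq_abs, abs_mul, abs_of_pos hl]
    apply mul_le_mul_of_nonneg_right _ hl.le
    rw [abs_le]; constructor <;> linarith
  have h5 := norm_sub_le w w'
  have h6 := norm_add_le (((x' - x) * l : ℝ) : ℂ) (w - w')
  nlinarith

/-- complex position of the string -/
def zt (P : Par) {r : ℕ} (O : Fin r → Xo) (i : Fin r) : ℂ := (ht (O i) : ℂ) + ((dis P O i * l : ℝ) : ℂ) * I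

/-- the core energy of two objects (dipole errors of the satellites included) -/
def coreP (K : ℕ) (P : Par) {r : ℕ} (O : Fin r → Xo) (i j : Fin r) : ℝ :=
  if sp (O i) = sp (O j) then
    -2 * (Qc (kd (O i)) : ℝ) * (Qc (kd (O j)) : ℝ) * lam K (zt P O i - zt P O j) -
      (xv (kd (O i)) + xv (kd (O j))) / rd O i j
  else 0

omit hS in
lemma zt_sub : zt P O i - zt P O j =
    ((ht (O i) - ht (O j) : ℝ) : ℂ) - I * (kap P O i - kap P O j) := by
  unfold zt kap; push_cast; ring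

omit hS in
lemma zt_re : (zt P O i - zt P O j).re = ht (O i) - ht (O j) := by
  unfold zt; simp

omit hS in
lemma zt_im : (zt P O i - zt P O j).im = (dis P O i - dis P O j) * l := by
  unfold zt; simp; ring

lemma zt_im_le : |(zt P O i - zt P O j).im| ≤ P.d r * l := by
  rw [zt_im, abs_mul, abs_of_pos NUP1.l_pos]
  apply mul_le_mul_of_nonneg_right _ NUP1.l_pos.le
  have h1 := dis_nonneg hS O i
  have h2 := dis_le hS O i
  have h3 := dis_nonneg hS O j
  have h4 := dis_le hS O j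
  rw [abs_le]; constructor <;> linarith

lemma zt_ge (hij : i ≠ j) (hs : sp (O i) = sp (O j)) :
    P.d r * l * rd O i j ≤ r * ‖zt P O i - zt P O j‖ := by
  have h1 := Complex.abs_im_le_norm (zt P O i - zt P O j)
  rw [zt_im, abs_mul, abs_of_pos NUP1.l_pos] at h1
  have hd := hS.d0
  have hr : (0 : ℝ) < r := by
    have : 0 < r := by have := i.2; omega
    exact_mod_cast this
  have h2 : |dis P O i - dis P O j| = P.d r * rd O i j / r := by
    unfold dis rd
    rw [← mul_sub, ← sub_div, abs_mul, abs_div, abs_of_pos hd, abs_of_pos hr]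
    ring
  rw [h2] at h1
  have h3 : (r : ℝ) * (P.d r * rd O i j / r * l) = P.d r * l * rd O i j := by
    field_simp
  rw [← h3]
  exact mul_le_mul_of_nonneg_left h1 hr.le

end

end NUDirP
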