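import Pool.Agent.NUO.OneAct
import Pool.Agent.NUO.DirP5
import Pool.Agent.NUO.Par0

/-!
# The parameters of TARGET-A satisfy `ParOK` and `Small 8`
-/

set_option autoImplicit false

noncomputable section

namespace NUO

theorem parOK_par0 (m : ℕ) : ParOK (par0 m) m K1c where
  j1 := by rw [par0_jL]; norm_num
  j2 := by rw [par0_jL]; norm_num
  e0 := by rw [par0_e]
  d0 := fun r => (d0_pos r).le
  e1 := fun r => by have := d0_le r; rw [par0_e, par0_d]; linarith
  r0 := fun r t => rad0_pos m r t
  r1 := fun r t => rad0_le_l m r t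
  r2 := fun r t => rad0_rho1 m r t
  r3 := fun r t => rad0_inv m r t

theorem small_par0 (m r : ℕ) : NUDirP.Small 8 (par0 m) r where
  d0 := d0_pos r
  d1 := by have := d0_le r; rw [par0_d]; norm_num at this ⊢; linarith
  r0 := fun t => (rad0_pos m r t).le
  r1 := fun t => by
    rw [par0_rad, par0_d]
    have h1 := rad0_le m r t
    have h2 := d0_pos r
    have h3 := l_pos0
    have h4 : (0 : ℝ) ≤ r := Nat.cast_nonneg r
    calc 64 * (r : ℝ) * rad0 m r t ≤ 64 * (r + 1) * rad0 m r t := by
          have := rad0_pos m r t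
          nlinarith
      _ ≤ 64 * (r + 1) * (NUP1.l * d0 r / (64 * (r + 1))) :=
          mul_le_mul_of_nonneg_left h1 (by positivity)
      _ = d0 r * NUP1.l := by field_simp

end NUO
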