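import Pool.Agent.NUO.Meas
import Pool.Agent.NUP1S.Obw
import Pool.Agent.NUP1S.Stage2

/-!
# Measurability of the gas of quanta in the field of a configuration of objects

`measurable_potC`: the complex field is measurable, jointly in the configuration and the quantum;
`measurable_Ig_param`: the integral over vertical lines depends measurably on a parameter of the
one body functions; `measurable_gas`, `measurable_gas_potC`.
-/

set_option autoImplicit false
set_option linter.unusedSectionVars false

noncomputable section

open Complex MeasureTheory Finset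

namespace NUO

open NUP1 NUP1S NUP1S.Ab

section

variable {Y : Type*} [MeasurableSpace Y]

theorem measurable_ppc_evl {a b : Bool × Bool × (Y → ℂ)} (ha : Measurable a.2.2)
    (hb : Measurable b.2.2) :
    Measurable fun y => pp (a.1, a.2.1, a.2.2 y) (b.1, b.2.1, b.2.2 y) := by
  unfold pp
  simp only
  split_ifs
  · exact (measurable_pz _ _).comp (ha.sub hb)
  · exact (measurable_cz _ _).comp (ha.sub hb)

theorem measurable_ppC_evl {L M : List (Bool × Bool × (Y → ℂ))}
    (hL : ∀ p ∈ L, Measurable p.2.2) (hM : ∀ p ∈ M, Measurable p.2.2) :
    Measurable fun y => ppC (evl L y) (evl M y) := by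
  have key : ∀ a : Bool × Bool × (Y → ℂ), Measurable a.2.2 → ∀ M : List (Bool × Bool × (Y → ℂ)),
      (∀ p ∈ M, Measurable p.2.2) →
      Measurable fun y => ((evl M y).map fun b => pp (a.1, a.2.1, a.2.2 y) b).prod := by
    intro a ha M
    induction M with
    | nil => intro _; exact measurable_const
    | cons b M ih =>
      intro hM
      have h1 := ih fun p hp => hM p (List.mem_cons_of_mem _ hp)
      have h2 := measurable_ppc_evl ha (hM b List.mem_cons_self)
      exact h2.mul h1
  induction L with
  | nil => exact measurable_const
  | cons a L ih =>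
    have h1 := ih fun p hp => hL p (List.mem_cons_of_mem _ hp)
    have h2 := key a (hL a List.mem_cons_self) M hM
    exact h2.mul h1

end

section

variable {r : ℕ} (P : NUO.Par) (hP : Measurable (P.rad r))

include hP

theorem measurable_potC (s : Bool) :
    Measurable fun p : (Fin r → Xo) × ℂ => potC P p.1 s p.2 := by
  unfold potC potG
  refine Finset.measurable_prod _ fun i _ => ?_
  refine measurable_config fun K => ?_
  obtain ⟨L, hL, h⟩ := exists_evl_cons (Y := ℂ) P hP K i
  have h1 := measurable_ppC_evl
    (L := [(s, false, fun p : (Fin r → ℝ × ℝ) × ℂ => p.2)]) (M := L)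
    (fun p hp => by
      rw [List.mem_singleton] at hp
      subst hp
      exact measurable_snd) hL
  refine (congrArg Measurable (funext fun p => ?_)).mpr h1
  simp only
  rw [← h]
  rfl

end

section

variable {X : Type*} [MeasurableSpace X] {ι : Type*} [Fintype ι]

/-- joint measurability of the integrand -/
theorem measurable_Fg_param (o : ι → CO) {h : ι → X × ℂ → ℂ} (hm : ∀ i, Measurable (h i))
    (x : ι → ℝ) :
    Measurable fun p : X × (ι → ℝ) => Fg o (fun i z => h i (p.1, z)) (pos x p.2) := by
  have hp : ∀ i, Measurable fun p : X × (ι → ℝ) => pos x p.2 i := fun i =>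
    (measurable_pos x i).comp measurable_snd
  unfold Fg
  refine Measurable.mul ?_ ?_
  · exact Finset.measurable_prod _ fun i _ => (hm i).comp (measurable_fst.prodMk (hp i))
  · exact measurable_PU (fun a b (p : X × (ι → ℝ)) => gz (o a) (o b) (pos x p.2 a - pos x p.2 b))
      fun a b => (measurable_gz _ _).comp ((hp a).sub (hp b))

theorem measurable_Ig_param (o : ι → CO) {h : ι → X × ℂ → ℂ} (hm : ∀ i, Measurable (h i))
    (x : ι → ℝ) : Measurable fun y : X => Ig o (fun i z => h i (y, z)) x := by
  unfold Ig
  exact ((measurable_Fg_param o hm x).stronglyMeasurable.integral_prod_right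
    (ν := Measure.pi fun _ => volume)).measurable

theorem measurable_gas (a a' : ℕ) (x : ℝ) {H H' : X × ℂ → ℂ} (hH : Measurable H)
    (hH' : Measurable H') :
    Measurable fun y : X => gas a a' x (fun z => H (y, z)) (fun z => H' (y, z)) := by
  unfold gas
  refine Measurable.const_mul ?_ _
  have h := measurable_Ig_param (oo (fun _ : Fin a => Bd.Ob.A) (fun _ : Fin a' => Bd.Ob.A))
    (h := Sum.elim (fun _ => H) (fun _ => H')) (by rintro (i | i) <;> assumption) (fun _ => x)
  refine (congrArg Measurable (funext fun y => ?_)).mpr h
  congr 1
  funext i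
  rcases i with i | i <;> rfl

end

section

variable {r : ℕ} (P : NUO.Par) (hP : Measurable (P.rad r))

include hP

theorem measurable_gas_potC (a b : ℕ) (x : ℝ) {G G' : ℂ → ℂ} (hG : Measurable G)
    (hG' : Measurable G') (s s' : Bool) :
    Measurable fun O : Fin r → Xo =>
      gas a b x (fun z => G z * potC P O s z) (fun z => G' z * potC P O s' z) :=
  measurable_gas a b x (H := fun p : (Fin r → Xo) × ℂ => G p.2 * potC P p.1 s p.2)
    (H' := fun p : (Fin r → Xo) × ℂ => G' p.2 * potC P p.1 s' p.2)
    ((hG.comp measurable_snd).mul (measurable_potC P hP s))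
    ((hG'.comp measurable_snd).mul (measurable_potC P hP s'))

/-- the form used in the line form of `R4` -/
theorem measurable_enorm_gas_potC (a b : ℕ) (x : ℝ) {G : ℂ → ℂ} (hG : Measurable G) :
    Measurable fun O : Fin r → Xo =>
      ‖gas a b x (fun z => G z * potC P O true z) (fun z => G z * potC P O false z)‖ₑ :=
  (measurable_gas_potC P hP a b x hG hG true false).enorm

end

end NUO
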