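import Pool.Agent.NUO.MHat
import Pool.Agent.NUO.SBlockK

/-!
NUO/ND1 (helper25): the pointwise parts of the same kind kernels `L`-`S` and `St`-`S` (design D1).
`z = π k / 32`, everything over `P`.
-/

namespace NUD1

open NUSB

noncomputable section

/-- `1/4 D1[0,1/2] + 1/2 D2[1,3/2]` -/
def NLS (z : ℝ) : ℝ := ch 8 z * (ch 4 z * (ch 2 z - 1)) + ch 8 z * (ch 6 z - ch 4 z)

/-- `3/2 D2[1/4,3/4] + 3/4 D2[3/4,5/4] + 1/2 D2[5/4,7/4] + D4[7/4,9/4]` -/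
def NTS (z : ℝ) : ℝ := 3 * (ch 8 z * (ch 3 z - ch 1 z)) + (3 / 2) * (ch 8 z * (ch 5 z - ch 3 z))
  + ch 8 z * (ch 7 z - ch 5 z) + (ch 9 z - ch 7 z)

/-- pointwise part of `L`-`S`, core removed -/
def nLS (k : ℝ) : ℝ := PQ k * ((1 / 2) * (ch 16 (zk k) - ch 14 (zk k) - core (zk k)) + NLS (zk k))

/-- pointwise part of `St`-`S` -/
def nTS (k : ℝ) : ℝ := PQ k * NTS (zk k)

end

end NUD1
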