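import Mathlib

/-!
# Collision lemma (nu34/H30e)

For complex numbers `Z i` with `Z i + Z j ≠ 0` (`i ≠ j`), `t i j = (Z i - Z j) / (Z i + Z j)`,
and a set `A` of indices such that `‖t i j‖ ≤ 1` for `i, j ∉ A`:

  `∏_{i<j} ‖t i j‖ ≤ ∏_{a ∈ A} (1 + ∑_{j ≠ a} (1 + ‖t a j‖))`.
-/

noncomputable section

open Finset Polynomial

namespace NUCollT

variable {ι : Type*} [DecidableEq ι]

/-- `(a - b) / (a + b)`. -/
def tt (a b : ℂ) : ℂ := (a - b) / (a + b)

lemma norm_tt_comm (a b : ℂ) : ‖tt a b‖ = ‖tt b a‖ := by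
  unfold tt
  rw [norm_div, norm_div, norm_sub_rev, add_comm]

/-- partial fractions -/
lemma pf (Z : ι → ℂ) (s : Finset ι) (x : ℂ) (hinj : Set.InjOn Z s)
    (hx : ∀ i ∈ s, x + Z i ≠ 0) :
    ∏ i ∈ s, tt x (Z i) =
      1 - ∑ i ∈ s, (2 * Z i / (x + Z i)) * ∏ k ∈ s.erase i, (tt (Z i) (Z k))⁻¹ := by
  classical
  set v : ι → ℂ := fun i => - Z i with hv
  have hvs : Set.InjOn v s := by
    intro i hi j hj hij
    exact hinj hi hj (by simpa [hv] using hij)
  set P : ℂ[X] := Lagrange.nodal s Z with hP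
  have hdeg : (P - Lagrange.nodal s v).degree < #s := by
    have h1 : P.degree = #s := by rw [hP]; exact Lagrange.degree_nodal
    have h2 : (Lagrange.nodal s v).degree = #s := Lagrange.degree_nodal
    have h3 : (P - Lagrange.nodal s v).degree < P.degree := by
      apply Polynomial.degree_sub_lt_left (by rw [h1, h2])
      · exact Lagrange.nodal_ne_zero
      · rw [(Lagrange.nodal_monic (s := s) (v := Z)).leadingCoeff,
          (Lagrange.nodal_monic (s := s) (v := v)).leadingCoeff]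
    rwa [h1] at h3
  have hint := Lagrange.eq_interpolate hvs hdeg
  have hxv : ∀ i ∈ s, x ≠ v i := by
    intro i hi h
    apply hx i hi
    rw [h, hv]; simp
  have hev := congrArg (Polynomial.eval x) hint
  rw [Lagrange.eval_interpolate_not_at_node _ hxv] at hev
  have hN : eval x (Lagrange.nodal s v) = ∏ i ∈ s, (x + Z i) := by
    rw [Lagrange.eval_nodal]
    apply prod_congr rfl
    intro i _
    simp [hv]
  have hPx : eval x P = ∏ i ∈ s, (x - Z i) := by
    rw [hP, Lagrange.eval_nodal]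
  have hN0 : ∏ i ∈ s, (x + Z i) ≠ 0 := prod_ne_zero_iff.mpr hx
  rw [eval_sub, hPx, hN] at hev
  have hlhs : ∏ i ∈ s, tt x (Z i) = (∏ i ∈ s, (x - Z i)) / ∏ i ∈ s, (x + Z i) := by
    unfold tt; rw [prod_div_distrib]
  rw [hlhs, div_eq_iff hN0]
  have : ∑ i ∈ s, Lagrange.nodalWeight s v i * (x - v i)⁻¹ * eval (v i) (P - Lagrange.nodal s v)
      = - ∑ i ∈ s, (2 * Z i / (x + Z i)) * ∏ k ∈ s.erase i, (tt (Z i) (Z k))⁻¹ := by
    rw [← sum_neg_distrib]
    apply sum_congr rfl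
    intro i hi
    have h1 : eval (v i) (P - Lagrange.nodal s v) = ∏ k ∈ s, (- Z i - Z k) := by
      rw [eval_sub, Lagrange.eval_nodal_at_node hi, sub_zero, hP, Lagrange.eval_nodal]
    rw [h1, ← mul_prod_erase s _ hi, Lagrange.nodalWeight]
    have h2 : x - v i = x + Z i := by simp [hv]
    rw [h2]
    have h3 : ∏ k ∈ s.erase i, (tt (Z i) (Z k))⁻¹
        = (∏ j ∈ s.erase i, (v i - v j)⁻¹) * ∏ k ∈ s.erase i, (- Z i - Z k) := by
      rw [← prod_mul_distrib]
      apply prod_congr rfl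
      intro k hk
      unfold tt
      rw [inv_div]
      have h4 : v i - v k = -(Z i - Z k) := by simp [hv]; ring
      rw [h4, inv_neg, div_eq_mul_inv]
      ring
    rw [h3]
    have h5 : x + Z i ≠ 0 := hx i hi
    field_simp
    ring
  rw [this] at hev
  have := hev
  linear_combination hev

/-- product over ordered pairs -/
def GG (Z : ι → ℂ) (s : Finset ι) : ℝ := ∏ i ∈ s, ∏ j ∈ s.erase i, ‖tt (Z i) (Z j)‖

lemma GG_nonneg (Z : ι → ℂ) (s : Finset ι) : 0 ≤ GG Z s :=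
  prod_nonneg fun _ _ => prod_nonneg fun _ _ => norm_nonneg _

lemma GG_insert (Z : ι → ℂ) {s : Finset ι} {a : ι} (ha : a ∉ s) :
    GG Z (insert a s) = GG Z s * (∏ j ∈ s, ‖tt (Z a) (Z j)‖) ^ 2 := by
  unfold GG
  rw [prod_insert ha, erase_insert ha]
  have h1 : ∏ i ∈ s, ∏ j ∈ (insert a s).erase i, ‖tt (Z i) (Z j)‖
      = ∏ i ∈ s, (‖tt (Z a) (Z i)‖ * ∏ j ∈ s.erase i, ‖tt (Z i) (Z j)‖) := by
    apply prod_congr rfl
    intro i hi
    have hne : a ≠ i := fun h => ha (h ▸ hi)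
    rw [erase_insert_of_ne hne, prod_insert (by simp [ha]), norm_tt_comm]
  rw [h1, prod_mul_distrib]
  ring

lemma GG_erase (Z : ι → ℂ) {s : Finset ι} {a : ι} (ha : a ∈ s) :
    GG Z s = GG Z (s.erase a) * (∏ j ∈ s.erase a, ‖tt (Z a) (Z j)‖) ^ 2 := by
  conv_lhs => rw [← insert_erase ha]
  exact GG_insert Z (by simp)

/-- the bound -/
def Bd (Z : ι → ℂ) (U : Finset ι) (a : ι) : ℝ := 1 + ∑ j ∈ U.erase a, (1 + ‖tt (Z a) (Z j)‖)

lemma one_le_Bd (Z : ι → ℂ) (U : Finset ι) (a : ι) : 1 ≤ Bd Z U a := by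
  unfold Bd
  have : 0 ≤ ∑ j ∈ U.erase a, (1 + ‖tt (Z a) (Z j)‖) :=
    sum_nonneg fun _ _ => by positivity
  linarith

lemma step (Z : ι → ℂ) {s : Finset ι} {a : ι} (ha : a ∉ s) (hinj : Set.InjOn Z s)
    (hx : ∀ i ∈ s, Z a + Z i ≠ 0) (hs : ∀ i ∈ s, ∀ j ∈ s, i ≠ j → Z i + Z j ≠ 0) :
    √(GG Z (insert a s)) ≤ √(GG Z s) +
      ∑ i ∈ s, (1 + ‖tt (Z a) (Z i)‖) * √(GG Z (s.erase i)) := by
  have hp : 0 ≤ ∏ j ∈ s, ‖tt (Z a) (Z j)‖ := prod_nonneg fun _ _ => norm_nonneg _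
  rw [GG_insert Z ha, Real.sqrt_mul (GG_nonneg Z s), Real.sqrt_sq hp]
  rw [← norm_prod, pf Z s (Z a) hinj hx]
  have h1 : ‖1 - ∑ i ∈ s, (2 * Z i / (Z a + Z i)) * ∏ k ∈ s.erase i, (tt (Z i) (Z k))⁻¹‖
      ≤ 1 + ∑ i ∈ s, (1 + ‖tt (Z a) (Z i)‖) * ∏ k ∈ s.erase i, ‖tt (Z i) (Z k)‖⁻¹ := by
    refine (norm_sub_le _ _).trans ?_
    rw [norm_one]
    gcongr
    refine (norm_sum_le _ _).trans ?_
    apply sum_le_sum
    intro i hi
    rw [norm_mul, norm_prod]
    simp_rw [norm_inv]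
    gcongr
    have h2 : 2 * Z i / (Z a + Z i) = 1 - tt (Z a) (Z i) := by
      unfold tt
      have := hx i hi
      field_simp
      ring
    rw [h2]
    refine (norm_sub_le _ _).trans ?_
    rw [norm_one]
  refine (mul_le_mul_of_nonneg_left h1 (Real.sqrt_nonneg _)).trans ?_
  rw [mul_add, mul_one, mul_sum]
  refine add_le_add le_rfl (sum_le_sum fun i hi => ?_)
  have h3 : √(GG Z s) = √(GG Z (s.erase i)) * ∏ k ∈ s.erase i, ‖tt (Z i) (Z k)‖ := by
    rw [GG_erase Z hi, Real.sqrt_mul (GG_nonneg Z _),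
      Real.sqrt_sq (prod_nonneg fun _ _ => norm_nonneg _)]
  rw [h3]
  have h4 : (∏ k ∈ s.erase i, ‖tt (Z i) (Z k)‖) * ∏ k ∈ s.erase i, ‖tt (Z i) (Z k)‖⁻¹ = 1 := by
    rw [← prod_mul_distrib]
    apply prod_eq_one
    intro k hk
    rw [mem_erase] at hk
    have hne : Z i - Z k ≠ 0 := sub_ne_zero.mpr fun h => hk.1 (hinj hk.2 hi h.symm)
    have hne2 : Z i + Z k ≠ 0 := hs i hi k hk.2 (Ne.symm hk.1)
    have : ‖tt (Z i) (Z k)‖ ≠ 0 := by
      rw [norm_ne_zero_iff]; unfold tt; exact div_ne_zero hne hne2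
    exact mul_inv_cancel₀ this
  apply le_of_eq
  calc √(GG Z (s.erase i)) * (∏ k ∈ s.erase i, ‖tt (Z i) (Z k)‖) *
        ((1 + ‖tt (Z a) (Z i)‖) * ∏ k ∈ s.erase i, ‖tt (Z i) (Z k)‖⁻¹)
      = (1 + ‖tt (Z a) (Z i)‖) * √(GG Z (s.erase i)) *
        ((∏ k ∈ s.erase i, ‖tt (Z i) (Z k)‖) * ∏ k ∈ s.erase i, ‖tt (Z i) (Z k)‖⁻¹) := by ring
    _ = _ := by rw [h4, mul_one]

/-- **Collision lemma**, finset form. -/
theorem coll_aux (Z : ι → ℂ) (A U : Finset ι)
    (hne : ∀ i ∈ U, ∀ j ∈ U, i ≠ j → Z i + Z j ≠ 0)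
    (hle : ∀ i ∈ U, ∀ j ∈ U, i ∉ A → j ∉ A → i ≠ j → ‖tt (Z i) (Z j)‖ ≤ 1) :
    ∀ n : ℕ, ∀ s ⊆ U, #s = n → √(GG Z s) ≤ ∏ a ∈ s ∩ A, Bd Z U a := by
  intro n
  induction n using Nat.strong_induction_on with
  | _ n ih =>
  intro s hsU hcard
  have hpos : ∀ r : Finset ι, 0 ≤ ∏ a ∈ r, Bd Z U a := fun r =>
    prod_nonneg fun a _ => le_trans zero_le_one (one_le_Bd Z U a)
  by_cases hinj : Set.InjOn Z s
  swap
  · -- two equal points
    have : GG Z s = 0 := by
      unfold Set.InjOn at hinj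
      push Not at hinj
      obtain ⟨i, hi, j, hj, hij, hne'⟩ := hinj
      unfold GG
      apply prod_eq_zero (i := i) (by simpa using hi)
      apply prod_eq_zero (i := j) (by simp at hj ⊢; exact ⟨Ne.symm hne', hj⟩)
      simp [tt, hij]
    rw [this, Real.sqrt_zero]
    exact hpos _
  by_cases hA : (s ∩ A).Nonempty
  · obtain ⟨a, haA⟩ := hA
    rw [mem_inter] at haA
    obtain ⟨has, haA⟩ := haA
    set s' := s.erase a with hs'
    have hins : insert a s' = s := insert_erase has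
    have hnot : a ∉ s' := by simp [hs']
    have hs'U : s' ⊆ U := (erase_subset _ _).trans hsU
    have hcard' : #s' < n := by rw [← hcard]; exact card_erase_lt_of_mem has
    have hst := step Z hnot (hinj.mono (by simp [hs']))
      (fun i hi => hne a (hsU has) i (hs'U hi) (by rintro rfl; exact hnot hi))
      (fun i hi j hj hij => hne i (hs'U hi) j (hs'U hj) hij)
    rw [hins] at hst
    have h0 := ih #s' hcard' s' hs'U rfl
    have hi : ∀ i ∈ s', √(GG Z (s'.erase i)) ≤ ∏ a ∈ s' ∩ A, Bd Z U a := by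
      intro i hi
      have hlt : #(s'.erase i) < n := lt_of_lt_of_le (card_erase_lt_of_mem hi) hcard'.le
      refine (ih _ hlt (s'.erase i) ((erase_subset _ _).trans hs'U) rfl).trans ?_
      have hsub : (s'.erase i) ∩ A ⊆ s' ∩ A := inter_subset_inter_right (erase_subset _ _)
      rw [← prod_sdiff hsub]
      apply le_mul_of_one_le_left (hpos _)
      exact prod_induction _ (fun x => (1 : ℝ) ≤ x)
        (fun a b ha hb => one_le_mul_of_one_le_of_one_le ha hb) le_rfl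
        (fun j _ => one_le_Bd Z U j)
    have h1 : √(GG Z s) ≤ (1 + ∑ i ∈ s', (1 + ‖tt (Z a) (Z i)‖)) * ∏ a ∈ s' ∩ A, Bd Z U a := by
      refine hst.trans ?_
      rw [add_mul, one_mul, sum_mul]
      gcongr with i hi'
      exact hi i hi'
    refine h1.trans ?_
    have h2 : s ∩ A = insert a (s' ∩ A) := by
      rw [← hins, insert_inter_of_mem haA]
    rw [h2, prod_insert (by simp [hnot])]
    apply mul_le_mul_of_nonneg_right _ (hpos _)
    unfold Bd
    gcongr
    exact erase_subset_erase _ hsU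
  · rw [not_nonempty_iff_eq_empty] at hA
    rw [hA, prod_empty]
    rw [Real.sqrt_le_one]
    unfold GG
    apply prod_le_one
    · intro i _; exact prod_nonneg fun _ _ => norm_nonneg _
    · intro i hi
      apply prod_le_one
      · intro j _; exact norm_nonneg _
      · intro j hj
        rw [mem_erase] at hj
        have hiA : i ∉ A := fun h => by
          have : i ∈ s ∩ A := mem_inter.mpr ⟨hi, h⟩
          rw [hA] at this; exact absurd this (notMem_empty _)
        have hjA : j ∉ A := fun h => by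
          have : j ∈ s ∩ A := mem_inter.mpr ⟨hj.2, h⟩
          rw [hA] at this; exact absurd this (notMem_empty _)
        exact hle i (hsU hi) j (hsU hj.2) hiA hjA (Ne.symm hj.1)

/-- **Collision lemma**: the product over ordered pairs `∏_{i ≠ j} ‖t i j‖` (i.e. the square of the
product over pairs) is at most `∏_{a ∈ A} (1 + ∑_{j ≠ a} (1 + ‖t a j‖))^2`. -/
theorem coll (Z : ι → ℂ) (A U : Finset ι)
    (hne : ∀ i ∈ U, ∀ j ∈ U, i ≠ j → Z i + Z j ≠ 0)
    (hle : ∀ i ∈ U, ∀ j ∈ U, i ∉ A → j ∉ A → i ≠ j → ‖tt (Z i) (Z j)‖ ≤ 1) :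
    ∏ i ∈ U, ∏ j ∈ U.erase i, ‖tt (Z i) (Z j)‖ ≤ ∏ a ∈ U ∩ A, (Bd Z U a) ^ 2 := by
  have h := coll_aux Z A U hne hle #U U (Subset.refl _) rfl
  have h0 : 0 ≤ √(GG Z U) := Real.sqrt_nonneg _
  have h1 : GG Z U = √(GG Z U) ^ 2 := (Real.sq_sqrt (GG_nonneg Z U)).symm
  change GG Z U ≤ _
  rw [h1, prod_pow]
  gcongr

/-! ### The form with `tanh` -/

lemma norm_sinh_sq (w : ℂ) :
    ‖Complex.sinh w‖ ^ 2 = Real.sinh w.re ^ 2 + Real.sin w.im ^ 2 := by
  conv_lhs => rw [← Complex.re_add_im w, Complex.sinh_add, Complex.cosh_mul_I, Complex.sinh_mul_I,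
    ← Complex.ofReal_sinh, ← Complex.ofReal_cosh, ← Complex.ofReal_sin, ← Complex.ofReal_cos]
  rw [← Complex.normSq_eq_norm_sq, Complex.normSq_apply]
  simp only [Complex.add_re, Complex.mul_re, Complex.ofReal_re, Complex.ofReal_im, Complex.I_re,
    Complex.I_im, Complex.add_im, Complex.mul_im]
  have h1 := Real.cosh_sq w.re
  have h2 := Real.sin_sq_add_cos_sq w.im
  ring_nf
  rw [h1]
  have : Real.cos w.im ^ 2 = 1 - Real.sin w.im ^ 2 := by linarith
  rw [this]
  ring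

lemma norm_cosh_sq (w : ℂ) :
    ‖Complex.cosh w‖ ^ 2 = Real.sinh w.re ^ 2 + Real.cos w.im ^ 2 := by
  conv_lhs => rw [← Complex.re_add_im w, Complex.cosh_add, Complex.cosh_mul_I, Complex.sinh_mul_I,
    ← Complex.ofReal_sinh, ← Complex.ofReal_cosh, ← Complex.ofReal_sin, ← Complex.ofReal_cos]
  rw [← Complex.normSq_eq_norm_sq, Complex.normSq_apply]
  simp only [Complex.add_re, Complex.mul_re, Complex.ofReal_re, Complex.ofReal_im, Complex.I_re,
    Complex.I_im, Complex.add_im, Complex.mul_im]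
  have h1 := Real.cosh_sq w.re
  have h2 := Real.sin_sq_add_cos_sq w.im
  ring_nf
  rw [h1]
  have : Real.sin w.im ^ 2 = 1 - Real.cos w.im ^ 2 := by linarith
  rw [this]
  ring

lemma sin_sq_le_cos_sq {v : ℝ} (h : |v| ≤ Real.pi / 4) : Real.sin v ^ 2 ≤ Real.cos v ^ 2 := by
  have h1 : 0 ≤ Real.cos (2 * v) := by
    apply Real.cos_nonneg_of_neg_pi_div_two_le_of_le <;> linarith [abs_le.mp h]
  rw [Real.cos_two_mul] at h1
  have h2 := Real.sin_sq_add_cos_sq v
  linarith

lemma norm_tanh_le_one {w : ℂ} (h : |w.im| ≤ Real.pi / 4) : ‖Complex.tanh w‖ ≤ 1 := by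
  have h1 : ‖Complex.sinh w‖ ^ 2 ≤ ‖Complex.cosh w‖ ^ 2 := by
    rw [norm_sinh_sq, norm_cosh_sq]; linarith [sin_sq_le_cos_sq h]
  have h2 : ‖Complex.sinh w‖ ≤ ‖Complex.cosh w‖ :=
    le_of_sq_le_sq h1 (norm_nonneg _)
  rw [Complex.tanh_eq_sinh_div_cosh, norm_div]
  exact div_le_one_of_le₀ h2 (norm_nonneg _)

lemma norm_cosh_pos {w : ℂ} (h : |w.im| ≤ Real.pi / 4) : 0 < ‖Complex.cosh w‖ := by
  have h1 : 0 < Real.cos w.im := by
    apply Real.cos_pos_of_mem_Ioo
    have := abs_le.mp h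
    constructor <;> linarith [Real.pi_pos]
  have h2 : 0 < ‖Complex.cosh w‖ ^ 2 := by rw [norm_cosh_sq]; positivity
  exact pos_of_ne_zero_sq (norm_nonneg _) h2
where
  pos_of_ne_zero_sq {x : ℝ} (hx : 0 ≤ x) (h : 0 < x ^ 2) : 0 < x := by
    rcases hx.lt_or_eq with h' | h'
    · exact h'
    · rw [← h'] at h; simp at h

lemma sin_sq_ge {v : ℝ} (h : |v| ≤ Real.pi / 4) : v ^ 2 / 3 ≤ Real.sin v ^ 2 := by
  have h0 : 0 ≤ |v| := abs_nonneg v
  have h1 : 2 / Real.pi * |v| ≤ Real.sin |v| :=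
    Real.mul_le_sin h0 (by linarith [Real.pi_pos])
  have h2 : Real.sin |v| ^ 2 = Real.sin v ^ 2 := by
    rcases abs_cases v with ⟨h', _⟩ | ⟨h', _⟩
    · rw [h']
    · rw [h', Real.sin_neg]; ring
  rw [← h2]
  have h3 : (0 : ℝ) ≤ 2 / Real.pi * |v| := by positivity
  have h4 : (2 / Real.pi * |v|) ^ 2 ≤ Real.sin |v| ^ 2 := by gcongr
  refine le_trans ?_ h4
  rw [mul_pow, sq_abs, div_pow]
  have h5 : Real.pi ^ 2 ≤ 12 := by
    have := Real.pi_lt_d2
    nlinarith [Real.pi_pos]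
  have h6 : (1 : ℝ) / 3 ≤ 2 ^ 2 / Real.pi ^ 2 := by
    rw [div_le_div_iff₀ (by norm_num) (by positivity)]
    linarith
  calc v ^ 2 / 3 = (1 / 3) * v ^ 2 := by ring
    _ ≤ _ := by gcongr

lemma norm_coth_le {w : ℂ} (h : |w.im| ≤ Real.pi / 4) (hw : w ≠ 0) :
    ‖Complex.tanh w‖⁻¹ ≤ 1 + 2 / ‖w‖ := by
  have hw0 : 0 < ‖w‖ := norm_pos_iff.mpr hw
  have hs : ‖w‖ ^ 2 / 3 ≤ ‖Complex.sinh w‖ ^ 2 := by
    rw [norm_sinh_sq, ← Complex.normSq_eq_norm_sq, Complex.normSq_apply]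
    have h1 : w.re ^ 2 ≤ Real.sinh w.re ^ 2 := by
      rw [← sq_abs w.re, ← sq_abs (Real.sinh w.re)]
      have : |w.re| ≤ |Real.sinh w.re| := by
        rw [Real.abs_sinh]; exact Real.self_le_sinh_iff.mpr (abs_nonneg _)
      gcongr
    have h2 := sin_sq_ge h
    nlinarith [sq_nonneg w.re]
  have hspos : 0 < ‖Complex.sinh w‖ ^ 2 := lt_of_lt_of_le (by positivity) hs
  have hs0 : 0 < ‖Complex.sinh w‖ := by
    rcases (norm_nonneg (Complex.sinh w)).lt_or_eq with h' | h'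
    · exact h'
    · rw [← h'] at hspos; simp at hspos
  have hc : ‖Complex.cosh w‖ ^ 2 ≤ ‖Complex.sinh w‖ ^ 2 + 1 := by
    rw [norm_sinh_sq, norm_cosh_sq]
    have := Real.cos_sq_le_one w.im
    nlinarith [sq_nonneg (Real.sin w.im)]
  rw [Complex.tanh_eq_sinh_div_cosh, norm_div, inv_div, div_le_iff₀ hs0]
  have h3 : ‖w‖ / 2 ≤ ‖Complex.sinh w‖ := by
    apply le_of_sq_le_sq _ hs0.le
    refine le_trans ?_ hs
    rw [div_pow]
    nlinarith [sq_nonneg ‖w‖]
  have h4 : 1 ≤ 2 / ‖w‖ * ‖Complex.sinh w‖ := by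
    rw [div_mul_eq_mul_div, le_div_iff₀ hw0]
    linarith
  apply le_of_sq_le_sq _ (by positivity)
  refine hc.trans ?_
  nlinarith [norm_nonneg (Complex.sinh w)]

lemma tt_exp (a b : ℂ) : tt (Complex.exp (2 * a)) (Complex.exp (2 * b)) = Complex.tanh (a - b) := by
  unfold tt
  rw [Complex.tanh_eq_sinh_div_cosh, Complex.sinh, Complex.cosh]
  have h1 : Complex.exp (a - b) = Complex.exp (2 * a) * Complex.exp (-(a + b)) := by
    rw [← Complex.exp_add]; ring_nf
  have h2 : Complex.exp (-(a - b)) = Complex.exp (2 * b) * Complex.exp (-(a + b)) := by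
    rw [← Complex.exp_add]; ring_nf
  rw [h1, h2, ← sub_mul, ← add_mul]
  have h3 : Complex.exp (-(a + b)) ≠ 0 := Complex.exp_ne_zero _
  rw [div_div_div_cancel_right₀ two_ne_zero, mul_div_mul_right _ _ h3]

lemma tt_neg_right (a b : ℂ) : tt a (-b) = (tt a b)⁻¹ := by
  unfold tt; rw [inv_div]; ring_nf

lemma tt_neg_neg (a b : ℂ) : tt (-a) (-b) = tt a b := by
  unfold tt
  rw [show -a - -b = -(a - b) by ring, show -a + -b = -(a + b) by ring, neg_div_neg_eq]

lemma tt_neg_left (a b : ℂ) : tt (-a) b = (tt a b)⁻¹ := by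
  have := tt_neg_neg a (-b)
  rw [neg_neg] at this
  rw [this, tt_neg_right]

/-- **Collision lemma** with `tanh`: charges `q i ∈ {-1, 0, 1}`, cores
`- q q' log |tanh c (ζ - ζ')|` per ordered pair; the cost is only per charge `-1`. -/
theorem coll_tanh {ι : Type*} [Fintype ι] [DecidableEq ι] (q : ι → ℤ) (ζ : ι → ℂ) (c δ : ℝ)
    (hc : 0 < c) (hδ : 0 < δ) (hq : ∀ i, q i = -1 ∨ q i = 0 ∨ q i = 1)
    (him : ∀ i j, |c * (ζ i - ζ j).im| ≤ Real.pi / 4)
    (hd : ∀ i j, i ≠ j → q i ≠ 0 → q j ≠ 0 → δ ≤ ‖ζ i - ζ j‖) :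
    ∑ i, ∑ j ∈ univ.erase i, ((q i : ℝ) * q j) * Real.log ‖Complex.tanh (c * (ζ i - ζ j))‖
      ≤ 2 * #{i | q i = -1} * Real.log (Fintype.card ι * (2 + 2 / (c * δ))) := by
  classical
  set U : Finset ι := {i | q i ≠ 0} with hU
  set A : Finset ι := {i | q i = -1} with hA
  set Z : ι → ℂ := fun i => (if q i = -1 then 1 else -1) * Complex.exp (2 * (c * ζ i)) with hZ
  have hAU : A ⊆ U := by
    intro i hi
    simp only [hA, hU, mem_filter, mem_univ, true_and] at hi ⊢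
    rw [hi]; norm_num
  have him' : ∀ i j, |((c : ℂ) * (ζ i - ζ j)).im| ≤ Real.pi / 4 := by
    intro i j
    have : ((c : ℂ) * (ζ i - ζ j)).im = c * (ζ i - ζ j).im := by simp
    rw [this]; exact him i j
  have hne0 : ∀ i ∈ U, ∀ j ∈ U, i ≠ j → (c : ℂ) * (ζ i - ζ j) ≠ 0 := by
    intro i hi j hj hij
    simp only [hU, mem_filter, mem_univ, true_and] at hi hj
    have := hd i j hij hi hj
    have h1 : ζ i - ζ j ≠ 0 := by
      rw [← norm_pos_iff]; linarith
    exact mul_ne_zero (by exact_mod_cast hc.ne') h1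
  have ht0 : ∀ i ∈ U, ∀ j ∈ U, i ≠ j → 0 < ‖Complex.tanh (c * (ζ i - ζ j))‖ := by
    intro i hi j hj hij
    rw [norm_pos_iff, Complex.tanh_eq_sinh_div_cosh]
    apply div_ne_zero
    · rw [← norm_pos_iff]
      have h1 : 0 < ‖Complex.sinh (c * (ζ i - ζ j))‖ ^ 2 := by
        rw [norm_sinh_sq]
        have h2 := hne0 i hi j hj hij
        by_contra h3
        push Not at h3
        have h4 : Real.sinh ((c : ℂ) * (ζ i - ζ j)).re ^ 2 = 0 := by
          nlinarith [sq_nonneg (Real.sinh ((c : ℂ) * (ζ i - ζ j)).re),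
            sq_nonneg (Real.sin ((c : ℂ) * (ζ i - ζ j)).im)]
        have h5 : Real.sin ((c : ℂ) * (ζ i - ζ j)).im ^ 2 = 0 := by
          nlinarith [sq_nonneg (Real.sinh ((c : ℂ) * (ζ i - ζ j)).re),
            sq_nonneg (Real.sin ((c : ℂ) * (ζ i - ζ j)).im)]
        have h6 := sin_sq_ge (him' i j)
        apply h2
        apply Complex.ext
        · have := pow_eq_zero_iff (two_ne_zero) |>.mp h4
          rw [Real.sinh_eq_zero] at this
          rw [this]; rfl
        · have : ((c : ℂ) * (ζ i - ζ j)).im ^ 2 = 0 := by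
            nlinarith [sq_nonneg ((c : ℂ) * (ζ i - ζ j)).im]
          have := pow_eq_zero_iff (two_ne_zero) |>.mp this
          rw [this]; rfl
      rcases (norm_nonneg (Complex.sinh (c * (ζ i - ζ j)))).lt_or_eq with h' | h'
      · exact h'
      · rw [← h'] at h1; simp at h1
    · rw [← norm_pos_iff]; exact norm_cosh_pos (him' i j)
  -- the values of `tt`
  have hexp : ∀ i j, tt (Complex.exp (2 * (c * ζ i))) (Complex.exp (2 * (c * ζ j)))
      = Complex.tanh (c * (ζ i - ζ j)) := by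
    intro i j; rw [tt_exp]; ring_nf
  have hval : ∀ i ∈ U, ∀ j ∈ U, ‖tt (Z i) (Z j)‖
      = if (q i = -1 ↔ q j = -1) then ‖Complex.tanh (c * (ζ i - ζ j))‖
        else ‖Complex.tanh (c * (ζ i - ζ j))‖⁻¹ := by
    intro i _ j _
    simp only [hZ]
    by_cases h1 : q i = -1 <;> by_cases h2 : q j = -1
    · simp [h1, h2, hexp]
    · simp only [h1, h2, if_true, if_false, one_mul, neg_mul, tt_neg_right, norm_inv, hexp]
      simp
    · simp only [h1, h2, if_true, if_false, one_mul, neg_mul, tt_neg_left, norm_inv, hexp]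
      simp
    · simp only [h1, h2, if_false, one_mul, neg_mul, tt_neg_neg, hexp]
      simp
  have hsum0 : ∀ i ∈ U, ∀ j ∈ U, i ≠ j → Z i + Z j ≠ 0 := by
    intro i hi j hj hij h
    have h1 := hval i hi j hj
    have h2 : tt (Z i) (Z j) = 0 := by unfold tt; rw [h, div_zero]
    rw [h2, norm_zero] at h1
    have h3 := ht0 i hi j hj hij
    split_ifs at h1
    · linarith
    · have := inv_pos.mpr h3; linarith
  have hle : ∀ i ∈ U, ∀ j ∈ U, i ∉ A → j ∉ A → i ≠ j → ‖tt (Z i) (Z j)‖ ≤ 1 := by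
    intro i hi j hj hiA hjA _
    simp only [hA, mem_filter, mem_univ, true_and] at hiA hjA
    rw [hval i hi j hj, if_pos (by simp [hiA, hjA])]
    exact norm_tanh_le_one (him' i j)
  have hcoll := coll Z A U hsum0 hle
  rw [inter_eq_right.mpr hAU] at hcoll
  -- logarithm
  have hpos : ∀ i ∈ U, ∀ j ∈ U.erase i, 0 < ‖tt (Z i) (Z j)‖ := by
    intro i hi j hj
    rw [mem_erase] at hj
    rw [hval i hi j hj.2]
    have := ht0 i hi j hj.2 (Ne.symm hj.1)
    split_ifs
    · exact this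
    · exact inv_pos.mpr this
  have hlog : Real.log (∏ i ∈ U, ∏ j ∈ U.erase i, ‖tt (Z i) (Z j)‖)
      = ∑ i ∈ U, ∑ j ∈ U.erase i, Real.log ‖tt (Z i) (Z j)‖ := by
    rw [Real.log_prod (fun i hi => (prod_pos fun j hj => hpos i hi j hj).ne')]
    apply sum_congr rfl
    intro i hi
    rw [Real.log_prod (fun j hj => (hpos i hi j hj).ne')]
  have hlhs : ∑ i, ∑ j ∈ univ.erase i, ((q i : ℝ) * q j) *
      Real.log ‖Complex.tanh (c * (ζ i - ζ j))‖
      = ∑ i ∈ U, ∑ j ∈ U.erase i, Real.log ‖tt (Z i) (Z j)‖ := by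
    rw [← sum_subset (subset_univ U)]
    · apply sum_congr rfl
      intro i hi
      rw [← sum_subset (erase_subset_erase i (subset_univ U))]
      · apply sum_congr rfl
        intro j hj
        rw [mem_erase] at hj
        rw [hval i hi j hj.2]
        have hi' := hi
        have hj' := hj.2
        simp only [hU, mem_filter, mem_univ, true_and] at hi' hj'
        rcases hq i with h1 | h1 | h1
        · rcases hq j with h2 | h2 | h2
          · simp [h1, h2]
          · exact absurd h2 hj'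
          · simp [h1, h2, Real.log_inv]
        · exact absurd h1 hi'
        · rcases hq j with h2 | h2 | h2
          · simp [h1, h2, Real.log_inv]
          · exact absurd h2 hj'
          · simp [h1, h2]
      · intro j hj hj'
        have : q j = 0 := by
          by_contra h
          apply hj'
          rw [mem_erase] at hj ⊢
          exact ⟨hj.1, by simp [hU, h]⟩
        simp [this]
    · intro i _ hi
      have : q i = 0 := by
        by_contra h
        exact hi (by simp [hU, h])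
      simp [this]
  rw [hlhs, ← hlog]
  have hN : ∀ a ∈ A, Bd Z U a ≤ Fintype.card ι * (2 + 2 / (c * δ)) := by
    intro a haA
    have haU := hAU haA
    have h1 : ∀ j ∈ U.erase a, 1 + ‖tt (Z a) (Z j)‖ ≤ 2 + 2 / (c * δ) := by
      intro j hj
      rw [mem_erase] at hj
      rw [hval a haU j hj.2]
      have haU' := haU
      have hj' := hj.2
      simp only [hU, mem_filter, mem_univ, true_and] at haU' hj'
      have hcd : 0 < c * δ := mul_pos hc hδ
      have h2 : ‖Complex.tanh (c * (ζ a - ζ j))‖ ≤ 1 := norm_tanh_le_one (him' a j)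
      split_ifs
      · have : 0 ≤ 2 / (c * δ) := by positivity
        linarith
      · have h3 := norm_coth_le (him' a j) (hne0 a haU j hj.2 (Ne.symm hj.1))
        have h4 : c * δ ≤ ‖(c : ℂ) * (ζ a - ζ j)‖ := by
          rw [norm_mul, Complex.norm_real, Real.norm_of_nonneg hc.le]
          have := hd a j (Ne.symm hj.1) haU' hj'
          gcongr
        have h5 : 2 / ‖(c : ℂ) * (ζ a - ζ j)‖ ≤ 2 / (c * δ) := by gcongr
        linarith
    unfold Bd
    have h6 : ∑ j ∈ U.erase a, (1 + ‖tt (Z a) (Z j)‖) ≤ #(U.erase a) * (2 + 2 / (c * δ)) := by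
      rw [← nsmul_eq_mul]
      exact sum_le_card_nsmul _ _ _ h1
    have h7 : (#(U.erase a) : ℝ) ≤ Fintype.card ι - 1 := by
      have h8 : #(U.erase a) + 1 ≤ Fintype.card ι := by
        rw [card_erase_add_one haU]; exact card_le_univ U
      have : ((#(U.erase a) + 1 : ℕ) : ℝ) ≤ Fintype.card ι := by exact_mod_cast h8
      push_cast at this
      linarith
    have h9 : (1 : ℝ) ≤ 2 + 2 / (c * δ) := by
      have : 0 ≤ 2 / (c * δ) := by positivity
      linarith
    nlinarith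
  calc Real.log (∏ i ∈ U, ∏ j ∈ U.erase i, ‖tt (Z i) (Z j)‖)
      ≤ Real.log (∏ a ∈ A, Bd Z U a ^ 2) := by
        apply Real.log_le_log _ hcoll
        exact prod_pos fun i hi => prod_pos fun j hj => hpos i hi j hj
    _ = ∑ a ∈ A, 2 * Real.log (Bd Z U a) := by
        rw [Real.log_prod (fun a _ => by
          have := one_le_Bd Z U a
          positivity)]
        apply sum_congr rfl
        intro a _
        rw [Real.log_pow]; norm_num
    _ ≤ ∑ _a ∈ A, 2 * Real.log (Fintype.card ι * (2 + 2 / (c * δ))) := by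
        apply sum_le_sum
        intro a ha
        have h1 := one_le_Bd Z U a
        have := Real.log_le_log (by linarith) (hN a ha)
        linarith
    _ = _ := by
        rw [sum_const, nsmul_eq_mul]; ring

end NUCollT
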