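import Pool.Agent.NUO.DispR
import Pool.Agent.NUO.CollT

/-!
# Log cores of scale `2 ^ k`

`GK k ζ = log ‖sinh ζ‖ - log ‖tanh (2 ^ k ζ)‖`, written as a sum of `log ‖cosh‖`: regular.
-/

set_option autoImplicit false

noncomputable section

open Complex

namespace NUDispO

open NUDispR

/-- regular part of the core of scale `2 ^ k` -/
def GK (k : ℕ) (ζ : ℂ) : ℝ :=
  Real.log ‖cosh ((2 : ℂ) ^ k * ζ)‖ - ∑ j ∈ Finset.range k, Real.log ‖cosh ((2 : ℂ) ^ j * ζ)‖ -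
    k * Real.log 2

lemma sinh_pow_two (k : ℕ) (ζ : ℂ) : sinh ((2 : ℂ) ^ k * ζ) =
    2 ^ k * sinh ζ * ∏ j ∈ Finset.range k, cosh ((2 : ℂ) ^ j * ζ) := by
  induction k with
  | zero => simp
  | succ k ih =>
    rw [pow_succ', mul_assoc, Complex.sinh_two_mul, ih, Finset.prod_range_succ]
    ring

lemma im_pow_le {k j : ℕ} (hj : j ≤ k) {ζ : ℂ} (h : |(2 : ℝ) ^ k * ζ.im| ≤ Real.pi / 4) :
    |((2 : ℂ) ^ j * ζ).im| ≤ Real.pi / 4 := by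
  have e : ((2 : ℂ) ^ j * ζ).im = (2 : ℝ) ^ j * ζ.im := by
    rw [show (2 : ℂ) ^ j = (((2 : ℝ) ^ j : ℝ) : ℂ) by push_cast; rfl, Complex.im_ofReal_mul]
  rw [e]
  refine le_trans ?_ h
  rw [abs_mul, abs_mul, abs_of_pos (by positivity : (0 : ℝ) < 2 ^ j),
    abs_of_pos (by positivity : (0 : ℝ) < 2 ^ k)]
  exact mul_le_mul_of_nonneg_right (pow_le_pow_right₀ (by norm_num) hj) (abs_nonneg _)

lemma cosh_pow_ne {k j : ℕ} (hj : j ≤ k) {ζ : ℂ} (h : |(2 : ℝ) ^ k * ζ.im| ≤ Real.pi / 4) :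
    cosh ((2 : ℂ) ^ j * ζ) ≠ 0 := by
  have := half_le_norm_cosh (im_pow_le hj h)
  exact norm_pos_iff.1 (by linarith)

/-- `log |sinh ζ| - log |tanh 2 ^ k ζ|` is the regular part -/
theorem GK_eq {k : ℕ} {ζ : ℂ} (h : |(2 : ℝ) ^ k * ζ.im| ≤ Real.pi / 4) (h0 : sinh ζ ≠ 0) :
    Real.log ‖sinh ζ‖ - Real.log ‖tanh ((2 : ℂ) ^ k * ζ)‖ = GK k ζ := by
  have hk := cosh_pow_ne le_rfl h
  have hp : ∀ j ∈ Finset.range k, ‖cosh ((2 : ℂ) ^ j * ζ)‖ ≠ 0 := fun j hj =>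
    norm_ne_zero_iff.2 (cosh_pow_ne (Finset.mem_range.1 hj).le h)
  have hs := norm_ne_zero_iff.2 h0
  rw [Complex.tanh_eq_sinh_div_cosh, sinh_pow_two, norm_div, norm_mul, norm_mul, norm_prod,
    norm_pow, GK]
  have e2 : ‖(2 : ℂ)‖ = 2 := by simp
  have hP : ∏ j ∈ Finset.range k, ‖cosh ((2 : ℂ) ^ j * ζ)‖ ≠ 0 := Finset.prod_ne_zero_iff.2 hp
  rw [e2, Real.log_div (by positivity) (norm_ne_zero_iff.2 hk), Real.log_mul (by positivity) hP,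
    Real.log_mul (by positivity) hs, Real.log_prod hp, Real.log_pow]
  ring

/-- Lipschitz bound of the regular part of the core -/
theorem GK_disp {k : ℕ} {ζ a : ℂ} (h : |(2 : ℝ) ^ k * ζ.im| ≤ Real.pi / 4)
    (ha : 2 ^ k * ‖a‖ ≤ 1 / 48) :
    |GK k (ζ + a) - GK k ζ| ≤ 48 * 2 ^ k * ‖a‖ := by
  have key : ∀ j ≤ k, |Real.log ‖cosh ((2 : ℂ) ^ j * (ζ + a))‖ -
      Real.log ‖cosh ((2 : ℂ) ^ j * ζ)‖| ≤ 24 * (2 ^ j * ‖a‖) := by
    intro j hj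
    rw [mul_add]
    have h1 : ‖(2 : ℂ) ^ j * a‖ = 2 ^ j * ‖a‖ := by
      rw [norm_mul, norm_pow]
      simp
    have h2 := log_cosh_disp (w := (2 : ℂ) ^ j * ζ) (b := (2 : ℂ) ^ j * a) (im_pow_le hj h) (by
      rw [h1]
      refine le_trans ?_ ha
      exact mul_le_mul_of_nonneg_right (pow_le_pow_right₀ (by norm_num) hj) (norm_nonneg _))
    rwa [h1] at h2
  have hsum : |∑ j ∈ Finset.range k, Real.log ‖cosh ((2 : ℂ) ^ j * (ζ + a))‖ -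
      ∑ j ∈ Finset.range k, Real.log ‖cosh ((2 : ℂ) ^ j * ζ)‖| ≤ 24 * (2 ^ k * ‖a‖) := by
    rw [← Finset.sum_sub_distrib]
    refine (Finset.abs_sum_le_sum_abs _ _).trans ?_
    refine (Finset.sum_le_sum fun j hj => key j (Finset.mem_range.1 hj).le).trans ?_
    rw [← Finset.mul_sum, ← Finset.sum_mul]
    have h3 : ∑ j ∈ Finset.range k, (2 : ℝ) ^ j ≤ 2 ^ k := by
      have := geom_sum_eq (by norm_num : (2 : ℝ) ≠ 1) k
      rw [this]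
      have : (0 : ℝ) < 2 ^ k := by positivity
      linarith
    exact mul_le_mul_of_nonneg_left (mul_le_mul_of_nonneg_right h3 (norm_nonneg _)) (by norm_num)
  have hk := key k le_rfl
  unfold GK
  rw [abs_le] at *
  constructor <;> nlinarith [hk.1, hk.2, hsum.1, hsum.2]

lemma sinh_le_GK {k : ℕ} {ζ : ℂ} (h : |(2 : ℝ) ^ k * ζ.im| ≤ Real.pi / 4) :
    ‖sinh ζ‖ ≤ Real.exp (GK k ζ) := by
  by_cases h0 : sinh ζ = 0
  · rw [h0, norm_zero]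
    exact (Real.exp_pos _).le
  have h1 := GK_eq h h0
  have h2 : Real.log ‖tanh ((2 : ℂ) ^ k * ζ)‖ ≤ 0 :=
    Real.log_nonpos (norm_nonneg _) (NUCollT.norm_tanh_le_one (im_pow_le le_rfl h))
  rw [← Real.log_le_iff_le_exp (norm_pos_iff.2 h0)]
  linarith

lemma abs_im_le {k : ℕ} {t : ℝ} {ζ : ℂ} (h : 2 ^ k * ‖ζ - t‖ ≤ 1 / 48) :
    |(2 : ℝ) ^ k * ζ.im| ≤ Real.pi / 4 := by
  have h1 := Complex.abs_im_le_norm (ζ - t)
  have e : (ζ - t).im = ζ.im := by simp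
  rw [e] at h1
  rw [abs_mul, abs_of_pos (by positivity : (0 : ℝ) < 2 ^ k)]
  have h2 : (2 : ℝ) ^ k * |ζ.im| ≤ 2 ^ k * ‖ζ - t‖ := by gcongr
  have := Real.pi_gt_three
  linarith

lemma GK_disp_real {k : ℕ} {t : ℝ} {ζ : ℂ} (h : 2 ^ k * ‖ζ - t‖ ≤ 1 / 48) :
    |GK k ζ - GK k t| ≤ 48 * 2 ^ k * ‖ζ - t‖ := by
  have h1 := GK_disp (k := k) (ζ := (t : ℂ)) (a := ζ - t) (by
    simp only [Complex.ofReal_im, mul_zero, abs_zero]
    positivity) h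
  rwa [show (t : ℂ) + (ζ - t) = ζ by ring] at h1

end NUDispO
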