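import Mathlib

/-!
# Cosine transforms of nonnegative functions

`PK m`: `m` is integrable on `(0,∞)` and `∫_0^∞ m k cos (k t) dk ≥ 0` for every `t`.
`MK u`: `u k = ∫ G s cos (k s) ds` (`k > 0`) for a nonnegative integrable `G`.
`PK` is closed under sums, nonnegative factors, dilations and products with `MK` functions.
-/

set_option autoImplicit false

open MeasureTheory Set Filter Topology FourierTransform

namespace NUPosK

/-- the inverse cosine transform of `m` is nonnegative -/
def PK (m : ℝ → ℝ) : Prop :=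
  IntegrableOn m (Ioi 0) ∧ ∀ t : ℝ, 0 ≤ ∫ k in Ioi (0:ℝ), m k * Real.cos (k * t)

/-- multiplier: the cosine transform of a nonnegative integrable function -/
def MK (u : ℝ → ℝ) : Prop :=
  ∃ G : ℝ → ℝ, Integrable G ∧ (∀ s, 0 ≤ G s) ∧ ∀ k : ℝ, 0 < k → ∫ s, G s * Real.cos (k * s) = u k

/-! ### integrability helpers -/

lemma intOn_mul_cos {m : ℝ → ℝ} (hm : IntegrableOn m (Ioi 0)) (t : ℝ) :
    IntegrableOn (fun k => m k * Real.cos (k * t)) (Ioi 0) := by
  refine Integrable.mono' (g := fun k => ‖m k‖) hm.norm ?_ ?_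
  · exact hm.aestronglyMeasurable.mul (Measurable.aestronglyMeasurable (by fun_prop))
  · refine Eventually.of_forall fun k => ?_
    rw [norm_mul]
    exact mul_le_of_le_one_right (norm_nonneg _) (by rw [Real.norm_eq_abs]; exact Real.abs_cos_le_one _)

lemma int_mul_cos {G : ℝ → ℝ} (hG : Integrable G) (k : ℝ) :
    Integrable (fun s => G s * Real.cos (k * s)) := by
  refine Integrable.mono' (g := fun k => ‖G k‖) hG.norm ?_ ?_
  · exact hG.aestronglyMeasurable.mul (Measurable.aestronglyMeasurable (by fun_prop))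
  · refine Eventually.of_forall fun s => ?_
    rw [norm_mul]
    exact mul_le_of_le_one_right (norm_nonneg _) (by rw [Real.norm_eq_abs]; exact Real.abs_cos_le_one _)

/-! ### the class `PK` -/

lemma PK.congr {m m' : ℝ → ℝ} (hm : PK m) (h : ∀ k : ℝ, 0 < k → m k = m' k) : PK m' := by
  refine ⟨hm.1.congr_fun (fun k hk => h k hk) measurableSet_Ioi, fun t => ?_⟩
  have := hm.2 t
  rwa [setIntegral_congr_fun measurableSet_Ioi
    (g := fun k => m' k * Real.cos (k * t)) (fun k hk => by simp only [h k hk])] at this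

lemma PK.zero : PK (fun _ => 0) := ⟨integrableOn_zero, fun t => by simp⟩

lemma PK.add {m m' : ℝ → ℝ} (hm : PK m) (hm' : PK m') : PK (fun k => m k + m' k) := by
  refine ⟨hm.1.add hm'.1, fun t => ?_⟩
  have e : ∫ k in Ioi (0:ℝ), (m k + m' k) * Real.cos (k * t) =
      (∫ k in Ioi (0:ℝ), m k * Real.cos (k * t)) + ∫ k in Ioi (0:ℝ), m' k * Real.cos (k * t) := by
    rw [← integral_add (intOn_mul_cos hm.1 t) (intOn_mul_cos hm'.1 t)]
    exact integral_congr_ae (Eventually.of_forall fun k => by simp only []; ring)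
  rw [e]
  exact add_nonneg (hm.2 t) (hm'.2 t)

lemma PK.smul {m : ℝ → ℝ} (hm : PK m) {c : ℝ} (hc : 0 ≤ c) : PK (fun k => c * m k) := by
  refine ⟨hm.1.const_mul c, fun t => ?_⟩
  have e : ∫ k in Ioi (0:ℝ), (c * m k) * Real.cos (k * t) =
      c * ∫ k in Ioi (0:ℝ), m k * Real.cos (k * t) := by
    rw [← integral_const_mul]
    exact integral_congr_ae (Eventually.of_forall fun k => by simp only []; ring)
  rw [e]
  exact mul_nonneg hc (hm.2 t)

lemma PK.sum {ι : Type*} (s : Finset ι) {m : ι → ℝ → ℝ} (hm : ∀ i ∈ s, PK (m i)) :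
    PK (fun k => ∑ i ∈ s, m i k) := by
  classical
  induction s using Finset.induction_on with
  | empty => simpa using PK.zero
  | insert a s ha ih =>
    have := (hm a (Finset.mem_insert_self _ _)).add (ih fun i hi => hm i (Finset.mem_insert_of_mem hi))
    exact this.congr fun k _ => by rw [Finset.sum_insert ha]

lemma PK.dilate {m : ℝ → ℝ} (hm : PK m) {l : ℝ} (hl : 0 < l) : PK (fun k => m (l * k)) := by
  refine ⟨?_, fun t => ?_⟩
  · have := (integrableOn_Ioi_comp_mul_left_iff m 0 hl).2 (by simpa using hm.1)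
    simpa using this
  · have e : (fun k => m (l * k) * Real.cos (k * t)) =
        fun k => (fun x => m x * Real.cos (x * (t / l))) (l * k) := by
      funext k
      simp only []
      congr 2
      field_simp
    rw [e, integral_comp_mul_left_Ioi (fun x => m x * Real.cos (x * (t / l))) 0 hl]
    simp only [mul_zero, smul_eq_mul]
    exact mul_nonneg (inv_nonneg.2 hl.le) (hm.2 _)

/-! ### the class `MK` -/

lemma MK.congr {u u' : ℝ → ℝ} (hu : MK u) (h : ∀ k : ℝ, 0 < k → u k = u' k) : MK u' := by
  obtain ⟨G, h1, h2, h3⟩ := hu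
  exact ⟨G, h1, h2, fun k hk => by rw [h3 k hk, h k hk]⟩

lemma MK.add {u u' : ℝ → ℝ} (hu : MK u) (hu' : MK u') : MK (fun k => u k + u' k) := by
  obtain ⟨G, h1, h2, h3⟩ := hu
  obtain ⟨G', h1', h2', h3'⟩ := hu'
  refine ⟨fun s => G s + G' s, h1.add h1', fun s => add_nonneg (h2 s) (h2' s), fun k hk => ?_⟩
  simp only []
  rw [← h3 k hk, ← h3' k hk, ← integral_add (int_mul_cos h1 k) (int_mul_cos h1' k)]
  exact integral_congr_ae (Eventually.of_forall fun s => by simp only []; ring)

lemma MK.smul {u : ℝ → ℝ} (hu : MK u) {c : ℝ} (hc : 0 ≤ c) : MK (fun k => c * u k) := by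
  obtain ⟨G, h1, h2, h3⟩ := hu
  refine ⟨fun s => c * G s, h1.const_mul c, fun s => mul_nonneg hc (h2 s), fun k hk => ?_⟩
  simp only []
  rw [← h3 k hk, ← integral_const_mul]
  exact integral_congr_ae (Eventually.of_forall fun s => by simp only []; ring)

lemma MK.dilate {u : ℝ → ℝ} (hu : MK u) {l : ℝ} (hl : 0 < l) : MK (fun k => u (l * k)) := by
  obtain ⟨G, h1, h2, h3⟩ := hu
  refine ⟨fun s => l⁻¹ * G (l⁻¹ * s), (h1.comp_mul_left' (inv_ne_zero hl.ne')).const_mul _,
    fun s => mul_nonneg (inv_nonneg.2 hl.le) (h2 _), fun k hk => ?_⟩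
  simp only []
  rw [← h3 (l * k) (by positivity)]
  have e : (fun s => l⁻¹ * G (l⁻¹ * s) * Real.cos (k * s)) =
      fun s => l⁻¹ * (fun x => G x * Real.cos (l * k * x)) (l⁻¹ * s) := by
    funext s
    simp only []
    have : l * k * (l⁻¹ * s) = k * s := by field_simp
    rw [this]
    ring
  rw [e, integral_const_mul]
  have e2 := Measure.integral_comp_mul_left (fun x => G x * Real.cos (l * k * x)) l⁻¹
  simp only [] at e2 ⊢
  rw [e2]
  simp only [inv_inv, smul_eq_mul, abs_of_pos hl]
  field_simp

/-- boundedness and measurability of a multiplier -/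
lemma MK.cont {G : ℝ → ℝ} (hG : Integrable G) :
    Continuous (fun k : ℝ => ∫ s, G s * Real.cos (k * s)) := by
  refine continuous_of_dominated (bound := fun s => ‖G s‖) ?_ ?_ hG.norm ?_
  · exact fun k => (int_mul_cos hG k).aestronglyMeasurable
  · refine fun k => Eventually.of_forall fun s => ?_
    rw [norm_mul]
    exact mul_le_of_le_one_right (norm_nonneg _) (by rw [Real.norm_eq_abs]; exact Real.abs_cos_le_one _)
  · exact Eventually.of_forall fun s => by fun_prop

/-- **the main closure property** -/
theorem PK.mul {m u : ℝ → ℝ} (hm : PK m) (hu : MK u) : PK (fun k => m k * u k) := by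
  obtain ⟨G, h1, h2, h3⟩ := hu
  have hc := MK.cont h1
  set U : ℝ → ℝ := fun k => ∫ s, G s * Real.cos (k * s) with hU
  have hb : ∀ k, ‖U k‖ ≤ ∫ s, ‖G s‖ := fun k => by
    refine (norm_integral_le_integral_norm _).trans (integral_mono (int_mul_cos h1 k).norm h1.norm fun s => ?_)
    simp only []
    rw [norm_mul]
    exact mul_le_of_le_one_right (norm_nonneg _) (by rw [Real.norm_eq_abs]; exact Real.abs_cos_le_one _)
  have hint : IntegrableOn (fun k => m k * U k) (Ioi 0) :=
    hm.1.mul_bdd (c := ∫ s, ‖G s‖) hc.aestronglyMeasurable (Eventually.of_forall hb)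
  suffices h : PK (fun k => m k * U k) from h.congr fun k hk => by simp only [hU, h3 k hk]
  refine ⟨hint, fun t => ?_⟩
  -- Fubini
  set F : ℝ → ℝ := fun t => ∫ k in Ioi (0:ℝ), m k * Real.cos (k * t) with hF
  have hF0 : ∀ t, 0 ≤ F t := hm.2
  have hprod : Integrable (fun p : ℝ × ℝ => m p.1 * G p.2) ((volume.restrict (Ioi 0)).prod volume) :=
    Integrable.mul_prod hm.1 h1
  have hprod2 : Integrable (fun p : ℝ × ℝ => m p.1 * G p.2 * (Real.cos (p.1 * p.2) * Real.cos (p.1 * t)))
      ((volume.restrict (Ioi 0)).prod volume) := by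
    refine hprod.mul_bdd (c := 1) (Measurable.aestronglyMeasurable (by fun_prop)) (Eventually.of_forall fun p => ?_)
    rw [norm_mul, Real.norm_eq_abs, Real.norm_eq_abs]
    exact mul_le_one₀ (Real.abs_cos_le_one _) (abs_nonneg _) (Real.abs_cos_le_one _)
  have e1 : ∫ k in Ioi (0:ℝ), m k * U k * Real.cos (k * t) =
      ∫ k in Ioi (0:ℝ), ∫ s, m k * G s * (Real.cos (k * s) * Real.cos (k * t)) := by
    refine integral_congr_ae (Eventually.of_forall fun k => ?_)
    simp only [hU]
    have : m k * (∫ s, G s * Real.cos (k * s)) * Real.cos (k * t) =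
        (m k * Real.cos (k * t)) * ∫ s, G s * Real.cos (k * s) := by ring
    rw [this, ← integral_const_mul]
    exact integral_congr_ae (Eventually.of_forall fun s => by simp only []; ring)
  rw [e1, integral_integral_swap hprod2]
  refine integral_nonneg fun s => ?_
  have e2 : (∫ k in Ioi (0:ℝ), m k * G s * (Real.cos (k * s) * Real.cos (k * t))) =
      G s * ((F (t - s) + F (t + s)) / 2) := by
    have i1 := intOn_mul_cos hm.1 (t - s)
    have i2 := intOn_mul_cos hm.1 (t + s)
    rw [hF]
    simp only []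
    rw [← integral_add i1 i2, div_eq_mul_inv, mul_comm (∫ k in Ioi (0:ℝ), _) _, ← mul_assoc, ← integral_const_mul]
    refine integral_congr_ae (Eventually.of_forall fun k => ?_)
    simp only []
    have h := Real.cos_sub (k * t) (k * s)
    have h' := Real.cos_add (k * t) (k * s)
    have e3 : k * (t - s) = k * t - k * s := by ring
    have e4 : k * (t + s) = k * t + k * s := by ring
    rw [e3, e4, h, h']
    ring
  simp only [Pi.zero_apply]
  rw [e2]
  exact mul_nonneg (h2 s) (by have := hF0 (t - s); have := hF0 (t + s); positivity)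

/-! ### multipliers from the inverse transform (Fourier inversion) -/

lemma integral_even_cos {f : ℝ → ℝ} (hf : Integrable f) (he : ∀ k, f (-k) = f k) (x : ℝ) :
    ∫ k, f k * Real.cos (k * x) = 2 * ∫ k in Ioi (0:ℝ), f k * Real.cos (k * x) := by
  have h : ∀ k, (fun k => f k * Real.cos (k * x)) (-k) = (fun k => f k * Real.cos (k * x)) k := fun k => by
    simp only [he, neg_mul, Real.cos_neg]
  have hi : Integrable (fun k => f k * Real.cos (k * x)) := by
    have := int_mul_cos hf x
    simpa only [mul_comm x] using this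
  rw [← intervalIntegral.integral_Iic_add_Ioi hi.integrableOn hi.integrableOn (b := 0)]
  have e : ∫ k in Iic (0:ℝ), f k * Real.cos (k * x) = ∫ k in Ioi (0:ℝ), f k * Real.cos (k * x) := by
    have := integral_comp_neg_Iic (0:ℝ) (fun k => f k * Real.cos (k * x))
    rw [neg_zero] at this
    rw [← this]
    exact integral_congr_ae (Eventually.of_forall fun k => by simpa using (h k).symm)
  rw [e]
  ring

/-- if `u` is even, integrable, continuous off `0`, and its inverse cosine transform `G` is integrable
and nonnegative, then `u` is a multiplier -/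
theorem MK.of_inv {u G : ℝ → ℝ} (hu : Integrable u) (he : ∀ k, u (-k) = u k)
    (hc : ∀ k : ℝ, 0 < k → ContinuousAt u k) (hG : Integrable G) (h0 : ∀ s, 0 ≤ G s)
    (h : ∀ s, G s = (Real.pi)⁻¹ * ∫ k in Ioi (0:ℝ), u k * Real.cos (k * s)) : MK u := by
  refine ⟨G, hG, h0, fun k hk => ?_⟩
  have hpi := Real.pi_pos
  -- complexify
  set f : ℝ → ℂ := fun k => (u k : ℂ) with hf
  have hfi : Integrable f := hu.ofReal
  have four : ∀ x : ℝ, 𝓕 f x = ((2 * Real.pi * G (2 * Real.pi * x) : ℝ) : ℂ) := by
    intro x
    rw [Real.fourier_real_eq_integral_exp_smul]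
    have e1 : ∀ v : ℝ, Complex.exp (↑(-2 * Real.pi * v * x) * Complex.I) • f v =
        ((u v * Real.cos (v * (2 * Real.pi * x)) : ℝ) : ℂ) -
          ((u v * Real.sin (v * (2 * Real.pi * x)) : ℝ) : ℂ) * Complex.I := by
      intro v
      have e2 : ((-2 * Real.pi * v * x : ℝ) : ℂ) = ((-(v * (2 * Real.pi * x)) : ℝ) : ℂ) := by
        congr 1
        ring
      rw [e2, Complex.exp_mul_I, ← Complex.ofReal_cos, ← Complex.ofReal_sin, Real.cos_neg, Real.sin_neg]
      simp only [hf, smul_eq_mul]
      push_cast
      ring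
    simp only [e1]
    have i1 : Integrable (fun v => ((u v * Real.cos (v * (2 * Real.pi * x)) : ℝ) : ℂ)) := by
      have := int_mul_cos hu (2 * Real.pi * x)
      simp only [mul_comm (2 * Real.pi * x)] at this
      exact this.ofReal
    have i2' : Integrable (fun v => u v * Real.sin (v * (2 * Real.pi * x))) := by
      refine Integrable.mono' (g := fun k => ‖u k‖) hu.norm ?_ ?_
      · exact hu.aestronglyMeasurable.mul (Measurable.aestronglyMeasurable (by fun_prop))
      · refine Eventually.of_forall fun s => ?_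
        rw [norm_mul]
        exact mul_le_of_le_one_right (norm_nonneg _)
          (by rw [Real.norm_eq_abs]; exact Real.abs_sin_le_one _)
    have i2 : Integrable (fun v => ((u v * Real.sin (v * (2 * Real.pi * x)) : ℝ) : ℂ) * Complex.I) :=
      i2'.ofReal.mul_const _
    rw [integral_sub i1 i2, integral_mul_const, integral_complex_ofReal, integral_complex_ofReal]
    have odd : ∫ v, u v * Real.sin (v * (2 * Real.pi * x)) = 0 := by
      have := integral_neg_eq_self (fun v => u v * Real.sin (v * (2 * Real.pi * x))) volume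
      have e : (fun v => (fun v => u v * Real.sin (v * (2 * Real.pi * x))) (-v)) =
          fun v => -(u v * Real.sin (v * (2 * Real.pi * x))) := by
        funext v
        simp only [he, neg_mul, Real.sin_neg, mul_neg]
      rw [e, integral_neg] at this
      linarith
    rw [odd, integral_even_cos hu he]
    have := h (2 * Real.pi * x)
    simp only [Complex.ofReal_zero, zero_mul, sub_zero]
    rw [this]
    congr 1
    rw [show ∀ A : ℝ, 2 * Real.pi * ((Real.pi)⁻¹ * A) = 2 * A from fun A => by field_simp]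
  have hfc : ContinuousAt f k := by
    exact (Complex.continuous_ofReal.continuousAt).comp (hc k hk)
  have hfour : 𝓕 f = fun x : ℝ => ((2 * Real.pi * G (2 * Real.pi * x) : ℝ) : ℂ) := funext four
  have hFi : Integrable (𝓕 f) := by
    rw [hfour]
    exact ((hG.comp_mul_left' (by positivity : (2 * Real.pi) ≠ 0)).const_mul (2 * Real.pi)).ofReal
  have inv := hfi.fourierInv_fourier_eq hFi hfc
  rw [Real.fourierInv_eq', hfour] at inv
  have e3 : (fun v : ℝ => Complex.exp (↑(2 * Real.pi * inner ℝ v k) * Complex.I) •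
      ((2 * Real.pi * G (2 * Real.pi * v) : ℝ) : ℂ)) = fun v : ℝ =>
      ((2 * Real.pi * (G (2 * Real.pi * v) * Real.cos (k * (2 * Real.pi * v))) : ℝ) : ℂ) +
        ((2 * Real.pi * (G (2 * Real.pi * v) * Real.sin (k * (2 * Real.pi * v))) : ℝ) : ℂ) * Complex.I := by
    funext v
    have e2 : ((2 * Real.pi * inner ℝ v k : ℝ) : ℂ) = ((k * (2 * Real.pi * v) : ℝ) : ℂ) := by
      congr 1
      have e5 : inner ℝ v k = k * v := by simp [inner]
      rw [e5]
      ring
    rw [e2, Complex.exp_mul_I, ← Complex.ofReal_cos, ← Complex.ofReal_sin]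
    simp only [smul_eq_mul]
    push_cast
    ring
  rw [e3] at inv
  have hre := congrArg Complex.re inv
  simp only [hf, Complex.ofReal_re] at hre
  rw [← hre]
  have hGc : Integrable (fun v : ℝ => 2 * Real.pi * (G (2 * Real.pi * v) * Real.cos (k * (2 * Real.pi * v)))) := by
    exact ((int_mul_cos hG k).comp_mul_left' (by positivity : (2 * Real.pi) ≠ 0)).const_mul _
  have hGs0 : Integrable (fun v : ℝ => G v * Real.sin (k * v)) := by
    refine Integrable.mono' (g := fun k => ‖G k‖) hG.norm ?_ ?_
    · exact hG.aestronglyMeasurable.mul (Measurable.aestronglyMeasurable (by fun_prop))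
    · refine Eventually.of_forall fun s => ?_
      rw [norm_mul]
      exact mul_le_of_le_one_right (norm_nonneg _)
        (by rw [Real.norm_eq_abs]; exact Real.abs_sin_le_one _)
  have hGs : Integrable (fun v : ℝ => 2 * Real.pi * (G (2 * Real.pi * v) * Real.sin (k * (2 * Real.pi * v)))) := by
    exact (hGs0.comp_mul_left' (by positivity : (2 * Real.pi) ≠ 0)).const_mul _
  rw [integral_add hGc.ofReal (hGs.ofReal.mul_const _), integral_mul_const, integral_complex_ofReal,
    integral_complex_ofReal]
  simp only [Complex.add_re, Complex.ofReal_re, Complex.mul_re, Complex.I_re, mul_zero, Complex.ofReal_im,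
    Complex.I_im, mul_one, sub_self, add_zero]
  rw [integral_const_mul]
  have := Measure.integral_comp_mul_left (fun s => G s * Real.cos (k * s)) (2 * Real.pi)
  rw [this, abs_of_pos (by positivity), smul_eq_mul]
  field_simp

end NUPosK
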