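import Pool.Agent.NUM3.CF
import Pool.Agent.NUO.PosK
import Pool.Agent.NUO.SBlockK
import Pool.Agent.NUO.CoreK

/-!
# Cone lemma: a log core kernel stays nonnegative when its core of scale `2 ^ n` is removed

`GC n t = log |sinh t| - log |tanh (2 ^ n t)|` (extended to `t = 0`).
* `GC_le_sin`: `GC n t ≤ log ‖sin (θ + i t)‖` if `2 ^ (-n) ≤ sin θ`;
* `cone`: `2 GC n t ≤ log ((cosh 2t + cos φ) / 2)` if `2 ^ (-n) ≤ cos (φ / 2)`;
* `PK_cone`: the kernel of `PQ (ch 16 - ch 14 - core)` (`n = 8`, `θ = π / 16`).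
-/

set_option autoImplicit false

open MeasureTheory Set

namespace NUCone

noncomputable section

open Pool.Agent.NUM3

lemma pow_sinh_le (n : ℕ) {t : ℝ} (ht : 0 ≤ t) : 2 ^ n * Real.sinh t ≤ Real.sinh (2 ^ n * t) := by
  induction n with
  | zero => simp
  | succ n ih =>
    have e : Real.sinh (2 ^ (n + 1) * t) = 2 * Real.sinh (2 ^ n * t) * Real.cosh (2 ^ n * t) := by
      rw [← Real.sinh_two_mul]; congr 1; ring
    rw [e]
    have h1 := Real.one_le_cosh (2 ^ n * t)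
    have h2 : 0 ≤ Real.sinh (2 ^ n * t) := Real.sinh_nonneg_iff.2 (by positivity)
    calc 2 ^ (n + 1) * Real.sinh t = 2 * (2 ^ n * Real.sinh t) := by ring
      _ ≤ 2 * Real.sinh (2 ^ n * t) := by linarith
      _ ≤ 2 * Real.sinh (2 ^ n * t) * Real.cosh (2 ^ n * t) := by nlinarith

lemma pow_sinh_sq (n : ℕ) (t : ℝ) : (2 ^ n) ^ 2 * Real.sinh t ^ 2 ≤ Real.sinh (2 ^ n * t) ^ 2 := by
  have h := pow_sinh_le n (abs_nonneg t)
  have e1 : Real.sinh |t| ^ 2 = Real.sinh t ^ 2 := by rw [← Real.abs_sinh, sq_abs]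
  have e2 : Real.sinh (2 ^ n * |t|) ^ 2 = Real.sinh (2 ^ n * t) ^ 2 := by
    have : (2 : ℝ) ^ n * |t| = |2 ^ n * t| := by
      rw [abs_mul, abs_of_pos (by positivity : (0 : ℝ) < 2 ^ n)]
    rw [this, ← Real.abs_sinh, sq_abs]
  rw [← e1, ← e2, ← mul_pow]
  apply pow_le_pow_left₀ _ h
  have := Real.sinh_nonneg_iff.2 (abs_nonneg t)
  positivity

/-- `exp (2 GC) = sinh² / tanh²` -/
lemma exp_GC (n : ℕ) {t : ℝ} (ht : t ≠ 0) :
    Real.exp (2 * GC n t) = Real.sinh t ^ 2 + Real.sinh t ^ 2 / Real.sinh (2 ^ n * t) ^ 2 := by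
  have hs : Real.sinh t ≠ 0 := by rw [Ne, Real.sinh_eq_zero]; exact ht
  have hs2 : Real.sinh (2 ^ n * t) ≠ 0 := by rw [Ne, Real.sinh_eq_zero]; positivity
  have hc := (Real.cosh_pos (2 ^ n * t)).ne'
  have ht2 : Real.tanh (2 ^ n * t) ≠ 0 := by
    rw [Real.tanh_eq_sinh_div_cosh]; exact div_ne_zero hs2 hc
  rw [GC_eq n ht, ← Real.log_div (abs_ne_zero.2 hs) (abs_ne_zero.2 ht2), ← abs_div, two_mul,
    Real.exp_add, Real.exp_log (by positivity), ← sq, sq_abs, Real.tanh_eq_sinh_div_cosh]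
  have h := Real.cosh_sq (2 ^ n * t)
  rw [div_div_eq_mul_div, div_pow, mul_pow, h]
  field_simp

theorem GC_le (n : ℕ) {s : ℝ} (hs : (1 / 2) ^ n ≤ s) (t : ℝ) :
    2 * GC n t ≤ Real.log (Real.sinh t ^ 2 + s ^ 2) := by
  have hp : (0 : ℝ) < (1 / 2) ^ n := by positivity
  have hs0 : 0 < s := lt_of_lt_of_le hp hs
  rw [Real.le_log_iff_exp_le (by positivity)]
  have h2 : ((1 / 2 : ℝ) ^ n) ^ 2 ≤ s ^ 2 := pow_le_pow_left₀ hp.le hs 2
  by_cases ht : t = 0
  · subst ht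
    unfold GC
    simp only [mul_zero, Real.cosh_zero, Real.log_one, Finset.sum_const_zero, zero_sub, sub_zero,
      Real.sinh_zero]
    have e : (2 : ℝ) * -(n * Real.log 2) = Real.log (((1 / 2 : ℝ) ^ n) ^ 2) := by
      rw [Real.log_pow, Real.log_pow, one_div, Real.log_inv]; push_cast; ring
    rw [e, Real.exp_log (by positivity)]
    linarith
  · rw [exp_GC n ht]
    have h1 := pow_sinh_sq n t
    have hsh : Real.sinh (2 ^ n * t) ≠ 0 := by rw [Ne, Real.sinh_eq_zero]; positivity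
    have h3 : Real.sinh t ^ 2 / Real.sinh (2 ^ n * t) ^ 2 ≤ ((1 / 2 : ℝ) ^ n) ^ 2 := by
      rw [div_le_iff₀ (by positivity)]
      have e : ((1 / 2 : ℝ) ^ n) ^ 2 * (2 ^ n) ^ 2 = 1 := by
        rw [← mul_pow, ← mul_pow]; norm_num
      calc Real.sinh t ^ 2 = ((1 / 2 : ℝ) ^ n) ^ 2 * ((2 ^ n) ^ 2 * Real.sinh t ^ 2) := by
            rw [← mul_assoc, e, one_mul]
        _ ≤ _ := by gcongr
    linarith

/-- **cone lemma** -/
theorem cone (n : ℕ) {φ : ℝ} (h : (1 / 2) ^ n ≤ Real.cos (φ / 2)) (t : ℝ) :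
    2 * GC n t ≤ Real.log ((Real.cosh (2 * t) + Real.cos φ) / 2) := by
  have h1 := GC_le n h t
  have e : (Real.cosh (2 * t) + Real.cos φ) / 2 = Real.sinh t ^ 2 + Real.cos (φ / 2) ^ 2 := by
    have a1 := Real.cosh_two_mul t
    have a2 := Real.cosh_sq t
    have a3 : Real.cos φ = 2 * Real.cos (φ / 2) ^ 2 - 1 := by
      rw [← Real.cos_two_mul]; congr 1; ring
    rw [a1, a2, a3]; ring
  rw [e]
  exact h1

/-- the same with `log ‖sin‖` -/
theorem GC_le_sin (n : ℕ) {θ : ℝ} (h : (1 / 2) ^ n ≤ |Real.sin θ|) (t : ℝ) :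
    GC n t ≤ Real.log ‖Complex.sin (θ + t * Complex.I)‖ := by
  have h1 := GC_le n h t
  have e : Real.sinh t ^ 2 + |Real.sin θ| ^ 2 = ‖Complex.sin (θ + t * Complex.I)‖ ^ 2 := by
    rw [norm_sin_sq]
    have a1 := Real.cosh_two_mul t
    have a2 := Real.cosh_sq t
    have a3 := Real.cos_two_mul θ
    have a4 := Real.sin_sq_add_cos_sq θ
    rw [a1, a2, a3, sq_abs]; nlinarith
  rw [e, Real.log_pow] at h1
  push_cast at h1
  linarith

/-- helper24's `GK` on the real line is `GC` -/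
theorem GK_real (n : ℕ) (t : ℝ) : NUDispO.GK n (t : ℂ) = GC n t := by
  unfold NUDispO.GK GC
  have e : ∀ j : ℕ, ‖Complex.cosh ((2 : ℂ) ^ j * (t : ℂ))‖ = Real.cosh (2 ^ j * t) := by
    intro j
    have : (2 : ℂ) ^ j * (t : ℂ) = ((2 ^ j * t : ℝ) : ℂ) := by push_cast; rfl
    rw [this, ← Complex.ofReal_cosh, Complex.norm_real, Real.norm_eq_abs,
      abs_of_pos (Real.cosh_pos _)]
  simp_rw [e]
  ring

open NUSB
open NUMF (sk sk_pos)

lemma sk_eq (k : ℝ) : sk k = Real.sinh (16 * zk k) := by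
  unfold sk zk; congr 1; ring

lemma gc_eq {k : ℝ} (hk : 0 < k) :
    gc 8 k = (ch 16 (zk k) - core (zk k)) / (k * sk k) := by
  have hs : sk k ≠ 0 := (sk_pos hk).ne'
  unfold gc core NUSB.ch
  rw [← sk_eq]
  have e1 : Real.sinh (Real.pi / 2 * k) = sk k := rfl
  have e2 : Real.cosh (((16 : ℕ) : ℝ) * zk k) = Real.cosh (Real.pi / 2 * k) := by
    unfold zk; congr 1; push_cast; ring
  have e3 : zk k / 32 = Real.pi / 2 ^ (8 + 2) * k := by unfold zk; norm_num; ring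
  rw [e1, e2, e3]
  field_simp

/-- value of the kernel `PQ (ch 16 - ch 14 - core)` -/
theorem cone_eval : IntegrableOn (fun k => PQ k * (ch 16 (zk k) - ch 14 (zk k) - core (zk k))) (Ioi 0) ∧
    ∀ t, ∫ k in Ioi (0:ℝ), PQ k * (ch 16 (zk k) - ch 14 (zk k) - core (zk k)) * Real.cos (k * t) =
      2 * (Real.log ‖Complex.sin ((Real.pi / 16 : ℝ) + t * Complex.I)‖ - GC 8 t) := by
  have hpi := Real.pi_pos
  have h1 := CF_sin (θ := Real.pi / 16) (by positivity) (by linarith)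
  have h2 := (h1.sub (CF_GC 8)).smul 2
  have h3 : CF (fun t => 2 * (Real.log ‖Complex.sin ((Real.pi / 16 : ℝ) + t * Complex.I)‖ - GC 8 t)) 0
      (fun k => -(PQ k * (ch 16 (zk k) - ch 14 (zk k) - core (zk k)))) := by
    refine h2.congr (fun t => rfl) (by ring) fun k hk => ?_
    rw [gc_eq hk]
    have hs : sk k ≠ 0 := (sk_pos hk).ne'
    have e2 : ch 14 (zk k) = Real.cosh ((Real.pi / 2 - Real.pi / 16) * k) := by
      unfold NUSB.ch zk; congr 1; push_cast; ring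
    rw [e2]
    unfold PQ
    rw [← sk_eq]
    field_simp
    ring
  obtain ⟨i, e⟩ := h3.eval
  have i' := i.neg
  refine ⟨?_, fun t => ?_⟩
  · refine i'.congr (Filter.Eventually.of_forall fun k => ?_)
    simp
  · rw [e t, ← integral_neg]
    congr 1
    funext k
    ring

/-- **`PK` form of the cone lemma** -/
theorem PK_cone : NUPosK.PK (fun k => PQ k * (ch 16 (zk k) - ch 14 (zk k) - core (zk k))) := by
  refine ⟨cone_eval.1, fun t => ?_⟩
  rw [cone_eval.2 t]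
  have h := GC_le_sin 8 (θ := Real.pi / 16) (by
    have h1 := Real.mul_le_sin (x := Real.pi / 16) (by positivity) (by linarith [Real.pi_pos])
    have h2 : 2 / Real.pi * (Real.pi / 16) = 1 / 8 := by
      have := Real.pi_ne_zero
      field_simp; norm_num
    rw [h2] at h1
    refine le_trans ?_ (h1.trans (le_abs_self _))
    norm_num) t
  linarith

end

end NUCone
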