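import Pool.Agent.NUM3.Lift
import Pool.Agent.NUO.MHat
import Pool.Agent.NUO.Cone
import Pool.Agent.NUO.Obj

/-!
# Table of the stability certificates: from the `PK` certificates of the base kinds to `stab_lift`

Kinds `L`, `St`, `S`, `Svv` = base kinds `L`, `T`, `S`, `V`; `Sv = (S + Svv) / 2`.
`RsK`, `RcK` are the dressed kernels (same / opposite species) without their cores of scale `256`.
-/

set_option autoImplicit false

open MeasureTheory Set

noncomputable section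

namespace NUStabT

open NUMH (B Ms Mc PP Ms_SS Ms_SV Ms_VV Ms_symm Mc_symm)
open NUPosK (PK)
open NUSB
open NUO (Kind)
open Pool.Agent.NUM3

/-! ### normalisation -/

lemma PP_eq (k : ℝ) : PP k = Real.pi * PQ k := by
  unfold PP PQ NUMH.zk zk; ring

/-- from the normalisation `PP` to `PQ` -/
lemma PK_PQ {m : ℝ → ℝ} (h : PK fun k => PP k * m (NUMH.zk k)) : PK fun k => PQ k * m (zk k) := by
  have h1 := h.smul (c := Real.pi⁻¹) (by positivity)
  refine h1.congr fun k _ => ?_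
  rw [PP_eq]
  have : NUMH.zk k = zk k := rfl
  rw [this]
  field_simp

/-! ### cores -/

/-- multiplicity of the core, same species -/
def κs : B → B → ℝ
  | .L, .L => 1
  | .T, .T => 1
  | .L, .S => 1 / 2
  | .S, .L => 1 / 2
  | .L, .V => 1 / 2
  | .V, .L => 1 / 2
  | .S, .S => 1
  | .S, .V => -1
  | .V, .S => -1
  | .V, .V => 1
  | _, _ => 0

/-- multiplicity of the core, opposite species -/
def κc : B → B → ℝ
  | .L, .V => 1
  | .V, .L => 1
  | .S, .V => 1
  | .V, .S => 1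
  | .V, .V => 2
  | _, _ => 0

/-- transform of the kernel of two base kinds, same species, core removed -/
def mS (p q : B) (k : ℝ) : ℝ := PQ k * (Ms p q (zk k) - κs p q * core (zk k))
/-- transform of the kernel of two base kinds, opposite species, core removed -/
def mC (p q : B) (k : ℝ) : ℝ := PQ k * (Mc p q (zk k) - κc p q * core (zk k))

/-- inverse transform -/
def IT (m : ℝ → ℝ) (x : ℝ) : ℝ := ∫ k in Ioi (0:ℝ), m k * Real.cos (k * x)

lemma mS_symm (p q : B) : mS p q = mS q p := by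
  funext k
  unfold mS
  rw [Ms_symm]
  cases p <;> cases q <;> rfl

lemma mC_symm (p q : B) : mC p q = mC q p := by
  funext k
  unfold mC
  rw [Mc_symm]
  cases p <;> cases q <;> rfl

/-- coefficients of a kind: weight and base kinds -/
def om : Kind → ℝ
  | .Sv => 1 / 2
  | _ => 1

/-- base kinds of a kind -/
def bk : Kind → List B
  | .L => [.L]
  | .St => [.T]
  | .S => [.S]
  | .Sv => [.S, .V]
  | .Svv => [.V]

/-- bilinear extension to the kinds -/
def ext (f : B → B → ℝ) (b d : Kind) : ℝ :=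
  om b * om d * ((bk b).map fun p => ((bk d).map fun q => f p q).sum).sum

/-- dressed kernel of two kinds, same species, core removed -/
def RsK (b d : Kind) (x : ℝ) : ℝ := ext (fun p q => IT (mS p q) x) b d
/-- dressed kernel of two kinds, opposite species, core removed -/
def RcK (b d : Kind) (x : ℝ) : ℝ := ext (fun p q => IT (mC p q) x) b d

/-- coordinates in the `(S, Svv)` plane -/
def vK : Kind → ℝ × ℝ
  | .S => (1, 0)
  | .Sv => (1 / 2, 1 / 2)
  | .Svv => (0, 1)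
  | _ => (0, 0)

/-- transform of `N` -/
def nK (k : ℝ) : ℝ := PQ k * NN (zk k)

/-- **the certificates** (`c0` = lower bound at distance at most one) -/
structure Certs (c0 : ℝ) : Prop where
  LL : PK (mS .L .L)
  LT : PK (mS .L .T)
  TT : PK (mS .T .T)
  LS : PK (mS .L .S)
  LV : PK (mS .L .V)
  TS : PK (mS .T .S)
  TV : PK (mS .T .V)
  N : PK nK
  LL1 : ∀ x, |x| ≤ 1 → c0 ≤ IT (mS .L .L) x
  LT1 : ∀ x, |x| ≤ 1 → c0 ≤ IT (mS .L .T) x
  TT1 : ∀ x, |x| ≤ 1 → c0 ≤ IT (mS .T .T) x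
  LS1 : ∀ x, |x| ≤ 1 → c0 ≤ IT (mS .L .S) x
  LV1 : ∀ x, |x| ≤ 1 → c0 ≤ IT (mS .L .V) x
  TS1 : ∀ x, |x| ≤ 1 → c0 ≤ IT (mS .T .S) x
  TV1 : ∀ x, |x| ≤ 1 → c0 ≤ IT (mS .T .V) x
  N1 : ∀ x, |x| ≤ 1 → c0 ≤ IT nK x
  xLL : PK (mC .L .L)
  xLT : PK (mC .L .T)
  xTT : PK (mC .T .T)
  xLS : PK (mC .L .S)
  xLV : PK (mC .L .V)
  xTS : PK (mC .T .S)
  xTV : PK (mC .T .V)
  xSS : PK fun k => mC .S .S k + gK k
  xSV : PK fun k => mC .S .V k - wK k * gK k
  xVV : PK fun k => mC .V .V k + wK k ^ 2 * gK k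

lemma IT_add {m m' : ℝ → ℝ} (h : IntegrableOn m (Ioi 0)) (h' : IntegrableOn m' (Ioi 0)) (x : ℝ) :
    IT (fun k => m k + m' k) x = IT m x + IT m' x := by
  unfold IT
  rw [← integral_add (NUPosK.intOn_mul_cos h x) (NUPosK.intOn_mul_cos h' x)]
  congr 1
  funext k
  ring

lemma IT_smul {m : ℝ → ℝ} (c x : ℝ) : IT (fun k => c * m k) x = c * IT m x := by
  unfold IT
  rw [← integral_const_mul]
  congr 1
  funext k
  ring

lemma IT_neg {m : ℝ → ℝ} (x : ℝ) : IT (fun k => -m k) x = -IT m x := by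
  have := IT_smul (m := m) (-1) x
  simpa using this

lemma FK_lift (v : Kind → ℝ × ℝ) {α β γ : ℝ → ℝ} (hα : IntegrableOn α (Ioi 0))
    (hβ : IntegrableOn β (Ioi 0)) (hγ : IntegrableOn γ (Ioi 0)) (b d : Kind) (x : ℝ) :
    FK (lift v α β γ) b d x = (v b).1 * (v d).1 * IT α x +
      ((v b).1 * (v d).2 + (v b).2 * (v d).1) * IT β x + (v b).2 * (v d).2 * IT γ x := by
  rw [← IT_smul, ← IT_smul, ← IT_smul,
    ← IT_add (m := fun k => (v b).1 * (v d).1 * α k)
      (m' := fun k => ((v b).1 * (v d).2 + (v b).2 * (v d).1) * β k)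
      (hα.const_mul _) (hβ.const_mul _),
    ← IT_add (m := fun k => (v b).1 * (v d).1 * α k +
        ((v b).1 * (v d).2 + (v b).2 * (v d).1) * β k)
      (m' := fun k => (v b).2 * (v d).2 * γ k)
      ((hα.const_mul _).add (hβ.const_mul _)) (hγ.const_mul _)]
  rfl

/-! ### the `{S, Svv}` block -/

lemma mS_SS (k : ℝ) : mS .S .S k = alphaK k + nK k := by
  unfold mS alphaK nK; rw [Ms_SS]; simp only [κs]; ring

lemma mS_SV (k : ℝ) : mS .S .V k = betaK k + nK k := by
  unfold mS betaK nK; rw [Ms_SV]; simp only [κs]; ring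

lemma mS_VV (k : ℝ) : mS .V .V k = gamK k + nK k := by
  unfold mS gamK nK; rw [Ms_VV]; simp only [κs]; ring

section

variable {c0 : ℝ} (C : Certs c0) (hc0 : 0 ≤ c0)

include C

lemma iSS (x : ℝ) : IT (mS .S .S) x = IT alphaK x + IT nK x := by
  rw [← IT_add int_alpha C.N.1]; congr 1; funext k; exact mS_SS k

lemma iSV (x : ℝ) : IT (mS .S .V) x = IT betaK x + IT nK x := by
  rw [← IT_add int_beta C.N.1]; congr 1; funext k; exact mS_SV k

lemma iVV (x : ℝ) : IT (mS .V .V) x = IT gamK x + IT nK x := by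
  rw [← IT_add int_gam C.N.1]; congr 1; funext k; exact mS_VV k

lemma same_ge (b d : Kind) (x c : ℝ) (hLL : c ≤ IT (mS .L .L) x) (hLT : c ≤ IT (mS .L .T) x)
    (hTT : c ≤ IT (mS .T .T) x) (hLS : c ≤ IT (mS .L .S) x) (hLV : c ≤ IT (mS .L .V) x)
    (hTS : c ≤ IT (mS .T .S) x) (hTV : c ≤ IT (mS .T .V) x) (hN : c ≤ IT nK x) :
    c + FK (lift vK alphaK betaK gamK) b d x ≤ RsK b d x := by
  rw [FK_lift vK int_alpha int_beta int_gam]
  have e1 := iSS C x
  have e2 := iSV C x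
  have e3 := iVV C x
  have e4 := mS_symm .T .L
  have e5 := mS_symm .S .L
  have e6 := mS_symm .V .L
  have e7 := mS_symm .S .T
  have e8 := mS_symm .V .T
  have e9 := mS_symm .V .S
  cases b <;> cases d <;> simp only [RsK, ext, om, bk, vK, List.map_cons, List.map_nil,
    List.sum_cons, List.sum_nil, e4, e5, e6, e7, e8, e9, e1, e2, e3] <;> linarith

theorem hRs0 (b d : Kind) (x : ℝ) : FK (lift vK alphaK betaK gamK) b d x ≤ RsK b d x := by
  have := same_ge C b d x 0 (C.LL.2 x) (C.LT.2 x) (C.TT.2 x) (C.LS.2 x) (C.LV.2 x) (C.TS.2 x)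
    (C.TV.2 x) (C.N.2 x)
  linarith

theorem hRs1 (b d : Kind) (x : ℝ) (hx : |x| ≤ 1) :
    c0 + FK (lift vK alphaK betaK gamK) b d x ≤ RsK b d x :=
  same_ge C b d x c0 (C.LL1 x hx) (C.LT1 x hx) (C.TT1 x hx) (C.LS1 x hx) (C.LV1 x hx)
    (C.TS1 x hx) (C.TV1 x hx) (C.N1 x hx)

lemma int_xSS : IntegrableOn (mC .S .S) (Ioi 0) := by
  have := C.xSS.1.sub int_g
  refine this.congr (Filter.Eventually.of_forall fun k => ?_)
  simp

lemma int_xSV : IntegrableOn (mC .S .V) (Ioi 0) := by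
  have := C.xSV.1.add int_wg
  refine this.congr (Filter.Eventually.of_forall fun k => ?_)
  simp

lemma int_xVV : IntegrableOn (mC .V .V) (Ioi 0) := by
  have := C.xVV.1.sub int_wwg
  refine this.congr (Filter.Eventually.of_forall fun k => ?_)
  simp

theorem hRc0 (b d : Kind) (x : ℝ) : FK (lift vK (fun k => -gK k) (fun k => wK k * gK k)
    (fun k => -(wK k ^ 2 * gK k))) b d x ≤ RcK b d x := by
  have i1 : IntegrableOn (fun k => -gK k) (Ioi 0) := int_g.neg
  have i2 : IntegrableOn (fun k => -(wK k ^ 2 * gK k)) (Ioi 0) := int_wwg.neg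
  rw [FK_lift vK i1 int_wg i2, IT_neg, IT_neg]
  have a1 : 0 ≤ IT (mC .S .S) x + IT gK x := by
    rw [← IT_add (int_xSS C) int_g]; exact C.xSS.2 x
  have a2 : 0 ≤ IT (mC .S .V) x - IT (fun k => wK k * gK k) x := by
    have h := C.xSV.2 x
    have e : (fun k => mC .S .V k - wK k * gK k) = fun k => mC .S .V k + -(wK k * gK k) := by
      funext k; ring
    have h2 : IT (fun k => mC .S .V k - wK k * gK k) x =
        IT (mC .S .V) x - IT (fun k => wK k * gK k) x := by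
      have i3 : IntegrableOn (fun k => -(wK k * gK k)) (Ioi 0) := int_wg.neg
      rw [e, IT_add (int_xSV C) i3, IT_neg]; ring
    rw [← h2]; exact h
  have a3 : 0 ≤ IT (mC .V .V) x + IT (fun k => wK k ^ 2 * gK k) x := by
    rw [← IT_add (int_xVV C) int_wwg]; exact C.xVV.2 x
  have b1 : 0 ≤ IT (mC .L .L) x := C.xLL.2 x
  have b2 : 0 ≤ IT (mC .L .T) x := C.xLT.2 x
  have b3 : 0 ≤ IT (mC .T .T) x := C.xTT.2 x
  have b4 : 0 ≤ IT (mC .L .S) x := C.xLS.2 x
  have b5 : 0 ≤ IT (mC .L .V) x := C.xLV.2 x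
  have b6 : 0 ≤ IT (mC .T .S) x := C.xTS.2 x
  have b7 : 0 ≤ IT (mC .T .V) x := C.xTV.2 x
  have e4 := mC_symm .T .L
  have e5 := mC_symm .S .L
  have e6 := mC_symm .V .L
  have e7 := mC_symm .S .T
  have e8 := mC_symm .V .T
  have e9 := mC_symm .V .S
  cases b <;> cases d <;> simp only [RcK, ext, om, bk, vK, List.map_cons, List.map_nil,
    List.sum_cons, List.sum_nil, e4, e5, e6, e7, e8, e9] <;> linarith

end

/-- **stability bound for the kinds of objects** -/
theorem stab_kinds : ∃ Bk : ℝ, 0 ≤ Bk ∧ ∀ {c0 : ℝ}, Certs c0 → 0 ≤ c0 →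
    ∀ {κ : Type} [DecidableEq κ] (s : Finset κ) (a : κ → Kind) (sp : κ → Bool) (t : κ → ℝ)
    (m core : κ → κ → ℝ) {Cc ε : ℝ}, 0 ≤ ε →
    (∀ i ∈ s, ∀ j ∈ s, i ≠ j → core i j +
      (if sp i = sp j then RsK (a i) (a j) (t i - t j) else RcK (a i) (a j) (t i - t j)) - ε
        ≤ m i j) →
    -Cc ≤ ∑ i ∈ s, ∑ j ∈ s.erase i, core i j →
    c0 / 4 * W2 s (fun i => ⌊t i⌋) - (c0 + Bk) * s.card - Cc - ε * (s.card : ℝ) ^ 2 ≤
      ∑ i ∈ s, ∑ j ∈ s.erase i, m i j := by
  refine ⟨|IT alphaK 0| + |IT betaK 0| + |IT gamK 0|, by positivity, ?_⟩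
  intro c0 C hc0 κ _ s a sp t m core Cc ε hε hm hcore
  refine stab_lift (B := |IT alphaK 0| + |IT betaK 0| + |IT gamK 0|) vK s a sp t m core
    (Rs := RsK) (Rc := RcK) (α := alphaK) (β := betaK) (γ := gamK) (g := gK) (w := wK)
    hm hcore hc0 hε (hRs0 C) (hRs1 C) (hRc0 C) (fun k hk => gK_nonneg hk)
    (fun k hk => g_le_alpha hk) (fun k hk => wwg_le_gam hk) (fun k hk => det_block hk)
    int_alpha int_beta int_gam int_g int_wg int_wwg ?_
  intro b
  rw [FK_lift vK int_alpha int_beta int_gam]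
  have h1 := le_abs_self (IT alphaK 0)
  have h2 := le_abs_self (IT betaK 0)
  have h3 := le_abs_self (IT gamK 0)
  have h1' := abs_nonneg (IT alphaK 0)
  have h2' := abs_nonneg (IT betaK 0)
  have h3' := abs_nonneg (IT gamK 0)
  cases b <;> simp only [vK] <;> linarith

end NUStabT
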