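import Pool.Agent.NUO.D1Data
import Pool.Agent.NUO.ND1
import Pool.Agent.NUO.StabTab

/-!
NUO/D1Block (helper25): the rows `L`, `St` of the positive semidefinite part of (STAB) (design D1):
`form`, the quadratic form of the base kinds `L, St, S, Svv` with the pointwise parts
`nK, nK, nLS, nTS` and the rank one cross part removed is nonnegative.
-/

namespace NUD1

open NUPolyR NUSB NUMH Real

noncomputable section

/-- `4`-th kernel of the row of `L` / `St` (lower bounds, core replaced by its rational bound) -/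
def ellL (z : ℝ) : ℝ := Ms .L .L z - co z - NN z
def ellT (z : ℝ) : ℝ := Ms .T .T z - co z - NN z
/-- remainders of `L`-`S`, `St`-`S` -/
def rL (z : ℝ) : ℝ := Ms .L .S z - (1 / 2) * (ch 16 z - ch 14 z) - NLS z
def rT (z : ℝ) : ℝ := Ms .T .S z - NTS z
def sS (z : ℝ) : ℝ := ch 10 z - ch 8 z

theorem e6 (z : ℝ) : ev t6 (ww z) = ch 6 z := by rw [ww, ev_t6, ch]; norm_num

theorem evPL (z : ℝ) : ev lPL (ww z) = 2 * (fXL z + fYL z) := by
  rw [ev_eq lPL_eq]
  simp only [ev_add, ev_smul, e1, e3, e5, e7, e9, e11, e13, e15, fXL, fYL]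
  push_cast; ring

theorem evML (z : ℝ) : ev lML (ww z) = 2 * (fXL z - fYL z) := by
  rw [ev_eq lML_eq]
  simp only [ev_add, ev_sub, ev_smul, e1, e3, e5, e7, e9, e11, e13, e15, fXL, fYL]
  push_cast; ring

theorem evPT (z : ℝ) : ev lPT (ww z) = 2 * (fXT z + fYT z) := by
  rw [ev_eq lPT_eq]
  simp only [ev_add, ev_smul, e2, e6, e10, e14, fXT, fYT]
  push_cast; ring

theorem evMT (z : ℝ) : ev lMT (ww z) = 2 * (fXT z - fYT z) := by
  rw [ev_eq lMT_eq]
  simp only [ev_add, ev_sub, ev_smul, e2, e6, e10, e14, fXT, fYT]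
  push_cast; ring

theorem evHUV (z : ℝ) : ev lHUV (ww z) = ch 2 z * (up z * um z) := by
  rw [ev_eq lHUV_eq, ev_mul, e2, evUV]

theorem evXL (z : ℝ) : ev lXL (ww z) = 2 * bLS z - (ch 16 z - ch 14 z) - 2 * NLS z := by
  rw [ev_eq lXL_eq]
  simp only [ev_add, ev_sub, ev_smul, ev_mul, ev_cons, ev_nil, e2, e4, e6, e8, e12, e14, e16, bLS, NLS]
  push_cast; ring

theorem evXT (z : ℝ) : ev lXT (ww z) = 2 * bTS z - 2 * NTS z := by
  rw [ev_eq lXT_eq]
  simp only [ev_add, ev_sub, ev_smul, ev_mul, e1, e3, e5, e7, e8, e9, e11, e13, e15, bTS, NTS]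
  push_cast; ring

theorem evRL {z : ℝ} (hz : 0 < z) : ev lRL (ww z) = 40 * ch 2 z * (up z * um z) * rL z := by
  have hU := (up_pos hz).ne'
  have hV := (um_pos z).ne'
  have h2 : ch 2 z ≠ 0 := by linarith [one_le_ch 2 z]
  rw [ev_eq lRL_eq]
  simp only [ev_mul, ev_add, ev_sub, ev_smul, evHUV, evXL, evPL, evML, evPS, evMS, evV, evU, rL, Ms, bb,
    fX, fY]
  have e1 : fXS z - psi z + fYS z = fXS z + fYS z - psi z := by ring
  have e2 : fXS z - psi z - fYS z = fXS z - fYS z - psi z := by ring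
  rw [e1, e2]
  generalize fXS z + fYS z - psi z = p
  generalize fXS z - fYS z - psi z = m
  generalize fXL z + fYL z = p'
  generalize fXL z - fYL z = m'
  generalize up z = U at *
  generalize um z = V at *
  field_simp
  push_cast; ring

theorem evRT {z : ℝ} (hz : 0 < z) : ev lRT (ww z) = 40 * ch 2 z * (up z * um z) * rT z := by
  have hU := (up_pos hz).ne'
  have hV := (um_pos z).ne'
  have h2 : ch 2 z ≠ 0 := by linarith [one_le_ch 2 z]
  rw [ev_eq lRT_eq]
  simp only [ev_mul, ev_add, ev_sub, ev_smul, evHUV, evXT, evPT, evMT, evPS, evMS, evV, evU, rT, Ms, bb,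
    fX, fY]
  have e1 : fXS z - psi z + fYS z = fXS z + fYS z - psi z := by ring
  have e2 : fXS z - psi z - fYS z = fXS z - fYS z - psi z := by ring
  rw [e1, e2]
  generalize fXS z + fYS z - psi z = p
  generalize fXS z - fYS z - psi z = m
  generalize fXT z + fYT z = p'
  generalize fXT z - fYT z = m'
  generalize up z = U at *
  generalize um z = V at *
  field_simp
  push_cast; ring

theorem evBLL (z : ℝ) : ev lBLL (ww z) = ch 8 z - ch 12 z + ch 16 z := by
  rw [ev_eq lBLL_eq]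
  simp only [ev_add, ev_smul, e8, e12, e16]
  push_cast; ring

theorem evBTT (z : ℝ) : ev lBTT (ww z) = ch 4 z + ch 8 z + ch 12 z + ch 16 z := by
  rw [ev_eq lBTT_eq]
  simp only [ev_add, ev_smul, e4, e8, e12, e16]
  push_cast; ring

theorem evEL {z : ℝ} (hz : 0 < z) :
    ev lEL (ww z) = 1000 * (up z * um z) * (31 + ch 1 z) * ellL z := by
  have hU := (up_pos hz).ne'
  have hV := (um_pos z).ne'
  have hx : (31 + ch 1 z) ≠ 0 := by linarith [one_le_ch 1 z]
  rw [ev_eq lEL_eq]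
  simp only [ev_mul, ev_add, ev_sub, ev_smul, evBLL, evPL, evML, evN1, evK, evNx, evUVx, evUV, evV, evU,
    ellL, Ms, bb, fX, fY, co]
  generalize fXL z + fYL z = p'
  generalize fXL z - fYL z = m'
  generalize up z = U at *
  generalize um z = V at *
  generalize 31 + ch 1 z = X at *
  field_simp
  push_cast; ring

theorem evET {z : ℝ} (hz : 0 < z) :
    ev lET (ww z) = 1000 * (up z * um z) * (31 + ch 1 z) * ellT z := by
  have hU := (up_pos hz).ne'
  have hV := (um_pos z).ne'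
  have hx : (31 + ch 1 z) ≠ 0 := by linarith [one_le_ch 1 z]
  rw [ev_eq lET_eq]
  simp only [ev_mul, ev_add, ev_sub, ev_smul, evBTT, evPT, evMT, evN1, evK, evNx, evUVx, evUV, evV, evU,
    ellT, Ms, bb, fX, fY, co]
  generalize fXT z + fYT z = p'
  generalize fXT z - fYT z = m'
  generalize up z = U at *
  generalize um z = V at *
  generalize 31 + ch 1 z = X at *
  field_simp
  push_cast; ring

theorem evS (z : ℝ) : ev lS (ww z) = sS z := by
  rw [ev_eq lS_eq, ev_sub, e10, e8, sS]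

theorem evH2UV (z : ℝ) : ev lH2UV (ww z) = ch 2 z ^ 2 * (up z * um z) := by
  rw [ev_eq lH2UV_eq, ev_mul, evH2, evUV]

theorem sS_nonneg (z : ℝ) : 0 ≤ sS z := by
  rw [← evS]; exact ev_nonneg lS_nn (ww_nonneg z)

theorem pos3 {z : ℝ} (hz : 0 < z) : 0 < up z * um z ∧ 0 < 31 + ch 1 z ∧ 0 < ch 2 z :=
  ⟨mul_pos (up_pos hz) (um_pos z), by linarith [one_le_ch 1 z], by linarith [one_le_ch 2 z]⟩

theorem ellL_nonneg {z : ℝ} (hz : 0 < z) : 0 ≤ ellL z := by
  obtain ⟨h1, h2, _⟩ := pos3 hz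
  have h := ev_nonneg lEL_nn (ww_nonneg z)
  rw [evEL hz] at h
  exact nonneg_of_mul_nonneg_right h (by positivity)

theorem ellT_nonneg {z : ℝ} (hz : 0 < z) : 0 ≤ ellT z := by
  obtain ⟨h1, h2, _⟩ := pos3 hz
  have h := ev_nonneg lET_nn (ww_nonneg z)
  rw [evET hz] at h
  exact nonneg_of_mul_nonneg_right h (by positivity)

theorem rL_sq {z : ℝ} (hz : 0 < z) : rL z ^ 2 ≤ ellL z * (sS z / 30) := by
  obtain ⟨h1, h2, h3⟩ := pos3 hz
  have h := ev_nonneg lCL_nn (ww_nonneg z)
  rw [ev_eq lCL_eq] at h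
  simp only [ev_mul, ev_sub, ev_smul, evH2UV, evEL hz, evS, evRL hz, evNx] at h
  have e : (0:ℝ) ≤ 600000 * (ch 2 z ^ 2 * (up z * um z) ^ 2 * (31 + ch 1 z)) *
      (ellL z * (sS z / 30) - rL z ^ 2) := by
    refine h.trans (le_of_eq ?_)
    push_cast; ring
  have := nonneg_of_mul_nonneg_right e (by positivity)
  linarith

theorem rT_sq {z : ℝ} (hz : 0 < z) : rT z ^ 2 ≤ ellT z * (sS z / 120) := by
  obtain ⟨h1, h2, h3⟩ := pos3 hz
  have h := ev_nonneg lCT_nn (ww_nonneg z)
  rw [ev_eq lCT_eq] at h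
  simp only [ev_mul, ev_sub, ev_smul, evH2UV, evET hz, evS, evRT hz, evNx] at h
  have e : (0:ℝ) ≤ 600000 * (ch 2 z ^ 2 * (up z * um z) ^ 2 * (31 + ch 1 z)) *
      (ellT z * (sS z / 120) - rT z ^ 2) := by
    refine h.trans (le_of_eq ?_)
    push_cast; ring
  have := nonneg_of_mul_nonneg_right e (by positivity)
  linarith

theorem quad_nn {A B C : ℝ} (hA : 0 ≤ A) (hC : 0 ≤ C) (h : B ^ 2 ≤ A * C) (x y : ℝ) :
    0 ≤ A * x ^ 2 + 2 * B * (x * y) + C * y ^ 2 := Pool.Agent.NUM3.quad_nonneg hA hC h x y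

/-- the block with `(1/24) (ch 10 - ch 8)` removed from the `(S,S)` entry -/
theorem block2 {z : ℝ} (hz : 0 < z) (s v : ℝ) :
    0 ≤ (eSS z + core z - co z - sS z / 24) * s ^ 2 + 2 * (eSV z - core z + co z) * (s * v)
      + (eVV z + core z - co z) * v ^ 2 := by
  have hM := MM_pos hz
  have hw := ww_nonneg z
  have hMM : ev lUVHx (ww z) = MM z / 1000 := by rw [evUVHx, MM]; ring
  have hA : 0 ≤ eSS z + core z - co z - sS z / 24 := by
    have := ev_nonneg lA2_nn hw
    rw [ev_eq lA2_eq] at this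
    simp only [ev_sub, ev_smul, ev_mul, evA hz, evS, hMM] at this
    have h2 : 0 ≤ MM z * (3 * (eSS z + core z - co z - sS z / 24)) := by
      refine this.trans (le_of_eq ?_)
      push_cast; ring
    have := nonneg_of_mul_nonneg_right h2 hM
    linarith
  have hD : 0 ≤ eVV z + core z - co z := by
    have := ev_nonneg lD_nn hw
    rw [evD hz] at this
    exact nonneg_of_mul_nonneg_right this hM
  have hdet : (eSV z - core z + co z) ^ 2
      ≤ (eSS z + core z - co z - sS z / 24) * (eVV z + core z - co z) := by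
    have h1 := ev_nonneg lDet2_nn hw
    rw [ev_eq lDet2_eq] at h1
    simp only [ev_sub, ev_smul, ev_mul, evB hz, evD hz] at h1
    rw [ev_eq lA2_eq] at h1
    simp only [ev_sub, ev_smul, ev_mul, evA hz, evS, hMM] at h1
    have h2 : 0 ≤ (3 * MM z ^ 2) * ((eSS z + core z - co z - sS z / 24) * (eVV z + core z - co z)
        - (eSV z - core z + co z) ^ 2) := by
      refine h1.trans (le_of_eq ?_)
      push_cast; ring
    have h3 := nonneg_of_mul_nonneg_right h2 (by positivity)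
    linarith
  exact quad_nn hA hD hdet s v

/-- the form over `P` -/
theorem form_z {z : ℝ} (hz : 0 < z) (xL xT s v : ℝ) :
    0 ≤ (Ms .L .L z - core z - NN z) * xL ^ 2 + (Ms .T .T z - core z - NN z) * xT ^ 2 +
      2 * rL z * (xL * s) + 2 * rT z * (xT * s) +
      (eSS z * s ^ 2 + 2 * eSV z * (s * v) + eVV z * v ^ 2) := by
  have h1 := quad_nn (ellL_nonneg hz) (div_nonneg (sS_nonneg z) (by norm_num)) (rL_sq hz) xL s
  have h2 := quad_nn (ellT_nonneg hz) (div_nonneg (sS_nonneg z) (by norm_num)) (rT_sq hz) xT s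
  have h3 := block2 hz s v
  have h4 : 0 ≤ (co z - core z) * (xL ^ 2 + xT ^ 2 + (s - v) ^ 2) :=
    mul_nonneg (sub_nonneg.2 (core_le hz.le)) (by positivity)
  have e : (Ms .L .L z - core z - NN z) * xL ^ 2 + (Ms .T .T z - core z - NN z) * xT ^ 2 +
      2 * rL z * (xL * s) + 2 * rT z * (xT * s) +
      (eSS z * s ^ 2 + 2 * eSV z * (s * v) + eVV z * v ^ 2) =
      (ellL z * xL ^ 2 + 2 * rL z * (xL * s) + sS z / 30 * s ^ 2) +
      (ellT z * xT ^ 2 + 2 * rT z * (xT * s) + sS z / 120 * s ^ 2) +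
      ((eSS z + core z - co z - sS z / 24) * s ^ 2 + 2 * (eSV z - core z + co z) * (s * v)
      + (eVV z + core z - co z) * v ^ 2) +
      (co z - core z) * (xL ^ 2 + xT ^ 2 + (s - v) ^ 2) := by
    unfold ellL ellT; ring
  rw [e]
  linarith

open NUStabT in
/-- **the form of design D1** -/
theorem form {k : ℝ} (hk : 0 < k) (xL xT s v : ℝ) :
    0 ≤ (mS .L .L k - nK k) * xL ^ 2 + (mS .T .T k - nK k) * xT ^ 2 +
      2 * (mS .L .S k - nLS k) * (xL * s) + 2 * (mS .T .S k - nTS k) * (xT * s) +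
      ((alphaK k - gK k) * s ^ 2 + 2 * (betaK k + wK k * gK k) * (s * v) +
        (gamK k - wK k ^ 2 * gK k) * v ^ 2) := by
  have h := mul_nonneg (PQ_pos hk).le (form_z (NUSB.zk_pos hk) xL xT s v)
  refine h.trans (le_of_eq ?_)
  unfold mS nK nLS nTS alphaK betaK gamK gK wK rL rT
  simp only [κs]
  ring

end

end NUD1
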