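import Pool.Agent.NUO.Lower
import Pool.Agent.NUO.StabTab
import Pool.Agent.NUO.ND1

/-!
# Explicit positive kernels (differences of logarithms) in the normalisation `PQ` (helper75)

`dl4 a b`, `dl2 a b`, `dl1 a b` (quarter units): `PK`, lower bounds of `IT` on `[-1,1]`.
-/

set_option autoImplicit false

open MeasureTheory Set

noncomputable section

namespace NUStabT

open NUMH (PP)
open NUPosK (PK)
open NUSB

def dl4 (a b : ℕ) (k : ℝ) : ℝ := PQ k * (ch b (zk k) - ch a (zk k))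
def dl2 (a b : ℕ) (k : ℝ) : ℝ := PQ k * (2 * ch 8 (zk k) * (ch b (zk k) - ch a (zk k)))
def dl1 (a b : ℕ) (k : ℝ) : ℝ := PQ k * (4 * ch 8 (zk k) * ch 4 (zk k) * (ch b (zk k) - ch a (zk k)))

lemma pk_dl4 {a b : ℕ} (hab : a < b) (hb : b < 16) : PK (dl4 a b) :=
  PK_PQ (m := fun z => ch b z - ch a z) (NUMH.gD4 hab hb)
lemma pk_dl2 {a b : ℕ} (hab : a < b) (hb : b < 8) : PK (dl2 a b) :=
  PK_PQ (m := fun z => 2 * ch 8 z * (ch b z - ch a z)) (NUMH.gD2 hab hb)
lemma pk_dl1 {a b : ℕ} (hab : a < b) (hb : b < 4) : PK (dl1 a b) :=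
  PK_PQ (m := fun z => 4 * ch 8 z * ch 4 z * (ch b z - ch a z)) (NUMH.gD1 hab hb)

lemma IT_of_PP {m : ℝ → ℝ} {c x : ℝ}
    (h : Real.pi * c ≤ ∫ k in Ioi (0:ℝ), PP k * m (zk k) * Real.cos (k * x)) :
    c ≤ IT (fun k => PQ k * m (zk k)) x := by
  have e : ∫ k in Ioi (0:ℝ), PP k * m (zk k) * Real.cos (k * x) =
      Real.pi * IT (fun k => PQ k * m (zk k)) x := by
    unfold IT
    rw [← integral_const_mul]
    refine integral_congr_ae (Filter.Eventually.of_forall fun k => ?_)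
    simp only [PP_eq]
    ring
  rw [e] at h
  exact le_of_mul_le_mul_left h Real.pi_pos

lemma dl4_lower {a b : ℕ} (hab : a ≤ b) (hb : b < 16) {x : ℝ} (hx : |x| ≤ 1) :
    (Real.cos (a * Real.pi / 16) - Real.cos (b * Real.pi / 16)) / 5 ≤ IT (dl4 a b) x := by
  refine IT_of_PP (m := fun z => ch b z - ch a z) ?_
  refine le_trans (le_of_eq ?_) (NUMH.D4_lower hab hb hx)
  ring

lemma dl2_lower {a b : ℕ} (hab : a ≤ b) (hb : b < 8) {x : ℝ} (hx : |x| ≤ 1) :
    (Real.cos (a * Real.pi / 8) - Real.cos (b * Real.pi / 8)) / 32 ≤ IT (dl2 a b) x :=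
  IT_of_PP (m := fun z => 2 * ch 8 z * (ch b z - ch a z)) (NUMH.D2_lower hab hb hx)

lemma dl1_lower {a b : ℕ} (hab : a ≤ b) (hb : b < 4) {x : ℝ} (hx : |x| ≤ 1) :
    (Real.cos (a * Real.pi / 4) - Real.cos (b * Real.pi / 4)) / 1922 ≤ IT (dl1 a b) x :=
  IT_of_PP (m := fun z => 4 * ch 8 z * ch 4 z * (ch b z - ch a z)) (NUMH.D1_lower hab hb hx)

/-- adding a kernel with nonnegative inverse transform keeps a lower bound -/
lemma IT_add_le {m m' : ℝ → ℝ} {c x : ℝ} (hi : IntegrableOn m (Ioi 0)) (h : c ≤ IT m x) (hm' : PK m') :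
    c ≤ IT (fun k => m k + m' k) x := by
  rw [IT_add hi hm'.1]
  have : 0 ≤ IT m' x := hm'.2 x
  linarith

lemma IT_smul_le {m : ℝ → ℝ} {c q x : ℝ} (hq : 0 ≤ q) (h : c ≤ IT m x) : q * c ≤ IT (fun k => q * m k) x := by
  rw [IT_smul]
  gcongr

/-! ### the pointwise parts of `L`-`S` and `St`-`S` (design D1) -/

lemma ch_zero (z : ℝ) : ch 0 z = 1 := by unfold ch; simp

theorem PK_nLS : PK NUD1.nLS := by
  have h1 := NUCone.PK_cone.smul (c := 1 / 2) (by norm_num)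
  have h2 := (pk_dl1 (a := 0) (b := 2) (by norm_num) (by norm_num)).smul (c := 1 / 4) (by norm_num)
  have h3 := (pk_dl2 (a := 4) (b := 6) (by norm_num) (by norm_num)).smul (c := 1 / 2) (by norm_num)
  refine ((h1.add h2).add h3).congr fun k _ => ?_
  unfold NUD1.nLS NUD1.NLS dl1 dl2
  rw [ch_zero]
  ring

theorem nLS_lower {x : ℝ} (hx : |x| ≤ 1) : 1 / 100 ≤ IT NUD1.nLS x := by
  have h1 := NUCone.PK_cone.smul (c := 1 / 2) (by norm_num)
  have h2 := (pk_dl1 (a := 0) (b := 2) (by norm_num) (by norm_num)).smul (c := 1 / 4) (by norm_num)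
  have h3 := (pk_dl2 (a := 4) (b := 6) (by norm_num) (by norm_num)).smul (c := 1 / 2) (by norm_num)
  have h4 := IT_smul_le (q := 1 / 2) (by norm_num) (dl2_lower (a := 4) (b := 6) (by norm_num) (by norm_num) hx)
  have e : NUD1.nLS = fun k => 1 / 2 * dl2 4 6 k +
      (1 / 2 * (PQ k * (ch 16 (zk k) - ch 14 (zk k) - core (zk k))) + 1 / 4 * dl1 0 2 k) := by
    funext k
    unfold NUD1.nLS NUD1.NLS dl1 dl2
    rw [ch_zero]
    ring
  rw [e]
  refine IT_add_le h3.1 (le_trans ?_ h4) (h1.add h2)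
  have e1 : ((4 : ℕ) : ℝ) * Real.pi / 8 = Real.pi / 2 := by push_cast; ring
  have e2 : ((6 : ℕ) : ℝ) * Real.pi / 8 = Real.pi - Real.pi / 4 := by push_cast; ring
  rw [e1, e2, Real.cos_pi_div_two, Real.cos_pi_sub, Real.cos_pi_div_four]
  have := NUPosK.sqrt2_lo
  linarith

theorem PK_nTS : PK NUD1.nTS := by
  have h1 := (pk_dl2 (a := 1) (b := 3) (by norm_num) (by norm_num)).smul (c := 3 / 2) (by norm_num)
  have h2 := (pk_dl2 (a := 3) (b := 5) (by norm_num) (by norm_num)).smul (c := 3 / 4) (by norm_num)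
  have h3 := (pk_dl2 (a := 5) (b := 7) (by norm_num) (by norm_num)).smul (c := 1 / 2) (by norm_num)
  have h4 := pk_dl4 (a := 7) (b := 9) (by norm_num) (by norm_num)
  refine (((h1.add h2).add h3).add h4).congr fun k _ => ?_
  unfold NUD1.nTS NUD1.NTS dl2 dl4
  ring

theorem nTS_lower {x : ℝ} (hx : |x| ≤ 1) : 1 / 50 ≤ IT NUD1.nTS x := by
  have h1 := (pk_dl2 (a := 1) (b := 3) (by norm_num) (by norm_num)).smul (c := 3 / 2) (by norm_num)
  have h2 := (pk_dl2 (a := 3) (b := 5) (by norm_num) (by norm_num)).smul (c := 3 / 4) (by norm_num)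
  have h3 := (pk_dl2 (a := 5) (b := 7) (by norm_num) (by norm_num)).smul (c := 1 / 2) (by norm_num)
  have h4 := pk_dl4 (a := 7) (b := 9) (by norm_num) (by norm_num)
  have h5 := IT_smul_le (q := 3 / 2) (by norm_num) (dl2_lower (a := 1) (b := 3) (by norm_num) (by norm_num) hx)
  have e : NUD1.nTS = fun k => 3 / 2 * dl2 1 3 k + ((3 / 4 * dl2 3 5 k + 1 / 2 * dl2 5 7 k) + dl4 7 9 k) := by
    funext k
    unfold NUD1.nTS NUD1.NTS dl2 dl4
    ring
  rw [e]
  refine IT_add_le h1.1 (le_trans ?_ h5) ((h2.add h3).add h4)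
  have e1 : ((1 : ℕ) : ℝ) * Real.pi / 8 = Real.pi / 8 := by push_cast; ring
  have e2 : ((3 : ℕ) : ℝ) * Real.pi / 8 = 3 * Real.pi / 8 := by push_cast; ring
  rw [e1, e2]
  have := NUPosK.cos1_ge
  have := NUPosK.cos3_le
  linarith

end NUStabT
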