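import Pool.Agent.NUO.StabP
import Pool.Agent.NUC43.Cfg

/-!
# The product form of the stability bound, with the densities of `NUC43`

`resp43`: the response structure of the densities `- sgX`, `- sgY`, `- sgT` (`jL = 9/4`, `e = 1/4`);
`stabC`: `∏_{i<j} pairN * exp (energy of the densities) ≤ exp (C r + C r² d) ∏ collC exp (- c1 ∑ cnt²)`.
-/

set_option autoImplicit false

noncomputable section

open Finset MeasureTheory

namespace NUStabP

open NUO NUDirP Pool.Agent.NUM3 NUC43

/-- own species density, with the sign of `Resp` -/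
def rX (K : Kind) (t : ℝ) : ℝ := -sgX (9 / 4) (1 / 4) K t
/-- other species density, with the sign of `Resp` -/
def rY (K : Kind) (t : ℝ) : ℝ := -sgY (9 / 4) (1 / 4) K t
/-- density of the splitting, with the sign of `Resp` -/
def rT (K : Kind) (t : ℝ) : ℝ := -sgT (9 / 4) (1 / 4) K t

theorem CT_neg {f m : ℝ → ℝ} (h : NUC37.CT f m) : NUC37.CT (fun t => -f t) (fun k => -m k) where
  int := h.int.neg
  even t := by rw [h.even]
  ft k hk := by
    rw [← h.ft k hk, ← integral_neg]
    refine integral_congr_ae (Filter.Eventually.of_forall fun t => ?_)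
    simp only
    ring

theorem CT_congr {f m m' : ℝ → ℝ} (h : NUC37.CT f m) (hm : ∀ k, 0 < k → m k = m' k) :
    NUC37.CT f m' where
  int := h.int
  even := h.even
  ft k hk := by rw [h.ft k hk, hm k hk]

theorem kF_mP (K : Kind) {k : ℝ} (hk : 0 < k) : (kF (9 / 4) (1 / 4) K k).re = -mP K k := by
  rw [kF_re K hk]
  unfold mP
  congr 2
  (cases K <;> simp [ext1, dec, fXK, fYK]); ring

theorem kG_mM (K : Kind) {k : ℝ} (hk : 0 < k) : (kG (9 / 4) (1 / 4) K k).re = -mM K k := by
  rw [kG_re K hk]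
  unfold mM
  congr 2
  (cases K <;> simp [ext1, dec, fXK, fYK]); ring

theorem kq_qc (K : Kind) : kq K = Pool.Agent.NUM3.qc K := by
  cases K <;> simp [kq, Pool.Agent.NUM3.qc]

theorem resp43 : Resp rX rY rT where
  cX K := by
    refine CT_congr (CT_neg (chgK adm0 K).ctO) fun k hk => ?_
    rw [kF_mP K hk, kG_mM K hk]
    ring
  cY K := by
    refine CT_congr (CT_neg (chgK adm0 K).ctX) fun k hk => ?_
    rw [kF_mP K hk, kG_mM K hk]
    ring
  cT K := by
    refine CT_congr (CT_neg (chgK adm0 K).ctT) fun k hk => ?_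
    rw [kG_mM K hk]
    ring
  contX K := (chgK adm0 K).contO.neg
  contY K := (chgK adm0 K).contX.neg
  bdX K := by
    obtain ⟨M, _, h⟩ := (dnX adm0 K).bdd
    exact ⟨M, fun t => by unfold rX; rw [abs_neg]; exact h t⟩
  bdY K := by
    obtain ⟨M, _, h⟩ := (dnY adm0 K).bdd
    exact ⟨M, fun t => by unfold rY; rw [abs_neg]; exact h t⟩
  wT K := by
    have h := (dnT adm0 K).wint.neg
    refine h.congr (Filter.Eventually.of_forall fun t => ?_)
    simp only [Pi.neg_apply, rT]
    ring
  mass K := by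
    unfold rT
    rw [integral_neg, sgT, (chgK adm0 K).intT, neg_neg, kq_qc]
  imP K := by
    refine ((chgK adm0 K).gF.inv_rep (chgK adm0 K).neg).neg.congr_fun (fun k hk => ?_)
      measurableSet_Ioi
    simp only [Pi.neg_apply]
    rw [kF_mP K hk, neg_neg]
  imM K := by
    refine ((chgK adm0 K).gG.inv_rep (chgK adm0 K).neg).neg.congr_fun (fun k hk => ?_)
      measurableSet_Ioi
    simp only [Pi.neg_apply]
    rw [kG_mM K hk, neg_neg]

theorem EV_neg (f g : ℝ → ℝ) (x y : ℝ) : EV (fun t => -f t) (fun t => -g t) x y = EV f g x y := by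
  unfold EV
  refine integral_congr_ae (Filter.Eventually.of_forall fun s => ?_)
  simp only
  rw [show (fun s' => NUMF.V (s - s') * -g (s' - y)) = fun s' => -(NUMF.V (s - s') * g (s' - y)) by
    funext s'; ring, integral_neg]
  ring

theorem EU_neg (f g : ℝ → ℝ) (x y : ℝ) : EU (fun t => -f t) (fun t => -g t) x y = EU f g x y := by
  unfold EU
  refine integral_congr_ae (Filter.Eventually.of_forall fun s => ?_)
  simp only
  rw [show (fun s' => -Real.log (NUMF.g (s - s')) * -g (s' - y)) =
    fun s' => -(-Real.log (NUMF.g (s - s')) * g (s' - y)) by funext s'; ring, integral_neg]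
  ring

/-- the pair energies do not change with the sign of the densities -/
theorem ER_neg (σ : Bool) (K K' : Kind) (x y : ℝ) :
    ER rX rY rT σ K K' x y =
      ER (sgX (9 / 4) (1 / 4)) (sgY (9 / 4) (1 / 4)) (sgT (9 / 4) (1 / 4)) σ K K' x y := by
  have hX : ∀ K, rX K = fun t => -sgX (9 / 4) (1 / 4) K t := fun K => rfl
  have hY : ∀ K, rY K = fun t => -sgY (9 / 4) (1 / 4) K t := fun K => rfl
  have hT : ∀ K, rT K = fun t => -sgT (9 / 4) (1 / 4) K t := fun K => rfl
  unfold ER
  rw [hX, hX, hY, hY, hT, hT, EV_neg, EV_neg, EV_neg, EV_neg, EU_neg]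

/-- the energy of the densities of a configuration (the part of `NUH0.Dat.En` due to the objects) -/
def enC {r : ℕ} (O : Fin r → Xo) : ℝ :=
  1 / 2 * (∫ t, tauC (9 / 4) (1 / 4) O t * lgp (tauC (9 / 4) (1 / 4) O) t) +
    ∑ a : Bool, 1 / 2 * (∫ t, muC (9 / 4) (1 / 4) O a t *
      ∫ u, muC (9 / 4) (1 / 4) O a u * NUMF.V (t - u))

theorem enC_eq {r : ℕ} (O : Fin r → Xo) : enC O = EGO rX rY rT O := by
  unfold enC EGO
  rw [cfg_energy adm0]
  congr 1
  refine sum_congr rfl fun i _ => sum_congr rfl fun j _ => ?_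
  rw [ER_neg]

/-- the product form of the stability bound for the objects, with the energy of the densities -/
def StabProd : Prop := ∃ C c1 : ℝ, 0 < C ∧ 0 < c1 ∧ ∀ P : Par, P.jL = 9 / 4 → P.e = 1 / 4 →
  ∀ r : ℕ, Small 8 P r → ∀ (O : Fin r → Xo) (W : Finset ℤ),
  (∏ i, ∏ j, if i < j then pairN P O i j else 1) * Real.exp (enC O) ≤
    Real.exp (C * r + C * r ^ 2 * P.d r) * (∏ i, collC C 4 P r (O i)) *
      Real.exp (-(c1 * ∑ w ∈ W, (cnt (fun i => ht (O i)) w : ℝ) ^ 2))

/-- the product form from the bound for ordered pairs -/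
theorem stabC_of {c0 : ℝ} (hc0 : 0 < c0) (hS0 : StabObj rX rY rT c0) : StabProd := by
  obtain ⟨C, c1, hC, hc1, h⟩ := stabP_of resp43 hc0 hS0
  refine ⟨C, c1, hC, hc1, fun P hj he r hS O W => ?_⟩
  rw [enC_eq]
  exact h P hj he r hS O W

/-- **product form of the stability bound**, with the energy of the densities -/
theorem stabC {c0 : ℝ} (Ce : NUStabT.Certs c0) (hc0 : 0 < c0) : StabProd :=
  stabC_of hc0 (stab_obj resp43 Ce hc0.le)

end NUStabP
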