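import Pool.Agent.NUO.StabTab
import Pool.Agent.NUO.SlackN

/-! NUO/StabN (helper66): the fields `N`, `N1` of `NUStabT.Certs`. -/

set_option autoImplicit false

open MeasureTheory Set NUPosK

namespace NUStabT

theorem IT_nK (x : ℝ) : IT nK x = NUSlk.Nt x := by
  rw [(NUSlk.Nt_fourier x).2]
  rfl

/-- the kernel `N` is nonnegative -/
theorem c_N : PK nK := by
  refine ⟨NUSlk.NN_integrable, fun t => ?_⟩
  have h := IT_nK t
  unfold IT at h
  rw [h]
  exact (NUSlk.Nt_pos t).le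

/-- `N ≥ 1/2600` on `|x| ≤ 1` -/
theorem c_N1 : ∀ x : ℝ, |x| ≤ 1 → 1 / 2600 ≤ IT nK x := fun x hx => by
  rw [IT_nK]
  exact NUSlk.Nt_ge_one hx

end NUStabT
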