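import Pool.Agent.NUO.GenX

/-! `ch n` as a polynomial in `ch 1`; the slack as a fraction -/

set_option autoImplicit false

namespace NUMH

open NUSB

theorem chx (n : ℕ) (z : ℝ) : ch (n+2) z = 2 * ch 1 z * ch (n+1) z - ch n z := by
  unfold ch
  push_cast
  have e1 : Real.cosh (((n:ℝ) + 2) * z) = Real.cosh (((n:ℝ)+1) * z + z) := by congr 1; ring
  have e2 : Real.cosh ((n:ℝ) * z) = Real.cosh (((n:ℝ)+1) * z - z) := by congr 1; ring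
  rw [e1, e2, Real.cosh_add, Real.cosh_sub, one_mul]; ring

theorem c0 (z : ℝ) : ch 0 z = 1 := by simp [ch]
theorem c2 (z : ℝ) : ch 2 z = -1 + 2 * (ch 1 z) ^ 2 := by
  have h := chx 0 z
  norm_num at h
  rw [h, c0]; ring
theorem c3 (z : ℝ) : ch 3 z = -3 * (ch 1 z) ^ 1 + 4 * (ch 1 z) ^ 3 := by
  have h := chx 1 z
  norm_num at h
  rw [h, c2]; ring
theorem c4 (z : ℝ) : ch 4 z = 1 - 8 * (ch 1 z) ^ 2 + 8 * (ch 1 z) ^ 4 := by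
  have h := chx 2 z
  norm_num at h
  rw [h, c3, c2]; ring
theorem c5 (z : ℝ) : ch 5 z = 5 * (ch 1 z) ^ 1 - 20 * (ch 1 z) ^ 3 + 16 * (ch 1 z) ^ 5 := by
  have h := chx 3 z
  norm_num at h
  rw [h, c4, c3]; ring
theorem c6 (z : ℝ) : ch 6 z = -1 + 18 * (ch 1 z) ^ 2 - 48 * (ch 1 z) ^ 4 + 32 * (ch 1 z) ^ 6 := by
  have h := chx 4 z
  norm_num at h
  rw [h, c5, c4]; ring
theorem c7 (z : ℝ) : ch 7 z = -7 * (ch 1 z) ^ 1 + 56 * (ch 1 z) ^ 3 - 112 * (ch 1 z) ^ 5 + 64 * (ch 1 z) ^ 7 := by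
  have h := chx 5 z
  norm_num at h
  rw [h, c6, c5]; ring
theorem c8 (z : ℝ) : ch 8 z = 1 - 32 * (ch 1 z) ^ 2 + 160 * (ch 1 z) ^ 4 - 256 * (ch 1 z) ^ 6 + 128 * (ch 1 z) ^ 8 := by
  have h := chx 6 z
  norm_num at h
  rw [h, c7, c6]; ring
theorem c9 (z : ℝ) : ch 9 z = 9 * (ch 1 z) ^ 1 - 120 * (ch 1 z) ^ 3 + 432 * (ch 1 z) ^ 5 - 576 * (ch 1 z) ^ 7 + 256 * (ch 1 z) ^ 9 := by
  have h := chx 7 z
  norm_num at h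
  rw [h, c8, c7]; ring
theorem c10 (z : ℝ) : ch 10 z = -1 + 50 * (ch 1 z) ^ 2 - 400 * (ch 1 z) ^ 4 + 1120 * (ch 1 z) ^ 6 - 1280 * (ch 1 z) ^ 8 + 512 * (ch 1 z) ^ 10 := by
  have h := chx 8 z
  norm_num at h
  rw [h, c9, c8]; ring
theorem c11 (z : ℝ) : ch 11 z = -11 * (ch 1 z) ^ 1 + 220 * (ch 1 z) ^ 3 - 1232 * (ch 1 z) ^ 5 + 2816 * (ch 1 z) ^ 7 - 2816 * (ch 1 z) ^ 9 + 1024 * (ch 1 z) ^ 11 := by
  have h := chx 9 z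
  norm_num at h
  rw [h, c10, c9]; ring
theorem c12 (z : ℝ) : ch 12 z = 1 - 72 * (ch 1 z) ^ 2 + 840 * (ch 1 z) ^ 4 - 3584 * (ch 1 z) ^ 6 + 6912 * (ch 1 z) ^ 8 - 6144 * (ch 1 z) ^ 10 + 2048 * (ch 1 z) ^ 12 := by
  have h := chx 10 z
  norm_num at h
  rw [h, c11, c10]; ring
theorem c13 (z : ℝ) : ch 13 z = 13 * (ch 1 z) ^ 1 - 364 * (ch 1 z) ^ 3 + 2912 * (ch 1 z) ^ 5 - 9984 * (ch 1 z) ^ 7 + 16640 * (ch 1 z) ^ 9 - 13312 * (ch 1 z) ^ 11 + 4096 * (ch 1 z) ^ 13 := by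
  have h := chx 11 z
  norm_num at h
  rw [h, c12, c11]; ring
theorem c14 (z : ℝ) : ch 14 z = -1 + 98 * (ch 1 z) ^ 2 - 1568 * (ch 1 z) ^ 4 + 9408 * (ch 1 z) ^ 6 - 26880 * (ch 1 z) ^ 8 + 39424 * (ch 1 z) ^ 10 - 28672 * (ch 1 z) ^ 12 + 8192 * (ch 1 z) ^ 14 := by
  have h := chx 12 z
  norm_num at h
  rw [h, c13, c12]; ring
theorem c15 (z : ℝ) : ch 15 z = -15 * (ch 1 z) ^ 1 + 560 * (ch 1 z) ^ 3 - 6048 * (ch 1 z) ^ 5 + 28800 * (ch 1 z) ^ 7 - 70400 * (ch 1 z) ^ 9 + 92160 * (ch 1 z) ^ 11 - 61440 * (ch 1 z) ^ 13 + 16384 * (ch 1 z) ^ 15 := by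
  have h := chx 13 z
  norm_num at h
  rw [h, c14, c13]; ring
theorem c16 (z : ℝ) : ch 16 z = 1 - 128 * (ch 1 z) ^ 2 + 2688 * (ch 1 z) ^ 4 - 21504 * (ch 1 z) ^ 6 + 84480 * (ch 1 z) ^ 8 - 180224 * (ch 1 z) ^ 10 + 212992 * (ch 1 z) ^ 12 - 131072 * (ch 1 z) ^ 14 + 32768 * (ch 1 z) ^ 16 := by
  have h := chx 14 z
  norm_num at h
  rw [h, c15, c14]; ring
theorem c17 (z : ℝ) : ch 17 z = 17 * (ch 1 z) ^ 1 - 816 * (ch 1 z) ^ 3 + 11424 * (ch 1 z) ^ 5 - 71808 * (ch 1 z) ^ 7 + 239360 * (ch 1 z) ^ 9 - 452608 * (ch 1 z) ^ 11 + 487424 * (ch 1 z) ^ 13 - 278528 * (ch 1 z) ^ 15 + 65536 * (ch 1 z) ^ 17 := by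
  have h := chx 15 z
  norm_num at h
  rw [h, c16, c15]; ring

/-- numerator of the slack of `S` -/
noncomputable def pS (z : ℝ) : ℝ := 4 * ch 8 z * ch 4 z * ch 1 z * (ch 2 z - 1) * (2 * ch 2 z + 6 / 5)

theorem psi_eq (z : ℝ) : psi z = pS z / gH z := by
  have h1 : ch 1 z ≠ 0 := (lt_of_lt_of_le one_pos (one_le_ch 1 z)).ne'
  have h2 : ch 2 z ≠ 0 := (lt_of_lt_of_le one_pos (one_le_ch 2 z)).ne'
  have h4 : ch 4 z - 1 = 4 * ch 1 z ^ 2 * (ch 2 z - 1) := by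
    rw [c4, c2]; ring
  unfold psi pS gH
  rw [h4]
  field_simp

end NUMH
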