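import Pool.Agent.NUO.ChebX

/-!
# X_L_T (generated by gen75.py, helper75)
L with St of the other species, offsets 9/4; 3/2, 5/2
-/

set_option autoImplicit false
set_option linter.unusedVariables false
set_option linter.unusedSimpArgs false

namespace NUMH

open NUSB NUO NUPosK

noncomputable section

/-- plus part -/
private lemma X_L_T_u1 (x A B H : ℝ) (eA : A = 16 * x ^ 4 - 16 * x ^ 2 + 1) (eB : B = 16 * x ^ 4 - 16 * x ^ 2 + 3) (eH : H = 2 * x ^ 2 - 1) (hx : x ≠ 0) (hx1 : x ^ 2 - 1 ≠ 0) (hA : A ≠ 0) (hB : B ≠ 0) (hH : H ≠ 0) :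
    (-16 * x + 488 * x ^ 3 - 5016 * x ^ 5 + 22464 * x ^ 7 - 50176 * x ^ 9 + 58880 * x ^ 11 - 34816 * x ^ 13 + 8192 * x ^ 15) * (-16 * x ^ 2 + 560 * x ^ 4 - 4128 * x ^ 6 + 12800 * x ^ 8 - 19456 * x ^ 10 + 14336 * x ^ 12 - 4096 * x ^ 14) / ((8 * x ^ 2 * (x ^ 2 - 1)) * A * B ^ 2) * (A ^ 2 * B ^ 2 * x ^ 0 * H ^ 0) =
    (-32 * x + 1552 * x ^ 3 - 25040 * x ^ 5 + 197600 * x ^ 7 - 895488 * x ^ 9 + 2515456 * x ^ 11 - 4526080 * x ^ 13 + 5222400 * x ^ 15 - 3735552 * x ^ 17 + 1507328 * x ^ 19 - 262144 * x ^ 21) * (A ^ 2 * B ^ 0 * x ^ 0 * H ^ 0) := by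
  have h : (-16 * x + 488 * x ^ 3 - 5016 * x ^ 5 + 22464 * x ^ 7 - 50176 * x ^ 9 + 58880 * x ^ 11 - 34816 * x ^ 13 + 8192 * x ^ 15) * (-16 * x ^ 2 + 560 * x ^ 4 - 4128 * x ^ 6 + 12800 * x ^ 8 - 19456 * x ^ 10 + 14336 * x ^ 12 - 4096 * x ^ 14) / ((8 * x ^ 2 * (x ^ 2 - 1)) * A * B ^ 2) =
      (-32 * x + 1552 * x ^ 3 - 25040 * x ^ 5 + 197600 * x ^ 7 - 895488 * x ^ 9 + 2515456 * x ^ 11 - 4526080 * x ^ 13 + 5222400 * x ^ 15 - 3735552 * x ^ 17 + 1507328 * x ^ 19 - 262144 * x ^ 21) / (A ^ 0 * B ^ 2 * x ^ 0 * H ^ 0) := by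
    rw [div_eq_div_iff (by positivity) (by positivity)]
    rw [eA, eB, eH]
    ring
  rw [h]
  have e : A ^ 2 * B ^ 2 * x ^ 0 * H ^ 0 = (A ^ 0 * B ^ 2 * x ^ 0 * H ^ 0) * (A ^ 2 * B ^ 0 * x ^ 0 * H ^ 0) := by ring
  rw [e, ← mul_assoc, div_mul_cancel₀ _ (by positivity)]

/-- minus part -/
private lemma X_L_T_u2 (x A B H : ℝ) (eA : A = 16 * x ^ 4 - 16 * x ^ 2 + 1) (eB : B = 16 * x ^ 4 - 16 * x ^ 2 + 3) (eH : H = 2 * x ^ 2 - 1) (hx : x ≠ 0) (hx1 : x ^ 2 - 1 ≠ 0) (hA : A ≠ 0) (hB : B ≠ 0) (hH : H ≠ 0) :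
    (2 * x - 40 * x ^ 3 - 24 * x ^ 5 + 3648 * x ^ 7 - 17408 * x ^ 9 + 32256 * x ^ 11 - 26624 * x ^ 13 + 8192 * x ^ 15) * (-4 + 184 * x ^ 2 - 2576 * x ^ 4 + 14688 * x ^ 6 - 40960 * x ^ 8 + 59392 * x ^ 10 - 43008 * x ^ 12 + 12288 * x ^ 14) / ((2 * H ^ 2) * A ^ 3) * (A ^ 2 * B ^ 2 * x ^ 0 * H ^ 0) =
    (-4 * x + 184 * x ^ 3 - 2192 * x ^ 5 - 3104 * x ^ 7 + 212480 * x ^ 9 - 1444352 * x ^ 11 + 4501504 * x ^ 13 - 7655424 * x ^ 15 + 7340032 * x ^ 17 - 3735552 * x ^ 19 + 786432 * x ^ 21) * (A ^ 0 * B ^ 2 * x ^ 0 * H ^ 0) := by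
  have h : (2 * x - 40 * x ^ 3 - 24 * x ^ 5 + 3648 * x ^ 7 - 17408 * x ^ 9 + 32256 * x ^ 11 - 26624 * x ^ 13 + 8192 * x ^ 15) * (-4 + 184 * x ^ 2 - 2576 * x ^ 4 + 14688 * x ^ 6 - 40960 * x ^ 8 + 59392 * x ^ 10 - 43008 * x ^ 12 + 12288 * x ^ 14) / ((2 * H ^ 2) * A ^ 3) =
      (-4 * x + 184 * x ^ 3 - 2192 * x ^ 5 - 3104 * x ^ 7 + 212480 * x ^ 9 - 1444352 * x ^ 11 + 4501504 * x ^ 13 - 7655424 * x ^ 15 + 7340032 * x ^ 17 - 3735552 * x ^ 19 + 786432 * x ^ 21) / (A ^ 2 * B ^ 0 * x ^ 0 * H ^ 0) := by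
    rw [div_eq_div_iff (by positivity) (by positivity)]
    rw [eA, eH]
    ring
  rw [h]
  have e : A ^ 2 * B ^ 2 * x ^ 0 * H ^ 0 = (A ^ 2 * B ^ 0 * x ^ 0 * H ^ 0) * (A ^ 0 * B ^ 2 * x ^ 0 * H ^ 0) := by ring
  rw [e, ← mul_assoc, div_mul_cancel₀ _ (by positivity)]

/-- the certificate -/
theorem X_L_T_id {z : ℝ} (hz : 0 < z) :
    1 * ((ch 9 z - ch 7 z)) +
    1 / 8 * ((2 * ch 8 z * (ch 5 z - ch 3 z)) * (ch 0 z / gA z) * (ch 0 z / gA z)) +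
    1 / 8 * ((2 * ch 8 z * (ch 7 z - ch 5 z)) * (ch 0 z / gA z) * (ch 0 z / gA z)) +
    1 / 2 * ((2 * ch 8 z * (ch 6 z - ch 4 z)) * (ch 0 z / gB z) * (ch 1 z / (gA z * gB z))) +
    3 / 16 * ((2 * ch 8 z * (ch 7 z - ch 5 z)) * (ch 0 z / gA z)) +
    3 / 16 * ((ch 7 z - ch 5 z)) +
    13 / 16 * ((ch 11 z - ch 9 z)) +
    3 / 8 * ((2 * ch 8 z * (ch 5 z - ch 3 z)) * (ch 0 z / (gA z * gB z))) +
    1 / 2 * ((2 * ch 8 z * (ch 5 z - ch 3 z))) =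
    Mc .L .T z := by
  have hA := gA_pos z
  have hB := gB_pos z
  have hH := gH_pos z
  have hx : 1 < ch 1 z := one_lt_ch (by norm_num) hz
  have hx0 : 0 < ch 1 z := by linarith
  have hx1 : ch 1 z ^ 2 - 1 ≠ 0 := by nlinarith
  have eA : gA z = 16 * ch 1 z ^ 4 - 16 * ch 1 z ^ 2 + 1 := by unfold gA; rw [cx4]; ring
  have eB : gB z = 16 * ch 1 z ^ 4 - 16 * ch 1 z ^ 2 + 3 := by unfold gB; rw [cx4]; ring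
  have eH : gH z = 2 * ch 1 z ^ 2 - 1 := by unfold gH; rw [cx2]
  have eup : up z = (8 * ch 1 z ^ 2 * (ch 1 z ^ 2 - 1)) * gA z * gB z ^ 2 := by
    unfold up gA gB
    rw [cx4]
    ring
  have eum : um z = (2 * gH z ^ 2) * gA z ^ 3 := by
    rw [eH]
    unfold um gA
    rw [cx4]
    ring
  have ipL : fX .L z + fY .L z = -16 * ch 1 z + 488 * ch 1 z ^ 3 - 5016 * ch 1 z ^ 5 + 22464 * ch 1 z ^ 7 - 50176 * ch 1 z ^ 9 + 58880 * ch 1 z ^ 11 - 34816 * ch 1 z ^ 13 + 8192 * ch 1 z ^ 15 := by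
    simp only [fX, fY, fXL, fYL, fXT, fYT, fXV, fYV, cx0, cx2, cx3, cx4, cx5, cx6, cx7, cx8, cx9, cx10, cx11, cx12, cx13, cx14, cx15, cx16]
    ring
  have imL : fX .L z - fY .L z = 2 * ch 1 z - 40 * ch 1 z ^ 3 - 24 * ch 1 z ^ 5 + 3648 * ch 1 z ^ 7 - 17408 * ch 1 z ^ 9 + 32256 * ch 1 z ^ 11 - 26624 * ch 1 z ^ 13 + 8192 * ch 1 z ^ 15 := by
    simp only [fX, fY, fXL, fYL, fXT, fYT, fXV, fYV, cx0, cx2, cx3, cx4, cx5, cx6, cx7, cx8, cx9, cx10, cx11, cx12, cx13, cx14, cx15, cx16]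
    ring
  have ipT : fX .T z + fY .T z = -16 * ch 1 z ^ 2 + 560 * ch 1 z ^ 4 - 4128 * ch 1 z ^ 6 + 12800 * ch 1 z ^ 8 - 19456 * ch 1 z ^ 10 + 14336 * ch 1 z ^ 12 - 4096 * ch 1 z ^ 14 := by
    simp only [fX, fY, fXL, fYL, fXT, fYT, fXV, fYV, cx0, cx2, cx3, cx4, cx5, cx6, cx7, cx8, cx9, cx10, cx11, cx12, cx13, cx14, cx15, cx16]
    ring
  have imT : fX .T z - fY .T z = -4 + 184 * ch 1 z ^ 2 - 2576 * ch 1 z ^ 4 + 14688 * ch 1 z ^ 6 - 40960 * ch 1 z ^ 8 + 59392 * ch 1 z ^ 10 - 43008 * ch 1 z ^ 12 + 12288 * ch 1 z ^ 14 := by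
    simp only [fX, fY, fXL, fYL, fXT, fYT, fXV, fYV, cx0, cx2, cx3, cx4, cx5, cx6, cx7, cx8, cx9, cx10, cx11, cx12, cx13, cx14, cx15, cx16]
    ring
  have hL : gA z ^ 2 * gB z ^ 2 * ch 1 z ^ 0 * gH z ^ 0 ≠ 0 := by positivity
  have v1 := X_L_T_u1 (ch 1 z) (gA z) (gB z) (gH z) eA eB eH hx0.ne' hx1 hA.ne' hB.ne' hH.ne'
  have v2 := X_L_T_u2 (ch 1 z) (gA z) (gB z) (gH z) eA eB eH hx0.ne' hx1 hA.ne' hB.ne' hH.ne'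
  have hM : Mc .L .T z = xb .L .T z - 1 / 2 * (((fX .L z + fY .L z) * (fX .T z + fY .T z) / up z) - ((fX .L z - fY .L z) * (fX .T z - fY .T z) / um z)) := by
    unfold Mc
    ring
  rw [ipL, ipT, imL, imT, eup, eum] at hM
  have t0 : ((ch 9 z - ch 7 z)) * (gA z ^ 2 * gB z ^ 2 * ch 1 z ^ 0 * gH z ^ 0) = ((ch 9 z - ch 7 z)) * (gA z ^ 2 * gB z ^ 2 * ch 1 z ^ 0 * gH z ^ 0) := by
    field_simp
  have t1 : ((2 * ch 8 z * (ch 5 z - ch 3 z)) * (ch 0 z / gA z) * (ch 0 z / gA z)) * (gA z ^ 2 * gB z ^ 2 * ch 1 z ^ 0 * gH z ^ 0) = ((2 * ch 8 z * (ch 5 z - ch 3 z)) * ch 0 z * ch 0 z) * (gA z ^ 0 * gB z ^ 2 * ch 1 z ^ 0 * gH z ^ 0) := by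
    field_simp
  have t2 : ((2 * ch 8 z * (ch 7 z - ch 5 z)) * (ch 0 z / gA z) * (ch 0 z / gA z)) * (gA z ^ 2 * gB z ^ 2 * ch 1 z ^ 0 * gH z ^ 0) = ((2 * ch 8 z * (ch 7 z - ch 5 z)) * ch 0 z * ch 0 z) * (gA z ^ 0 * gB z ^ 2 * ch 1 z ^ 0 * gH z ^ 0) := by
    field_simp
  have t3 : ((2 * ch 8 z * (ch 6 z - ch 4 z)) * (ch 0 z / gB z) * (ch 1 z / (gA z * gB z))) * (gA z ^ 2 * gB z ^ 2 * ch 1 z ^ 0 * gH z ^ 0) = ((2 * ch 8 z * (ch 6 z - ch 4 z)) * ch 0 z * ch 1 z) * (gA z ^ 1 * gB z ^ 0 * ch 1 z ^ 0 * gH z ^ 0) := by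
    field_simp
  have t4 : ((2 * ch 8 z * (ch 7 z - ch 5 z)) * (ch 0 z / gA z)) * (gA z ^ 2 * gB z ^ 2 * ch 1 z ^ 0 * gH z ^ 0) = ((2 * ch 8 z * (ch 7 z - ch 5 z)) * ch 0 z) * (gA z ^ 1 * gB z ^ 2 * ch 1 z ^ 0 * gH z ^ 0) := by
    field_simp
  have t5 : ((ch 7 z - ch 5 z)) * (gA z ^ 2 * gB z ^ 2 * ch 1 z ^ 0 * gH z ^ 0) = ((ch 7 z - ch 5 z)) * (gA z ^ 2 * gB z ^ 2 * ch 1 z ^ 0 * gH z ^ 0) := by
    field_simp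
  have t6 : ((ch 11 z - ch 9 z)) * (gA z ^ 2 * gB z ^ 2 * ch 1 z ^ 0 * gH z ^ 0) = ((ch 11 z - ch 9 z)) * (gA z ^ 2 * gB z ^ 2 * ch 1 z ^ 0 * gH z ^ 0) := by
    field_simp
  have t7 : ((2 * ch 8 z * (ch 5 z - ch 3 z)) * (ch 0 z / (gA z * gB z))) * (gA z ^ 2 * gB z ^ 2 * ch 1 z ^ 0 * gH z ^ 0) = ((2 * ch 8 z * (ch 5 z - ch 3 z)) * ch 0 z) * (gA z ^ 1 * gB z ^ 1 * ch 1 z ^ 0 * gH z ^ 0) := by
    field_simp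
  have t8 : ((2 * ch 8 z * (ch 5 z - ch 3 z))) * (gA z ^ 2 * gB z ^ 2 * ch 1 z ^ 0 * gH z ^ 0) = ((2 * ch 8 z * (ch 5 z - ch 3 z))) * (gA z ^ 2 * gB z ^ 2 * ch 1 z ^ 0 * gH z ^ 0) := by
    field_simp
  apply mul_right_cancel₀ hL
  have hp : 1 * (((ch 9 z - ch 7 z)) * (gA z ^ 2 * gB z ^ 2 * ch 1 z ^ 0 * gH z ^ 0)) + 1 / 8 * (((2 * ch 8 z * (ch 5 z - ch 3 z)) * ch 0 z * ch 0 z) * (gA z ^ 0 * gB z ^ 2 * ch 1 z ^ 0 * gH z ^ 0)) + 1 / 8 * (((2 * ch 8 z * (ch 7 z - ch 5 z)) * ch 0 z * ch 0 z) * (gA z ^ 0 * gB z ^ 2 * ch 1 z ^ 0 * gH z ^ 0)) + 1 / 2 * (((2 * ch 8 z * (ch 6 z - ch 4 z)) * ch 0 z * ch 1 z) * (gA z ^ 1 * gB z ^ 0 * ch 1 z ^ 0 * gH z ^ 0)) + 3 / 16 * (((2 * ch 8 z * (ch 7 z - ch 5 z)) * ch 0 z) * (gA z ^ 1 * gB z ^ 2 * ch 1 z ^ 0 * gH z ^ 0)) + 3 / 16 * (((ch 7 z - ch 5 z)) * (gA z ^ 2 *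 gB z ^ 2 * ch 1 z ^ 0 * gH z ^ 0)) + 13 / 16 * (((ch 11 z - ch 9 z)) * (gA z ^ 2 * gB z ^ 2 * ch 1 z ^ 0 * gH z ^ 0)) + 3 / 8 * (((2 * ch 8 z * (ch 5 z - ch 3 z)) * ch 0 z) * (gA z ^ 1 * gB z ^ 1 * ch 1 z ^ 0 * gH z ^ 0)) + 1 / 2 * (((2 * ch 8 z * (ch 5 z - ch 3 z))) * (gA z ^ 2 * gB z ^ 2 * ch 1 z ^ 0 * gH z ^ 0)) =
      (xb .L .T z) * (gA z ^ 2 * gB z ^ 2 * ch 1 z ^ 0 * gH z ^ 0) - 1 / 2 * ((-32 * ch 1 z + 1552 * ch 1 z ^ 3 - 25040 * ch 1 z ^ 5 + 197600 * ch 1 z ^ 7 - 895488 * ch 1 z ^ 9 + 2515456 * ch 1 z ^ 11 - 4526080 * ch 1 z ^ 13 + 5222400 * ch 1 z ^ 15 - 3735552 * ch 1 z ^ 17 + 1507328 * ch 1 z ^ 19 - 262144 * ch 1 z ^ 21) * (gA z ^ 2 * gB z ^ 0 * ch 1 z ^ 0 * gH z ^ 0) - (-4 * ch 1 z + 184 * ch 1 z ^ 3 - 2192 * ch 1 z ^ 5 - 3104 * ch 1 z ^ 7 + 212480 * ch 1 z ^ 9 - 1444352 * ch 1 z ^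 11 + 4501504 * ch 1 z ^ 13 - 7655424 * ch 1 z ^ 15 + 7340032 * ch 1 z ^ 17 - 3735552 * ch 1 z ^ 19 + 786432 * ch 1 z ^ 21) * (gA z ^ 0 * gB z ^ 2 * ch 1 z ^ 0 * gH z ^ 0)) := by
    rw [eA, eB, eH]
    simp only [xb, bb, xLT, xLS, xLV, xTS, xTV, xSV, bLT, bLS, bLV, bTS, bTV, bSS, bSV, bVV, gg, cx0, cx2, cx3, cx4, cx5, cx6, cx7, cx8, cx9, cx10, cx11, cx12, cx13, cx14, cx15, cx16]
    ring
  rw [hM]
  linear_combination (1) * t0 + (1 / 8) * t1 + (1 / 8) * t2 + (1 / 2) * t3 + (3 / 16) * t4 + (3 / 16) * t5 + (13 / 16) * t6 + (3 / 8) * t7 + (1 / 2) * t8 + hp + 1 / 2 * v1 - 1 / 2 * v2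

/-- **X_L_T** -/
theorem X_L_T : PK fun k => PP k * (Mc .L .T (zk k)) := by
  have h0 := ((gD4 (a := 7) (b := 9) (by norm_num) (by norm_num)).smul (c := 1) (by norm_num))
  have h1 := h0.add ((((gD2 (a := 3) (b := 5) (by norm_num) (by norm_num)).mul (mM (n := 0) (by norm_num))).mul (mM (n := 0) (by norm_num))).smul (c := 1 / 8) (by norm_num))
  have h2 := h1.add ((((gD2 (a := 5) (b := 7) (by norm_num) (by norm_num)).mul (mM (n := 0) (by norm_num))).mul (mM (n := 0) (by norm_num))).smul (c := 1 / 8) (by norm_num))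
  have h3 := h2.add ((((gD2 (a := 4) (b := 6) (by norm_num) (by norm_num)).mul (mP (n := 0) (by norm_num))).mul (mQ (n := 1) (by norm_num))).smul (c := 1 / 2) (by norm_num))
  have h4 := h3.add (((gD2 (a := 5) (b := 7) (by norm_num) (by norm_num)).mul (mM (n := 0) (by norm_num))).smul (c := 3 / 16) (by norm_num))
  have h5 := h4.add ((gD4 (a := 5) (b := 7) (by norm_num) (by norm_num)).smul (c := 3 / 16) (by norm_num))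
  have h6 := h5.add ((gD4 (a := 9) (b := 11) (by norm_num) (by norm_num)).smul (c := 13 / 16) (by norm_num))
  have h7 := h6.add (((gD2 (a := 3) (b := 5) (by norm_num) (by norm_num)).mul (mQ (n := 0) (by norm_num))).smul (c := 3 / 8) (by norm_num))
  have h8 := h7.add ((gD2 (a := 3) (b := 5) (by norm_num) (by norm_num)).smul (c := 1 / 2) (by norm_num))
  refine h8.congr fun k hk => ?_
  rw [← X_L_T_id (zk_pos hk)]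
  ring

end

end NUMH
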