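import Pool.Agent.NUO.GenX
import Pool.Agent.NUO.ChX

/-! certificate of the kernel `Mc .S .L z` (generated by genx.py, helper9) -/

set_option autoImplicit false
set_option linter.unusedSimpArgs false

namespace NUMH

open NUSB NUPosK

theorem X_S_L_poly (z : ℝ) :
    ((2 * xb .S .L z * up z * um z * gH z ^ 1 - (((fXS z + fYS z) * gH z - pS z) * (fXL z + fYL z) * um z - ((fXS z - fYS z) * gH z - pS z) * (fXL z - fYL z) * up z)) * gH z ^ 0 + (0) * (2 * up z * um z * gH z ^ 1)) * (gA z ^ 2 * gB z ^ 2 * gH z ^ 2) =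
      ((2 * up z * um z * gH z ^ 1) * gH z ^ 0) * (13/360 * ((ch 12 z - ch 10 z) * ch 0 z * (gA z ^ 1 * gB z ^ 2 * gH z ^ 2)) +
      241/720 * ((ch 6 z - ch 4 z) * (gA z ^ 2 * gB z ^ 2 * gH z ^ 2)) +
      1/40 * ((2 * ch 8 z * (ch 5 z - ch 3 z)) * ch 0 z * ch 0 z * ch 1 z * ch 0 z * (gA z ^ 2 * gB z ^ 0 * gH z ^ 0)) +
      67/360 * ((2 * ch 8 z * (ch 4 z - ch 2 z)) * ch 0 z * (gA z ^ 1 * gB z ^ 2 * gH z ^ 2)) +
      1/6 * ((2 * ch 8 z * ch 4 z * (ch 6 z - ch 4 z + ch 4 z - ch 2 z)) * ch 0 z * (gA z ^ 0 * gB z ^ 2 * gH z ^ 2)) +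
      437/1920 * ((2 * ch 8 z * (ch 2 z - ch 0 z)) * ch 0 z * ch 0 z * (gA z ^ 2 * gB z ^ 2 * gH z ^ 0)) +
      1/64 * ((ch 12 z - ch 10 z) * ch 0 z * ch 0 z * (gA z ^ 2 * gB z ^ 2 * gH z ^ 0)) +
      1/32 * ((2 * ch 8 z * (ch 4 z - ch 2 z)) * ch 0 z * ch 0 z * ch 0 z * ch 0 z * (gA z ^ 2 * gB z ^ 0 * gH z ^ 0)) +
      659/720 * ((ch 8 z - ch 6 z) * (gA z ^ 2 * gB z ^ 2 * gH z ^ 2)) +
      197/1440 * ((ch 12 z - ch 10 z) * (gA z ^ 2 * gB z ^ 2 * gH z ^ 2)) +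
      7/20 * ((2 * ch 8 z * (ch 6 z - ch 4 z)) * ch 0 z * ch 0 z * (gA z ^ 0 * gB z ^ 2 * gH z ^ 2)) +
      3/80 * ((2 * ch 8 z * (ch 4 z - ch 2 z)) * ch 0 z * ch 0 z * ch 0 z * (gA z ^ 2 * gB z ^ 0 * gH z ^ 1)) +
      7/1440 * ((ch 8 z - ch 6 z) * ch 0 z * (gA z ^ 2 * gB z ^ 2 * gH z ^ 1)) +
      17/40 * ((ch 10 z - ch 8 z) * ch 0 z * (gA z ^ 2 * gB z ^ 1 * gH z ^ 2)) +
      17/120 * ((4 * ch 8 z * ch 4 z * (ch 3 z - ch 1 z)) * ch 1 z * (gA z ^ 2 * gB z ^ 2 * gH z ^ 1)) +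
      401/1440 * ((4 * ch 8 z * ch 4 z * (ch 2 z - ch 0 z)) * (gA z ^ 2 * gB z ^ 2 * gH z ^ 2)) +
      23/288 * ((ch 14 z - ch 12 z) * (gA z ^ 2 * gB z ^ 2 * gH z ^ 2))) := by
  simp only [xb, fX, fY, fXL, fYL, fXT, fYT, fXS, fYS, fXV, fYV, bLT, bLS, bLV, bTS, bTV, xLT, xLS, xLV, xTS, xTV, xSV, bSS, bSV, bVV, gg, up, um, gA, gB, gH, pS, c0, c2, c3, c4, c5, c6, c7, c8, c9, c10, c11, c12, c13, c14, c15, c16]
  ring

theorem X_S_L_id {z : ℝ} (hz : 0 < z) : Mc .S .L z =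
      13/360 * ((ch 12 z - ch 10 z) * (ch 0 z / gA z)) +
      241/720 * ((ch 6 z - ch 4 z)) +
      1/40 * ((2 * ch 8 z * (ch 5 z - ch 3 z)) * (ch 0 z / gB z) * (ch 0 z / gB z) * (ch 1 z / gH z) * (ch 0 z / gH z)) +
      67/360 * ((2 * ch 8 z * (ch 4 z - ch 2 z)) * (ch 0 z / gA z)) +
      1/6 * ((2 * ch 8 z * ch 4 z * (ch 6 z - ch 4 z + ch 4 z - ch 2 z) / gA z) * (ch 0 z / gA z)) +
      437/1920 * ((2 * ch 8 z * (ch 2 z - ch 0 z)) * (ch 0 z / gH z) * (ch 0 z / gH z)) +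
      1/64 * ((ch 12 z - ch 10 z) * (ch 0 z / gH z) * (ch 0 z / gH z)) +
      1/32 * ((2 * ch 8 z * (ch 4 z - ch 2 z)) * (ch 0 z / gB z) * (ch 0 z / gB z) * (ch 0 z / gH z) * (ch 0 z / gH z)) +
      659/720 * ((ch 8 z - ch 6 z)) +
      197/1440 * ((ch 12 z - ch 10 z)) +
      7/20 * ((2 * ch 8 z * (ch 6 z - ch 4 z)) * (ch 0 z / gA z) * (ch 0 z / gA z)) +
      3/80 * ((2 * ch 8 z * (ch 4 z - ch 2 z)) * (ch 0 z / gB z) * (ch 0 z / gB z) * (ch 0 z / gH z)) +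
      7/1440 * ((ch 8 z - ch 6 z) * (ch 0 z / gH z)) +
      17/40 * ((ch 10 z - ch 8 z) * (ch 0 z / gB z)) +
      17/120 * ((4 * ch 8 z * ch 4 z * (ch 3 z - ch 1 z)) * (ch 1 z / gH z)) +
      401/1440 * ((4 * ch 8 z * ch 4 z * (ch 2 z - ch 0 z))) +
      23/288 * ((ch 14 z - ch 12 z)) := by
  have hA := (gA_pos z).ne'
  have hB := (gB_pos z).ne'
  have hH := (gH_pos z).ne'
  have hu := (up_pos hz).ne'
  have hv := (um_pos z).ne'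
  have hM : Mc .S .L z = (2 * xb .S .L z * up z * um z * gH z ^ 1 - (((fXS z + fYS z) * gH z - pS z) * (fXL z + fYL z) * um z - ((fXS z - fYS z) * gH z - pS z) * (fXL z - fYL z) * up z)) / (2 * up z * um z * gH z ^ 1) := by
    have hp : psi z = pS z / gH z := psi_eq z
    simp only [Mc, fX, fY, hp]
    generalize up z = u at *
    generalize um z = v at *
    generalize gH z = H at *
    field_simp
    ring
  have t0 : (ch 12 z - ch 10 z) * (ch 0 z / gA z) = ((ch 12 z - ch 10 z) * ch 0 z * (gA z ^ 1 * gB z ^ 2 * gH z ^ 2)) / (gA z ^ 2 * gB z ^ 2 * gH z ^ 2) := by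
    generalize gA z = A at *
    generalize gB z = B at *
    generalize gH z = H at *
    field_simp
  have t1 : (ch 6 z - ch 4 z) = ((ch 6 z - ch 4 z) * (gA z ^ 2 * gB z ^ 2 * gH z ^ 2)) / (gA z ^ 2 * gB z ^ 2 * gH z ^ 2) := by
    generalize gA z = A at *
    generalize gB z = B at *
    generalize gH z = H at *
    field_simp
  have t2 : (2 * ch 8 z * (ch 5 z - ch 3 z)) * (ch 0 z / gB z) * (ch 0 z / gB z) * (ch 1 z / gH z) * (ch 0 z / gH z) = ((2 * ch 8 z * (ch 5 z - ch 3 z)) * ch 0 z * ch 0 z * ch 1 z * ch 0 z * (gA z ^ 2 * gB z ^ 0 * gH z ^ 0)) / (gA z ^ 2 * gB z ^ 2 * gH z ^ 2) := by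
    generalize gA z = A at *
    generalize gB z = B at *
    generalize gH z = H at *
    field_simp
  have t3 : (2 * ch 8 z * (ch 4 z - ch 2 z)) * (ch 0 z / gA z) = ((2 * ch 8 z * (ch 4 z - ch 2 z)) * ch 0 z * (gA z ^ 1 * gB z ^ 2 * gH z ^ 2)) / (gA z ^ 2 * gB z ^ 2 * gH z ^ 2) := by
    generalize gA z = A at *
    generalize gB z = B at *
    generalize gH z = H at *
    field_simp
  have t4 : (2 * ch 8 z * ch 4 z * (ch 6 z - ch 4 z + ch 4 z - ch 2 z) / gA z) * (ch 0 z / gA z) = ((2 * ch 8 z * ch 4 z * (ch 6 z - ch 4 z + ch 4 z - ch 2 z)) * ch 0 z * (gA z ^ 0 * gB z ^ 2 * gH z ^ 2)) / (gA z ^ 2 * gB z ^ 2 * gH z ^ 2) := by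
    generalize gA z = A at *
    generalize gB z = B at *
    generalize gH z = H at *
    field_simp
  have t5 : (2 * ch 8 z * (ch 2 z - ch 0 z)) * (ch 0 z / gH z) * (ch 0 z / gH z) = ((2 * ch 8 z * (ch 2 z - ch 0 z)) * ch 0 z * ch 0 z * (gA z ^ 2 * gB z ^ 2 * gH z ^ 0)) / (gA z ^ 2 * gB z ^ 2 * gH z ^ 2) := by
    generalize gA z = A at *
    generalize gB z = B at *
    generalize gH z = H at *
    field_simp
  have t6 : (ch 12 z - ch 10 z) * (ch 0 z / gH z) * (ch 0 z / gH z) = ((ch 12 z - ch 10 z) * ch 0 z * ch 0 z * (gA z ^ 2 * gB z ^ 2 * gH z ^ 0)) / (gA z ^ 2 * gB z ^ 2 * gH z ^ 2) := by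
    generalize gA z = A at *
    generalize gB z = B at *
    generalize gH z = H at *
    field_simp
  have t7 : (2 * ch 8 z * (ch 4 z - ch 2 z)) * (ch 0 z / gB z) * (ch 0 z / gB z) * (ch 0 z / gH z) * (ch 0 z / gH z) = ((2 * ch 8 z * (ch 4 z - ch 2 z)) * ch 0 z * ch 0 z * ch 0 z * ch 0 z * (gA z ^ 2 * gB z ^ 0 * gH z ^ 0)) / (gA z ^ 2 * gB z ^ 2 * gH z ^ 2) := by
    generalize gA z = A at *
    generalize gB z = B at *
    generalize gH z = H at *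
    field_simp
  have t8 : (ch 8 z - ch 6 z) = ((ch 8 z - ch 6 z) * (gA z ^ 2 * gB z ^ 2 * gH z ^ 2)) / (gA z ^ 2 * gB z ^ 2 * gH z ^ 2) := by
    generalize gA z = A at *
    generalize gB z = B at *
    generalize gH z = H at *
    field_simp
  have t9 : (ch 12 z - ch 10 z) = ((ch 12 z - ch 10 z) * (gA z ^ 2 * gB z ^ 2 * gH z ^ 2)) / (gA z ^ 2 * gB z ^ 2 * gH z ^ 2) := by
    generalize gA z = A at *
    generalize gB z = B at *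
    generalize gH z = H at *
    field_simp
  have t10 : (2 * ch 8 z * (ch 6 z - ch 4 z)) * (ch 0 z / gA z) * (ch 0 z / gA z) = ((2 * ch 8 z * (ch 6 z - ch 4 z)) * ch 0 z * ch 0 z * (gA z ^ 0 * gB z ^ 2 * gH z ^ 2)) / (gA z ^ 2 * gB z ^ 2 * gH z ^ 2) := by
    generalize gA z = A at *
    generalize gB z = B at *
    generalize gH z = H at *
    field_simp
  have t11 : (2 * ch 8 z * (ch 4 z - ch 2 z)) * (ch 0 z / gB z) * (ch 0 z / gB z) * (ch 0 z / gH z) = ((2 * ch 8 z * (ch 4 z - ch 2 z)) * ch 0 z * ch 0 z * ch 0 z * (gA z ^ 2 * gB z ^ 0 * gH z ^ 1)) / (gA z ^ 2 * gB z ^ 2 * gH z ^ 2) := by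
    generalize gA z = A at *
    generalize gB z = B at *
    generalize gH z = H at *
    field_simp
  have t12 : (ch 8 z - ch 6 z) * (ch 0 z / gH z) = ((ch 8 z - ch 6 z) * ch 0 z * (gA z ^ 2 * gB z ^ 2 * gH z ^ 1)) / (gA z ^ 2 * gB z ^ 2 * gH z ^ 2) := by
    generalize gA z = A at *
    generalize gB z = B at *
    generalize gH z = H at *
    field_simp
  have t13 : (ch 10 z - ch 8 z) * (ch 0 z / gB z) = ((ch 10 z - ch 8 z) * ch 0 z * (gA z ^ 2 * gB z ^ 1 * gH z ^ 2)) / (gA z ^ 2 * gB z ^ 2 * gH z ^ 2) := by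
    generalize gA z = A at *
    generalize gB z = B at *
    generalize gH z = H at *
    field_simp
  have t14 : (4 * ch 8 z * ch 4 z * (ch 3 z - ch 1 z)) * (ch 1 z / gH z) = ((4 * ch 8 z * ch 4 z * (ch 3 z - ch 1 z)) * ch 1 z * (gA z ^ 2 * gB z ^ 2 * gH z ^ 1)) / (gA z ^ 2 * gB z ^ 2 * gH z ^ 2) := by
    generalize gA z = A at *
    generalize gB z = B at *
    generalize gH z = H at *
    field_simp
  have t15 : (4 * ch 8 z * ch 4 z * (ch 2 z - ch 0 z)) = ((4 * ch 8 z * ch 4 z * (ch 2 z - ch 0 z)) * (gA z ^ 2 * gB z ^ 2 * gH z ^ 2)) / (gA z ^ 2 * gB z ^ 2 * gH z ^ 2) := by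
    generalize gA z = A at *
    generalize gB z = B at *
    generalize gH z = H at *
    field_simp
  have t16 : (ch 14 z - ch 12 z) = ((ch 14 z - ch 12 z) * (gA z ^ 2 * gB z ^ 2 * gH z ^ 2)) / (gA z ^ 2 * gB z ^ 2 * gH z ^ 2) := by
    generalize gA z = A at *
    generalize gB z = B at *
    generalize gH z = H at *
    field_simp
  have hid := X_S_L_poly z
  have hD : (gA z ^ 2 * gB z ^ 2 * gH z ^ 2) ≠ 0 := by positivity
  have hE : (2 * up z * um z * gH z ^ 1) * gH z ^ 0 ≠ 0 := by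
    have := gH_pos z
    positivity
  have e1 : (2 * xb .S .L z * up z * um z * gH z ^ 1 - (((fXS z + fYS z) * gH z - pS z) * (fXL z + fYL z) * um z - ((fXS z - fYS z) * gH z - pS z) * (fXL z - fYL z) * up z)) / (2 * up z * um z * gH z ^ 1) = ((2 * xb .S .L z * up z * um z * gH z ^ 1 - (((fXS z + fYS z) * gH z - pS z) * (fXL z + fYL z) * um z - ((fXS z - fYS z) * gH z - pS z) * (fXL z - fYL z) * up z)) * gH z ^ 0 + (0) * (2 * up z * um z * gH z ^ 1)) / ((2 * up z * um z * gH z ^ 1) * gH z ^ 0) := by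
    generalize up z = u at *
    generalize um z = v at *
    generalize gH z = H at *
    field_simp
    ring
  have e2 : ((2 * xb .S .L z * up z * um z * gH z ^ 1 - (((fXS z + fYS z) * gH z - pS z) * (fXL z + fYL z) * um z - ((fXS z - fYS z) * gH z - pS z) * (fXL z - fYL z) * up z)) * gH z ^ 0 + (0) * (2 * up z * um z * gH z ^ 1)) / ((2 * up z * um z * gH z ^ 1) * gH z ^ 0) = (13/360 * ((ch 12 z - ch 10 z) * ch 0 z * (gA z ^ 1 * gB z ^ 2 * gH z ^ 2)) +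
      241/720 * ((ch 6 z - ch 4 z) * (gA z ^ 2 * gB z ^ 2 * gH z ^ 2)) +
      1/40 * ((2 * ch 8 z * (ch 5 z - ch 3 z)) * ch 0 z * ch 0 z * ch 1 z * ch 0 z * (gA z ^ 2 * gB z ^ 0 * gH z ^ 0)) +
      67/360 * ((2 * ch 8 z * (ch 4 z - ch 2 z)) * ch 0 z * (gA z ^ 1 * gB z ^ 2 * gH z ^ 2)) +
      1/6 * ((2 * ch 8 z * ch 4 z * (ch 6 z - ch 4 z + ch 4 z - ch 2 z)) * ch 0 z * (gA z ^ 0 * gB z ^ 2 * gH z ^ 2)) +
      437/1920 * ((2 * ch 8 z * (ch 2 z - ch 0 z)) * ch 0 z * ch 0 z * (gA z ^ 2 * gB z ^ 2 * gH z ^ 0)) +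
      1/64 * ((ch 12 z - ch 10 z) * ch 0 z * ch 0 z * (gA z ^ 2 * gB z ^ 2 * gH z ^ 0)) +
      1/32 * ((2 * ch 8 z * (ch 4 z - ch 2 z)) * ch 0 z * ch 0 z * ch 0 z * ch 0 z * (gA z ^ 2 * gB z ^ 0 * gH z ^ 0)) +
      659/720 * ((ch 8 z - ch 6 z) * (gA z ^ 2 * gB z ^ 2 * gH z ^ 2)) +
      197/1440 * ((ch 12 z - ch 10 z) * (gA z ^ 2 * gB z ^ 2 * gH z ^ 2)) +
      7/20 * ((2 * ch 8 z * (ch 6 z - ch 4 z)) * ch 0 z * ch 0 z * (gA z ^ 0 * gB z ^ 2 * gH z ^ 2)) +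
      3/80 * ((2 * ch 8 z * (ch 4 z - ch 2 z)) * ch 0 z * ch 0 z * ch 0 z * (gA z ^ 2 * gB z ^ 0 * gH z ^ 1)) +
      7/1440 * ((ch 8 z - ch 6 z) * ch 0 z * (gA z ^ 2 * gB z ^ 2 * gH z ^ 1)) +
      17/40 * ((ch 10 z - ch 8 z) * ch 0 z * (gA z ^ 2 * gB z ^ 1 * gH z ^ 2)) +
      17/120 * ((4 * ch 8 z * ch 4 z * (ch 3 z - ch 1 z)) * ch 1 z * (gA z ^ 2 * gB z ^ 2 * gH z ^ 1)) +
      401/1440 * ((4 * ch 8 z * ch 4 z * (ch 2 z - ch 0 z)) * (gA z ^ 2 * gB z ^ 2 * gH z ^ 2)) +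
      23/288 * ((ch 14 z - ch 12 z) * (gA z ^ 2 * gB z ^ 2 * gH z ^ 2))) / (gA z ^ 2 * gB z ^ 2 * gH z ^ 2) := by
    rw [div_eq_div_iff hE hD]
    rw [hid]
    ring
  rw [hM, e1, e2]
  have e3 : (13/360 * ((ch 12 z - ch 10 z) * ch 0 z * (gA z ^ 1 * gB z ^ 2 * gH z ^ 2)) +
      241/720 * ((ch 6 z - ch 4 z) * (gA z ^ 2 * gB z ^ 2 * gH z ^ 2)) +
      1/40 * ((2 * ch 8 z * (ch 5 z - ch 3 z)) * ch 0 z * ch 0 z * ch 1 z * ch 0 z * (gA z ^ 2 * gB z ^ 0 * gH z ^ 0)) +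
      67/360 * ((2 * ch 8 z * (ch 4 z - ch 2 z)) * ch 0 z * (gA z ^ 1 * gB z ^ 2 * gH z ^ 2)) +
      1/6 * ((2 * ch 8 z * ch 4 z * (ch 6 z - ch 4 z + ch 4 z - ch 2 z)) * ch 0 z * (gA z ^ 0 * gB z ^ 2 * gH z ^ 2)) +
      437/1920 * ((2 * ch 8 z * (ch 2 z - ch 0 z)) * ch 0 z * ch 0 z * (gA z ^ 2 * gB z ^ 2 * gH z ^ 0)) +
      1/64 * ((ch 12 z - ch 10 z) * ch 0 z * ch 0 z * (gA z ^ 2 * gB z ^ 2 * gH z ^ 0)) +
      1/32 * ((2 * ch 8 z * (ch 4 z - ch 2 z)) * ch 0 z * ch 0 z * ch 0 z * ch 0 z * (gA z ^ 2 * gB z ^ 0 * gH z ^ 0)) +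
      659/720 * ((ch 8 z - ch 6 z) * (gA z ^ 2 * gB z ^ 2 * gH z ^ 2)) +
      197/1440 * ((ch 12 z - ch 10 z) * (gA z ^ 2 * gB z ^ 2 * gH z ^ 2)) +
      7/20 * ((2 * ch 8 z * (ch 6 z - ch 4 z)) * ch 0 z * ch 0 z * (gA z ^ 0 * gB z ^ 2 * gH z ^ 2)) +
      3/80 * ((2 * ch 8 z * (ch 4 z - ch 2 z)) * ch 0 z * ch 0 z * ch 0 z * (gA z ^ 2 * gB z ^ 0 * gH z ^ 1)) +
      7/1440 * ((ch 8 z - ch 6 z) * ch 0 z * (gA z ^ 2 * gB z ^ 2 * gH z ^ 1)) +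
      17/40 * ((ch 10 z - ch 8 z) * ch 0 z * (gA z ^ 2 * gB z ^ 1 * gH z ^ 2)) +
      17/120 * ((4 * ch 8 z * ch 4 z * (ch 3 z - ch 1 z)) * ch 1 z * (gA z ^ 2 * gB z ^ 2 * gH z ^ 1)) +
      401/1440 * ((4 * ch 8 z * ch 4 z * (ch 2 z - ch 0 z)) * (gA z ^ 2 * gB z ^ 2 * gH z ^ 2)) +
      23/288 * ((ch 14 z - ch 12 z) * (gA z ^ 2 * gB z ^ 2 * gH z ^ 2))) / (gA z ^ 2 * gB z ^ 2 * gH z ^ 2) = 13/360 * (((ch 12 z - ch 10 z) * ch 0 z * (gA z ^ 1 * gB z ^ 2 * gH z ^ 2)) / (gA z ^ 2 * gB z ^ 2 * gH z ^ 2)) + 241/720 * (((ch 6 z - ch 4 z) * (gA z ^ 2 * gB z ^ 2 * gH z ^ 2)) / (gA z ^ 2 * gB z ^ 2 * gH z ^ 2)) + 1/40 * (((2 * ch 8 z * (ch 5 z - ch 3 z)) * ch 0 z * ch 0 z * ch 1 z * ch 0 z * (gA z ^ 2 * gB z ^ 0 * gH z ^ 0)) / (gA z ^ 2 * gB z ^ 2 * gH z ^ 2)) + 67/360 * (((2 * ch 8 z * (ch 4 z - ch 2 z)) * ch 0 z * (gA z ^ 1 * gB z ^ 2 * gH z ^ 2)) / (gA z ^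 2 * gB z ^ 2 * gH z ^ 2)) + 1/6 * (((2 * ch 8 z * ch 4 z * (ch 6 z - ch 4 z + ch 4 z - ch 2 z)) * ch 0 z * (gA z ^ 0 * gB z ^ 2 * gH z ^ 2)) / (gA z ^ 2 * gB z ^ 2 * gH z ^ 2)) + 437/1920 * (((2 * ch 8 z * (ch 2 z - ch 0 z)) * ch 0 z * ch 0 z * (gA z ^ 2 * gB z ^ 2 * gH z ^ 0)) / (gA z ^ 2 * gB z ^ 2 * gH z ^ 2)) + 1/64 * (((ch 12 z - ch 10 z) * ch 0 z * ch 0 z * (gA z ^ 2 * gB z ^ 2 * gH z ^ 0)) / (gA z ^ 2 * gB z ^ 2 * gH z ^ 2)) + 1/32 * (((2 * ch 8 z * (ch 4 z - ch 2 z)) * ch 0 z * ch 0 z * ch 0 z * ch 0 z * (gA z ^ 2 * gB z ^ 0 * gH z ^ 0)) / (gA z ^ 2 * gB z ^ 2 * gH z ^ 2)) + 659/720 * (((ch 8 z - ch 6 z) * (gA z ^ 2 * gB z ^ 2 * gH z ^ 2)) / (gA z ^ 2 * gB z ^ 2 * gH z ^ 2)) + 197/1440 * (((ch 12 z - ch 10 z) * (gA z ^ 2 * gB z ^ 2 * gH z ^ 2)) / (gA z ^ 2 * gB z ^ 2 * gH z ^ 2)) + 7/20 * (((2 * ch 8 z * (ch 6 z - ch 4 z)) * ch 0 z * ch 0 z *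 (gA z ^ 0 * gB z ^ 2 * gH z ^ 2)) / (gA z ^ 2 * gB z ^ 2 * gH z ^ 2)) + 3/80 * (((2 * ch 8 z * (ch 4 z - ch 2 z)) * ch 0 z * ch 0 z * ch 0 z * (gA z ^ 2 * gB z ^ 0 * gH z ^ 1)) / (gA z ^ 2 * gB z ^ 2 * gH z ^ 2)) + 7/1440 * (((ch 8 z - ch 6 z) * ch 0 z * (gA z ^ 2 * gB z ^ 2 * gH z ^ 1)) / (gA z ^ 2 * gB z ^ 2 * gH z ^ 2)) + 17/40 * (((ch 10 z - ch 8 z) * ch 0 z * (gA z ^ 2 * gB z ^ 1 * gH z ^ 2)) / (gA z ^ 2 * gB z ^ 2 * gH z ^ 2)) + 17/120 * (((4 * ch 8 z * ch 4 z * (ch 3 z - ch 1 z)) * ch 1 z * (gA z ^ 2 * gB z ^ 2 * gH z ^ 1)) / (gA z ^ 2 * gB z ^ 2 * gH z ^ 2)) + 401/1440 * (((4 * ch 8 z * ch 4 z * (ch 2 z - ch 0 z)) * (gA z ^ 2 * gB z ^ 2 * gH z ^ 2)) / (gA z ^ 2 * gB z ^ 2 * gH z ^ 2)) + 23/288 * (((ch 14 z - ch 12 z) * (gA z ^ 2 * gB z ^ 2 * gH z ^ 2)) / (gA z ^ 2 * gB z ^ 2 * gH z ^ 2)) := by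
    ring
  rw [e3]
  linear_combination - 13/360 * t0 - 241/720 * t1 - 1/40 * t2 - 67/360 * t3 - 1/6 * t4 - 437/1920 * t5 - 1/64 * t6 - 1/32 * t7 - 659/720 * t8 - 197/1440 * t9 - 7/20 * t10 - 3/80 * t11 - 7/1440 * t12 - 17/40 * t13 - 17/120 * t14 - 401/1440 * t15 - 23/288 * t16

theorem X_S_L : PK fun k => PP k * (Mc .S .L (zk k)) := by
  have g0 := ((gD4 (a := 10) (b := 12) (by norm_num) (by norm_num)).mul (mM (n := 0) (by norm_num))).smul (c := 13/360) (by norm_num)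
  have g1 := (gD4 (a := 4) (b := 6) (by norm_num) (by norm_num)).smul (c := 241/720) (by norm_num)
  have g2 := (((((gD2 (a := 3) (b := 5) (by norm_num) (by norm_num)).mul (mP (n := 0) (by norm_num))).mul (mP (n := 0) (by norm_num))).mul (mH (n := 1) (by norm_num))).mul (mH (n := 0) (by norm_num))).smul (c := 1/40) (by norm_num)
  have g3 := ((gD2 (a := 2) (b := 4) (by norm_num) (by norm_num)).mul (mM (n := 0) (by norm_num))).smul (c := 67/360) (by norm_num)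
  have g4 := ((gCm (a := 0) (b := 2) (by norm_num) (by norm_num)).mul (mM (n := 0) (by norm_num))).smul (c := 1/6) (by norm_num)
  have g5 := (((gD2 (a := 0) (b := 2) (by norm_num) (by norm_num)).mul (mH (n := 0) (by norm_num))).mul (mH (n := 0) (by norm_num))).smul (c := 437/1920) (by norm_num)
  have g6 := (((gD4 (a := 10) (b := 12) (by norm_num) (by norm_num)).mul (mH (n := 0) (by norm_num))).mul (mH (n := 0) (by norm_num))).smul (c := 1/64) (by norm_num)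
  have g7 := (((((gD2 (a := 2) (b := 4) (by norm_num) (by norm_num)).mul (mP (n := 0) (by norm_num))).mul (mP (n := 0) (by norm_num))).mul (mH (n := 0) (by norm_num))).mul (mH (n := 0) (by norm_num))).smul (c := 1/32) (by norm_num)
  have g8 := (gD4 (a := 6) (b := 8) (by norm_num) (by norm_num)).smul (c := 659/720) (by norm_num)
  have g9 := (gD4 (a := 10) (b := 12) (by norm_num) (by norm_num)).smul (c := 197/1440) (by norm_num)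
  have g10 := (((gD2 (a := 4) (b := 6) (by norm_num) (by norm_num)).mul (mM (n := 0) (by norm_num))).mul (mM (n := 0) (by norm_num))).smul (c := 7/20) (by norm_num)
  have g11 := ((((gD2 (a := 2) (b := 4) (by norm_num) (by norm_num)).mul (mP (n := 0) (by norm_num))).mul (mP (n := 0) (by norm_num))).mul (mH (n := 0) (by norm_num))).smul (c := 3/80) (by norm_num)
  have g12 := ((gD4 (a := 6) (b := 8) (by norm_num) (by norm_num)).mul (mH (n := 0) (by norm_num))).smul (c := 7/1440) (by norm_num)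
  have g13 := ((gD4 (a := 8) (b := 10) (by norm_num) (by norm_num)).mul (mP (n := 0) (by norm_num))).smul (c := 17/40) (by norm_num)
  have g14 := ((gD1 (a := 1) (b := 3) (by norm_num) (by norm_num)).mul (mH (n := 1) (by norm_num))).smul (c := 17/120) (by norm_num)
  have g15 := (gD1 (a := 0) (b := 2) (by norm_num) (by norm_num)).smul (c := 401/1440) (by norm_num)
  have g16 := (gD4 (a := 12) (b := 14) (by norm_num) (by norm_num)).smul (c := 23/288) (by norm_num)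
  refine ((g0.add (g1.add (g2.add (g3.add (g4.add (g5.add (g6.add (g7.add (g8.add (g9.add (g10.add (g11.add (g12.add (g13.add (g14.add (g15.add g16))))))))))))))))).congr fun k hk => ?_
  rw [X_S_L_id (zk_pos hk)]
  ring

end NUMH
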