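import Pool.Agent.NUO.GenX
import Pool.Agent.NUO.ChX

/-! certificate of the kernel `Mc .S .S z + gg z` (generated by genx.py, helper9) -/

set_option autoImplicit false
set_option linter.unusedSimpArgs false

namespace NUMH

open NUSB NUPosK

theorem X_S_S_poly (z : ℝ) :
    ((2 * xb .S .S z * up z * um z * gH z ^ 2 - (((fXS z + fYS z) * gH z - pS z) * ((fXS z + fYS z) * gH z - pS z) * um z - ((fXS z - fYS z) * gH z - pS z) * ((fXS z - fYS z) * gH z - pS z) * up z)) * gH z ^ 0 + (0 + gg z) * (2 * up z * um z * gH z ^ 2)) * (gA z ^ 3 * gB z ^ 2 * gH z ^ 4) =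
      ((2 * up z * um z * gH z ^ 2) * gH z ^ 0) * (12159467/12684600 * ((2 * ch 8 z * (ch 4 z - ch 2 z)) * ch 0 z * (gA z ^ 3 * gB z ^ 2 * gH z ^ 3)) +
      2583893/101476800 * ((4 * ch 8 z * ch 4 z * (ch 3 z - ch 1 z)) * ch 0 z * ch 1 z * ch 0 z * ch 0 z * ch 0 z * (gA z ^ 3 * gB z ^ 1 * gH z ^ 0)) +
      269591/5637600 * ((2 * ch 8 z * (ch 4 z - ch 2 z)) * ch 0 z * ch 0 z * ch 0 z * ch 0 z * ch 0 z * ch 0 z * (gA z ^ 2 * gB z ^ 0 * gH z ^ 0)) +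
      32/75 * ((2 * ch 8 z * ch 4 z * (ch 7 z - ch 5 z + ch 3 z - ch 1 z)) * ch 0 z * ch 3 z * ch 0 z * (gA z ^ 0 * gB z ^ 2 * gH z ^ 3)) +
      5862391/12684600 * ((ch 10 z - ch 8 z) * (gA z ^ 3 * gB z ^ 2 * gH z ^ 4)) +
      127051/1268460 * ((2 * ch 8 z * (ch 4 z - ch 2 z)) * ch 0 z * ch 0 z * ch 0 z * (gA z ^ 3 * gB z ^ 2 * gH z ^ 1)) +
      83/150 * ((2 * ch 8 z * (ch 4 z - ch 2 z)) * ch 0 z * ch 0 z * (gA z ^ 1 * gB z ^ 2 * gH z ^ 4)) +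
      48823/25369200 * ((4 * ch 8 z * ch 4 z * (ch 3 z - ch 1 z)) * ch 0 z * ch 0 z * ch 1 z * ch 0 z * ch 0 z * (gA z ^ 3 * gB z ^ 0 * gH z ^ 1)) +
      19/75 * ((2 * ch 8 z * ch 4 z * (ch 6 z - ch 4 z + ch 4 z - ch 2 z)) * ch 0 z * ch 0 z * ch 0 z * (gA z ^ 0 * gB z ^ 2 * gH z ^ 3)) +
      360239/101476800 * ((ch 6 z - ch 4 z) * ch 0 z * ch 0 z * ch 0 z * ch 0 z * ch 0 z * ch 0 z * (gA z ^ 3 * gB z ^ 0 * gH z ^ 0)) +
      370757/10147680 * ((2 * ch 8 z * (ch 4 z - ch 2 z)) * ch 0 z * ch 0 z * ch 0 z * ch 0 z * (gA z ^ 3 * gB z ^ 2 * gH z ^ 0)) +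
      4536407/6342300 * ((2 * ch 8 z * (ch 2 z - ch 0 z)) * (gA z ^ 3 * gB z ^ 2 * gH z ^ 4)) +
      5207513/12684600 * ((ch 10 z - ch 8 z) * ch 0 z * (gA z ^ 2 * gB z ^ 2 * gH z ^ 4)) +
      637/1305 * ((ch 4 z - ch 2 z) * ch 0 z * (gA z ^ 2 * gB z ^ 2 * gH z ^ 4)) +
      1649/5400 * ((4 * ch 8 z * ch 4 z * (ch 2 z - ch 0 z)) * ch 0 z * (gA z ^ 2 * gB z ^ 2 * gH z ^ 4)) +
      91/450 * ((ch 12 z - ch 10 z) * ch 0 z * ch 0 z * (gA z ^ 1 * gB z ^ 2 * gH z ^ 4)) +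
      31499/3382560 * ((4 * ch 8 z * ch 4 z * (ch 3 z - ch 1 z)) * ch 0 z * ch 0 z * ch 1 z * ch 0 z * ch 0 z * ch 0 z * (gA z ^ 3 * gB z ^ 0 * gH z ^ 0)) +
      448691/101476800 * ((ch 4 z - ch 2 z) * ch 0 z * ch 0 z * ch 0 z * ch 0 z * ch 0 z * ch 0 z * (gA z ^ 3 * gB z ^ 0 * gH z ^ 0)) +
      22924867/50738400 * ((2 * ch 8 z * (ch 4 z - ch 2 z)) * ch 0 z * ch 0 z * (gA z ^ 3 * gB z ^ 2 * gH z ^ 2))) := by
  simp only [xb, fX, fY, fXL, fYL, fXT, fYT, fXS, fYS, fXV, fYV, bLT, bLS, bLV, bTS, bTV, xLT, xLS, xLV, xTS, xTV, xSV, bSS, bSV, bVV, gg, up, um, gA, gB, gH, pS, c0, c2, c3, c4, c5, c6, c7, c8, c9, c10, c11, c12, c13, c14, c15, c16]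
  ring

theorem X_S_S_id {z : ℝ} (hz : 0 < z) : Mc .S .S z + gg z =
      12159467/12684600 * ((2 * ch 8 z * (ch 4 z - ch 2 z)) * (ch 0 z / gH z)) +
      2583893/101476800 * ((4 * ch 8 z * ch 4 z * (ch 3 z - ch 1 z)) * (ch 0 z / gB z) * (ch 1 z / gH z) * (ch 0 z / gH z) * (ch 0 z / gH z) * (ch 0 z / gH z)) +
      269591/5637600 * ((2 * ch 8 z * (ch 4 z - ch 2 z)) * (ch 0 z / gB z) * (ch 0 z / (gA z * gB z)) * (ch 0 z / gH z) * (ch 0 z / gH z) * (ch 0 z / gH z) * (ch 0 z / gH z)) +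
      32/75 * ((2 * ch 8 z * ch 4 z * (ch 7 z - ch 5 z + ch 3 z - ch 1 z) / gA z) * (ch 0 z / gA z) * (ch 3 z / gA z) * (ch 0 z / gH z)) +
      5862391/12684600 * ((ch 10 z - ch 8 z)) +
      127051/1268460 * ((2 * ch 8 z * (ch 4 z - ch 2 z)) * (ch 0 z / gH z) * (ch 0 z / gH z) * (ch 0 z / gH z)) +
      83/150 * ((2 * ch 8 z * (ch 4 z - ch 2 z)) * (ch 0 z / gA z) * (ch 0 z / gA z)) +
      48823/25369200 * ((4 * ch 8 z * ch 4 z * (ch 3 z - ch 1 z)) * (ch 0 z / gB z) * (ch 0 z / gB z) * (ch 1 z / gH z) * (ch 0 z / gH z) * (ch 0 z / gH z)) +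
      19/75 * ((2 * ch 8 z * ch 4 z * (ch 6 z - ch 4 z + ch 4 z - ch 2 z) / gA z) * (ch 0 z / gA z) * (ch 0 z / gA z) * (ch 0 z / gH z)) +
      360239/101476800 * ((ch 6 z - ch 4 z) * (ch 0 z / gB z) * (ch 0 z / gB z) * (ch 0 z / gH z) * (ch 0 z / gH z) * (ch 0 z / gH z) * (ch 0 z / gH z)) +
      370757/10147680 * ((2 * ch 8 z * (ch 4 z - ch 2 z)) * (ch 0 z / gH z) * (ch 0 z / gH z) * (ch 0 z / gH z) * (ch 0 z / gH z)) +
      4536407/6342300 * ((2 * ch 8 z * (ch 2 z - ch 0 z))) +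
      5207513/12684600 * ((ch 10 z - ch 8 z) * (ch 0 z / gA z)) +
      637/1305 * ((ch 4 z - ch 2 z) * (ch 0 z / gA z)) +
      1649/5400 * ((4 * ch 8 z * ch 4 z * (ch 2 z - ch 0 z)) * (ch 0 z / gA z)) +
      91/450 * ((ch 12 z - ch 10 z) * (ch 0 z / gA z) * (ch 0 z / gA z)) +
      31499/3382560 * ((4 * ch 8 z * ch 4 z * (ch 3 z - ch 1 z)) * (ch 0 z / gB z) * (ch 0 z / gB z) * (ch 1 z / gH z) * (ch 0 z / gH z) * (ch 0 z / gH z) * (ch 0 z / gH z)) +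
      448691/101476800 * ((ch 4 z - ch 2 z) * (ch 0 z / gB z) * (ch 0 z / gB z) * (ch 0 z / gH z) * (ch 0 z / gH z) * (ch 0 z / gH z) * (ch 0 z / gH z)) +
      22924867/50738400 * ((2 * ch 8 z * (ch 4 z - ch 2 z)) * (ch 0 z / gH z) * (ch 0 z / gH z)) := by
  have hA := (gA_pos z).ne'
  have hB := (gB_pos z).ne'
  have hH := (gH_pos z).ne'
  have hu := (up_pos hz).ne'
  have hv := (um_pos z).ne'
  have hM : Mc .S .S z = (2 * xb .S .S z * up z * um z * gH z ^ 2 - (((fXS z + fYS z) * gH z - pS z) * ((fXS z + fYS z) * gH z - pS z) * um z - ((fXS z - fYS z) * gH z - pS z) * ((fXS z - fYS z) * gH z - pS z) * up z)) / (2 * up z * um z * gH z ^ 2) := by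
    have hp : psi z = pS z / gH z := psi_eq z
    simp only [Mc, fX, fY, hp]
    generalize up z = u at *
    generalize um z = v at *
    generalize gH z = H at *
    field_simp <;> ring
  have t0 : (2 * ch 8 z * (ch 4 z - ch 2 z)) * (ch 0 z / gH z) = ((2 * ch 8 z * (ch 4 z - ch 2 z)) * ch 0 z * (gA z ^ 3 * gB z ^ 2 * gH z ^ 3)) / (gA z ^ 3 * gB z ^ 2 * gH z ^ 4) := by
    generalize gA z = A at *
    generalize gB z = B at *
    generalize gH z = H at *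
    field_simp
  have t1 : (4 * ch 8 z * ch 4 z * (ch 3 z - ch 1 z)) * (ch 0 z / gB z) * (ch 1 z / gH z) * (ch 0 z / gH z) * (ch 0 z / gH z) * (ch 0 z / gH z) = ((4 * ch 8 z * ch 4 z * (ch 3 z - ch 1 z)) * ch 0 z * ch 1 z * ch 0 z * ch 0 z * ch 0 z * (gA z ^ 3 * gB z ^ 1 * gH z ^ 0)) / (gA z ^ 3 * gB z ^ 2 * gH z ^ 4) := by
    generalize gA z = A at *
    generalize gB z = B at *
    generalize gH z = H at *
    field_simp
  have t2 : (2 * ch 8 z * (ch 4 z - ch 2 z)) * (ch 0 z / gB z) * (ch 0 z / (gA z * gB z)) * (ch 0 z / gH z) * (ch 0 z / gH z) * (ch 0 z / gH z) * (ch 0 z / gH z) = ((2 * ch 8 z * (ch 4 z - ch 2 z)) * ch 0 z * ch 0 z * ch 0 z * ch 0 z * ch 0 z * ch 0 z * (gA z ^ 2 * gB z ^ 0 * gH z ^ 0)) / (gA z ^ 3 * gB z ^ 2 * gH z ^ 4) := by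
    generalize gA z = A at *
    generalize gB z = B at *
    generalize gH z = H at *
    field_simp
  have t3 : (2 * ch 8 z * ch 4 z * (ch 7 z - ch 5 z + ch 3 z - ch 1 z) / gA z) * (ch 0 z / gA z) * (ch 3 z / gA z) * (ch 0 z / gH z) = ((2 * ch 8 z * ch 4 z * (ch 7 z - ch 5 z + ch 3 z - ch 1 z)) * ch 0 z * ch 3 z * ch 0 z * (gA z ^ 0 * gB z ^ 2 * gH z ^ 3)) / (gA z ^ 3 * gB z ^ 2 * gH z ^ 4) := by
    generalize gA z = A at *
    generalize gB z = B at *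
    generalize gH z = H at *
    field_simp
  have t4 : (ch 10 z - ch 8 z) = ((ch 10 z - ch 8 z) * (gA z ^ 3 * gB z ^ 2 * gH z ^ 4)) / (gA z ^ 3 * gB z ^ 2 * gH z ^ 4) := by
    generalize gA z = A at *
    generalize gB z = B at *
    generalize gH z = H at *
    field_simp
  have t5 : (2 * ch 8 z * (ch 4 z - ch 2 z)) * (ch 0 z / gH z) * (ch 0 z / gH z) * (ch 0 z / gH z) = ((2 * ch 8 z * (ch 4 z - ch 2 z)) * ch 0 z * ch 0 z * ch 0 z * (gA z ^ 3 * gB z ^ 2 * gH z ^ 1)) / (gA z ^ 3 * gB z ^ 2 * gH z ^ 4) := by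
    generalize gA z = A at *
    generalize gB z = B at *
    generalize gH z = H at *
    field_simp
  have t6 : (2 * ch 8 z * (ch 4 z - ch 2 z)) * (ch 0 z / gA z) * (ch 0 z / gA z) = ((2 * ch 8 z * (ch 4 z - ch 2 z)) * ch 0 z * ch 0 z * (gA z ^ 1 * gB z ^ 2 * gH z ^ 4)) / (gA z ^ 3 * gB z ^ 2 * gH z ^ 4) := by
    generalize gA z = A at *
    generalize gB z = B at *
    generalize gH z = H at *
    field_simp
  have t7 : (4 * ch 8 z * ch 4 z * (ch 3 z - ch 1 z)) * (ch 0 z / gB z) * (ch 0 z / gB z) * (ch 1 z / gH z) * (ch 0 z / gH z) * (ch 0 z / gH z) = ((4 * ch 8 z * ch 4 z * (ch 3 z - ch 1 z)) * ch 0 z * ch 0 z * ch 1 z * ch 0 z * ch 0 z * (gA z ^ 3 * gB z ^ 0 * gH z ^ 1)) / (gA z ^ 3 * gB z ^ 2 * gH z ^ 4) := by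
    generalize gA z = A at *
    generalize gB z = B at *
    generalize gH z = H at *
    field_simp
  have t8 : (2 * ch 8 z * ch 4 z * (ch 6 z - ch 4 z + ch 4 z - ch 2 z) / gA z) * (ch 0 z / gA z) * (ch 0 z / gA z) * (ch 0 z / gH z) = ((2 * ch 8 z * ch 4 z * (ch 6 z - ch 4 z + ch 4 z - ch 2 z)) * ch 0 z * ch 0 z * ch 0 z * (gA z ^ 0 * gB z ^ 2 * gH z ^ 3)) / (gA z ^ 3 * gB z ^ 2 * gH z ^ 4) := by
    generalize gA z = A at *
    generalize gB z = B at *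
    generalize gH z = H at *
    field_simp
  have t9 : (ch 6 z - ch 4 z) * (ch 0 z / gB z) * (ch 0 z / gB z) * (ch 0 z / gH z) * (ch 0 z / gH z) * (ch 0 z / gH z) * (ch 0 z / gH z) = ((ch 6 z - ch 4 z) * ch 0 z * ch 0 z * ch 0 z * ch 0 z * ch 0 z * ch 0 z * (gA z ^ 3 * gB z ^ 0 * gH z ^ 0)) / (gA z ^ 3 * gB z ^ 2 * gH z ^ 4) := by
    generalize gA z = A at *
    generalize gB z = B at *
    generalize gH z = H at *
    field_simp
  have t10 : (2 * ch 8 z * (ch 4 z - ch 2 z)) * (ch 0 z / gH z) * (ch 0 z / gH z) * (ch 0 z / gH z) * (ch 0 z / gH z) = ((2 * ch 8 z * (ch 4 z - ch 2 z)) * ch 0 z * ch 0 z * ch 0 z * ch 0 z * (gA z ^ 3 * gB z ^ 2 * gH z ^ 0)) / (gA z ^ 3 * gB z ^ 2 * gH z ^ 4) := by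
    generalize gA z = A at *
    generalize gB z = B at *
    generalize gH z = H at *
    field_simp
  have t11 : (2 * ch 8 z * (ch 2 z - ch 0 z)) = ((2 * ch 8 z * (ch 2 z - ch 0 z)) * (gA z ^ 3 * gB z ^ 2 * gH z ^ 4)) / (gA z ^ 3 * gB z ^ 2 * gH z ^ 4) := by
    generalize gA z = A at *
    generalize gB z = B at *
    generalize gH z = H at *
    field_simp
  have t12 : (ch 10 z - ch 8 z) * (ch 0 z / gA z) = ((ch 10 z - ch 8 z) * ch 0 z * (gA z ^ 2 * gB z ^ 2 * gH z ^ 4)) / (gA z ^ 3 * gB z ^ 2 * gH z ^ 4) := by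
    generalize gA z = A at *
    generalize gB z = B at *
    generalize gH z = H at *
    field_simp
  have t13 : (ch 4 z - ch 2 z) * (ch 0 z / gA z) = ((ch 4 z - ch 2 z) * ch 0 z * (gA z ^ 2 * gB z ^ 2 * gH z ^ 4)) / (gA z ^ 3 * gB z ^ 2 * gH z ^ 4) := by
    generalize gA z = A at *
    generalize gB z = B at *
    generalize gH z = H at *
    field_simp
  have t14 : (4 * ch 8 z * ch 4 z * (ch 2 z - ch 0 z)) * (ch 0 z / gA z) = ((4 * ch 8 z * ch 4 z * (ch 2 z - ch 0 z)) * ch 0 z * (gA z ^ 2 * gB z ^ 2 * gH z ^ 4)) / (gA z ^ 3 * gB z ^ 2 * gH z ^ 4) := by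
    generalize gA z = A at *
    generalize gB z = B at *
    generalize gH z = H at *
    field_simp
  have t15 : (ch 12 z - ch 10 z) * (ch 0 z / gA z) * (ch 0 z / gA z) = ((ch 12 z - ch 10 z) * ch 0 z * ch 0 z * (gA z ^ 1 * gB z ^ 2 * gH z ^ 4)) / (gA z ^ 3 * gB z ^ 2 * gH z ^ 4) := by
    generalize gA z = A at *
    generalize gB z = B at *
    generalize gH z = H at *
    field_simp
  have t16 : (4 * ch 8 z * ch 4 z * (ch 3 z - ch 1 z)) * (ch 0 z / gB z) * (ch 0 z / gB z) * (ch 1 z / gH z) * (ch 0 z / gH z) * (ch 0 z / gH z) * (ch 0 z / gH z) = ((4 * ch 8 z * ch 4 z * (ch 3 z - ch 1 z)) * ch 0 z * ch 0 z * ch 1 z * ch 0 z * ch 0 z * ch 0 z * (gA z ^ 3 * gB z ^ 0 * gH z ^ 0)) / (gA z ^ 3 * gB z ^ 2 * gH z ^ 4) := by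
    generalize gA z = A at *
    generalize gB z = B at *
    generalize gH z = H at *
    field_simp
  have t17 : (ch 4 z - ch 2 z) * (ch 0 z / gB z) * (ch 0 z / gB z) * (ch 0 z / gH z) * (ch 0 z / gH z) * (ch 0 z / gH z) * (ch 0 z / gH z) = ((ch 4 z - ch 2 z) * ch 0 z * ch 0 z * ch 0 z * ch 0 z * ch 0 z * ch 0 z * (gA z ^ 3 * gB z ^ 0 * gH z ^ 0)) / (gA z ^ 3 * gB z ^ 2 * gH z ^ 4) := by
    generalize gA z = A at *
    generalize gB z = B at *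
    generalize gH z = H at *
    field_simp
  have t18 : (2 * ch 8 z * (ch 4 z - ch 2 z)) * (ch 0 z / gH z) * (ch 0 z / gH z) = ((2 * ch 8 z * (ch 4 z - ch 2 z)) * ch 0 z * ch 0 z * (gA z ^ 3 * gB z ^ 2 * gH z ^ 2)) / (gA z ^ 3 * gB z ^ 2 * gH z ^ 4) := by
    generalize gA z = A at *
    generalize gB z = B at *
    generalize gH z = H at *
    field_simp
  have hid := X_S_S_poly z
  have hD : (gA z ^ 3 * gB z ^ 2 * gH z ^ 4) ≠ 0 := by positivity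
  have hE : (2 * up z * um z * gH z ^ 2) * gH z ^ 0 ≠ 0 := by
    have := gH_pos z
    positivity
  have e1 : (2 * xb .S .S z * up z * um z * gH z ^ 2 - (((fXS z + fYS z) * gH z - pS z) * ((fXS z + fYS z) * gH z - pS z) * um z - ((fXS z - fYS z) * gH z - pS z) * ((fXS z - fYS z) * gH z - pS z) * up z)) / (2 * up z * um z * gH z ^ 2) + gg z = ((2 * xb .S .S z * up z * um z * gH z ^ 2 - (((fXS z + fYS z) * gH z - pS z) * ((fXS z + fYS z) * gH z - pS z) * um z - ((fXS z - fYS z) * gH z - pS z) * ((fXS z - fYS z) * gH z - pS z) * up z)) * gH z ^ 0 + (0 + gg z) * (2 * up z * um z * gH z ^ 2)) / ((2 * up z * um z * gH z ^ 2) * gH z ^ 0) := by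
    generalize up z = u at *
    generalize um z = v at *
    generalize gH z = H at *
    field_simp <;> ring
  have e2 : ((2 * xb .S .S z * up z * um z * gH z ^ 2 - (((fXS z + fYS z) * gH z - pS z) * ((fXS z + fYS z) * gH z - pS z) * um z - ((fXS z - fYS z) * gH z - pS z) * ((fXS z - fYS z) * gH z - pS z) * up z)) * gH z ^ 0 + (0 + gg z) * (2 * up z * um z * gH z ^ 2)) / ((2 * up z * um z * gH z ^ 2) * gH z ^ 0) = (12159467/12684600 * ((2 * ch 8 z * (ch 4 z - ch 2 z)) * ch 0 z * (gA z ^ 3 * gB z ^ 2 * gH z ^ 3)) +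
      2583893/101476800 * ((4 * ch 8 z * ch 4 z * (ch 3 z - ch 1 z)) * ch 0 z * ch 1 z * ch 0 z * ch 0 z * ch 0 z * (gA z ^ 3 * gB z ^ 1 * gH z ^ 0)) +
      269591/5637600 * ((2 * ch 8 z * (ch 4 z - ch 2 z)) * ch 0 z * ch 0 z * ch 0 z * ch 0 z * ch 0 z * ch 0 z * (gA z ^ 2 * gB z ^ 0 * gH z ^ 0)) +
      32/75 * ((2 * ch 8 z * ch 4 z * (ch 7 z - ch 5 z + ch 3 z - ch 1 z)) * ch 0 z * ch 3 z * ch 0 z * (gA z ^ 0 * gB z ^ 2 * gH z ^ 3)) +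
      5862391/12684600 * ((ch 10 z - ch 8 z) * (gA z ^ 3 * gB z ^ 2 * gH z ^ 4)) +
      127051/1268460 * ((2 * ch 8 z * (ch 4 z - ch 2 z)) * ch 0 z * ch 0 z * ch 0 z * (gA z ^ 3 * gB z ^ 2 * gH z ^ 1)) +
      83/150 * ((2 * ch 8 z * (ch 4 z - ch 2 z)) * ch 0 z * ch 0 z * (gA z ^ 1 * gB z ^ 2 * gH z ^ 4)) +
      48823/25369200 * ((4 * ch 8 z * ch 4 z * (ch 3 z - ch 1 z)) * ch 0 z * ch 0 z * ch 1 z * ch 0 z * ch 0 z * (gA z ^ 3 * gB z ^ 0 * gH z ^ 1)) +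
      19/75 * ((2 * ch 8 z * ch 4 z * (ch 6 z - ch 4 z + ch 4 z - ch 2 z)) * ch 0 z * ch 0 z * ch 0 z * (gA z ^ 0 * gB z ^ 2 * gH z ^ 3)) +
      360239/101476800 * ((ch 6 z - ch 4 z) * ch 0 z * ch 0 z * ch 0 z * ch 0 z * ch 0 z * ch 0 z * (gA z ^ 3 * gB z ^ 0 * gH z ^ 0)) +
      370757/10147680 * ((2 * ch 8 z * (ch 4 z - ch 2 z)) * ch 0 z * ch 0 z * ch 0 z * ch 0 z * (gA z ^ 3 * gB z ^ 2 * gH z ^ 0)) +
      4536407/6342300 * ((2 * ch 8 z * (ch 2 z - ch 0 z)) * (gA z ^ 3 * gB z ^ 2 * gH z ^ 4)) +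
      5207513/12684600 * ((ch 10 z - ch 8 z) * ch 0 z * (gA z ^ 2 * gB z ^ 2 * gH z ^ 4)) +
      637/1305 * ((ch 4 z - ch 2 z) * ch 0 z * (gA z ^ 2 * gB z ^ 2 * gH z ^ 4)) +
      1649/5400 * ((4 * ch 8 z * ch 4 z * (ch 2 z - ch 0 z)) * ch 0 z * (gA z ^ 2 * gB z ^ 2 * gH z ^ 4)) +
      91/450 * ((ch 12 z - ch 10 z) * ch 0 z * ch 0 z * (gA z ^ 1 * gB z ^ 2 * gH z ^ 4)) +
      31499/3382560 * ((4 * ch 8 z * ch 4 z * (ch 3 z - ch 1 z)) * ch 0 z * ch 0 z * ch 1 z * ch 0 z * ch 0 z * ch 0 z * (gA z ^ 3 * gB z ^ 0 * gH z ^ 0)) +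
      448691/101476800 * ((ch 4 z - ch 2 z) * ch 0 z * ch 0 z * ch 0 z * ch 0 z * ch 0 z * ch 0 z * (gA z ^ 3 * gB z ^ 0 * gH z ^ 0)) +
      22924867/50738400 * ((2 * ch 8 z * (ch 4 z - ch 2 z)) * ch 0 z * ch 0 z * (gA z ^ 3 * gB z ^ 2 * gH z ^ 2))) / (gA z ^ 3 * gB z ^ 2 * gH z ^ 4) := by
    rw [div_eq_div_iff hE hD]
    rw [hid]
    ring
  rw [hM, e1, e2]
  have e3 : (12159467/12684600 * ((2 * ch 8 z * (ch 4 z - ch 2 z)) * ch 0 z * (gA z ^ 3 * gB z ^ 2 * gH z ^ 3)) +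
      2583893/101476800 * ((4 * ch 8 z * ch 4 z * (ch 3 z - ch 1 z)) * ch 0 z * ch 1 z * ch 0 z * ch 0 z * ch 0 z * (gA z ^ 3 * gB z ^ 1 * gH z ^ 0)) +
      269591/5637600 * ((2 * ch 8 z * (ch 4 z - ch 2 z)) * ch 0 z * ch 0 z * ch 0 z * ch 0 z * ch 0 z * ch 0 z * (gA z ^ 2 * gB z ^ 0 * gH z ^ 0)) +
      32/75 * ((2 * ch 8 z * ch 4 z * (ch 7 z - ch 5 z + ch 3 z - ch 1 z)) * ch 0 z * ch 3 z * ch 0 z * (gA z ^ 0 * gB z ^ 2 * gH z ^ 3)) +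
      5862391/12684600 * ((ch 10 z - ch 8 z) * (gA z ^ 3 * gB z ^ 2 * gH z ^ 4)) +
      127051/1268460 * ((2 * ch 8 z * (ch 4 z - ch 2 z)) * ch 0 z * ch 0 z * ch 0 z * (gA z ^ 3 * gB z ^ 2 * gH z ^ 1)) +
      83/150 * ((2 * ch 8 z * (ch 4 z - ch 2 z)) * ch 0 z * ch 0 z * (gA z ^ 1 * gB z ^ 2 * gH z ^ 4)) +
      48823/25369200 * ((4 * ch 8 z * ch 4 z * (ch 3 z - ch 1 z)) * ch 0 z * ch 0 z * ch 1 z * ch 0 z * ch 0 z * (gA z ^ 3 * gB z ^ 0 * gH z ^ 1)) +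
      19/75 * ((2 * ch 8 z * ch 4 z * (ch 6 z - ch 4 z + ch 4 z - ch 2 z)) * ch 0 z * ch 0 z * ch 0 z * (gA z ^ 0 * gB z ^ 2 * gH z ^ 3)) +
      360239/101476800 * ((ch 6 z - ch 4 z) * ch 0 z * ch 0 z * ch 0 z * ch 0 z * ch 0 z * ch 0 z * (gA z ^ 3 * gB z ^ 0 * gH z ^ 0)) +
      370757/10147680 * ((2 * ch 8 z * (ch 4 z - ch 2 z)) * ch 0 z * ch 0 z * ch 0 z * ch 0 z * (gA z ^ 3 * gB z ^ 2 * gH z ^ 0)) +
      4536407/6342300 * ((2 * ch 8 z * (ch 2 z - ch 0 z)) * (gA z ^ 3 * gB z ^ 2 * gH z ^ 4)) +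
      5207513/12684600 * ((ch 10 z - ch 8 z) * ch 0 z * (gA z ^ 2 * gB z ^ 2 * gH z ^ 4)) +
      637/1305 * ((ch 4 z - ch 2 z) * ch 0 z * (gA z ^ 2 * gB z ^ 2 * gH z ^ 4)) +
      1649/5400 * ((4 * ch 8 z * ch 4 z * (ch 2 z - ch 0 z)) * ch 0 z * (gA z ^ 2 * gB z ^ 2 * gH z ^ 4)) +
      91/450 * ((ch 12 z - ch 10 z) * ch 0 z * ch 0 z * (gA z ^ 1 * gB z ^ 2 * gH z ^ 4)) +
      31499/3382560 * ((4 * ch 8 z * ch 4 z * (ch 3 z - ch 1 z)) * ch 0 z * ch 0 z * ch 1 z * ch 0 z * ch 0 z * ch 0 z * (gA z ^ 3 * gB z ^ 0 * gH z ^ 0)) +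
      448691/101476800 * ((ch 4 z - ch 2 z) * ch 0 z * ch 0 z * ch 0 z * ch 0 z * ch 0 z * ch 0 z * (gA z ^ 3 * gB z ^ 0 * gH z ^ 0)) +
      22924867/50738400 * ((2 * ch 8 z * (ch 4 z - ch 2 z)) * ch 0 z * ch 0 z * (gA z ^ 3 * gB z ^ 2 * gH z ^ 2))) / (gA z ^ 3 * gB z ^ 2 * gH z ^ 4) = 12159467/12684600 * (((2 * ch 8 z * (ch 4 z - ch 2 z)) * ch 0 z * (gA z ^ 3 * gB z ^ 2 * gH z ^ 3)) / (gA z ^ 3 * gB z ^ 2 * gH z ^ 4)) + 2583893/101476800 * (((4 * ch 8 z * ch 4 z * (ch 3 z - ch 1 z)) * ch 0 z * ch 1 z * ch 0 z * ch 0 z * ch 0 z * (gA z ^ 3 * gB z ^ 1 * gH z ^ 0)) / (gA z ^ 3 * gB z ^ 2 * gH z ^ 4)) + 269591/5637600 * (((2 * ch 8 z * (ch 4 z - ch 2 z)) * ch 0 z * ch 0 z * ch 0 z * ch 0 z * ch 0 z * ch 0 z * (gA z ^ 2 * gB z ^ 0 * gH z ^ 0)) / (gA z ^ 3 * gB z ^ 2 * gH z ^ 4)) + 32/75 * (((2 * ch 8 z * ch 4 z * (ch 7 z - ch 5 z + ch 3 z - ch 1 z)) * ch 0 z * ch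 3 z * ch 0 z * (gA z ^ 0 * gB z ^ 2 * gH z ^ 3)) / (gA z ^ 3 * gB z ^ 2 * gH z ^ 4)) + 5862391/12684600 * (((ch 10 z - ch 8 z) * (gA z ^ 3 * gB z ^ 2 * gH z ^ 4)) / (gA z ^ 3 * gB z ^ 2 * gH z ^ 4)) + 127051/1268460 * (((2 * ch 8 z * (ch 4 z - ch 2 z)) * ch 0 z * ch 0 z * ch 0 z * (gA z ^ 3 * gB z ^ 2 * gH z ^ 1)) / (gA z ^ 3 * gB z ^ 2 * gH z ^ 4)) + 83/150 * (((2 * ch 8 z * (ch 4 z - ch 2 z)) * ch 0 z * ch 0 z * (gA z ^ 1 * gB z ^ 2 * gH z ^ 4)) / (gA z ^ 3 * gB z ^ 2 * gH z ^ 4)) + 48823/25369200 * (((4 * ch 8 z * ch 4 z * (ch 3 z - ch 1 z)) * ch 0 z * ch 0 z * ch 1 z * ch 0 z * ch 0 z * (gA z ^ 3 * gB z ^ 0 * gH z ^ 1)) / (gA z ^ 3 * gB z ^ 2 * gH z ^ 4)) + 19/75 * (((2 * ch 8 z * ch 4 z * (ch 6 z - ch 4 z + ch 4 z - ch 2 z)) * ch 0 z * ch 0 z * ch 0 z * (gA z ^ 0 * gB z ^ 2 * gH z ^ 3)) / (gA z ^ 3 * gB z ^ 2 * gH z ^ 4)) + 360239/101476800 * (((ch 6 z - ch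 4 z) * ch 0 z * ch 0 z * ch 0 z * ch 0 z * ch 0 z * ch 0 z * (gA z ^ 3 * gB z ^ 0 * gH z ^ 0)) / (gA z ^ 3 * gB z ^ 2 * gH z ^ 4)) + 370757/10147680 * (((2 * ch 8 z * (ch 4 z - ch 2 z)) * ch 0 z * ch 0 z * ch 0 z * ch 0 z * (gA z ^ 3 * gB z ^ 2 * gH z ^ 0)) / (gA z ^ 3 * gB z ^ 2 * gH z ^ 4)) + 4536407/6342300 * (((2 * ch 8 z * (ch 2 z - ch 0 z)) * (gA z ^ 3 * gB z ^ 2 * gH z ^ 4)) / (gA z ^ 3 * gB z ^ 2 * gH z ^ 4)) + 5207513/12684600 * (((ch 10 z - ch 8 z) * ch 0 z * (gA z ^ 2 * gB z ^ 2 * gH z ^ 4)) / (gA z ^ 3 * gB z ^ 2 * gH z ^ 4)) + 637/1305 * (((ch 4 z - ch 2 z) * ch 0 z * (gA z ^ 2 * gB z ^ 2 * gH z ^ 4)) / (gA z ^ 3 * gB z ^ 2 * gH z ^ 4)) + 1649/5400 * (((4 * ch 8 z * ch 4 z * (ch 2 z - ch 0 z)) * ch 0 z * (gA z ^ 2 * gB z ^ 2 * gH z ^ 4)) / (gA z ^ 3 * gB z ^ 2 * gH z ^ 4)) + 91/450 * (((ch 12 z - ch 10 z) * ch 0 z * ch 0 z * (gA z ^ 1 * gB z ^ 2 *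 gH z ^ 4)) / (gA z ^ 3 * gB z ^ 2 * gH z ^ 4)) + 31499/3382560 * (((4 * ch 8 z * ch 4 z * (ch 3 z - ch 1 z)) * ch 0 z * ch 0 z * ch 1 z * ch 0 z * ch 0 z * ch 0 z * (gA z ^ 3 * gB z ^ 0 * gH z ^ 0)) / (gA z ^ 3 * gB z ^ 2 * gH z ^ 4)) + 448691/101476800 * (((ch 4 z - ch 2 z) * ch 0 z * ch 0 z * ch 0 z * ch 0 z * ch 0 z * ch 0 z * (gA z ^ 3 * gB z ^ 0 * gH z ^ 0)) / (gA z ^ 3 * gB z ^ 2 * gH z ^ 4)) + 22924867/50738400 * (((2 * ch 8 z * (ch 4 z - ch 2 z)) * ch 0 z * ch 0 z * (gA z ^ 3 * gB z ^ 2 * gH z ^ 2)) / (gA z ^ 3 * gB z ^ 2 * gH z ^ 4)) := by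
    ring
  rw [e3]
  linear_combination - 12159467/12684600 * t0 - 2583893/101476800 * t1 - 269591/5637600 * t2 - 32/75 * t3 - 5862391/12684600 * t4 - 127051/1268460 * t5 - 83/150 * t6 - 48823/25369200 * t7 - 19/75 * t8 - 360239/101476800 * t9 - 370757/10147680 * t10 - 4536407/6342300 * t11 - 5207513/12684600 * t12 - 637/1305 * t13 - 1649/5400 * t14 - 91/450 * t15 - 31499/3382560 * t16 - 448691/101476800 * t17 - 22924867/50738400 * t18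

theorem X_S_S : PK fun k => PP k * (Mc .S .S (zk k) + gg (zk k)) := by
  have g0 := ((gD2 (a := 2) (b := 4) (by norm_num) (by norm_num)).mul (mH (n := 0) (by norm_num))).smul (c := 12159467/12684600) (by norm_num)
  have g1 := ((((((gD1 (a := 1) (b := 3) (by norm_num) (by norm_num)).mul (mP (n := 0) (by norm_num))).mul (mH (n := 1) (by norm_num))).mul (mH (n := 0) (by norm_num))).mul (mH (n := 0) (by norm_num))).mul (mH (n := 0) (by norm_num))).smul (c := 2583893/101476800) (by norm_num)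
  have g2 := (((((((gD2 (a := 2) (b := 4) (by norm_num) (by norm_num)).mul (mP (n := 0) (by norm_num))).mul (mQ (n := 0) (by norm_num))).mul (mH (n := 0) (by norm_num))).mul (mH (n := 0) (by norm_num))).mul (mH (n := 0) (by norm_num))).mul (mH (n := 0) (by norm_num))).smul (c := 269591/5637600) (by norm_num)
  have g3 := ((((gCm (a := 1) (b := 3) (by norm_num) (by norm_num)).mul (mM (n := 0) (by norm_num))).mul (mM (n := 3) (by norm_num))).mul (mH (n := 0) (by norm_num))).smul (c := 32/75) (by norm_num)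
  have g4 := (gD4 (a := 8) (b := 10) (by norm_num) (by norm_num)).smul (c := 5862391/12684600) (by norm_num)
  have g5 := ((((gD2 (a := 2) (b := 4) (by norm_num) (by norm_num)).mul (mH (n := 0) (by norm_num))).mul (mH (n := 0) (by norm_num))).mul (mH (n := 0) (by norm_num))).smul (c := 127051/1268460) (by norm_num)
  have g6 := (((gD2 (a := 2) (b := 4) (by norm_num) (by norm_num)).mul (mM (n := 0) (by norm_num))).mul (mM (n := 0) (by norm_num))).smul (c := 83/150) (by norm_num)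
  have g7 := ((((((gD1 (a := 1) (b := 3) (by norm_num) (by norm_num)).mul (mP (n := 0) (by norm_num))).mul (mP (n := 0) (by norm_num))).mul (mH (n := 1) (by norm_num))).mul (mH (n := 0) (by norm_num))).mul (mH (n := 0) (by norm_num))).smul (c := 48823/25369200) (by norm_num)
  have g8 := ((((gCm (a := 0) (b := 2) (by norm_num) (by norm_num)).mul (mM (n := 0) (by norm_num))).mul (mM (n := 0) (by norm_num))).mul (mH (n := 0) (by norm_num))).smul (c := 19/75) (by norm_num)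
  have g9 := (((((((gD4 (a := 4) (b := 6) (by norm_num) (by norm_num)).mul (mP (n := 0) (by norm_num))).mul (mP (n := 0) (by norm_num))).mul (mH (n := 0) (by norm_num))).mul (mH (n := 0) (by norm_num))).mul (mH (n := 0) (by norm_num))).mul (mH (n := 0) (by norm_num))).smul (c := 360239/101476800) (by norm_num)
  have g10 := (((((gD2 (a := 2) (b := 4) (by norm_num) (by norm_num)).mul (mH (n := 0) (by norm_num))).mul (mH (n := 0) (by norm_num))).mul (mH (n := 0) (by norm_num))).mul (mH (n := 0) (by norm_num))).smul (c := 370757/10147680) (by norm_num)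
  have g11 := (gD2 (a := 0) (b := 2) (by norm_num) (by norm_num)).smul (c := 4536407/6342300) (by norm_num)
  have g12 := ((gD4 (a := 8) (b := 10) (by norm_num) (by norm_num)).mul (mM (n := 0) (by norm_num))).smul (c := 5207513/12684600) (by norm_num)
  have g13 := ((gD4 (a := 2) (b := 4) (by norm_num) (by norm_num)).mul (mM (n := 0) (by norm_num))).smul (c := 637/1305) (by norm_num)
  have g14 := ((gD1 (a := 0) (b := 2) (by norm_num) (by norm_num)).mul (mM (n := 0) (by norm_num))).smul (c := 1649/5400) (by norm_num)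
  have g15 := (((gD4 (a := 10) (b := 12) (by norm_num) (by norm_num)).mul (mM (n := 0) (by norm_num))).mul (mM (n := 0) (by norm_num))).smul (c := 91/450) (by norm_num)
  have g16 := (((((((gD1 (a := 1) (b := 3) (by norm_num) (by norm_num)).mul (mP (n := 0) (by norm_num))).mul (mP (n := 0) (by norm_num))).mul (mH (n := 1) (by norm_num))).mul (mH (n := 0) (by norm_num))).mul (mH (n := 0) (by norm_num))).mul (mH (n := 0) (by norm_num))).smul (c := 31499/3382560) (by norm_num)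
  have g17 := (((((((gD4 (a := 2) (b := 4) (by norm_num) (by norm_num)).mul (mP (n := 0) (by norm_num))).mul (mP (n := 0) (by norm_num))).mul (mH (n := 0) (by norm_num))).mul (mH (n := 0) (by norm_num))).mul (mH (n := 0) (by norm_num))).mul (mH (n := 0) (by norm_num))).smul (c := 448691/101476800) (by norm_num)
  have g18 := (((gD2 (a := 2) (b := 4) (by norm_num) (by norm_num)).mul (mH (n := 0) (by norm_num))).mul (mH (n := 0) (by norm_num))).smul (c := 22924867/50738400) (by norm_num)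
  refine ((g0.add (g1.add (g2.add (g3.add (g4.add (g5.add (g6.add (g7.add (g8.add (g9.add (g10.add (g11.add (g12.add (g13.add (g14.add (g15.add (g16.add (g17.add g18))))))))))))))))))).congr fun k hk => ?_
  rw [X_S_S_id (zk_pos hk)]
  ring

end NUMH
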