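import Pool.Agent.NUO.ChebX

/-!
# X_S_T (generated by gen75.py, helper75)
S (with slack) with St of the other species
-/

set_option autoImplicit false
set_option linter.unusedVariables false
set_option linter.unusedSimpArgs false

namespace NUMH

open NUSB NUO NUPosK

noncomputable section

/-- plus part -/
private lemma X_S_T_u1 (x A B H : ℝ) (eA : A = 16 * x ^ 4 - 16 * x ^ 2 + 1) (eB : B = 16 * x ^ 4 - 16 * x ^ 2 + 3) (eH : H = 2 * x ^ 2 - 1) (hx : x ≠ 0) (hx1 : x ^ 2 - 1 ≠ 0) (hA : A ≠ 0) (hB : B ≠ 0) (hH : H ≠ 0) :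
    ((-32 / 5 * x ^ 2 + 2672 / 5 * x ^ 4 - 38608 / 5 * x ^ 6 + 246592 / 5 * x ^ 8 - 842176 / 5 * x ^ 10 + 1630976 / 5 * x ^ 12 - 1789952 / 5 * x ^ 14 + 1036288 / 5 * x ^ 16 - 49152 * x ^ 18) / (x * H)) * (-16 * x ^ 2 + 560 * x ^ 4 - 4128 * x ^ 6 + 12800 * x ^ 8 - 19456 * x ^ 10 + 14336 * x ^ 12 - 4096 * x ^ 14) / ((8 * x ^ 2 * (x ^ 2 - 1)) * A * B ^ 2) * (A ^ 3 * B ^ 2 * x ^ 0 * H ^ 2) =
    (64 / 5 * x - 7392 / 5 * x ^ 3 + 258464 / 5 * x ^ 5 - 767104 * x ^ 7 + 31197056 / 5 * x ^ 9 - 156521984 / 5 * x ^ 11 + 102719488 * x ^ 13 - 1132863488 / 5 * x ^ 15 + 338051072 * x ^ 17 - 336265216 * x ^ 19 + 1067450368 / 5 * x ^ 21 - 391118848 / 5 * x ^ 23 + 12582912 * x ^ 25) * (A ^ 2 * B ^ 0 * x ^ 0 * H ^ 2) := by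
  have h : ((-32 / 5 * x ^ 2 + 2672 / 5 * x ^ 4 - 38608 / 5 * x ^ 6 + 246592 / 5 * x ^ 8 - 842176 / 5 * x ^ 10 + 1630976 / 5 * x ^ 12 - 1789952 / 5 * x ^ 14 + 1036288 / 5 * x ^ 16 - 49152 * x ^ 18) / (x * H)) * (-16 * x ^ 2 + 560 * x ^ 4 - 4128 * x ^ 6 + 12800 * x ^ 8 - 19456 * x ^ 10 + 14336 * x ^ 12 - 4096 * x ^ 14) / ((8 * x ^ 2 * (x ^ 2 - 1)) * A * B ^ 2) =
      (64 / 5 * x - 7392 / 5 * x ^ 3 + 258464 / 5 * x ^ 5 - 767104 * x ^ 7 + 31197056 / 5 * x ^ 9 - 156521984 / 5 * x ^ 11 + 102719488 * x ^ 13 - 1132863488 / 5 * x ^ 15 + 338051072 * x ^ 17 - 336265216 * x ^ 19 + 1067450368 / 5 * x ^ 21 - 391118848 / 5 * x ^ 23 + 12582912 * x ^ 25) / (A ^ 1 * B ^ 2 * x ^ 0 * H ^ 0) := by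
    rw [div_mul_eq_mul_div, div_div]
    rw [div_eq_div_iff (by positivity) (by positivity)]
    rw [eA, eB, eH]
    ring
  rw [h]
  have e : A ^ 3 * B ^ 2 * x ^ 0 * H ^ 2 = (A ^ 1 * B ^ 2 * x ^ 0 * H ^ 0) * (A ^ 2 * B ^ 0 * x ^ 0 * H ^ 2) := by ring
  rw [e, ← mul_assoc, div_mul_cancel₀ _ (by positivity)]

/-- minus part -/
private lemma X_S_T_u2 (x A B H : ℝ) (eA : A = 16 * x ^ 4 - 16 * x ^ 2 + 1) (eB : B = 16 * x ^ 4 - 16 * x ^ 2 + 3) (eH : H = 2 * x ^ 2 - 1) (hx : x ≠ 0) (hx1 : x ^ 2 - 1 ≠ 0) (hA : A ≠ 0) (hB : B ≠ 0) (hH : H ≠ 0) :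
    ((68 / 5 * x ^ 2 - 2928 / 5 * x ^ 4 + 32512 / 5 * x ^ 6 - 162048 / 5 * x ^ 8 + 437824 / 5 * x ^ 10 - 698624 / 5 * x ^ 12 + 667648 / 5 * x ^ 14 - 356352 / 5 * x ^ 16 + 16384 * x ^ 18) / (x * H)) * (-4 + 184 * x ^ 2 - 2576 * x ^ 4 + 14688 * x ^ 6 - 40960 * x ^ 8 + 59392 * x ^ 10 - 43008 * x ^ 12 + 12288 * x ^ 14) / ((2 * H ^ 2) * A ^ 3) * (A ^ 3 * B ^ 2 * x ^ 0 * H ^ 2) =
    (136 / 5 * x - 2368 * x ^ 3 + 398304 / 5 * x ^ 5 - 6789248 / 5 * x ^ 7 + 66976896 / 5 * x ^ 9 - 417193984 / 5 * x ^ 11 + 347895296 * x ^ 13 - 5045991424 / 5 * x ^ 15 + 10427531264 / 5 * x ^ 17 - 15508537344 / 5 * x ^ 19 + 16535846912 / 5 * x ^ 21 - 12367691776 / 5 * x ^ 23 + 6174015488 / 5 * x ^ 25 - 1849688064 / 5 * x ^ 27 + 50331648 * x ^ 29) * (A ^ 0 * B ^ 2 * x ^ 0 * H ^ 0) := by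
  have h : ((68 / 5 * x ^ 2 - 2928 / 5 * x ^ 4 + 32512 / 5 * x ^ 6 - 162048 / 5 * x ^ 8 + 437824 / 5 * x ^ 10 - 698624 / 5 * x ^ 12 + 667648 / 5 * x ^ 14 - 356352 / 5 * x ^ 16 + 16384 * x ^ 18) / (x * H)) * (-4 + 184 * x ^ 2 - 2576 * x ^ 4 + 14688 * x ^ 6 - 40960 * x ^ 8 + 59392 * x ^ 10 - 43008 * x ^ 12 + 12288 * x ^ 14) / ((2 * H ^ 2) * A ^ 3) =
      (136 / 5 * x - 2368 * x ^ 3 + 398304 / 5 * x ^ 5 - 6789248 / 5 * x ^ 7 + 66976896 / 5 * x ^ 9 - 417193984 / 5 * x ^ 11 + 347895296 * x ^ 13 - 5045991424 / 5 * x ^ 15 + 10427531264 / 5 * x ^ 17 - 15508537344 / 5 * x ^ 19 + 16535846912 / 5 * x ^ 21 - 12367691776 / 5 * x ^ 23 + 6174015488 / 5 * x ^ 25 - 1849688064 / 5 * x ^ 27 + 50331648 * x ^ 29) / (A ^ 3 * B ^ 0 * x ^ 0 * H ^ 2) := by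
    rw [div_mul_eq_mul_div, div_div]
    rw [div_eq_div_iff (by positivity) (by positivity)]
    rw [eA, eH]
    ring
  rw [h]
  have e : A ^ 3 * B ^ 2 * x ^ 0 * H ^ 2 = (A ^ 3 * B ^ 0 * x ^ 0 * H ^ 2) * (A ^ 0 * B ^ 2 * x ^ 0 * H ^ 0) := by ring
  rw [e, ← mul_assoc, div_mul_cancel₀ _ (by positivity)]

/-- the certificate -/
theorem X_S_T_id {z : ℝ} (hz : 0 < z) :
    79 / 48 * ((2 * ch 8 z * (5 / 2 * (ch 3 z - ch 1 z) - (ch 5 z - ch 3 z))) * (ch 0 z / (gA z * gH z))) +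
    9 / 80 * ((2 * ch 8 z * ch 4 z * (ch (4 + 3) z - ch (4 + 1) z + ch (4 - 1) z - ch (4 - 3) z) / gA z) * (ch 0 z / (gA z * gH z)) * (ch 0 z / (gA z * gH z))) +
    5 / 72 * ((ch 3 z - ch 1 z) * (ch 0 z / gH z) * (ch 0 z / gH z)) +
    5 / 8 * ((ch 3 z - ch 1 z) * (ch 0 z / (gA z * gH z))) +
    1 / 40 * ((ch 11 z - ch 9 z) * (ch 0 z / gB z) * (ch 0 z / gB z)) +
    3 / 2 * ((2 * ch 8 z * (5 / 2 * (ch 3 z - ch 1 z) - (ch 5 z - ch 3 z))) * (ch 0 z / gA z)) +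
    17 / 240 * ((ch 3 z - ch 1 z)) +
    937 / 1440 * ((ch 5 z - ch 3 z) * (ch 0 z / (gA z * gH z))) +
    1 / 16 * ((ch 9 z - ch 7 z) * (ch 0 z / gB z)) +
    1 / 4 * ((2 * ch 8 z * (ch 4 z - ch 2 z)) * (ch 0 z / gB z) * (ch 1 z / gB z)) +
    7 / 32 * ((ch 13 z - ch 11 z) * (ch 0 z / (gA z * gH z)) * (ch 0 z / (gA z * gH z))) +
    3 / 5 * ((2 * ch 8 z * (5 / 2 * (ch 3 z - ch 1 z) - (ch 5 z - ch 3 z))) * (ch 0 z / gH z)) +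
    11 / 48 * ((2 * ch 8 z * (ch 5 z - ch 3 z)) * (ch 0 z / (gA z * gH z)) * (ch 0 z / (gA z * gH z))) +
    1 / 6 * ((2 * ch 8 z * ch 4 z * (ch (4 + 2) z - ch (4 + 0) z + ch (4 - 0) z - ch (4 - 2) z) / gA z) * (ch 0 z / gA z) * (ch 1 z / gA z)) +
    3 / 32 * ((ch 9 z - ch 7 z) * (ch 0 z / gB z) * (ch 0 z / gH z)) +
    39 / 40 * ((2 * ch 8 z * (ch 2 z - ch 0 z)) * (ch 0 z / (gA z * gH z)) * (ch 1 z / (gA z * gH z))) =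
    Mc .S .T z := by
  have hA := gA_pos z
  have hB := gB_pos z
  have hH := gH_pos z
  have hx : 1 < ch 1 z := one_lt_ch (by norm_num) hz
  have hx0 : 0 < ch 1 z := by linarith
  have hx1 : ch 1 z ^ 2 - 1 ≠ 0 := by nlinarith
  have eA : gA z = 16 * ch 1 z ^ 4 - 16 * ch 1 z ^ 2 + 1 := by unfold gA; rw [cx4]; ring
  have eB : gB z = 16 * ch 1 z ^ 4 - 16 * ch 1 z ^ 2 + 3 := by unfold gB; rw [cx4]; ring
  have eH : gH z = 2 * ch 1 z ^ 2 - 1 := by unfold gH; rw [cx2]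
  have eup : up z = (8 * ch 1 z ^ 2 * (ch 1 z ^ 2 - 1)) * gA z * gB z ^ 2 := by
    unfold up gA gB
    rw [cx4]
    ring
  have eum : um z = (2 * gH z ^ 2) * gA z ^ 3 := by
    rw [eH]
    unfold um gA
    rw [cx4]
    ring
  have ipS : fX .S z + fY .S z = (-32 / 5 * ch 1 z ^ 2 + 2672 / 5 * ch 1 z ^ 4 - 38608 / 5 * ch 1 z ^ 6 + 246592 / 5 * ch 1 z ^ 8 - 842176 / 5 * ch 1 z ^ 10 + 1630976 / 5 * ch 1 z ^ 12 - 1789952 / 5 * ch 1 z ^ 14 + 1036288 / 5 * ch 1 z ^ 16 - 49152 * ch 1 z ^ 18) / (ch 1 z * gH z) := by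
    rw [eq_div_iff (by positivity)]
    have e2 : 2 / ch 1 z + (6 / 5) / (ch 1 z * ch 2 z) = (2 * ch 2 z + 6 / 5) / (ch 1 z * gH z) := by
      have h2 : gH z = ch 2 z := rfl
      have h3 : ch 2 z ≠ 0 := by rw [← h2]; exact hH.ne'
      rw [h2]
      field_simp
    have e3 : psi z * (ch 1 z * gH z) = ch 8 z * ch 4 z * (ch 4 z - 1) * (2 * ch 2 z + 6 / 5) := by
      unfold psi
      rw [e2, mul_assoc, div_mul_cancel₀ _ (by positivity)]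
    have e4 : (fX .S z + fY .S z) * (ch 1 z * gH z) = (fXS z + fYS z) * (ch 1 z * gH z) - psi z * (ch 1 z * gH z) := by
      simp only [fX, fY]
      ring
    rw [e4, e3, eH]
    simp only [fXS, fYS, cx0, cx2, cx3, cx4, cx5, cx6, cx7, cx8, cx9, cx10, cx11, cx12, cx13, cx14, cx15, cx16]
    ring
  have imS : fX .S z - fY .S z = (68 / 5 * ch 1 z ^ 2 - 2928 / 5 * ch 1 z ^ 4 + 32512 / 5 * ch 1 z ^ 6 - 162048 / 5 * ch 1 z ^ 8 + 437824 / 5 * ch 1 z ^ 10 - 698624 / 5 * ch 1 z ^ 12 + 667648 / 5 * ch 1 z ^ 14 - 356352 / 5 * ch 1 z ^ 16 + 16384 * ch 1 z ^ 18) / (ch 1 z * gH z) := by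
    rw [eq_div_iff (by positivity)]
    have e2 : 2 / ch 1 z + (6 / 5) / (ch 1 z * ch 2 z) = (2 * ch 2 z + 6 / 5) / (ch 1 z * gH z) := by
      have h2 : gH z = ch 2 z := rfl
      have h3 : ch 2 z ≠ 0 := by rw [← h2]; exact hH.ne'
      rw [h2]
      field_simp
    have e3 : psi z * (ch 1 z * gH z) = ch 8 z * ch 4 z * (ch 4 z - 1) * (2 * ch 2 z + 6 / 5) := by
      unfold psi
      rw [e2, mul_assoc, div_mul_cancel₀ _ (by positivity)]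
    have e4 : (fX .S z - fY .S z) * (ch 1 z * gH z) = (fXS z - fYS z) * (ch 1 z * gH z) - psi z * (ch 1 z * gH z) := by
      simp only [fX, fY]
      ring
    rw [e4, e3, eH]
    simp only [fXS, fYS, cx0, cx2, cx3, cx4, cx5, cx6, cx7, cx8, cx9, cx10, cx11, cx12, cx13, cx14, cx15, cx16]
    ring
  have ipT : fX .T z + fY .T z = -16 * ch 1 z ^ 2 + 560 * ch 1 z ^ 4 - 4128 * ch 1 z ^ 6 + 12800 * ch 1 z ^ 8 - 19456 * ch 1 z ^ 10 + 14336 * ch 1 z ^ 12 - 4096 * ch 1 z ^ 14 := by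
    simp only [fX, fY, fXL, fYL, fXT, fYT, fXV, fYV, cx0, cx2, cx3, cx4, cx5, cx6, cx7, cx8, cx9, cx10, cx11, cx12, cx13, cx14, cx15, cx16]
    ring
  have imT : fX .T z - fY .T z = -4 + 184 * ch 1 z ^ 2 - 2576 * ch 1 z ^ 4 + 14688 * ch 1 z ^ 6 - 40960 * ch 1 z ^ 8 + 59392 * ch 1 z ^ 10 - 43008 * ch 1 z ^ 12 + 12288 * ch 1 z ^ 14 := by
    simp only [fX, fY, fXL, fYL, fXT, fYT, fXV, fYV, cx0, cx2, cx3, cx4, cx5, cx6, cx7, cx8, cx9, cx10, cx11, cx12, cx13, cx14, cx15, cx16]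
    ring
  have hL : gA z ^ 3 * gB z ^ 2 * ch 1 z ^ 0 * gH z ^ 2 ≠ 0 := by positivity
  have v1 := X_S_T_u1 (ch 1 z) (gA z) (gB z) (gH z) eA eB eH hx0.ne' hx1 hA.ne' hB.ne' hH.ne'
  have v2 := X_S_T_u2 (ch 1 z) (gA z) (gB z) (gH z) eA eB eH hx0.ne' hx1 hA.ne' hB.ne' hH.ne'
  have hM : Mc .S .T z = xb .S .T z - 1 / 2 * (((fX .S z + fY .S z) * (fX .T z + fY .T z) / up z) - ((fX .S z - fY .S z) * (fX .T z - fY .T z) / um z)) := by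
    unfold Mc
    ring
  rw [ipS, ipT, imS, imT, eup, eum] at hM
  have t0 : ((2 * ch 8 z * (5 / 2 * (ch 3 z - ch 1 z) - (ch 5 z - ch 3 z))) * (ch 0 z / (gA z * gH z))) * (gA z ^ 3 * gB z ^ 2 * ch 1 z ^ 0 * gH z ^ 2) = ((2 * ch 8 z * (5 / 2 * (ch 3 z - ch 1 z) - (ch 5 z - ch 3 z))) * ch 0 z) * (gA z ^ 2 * gB z ^ 2 * ch 1 z ^ 0 * gH z ^ 1) := by
    field_simp
  have t1 : ((2 * ch 8 z * ch 4 z * (ch (4 + 3) z - ch (4 + 1) z + ch (4 - 1) z - ch (4 - 3) z) / gA z) * (ch 0 z / (gA z * gH z)) * (ch 0 z / (gA z * gH z))) * (gA z ^ 3 * gB z ^ 2 * ch 1 z ^ 0 * gH z ^ 2) = ((2 * ch 8 z * ch 4 z * (ch 7 z - ch 5 z + ch 3 z - ch 1 z)) * ch 0 z * ch 0 z) * (gA z ^ 0 * gB z ^ 2 * ch 1 z ^ 0 * gH z ^ 0) := by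
    field_simp
  have t2 : ((ch 3 z - ch 1 z) * (ch 0 z / gH z) * (ch 0 z / gH z)) * (gA z ^ 3 * gB z ^ 2 * ch 1 z ^ 0 * gH z ^ 2) = ((ch 3 z - ch 1 z) * ch 0 z * ch 0 z) * (gA z ^ 3 * gB z ^ 2 * ch 1 z ^ 0 * gH z ^ 0) := by
    field_simp
  have t3 : ((ch 3 z - ch 1 z) * (ch 0 z / (gA z * gH z))) * (gA z ^ 3 * gB z ^ 2 * ch 1 z ^ 0 * gH z ^ 2) = ((ch 3 z - ch 1 z) * ch 0 z) * (gA z ^ 2 * gB z ^ 2 * ch 1 z ^ 0 * gH z ^ 1) := by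
    field_simp
  have t4 : ((ch 11 z - ch 9 z) * (ch 0 z / gB z) * (ch 0 z / gB z)) * (gA z ^ 3 * gB z ^ 2 * ch 1 z ^ 0 * gH z ^ 2) = ((ch 11 z - ch 9 z) * ch 0 z * ch 0 z) * (gA z ^ 3 * gB z ^ 0 * ch 1 z ^ 0 * gH z ^ 2) := by
    field_simp
  have t5 : ((2 * ch 8 z * (5 / 2 * (ch 3 z - ch 1 z) - (ch 5 z - ch 3 z))) * (ch 0 z / gA z)) * (gA z ^ 3 * gB z ^ 2 * ch 1 z ^ 0 * gH z ^ 2) = ((2 * ch 8 z * (5 / 2 * (ch 3 z - ch 1 z) - (ch 5 z - ch 3 z))) * ch 0 z) * (gA z ^ 2 * gB z ^ 2 * ch 1 z ^ 0 * gH z ^ 2) := by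
    field_simp
  have t6 : ((ch 3 z - ch 1 z)) * (gA z ^ 3 * gB z ^ 2 * ch 1 z ^ 0 * gH z ^ 2) = ((ch 3 z - ch 1 z)) * (gA z ^ 3 * gB z ^ 2 * ch 1 z ^ 0 * gH z ^ 2) := by
    field_simp
  have t7 : ((ch 5 z - ch 3 z) * (ch 0 z / (gA z * gH z))) * (gA z ^ 3 * gB z ^ 2 * ch 1 z ^ 0 * gH z ^ 2) = ((ch 5 z - ch 3 z) * ch 0 z) * (gA z ^ 2 * gB z ^ 2 * ch 1 z ^ 0 * gH z ^ 1) := by
    field_simp
  have t8 : ((ch 9 z - ch 7 z) * (ch 0 z / gB z)) * (gA z ^ 3 * gB z ^ 2 * ch 1 z ^ 0 * gH z ^ 2) = ((ch 9 z - ch 7 z) * ch 0 z) * (gA z ^ 3 * gB z ^ 1 * ch 1 z ^ 0 * gH z ^ 2) := by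
    field_simp
  have t9 : ((2 * ch 8 z * (ch 4 z - ch 2 z)) * (ch 0 z / gB z) * (ch 1 z / gB z)) * (gA z ^ 3 * gB z ^ 2 * ch 1 z ^ 0 * gH z ^ 2) = ((2 * ch 8 z * (ch 4 z - ch 2 z)) * ch 0 z * ch 1 z) * (gA z ^ 3 * gB z ^ 0 * ch 1 z ^ 0 * gH z ^ 2) := by
    field_simp
  have t10 : ((ch 13 z - ch 11 z) * (ch 0 z / (gA z * gH z)) * (ch 0 z / (gA z * gH z))) * (gA z ^ 3 * gB z ^ 2 * ch 1 z ^ 0 * gH z ^ 2) = ((ch 13 z - ch 11 z) * ch 0 z * ch 0 z) * (gA z ^ 1 * gB z ^ 2 * ch 1 z ^ 0 * gH z ^ 0) := by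
    field_simp
  have t11 : ((2 * ch 8 z * (5 / 2 * (ch 3 z - ch 1 z) - (ch 5 z - ch 3 z))) * (ch 0 z / gH z)) * (gA z ^ 3 * gB z ^ 2 * ch 1 z ^ 0 * gH z ^ 2) = ((2 * ch 8 z * (5 / 2 * (ch 3 z - ch 1 z) - (ch 5 z - ch 3 z))) * ch 0 z) * (gA z ^ 3 * gB z ^ 2 * ch 1 z ^ 0 * gH z ^ 1) := by
    field_simp
  have t12 : ((2 * ch 8 z * (ch 5 z - ch 3 z)) * (ch 0 z / (gA z * gH z)) * (ch 0 z / (gA z * gH z))) * (gA z ^ 3 * gB z ^ 2 * ch 1 z ^ 0 * gH z ^ 2) = ((2 * ch 8 z * (ch 5 z - ch 3 z)) * ch 0 z * ch 0 z) * (gA z ^ 1 * gB z ^ 2 * ch 1 z ^ 0 * gH z ^ 0) := by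
    field_simp
  have t13 : ((2 * ch 8 z * ch 4 z * (ch (4 + 2) z - ch (4 + 0) z + ch (4 - 0) z - ch (4 - 2) z) / gA z) * (ch 0 z / gA z) * (ch 1 z / gA z)) * (gA z ^ 3 * gB z ^ 2 * ch 1 z ^ 0 * gH z ^ 2) = ((2 * ch 8 z * ch 4 z * (ch 6 z - ch 4 z + ch 4 z - ch 2 z)) * ch 0 z * ch 1 z) * (gA z ^ 0 * gB z ^ 2 * ch 1 z ^ 0 * gH z ^ 2) := by
    field_simp
  have t14 : ((ch 9 z - ch 7 z) * (ch 0 z / gB z) * (ch 0 z / gH z)) * (gA z ^ 3 * gB z ^ 2 * ch 1 z ^ 0 * gH z ^ 2) = ((ch 9 z - ch 7 z) * ch 0 z * ch 0 z) * (gA z ^ 3 * gB z ^ 1 * ch 1 z ^ 0 * gH z ^ 1) := by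
    field_simp
  have t15 : ((2 * ch 8 z * (ch 2 z - ch 0 z)) * (ch 0 z / (gA z * gH z)) * (ch 1 z / (gA z * gH z))) * (gA z ^ 3 * gB z ^ 2 * ch 1 z ^ 0 * gH z ^ 2) = ((2 * ch 8 z * (ch 2 z - ch 0 z)) * ch 0 z * ch 1 z) * (gA z ^ 1 * gB z ^ 2 * ch 1 z ^ 0 * gH z ^ 0) := by
    field_simp
  apply mul_right_cancel₀ hL
  have hp : 79 / 48 * (((2 * ch 8 z * (5 / 2 * (ch 3 z - ch 1 z) - (ch 5 z - ch 3 z))) * ch 0 z) * (gA z ^ 2 * gB z ^ 2 * ch 1 z ^ 0 * gH z ^ 1)) + 9 / 80 * (((2 * ch 8 z * ch 4 z * (ch 7 z - ch 5 z + ch 3 z - ch 1 z)) * ch 0 z * ch 0 z) * (gA z ^ 0 * gB z ^ 2 * ch 1 z ^ 0 * gH z ^ 0)) + 5 / 72 * (((ch 3 z - ch 1 z) * ch 0 z * ch 0 z) * (gA z ^ 3 * gB z ^ 2 * ch 1 z ^ 0 * gH z ^ 0)) + 5 / 8 * (((ch 3 z - ch 1 z) * ch 0 z) * (gA z ^ 2 * gB z ^ 2 * ch 1 z ^ 0 * gH z ^ 1)) + 1 / 40 * (((ch 11 z - ch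 9 z) * ch 0 z * ch 0 z) * (gA z ^ 3 * gB z ^ 0 * ch 1 z ^ 0 * gH z ^ 2)) + 3 / 2 * (((2 * ch 8 z * (5 / 2 * (ch 3 z - ch 1 z) - (ch 5 z - ch 3 z))) * ch 0 z) * (gA z ^ 2 * gB z ^ 2 * ch 1 z ^ 0 * gH z ^ 2)) + 17 / 240 * (((ch 3 z - ch 1 z)) * (gA z ^ 3 * gB z ^ 2 * ch 1 z ^ 0 * gH z ^ 2)) + 937 / 1440 * (((ch 5 z - ch 3 z) * ch 0 z) * (gA z ^ 2 * gB z ^ 2 * ch 1 z ^ 0 * gH z ^ 1)) + 1 / 16 * (((ch 9 z - ch 7 z) * ch 0 z) * (gA z ^ 3 * gB z ^ 1 * ch 1 z ^ 0 * gH z ^ 2)) + 1 / 4 * (((2 * ch 8 z * (ch 4 z - ch 2 z)) * ch 0 z * ch 1 z) * (gA z ^ 3 * gB z ^ 0 * ch 1 z ^ 0 * gH z ^ 2)) + 7 / 32 * (((ch 13 z - ch 11 z) * ch 0 z * ch 0 z) * (gA z ^ 1 * gB z ^ 2 * ch 1 z ^ 0 * gH z ^ 0)) + 3 / 5 * (((2 * ch 8 z * (5 / 2 * (ch 3 z - ch 1 z) - (ch 5 z - ch 3 z))) * ch 0 z) * (gA z ^ 3 * gB z ^ 2 * ch 1 z ^ 0 * gH z ^ 1))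 + 11 / 48 * (((2 * ch 8 z * (ch 5 z - ch 3 z)) * ch 0 z * ch 0 z) * (gA z ^ 1 * gB z ^ 2 * ch 1 z ^ 0 * gH z ^ 0)) + 1 / 6 * (((2 * ch 8 z * ch 4 z * (ch 6 z - ch 4 z + ch 4 z - ch 2 z)) * ch 0 z * ch 1 z) * (gA z ^ 0 * gB z ^ 2 * ch 1 z ^ 0 * gH z ^ 2)) + 3 / 32 * (((ch 9 z - ch 7 z) * ch 0 z * ch 0 z) * (gA z ^ 3 * gB z ^ 1 * ch 1 z ^ 0 * gH z ^ 1)) + 39 / 40 * (((2 * ch 8 z * (ch 2 z - ch 0 z)) * ch 0 z * ch 1 z) * (gA z ^ 1 * gB z ^ 2 * ch 1 z ^ 0 * gH z ^ 0)) =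
      (xb .S .T z) * (gA z ^ 3 * gB z ^ 2 * ch 1 z ^ 0 * gH z ^ 2) - 1 / 2 * ((64 / 5 * ch 1 z - 7392 / 5 * ch 1 z ^ 3 + 258464 / 5 * ch 1 z ^ 5 - 767104 * ch 1 z ^ 7 + 31197056 / 5 * ch 1 z ^ 9 - 156521984 / 5 * ch 1 z ^ 11 + 102719488 * ch 1 z ^ 13 - 1132863488 / 5 * ch 1 z ^ 15 + 338051072 * ch 1 z ^ 17 - 336265216 * ch 1 z ^ 19 + 1067450368 / 5 * ch 1 z ^ 21 - 391118848 / 5 * ch 1 z ^ 23 + 12582912 * ch 1 z ^ 25) * (gA z ^ 2 * gB z ^ 0 * ch 1 z ^ 0 * gH z ^ 2) - (136 / 5 * ch 1 z - 2368 * ch 1 z ^ 3 + 398304 / 5 * ch 1 z ^ 5 - 6789248 / 5 * ch 1 z ^ 7 + 66976896 / 5 * ch 1 z ^ 9 - 417193984 / 5 * ch 1 z ^ 11 + 347895296 * ch 1 z ^ 13 - 5045991424 / 5 * ch 1 z ^ 15 + 10427531264 / 5 * ch 1 z ^ 17 - 15508537344 / 5 * ch 1 z ^ 19 + 16535846912 / 5 * ch 1 z ^ 21 - 12367691776 / 5 * ch 1 z ^ 23 + 6174015488 /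 5 * ch 1 z ^ 25 - 1849688064 / 5 * ch 1 z ^ 27 + 50331648 * ch 1 z ^ 29) * (gA z ^ 0 * gB z ^ 2 * ch 1 z ^ 0 * gH z ^ 0)) := by
    rw [eA, eB, eH]
    simp only [xb, bb, xLT, xLS, xLV, xTS, xTV, xSV, bLT, bLS, bLV, bTS, bTV, bSS, bSV, bVV, gg, cx0, cx2, cx3, cx4, cx5, cx6, cx7, cx8, cx9, cx10, cx11, cx12, cx13, cx14, cx15, cx16]
    ring
  rw [hM]
  linear_combination (79 / 48) * t0 + (9 / 80) * t1 + (5 / 72) * t2 + (5 / 8) * t3 + (1 / 40) * t4 + (3 / 2) * t5 + (17 / 240) * t6 + (937 / 1440) * t7 + (1 / 16) * t8 + (1 / 4) * t9 + (7 / 32) * t10 + (3 / 5) * t11 + (11 / 48) * t12 + (1 / 6) * t13 + (3 / 32) * t14 + (39 / 40) * t15 + hp + 1 / 2 * v1 - 1 / 2 * v2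

/-- **X_S_T** -/
theorem X_S_T : PK fun k => PP k * (Mc .S .T (zk k)) := by
  have h0 := ((gE2.mul (mR (n := 0) (by norm_num))).smul (c := 79 / 48) (by norm_num))
  have h1 := h0.add ((((gCm (a := 1) (b := 3) (by norm_num) (by norm_num)).mul (mR (n := 0) (by norm_num))).mul (mR (n := 0) (by norm_num))).smul (c := 9 / 80) (by norm_num))
  have h2 := h1.add ((((gD4 (a := 1) (b := 3) (by norm_num) (by norm_num)).mul (mH (n := 0) (by norm_num))).mul (mH (n := 0) (by norm_num))).smul (c := 5 / 72) (by norm_num))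
  have h3 := h2.add (((gD4 (a := 1) (b := 3) (by norm_num) (by norm_num)).mul (mR (n := 0) (by norm_num))).smul (c := 5 / 8) (by norm_num))
  have h4 := h3.add ((((gD4 (a := 9) (b := 11) (by norm_num) (by norm_num)).mul (mP (n := 0) (by norm_num))).mul (mP (n := 0) (by norm_num))).smul (c := 1 / 40) (by norm_num))
  have h5 := h4.add ((gE2.mul (mM (n := 0) (by norm_num))).smul (c := 3 / 2) (by norm_num))
  have h6 := h5.add ((gD4 (a := 1) (b := 3) (by norm_num) (by norm_num)).smul (c := 17 / 240) (by norm_num))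
  have h7 := h6.add (((gD4 (a := 3) (b := 5) (by norm_num) (by norm_num)).mul (mR (n := 0) (by norm_num))).smul (c := 937 / 1440) (by norm_num))
  have h8 := h7.add (((gD4 (a := 7) (b := 9) (by norm_num) (by norm_num)).mul (mP (n := 0) (by norm_num))).smul (c := 1 / 16) (by norm_num))
  have h9 := h8.add ((((gD2 (a := 2) (b := 4) (by norm_num) (by norm_num)).mul (mP (n := 0) (by norm_num))).mul (mP (n := 1) (by norm_num))).smul (c := 1 / 4) (by norm_num))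
  have h10 := h9.add ((((gD4 (a := 11) (b := 13) (by norm_num) (by norm_num)).mul (mR (n := 0) (by norm_num))).mul (mR (n := 0) (by norm_num))).smul (c := 7 / 32) (by norm_num))
  have h11 := h10.add ((gE2.mul (mH (n := 0) (by norm_num))).smul (c := 3 / 5) (by norm_num))
  have h12 := h11.add ((((gD2 (a := 3) (b := 5) (by norm_num) (by norm_num)).mul (mR (n := 0) (by norm_num))).mul (mR (n := 0) (by norm_num))).smul (c := 11 / 48) (by norm_num))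
  have h13 := h12.add ((((gCm (a := 0) (b := 2) (by norm_num) (by norm_num)).mul (mM (n := 0) (by norm_num))).mul (mM (n := 1) (by norm_num))).smul (c := 1 / 6) (by norm_num))
  have h14 := h13.add ((((gD4 (a := 7) (b := 9) (by norm_num) (by norm_num)).mul (mP (n := 0) (by norm_num))).mul (mH (n := 0) (by norm_num))).smul (c := 3 / 32) (by norm_num))
  have h15 := h14.add ((((gD2 (a := 0) (b := 2) (by norm_num) (by norm_num)).mul (mR (n := 0) (by norm_num))).mul (mR (n := 1) (by norm_num))).smul (c := 39 / 40) (by norm_num))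
  refine h15.congr fun k hk => ?_
  rw [← X_S_T_id (zk_pos hk)]
  ring

end

end NUMH
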