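import Pool.Agent.NUO.GenX
import Pool.Agent.NUO.ChX

/-! certificate of the kernel `Mc .S .V z - gg z * al z - (ch 16 z - ch 14 z)` (generated by genx.py, helper9) -/

set_option autoImplicit false
set_option linter.unusedSimpArgs false

namespace NUMH

open NUSB NUPosK

theorem X_S_V_poly (z : ℝ) :
    ((2 * xb .S .V z * up z * um z * gH z ^ 1 - (((fXS z + fYS z) * gH z - pS z) * (fXV z + fYV z) * um z - ((fXS z - fYS z) * gH z - pS z) * (fXV z - fYV z) * up z)) * gH z ^ 2 + (0 - gg z * (gH z ^ 2 - 3 / 5) - ((ch 16 z - ch 14 z) * gH z ^ 2)) * (2 * up z * um z * gH z ^ 1)) * (gA z ^ 2 * gB z ^ 2 * gH z ^ 2) =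
      ((2 * up z * um z * gH z ^ 1) * gH z ^ 2) * (673/2880 * ((ch 12 z - ch 10 z) * (gA z ^ 2 * gB z ^ 2 * gH z ^ 2)) +
      23/60 * ((2 * ch 8 z * (ch 6 z - ch 4 z)) * ch 0 z * (gA z ^ 1 * gB z ^ 2 * gH z ^ 2)) +
      13/288 * ((4 * ch 8 z * ch 4 z * (ch 2 z - ch 0 z)) * ch 0 z * ch 0 z * (gA z ^ 2 * gB z ^ 0 * gH z ^ 2)) +
      287/1440 * ((ch 14 z - ch 12 z) * ch 0 z * (gA z ^ 1 * gB z ^ 2 * gH z ^ 2)) +
      7/5760 * ((ch 2 z - ch 0 z) * ch 0 z * ch 0 z * ch 0 z * ch 0 z * (gA z ^ 2 * gB z ^ 0 * gH z ^ 0)) +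
      22409/57600 * ((2 * ch 8 z * (ch 2 z - ch 0 z)) * ch 0 z * ch 0 z * (gA z ^ 2 * gB z ^ 2 * gH z ^ 0)) +
      1/10 * ((4 * ch 8 z * ch 4 z * (ch 3 z - ch 1 z)) * ch 0 z * ch 1 z * ch 0 z * (gA z ^ 2 * gB z ^ 1 * gH z ^ 0)) +
      281/288 * ((ch 8 z - ch 6 z) * (gA z ^ 2 * gB z ^ 2 * gH z ^ 2)) +
      10681/14400 * ((2 * ch 8 z * (ch 4 z - ch 2 z)) * ch 0 z * ch 0 z * (gA z ^ 2 * gB z ^ 2 * gH z ^ 0)) +
      13/1440 * ((2 * ch 8 z * (ch 2 z - ch 0 z)) * ch 0 z * (gA z ^ 1 * gB z ^ 2 * gH z ^ 2)) +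
      1/16 * ((ch 4 z - ch 2 z) * ch 0 z * ch 0 z * ch 0 z * ch 0 z * (gA z ^ 2 * gB z ^ 0 * gH z ^ 0)) +
      2689/2880 * ((ch 14 z - ch 12 z) * (gA z ^ 2 * gB z ^ 2 * gH z ^ 2)) +
      5/576 * ((4 * ch 8 z * ch 4 z * (ch 2 z - ch 0 z)) * ch 0 z * ch 0 z * ch 0 z * (gA z ^ 2 * gB z ^ 1 * gH z ^ 0)) +
      191/2880 * ((4 * ch 8 z * ch 4 z * (ch 3 z - ch 1 z)) * ch 1 z * (gA z ^ 2 * gB z ^ 2 * gH z ^ 1)) +
      47/60 * ((ch 6 z - ch 4 z) * (gA z ^ 2 * gB z ^ 2 * gH z ^ 2)) +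
      1/4 * ((2 * ch 8 z * (ch 6 z - ch 4 z)) * ch 0 z * ch 0 z * (gA z ^ 0 * gB z ^ 2 * gH z ^ 2)) +
      7/10 * ((2 * ch 8 z * ch 4 z * (ch 6 z - ch 4 z + ch 4 z - ch 2 z)) * ch 0 z * (gA z ^ 0 * gB z ^ 2 * gH z ^ 2))) := by
  simp only [xb, fX, fY, fXL, fYL, fXT, fYT, fXS, fYS, fXV, fYV, bLT, bLS, bLV, bTS, bTV, xLT, xLS, xLV, xTS, xTV, xSV, bSS, bSV, bVV, gg, up, um, gA, gB, gH, pS, c0, c2, c3, c4, c5, c6, c7, c8, c9, c10, c11, c12, c13, c14, c15, c16]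
  ring

theorem X_S_V_id {z : ℝ} (hz : 0 < z) : Mc .S .V z - gg z * al z - (ch 16 z - ch 14 z) =
      673/2880 * ((ch 12 z - ch 10 z)) +
      23/60 * ((2 * ch 8 z * (ch 6 z - ch 4 z)) * (ch 0 z / gA z)) +
      13/288 * ((4 * ch 8 z * ch 4 z * (ch 2 z - ch 0 z)) * (ch 0 z / gB z) * (ch 0 z / gB z)) +
      287/1440 * ((ch 14 z - ch 12 z) * (ch 0 z / gA z)) +
      7/5760 * ((ch 2 z - ch 0 z) * (ch 0 z / gB z) * (ch 0 z / gB z) * (ch 0 z / gH z) * (ch 0 z / gH z)) +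
      22409/57600 * ((2 * ch 8 z * (ch 2 z - ch 0 z)) * (ch 0 z / gH z) * (ch 0 z / gH z)) +
      1/10 * ((4 * ch 8 z * ch 4 z * (ch 3 z - ch 1 z)) * (ch 0 z / gB z) * (ch 1 z / gH z) * (ch 0 z / gH z)) +
      281/288 * ((ch 8 z - ch 6 z)) +
      10681/14400 * ((2 * ch 8 z * (ch 4 z - ch 2 z)) * (ch 0 z / gH z) * (ch 0 z / gH z)) +
      13/1440 * ((2 * ch 8 z * (ch 2 z - ch 0 z)) * (ch 0 z / gA z)) +
      1/16 * ((ch 4 z - ch 2 z) * (ch 0 z / gB z) * (ch 0 z / gB z) * (ch 0 z / gH z) * (ch 0 z / gH z)) +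
      2689/2880 * ((ch 14 z - ch 12 z)) +
      5/576 * ((4 * ch 8 z * ch 4 z * (ch 2 z - ch 0 z)) * (ch 0 z / gB z) * (ch 0 z / gH z) * (ch 0 z / gH z)) +
      191/2880 * ((4 * ch 8 z * ch 4 z * (ch 3 z - ch 1 z)) * (ch 1 z / gH z)) +
      47/60 * ((ch 6 z - ch 4 z)) +
      1/4 * ((2 * ch 8 z * (ch 6 z - ch 4 z)) * (ch 0 z / gA z) * (ch 0 z / gA z)) +
      7/10 * ((2 * ch 8 z * ch 4 z * (ch 6 z - ch 4 z + ch 4 z - ch 2 z) / gA z) * (ch 0 z / gA z)) := by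
  have hA := (gA_pos z).ne'
  have hB := (gB_pos z).ne'
  have hH := (gH_pos z).ne'
  have hu := (up_pos hz).ne'
  have hv := (um_pos z).ne'
  have hM : Mc .S .V z = (2 * xb .S .V z * up z * um z * gH z ^ 1 - (((fXS z + fYS z) * gH z - pS z) * (fXV z + fYV z) * um z - ((fXS z - fYS z) * gH z - pS z) * (fXV z - fYV z) * up z)) / (2 * up z * um z * gH z ^ 1) := by
    have hp : psi z = pS z / gH z := psi_eq z
    simp only [Mc, fX, fY, hp]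
    generalize up z = u at *
    generalize um z = v at *
    generalize gH z = H at *
    field_simp <;> ring
  have t0 : (ch 12 z - ch 10 z) = ((ch 12 z - ch 10 z) * (gA z ^ 2 * gB z ^ 2 * gH z ^ 2)) / (gA z ^ 2 * gB z ^ 2 * gH z ^ 2) := by
    generalize gA z = A at *
    generalize gB z = B at *
    generalize gH z = H at *
    field_simp
  have t1 : (2 * ch 8 z * (ch 6 z - ch 4 z)) * (ch 0 z / gA z) = ((2 * ch 8 z * (ch 6 z - ch 4 z)) * ch 0 z * (gA z ^ 1 * gB z ^ 2 * gH z ^ 2)) / (gA z ^ 2 * gB z ^ 2 * gH z ^ 2) := by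
    generalize gA z = A at *
    generalize gB z = B at *
    generalize gH z = H at *
    field_simp
  have t2 : (4 * ch 8 z * ch 4 z * (ch 2 z - ch 0 z)) * (ch 0 z / gB z) * (ch 0 z / gB z) = ((4 * ch 8 z * ch 4 z * (ch 2 z - ch 0 z)) * ch 0 z * ch 0 z * (gA z ^ 2 * gB z ^ 0 * gH z ^ 2)) / (gA z ^ 2 * gB z ^ 2 * gH z ^ 2) := by
    generalize gA z = A at *
    generalize gB z = B at *
    generalize gH z = H at *
    field_simp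
  have t3 : (ch 14 z - ch 12 z) * (ch 0 z / gA z) = ((ch 14 z - ch 12 z) * ch 0 z * (gA z ^ 1 * gB z ^ 2 * gH z ^ 2)) / (gA z ^ 2 * gB z ^ 2 * gH z ^ 2) := by
    generalize gA z = A at *
    generalize gB z = B at *
    generalize gH z = H at *
    field_simp
  have t4 : (ch 2 z - ch 0 z) * (ch 0 z / gB z) * (ch 0 z / gB z) * (ch 0 z / gH z) * (ch 0 z / gH z) = ((ch 2 z - ch 0 z) * ch 0 z * ch 0 z * ch 0 z * ch 0 z * (gA z ^ 2 * gB z ^ 0 * gH z ^ 0)) / (gA z ^ 2 * gB z ^ 2 * gH z ^ 2) := by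
    generalize gA z = A at *
    generalize gB z = B at *
    generalize gH z = H at *
    field_simp
  have t5 : (2 * ch 8 z * (ch 2 z - ch 0 z)) * (ch 0 z / gH z) * (ch 0 z / gH z) = ((2 * ch 8 z * (ch 2 z - ch 0 z)) * ch 0 z * ch 0 z * (gA z ^ 2 * gB z ^ 2 * gH z ^ 0)) / (gA z ^ 2 * gB z ^ 2 * gH z ^ 2) := by
    generalize gA z = A at *
    generalize gB z = B at *
    generalize gH z = H at *
    field_simp
  have t6 : (4 * ch 8 z * ch 4 z * (ch 3 z - ch 1 z)) * (ch 0 z / gB z) * (ch 1 z / gH z) * (ch 0 z / gH z) = ((4 * ch 8 z * ch 4 z * (ch 3 z - ch 1 z)) * ch 0 z * ch 1 z * ch 0 z * (gA z ^ 2 * gB z ^ 1 * gH z ^ 0)) / (gA z ^ 2 * gB z ^ 2 * gH z ^ 2) := by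
    generalize gA z = A at *
    generalize gB z = B at *
    generalize gH z = H at *
    field_simp
  have t7 : (ch 8 z - ch 6 z) = ((ch 8 z - ch 6 z) * (gA z ^ 2 * gB z ^ 2 * gH z ^ 2)) / (gA z ^ 2 * gB z ^ 2 * gH z ^ 2) := by
    generalize gA z = A at *
    generalize gB z = B at *
    generalize gH z = H at *
    field_simp
  have t8 : (2 * ch 8 z * (ch 4 z - ch 2 z)) * (ch 0 z / gH z) * (ch 0 z / gH z) = ((2 * ch 8 z * (ch 4 z - ch 2 z)) * ch 0 z * ch 0 z * (gA z ^ 2 * gB z ^ 2 * gH z ^ 0)) / (gA z ^ 2 * gB z ^ 2 * gH z ^ 2) := by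
    generalize gA z = A at *
    generalize gB z = B at *
    generalize gH z = H at *
    field_simp
  have t9 : (2 * ch 8 z * (ch 2 z - ch 0 z)) * (ch 0 z / gA z) = ((2 * ch 8 z * (ch 2 z - ch 0 z)) * ch 0 z * (gA z ^ 1 * gB z ^ 2 * gH z ^ 2)) / (gA z ^ 2 * gB z ^ 2 * gH z ^ 2) := by
    generalize gA z = A at *
    generalize gB z = B at *
    generalize gH z = H at *
    field_simp
  have t10 : (ch 4 z - ch 2 z) * (ch 0 z / gB z) * (ch 0 z / gB z) * (ch 0 z / gH z) * (ch 0 z / gH z) = ((ch 4 z - ch 2 z) * ch 0 z * ch 0 z * ch 0 z * ch 0 z * (gA z ^ 2 * gB z ^ 0 * gH z ^ 0)) / (gA z ^ 2 * gB z ^ 2 * gH z ^ 2) := by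
    generalize gA z = A at *
    generalize gB z = B at *
    generalize gH z = H at *
    field_simp
  have t11 : (ch 14 z - ch 12 z) = ((ch 14 z - ch 12 z) * (gA z ^ 2 * gB z ^ 2 * gH z ^ 2)) / (gA z ^ 2 * gB z ^ 2 * gH z ^ 2) := by
    generalize gA z = A at *
    generalize gB z = B at *
    generalize gH z = H at *
    field_simp
  have t12 : (4 * ch 8 z * ch 4 z * (ch 2 z - ch 0 z)) * (ch 0 z / gB z) * (ch 0 z / gH z) * (ch 0 z / gH z) = ((4 * ch 8 z * ch 4 z * (ch 2 z - ch 0 z)) * ch 0 z * ch 0 z * ch 0 z * (gA z ^ 2 * gB z ^ 1 * gH z ^ 0)) / (gA z ^ 2 * gB z ^ 2 * gH z ^ 2) := by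
    generalize gA z = A at *
    generalize gB z = B at *
    generalize gH z = H at *
    field_simp
  have t13 : (4 * ch 8 z * ch 4 z * (ch 3 z - ch 1 z)) * (ch 1 z / gH z) = ((4 * ch 8 z * ch 4 z * (ch 3 z - ch 1 z)) * ch 1 z * (gA z ^ 2 * gB z ^ 2 * gH z ^ 1)) / (gA z ^ 2 * gB z ^ 2 * gH z ^ 2) := by
    generalize gA z = A at *
    generalize gB z = B at *
    generalize gH z = H at *
    field_simp
  have t14 : (ch 6 z - ch 4 z) = ((ch 6 z - ch 4 z) * (gA z ^ 2 * gB z ^ 2 * gH z ^ 2)) / (gA z ^ 2 * gB z ^ 2 * gH z ^ 2) := by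
    generalize gA z = A at *
    generalize gB z = B at *
    generalize gH z = H at *
    field_simp
  have t15 : (2 * ch 8 z * (ch 6 z - ch 4 z)) * (ch 0 z / gA z) * (ch 0 z / gA z) = ((2 * ch 8 z * (ch 6 z - ch 4 z)) * ch 0 z * ch 0 z * (gA z ^ 0 * gB z ^ 2 * gH z ^ 2)) / (gA z ^ 2 * gB z ^ 2 * gH z ^ 2) := by
    generalize gA z = A at *
    generalize gB z = B at *
    generalize gH z = H at *
    field_simp
  have t16 : (2 * ch 8 z * ch 4 z * (ch 6 z - ch 4 z + ch 4 z - ch 2 z) / gA z) * (ch 0 z / gA z) = ((2 * ch 8 z * ch 4 z * (ch 6 z - ch 4 z + ch 4 z - ch 2 z)) * ch 0 z * (gA z ^ 0 * gB z ^ 2 * gH z ^ 2)) / (gA z ^ 2 * gB z ^ 2 * gH z ^ 2) := by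
    generalize gA z = A at *
    generalize gB z = B at *
    generalize gH z = H at *
    field_simp
  have hid := X_S_V_poly z
  have ha : al z = (gH z ^ 2 - 3 / 5) / gH z ^ 2 := by
    unfold al gH
    have := hH
    unfold gH at this
    field_simp
  have hD : (gA z ^ 2 * gB z ^ 2 * gH z ^ 2) ≠ 0 := by positivity
  have hE : (2 * up z * um z * gH z ^ 1) * gH z ^ 2 ≠ 0 := by
    have := gH_pos z
    positivity
  have e1 : (2 * xb .S .V z * up z * um z * gH z ^ 1 - (((fXS z + fYS z) * gH z - pS z) * (fXV z + fYV z) * um z - ((fXS z - fYS z) * gH z - pS z) * (fXV z - fYV z) * up z)) / (2 * up z * um z * gH z ^ 1) - gg z * ((gH z ^ 2 - 3 / 5) / gH z ^ 2) - (ch 16 z - ch 14 z) = ((2 * xb .S .V z * up z * um z * gH z ^ 1 - (((fXS z + fYS z) * gH z - pS z) * (fXV z + fYV z) * um z - ((fXS z - fYS z) * gH z - pS z) * (fXV z - fYV z) * up z)) * gH z ^ 2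 + (0 - gg z * (gH z ^ 2 - 3 / 5) - ((ch 16 z - ch 14 z) * gH z ^ 2)) * (2 * up z * um z * gH z ^ 1)) / ((2 * up z * um z * gH z ^ 1) * gH z ^ 2) := by
    generalize up z = u at *
    generalize um z = v at *
    generalize gH z = H at *
    field_simp <;> ring
  have e2 : ((2 * xb .S .V z * up z * um z * gH z ^ 1 - (((fXS z + fYS z) * gH z - pS z) * (fXV z + fYV z) * um z - ((fXS z - fYS z) * gH z - pS z) * (fXV z - fYV z) * up z)) * gH z ^ 2 + (0 - gg z * (gH z ^ 2 - 3 / 5) - ((ch 16 z - ch 14 z) * gH z ^ 2)) * (2 * up z * um z * gH z ^ 1)) / ((2 * up z * um z * gH z ^ 1) * gH z ^ 2) = (673/2880 * ((ch 12 z - ch 10 z) * (gA z ^ 2 * gB z ^ 2 * gH z ^ 2)) +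
      23/60 * ((2 * ch 8 z * (ch 6 z - ch 4 z)) * ch 0 z * (gA z ^ 1 * gB z ^ 2 * gH z ^ 2)) +
      13/288 * ((4 * ch 8 z * ch 4 z * (ch 2 z - ch 0 z)) * ch 0 z * ch 0 z * (gA z ^ 2 * gB z ^ 0 * gH z ^ 2)) +
      287/1440 * ((ch 14 z - ch 12 z) * ch 0 z * (gA z ^ 1 * gB z ^ 2 * gH z ^ 2)) +
      7/5760 * ((ch 2 z - ch 0 z) * ch 0 z * ch 0 z * ch 0 z * ch 0 z * (gA z ^ 2 * gB z ^ 0 * gH z ^ 0)) +
      22409/57600 * ((2 * ch 8 z * (ch 2 z - ch 0 z)) * ch 0 z * ch 0 z * (gA z ^ 2 * gB z ^ 2 * gH z ^ 0)) +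
      1/10 * ((4 * ch 8 z * ch 4 z * (ch 3 z - ch 1 z)) * ch 0 z * ch 1 z * ch 0 z * (gA z ^ 2 * gB z ^ 1 * gH z ^ 0)) +
      281/288 * ((ch 8 z - ch 6 z) * (gA z ^ 2 * gB z ^ 2 * gH z ^ 2)) +
      10681/14400 * ((2 * ch 8 z * (ch 4 z - ch 2 z)) * ch 0 z * ch 0 z * (gA z ^ 2 * gB z ^ 2 * gH z ^ 0)) +
      13/1440 * ((2 * ch 8 z * (ch 2 z - ch 0 z)) * ch 0 z * (gA z ^ 1 * gB z ^ 2 * gH z ^ 2)) +
      1/16 * ((ch 4 z - ch 2 z) * ch 0 z * ch 0 z * ch 0 z * ch 0 z * (gA z ^ 2 * gB z ^ 0 * gH z ^ 0)) +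
      2689/2880 * ((ch 14 z - ch 12 z) * (gA z ^ 2 * gB z ^ 2 * gH z ^ 2)) +
      5/576 * ((4 * ch 8 z * ch 4 z * (ch 2 z - ch 0 z)) * ch 0 z * ch 0 z * ch 0 z * (gA z ^ 2 * gB z ^ 1 * gH z ^ 0)) +
      191/2880 * ((4 * ch 8 z * ch 4 z * (ch 3 z - ch 1 z)) * ch 1 z * (gA z ^ 2 * gB z ^ 2 * gH z ^ 1)) +
      47/60 * ((ch 6 z - ch 4 z) * (gA z ^ 2 * gB z ^ 2 * gH z ^ 2)) +
      1/4 * ((2 * ch 8 z * (ch 6 z - ch 4 z)) * ch 0 z * ch 0 z * (gA z ^ 0 * gB z ^ 2 * gH z ^ 2)) +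
      7/10 * ((2 * ch 8 z * ch 4 z * (ch 6 z - ch 4 z + ch 4 z - ch 2 z)) * ch 0 z * (gA z ^ 0 * gB z ^ 2 * gH z ^ 2))) / (gA z ^ 2 * gB z ^ 2 * gH z ^ 2) := by
    rw [div_eq_div_iff hE hD]
    rw [hid]
    ring
  rw [hM, ha, e1, e2]
  have e3 : (673/2880 * ((ch 12 z - ch 10 z) * (gA z ^ 2 * gB z ^ 2 * gH z ^ 2)) +
      23/60 * ((2 * ch 8 z * (ch 6 z - ch 4 z)) * ch 0 z * (gA z ^ 1 * gB z ^ 2 * gH z ^ 2)) +
      13/288 * ((4 * ch 8 z * ch 4 z * (ch 2 z - ch 0 z)) * ch 0 z * ch 0 z * (gA z ^ 2 * gB z ^ 0 * gH z ^ 2)) +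
      287/1440 * ((ch 14 z - ch 12 z) * ch 0 z * (gA z ^ 1 * gB z ^ 2 * gH z ^ 2)) +
      7/5760 * ((ch 2 z - ch 0 z) * ch 0 z * ch 0 z * ch 0 z * ch 0 z * (gA z ^ 2 * gB z ^ 0 * gH z ^ 0)) +
      22409/57600 * ((2 * ch 8 z * (ch 2 z - ch 0 z)) * ch 0 z * ch 0 z * (gA z ^ 2 * gB z ^ 2 * gH z ^ 0)) +
      1/10 * ((4 * ch 8 z * ch 4 z * (ch 3 z - ch 1 z)) * ch 0 z * ch 1 z * ch 0 z * (gA z ^ 2 * gB z ^ 1 * gH z ^ 0)) +
      281/288 * ((ch 8 z - ch 6 z) * (gA z ^ 2 * gB z ^ 2 * gH z ^ 2)) +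
      10681/14400 * ((2 * ch 8 z * (ch 4 z - ch 2 z)) * ch 0 z * ch 0 z * (gA z ^ 2 * gB z ^ 2 * gH z ^ 0)) +
      13/1440 * ((2 * ch 8 z * (ch 2 z - ch 0 z)) * ch 0 z * (gA z ^ 1 * gB z ^ 2 * gH z ^ 2)) +
      1/16 * ((ch 4 z - ch 2 z) * ch 0 z * ch 0 z * ch 0 z * ch 0 z * (gA z ^ 2 * gB z ^ 0 * gH z ^ 0)) +
      2689/2880 * ((ch 14 z - ch 12 z) * (gA z ^ 2 * gB z ^ 2 * gH z ^ 2)) +
      5/576 * ((4 * ch 8 z * ch 4 z * (ch 2 z - ch 0 z)) * ch 0 z * ch 0 z * ch 0 z * (gA z ^ 2 * gB z ^ 1 * gH z ^ 0)) +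
      191/2880 * ((4 * ch 8 z * ch 4 z * (ch 3 z - ch 1 z)) * ch 1 z * (gA z ^ 2 * gB z ^ 2 * gH z ^ 1)) +
      47/60 * ((ch 6 z - ch 4 z) * (gA z ^ 2 * gB z ^ 2 * gH z ^ 2)) +
      1/4 * ((2 * ch 8 z * (ch 6 z - ch 4 z)) * ch 0 z * ch 0 z * (gA z ^ 0 * gB z ^ 2 * gH z ^ 2)) +
      7/10 * ((2 * ch 8 z * ch 4 z * (ch 6 z - ch 4 z + ch 4 z - ch 2 z)) * ch 0 z * (gA z ^ 0 * gB z ^ 2 * gH z ^ 2))) / (gA z ^ 2 * gB z ^ 2 * gH z ^ 2) = 673/2880 * (((ch 12 z - ch 10 z) * (gA z ^ 2 * gB z ^ 2 * gH z ^ 2)) / (gA z ^ 2 * gB z ^ 2 * gH z ^ 2)) + 23/60 * (((2 * ch 8 z * (ch 6 z - ch 4 z)) * ch 0 z * (gA z ^ 1 * gB z ^ 2 * gH z ^ 2)) / (gA z ^ 2 * gB z ^ 2 * gH z ^ 2)) + 13/288 * (((4 * ch 8 z * ch 4 z * (ch 2 z - ch 0 z)) * ch 0 z * ch 0 z * (gA z ^ 2 * gB z ^ 0 * gH z ^ 2)) / (gA z ^ 2 * gB z ^ 2 * gH z ^ 2)) + 287/1440 * (((ch 14 z - ch 12 z) * ch 0 z * (gA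 z ^ 1 * gB z ^ 2 * gH z ^ 2)) / (gA z ^ 2 * gB z ^ 2 * gH z ^ 2)) + 7/5760 * (((ch 2 z - ch 0 z) * ch 0 z * ch 0 z * ch 0 z * ch 0 z * (gA z ^ 2 * gB z ^ 0 * gH z ^ 0)) / (gA z ^ 2 * gB z ^ 2 * gH z ^ 2)) + 22409/57600 * (((2 * ch 8 z * (ch 2 z - ch 0 z)) * ch 0 z * ch 0 z * (gA z ^ 2 * gB z ^ 2 * gH z ^ 0)) / (gA z ^ 2 * gB z ^ 2 * gH z ^ 2)) + 1/10 * (((4 * ch 8 z * ch 4 z * (ch 3 z - ch 1 z)) * ch 0 z * ch 1 z * ch 0 z * (gA z ^ 2 * gB z ^ 1 * gH z ^ 0)) / (gA z ^ 2 * gB z ^ 2 * gH z ^ 2)) + 281/288 * (((ch 8 z - ch 6 z) * (gA z ^ 2 * gB z ^ 2 * gH z ^ 2)) / (gA z ^ 2 * gB z ^ 2 * gH z ^ 2)) + 10681/14400 * (((2 * ch 8 z * (ch 4 z - ch 2 z)) * ch 0 z * ch 0 z * (gA z ^ 2 * gB z ^ 2 * gH z ^ 0)) / (gA z ^ 2 * gB z ^ 2 * gH z ^ 2)) + 13/1440 * (((2 * ch 8 z * (ch 2 z - ch 0 z)) * ch 0 z * (gA z ^ 1 * gB z ^ 2 * gH z ^ 2)) / (gA z ^ 2 * gB z ^ 2 * gH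 z ^ 2)) + 1/16 * (((ch 4 z - ch 2 z) * ch 0 z * ch 0 z * ch 0 z * ch 0 z * (gA z ^ 2 * gB z ^ 0 * gH z ^ 0)) / (gA z ^ 2 * gB z ^ 2 * gH z ^ 2)) + 2689/2880 * (((ch 14 z - ch 12 z) * (gA z ^ 2 * gB z ^ 2 * gH z ^ 2)) / (gA z ^ 2 * gB z ^ 2 * gH z ^ 2)) + 5/576 * (((4 * ch 8 z * ch 4 z * (ch 2 z - ch 0 z)) * ch 0 z * ch 0 z * ch 0 z * (gA z ^ 2 * gB z ^ 1 * gH z ^ 0)) / (gA z ^ 2 * gB z ^ 2 * gH z ^ 2)) + 191/2880 * (((4 * ch 8 z * ch 4 z * (ch 3 z - ch 1 z)) * ch 1 z * (gA z ^ 2 * gB z ^ 2 * gH z ^ 1)) / (gA z ^ 2 * gB z ^ 2 * gH z ^ 2)) + 47/60 * (((ch 6 z - ch 4 z) * (gA z ^ 2 * gB z ^ 2 * gH z ^ 2)) / (gA z ^ 2 * gB z ^ 2 * gH z ^ 2)) + 1/4 * (((2 * ch 8 z * (ch 6 z - ch 4 z)) * ch 0 z * ch 0 z * (gA z ^ 0 * gB z ^ 2 * gH z ^ 2)) / (gA z ^ 2 * gB z ^ 2 * gH z ^ 2)) + 7/10 * (((2 * ch 8 z * ch 4 z * (ch 6 z - ch 4 z + ch 4 z - ch 2 z)) * ch 0 z *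 (gA z ^ 0 * gB z ^ 2 * gH z ^ 2)) / (gA z ^ 2 * gB z ^ 2 * gH z ^ 2)) := by
    ring
  rw [e3]
  linear_combination - 673/2880 * t0 - 23/60 * t1 - 13/288 * t2 - 287/1440 * t3 - 7/5760 * t4 - 22409/57600 * t5 - 1/10 * t6 - 281/288 * t7 - 10681/14400 * t8 - 13/1440 * t9 - 1/16 * t10 - 2689/2880 * t11 - 5/576 * t12 - 191/2880 * t13 - 47/60 * t14 - 1/4 * t15 - 7/10 * t16

theorem X_S_V : PK fun k => PP k * (Mc .S .V (zk k) - gg (zk k) * al (zk k) - (ch 16 (zk k) - ch 14 (zk k))) := by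
  have g0 := (gD4 (a := 10) (b := 12) (by norm_num) (by norm_num)).smul (c := 673/2880) (by norm_num)
  have g1 := ((gD2 (a := 4) (b := 6) (by norm_num) (by norm_num)).mul (mM (n := 0) (by norm_num))).smul (c := 23/60) (by norm_num)
  have g2 := (((gD1 (a := 0) (b := 2) (by norm_num) (by norm_num)).mul (mP (n := 0) (by norm_num))).mul (mP (n := 0) (by norm_num))).smul (c := 13/288) (by norm_num)
  have g3 := ((gD4 (a := 12) (b := 14) (by norm_num) (by norm_num)).mul (mM (n := 0) (by norm_num))).smul (c := 287/1440) (by norm_num)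
  have g4 := (((((gD4 (a := 0) (b := 2) (by norm_num) (by norm_num)).mul (mP (n := 0) (by norm_num))).mul (mP (n := 0) (by norm_num))).mul (mH (n := 0) (by norm_num))).mul (mH (n := 0) (by norm_num))).smul (c := 7/5760) (by norm_num)
  have g5 := (((gD2 (a := 0) (b := 2) (by norm_num) (by norm_num)).mul (mH (n := 0) (by norm_num))).mul (mH (n := 0) (by norm_num))).smul (c := 22409/57600) (by norm_num)
  have g6 := ((((gD1 (a := 1) (b := 3) (by norm_num) (by norm_num)).mul (mP (n := 0) (by norm_num))).mul (mH (n := 1) (by norm_num))).mul (mH (n := 0) (by norm_num))).smul (c := 1/10) (by norm_num)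
  have g7 := (gD4 (a := 6) (b := 8) (by norm_num) (by norm_num)).smul (c := 281/288) (by norm_num)
  have g8 := (((gD2 (a := 2) (b := 4) (by norm_num) (by norm_num)).mul (mH (n := 0) (by norm_num))).mul (mH (n := 0) (by norm_num))).smul (c := 10681/14400) (by norm_num)
  have g9 := ((gD2 (a := 0) (b := 2) (by norm_num) (by norm_num)).mul (mM (n := 0) (by norm_num))).smul (c := 13/1440) (by norm_num)
  have g10 := (((((gD4 (a := 2) (b := 4) (by norm_num) (by norm_num)).mul (mP (n := 0) (by norm_num))).mul (mP (n := 0) (by norm_num))).mul (mH (n := 0) (by norm_num))).mul (mH (n := 0) (by norm_num))).smul (c := 1/16) (by norm_num)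
  have g11 := (gD4 (a := 12) (b := 14) (by norm_num) (by norm_num)).smul (c := 2689/2880) (by norm_num)
  have g12 := ((((gD1 (a := 0) (b := 2) (by norm_num) (by norm_num)).mul (mP (n := 0) (by norm_num))).mul (mH (n := 0) (by norm_num))).mul (mH (n := 0) (by norm_num))).smul (c := 5/576) (by norm_num)
  have g13 := ((gD1 (a := 1) (b := 3) (by norm_num) (by norm_num)).mul (mH (n := 1) (by norm_num))).smul (c := 191/2880) (by norm_num)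
  have g14 := (gD4 (a := 4) (b := 6) (by norm_num) (by norm_num)).smul (c := 47/60) (by norm_num)
  have g15 := (((gD2 (a := 4) (b := 6) (by norm_num) (by norm_num)).mul (mM (n := 0) (by norm_num))).mul (mM (n := 0) (by norm_num))).smul (c := 1/4) (by norm_num)
  have g16 := ((gCm (a := 0) (b := 2) (by norm_num) (by norm_num)).mul (mM (n := 0) (by norm_num))).smul (c := 7/10) (by norm_num)
  refine ((g0.add (g1.add (g2.add (g3.add (g4.add (g5.add (g6.add (g7.add (g8.add (g9.add (g10.add (g11.add (g12.add (g13.add (g14.add (g15.add g16))))))))))))))))).congr fun k hk => ?_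
  rw [X_S_V_id (zk_pos hk)]
  ring

end NUMH
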