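import Pool.Agent.NUO.GenX
import Pool.Agent.NUO.ChX

/-! certificate of the kernel `Mc .T .T z` (generated by genx.py, helper9) -/

set_option autoImplicit false
set_option linter.unusedSimpArgs false

namespace NUMH

open NUSB NUPosK

theorem X_T_T_poly (z : ℝ) :
    ((2 * xb .T .T z * up z * um z * gH z ^ 0 - ((fXT z + fYT z) * (fXT z + fYT z) * um z - (fXT z - fYT z) * (fXT z - fYT z) * up z)) * gH z ^ 0 + (0) * (2 * up z * um z * gH z ^ 0)) * (gA z ^ 3 * gB z ^ 2 * gH z ^ 0) =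
      ((2 * up z * um z * gH z ^ 0) * gH z ^ 0) * (1 * ((ch 12 z - ch 10 z) * (gA z ^ 3 * gB z ^ 2 * gH z ^ 0)) +
      23/48 * ((ch 12 z - ch 10 z) * ch 0 z * (gA z ^ 2 * gB z ^ 1 * gH z ^ 0)) +
      1/24 * ((ch 4 z - ch 2 z) * (gA z ^ 3 * gB z ^ 2 * gH z ^ 0)) +
      23/48 * ((ch 6 z - ch 4 z) * (gA z ^ 3 * gB z ^ 2 * gH z ^ 0)) +
      11/24 * ((2 * ch 8 z * (ch 6 z - ch 4 z)) * ch 0 z * ch 0 z * (gA z ^ 1 * gB z ^ 2 * gH z ^ 0)) +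
      1/24 * ((ch 12 z - ch 10 z) * ch 0 z * (gA z ^ 2 * gB z ^ 2 * gH z ^ 0)) +
      23/24 * ((ch 10 z - ch 8 z) * (gA z ^ 3 * gB z ^ 2 * gH z ^ 0)) +
      23/24 * ((ch 8 z - ch 6 z) * (gA z ^ 3 * gB z ^ 2 * gH z ^ 0)) +
      1/8 * ((2 * ch 8 z * (ch 4 z - ch 2 z)) * ch 0 z * ch 0 z * (gA z ^ 2 * gB z ^ 0 * gH z ^ 0)) +
      1/24 * ((ch 4 z - ch 2 z) * ch 0 z * (gA z ^ 3 * gB z ^ 1 * gH z ^ 0)) +
      1/6 * ((2 * ch 8 z * ch 4 z * (ch 6 z - ch 4 z + ch 4 z - ch 2 z)) * ch 0 z * ch 2 z * (gA z ^ 0 * gB z ^ 2 * gH z ^ 0)) +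
      1/24 * ((4 * ch 8 z * ch 4 z * (ch 2 z - ch 0 z)) * ch 0 z * (gA z ^ 3 * gB z ^ 1 * gH z ^ 0)) +
      1/16 * ((4 * ch 8 z * ch 4 z * (ch 2 z - ch 0 z)) * ch 0 z * ch 0 z * (gA z ^ 3 * gB z ^ 0 * gH z ^ 0)) +
      7/24 * ((2 * ch 8 z * (ch 4 z - ch 2 z)) * ch 0 z * (gA z ^ 2 * gB z ^ 1 * gH z ^ 0))) := by
  simp only [xb, fX, fY, fXL, fYL, fXT, fYT, fXS, fYS, fXV, fYV, bLT, bLS, bLV, bTS, bTV, xLT, xLS, xLV, xTS, xTV, xSV, bSS, bSV, bVV, gg, up, um, gA, gB, gH, pS, c0, c2, c3, c4, c5, c6, c7, c8, c9, c10, c11, c12, c13, c14, c15, c16]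
  ring

theorem X_T_T_id {z : ℝ} (hz : 0 < z) : Mc .T .T z =
      1 * ((ch 12 z - ch 10 z)) +
      23/48 * ((ch 12 z - ch 10 z) * (ch 0 z / (gA z * gB z))) +
      1/24 * ((ch 4 z - ch 2 z)) +
      23/48 * ((ch 6 z - ch 4 z)) +
      11/24 * ((2 * ch 8 z * (ch 6 z - ch 4 z)) * (ch 0 z / gA z) * (ch 0 z / gA z)) +
      1/24 * ((ch 12 z - ch 10 z) * (ch 0 z / gA z)) +
      23/24 * ((ch 10 z - ch 8 z)) +
      23/24 * ((ch 8 z - ch 6 z)) +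
      1/8 * ((2 * ch 8 z * (ch 4 z - ch 2 z)) * (ch 0 z / gB z) * (ch 0 z / (gA z * gB z))) +
      1/24 * ((ch 4 z - ch 2 z) * (ch 0 z / gB z)) +
      1/6 * ((2 * ch 8 z * ch 4 z * (ch 6 z - ch 4 z + ch 4 z - ch 2 z) / gA z) * (ch 0 z / gA z) * (ch 2 z / gA z)) +
      1/24 * ((4 * ch 8 z * ch 4 z * (ch 2 z - ch 0 z)) * (ch 0 z / gB z)) +
      1/16 * ((4 * ch 8 z * ch 4 z * (ch 2 z - ch 0 z)) * (ch 0 z / gB z) * (ch 0 z / gB z)) +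
      7/24 * ((2 * ch 8 z * (ch 4 z - ch 2 z)) * (ch 0 z / (gA z * gB z))) := by
  have hA := (gA_pos z).ne'
  have hB := (gB_pos z).ne'
  have hH := (gH_pos z).ne'
  have hu := (up_pos hz).ne'
  have hv := (um_pos z).ne'
  have hM : Mc .T .T z = (2 * xb .T .T z * up z * um z * gH z ^ 0 - ((fXT z + fYT z) * (fXT z + fYT z) * um z - (fXT z - fYT z) * (fXT z - fYT z) * up z)) / (2 * up z * um z * gH z ^ 0) := by
    simp only [Mc, fX, fY]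
    generalize up z = u at *
    generalize um z = v at *
    generalize gH z = H at *
    field_simp <;> ring
  have t0 : (ch 12 z - ch 10 z) = ((ch 12 z - ch 10 z) * (gA z ^ 3 * gB z ^ 2 * gH z ^ 0)) / (gA z ^ 3 * gB z ^ 2 * gH z ^ 0) := by
    generalize gA z = A at *
    generalize gB z = B at *
    generalize gH z = H at *
    field_simp
  have t1 : (ch 12 z - ch 10 z) * (ch 0 z / (gA z * gB z)) = ((ch 12 z - ch 10 z) * ch 0 z * (gA z ^ 2 * gB z ^ 1 * gH z ^ 0)) / (gA z ^ 3 * gB z ^ 2 * gH z ^ 0) := by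
    generalize gA z = A at *
    generalize gB z = B at *
    generalize gH z = H at *
    field_simp
  have t2 : (ch 4 z - ch 2 z) = ((ch 4 z - ch 2 z) * (gA z ^ 3 * gB z ^ 2 * gH z ^ 0)) / (gA z ^ 3 * gB z ^ 2 * gH z ^ 0) := by
    generalize gA z = A at *
    generalize gB z = B at *
    generalize gH z = H at *
    field_simp
  have t3 : (ch 6 z - ch 4 z) = ((ch 6 z - ch 4 z) * (gA z ^ 3 * gB z ^ 2 * gH z ^ 0)) / (gA z ^ 3 * gB z ^ 2 * gH z ^ 0) := by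
    generalize gA z = A at *
    generalize gB z = B at *
    generalize gH z = H at *
    field_simp
  have t4 : (2 * ch 8 z * (ch 6 z - ch 4 z)) * (ch 0 z / gA z) * (ch 0 z / gA z) = ((2 * ch 8 z * (ch 6 z - ch 4 z)) * ch 0 z * ch 0 z * (gA z ^ 1 * gB z ^ 2 * gH z ^ 0)) / (gA z ^ 3 * gB z ^ 2 * gH z ^ 0) := by
    generalize gA z = A at *
    generalize gB z = B at *
    generalize gH z = H at *
    field_simp
  have t5 : (ch 12 z - ch 10 z) * (ch 0 z / gA z) = ((ch 12 z - ch 10 z) * ch 0 z * (gA z ^ 2 * gB z ^ 2 * gH z ^ 0)) / (gA z ^ 3 * gB z ^ 2 * gH z ^ 0) := by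
    generalize gA z = A at *
    generalize gB z = B at *
    generalize gH z = H at *
    field_simp
  have t6 : (ch 10 z - ch 8 z) = ((ch 10 z - ch 8 z) * (gA z ^ 3 * gB z ^ 2 * gH z ^ 0)) / (gA z ^ 3 * gB z ^ 2 * gH z ^ 0) := by
    generalize gA z = A at *
    generalize gB z = B at *
    generalize gH z = H at *
    field_simp
  have t7 : (ch 8 z - ch 6 z) = ((ch 8 z - ch 6 z) * (gA z ^ 3 * gB z ^ 2 * gH z ^ 0)) / (gA z ^ 3 * gB z ^ 2 * gH z ^ 0) := by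
    generalize gA z = A at *
    generalize gB z = B at *
    generalize gH z = H at *
    field_simp
  have t8 : (2 * ch 8 z * (ch 4 z - ch 2 z)) * (ch 0 z / gB z) * (ch 0 z / (gA z * gB z)) = ((2 * ch 8 z * (ch 4 z - ch 2 z)) * ch 0 z * ch 0 z * (gA z ^ 2 * gB z ^ 0 * gH z ^ 0)) / (gA z ^ 3 * gB z ^ 2 * gH z ^ 0) := by
    generalize gA z = A at *
    generalize gB z = B at *
    generalize gH z = H at *
    field_simp
  have t9 : (ch 4 z - ch 2 z) * (ch 0 z / gB z) = ((ch 4 z - ch 2 z) * ch 0 z * (gA z ^ 3 * gB z ^ 1 * gH z ^ 0)) / (gA z ^ 3 * gB z ^ 2 * gH z ^ 0) := by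
    generalize gA z = A at *
    generalize gB z = B at *
    generalize gH z = H at *
    field_simp
  have t10 : (2 * ch 8 z * ch 4 z * (ch 6 z - ch 4 z + ch 4 z - ch 2 z) / gA z) * (ch 0 z / gA z) * (ch 2 z / gA z) = ((2 * ch 8 z * ch 4 z * (ch 6 z - ch 4 z + ch 4 z - ch 2 z)) * ch 0 z * ch 2 z * (gA z ^ 0 * gB z ^ 2 * gH z ^ 0)) / (gA z ^ 3 * gB z ^ 2 * gH z ^ 0) := by
    generalize gA z = A at *
    generalize gB z = B at *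
    generalize gH z = H at *
    field_simp
  have t11 : (4 * ch 8 z * ch 4 z * (ch 2 z - ch 0 z)) * (ch 0 z / gB z) = ((4 * ch 8 z * ch 4 z * (ch 2 z - ch 0 z)) * ch 0 z * (gA z ^ 3 * gB z ^ 1 * gH z ^ 0)) / (gA z ^ 3 * gB z ^ 2 * gH z ^ 0) := by
    generalize gA z = A at *
    generalize gB z = B at *
    generalize gH z = H at *
    field_simp
  have t12 : (4 * ch 8 z * ch 4 z * (ch 2 z - ch 0 z)) * (ch 0 z / gB z) * (ch 0 z / gB z) = ((4 * ch 8 z * ch 4 z * (ch 2 z - ch 0 z)) * ch 0 z * ch 0 z * (gA z ^ 3 * gB z ^ 0 * gH z ^ 0)) / (gA z ^ 3 * gB z ^ 2 * gH z ^ 0) := by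
    generalize gA z = A at *
    generalize gB z = B at *
    generalize gH z = H at *
    field_simp
  have t13 : (2 * ch 8 z * (ch 4 z - ch 2 z)) * (ch 0 z / (gA z * gB z)) = ((2 * ch 8 z * (ch 4 z - ch 2 z)) * ch 0 z * (gA z ^ 2 * gB z ^ 1 * gH z ^ 0)) / (gA z ^ 3 * gB z ^ 2 * gH z ^ 0) := by
    generalize gA z = A at *
    generalize gB z = B at *
    generalize gH z = H at *
    field_simp
  have hid := X_T_T_poly z
  have hD : (gA z ^ 3 * gB z ^ 2 * gH z ^ 0) ≠ 0 := by positivity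
  have hE : (2 * up z * um z * gH z ^ 0) * gH z ^ 0 ≠ 0 := by
    have := gH_pos z
    positivity
  have e1 : (2 * xb .T .T z * up z * um z * gH z ^ 0 - ((fXT z + fYT z) * (fXT z + fYT z) * um z - (fXT z - fYT z) * (fXT z - fYT z) * up z)) / (2 * up z * um z * gH z ^ 0) = ((2 * xb .T .T z * up z * um z * gH z ^ 0 - ((fXT z + fYT z) * (fXT z + fYT z) * um z - (fXT z - fYT z) * (fXT z - fYT z) * up z)) * gH z ^ 0 + (0) * (2 * up z * um z * gH z ^ 0)) / ((2 * up z * um z * gH z ^ 0) * gH z ^ 0) := by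
    generalize up z = u at *
    generalize um z = v at *
    generalize gH z = H at *
    field_simp <;> ring
  have e2 : ((2 * xb .T .T z * up z * um z * gH z ^ 0 - ((fXT z + fYT z) * (fXT z + fYT z) * um z - (fXT z - fYT z) * (fXT z - fYT z) * up z)) * gH z ^ 0 + (0) * (2 * up z * um z * gH z ^ 0)) / ((2 * up z * um z * gH z ^ 0) * gH z ^ 0) = (1 * ((ch 12 z - ch 10 z) * (gA z ^ 3 * gB z ^ 2 * gH z ^ 0)) +
      23/48 * ((ch 12 z - ch 10 z) * ch 0 z * (gA z ^ 2 * gB z ^ 1 * gH z ^ 0)) +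
      1/24 * ((ch 4 z - ch 2 z) * (gA z ^ 3 * gB z ^ 2 * gH z ^ 0)) +
      23/48 * ((ch 6 z - ch 4 z) * (gA z ^ 3 * gB z ^ 2 * gH z ^ 0)) +
      11/24 * ((2 * ch 8 z * (ch 6 z - ch 4 z)) * ch 0 z * ch 0 z * (gA z ^ 1 * gB z ^ 2 * gH z ^ 0)) +
      1/24 * ((ch 12 z - ch 10 z) * ch 0 z * (gA z ^ 2 * gB z ^ 2 * gH z ^ 0)) +
      23/24 * ((ch 10 z - ch 8 z) * (gA z ^ 3 * gB z ^ 2 * gH z ^ 0)) +
      23/24 * ((ch 8 z - ch 6 z) * (gA z ^ 3 * gB z ^ 2 * gH z ^ 0)) +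
      1/8 * ((2 * ch 8 z * (ch 4 z - ch 2 z)) * ch 0 z * ch 0 z * (gA z ^ 2 * gB z ^ 0 * gH z ^ 0)) +
      1/24 * ((ch 4 z - ch 2 z) * ch 0 z * (gA z ^ 3 * gB z ^ 1 * gH z ^ 0)) +
      1/6 * ((2 * ch 8 z * ch 4 z * (ch 6 z - ch 4 z + ch 4 z - ch 2 z)) * ch 0 z * ch 2 z * (gA z ^ 0 * gB z ^ 2 * gH z ^ 0)) +
      1/24 * ((4 * ch 8 z * ch 4 z * (ch 2 z - ch 0 z)) * ch 0 z * (gA z ^ 3 * gB z ^ 1 * gH z ^ 0)) +
      1/16 * ((4 * ch 8 z * ch 4 z * (ch 2 z - ch 0 z)) * ch 0 z * ch 0 z * (gA z ^ 3 * gB z ^ 0 * gH z ^ 0)) +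
      7/24 * ((2 * ch 8 z * (ch 4 z - ch 2 z)) * ch 0 z * (gA z ^ 2 * gB z ^ 1 * gH z ^ 0))) / (gA z ^ 3 * gB z ^ 2 * gH z ^ 0) := by
    rw [div_eq_div_iff hE hD]
    rw [hid]
    ring
  rw [hM, e1, e2]
  have e3 : (1 * ((ch 12 z - ch 10 z) * (gA z ^ 3 * gB z ^ 2 * gH z ^ 0)) +
      23/48 * ((ch 12 z - ch 10 z) * ch 0 z * (gA z ^ 2 * gB z ^ 1 * gH z ^ 0)) +
      1/24 * ((ch 4 z - ch 2 z) * (gA z ^ 3 * gB z ^ 2 * gH z ^ 0)) +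
      23/48 * ((ch 6 z - ch 4 z) * (gA z ^ 3 * gB z ^ 2 * gH z ^ 0)) +
      11/24 * ((2 * ch 8 z * (ch 6 z - ch 4 z)) * ch 0 z * ch 0 z * (gA z ^ 1 * gB z ^ 2 * gH z ^ 0)) +
      1/24 * ((ch 12 z - ch 10 z) * ch 0 z * (gA z ^ 2 * gB z ^ 2 * gH z ^ 0)) +
      23/24 * ((ch 10 z - ch 8 z) * (gA z ^ 3 * gB z ^ 2 * gH z ^ 0)) +
      23/24 * ((ch 8 z - ch 6 z) * (gA z ^ 3 * gB z ^ 2 * gH z ^ 0)) +
      1/8 * ((2 * ch 8 z * (ch 4 z - ch 2 z)) * ch 0 z * ch 0 z * (gA z ^ 2 * gB z ^ 0 * gH z ^ 0)) +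
      1/24 * ((ch 4 z - ch 2 z) * ch 0 z * (gA z ^ 3 * gB z ^ 1 * gH z ^ 0)) +
      1/6 * ((2 * ch 8 z * ch 4 z * (ch 6 z - ch 4 z + ch 4 z - ch 2 z)) * ch 0 z * ch 2 z * (gA z ^ 0 * gB z ^ 2 * gH z ^ 0)) +
      1/24 * ((4 * ch 8 z * ch 4 z * (ch 2 z - ch 0 z)) * ch 0 z * (gA z ^ 3 * gB z ^ 1 * gH z ^ 0)) +
      1/16 * ((4 * ch 8 z * ch 4 z * (ch 2 z - ch 0 z)) * ch 0 z * ch 0 z * (gA z ^ 3 * gB z ^ 0 * gH z ^ 0)) +
      7/24 * ((2 * ch 8 z * (ch 4 z - ch 2 z)) * ch 0 z * (gA z ^ 2 * gB z ^ 1 * gH z ^ 0))) / (gA z ^ 3 * gB z ^ 2 * gH z ^ 0) = 1 * (((ch 12 z - ch 10 z) * (gA z ^ 3 * gB z ^ 2 * gH z ^ 0)) / (gA z ^ 3 * gB z ^ 2 * gH z ^ 0)) + 23/48 * (((ch 12 z - ch 10 z) * ch 0 z * (gA z ^ 2 * gB z ^ 1 * gH z ^ 0)) / (gA z ^ 3 * gB z ^ 2 * gH z ^ 0)) + 1/24 * (((ch 4 z - ch 2 z) * (gA z ^ 3 * gB z ^ 2 * gH z ^ 0)) / (gA z ^ 3 * gB z ^ 2 * gH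 z ^ 0)) + 23/48 * (((ch 6 z - ch 4 z) * (gA z ^ 3 * gB z ^ 2 * gH z ^ 0)) / (gA z ^ 3 * gB z ^ 2 * gH z ^ 0)) + 11/24 * (((2 * ch 8 z * (ch 6 z - ch 4 z)) * ch 0 z * ch 0 z * (gA z ^ 1 * gB z ^ 2 * gH z ^ 0)) / (gA z ^ 3 * gB z ^ 2 * gH z ^ 0)) + 1/24 * (((ch 12 z - ch 10 z) * ch 0 z * (gA z ^ 2 * gB z ^ 2 * gH z ^ 0)) / (gA z ^ 3 * gB z ^ 2 * gH z ^ 0)) + 23/24 * (((ch 10 z - ch 8 z) * (gA z ^ 3 * gB z ^ 2 * gH z ^ 0)) / (gA z ^ 3 * gB z ^ 2 * gH z ^ 0)) + 23/24 * (((ch 8 z - ch 6 z) * (gA z ^ 3 * gB z ^ 2 * gH z ^ 0)) / (gA z ^ 3 * gB z ^ 2 * gH z ^ 0)) + 1/8 * (((2 * ch 8 z * (ch 4 z - ch 2 z)) * ch 0 z * ch 0 z * (gA z ^ 2 * gB z ^ 0 * gH z ^ 0)) / (gA z ^ 3 * gB z ^ 2 * gH z ^ 0)) + 1/24 * (((ch 4 z - ch 2 z) * ch 0 z * (gA z ^ 3 * gB z ^ 1 * gH z ^ 0)) / (gA z ^ 3 * gB z ^ 2 * gH z ^ 0)) + 1/6 * (((2 * ch 8 z * ch 4 z * (ch 6 z - ch 4 z +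 ch 4 z - ch 2 z)) * ch 0 z * ch 2 z * (gA z ^ 0 * gB z ^ 2 * gH z ^ 0)) / (gA z ^ 3 * gB z ^ 2 * gH z ^ 0)) + 1/24 * (((4 * ch 8 z * ch 4 z * (ch 2 z - ch 0 z)) * ch 0 z * (gA z ^ 3 * gB z ^ 1 * gH z ^ 0)) / (gA z ^ 3 * gB z ^ 2 * gH z ^ 0)) + 1/16 * (((4 * ch 8 z * ch 4 z * (ch 2 z - ch 0 z)) * ch 0 z * ch 0 z * (gA z ^ 3 * gB z ^ 0 * gH z ^ 0)) / (gA z ^ 3 * gB z ^ 2 * gH z ^ 0)) + 7/24 * (((2 * ch 8 z * (ch 4 z - ch 2 z)) * ch 0 z * (gA z ^ 2 * gB z ^ 1 * gH z ^ 0)) / (gA z ^ 3 * gB z ^ 2 * gH z ^ 0)) := by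
    ring
  rw [e3]
  linear_combination - 1 * t0 - 23/48 * t1 - 1/24 * t2 - 23/48 * t3 - 11/24 * t4 - 1/24 * t5 - 23/24 * t6 - 23/24 * t7 - 1/8 * t8 - 1/24 * t9 - 1/6 * t10 - 1/24 * t11 - 1/16 * t12 - 7/24 * t13

theorem X_T_T : PK fun k => PP k * (Mc .T .T (zk k)) := by
  have g0 := (gD4 (a := 10) (b := 12) (by norm_num) (by norm_num)).smul (c := 1) (by norm_num)
  have g1 := ((gD4 (a := 10) (b := 12) (by norm_num) (by norm_num)).mul (mQ (n := 0) (by norm_num))).smul (c := 23/48) (by norm_num)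
  have g2 := (gD4 (a := 2) (b := 4) (by norm_num) (by norm_num)).smul (c := 1/24) (by norm_num)
  have g3 := (gD4 (a := 4) (b := 6) (by norm_num) (by norm_num)).smul (c := 23/48) (by norm_num)
  have g4 := (((gD2 (a := 4) (b := 6) (by norm_num) (by norm_num)).mul (mM (n := 0) (by norm_num))).mul (mM (n := 0) (by norm_num))).smul (c := 11/24) (by norm_num)
  have g5 := ((gD4 (a := 10) (b := 12) (by norm_num) (by norm_num)).mul (mM (n := 0) (by norm_num))).smul (c := 1/24) (by norm_num)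
  have g6 := (gD4 (a := 8) (b := 10) (by norm_num) (by norm_num)).smul (c := 23/24) (by norm_num)
  have g7 := (gD4 (a := 6) (b := 8) (by norm_num) (by norm_num)).smul (c := 23/24) (by norm_num)
  have g8 := (((gD2 (a := 2) (b := 4) (by norm_num) (by norm_num)).mul (mP (n := 0) (by norm_num))).mul (mQ (n := 0) (by norm_num))).smul (c := 1/8) (by norm_num)
  have g9 := ((gD4 (a := 2) (b := 4) (by norm_num) (by norm_num)).mul (mP (n := 0) (by norm_num))).smul (c := 1/24) (by norm_num)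
  have g10 := (((gCm (a := 0) (b := 2) (by norm_num) (by norm_num)).mul (mM (n := 0) (by norm_num))).mul (mM (n := 2) (by norm_num))).smul (c := 1/6) (by norm_num)
  have g11 := ((gD1 (a := 0) (b := 2) (by norm_num) (by norm_num)).mul (mP (n := 0) (by norm_num))).smul (c := 1/24) (by norm_num)
  have g12 := (((gD1 (a := 0) (b := 2) (by norm_num) (by norm_num)).mul (mP (n := 0) (by norm_num))).mul (mP (n := 0) (by norm_num))).smul (c := 1/16) (by norm_num)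
  have g13 := ((gD2 (a := 2) (b := 4) (by norm_num) (by norm_num)).mul (mQ (n := 0) (by norm_num))).smul (c := 7/24) (by norm_num)
  refine ((g0.add (g1.add (g2.add (g3.add (g4.add (g5.add (g6.add (g7.add (g8.add (g9.add (g10.add (g11.add (g12.add g13)))))))))))))).congr fun k hk => ?_
  rw [X_T_T_id (zk_pos hk)]
  ring

end NUMH
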