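import Pool.Agent.NUO.GenX
import Pool.Agent.NUO.ChX

/-! certificate of the kernel `Mc .T .V z` (generated by genx.py, helper9) -/

set_option autoImplicit false
set_option linter.unusedSimpArgs false

namespace NUMH

open NUSB NUPosK

theorem X_T_V_poly (z : ℝ) :
    ((2 * xb .T .V z * up z * um z * gH z ^ 0 - ((fXT z + fYT z) * (fXV z + fYV z) * um z - (fXT z - fYT z) * (fXV z - fYV z) * up z)) * gH z ^ 0 + (0) * (2 * up z * um z * gH z ^ 0)) * (gA z ^ 2 * gB z ^ 2 * gH z ^ 0) =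
      ((2 * up z * um z * gH z ^ 0) * gH z ^ 0) * (1/4 * ((2 * ch 8 z * (ch 5 z - ch 3 z)) * ch 0 z * ch 0 z * (gA z ^ 0 * gB z ^ 2 * gH z ^ 0)) +
      1/8 * ((ch 5 z - ch 3 z) * (gA z ^ 2 * gB z ^ 2 * gH z ^ 0)) +
      1/8 * ((ch 5 z - ch 3 z) * ch 0 z * (gA z ^ 2 * gB z ^ 1 * gH z ^ 0)) +
      3/8 * ((2 * ch 8 z * (ch 7 z - ch 5 z)) * ch 0 z * (gA z ^ 1 * gB z ^ 2 * gH z ^ 0)) +
      7/8 * ((ch 9 z - ch 7 z) * (gA z ^ 2 * gB z ^ 2 * gH z ^ 0)) +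
      1/4 * ((2 * ch 8 z * (ch 3 z - ch 1 z)) * ch 0 z * (gA z ^ 2 * gB z ^ 1 * gH z ^ 0)) +
      1 * ((ch 11 z - ch 9 z) * (gA z ^ 2 * gB z ^ 2 * gH z ^ 0)) +
      1/8 * ((2 * ch 8 z * (ch 3 z - ch 1 z)) * ch 0 z * ch 0 z * (gA z ^ 2 * gB z ^ 0 * gH z ^ 0)) +
      5/8 * ((2 * ch 8 z * (ch 5 z - ch 3 z)) * ch 0 z * (gA z ^ 1 * gB z ^ 2 * gH z ^ 0)) +
      1 * ((ch 13 z - ch 11 z) * (gA z ^ 2 * gB z ^ 2 * gH z ^ 0)) +
      1 * ((ch 7 z - ch 5 z) * (gA z ^ 2 * gB z ^ 2 * gH z ^ 0)) +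
      1/4 * ((2 * ch 8 z * ch 4 z * (ch 7 z - ch 5 z + ch 3 z - ch 1 z)) * ch 0 z * (gA z ^ 0 * gB z ^ 2 * gH z ^ 0))) := by
  simp only [xb, fX, fY, fXL, fYL, fXT, fYT, fXS, fYS, fXV, fYV, bLT, bLS, bLV, bTS, bTV, xLT, xLS, xLV, xTS, xTV, xSV, bSS, bSV, bVV, gg, up, um, gA, gB, gH, pS, c0, c2, c3, c4, c5, c6, c7, c8, c9, c10, c11, c12, c13, c14, c15, c16]
  ring

theorem X_T_V_id {z : ℝ} (hz : 0 < z) : Mc .T .V z =
      1/4 * ((2 * ch 8 z * (ch 5 z - ch 3 z)) * (ch 0 z / gA z) * (ch 0 z / gA z)) +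
      1/8 * ((ch 5 z - ch 3 z)) +
      1/8 * ((ch 5 z - ch 3 z) * (ch 0 z / gB z)) +
      3/8 * ((2 * ch 8 z * (ch 7 z - ch 5 z)) * (ch 0 z / gA z)) +
      7/8 * ((ch 9 z - ch 7 z)) +
      1/4 * ((2 * ch 8 z * (ch 3 z - ch 1 z)) * (ch 0 z / gB z)) +
      1 * ((ch 11 z - ch 9 z)) +
      1/8 * ((2 * ch 8 z * (ch 3 z - ch 1 z)) * (ch 0 z / gB z) * (ch 0 z / gB z)) +
      5/8 * ((2 * ch 8 z * (ch 5 z - ch 3 z)) * (ch 0 z / gA z)) +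
      1 * ((ch 13 z - ch 11 z)) +
      1 * ((ch 7 z - ch 5 z)) +
      1/4 * ((2 * ch 8 z * ch 4 z * (ch 7 z - ch 5 z + ch 3 z - ch 1 z) / gA z) * (ch 0 z / gA z)) := by
  have hA := (gA_pos z).ne'
  have hB := (gB_pos z).ne'
  have hH := (gH_pos z).ne'
  have hu := (up_pos hz).ne'
  have hv := (um_pos z).ne'
  have hM : Mc .T .V z = (2 * xb .T .V z * up z * um z * gH z ^ 0 - ((fXT z + fYT z) * (fXV z + fYV z) * um z - (fXT z - fYT z) * (fXV z - fYV z) * up z)) / (2 * up z * um z * gH z ^ 0) := by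
    simp only [Mc, fX, fY]
    generalize up z = u at *
    generalize um z = v at *
    generalize gH z = H at *
    field_simp <;> ring
  have t0 : (2 * ch 8 z * (ch 5 z - ch 3 z)) * (ch 0 z / gA z) * (ch 0 z / gA z) = ((2 * ch 8 z * (ch 5 z - ch 3 z)) * ch 0 z * ch 0 z * (gA z ^ 0 * gB z ^ 2 * gH z ^ 0)) / (gA z ^ 2 * gB z ^ 2 * gH z ^ 0) := by
    generalize gA z = A at *
    generalize gB z = B at *
    generalize gH z = H at *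
    field_simp
  have t1 : (ch 5 z - ch 3 z) = ((ch 5 z - ch 3 z) * (gA z ^ 2 * gB z ^ 2 * gH z ^ 0)) / (gA z ^ 2 * gB z ^ 2 * gH z ^ 0) := by
    generalize gA z = A at *
    generalize gB z = B at *
    generalize gH z = H at *
    field_simp
  have t2 : (ch 5 z - ch 3 z) * (ch 0 z / gB z) = ((ch 5 z - ch 3 z) * ch 0 z * (gA z ^ 2 * gB z ^ 1 * gH z ^ 0)) / (gA z ^ 2 * gB z ^ 2 * gH z ^ 0) := by
    generalize gA z = A at *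
    generalize gB z = B at *
    generalize gH z = H at *
    field_simp
  have t3 : (2 * ch 8 z * (ch 7 z - ch 5 z)) * (ch 0 z / gA z) = ((2 * ch 8 z * (ch 7 z - ch 5 z)) * ch 0 z * (gA z ^ 1 * gB z ^ 2 * gH z ^ 0)) / (gA z ^ 2 * gB z ^ 2 * gH z ^ 0) := by
    generalize gA z = A at *
    generalize gB z = B at *
    generalize gH z = H at *
    field_simp
  have t4 : (ch 9 z - ch 7 z) = ((ch 9 z - ch 7 z) * (gA z ^ 2 * gB z ^ 2 * gH z ^ 0)) / (gA z ^ 2 * gB z ^ 2 * gH z ^ 0) := by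
    generalize gA z = A at *
    generalize gB z = B at *
    generalize gH z = H at *
    field_simp
  have t5 : (2 * ch 8 z * (ch 3 z - ch 1 z)) * (ch 0 z / gB z) = ((2 * ch 8 z * (ch 3 z - ch 1 z)) * ch 0 z * (gA z ^ 2 * gB z ^ 1 * gH z ^ 0)) / (gA z ^ 2 * gB z ^ 2 * gH z ^ 0) := by
    generalize gA z = A at *
    generalize gB z = B at *
    generalize gH z = H at *
    field_simp
  have t6 : (ch 11 z - ch 9 z) = ((ch 11 z - ch 9 z) * (gA z ^ 2 * gB z ^ 2 * gH z ^ 0)) / (gA z ^ 2 * gB z ^ 2 * gH z ^ 0) := by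
    generalize gA z = A at *
    generalize gB z = B at *
    generalize gH z = H at *
    field_simp
  have t7 : (2 * ch 8 z * (ch 3 z - ch 1 z)) * (ch 0 z / gB z) * (ch 0 z / gB z) = ((2 * ch 8 z * (ch 3 z - ch 1 z)) * ch 0 z * ch 0 z * (gA z ^ 2 * gB z ^ 0 * gH z ^ 0)) / (gA z ^ 2 * gB z ^ 2 * gH z ^ 0) := by
    generalize gA z = A at *
    generalize gB z = B at *
    generalize gH z = H at *
    field_simp
  have t8 : (2 * ch 8 z * (ch 5 z - ch 3 z)) * (ch 0 z / gA z) = ((2 * ch 8 z * (ch 5 z - ch 3 z)) * ch 0 z * (gA z ^ 1 * gB z ^ 2 * gH z ^ 0)) / (gA z ^ 2 * gB z ^ 2 * gH z ^ 0) := by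
    generalize gA z = A at *
    generalize gB z = B at *
    generalize gH z = H at *
    field_simp
  have t9 : (ch 13 z - ch 11 z) = ((ch 13 z - ch 11 z) * (gA z ^ 2 * gB z ^ 2 * gH z ^ 0)) / (gA z ^ 2 * gB z ^ 2 * gH z ^ 0) := by
    generalize gA z = A at *
    generalize gB z = B at *
    generalize gH z = H at *
    field_simp
  have t10 : (ch 7 z - ch 5 z) = ((ch 7 z - ch 5 z) * (gA z ^ 2 * gB z ^ 2 * gH z ^ 0)) / (gA z ^ 2 * gB z ^ 2 * gH z ^ 0) := by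
    generalize gA z = A at *
    generalize gB z = B at *
    generalize gH z = H at *
    field_simp
  have t11 : (2 * ch 8 z * ch 4 z * (ch 7 z - ch 5 z + ch 3 z - ch 1 z) / gA z) * (ch 0 z / gA z) = ((2 * ch 8 z * ch 4 z * (ch 7 z - ch 5 z + ch 3 z - ch 1 z)) * ch 0 z * (gA z ^ 0 * gB z ^ 2 * gH z ^ 0)) / (gA z ^ 2 * gB z ^ 2 * gH z ^ 0) := by
    generalize gA z = A at *
    generalize gB z = B at *
    generalize gH z = H at *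
    field_simp
  have hid := X_T_V_poly z
  have hD : (gA z ^ 2 * gB z ^ 2 * gH z ^ 0) ≠ 0 := by positivity
  have hE : (2 * up z * um z * gH z ^ 0) * gH z ^ 0 ≠ 0 := by
    have := gH_pos z
    positivity
  have e1 : (2 * xb .T .V z * up z * um z * gH z ^ 0 - ((fXT z + fYT z) * (fXV z + fYV z) * um z - (fXT z - fYT z) * (fXV z - fYV z) * up z)) / (2 * up z * um z * gH z ^ 0) = ((2 * xb .T .V z * up z * um z * gH z ^ 0 - ((fXT z + fYT z) * (fXV z + fYV z) * um z - (fXT z - fYT z) * (fXV z - fYV z) * up z)) * gH z ^ 0 + (0) * (2 * up z * um z * gH z ^ 0)) / ((2 * up z * um z * gH z ^ 0) * gH z ^ 0) := by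
    generalize up z = u at *
    generalize um z = v at *
    generalize gH z = H at *
    field_simp <;> ring
  have e2 : ((2 * xb .T .V z * up z * um z * gH z ^ 0 - ((fXT z + fYT z) * (fXV z + fYV z) * um z - (fXT z - fYT z) * (fXV z - fYV z) * up z)) * gH z ^ 0 + (0) * (2 * up z * um z * gH z ^ 0)) / ((2 * up z * um z * gH z ^ 0) * gH z ^ 0) = (1/4 * ((2 * ch 8 z * (ch 5 z - ch 3 z)) * ch 0 z * ch 0 z * (gA z ^ 0 * gB z ^ 2 * gH z ^ 0)) +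
      1/8 * ((ch 5 z - ch 3 z) * (gA z ^ 2 * gB z ^ 2 * gH z ^ 0)) +
      1/8 * ((ch 5 z - ch 3 z) * ch 0 z * (gA z ^ 2 * gB z ^ 1 * gH z ^ 0)) +
      3/8 * ((2 * ch 8 z * (ch 7 z - ch 5 z)) * ch 0 z * (gA z ^ 1 * gB z ^ 2 * gH z ^ 0)) +
      7/8 * ((ch 9 z - ch 7 z) * (gA z ^ 2 * gB z ^ 2 * gH z ^ 0)) +
      1/4 * ((2 * ch 8 z * (ch 3 z - ch 1 z)) * ch 0 z * (gA z ^ 2 * gB z ^ 1 * gH z ^ 0)) +
      1 * ((ch 11 z - ch 9 z) * (gA z ^ 2 * gB z ^ 2 * gH z ^ 0)) +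
      1/8 * ((2 * ch 8 z * (ch 3 z - ch 1 z)) * ch 0 z * ch 0 z * (gA z ^ 2 * gB z ^ 0 * gH z ^ 0)) +
      5/8 * ((2 * ch 8 z * (ch 5 z - ch 3 z)) * ch 0 z * (gA z ^ 1 * gB z ^ 2 * gH z ^ 0)) +
      1 * ((ch 13 z - ch 11 z) * (gA z ^ 2 * gB z ^ 2 * gH z ^ 0)) +
      1 * ((ch 7 z - ch 5 z) * (gA z ^ 2 * gB z ^ 2 * gH z ^ 0)) +
      1/4 * ((2 * ch 8 z * ch 4 z * (ch 7 z - ch 5 z + ch 3 z - ch 1 z)) * ch 0 z * (gA z ^ 0 * gB z ^ 2 * gH z ^ 0))) / (gA z ^ 2 * gB z ^ 2 * gH z ^ 0) := by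
    rw [div_eq_div_iff hE hD]
    rw [hid]
    ring
  rw [hM, e1, e2]
  have e3 : (1/4 * ((2 * ch 8 z * (ch 5 z - ch 3 z)) * ch 0 z * ch 0 z * (gA z ^ 0 * gB z ^ 2 * gH z ^ 0)) +
      1/8 * ((ch 5 z - ch 3 z) * (gA z ^ 2 * gB z ^ 2 * gH z ^ 0)) +
      1/8 * ((ch 5 z - ch 3 z) * ch 0 z * (gA z ^ 2 * gB z ^ 1 * gH z ^ 0)) +
      3/8 * ((2 * ch 8 z * (ch 7 z - ch 5 z)) * ch 0 z * (gA z ^ 1 * gB z ^ 2 * gH z ^ 0)) +
      7/8 * ((ch 9 z - ch 7 z) * (gA z ^ 2 * gB z ^ 2 * gH z ^ 0)) +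
      1/4 * ((2 * ch 8 z * (ch 3 z - ch 1 z)) * ch 0 z * (gA z ^ 2 * gB z ^ 1 * gH z ^ 0)) +
      1 * ((ch 11 z - ch 9 z) * (gA z ^ 2 * gB z ^ 2 * gH z ^ 0)) +
      1/8 * ((2 * ch 8 z * (ch 3 z - ch 1 z)) * ch 0 z * ch 0 z * (gA z ^ 2 * gB z ^ 0 * gH z ^ 0)) +
      5/8 * ((2 * ch 8 z * (ch 5 z - ch 3 z)) * ch 0 z * (gA z ^ 1 * gB z ^ 2 * gH z ^ 0)) +
      1 * ((ch 13 z - ch 11 z) * (gA z ^ 2 * gB z ^ 2 * gH z ^ 0)) +
      1 * ((ch 7 z - ch 5 z) * (gA z ^ 2 * gB z ^ 2 * gH z ^ 0)) +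
      1/4 * ((2 * ch 8 z * ch 4 z * (ch 7 z - ch 5 z + ch 3 z - ch 1 z)) * ch 0 z * (gA z ^ 0 * gB z ^ 2 * gH z ^ 0))) / (gA z ^ 2 * gB z ^ 2 * gH z ^ 0) = 1/4 * (((2 * ch 8 z * (ch 5 z - ch 3 z)) * ch 0 z * ch 0 z * (gA z ^ 0 * gB z ^ 2 * gH z ^ 0)) / (gA z ^ 2 * gB z ^ 2 * gH z ^ 0)) + 1/8 * (((ch 5 z - ch 3 z) * (gA z ^ 2 * gB z ^ 2 * gH z ^ 0)) / (gA z ^ 2 * gB z ^ 2 * gH z ^ 0)) + 1/8 * (((ch 5 z - ch 3 z) * ch 0 z * (gA z ^ 2 * gB z ^ 1 * gH z ^ 0)) / (gA z ^ 2 * gB z ^ 2 * gH z ^ 0)) + 3/8 * (((2 * ch 8 z * (ch 7 z - ch 5 z)) * ch 0 z * (gA z ^ 1 * gB z ^ 2 * gH z ^ 0)) / (gA z ^ 2 * gB z ^ 2 * gH z ^ 0)) + 7/8 * (((ch 9 z - ch 7 z) * (gA z ^ 2 * gB z ^ 2 * gH z ^ 0)) / (gA z ^ 2 * gB z ^ 2 * gH z ^ 0)) + 1/4 * (((2 * ch 8 z * (ch 3 z - ch 1 z)) * ch 0 z * (gA z ^ 2 * gB z ^ 1 * gH z ^ 0)) / (gA z ^ 2 * gB z ^ 2 * gH z ^ 0)) + 1 * (((ch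 11 z - ch 9 z) * (gA z ^ 2 * gB z ^ 2 * gH z ^ 0)) / (gA z ^ 2 * gB z ^ 2 * gH z ^ 0)) + 1/8 * (((2 * ch 8 z * (ch 3 z - ch 1 z)) * ch 0 z * ch 0 z * (gA z ^ 2 * gB z ^ 0 * gH z ^ 0)) / (gA z ^ 2 * gB z ^ 2 * gH z ^ 0)) + 5/8 * (((2 * ch 8 z * (ch 5 z - ch 3 z)) * ch 0 z * (gA z ^ 1 * gB z ^ 2 * gH z ^ 0)) / (gA z ^ 2 * gB z ^ 2 * gH z ^ 0)) + 1 * (((ch 13 z - ch 11 z) * (gA z ^ 2 * gB z ^ 2 * gH z ^ 0)) / (gA z ^ 2 * gB z ^ 2 * gH z ^ 0)) + 1 * (((ch 7 z - ch 5 z) * (gA z ^ 2 * gB z ^ 2 * gH z ^ 0)) / (gA z ^ 2 * gB z ^ 2 * gH z ^ 0)) + 1/4 * (((2 * ch 8 z * ch 4 z * (ch 7 z - ch 5 z + ch 3 z - ch 1 z)) * ch 0 z * (gA z ^ 0 * gB z ^ 2 * gH z ^ 0)) / (gA z ^ 2 * gB z ^ 2 * gH z ^ 0)) := by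
    ring
  rw [e3]
  linear_combination - 1/4 * t0 - 1/8 * t1 - 1/8 * t2 - 3/8 * t3 - 7/8 * t4 - 1/4 * t5 - 1 * t6 - 1/8 * t7 - 5/8 * t8 - 1 * t9 - 1 * t10 - 1/4 * t11

theorem X_T_V : PK fun k => PP k * (Mc .T .V (zk k)) := by
  have g0 := (((gD2 (a := 3) (b := 5) (by norm_num) (by norm_num)).mul (mM (n := 0) (by norm_num))).mul (mM (n := 0) (by norm_num))).smul (c := 1/4) (by norm_num)
  have g1 := (gD4 (a := 3) (b := 5) (by norm_num) (by norm_num)).smul (c := 1/8) (by norm_num)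
  have g2 := ((gD4 (a := 3) (b := 5) (by norm_num) (by norm_num)).mul (mP (n := 0) (by norm_num))).smul (c := 1/8) (by norm_num)
  have g3 := ((gD2 (a := 5) (b := 7) (by norm_num) (by norm_num)).mul (mM (n := 0) (by norm_num))).smul (c := 3/8) (by norm_num)
  have g4 := (gD4 (a := 7) (b := 9) (by norm_num) (by norm_num)).smul (c := 7/8) (by norm_num)
  have g5 := ((gD2 (a := 1) (b := 3) (by norm_num) (by norm_num)).mul (mP (n := 0) (by norm_num))).smul (c := 1/4) (by norm_num)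
  have g6 := (gD4 (a := 9) (b := 11) (by norm_num) (by norm_num)).smul (c := 1) (by norm_num)
  have g7 := (((gD2 (a := 1) (b := 3) (by norm_num) (by norm_num)).mul (mP (n := 0) (by norm_num))).mul (mP (n := 0) (by norm_num))).smul (c := 1/8) (by norm_num)
  have g8 := ((gD2 (a := 3) (b := 5) (by norm_num) (by norm_num)).mul (mM (n := 0) (by norm_num))).smul (c := 5/8) (by norm_num)
  have g9 := (gD4 (a := 11) (b := 13) (by norm_num) (by norm_num)).smul (c := 1) (by norm_num)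
  have g10 := (gD4 (a := 5) (b := 7) (by norm_num) (by norm_num)).smul (c := 1) (by norm_num)
  have g11 := ((gCm (a := 1) (b := 3) (by norm_num) (by norm_num)).mul (mM (n := 0) (by norm_num))).smul (c := 1/4) (by norm_num)
  refine ((g0.add (g1.add (g2.add (g3.add (g4.add (g5.add (g6.add (g7.add (g8.add (g9.add (g10.add g11)))))))))))).congr fun k hk => ?_
  rw [X_T_V_id (zk_pos hk)]
  ring

end NUMH
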