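import Pool.Agent.NUO.GenX
import Pool.Agent.NUO.ChX

/-! certificate of the kernel `Mc .V .V z + gg z * al z ^ 2 - 2 * (ch 16 z - ch 14 z)` (generated by genx.py, helper9) -/

set_option autoImplicit false
set_option linter.unusedSimpArgs false

namespace NUMH

open NUSB NUPosK

theorem X_V_V_poly (z : ℝ) :
    ((2 * xb .V .V z * up z * um z * gH z ^ 0 - ((fXV z + fYV z) * (fXV z + fYV z) * um z - (fXV z - fYV z) * (fXV z - fYV z) * up z)) * gH z ^ 4 + (0 + gg z * (gH z ^ 2 - 3 / 5) ^ 2 - 2 * ((ch 16 z - ch 14 z) * gH z ^ 4)) * (2 * up z * um z * gH z ^ 0)) * (gA z ^ 1 * gB z ^ 2 * gH z ^ 4) =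
      ((2 * up z * um z * gH z ^ 0) * gH z ^ 4) * (2923/1750 * ((ch 10 z - ch 8 z) * (gA z ^ 1 * gB z ^ 2 * gH z ^ 4)) +
      2437/1400 * ((ch 4 z - ch 2 z) * (gA z ^ 1 * gB z ^ 2 * gH z ^ 4)) +
      2 * ((4 * ch 8 z * ch 4 z * (ch 3 z - ch 1 z)) * ch 1 z * (gA z ^ 1 * gB z ^ 2 * gH z ^ 3)) +
      10/9 * ((2 * ch 8 z * (ch 6 z - ch 4 z)) * ch 0 z * (gA z ^ 0 * gB z ^ 2 * gH z ^ 4)) +
      1/32 * ((2 * ch 8 z * (ch 2 z - ch 0 z)) * ch 0 z * ch 0 z * ch 0 z * ch 0 z * ch 0 z * ch 0 z * (gA z ^ 0 * gB z ^ 0 * gH z ^ 0)) +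
      24907/63000 * ((4 * ch 8 z * ch 4 z * (ch 2 z - ch 0 z)) * ch 0 z * (gA z ^ 1 * gB z ^ 2 * gH z ^ 3)) +
      285503/336000 * ((2 * ch 8 z * (ch 4 z - ch 2 z)) * ch 0 z * ch 0 z * ch 0 z * ch 0 z * (gA z ^ 1 * gB z ^ 2 * gH z ^ 0)) +
      18/35 * ((ch 6 z - ch 4 z) * (gA z ^ 1 * gB z ^ 2 * gH z ^ 4)) +
      96/875 * ((ch 8 z - ch 6 z) * (gA z ^ 1 * gB z ^ 2 * gH z ^ 4)) +
      19193/63000 * ((4 * ch 8 z * ch 4 z * (ch 3 z - ch 1 z)) * ch 1 z * ch 0 z * (gA z ^ 1 * gB z ^ 2 * gH z ^ 2)) +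
      2749/84000 * ((2 * ch 8 z * (ch 5 z - ch 3 z)) * ch 1 z * ch 0 z * ch 0 z * ch 0 z * (gA z ^ 1 * gB z ^ 2 * gH z ^ 0)) +
      139/1600 * ((ch 14 z - ch 12 z) * ch 0 z * ch 0 z * ch 0 z * ch 0 z * (gA z ^ 1 * gB z ^ 2 * gH z ^ 0)) +
      9/700 * ((4 * ch 8 z * ch 4 z * (ch 2 z - ch 0 z)) * ch 0 z * ch 0 z * ch 0 z * ch 0 z * ch 0 z * (gA z ^ 1 * gB z ^ 1 * gH z ^ 0)) +
      103/5600 * ((ch 2 z - ch 0 z) * ch 0 z * ch 0 z * ch 0 z * ch 0 z * ch 0 z * (gA z ^ 1 * gB z ^ 1 * gH z ^ 0)) +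
      7/18 * ((2 * ch 8 z * (ch 4 z - ch 2 z)) * ch 0 z * (gA z ^ 0 * gB z ^ 2 * gH z ^ 4)) +
      1/32 * ((ch 8 z - ch 6 z) * ch 0 z * ch 0 z * ch 0 z * ch 0 z * ch 0 z * (gA z ^ 1 * gB z ^ 1 * gH z ^ 0))) := by
  simp only [xb, fX, fY, fXL, fYL, fXT, fYT, fXS, fYS, fXV, fYV, bLT, bLS, bLV, bTS, bTV, xLT, xLS, xLV, xTS, xTV, xSV, bSS, bSV, bVV, gg, up, um, gA, gB, gH, pS, c0, c2, c3, c4, c5, c6, c7, c8, c9, c10, c11, c12, c13, c14, c15, c16]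
  ring

theorem X_V_V_id {z : ℝ} (hz : 0 < z) : Mc .V .V z + gg z * al z ^ 2 - 2 * (ch 16 z - ch 14 z) =
      2923/1750 * ((ch 10 z - ch 8 z)) +
      2437/1400 * ((ch 4 z - ch 2 z)) +
      2 * ((4 * ch 8 z * ch 4 z * (ch 3 z - ch 1 z)) * (ch 1 z / gH z)) +
      10/9 * ((2 * ch 8 z * (ch 6 z - ch 4 z)) * (ch 0 z / gA z)) +
      1/32 * ((2 * ch 8 z * (ch 2 z - ch 0 z)) * (ch 0 z / gB z) * (ch 0 z / (gA z * gB z)) * (ch 0 z / gH z) * (ch 0 z / gH z) * (ch 0 z / gH z) * (ch 0 z / gH z)) +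
      24907/63000 * ((4 * ch 8 z * ch 4 z * (ch 2 z - ch 0 z)) * (ch 0 z / gH z)) +
      285503/336000 * ((2 * ch 8 z * (ch 4 z - ch 2 z)) * (ch 0 z / gH z) * (ch 0 z / gH z) * (ch 0 z / gH z) * (ch 0 z / gH z)) +
      18/35 * ((ch 6 z - ch 4 z)) +
      96/875 * ((ch 8 z - ch 6 z)) +
      19193/63000 * ((4 * ch 8 z * ch 4 z * (ch 3 z - ch 1 z)) * (ch 1 z / gH z) * (ch 0 z / gH z)) +
      2749/84000 * ((2 * ch 8 z * (ch 5 z - ch 3 z)) * (ch 1 z / gH z) * (ch 0 z / gH z) * (ch 0 z / gH z) * (ch 0 z / gH z)) +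
      139/1600 * ((ch 14 z - ch 12 z) * (ch 0 z / gH z) * (ch 0 z / gH z) * (ch 0 z / gH z) * (ch 0 z / gH z)) +
      9/700 * ((4 * ch 8 z * ch 4 z * (ch 2 z - ch 0 z)) * (ch 0 z / gB z) * (ch 0 z / gH z) * (ch 0 z / gH z) * (ch 0 z / gH z) * (ch 0 z / gH z)) +
      103/5600 * ((ch 2 z - ch 0 z) * (ch 0 z / gB z) * (ch 0 z / gH z) * (ch 0 z / gH z) * (ch 0 z / gH z) * (ch 0 z / gH z)) +
      7/18 * ((2 * ch 8 z * (ch 4 z - ch 2 z)) * (ch 0 z / gA z)) +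
      1/32 * ((ch 8 z - ch 6 z) * (ch 0 z / gB z) * (ch 0 z / gH z) * (ch 0 z / gH z) * (ch 0 z / gH z) * (ch 0 z / gH z)) := by
  have hA := (gA_pos z).ne'
  have hB := (gB_pos z).ne'
  have hH := (gH_pos z).ne'
  have hu := (up_pos hz).ne'
  have hv := (um_pos z).ne'
  have hM : Mc .V .V z = (2 * xb .V .V z * up z * um z * gH z ^ 0 - ((fXV z + fYV z) * (fXV z + fYV z) * um z - (fXV z - fYV z) * (fXV z - fYV z) * up z)) / (2 * up z * um z * gH z ^ 0) := by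
    simp only [Mc, fX, fY]
    generalize up z = u at *
    generalize um z = v at *
    generalize gH z = H at *
    field_simp <;> ring
  have t0 : (ch 10 z - ch 8 z) = ((ch 10 z - ch 8 z) * (gA z ^ 1 * gB z ^ 2 * gH z ^ 4)) / (gA z ^ 1 * gB z ^ 2 * gH z ^ 4) := by
    generalize gA z = A at *
    generalize gB z = B at *
    generalize gH z = H at *
    field_simp
  have t1 : (ch 4 z - ch 2 z) = ((ch 4 z - ch 2 z) * (gA z ^ 1 * gB z ^ 2 * gH z ^ 4)) / (gA z ^ 1 * gB z ^ 2 * gH z ^ 4) := by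
    generalize gA z = A at *
    generalize gB z = B at *
    generalize gH z = H at *
    field_simp
  have t2 : (4 * ch 8 z * ch 4 z * (ch 3 z - ch 1 z)) * (ch 1 z / gH z) = ((4 * ch 8 z * ch 4 z * (ch 3 z - ch 1 z)) * ch 1 z * (gA z ^ 1 * gB z ^ 2 * gH z ^ 3)) / (gA z ^ 1 * gB z ^ 2 * gH z ^ 4) := by
    generalize gA z = A at *
    generalize gB z = B at *
    generalize gH z = H at *
    field_simp
  have t3 : (2 * ch 8 z * (ch 6 z - ch 4 z)) * (ch 0 z / gA z) = ((2 * ch 8 z * (ch 6 z - ch 4 z)) * ch 0 z * (gA z ^ 0 * gB z ^ 2 * gH z ^ 4)) / (gA z ^ 1 * gB z ^ 2 * gH z ^ 4) := by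
    generalize gA z = A at *
    generalize gB z = B at *
    generalize gH z = H at *
    field_simp
  have t4 : (2 * ch 8 z * (ch 2 z - ch 0 z)) * (ch 0 z / gB z) * (ch 0 z / (gA z * gB z)) * (ch 0 z / gH z) * (ch 0 z / gH z) * (ch 0 z / gH z) * (ch 0 z / gH z) = ((2 * ch 8 z * (ch 2 z - ch 0 z)) * ch 0 z * ch 0 z * ch 0 z * ch 0 z * ch 0 z * ch 0 z * (gA z ^ 0 * gB z ^ 0 * gH z ^ 0)) / (gA z ^ 1 * gB z ^ 2 * gH z ^ 4) := by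
    generalize gA z = A at *
    generalize gB z = B at *
    generalize gH z = H at *
    field_simp
  have t5 : (4 * ch 8 z * ch 4 z * (ch 2 z - ch 0 z)) * (ch 0 z / gH z) = ((4 * ch 8 z * ch 4 z * (ch 2 z - ch 0 z)) * ch 0 z * (gA z ^ 1 * gB z ^ 2 * gH z ^ 3)) / (gA z ^ 1 * gB z ^ 2 * gH z ^ 4) := by
    generalize gA z = A at *
    generalize gB z = B at *
    generalize gH z = H at *
    field_simp
  have t6 : (2 * ch 8 z * (ch 4 z - ch 2 z)) * (ch 0 z / gH z) * (ch 0 z / gH z) * (ch 0 z / gH z) * (ch 0 z / gH z) = ((2 * ch 8 z * (ch 4 z - ch 2 z)) * ch 0 z * ch 0 z * ch 0 z * ch 0 z * (gA z ^ 1 * gB z ^ 2 * gH z ^ 0)) / (gA z ^ 1 * gB z ^ 2 * gH z ^ 4) := by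
    generalize gA z = A at *
    generalize gB z = B at *
    generalize gH z = H at *
    field_simp
  have t7 : (ch 6 z - ch 4 z) = ((ch 6 z - ch 4 z) * (gA z ^ 1 * gB z ^ 2 * gH z ^ 4)) / (gA z ^ 1 * gB z ^ 2 * gH z ^ 4) := by
    generalize gA z = A at *
    generalize gB z = B at *
    generalize gH z = H at *
    field_simp
  have t8 : (ch 8 z - ch 6 z) = ((ch 8 z - ch 6 z) * (gA z ^ 1 * gB z ^ 2 * gH z ^ 4)) / (gA z ^ 1 * gB z ^ 2 * gH z ^ 4) := by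
    generalize gA z = A at *
    generalize gB z = B at *
    generalize gH z = H at *
    field_simp
  have t9 : (4 * ch 8 z * ch 4 z * (ch 3 z - ch 1 z)) * (ch 1 z / gH z) * (ch 0 z / gH z) = ((4 * ch 8 z * ch 4 z * (ch 3 z - ch 1 z)) * ch 1 z * ch 0 z * (gA z ^ 1 * gB z ^ 2 * gH z ^ 2)) / (gA z ^ 1 * gB z ^ 2 * gH z ^ 4) := by
    generalize gA z = A at *
    generalize gB z = B at *
    generalize gH z = H at *
    field_simp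
  have t10 : (2 * ch 8 z * (ch 5 z - ch 3 z)) * (ch 1 z / gH z) * (ch 0 z / gH z) * (ch 0 z / gH z) * (ch 0 z / gH z) = ((2 * ch 8 z * (ch 5 z - ch 3 z)) * ch 1 z * ch 0 z * ch 0 z * ch 0 z * (gA z ^ 1 * gB z ^ 2 * gH z ^ 0)) / (gA z ^ 1 * gB z ^ 2 * gH z ^ 4) := by
    generalize gA z = A at *
    generalize gB z = B at *
    generalize gH z = H at *
    field_simp
  have t11 : (ch 14 z - ch 12 z) * (ch 0 z / gH z) * (ch 0 z / gH z) * (ch 0 z / gH z) * (ch 0 z / gH z) = ((ch 14 z - ch 12 z) * ch 0 z * ch 0 z * ch 0 z * ch 0 z * (gA z ^ 1 * gB z ^ 2 * gH z ^ 0)) / (gA z ^ 1 * gB z ^ 2 * gH z ^ 4) := by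
    generalize gA z = A at *
    generalize gB z = B at *
    generalize gH z = H at *
    field_simp
  have t12 : (4 * ch 8 z * ch 4 z * (ch 2 z - ch 0 z)) * (ch 0 z / gB z) * (ch 0 z / gH z) * (ch 0 z / gH z) * (ch 0 z / gH z) * (ch 0 z / gH z) = ((4 * ch 8 z * ch 4 z * (ch 2 z - ch 0 z)) * ch 0 z * ch 0 z * ch 0 z * ch 0 z * ch 0 z * (gA z ^ 1 * gB z ^ 1 * gH z ^ 0)) / (gA z ^ 1 * gB z ^ 2 * gH z ^ 4) := by
    generalize gA z = A at *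
    generalize gB z = B at *
    generalize gH z = H at *
    field_simp
  have t13 : (ch 2 z - ch 0 z) * (ch 0 z / gB z) * (ch 0 z / gH z) * (ch 0 z / gH z) * (ch 0 z / gH z) * (ch 0 z / gH z) = ((ch 2 z - ch 0 z) * ch 0 z * ch 0 z * ch 0 z * ch 0 z * ch 0 z * (gA z ^ 1 * gB z ^ 1 * gH z ^ 0)) / (gA z ^ 1 * gB z ^ 2 * gH z ^ 4) := by
    generalize gA z = A at *
    generalize gB z = B at *
    generalize gH z = H at *
    field_simp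
  have t14 : (2 * ch 8 z * (ch 4 z - ch 2 z)) * (ch 0 z / gA z) = ((2 * ch 8 z * (ch 4 z - ch 2 z)) * ch 0 z * (gA z ^ 0 * gB z ^ 2 * gH z ^ 4)) / (gA z ^ 1 * gB z ^ 2 * gH z ^ 4) := by
    generalize gA z = A at *
    generalize gB z = B at *
    generalize gH z = H at *
    field_simp
  have t15 : (ch 8 z - ch 6 z) * (ch 0 z / gB z) * (ch 0 z / gH z) * (ch 0 z / gH z) * (ch 0 z / gH z) * (ch 0 z / gH z) = ((ch 8 z - ch 6 z) * ch 0 z * ch 0 z * ch 0 z * ch 0 z * ch 0 z * (gA z ^ 1 * gB z ^ 1 * gH z ^ 0)) / (gA z ^ 1 * gB z ^ 2 * gH z ^ 4) := by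
    generalize gA z = A at *
    generalize gB z = B at *
    generalize gH z = H at *
    field_simp
  have hid := X_V_V_poly z
  have ha : al z = (gH z ^ 2 - 3 / 5) / gH z ^ 2 := by
    unfold al gH
    have := hH
    unfold gH at this
    field_simp
  have hD : (gA z ^ 1 * gB z ^ 2 * gH z ^ 4) ≠ 0 := by positivity
  have hE : (2 * up z * um z * gH z ^ 0) * gH z ^ 4 ≠ 0 := by
    have := gH_pos z
    positivity
  have e1 : (2 * xb .V .V z * up z * um z * gH z ^ 0 - ((fXV z + fYV z) * (fXV z + fYV z) * um z - (fXV z - fYV z) * (fXV z - fYV z) * up z)) / (2 * up z * um z * gH z ^ 0) + gg z * ((gH z ^ 2 - 3 / 5) / gH z ^ 2) ^ 2 - 2 * (ch 16 z - ch 14 z) = ((2 * xb .V .V z * up z * um z * gH z ^ 0 - ((fXV z + fYV z) * (fXV z + fYV z) * um z - (fXV z - fYV z) * (fXV z - fYV z) * up z)) * gH z ^ 4 + (0 + gg z * (gH z ^ 2 - 3 / 5) ^ 2 - 2 * ((ch 16 z -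 ch 14 z) * gH z ^ 4)) * (2 * up z * um z * gH z ^ 0)) / ((2 * up z * um z * gH z ^ 0) * gH z ^ 4) := by
    generalize up z = u at *
    generalize um z = v at *
    generalize gH z = H at *
    field_simp <;> ring
  have e2 : ((2 * xb .V .V z * up z * um z * gH z ^ 0 - ((fXV z + fYV z) * (fXV z + fYV z) * um z - (fXV z - fYV z) * (fXV z - fYV z) * up z)) * gH z ^ 4 + (0 + gg z * (gH z ^ 2 - 3 / 5) ^ 2 - 2 * ((ch 16 z - ch 14 z) * gH z ^ 4)) * (2 * up z * um z * gH z ^ 0)) / ((2 * up z * um z * gH z ^ 0) * gH z ^ 4) = (2923/1750 * ((ch 10 z - ch 8 z) * (gA z ^ 1 * gB z ^ 2 * gH z ^ 4)) +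
      2437/1400 * ((ch 4 z - ch 2 z) * (gA z ^ 1 * gB z ^ 2 * gH z ^ 4)) +
      2 * ((4 * ch 8 z * ch 4 z * (ch 3 z - ch 1 z)) * ch 1 z * (gA z ^ 1 * gB z ^ 2 * gH z ^ 3)) +
      10/9 * ((2 * ch 8 z * (ch 6 z - ch 4 z)) * ch 0 z * (gA z ^ 0 * gB z ^ 2 * gH z ^ 4)) +
      1/32 * ((2 * ch 8 z * (ch 2 z - ch 0 z)) * ch 0 z * ch 0 z * ch 0 z * ch 0 z * ch 0 z * ch 0 z * (gA z ^ 0 * gB z ^ 0 * gH z ^ 0)) +
      24907/63000 * ((4 * ch 8 z * ch 4 z * (ch 2 z - ch 0 z)) * ch 0 z * (gA z ^ 1 * gB z ^ 2 * gH z ^ 3)) +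
      285503/336000 * ((2 * ch 8 z * (ch 4 z - ch 2 z)) * ch 0 z * ch 0 z * ch 0 z * ch 0 z * (gA z ^ 1 * gB z ^ 2 * gH z ^ 0)) +
      18/35 * ((ch 6 z - ch 4 z) * (gA z ^ 1 * gB z ^ 2 * gH z ^ 4)) +
      96/875 * ((ch 8 z - ch 6 z) * (gA z ^ 1 * gB z ^ 2 * gH z ^ 4)) +
      19193/63000 * ((4 * ch 8 z * ch 4 z * (ch 3 z - ch 1 z)) * ch 1 z * ch 0 z * (gA z ^ 1 * gB z ^ 2 * gH z ^ 2)) +
      2749/84000 * ((2 * ch 8 z * (ch 5 z - ch 3 z)) * ch 1 z * ch 0 z * ch 0 z * ch 0 z * (gA z ^ 1 * gB z ^ 2 * gH z ^ 0)) +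
      139/1600 * ((ch 14 z - ch 12 z) * ch 0 z * ch 0 z * ch 0 z * ch 0 z * (gA z ^ 1 * gB z ^ 2 * gH z ^ 0)) +
      9/700 * ((4 * ch 8 z * ch 4 z * (ch 2 z - ch 0 z)) * ch 0 z * ch 0 z * ch 0 z * ch 0 z * ch 0 z * (gA z ^ 1 * gB z ^ 1 * gH z ^ 0)) +
      103/5600 * ((ch 2 z - ch 0 z) * ch 0 z * ch 0 z * ch 0 z * ch 0 z * ch 0 z * (gA z ^ 1 * gB z ^ 1 * gH z ^ 0)) +
      7/18 * ((2 * ch 8 z * (ch 4 z - ch 2 z)) * ch 0 z * (gA z ^ 0 * gB z ^ 2 * gH z ^ 4)) +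
      1/32 * ((ch 8 z - ch 6 z) * ch 0 z * ch 0 z * ch 0 z * ch 0 z * ch 0 z * (gA z ^ 1 * gB z ^ 1 * gH z ^ 0))) / (gA z ^ 1 * gB z ^ 2 * gH z ^ 4) := by
    rw [div_eq_div_iff hE hD]
    rw [hid]
    ring
  rw [hM, ha, e1, e2]
  have e3 : (2923/1750 * ((ch 10 z - ch 8 z) * (gA z ^ 1 * gB z ^ 2 * gH z ^ 4)) +
      2437/1400 * ((ch 4 z - ch 2 z) * (gA z ^ 1 * gB z ^ 2 * gH z ^ 4)) +
      2 * ((4 * ch 8 z * ch 4 z * (ch 3 z - ch 1 z)) * ch 1 z * (gA z ^ 1 * gB z ^ 2 * gH z ^ 3)) +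
      10/9 * ((2 * ch 8 z * (ch 6 z - ch 4 z)) * ch 0 z * (gA z ^ 0 * gB z ^ 2 * gH z ^ 4)) +
      1/32 * ((2 * ch 8 z * (ch 2 z - ch 0 z)) * ch 0 z * ch 0 z * ch 0 z * ch 0 z * ch 0 z * ch 0 z * (gA z ^ 0 * gB z ^ 0 * gH z ^ 0)) +
      24907/63000 * ((4 * ch 8 z * ch 4 z * (ch 2 z - ch 0 z)) * ch 0 z * (gA z ^ 1 * gB z ^ 2 * gH z ^ 3)) +
      285503/336000 * ((2 * ch 8 z * (ch 4 z - ch 2 z)) * ch 0 z * ch 0 z * ch 0 z * ch 0 z * (gA z ^ 1 * gB z ^ 2 * gH z ^ 0)) +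
      18/35 * ((ch 6 z - ch 4 z) * (gA z ^ 1 * gB z ^ 2 * gH z ^ 4)) +
      96/875 * ((ch 8 z - ch 6 z) * (gA z ^ 1 * gB z ^ 2 * gH z ^ 4)) +
      19193/63000 * ((4 * ch 8 z * ch 4 z * (ch 3 z - ch 1 z)) * ch 1 z * ch 0 z * (gA z ^ 1 * gB z ^ 2 * gH z ^ 2)) +
      2749/84000 * ((2 * ch 8 z * (ch 5 z - ch 3 z)) * ch 1 z * ch 0 z * ch 0 z * ch 0 z * (gA z ^ 1 * gB z ^ 2 * gH z ^ 0)) +
      139/1600 * ((ch 14 z - ch 12 z) * ch 0 z * ch 0 z * ch 0 z * ch 0 z * (gA z ^ 1 * gB z ^ 2 * gH z ^ 0)) +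
      9/700 * ((4 * ch 8 z * ch 4 z * (ch 2 z - ch 0 z)) * ch 0 z * ch 0 z * ch 0 z * ch 0 z * ch 0 z * (gA z ^ 1 * gB z ^ 1 * gH z ^ 0)) +
      103/5600 * ((ch 2 z - ch 0 z) * ch 0 z * ch 0 z * ch 0 z * ch 0 z * ch 0 z * (gA z ^ 1 * gB z ^ 1 * gH z ^ 0)) +
      7/18 * ((2 * ch 8 z * (ch 4 z - ch 2 z)) * ch 0 z * (gA z ^ 0 * gB z ^ 2 * gH z ^ 4)) +
      1/32 * ((ch 8 z - ch 6 z) * ch 0 z * ch 0 z * ch 0 z * ch 0 z * ch 0 z * (gA z ^ 1 * gB z ^ 1 * gH z ^ 0))) / (gA z ^ 1 * gB z ^ 2 * gH z ^ 4) = 2923/1750 * (((ch 10 z - ch 8 z) * (gA z ^ 1 * gB z ^ 2 * gH z ^ 4)) / (gA z ^ 1 * gB z ^ 2 * gH z ^ 4)) + 2437/1400 * (((ch 4 z - ch 2 z) * (gA z ^ 1 * gB z ^ 2 * gH z ^ 4)) / (gA z ^ 1 * gB z ^ 2 * gH z ^ 4)) + 2 * (((4 * ch 8 z * ch 4 z * (ch 3 z - ch 1 z)) * ch 1 z * (gA z ^ 1 * gB z ^ 2 * gH z ^ 3)) / (gA z ^ 1 * gB z ^ 2 * gH z ^ 4)) + 10/9 * (((2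 * ch 8 z * (ch 6 z - ch 4 z)) * ch 0 z * (gA z ^ 0 * gB z ^ 2 * gH z ^ 4)) / (gA z ^ 1 * gB z ^ 2 * gH z ^ 4)) + 1/32 * (((2 * ch 8 z * (ch 2 z - ch 0 z)) * ch 0 z * ch 0 z * ch 0 z * ch 0 z * ch 0 z * ch 0 z * (gA z ^ 0 * gB z ^ 0 * gH z ^ 0)) / (gA z ^ 1 * gB z ^ 2 * gH z ^ 4)) + 24907/63000 * (((4 * ch 8 z * ch 4 z * (ch 2 z - ch 0 z)) * ch 0 z * (gA z ^ 1 * gB z ^ 2 * gH z ^ 3)) / (gA z ^ 1 * gB z ^ 2 * gH z ^ 4)) + 285503/336000 * (((2 * ch 8 z * (ch 4 z - ch 2 z)) * ch 0 z * ch 0 z * ch 0 z * ch 0 z * (gA z ^ 1 * gB z ^ 2 * gH z ^ 0)) / (gA z ^ 1 * gB z ^ 2 * gH z ^ 4)) + 18/35 * (((ch 6 z - ch 4 z) * (gA z ^ 1 * gB z ^ 2 * gH z ^ 4)) / (gA z ^ 1 * gB z ^ 2 * gH z ^ 4)) + 96/875 * (((ch 8 z - ch 6 z) * (gA z ^ 1 * gB z ^ 2 * gH z ^ 4)) / (gA z ^ 1 * gB z ^ 2 * gH z ^ 4)) + 19193/63000 * (((4 * ch 8 z * ch 4 z * (ch 3 z - ch 1 z)) * ch 1 z *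 ch 0 z * (gA z ^ 1 * gB z ^ 2 * gH z ^ 2)) / (gA z ^ 1 * gB z ^ 2 * gH z ^ 4)) + 2749/84000 * (((2 * ch 8 z * (ch 5 z - ch 3 z)) * ch 1 z * ch 0 z * ch 0 z * ch 0 z * (gA z ^ 1 * gB z ^ 2 * gH z ^ 0)) / (gA z ^ 1 * gB z ^ 2 * gH z ^ 4)) + 139/1600 * (((ch 14 z - ch 12 z) * ch 0 z * ch 0 z * ch 0 z * ch 0 z * (gA z ^ 1 * gB z ^ 2 * gH z ^ 0)) / (gA z ^ 1 * gB z ^ 2 * gH z ^ 4)) + 9/700 * (((4 * ch 8 z * ch 4 z * (ch 2 z - ch 0 z)) * ch 0 z * ch 0 z * ch 0 z * ch 0 z * ch 0 z * (gA z ^ 1 * gB z ^ 1 * gH z ^ 0)) / (gA z ^ 1 * gB z ^ 2 * gH z ^ 4)) + 103/5600 * (((ch 2 z - ch 0 z) * ch 0 z * ch 0 z * ch 0 z * ch 0 z * ch 0 z * (gA z ^ 1 * gB z ^ 1 * gH z ^ 0)) / (gA z ^ 1 * gB z ^ 2 * gH z ^ 4)) + 7/18 * (((2 * ch 8 z * (ch 4 z - ch 2 z)) * ch 0 z * (gA z ^ 0 * gB z ^ 2 * gH z ^ 4)) / (gA z ^ 1 * gB z ^ 2 * gH z ^ 4)) + 1/32 * (((ch 8 z - ch 6 z) * ch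 0 z * ch 0 z * ch 0 z * ch 0 z * ch 0 z * (gA z ^ 1 * gB z ^ 1 * gH z ^ 0)) / (gA z ^ 1 * gB z ^ 2 * gH z ^ 4)) := by
    ring
  rw [e3]
  linear_combination - 2923/1750 * t0 - 2437/1400 * t1 - 2 * t2 - 10/9 * t3 - 1/32 * t4 - 24907/63000 * t5 - 285503/336000 * t6 - 18/35 * t7 - 96/875 * t8 - 19193/63000 * t9 - 2749/84000 * t10 - 139/1600 * t11 - 9/700 * t12 - 103/5600 * t13 - 7/18 * t14 - 1/32 * t15

theorem X_V_V : PK fun k => PP k * (Mc .V .V (zk k) + gg (zk k) * al (zk k) ^ 2 - 2 * (ch 16 (zk k) - ch 14 (zk k))) := by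
  have g0 := (gD4 (a := 8) (b := 10) (by norm_num) (by norm_num)).smul (c := 2923/1750) (by norm_num)
  have g1 := (gD4 (a := 2) (b := 4) (by norm_num) (by norm_num)).smul (c := 2437/1400) (by norm_num)
  have g2 := ((gD1 (a := 1) (b := 3) (by norm_num) (by norm_num)).mul (mH (n := 1) (by norm_num))).smul (c := 2) (by norm_num)
  have g3 := ((gD2 (a := 4) (b := 6) (by norm_num) (by norm_num)).mul (mM (n := 0) (by norm_num))).smul (c := 10/9) (by norm_num)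
  have g4 := (((((((gD2 (a := 0) (b := 2) (by norm_num) (by norm_num)).mul (mP (n := 0) (by norm_num))).mul (mQ (n := 0) (by norm_num))).mul (mH (n := 0) (by norm_num))).mul (mH (n := 0) (by norm_num))).mul (mH (n := 0) (by norm_num))).mul (mH (n := 0) (by norm_num))).smul (c := 1/32) (by norm_num)
  have g5 := ((gD1 (a := 0) (b := 2) (by norm_num) (by norm_num)).mul (mH (n := 0) (by norm_num))).smul (c := 24907/63000) (by norm_num)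
  have g6 := (((((gD2 (a := 2) (b := 4) (by norm_num) (by norm_num)).mul (mH (n := 0) (by norm_num))).mul (mH (n := 0) (by norm_num))).mul (mH (n := 0) (by norm_num))).mul (mH (n := 0) (by norm_num))).smul (c := 285503/336000) (by norm_num)
  have g7 := (gD4 (a := 4) (b := 6) (by norm_num) (by norm_num)).smul (c := 18/35) (by norm_num)
  have g8 := (gD4 (a := 6) (b := 8) (by norm_num) (by norm_num)).smul (c := 96/875) (by norm_num)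
  have g9 := (((gD1 (a := 1) (b := 3) (by norm_num) (by norm_num)).mul (mH (n := 1) (by norm_num))).mul (mH (n := 0) (by norm_num))).smul (c := 19193/63000) (by norm_num)
  have g10 := (((((gD2 (a := 3) (b := 5) (by norm_num) (by norm_num)).mul (mH (n := 1) (by norm_num))).mul (mH (n := 0) (by norm_num))).mul (mH (n := 0) (by norm_num))).mul (mH (n := 0) (by norm_num))).smul (c := 2749/84000) (by norm_num)
  have g11 := (((((gD4 (a := 12) (b := 14) (by norm_num) (by norm_num)).mul (mH (n := 0) (by norm_num))).mul (mH (n := 0) (by norm_num))).mul (mH (n := 0) (by norm_num))).mul (mH (n := 0) (by norm_num))).smul (c := 139/1600) (by norm_num)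
  have g12 := ((((((gD1 (a := 0) (b := 2) (by norm_num) (by norm_num)).mul (mP (n := 0) (by norm_num))).mul (mH (n := 0) (by norm_num))).mul (mH (n := 0) (by norm_num))).mul (mH (n := 0) (by norm_num))).mul (mH (n := 0) (by norm_num))).smul (c := 9/700) (by norm_num)
  have g13 := ((((((gD4 (a := 0) (b := 2) (by norm_num) (by norm_num)).mul (mP (n := 0) (by norm_num))).mul (mH (n := 0) (by norm_num))).mul (mH (n := 0) (by norm_num))).mul (mH (n := 0) (by norm_num))).mul (mH (n := 0) (by norm_num))).smul (c := 103/5600) (by norm_num)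
  have g14 := ((gD2 (a := 2) (b := 4) (by norm_num) (by norm_num)).mul (mM (n := 0) (by norm_num))).smul (c := 7/18) (by norm_num)
  have g15 := ((((((gD4 (a := 6) (b := 8) (by norm_num) (by norm_num)).mul (mP (n := 0) (by norm_num))).mul (mH (n := 0) (by norm_num))).mul (mH (n := 0) (by norm_num))).mul (mH (n := 0) (by norm_num))).mul (mH (n := 0) (by norm_num))).smul (c := 1/32) (by norm_num)
  refine ((g0.add (g1.add (g2.add (g3.add (g4.add (g5.add (g6.add (g7.add (g8.add (g9.add (g10.add (g11.add (g12.add (g13.add (g14.add g15)))))))))))))))).congr fun k hk => ?_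
  rw [X_V_V_id (zk_pos hk)]
  ring

end NUMH
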