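import Pool.Agent.NUO.StabTab
import Pool.Agent.NUO.X_L_L
import Pool.Agent.NUO.X_L_T
import Pool.Agent.NUO.X_L_V
import Pool.Agent.NUO.X_T_T
import Pool.Agent.NUO.X_T_V
import Pool.Agent.NUO.X_S_L
import Pool.Agent.NUO.X_S_T
import Pool.Agent.NUO.X_S_S
import Pool.Agent.NUO.X_S_V
import Pool.Agent.NUO.X_V_V

/-!
# The cross certificates of `NUStabT.Certs`
-/

set_option autoImplicit false

open MeasureTheory Set

noncomputable section

namespace NUStabT

open NUMH (B Ms Mc PP)
open NUPosK (PK)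
open NUSB

theorem x_LL : PK (mC .L .L) := (PK_PQ (m := Mc .L .L) NUMH.X_L_L).congr fun k _ => by
  unfold mC; simp only [κc]; ring

theorem x_LT : PK (mC .L .T) := (PK_PQ (m := Mc .L .T) NUMH.X_L_T).congr fun k _ => by
  unfold mC; simp only [κc]; ring

theorem x_TT : PK (mC .T .T) := (PK_PQ (m := Mc .T .T) NUMH.X_T_T).congr fun k _ => by
  unfold mC; simp only [κc]; ring

theorem x_TV : PK (mC .T .V) := (PK_PQ (m := Mc .T .V) NUMH.X_T_V).congr fun k _ => by
  unfold mC; simp only [κc]; ring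

theorem x_LS : PK (mC .L .S) := by
  rw [mC_symm]
  exact (PK_PQ (m := Mc .S .L) NUMH.X_S_L).congr fun k _ => by unfold mC; simp only [κc]; ring

theorem x_TS : PK (mC .T .S) := by
  rw [mC_symm]
  exact (PK_PQ (m := Mc .S .T) NUMH.X_S_T).congr fun k _ => by unfold mC; simp only [κc]; ring

theorem x_LV : PK (mC .L .V) := by
  have h := (PK_PQ (m := fun z => Mc .L .V z - (ch 16 z - ch 14 z)) NUMH.X_L_V).add NUCone.PK_cone
  refine h.congr fun k _ => ?_
  unfold mC; simp only [κc]; ring

theorem x_SS : PK fun k => mC .S .S k + gK k := by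
  refine (PK_PQ (m := fun z => Mc .S .S z + gg z) NUMH.X_S_S).congr fun k _ => ?_
  unfold mC gK; simp only [κc]; ring

theorem x_SV : PK fun k => mC .S .V k - wK k * gK k := by
  have h := (PK_PQ (m := fun z => Mc .S .V z - gg z * al z - (ch 16 z - ch 14 z)) NUMH.X_S_V).add
    NUCone.PK_cone
  refine h.congr fun k _ => ?_
  unfold mC gK wK; simp only [κc]; ring

theorem x_VV : PK fun k => mC .V .V k + wK k ^ 2 * gK k := by
  have h := (PK_PQ (m := fun z => Mc .V .V z + gg z * al z ^ 2 - 2 * (ch 16 z - ch 14 z))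
    NUMH.X_V_V).add (NUCone.PK_cone.smul (c := 2) (by norm_num))
  refine h.congr fun k _ => ?_
  unfold mC gK wK; simp only [κc]; ring

end NUStabT
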