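import Pool.Agent.NUO.GenX

/-!
# Values and lower bounds of the base kernels on `|t| ≤ 1` (helper75)

* `D4_value`: `∫_0^∞ PP k (ch b - ch a) cos (k t) dk = π (log (C + cos (a π/16)) - log (C + cos (b π/16)))`,
  `C = cosh 2t`;
* `D4_lower`: this is `≥ (π/5) (cos (a π/16) - cos (b π/16))` for `|t| ≤ 1`;
* `lower_of`: `m = q * D4 + m'` with `m'` in `PK` inherits the bound.
-/

set_option autoImplicit false

open MeasureTheory Set Filter Topology

namespace NUMH

open NUSB NUO NUPosK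

noncomputable section

lemma D4_value {a b : ℕ} (ha : a < 16) (hb : b < 16) (t : ℝ) :
    IntegrableOn (fun k => PP k * (ch b (zk k) - ch a (zk k)) * Real.cos (k * t)) (Ioi 0) ∧
    ∫ k in Ioi (0:ℝ), PP k * (ch b (zk k) - ch a (zk k)) * Real.cos (k * t) =
      Real.pi * (Real.log (Real.cosh (2 * t) + Real.cos (a * Real.pi / 16)) -
        Real.log (Real.cosh (2 * t) + Real.cos (b * Real.pi / 16))) := by
  have h4 : ∀ n : ℕ, n < 16 → |(n:ℝ) / 4| < 4 := by
    intro n hn
    have : (n:ℝ) < 16 := by exact_mod_cast hn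
    rw [abs_of_nonneg (by positivity)]
    linarith
  obtain ⟨i, e⟩ := cosh_sub_transform (h4 a ha) (h4 b hb) t
  have hf : ∀ k ∈ Ioi (0:ℝ), PP k * (ch b (zk k) - ch a (zk k)) * Real.cos (k * t) =
      2 * Real.pi * (1 / k * (Real.cosh ((b:ℝ) / 4 * (Real.pi * k / 8)) -
        Real.cosh ((a:ℝ) / 4 * (Real.pi * k / 8))) / Real.sinh (4 * (Real.pi * k / 8)) * Real.cos (k * t)) := by
    intro k hk
    have hk0 : 0 < k := hk
    have q : ∀ n : ℕ, Real.cosh ((n:ℝ) / 4 * (Real.pi * k / 8)) = ch n (zk k) := fun n => by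
      unfold ch zk
      congr 1
      ring
    have q8 : 4 * (Real.pi * k / 8) = 16 * zk k := by unfold zk; ring
    rw [q, q, q8]
    unfold PP
    have hz := zk_pos hk0
    have h4 : 0 < Real.sinh (16 * zk k) := Real.sinh_pos_iff.2 (by positivity)
    field_simp
  refine ⟨?_, ?_⟩
  · exact IntegrableOn.congr_fun (i.const_mul (2 * Real.pi)) (fun k hk => (hf k hk).symm) measurableSet_Ioi
  · rw [setIntegral_congr_fun measurableSet_Ioi hf, integral_const_mul, e]
    have e1 : ∀ n : ℕ, (n:ℝ) / 4 * Real.pi / 4 = n * Real.pi / 16 := fun n => by ring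
    rw [e1, e1]
    ring

lemma cosh_two_le {t : ℝ} (ht : |t| ≤ 1) : Real.cosh (2 * t) ≤ 4 := by
  have h1 : Real.cosh (2 * t) ≤ Real.cosh 2 := by
    rw [Real.cosh_le_cosh, abs_mul, abs_of_pos (by norm_num : (0:ℝ) < 2)]
    linarith
  have h2 : Real.cosh 2 ≤ 4 := by
    rw [Real.cosh_eq]
    have e1 := Real.exp_one_lt_d9
    have e2 : Real.exp 2 = Real.exp 1 ^ 2 := by rw [← Real.exp_nat_mul]; norm_num
    have e3 : Real.exp (-2) ≤ 1 / 2 := by
      rw [Real.exp_neg]
      have := Real.add_one_le_exp (2:ℝ)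
      rw [inv_le_comm₀ (Real.exp_pos _) (by norm_num)]
      linarith
    have e4 := Real.exp_pos 1
    rw [e2]
    nlinarith
  exact h1.trans h2

lemma D4_lower {a b : ℕ} (hab : a ≤ b) (hb : b < 16) {t : ℝ} (ht : |t| ≤ 1) :
    Real.pi / 5 * (Real.cos (a * Real.pi / 16) - Real.cos (b * Real.pi / 16)) ≤
      ∫ k in Ioi (0:ℝ), PP k * (ch b (zk k) - ch a (zk k)) * Real.cos (k * t) := by
  have hpi := Real.pi_pos
  rw [(D4_value (lt_of_le_of_lt hab hb) hb t).2]
  set α := Real.cos (a * Real.pi / 16)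
  set β := Real.cos (b * Real.pi / 16)
  set C := Real.cosh (2 * t)
  have hC : C ≤ 4 := cosh_two_le ht
  have hC1 : 1 ≤ C := Real.one_le_cosh _
  have hb' : (b:ℝ) < 16 := by exact_mod_cast hb
  have hab' : (a:ℝ) ≤ b := by exact_mod_cast hab
  have ha0 : (0:ℝ) ≤ a := by positivity
  have hβ : -1 < β := by
    rw [← Real.cos_pi]
    exact Real.cos_lt_cos_of_nonneg_of_le_pi (by positivity) le_rfl (by nlinarith)
  have hαβ : β ≤ α := Real.cos_le_cos_of_nonneg_of_le_pi (by positivity) (by nlinarith) (by nlinarith)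
  have hα : α ≤ 1 := Real.cos_le_one _
  have p1 : 0 < C + α := by linarith
  have p2 : 0 < C + β := by linarith
  have h1 : (α - β) / (C + α) ≤ Real.log (C + α) - Real.log (C + β) := by
    rw [← Real.log_div p1.ne' p2.ne']
    have := Real.one_sub_inv_le_log_of_pos (x := (C + α) / (C + β)) (by positivity)
    refine le_trans (le_of_eq ?_) this
    rw [inv_div]
    field_simp
    ring
  have h2 : (α - β) / 5 ≤ (α - β) / (C + α) := by
    apply div_le_div_of_nonneg_left (by linarith) p1 (by linarith)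
  calc Real.pi / 5 * (α - β) = Real.pi * ((α - β) / 5) := by ring
    _ ≤ _ := by gcongr; linarith

/-- a certificate with a `D4` term is bounded below on `[-1,1]` -/
theorem lower_of {m m' : ℝ → ℝ} {q : ℝ} {a b : ℕ} (hq : 0 ≤ q) (hab : a ≤ b) (hb : b < 16) (hm' : PK m')
    (h : ∀ k : ℝ, 0 < k → m k = q * (PP k * (ch b (zk k) - ch a (zk k))) + m' k) {t : ℝ} (ht : |t| ≤ 1) :
    q * (Real.pi / 5 * (Real.cos (a * Real.pi / 16) - Real.cos (b * Real.pi / 16))) ≤
      ∫ k in Ioi (0:ℝ), m k * Real.cos (k * t) := by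
  have h1 := D4_lower hab hb ht
  have i1 := (D4_value (lt_of_le_of_lt hab hb) hb t).1
  have i2 := intOn_mul_cos hm'.1 t
  have e : ∫ k in Ioi (0:ℝ), m k * Real.cos (k * t) =
      q * (∫ k in Ioi (0:ℝ), PP k * (ch b (zk k) - ch a (zk k)) * Real.cos (k * t)) +
        ∫ k in Ioi (0:ℝ), m' k * Real.cos (k * t) := by
    rw [← integral_const_mul, ← integral_add (i1.const_mul q) i2]
    refine setIntegral_congr_fun measurableSet_Ioi fun k hk => ?_
    simp only [h k hk]
    ring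
  rw [e]
  have := hm'.2 t
  have := mul_le_mul_of_nonneg_left h1 hq
  linarith

/-! ### the bases `D2`, `D1` -/

/-- values of the transforms, general `N` -/
lemma cosh_sub_transform_N {a b N : ℝ} (hN : 0 < N) (ha : |a| < N) (hb : |b| < N) (t : ℝ) :
    IntegrableOn (fun k => 1 / k * (Real.cosh (b * (Real.pi * k / 8)) - Real.cosh (a * (Real.pi * k / 8))) /
        Real.sinh (N * (Real.pi * k / 8)) * Real.cos (k * t)) (Ioi 0) ∧
    ∫ k in Ioi (0:ℝ), 1 / k * (Real.cosh (b * (Real.pi * k / 8)) - Real.cosh (a * (Real.pi * k / 8))) /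
        Real.sinh (N * (Real.pi * k / 8)) * Real.cos (k * t) =
      (Real.log (Real.cosh (8 / N * t) + Real.cos (a * Real.pi / N)) -
        Real.log (Real.cosh (8 / N * t) + Real.cos (b * Real.pi / N))) / 2 := by
  have hl : 0 < N / 4 := by positivity
  have h4 : ∀ c : ℝ, |c| < N → |4 * c / N| < 4 := by
    intro c hc
    rw [abs_div, abs_mul, abs_of_pos hN, abs_of_pos (by norm_num : (0:ℝ) < 4), div_lt_iff₀ hN]
    linarith
  obtain ⟨i, e⟩ := cosh_sub_transform (h4 a ha) (h4 b hb) (t / (N / 4))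
  set F : ℝ → ℝ := fun x => 1 / x * (Real.cosh (4 * b / N * (Real.pi * x / 8)) -
    Real.cosh (4 * a / N * (Real.pi * x / 8))) / Real.sinh (4 * (Real.pi * x / 8)) *
      Real.cos (x * (t / (N / 4))) with hF
  have hf : ∀ k ∈ Ioi (0:ℝ), N / 4 * F (N / 4 * k) =
      1 / k * (Real.cosh (b * (Real.pi * k / 8)) - Real.cosh (a * (Real.pi * k / 8))) /
        Real.sinh (N * (Real.pi * k / 8)) * Real.cos (k * t) := by
    intro k hk
    have hk0 : (0:ℝ) < k := hk
    simp only [hF]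
    have e2 : ∀ c : ℝ, 4 * c / N * (Real.pi * (N / 4 * k) / 8) = c * (Real.pi * k / 8) := fun c => by
      field_simp
    have e3 : 4 * (Real.pi * (N / 4 * k) / 8) = N * (Real.pi * k / 8) := by ring
    have e4 : N / 4 * k * (t / (N / 4)) = k * t := by field_simp
    rw [e2, e2, e3, e4]
    have hpi := Real.pi_pos
    have h5 : 0 < Real.sinh (N * (Real.pi * k / 8)) := Real.sinh_pos_iff.2 (by positivity)
    field_simp
  refine ⟨?_, ?_⟩
  · have h1 : IntegrableOn (fun k => F (N / 4 * k)) (Ioi 0) := by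
      have := (integrableOn_Ioi_comp_mul_left_iff F 0 hl).2 (by simpa using i)
      simpa using this
    have h2 : IntegrableOn (fun k => N / 4 * F (N / 4 * k)) (Ioi 0) := h1.const_mul (N / 4)
    exact IntegrableOn.congr_fun h2 hf measurableSet_Ioi
  · rw [← setIntegral_congr_fun measurableSet_Ioi hf, integral_const_mul,
      integral_comp_mul_left_Ioi F 0 hl]
    simp only [mul_zero, smul_eq_mul]
    rw [e]
    have e1 : ∀ c : ℝ, 4 * c / N * Real.pi / 4 = c * Real.pi / N := fun c => by ring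
    have e5 : 2 * (t / (N / 4)) = 8 / N * t := by field_simp; ring
    rw [e1, e1, e5]
    field_simp

/-- lower bound of the difference of logarithms -/
lemma log_lower {α β C K : ℝ} (hβ : -1 < β) (hαβ : β ≤ α) (hα : α ≤ 1) (hC1 : 1 ≤ C) (hC : C + 1 ≤ K) :
    (α - β) / K ≤ Real.log (C + α) - Real.log (C + β) := by
  have p1 : 0 < C + α := by linarith
  have p2 : 0 < C + β := by linarith
  have h1 : (α - β) / (C + α) ≤ Real.log (C + α) - Real.log (C + β) := by
    rw [← Real.log_div p1.ne' p2.ne']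
    have := Real.one_sub_inv_le_log_of_pos (x := (C + α) / (C + β)) (by positivity)
    refine le_trans (le_of_eq ?_) this
    rw [inv_div]
    field_simp
    ring
  have h2 : (α - β) / K ≤ (α - β) / (C + α) :=
    div_le_div_of_nonneg_left (by linarith) p1 (by linarith)
  linarith

lemma cosh_four_le {t : ℝ} (ht : |t| ≤ 1) : Real.cosh (4 * t) ≤ 31 := by
  have e : 4 * t = 2 * (2 * t) := by ring
  have h := cosh_two_le ht
  have h0 := Real.one_le_cosh (2 * t)
  rw [e, Real.cosh_two_mul, Real.sinh_sq]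
  nlinarith

lemma cosh_eight_le {t : ℝ} (ht : |t| ≤ 1) : Real.cosh (8 * t) ≤ 1921 := by
  have e : 8 * t = 2 * (4 * t) := by ring
  have h := cosh_four_le ht
  have h0 := Real.one_le_cosh (4 * t)
  rw [e, Real.cosh_two_mul, Real.sinh_sq]
  nlinarith

lemma D2_value {a b : ℕ} (ha : a < 8) (hb : b < 8) (t : ℝ) :
    IntegrableOn (fun k => PP k * (2 * ch 8 (zk k) * (ch b (zk k) - ch a (zk k))) * Real.cos (k * t)) (Ioi 0) ∧
    ∫ k in Ioi (0:ℝ), PP k * (2 * ch 8 (zk k) * (ch b (zk k) - ch a (zk k))) * Real.cos (k * t) =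
      Real.pi * (Real.log (Real.cosh (4 * t) + Real.cos (a * Real.pi / 8)) -
        Real.log (Real.cosh (4 * t) + Real.cos (b * Real.pi / 8))) := by
  have h4 : ∀ n : ℕ, n < 8 → |(n:ℝ) / 4| < 2 := by
    intro n hn
    have : (n:ℝ) < 8 := by exact_mod_cast hn
    rw [abs_of_nonneg (by positivity)]
    linarith
  obtain ⟨i, e⟩ := cosh_sub_transform_N (N := 2) (by norm_num) (h4 a ha) (h4 b hb) t
  have hf : ∀ k ∈ Ioi (0:ℝ), PP k * (2 * ch 8 (zk k) * (ch b (zk k) - ch a (zk k))) * Real.cos (k * t) =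
      2 * Real.pi * (1 / k * (Real.cosh ((b:ℝ) / 4 * (Real.pi * k / 8)) -
        Real.cosh ((a:ℝ) / 4 * (Real.pi * k / 8))) / Real.sinh (2 * (Real.pi * k / 8)) * Real.cos (k * t)) := by
    intro k hk
    have hk0 : 0 < k := hk
    have q : ∀ n : ℕ, Real.cosh ((n:ℝ) / 4 * (Real.pi * k / 8)) = ch n (zk k) := fun n => by
      unfold ch zk
      congr 1
      ring
    have q8 : 2 * (Real.pi * k / 8) = 8 * zk k := by unfold zk; ring
    rw [q, q, q8]
    unfold PP
    rw [sinh16]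
    have hz := zk_pos hk0
    have h4 : 0 < Real.sinh (8 * zk k) := Real.sinh_pos_iff.2 (by positivity)
    have h5 : 0 < ch 8 (zk k) := lt_of_lt_of_le one_pos (one_le_ch _ _)
    field_simp
  refine ⟨?_, ?_⟩
  · exact IntegrableOn.congr_fun (i.const_mul (2 * Real.pi)) (fun k hk => (hf k hk).symm) measurableSet_Ioi
  · rw [setIntegral_congr_fun measurableSet_Ioi hf, integral_const_mul, e]
    have e1 : ∀ n : ℕ, (n:ℝ) / 4 * Real.pi / 2 = n * Real.pi / 8 := fun n => by ring
    have e2 : (8 : ℝ) / 2 * t = 4 * t := by ring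
    rw [e1, e1, e2]
    ring

lemma D1_value {a b : ℕ} (ha : a < 4) (hb : b < 4) (t : ℝ) :
    IntegrableOn (fun k => PP k * (4 * ch 8 (zk k) * ch 4 (zk k) * (ch b (zk k) - ch a (zk k))) *
      Real.cos (k * t)) (Ioi 0) ∧
    ∫ k in Ioi (0:ℝ), PP k * (4 * ch 8 (zk k) * ch 4 (zk k) * (ch b (zk k) - ch a (zk k))) *
      Real.cos (k * t) = Real.pi * (Real.log (Real.cosh (8 * t) + Real.cos (a * Real.pi / 4)) -
        Real.log (Real.cosh (8 * t) + Real.cos (b * Real.pi / 4))) := by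
  have h4 : ∀ n : ℕ, n < 4 → |(n:ℝ) / 4| < 1 := by
    intro n hn
    have : (n:ℝ) < 4 := by exact_mod_cast hn
    rw [abs_of_nonneg (by positivity)]
    linarith
  obtain ⟨i, e⟩ := cosh_sub_transform_N (N := 1) (by norm_num) (h4 a ha) (h4 b hb) t
  have hf : ∀ k ∈ Ioi (0:ℝ), PP k * (4 * ch 8 (zk k) * ch 4 (zk k) * (ch b (zk k) - ch a (zk k))) *
      Real.cos (k * t) =
      2 * Real.pi * (1 / k * (Real.cosh ((b:ℝ) / 4 * (Real.pi * k / 8)) -
        Real.cosh ((a:ℝ) / 4 * (Real.pi * k / 8))) / Real.sinh (1 * (Real.pi * k / 8)) * Real.cos (k * t)) := by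
    intro k hk
    have hk0 : 0 < k := hk
    have q : ∀ n : ℕ, Real.cosh ((n:ℝ) / 4 * (Real.pi * k / 8)) = ch n (zk k) := fun n => by
      unfold ch zk
      congr 1
      ring
    have q8 : 1 * (Real.pi * k / 8) = 4 * zk k := by unfold zk; ring
    rw [q, q, q8]
    unfold PP
    rw [sinh16']
    have hz := zk_pos hk0
    have h4 : 0 < Real.sinh (4 * zk k) := Real.sinh_pos_iff.2 (by positivity)
    have h5 : 0 < ch 8 (zk k) := lt_of_lt_of_le one_pos (one_le_ch _ _)
    have h6 : 0 < ch 4 (zk k) := lt_of_lt_of_le one_pos (one_le_ch _ _)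
    field_simp
  refine ⟨?_, ?_⟩
  · exact IntegrableOn.congr_fun (i.const_mul (2 * Real.pi)) (fun k hk => (hf k hk).symm) measurableSet_Ioi
  · rw [setIntegral_congr_fun measurableSet_Ioi hf, integral_const_mul, e]
    have e1 : ∀ n : ℕ, (n:ℝ) / 4 * Real.pi / 1 = n * Real.pi / 4 := fun n => by ring
    have e2 : (8 : ℝ) / 1 * t = 8 * t := by ring
    rw [e1, e1, e2]
    ring

lemma cos_facts {a b : ℕ} {K : ℝ} (hK : 0 < K) (hab : a ≤ b) (hb : (b:ℝ) < K) :
    -1 < Real.cos (b * Real.pi / K) ∧ Real.cos (b * Real.pi / K) ≤ Real.cos (a * Real.pi / K) := by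
  have hpi := Real.pi_pos
  have hab' : (a:ℝ) ≤ b := by exact_mod_cast hab
  have ha0 : (0:ℝ) ≤ a := by positivity
  have h1 : (b:ℝ) * Real.pi / K < Real.pi := by
    rw [div_lt_iff₀ hK]
    nlinarith
  constructor
  · rw [← Real.cos_pi]
    exact Real.cos_lt_cos_of_nonneg_of_le_pi (by positivity) le_rfl h1
  · exact Real.cos_le_cos_of_nonneg_of_le_pi (by positivity) h1.le (by gcongr)

lemma D2_lower {a b : ℕ} (hab : a ≤ b) (hb : b < 8) {t : ℝ} (ht : |t| ≤ 1) :
    Real.pi * ((Real.cos (a * Real.pi / 8) - Real.cos (b * Real.pi / 8)) / 32) ≤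
      ∫ k in Ioi (0:ℝ), PP k * (2 * ch 8 (zk k) * (ch b (zk k) - ch a (zk k))) * Real.cos (k * t) := by
  rw [(D2_value (lt_of_le_of_lt hab hb) hb t).2]
  obtain ⟨h1, h2⟩ := cos_facts (K := 8) (by norm_num) hab (by exact_mod_cast hb)
  have := Real.pi_pos
  gcongr
  exact log_lower h1 h2 (Real.cos_le_one _) (Real.one_le_cosh _) (by linarith [cosh_four_le ht])

lemma D1_lower {a b : ℕ} (hab : a ≤ b) (hb : b < 4) {t : ℝ} (ht : |t| ≤ 1) :
    Real.pi * ((Real.cos (a * Real.pi / 4) - Real.cos (b * Real.pi / 4)) / 1922) ≤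
      ∫ k in Ioi (0:ℝ), PP k * (4 * ch 8 (zk k) * ch 4 (zk k) * (ch b (zk k) - ch a (zk k))) *
        Real.cos (k * t) := by
  rw [(D1_value (lt_of_le_of_lt hab hb) hb t).2]
  obtain ⟨h1, h2⟩ := cos_facts (K := 4) (by norm_num) hab (by exact_mod_cast hb)
  have := Real.pi_pos
  gcongr
  exact log_lower h1 h2 (Real.cos_le_one _) (Real.one_le_cosh _) (by linarith [cosh_eight_le ht])

end

end NUMH
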