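import Pool.Agent.NUO.ChebX
import Pool.Agent.NUO.Lower

/-!
# Y_L_T (helper45; body generated by gen75.py)

The kernel `L`-`St` of the same species: `PP (Ms L T)` is `PK`, with lower bound `1/100` on `|t| ≤ 1`.
-/

set_option autoImplicit false
set_option linter.unusedVariables false
set_option linter.unusedSimpArgs false

open MeasureTheory Set

namespace NUMH

open NUSB NUO NUPosK

noncomputable section

/-- plus part -/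
private lemma Y_L_T_u1 (x A B H : ℝ) (eA : A = 16 * x ^ 4 - 16 * x ^ 2 + 1) (eB : B = 16 * x ^ 4 - 16 * x ^ 2 + 3) (eH : H = 2 * x ^ 2 - 1) (hx : x ≠ 0) (hx1 : x ^ 2 - 1 ≠ 0) (hA : A ≠ 0) (hB : B ≠ 0) (hH : H ≠ 0) :
    (-16 * x + 488 * x ^ 3 - 5016 * x ^ 5 + 22464 * x ^ 7 - 50176 * x ^ 9 + 58880 * x ^ 11 - 34816 * x ^ 13 + 8192 * x ^ 15) * (-16 * x ^ 2 + 560 * x ^ 4 - 4128 * x ^ 6 + 12800 * x ^ 8 - 19456 * x ^ 10 + 14336 * x ^ 12 - 4096 * x ^ 14) / ((8 * x ^ 2 * (x ^ 2 - 1)) * A * B ^ 2) * (A ^ 2 * B ^ 2 * x ^ 0 * H ^ 0) =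
    (-32 * x + 1552 * x ^ 3 - 25040 * x ^ 5 + 197600 * x ^ 7 - 895488 * x ^ 9 + 2515456 * x ^ 11 - 4526080 * x ^ 13 + 5222400 * x ^ 15 - 3735552 * x ^ 17 + 1507328 * x ^ 19 - 262144 * x ^ 21) * (A ^ 2 * B ^ 0 * x ^ 0 * H ^ 0) := by
  have h : (-16 * x + 488 * x ^ 3 - 5016 * x ^ 5 + 22464 * x ^ 7 - 50176 * x ^ 9 + 58880 * x ^ 11 - 34816 * x ^ 13 + 8192 * x ^ 15) * (-16 * x ^ 2 + 560 * x ^ 4 - 4128 * x ^ 6 + 12800 * x ^ 8 - 19456 * x ^ 10 + 14336 * x ^ 12 - 4096 * x ^ 14) / ((8 * x ^ 2 * (x ^ 2 - 1)) * A * B ^ 2) =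
      (-32 * x + 1552 * x ^ 3 - 25040 * x ^ 5 + 197600 * x ^ 7 - 895488 * x ^ 9 + 2515456 * x ^ 11 - 4526080 * x ^ 13 + 5222400 * x ^ 15 - 3735552 * x ^ 17 + 1507328 * x ^ 19 - 262144 * x ^ 21) / (A ^ 0 * B ^ 2 * x ^ 0 * H ^ 0) := by
    rw [div_eq_div_iff (by positivity) (by positivity)]
    rw [eA, eB, eH]
    ring
  rw [h]
  have e : A ^ 2 * B ^ 2 * x ^ 0 * H ^ 0 = (A ^ 0 * B ^ 2 * x ^ 0 * H ^ 0) * (A ^ 2 * B ^ 0 * x ^ 0 * H ^ 0) := by ring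
  rw [e, ← mul_assoc, div_mul_cancel₀ _ (by positivity)]

/-- minus part -/
private lemma Y_L_T_u2 (x A B H : ℝ) (eA : A = 16 * x ^ 4 - 16 * x ^ 2 + 1) (eB : B = 16 * x ^ 4 - 16 * x ^ 2 + 3) (eH : H = 2 * x ^ 2 - 1) (hx : x ≠ 0) (hx1 : x ^ 2 - 1 ≠ 0) (hA : A ≠ 0) (hB : B ≠ 0) (hH : H ≠ 0) :
    (2 * x - 40 * x ^ 3 - 24 * x ^ 5 + 3648 * x ^ 7 - 17408 * x ^ 9 + 32256 * x ^ 11 - 26624 * x ^ 13 + 8192 * x ^ 15) * (-4 + 184 * x ^ 2 - 2576 * x ^ 4 + 14688 * x ^ 6 - 40960 * x ^ 8 + 59392 * x ^ 10 - 43008 * x ^ 12 + 12288 * x ^ 14) / ((2 * H ^ 2) * A ^ 3) * (A ^ 2 * B ^ 2 * x ^ 0 * H ^ 0) =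
    (-4 * x + 184 * x ^ 3 - 2192 * x ^ 5 - 3104 * x ^ 7 + 212480 * x ^ 9 - 1444352 * x ^ 11 + 4501504 * x ^ 13 - 7655424 * x ^ 15 + 7340032 * x ^ 17 - 3735552 * x ^ 19 + 786432 * x ^ 21) * (A ^ 0 * B ^ 2 * x ^ 0 * H ^ 0) := by
  have h : (2 * x - 40 * x ^ 3 - 24 * x ^ 5 + 3648 * x ^ 7 - 17408 * x ^ 9 + 32256 * x ^ 11 - 26624 * x ^ 13 + 8192 * x ^ 15) * (-4 + 184 * x ^ 2 - 2576 * x ^ 4 + 14688 * x ^ 6 - 40960 * x ^ 8 + 59392 * x ^ 10 - 43008 * x ^ 12 + 12288 * x ^ 14) / ((2 * H ^ 2) * A ^ 3) =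
      (-4 * x + 184 * x ^ 3 - 2192 * x ^ 5 - 3104 * x ^ 7 + 212480 * x ^ 9 - 1444352 * x ^ 11 + 4501504 * x ^ 13 - 7655424 * x ^ 15 + 7340032 * x ^ 17 - 3735552 * x ^ 19 + 786432 * x ^ 21) / (A ^ 2 * B ^ 0 * x ^ 0 * H ^ 0) := by
    rw [div_eq_div_iff (by positivity) (by positivity)]
    rw [eA, eH]
    ring
  rw [h]
  have e : A ^ 2 * B ^ 2 * x ^ 0 * H ^ 0 = (A ^ 2 * B ^ 0 * x ^ 0 * H ^ 0) * (A ^ 0 * B ^ 2 * x ^ 0 * H ^ 0) := by ring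
  rw [e, ← mul_assoc, div_mul_cancel₀ _ (by positivity)]

/-- the certificate -/
theorem Y_L_T_id {z : ℝ} (hz : 0 < z) :
    9 / 50 * ((ch 13 z - ch 11 z)) +
    23 / 100 * ((4 * ch 8 z * ch 4 z * (ch 3 z - ch 1 z)) * (ch 0 z / gB z)) +
    1 / 50 * ((4 * ch 8 z * ch 4 z * (ch 2 z - ch 0 z)) * (ch 0 z / gA z) * (ch 3 z / gA z)) +
    1 / 20 * ((2 * ch 8 z * (ch 3 z - ch 1 z)) * (ch 0 z / gB z) * (ch 0 z / gB z)) +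
    47 / 100 * ((4 * ch 8 z * ch 4 z * (ch 3 z - ch 1 z))) +
    1 / 20 * ((ch 3 z - ch 1 z) * (ch 0 z / gB z) * (ch 0 z / gB z)) +
    1 / 8 * ((ch 5 z - ch 3 z) * (ch 0 z / gB z) * (ch 0 z / gB z)) +
    1 / 25 * ((2 * ch 8 z * (ch 5 z - ch 3 z))) +
    1 / 100 * ((ch 3 z - ch 1 z) * (ch 0 z / (gA z * gB z))) +
    3 / 25 * ((ch 7 z - ch 5 z) * (ch 0 z / gA z) * (ch 0 z / gA z)) +
    26 / 25 * ((4 * ch 8 z * ch 4 z * (ch 3 z - ch 1 z)) * (ch 2 z / gB z)) +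
    27 / 200 * ((ch 5 z - ch 3 z) * (ch 0 z / gA z) * (ch 0 z / gA z)) +
    1 / 50 * ((4 * ch 8 z * ch 4 z * (ch 2 z - ch 0 z)) * (ch 3 z / gA z)) +
    3 / 100 * ((2 * ch 8 z * (ch 7 z - ch 5 z))) +
    1 / 50 * ((ch 9 z - ch 7 z) * (ch 0 z / gB z)) =
    Ms .L .T z := by
  have hA := gA_pos z
  have hB := gB_pos z
  have hH := gH_pos z
  have hx : 1 < ch 1 z := one_lt_ch (by norm_num) hz
  have hx0 : 0 < ch 1 z := by linarith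
  have hx1 : ch 1 z ^ 2 - 1 ≠ 0 := by nlinarith
  have eA : gA z = 16 * ch 1 z ^ 4 - 16 * ch 1 z ^ 2 + 1 := by unfold gA; rw [cx4]; ring
  have eB : gB z = 16 * ch 1 z ^ 4 - 16 * ch 1 z ^ 2 + 3 := by unfold gB; rw [cx4]; ring
  have eH : gH z = 2 * ch 1 z ^ 2 - 1 := by unfold gH; rw [cx2]
  have eup : up z = (8 * ch 1 z ^ 2 * (ch 1 z ^ 2 - 1)) * gA z * gB z ^ 2 := by
    unfold up gA gB
    rw [cx4]
    ring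
  have eum : um z = (2 * gH z ^ 2) * gA z ^ 3 := by
    rw [eH]
    unfold um gA
    rw [cx4]
    ring
  have ipL : fX .L z + fY .L z = -16 * ch 1 z + 488 * ch 1 z ^ 3 - 5016 * ch 1 z ^ 5 + 22464 * ch 1 z ^ 7 - 50176 * ch 1 z ^ 9 + 58880 * ch 1 z ^ 11 - 34816 * ch 1 z ^ 13 + 8192 * ch 1 z ^ 15 := by
    simp only [fX, fY, fXL, fYL, fXT, fYT, fXV, fYV, cx0, cx2, cx3, cx4, cx5, cx6, cx7, cx8, cx9, cx10, cx11, cx12, cx13, cx14, cx15, cx16]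
    ring
  have imL : fX .L z - fY .L z = 2 * ch 1 z - 40 * ch 1 z ^ 3 - 24 * ch 1 z ^ 5 + 3648 * ch 1 z ^ 7 - 17408 * ch 1 z ^ 9 + 32256 * ch 1 z ^ 11 - 26624 * ch 1 z ^ 13 + 8192 * ch 1 z ^ 15 := by
    simp only [fX, fY, fXL, fYL, fXT, fYT, fXV, fYV, cx0, cx2, cx3, cx4, cx5, cx6, cx7, cx8, cx9, cx10, cx11, cx12, cx13, cx14, cx15, cx16]
    ring
  have ipT : fX .T z + fY .T z = -16 * ch 1 z ^ 2 + 560 * ch 1 z ^ 4 - 4128 * ch 1 z ^ 6 + 12800 * ch 1 z ^ 8 - 19456 * ch 1 z ^ 10 + 14336 * ch 1 z ^ 12 - 4096 * ch 1 z ^ 14 := by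
    simp only [fX, fY, fXL, fYL, fXT, fYT, fXV, fYV, cx0, cx2, cx3, cx4, cx5, cx6, cx7, cx8, cx9, cx10, cx11, cx12, cx13, cx14, cx15, cx16]
    ring
  have imT : fX .T z - fY .T z = -4 + 184 * ch 1 z ^ 2 - 2576 * ch 1 z ^ 4 + 14688 * ch 1 z ^ 6 - 40960 * ch 1 z ^ 8 + 59392 * ch 1 z ^ 10 - 43008 * ch 1 z ^ 12 + 12288 * ch 1 z ^ 14 := by
    simp only [fX, fY, fXL, fYL, fXT, fYT, fXV, fYV, cx0, cx2, cx3, cx4, cx5, cx6, cx7, cx8, cx9, cx10, cx11, cx12, cx13, cx14, cx15, cx16]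
    ring
  have hL : gA z ^ 2 * gB z ^ 2 * ch 1 z ^ 0 * gH z ^ 0 ≠ 0 := by positivity
  have v1 := Y_L_T_u1 (ch 1 z) (gA z) (gB z) (gH z) eA eB eH hx0.ne' hx1 hA.ne' hB.ne' hH.ne'
  have v2 := Y_L_T_u2 (ch 1 z) (gA z) (gB z) (gH z) eA eB eH hx0.ne' hx1 hA.ne' hB.ne' hH.ne'
  have hM : Ms .L .T z = bb .L .T z - 1 / 2 * (((fX .L z + fY .L z) * (fX .T z + fY .T z) / up z) + ((fX .L z - fY .L z) * (fX .T z - fY .T z) / um z)) := by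
    unfold Ms
    ring
  rw [ipL, ipT, imL, imT, eup, eum] at hM
  have t0 : ((ch 13 z - ch 11 z)) * (gA z ^ 2 * gB z ^ 2 * ch 1 z ^ 0 * gH z ^ 0) = ((ch 13 z - ch 11 z)) * (gA z ^ 2 * gB z ^ 2 * ch 1 z ^ 0 * gH z ^ 0) := by
    field_simp
  have t1 : ((4 * ch 8 z * ch 4 z * (ch 3 z - ch 1 z)) * (ch 0 z / gB z)) * (gA z ^ 2 * gB z ^ 2 * ch 1 z ^ 0 * gH z ^ 0) = ((4 * ch 8 z * ch 4 z * (ch 3 z - ch 1 z)) * ch 0 z) * (gA z ^ 2 * gB z ^ 1 * ch 1 z ^ 0 * gH z ^ 0) := by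
    field_simp
  have t2 : ((4 * ch 8 z * ch 4 z * (ch 2 z - ch 0 z)) * (ch 0 z / gA z) * (ch 3 z / gA z)) * (gA z ^ 2 * gB z ^ 2 * ch 1 z ^ 0 * gH z ^ 0) = ((4 * ch 8 z * ch 4 z * (ch 2 z - ch 0 z)) * ch 0 z * ch 3 z) * (gA z ^ 0 * gB z ^ 2 * ch 1 z ^ 0 * gH z ^ 0) := by
    field_simp
  have t3 : ((2 * ch 8 z * (ch 3 z - ch 1 z)) * (ch 0 z / gB z) * (ch 0 z / gB z)) * (gA z ^ 2 * gB z ^ 2 * ch 1 z ^ 0 * gH z ^ 0) = ((2 * ch 8 z * (ch 3 z - ch 1 z)) * ch 0 z * ch 0 z) * (gA z ^ 2 * gB z ^ 0 * ch 1 z ^ 0 * gH z ^ 0) := by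
    field_simp
  have t4 : ((4 * ch 8 z * ch 4 z * (ch 3 z - ch 1 z))) * (gA z ^ 2 * gB z ^ 2 * ch 1 z ^ 0 * gH z ^ 0) = ((4 * ch 8 z * ch 4 z * (ch 3 z - ch 1 z))) * (gA z ^ 2 * gB z ^ 2 * ch 1 z ^ 0 * gH z ^ 0) := by
    field_simp
  have t5 : ((ch 3 z - ch 1 z) * (ch 0 z / gB z) * (ch 0 z / gB z)) * (gA z ^ 2 * gB z ^ 2 * ch 1 z ^ 0 * gH z ^ 0) = ((ch 3 z - ch 1 z) * ch 0 z * ch 0 z) * (gA z ^ 2 * gB z ^ 0 * ch 1 z ^ 0 * gH z ^ 0) := by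
    field_simp
  have t6 : ((ch 5 z - ch 3 z) * (ch 0 z / gB z) * (ch 0 z / gB z)) * (gA z ^ 2 * gB z ^ 2 * ch 1 z ^ 0 * gH z ^ 0) = ((ch 5 z - ch 3 z) * ch 0 z * ch 0 z) * (gA z ^ 2 * gB z ^ 0 * ch 1 z ^ 0 * gH z ^ 0) := by
    field_simp
  have t7 : ((2 * ch 8 z * (ch 5 z - ch 3 z))) * (gA z ^ 2 * gB z ^ 2 * ch 1 z ^ 0 * gH z ^ 0) = ((2 * ch 8 z * (ch 5 z - ch 3 z))) * (gA z ^ 2 * gB z ^ 2 * ch 1 z ^ 0 * gH z ^ 0) := by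
    field_simp
  have t8 : ((ch 3 z - ch 1 z) * (ch 0 z / (gA z * gB z))) * (gA z ^ 2 * gB z ^ 2 * ch 1 z ^ 0 * gH z ^ 0) = ((ch 3 z - ch 1 z) * ch 0 z) * (gA z ^ 1 * gB z ^ 1 * ch 1 z ^ 0 * gH z ^ 0) := by
    field_simp
  have t9 : ((ch 7 z - ch 5 z) * (ch 0 z / gA z) * (ch 0 z / gA z)) * (gA z ^ 2 * gB z ^ 2 * ch 1 z ^ 0 * gH z ^ 0) = ((ch 7 z - ch 5 z) * ch 0 z * ch 0 z) * (gA z ^ 0 * gB z ^ 2 * ch 1 z ^ 0 * gH z ^ 0) := by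
    field_simp
  have t10 : ((4 * ch 8 z * ch 4 z * (ch 3 z - ch 1 z)) * (ch 2 z / gB z)) * (gA z ^ 2 * gB z ^ 2 * ch 1 z ^ 0 * gH z ^ 0) = ((4 * ch 8 z * ch 4 z * (ch 3 z - ch 1 z)) * ch 2 z) * (gA z ^ 2 * gB z ^ 1 * ch 1 z ^ 0 * gH z ^ 0) := by
    field_simp
  have t11 : ((ch 5 z - ch 3 z) * (ch 0 z / gA z) * (ch 0 z / gA z)) * (gA z ^ 2 * gB z ^ 2 * ch 1 z ^ 0 * gH z ^ 0) = ((ch 5 z - ch 3 z) * ch 0 z * ch 0 z) * (gA z ^ 0 * gB z ^ 2 * ch 1 z ^ 0 * gH z ^ 0) := by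
    field_simp
  have t12 : ((4 * ch 8 z * ch 4 z * (ch 2 z - ch 0 z)) * (ch 3 z / gA z)) * (gA z ^ 2 * gB z ^ 2 * ch 1 z ^ 0 * gH z ^ 0) = ((4 * ch 8 z * ch 4 z * (ch 2 z - ch 0 z)) * ch 3 z) * (gA z ^ 1 * gB z ^ 2 * ch 1 z ^ 0 * gH z ^ 0) := by
    field_simp
  have t13 : ((2 * ch 8 z * (ch 7 z - ch 5 z))) * (gA z ^ 2 * gB z ^ 2 * ch 1 z ^ 0 * gH z ^ 0) = ((2 * ch 8 z * (ch 7 z - ch 5 z))) * (gA z ^ 2 * gB z ^ 2 * ch 1 z ^ 0 * gH z ^ 0) := by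
    field_simp
  have t14 : ((ch 9 z - ch 7 z) * (ch 0 z / gB z)) * (gA z ^ 2 * gB z ^ 2 * ch 1 z ^ 0 * gH z ^ 0) = ((ch 9 z - ch 7 z) * ch 0 z) * (gA z ^ 2 * gB z ^ 1 * ch 1 z ^ 0 * gH z ^ 0) := by
    field_simp
  apply mul_right_cancel₀ hL
  have hp : 9 / 50 * (((ch 13 z - ch 11 z)) * (gA z ^ 2 * gB z ^ 2 * ch 1 z ^ 0 * gH z ^ 0)) + 23 / 100 * (((4 * ch 8 z * ch 4 z * (ch 3 z - ch 1 z)) * ch 0 z) * (gA z ^ 2 * gB z ^ 1 * ch 1 z ^ 0 * gH z ^ 0)) + 1 / 50 * (((4 * ch 8 z * ch 4 z * (ch 2 z - ch 0 z)) * ch 0 z * ch 3 z) * (gA z ^ 0 * gB z ^ 2 * ch 1 z ^ 0 * gH z ^ 0)) + 1 / 20 * (((2 * ch 8 z * (ch 3 z - ch 1 z)) * ch 0 z * ch 0 z) * (gA z ^ 2 * gB z ^ 0 * ch 1 z ^ 0 * gH z ^ 0)) + 47 / 100 * (((4 * ch 8 z * ch 4 z * (ch 3 z - ch 1 z))) * (gA z ^ 2 * gB z ^ 2 * ch 1 z ^ 0 * gH z ^ 0)) + 1 / 20 * (((ch 3 z - ch 1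 z) * ch 0 z * ch 0 z) * (gA z ^ 2 * gB z ^ 0 * ch 1 z ^ 0 * gH z ^ 0)) + 1 / 8 * (((ch 5 z - ch 3 z) * ch 0 z * ch 0 z) * (gA z ^ 2 * gB z ^ 0 * ch 1 z ^ 0 * gH z ^ 0)) + 1 / 25 * (((2 * ch 8 z * (ch 5 z - ch 3 z))) * (gA z ^ 2 * gB z ^ 2 * ch 1 z ^ 0 * gH z ^ 0)) + 1 / 100 * (((ch 3 z - ch 1 z) * ch 0 z) * (gA z ^ 1 * gB z ^ 1 * ch 1 z ^ 0 * gH z ^ 0)) + 3 / 25 * (((ch 7 z - ch 5 z) * ch 0 z * ch 0 z) * (gA z ^ 0 * gB z ^ 2 * ch 1 z ^ 0 * gH z ^ 0)) + 26 / 25 * (((4 * ch 8 z * ch 4 z * (ch 3 z - ch 1 z)) * ch 2 z) * (gA z ^ 2 * gB z ^ 1 * ch 1 z ^ 0 * gH z ^ 0)) + 27 / 200 * (((ch 5 z - ch 3 z) * ch 0 z * ch 0 z) * (gA z ^ 0 * gB z ^ 2 * ch 1 z ^ 0 * gH z ^ 0)) + 1 / 50 * (((4 * ch 8 z * ch 4 z * (ch 2 z - ch 0 z)) * ch 3 z) * (gA z ^ 1 * gB z ^ 2 * ch 1 z ^ 0 * gH z ^ 0)) + 3 / 100 * (((2 * ch 8 z * (ch 7 z -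 ch 5 z))) * (gA z ^ 2 * gB z ^ 2 * ch 1 z ^ 0 * gH z ^ 0)) + 1 / 50 * (((ch 9 z - ch 7 z) * ch 0 z) * (gA z ^ 2 * gB z ^ 1 * ch 1 z ^ 0 * gH z ^ 0)) =
      (bb .L .T z) * (gA z ^ 2 * gB z ^ 2 * ch 1 z ^ 0 * gH z ^ 0) - 1 / 2 * ((-32 * ch 1 z + 1552 * ch 1 z ^ 3 - 25040 * ch 1 z ^ 5 + 197600 * ch 1 z ^ 7 - 895488 * ch 1 z ^ 9 + 2515456 * ch 1 z ^ 11 - 4526080 * ch 1 z ^ 13 + 5222400 * ch 1 z ^ 15 - 3735552 * ch 1 z ^ 17 + 1507328 * ch 1 z ^ 19 - 262144 * ch 1 z ^ 21) * (gA z ^ 2 * gB z ^ 0 * ch 1 z ^ 0 * gH z ^ 0) + (-4 * ch 1 z + 184 * ch 1 z ^ 3 - 2192 * ch 1 z ^ 5 - 3104 * ch 1 z ^ 7 + 212480 * ch 1 z ^ 9 - 1444352 * ch 1 z ^ 11 + 4501504 * ch 1 z ^ 13 - 7655424 * ch 1 z ^ 15 + 7340032 * ch 1 z ^ 17 - 3735552 * ch 1 z ^ 19 + 786432 * ch 1 z ^ 21) * (gA z ^ 0 * gB z ^ 2 * ch 1 z ^ 0 * gH z ^ 0)) := by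
    rw [eA, eB, eH]
    simp only [xb, bb, xLT, xLS, xLV, xTS, xTV, xSV, bLT, bLS, bLV, bTS, bTV, bSS, bSV, bVV, gg, cx0, cx2, cx3, cx4, cx5, cx6, cx7, cx8, cx9, cx10, cx11, cx12, cx13, cx14, cx15, cx16]
    ring
  rw [hM]
  linear_combination (9 / 50) * t0 + (23 / 100) * t1 + (1 / 50) * t2 + (1 / 20) * t3 + (47 / 100) * t4 + (1 / 20) * t5 + (1 / 8) * t6 + (1 / 25) * t7 + (1 / 100) * t8 + (3 / 25) * t9 + (26 / 25) * t10 + (27 / 200) * t11 + (1 / 50) * t12 + (3 / 100) * t13 + (1 / 50) * t14 + hp + 1 / 2 * v1 + 1 / 2 * v2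

/-- all terms but the first one -/
theorem Y_L_T_rest : PK fun k => PP k * (Ms .L .T (zk k)) - 9 / 50 * (PP k * (ch 13 (zk k) - ch 11 (zk k))) := by
  have h1 := (((gD1 (a := 1) (b := 3) (by norm_num) (by norm_num)).mul (mP (n := 0) (by norm_num))).smul (c := 23 / 100) (by norm_num))
  have h2 := h1.add ((((gD1 (a := 0) (b := 2) (by norm_num) (by norm_num)).mul (mM (n := 0) (by norm_num))).mul (mM (n := 3) (by norm_num))).smul (c := 1 / 50) (by norm_num))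
  have h3 := h2.add ((((gD2 (a := 1) (b := 3) (by norm_num) (by norm_num)).mul (mP (n := 0) (by norm_num))).mul (mP (n := 0) (by norm_num))).smul (c := 1 / 20) (by norm_num))
  have h4 := h3.add ((gD1 (a := 1) (b := 3) (by norm_num) (by norm_num)).smul (c := 47 / 100) (by norm_num))
  have h5 := h4.add ((((gD4 (a := 1) (b := 3) (by norm_num) (by norm_num)).mul (mP (n := 0) (by norm_num))).mul (mP (n := 0) (by norm_num))).smul (c := 1 / 20) (by norm_num))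
  have h6 := h5.add ((((gD4 (a := 3) (b := 5) (by norm_num) (by norm_num)).mul (mP (n := 0) (by norm_num))).mul (mP (n := 0) (by norm_num))).smul (c := 1 / 8) (by norm_num))
  have h7 := h6.add ((gD2 (a := 3) (b := 5) (by norm_num) (by norm_num)).smul (c := 1 / 25) (by norm_num))
  have h8 := h7.add (((gD4 (a := 1) (b := 3) (by norm_num) (by norm_num)).mul (mQ (n := 0) (by norm_num))).smul (c := 1 / 100) (by norm_num))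
  have h9 := h8.add ((((gD4 (a := 5) (b := 7) (by norm_num) (by norm_num)).mul (mM (n := 0) (by norm_num))).mul (mM (n := 0) (by norm_num))).smul (c := 3 / 25) (by norm_num))
  have h10 := h9.add (((gD1 (a := 1) (b := 3) (by norm_num) (by norm_num)).mul (mP (n := 2) (by norm_num))).smul (c := 26 / 25) (by norm_num))
  have h11 := h10.add ((((gD4 (a := 3) (b := 5) (by norm_num) (by norm_num)).mul (mM (n := 0) (by norm_num))).mul (mM (n := 0) (by norm_num))).smul (c := 27 / 200) (by norm_num))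
  have h12 := h11.add (((gD1 (a := 0) (b := 2) (by norm_num) (by norm_num)).mul (mM (n := 3) (by norm_num))).smul (c := 1 / 50) (by norm_num))
  have h13 := h12.add ((gD2 (a := 5) (b := 7) (by norm_num) (by norm_num)).smul (c := 3 / 100) (by norm_num))
  have h14 := h13.add (((gD4 (a := 7) (b := 9) (by norm_num) (by norm_num)).mul (mP (n := 0) (by norm_num))).smul (c := 1 / 50) (by norm_num))
  refine h14.congr fun k hk => ?_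
  rw [← Y_L_T_id (zk_pos hk)]
  ring

/-- **`Y_L_T`**: the kernel `L`-`St`, same species -/
theorem Y_L_T : PK fun k => PP k * (Ms .L .T (zk k)) := by
  refine (Y_L_T_rest.add ((gD4 (a := 11) (b := 13) (by norm_num) (by norm_num)).smul
    (c := 9 / 50) (by norm_num))).congr fun k hk => ?_
  ring

/-- the lower bound on `|t| ≤ 1` -/
theorem Y_L_T_c0 {t : ℝ} (ht : |t| ≤ 1) :
    1 / 100 ≤ ∫ k in Ioi (0:ℝ), PP k * (Ms .L .T (zk k)) * Real.cos (k * t) := by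
  refine le_trans ?_ (lower_of (q := 9 / 50) (a := 11) (b := 13) (by norm_num) (by norm_num) (by norm_num)
    Y_L_T_rest (fun k _ => by ring) ht)
  have hpi := Real.pi_gt_d2
  have e : Real.cos (((11:ℕ):ℝ) * Real.pi / 16) - Real.cos (((13:ℕ):ℝ) * Real.pi / 16) =
      2 * Real.sin (Real.pi / 4) * Real.sin (Real.pi / 16) := by
    have e1 : ((11:ℕ):ℝ) * Real.pi / 16 = (Real.pi - Real.pi / 4) - Real.pi / 16 := by push_cast; ring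
    have e2 : ((13:ℕ):ℝ) * Real.pi / 16 = (Real.pi - Real.pi / 4) + Real.pi / 16 := by push_cast; ring
    rw [e1, e2, Real.cos_sub (Real.pi - Real.pi / 4), Real.cos_add (Real.pi - Real.pi / 4), Real.sin_pi_sub]
    ring
  have h1 : 1 / 8 ≤ Real.sin (Real.pi / 16) := by
    have h := Real.mul_le_sin (x := Real.pi / 16) (by positivity) (by linarith [Real.pi_pos])
    refine le_trans (le_of_eq ?_) h
    have := Real.pi_ne_zero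
    field_simp
    norm_num
  have h2 : 7 / 10 ≤ Real.sin (Real.pi / 4) := by
    rw [Real.sin_pi_div_four]
    have : (1.4:ℝ) ≤ Real.sqrt 2 := Real.le_sqrt_of_sq_le (by norm_num)
    linarith
  rw [e]
  have h3 : 7 / 10 * (1 / 8) ≤ Real.sin (Real.pi / 4) * Real.sin (Real.pi / 16) :=
    mul_le_mul h2 h1 (by norm_num) (by linarith)
  have h4 : 0 ≤ Real.sin (Real.pi / 4) * Real.sin (Real.pi / 16) := by linarith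
  nlinarith

end

end NUMH
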