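import Pool.Agent.NUP.MF.Forward
import Pool.Agent.NUO.PosK

/-!
# Base kernels

With `y = yk k = π k / 8`:

* `pk_log`: `PK ((1/k) (cosh (b y) - cosh (a y)) / sinh (N y))`, `0 ≤ a < b < N` (`B2`);
* `pk_sc`: `PK ((1/k) (sinh (b y) - sinh (a y)) / cosh (N y))`, `-N < a < b < N`;
* `mk_ss`: `MK (sinh (a y) / sinh (N y))`, `0 < a < N` (`B3`);
* `mk_cc`: `MK (cosh (a y) / cosh (N y))`, `0 ≤ a < N`;
* `mk_css`: `MK (cosh (a y) * sinh (b y) / sinh (N y))`, `0 ≤ a ≤ N / 2`, `0 < b`, `a + b < N` (`B5`).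
-/

set_option autoImplicit false

open MeasureTheory Set Filter Topology

namespace NUO

open NUMF NUPosK

noncomputable section

/-- `y = π k / 8` -/
def yk (k : ℝ) : ℝ := Real.pi * k / 8

lemma yk_pos {k : ℝ} (hk : 0 < k) : 0 < yk k := by
  have := Real.pi_pos
  unfold yk
  positivity

lemma sk_scale (N k : ℝ) : sk (N / 4 * k) = Real.sinh (N * yk k) := by
  unfold sk yk
  congr 1
  ring

/-! ### logarithms -/

/-- scale `N = 4` -/
lemma log4 {a b : ℝ} (ha : 0 ≤ a) (hab : a < b) (hb : b < Real.pi / 2) :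
    PK fun k => 1 / k * (Real.cosh (b * k) - Real.cosh (a * k)) / sk k := by
  have hpi := Real.pi_pos
  have ha1 : |a| < Real.pi / 2 := by rw [abs_of_nonneg ha]; linarith
  have hb1 : |b| < Real.pi / 2 := by rw [abs_of_nonneg (ha.trans hab.le)]; exact hb
  constructor
  · have h1 := ((h_sub_fourier ha1 hb1 0).1).const_mul (1 / 2)
    refine IntegrableOn.congr_fun h1 (fun k _ => ?_) measurableSet_Ioi
    simp only [zero_mul, Real.cos_zero]
    ring
  · intro t
    have h2 := (h_sub_fourier ha1 hb1 t).2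
    have e : ∫ k in Ioi (0:ℝ), 1 / k * (Real.cosh (b * k) - Real.cosh (a * k)) / sk k * Real.cos (k * t) =
        1 / 2 * (h t a - h t b) := by
      rw [h2, ← integral_const_mul]
      refine setIntegral_congr_fun measurableSet_Ioi fun k _ => ?_
      rw [mul_comm k t]
      ring
    rw [e]
    have h3 : h t b ≤ h t a := by
      unfold h
      have h1 : Real.cos (2 * b) ≤ Real.cos (2 * a) :=
        Real.cos_le_cos_of_nonneg_of_le_pi (by linarith) (by linarith) (by linarith)
      have h4 : -1 < Real.cos (2 * b) := by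
        rw [← Real.cos_pi]
        exact Real.cos_lt_cos_of_nonneg_of_le_pi (by linarith) le_rfl (by linarith)
      have h5 : 1 ≤ Real.cosh (2 * t) := Real.one_le_cosh _
      exact Real.log_le_log (by linarith) (by linarith)
    linarith

theorem pk_log {N a b : ℝ} (ha : 0 ≤ a) (hab : a < b) (hb : b < N) :
    PK fun k => 1 / k * (Real.cosh (b * yk k) - Real.cosh (a * yk k)) / Real.sinh (N * yk k) := by
  have hpi := Real.pi_pos
  have hN : 0 < N := by linarith
  have h1 := (log4 (a := a * (Real.pi / (2 * N))) (b := b * (Real.pi / (2 * N))) (by positivity)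
    (by gcongr) (by
      calc b * (Real.pi / (2 * N)) < N * (Real.pi / (2 * N)) := by gcongr
        _ = Real.pi / 2 := by field_simp)).dilate (l := N / 4) (by positivity)
  refine (h1.smul (c := N / 4) (by positivity)).congr fun k hk => ?_
  rw [sk_scale]
  have e1 : b * (Real.pi / (2 * N)) * (N / 4 * k) = b * yk k := by unfold yk; field_simp; ring
  have e2 : a * (Real.pi / (2 * N)) * (N / 4 * k) = a * yk k := by unfold yk; field_simp; ring
  rw [e1, e2]
  field_simp

/-- `(sinh (b y) - sinh (a y)) / cosh (N y)`, `-N < a < b < N` -/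
theorem pk_sc {N a b : ℝ} (ha : -N < a) (hab : a < b) (hb : b < N) :
    PK fun k => 1 / k * (Real.sinh (b * yk k) - Real.sinh (a * yk k)) / Real.cosh (N * yk k) := by
  have h1 := pk_log (N := 2 * N) (a := N + a) (b := N + b) (by linarith) (by linarith) (by linarith)
  have h2 := pk_log (N := 2 * N) (a := N - b) (b := N - a) (by linarith) (by linarith) (by linarith)
  refine (h1.add h2).congr fun k hk => ?_
  have hy := yk_pos hk
  have hN : 0 < N := by linarith
  have e1 : Real.sinh (2 * N * yk k) = 2 * Real.sinh (N * yk k) * Real.cosh (N * yk k) := by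
    rw [mul_assoc 2 N, Real.sinh_two_mul]
  have e2 : Real.cosh ((N + b) * yk k) - Real.cosh ((N + a) * yk k) +
      (Real.cosh ((N - a) * yk k) - Real.cosh ((N - b) * yk k)) =
      2 * Real.sinh (N * yk k) * (Real.sinh (b * yk k) - Real.sinh (a * yk k)) := by
    rw [add_mul, add_mul, sub_mul, sub_mul, Real.cosh_add, Real.cosh_add, Real.cosh_sub, Real.cosh_sub]
    ring
  have h3 : 0 < Real.sinh (N * yk k) := Real.sinh_pos_iff.2 (by positivity)
  have h4 := Real.cosh_pos (N * yk k)
  have e3 : 1 / k * (Real.cosh ((N + b) * yk k) - Real.cosh ((N + a) * yk k)) / Real.sinh (2 * N * yk k) +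
      1 / k * (Real.cosh ((N - a) * yk k) - Real.cosh ((N - b) * yk k)) / Real.sinh (2 * N * yk k) =
      1 / k * (Real.cosh ((N + b) * yk k) - Real.cosh ((N + a) * yk k) +
      (Real.cosh ((N - a) * yk k) - Real.cosh ((N - b) * yk k))) / Real.sinh (2 * N * yk k) := by
    ring
  rw [e3, e2, e1]
  field_simp

/-! ### quotients -/

lemma sin2_pos {a : ℝ} (h0 : 0 < a) (h1 : a < Real.pi / 2) : 0 < Real.sin (2 * a) :=
  Real.sin_pos_of_pos_of_lt_pi (by linarith) (by linarith)

lemma den_lower (a t : ℝ) : (1 + Real.cos (2 * a)) / 2 * Real.cosh (2 * t) ≤ Real.cosh (2 * t) + Real.cos (2 * a) := by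
  have h1 := Real.one_le_cosh (2 * t)
  have h2 := Real.neg_one_le_cos (2 * a)
  have h3 := Real.cos_le_one (2 * a)
  nlinarith

lemma cos2_gt {a : ℝ} (h0 : 0 ≤ a) (h1 : a < Real.pi / 2) : 0 < 1 + Real.cos (2 * a) := by
  have h2 : Real.cos Real.pi < Real.cos (2 * a) :=
    Real.cos_lt_cos_of_nonneg_of_le_pi (by linarith) le_rfl (by linarith)
  rw [Real.cos_pi] at h2
  linarith

lemma den_pos' {a : ℝ} (h0 : 0 ≤ a) (h1 : a < Real.pi / 2) (t : ℝ) : 0 < Real.cosh (2 * t) + Real.cos (2 * a) := by
  have h2 := cos2_gt h0 h1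
  have h3 := Real.cosh_pos (2 * t)
  have h4 := den_lower a t
  have : 0 < (1 + Real.cos (2 * a)) / 2 * Real.cosh (2 * t) := by positivity
  linarith

/-- the function behind `sinh (α k) / sinh (π k / 2)` -/
def gs (a t : ℝ) : ℝ := 1 / Real.pi * (Real.sin (2 * a) / (Real.cosh (2 * t) + Real.cos (2 * a)))

lemma gs_neg (a t : ℝ) : gs a (-t) = gs a t := by
  unfold gs
  rw [mul_neg, Real.cosh_neg]

lemma sech_le_exp (t : ℝ) : 1 / Real.cosh (2 * t) ≤ 2 * Real.exp (-2 * |t|) := by
  have h1 : Real.exp (2 * |t|) / 2 ≤ Real.cosh (2 * t) := by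
    rw [← Real.cosh_abs, abs_mul, abs_two, Real.cosh_eq]
    have := Real.exp_pos (-(2 * |t|))
    linarith
  have h2 : 0 < Real.exp (2 * |t|) := Real.exp_pos _
  calc 1 / Real.cosh (2 * t) ≤ 1 / (Real.exp (2 * |t|) / 2) := by gcongr
    _ = 2 * Real.exp (-2 * |t|) := by
      rw [show -2 * |t| = -(2 * |t|) by ring, Real.exp_neg]
      field_simp

lemma exp2_int : Integrable fun t : ℝ => Real.exp (-2 * |t|) := by
  refine integrable_comp_abs' (f := fun t => Real.exp (-2 * t)) ?_
  have h := integrableOn_exp_mul_Ioi (a := -2) (by norm_num) 0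
  exact h

lemma gs_int {a : ℝ} (h0 : 0 ≤ a) (h1 : a < Real.pi / 2) : Integrable (gs a) := by
  have h2 := cos2_gt h0 h1
  have hpi := Real.pi_pos
  refine (exp2_int.const_mul (1 / Real.pi * (|Real.sin (2 * a)| * (2 / (1 + Real.cos (2 * a)) * 2)))).mono' ?_ ?_
  · refine Continuous.aestronglyMeasurable ?_
    unfold gs
    refine continuous_const.mul (continuous_const.div (by fun_prop) fun t => (den_pos' h0 h1 t).ne')
  · refine Eventually.of_forall fun t => ?_
    have h3 := den_pos' h0 h1 t
    have h4 := den_lower a t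
    have h5 := Real.cosh_pos (2 * t)
    have h6 : 1 / (Real.cosh (2 * t) + Real.cos (2 * a)) ≤ 2 / (1 + Real.cos (2 * a)) * (2 * Real.exp (-2 * |t|)) := by
      calc 1 / (Real.cosh (2 * t) + Real.cos (2 * a)) ≤ 1 / ((1 + Real.cos (2 * a)) / 2 * Real.cosh (2 * t)) := by gcongr
        _ = 2 / (1 + Real.cos (2 * a)) * (1 / Real.cosh (2 * t)) := by field_simp
        _ ≤ _ := by
          have := sech_le_exp t
          gcongr
    have e : ‖gs a t‖ = 1 / Real.pi * (|Real.sin (2 * a)| * (1 / (Real.cosh (2 * t) + Real.cos (2 * a)))) := by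
      rw [Real.norm_eq_abs]
      unfold gs
      rw [abs_mul, abs_div (Real.sin (2 * a)), abs_of_pos h3, abs_of_pos (by positivity : 0 < 1 / Real.pi)]
      ring
    rw [e]
    calc 1 / Real.pi * (|Real.sin (2 * a)| * (1 / (Real.cosh (2 * t) + Real.cos (2 * a)))) ≤
        1 / Real.pi * (|Real.sin (2 * a)| * (2 / (1 + Real.cos (2 * a)) * (2 * Real.exp (-2 * |t|)))) := by gcongr
      _ = _ := by ring

lemma tan_re {a t : ℝ} (h0 : 0 ≤ a) (h1 : a < Real.pi / 2) :
    (Complex.tan ((a : ℂ) + t * Complex.I)).re = Real.sin (2 * a) / (Real.cosh (2 * t) + Real.cos (2 * a)) := by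
  have hd := den_pos' h0 h1 t
  have hs : Complex.sin ((a : ℂ) + t * Complex.I) = ((Real.sin a * Real.cosh t : ℝ) : ℂ) +
      ((Real.cos a * Real.sinh t : ℝ) : ℂ) * Complex.I := by
    rw [Complex.sin_add, Complex.cos_mul_I, Complex.sin_mul_I]
    push_cast
    ring
  have hc : Complex.cos ((a : ℂ) + t * Complex.I) = ((Real.cos a * Real.cosh t : ℝ) : ℂ) -
      ((Real.sin a * Real.sinh t : ℝ) : ℂ) * Complex.I := by
    rw [Complex.cos_add, Complex.cos_mul_I, Complex.sin_mul_I]
    push_cast
    ring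
  rw [Complex.tan_eq_sin_div_cos, hs, hc, Complex.div_re]
  simp only [Complex.add_re, Complex.ofReal_re, Complex.mul_re, Complex.I_re, mul_zero, Complex.ofReal_im, Complex.I_im,
    mul_one, sub_zero, add_zero, Complex.sub_re, Complex.add_im, Complex.mul_im, zero_add, Complex.sub_im, zero_sub,
    Complex.normSq_apply, sub_self]
  have e1 : Real.cosh t ^ 2 - Real.sinh t ^ 2 = 1 := Real.cosh_sq_sub_sinh_sq t
  have e2 : Real.sin a ^ 2 + Real.cos a ^ 2 = 1 := Real.sin_sq_add_cos_sq a
  have e3 : Real.cosh (2 * t) = Real.cosh t ^ 2 + Real.sinh t ^ 2 := Real.cosh_two_mul t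
  have e4 : Real.cos (2 * a) = Real.cos a ^ 2 - Real.sin a ^ 2 := Real.cos_two_mul' a
  have e5 : Real.sin (2 * a) = 2 * Real.sin a * Real.cos a := Real.sin_two_mul a
  have hN : Real.cos a * Real.cosh t * (Real.cos a * Real.cosh t) + -(Real.sin a * Real.sinh t) * -(Real.sin a * Real.sinh t) =
      (Real.cosh (2 * t) + Real.cos (2 * a)) / 2 := by
    rw [e3, e4]
    nlinarith
  have hnum : Real.sin a * Real.cosh t * (Real.cos a * Real.cosh t) +
      Real.cos a * Real.sinh t * -(Real.sin a * Real.sinh t) = Real.sin a * Real.cos a := by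
    linear_combination (Real.sin a * Real.cos a) * e1
  rw [hN, e5, ← add_div, hnum]
  field_simp

lemma tk_re (a t k : ℝ) : (tk ((a : ℂ) + t * Complex.I) k).re = Real.cos (t * k) * (Real.sinh (a * k) / sk k) := by
  unfold tk
  have h1 : Complex.sinh (((a : ℂ) + t * Complex.I) * k) = ((Real.sinh (a * k) * Real.cos (t * k) : ℝ) : ℂ) +
      ((Real.cosh (a * k) * Real.sin (t * k) : ℝ) : ℂ) * Complex.I := by
    rw [show ((a : ℂ) + t * Complex.I) * k = (a * k : ℂ) + (t * k : ℂ) * Complex.I by ring,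
      Complex.sinh_add, Complex.cosh_mul_I, Complex.sinh_mul_I]
    push_cast
    ring
  rw [h1, Complex.div_ofReal_re, Complex.add_re, Complex.ofReal_re, Complex.re_ofReal_mul, Complex.I_re, mul_zero,
    add_zero]
  ring

lemma sinh4 {a : ℝ} (h0 : 0 < a) (h1 : a < Real.pi / 2) {k : ℝ} (hk : 0 < k) :
    ∫ t, gs a t * Real.cos (k * t) = Real.sinh (a * k) / sk k := by
  have hpi := Real.pi_pos
  have hs := sk_pos hk
  have h2 := cos_inversion (m := fun k => Real.sinh (a * k) / sk k) (F := fun t => 2 * Real.pi * gs a t) ?_ ?_ ?_ hk ?_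
  · simp_rw [mul_assoc] at h2
    rw [integral_const_mul, integral_const_mul] at h2
    have h3 : (2 * Real.pi) ≠ 0 := by positivity
    have h4 : 2 * (Real.pi * ∫ t, gs a t * Real.cos (k * t)) = 2 * (Real.pi * (Real.sinh (a * k) / sk k)) := h2
    have h5 := mul_left_cancel₀ two_ne_zero h4
    exact mul_left_cancel₀ hpi.ne' h5
  · have h3 := (tk_integrable (z := (a : ℂ)) (by
      rw [Complex.ofReal_re, abs_of_pos h0]; exact h1)).re
    refine IntegrableOn.congr_fun h3 (fun k _ => ?_) measurableSet_Ioi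
    have h4 := tk_re a 0 k
    simp only [Complex.ofReal_zero, zero_mul, add_zero, Real.cos_zero, one_mul] at h4
    exact h4
  · exact (gs_int h0.le h1).const_mul _
  · intro t
    have hz : |((a : ℂ) + t * Complex.I).re| < Real.pi / 2 := by
      simp only [Complex.add_re, Complex.ofReal_re, Complex.mul_re, Complex.I_re, mul_zero, Complex.ofReal_im,
        Complex.I_im, mul_one, sub_self, add_zero]
      rw [abs_of_pos h0]
      exact h1
    have h3 := congrArg Complex.re (tan_eq hz)
    rw [tan_re h0.le h1] at h3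
    have h4 := integral_re (tk_integrable hz)
    simp only [RCLike.re_to_complex] at h4
    rw [← h4] at h3
    simp_rw [tk_re] at h3
    show 2 * Real.pi * gs a t = _
    unfold gs
    rw [show 2 * Real.pi * (1 / Real.pi * (Real.sin (2 * a) / (Real.cosh (2 * t) + Real.cos (2 * a)))) =
      2 * (Real.sin (2 * a) / (Real.cosh (2 * t) + Real.cos (2 * a))) by field_simp, ← h3, ← integral_const_mul]
    refine setIntegral_congr_fun measurableSet_Ioi fun k _ => ?_
    ring
  · refine ContinuousAt.div (by fun_prop) ?_ hs.ne'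
    unfold sk
    fun_prop

lemma gs_nonneg {a : ℝ} (h0 : 0 ≤ a) (h1 : a < Real.pi / 2) (t : ℝ) : 0 ≤ gs a t := by
  have hpi := Real.pi_pos
  have h2 := den_pos' h0 h1 t
  have h3 : 0 ≤ Real.sin (2 * a) := Real.sin_nonneg_of_nonneg_of_le_pi (by linarith) (by linarith)
  unfold gs
  positivity

lemma ss4 {a : ℝ} (h0 : 0 < a) (h1 : a < Real.pi / 2) : MK fun k => Real.sinh (a * k) / sk k :=
  ⟨gs a, gs_int h0.le h1, gs_nonneg h0.le h1, fun _ hk => sinh4 h0 h1 hk⟩

theorem mk_ss {N a : ℝ} (ha : 0 < a) (haN : a < N) :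
    MK fun k => Real.sinh (a * yk k) / Real.sinh (N * yk k) := by
  have hpi := Real.pi_pos
  have hN : 0 < N := ha.trans haN
  have h1 := (ss4 (a := a * (Real.pi / (2 * N))) (by positivity) (by
      calc a * (Real.pi / (2 * N)) < N * (Real.pi / (2 * N)) := by gcongr
        _ = Real.pi / 2 := by field_simp)).dilate (l := N / 4) (by positivity)
  refine h1.congr fun k hk => ?_
  show Real.sinh (a * (Real.pi / (2 * N)) * (N / 4 * k)) / sk (N / 4 * k) = _
  rw [sk_scale]
  have e1 : a * (Real.pi / (2 * N)) * (N / 4 * k) = a * yk k := by unfold yk; field_simp; ring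
  rw [e1]

theorem mk_cc {N a : ℝ} (ha : 0 ≤ a) (haN : a < N) :
    MK fun k => Real.cosh (a * yk k) / Real.cosh (N * yk k) := by
  have h1 := mk_ss (N := 2 * N) (a := N + a) (by linarith) (by linarith)
  have h2 := mk_ss (N := 2 * N) (a := N - a) (by linarith) (by linarith)
  refine (h1.add h2).congr fun k hk => ?_
  have hy := yk_pos hk
  have hN : 0 < N := lt_of_le_of_lt ha haN
  have e1 : Real.sinh (2 * N * yk k) = 2 * Real.sinh (N * yk k) * Real.cosh (N * yk k) := by
    rw [mul_assoc 2 N, Real.sinh_two_mul]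
  have e2 : Real.sinh ((N + a) * yk k) + Real.sinh ((N - a) * yk k) =
      2 * Real.sinh (N * yk k) * Real.cosh (a * yk k) := by
    rw [add_mul, sub_mul, Real.sinh_add, Real.sinh_sub]
    ring
  have h3 : 0 < Real.sinh (N * yk k) := Real.sinh_pos_iff.2 (by positivity)
  have h4 := Real.cosh_pos (N * yk k)
  rw [e1, ← add_div, e2]
  field_simp

/-! ### products -/

lemma gs_le {a b : ℝ} (hb : 0 ≤ b) (hab : b ≤ a) (h : a + b ≤ Real.pi / 2) (ha : a < Real.pi / 2) (t : ℝ) :
    gs b t ≤ gs a t := by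
  have hpi := Real.pi_pos
  have h1 := den_pos' (hb.trans hab) ha t
  have h2 := den_pos' hb (hab.trans_lt ha) t
  unfold gs
  refine mul_le_mul_of_nonneg_left ?_ (by positivity)
  rw [div_le_div_iff₀ h2 h1]
  have e1 : Real.sin (2 * a) - Real.sin (2 * b) = 2 * Real.sin (a - b) * Real.cos (a + b) := by
    have q1 : Real.sin (2 * a) = Real.sin ((a + b) + (a - b)) := by congr 1; ring
    have q2 : Real.sin (2 * b) = Real.sin ((a + b) - (a - b)) := by congr 1; ring
    rw [q1, q2, Real.sin_add (a + b), Real.sin_sub (a + b)]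
    ring
  have e2 : Real.sin (2 * a) * Real.cos (2 * b) - Real.sin (2 * b) * Real.cos (2 * a) =
      2 * Real.sin (a - b) * Real.cos (a - b) := by
    have : Real.sin (2 * a) * Real.cos (2 * b) - Real.sin (2 * b) * Real.cos (2 * a) = Real.sin (2 * (a - b)) := by
      rw [mul_sub, Real.sin_sub]
      ring
    rw [this, Real.sin_two_mul]
  have h3 : 0 ≤ Real.sin (a - b) := Real.sin_nonneg_of_nonneg_of_le_pi (by linarith) (by linarith)
  have h4 : 0 ≤ Real.cos (a + b) := Real.cos_nonneg_of_mem_Icc ⟨by linarith, by linarith⟩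
  have h5 : 0 ≤ Real.cos (a - b) := Real.cos_nonneg_of_mem_Icc ⟨by linarith, by linarith⟩
  have h6 := Real.cosh_pos (2 * t)
  have h7 : 0 ≤ 2 * Real.sin (a - b) * Real.cos (a + b) * Real.cosh (2 * t) := by positivity
  have h8 : 0 ≤ 2 * Real.sin (a - b) * Real.cos (a - b) := by positivity
  have h9 : (Real.sin (2 * a) - Real.sin (2 * b)) * Real.cosh (2 * t) +
      (Real.sin (2 * a) * Real.cos (2 * b) - Real.sin (2 * b) * Real.cos (2 * a)) ≥ 0 := by
    rw [e1, e2]
    positivity
  linarith

/-- scale `N = 4` -/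
lemma css4 {a b : ℝ} (ha : 0 ≤ a) (ha2 : a ≤ Real.pi / 4) (hb : 0 < b) (hab : a + b < Real.pi / 2) :
    MK fun k => Real.cosh (a * k) * Real.sinh (b * k) / sk k := by
  have hpi := Real.pi_pos
  have e0 : ∀ k : ℝ, Real.cosh (a * k) * Real.sinh (b * k) =
      1 / 2 * (Real.sinh ((a + b) * k) + Real.sinh ((b - a) * k)) := by
    intro k
    rw [add_mul, sub_mul, Real.sinh_add, Real.sinh_sub]
    ring
  rcases lt_trichotomy a b with h | h | h
  · have h1 := (ss4 (a := a + b) (by linarith) hab).add (ss4 (a := b - a) (by linarith) (by linarith))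
    refine (h1.smul (c := 1 / 2) (by norm_num)).congr fun k hk => ?_
    rw [e0]
    ring
  · have h1 := (ss4 (a := a + b) (by linarith) hab)
    refine (h1.smul (c := 1 / 2) (by norm_num)).congr fun k hk => ?_
    rw [e0, h]
    simp
    ring
  · refine ⟨fun t => 1 / 2 * (gs (a + b) t - gs (a - b) t), ?_, ?_, ?_⟩
    · exact ((gs_int (by linarith) hab).sub (gs_int (by linarith) (by linarith))).const_mul _
    · intro t
      have := gs_le (a := a + b) (b := a - b) (by linarith) (by linarith) (by linarith) hab t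
      show 0 ≤ 1 / 2 * (gs (a + b) t - gs (a - b) t)
      linarith
    · intro k hk
      have i1 := int_mul_cos (gs_int (a := a + b) (by linarith) hab) k
      have i2 := int_mul_cos (gs_int (a := a - b) (by linarith) (by linarith)) k
      have e : ∀ t, 1 / 2 * (gs (a + b) t - gs (a - b) t) * Real.cos (k * t) =
          1 / 2 * (gs (a + b) t * Real.cos (k * t) - gs (a - b) t * Real.cos (k * t)) := by
        intro t; ring
      simp_rw [e]
      rw [integral_const_mul, integral_sub i1 i2, sinh4 (by linarith) hab hk, sinh4 (by linarith) (by linarith) hk, e0,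
        show (b - a) * k = -((a - b) * k) by ring, Real.sinh_neg]
      ring

theorem mk_css {N a b : ℝ} (ha : 0 ≤ a) (ha2 : a ≤ N / 2) (hb : 0 < b) (hab : a + b < N) :
    MK fun k => Real.cosh (a * yk k) * Real.sinh (b * yk k) / Real.sinh (N * yk k) := by
  have hpi := Real.pi_pos
  have hN : 0 < N := by linarith
  have h1 := (css4 (a := a * (Real.pi / (2 * N))) (b := b * (Real.pi / (2 * N))) (by positivity) (by
      calc a * (Real.pi / (2 * N)) ≤ N / 2 * (Real.pi / (2 * N)) := by gcongr
        _ = Real.pi / 4 := by field_simp; ring) (by positivity) (by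
      calc a * (Real.pi / (2 * N)) + b * (Real.pi / (2 * N)) = (a + b) * (Real.pi / (2 * N)) := by ring
        _ < N * (Real.pi / (2 * N)) := by gcongr
        _ = Real.pi / 2 := by field_simp)).dilate (l := N / 4) (by positivity)
  refine h1.congr fun k hk => ?_
  show Real.cosh (a * (Real.pi / (2 * N)) * (N / 4 * k)) * Real.sinh (b * (Real.pi / (2 * N)) * (N / 4 * k)) /
    sk (N / 4 * k) = _
  rw [sk_scale]
  have e1 : b * (Real.pi / (2 * N)) * (N / 4 * k) = b * yk k := by unfold yk; field_simp; ring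
  have e2 : a * (Real.pi / (2 * N)) * (N / 4 * k) = a * yk k := by unfold yk; field_simp; ring
  rw [e1, e2]

end

end NUO
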