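import Pool.Agent.NUO.MHat
import Pool.Agent.NUO.PosBase
import Pool.Agent.NUO.PosE

/-!
# Generators of the cone, in the variable `z = π k / 32` (helper75)

`PP k = 2π / (k sinh 16 z)`; `gA = 2 c - 1`, `gB = 2 c + 1`, `gH = cosh 2z`, `c = cosh 4z`.
Bases (class `PK`): `gD4`, `gD2`, `gD1`, `gE2`, `gCm`, `gCp02`, `gCp13`; multipliers (class `MK`): `mM`, `mP`,
`mQ`, `mH`, `mR`.
-/

set_option autoImplicit false

open MeasureTheory Set Filter Topology

namespace NUMH

open NUSB NUO NUPosK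

noncomputable section

def gA (z : ℝ) : ℝ := 2 * ch 4 z - 1
def gB (z : ℝ) : ℝ := 2 * ch 4 z + 1
def gH (z : ℝ) : ℝ := ch 2 z

lemma gA_pos (z : ℝ) : 0 < gA z := by
  have := one_le_ch 4 z
  unfold gA
  linarith

lemma gB_pos (z : ℝ) : 0 < gB z := by
  have := one_le_ch 4 z
  unfold gB
  linarith

lemma gH_pos (z : ℝ) : 0 < gH z := lt_of_lt_of_le one_pos (one_le_ch 2 z)

lemma ch_yk (n : ℕ) (k : ℝ) : Real.cosh ((n / 4 : ℝ) * yk k) = ch n (zk k) := by
  unfold ch yk zk
  congr 1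
  ring

lemma ch_def (n : ℕ) (z : ℝ) : ch n z = Real.cosh (n * z) := rfl

/-- `A = cosh 6z / cosh 2z` -/
lemma gA_eq (z : ℝ) : gA z = Real.cosh (6 * z) / Real.cosh (2 * z) := by
  have h := Real.cosh_pos (2 * z)
  rw [eq_div_iff h.ne']
  have e : 6 * z = 3 * (2 * z) := by ring
  have e2 : ((4:ℕ):ℝ) * z = 2 * (2 * z) := by push_cast; ring
  unfold gA ch
  rw [e, Real.cosh_three_mul, e2, Real.cosh_two_mul, Real.sinh_sq]
  ring

/-- `B = sinh 6z / sinh 2z` -/
lemma gB_eq {z : ℝ} (hz : 0 < z) : gB z = Real.sinh (6 * z) / Real.sinh (2 * z) := by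
  have h : 0 < Real.sinh (2 * z) := Real.sinh_pos_iff.2 (by positivity)
  rw [eq_div_iff h.ne']
  have e : 6 * z = 3 * (2 * z) := by ring
  have e2 : ((4:ℕ):ℝ) * z = 2 * (2 * z) := by push_cast; ring
  unfold gB ch
  rw [e, Real.sinh_three_mul, e2, Real.cosh_two_mul, Real.cosh_sq]
  ring

/-- `A B = sinh 12z / sinh 4z` -/
lemma gAB_eq {z : ℝ} (hz : 0 < z) : gA z * gB z = Real.sinh (12 * z) / Real.sinh (4 * z) := by
  have h : 0 < Real.sinh (4 * z) := Real.sinh_pos_iff.2 (by positivity)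
  rw [eq_div_iff h.ne']
  have e : 12 * z = 3 * (4 * z) := by ring
  unfold gA gB ch
  rw [e, Real.sinh_three_mul]
  have h2 := Real.cosh_sq (4 * z)
  push_cast
  linear_combination (4 * Real.sinh (4 * z)) * h2

/-- `1 / cosh`-type multipliers: `c_{n/4} / A` -/
theorem mM {n : ℕ} (hn : n ≤ 3) : MK fun k => ch n (zk k) / gA (zk k) := by
  have h1 := mk_cc (N := 3 / 2) (a := (n + 2) / 4) (by positivity) (by
    have : (n:ℝ) ≤ 3 := by exact_mod_cast hn
    linarith)
  have h2 := mk_cc (N := 3 / 2) (a := |(n:ℝ) - 2| / 4) (by positivity) (by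
    have : (n:ℝ) ≤ 3 := by exact_mod_cast hn
    have h0 : (0:ℝ) ≤ n := by positivity
    have : |(n:ℝ) - 2| < 6 := by rw [abs_lt]; constructor <;> linarith
    linarith)
  refine ((h1.smul (c := 1 / 2) (by norm_num)).add (h2.smul (c := 1 / 2) (by norm_num))).congr fun k hk => ?_
  rw [gA_eq]
  have e1 : (3 / 2 : ℝ) * yk k = 6 * zk k := by unfold yk zk; ring
  have e2 : ((n:ℝ) + 2) / 4 * yk k = n * zk k + 2 * zk k := by unfold yk zk; ring
  have e3 : Real.cosh (|(n:ℝ) - 2| / 4 * yk k) = Real.cosh (n * zk k - 2 * zk k) := by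
    rw [← Real.cosh_abs (n * zk k - 2 * zk k)]
    congr 1
    have hz := zk_pos hk
    rw [← sub_mul, abs_mul, abs_of_pos hz]
    unfold yk zk
    ring
  rw [e1, e2, e3, Real.cosh_add, Real.cosh_sub, ch_def]
  have h3 := Real.cosh_pos (2 * zk k)
  have h4 := Real.cosh_pos (6 * zk k)
  field_simp
  ring

/-- `c_{n/4} / B` -/
theorem mP {n : ℕ} (hn : n ≤ 3) : MK fun k => ch n (zk k) / gB (zk k) := by
  have h1 := mk_css (N := 3 / 2) (a := n / 4) (b := 1 / 2) (by positivity) (by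
    have : (n:ℝ) ≤ 3 := by exact_mod_cast hn
    linarith) (by norm_num) (by
    have : (n:ℝ) ≤ 3 := by exact_mod_cast hn
    linarith)
  refine h1.congr fun k hk => ?_
  have hz := zk_pos hk
  rw [gB_eq hz, ch_yk]
  have e1 : (3 / 2 : ℝ) * yk k = 6 * zk k := by unfold yk zk; ring
  have e2 : (1 / 2 : ℝ) * yk k = 2 * zk k := by unfold yk zk; ring
  rw [e1, e2]
  have h3 : 0 < Real.sinh (2 * zk k) := Real.sinh_pos_iff.2 (by positivity)
  have h4 : 0 < Real.sinh (6 * zk k) := Real.sinh_pos_iff.2 (by positivity)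
  field_simp

/-- `c_{n/4} / (A B)` -/
theorem mQ {n : ℕ} (hn : n ≤ 6) : MK fun k => ch n (zk k) / (gA (zk k) * gB (zk k)) := by
  have h1 := mk_css (N := 3) (a := n / 4) (b := 1) (by positivity) (by
    have : (n:ℝ) ≤ 6 := by exact_mod_cast hn
    linarith) (by norm_num) (by
    have : (n:ℝ) ≤ 6 := by exact_mod_cast hn
    linarith)
  refine h1.congr fun k hk => ?_
  have hz := zk_pos hk
  rw [gAB_eq hz, ch_yk]
  have e1 : (3 : ℝ) * yk k = 12 * zk k := by unfold yk zk; ring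
  have e2 : (1 : ℝ) * yk k = 4 * zk k := by unfold yk zk; ring
  rw [e1, e2]
  have h3 : 0 < Real.sinh (4 * zk k) := Real.sinh_pos_iff.2 (by positivity)
  have h4 : 0 < Real.sinh (12 * zk k) := Real.sinh_pos_iff.2 (by positivity)
  field_simp

/-- `c_{n/4} / H`, `n = 0, 1` -/
theorem mH {n : ℕ} (hn : n ≤ 1) : MK fun k => ch n (zk k) / gH (zk k) := by
  have h1 := mk_cc (N := 1 / 2) (a := n / 4) (by positivity) (by
    have : (n:ℝ) ≤ 1 := by exact_mod_cast hn
    linarith)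
  refine h1.congr fun k hk => ?_
  rw [ch_yk]
  have e1 : Real.cosh (1 / 2 * yk k) = gH (zk k) := by
    unfold gH ch yk zk
    congr 1
    push_cast
    ring
  rw [e1]

/-- `c_{n/4} / (A H)`, `n ≤ 5` -/
theorem mR {n : ℕ} (hn : n ≤ 5) : MK fun k => ch n (zk k) / (gA (zk k) * gH (zk k)) := by
  have h1 := mk_cc (N := 3 / 2) (a := n / 4) (by positivity) (by
    have : (n:ℝ) ≤ 5 := by exact_mod_cast hn
    linarith)
  refine h1.congr fun k hk => ?_
  rw [ch_yk]
  have e1 : Real.cosh (3 / 2 * yk k) = gA (zk k) * gH (zk k) := by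
    rw [gA_eq]
    have h := Real.cosh_pos (2 * zk k)
    have e : gH (zk k) = Real.cosh (2 * zk k) := by unfold gH ch; norm_num
    rw [e]
    have e2 : (3 / 2 : ℝ) * yk k = 6 * zk k := by unfold yk zk; ring
    rw [e2]
    field_simp
  rw [e1]

/-! ### bases -/

lemma sinh16 (z : ℝ) : Real.sinh (16 * z) = 2 * Real.sinh (8 * z) * ch 8 z := by
  have e : 16 * z = 2 * (8 * z) := by ring
  rw [e, Real.sinh_two_mul]
  unfold ch
  norm_num

lemma sinh16' (z : ℝ) : Real.sinh (16 * z) = 4 * Real.sinh (4 * z) * ch 4 z * ch 8 z := by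
  have e : 8 * z = 2 * (4 * z) := by ring
  rw [sinh16, e, Real.sinh_two_mul]
  unfold ch
  push_cast
  ring

theorem gD4 {a b : ℕ} (hab : a < b) (hb : b < 16) :
    PK fun k => PP k * (ch b (zk k) - ch a (zk k)) := by
  have h := pk_log (N := 4) (a := a / 4) (b := b / 4) (by positivity) (by
    have : (a:ℝ) < b := by exact_mod_cast hab
    linarith) (by
    have : (b:ℝ) < 16 := by exact_mod_cast hb
    linarith)
  refine (h.smul (c := 2 * Real.pi) (by positivity)).congr fun k hk => ?_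
  rw [ch_yk, ch_yk]
  have e1 : (4 : ℝ) * yk k = 16 * zk k := by unfold yk zk; ring
  rw [e1]
  unfold PP
  have hz := zk_pos hk
  have h4 : 0 < Real.sinh (16 * zk k) := Real.sinh_pos_iff.2 (by positivity)
  field_simp

theorem gD2 {a b : ℕ} (hab : a < b) (hb : b < 8) :
    PK fun k => PP k * (2 * ch 8 (zk k) * (ch b (zk k) - ch a (zk k))) := by
  have h := pk_log (N := 2) (a := a / 4) (b := b / 4) (by positivity) (by
    have : (a:ℝ) < b := by exact_mod_cast hab
    linarith) (by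
    have : (b:ℝ) < 8 := by exact_mod_cast hb
    linarith)
  refine (h.smul (c := 2 * Real.pi) (by positivity)).congr fun k hk => ?_
  rw [ch_yk, ch_yk]
  have e1 : (2 : ℝ) * yk k = 8 * zk k := by unfold yk zk; ring
  rw [e1]
  unfold PP
  rw [sinh16]
  have hz := zk_pos hk
  have h4 : 0 < Real.sinh (8 * zk k) := Real.sinh_pos_iff.2 (by positivity)
  have h5 : 0 < ch 8 (zk k) := lt_of_lt_of_le one_pos (one_le_ch _ _)
  field_simp

theorem gD1 {a b : ℕ} (hab : a < b) (hb : b < 4) :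
    PK fun k => PP k * (4 * ch 8 (zk k) * ch 4 (zk k) * (ch b (zk k) - ch a (zk k))) := by
  have h := pk_log (N := 1) (a := a / 4) (b := b / 4) (by positivity) (by
    have : (a:ℝ) < b := by exact_mod_cast hab
    linarith) (by
    have : (b:ℝ) < 4 := by exact_mod_cast hb
    linarith)
  refine (h.smul (c := 2 * Real.pi) (by positivity)).congr fun k hk => ?_
  rw [ch_yk, ch_yk]
  have e1 : (1 : ℝ) * yk k = 4 * zk k := by unfold yk zk; ring
  rw [e1]
  unfold PP
  rw [sinh16']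
  have hz := zk_pos hk
  have h4 : 0 < Real.sinh (4 * zk k) := Real.sinh_pos_iff.2 (by positivity)
  have h5 : 0 < ch 8 (zk k) := lt_of_lt_of_le one_pos (one_le_ch _ _)
  have h6 : 0 < ch 4 (zk k) := lt_of_lt_of_le one_pos (one_le_ch _ _)
  field_simp

/-- the non-unimodal base -/
theorem gE2 : PK fun k => PP k * (2 * ch 8 (zk k) * (5 / 2 * (ch 3 (zk k) - ch 1 (zk k)) -
    (ch 5 (zk k) - ch 3 (zk k)))) := by
  have e1 : (1 / 4 : ℝ) * Real.pi / 2 = Real.pi / 8 := by ring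
  have e2 : (3 / 4 : ℝ) * Real.pi / 2 = 3 * Real.pi / 8 := by ring
  have e3 : (5 / 4 : ℝ) * Real.pi / 2 = 5 * Real.pi / 8 := by ring
  have h1 := cos3_le
  have h2 := cos1_ge
  have h3 := cos3_nonneg
  have h5 : -1 < Real.cos (5 * Real.pi / 8) := by rw [cos5_eq]; linarith
  have h := log_hyp (α := Real.cos (Real.pi / 8)) (β := Real.cos (3 * Real.pi / 8))
    (γ := Real.cos (5 * Real.pi / 8)) h5 (by rw [cos5_eq]; linarith) (by linarith) (p := 5) (q := 2)
    (by norm_num) num_E2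
  have hE : PK (fun k => 1 / k * (5 / 2 * (Real.cosh (3 / 4 * (Real.pi * k / 8)) -
      Real.cosh (1 / 4 * (Real.pi * k / 8))) -
      (Real.cosh (5 / 4 * (Real.pi * k / 8)) - Real.cosh (3 / 4 * (Real.pi * k / 8)))) /
        Real.sinh (2 * (Real.pi * k / 8))) := by
    refine PK_E (a := 1 / 4) (x := 3 / 4) (b := 5 / 4) (A := 5 / 2) (N := 2) (by norm_num) (by norm_num)
      (by norm_num) (by norm_num) (by norm_num) ?_ ?_
    · rw [e1, e2, e3, cos5_eq]
      linarith
    · rw [e1, e2, e3]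
      exact_mod_cast h
  refine (hE.smul (c := 2 * Real.pi) (by positivity)).congr fun k hk => ?_
  have q1 : Real.cosh (1 / 4 * (Real.pi * k / 8)) = ch 1 (zk k) := by unfold ch zk; congr 1; push_cast; ring
  have q3 : Real.cosh (3 / 4 * (Real.pi * k / 8)) = ch 3 (zk k) := by unfold ch zk; congr 1; push_cast; ring
  have q5 : Real.cosh (5 / 4 * (Real.pi * k / 8)) = ch 5 (zk k) := by unfold ch zk; congr 1; push_cast; ring
  have q8 : 2 * (Real.pi * k / 8) = 8 * zk k := by unfold zk; ring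
  rw [q1, q3, q5, q8]
  unfold PP
  rw [sinh16]
  have hz := zk_pos hk
  have h4 : 0 < Real.sinh (8 * zk k) := Real.sinh_pos_iff.2 (by positivity)
  have h5 : 0 < ch 8 (zk k) := lt_of_lt_of_le one_pos (one_le_ch _ _)
  field_simp

/-- `Cm[a,b]`: `(2π/k)(sinh bz - sinh az) / A` -/
theorem gCm {a b : ℕ} (hab : a < b) (hb : b ≤ 3) :
    PK fun k => PP k * (2 * ch 8 (zk k) * ch 4 (zk k) * (ch (4 + b) (zk k) - ch (4 + a) (zk k) +
      ch (4 - a) (zk k) - ch (4 - b) (zk k)) / gA (zk k)) := by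
  have hb' : (b:ℝ) ≤ 3 := by exact_mod_cast hb
  have hab' : (a:ℝ) < b := by exact_mod_cast hab
  have ha0 : (0:ℝ) ≤ a := by positivity
  have h1 := pk_sc (N := 3 / 2) (a := (a + 2) / 4) (b := (b + 2) / 4) (by linarith) (by linarith) (by linarith)
  have h2 := pk_sc (N := 3 / 2) (a := (a - 2) / 4) (b := (b - 2) / 4) (by linarith) (by linarith) (by linarith)
  have hp := Real.pi_pos
  refine ((h1.smul (c := Real.pi) hp.le).add (h2.smul (c := Real.pi) hp.le)).congr fun k hk => ?_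
  have hz := zk_pos hk
  have f1 : (3 / 2 : ℝ) * yk k = 6 * zk k := by unfold yk zk; ring
  have f2 : ∀ n : ℝ, (n + 2) / 4 * yk k = n * zk k + 2 * zk k := fun n => by unfold yk zk; ring
  have f3 : ∀ n : ℝ, (n - 2) / 4 * yk k = n * zk k - 2 * zk k := fun n => by unfold yk zk; ring
  have g1 : ∀ n : ℕ, n ≤ 4 → ch (4 + n) (zk k) - ch (4 - n) (zk k) =
      2 * Real.sinh (4 * zk k) * Real.sinh (n * zk k) := by
    intro n hn
    unfold ch
    rw [Nat.cast_sub hn]
    push_cast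
    rw [add_mul, sub_mul, Real.cosh_add, Real.cosh_sub]
    ring
  have g2 : ch (4 + b) (zk k) - ch (4 + a) (zk k) + ch (4 - a) (zk k) - ch (4 - b) (zk k) =
      2 * Real.sinh (4 * zk k) * (Real.sinh (b * zk k) - Real.sinh (a * zk k)) := by
    have := g1 b (by omega)
    have := g1 a (by omega)
    linarith
  rw [g2, f1, f2, f2, f3, f3, gA_eq, Real.sinh_add, Real.sinh_add, Real.sinh_sub, Real.sinh_sub]
  unfold PP
  rw [sinh16']
  have h4 : 0 < Real.sinh (4 * zk k) := Real.sinh_pos_iff.2 (by positivity)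
  have h5 : 0 < ch 8 (zk k) := lt_of_lt_of_le one_pos (one_le_ch _ _)
  have h6 : 0 < ch 4 (zk k) := lt_of_lt_of_le one_pos (one_le_ch _ _)
  have h7 := Real.cosh_pos (2 * zk k)
  have h8 := Real.cosh_pos (6 * zk k)
  field_simp
  ring

/-- `Cp[0,1/2] = (π/k)(cosh 4z - 1)/sinh 6z` -/
theorem gCp02 : PK fun k => PP k * (2 * ch 8 (zk k) * ch 4 (zk k) * (ch 6 (zk k) - ch 2 (zk k)) / gB (zk k)) := by
  have h := pk_log (N := 3 / 2) (a := 0) (b := 1) le_rfl (by norm_num) (by norm_num)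
  refine (h.smul (c := Real.pi) Real.pi_pos.le).congr fun k hk => ?_
  have hz := zk_pos hk
  have f1 : (3 / 2 : ℝ) * yk k = 6 * zk k := by unfold yk zk; ring
  have f2 : (1 : ℝ) * yk k = 4 * zk k := by unfold yk zk; ring
  have g2 : ch 6 (zk k) - ch 2 (zk k) = 2 * Real.sinh (4 * zk k) * Real.sinh (2 * zk k) := by
    unfold ch
    push_cast
    have e1 : 6 * zk k = 4 * zk k + 2 * zk k := by ring
    have e2 : Real.cosh (2 * zk k) = Real.cosh (4 * zk k - 2 * zk k) := by congr 1; ring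
    rw [e2, e1, Real.cosh_add, Real.cosh_sub]
    ring
  have g3 : Real.cosh (4 * zk k) - 1 = 2 * Real.sinh (2 * zk k) ^ 2 := by
    have e1 : 4 * zk k = 2 * (2 * zk k) := by ring
    rw [e1, Real.cosh_two_mul, Real.cosh_sq]
    ring
  rw [g2, f1, f2, gB_eq hz, zero_mul, Real.cosh_zero, g3]
  unfold PP
  rw [sinh16']
  have h3 : 0 < Real.sinh (2 * zk k) := Real.sinh_pos_iff.2 (by positivity)
  have h4 : 0 < Real.sinh (4 * zk k) := Real.sinh_pos_iff.2 (by positivity)
  have h7 : 0 < Real.sinh (6 * zk k) := Real.sinh_pos_iff.2 (by positivity)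
  have h5 : 0 < ch 8 (zk k) := lt_of_lt_of_le one_pos (one_le_ch _ _)
  have h6 : 0 < ch 4 (zk k) := lt_of_lt_of_le one_pos (one_le_ch _ _)
  field_simp
  ring

/-- `Cp[1/4,3/4] = (π/k)(cosh 5z - cosh 3z)/sinh 6z` -/
theorem gCp13 : PK fun k => PP k * (2 * ch 8 (zk k) * ch 4 (zk k) * (ch 7 (zk k) - ch 5 (zk k) + ch 3 (zk k) -
    ch 1 (zk k)) / gB (zk k)) := by
  have h := pk_log (N := 3 / 2) (a := 3 / 4) (b := 5 / 4) (by norm_num) (by norm_num) (by norm_num)
  refine (h.smul (c := Real.pi) Real.pi_pos.le).congr fun k hk => ?_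
  have hz := zk_pos hk
  have f1 : (3 / 2 : ℝ) * yk k = 6 * zk k := by unfold yk zk; ring
  have f2 : (5 / 4 : ℝ) * yk k = 3 * zk k + 2 * zk k := by unfold yk zk; ring
  have f3 : (3 / 4 : ℝ) * yk k = 1 * zk k + 2 * zk k := by unfold yk zk; ring
  have g2 : ch 7 (zk k) - ch 5 (zk k) + ch 3 (zk k) - ch 1 (zk k) =
      2 * Real.sinh (4 * zk k) * (Real.sinh (3 * zk k) - Real.sinh (1 * zk k)) := by
    unfold ch
    push_cast
    have e7 : 7 * zk k = 4 * zk k + 3 * zk k := by ring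
    have e1 : Real.cosh (1 * zk k) = Real.cosh (4 * zk k - 3 * zk k) := by congr 1; ring
    have e5 : 5 * zk k = 4 * zk k + 1 * zk k := by ring
    have e3 : Real.cosh (3 * zk k) = Real.cosh (4 * zk k - 1 * zk k) := by congr 1; ring
    rw [e1, e3, e7, e5, Real.cosh_add, Real.cosh_sub, Real.cosh_add, Real.cosh_sub]
    ring
  have g3 : Real.cosh (3 * zk k + 2 * zk k) - Real.cosh (1 * zk k + 2 * zk k) =
      2 * Real.sinh (2 * zk k) * (Real.sinh (3 * zk k) - Real.sinh (1 * zk k)) := by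
    have e1 : Real.cosh (1 * zk k + 2 * zk k) = Real.cosh (3 * zk k) := by congr 1; ring
    have e2 : Real.cosh (3 * zk k - 2 * zk k) = Real.cosh (1 * zk k) := by congr 1; ring
    have h1 : Real.cosh (3 * zk k + 2 * zk k) - Real.cosh (1 * zk k) =
        2 * Real.sinh (3 * zk k) * Real.sinh (2 * zk k) := by
      rw [← e2, Real.cosh_add, Real.cosh_sub]; ring
    have h2 : Real.cosh (3 * zk k) - Real.cosh (1 * zk k) = 2 * Real.sinh (2 * zk k) * Real.sinh (1 * zk k) := by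
      have e3 : Real.cosh (1 * zk k) = Real.cosh (2 * zk k - 1 * zk k) := by congr 1; ring
      have e4 : Real.cosh (3 * zk k) = Real.cosh (2 * zk k + 1 * zk k) := by congr 1; ring
      rw [e3, e4, Real.cosh_add, Real.cosh_sub]; ring
    rw [e1]
    linarith
  rw [g2, f1, f2, f3, gB_eq hz, g3]
  unfold PP
  rw [sinh16']
  have h3 : 0 < Real.sinh (2 * zk k) := Real.sinh_pos_iff.2 (by positivity)
  have h4 : 0 < Real.sinh (4 * zk k) := Real.sinh_pos_iff.2 (by positivity)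
  have h7 : 0 < Real.sinh (6 * zk k) := Real.sinh_pos_iff.2 (by positivity)
  have h5 : 0 < ch 8 (zk k) := lt_of_lt_of_le one_pos (one_le_ch _ _)
  have h6 : 0 < ch 4 (zk k) := lt_of_lt_of_le one_pos (one_le_ch _ _)
  field_simp
  ring

end

end NUMH
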