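import Pool.Agent.NUO.PosConv
import Pool.Agent.NUO.GenX
import Pool.Agent.NUO.Cone

/-!
# The comparison lemma for products with a multiplier, and evaluated kernels (helper45)

* `FT m t = ∫_0^∞ m k cos (k t) dk`; `mul_eval`: the transform of `m u`, `u ∈ MK`;
* `CK m`: `m ∈ PK` and `2 e^{-2 s²} F t ≤ F (t - s) + F (t + s)`, `F = FT m`;
* `CK.mul`: `m ∈ CK`, `u ∈ MK`, `u k ≥ A e^{-γ y²}` (`y = π k / 8`), `κ² (1 + γ π² / 8) ≤ A²` give
  `m (u - κ) ∈ PK`;
* `CK_log`: the kernel `PP (ch b - ch a)` is in `CK` for `a < b ≤ 8`;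
* `EV m f`: the transform of `m` is `f`; evaluated logarithmic kernels, core included.
-/

set_option autoImplicit false

open MeasureTheory Set Filter Topology

namespace NUPosK

noncomputable section

/-- the cosine transform -/
def FT (m : ℝ → ℝ) (t : ℝ) : ℝ := ∫ k in Ioi (0:ℝ), m k * Real.cos (k * t)

lemma FT_neg (m : ℝ → ℝ) (t : ℝ) : FT m (-t) = FT m t := by
  unfold FT
  congr 1
  funext k
  rw [mul_neg, Real.cos_neg]

/-- the transform of a product -/
theorem mul_eval {m u G : ℝ → ℝ} (hm : IntegrableOn m (Ioi 0)) (h1 : Integrable G)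
    (h3 : ∀ k : ℝ, 0 < k → ∫ s, G s * Real.cos (k * s) = u k) (t : ℝ) :
    IntegrableOn (fun k => m k * u k) (Ioi 0) ∧
    Integrable (fun s => G s * ((FT m (t - s) + FT m (t + s)) / 2)) ∧
    ∫ k in Ioi (0:ℝ), m k * u k * Real.cos (k * t) = ∫ s, G s * ((FT m (t - s) + FT m (t + s)) / 2) := by
  have hc := MK.cont h1
  set U : ℝ → ℝ := fun k => ∫ s, G s * Real.cos (k * s) with hU
  have hb : ∀ k, ‖U k‖ ≤ ∫ s, ‖G s‖ := fun k => by
    refine (norm_integral_le_integral_norm _).trans (integral_mono (int_mul_cos h1 k).norm h1.norm fun s => ?_)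
    simp only []
    rw [norm_mul]
    exact mul_le_of_le_one_right (norm_nonneg _) (by rw [Real.norm_eq_abs]; exact Real.abs_cos_le_one _)
  have hint : IntegrableOn (fun k => m k * U k) (Ioi 0) :=
    hm.mul_bdd (c := ∫ s, ‖G s‖) hc.aestronglyMeasurable (Eventually.of_forall hb)
  have hint' : IntegrableOn (fun k => m k * u k) (Ioi 0) :=
    hint.congr_fun (fun k hk => by simp only [hU]; rw [h3 k hk]) measurableSet_Ioi
  have hprod : Integrable (fun p : ℝ × ℝ => m p.1 * G p.2) ((volume.restrict (Ioi 0)).prod volume) :=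
    Integrable.mul_prod hm h1
  have hprod2 : Integrable (fun p : ℝ × ℝ => m p.1 * G p.2 * (Real.cos (p.1 * p.2) * Real.cos (p.1 * t)))
      ((volume.restrict (Ioi 0)).prod volume) := by
    refine hprod.mul_bdd (c := 1) (Measurable.aestronglyMeasurable (by fun_prop)) (Eventually.of_forall fun p => ?_)
    rw [norm_mul, Real.norm_eq_abs, Real.norm_eq_abs]
    exact mul_le_one₀ (Real.abs_cos_le_one _) (abs_nonneg _) (Real.abs_cos_le_one _)
  have e1 : ∫ k in Ioi (0:ℝ), m k * u k * Real.cos (k * t) =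
      ∫ k in Ioi (0:ℝ), ∫ s, m k * G s * (Real.cos (k * s) * Real.cos (k * t)) := by
    refine setIntegral_congr_fun measurableSet_Ioi fun k hk => ?_
    show m k * u k * Real.cos (k * t) = _
    rw [← h3 k hk]
    have : m k * (∫ s, G s * Real.cos (k * s)) * Real.cos (k * t) =
        (m k * Real.cos (k * t)) * ∫ s, G s * Real.cos (k * s) := by ring
    rw [this, ← integral_const_mul]
    exact integral_congr_ae (Eventually.of_forall fun s => by simp only []; ring)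
  have e2 : ∀ s, (∫ k in Ioi (0:ℝ), m k * G s * (Real.cos (k * s) * Real.cos (k * t))) =
      G s * ((FT m (t - s) + FT m (t + s)) / 2) := by
    intro s
    have i1 := intOn_mul_cos hm (t - s)
    have i2 := intOn_mul_cos hm (t + s)
    unfold FT
    rw [← integral_add i1 i2, div_eq_mul_inv, mul_comm (∫ k in Ioi (0:ℝ), _) _, ← mul_assoc, ← integral_const_mul]
    refine integral_congr_ae (Eventually.of_forall fun k => ?_)
    simp only []
    have h := Real.cos_sub (k * t) (k * s)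
    have h' := Real.cos_add (k * t) (k * s)
    have e3 : k * (t - s) = k * t - k * s := by ring
    have e4 : k * (t + s) = k * t + k * s := by ring
    rw [e3, e4, h, h']
    ring
  refine ⟨hint', ?_, ?_⟩
  · have := hprod2.integral_prod_right
    refine this.congr (Eventually.of_forall fun s => ?_)
    exact e2 s
  · rw [e1, integral_integral_swap hprod2]
    exact integral_congr_ae (Eventually.of_forall fun s => e2 s)

/-- the half line transform of a Gaussian -/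
lemma gauss_val (e s : ℝ) (he : 0 < e) : ∫ k in Ioi (0:ℝ), Real.exp (-e * k ^ 2) * Real.cos (k * s) =
    1 / 2 * (Real.sqrt (Real.pi / e) * Real.exp (-s ^ 2 / (4 * e))) := by
  have h1 : ∫ k in Ioi (0:ℝ), Real.exp (-e * k ^ 2) * Real.cos (k * s) =
      1 / 2 * ∫ k : ℝ, Real.exp (-e * k ^ 2) * Real.cos (k * s) := by
    have h2 := integral_comp_abs (f := fun k => Real.exp (-e * k ^ 2) * Real.cos (k * s))
    have h3 : ∀ k : ℝ, Real.exp (-e * |k| ^ 2) * Real.cos (|k| * s) = Real.exp (-e * k ^ 2) * Real.cos (k * s) := by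
      intro k
      rw [sq_abs]
      congr 1
      rcases abs_cases k with ⟨h, _⟩ | ⟨h, _⟩
      · rw [h]
      · rw [h, neg_mul, Real.cos_neg]
    simp_rw [h3] at h2
    rw [h2]
    ring
  rw [h1]
  have hre : (0 : ℝ) < ((e : ℝ) : ℂ).re := by rwa [Complex.ofReal_re]
  have h2 := fourierIntegral_gaussian hre (s : ℂ)
  have hci : Integrable fun k : ℝ => Complex.exp (Complex.I * s * k) * Complex.exp (-(e : ℂ) * (k : ℂ) ^ 2) := by
    have hi : Integrable fun k : ℝ => ((Real.exp (-e * k ^ 2) : ℝ) : ℂ) := (integrable_exp_neg_mul_sq he).ofReal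
    have h3 := hi.bdd_mul (c := 1) (f := fun k : ℝ => Complex.exp (Complex.I * s * k))
      (Continuous.aestronglyMeasurable (by fun_prop)) (Eventually.of_forall fun k => by
        rw [show Complex.I * s * k = ((s * k : ℝ) : ℂ) * Complex.I by push_cast; ring, Complex.norm_exp_ofReal_mul_I])
    refine h3.congr (Eventually.of_forall fun k => ?_)
    simp only []
    push_cast
    rfl
  have h3 := integral_re hci
  simp only [RCLike.re_to_complex] at h3
  have h4 : ∀ k : ℝ, (Complex.exp (Complex.I * s * k) * Complex.exp (-(e : ℂ) * (k : ℂ) ^ 2)).re =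
      Real.exp (-e * k ^ 2) * Real.cos (k * s) := by
    intro k
    rw [show Complex.I * s * k = ((k * s : ℝ) : ℂ) * Complex.I by push_cast; ring,
      show -(e : ℂ) * (k : ℂ) ^ 2 = ((-e * k ^ 2 : ℝ) : ℂ) by push_cast; ring, ← Complex.ofReal_exp,
      Complex.re_mul_ofReal, Complex.exp_ofReal_mul_I_re]
    ring
  simp_rw [h4] at h3
  rw [h3, h2]
  have h5 : ((Real.pi : ℂ) / (e : ℂ)) ^ (1 / 2 : ℂ) * Complex.exp (-(s : ℂ) ^ 2 / (4 * (e : ℂ))) =
      ((Real.sqrt (Real.pi / e) * Real.exp (-s ^ 2 / (4 * e)) : ℝ) : ℂ) := by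
    rw [Real.sqrt_eq_rpow]
    push_cast
    rw [Complex.ofReal_cpow (by positivity)]
    push_cast
    rfl
  rw [h5, Complex.ofReal_re]

/-- the Gaussian average of the function behind a multiplier -/
theorem gauss_avg {u G : ℝ → ℝ} (h1 : Integrable G)
    (h3 : ∀ k : ℝ, 0 < k → ∫ s, G s * Real.cos (k * s) = u k) {A γ κ : ℝ} (hA : 0 ≤ A) (hγ : 0 ≤ γ)
    (hu : ∀ k : ℝ, 0 < k → A * Real.exp (-γ * (Real.pi * k / 8) ^ 2) ≤ u k)
    (hκ : κ ^ 2 * (1 + γ * Real.pi ^ 2 / 8) ≤ A ^ 2) :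
    κ ≤ ∫ s, G s * Real.exp (-2 * s ^ 2) := by
  have hpi := Real.pi_pos
  have hw : IntegrableOn (fun k : ℝ => Real.exp (-(1 / 8) * k ^ 2)) (Ioi 0) :=
    (integrable_exp_neg_mul_sq (by norm_num)).integrableOn
  obtain ⟨i1, -, e1⟩ := mul_eval hw h1 h3 0
  have hF : ∀ s, FT (fun k : ℝ => Real.exp (-(1 / 8) * k ^ 2)) s =
      1 / 2 * Real.sqrt (8 * Real.pi) * Real.exp (-2 * s ^ 2) := by
    intro s
    unfold FT
    rw [gauss_val (1 / 8) s (by norm_num)]
    rw [show Real.pi / (1 / 8) = 8 * Real.pi by ring, show -s ^ 2 / (4 * (1 / 8)) = -2 * s ^ 2 by ring]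
    ring
  have e2 : ∀ s : ℝ, G s * ((FT (fun k : ℝ => Real.exp (-(1 / 8) * k ^ 2)) (0 - s) +
      FT (fun k : ℝ => Real.exp (-(1 / 8) * k ^ 2)) (0 + s)) / 2) =
      1 / 2 * Real.sqrt (8 * Real.pi) * (G s * Real.exp (-2 * s ^ 2)) := by
    intro s
    rw [hF, hF]
    simp only [zero_sub, zero_add, neg_sq]
    ring
  simp_rw [e2] at e1
  rw [integral_const_mul] at e1
  simp only [mul_zero, Real.cos_zero, mul_one] at e1
  -- lower bound
  set b : ℝ := 1 / 8 + γ * Real.pi ^ 2 / 64 with hb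
  have hb0 : 0 < b := by positivity
  have i3 : IntegrableOn (fun k : ℝ => A * Real.exp (-b * k ^ 2)) (Ioi 0) :=
    ((integrable_exp_neg_mul_sq hb0).const_mul A).integrableOn
  have e3 : ∫ k in Ioi (0:ℝ), A * Real.exp (-b * k ^ 2) ≤
      ∫ k in Ioi (0:ℝ), Real.exp (-(1 / 8) * k ^ 2) * u k := by
    refine setIntegral_mono_on i3 i1 measurableSet_Ioi fun k hk => ?_
    have h4 := hu k hk
    have h5 := Real.exp_pos (-(1 / 8) * k ^ 2)
    have h6 : A * Real.exp (-b * k ^ 2) =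
        Real.exp (-(1 / 8) * k ^ 2) * (A * Real.exp (-γ * (Real.pi * k / 8) ^ 2)) := by
      rw [mul_left_comm, ← Real.exp_add]
      congr 2
      rw [hb]
      ring
    rw [h6]
    exact mul_le_mul_of_nonneg_left h4 h5.le
  rw [integral_const_mul, integral_gaussian_Ioi, e1] at e3
  set X : ℝ := ∫ s, G s * Real.exp (-2 * s ^ 2) with hX
  have hq : 0 < 1 + γ * Real.pi ^ 2 / 8 := by positivity
  have e4 : Real.sqrt (Real.pi / b) = Real.sqrt (8 * Real.pi) / Real.sqrt (1 + γ * Real.pi ^ 2 / 8) := by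
    rw [← Real.sqrt_div (by positivity)]
    congr 1
    rw [hb]
    field_simp
    ring
  rw [e4] at e3
  have hs : 0 < Real.sqrt (8 * Real.pi) := Real.sqrt_pos.2 (by positivity)
  have hr : 0 < Real.sqrt (1 + γ * Real.pi ^ 2 / 8) := Real.sqrt_pos.2 hq
  have h7 : A / Real.sqrt (1 + γ * Real.pi ^ 2 / 8) ≤ X := by
    have : Real.sqrt (8 * Real.pi) * (A / Real.sqrt (1 + γ * Real.pi ^ 2 / 8)) ≤ Real.sqrt (8 * Real.pi) * X := by
      have e5 : A * (Real.sqrt (8 * Real.pi) / Real.sqrt (1 + γ * Real.pi ^ 2 / 8) / 2) =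
          1 / 2 * (Real.sqrt (8 * Real.pi) * (A / Real.sqrt (1 + γ * Real.pi ^ 2 / 8))) := by ring
      rw [e5] at e3
      linarith
    exact le_of_mul_le_mul_left this hs
  refine le_trans ?_ h7
  rw [le_div_iff₀ hr]
  refine le_of_sq_le_sq ?_ hA |>.trans' le_rfl
  rw [mul_pow, Real.sq_sqrt hq.le]
  exact hκ

/-- comparison class -/
def CK (m : ℝ → ℝ) : Prop :=
  PK m ∧ ∀ t s : ℝ, 2 * Real.exp (-2 * s ^ 2) * FT m t ≤ FT m (t - s) + FT m (t + s)

/-- **comparison lemma** -/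
theorem CK.mul {m u : ℝ → ℝ} (hm : CK m) (hu : MK u) {A γ κ : ℝ} (hA : 0 ≤ A) (hγ : 0 ≤ γ)
    (hlow : ∀ k : ℝ, 0 < k → A * Real.exp (-γ * (Real.pi * k / 8) ^ 2) ≤ u k)
    (hκ : κ ^ 2 * (1 + γ * Real.pi ^ 2 / 8) ≤ A ^ 2) : PK fun k => m k * (u k - κ) := by
  obtain ⟨G, h1, h2, h3⟩ := hu
  have hav := gauss_avg h1 h3 hA hγ hlow hκ
  have i1 := (mul_eval hm.1.1 h1 h3 0).1
  refine ⟨?_, fun t => ?_⟩
  · refine (i1.sub (hm.1.1.const_mul κ)).congr_fun (fun k _ => ?_) measurableSet_Ioi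
    simp only [Pi.sub_apply]
    ring
  · obtain ⟨-, i2, e2⟩ := mul_eval hm.1.1 h1 h3 t
    have e3 : ∫ k in Ioi (0:ℝ), m k * (u k - κ) * Real.cos (k * t) =
        (∫ s, G s * ((FT m (t - s) + FT m (t + s)) / 2)) - κ * FT m t := by
      rw [← e2]
      unfold FT
      rw [← integral_const_mul, ← integral_sub (intOn_mul_cos i1 t) ((intOn_mul_cos hm.1.1 t).const_mul κ)]
      refine integral_congr_ae (Eventually.of_forall fun k => ?_)
      simp only []
      ring
    rw [e3]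
    have hF0 : 0 ≤ FT m t := hm.1.2 t
    have i3 : Integrable (fun s => G s * Real.exp (-2 * s ^ 2)) := by
      refine h1.mul_bdd (c := 1) (Measurable.aestronglyMeasurable (by fun_prop)) (Eventually.of_forall fun s => ?_)
      rw [Real.norm_eq_abs, abs_of_pos (Real.exp_pos _)]
      exact Real.exp_le_one_iff.2 (by nlinarith [sq_nonneg s])
    have h4 : ∫ s, FT m t * (G s * Real.exp (-2 * s ^ 2)) ≤ ∫ s, G s * ((FT m (t - s) + FT m (t + s)) / 2) := by
      refine integral_mono (i3.const_mul _) i2 fun s => ?_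
      simp only []
      have h5 := hm.2 t s
      have h6 := h2 s
      nlinarith
    rw [integral_const_mul] at h4
    have h5 : FT m t * κ ≤ FT m t * ∫ s, G s * Real.exp (-2 * s ^ 2) := mul_le_mul_of_nonneg_left hav hF0
    linarith

/-! ### the logarithmic kernels -/

/-- the pointwise inequality -/
lemma conv_ineq {a b x : ℝ} (ha : 1 ≤ a) (hb : 1 ≤ b) (hx : 0 ≤ x) {C1 C2 : ℝ} (h1 : 1 ≤ C1) (h2 : 1 ≤ C2)
    (hs : C1 + C2 = 2 * a * b) (hp : C1 * C2 = a ^ 2 + b ^ 2 - 1) {φ : ℝ} (hφ : φ ≤ 1 / b) :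
    2 * φ * (a + x)⁻¹ ≤ (C1 + x)⁻¹ + (C2 + x)⁻¹ := by
  have hb0 : 0 < b := by linarith
  have p0 : 0 < a + x := by linarith
  have p1 : 0 < C1 + x := by linarith
  have p2 : 0 < C2 + x := by linarith
  have e : (C1 + x)⁻¹ + (C2 + x)⁻¹ = (2 * a * b + 2 * x) / (a ^ 2 + b ^ 2 - 1 + 2 * a * b * x + x ^ 2) := by
    have : a ^ 2 + b ^ 2 - 1 + 2 * a * b * x + x ^ 2 = (C1 + x) * (C2 + x) := by
      rw [← hp, ← hs]; ring
    rw [this, ← hs]
    field_simp
    ring
  rw [e]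
  have q : 0 < a ^ 2 + b ^ 2 - 1 + 2 * a * b * x + x ^ 2 := by nlinarith [mul_nonneg (mul_nonneg (by linarith : (0:ℝ) ≤ a) hb0.le) hx]
  calc 2 * φ * (a + x)⁻¹ ≤ 2 * (1 / b) * (a + x)⁻¹ := by
        have := inv_pos.2 p0
        gcongr
    _ = 2 / (b * (a + x)) := by field_simp
    _ ≤ _ := by
      rw [div_le_div_iff₀ (by positivity) q]
      have k1 : 0 ≤ (a ^ 2 - 1) * (b ^ 2 - 1) := mul_nonneg (by nlinarith) (by nlinarith)
      have k2 : 0 ≤ a * b * x * (b - 1) := mul_nonneg (by positivity) (by linarith)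
      have k3 : 0 ≤ (b - 1) * x ^ 2 := mul_nonneg (by linarith) (sq_nonneg x)
      nlinarith

/-- the integrated inequality -/
lemma log_conv {α β : ℝ} (hβ : 0 ≤ β) (hαβ : β ≤ α) (t s : ℝ) :
    2 * Real.exp (-2 * s ^ 2) * (Real.log (Real.cosh (2 * t) + α) - Real.log (Real.cosh (2 * t) + β)) ≤
    (Real.log (Real.cosh (2 * (t - s)) + α) - Real.log (Real.cosh (2 * (t - s)) + β)) +
    (Real.log (Real.cosh (2 * (t + s)) + α) - Real.log (Real.cosh (2 * (t + s)) + β)) := by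
  set a := Real.cosh (2 * t) with ha
  set b := Real.cosh (2 * s) with hb
  set C1 := Real.cosh (2 * (t - s)) with hC1
  set C2 := Real.cosh (2 * (t + s)) with hC2
  have ga : 1 ≤ a := Real.one_le_cosh _
  have gb : 1 ≤ b := Real.one_le_cosh _
  have g1 : 1 ≤ C1 := Real.one_le_cosh _
  have g2 : 1 ≤ C2 := Real.one_le_cosh _
  have e1 : C1 = a * b - Real.sinh (2 * t) * Real.sinh (2 * s) := by
    rw [hC1, mul_sub, Real.cosh_sub]
  have e2 : C2 = a * b + Real.sinh (2 * t) * Real.sinh (2 * s) := by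
    rw [hC2, mul_add, Real.cosh_add]
  have hs : C1 + C2 = 2 * a * b := by rw [e1, e2]; ring
  have hp : C1 * C2 = a ^ 2 + b ^ 2 - 1 := by
    rw [e1, e2]
    have q1 : Real.sinh (2 * t) ^ 2 = a ^ 2 - 1 := by rw [Real.sinh_sq]
    have q2 : Real.sinh (2 * s) ^ 2 = b ^ 2 - 1 := by rw [Real.sinh_sq]
    linear_combination (-Real.sinh (2 * s) ^ 2) * q1 - (a ^ 2 - 1) * q2
  set φ := Real.exp (-2 * s ^ 2) with hφ
  have hφ0 : 0 < φ := Real.exp_pos _
  have hφ1 : φ ≤ 1 / b := by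
    have h := Real.cosh_le_exp_half_sq (2 * s)
    have h' : b ≤ Real.exp (2 * s ^ 2) := by
      refine h.trans (le_of_eq ?_)
      congr 1
      ring
    rw [hφ, show -2 * s ^ 2 = -(2 * s ^ 2) by ring, Real.exp_neg, one_div]
    exact inv_anti₀ (by linarith) h'
  set Φ : ℝ → ℝ := fun x => Real.log (C1 + x) + Real.log (C2 + x) - 2 * φ * Real.log (a + x) with hΦ
  have hd : ∀ x : ℝ, 0 ≤ x → HasDerivAt Φ ((C1 + x)⁻¹ + (C2 + x)⁻¹ - 2 * φ * (a + x)⁻¹) x := by
    intro x hx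
    have e : ∀ c : ℝ, 1 ≤ c → HasDerivAt (fun x : ℝ => Real.log (c + x)) (c + x)⁻¹ x := by
      intro c hc
      have := ((hasDerivAt_id x).const_add c).log (by simp only [id]; linarith)
      simpa using this
    exact ((e C1 g1).add (e C2 g2)).sub ((e a ga).const_mul _)
  have hm : MonotoneOn Φ (Icc β α) := by
    refine monotoneOn_of_deriv_nonneg (convex_Icc _ _) ?_ ?_ ?_
    · exact fun x hx => (hd x (hβ.trans hx.1)).continuousAt.continuousWithinAt
    · intro x hx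
      rw [interior_Icc] at hx
      exact (hd x (hβ.trans hx.1.le)).differentiableAt.differentiableWithinAt
    · intro x hx
      rw [interior_Icc] at hx
      rw [(hd x (hβ.trans hx.1.le)).deriv]
      have := conv_ineq ga gb (hβ.trans hx.1.le) g1 g2 hs hp hφ1
      linarith
  have := hm ⟨le_rfl, hαβ⟩ ⟨hαβ, le_rfl⟩ hαβ
  simp only [hΦ] at this
  linarith

end

end NUPosK

namespace NUMH

open NUSB NUO NUPosK

noncomputable section

/-- the transform of `m` is `f` -/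
def EV (m f : ℝ → ℝ) : Prop :=
  IntegrableOn m (Ioi 0) ∧ ∀ t, ∫ k in Ioi (0:ℝ), m k * Real.cos (k * t) = f t

theorem EV.congr {m m' f f' : ℝ → ℝ} (h : EV m f) (h1 : ∀ k : ℝ, 0 < k → m k = m' k) (h2 : ∀ t, f t = f' t) :
    EV m' f' := by
  refine ⟨h.1.congr_fun (fun k hk => h1 k hk) measurableSet_Ioi, fun t => ?_⟩
  rw [← h2, ← h.2 t]
  exact setIntegral_congr_fun measurableSet_Ioi fun k hk => by simp only [h1 k hk]

theorem EV.add {m m' f f' : ℝ → ℝ} (h : EV m f) (h' : EV m' f') : EV (fun k => m k + m' k) fun t => f t + f' t := by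
  refine ⟨h.1.add h'.1, fun t => ?_⟩
  simp only []
  rw [← h.2 t, ← h'.2 t, ← integral_add (intOn_mul_cos h.1 t) (intOn_mul_cos h'.1 t)]
  exact integral_congr_ae (Eventually.of_forall fun k => by simp only []; ring)

theorem EV.smul {m f : ℝ → ℝ} (c : ℝ) (h : EV m f) : EV (fun k => c * m k) fun t => c * f t := by
  refine ⟨h.1.const_mul c, fun t => ?_⟩
  simp only []
  rw [← h.2 t, ← integral_const_mul]
  exact integral_congr_ae (Eventually.of_forall fun k => by simp only []; ring)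

theorem EV.pk {m f : ℝ → ℝ} (h : EV m f) (h0 : ∀ t, 0 ≤ f t) : PK m :=
  ⟨h.1, fun t => by rw [h.2 t]; exact h0 t⟩

/-- the logarithmic kernels -/
theorem EV_log {b : ℕ} (hb : b < 16) (a : ℕ) (ha : a < 16) : EV (fun k => PP k * (ch b (zk k) - ch a (zk k)))
    fun t => Real.pi * (Real.log (Real.cosh (2 * t) + Real.cos (a * Real.pi / 16)) -
      Real.log (Real.cosh (2 * t) + Real.cos (b * Real.pi / 16))) := by
  have hb' : (b:ℝ) < 16 := by exact_mod_cast hb
  have ha' : (a:ℝ) < 16 := by exact_mod_cast ha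
  have tb : |(b:ℝ) / 4| < 4 := by rw [abs_of_nonneg (by positivity)]; linarith
  have ta : |(a:ℝ) / 4| < 4 := by rw [abs_of_nonneg (by positivity)]; linarith
  have hf : ∀ k : ℝ, 0 < k → 2 * Real.pi * (1 / k * (Real.cosh ((b:ℝ) / 4 * (Real.pi * k / 8)) -
      Real.cosh ((a:ℝ) / 4 * (Real.pi * k / 8))) / Real.sinh (4 * (Real.pi * k / 8))) =
      PP k * (ch b (zk k) - ch a (zk k)) := by
    intro k hk
    have e1 : ∀ n : ℕ, (n:ℝ) / 4 * (Real.pi * k / 8) = n * zk k := fun n => by unfold zk; ring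
    have e2 : 4 * (Real.pi * k / 8) = 16 * zk k := by unfold zk; ring
    rw [e1, e1, e2]
    unfold PP ch
    have hz := zk_pos hk
    have h4 : 0 < Real.sinh (16 * zk k) := Real.sinh_pos_iff.2 (by positivity)
    field_simp
  have i0 := (cosh_sub_transform ta tb 0).1
  simp only [mul_zero, Real.cos_zero, mul_one] at i0
  refine EV.congr (f := fun t => 2 * Real.pi * ((Real.log (Real.cosh (2 * t) + Real.cos ((a:ℝ) / 4 * Real.pi / 4)) -
      Real.log (Real.cosh (2 * t) + Real.cos ((b:ℝ) / 4 * Real.pi / 4))) / 2))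
    (EV.smul (2 * Real.pi) ⟨i0, fun t => (cosh_sub_transform ta tb t).2⟩) hf fun t => ?_
  have e1 : ∀ n : ℕ, (n:ℝ) / 4 * Real.pi / 4 = n * Real.pi / 16 := fun n => by ring
  rw [e1, e1]
  ring

/-- the core -/
theorem EV_cone : EV (fun k => PP k * (ch 16 (zk k) - ch 14 (zk k) - core (zk k)))
    fun t => Real.pi * (2 * (Real.log ‖Complex.sin ((Real.pi / 16 : ℝ) + t * Complex.I)‖ -
      Pool.Agent.NUM3.GC 8 t)) := by
  obtain ⟨i, e⟩ := NUCone.cone_eval
  refine EV.congr (EV.smul Real.pi ⟨i, e⟩) (fun k hk => ?_) fun t => rfl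
  have ez : NUSB.zk k = zk k := rfl
  have : PP k = Real.pi * PQ k := by unfold PP PQ; rw [ez]; ring
  rw [this, ez]
  ring

/-- **the comparison class contains the logarithmic kernels with `b ≤ 8`** -/
theorem CK_log {a b : ℕ} (hab : a < b) (hb : b ≤ 8) : CK fun k => PP k * (ch b (zk k) - ch a (zk k)) := by
  have hpi := Real.pi_pos
  have hev := EV_log (b := b) (by omega) a (by omega)
  have hF : ∀ t, FT (fun k => PP k * (ch b (zk k) - ch a (zk k))) t =
      Real.pi * (Real.log (Real.cosh (2 * t) + Real.cos (a * Real.pi / 16)) -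
      Real.log (Real.cosh (2 * t) + Real.cos (b * Real.pi / 16))) := hev.2
  have hab' : (a:ℝ) < b := by exact_mod_cast hab
  have hb' : (b:ℝ) ≤ 8 := by exact_mod_cast hb
  have hβ : 0 ≤ Real.cos (b * Real.pi / 16) :=
    Real.cos_nonneg_of_mem_Icc ⟨by have : 0 ≤ (b:ℝ) * Real.pi / 16 := by positivity
                                   linarith, by nlinarith⟩
  have hαβ : Real.cos (b * Real.pi / 16) ≤ Real.cos (a * Real.pi / 16) :=
    Real.cos_le_cos_of_nonneg_of_le_pi (by positivity) (by nlinarith) (by nlinarith)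
  refine ⟨gD4 hab (by omega), fun t s => ?_⟩
  rw [hF, hF, hF]
  have := log_conv hβ hαβ t s
  nlinarith

/-! ### lower bounds of the multipliers -/

lemma ch4_le (k : ℝ) : ch 4 (zk k) ≤ Real.exp ((Real.pi * k / 8) ^ 2 / 2) := by
  have h := Real.cosh_le_exp_half_sq (Real.pi * k / 8)
  have e : ch 4 (zk k) = Real.cosh (Real.pi * k / 8) := by
    unfold ch zk
    congr 1
    push_cast
    ring
  rw [e]
  exact h

lemma gA_le (k : ℝ) : gA (zk k) ≤ Real.exp ((Real.pi * k / 8) ^ 2) := by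
  have h := ch4_le k
  have e : Real.exp ((Real.pi * k / 8) ^ 2) = Real.exp ((Real.pi * k / 8) ^ 2 / 2) ^ 2 := by
    rw [← Real.exp_nat_mul]
    congr 1
    push_cast
    ring
  unfold gA
  rw [e]
  nlinarith [sq_nonneg (Real.exp ((Real.pi * k / 8) ^ 2 / 2) - 1)]

lemma gB_le (k : ℝ) : gB (zk k) ≤ 3 * Real.exp ((Real.pi * k / 8) ^ 2 / 2) := by
  have h := ch4_le k
  have h1 : 1 ≤ Real.exp ((Real.pi * k / 8) ^ 2 / 2) := Real.one_le_exp (by positivity)
  unfold gB
  linarith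

lemma low_m (n : ℕ) (k : ℝ) : 1 * Real.exp (-1 * (Real.pi * k / 8) ^ 2) ≤ ch n (zk k) / gA (zk k) := by
  have h1 := gA_le k
  have h2 := gA_pos (zk k)
  have h3 := one_le_ch n (zk k)
  rw [one_mul, neg_one_mul, Real.exp_neg, le_div_iff₀ h2]
  calc (Real.exp ((Real.pi * k / 8) ^ 2))⁻¹ * gA (zk k) ≤
      (Real.exp ((Real.pi * k / 8) ^ 2))⁻¹ * Real.exp ((Real.pi * k / 8) ^ 2) := by
        have := Real.exp_pos ((Real.pi * k / 8) ^ 2)
        gcongr
    _ = 1 := inv_mul_cancel₀ (Real.exp_pos _).ne'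
    _ ≤ _ := h3

lemma low_p (n : ℕ) (k : ℝ) : 1 / 3 * Real.exp (-(1 / 2) * (Real.pi * k / 8) ^ 2) ≤ ch n (zk k) / gB (zk k) := by
  have h1 := gB_le k
  have h2 := gB_pos (zk k)
  have h3 := one_le_ch n (zk k)
  rw [show -(1 / 2) * (Real.pi * k / 8) ^ 2 = -((Real.pi * k / 8) ^ 2 / 2) by ring, Real.exp_neg, le_div_iff₀ h2]
  calc 1 / 3 * (Real.exp ((Real.pi * k / 8) ^ 2 / 2))⁻¹ * gB (zk k) ≤
      1 / 3 * (Real.exp ((Real.pi * k / 8) ^ 2 / 2))⁻¹ * (3 * Real.exp ((Real.pi * k / 8) ^ 2 / 2)) := by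
        have := Real.exp_pos ((Real.pi * k / 8) ^ 2 / 2)
        gcongr
    _ = 1 := by
        have := (Real.exp_pos ((Real.pi * k / 8) ^ 2 / 2)).ne'
        field_simp
    _ ≤ _ := h3

/-- products of lower bounds -/
lemma low_mul {u v A B a b k : ℝ} (hA : 0 ≤ A) (hB : 0 ≤ B) (h1 : A * Real.exp (-a * (Real.pi * k / 8) ^ 2) ≤ u)
    (h2 : B * Real.exp (-b * (Real.pi * k / 8) ^ 2) ≤ v) :
    A * B * Real.exp (-(a + b) * (Real.pi * k / 8) ^ 2) ≤ u * v := by
  have e : Real.exp (-(a + b) * (Real.pi * k / 8) ^ 2) =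
      Real.exp (-a * (Real.pi * k / 8) ^ 2) * Real.exp (-b * (Real.pi * k / 8) ^ 2) := by
    rw [← Real.exp_add]
    congr 1
    ring
  have h3 := Real.exp_pos (-a * (Real.pi * k / 8) ^ 2)
  have h4 := Real.exp_pos (-b * (Real.pi * k / 8) ^ 2)
  calc A * B * Real.exp (-(a + b) * (Real.pi * k / 8) ^ 2) =
      (A * Real.exp (-a * (Real.pi * k / 8) ^ 2)) * (B * Real.exp (-b * (Real.pi * k / 8) ^ 2)) := by rw [e]; ring
    _ ≤ u * v := mul_le_mul h1 h2 (by positivity) (le_trans (by positivity) h1)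

lemma low_q (n : ℕ) (k : ℝ) :
    1 / 3 * Real.exp (-(3 / 2) * (Real.pi * k / 8) ^ 2) ≤ ch n (zk k) / (gA (zk k) * gB (zk k)) := by
  have h := low_mul (by norm_num) (by norm_num) (low_m 0 k) (low_p n k)
  have e0 : ch 0 (zk k) = 1 := by unfold ch; simp
  have e : ch 0 (zk k) / gA (zk k) * (ch n (zk k) / gB (zk k)) = ch n (zk k) / (gA (zk k) * gB (zk k)) := by
    rw [e0, div_mul_div_comm, one_mul]
  rw [e] at h
  norm_num at h ⊢
  exact h

lemma pi_sq_le : Real.pi ^ 2 ≤ 9.8697 := by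
  have h := Real.pi_lt_d4
  have h0 := Real.pi_pos
  nlinarith

/-- comparison with a log kernel `K0 = PP (ch 2 - 1)`: multipliers of `A` type -/
theorem K0_m (n : ℕ) (hn : n ≤ 3) :
    PK fun k => PP k * (ch 2 (zk k) - ch 0 (zk k)) * (ch n (zk k) / gA (zk k) - 2 / 3) :=
  (CK_log (a := 0) (b := 2) (by norm_num) (by norm_num)).mul (mM hn) (by norm_num : (0:ℝ) ≤ 1)
    (by norm_num : (0:ℝ) ≤ 1) (fun k _ => low_m n k) (by have := pi_sq_le; nlinarith)

theorem K0_p (n : ℕ) (hn : n ≤ 3) :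
    PK fun k => PP k * (ch 2 (zk k) - ch 0 (zk k)) * (ch n (zk k) / gB (zk k) - 131 / 500) :=
  (CK_log (a := 0) (b := 2) (by norm_num) (by norm_num)).mul (mP hn) (by norm_num : (0:ℝ) ≤ 1 / 3)
    (by norm_num : (0:ℝ) ≤ 1 / 2) (fun k _ => low_p n k) (by have := pi_sq_le; nlinarith)

theorem K0_q (n : ℕ) (hn : n ≤ 6) :
    PK fun k => PP k * (ch 2 (zk k) - ch 0 (zk k)) * (ch n (zk k) / (gA (zk k) * gB (zk k)) - 197 / 1000) :=
  (CK_log (a := 0) (b := 2) (by norm_num) (by norm_num)).mul (mQ hn) (by norm_num : (0:ℝ) ≤ 1 / 3)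
    (by norm_num : (0:ℝ) ≤ 3 / 2) (fun k _ => low_q n k) (by have := pi_sq_le; nlinarith)

theorem K0_pp (n n' : ℕ) (hn : n ≤ 3) (hn' : n' ≤ 3) :
    PK fun k => PP k * (ch 2 (zk k) - ch 0 (zk k)) *
      (ch n (zk k) / gB (zk k) * (ch n' (zk k) / gB (zk k)) - 743 / 10000) :=
  (CK_log (a := 0) (b := 2) (by norm_num) (by norm_num)).mul ((mP hn).mul (mP hn'))
    (A := 1 / 3 * (1 / 3)) (γ := 1 / 2 + 1 / 2) (by norm_num) (by norm_num)
    (fun k _ => low_mul (by norm_num) (by norm_num) (low_p n k) (low_p n' k)) (by have := pi_sq_le; nlinarith)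

theorem K0_pq (n n' : ℕ) (hn : n ≤ 3) (hn' : n' ≤ 6) :
    PK fun k => PP k * (ch 2 (zk k) - ch 0 (zk k)) *
      (ch n (zk k) / gB (zk k) * (ch n' (zk k) / (gA (zk k) * gB (zk k))) - 149 / 2500) :=
  (CK_log (a := 0) (b := 2) (by norm_num) (by norm_num)).mul ((mP hn).mul (mQ hn'))
    (A := 1 / 3 * (1 / 3)) (γ := 1 / 2 + 3 / 2) (by norm_num) (by norm_num)
    (fun k _ => low_mul (by norm_num) (by norm_num) (low_p n k) (low_q n' k)) (by have := pi_sq_le; nlinarith)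

/-! ### the core -/

/-- the core against a rational function -/
lemma core_le (t : ℝ) : Real.log 2 + 2 * Pool.Agent.NUM3.GC 8 t ≤
    Real.log (Real.cosh (2 * t) - 1 + 1 / 32768) := by
  have h := NUCone.GC_le 8 (s := (1 / 2) ^ 8) le_rfl t
  have e : Real.cosh (2 * t) - 1 + 1 / 32768 = 2 * (Real.sinh t ^ 2 + ((1 / 2) ^ 8) ^ 2) := by
    have a1 := Real.cosh_two_mul t
    have a2 := Real.cosh_sq t
    rw [a1, a2]
    norm_num
    ring
  rw [e, Real.log_mul (by norm_num) (by positivity)]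
  linarith

lemma cone_val (t : ℝ) : 2 * (Real.log ‖Complex.sin ((Real.pi / 16 : ℝ) + t * Complex.I)‖ -
      Pool.Agent.NUM3.GC 8 t) =
    Real.log (Real.cosh (2 * t) - Real.cos (Real.pi / 8)) - Real.log 2 - 2 * Pool.Agent.NUM3.GC 8 t := by
  have hpi := Real.pi_pos
  have h := Pool.Agent.NUM3.norm_sin_sq (Real.pi / 16) t
  have hlt : Real.cos (Real.pi / 8) < 1 := by
    rw [← Real.cos_zero]
    exact Real.cos_lt_cos_of_nonneg_of_le_pi le_rfl (by linarith) (by linarith)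
  have hC := Real.one_le_cosh (2 * t)
  have e : 2 * (Real.pi / 16) = Real.pi / 8 := by ring
  rw [e] at h
  have h2 := congrArg Real.log h
  rw [Real.log_pow, Real.log_div (by linarith) (by norm_num), Nat.cast_two] at h2
  linarith

/-! ### the constants -/

lemma cosh2_le38 {t : ℝ} (ht : |t| ≤ 1) : Real.cosh (2 * t) ≤ 19 / 5 := by
  have h1 : Real.cosh (2 * t) ≤ Real.cosh 2 := by
    rw [Real.cosh_le_cosh, abs_mul, abs_two]
    linarith
  have h2 : Real.cosh 2 ≤ 19 / 5 := by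
    rw [Real.cosh_eq]
    have e1 : Real.exp 2 = Real.exp 1 ^ 2 := by
      rw [← Real.exp_nat_mul]
      norm_num
    have h3 := Real.exp_one_lt_d9
    have h4 := Real.exp_one_gt_d9
    have e2 : Real.exp (-2) ≤ 1 / 7 := by
      rw [Real.exp_neg, e1, one_div]
      apply inv_anti₀ (by norm_num)
      nlinarith
    have e3 : Real.exp 2 ≤ 7.4 := by
      rw [e1]
      nlinarith
    linarith
  exact h1.trans h2

lemma beta1 : 0 ≤ Real.cos (Real.pi / 8) ∧ Real.cos (Real.pi / 8) ≤ 231 / 250 := by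
  have h := cos1_sq
  have h2 : Real.sqrt 2 ≤ 1.41422 := Real.sqrt_le_iff.2 ⟨by norm_num, by norm_num⟩
  have h0 : 0 ≤ Real.cos (Real.pi / 8) :=
    Real.cos_nonneg_of_mem_Icc ⟨by linarith [Real.pi_pos], by linarith [Real.pi_pos]⟩
  refine ⟨h0, ?_⟩
  by_contra h3
  push Not at h3
  nlinarith

lemma beta2 : 0 ≤ Real.cos (Real.pi / 4) ∧ Real.cos (Real.pi / 4) ≤ 283 / 400 := by
  have h2 : Real.sqrt 2 ≤ 1.41422 := Real.sqrt_le_iff.2 ⟨by norm_num, by norm_num⟩
  rw [Real.cos_pi_div_four]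
  exact ⟨by positivity, by linarith⟩

lemma beta3 : 0 ≤ Real.cos (3 * Real.pi / 8) ∧ Real.cos (3 * Real.pi / 8) ≤ 383 / 1000 :=
  ⟨cos3_nonneg, cos3_le.trans (by norm_num)⟩

lemma cq0 : Real.cos (((0:ℕ):ℝ) * Real.pi / 16) = 1 := by simp
lemma cq2 : Real.cos (((2:ℕ):ℝ) * Real.pi / 16) = Real.cos (Real.pi / 8) := by congr 1; push_cast; ring
lemma cq4 : Real.cos (((4:ℕ):ℝ) * Real.pi / 16) = Real.cos (Real.pi / 4) := by congr 1; push_cast; ring
lemma cq6 : Real.cos (((6:ℕ):ℝ) * Real.pi / 16) = Real.cos (3 * Real.pi / 8) := by congr 1; push_cast; ring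
lemma cq8 : Real.cos (((8:ℕ):ℝ) * Real.pi / 16) = 0 := by
  rw [← Real.cos_pi_div_two]; congr 1; push_cast; ring
lemma cq10 : Real.cos (((10:ℕ):ℝ) * Real.pi / 16) = -Real.cos (3 * Real.pi / 8) := by
  rw [← Real.cos_pi_sub]; congr 1; push_cast; ring
lemma cq12 : Real.cos (((12:ℕ):ℝ) * Real.pi / 16) = -Real.cos (Real.pi / 4) := by
  rw [← Real.cos_pi_sub]; congr 1; push_cast; ring
lemma cq14 : Real.cos (((14:ℕ):ℝ) * Real.pi / 16) = -Real.cos (Real.pi / 8) := by
  rw [← Real.cos_pi_sub]; congr 1; push_cast; ring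

/-- value kernel plus `PK` kernel -/
theorem EV.lower {m m' M f : ℝ → ℝ} (h : EV m f) (h' : PK m') (e : ∀ k : ℝ, 0 < k → m k + m' k = M k) (t : ℝ) :
    f t ≤ ∫ k in Ioi (0:ℝ), M k * Real.cos (k * t) := by
  have e1 : ∫ k in Ioi (0:ℝ), M k * Real.cos (k * t) =
      (∫ k in Ioi (0:ℝ), m k * Real.cos (k * t)) + ∫ k in Ioi (0:ℝ), m' k * Real.cos (k * t) := by
    rw [← integral_add (intOn_mul_cos h.1 t) (intOn_mul_cos h'.1 t)]
    refine setIntegral_congr_fun measurableSet_Ioi fun k hk => ?_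
    show M k * Real.cos (k * t) = m k * Real.cos (k * t) + m' k * Real.cos (k * t)
    rw [← e k hk]
    ring
  rw [e1, h.2 t]
  have := h'.2 t
  linarith

theorem EV.pk_add {m m' M f : ℝ → ℝ} (h : EV m f) (h0 : ∀ t, 0 ≤ f t) (h' : PK m')
    (e : ∀ k : ℝ, 0 < k → m k + m' k = M k) : PK M :=
  ((h.pk h0).add h').congr e

end

end NUMH
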