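import Pool.Agent.NUO.ChebX
import Pool.Agent.NUO.Lower

/-!
# Y_T_V (generated by gen75.py, helper75)
St with Svv, same species
-/

set_option autoImplicit false
set_option linter.unusedVariables false
set_option linter.unusedSimpArgs false

namespace NUMH

open NUSB NUO NUPosK

noncomputable section

/-- plus part -/
private lemma Y_T_V_u1 (x A B H : ℝ) (eA : A = 16 * x ^ 4 - 16 * x ^ 2 + 1) (eB : B = 16 * x ^ 4 - 16 * x ^ 2 + 3) (eH : H = 2 * x ^ 2 - 1) (hx : x ≠ 0) (hx1 : x ^ 2 - 1 ≠ 0) (hA : A ≠ 0) (hB : B ≠ 0) (hH : H ≠ 0) :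
    (-16 * x ^ 2 + 560 * x ^ 4 - 4128 * x ^ 6 + 12800 * x ^ 8 - 19456 * x ^ 10 + 14336 * x ^ 12 - 4096 * x ^ 14) * (-32 * x + 992 * x ^ 3 - 10528 * x ^ 5 + 49888 * x ^ 7 - 119168 * x ^ 9 + 150528 * x ^ 11 - 96256 * x ^ 13 + 24576 * x ^ 15) / ((8 * x ^ 2 * (x ^ 2 - 1)) * A * B ^ 2) * (A ^ 2 * B ^ 2 * x ^ 0 * H ^ 0) =
    (-64 * x + 3136 * x ^ 3 - 51648 * x ^ 5 + 420416 * x ^ 7 - 1977984 * x ^ 9 + 5794304 * x ^ 11 - 10913792 * x ^ 13 + 13230080 * x ^ 15 - 9977856 * x ^ 17 + 4259840 * x ^ 19 - 786432 * x ^ 21) * (A ^ 2 * B ^ 0 * x ^ 0 * H ^ 0) := by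
  have h : (-16 * x ^ 2 + 560 * x ^ 4 - 4128 * x ^ 6 + 12800 * x ^ 8 - 19456 * x ^ 10 + 14336 * x ^ 12 - 4096 * x ^ 14) * (-32 * x + 992 * x ^ 3 - 10528 * x ^ 5 + 49888 * x ^ 7 - 119168 * x ^ 9 + 150528 * x ^ 11 - 96256 * x ^ 13 + 24576 * x ^ 15) / ((8 * x ^ 2 * (x ^ 2 - 1)) * A * B ^ 2) =
      (-64 * x + 3136 * x ^ 3 - 51648 * x ^ 5 + 420416 * x ^ 7 - 1977984 * x ^ 9 + 5794304 * x ^ 11 - 10913792 * x ^ 13 + 13230080 * x ^ 15 - 9977856 * x ^ 17 + 4259840 * x ^ 19 - 786432 * x ^ 21) / (A ^ 0 * B ^ 2 * x ^ 0 * H ^ 0) := by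
    rw [div_eq_div_iff (by positivity) (by positivity)]
    rw [eA, eB, eH]
    ring
  rw [h]
  have e : A ^ 2 * B ^ 2 * x ^ 0 * H ^ 0 = (A ^ 0 * B ^ 2 * x ^ 0 * H ^ 0) * (A ^ 2 * B ^ 0 * x ^ 0 * H ^ 0) := by ring
  rw [e, ← mul_assoc, div_mul_cancel₀ _ (by positivity)]

/-- minus part -/
private lemma Y_T_V_u2 (x A B H : ℝ) (eA : A = 16 * x ^ 4 - 16 * x ^ 2 + 1) (eB : B = 16 * x ^ 4 - 16 * x ^ 2 + 3) (eH : H = 2 * x ^ 2 - 1) (hx : x ≠ 0) (hx1 : x ^ 2 - 1 ≠ 0) (hA : A ≠ 0) (hB : B ≠ 0) (hH : H ≠ 0) :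
    (-4 + 184 * x ^ 2 - 2576 * x ^ 4 + 14688 * x ^ 6 - 40960 * x ^ 8 + 59392 * x ^ 10 - 43008 * x ^ 12 + 12288 * x ^ 14) * (8 * x - 328 * x ^ 3 + 4320 * x ^ 5 - 21024 * x ^ 7 + 48768 * x ^ 9 - 58368 * x ^ 11 + 34816 * x ^ 13 - 8192 * x ^ 15) / ((2 * H ^ 2) * A ^ 3) * (A ^ 2 * B ^ 2 * x ^ 0 * H ^ 0) =
    (-16 * x + 1072 * x ^ 3 - 26336 * x ^ 5 + 301888 * x ^ 7 - 1780352 * x ^ 9 + 5958144 * x ^ 11 - 11999232 * x ^ 13 + 14835712 * x ^ 15 - 11026432 * x ^ 17 + 4521984 * x ^ 19 - 786432 * x ^ 21) * (A ^ 0 * B ^ 2 * x ^ 0 * H ^ 0) := by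
  have h : (-4 + 184 * x ^ 2 - 2576 * x ^ 4 + 14688 * x ^ 6 - 40960 * x ^ 8 + 59392 * x ^ 10 - 43008 * x ^ 12 + 12288 * x ^ 14) * (8 * x - 328 * x ^ 3 + 4320 * x ^ 5 - 21024 * x ^ 7 + 48768 * x ^ 9 - 58368 * x ^ 11 + 34816 * x ^ 13 - 8192 * x ^ 15) / ((2 * H ^ 2) * A ^ 3) =
      (-16 * x + 1072 * x ^ 3 - 26336 * x ^ 5 + 301888 * x ^ 7 - 1780352 * x ^ 9 + 5958144 * x ^ 11 - 11999232 * x ^ 13 + 14835712 * x ^ 15 - 11026432 * x ^ 17 + 4521984 * x ^ 19 - 786432 * x ^ 21) / (A ^ 2 * B ^ 0 * x ^ 0 * H ^ 0) := by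
    rw [div_eq_div_iff (by positivity) (by positivity)]
    rw [eA, eH]
    ring
  rw [h]
  have e : A ^ 2 * B ^ 2 * x ^ 0 * H ^ 0 = (A ^ 2 * B ^ 0 * x ^ 0 * H ^ 0) * (A ^ 0 * B ^ 2 * x ^ 0 * H ^ 0) := by ring
  rw [e, ← mul_assoc, div_mul_cancel₀ _ (by positivity)]

/-- the certificate -/
theorem Y_T_V_id {z : ℝ} (hz : 0 < z) :
    1 / 4 * ((ch 15 z - ch 13 z)) +
    17 / 20 * ((ch 3 z - ch 1 z)) +
    7 / 40 * ((ch 7 z - ch 5 z) * (ch 0 z / gA z) * (ch 0 z / gA z)) +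
    1 / 4 * ((4 * ch 8 z * ch 4 z * (ch 3 z - ch 1 z))) +
    1 / 4 * ((ch 5 z - ch 3 z) * (ch 0 z / gA z) * (ch 0 z / gA z)) +
    1 / 40 * ((ch 11 z - ch 9 z) * (ch 0 z / gA z) * (ch 0 z / gA z)) +
    1 / 4 * ((ch 5 z - ch 3 z) * (ch 0 z / (gA z * gB z))) +
    1 / 8 * ((2 * ch 8 z * (ch 3 z - ch 1 z)) * (ch 0 z / gB z) * (ch 0 z / gB z)) +
    1 / 2 * ((ch 3 z - ch 1 z) * (ch 0 z / (gA z * gB z))) +
    1 / 2 * ((4 * ch 8 z * ch 4 z * (ch 3 z - ch 1 z)) * (ch 2 z / gB z)) =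
    Ms .T .V z := by
  have hA := gA_pos z
  have hB := gB_pos z
  have hH := gH_pos z
  have hx : 1 < ch 1 z := one_lt_ch (by norm_num) hz
  have hx0 : 0 < ch 1 z := by linarith
  have hx1 : ch 1 z ^ 2 - 1 ≠ 0 := by nlinarith
  have eA : gA z = 16 * ch 1 z ^ 4 - 16 * ch 1 z ^ 2 + 1 := by unfold gA; rw [cx4]; ring
  have eB : gB z = 16 * ch 1 z ^ 4 - 16 * ch 1 z ^ 2 + 3 := by unfold gB; rw [cx4]; ring
  have eH : gH z = 2 * ch 1 z ^ 2 - 1 := by unfold gH; rw [cx2]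
  have eup : up z = (8 * ch 1 z ^ 2 * (ch 1 z ^ 2 - 1)) * gA z * gB z ^ 2 := by
    unfold up gA gB
    rw [cx4]
    ring
  have eum : um z = (2 * gH z ^ 2) * gA z ^ 3 := by
    rw [eH]
    unfold um gA
    rw [cx4]
    ring
  have ipT : fX .T z + fY .T z = -16 * ch 1 z ^ 2 + 560 * ch 1 z ^ 4 - 4128 * ch 1 z ^ 6 + 12800 * ch 1 z ^ 8 - 19456 * ch 1 z ^ 10 + 14336 * ch 1 z ^ 12 - 4096 * ch 1 z ^ 14 := by
    simp only [fX, fY, fXL, fYL, fXT, fYT, fXV, fYV, cx0, cx2, cx3, cx4, cx5, cx6, cx7, cx8, cx9, cx10, cx11, cx12, cx13, cx14, cx15, cx16]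
    ring
  have imT : fX .T z - fY .T z = -4 + 184 * ch 1 z ^ 2 - 2576 * ch 1 z ^ 4 + 14688 * ch 1 z ^ 6 - 40960 * ch 1 z ^ 8 + 59392 * ch 1 z ^ 10 - 43008 * ch 1 z ^ 12 + 12288 * ch 1 z ^ 14 := by
    simp only [fX, fY, fXL, fYL, fXT, fYT, fXV, fYV, cx0, cx2, cx3, cx4, cx5, cx6, cx7, cx8, cx9, cx10, cx11, cx12, cx13, cx14, cx15, cx16]
    ring
  have ipV : fX .V z + fY .V z = -32 * ch 1 z + 992 * ch 1 z ^ 3 - 10528 * ch 1 z ^ 5 + 49888 * ch 1 z ^ 7 - 119168 * ch 1 z ^ 9 + 150528 * ch 1 z ^ 11 - 96256 * ch 1 z ^ 13 + 24576 * ch 1 z ^ 15 := by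
    simp only [fX, fY, fXL, fYL, fXT, fYT, fXV, fYV, cx0, cx2, cx3, cx4, cx5, cx6, cx7, cx8, cx9, cx10, cx11, cx12, cx13, cx14, cx15, cx16]
    ring
  have imV : fX .V z - fY .V z = 8 * ch 1 z - 328 * ch 1 z ^ 3 + 4320 * ch 1 z ^ 5 - 21024 * ch 1 z ^ 7 + 48768 * ch 1 z ^ 9 - 58368 * ch 1 z ^ 11 + 34816 * ch 1 z ^ 13 - 8192 * ch 1 z ^ 15 := by
    simp only [fX, fY, fXL, fYL, fXT, fYT, fXV, fYV, cx0, cx2, cx3, cx4, cx5, cx6, cx7, cx8, cx9, cx10, cx11, cx12, cx13, cx14, cx15, cx16]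
    ring
  have hL : gA z ^ 2 * gB z ^ 2 * ch 1 z ^ 0 * gH z ^ 0 ≠ 0 := by positivity
  have v1 := Y_T_V_u1 (ch 1 z) (gA z) (gB z) (gH z) eA eB eH hx0.ne' hx1 hA.ne' hB.ne' hH.ne'
  have v2 := Y_T_V_u2 (ch 1 z) (gA z) (gB z) (gH z) eA eB eH hx0.ne' hx1 hA.ne' hB.ne' hH.ne'
  have hM : Ms .T .V z = bb .T .V z - 1 / 2 * (((fX .T z + fY .T z) * (fX .V z + fY .V z) / up z) + ((fX .T z - fY .T z) * (fX .V z - fY .V z) / um z)) := by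
    unfold Ms
    ring
  rw [ipT, ipV, imT, imV, eup, eum] at hM
  have t0 : ((ch 15 z - ch 13 z)) * (gA z ^ 2 * gB z ^ 2 * ch 1 z ^ 0 * gH z ^ 0) = ((ch 15 z - ch 13 z)) * (gA z ^ 2 * gB z ^ 2 * ch 1 z ^ 0 * gH z ^ 0) := by
    field_simp
  have t1 : ((ch 3 z - ch 1 z)) * (gA z ^ 2 * gB z ^ 2 * ch 1 z ^ 0 * gH z ^ 0) = ((ch 3 z - ch 1 z)) * (gA z ^ 2 * gB z ^ 2 * ch 1 z ^ 0 * gH z ^ 0) := by
    field_simp
  have t2 : ((ch 7 z - ch 5 z) * (ch 0 z / gA z) * (ch 0 z / gA z)) * (gA z ^ 2 * gB z ^ 2 * ch 1 z ^ 0 * gH z ^ 0) = ((ch 7 z - ch 5 z) * ch 0 z * ch 0 z) * (gA z ^ 0 * gB z ^ 2 * ch 1 z ^ 0 * gH z ^ 0) := by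
    field_simp
  have t3 : ((4 * ch 8 z * ch 4 z * (ch 3 z - ch 1 z))) * (gA z ^ 2 * gB z ^ 2 * ch 1 z ^ 0 * gH z ^ 0) = ((4 * ch 8 z * ch 4 z * (ch 3 z - ch 1 z))) * (gA z ^ 2 * gB z ^ 2 * ch 1 z ^ 0 * gH z ^ 0) := by
    field_simp
  have t4 : ((ch 5 z - ch 3 z) * (ch 0 z / gA z) * (ch 0 z / gA z)) * (gA z ^ 2 * gB z ^ 2 * ch 1 z ^ 0 * gH z ^ 0) = ((ch 5 z - ch 3 z) * ch 0 z * ch 0 z) * (gA z ^ 0 * gB z ^ 2 * ch 1 z ^ 0 * gH z ^ 0) := by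
    field_simp
  have t5 : ((ch 11 z - ch 9 z) * (ch 0 z / gA z) * (ch 0 z / gA z)) * (gA z ^ 2 * gB z ^ 2 * ch 1 z ^ 0 * gH z ^ 0) = ((ch 11 z - ch 9 z) * ch 0 z * ch 0 z) * (gA z ^ 0 * gB z ^ 2 * ch 1 z ^ 0 * gH z ^ 0) := by
    field_simp
  have t6 : ((ch 5 z - ch 3 z) * (ch 0 z / (gA z * gB z))) * (gA z ^ 2 * gB z ^ 2 * ch 1 z ^ 0 * gH z ^ 0) = ((ch 5 z - ch 3 z) * ch 0 z) * (gA z ^ 1 * gB z ^ 1 * ch 1 z ^ 0 * gH z ^ 0) := by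
    field_simp
  have t7 : ((2 * ch 8 z * (ch 3 z - ch 1 z)) * (ch 0 z / gB z) * (ch 0 z / gB z)) * (gA z ^ 2 * gB z ^ 2 * ch 1 z ^ 0 * gH z ^ 0) = ((2 * ch 8 z * (ch 3 z - ch 1 z)) * ch 0 z * ch 0 z) * (gA z ^ 2 * gB z ^ 0 * ch 1 z ^ 0 * gH z ^ 0) := by
    field_simp
  have t8 : ((ch 3 z - ch 1 z) * (ch 0 z / (gA z * gB z))) * (gA z ^ 2 * gB z ^ 2 * ch 1 z ^ 0 * gH z ^ 0) = ((ch 3 z - ch 1 z) * ch 0 z) * (gA z ^ 1 * gB z ^ 1 * ch 1 z ^ 0 * gH z ^ 0) := by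
    field_simp
  have t9 : ((4 * ch 8 z * ch 4 z * (ch 3 z - ch 1 z)) * (ch 2 z / gB z)) * (gA z ^ 2 * gB z ^ 2 * ch 1 z ^ 0 * gH z ^ 0) = ((4 * ch 8 z * ch 4 z * (ch 3 z - ch 1 z)) * ch 2 z) * (gA z ^ 2 * gB z ^ 1 * ch 1 z ^ 0 * gH z ^ 0) := by
    field_simp
  apply mul_right_cancel₀ hL
  have hp : 1 / 4 * (((ch 15 z - ch 13 z)) * (gA z ^ 2 * gB z ^ 2 * ch 1 z ^ 0 * gH z ^ 0)) + 17 / 20 * (((ch 3 z - ch 1 z)) * (gA z ^ 2 * gB z ^ 2 * ch 1 z ^ 0 * gH z ^ 0)) + 7 / 40 * (((ch 7 z - ch 5 z) * ch 0 z * ch 0 z) * (gA z ^ 0 * gB z ^ 2 * ch 1 z ^ 0 * gH z ^ 0)) + 1 / 4 * (((4 * ch 8 z * ch 4 z * (ch 3 z - ch 1 z))) * (gA z ^ 2 * gB z ^ 2 * ch 1 z ^ 0 * gH z ^ 0)) + 1 / 4 * (((ch 5 z - ch 3 z) * ch 0 z * ch 0 z) * (gA z ^ 0 * gB z ^ 2 * ch 1 z ^ 0 * gH z ^ 0)) + 1 / 40 * (((ch 11 z - ch 9 z) * ch 0 z * ch 0 z) * (gA z ^ 0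 * gB z ^ 2 * ch 1 z ^ 0 * gH z ^ 0)) + 1 / 4 * (((ch 5 z - ch 3 z) * ch 0 z) * (gA z ^ 1 * gB z ^ 1 * ch 1 z ^ 0 * gH z ^ 0)) + 1 / 8 * (((2 * ch 8 z * (ch 3 z - ch 1 z)) * ch 0 z * ch 0 z) * (gA z ^ 2 * gB z ^ 0 * ch 1 z ^ 0 * gH z ^ 0)) + 1 / 2 * (((ch 3 z - ch 1 z) * ch 0 z) * (gA z ^ 1 * gB z ^ 1 * ch 1 z ^ 0 * gH z ^ 0)) + 1 / 2 * (((4 * ch 8 z * ch 4 z * (ch 3 z - ch 1 z)) * ch 2 z) * (gA z ^ 2 * gB z ^ 1 * ch 1 z ^ 0 * gH z ^ 0)) =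
      (bb .T .V z) * (gA z ^ 2 * gB z ^ 2 * ch 1 z ^ 0 * gH z ^ 0) - 1 / 2 * ((-64 * ch 1 z + 3136 * ch 1 z ^ 3 - 51648 * ch 1 z ^ 5 + 420416 * ch 1 z ^ 7 - 1977984 * ch 1 z ^ 9 + 5794304 * ch 1 z ^ 11 - 10913792 * ch 1 z ^ 13 + 13230080 * ch 1 z ^ 15 - 9977856 * ch 1 z ^ 17 + 4259840 * ch 1 z ^ 19 - 786432 * ch 1 z ^ 21) * (gA z ^ 2 * gB z ^ 0 * ch 1 z ^ 0 * gH z ^ 0) + (-16 * ch 1 z + 1072 * ch 1 z ^ 3 - 26336 * ch 1 z ^ 5 + 301888 * ch 1 z ^ 7 - 1780352 * ch 1 z ^ 9 + 5958144 * ch 1 z ^ 11 - 11999232 * ch 1 z ^ 13 + 14835712 * ch 1 z ^ 15 - 11026432 * ch 1 z ^ 17 + 4521984 * ch 1 z ^ 19 - 786432 * ch 1 z ^ 21) * (gA z ^ 0 * gB z ^ 2 * ch 1 z ^ 0 * gH z ^ 0)) := by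
    rw [eA, eB, eH]
    simp only [xb, bb, xLT, xLS, xLV, xTS, xTV, xSV, bLT, bLS, bLV, bTS, bTV, bSS, bSV, bVV, gg, cx0, cx2, cx3, cx4, cx5, cx6, cx7, cx8, cx9, cx10, cx11, cx12, cx13, cx14, cx15, cx16]
    ring
  rw [hM]
  linear_combination (1 / 4) * t0 + (17 / 20) * t1 + (7 / 40) * t2 + (1 / 4) * t3 + (1 / 4) * t4 + (1 / 40) * t5 + (1 / 4) * t6 + (1 / 8) * t7 + (1 / 2) * t8 + (1 / 2) * t9 + hp + 1 / 2 * v1 + 1 / 2 * v2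

/-- **Y_T_V** -/
theorem Y_T_V : PK fun k => PP k * (Ms .T .V (zk k)) := by
  have h0 := ((gD4 (a := 13) (b := 15) (by norm_num) (by norm_num)).smul (c := 1 / 4) (by norm_num))
  have h1 := h0.add ((gD4 (a := 1) (b := 3) (by norm_num) (by norm_num)).smul (c := 17 / 20) (by norm_num))
  have h2 := h1.add ((((gD4 (a := 5) (b := 7) (by norm_num) (by norm_num)).mul (mM (n := 0) (by norm_num))).mul (mM (n := 0) (by norm_num))).smul (c := 7 / 40) (by norm_num))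
  have h3 := h2.add ((gD1 (a := 1) (b := 3) (by norm_num) (by norm_num)).smul (c := 1 / 4) (by norm_num))
  have h4 := h3.add ((((gD4 (a := 3) (b := 5) (by norm_num) (by norm_num)).mul (mM (n := 0) (by norm_num))).mul (mM (n := 0) (by norm_num))).smul (c := 1 / 4) (by norm_num))
  have h5 := h4.add ((((gD4 (a := 9) (b := 11) (by norm_num) (by norm_num)).mul (mM (n := 0) (by norm_num))).mul (mM (n := 0) (by norm_num))).smul (c := 1 / 40) (by norm_num))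
  have h6 := h5.add (((gD4 (a := 3) (b := 5) (by norm_num) (by norm_num)).mul (mQ (n := 0) (by norm_num))).smul (c := 1 / 4) (by norm_num))
  have h7 := h6.add ((((gD2 (a := 1) (b := 3) (by norm_num) (by norm_num)).mul (mP (n := 0) (by norm_num))).mul (mP (n := 0) (by norm_num))).smul (c := 1 / 8) (by norm_num))
  have h8 := h7.add (((gD4 (a := 1) (b := 3) (by norm_num) (by norm_num)).mul (mQ (n := 0) (by norm_num))).smul (c := 1 / 2) (by norm_num))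
  have h9 := h8.add (((gD1 (a := 1) (b := 3) (by norm_num) (by norm_num)).mul (mP (n := 2) (by norm_num))).smul (c := 1 / 2) (by norm_num))
  refine h9.congr fun k hk => ?_
  rw [← Y_T_V_id (zk_pos hk)]
  ring

/-- lower bound on `[-1,1]` -/
theorem Y_T_V_lower {t : ℝ} (ht : |t| ≤ 1) :
    (17 / 20 : ℝ) * (Real.pi / 5 * (Real.cos ((1 : ℕ) * Real.pi / 16) - Real.cos ((3 : ℕ) * Real.pi / 16))) ≤
      ∫ k in Set.Ioi (0:ℝ), PP k * (Ms .T .V (zk k)) * Real.cos (k * t) := by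
  have h0 := ((gD4 (a := 13) (b := 15) (by norm_num) (by norm_num)).smul (c := 1 / 4) (by norm_num))
  have h1 := h0.add ((((gD4 (a := 5) (b := 7) (by norm_num) (by norm_num)).mul (mM (n := 0) (by norm_num))).mul (mM (n := 0) (by norm_num))).smul (c := 7 / 40) (by norm_num))
  have h2 := h1.add ((gD1 (a := 1) (b := 3) (by norm_num) (by norm_num)).smul (c := 1 / 4) (by norm_num))
  have h3 := h2.add ((((gD4 (a := 3) (b := 5) (by norm_num) (by norm_num)).mul (mM (n := 0) (by norm_num))).mul (mM (n := 0) (by norm_num))).smul (c := 1 / 4) (by norm_num))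
  have h4 := h3.add ((((gD4 (a := 9) (b := 11) (by norm_num) (by norm_num)).mul (mM (n := 0) (by norm_num))).mul (mM (n := 0) (by norm_num))).smul (c := 1 / 40) (by norm_num))
  have h5 := h4.add (((gD4 (a := 3) (b := 5) (by norm_num) (by norm_num)).mul (mQ (n := 0) (by norm_num))).smul (c := 1 / 4) (by norm_num))
  have h6 := h5.add ((((gD2 (a := 1) (b := 3) (by norm_num) (by norm_num)).mul (mP (n := 0) (by norm_num))).mul (mP (n := 0) (by norm_num))).smul (c := 1 / 8) (by norm_num))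
  have h7 := h6.add (((gD4 (a := 1) (b := 3) (by norm_num) (by norm_num)).mul (mQ (n := 0) (by norm_num))).smul (c := 1 / 2) (by norm_num))
  have h8 := h7.add (((gD1 (a := 1) (b := 3) (by norm_num) (by norm_num)).mul (mP (n := 2) (by norm_num))).smul (c := 1 / 2) (by norm_num))
  refine lower_of (q := 17 / 20) (a := 1) (b := 3) (by norm_num) (by norm_num) (by norm_num) h8 (fun k hk => ?_) ht
  rw [← Y_T_V_id (zk_pos hk)]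
  ring

end

end NUMH
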