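import Pool.Agent.NUO.Obj
import Pool.Agent.NUP1.HomB

/-!
# Measurability of the weights of the objects

`measurable_config`: a function of a configuration `O : Fin r → Xo` (and of a further variable) is
measurable as soon as it is measurable in the heights and angles for every choice of the kinds.
`measurable_objW`, `measurable_potN`, ... : the weights of `Obj.lean`, jointly in the
configuration and the position of a quantum.
-/

set_option autoImplicit false

noncomputable section

open Complex MeasureTheory Finset

namespace NUO

open NUP1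

/-- joint measurability in configurations and a further variable -/
theorem measurable_config {r : ℕ} {Y β : Type*} [MeasurableSpace Y] [MeasurableSpace β]
    {f : (Fin r → Xo) × Y → β}
    (h : ∀ K : Fin r → Bool × Kind,
      Measurable fun p : (Fin r → ℝ × ℝ) × Y => f (fun i => (K i, p.1 i), p.2)) :
    Measurable f := by
  have h1 : Measurable fun p : (Fin r → Bool × Kind) × ((Fin r → ℝ × ℝ) × Y) =>
      f (fun i => (p.1 i, p.2.1 i), p.2.2) := measurable_from_prod_countable_right h
  have h2 : Measurable fun p : (Fin r → Xo) × Y =>
      ((fun i => (p.1 i).1, (fun i => (p.1 i).2, p.2)) :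
        (Fin r → Bool × Kind) × ((Fin r → ℝ × ℝ) × Y)) := by
    refine Measurable.prodMk ?_ (Measurable.prodMk ?_ measurable_snd)
    · exact measurable_pi_lambda _ fun i =>
        measurable_fst.comp ((measurable_pi_apply i).comp measurable_fst)
    · exact measurable_pi_lambda _ fun i =>
        measurable_snd.comp ((measurable_pi_apply i).comp measurable_fst)
  exact h1.comp h2

/-- measurability in the configuration alone -/
theorem measurable_config' {r : ℕ} {β : Type*} [MeasurableSpace β] {f : (Fin r → Xo) → β}
    (h : ∀ K : Fin r → Bool × Kind,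
      Measurable fun y : Fin r → ℝ × ℝ => f (fun i => (K i, y i))) :
    Measurable f := by
  have h1 : Measurable fun p : (Fin r → Xo) × Unit => f p.1 :=
    measurable_config fun K => (h K).comp measurable_fst
  exact h1.comp (measurable_id.prodMk (measurable_const (a := ())))

/-- a list of constituents whose positions are functions -/
def evl {Y : Type*} (L : List (Bool × Bool × (Y → ℂ))) (y : Y) : List (Bool × Bool × ℂ) :=
  L.map fun p => (p.1, p.2.1, p.2.2 y)

theorem measurable_pz (s s' : Bool) : Measurable (Kn.pz s s') := by
  cases s <;> cases s'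
  · exact Bd.measurable_q
  · exact Bd.measurable_q1
  · exact Bd.measurable_q1.comp measurable_neg
  · exact Bd.measurable_q2

theorem measurable_cz (s s' : Bool) : Measurable (Kn.cz s s') := by
  have h1 := Bd.measurable_qg
  have h2 : Measurable fun z : ℂ => Bd.qg (z + l) :=
    Bd.measurable_qg.comp (measurable_id.add_const _)
  have h3 : Measurable fun z : ℂ => Bd.qg (z - l) :=
    Bd.measurable_qg.comp (measurable_id.sub_const _)
  cases s <;> cases s'
  · exact h1
  · exact h1.mul h2
  · exact h1.mul h3
  · exact (h1.mul h1).mul (h2.mul h3)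

section

variable {Y : Type*} [MeasurableSpace Y]

theorem measurable_pp_evl {a b : Bool × Bool × (Y → ℂ)} (ha : Measurable a.2.2)
    (hb : Measurable b.2.2) :
    Measurable fun y => ‖pp (a.1, a.2.1, a.2.2 y) (b.1, b.2.1, b.2.2 y)‖ := by
  unfold pp
  simp only
  split_ifs
  · exact ((measurable_pz _ _).comp (ha.sub hb)).norm
  · exact ((measurable_cz _ _).comp (ha.sub hb)).norm

theorem measurable_ppN_evl {L M : List (Bool × Bool × (Y → ℂ))}
    (hL : ∀ p ∈ L, Measurable p.2.2) (hM : ∀ p ∈ M, Measurable p.2.2) :
    Measurable fun y => ppN (evl L y) (evl M y) := by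
  have key : ∀ a : Bool × Bool × (Y → ℂ), Measurable a.2.2 → ∀ M : List (Bool × Bool × (Y → ℂ)),
      (∀ p ∈ M, Measurable p.2.2) →
      Measurable fun y => ((evl M y).map fun b => ‖pp (a.1, a.2.1, a.2.2 y) b‖).prod := by
    intro a ha M
    induction M with
    | nil => intro _; exact measurable_const
    | cons b M ih =>
      intro hM
      have h1 := ih fun p hp => hM p (List.mem_cons_of_mem _ hp)
      have h2 := measurable_pp_evl ha (hM b List.mem_cons_self)
      exact h2.mul h1
  induction L with
  | nil => exact measurable_const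
  | cons a L ih =>
    have h1 := ih fun p hp => hL p (List.mem_cons_of_mem _ hp)
    have h2 := key a (hL a List.mem_cons_self) M hM
    exact h2.mul h1

theorem measurable_vl {f : Y → ℝ} (hf : Measurable f) (σ : ℝ) : Measurable fun y => vl σ (f y) := by
  unfold vl
  fun_prop

theorem measurable_posV {t a ρ : Y → ℝ} (ht : Measurable t) (ha : Measurable a)
    (hρ : Measurable ρ) (e : ℝ) : Measurable fun y => posV e (ρ y) (t y) (a y) := by
  unfold posV posS
  have h1 := measurable_vl ht (-((1 + e) * l))
  have h2 : Measurable fun y => Complex.exp (2 * Real.pi * (a y : ℂ) * I) := by fun_prop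
  have h3 : Measurable fun y => (ρ y : ℂ) := by fun_prop
  exact (h1.add_const _).add (h3.mul h2)

/-- the constituents of an object of fixed kind -/
theorem exists_evl (k : Bool × Kind) {t a ρ : Y → ℝ} (ht : Measurable t) (ha : Measurable a)
    (hρ : Measurable ρ) (jL e : ℝ) : ∃ L : List (Bool × Bool × (Y → ℂ)),
      (∀ p ∈ L, Measurable p.2.2) ∧ ∀ y, parts jL e (ρ y) (k, (t y, a y)) = evl L y := by
  obtain ⟨s, k⟩ := k
  have hS : Measurable fun y => posS e (t y) := measurable_vl ht _
  have hS' : Measurable fun y => posS e (t y) + 2 * l := hS.add_const _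
  have hV := measurable_posV ht ha hρ e
  cases k
  · refine ⟨[(s, false, fun y => posL jL (t y))], ?_, fun y => rfl⟩
    intro p hp
    rw [List.mem_singleton] at hp
    subst hp
    exact measurable_vl ht _
  · refine ⟨[(s, true, fun y => posT (t y))], ?_, fun y => rfl⟩
    intro p hp
    rw [List.mem_singleton] at hp
    subst hp
    exact measurable_vl ht _
  · refine ⟨[(s, true, fun y => posS e (t y))], ?_, fun y => rfl⟩
    intro p hp
    rw [List.mem_singleton] at hp
    subst hp
    exact hS
  · refine ⟨[(s, true, fun y => posS e (t y)), (!s, false, fun y => posV e (ρ y) (t y) (a y))],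
      ?_, fun y => rfl⟩
    intro p hp
    simp only [List.mem_cons, List.not_mem_nil, or_false] at hp
    rcases hp with rfl | rfl
    · exact hS
    · exact hV
  · refine ⟨[(s, true, fun y => posS e (t y)), (!s, false, fun y => posS e (t y) + 2 * l),
      (!s, false, fun y => posS e (t y) + 2 * l)], ?_, fun y => rfl⟩
    intro p hp
    simp only [List.mem_cons, List.not_mem_nil, or_false] at hp
    rcases hp with rfl | rfl | rfl
    · exact hS
    · exact hS'
    · exact hS'

end

/-- the rank only depends on the species -/
theorem rk_const {r : ℕ} (K : Fin r → Bool × Kind) (y y' : Fin r → ℝ × ℝ) (i : Fin r) :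
    rk (fun i => (K i, y i)) i = rk (fun i => (K i, y' i)) i := rfl

section

variable {Y : Type*} [MeasurableSpace Y] {r : ℕ} (P : Par) (hP : Measurable (P.rad r))

include hP

theorem exists_evl_cons (K : Fin r → Bool × Kind) (i : Fin r) :
    ∃ L : List (Bool × Bool × ((Fin r → ℝ × ℝ) × Y → ℂ)), (∀ p ∈ L, Measurable p.2.2) ∧
      ∀ p : (Fin r → ℝ × ℝ) × Y, cons P (fun i => (K i, p.1 i)) i = evl L p := by
  have ht : Measurable fun p : (Fin r → ℝ × ℝ) × Y => (p.1 i).1 :=
    measurable_fst.comp ((measurable_pi_apply i).comp measurable_fst)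
  have ha : Measurable fun p : (Fin r → ℝ × ℝ) × Y => (p.1 i).2 :=
    measurable_snd.comp ((measurable_pi_apply i).comp measurable_fst)
  obtain ⟨L, hL, h⟩ := exists_evl (K i) ht ha (hP.comp ht) P.jL
    (ei P (fun i => (K i, ((0 : ℝ), (0 : ℝ)))) i)
  exact ⟨L, hL, fun p => h p⟩

theorem measurable_pairN (i j : Fin r) : Measurable fun O : Fin r → Xo => pairN P O i j := by
  refine measurable_config' fun K => ?_
  obtain ⟨L, hL, h⟩ := exists_evl_cons (Y := Unit) P hP K i
  obtain ⟨M, hM, h'⟩ := exists_evl_cons (Y := Unit) P hP K j
  have h1 := (measurable_ppN_evl hL hM).comp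
    (measurable_id.prodMk (measurable_const : Measurable fun _ : Fin r → ℝ × ℝ => ()))
  refine (congrArg Measurable (funext fun y => ?_)).mpr h1
  simp only [pairN, Function.comp]
  rw [← h, ← h']
  rfl

theorem measurable_potN (i : Fin r) (s : Bool) :
    Measurable fun p : (Fin r → Xo) × ℂ => potN P p.1 i s p.2 := by
  refine measurable_config fun K => ?_
  obtain ⟨L, hL, h⟩ := exists_evl_cons (Y := ℂ) P hP K i
  have h1 := measurable_ppN_evl
    (L := [(s, false, fun p : (Fin r → ℝ × ℝ) × ℂ => p.2)]) (M := L)
    (fun p hp => by
      rw [List.mem_singleton] at hp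
      subst hp
      exact measurable_snd) hL
  refine (congrArg Measurable (funext fun p => ?_)).mpr h1
  simp only [potN]
  rw [← h]
  rfl

end

/-! ### one body weights -/

theorem measurable_RN (m : ℕ) : Measurable (RN m) := by
  unfold RN
  have h1 : Measurable fun u : ℂ => ‖sin (u + 3 * l)‖ ^ 2 :=
    (Complex.measurable_sin.comp (measurable_id.add_const _)).norm.pow_const 2
  have h2 : Measurable fun u : ℂ => ‖sin u‖ := Complex.measurable_sin.norm
  have h3 : Measurable fun u : ℂ => ‖sin (u - 2 * l)‖ :=
    (Complex.measurable_sin.comp (measurable_id.sub_const _)).norm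
  exact ((h1.div (h2.mul h3)).pow_const m).const_mul _

theorem measurable_ph (m : ℕ) (β : ℝ) : Measurable (ph m β) := by
  have h : Measurable fun u : ℂ => psi β u := by
    have := Bd.measurable_psi β 0
    simpa using this
  exact (h.pow_const m).const_sub 1

theorem measurable_oS (m : ℕ) : Measurable (oS m) := by
  have h1 := measurable_RN m
  have h2 : Measurable fun w : ℂ => RN m (w - l) := h1.comp (measurable_id.sub_const _)
  exact ((h1.mul h2).const_mul _).mul (measurable_ph m (4 / 3)).norm

theorem measurable_ob1 {Y : Type*} [MeasurableSpace Y] (m : ℕ) (β jL e : ℝ) (k : Bool × Kind)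
    {t a ρ : Y → ℝ} (ht : Measurable t) (ha : Measurable a) (hρ : Measurable ρ) :
    Measurable fun y => ob1 m β jL e (ρ y) (k, (t y, a y)) := by
  obtain ⟨s, k⟩ := k
  have hS : Measurable fun y => posS e (t y) := measurable_vl ht _
  have hS' : Measurable fun y => posS e (t y) + 2 * l := hS.add_const _
  have hV := measurable_posV ht ha hρ e
  have hL : Measurable fun y => posL jL (t y) := measurable_vl ht _
  have hT : Measurable fun y => posT (t y) := measurable_vl ht _
  have hT' : Measurable fun y => posT (t y) - l := hT.sub_const _
  have r := measurable_RN m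
  have c := measurable_ph m β
  have c0 := measurable_ph m (4 / 3)
  have o := measurable_oS m
  cases k
  · exact ((r.comp hL).mul (c.comp hL).norm).const_mul _
  · exact (((r.comp hT).mul (r.comp hT')).const_mul _).mul
      (((c.comp hT).mul (c.comp hT')).sub (c0.comp hT)).norm
  · exact o.comp hS
  · exact (o.comp hS).mul ((hρ.mul ((r.comp hV).mul (c.comp hV).norm)).mul
      ((measurable_cz false true).comp (hV.sub hS)).norm)
  · exact (o.comp hS).mul (((((r.comp hS').mul (c.comp hS').norm).div_const _).pow_const 2).const_mul
      (4 * Real.cos l ^ 2))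

theorem measurable_chgO {r : ℕ} (s : Bool) : Measurable fun O : Fin r → Xo => chgO O s := by
  refine measurable_config' fun K => ?_
  have h : (fun y : Fin r → ℝ × ℝ => chgO (fun i => (K i, y i)) s) =
      fun _ => chgO (fun i => (K i, ((0 : ℝ), (0 : ℝ)))) s := rfl
  rw [h]
  exact measurable_const

section

variable {r : ℕ} (P : Par) (hP : Measurable (P.rad r))

include hP

theorem measurable_ob (m : ℕ) (β : ℝ) (i : Fin r) :
    Measurable fun O : Fin r → Xo => ob m β P O i := by
  refine measurable_config' fun K => ?_
  have ht : Measurable fun y : Fin r → ℝ × ℝ => (y i).1 :=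
    measurable_fst.comp (measurable_pi_apply i)
  have ha : Measurable fun y : Fin r → ℝ × ℝ => (y i).2 :=
    measurable_snd.comp (measurable_pi_apply i)
  exact measurable_ob1 m β P.jL (ei P (fun i => (K i, ((0 : ℝ), (0 : ℝ)))) i) (K i) ht ha
    (hP.comp ht)

theorem measurable_objW (m : ℕ) (β : ℝ) : Measurable fun O : Fin r → Xo => objW m β P O := by
  unfold objW
  refine Measurable.mul (Finset.measurable_prod _ fun i _ => measurable_ob P hP m β i) ?_
  refine Finset.measurable_prod _ fun i _ => Finset.measurable_prod _ fun j _ => ?_
  by_cases h : i < j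
  · simp only [h, if_true]
    exact measurable_pairN P hP i j
  · simp only [h, if_false]
    exact measurable_const

end

end NUO
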