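import Pool.Agent.NUO.OneB
import Pool.Agent.NUP1.PsiMono

/-!
# One body weights of the objects in the mean field: bounds (part O1 of proof/NU_ABS_3, [3.4])

With `β = (4 / 3) (1 - ε)`, `cut m β t = min 1 (m exp (-2 β |t|))`, the weights
`ob1 * exp (m * mfo (parts ..))` are at most

* `L`, `St`: `C * cut m β t`;
* `S`: `C * cut m (4 / 3) t * exp (-2 m Ag e t)`;
* `Sv`: `C / ρ * cut m (4 / 3) t * exp (-m Ag e t + C m ρ exp (-8 |t| / 3))`;
* `Svv`: `C * cut m (4 / 3) t`.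
-/

set_option autoImplicit false

noncomputable section

open Complex MeasureTheory Set

namespace NUO

open NUP1

/-! ### cutoffs -/

/-- decay of the cutoff -/
def cut (m : ℕ) (β t : ℝ) : ℝ := min 1 (m * Real.exp (-(2 * β) * |t|))

theorem cut_nonneg (m : ℕ) (β t : ℝ) : 0 ≤ cut m β t := le_min zero_le_one (by positivity)

theorem cut_le_one (m : ℕ) (β t : ℝ) : cut m β t ≤ 1 := min_le_left _ _

theorem cut_anti (m : ℕ) {β β' : ℝ} (h : β ≤ β') (t : ℝ) : cut m β' t ≤ cut m β t := by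
  unfold cut
  refine min_le_min le_rfl (mul_le_mul_of_nonneg_left (Real.exp_le_exp.2 ?_) (Nat.cast_nonneg m))
  have := abs_nonneg t
  nlinarith

theorem norm_psi_pow_le {β s : ℝ} (h : Adm β s) {u : ℂ} (hu : |u.re + l / 2| ≤ s) (m : ℕ) :
    ‖psi β u ^ m‖ ≤ 1 := by
  rw [norm_pow]
  exact pow_le_one₀ (norm_nonneg _) (norm_psi_le_one h hu)

theorem norm_ph_le_two {β s : ℝ} (h : Adm β s) {u : ℂ} (hu : |u.re + l / 2| ≤ s) (m : ℕ) :
    ‖ph m β u‖ ≤ 2 := by
  unfold ph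
  refine (norm_sub_le _ _).trans ?_
  rw [norm_one]
  linarith [norm_psi_pow_le h hu m]

theorem norm_one_sub_pow_le {z : ℂ} (hz : ‖z‖ ≤ 1) (m : ℕ) : ‖1 - z ^ m‖ ≤ m * ‖1 - z‖ := by
  induction m with
  | zero => simp
  | succ m ih =>
    have e : 1 - z ^ (m + 1) = (1 - z) + z * (1 - z ^ m) := by ring
    rw [e]
    refine (norm_add_le _ _).trans ?_
    rw [norm_mul]
    have := mul_le_of_le_one_left (norm_nonneg (1 - z ^ m)) hz
    push_cast
    linarith

theorem kap_le_one (β s : ℝ) : kap β s ≤ 1 := Real.cos_le_one _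

theorem norm_ph_le_exp {β s : ℝ} (h : Adm β s) {u : ℂ} (hu : |u.re + l / 2| ≤ s) (m : ℕ) :
    ‖ph m β u‖ ≤ 4 / kap β s * (m * Real.exp (-(2 * β) * |u.im|)) := by
  unfold ph
  refine (norm_one_sub_pow_le (norm_psi_le_one h hu) m).trans ?_
  have := norm_one_sub_psi h hu
  calc (m : ℝ) * ‖1 - psi β u‖ ≤ m * (4 / kap β s * Real.exp (-(2 * β) * |u.im|)) :=
        mul_le_mul_of_nonneg_left this (Nat.cast_nonneg m)
    _ = _ := by ring

theorem norm_ph_le_cut {β s : ℝ} (h : Adm β s) {u : ℂ} (hu : |u.re + l / 2| ≤ s) (m : ℕ) :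
    ‖ph m β u‖ ≤ 4 / kap β s * cut m β u.im := by
  have hk := h.kap_pos
  have h1 : 4 ≤ 4 / kap β s := by
    rw [le_div_iff₀ hk]
    linarith [kap_le_one β s]
  unfold cut
  rcases le_total 1 (m * Real.exp (-(2 * β) * |u.im|)) with h2 | h2
  · rw [min_eq_left h2, mul_one]
    linarith [norm_ph_le_two h hu m]
  · rw [min_eq_right h2]
    exact norm_ph_le_exp h hu m

/-! ### the weights of the constituents -/

theorem RN_clo {j : ℝ} (h0 : 0 ≤ j) (h1 : j ≠ 1) (h4 : j < 4) (m : ℕ) (t : ℝ) :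
    RN m (vl ((1 - j) * l) t) * Real.exp (m * clo j t) =
      2 * Real.cos l * Real.exp (m * NUMF.mf j t) := by
  rw [RN_eq h0 h1 h4, mul_assoc, ← Real.exp_add, mf_split]
  ring_nf

theorem vl_sub_l (j t : ℝ) : vl ((1 - j) * l) t - l = vl ((1 - (j + 1)) * l) t := by
  unfold vl
  push_cast
  ring

theorem RN_string {j : ℝ} (h0 : 0 < j) (h1 : j ≠ 1) (h3 : j < 3) (m : ℕ) (t : ℝ) :
    RN m (vl ((1 - j) * l) t) * RN m (vl ((1 - j) * l) t - l) *
      Real.exp (m * (clo j t + clo (j + 1) t)) =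
      (2 * Real.cos l) ^ 2 * Real.exp (m * (NUMF.mf j t + NUMF.mf (j + 1) t)) := by
  have e1 := RN_clo h0.le h1 (by linarith) m t
  have e2 := RN_clo (j := j + 1) (by linarith) (by linarith) (by linarith) m t
  rw [vl_sub_l, mul_add, mul_add, Real.exp_add, Real.exp_add]
  calc _ = (RN m (vl ((1 - j) * l) t) * Real.exp (m * clo j t)) *
        (RN m (vl ((1 - (j + 1)) * l) t) * Real.exp (m * clo (j + 1) t)) := by ring
    _ = _ := by rw [e1, e2]; ring

theorem RN_nonneg (m : ℕ) (u : ℂ) : 0 ≤ RN m u := by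
  unfold RN
  have hc : 0 < Real.cos l := by
    refine Real.cos_pos_of_mem_Ioo ⟨?_, ?_⟩ <;> unfold l <;> linarith [Real.pi_pos]
  positivity

theorem cos_l_pos : 0 < Real.cos l := by
  refine Real.cos_pos_of_mem_Ioo ⟨?_, ?_⟩ <;> unfold l <;> linarith [Real.pi_pos]

theorem aS_pos : 0 < aS := by
  have hpi := Real.pi_pos
  have h1 : 0 < Real.sin l := Real.sin_pos_of_pos_of_lt_pi l_pos (by unfold l; linarith)
  have h2 : 0 < Real.sin (2 * l) :=
    Real.sin_pos_of_pos_of_lt_pi (by linarith [l_pos]) (by unfold l; linarith)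
  have h3 : 0 < Real.sin (3 * l) :=
    Real.sin_pos_of_pos_of_lt_pi (by linarith [l_pos]) (by unfold l; linarith)
  unfold aS
  positivity

theorem posL_eq (jL t : ℝ) : posL jL t = vl ((1 - jL) * l) t := rfl

theorem posT_eq (t : ℝ) : posT t = vl ((1 - 3 / 2) * l) t := by
  unfold posT
  congr 1
  ring

theorem posS_eq (e t : ℝ) : posS e t = vl ((1 - (2 + e)) * l) t := by
  unfold posS
  congr 1
  ring

theorem posP_eq (e t : ℝ) : posS e t + 2 * l = vl ((1 - e) * l) t := by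
  unfold posS vl
  push_cast
  ring

theorem vl_re (x t : ℝ) : (vl x t).re = x := by simp [vl]

theorem vl_im (x t : ℝ) : (vl x t).im = t := by simp [vl]

/-! ### kinds -/

/-- the object `L`: exactly neutral -/
theorem ob_L_eq {jL : ℝ} (h2 : 2 ≤ jL) (h3 : jL ≤ 3) (m : ℕ) (β e ρ : ℝ) {x : Xo}
    (hx : kd x = .L) : ob1 m β jL e ρ x * Real.exp (m * mfo (parts jL e ρ x)) =
      Real.cos l / Real.pi * ‖ph m β (posL jL (ht x))‖ := by
  have hp : parts jL e ρ x = [(sp x, false, posL jL (ht x))] := by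
    unfold parts
    rw [hx]
  have hv : mfo (parts jL e ρ x) = clo jL (ht x) := by
    rw [hp]
    exact (good_quantum (sp x) jL (ht x)).val
  rw [hv]
  unfold ob1
  rw [hx]
  simp only
  have h := RN_clo (j := jL) (by linarith) (by linarith) (by linarith) m (ht x)
  rw [NUMF.mf_neutral h2 h3, mul_zero, Real.exp_zero, mul_one, ← posL_eq] at h
  calc _ = (2 * Real.pi)⁻¹ * (RN m (posL jL (ht x)) * Real.exp (m * clo jL (ht x))) *
        ‖ph m β (posL jL (ht x))‖ := by ring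
    _ = _ := by
        rw [h]
        have := Real.pi_pos
        field_simp

theorem ob_L_le {jL β s : ℝ} (h2 : 2 ≤ jL) (h3 : jL ≤ 3) (hA : Adm β s)
    (hs : |3 / 2 - jL| * l ≤ s) (m : ℕ) (e ρ : ℝ) {x : Xo} (hx : kd x = .L) :
    ob1 m β jL e ρ x * Real.exp (m * mfo (parts jL e ρ x)) ≤
      Real.cos l / Real.pi * (4 / kap β s) * cut m β (ht x) := by
  rw [ob_L_eq h2 h3 m β e ρ hx, mul_assoc]
  have hpi := Real.pi_pos
  have hc := cos_l_pos
  refine mul_le_mul_of_nonneg_left ?_ (by positivity)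
  have hu : |(posL jL (ht x)).re + l / 2| ≤ s := by
    rw [posL_eq, vl_re, show (1 - jL) * l + l / 2 = (3 / 2 - jL) * l by ring, abs_mul,
      abs_of_pos l_pos]
    exact hs
  have := norm_ph_le_cut hA hu m
  rwa [posL_eq, vl_im, ← posL_eq] at this

/-! #### `St` -/

theorem adm43 {s : ℝ} (h0 : 0 ≤ s) (h1 : s < 3 * l / 2) : Adm (4 / 3) s where
  pos := by norm_num
  snn := h0
  sl := by
    have : 3 * l / 2 = 3 * Real.pi / 16 := by unfold l; ring
    rw [this] at h1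
    linarith
  bl := by
    unfold l
    linarith [Real.pi_pos]

theorem sqrt3_ineq {C : ℝ} (hC : 1 ≤ C) {k c : ℝ} (hk : 0 < k) (hk1 : k = 1 / 2) (hc : 0 < c)
    (hc2 : c ^ 2 = 3 / 4) : (C ^ 2 + c ^ 2 + 1 ^ 2 - 1) / (c * 1 * C) ≤
      (C ^ 2 + c ^ 2 + k ^ 2 - 1) / (c * k * C) := by
  subst hk1
  have hC0 : 0 < C := by linarith
  rw [hc2, div_le_div_iff₀ (by positivity) (by positivity)]
  have h1 : 0 < c * C := by positivity
  have h2 : 0 ≤ c * C * (C ^ 2 - 3 / 4) := mul_nonneg h1.le (by nlinarith)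
  nlinarith

/-- `|psi_0|` is smaller on the line `-l / 2` than on the line `-3 l / 2` -/
theorem norm_psi_T_le (t : ℝ) : ‖psi (4 / 3) (posT t)‖ ≤ ‖psi (4 / 3) (posT t - l)‖ := by
  have hpi := Real.pi_pos
  have e1 : (posT t).re + l / 2 = 0 := by
    unfold posT
    rw [vl_re]
    ring
  have e2 : (posT t - l).re + l / 2 = -l := by
    unfold posT
    rw [sub_re, vl_re, ofReal_re]
    ring
  have i1 : (posT t).im = t := vl_im _ _
  have i2 : (posT t - l).im = t := by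
    rw [sub_im, i1, ofReal_im, sub_zero]
  have hcl : Real.cos (4 / 3 * l) = √3 / 2 := by
    rw [show 4 / 3 * l = Real.pi / 6 by unfold l; ring, Real.cos_pi_div_six]
  have hk : Real.cos (4 / 3 * (2 * -l)) = 1 / 2 := by
    rw [show 4 / 3 * (2 * -l) = -(Real.pi / 3) by unfold l; ring, Real.cos_neg,
      Real.cos_pi_div_three]
  have s3 : 0 < √3 := Real.sqrt_pos.2 (by norm_num)
  have h1 := norm_psi_sq (β := 4 / 3) (z := posT t) (by rw [hcl]; positivity)
    (by rw [e1]; simp)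
  have h2 := norm_psi_sq (β := 4 / 3) (z := posT t - l) (by rw [hcl]; positivity)
    (by rw [e2, hk]; norm_num)
  rw [e1, i1] at h1
  rw [e2, i2] at h2
  have hg : gq (2 * 0) (2 * t) (4 / 3) ≤ gq (2 * -l) (2 * t) (4 / 3) := by
    unfold gq
    rw [hcl, hk, mul_zero, mul_zero, Real.cos_zero]
    exact sqrt3_ineq (Real.one_le_cosh _) (by norm_num) rfl (by positivity) (by
      rw [div_pow, Real.sq_sqrt (by norm_num)]
      norm_num)
  refine (sq_le_sq₀ (norm_nonneg _) (norm_nonneg _)).1 ?_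
  rw [h1.2, h2.2, div_le_div_iff₀ (by linarith [h1.1]) (by linarith [h2.1])]
  nlinarith

theorem norm_psi_T_sub (t : ℝ) : ‖psi (4 / 3) (posT t - l)‖ = Real.exp (-NUMF.Ag (1 / 2) t) := by
  have := NUMF.psi_norm (a := 1 / 2) (by rw [abs_of_pos] <;> norm_num) t
  rw [← this]
  congr 2
  unfold posT vl
  rw [l_eq]
  push_cast
  ring

/-- the cutoff factor of `St`: at most `4 |psi_0 (w - l)| ^ m` -/
theorem norm_cutT_le {β : ℝ} (hβ : 0 < β) (hβ1 : β ≤ 4 / 3) (m : ℕ) (t : ℝ) :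
    ‖ph m β (posT t) * ph m β (posT t - l) - ph m (4 / 3) (posT t)‖ ≤
      4 * Real.exp (-(m * NUMF.Ag (1 / 2) t)) := by
  have hpi := Real.pi_pos
  have e1 : (posT t).re + l / 2 = 0 := by
    unfold posT
    rw [vl_re]
    ring
  have e2 : (posT t - l).re + l / 2 = -l := by
    unfold posT
    rw [sub_re, vl_re, ofReal_re]
    ring
  have m1 : ‖psi β (posT t)‖ ≤ ‖psi (4 / 3) (posT t)‖ := by
    refine norm_psi_mono hβ hβ1 (by unfold l; linarith) ?_
    rw [e1, abs_zero]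
    linarith
  have m2 : ‖psi β (posT t - l)‖ ≤ ‖psi (4 / 3) (posT t - l)‖ := by
    refine norm_psi_mono hβ hβ1 (by unfold l; linarith) ?_
    rw [e2, abs_neg, abs_of_pos l_pos]
    unfold l
    linarith
  have m3 := norm_psi_T_le t
  have hle1 : ‖psi (4 / 3) (posT t - l)‖ ≤ 1 := by
    refine norm_psi_le_one (adm43 l_pos.le (by linarith [l_pos])) ?_
    rw [e2, abs_neg, abs_of_pos l_pos]
  have hq : Real.exp (-(m * NUMF.Ag (1 / 2) t)) = ‖psi (4 / 3) (posT t - l)‖ ^ m := by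
    rw [norm_psi_T_sub, ← Real.exp_nat_mul]
    ring_nf
  rw [hq]
  set b := ‖psi (4 / 3) (posT t - l)‖ with hb
  have a1 : ‖psi β (posT t) ^ m‖ ≤ b ^ m := by
    rw [norm_pow]
    exact pow_le_pow_left₀ (norm_nonneg _) (m1.trans m3) m
  have a2 : ‖psi β (posT t - l) ^ m‖ ≤ b ^ m := by
    rw [norm_pow]
    exact pow_le_pow_left₀ (norm_nonneg _) m2 m
  have a3 : ‖psi (4 / 3) (posT t) ^ m‖ ≤ b ^ m := by
    rw [norm_pow]
    exact pow_le_pow_left₀ (norm_nonneg _) m3 m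
  have hb1 : b ^ m ≤ 1 := pow_le_one₀ (norm_nonneg _) hle1
  have hb0 : 0 ≤ b ^ m := pow_nonneg (norm_nonneg _) m
  unfold ph
  have e : (1 - psi β (posT t) ^ m) * (1 - psi β (posT t - l) ^ m) -
      (1 - psi (4 / 3) (posT t) ^ m) = psi (4 / 3) (posT t) ^ m +
        (psi β (posT t) ^ m * psi β (posT t - l) ^ m +
          (-psi β (posT t) ^ m + -psi β (posT t - l) ^ m)) := by ring
  rw [e]
  have n1 := norm_add_le (psi (4 / 3) (posT t) ^ m) (psi β (posT t) ^ m * psi β (posT t - l) ^ m +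
          (-psi β (posT t) ^ m + -psi β (posT t - l) ^ m))
  have n2 := norm_add_le (psi β (posT t) ^ m * psi β (posT t - l) ^ m)
    (-psi β (posT t) ^ m + -psi β (posT t - l) ^ m)
  have n3 := norm_add_le (-psi β (posT t) ^ m) (-psi β (posT t - l) ^ m)
  rw [norm_neg, norm_neg] at n3
  rw [norm_mul] at n2
  have n4 : ‖psi β (posT t) ^ m‖ * ‖psi β (posT t - l) ^ m‖ ≤ b ^ m := by
    calc _ ≤ b ^ m * 1 := mul_le_mul a1 (a2.trans hb1) (norm_nonneg _) hb0
      _ = _ := mul_one _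
  linarith

theorem Ag_half_le : ∃ K : ℝ, 0 ≤ K ∧ ∀ t : ℝ,
    NUMF.Ag (1 / 2) t ≤ K * Real.exp (-(8 / 3) * |t|) := by
  have hb : (1 / 2 * l : ℝ) < NUMF.l := by
    rw [l_eq]
    linarith [l_pos]
  refine ⟨2 * Real.pi * NUMF.Kb (1 / 2 * l) * (|1 / 2| * NUMF.l), ?_, fun t => ?_⟩
  · have := NUMF.Kb_pos (b := 1 / 2 * l) (by linarith [l_pos]) hb
    have := NUMF.l_pos
    positivity
  · have := NUMF.Ag_le hb (a := 1 / 2) (by rw [l_eq, abs_of_pos (by linarith [l_pos])]) t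
    exact (le_abs_self _).trans this

theorem ob_T_eq (m : ℕ) (β jL e ρ : ℝ) {x : Xo} (hx : kd x = .St) :
    ob1 m β jL e ρ x * Real.exp (m * mfo (parts jL e ρ x)) =
      aS * (2 * Real.cos l) ^ 2 * (Real.exp (m * NUMF.Ag (1 / 2) (ht x)) *
        ‖ph m β (posT (ht x)) * ph m β (posT (ht x) - l) - ph m (4 / 3) (posT (ht x))‖) := by
  have hp : parts jL e ρ x = [(sp x, true, posT (ht x))] := by
    unfold parts
    rw [hx]
  have hv : mfo (parts jL e ρ x) = clo (3 / 2) (ht x) + clo (3 / 2 + 1) (ht x) := by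
    rw [hp, posT_eq]
    exact (good_string (sp x) (3 / 2) (ht x)).val
  rw [hv]
  unfold ob1
  rw [hx]
  simp only
  have h := RN_string (j := 3 / 2) (by norm_num) (by norm_num) (by norm_num) m (ht x)
  have h2 := NUMF.mf_string (j := 3 / 2) (by norm_num) (by norm_num) (ht x)
  rw [h2, show (2 : ℝ) - 3 / 2 = 1 / 2 by norm_num, ← posT_eq] at h
  calc _ = aS * (RN m (posT (ht x)) * RN m (posT (ht x) - l) *
        Real.exp (m * (clo (3 / 2) (ht x) + clo (3 / 2 + 1) (ht x)))) *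
        ‖ph m β (posT (ht x)) * ph m β (posT (ht x) - l) - ph m (4 / 3) (posT (ht x))‖ := by ring
    _ = _ := by rw [h]; ring

theorem kap_anti {β s : ℝ} (h0 : 0 < β) (h1 : β ≤ 4 / 3) (hs : 0 ≤ s) (hs1 : s < 3 * l / 2) :
    kap (4 / 3) s ≤ kap β s := by
  unfold kap
  have hpl : 3 * l / 2 = 3 * Real.pi / 16 := by unfold l; ring
  have hpi := Real.pi_pos
  refine Real.cos_le_cos_of_nonneg_of_le_pi (by positivity) (by nlinarith) (by nlinarith)

theorem adm_of_le {β s : ℝ} (h0 : 0 < β) (h1 : β ≤ 4 / 3) (hs : 0 ≤ s) (hs1 : s < 3 * l / 2) :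
    Adm β s where
  pos := h0
  snn := hs
  sl := by
    have hpl : 3 * l / 2 = 3 * Real.pi / 16 := by unfold l; ring
    nlinarith
  bl := by
    have hpl : l = Real.pi / 8 := rfl
    have hpi := Real.pi_pos
    nlinarith

/-- the object `L`, constant independent of `β` -/
theorem ob_L_le' {jL β : ℝ} (h2 : 2 ≤ jL) (h3 : jL < 3) (hβ : 0 < β) (hβ1 : β ≤ 4 / 3) (m : ℕ)
    (e ρ : ℝ) {x : Xo} (hx : kd x = .L) :
    ob1 m β jL e ρ x * Real.exp (m * mfo (parts jL e ρ x)) ≤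
      Real.cos l / Real.pi * (4 / kap (4 / 3) (|3 / 2 - jL| * l)) * cut m β (ht x) := by
  have hl := l_pos
  have hs : |3 / 2 - jL| * l < 3 * l / 2 := by
    rw [abs_sub_comm, abs_of_nonneg (by linarith)]
    nlinarith
  have hs0 : 0 ≤ |3 / 2 - jL| * l := by positivity
  refine (ob_L_le h2 h3.le (adm_of_le hβ hβ1 hs0 hs) le_rfl m e ρ hx).trans ?_
  have hk := (adm43 hs0 hs).kap_pos
  have hpi := Real.pi_pos
  have hc := cos_l_pos
  have hcut := cut_nonneg m β (ht x)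
  have := kap_anti hβ hβ1 hs0 hs
  gcongr

/-- the object `St`: flat, cut off beyond `T / (1 - ε)`; the constant does not depend on `β` -/
theorem ob_T_le : ∃ C : ℝ, 0 < C ∧ ∀ β : ℝ, 0 < β → β ≤ 4 / 3 →
    ∀ (m : ℕ) (jL e ρ : ℝ) (x : Xo), kd x = .St →
      ob1 m β jL e ρ x * Real.exp (m * mfo (parts jL e ρ x)) ≤ C * cut m β (ht x) := by
  obtain ⟨K, hK, hAg⟩ := Ag_half_le
  have hl := l_pos
  have hA2 := adm43 (s := l) l_pos.le (by linarith [l_pos])
  set B : ℝ := 2 * (4 / kap (4 / 3) l) + 4 / kap (4 / 3) l with hB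
  have hk2 := hA2.kap_pos
  have hBp : 0 < B := by positivity
  have hac := aS_pos
  have hcl := cos_l_pos
  refine ⟨aS * (2 * Real.cos l) ^ 2 * (4 + Real.exp K * B), by positivity,
    fun β hβ0 hβ1 m jL e ρ x hx => ?_⟩
  have hA := adm_of_le hβ0 hβ1 l_pos.le (by linarith [l_pos] : l < 3 * l / 2)
  have hk1 := hA.kap_pos
  have hk12 := kap_anti hβ0 hβ1 l_pos.le (by linarith [l_pos] : l < 3 * l / 2)
  rw [ob_T_eq m β jL e ρ hx, mul_assoc _ (4 + Real.exp K * B) _]
  refine mul_le_mul_of_nonneg_left ?_ (by positivity)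
  set t := ht x with ht
  unfold cut
  rcases le_total 1 (m * Real.exp (-(2 * β) * |t|)) with h2 | h2
  · rw [min_eq_left h2, mul_one]
    have h3 := norm_cutT_le hβ0 hβ1 m t
    calc Real.exp (m * NUMF.Ag (1 / 2) t) * ‖ph m β (posT t) * ph m β (posT t - l) - ph m (4 / 3) (posT t)‖
        ≤ Real.exp (m * NUMF.Ag (1 / 2) t) * (4 * Real.exp (-(m * NUMF.Ag (1 / 2) t))) :=
          mul_le_mul_of_nonneg_left h3 (Real.exp_pos _).le
      _ = 4 := by
          rw [mul_left_comm, ← Real.exp_add, add_neg_cancel, Real.exp_zero, mul_one]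
      _ ≤ _ := by
          have : 0 ≤ Real.exp K * B := by positivity
          linarith
  · rw [min_eq_right h2]
    have e1 : (posT t).re + l / 2 = 0 := by
      unfold posT
      rw [vl_re]
      ring
    have e2 : (posT t - l).re + l / 2 = -l := by
      unfold posT
      rw [sub_re, vl_re, ofReal_re]
      ring
    have i1 : (posT t).im = t := vl_im _ _
    have i2 : (posT t - l).im = t := by
      rw [sub_im, i1, ofReal_im, sub_zero]
    have hs1 : |(posT t).re + l / 2| ≤ l := by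
      rw [e1, abs_zero]
      exact l_pos.le
    have hs2 : |(posT t - l).re + l / 2| ≤ l := by
      rw [e2, abs_neg, abs_of_pos l_pos]
    have b1 := norm_ph_le_two hA hs1 m
    have b2 := norm_ph_le_exp hA hs2 m
    have b3 := norm_ph_le_exp hA2 hs1 m
    rw [i2] at b2
    rw [i1] at b3
    have hexp : Real.exp (-(2 * (4 / 3)) * |t|) ≤ Real.exp (-(2 * β) * |t|) := by
      refine Real.exp_le_exp.2 ?_
      have := abs_nonneg t
      nlinarith
    have hm := Nat.cast_nonneg (α := ℝ) m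
    set X : ℝ := m * Real.exp (-(2 * β) * |t|) with hX
    have hX0 : 0 ≤ X := by positivity
    have hX1 : (m : ℝ) * Real.exp (-(2 * (4 / 3)) * |t|) ≤ X := mul_le_mul_of_nonneg_left hexp hm
    have n1 : ‖ph m β (posT t) * ph m β (posT t - l) - ph m (4 / 3) (posT t)‖ ≤ B * X := by
      refine (norm_sub_le _ _).trans ?_
      rw [norm_mul]
      have c0 : 4 / kap β l * X ≤ 4 / kap (4 / 3) l * X := by gcongr
      have c1 : ‖ph m β (posT t)‖ * ‖ph m β (posT t - l)‖ ≤ 2 * (4 / kap (4 / 3) l * X) :=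
        mul_le_mul b1 (b2.trans c0) (norm_nonneg _) (by norm_num)
      have c2 : 4 / kap (4 / 3) l * (m * Real.exp (-(2 * (4 / 3)) * |t|)) ≤ 4 / kap (4 / 3) l * X :=
        mul_le_mul_of_nonneg_left hX1 (by positivity)
      calc _ ≤ 2 * (4 / kap (4 / 3) l * X) + 4 / kap (4 / 3) l * X := by linarith
        _ = B * X := by rw [hB]; ring
    have n2 : Real.exp (m * NUMF.Ag (1 / 2) t) ≤ Real.exp K := by
      refine Real.exp_le_exp.2 ?_
      calc (m : ℝ) * NUMF.Ag (1 / 2) t ≤ m * (K * Real.exp (-(8 / 3) * |t|)) :=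
            mul_le_mul_of_nonneg_left (hAg t) hm
        _ = K * (m * Real.exp (-(2 * (4 / 3)) * |t|)) := by ring_nf
        _ ≤ K * 1 := mul_le_mul_of_nonneg_left (hX1.trans h2) hK
        _ = K := mul_one K
    calc _ ≤ Real.exp K * (B * X) := mul_le_mul n2 n1 (norm_nonneg _) (Real.exp_pos _).le
      _ ≤ (4 + Real.exp K * B) * X := by nlinarith

/-! #### `S`, `Sv`, `Svv` -/

theorem oS_clo {e : ℝ} (he0 : 0 ≤ e) (he1 : e < 1) (m : ℕ) (t : ℝ) :
    oS m (posS e t) * Real.exp (m * (clo (2 + e) t + clo (2 + e + 1) t)) =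
      aS * (2 * Real.cos l) ^ 2 * (Real.exp (-(2 * m * NUMF.Ag e t)) * ‖ph m (4 / 3) (posS e t)‖) := by
  have h := RN_string (j := 2 + e) (by linarith) (by linarith) (by linarith) m t
  have h2 := NUMF.mf_string' (j := 2 + e) (by linarith) (by linarith) t
  rw [h2, ← posS_eq, show 2 + e - 2 = e by ring] at h
  unfold oS
  calc _ = aS * (RN m (posS e t) * RN m (posS e t - l) *
        Real.exp (m * (clo (2 + e) t + clo (2 + e + 1) t))) * ‖ph m (4 / 3) (posS e t)‖ := by ring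
    _ = _ := by
        rw [h]
        ring_nf

theorem ph_S_le {e e1 : ℝ} (he0 : 0 ≤ e) (he : e ≤ e1) (he1 : e1 < 1) (m : ℕ) (t : ℝ) :
    ‖ph m (4 / 3) (posS e t)‖ ≤ 4 / kap (4 / 3) ((1 / 2 + e1) * l) * cut m (4 / 3) t := by
  have hl := l_pos
  have hA := adm43 (s := (1 / 2 + e1) * l) (by nlinarith) (by nlinarith)
  have hu : |(posS e t).re + l / 2| ≤ (1 / 2 + e1) * l := by
    unfold posS
    rw [vl_re, show -((1 + e) * l) + l / 2 = -((1 / 2 + e) * l) by ring, abs_neg,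
      abs_of_nonneg (by positivity)]
    nlinarith
  have := norm_ph_le_cut hA hu m
  rwa [show (posS e t).im = t from vl_im _ _] at this

theorem mfo_S (jL e ρ : ℝ) {x : Xo} (hx : kd x = .S) :
    mfo (parts jL e ρ x) = clo (2 + e) (ht x) + clo (2 + e + 1) (ht x) := by
  unfold parts
  rw [hx]
  simp only
  rw [posS_eq]
  exact (good_string (sp x) (2 + e) (ht x)).val

/-- the object `S` -/
theorem ob_S_le {e e1 : ℝ} (he0 : 0 ≤ e) (he : e ≤ e1) (he1 : e1 < 1) (m : ℕ) (β jL ρ : ℝ)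
    {x : Xo} (hx : kd x = .S) : ob1 m β jL e ρ x * Real.exp (m * mfo (parts jL e ρ x)) ≤
      aS * (2 * Real.cos l) ^ 2 * (4 / kap (4 / 3) ((1 / 2 + e1) * l)) * cut m (4 / 3) (ht x) *
        Real.exp (-(2 * m * NUMF.Ag e (ht x))) := by
  rw [mfo_S jL e ρ hx]
  unfold ob1
  rw [hx]
  simp only
  rw [oS_clo he0 (he.trans_lt he1)]
  have h1 := ph_S_le he0 he he1 m (ht x)
  have hac := aS_pos
  calc _ ≤ aS * (2 * Real.cos l) ^ 2 * (Real.exp (-(2 * m * NUMF.Ag e (ht x))) *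
        (4 / kap (4 / 3) ((1 / 2 + e1) * l) * cut m (4 / 3) (ht x))) := by gcongr
    _ = _ := by ring

theorem mfo_Svv (jL e ρ : ℝ) {x : Xo} (hx : kd x = .Svv) :
    mfo (parts jL e ρ x) = clo (2 + e) (ht x) + clo (2 + e + 1) (ht x) +
      (clo e (ht x) + (clo e (ht x) + 0)) := by
  unfold parts
  rw [hx]
  simp only
  rw [posP_eq, posS_eq]
  exact ((good_string (sp x) (2 + e) (ht x)).cons ((good_quantum (!sp x) e (ht x)).cons
    ((good_quantum (!sp x) e (ht x)).cons Cloud.nil))).val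

theorem strip_P {e : ℝ} (he0 : 0 ≤ e) (he1 : e ≤ 1) (t : ℝ) :
    |(vl ((1 - e) * l) t).re + l / 2| ≤ 3 * l / 2 := by
  have hl := l_pos
  rw [vl_re, show (1 - e) * l + l / 2 = (3 / 2 - e) * l by ring,
    abs_of_nonneg (mul_nonneg (by linarith) hl.le)]
  nlinarith

/-- the object `Svv` -/
theorem ob_Svv_le {β e e1 : ℝ} (hA : Adm β (3 * l / 2)) (he0 : 0 ≤ e) (he : e ≤ e1) (he1 : e1 < 1)
    (m : ℕ) (jL ρ : ℝ) {x : Xo} (hx : kd x = .Svv) :
    ob1 m β jL e ρ x * Real.exp (m * mfo (parts jL e ρ x)) ≤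
      aS * (2 * Real.cos l) ^ 2 * (4 / kap (4 / 3) ((1 / 2 + e1) * l)) *
        (4 * Real.cos l ^ 2 * (4 * Real.cos l / Real.sin (5 * l) ^ 2) ^ 2) *
        cut m (4 / 3) (ht x) := by
  rw [mfo_Svv jL e ρ hx]
  unfold ob1
  rw [hx]
  simp only
  set t := ht x with ht
  have h1 := ph_S_le he0 he he1 m t
  have h2 := oS_clo he0 (he.trans_lt he1) m t
  have h3 := RN_clo (j := e) he0 (by linarith) (by linarith) m t
  rw [NUMF.mf_low he0 (by linarith), ← posP_eq] at h3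
  have h4 : ‖ph m β (posS e t + 2 * l)‖ ≤ 2 := by
    refine norm_ph_le_two hA ?_ m
    rw [posP_eq]
    exact strip_P he0 (by linarith) t
  have hac := aS_pos
  have hcl := cos_l_pos
  set p := posS e t + 2 * l with hp
  have e0 : Real.exp (m * (clo (2 + e) t + clo (2 + e + 1) t + (clo e t + (clo e t + 0)))) =
      Real.exp (m * (clo (2 + e) t + clo (2 + e + 1) t)) * Real.exp (m * clo e t) ^ 2 := by
    rw [← Real.exp_nat_mul, ← Real.exp_add]
    push_cast
    ring_nf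
  have e5 : Real.exp (-(2 * m * NUMF.Ag e t)) * Real.exp (m * NUMF.Ag e t) ^ 2 = 1 := by
    rw [← Real.exp_nat_mul, ← Real.exp_add]
    push_cast
    ring_nf
    exact Real.exp_zero
  rw [e0]
  calc oS m (posS e t) * (4 * Real.cos l ^ 2 * (RN m p * ‖ph m β p‖ / Real.sin (5 * l) ^ 2) ^ 2) *
        (Real.exp (m * (clo (2 + e) t + clo (2 + e + 1) t)) * Real.exp (m * clo e t) ^ 2) =
        (oS m (posS e t) * Real.exp (m * (clo (2 + e) t + clo (2 + e + 1) t))) *
        (4 * Real.cos l ^ 2 * ((RN m p * Real.exp (m * clo e t)) * ‖ph m β p‖ /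
          Real.sin (5 * l) ^ 2) ^ 2) := by ring
    _ = aS * (2 * Real.cos l) ^ 2 * (Real.exp (-(2 * m * NUMF.Ag e t)) *
          Real.exp (m * NUMF.Ag e t) ^ 2) * ‖ph m (4 / 3) (posS e t)‖ *
        (4 * Real.cos l ^ 2 * (2 * Real.cos l * ‖ph m β p‖ / Real.sin (5 * l) ^ 2) ^ 2) := by
        rw [h2, h3]
        ring
    _ ≤ aS * (2 * Real.cos l) ^ 2 * 1 * (4 / kap (4 / 3) ((1 / 2 + e1) * l) * cut m (4 / 3) t) *
        (4 * Real.cos l ^ 2 * (2 * Real.cos l * 2 / Real.sin (5 * l) ^ 2) ^ 2) := by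
        have hX := (norm_nonneg _).trans h1
        rw [e5]
        gcongr
    _ = _ := by ring

/-! #### the circle -/

theorem posV_eq {e ρ t a : ℝ} : posV e ρ t a =
    vl ((1 - (e - ρ * Real.cos (2 * Real.pi * a) / l)) * l) (t + ρ * Real.sin (2 * Real.pi * a)) := by
  have hl : (l : ℂ) ≠ 0 := by
    rw [Ne, ofReal_eq_zero]
    exact l_pos.ne'
  have he : Complex.exp (2 * Real.pi * a * I) =
      ((Real.cos (2 * Real.pi * a) : ℝ) : ℂ) + ((Real.sin (2 * Real.pi * a) : ℝ) : ℂ) * I := by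
    rw [show (2 * Real.pi * a * I : ℂ) = ((2 * Real.pi * a : ℝ) : ℂ) * I by push_cast; ring,
      Complex.exp_mul_I, ofReal_cos, ofReal_sin]
  unfold posV
  rw [posP_eq, he]
  unfold vl
  push_cast
  field_simp
  ring

theorem norm_sin_ge {z : ℂ} (h : |z.re| ≤ Real.pi / 2) : 2 / Real.pi * ‖z‖ ≤ ‖sin z‖ := by
  have hpi := Real.pi_pos
  have hpi2 : 2 < Real.pi := by linarith [Real.pi_gt_three]
  have h1 := NUMF.norm_sin_sq z.re z.im
  rw [re_add_im] at h1
  have h2 : Real.cosh (2 * z.im) = 1 + 2 * Real.sinh z.im ^ 2 := by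
    rw [Real.cosh_two_mul, Real.cosh_sq]
    ring
  have h3 : Real.cos (2 * z.re) = 1 - 2 * Real.sin z.re ^ 2 := by
    rw [Real.cos_two_mul, Real.cos_sq']
    ring
  rw [h2, h3] at h1
  have h4 : z.im ^ 2 ≤ Real.sinh z.im ^ 2 := by
    rw [← sq_abs, ← sq_abs (Real.sinh z.im), Real.abs_sinh]
    exact pow_le_pow_left₀ (abs_nonneg _) (Real.self_le_sinh_iff.2 (abs_nonneg _)) 2
  have h5 : (2 / Real.pi * |z.re|) ^ 2 ≤ Real.sin z.re ^ 2 := by
    have := Real.mul_abs_le_abs_sin h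
    rw [← sq_abs (Real.sin z.re)]
    exact pow_le_pow_left₀ (by positivity) this 2
  refine (sq_le_sq₀ (by positivity) (norm_nonneg _)).1 ?_
  have h6 : ‖z‖ ^ 2 = z.re ^ 2 + z.im ^ 2 := by
    rw [← Complex.normSq_eq_norm_sq, Complex.normSq_apply]
    ring
  rw [mul_pow, sq_abs] at h5
  have h7 : (2 / Real.pi) ^ 2 ≤ 1 := by
    rw [div_pow, div_le_one (by positivity)]
    nlinarith
  rw [mul_pow, h6, h1]
  nlinarith [sq_nonneg z.im]

theorem cz_circle {ζ : ℂ} (h0 : ζ ≠ 0) (h : ‖ζ‖ ≤ l / 2) :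
    ‖Kn.cz false true (2 * l + ζ)‖ ≤ 8 * Real.pi ^ 2 / ‖ζ‖ ^ 2 := by
  have hl := l_pos
  have hpi := Real.pi_pos
  have hpl : Real.pi = 8 * l := by unfold l; ring
  have hre : |ζ.re| ≤ l / 2 := (abs_re_le_norm ζ).trans h
  obtain ⟨r1, r2⟩ := abs_le.1 hre
  have e4 : (Real.pi / 2 : ℝ) = 4 * l := by rw [hpl]; ring
  have c1 : sin (2 * l + ζ + l - 3 * l) = sin ζ := by ring_nf
  have c2 : sin (2 * l + ζ + l + 3 * l) = cos (2 * l + ζ) := by
    rw [show (2 * l + ζ + l + 3 * l : ℂ) = (2 * l + ζ) + ((4 * l : ℝ) : ℂ) by push_cast; ring, ← e4]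
    push_cast
    exact Complex.sin_add_pi_div_two _
  have c3 : cos (2 * l + ζ + l) = -sin (2 * l + ζ - 3 * l) := by
    rw [show (2 * l + ζ + l : ℂ) = (2 * l + ζ - 3 * l) + ((4 * l : ℝ) : ℂ) by push_cast; ring, ← e4]
    push_cast
    exact Complex.cos_add_pi_div_two _
  have n1 : cos (2 * l + ζ) ≠ 0 := by
    rw [← c2]
    have hre2 : (2 * l + ζ + l + 3 * l : ℂ).re = 6 * l + ζ.re := by
      simp
      ring
    have := Bd.sin_pos_of (x := 6 * l + ζ.re) (by linarith) (by linarith)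
    have h3 := Bd.le_norm_sin (2 * l + ζ + l + 3 * l)
    rw [hre2, abs_of_pos this] at h3
    have h4 := Real.cosh_pos (2 * l + ζ + l + 3 * l : ℂ).im
    exact norm_pos_iff.1 (lt_of_lt_of_le (by positivity) h3)
  have n2 : sin (2 * l + ζ - 3 * l) ≠ 0 := by
    have hre2 : (2 * l + ζ - 3 * l : ℂ).re = ζ.re - l := by
      simp
      ring
    have := Bd.sin_pos_of (x := -(ζ.re - l)) (by linarith) (by linarith)
    rw [Real.sin_neg] at this
    have h3 := Bd.le_norm_sin (2 * l + ζ - 3 * l)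
    rw [hre2, abs_of_neg (by linarith)] at h3
    have h4 := Real.cosh_pos (2 * l + ζ - 3 * l : ℂ).im
    exact norm_pos_iff.1 (lt_of_lt_of_le (mul_pos this h4) h3)
  have n3 : sin ζ ≠ 0 := by
    have := norm_sin_ge (z := ζ) (by rw [hpl]; linarith)
    have hz := norm_pos_iff.2 h0
    exact norm_pos_iff.1 (lt_of_lt_of_le (by positivity) this)
  have h5 : √2 / 2 ≤ ‖sin (2 * l + ζ + 3 * l)‖ := by
    have hre2 : (2 * l + ζ + 3 * l : ℂ).re = 5 * l + ζ.re := by
      simp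
      ring
    have h3 := Bd.le_norm_sin (2 * l + ζ + 3 * l)
    rw [hre2] at h3
    have h6 : √2 / 2 ≤ Real.sin (5 * l + ζ.re) := by
      rw [← Real.cos_pi_div_four, ← Real.cos_pi_div_two_sub, e4,
        show (4 * l - (5 * l + ζ.re)) = -(l + ζ.re) by ring, Real.cos_neg]
      refine Real.cos_le_cos_of_nonneg_of_le_pi (by linarith) (by rw [hpl]; linarith) ?_
      rw [hpl]
      linarith
    have h7 := Real.one_le_cosh (2 * l + ζ + 3 * l : ℂ).im
    have h8 := le_abs_self (Real.sin (5 * l + ζ.re))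
    have h9 : 0 < √2 / 2 := by positivity
    nlinarith
  have h6 := norm_sin_ge (z := ζ) (by rw [hpl]; linarith)
  have n4 : sin (2 * l + ζ + 3 * l) ≠ 0 := by
    refine norm_pos_iff.1 (lt_of_lt_of_le (by positivity) h5)
  have key : Kn.cz false true (2 * l + ζ) = 1 / (sin (2 * l + ζ + 3 * l) ^ 2 * sin ζ ^ 2) := by
    change Bd.qg (2 * l + ζ) * Bd.qg (2 * l + ζ + l) = _
    unfold Bd.qg
    rw [c1, c2, c3, div_mul_div_comm, div_eq_div_iff]
    · ring
    · exact mul_ne_zero (mul_ne_zero (pow_ne_zero 2 n4) (pow_ne_zero 2 n2))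
        (mul_ne_zero (pow_ne_zero 2 n1) (pow_ne_zero 2 n3))
    · exact mul_ne_zero (pow_ne_zero 2 n4) (pow_ne_zero 2 n3)
  rw [key, norm_div, norm_one, norm_mul, norm_pow, norm_pow]
  have hz := norm_pos_iff.2 h0
  have h7 : (√2 / 2) ^ 2 * (2 / Real.pi * ‖ζ‖) ^ 2 ≤ ‖sin (2 * l + ζ + 3 * l)‖ ^ 2 * ‖sin ζ‖ ^ 2 := by
    gcongr
  have h8 : (√2 / 2) ^ 2 * (2 / Real.pi * ‖ζ‖) ^ 2 = 2 * ‖ζ‖ ^ 2 / Real.pi ^ 2 := by
    rw [div_pow, Real.sq_sqrt (by norm_num)]
    field_simp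
  rw [h8] at h7
  rw [div_le_div_iff₀ (lt_of_lt_of_le (by positivity) h7) (by positivity)]
  have h9 : Real.pi ^ 2 * (2 * ‖ζ‖ ^ 2 / Real.pi ^ 2) = 2 * ‖ζ‖ ^ 2 := by field_simp
  have h10 : 0 ≤ Real.pi ^ 2 := by positivity
  nlinarith [mul_le_mul_of_nonneg_left h7 h10, sq_nonneg ‖ζ‖]

theorem mfo_Sv (jL e ρ : ℝ) {x : Xo} (hx : kd x = .Sv) :
    mfo (parts jL e ρ x) = clo (2 + e) (ht x) + clo (2 + e + 1) (ht x) +
      (clo (e - ρ * Real.cos (2 * Real.pi * an x) / l)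
        (ht x + ρ * Real.sin (2 * Real.pi * an x)) + 0) := by
  unfold parts
  rw [hx]
  simp only
  rw [posV_eq, posS_eq]
  exact ((good_string (sp x) (2 + e) (ht x)).cons ((good_quantum (!sp x)
    (e - ρ * Real.cos (2 * Real.pi * an x) / l)
      (ht x + ρ * Real.sin (2 * Real.pi * an x))).cons Cloud.nil)).val

/-- constant of the displacement of the satellite -/
def KV (e1 : ℝ) : ℝ := 4 * Real.pi * NUMF.Kb ((1 + e1) / 2 * l) * Real.exp (8 / 3 * l)

theorem KV_pos {e1 : ℝ} (h0 : 0 ≤ e1) (h1 : e1 < 1) : 0 < KV e1 := by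
  have hl := l_pos
  have := NUMF.Kb_pos (b := (1 + e1) / 2 * l) (by positivity) (by rw [l_eq]; nlinarith)
  have hpi := Real.pi_pos
  unfold KV
  positivity

/-- constant of `Sv` -/
def CV (e1 : ℝ) : ℝ := aS * (2 * Real.cos l) ^ 2 * (4 / kap (4 / 3) ((1 / 2 + e1) * l)) *
  (4 * Real.cos l * (8 * Real.pi ^ 2))

theorem CV_pos {e1 : ℝ} (h0 : 0 ≤ e1) (h1 : e1 < 1) : 0 < CV e1 := by
  have hl := l_pos
  have hk := (adm43 (s := (1 / 2 + e1) * l) (by nlinarith) (by nlinarith)).kap_pos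
  have hac := aS_pos
  have hcl := cos_l_pos
  have hpi := Real.pi_pos
  unfold CV
  positivity

/-- the object `Sv`, the satellite on the circle of radius `ρ` -/
theorem ob_Sv_le {β e e1 ρ : ℝ} (hA : Adm β (3 * l / 2)) (he : e ≤ e1) (he1 : e1 < 1)
    (h0 : 0 < ρ) (h1 : ρ ≤ e * l) (h2 : ρ ≤ l / 2) (h3 : ρ ≤ (1 - e1) / 2 * l)
    (m : ℕ) (jL : ℝ) {x : Xo} (hx : kd x = .Sv) :
    ob1 m β jL e ρ x * Real.exp (m * mfo (parts jL e ρ x)) ≤
      CV e1 / ρ * cut m (4 / 3) (ht x) * Real.exp (-(m * NUMF.Ag e (ht x)) +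
        KV e1 * (m * ρ * Real.exp (-(8 / 3) * |ht x|))) := by
  have hl := l_pos
  have he0 : 0 ≤ e := by
    by_contra hneg
    have := not_le.1 hneg
    nlinarith
  rw [mfo_Sv jL e ρ hx]
  unfold ob1
  rw [hx]
  simp only
  set t := ht x with ht
  set θ : ℝ := 2 * Real.pi * an x with hθ
  set j : ℝ := e - ρ * Real.cos θ / l with hj
  set t' : ℝ := t + ρ * Real.sin θ with ht'
  have hcos := Real.abs_cos_le_one θ
  have hsin := Real.abs_sin_le_one θ
  obtain ⟨c1, c2⟩ := abs_le.1 hcos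
  have hjl : j * l = e * l - ρ * Real.cos θ := by
    rw [hj]
    field_simp
  have hρc : |ρ * Real.cos θ| ≤ ρ := by
    rw [abs_mul, abs_of_pos h0]
    exact mul_le_of_le_one_right h0.le hcos
  have hρs : |ρ * Real.sin θ| ≤ ρ := by
    rw [abs_mul, abs_of_pos h0]
    exact mul_le_of_le_one_right h0.le hsin
  obtain ⟨d1, d2⟩ := abs_le.1 hρc
  have hj0 : 0 ≤ j := by
    have : 0 ≤ j * l := by rw [hjl]; linarith
    exact nonneg_of_mul_nonneg_left this hl
  have hj1 : j * l ≤ (1 + e1) / 2 * l := by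
    rw [hjl]
    nlinarith
  have hj1' : j < 1 := by
    have : j * l < 1 * l := by nlinarith
    exact lt_of_mul_lt_mul_right this hl.le
  have hposV : posV e ρ t (an x) = vl ((1 - j) * l) t' := by
    rw [posV_eq]
  have g1 := ph_S_le he0 he he1 m t
  have g2 := oS_clo he0 (he.trans_lt he1) m t
  have g3 := RN_clo (j := j) hj0 hj1'.ne (by linarith) m t'
  rw [NUMF.mf_low hj0 hj1', ← hposV] at g3
  have g4 : ‖ph m β (posV e ρ t (an x))‖ ≤ 2 := by
    refine norm_ph_le_two hA ?_ m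
    rw [hposV]
    exact strip_P hj0 hj1'.le t'
  have g5 : ‖Kn.cz false true (posV e ρ t (an x) - posS e t)‖ ≤ 8 * Real.pi ^ 2 / ρ ^ 2 := by
    have e1 : posV e ρ t (an x) - posS e t = 2 * l + ρ * Complex.exp (2 * Real.pi * an x * I) := by
      unfold posV
      ring
    have e2 : ‖(ρ : ℂ) * Complex.exp (2 * Real.pi * an x * I)‖ = ρ := by
      rw [norm_mul, Complex.norm_real, Real.norm_of_nonneg h0.le,
        show (2 * Real.pi * an x * I : ℂ) = ((2 * Real.pi * an x : ℝ) : ℂ) * I by push_cast; ring,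
        Complex.norm_exp_ofReal_mul_I, mul_one]
    rw [e1]
    have := cz_circle (ζ := ρ * Complex.exp (2 * Real.pi * an x * I))
      (norm_pos_iff.1 (by rw [e2]; exact h0)) (by rw [e2]; exact h2)
    rwa [e2] at this
  have hb : (1 + e1) / 2 * l < NUMF.l := by
    rw [l_eq]
    nlinarith
  have g6 := NUMF.Ag_lip hb (a := e) (a' := j)
    (by rw [l_eq, abs_of_nonneg (by positivity)]; nlinarith)
    (by rw [l_eq, abs_of_nonneg (by positivity)]; exact hj1) t t'
  have g7 : m * NUMF.Ag j t' ≤ m * NUMF.Ag e t + KV e1 * (m * ρ * Real.exp (-(8 / 3) * |t|)) := by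
    have q1 : |t' - t| ≤ ρ := by
      rw [ht', add_sub_cancel_left]
      exact hρs
    have q2 : |j - e| * NUMF.l ≤ ρ := by
      have : |j - e| * NUMF.l = |ρ * Real.cos θ| := by
        have e3 : (j - e) * l = -(ρ * Real.cos θ) := by
          rw [sub_mul, hjl]
          ring
        rw [l_eq, ← abs_neg (ρ * Real.cos θ), ← e3, abs_mul, abs_of_pos hl]
      rw [this]
      exact hρc
    have hK := NUMF.Kb_pos (b := (1 + e1) / 2 * l) (by
      have : 0 ≤ e1 := he0.trans he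
      positivity) hb
    have q3 : |NUMF.Ag j t' - NUMF.Ag e t| ≤ KV e1 * (ρ * Real.exp (-(8 / 3) * |t|)) := by
      refine g6.trans ?_
      have hpi := Real.pi_pos
      unfold KV
      calc 2 * Real.pi * (NUMF.Kb ((1 + e1) / 2 * l) * Real.exp (8 / 3 * |t' - t|) *
            Real.exp (-(8 / 3) * |t|)) * (|t' - t| + |j - e| * NUMF.l) ≤
          2 * Real.pi * (NUMF.Kb ((1 + e1) / 2 * l) * Real.exp (8 / 3 * l) *
            Real.exp (-(8 / 3) * |t|)) * (ρ + ρ) := by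
            have : |t' - t| ≤ l := by linarith
            gcongr
        _ = _ := by ring
    have q4 := (abs_le.1 q3).2
    have hm := Nat.cast_nonneg (α := ℝ) m
    calc m * NUMF.Ag j t' ≤ m * (NUMF.Ag e t + KV e1 * (ρ * Real.exp (-(8 / 3) * |t|))) := by
          refine mul_le_mul_of_nonneg_left ?_ hm
          linarith
      _ = _ := by ring
  have hac := aS_pos
  have hcl := cos_l_pos
  have hpi := Real.pi_pos
  have hX := (norm_nonneg _).trans g1
  have e0 : Real.exp (m * (clo (2 + e) t + clo (2 + e + 1) t + (clo j t' + 0))) =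
      Real.exp (m * (clo (2 + e) t + clo (2 + e + 1) t)) * Real.exp (m * clo j t') := by
    rw [← Real.exp_add]
    ring_nf
  rw [e0]
  set v := posV e ρ t (an x) with hv
  calc oS m (posS e t) * (ρ * (RN m v * ‖ph m β v‖) * ‖Kn.cz false true (v - posS e t)‖) *
        (Real.exp (m * (clo (2 + e) t + clo (2 + e + 1) t)) * Real.exp (m * clo j t')) =
        (oS m (posS e t) * Real.exp (m * (clo (2 + e) t + clo (2 + e + 1) t))) *
        (ρ * ((RN m v * Real.exp (m * clo j t')) * ‖ph m β v‖) *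
          ‖Kn.cz false true (v - posS e t)‖) := by ring
    _ = aS * (2 * Real.cos l) ^ 2 * ‖ph m (4 / 3) (posS e t)‖ *
        (ρ * (2 * Real.cos l * ‖ph m β v‖) * ‖Kn.cz false true (v - posS e t)‖) *
        (Real.exp (-(2 * m * NUMF.Ag e t)) * Real.exp (m * NUMF.Ag j t')) := by
        rw [g2, g3]
        ring
    _ ≤ aS * (2 * Real.cos l) ^ 2 * (4 / kap (4 / 3) ((1 / 2 + e1) * l) * cut m (4 / 3) t) *
        (ρ * (2 * Real.cos l * 2) * (8 * Real.pi ^ 2 / ρ ^ 2)) *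
        (Real.exp (-(2 * m * NUMF.Ag e t)) *
          Real.exp (m * NUMF.Ag e t + KV e1 * (m * ρ * Real.exp (-(8 / 3) * |t|)))) := by
        gcongr
    _ = _ := by
        rw [← Real.exp_add, show -(2 * m * NUMF.Ag e t) + (m * NUMF.Ag e t +
          KV e1 * (m * ρ * Real.exp (-(8 / 3) * |t|))) = -(m * NUMF.Ag e t) +
          KV e1 * (m * ρ * Real.exp (-(8 / 3) * |t|)) by ring]
        unfold CV
        field_simp
        ring

end NUO
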