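import Pool.Agent.NUAct.Cur
import Pool.Agent.NUAct.Bfin
import Pool.Agent.NUCR.Bil
import Pool.Agent.NUO.OneAct
import Pool.Agent.NUO.Par0

/-!
# The curve of TARGET-A is an admissible current

`exists_curA`: `Cur m ε M b e (etaA e1 J m)` with `ε ≤ m^{-e1/2}`, `b = (1 - e1) T`, `M` constant;
`hd_curA`, `lip_curA`, `bil_curA`: its derivative current, Lipschitz constant, energy.
-/

set_option autoImplicit false

open MeasureTheory Set Filter Topology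

noncomputable section

namespace NUO

open NUCUR

/-- the end of the current -/
def bA (e1 : ℝ) (m : ℕ) : ℝ := (1 - e1) * Tb (Real.log m)

theorem bA_nonneg {e1 : ℝ} (he : e1 ≤ 1) (m : ℕ) : 0 ≤ bA e1 m := by
  unfold bA Tb
  have := log_nn m
  exact mul_nonneg (by linarith) (by positivity)

theorem bA_le {e1 : ℝ} (he0 : 0 ≤ e1) (m : ℕ) : bA e1 m ≤ 3 / 8 * Real.log m := by
  unfold bA Tb
  have := log_nn m
  nlinarith

/-- `1 / (m P b) ≤ 2 m^{-e1}` -/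
theorem inv_mP {e1 : ℝ} {m : ℕ} (hm : 1 ≤ m) (he : e1 ≤ 1) :
    1 / (m * NUMF.P (bA e1 m)) ≤ 2 * (m : ℝ) ^ (-e1) := by
  have hm0 : (0 : ℝ) < m := by exact_mod_cast hm
  have hb := bA_nonneg he m
  have h1 := seven_tenths_le_P (bA e1 m)
  rw [abs_of_nonneg hb] at h1
  have hP := NUMF.P_pos (bA e1 m)
  have e : Real.exp (-(8 / 3) * bA e1 m) = (m : ℝ) ^ (-1 + e1) := by
    rw [Real.rpow_def_of_pos hm0]
    congr 1
    unfold bA Tb
    ring
  rw [e] at h1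
  have h2 : (m : ℝ) ^ (-1 + e1) * m = (m : ℝ) ^ e1 := by
    rw [Real.rpow_add hm0, Real.rpow_neg_one]
    field_simp
  have h3 : 7 / 10 * (m : ℝ) ^ e1 ≤ m * NUMF.P (bA e1 m) := by
    rw [← h2]
    nlinarith
  have h4 : 0 < (m : ℝ) ^ e1 := Real.rpow_pos_of_pos hm0 _
  rw [Real.rpow_neg hm0.le, ← div_eq_mul_inv, div_le_div_iff₀ (by positivity) h4]
  linarith

/-- **the curve of TARGET-A is an admissible current** -/
theorem exists_curA {e1 J : ℝ} (he : 0 < e1) (he1 : e1 ≤ 1) (hJ : 0 ≤ J) {x : ℝ} (hx : 0 < x) :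
    ∃ M : ℝ, 0 ≤ M ∧ ∃ m0 : ℕ, 1 ≤ m0 ∧ ∀ m ≥ m0, ∃ (ε : ℝ) (e : ℝ → ℝ),
      NUAct.Cur m ε M (bA e1 m) e (etaA e1 J m) ∧ 0 ≤ ε ∧ ε ≤ (m : ℝ) ^ (-(e1 / 2)) ∧ ε ≤ x := by
  obtain ⟨C0, hC0, H0⟩ := NUAct.exists_cur
  obtain ⟨C1, hC1, H1⟩ := cur_bound4 (e := e1) he
  obtain ⟨Q, hQ⟩ : ∃ Q, Q = C0 * (C1 * J) * 2 := ⟨_, rfl⟩
  have hQ0 : 0 ≤ Q := by rw [hQ]; positivity
  have h1 : Tendsto (fun m : ℕ => (Q + 1) * (m : ℝ) ^ (-(e1 / 2))) atTop (𝓝 ((Q + 1) * 0)) :=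
    ((tendsto_rpow_neg_atTop (by positivity : 0 < e1 / 2)).comp
      tendsto_natCast_atTop_atTop).const_mul _
  rw [mul_zero] at h1
  have h2 := h1.eventually_le_const (show 0 < min 1 x from lt_min one_pos hx)
  have h3 := (Real.tendsto_log_atTop.comp tendsto_natCast_atTop_atTop).eventually_ge_atTop (8 / 3)
  obtain ⟨m0, hm0⟩ := Filter.eventually_atTop.1 (h2.and h3)
  refine ⟨C0 * (C1 * J), by positivity, max m0 1, le_max_right _ _, fun m hm => ?_⟩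
  obtain ⟨a1, a2⟩ := hm0 m ((le_max_left _ _).trans hm)
  have hm1 : 1 ≤ m := (le_max_right _ _).trans hm
  have hmp : (0 : ℝ) < m := by exact_mod_cast hm1
  have a3 : 8 / 3 ≤ Real.log m := a2
  have hT : 1 ≤ Tb (Real.log m) := by unfold Tb; linarith
  obtain ⟨e, he'⟩ := H0 m (C1 * J) (bA e1 m) hmp (bA_nonneg he1 m) (cur e1 (Tb (Real.log m)) J)
    (cur_contDiff (n := (4 : ℕ∞))) (fun k hk t => H1 _ J hT hJ k hk t)
    (fun t ht => cur_zero he (by linarith) ht)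
  refine ⟨C0 * (C1 * J) / (m * NUMF.P (bA e1 m)), e, he', ?_, ?_, ?_⟩
  · have := NUMF.P_pos (bA e1 m)
    positivity
  · have h4 := inv_mP (m := m) hm1 he1
    have h5 : (m : ℝ) ^ (-e1) = (m : ℝ) ^ (-(e1 / 2)) * (m : ℝ) ^ (-(e1 / 2)) := by
      rw [← Real.rpow_add hmp]
      congr 1
      ring
    have h6 : 0 < (m : ℝ) ^ (-(e1 / 2)) := Real.rpow_pos_of_pos hmp _
    have h7 : Q * (m : ℝ) ^ (-(e1 / 2)) ≤ 1 := by
      have := a1.trans (min_le_left _ _)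
      nlinarith
    calc C0 * (C1 * J) / (m * NUMF.P (bA e1 m)) = C0 * (C1 * J) * (1 / (m * NUMF.P (bA e1 m))) := by ring
      _ ≤ C0 * (C1 * J) * (2 * (m : ℝ) ^ (-e1)) := by gcongr
      _ = Q * (m : ℝ) ^ (-(e1 / 2)) * (m : ℝ) ^ (-(e1 / 2)) := by rw [h5, hQ]; ring
      _ ≤ 1 * (m : ℝ) ^ (-(e1 / 2)) := by gcongr
      _ = _ := one_mul _
  · have h4 := inv_mP (m := m) hm1 he1
    have h6 : 0 < (m : ℝ) ^ (-(e1 / 2)) := Real.rpow_pos_of_pos hmp _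
    have h5 : (m : ℝ) ^ (-e1) = (m : ℝ) ^ (-(e1 / 2)) * (m : ℝ) ^ (-(e1 / 2)) := by
      rw [← Real.rpow_add hmp]
      congr 1
      ring
    have h8 : (m : ℝ) ^ (-(e1 / 2)) ≤ 1 := by
      have := a1.trans (min_le_left _ _)
      nlinarith
    have h9 : Q * (m : ℝ) ^ (-(e1 / 2)) ≤ x := by
      have := a1.trans (min_le_right _ _)
      nlinarith
    calc C0 * (C1 * J) / (m * NUMF.P (bA e1 m)) = C0 * (C1 * J) * (1 / (m * NUMF.P (bA e1 m))) := by ring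
      _ ≤ C0 * (C1 * J) * (2 * (m : ℝ) ^ (-e1)) := by gcongr
      _ = Q * (m : ℝ) ^ (-(e1 / 2)) * (m : ℝ) ^ (-(e1 / 2)) := by rw [h5, hQ]; ring
      _ ≤ Q * (m : ℝ) ^ (-(e1 / 2)) * 1 := by
          have := mul_nonneg hQ0 h6.le
          gcongr
      _ ≤ x := by rw [mul_one]; exact h9

/-- the current of the curve -/
theorem cur_etaA {e1 J : ℝ} {m : ℕ} (hm : 1 ≤ m) :
    (fun t => (m : ℝ) * NUMF.P t * etaA e1 J m t) = cur e1 (Tb (Real.log m)) J := by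
  funext t
  rw [mul_comm]
  exact etaA_mul hm t

/-- its derivative -/
theorem hd_curA {e1 J : ℝ} {m : ℕ} (hm : 1 ≤ m) :
    NUAct.hd m (etaA e1 J m) (etaA' e1 J m) = deriv (cur e1 (Tb (Real.log m)) J) := by
  funext t
  have h1 := NUAct.hasDerivAt_hd m (etaA_hasDeriv e1 J m) t
  rw [cur_etaA hm] at h1
  exact h1.deriv.symm

/-- Lipschitz bound -/
theorem lip_curA {e1 : ℝ} (he : 0 < e1) : ∃ C : ℝ, 0 ≤ C ∧ ∀ J : ℝ, 0 ≤ J → ∀ m : ℕ,
    1 ≤ Tb (Real.log m) → ∀ t t', |(m : ℝ) * NUMF.P t * etaA e1 J m t -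
      m * NUMF.P t' * etaA e1 J m t'| ≤ C * J / Tb (Real.log m) * |t - t'| := by
  obtain ⟨C, hC, H⟩ := cur_bound (e := e1) he 1
  refine ⟨C, hC, fun J hJ m hm t t' => ?_⟩
  have hm0 : 1 ≤ m := by
    rcases Nat.eq_zero_or_pos m with h | h
    · subst h
      norm_num [Tb] at hm
    · exact h
  have e1' : ∀ t, (m : ℝ) * NUMF.P t * etaA e1 J m t = cur e1 (Tb (Real.log m)) J t := fun t =>
    congrFun (cur_etaA hm0) t
  rw [e1', e1']
  have hd : Differentiable ℝ (cur e1 (Tb (Real.log m)) J) :=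
    (cur_contDiff (n := (1 : ℕ∞))).differentiable (by simp)
  have h1 := Convex.norm_image_sub_le_of_norm_deriv_le (f := cur e1 (Tb (Real.log m)) J)
    (C := C * J / Tb (Real.log m)) (s := univ) (x := t') (y := t) (fun u _ => hd u)
    (fun u _ => by
      have := H (Tb (Real.log m)) J (by linarith) hJ u
      rwa [iteratedDeriv_one, pow_one] at this) convex_univ (mem_univ _) (mem_univ _)
  simpa [Real.norm_eq_abs] using h1

/-- energy -/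
theorem bil_curA {e1 : ℝ} (he : 0 < e1) (he1 : e1 < 1) : ∃ C : ℝ, 0 ≤ C ∧ ∀ J : ℝ, 0 ≤ J → ∀ m : ℕ,
    1 ≤ Tb (Real.log m) → |NUCR.bil (NUAct.hd m (etaA e1 J m) (etaA' e1 J m))
      (NUAct.hd m (etaA e1 J m) (etaA' e1 J m))| ≤ C * J ^ 2 / Tb (Real.log m) := by
  obtain ⟨C, hC, H⟩ := cur_energy (e := e1) he he1
  refine ⟨C, hC, fun J hJ m hm => ?_⟩
  have hm0 : 1 ≤ m := by
    rcases Nat.eq_zero_or_pos m with h | h
    · subst h
      norm_num [Tb] at hm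
    · exact h
  rw [hd_curA hm0]
  exact H _ J (by linarith) hJ

end NUO
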