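import Pool.Agent.NUO.GasG
import Pool.Agent.NUS4.GDO
import Pool.Agent.NUH0.ShlO
import Pool.Agent.NUC43.SlkC

/-!
# The data of TARGET-A

`inA m e1 J b' B1`: `m` rows, curve `etaA e1 J m`, extra real potential `B1 - b'/2`.  `DatA`: the
one body factors `aA` (with the activity `exp (-b'/2)`) of the configurations of TARGET-A are of the
form required by `DatG` and `NUS4.GD`.
-/

set_option autoImplicit false

noncomputable section

open MeasureTheory Finset Filter Topology
open scoped ENNReal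

namespace NUO

open NUH0 NUStabP NUDispW

/-- the input of TARGET-A -/
def inA (m : ℕ) (e1 J b' : ℝ) (B1 : ℝ → ℝ) : Inp where
  s := m
  η := etaA e1 J m
  η1 := etaA' e1 J m
  A _ _ := 0
  B _ t := B1 t - b' / 2
  ν _ _ := 0

/-- the parameters of TARGET-A -/
theorem parG_par0 (m : ℕ) : ParG m (par0 m) where
  jL := rfl
  e := rfl
  d0 r := (d0_pos r).le
  d1 r := by rw [par0_d, d0_mul]
  r0 r t := (rad0_pos m r t).le
  r1 r t := by
    have h1 := d0_pos r
    have h2 := l_pos0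
    have h4 := log_nn m
    rw [par0_rad, par0_d]
    have h5 := rad0_le1 m r t
    rwa [le_div_iff₀ (by positivity)] at h5

lemma Vn_inA {m : ℕ} {e1 J b' : ℝ} {B1 : ℝ → ℝ} (a : Bool) : Vn (inA m e1 J b' B1) a = fun _ => 0 := by
  funext t
  unfold Vn inA
  simp

/-- **the hypotheses of the instance** -/
theorem exists_iokA {e1 J : ℝ} (he : 0 < e1) (he1 : e1 ≤ 1) (hJ : 0 ≤ J) : ∃ m0 : ℕ, ∀ m ≥ m0,
    ∀ (b' : ℝ) (B1 : ℝ → ℝ), ContDiff ℝ 1 B1 → (∀ t, 0 ≤ B1 t) → (∀ t, B1 t ≤ 1) → ∀ r : ℕ,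
    ∃ (dl ε M : ℝ) (e : ℝ → ℝ), IOk dl ε M ((1 - e1) * Tb (Real.log m)) e (inA m e1 J b' B1) (par0 m) r ∧
      ε ≤ (m : ℝ) ^ (-(e1 / 2)) ∧ M ≤ Real.log m ^ 6 ∧
      dl ≤ 1 / (6000 * ((r : ℝ) + 1) ^ 2) + 3 * (m : ℝ) ^ (-(e1 / 2)) := by
  obtain ⟨m1, H1⟩ := NUS4.cur_A he he1 hJ
  have h1 : Filter.Tendsto (fun m : ℕ => (m : ℝ) ^ (-(e1 / 2))) Filter.atTop (nhds 0) :=
    (tendsto_rpow_neg_atTop (by linarith)).comp tendsto_natCast_atTop_atTop
  have h2 := h1.eventually_le_const (u := 1 / 100) (by norm_num)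
  have h4 := (Real.tendsto_log_atTop.comp tendsto_natCast_atTop_atTop).eventually_ge_atTop (1 : ℝ)
  obtain ⟨m2, hm2⟩ := Filter.eventually_atTop.1 (h2.and h4)
  refine ⟨max m1 m2, fun m hm b' B1 hB hB0 hB1 r => ?_⟩
  obtain ⟨g1, g2⟩ := hm2 m ((le_max_right _ _).trans hm)
  have g2' : 1 ≤ Real.log m := g2
  obtain ⟨ε, M, e, hc, hε, hM⟩ := H1 m ((le_max_left _ _).trans hm)
  have hl := NUMF.l_pos
  have hl3 : 1 ≤ 3 * NUMF.l := by
    unfold NUMF.l
    have := Real.pi_gt_three
    linarith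
  have hl0 : NUP1.l = NUMF.l := rfl
  have hd0 := d0_pos r
  have hd1 := d0_le r
  have hε0 := hc.ε0
  have q1 : ε / NUMF.l ≤ 3 * ε := by
    rw [div_le_iff₀ hl]
    nlinarith
  have q2 : ∀ t, rad0 m r t / NUMF.l ≤ d0 r / 64 := by
    intro t
    rw [div_le_iff₀ hl]
    refine (rad0_le m r t).trans ?_
    rw [hl0]
    have : (0 : ℝ) ≤ r := Nat.cast_nonneg r
    rw [div_le_iff₀ (by positivity)]
    have : 0 ≤ NUMF.l * d0 r := by positivity
    nlinarith
  refine ⟨65 / 64 * d0 r + ε / NUMF.l, ε, M, e, ?_, hε, ?_, ?_⟩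
  · exact
      { s0 := Nat.cast_nonneg m
        b0 := by
          unfold Tb
          have : 0 ≤ 1 - e1 := by linarith
          positivity
        cur := hc
        der := etaA_hasDeriv e1 J m
        ε1 := by linarith
        pg := NUS4.pg_par0 m
        d1 := fun t => by
          have := q2 t
          rw [par0_d, par0_rad]
          linarith
        d2 := by linarith
        Ae := fun a => ⟨fun z _ => differentiableAt_const _, 0, fun z _ => by
          simp [inA]⟩
        Ab := fun a => ⟨0, fun t => by simp [inA]⟩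
        Bc := fun a => hB.sub contDiff_const
        Bb := fun a => ⟨1 + |b' / 2|, fun t => by
          show |B1 t - b' / 2| ≤ _
          have h1 := abs_sub (B1 t) (b' / 2)
          rw [abs_of_nonneg (hB0 t)] at h1
          linarith [hB1 t]⟩
        νc := fun a => continuous_const
        νi := fun a => integrable_zero _ _ _
        νb := fun a => ⟨0, fun t => by simp [inA]⟩
        Vc := fun a => by
          rw [Vn_inA]
          exact contDiff_const }
  · calc M ≤ Real.log m := hM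
      _ ≤ Real.log m ^ 6 := le_self_pow₀ g2' (by norm_num)
  · have q3 : 65 / 64 * d0 r ≤ 1 / (6000 * ((r : ℝ) + 1) ^ 2) := by
      unfold d0
      rw [← mul_one_div (1 : ℝ), ← div_eq_mul_one_div, ]
      have : (0 : ℝ) < ((r : ℝ) + 1) ^ 2 := by positivity
      rw [mul_div_assoc', div_le_div_iff₀ (by positivity) (by positivity)]
      nlinarith
    linarith

/-- the slack is nonnegative -/
lemma slO_nonneg {r : ℕ} (O : Fin r → Xo) (a : Bool) (t : ℝ) : 0 ≤ NUH0.slO O a t := by
  unfold NUH0.slO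
  refine Finset.sum_nonneg fun i _ => ?_
  split_ifs
  · cases kd (O i)
    · exact le_rfl
    · exact le_rfl
    · exact NUC43.slk_nonneg _
    · exact div_nonneg (NUC43.slk_nonneg _) (by norm_num)
    · exact le_rfl
  · exact le_rfl

/-- energy of the extra potential on an interval -/
lemma energy_shift {B B' : ℝ → ℝ} (hB : Continuous B) (hB' : Continuous B')
    (hi : Integrable fun t => B t ^ 2 + B' t ^ 2) {C : ℝ} (hC : (∫ t, B t ^ 2 + B' t ^ 2) ≤ C)
    (c : ℝ) {T : ℝ} (hT : 0 ≤ T) :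
    ∫ t in (-(T + 1))..(T + 1), ((B t - c) ^ 2 + B' t ^ 2) ≤ 2 * C + 4 * c ^ 2 * (T + 1) := by
  have hle : -(T + 1) ≤ T + 1 := by linarith
  have c1 : Continuous fun t => (B t - c) ^ 2 + B' t ^ 2 := by fun_prop
  have c2 : Continuous fun t => 2 * (B t ^ 2 + B' t ^ 2) + 2 * c ^ 2 := by fun_prop
  have h1 : ∫ t in (-(T + 1))..(T + 1), ((B t - c) ^ 2 + B' t ^ 2) ≤
      ∫ t in (-(T + 1))..(T + 1), (2 * (B t ^ 2 + B' t ^ 2) + 2 * c ^ 2) := by
    refine intervalIntegral.integral_mono_on hle (c1.intervalIntegrable _ _)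
      (c2.intervalIntegrable _ _) fun t _ => ?_
    nlinarith [sq_nonneg (B t + c), sq_nonneg (B' t)]
  have h2 : ∫ t in (-(T + 1))..(T + 1), (2 * (B t ^ 2 + B' t ^ 2) + 2 * c ^ 2) =
      2 * (∫ t in (-(T + 1))..(T + 1), (B t ^ 2 + B' t ^ 2)) + 4 * c ^ 2 * (T + 1) := by
    rw [intervalIntegral.integral_add ((hi.const_mul 2).intervalIntegrable) intervalIntegrable_const,
      intervalIntegral.integral_const_mul, intervalIntegral.integral_const, smul_eq_mul]
    ring
  have h3 : ∫ t in (-(T + 1))..(T + 1), (B t ^ 2 + B' t ^ 2) ≤ ∫ t, B t ^ 2 + B' t ^ 2 := by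
    rw [intervalIntegral.integral_of_le hle]
    exact setIntegral_le_integral hi (ae_of_all _ fun t => by positivity)
  linarith

/-- **interface of the data of TARGET-A** -/
def DatA : Prop :=
  ∀ ep : ℝ, 0 < ep → ep ≤ 1 / 100 → ∀ e1 : ℝ, 0 < e1 → e1 ≤ 1 / 100 → ∀ J : ℝ, 0 ≤ J →
    ∃ (k : ℕ) (κ CB w C : ℝ), 0 < κ ∧ 0 ≤ CB ∧ 0 < w ∧ w ≤ 1 / 10 ∧ 0 ≤ C ∧
    ∀ ϑ : ℝ, 0 < ϑ → ∃ d : ℝ, 0 < d ∧ ∃ m0 : ℕ, ∀ m ≥ m0, ∀ b' : ℝ, |b'| ≤ d →
    ∃ B1 : ℝ → ℝ, ContDiff ℝ 1 B1 ∧ (∀ t, 0 ≤ B1 t) ∧ (∀ t, B1 t ≤ 1) ∧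
      Integrable (fun t => m * NUMF.P t * B1 t) ∧ (∫ t, m * NUMF.P t * B1 t) ≤ C ∧
    ∀ n : ℕ, n ≤ 2 * m → ∀ r : ℕ, r ≤ 4 * m → ∀ O : Fin r → Xo,
      chgO O true ≤ n → chgO O false ≤ n →
    ∃ aX aY cf : ℝ → ℝ,
      (∀ t, aX t * cf t = Real.exp (-(b' / 2)) *
        NUBR.aA m (4 / 3 * (1 - ep)) (par0 m) (etaA e1 J m) O true t) ∧
      (∀ t, aY t * cf t = Real.exp (-(b' / 2)) *
        NUBR.aA m (4 / 3 * (1 - ep)) (par0 m) (etaA e1 J m) O false t) ∧
      DatG ep e1 κ CB ϑ k m (inA m e1 J b' B1) (par0 m) O (n - chgO O true) (n - chgO O false)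
        aX aY cf B1 ∧
      ((r : ℝ) ≤ Real.log m → (∀ i, |ht (O i)| ≤ Real.log m ^ 2) →
        NUS4.GD m k κ e1 w m (2 * Real.log m ^ 2) ((1 - e1) * Tb (Real.log m))
          (etaA e1 J m) (etaA' e1 J m) (etaA e1 J m) (etaA' e1 J m)
          (fun t => aX t * cf t) (fun t => aY t * cf t))

theorem datA : DatA := by
  intro ep hep hep1 e1 he he1 J hJ
  obtain ⟨C, hC1, HC⟩ := NUH0.exists_cutB hep hep1
  obtain ⟨Kg, hKg, HG⟩ := NUH0.exists_geo
  have hκ : 0 < e1 / 2 := by linarith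
  refine ⟨6, e1 / 2, 2 * C + 2, ep / 2, C, hκ, by linarith, by linarith, by linarith, by linarith,
    fun ϑ hϑ => ?_⟩
  obtain ⟨d, hd⟩ : ∃ d : ℝ, d = min 1 (ϑ / 2) := ⟨_, rfl⟩
  have hd0 : 0 < d := by
    rw [hd]
    exact lt_min one_pos (by linarith)
  have hd1 : d ≤ 1 := by
    rw [hd]
    exact min_le_left _ _
  have hd2 : d ≤ ϑ / 2 := by
    rw [hd]
    exact min_le_right _ _
  obtain ⟨m1, H1⟩ := exists_iokA he (by linarith) hJ
  obtain ⟨m2, H2⟩ := NUS4.gd_A hep hep1 he (by linarith) hJ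
  have h1 : Filter.Tendsto (fun m : ℕ => (m : ℝ) ^ (-(e1 / 2))) Filter.atTop (nhds 0) :=
    (tendsto_rpow_neg_atTop (by linarith)).comp tendsto_natCast_atTop_atTop
  have h2 := h1.eventually_le_const (u := min (1 / Kg) (1 / 100 * ep)) (by
    have : 0 < Kg := by linarith
    exact lt_min (by positivity) (by positivity))
  obtain ⟨m3, hm3⟩ := Filter.eventually_atTop.1 (h2.and (Filter.eventually_ge_atTop 1))
  refine ⟨d, hd0, max m1 (max m2 m3), fun m hm b' hb' => ?_⟩
  have k1 : m1 ≤ m := (le_max_left _ _).trans hm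
  have k2 : m2 ≤ m := ((le_max_left _ _).trans (le_max_right _ _)).trans hm
  have k3 : m3 ≤ m := ((le_max_right _ _).trans (le_max_right _ _)).trans hm
  obtain ⟨g1, g2⟩ := hm3 m k3
  have g1a : (m : ℝ) ^ (-(e1 / 2)) ≤ 1 / Kg := g1.trans (min_le_left _ _)
  have g1b : (m : ℝ) ^ (-(e1 / 2)) ≤ 1 / 100 * ep := g1.trans (min_le_right _ _)
  have hm0 : (0 : ℝ) ≤ m := Nat.cast_nonneg m
  obtain ⟨B, B', b1, b2, b3, b4, -, -, b7, b8, b9, b10, b11⟩ := HC m g2
  have hB1 : ContDiff ℝ 1 B := b1.of_le (by norm_num)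
  have hB'c : Continuous B' := by
    have h3 : deriv B = B' := funext fun t => (b2 t).deriv
    rw [← h3]
    exact hB1.continuous_deriv le_rfl
  refine ⟨B, hB1, b3, b4, b7, b8, fun n hn r hr O hX hY => ?_⟩
  have hl := NUMF.l_pos
  have hl2 : 2 / 5 ≤ NUMF.l * 11 / 10 := by
    unfold NUMF.l
    have := Real.pi_gt_three
    linarith
  have hl0 : NUP1.l = NUMF.l := rfl
  obtain ⟨dl, ε, M, e, hI, hε, hM, hdl⟩ := H1 m k1 b' B hB1 b3 b4 r
  have hη : ∀ t, |etaA e1 J m t| ≤ ep / 100 := fun t => (hI.eta t).trans (hε.trans (by linarith))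
  have hcut := b11 (etaA e1 J m) (fun t => by
    have := (abs_le.1 (hη t)).1
    rw [hl0]
    nlinarith) (fun t => by
    have := (abs_le.1 (hη t)).2
    rw [hl0]
    linarith)
  have hK0 : 0 < Kg := by linarith
  have hG := HG (O := O) hI (by
    have := hε.trans g1a
    rw [le_div_iff₀ hK0] at this
    linarith)
  have hηc : Continuous (etaA e1 J m) := (etaA_contDiff e1 J m (n := 1)).continuous
  have hshl := NUH0.shl_cut (X := datO (inA m e1 J b' B) (par0 m) O) (c := -(b' / 2)) (m := m)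
    (η := etaA e1 J m) (B := B) hep1 (by linarith : 0 ≤ C) hηc hB1.continuous b3
    (fun t => (hcut t).1) (fun t => (hcut t).2) hG (fun a t => by
      show B t + -(b' / 2) ≤ NUH0.slO O a t + (B t - b' / 2)
      linarith [slO_nonneg O a t])
  have hcf : ∀ a t, NUH0.aF (datO (inA m e1 J b' B) (par0 m) O) (-(b' / 2)) a t *
      NUH0.cfO m (4 / 3 * (1 - ep)) (etaA e1 J m) t =
      Real.exp (-(b' / 2)) * NUBR.aA m (4 / 3 * (1 - ep)) (par0 m) (etaA e1 J m) O a t := by
    intro a t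
    refine NUH0.aF_cfO (δ := 1 / 8) (NUS4.pg_par0 m) (fun t => ?_) (fun t => ?_) O rfl
      (fun a t => rfl) (fun a t => ?_) _ a t
    · have := hη t
      linarith
    · have := hη t
      linarith
    · show (NUO.FO (par0 m) O a _ + 0).re = _
      rw [add_zero]
  refine ⟨_, _, _, fun t => hcf true t, fun t => hcf false t, ?_, fun hr1 hh => ?_⟩
  · exact
      { s1 := by
          show (m : ℝ) / 2 ≤ m
          linarith
        s2 := by
          show (m : ℝ) ≤ 2 * m
          linarith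
        pk := by
          have : ((n - chgO O true : ℕ) : ℝ) ≤ n := by exact_mod_cast Nat.sub_le _ _
          have h5 : (n : ℝ) ≤ 2 * m := by exact_mod_cast hn
          linarith
        nk := by
          have : ((n - chgO O false : ℕ) : ℝ) ≤ n := by exact_mod_cast Nat.sub_le _ _
          have h5 : (n : ℝ) ≤ 2 * m := by exact_mod_cast hn
          linarith
        rk := by
          have h5 : (r : ℝ) ≤ 4 * m := by exact_mod_cast hr
          linarith
        par := parG_par0 m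
        ok := ⟨dl, ε, M, e, hI, hε, hM, hdl⟩
        fld := hI.fld' hX hY
        shl := by
          refine { hshl with
            D0 := by
              have : 0 ≤ C * m := by positivity
              nlinarith
            cD := fun t => (hshl.cD t).trans ?_ }
          have := Real.exp_pos (-(8 / 3 * (1 - ep)) * |t|)
          have h6 : 0 ≤ (m : ℝ) * Real.exp (-(8 / 3 * (1 - ep)) * |t|) := by positivity
          nlinarith
        ν0 := fun a t => by
          show |(0 : ℝ)| ≤ _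
          rw [abs_zero]
          linarith
        ν1 := fun a t _ => by
          show |(0 : ℝ)| ≤ _
          rw [abs_zero]
          have := Real.exp_pos (-(5 / 2 * (|t| - TW ep e1 m)))
          nlinarith
        xi := fun a => by
          have hx : xiO (inA m e1 J b' B) a = fun t => B t - b' / 2 := by
            funext t
            unfold xiO
            rw [Vn_inA]
            simp [inA]
          rw [hx]
          refine ⟨B', fun t => (b2 t).sub_const _, hB'c, fun t => ?_, fun T hT => ?_⟩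
          · have h5 := abs_sub (B t) (b' / 2)
            have h6 : |b' / 2| ≤ 1 / 2 := by
              rw [abs_div, abs_two]
              linarith
            rw [abs_of_nonneg (b3 t)] at h5
            linarith [b4 t]
          · refine (energy_shift hB1.continuous hB'c b9 b10 (b' / 2) hT).trans ?_
            have h6 : b' ^ 2 ≤ d * 1 := by
              rw [← sq_abs]
              have := abs_nonneg b'
              nlinarith
            have h7 : b' ^ 2 * (T + 1) ≤ ϑ * (T + 1) := by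
              refine mul_le_mul_of_nonneg_right ?_ (by linarith)
              linarith
            nlinarith }
  · have hcX : ∀ a, Measurable fun t => NUH0.aF (datO (inA m e1 J b' B) (par0 m) O) (-(b' / 2)) a t *
        NUH0.cfO m (4 / 3 * (1 - ep)) (etaA e1 J m) t := fun a =>
      (NUH0.aF_cont hG _ a).measurable.mul (NUH0.cfO_meas m _ hηc)
    exact H2 m k2 (-(b' / 2)) r O _ _ (by
      rw [abs_neg, abs_div, abs_two]
      linarith) hr1 hh (hcX true) (hcX false) (fun t => hcf true t) fun t => hcf false t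

end NUO
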