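import Pool.Agent.NUO.Act

/-!
# Integrals of the activities ((A1) of the module O5)

`susp_integral`: the activities of the suppressed objects, tilted on the windows of the edge zone.
`flat_integral`: the activities of the flat objects.
-/

open MeasureTheory Finset Filter

noncomputable section

namespace NUO

/-- the windows which meet `T1 ≤ |t| ≤ T2` -/
def Wz (T1 T2 : ℝ) : Finset ℤ :=
  (Finset.Icc (-(⌈T2⌉ + 1)) (⌈T2⌉ + 1)).filter (fun w => T1 - 2 ≤ |(w : ℝ)|)

lemma floor_mem_Wz {T1 T2 t : ℝ} (h1 : T1 ≤ |t|) (h2 : |t| ≤ T2) : ⌊t⌋ ∈ Wz T1 T2 := by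
  have a1 := Int.floor_le t
  have a2 := Int.lt_floor_add_one t
  have a3 := Int.le_ceil T2
  unfold Wz
  rw [Finset.mem_filter, Finset.mem_Icc]
  refine ⟨⟨?_, ?_⟩, ?_⟩
  · have : ((-(⌈T2⌉ + 1) : ℤ) : ℝ) < (⌊t⌋ : ℝ) + 1 := by
      push_cast
      have := (abs_le.mp h2).1
      linarith
    have h3 : (-(⌈T2⌉ + 1) : ℤ) < ⌊t⌋ + 1 := by exact_mod_cast this
    omega
  · have : ((⌊t⌋ : ℤ) : ℝ) ≤ (⌈T2⌉ : ℝ) := by
      have := (abs_le.mp h2).2
      linarith
    have h3 : ⌊t⌋ ≤ ⌈T2⌉ := by exact_mod_cast this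
    omega
  · have h3 : |t| ≤ |(⌊t⌋ : ℝ)| + 1 := by
      have : |t - (⌊t⌋ : ℝ)| ≤ 1 := by
        rw [abs_le]; constructor <;> linarith
      calc |t| = |(⌊t⌋ : ℝ) + (t - ⌊t⌋)| := by ring_nf
        _ ≤ |(⌊t⌋ : ℝ)| + |t - ⌊t⌋| := abs_add_le _ _
        _ ≤ _ := by linarith
    linarith

lemma tilt_of_mem {T1 T2 κ t : ℝ} (h1 : T1 ≤ |t|) (h2 : |t| ≤ T2) :
    tilt (Wz T1 T2) (fun _ => κ) t = κ := by
  unfold tilt
  rw [if_pos (floor_mem_Wz h1 h2)]

lemma tilt_nonneg {W : Finset ℤ} {κ : ℝ} (hκ : 0 ≤ κ) (t : ℝ) : 0 ≤ tilt W (fun _ => κ) t := by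
  unfold tilt
  split_ifs
  · exact hκ
  · exact le_rfl

lemma exp_neg_tilt_le_one {W : Finset ℤ} {κ : ℝ} (hκ : 0 ≤ κ) (t : ℝ) :
    Real.exp (-tilt W (fun _ => κ) t) ≤ 1 := by
  rw [Real.exp_le_one_iff]
  have := tilt_nonneg (W := W) hκ t
  linarith

lemma integrable_abs {f : ℝ → ℝ} (hf : IntegrableOn f (Set.Ioi 0)) :
    Integrable fun t => f |t| := by
  have h1 : IntegrableOn (fun t => f |t|) (Set.Ioi 0) :=
    (integrableOn_congr_fun (fun t ht => by rw [abs_of_pos (Set.mem_Ioi.mp ht)])
      measurableSet_Ioi).mpr hf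
  have h2 : IntegrableOn (fun t => f |t|) (Set.Iic 0) := by
    rw [← Measure.map_neg_eq_self (volume : Measure ℝ)]
    let m : MeasurableEmbedding fun x : ℝ => -x := (Homeomorph.neg ℝ).measurableEmbedding
    rw [m.integrableOn_map_iff]
    simp_rw [Function.comp_def, abs_neg, Set.neg_preimage, Set.neg_Iic, neg_zero]
    exact Iff.mpr integrableOn_Ici_iff_integrableOn_Ioi h1
  rw [← integrableOn_univ, ← Set.Iic_union_Ioi (a := (0 : ℝ))]
  exact h2.union h1

/-- the symmetric tail `exp (-b (|t| - a)_+)` -/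
lemma int_tail {a b : ℝ} (ha : 0 ≤ a) (hb : 0 < b) :
    Integrable (fun t : ℝ => Real.exp (-(b * max (|t| - a) 0))) ∧
      ∫ t : ℝ, Real.exp (-(b * max (|t| - a) 0)) = 2 * a + 2 / b := by
  -- positive half line
  have hA : IntegrableOn (fun t : ℝ => Real.exp (-(b * max (t - a) 0))) (Set.Ioc 0 a) ∧
      ∫ t in Set.Ioc 0 a, Real.exp (-(b * max (t - a) 0)) = a := by
    have h : Set.EqOn (fun t : ℝ => Real.exp (-(b * max (t - a) 0))) (fun _ => (1 : ℝ))
        (Set.Ioc 0 a) := by
      intro t ht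
      have : max (t - a) 0 = 0 := max_eq_right (by linarith [ht.2])
      simp only [this, mul_zero, neg_zero, Real.exp_zero]
    refine ⟨?_, ?_⟩
    · refine (integrableOn_congr_fun h measurableSet_Ioc).mpr ?_
      exact integrableOn_const (by simp) (by simp)
    · rw [setIntegral_congr_fun measurableSet_Ioc h]
      simp [ha]
  have hB : IntegrableOn (fun t : ℝ => Real.exp (-(b * max (t - a) 0))) (Set.Ioi a) ∧
      ∫ t in Set.Ioi a, Real.exp (-(b * max (t - a) 0)) = 1 / b := by
    have h : Set.EqOn (fun t : ℝ => Real.exp (-(b * max (t - a) 0)))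
        (fun t => Real.exp (b * a) * Real.exp (-b * t)) (Set.Ioi a) := by
      intro t ht
      have : max (t - a) 0 = t - a := max_eq_left (by linarith [Set.mem_Ioi.mp ht])
      simp only [this]
      rw [← Real.exp_add]
      congr 1
      ring
    refine ⟨?_, ?_⟩
    · refine (integrableOn_congr_fun h measurableSet_Ioi).mpr ?_
      exact (integrableOn_exp_mul_Ioi (by linarith : -b < 0) a).const_mul _
    · rw [setIntegral_congr_fun measurableSet_Ioi h, integral_const_mul,
        integral_exp_mul_Ioi (by linarith : -b < 0) a]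
      have : Real.exp (b * a) * (-Real.exp (-b * a) / -b) = Real.exp (b * a) *
          Real.exp (-b * a) / b := by ring
      rw [this, ← Real.exp_add]
      have : b * a + -b * a = 0 := by ring
      rw [this, Real.exp_zero]
  have hU : Set.Ioc 0 a ∪ Set.Ioi a = Set.Ioi 0 := Set.Ioc_union_Ioi_eq_Ioi ha
  have hC : IntegrableOn (fun t : ℝ => Real.exp (-(b * max (t - a) 0))) (Set.Ioi 0) := by
    rw [← hU]
    exact hA.1.union hB.1
  have hD : ∫ t in Set.Ioi (0 : ℝ), Real.exp (-(b * max (t - a) 0)) = a + 1 / b := by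
    rw [← hU, setIntegral_union Set.Ioc_disjoint_Ioi_same measurableSet_Ioi hA.1 hB.1, hA.2, hB.2]
  refine ⟨?_, ?_⟩
  · exact integrable_abs (f := fun t : ℝ => Real.exp (-(b * max (t - a) 0))) hC
  · rw [integral_comp_abs (f := fun t : ℝ => Real.exp (-(b * max (t - a) 0))), hD]
    ring

lemma ind_abs (a : ℝ) (ha : 0 ≤ a) : Integrable (fun t : ℝ => if |t| ≤ a then (1 : ℝ) else 0) ∧
    ∫ t : ℝ, (if |t| ≤ a then (1 : ℝ) else 0) = 2 * a := by
  have h : (fun t : ℝ => if |t| ≤ a then (1 : ℝ) else 0) =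
      Set.indicator (Set.Icc (-a) a) (fun _ => (1 : ℝ)) := by
    funext t
    by_cases ht : |t| ≤ a
    · rw [if_pos ht, Set.indicator_of_mem (show t ∈ Set.Icc (-a) a from abs_le.mp ht)]
    · rw [if_neg ht, Set.indicator_of_notMem (show t ∉ Set.Icc (-a) a from
        fun h => ht (abs_le.mpr h))]
  rw [h]
  refine ⟨(integrable_indicator_iff measurableSet_Icc).mpr
    (integrableOn_const (by simp) (by simp)), ?_⟩
  rw [integral_indicator measurableSet_Icc]
  simp
  rw [max_eq_left (by linarith)]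
  ring

/-- the pointwise bound of the tilted activity of the suppressed objects -/
lemma susp_le {C' c b k : ℝ} (hC' : 0 ≤ C') (hc : 0 < c) (hb : 0 < b) (hk : 0 ≤ k)
    {T L Te R : ℝ} (hL : 1 ≤ L) (hR : L ≤ R) {Ψ : ℝ → ℝ} (hΨ0 : ∀ t, 0 ≤ Ψ t)
    (hΨ1 : ∀ t, Ψ t ≤ 1) (hΨ : ∀ t, Ψ t ≤ C' * Real.exp (-(b * (|t| - Te)))) (t : ℝ) :
    Ψ t * Real.exp (k * Real.log R) * Real.exp (-(c * Real.exp (8 / 3 * (T - |t|)))) *
      Real.exp (-tilt (Wz (T - Real.log L) (Te + 2 * (k + 3) / b * Real.log R))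
        (fun _ => (k + 3) * Real.log R) t) ≤
    Real.exp (k * Real.log R - c * L ^ (8 / 3 : ℝ)) * (if |t| ≤ T then (1 : ℝ) else 0) +
      Real.exp (-(3 * Real.log R)) *
        (if |t| ≤ Te + 2 * (k + 3) / b * Real.log R then (1 : ℝ) else 0) +
      C' * (Real.exp (-(3 * Real.log R)) * Real.exp (-(b / 2 * max (|t| - Te) 0))) := by
  have hR1 : 1 ≤ R := hL.trans hR
  have hΛ : 0 ≤ Real.log R := Real.log_nonneg hR1
  have hlL : 0 ≤ Real.log L := Real.log_nonneg hL
  set D := 2 * (k + 3) / b with hD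
  have hD0 : 0 < D := by positivity
  have e0 : 0 ≤ (k + 3) * Real.log R := by positivity
  have x1 : 0 ≤ Real.exp (k * Real.log R - c * L ^ (8 / 3 : ℝ)) * (if |t| ≤ T then (1 : ℝ) else 0) := by
    refine mul_nonneg (Real.exp_pos _).le ?_
    split_ifs <;> norm_num
  have x2 : 0 ≤ Real.exp (-(3 * Real.log R)) *
        (if |t| ≤ Te + D * Real.log R then (1 : ℝ) else 0) := by
    refine mul_nonneg (Real.exp_pos _).le ?_
    split_ifs <;> norm_num
  have x3 : 0 ≤ C' * (Real.exp (-(3 * Real.log R)) * Real.exp (-(b / 2 * max (|t| - Te) 0))) := by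
    positivity
  have y1 : Real.exp (-(c * Real.exp (8 / 3 * (T - |t|)))) ≤ 1 := by
    rw [Real.exp_le_one_iff]
    have := Real.exp_pos (8 / 3 * (T - |t|))
    have : 0 ≤ c * Real.exp (8 / 3 * (T - |t|)) := by positivity
    linarith
  have y2 := exp_neg_tilt_le_one (W := Wz (T - Real.log L) (Te + D * Real.log R)) e0 t
  have p1 := Real.exp_pos (k * Real.log R)
  have p2 := Real.exp_pos (-(c * Real.exp (8 / 3 * (T - |t|))))
  have p3 := Real.exp_pos (-tilt (Wz (T - Real.log L) (Te + D * Real.log R))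
        (fun _ => (k + 3) * Real.log R) t)
  rcases le_or_gt (|t|) (T - Real.log L) with h | h
  · -- bulk
    have h2 : |t| ≤ T := by linarith
    rw [if_pos h2, mul_one]
    have h3 : L ^ (8 / 3 : ℝ) ≤ Real.exp (8 / 3 * (T - |t|)) := by
      rw [Real.rpow_def_of_pos (by linarith), Real.exp_le_exp]
      nlinarith
    have h4 : Real.exp (-(c * Real.exp (8 / 3 * (T - |t|)))) ≤ Real.exp (-(c * L ^ (8 / 3 : ℝ))) := by
      rw [Real.exp_le_exp]
      have := mul_le_mul_of_nonneg_left h3 hc.le
      linarith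
    have h5 : Ψ t * Real.exp (k * Real.log R) * Real.exp (-(c * Real.exp (8 / 3 * (T - |t|)))) *
      Real.exp (-tilt (Wz (T - Real.log L) (Te + D * Real.log R))
        (fun _ => (k + 3) * Real.log R) t) ≤ 1 * Real.exp (k * Real.log R) *
          Real.exp (-(c * L ^ (8 / 3 : ℝ))) * 1 := by
      refine mul_le_mul ?_ y2 p3.le (by positivity)
      refine mul_le_mul ?_ h4 p2.le (by positivity)
      exact mul_le_mul_of_nonneg_right (hΨ1 t) p1.le
    have h6 : 1 * Real.exp (k * Real.log R) * Real.exp (-(c * L ^ (8 / 3 : ℝ))) * 1 =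
        Real.exp (k * Real.log R - c * L ^ (8 / 3 : ℝ)) := by
      rw [one_mul, mul_one, ← Real.exp_add]
      congr 1
    rw [h6] at h5
    linarith
  · rcases le_or_gt (|t|) (Te + D * Real.log R) with h' | h'
    · -- windows
      rw [tilt_of_mem h.le h']
      have h5 : Ψ t * Real.exp (k * Real.log R) * Real.exp (-(c * Real.exp (8 / 3 * (T - |t|)))) *
          Real.exp (-((k + 3) * Real.log R)) ≤ 1 * Real.exp (k * Real.log R) * 1 *
          Real.exp (-((k + 3) * Real.log R)) := by
        refine mul_le_mul_of_nonneg_right ?_ (Real.exp_pos _).le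
        refine mul_le_mul ?_ y1 p2.le (by positivity)
        exact mul_le_mul_of_nonneg_right (hΨ1 t) p1.le
      have h6 : 1 * Real.exp (k * Real.log R) * 1 * Real.exp (-((k + 3) * Real.log R)) =
          Real.exp (-(3 * Real.log R)) := by
        rw [one_mul, mul_one, ← Real.exp_add]
        congr 1
        ring
      rw [h6] at h5
      rw [if_pos h', mul_one]
      linarith
    · -- far
      have h7 : max (|t| - Te) 0 = |t| - Te := by
        refine max_eq_left ?_
        have : 0 ≤ D * Real.log R := by positivity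
        linarith
      have h8 : Ψ t ≤ C' * (Real.exp (-((k + 3) * Real.log R)) *
          Real.exp (-(b / 2 * (|t| - Te)))) := by
        refine (hΨ t).trans (mul_le_mul_of_nonneg_left ?_ hC')
        rw [← Real.exp_add, Real.exp_le_exp]
        have : (k + 3) * Real.log R ≤ b / 2 * (|t| - Te) := by
          have h9 : D * Real.log R ≤ |t| - Te := by linarith
          have h10 := mul_le_mul_of_nonneg_left h9 (by positivity : 0 ≤ b / 2)
          have h11 : b / 2 * (D * Real.log R) = (k + 3) * Real.log R := by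
            rw [hD]; field_simp
          linarith
        linarith
      have h5 : Ψ t * Real.exp (k * Real.log R) * Real.exp (-(c * Real.exp (8 / 3 * (T - |t|)))) *
          Real.exp (-tilt (Wz (T - Real.log L) (Te + D * Real.log R))
            (fun _ => (k + 3) * Real.log R) t) ≤
          C' * (Real.exp (-((k + 3) * Real.log R)) * Real.exp (-(b / 2 * (|t| - Te)))) *
            Real.exp (k * Real.log R) * 1 * 1 := by
        refine mul_le_mul ?_ y2 p3.le (by positivity)
        refine mul_le_mul ?_ y1 p2.le (by positivity)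
        exact mul_le_mul_of_nonneg_right h8 p1.le
      have h6 : C' * (Real.exp (-((k + 3) * Real.log R)) * Real.exp (-(b / 2 * (|t| - Te)))) *
            Real.exp (k * Real.log R) * 1 * 1 =
          C' * (Real.exp (-(3 * Real.log R)) * Real.exp (-(b / 2 * (|t| - Te)))) := by
        rw [mul_one, mul_one, mul_assoc, ← Real.exp_add, ← Real.exp_add, ← Real.exp_add]
        congr 2
        ring
      rw [h6] at h5
      rw [h7]
      linarith


lemma Phi_le_one (C' b T t : ℝ) : Phi C' b T t ≤ 1 := min_le_left _ _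

lemma Phi_le_exp (C' b T t : ℝ) : Phi C' b T t ≤ C' * Real.exp (-(b * (|t| - T))) :=
  min_le_right _ _

lemma Phi_measurable (C' b T : ℝ) : Measurable (Phi C' b T) := by
  unfold Phi
  fun_prop

/-- pointwise bound of the activity of the flat objects -/
lemma flat_le {C' b a Te x : ℝ} (hC' : 0 ≤ C') (hx0 : 0 ≤ x) (haT : a ≤ Te) (t : ℝ) :
    Phi C' b Te t * (if |t| ≤ a then x else 1) ≤
      x * (if |t| ≤ a then (1 : ℝ) else 0) +
        ((if |t| ≤ Te then (1 : ℝ) else 0) - (if |t| ≤ a then (1 : ℝ) else 0)) +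
        C' * (Real.exp (-(b * max (|t| - Te) 0)) - (if |t| ≤ Te then (1 : ℝ) else 0)) := by
  have h1 := Phi_le_one C' b Te t
  have h2 := Phi_le_exp C' b Te t
  have h0 := Phi_nonneg (b := b) (T := Te) (t := t) hC'
  rcases le_or_gt (|t|) a with h | h
  · have h' : |t| ≤ Te := h.trans haT
    have h3 : max (|t| - Te) 0 = 0 := max_eq_right (by linarith)
    rw [if_pos h, if_pos h, if_pos h', h3]
    simp only [mul_zero, neg_zero, Real.exp_zero]
    nlinarith
  · rw [if_neg (not_le.mpr h), if_neg (not_le.mpr h)]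
    rcases le_or_gt (|t|) Te with h' | h'
    · have h3 : max (|t| - Te) 0 = 0 := max_eq_right (by linarith)
      rw [if_pos h', h3]
      simp only [mul_zero, neg_zero, Real.exp_zero]
      linarith
    · have h3 : max (|t| - Te) 0 = |t| - Te := max_eq_left (by linarith)
      rw [if_neg (not_le.mpr h'), h3]
      linarith

/-- **(A1)**: the integral of the activities -/
theorem actInt {C C' c b : ℝ} (hC : 0 ≤ C) (hC' : 0 ≤ C') (hc : 0 < c) (hb : 0 < b) (k : ℕ) :
    ActInt C C' c b k := by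
  set D : ℝ := 2 * ((k : ℝ) + 3) / b with hD
  have hk : (0 : ℝ) ≤ k := Nat.cast_nonneg k
  have hD0 : 0 < D := by positivity
  refine ⟨D, k + 3, C * (2 * C' / b + (1 + 2 * (1 + D) + C' * (1 + 4 / b))),
    max 1 ((3 * k + 1) / c), hD0, by positivity, by positivity, ?_⟩
  intro L hL ep hep0 hep e1 he1 he1' J hJ r hr
  have hL1 : 1 ≤ L := (le_max_left _ _).trans hL
  have hL0 : 0 < L := by linarith
  have hLc : (3 * k + 1) / c ≤ L := (le_max_right _ _).trans hL
  have hr0 : (0 : ℝ) ≤ r := Nat.cast_nonneg r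
  set R : ℝ := (r : ℝ) + L with hR
  have hLR : L ≤ R := by linarith
  have hR1 : 1 ≤ R := hL1.trans hLR
  have hR0 : 0 < R := by linarith
  have hΛ : 0 ≤ Real.log R := Real.log_nonneg hR1
  have hlogR : Real.log R ≤ R := (Real.log_le_sub_one_of_pos hR0).trans (by linarith)
  -- `R ≤ exp (3 L)`
  have hR3 : Real.log R ≤ 3 * L := by
    rw [← Real.log_exp (3 * L)]
    refine Real.log_le_log hR0 ?_
    have e1 : Real.exp (3 * L) = Real.exp (2 * L) * Real.exp L := by
      rw [← Real.exp_add]; congr 1; ring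
    have e2 : L + 1 ≤ Real.exp L := Real.add_one_le_exp L
    have e3 : 1 ≤ Real.exp (2 * L) := Real.one_le_exp (by linarith)
    rw [e1]
    nlinarith
  have hT : Tb L = 3 / 8 * L := rfl
  set T := Tb L with hTdef
  have hT0 : 0 ≤ T := by rw [hT]; positivity
  have h1ep : 0 < 1 - ep := by linarith
  set Te := T / (1 - ep) with hTe
  have hTTe : T ≤ Te := by
    rw [hTe, le_div_iff₀ h1ep]; nlinarith
  have hTe0 : 0 ≤ Te := hT0.trans hTTe
  have hTe2 : Te ≤ T + T * (4 / 3 * ep) := by
    rw [hTe, div_le_iff₀ h1ep]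
    nlinarith [mul_nonneg hT0 hep0, mul_nonneg hep0 (by linarith : 0 ≤ 1 / 4 - ep),
      mul_nonneg (mul_nonneg hT0 hep0) (by linarith : 0 ≤ 1 / 4 - ep)]
  set a := (1 - 3 * e1) * T with ha
  have ha0 : 0 ≤ a := mul_nonneg (by linarith) hT0
  have haT : a ≤ T := by rw [ha]; nlinarith
  set x := Real.exp (-(2 * Real.pi * J)) with hx
  have hx0 : 0 ≤ x := (Real.exp_pos _).le
  have hx1 : x ≤ 1 := by
    rw [hx, Real.exp_le_one_iff]
    have := Real.pi_pos
    have : 0 ≤ 2 * Real.pi * J := by positivity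
    linarith
  have hW : WZ D L r = Wz (T - Real.log L) (T + D * Real.log R) := rfl
  have hlam : lamZ ((k : ℝ) + 3) L r = fun _ => ((k : ℝ) + 3) * Real.log R := rfl
  have hκ : 0 ≤ ((k : ℝ) + 3) * Real.log R := by positivity
  set th : ℝ → ℝ := fun t => Real.exp (-tilt (WZ D L r) (lamZ ((k : ℝ) + 3) L r) t) with hth
  have hth0 : ∀ t, 0 < th t := fun t => Real.exp_pos _
  have hth1 : ∀ t, th t ≤ 1 := by
    intro t
    simp only [hth, hlam]
    exact exp_neg_tilt_le_one hκ t
  have hthm : Measurable th := by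
    simp only [hth]
    exact (Real.measurable_exp.comp (tilt_measurable _ _).neg)
  -- the dominating function
  set g : ℝ → ℝ := fun t =>
    C * (x * (if |t| ≤ a then (1 : ℝ) else 0) +
        ((if |t| ≤ Te then (1 : ℝ) else 0) - (if |t| ≤ a then (1 : ℝ) else 0)) +
        C' * (Real.exp (-(b * max (|t| - Te) 0)) - (if |t| ≤ Te then (1 : ℝ) else 0)) +
      (Real.exp (k * Real.log R - c * L ^ (8 / 3 : ℝ)) * (if |t| ≤ T then (1 : ℝ) else 0) +
        Real.exp (-(3 * Real.log R)) * (if |t| ≤ T + D * Real.log R then (1 : ℝ) else 0) +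
        C' * (Real.exp (-(3 * Real.log R)) * Real.exp (-(b / 2 * max (|t| - T) 0))))) with hg
  have hle : ∀ t, act C C' c b k L ep e1 J r t * th t ≤ g t := by
    intro t
    have f1 := flat_le (C' := C') (b := b) (a := a) (Te := Te) (x := x) hC' hx0
      (haT.trans hTTe) t
    have f2 := susp_le (C' := C') (c := c) (b := b) (k := k) hC' hc hb hk (T := T) (L := L)
      (Te := T) (R := R) hL1 hLR (Ψ := Phi C' b T) (fun t => Phi_nonneg hC')
      (fun t => Phi_le_one _ _ _ t) (fun t => Phi_le_exp _ _ _ t) t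
    have f3 : 0 ≤ Phi C' b Te t * (if |t| ≤ a then x else 1) := by
      refine mul_nonneg (Phi_nonneg hC') ?_
      split_ifs
      · exact hx0
      · exact zero_le_one
    have hpow : R ^ k = Real.exp (k * Real.log R) := by
      rw [Real.exp_nat_mul, Real.exp_log hR0]
    have hact : act C C' c b k L ep e1 J r t * th t =
        C * (Phi C' b Te t * (if |t| ≤ a then x else 1) * th t +
          Phi C' b T t * Real.exp (k * Real.log R) *
            Real.exp (-(c * Real.exp (8 / 3 * (T - |t|)))) * th t) := by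
      unfold act
      rw [← hR, hpow]
      ring
    rw [hact]
    simp only [hg]
    refine mul_le_mul_of_nonneg_left (add_le_add ?_ ?_) hC
    · exact (mul_le_of_le_one_right f3 (hth1 t)).trans f1
    · simp only [hth, hW, hlam]
      exact f2
  have hge : ∀ t, 0 ≤ act C C' c b k L ep e1 J r t * th t := fun t =>
    mul_nonneg (act_nonneg hC hC' hL0.le) (hth0 t).le
  -- integral of `g`
  have i1 := ind_abs a ha0
  have i2 := ind_abs Te hTe0
  have i3 := ind_abs T hT0
  have i4 := ind_abs (T + D * Real.log R) (by positivity)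
  have i5 := int_tail (a := Te) (b := b) hTe0 hb
  have i6 := int_tail (a := T) (b := b / 2) hT0 (by positivity)
  have gi : Integrable g := by
    simp only [hg]
    refine Integrable.const_mul ?_ C
    refine Integrable.add ?_ ?_
    · exact ((i1.1.const_mul x).add (i2.1.sub i1.1)).add ((i5.1.sub i2.1).const_mul C')
    · exact ((i3.1.const_mul _).add (i4.1.const_mul _)).add ((i6.1.const_mul _).const_mul C')
  have gint : ∫ t, g t = C * (x * (2 * a) + (2 * Te - 2 * a) + C' * (2 * Te + 2 / b - 2 * Te) +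
      (Real.exp (k * Real.log R - c * L ^ (8 / 3 : ℝ)) * (2 * T) +
        Real.exp (-(3 * Real.log R)) * (2 * (T + D * Real.log R)) +
        C' * (Real.exp (-(3 * Real.log R)) * (2 * T + 2 / (b / 2))))) := by
    simp only [hg]
    rw [integral_const_mul, integral_add, integral_add, integral_add, integral_const_mul,
      integral_sub i2.1 i1.1, integral_const_mul, integral_sub i5.1 i2.1, integral_add,
      integral_add, integral_const_mul, integral_const_mul, integral_const_mul,
      integral_const_mul, i1.2, i2.2, i3.2, i4.2, i5.2, i6.2]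
    · exact i3.1.const_mul _
    · exact i4.1.const_mul _
    · exact (i3.1.const_mul _).add (i4.1.const_mul _)
    · exact (i6.1.const_mul _).const_mul C'
    · exact i1.1.const_mul x
    · exact i2.1.sub i1.1
    · exact (i1.1.const_mul x).add (i2.1.sub i1.1)
    · exact (i5.1.sub i2.1).const_mul C'
    · exact ((i1.1.const_mul x).add (i2.1.sub i1.1)).add ((i5.1.sub i2.1).const_mul C')
    · exact ((i3.1.const_mul _).add (i4.1.const_mul _)).add ((i6.1.const_mul _).const_mul C')
  have hmeas : AEStronglyMeasurable (fun t => act C C' c b k L ep e1 J r t * th t) volume := by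
    have m1 : Measurable (fun t : ℝ => if |t| ≤ (1 - 3 * e1) * Tb L then
        Real.exp (-(2 * Real.pi * J)) else 1) :=
      Measurable.ite (measurableSet_le (by fun_prop) measurable_const) measurable_const
        measurable_const
    have m2 := Phi_measurable C' b (Tb L / (1 - ep))
    have m3 := Phi_measurable C' b (Tb L)
    have m4 : Measurable (act C C' c b k L ep e1 J r) := by
      unfold act
      fun_prop
    exact (m4.mul hthm).aestronglyMeasurable
  have hint : Integrable (fun t => act C C' c b k L ep e1 J r t * th t) := by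
    refine gi.mono' hmeas (Eventually.of_forall fun t => ?_)
    rw [Real.norm_eq_abs, abs_of_nonneg (hge t)]
    exact hle t
  refine ⟨hint, (integral_mono hint gi hle).trans ?_⟩
  rw [gint]
  -- the three small terms
  have s1 : Real.exp (k * Real.log R - c * L ^ (8 / 3 : ℝ)) * (2 * T) ≤ 1 := by
    have a1 : L ^ (2 : ℝ) ≤ L ^ (8 / 3 : ℝ) :=
      Real.rpow_le_rpow_of_exponent_le hL1 (by norm_num)
    rw [Real.rpow_two] at a1
    have a2 : (3 * (k : ℝ) + 1) * L ≤ c * L ^ 2 := by
      have : (3 * (k : ℝ) + 1) ≤ c * L := by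
        rw [div_le_iff₀ hc] at hLc; linarith
      nlinarith
    have a3 : (k : ℝ) * Real.log R ≤ 3 * k * L := by
      have := mul_le_mul_of_nonneg_left hR3 hk
      linarith
    have a4 : (k : ℝ) * Real.log R - c * L ^ (8 / 3 : ℝ) ≤ -L := by
      have := mul_le_mul_of_nonneg_left a1 hc.le
      nlinarith
    have a5 : 2 * T ≤ Real.exp L := by
      have := Real.add_one_le_exp L
      rw [hT]; linarith
    calc Real.exp (k * Real.log R - c * L ^ (8 / 3 : ℝ)) * (2 * T)
        ≤ Real.exp (-L) * Real.exp L :=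
          mul_le_mul (Real.exp_le_exp.mpr a4) a5 (by positivity) (Real.exp_pos _).le
      _ = 1 := by rw [← Real.exp_add]; simp
  have hR3' : Real.exp (-(3 * Real.log R)) ≤ R⁻¹ := by
    rw [← Real.exp_log (inv_pos.mpr hR0), Real.log_inv, Real.exp_le_exp]
    linarith
  have hTR : T ≤ R := by rw [hT]; linarith
  have hRi : R⁻¹ * R = 1 := inv_mul_cancel₀ hR0.ne'
  have hRi0 : 0 ≤ R⁻¹ := by positivity
  have hRi1 : R⁻¹ ≤ 1 := inv_le_one_of_one_le₀ hR1
  have s2 : Real.exp (-(3 * Real.log R)) * (2 * (T + D * Real.log R)) ≤ 2 * (1 + D) := by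
    calc Real.exp (-(3 * Real.log R)) * (2 * (T + D * Real.log R))
        ≤ R⁻¹ * (2 * (R + D * R)) := by
          refine mul_le_mul hR3' ?_ (by positivity) hRi0
          have := mul_le_mul_of_nonneg_left hlogR hD0.le
          linarith
      _ = R⁻¹ * R * (2 * (1 + D)) := by ring
      _ = _ := by rw [hRi, one_mul]
  have s3 : Real.exp (-(3 * Real.log R)) * (2 * T + 2 / (b / 2)) ≤ 1 + 4 / b := by
    have e4 : 2 / (b / 2) = 4 / b := by field_simp; norm_num
    have hb4 : 0 ≤ 4 / b := by positivity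
    have hT2 : 2 * T ≤ R := by rw [hT]; linarith
    rw [e4]
    calc Real.exp (-(3 * Real.log R)) * (2 * T + 4 / b) ≤ R⁻¹ * (R + 4 / b) :=
          mul_le_mul hR3' (by linarith) (by positivity) hRi0
      _ = R⁻¹ * R + R⁻¹ * (4 / b) := by ring
      _ ≤ 1 + 1 * (4 / b) := by
          rw [hRi]
          have := mul_le_mul_of_nonneg_right hRi1 hb4
          linarith
      _ = _ := by ring
  have s4 : x * (2 * a) + (2 * Te - 2 * a) ≤ (x + 3 * e1 + 3 * ep) * L := by
    have b1 : x * (2 * a) ≤ x * L := by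
      refine mul_le_mul_of_nonneg_left ?_ hx0
      have : a ≤ 3 / 8 * L := by rw [← hT]; exact haT
      linarith
    have b2 : 2 * Te - 2 * a ≤ (3 * e1 + 3 * ep) * L := by
      have : 2 * Te - 2 * a ≤ 2 * T * (4 / 3 * ep) + 2 * (3 * e1) * T := by
        rw [ha]; linarith
      have h7 : 2 * T * (4 / 3 * ep) + 2 * (3 * e1) * T = (ep + 9 / 4 * e1) * L := by
        rw [hT]; ring
      have h8 : (ep + 9 / 4 * e1) * L ≤ (3 * e1 + 3 * ep) * L :=
        mul_le_mul_of_nonneg_right (by linarith) hL0.le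
      linarith
    calc x * (2 * a) + (2 * Te - 2 * a) ≤ x * L + (3 * e1 + 3 * ep) * L := add_le_add b1 b2
      _ = _ := by ring
  have s5 : C' * (2 * Te + 2 / b - 2 * Te) = 2 * C' / b := by ring
  have s6 := mul_le_mul_of_nonneg_left s3 hC'
  have : x * (2 * a) + (2 * Te - 2 * a) + C' * (2 * Te + 2 / b - 2 * Te) +
      (Real.exp (k * Real.log R - c * L ^ (8 / 3 : ℝ)) * (2 * T) +
        Real.exp (-(3 * Real.log R)) * (2 * (T + D * Real.log R)) +
        C' * (Real.exp (-(3 * Real.log R)) * (2 * T + 2 / (b / 2)))) ≤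
      (x + 3 * e1 + 3 * ep) * L + (2 * C' / b + (1 + 2 * (1 + D) + C' * (1 + 4 / b))) := by
    linarith
  calc _ ≤ C * ((x + 3 * e1 + 3 * ep) * L +
        (2 * C' / b + (1 + 2 * (1 + D) + C' * (1 + 4 / b)))) := mul_le_mul_of_nonneg_left this hC
    _ = _ := by ring

end NUO
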