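import Pool.Agent.NUP1.ExactW
import Pool.Agent.NUP.MF.Bulk2
import Pool.Agent.NUF.FINA

/-!
# From the sum of the contour integrals `Z_n` to the numerator bound
-/

set_option autoImplicit false

noncomputable section

open Complex MeasureTheory

namespace NUO

open NUP1 NUP1.Bd NUP1.ExM

/-- the lines `Re u = l / 4` and `Re u = - 1.9 l` -/
theorem lines_std {β : ℝ} (h0 : 0 < β) (h1 : β < 4 / 3) :
    Lines (l / 4) (-(19 / 10) * l) β (3 / 2 * l) := by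
  have hl := NUP1.l_pos
  have hl8 : 8 * l = Real.pi := by unfold l; ring
  have hpi := Real.pi_pos
  refine ⟨⟨h0, by positivity, ?_, ?_⟩, ?_, ?_, ?_, ?_, ?_, ?_, ?_, ?_⟩
  · nlinarith
  · nlinarith
  all_goals linarith

/-- the constant of the one body function -/
def cc : ℂ := -2 * Real.cos l

/-- one body function: `m` rows, cutoff with `M` points -/
def G0 (m M : ℕ) (β : ℝ) (u : ℂ) : ℂ :=
  cc * ((1 / sin u) ^ m * (1 / sin (u - 2 * l)) ^ m * (sin (u + 3 * l) ^ 2) ^ m) *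
    (1 - psi β u ^ M)

/-- the term with `n` quanta of each species -/
def Zn (m M : ℕ) (β : ℝ) (n : ℕ) : ℂ := Z2 (l / 4) (-(19 / 10) * l) n (G0 m M β) (G0 m M β)

theorem GC_zero (c : ℂ) (β : ℝ) (m M : ℕ) :
    GC c β (fun _ : Fin m => 0) (fun _ => 0) (fun _ : Fin M => 0) = fun u =>
      c * ((1 / sin u) ^ m * (1 / sin (u - 2 * l)) ^ m * (sin (u + 3 * l) ^ 2) ^ m) *
        (1 - psi β u ^ M) := by
  funext u
  unfold GC phi
  simp only [sub_zero, Finset.prod_const, Finset.card_univ, Fintype.card_fin, List.map_ofFn,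
    List.prod_ofFn, Function.comp]
  ring

theorem sin_two_l : Complex.sin (2 * l) = 2 * Complex.sin l * Complex.cos l := Complex.sin_two_mul _

/-- the real square root `sigma = 2 sin l` -/
theorem sg_sq : ((2 * Real.sin l : ℝ) : ℂ) ^ 2 = 2 - NUMv.eta + NUMv.eta ^ 3 := by
  have h1 := NUMv.rt_eta
  have h2 : (2 * Real.sin l) ^ 2 = 2 - √2 := by
    have h3 : Real.cos (2 * l) = √2 / 2 := by
      unfold l
      rw [show 2 * (Real.pi / 8) = Real.pi / 4 by ring, Real.cos_pi_div_four]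
    have h4 := Real.cos_two_mul l
    have h5 := Real.sin_sq_add_cos_sq l
    nlinarith
  rw [← Complex.ofReal_pow, h2]
  have : (2 : ℂ) - NUMv.eta + NUMv.eta ^ 3 = 2 - NUMv.rt := by rw [h1]; ring
  rw [this]
  unfold NUMv.rt
  push_cast
  rfl

theorem cc_eq : -2 * sin (2 * l) / ((2 * Real.sin l : ℝ) : ℂ) = cc := by
  have hs : Real.sin l ≠ 0 := by
    apply ne_of_gt
    apply Real.sin_pos_of_pos_of_lt_pi NUP1.l_pos
    unfold l
    linarith [Real.pi_pos]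
  have hs' : (Complex.sin (l : ℂ)) ≠ 0 := by
    rw [← Complex.ofReal_sin]
    exact_mod_cast hs
  unfold cc
  rw [sin_two_l]
  push_cast
  field_simp

/-- **Closing formula**: the disc function of `m + m` equal rows -/
theorem Wd_Zn {β : ℝ} (h0 : 0 < β) (h1 : β < 4 / 3) {om : ℂ} (hom : om ≠ 0) {m M : ℕ} (hM : m ≤ M) :
    (Pool.Agent.NUF.near_WW (om + om⁻¹)).Wd (List.replicate m 1) (List.replicate m 1) =
      (2 - NUMv.rt) ^ m * (4 + 2 * NUMv.rt) ^ (m * (m - 1)) *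
        ∑ n ∈ Finset.range (2 * m + 1), om ^ ((m : ℤ) - n) * Zn m M β n := by
  have hl := NUP1.l_pos
  have h := Wd_eq (lines_std h0 h1) (by linarith) (by linarith) (by linarith) sg_sq hom hM
  rw [h, A0_sq sg_sq, cc_eq, GC_zero]
  rfl

/-- **The bound of the sum of the terms.** -/
def SumZ : Prop := ∀ ε : ℝ, 0 < ε → ∃ C : ℝ, ∀ m : ℕ, 1 ≤ m → ∃ (M : ℕ) (β : ℝ), m ≤ M ∧ 0 < β ∧
  β < 4 / 3 ∧ ∑ n ∈ Finset.range (2 * m + 1), ‖Zn m M β n‖ ≤
    C * (m : ℝ) ^ (3 / 8 + ε) * Real.exp ((m : ℝ) ^ 2 * ∫ s, NUMF.P s * NUMF.v s)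

open Pool.Agent.NUF in
theorem numUp_of (h : SumZ) : NumUp := by
  intro ε hε
  obtain ⟨C, hC⟩ := h ε hε
  refine ⟨C, fun m hm => ?_⟩
  obtain ⟨M, β, hM, h0, h1, hb⟩ := hC m hm
  have e1 := Wd_Zn h0 h1 (om := 1) one_ne_zero hM
  rw [show (1 : ℂ) + 1⁻¹ = 2 by norm_num] at e1
  rw [e1]
  have h2 : (0 : ℝ) < 2 - √2 := by
    have : √2 < 2 := by
      rw [Real.sqrt_lt' (by norm_num)]
      norm_num
    linarith
  have n1 : ‖(2 - NUMv.rt : ℂ) ^ m * (4 + 2 * NUMv.rt) ^ (m * (m - 1))‖ =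
      (2 - √2) ^ m * (4 + 2 * √2) ^ (m * (m - 1)) := by
    have : (2 - NUMv.rt : ℂ) ^ m * (4 + 2 * NUMv.rt) ^ (m * (m - 1)) =
        (((2 - √2) ^ m * (4 + 2 * √2) ^ (m * (m - 1)) : ℝ) : ℂ) := by
      unfold NUMv.rt
      push_cast
      rfl
    rw [this, Complex.norm_real, Real.norm_of_nonneg (by positivity)]
  rw [norm_mul, n1]
  have n2 : ‖∑ n ∈ Finset.range (2 * m + 1), (1 : ℂ) ^ ((m : ℤ) - n) * Zn m M β n‖ ≤
      ∑ n ∈ Finset.range (2 * m + 1), ‖Zn m M β n‖ := by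
    refine (norm_sum_le _ _).trans (le_of_eq ?_)
    refine Finset.sum_congr rfl fun n _ => ?_
    rw [one_zpow, one_mul]
  have n3 := NUMF.bulk_match m
  have n4 : (2 / Real.pi ^ 2) ^ m * (Real.pi ^ 2 * (1 - NUMF.r)) ^ m = (2 - √2) ^ m := by
    rw [← mul_pow]
    congr 1
    unfold NUMF.r
    field_simp
  have n5 : bulk m = (2 - √2) ^ m * (4 + 2 * √2) ^ (m * (m - 1)) *
      Real.exp ((m : ℝ) ^ 2 * ∫ s, NUMF.P s * NUMF.v s) := by
    unfold bulk
    rw [← n3, mul_assoc ((4 + 2 * √2) ^ (m * (m - 1))), n4]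
    ring
  rw [n5]
  calc _ ≤ (2 - √2) ^ m * (4 + 2 * √2) ^ (m * (m - 1)) *
        (C * (m : ℝ) ^ (3 / 8 + ε) * Real.exp ((m : ℝ) ^ 2 * ∫ s, NUMF.P s * NUMF.v s)) :=
        mul_le_mul_of_nonneg_left (n2.trans hb) (by positivity)
    _ = _ := by ring

end NUO

end
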