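import Pool.Agent.NUO.Asm
import Pool.Agent.NUO.GasSum
import Pool.Agent.NUO.Top

/-!
# Sum over the configurations and the final reduction (module O6)

`conf_sum`: sum over the number `r` of objects and integral over the configurations.
`ConfBd`: the statement which collects sections 2, 3, 4 for one configuration;
`sumZ_of_confBd : ConfBd → SumZ`.
-/

set_option autoImplicit false

open MeasureTheory Finset Filter
open scoped ENNReal

noncomputable section

namespace NUO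

lemma Phi_meas_c (C' b T : ℝ) : Measurable (Phi C' b T) := by
  unfold Phi
  fun_prop

lemma act_measurable (C C' c b : ℝ) (k : ℕ) (L ep e1 J : ℝ) (r : ℕ) :
    Measurable (act C C' c b k L ep e1 J r) := by
  unfold act
  have h1 := Phi_meas_c C' b (Tb L / (1 - ep))
  have h2 := Phi_meas_c C' b (Tb L)
  have h3 : Measurable fun t : ℝ =>
      if |t| ≤ (1 - 3 * e1) * Tb L then Real.exp (-(2 * Real.pi * J)) else (1 : ℝ) :=
    Measurable.ite (measurableSet_le (by fun_prop) (by fun_prop)) measurable_const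
      measurable_const
  fun_prop

/-- **sum over the configurations.** -/
theorem conf_sum {C c b c1 c' : ℝ} {k : ℕ} (hC : 0 < C) (hc1 : 0 < c1) (hc' : 0 ≤ c')
    {δ : ℝ} (hδ : 0 < δ) :
    ∃ a0 : ℝ, 0 < a0 ∧ ∀ C' : ℝ, 0 ≤ C' → ActInt C C' c b k → ∃ D L0 : ℝ, 0 < D ∧
      ∀ L ≥ L0, ∀ ep : ℝ, 0 ≤ ep → ep ≤ 1 / 4 →
      ∀ e1 : ℝ, 0 < e1 → e1 ≤ 1 / 4 → ∀ J : ℝ, 0 ≤ J →
      Real.exp (-(2 * Real.pi * J)) + 3 * e1 + 3 * ep ≤ a0 →
      ∀ M : ℝ, 0 ≤ M → ∀ R : ℕ, (R : ℝ) ≤ Real.exp (2 * L) →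
      ∀ F : (r : ℕ) → (Fin r → Xo) → ℝ≥0∞,
      (∀ r < R, ∀ O, F r O ≤ ENNReal.ofReal
        ((if (r : ℝ) ≤ L then M else M * Real.exp (c' * L)) *
          (∏ i, act C C' c b k L ep e1 J r (ht (O i))) *
          Real.exp (-(c1 * ∑ w ∈ WZ D L r, (cnt (fun i => ht (O i)) w : ℝ) ^ 2)))) →
      ∑ r ∈ range R, ((r.factorial : ℕ) : ℝ≥0∞)⁻¹ * ∫⁻ O, F r O ∂(Measure.pi fun _ => nu) ≤
        ENNReal.ofReal (M * Real.exp (δ * L)) := by
  obtain ⟨a, ha, hcore⟩ := sum_core hc' hδ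
  refine ⟨a / 2 / (10 * C), by positivity, fun C' hC' hAct => ?_⟩
  obtain ⟨D, k', C3, LA, hD, hC3, hA⟩ := act_sum hC hC' hc1 ha
    (show 0 < δ / 2 by linarith) 10 hAct
  obtain ⟨LS, hS⟩ := hcore C3 hC3
  refine ⟨D, max (max LA LS) 0, hD, fun L hL ep hep hep' e1 he1 he1' J hJ hsm M hM R hR
    F hF => ?_⟩
  have l1 : LA ≤ L := ((le_max_left _ _).trans (le_max_left _ _)).trans hL
  have l2 : LS ≤ L := ((le_max_right _ _).trans (le_max_left _ _)).trans hL
  have l3 : 0 ≤ L := (le_max_right _ _).trans hL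
  have hsm' : ((10 : ℕ) : ℝ) * C * (Real.exp (-(2 * Real.pi * J)) + 3 * e1 + 3 * ep) ≤ a / 2 := by
    rw [le_div_iff₀ (by positivity)] at hsm
    push_cast
    linarith
  have hAr := hA L l1 ep hep hep' e1 he1 he1' J hJ hsm'
  have hrR : ∀ r < R, (r : ℝ) ≤ Real.exp (2 * L) := fun r hr =>
    le_trans (by exact_mod_cast hr.le) hR
  set A : ℕ → ℝ := fun r => ((10 : ℕ) : ℝ) * ∫ t, act C C' c b k L ep e1 J r t *
    Real.exp (-tilt (WZ D L r) (lamZ k' L r) t) with hAdef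
  set Mr : ℕ → ℝ := fun r => if (r : ℝ) ≤ L then M else M * Real.exp (c' * L) with hMrdef
  have hMr0 : ∀ r, 0 ≤ Mr r := by
    intro r
    simp only [hMrdef]
    split_ifs
    · exact hM
    · positivity
  have hA0 : ∀ r < R, 0 ≤ A r := fun r hr =>
    mul_nonneg (Nat.cast_nonneg _) (hAr r (hrR r hr)).2.1
  have hsum := hS L l2 M hM R A (cost D k' c1 L)
    (fun r => if r < R then Mr r * Real.exp (cost D k' c1 L r) * (A r ^ r / (r.factorial : ℝ))
      else 0) hA0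
    (fun r hr => (hAr r (hrR r hr)).2.2.1) (fun r hr h => (hAr r (hrR r hr)).2.2.2.1 h)
    (fun r hr h => (hAr r (hrR r hr)).2.2.2.2 h) (fun r hr => by rw [if_pos hr])
  refine le_trans ?_ (ENNReal.ofReal_le_ofReal hsum)
  rw [ENNReal.ofReal_sum_of_nonneg (fun r hr => by
    rw [if_pos (mem_range.1 hr)]
    have := hA0 r (mem_range.1 hr)
    have := hMr0 r
    positivity)]
  refine Finset.sum_le_sum fun r hr => ?_
  have hr' := mem_range.1 hr
  rw [if_pos hr']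
  obtain ⟨hi, hI0, -, -, -⟩ := hAr r (hrR r hr')
  have hk := lintegral_conf_le (act C C' c b k L ep e1 J r) (act_measurable _ _ _ _ _ _ _ _ _ _)
    (WZ D L r) (lamZ k' L r) hc1 (hMr0 r) (fun t => act_nonneg hC.le hC' l3) hi (F r) (hF r hr')
  refine (mul_le_mul_right hk _).trans ?_
  have e1 : (((r.factorial : ℕ) : ℝ≥0∞))⁻¹ = ENNReal.ofReal ((r.factorial : ℝ)⁻¹) := by
    rw [ENNReal.ofReal_inv_of_pos (by positivity), ENNReal.ofReal_natCast]
  rw [e1, ← ENNReal.ofReal_mul (by positivity)]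
  refine ENNReal.ofReal_le_ofReal (le_of_eq ?_)
  simp only [hAdef]
  unfold cost
  push_cast
  ring

end NUO
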