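import Pool.Agent.NUO.Glue
import Pool.Agent.NUO.OneAct
import Pool.Agent.NUO.StabC
import Pool.Agent.NUO.Par0
import Pool.Agent.NUO.SlackN

/-!
# Section 4 of the text: the gas in the presence of the objects (statement)

`S4`: for every configuration `O` of at most `4 m` objects and every number `n ≤ 2 m` of quanta the
positive gas on the curve `A'` (tilted by `exp (± d (m - n))`) is at most
`Cst * MF m * m^(3/8 + ..) * exp (∑ one body exponents + energy of the densities + small)`.
-/

set_option autoImplicit false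

noncomputable section

open MeasureTheory Finset
open scoped ENNReal

namespace NUO

open NUStabP NUDispW

/-- the exponent of an object: mean field, slack, winding, far factor -/
def oneE (P : Par) (m : ℕ) (e1 J T' : ℝ) {r : ℕ} (O : Fin r → Xo) (i : Fin r) : ℝ :=
  m * mfo (cons P O i) + m * slkK NUSlk.slk (kd (O i)) (ht (O i)) -
    2 * Real.pi * wK (kd (O i)) * NUCUR.cur e1 (Tb (Real.log m)) J (ht (O i)) +
      exc T' (ht (O i))

/-- end of the windows: `(1 + 2 e1 + 2 ep) T` -/
def TW (ep e1 : ℝ) (m : ℕ) : ℝ := (1 + 2 * e1 + 2 * ep) * Tb (Real.log m)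

/-- the exponent of a configuration: one body exponents, `K` per object, energy of the densities,
`kap` times the sum of the squares of the numbers of objects in the unit windows -/
def confE (P : Par) (m : ℕ) (e1 J T' K kap : ℝ) {r : ℕ} (O : Fin r → Xo) : ℝ :=
  ∑ i, oneE P m e1 J T' O i + K * r + enC O + kap * win univ (fun i => ht (O i))

/-- **S4** (section 4 of the text): the gas in the presence of the objects, one number of quanta -/
def S4 : Prop :=
  ∃ K Ca c' : ℝ, 0 ≤ K ∧ 0 ≤ Ca ∧ 0 ≤ c' ∧ ∀ kap : ℝ, 0 < kap →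
    ∀ ep : ℝ, 0 < ep → ep ≤ 1 / 100 → ∀ e1 : ℝ, 0 < e1 → e1 ≤ 1 / 100 → ∀ J : ℝ, 0 ≤ J →
    ∀ δ : ℝ, 0 < δ → ∃ d Cst : ℝ, 0 < d ∧ 0 ≤ Cst ∧ ∃ m0 : ℕ, ∀ m ≥ m0,
      ∀ n ≤ 2 * m, ∀ b' : ℝ, b' = d ∨ b' = -d → ∀ r ≤ 4 * m, ∀ O : Fin r → Xo,
      chgO O true ≤ n → chgO O false ≤ n →
        ENNReal.ofReal (Real.exp (b' * (m - n))) *
          Z1 m (4 / 3 * (1 - ep)) (par0 m) (etaA e1 J m) (etaA' e1 J m) O
            (n - chgO O true) (n - chgO O false) ≤
          ENNReal.ofReal (Cst * MF m * (m : ℝ) ^ (3 / 8 + Ca * (ep + e1) + δ) *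
            (if (r : ℝ) ≤ Real.log m then 1 else Real.exp (c' * Real.log m)) *
            Real.exp (confE (par0 m) m e1 J (TW ep e1 m) K kap O))

end NUO
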