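import Pool.Agent.NUO.LSum
import Pool.Agent.NUO.ActInt

/-!
# O5, final form (contract [I5] of proof/NU_ABS)
-/

open MeasureTheory Finset Filter
open scoped ENNReal

noncomputable section

namespace NUO

/-- **[I5]**, object space `Xo`, unconditional.  `C, c, b, c1, c', k` are absolute constants, `δ` is
given; `a0` comes out; then `ep` (cutoff), `e1`, `J` with
`exp (-2 π J) + 3 e1 + 3 ep ≤ a0`, the cutoff constant `C'`, and then `L ≥ L0`. -/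
theorem xo_sum {C c b c1 c' : ℝ} (k : ℕ) (hC : 0 < C) (hc : 0 < c) (hb : 0 < b) (hc1 : 0 < c1)
    (hc' : 0 ≤ c') {δ : ℝ} (hδ : 0 < δ) :
    ∃ a0 : ℝ, 0 < a0 ∧ ∀ C' : ℝ, 0 ≤ C' → ∃ D L0 : ℝ, 0 < D ∧
      ∀ L ≥ L0, ∀ ep : ℝ, 0 ≤ ep → ep ≤ 1 / 4 →
      ∀ e1 : ℝ, 0 < e1 → e1 ≤ 1 / 4 → ∀ J : ℝ, 0 ≤ J →
      Real.exp (-(2 * Real.pi * J)) + 3 * e1 + 3 * ep ≤ a0 →
      ∀ M : ℝ, 0 ≤ M → ∀ R : ℕ, (R : ℝ) ≤ Real.exp (2 * L) →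
      ∀ F : (r : ℕ) → (Fin r → Xo) → ℝ≥0∞,
      (∀ r < R, ∀ O, F r O ≤ ENNReal.ofReal ((if (r : ℝ) ≤ L then M else M * Real.exp (c' * L)) *
          (∏ i, act C C' c b k L ep e1 J r (ht (O i))) *
          Real.exp (-(c1 * ∑ w ∈ WZ D L r, (cnt (fun i => ht (O i)) w : ℝ) ^ 2)))) →
      ∑ r ∈ range R, ((r.factorial : ℝ≥0∞))⁻¹ * ∫⁻ O, F r O ∂(Measure.pi fun _ : Fin r => nu) ≤
        ENNReal.ofReal (M * Real.exp (δ * L)) := by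
  obtain ⟨a0, ha0, h⟩ := xo_sum_of (C := C) (c := c) (b := b) (k := k) hC hc1 hc' hδ
  exact ⟨a0, ha0, fun C' hC' => h C' hC' (actInt hC.le hC' hc hb k)⟩

/-- **[I5]**, contents of kinds with all positions in `ℝ`, unconditional -/
theorem gas_sum {C c b c1 c' : ℝ} (k : ℕ) (hC : 0 < C) (hc : 0 < c) (hb : 0 < b) (hc1 : 0 < c1)
    (hc' : 0 ≤ c') (NK : ℕ) {δ : ℝ} (hδ : 0 < δ) :
    ∃ a0 : ℝ, 0 < a0 ∧ ∀ C' : ℝ, 0 ≤ C' → ∃ D L0 : ℝ, 0 < D ∧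
      ∀ L ≥ L0, ∀ ep : ℝ, 0 ≤ ep → ep ≤ 1 / 4 →
      ∀ e1 : ℝ, 0 < e1 → e1 ≤ 1 / 4 → ∀ J : ℝ, 0 ≤ J →
      Real.exp (-(2 * Real.pi * J)) + 3 * e1 + 3 * ep ≤ a0 →
      ∀ (K : Type) [Fintype K] [DecidableEq K], Fintype.card K ≤ NK → ∀ M : ℝ, 0 ≤ M →
      ∀ R : ℕ, (R : ℝ) ≤ Real.exp (2 * L) →
      ∀ G : (n : K → ℕ) → ((i : Σ κ : K, Fin (n κ)) → ℝ) → ℝ, (∀ n x, 0 ≤ G n x) →
      (∀ r < R, ∀ n ∈ piAntidiag (univ : Finset K) r, ∀ x, G n x ≤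
        (if (r : ℝ) ≤ L then M else M * Real.exp (c' * L)) *
          (∏ i, act C C' c b k L ep e1 J r (x i)) *
          Real.exp (-(c1 * ∑ w ∈ WZ D L r, (cnt x w : ℝ) ^ 2))) →
      ∑ r ∈ range R, ∑ n ∈ piAntidiag (univ : Finset K) r,
        (∏ κ, ((n κ).factorial : ℝ)⁻¹) * ∫ x, G n x ≤ M * Real.exp (δ * L) := by
  obtain ⟨a0, ha0, h⟩ := gas_sum_of (C := C) (c := c) (b := b) (k := k) hC hc1 hc' NK hδ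
  exact ⟨a0, ha0, fun C' hC' => h C' hC' (actInt hC.le hC' hc hb k)⟩

end NUO
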