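import Pool.Agent.NUO.Obj
import Pool.Agent.NUP1.Basic
import Pool.Agent.NUP.MF.StrPsi
import Pool.Agent.NUP.MF.Weights

/-!
# One body weights of the objects in the mean field (part O1 of proof/NU_ABS_3, [3.4])

`mfo x = ∫ P (log ppN true + log ppN false)` is the interaction of the object `x` with the cloud of
one row pair.  Exact formulas for `RN`, `mfo`, and the bounds of `ob1 * exp (m * mfo)` for every
kind.
-/

set_option autoImplicit false

noncomputable section

open Complex MeasureTheory Set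

namespace NUO

open NUP1

theorem l_eq : NUMF.l = l := rfl

/-! ### the pair functions of `NUP1` and of `NUMF` -/

theorem q_bridge (z : ℂ) : q z = NUMF.q z := by
  have h1 := NUMF.cosm_fac z
  have h2 := NUMF.cos2_fac z
  rw [l_eq] at h1 h2
  have e1 : sin (z + 2 * l) = cos (z - 2 * l) := by
    rw [show z + 2 * (l : ℂ) = (z - 2 * l) + (Real.pi / 2 : ℝ) by unfold l; push_cast; ring]
    push_cast
    exact Complex.sin_add_pi_div_two _
  have e2 : sin (z - 2 * l) = -cos (z + 2 * l) := by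
    rw [show z - 2 * (l : ℂ) = (z + 2 * l) - (Real.pi / 2 : ℝ) by unfold l; push_cast; ring]
    push_cast
    exact Complex.sin_sub_pi_div_two _
  unfold q NUMF.q
  rw [h1, h2, e1, e2, ← neg_div]
  rw [show -(sin z ^ 2 * (2 * (cos (z + 2 * l) * cos (z - 2 * l)))) =
    (-2) * -(sin z ^ 2 * cos (z - 2 * l) * -cos (z + 2 * l)) by ring,
    mul_div_mul_left _ _ (by norm_num : (-2 : ℂ) ≠ 0)]

theorem qg_bridge (z : ℂ) : Bd.qg z = NUMF.qg z := by
  have h1 := NUMF.cosp_fac z
  rw [l_eq] at h1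
  have e1 : sin (z + 3 * l) = cos (z - l) := by
    rw [show z + 3 * (l : ℂ) = (z - l) + (Real.pi / 2 : ℝ) by unfold l; push_cast; ring]
    push_cast
    exact Complex.sin_add_pi_div_two _
  have e2 : sin (z - 3 * l) = -cos (z + l) := by
    rw [show z - 3 * (l : ℂ) = (z + l) - (Real.pi / 2 : ℝ) by unfold l; push_cast; ring]
    push_cast
    exact Complex.sin_sub_pi_div_two _
  unfold Bd.qg NUMF.qg
  rw [h1, e1, e2, show (2 * (cos (z + l) * cos (z - l))) ^ 2 =
    4 * (cos (z - l) ^ 2 * (-cos (z + l)) ^ 2) by ring, mul_div_mul_left _ _ (by norm_num : (4 : ℂ) ≠ 0)]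

/-! ### row factor -/

/-- `log` of the row factor of a quantum at offset `j` -/
def rf (j t : ℝ) : ℝ := NUMF.h t (j * l) - NUMF.ro j t

/-- the clouds of one row pair -/
def clo (j t : ℝ) : ℝ := (∫ s, NUMF.P s * NUMF.lq j (t - s)) + ∫ s, NUMF.P s * NUMF.lqg j (t - s)

theorem mf_split (j t : ℝ) : NUMF.mf j t = rf j t + clo j t := by
  unfold NUMF.mf rf clo
  rw [l_eq]
  ring

theorem sin_vl_ne {x : ℝ} (hx : Real.sin x ≠ 0) (t : ℝ) : sin ((x : ℂ) + t * I) ≠ 0 := by
  intro h0
  rw [Complex.sin_add, Complex.sin_mul_I, Complex.cos_mul_I] at h0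
  have h1 := congrArg Complex.re h0
  have e : (sin (x : ℂ) * cosh (t : ℂ) + cos (x : ℂ) * (sinh (t : ℂ) * I)).re =
      Real.sin x * Real.cosh t := by
    rw [← Complex.ofReal_sin, ← Complex.ofReal_cos, ← Complex.ofReal_cosh, ← Complex.ofReal_sinh,
      ← Complex.ofReal_mul, Complex.add_re, Complex.ofReal_re, ← mul_assoc, ← Complex.ofReal_mul,
      Complex.re_ofReal_mul, Complex.I_re, mul_zero, add_zero]
  rw [e] at h1
  simp only [zero_re, mul_eq_zero] at h1
  rcases h1 with h1 | h1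
  · exact hx h1
  · exact (Real.cosh_pos t).ne' h1

theorem RN_eq {j : ℝ} (h0 : 0 ≤ j) (h1 : j ≠ 1) (h4 : j < 4) (m : ℕ) (t : ℝ) :
    RN m (vl ((1 - j) * l) t) = 2 * Real.cos l * Real.exp (m * rf j t) := by
  have hl := l_pos
  have hpi : 8 * l = Real.pi := by unfold l; ring
  have n1 : Real.sin ((4 - j) * l) ≠ 0 := by
    refine (Real.sin_pos_of_pos_of_lt_pi (by nlinarith) (by nlinarith)).ne'
  have n2 : Real.sin ((1 - j) * l) ≠ 0 := by
    rcases lt_or_gt_of_ne h1 with h | h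
    · exact (Real.sin_pos_of_pos_of_lt_pi (by nlinarith) (by nlinarith)).ne'
    · have := Real.sin_pos_of_pos_of_lt_pi (x := -((1 - j) * l)) (by nlinarith) (by nlinarith)
      rw [Real.sin_neg] at this
      linarith
  have n3 : Real.sin ((-1 - j) * l) ≠ 0 := by
    have := Real.sin_pos_of_pos_of_lt_pi (x := -((-1 - j) * l)) (by nlinarith) (by nlinarith)
    rw [Real.sin_neg] at this
    linarith
  have m1 := sin_vl_ne n1 t
  have m2 := sin_vl_ne n2 t
  have m3 := sin_vl_ne n3 t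
  have l1 := NUMF.log_norm_sin m1
  have l2 := NUMF.log_norm_sin m2
  have l3 := NUMF.log_norm_sin m3
  rw [l_eq] at l1 l2 l3
  have e1 : vl ((1 - j) * l) t + 3 * l = (((4 - j) * l : ℝ) : ℂ) + t * I := by
    unfold vl; push_cast; ring
  have e2 : vl ((1 - j) * l) t = (((1 - j) * l : ℝ) : ℂ) + t * I := rfl
  have e3 : vl ((1 - j) * l) t - 2 * l = (((-1 - j) * l : ℝ) : ℂ) + t * I := by
    unfold vl; push_cast; ring
  unfold RN
  rw [e1, e3, e2]
  have p1 := norm_pos_iff.2 m1
  have p2 := norm_pos_iff.2 m2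
  have p3 := norm_pos_iff.2 m3
  have key : ‖sin ((((4 - j) * l : ℝ) : ℂ) + t * I)‖ ^ 2 / (‖sin ((((1 - j) * l : ℝ) : ℂ) + t * I)‖ *
      ‖sin ((((-1 - j) * l : ℝ) : ℂ) + t * I)‖) = Real.exp (rf j t) := by
    rw [← Real.exp_log (show 0 < ‖sin ((((4 - j) * l : ℝ) : ℂ) + t * I)‖ ^ 2 /
      (‖sin ((((1 - j) * l : ℝ) : ℂ) + t * I)‖ * ‖sin ((((-1 - j) * l : ℝ) : ℂ) + t * I)‖) by positivity),
      Real.log_div (by positivity) (by positivity), Real.log_mul p2.ne' p3.ne', Real.log_pow]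
    congr 1
    unfold rf NUMF.ro
    have r1 := NUMF.h_refl t (5 - j)
    rw [l_eq] at r1 ⊢
    rw [show 4 * l - (4 - j) * l = j * l by ring] at l1
    rw [show 4 * l - (1 - j) * l = (8 - (5 - j)) * l by ring, r1] at l2
    rw [show 4 * l - (-1 - j) * l = (8 - (3 - j)) * l by ring] at l3
    have r2 := NUMF.h_refl t (3 - j)
    rw [l_eq] at r2
    rw [r2] at l3
    simp only [Nat.cast_ofNat]
    linarith
  rw [key, ← Real.exp_nat_mul]

/-! ### clouds -/

/-- logarithm of the interaction of the constituents `B` with a quantum of each species at `z` -/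
def lpL (B : List (Bool × Bool × ℂ)) (z : ℂ) : ℝ :=
  Real.log (ppN [(true, false, z)] B) + Real.log (ppN [(false, false, z)] B)

/-- interaction of the constituents `B` with the clouds of one row pair -/
def mfo (B : List (Bool × Bool × ℂ)) : ℝ := ∫ t, NUMF.P t * lpL B (vl l t)

theorem ppN_single (a : Bool × Bool × ℂ) (B : List (Bool × Bool × ℂ)) :
    ppN [a] B = (B.map fun b => ‖pp a b‖).prod := by simp [ppN]

/-- `v` is the interaction of `B` with the clouds -/
structure Cloud (B : List (Bool × Bool × ℂ)) (v : ℝ) : Prop where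
  int : Integrable fun t => NUMF.P t * lpL B (vl l t)
  val : mfo B = v
  ne : ∀ᵐ t : ℝ, ∀ s, ppN [(s, false, vl l t)] B ≠ 0

theorem Cloud.nil : Cloud [] 0 := by
  have h : ∀ z, lpL [] z = 0 := fun z => by simp [lpL, ppN]
  refine ⟨by simp [h], by simp [mfo, h], Filter.Eventually.of_forall fun t s => by simp [ppN]⟩

theorem Cloud.cons {b : Bool × Bool × ℂ} {B : List (Bool × Bool × ℂ)} {v v' : ℝ} (hb : Cloud [b] v)
    (hB : Cloud B v') : Cloud (b :: B) (v + v') := by
  have e : ∀ᵐ t : ℝ, lpL (b :: B) (vl l t) = lpL [b] (vl l t) + lpL B (vl l t) := by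
    filter_upwards [hb.ne, hB.ne] with t h1 h2
    have e1 : ∀ s, Real.log (ppN [(s, false, vl l t)] (b :: B)) =
        Real.log (ppN [(s, false, vl l t)] [b]) + Real.log (ppN [(s, false, vl l t)] B) := by
      intro s
      rw [← Real.log_mul (h1 s) (h2 s), ppN_single, ppN_single, ppN_single, List.map_cons,
        List.prod_cons, List.map_singleton, List.prod_singleton]
    unfold lpL
    rw [e1, e1]
    ring
  have e' : (fun t => NUMF.P t * lpL (b :: B) (vl l t)) =ᵐ[volume]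
      fun t => NUMF.P t * lpL [b] (vl l t) + NUMF.P t * lpL B (vl l t) := by
    filter_upwards [e] with t ht
    rw [ht, mul_add]
  refine ⟨(hb.int.add hB.int).congr e'.symm, ?_, ?_⟩
  · unfold mfo
    rw [integral_congr_ae e', integral_add hb.int hB.int, ← hb.val, ← hB.val]
    rfl
  · filter_upwards [hb.ne, hB.ne] with t h1 h2 s
    rw [ppN_single, List.map_cons, List.prod_cons]
    have h1' := h1 s
    have h2' := h2 s
    rw [ppN_single, List.map_singleton, List.prod_singleton] at h1'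
    rw [ppN_single] at h2'
    exact mul_ne_zero h1' h2'

theorem lq_neg (j t : ℝ) : NUMF.lq j (-t) = NUMF.lq j t := by
  unfold NUMF.lq NUMF.ro
  simp only [NUMF.h_neg_left]

theorem lqg_neg (j t : ℝ) : NUMF.lqg j (-t) = NUMF.lqg j t := by
  unfold NUMF.lqg
  simp only [NUMF.h_neg_left]

theorem pp_false (s σ ty : Bool) (z u : ℂ) : pp (s, false, z) (σ, ty, u) =
    if s = σ then Kn.pz false ty (z - u) else Kn.cz false ty (z - u) := rfl

theorem lpL_single (σ ty : Bool) (z u : ℂ) : lpL [(σ, ty, u)] z =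
    Real.log ‖Kn.pz false ty (z - u)‖ + Real.log ‖Kn.cz false ty (z - u)‖ := by
  unfold lpL
  rw [ppN_single, ppN_single]
  cases σ <;> simp [pp_false, add_comm]

/-- constituent: general principle -/
theorem Cloud.of {σ ty : Bool} {u : ℂ} {f g : ℝ → ℝ} {τ : ℝ}
    (h1 : ∀ t : ℝ, t ≠ τ → Kn.pz false ty (vl l t - u) ≠ 0 ∧
      Real.log ‖Kn.pz false ty (vl l t - u)‖ = f t)
    (h2 : ∀ t : ℝ, t ≠ τ → Kn.cz false ty (vl l t - u) ≠ 0 ∧
      Real.log ‖Kn.cz false ty (vl l t - u)‖ = g t)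
    (hf : Integrable fun t => NUMF.P t * f t) (hg : Integrable fun t => NUMF.P t * g t) :
    Cloud [(σ, ty, u)] ((∫ t, NUMF.P t * f t) + ∫ t, NUMF.P t * g t) := by
  have ht : ∀ᵐ t : ℝ, t ≠ τ := by
    have : ({τ} : Set ℝ)ᶜ ∈ ae (volume : Measure ℝ) := compl_mem_ae_iff.2 (by simp)
    filter_upwards [this] with t ht using ht
  have e : (fun t => NUMF.P t * lpL [(σ, ty, u)] (vl l t)) =ᵐ[volume]
      fun t => NUMF.P t * f t + NUMF.P t * g t := by
    filter_upwards [ht] with t ht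
    rw [lpL_single, (h1 t ht).2, (h2 t ht).2, mul_add]
  refine ⟨(hf.add hg).congr e.symm, ?_, ?_⟩
  · unfold mfo
    rw [integral_congr_ae e, integral_add hf hg]
  · filter_upwards [ht] with t ht s
    rw [ppN_single, List.map_singleton, List.prod_singleton, pp_false]
    split_ifs
    · exact norm_ne_zero_iff.2 (h1 t ht).1
    · exact norm_ne_zero_iff.2 (h2 t ht).1

theorem vl_sub (j t τ : ℝ) : vl l t - vl ((1 - j) * l) τ = NUMF.zj j (t - τ) := by
  unfold vl NUMF.zj
  rw [l_eq]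
  push_cast
  ring

/-- the cloud of a quantum at offset `j` -/
theorem good_quantum (σ : Bool) (j τ : ℝ) : Cloud [(σ, false, vl ((1 - j) * l) τ)] (clo j τ) := by
  have i1 := NUMF.int_lq j τ
  have i2 := NUMF.int_lqg j τ
  have h := Cloud.of (σ := σ) (ty := false) (u := vl ((1 - j) * l) τ) (τ := τ)
    (f := fun t => NUMF.lq j (τ - t)) (g := fun t => NUMF.lqg j (τ - t)) (fun t ht => ?_)
    (fun t ht => ?_) i1.1 i2.1
  · exact h
  · have := NUMF.log_q (j := j) (sub_ne_zero.2 ht)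
    rw [vl_sub]
    change q _ ≠ 0 ∧ Real.log ‖q _‖ = _
    rw [q_bridge]
    refine ⟨this.1, this.2.trans ?_⟩
    rw [← lq_neg, neg_sub]
  · have := NUMF.log_qg (j := j) (sub_ne_zero.2 ht)
    rw [vl_sub]
    change Bd.qg _ ≠ 0 ∧ Real.log ‖Bd.qg _‖ = _
    rw [qg_bridge]
    refine ⟨this.1, this.2.trans ?_⟩
    rw [← lqg_neg, neg_sub]

theorem zj_l (j t : ℝ) : NUMF.zj j t + l = NUMF.zj (j + 1) t := by
  have := NUMF.zj_add j t 1
  rw [one_mul, l_eq] at this
  exact this

/-- the cloud of a string at offset `j` (quanta at `j` and `j + 1`) -/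
theorem good_string (σ : Bool) (j τ : ℝ) :
    Cloud [(σ, true, vl ((1 - j) * l) τ)] (clo j τ + clo (j + 1) τ) := by
  have i1 := NUMF.int_lq j τ
  have i2 := NUMF.int_lqg j τ
  have i3 := NUMF.int_lq (j + 1) τ
  have i4 := NUMF.int_lqg (j + 1) τ
  have j1 : Integrable fun t => NUMF.P t * (NUMF.lq j (τ - t) + NUMF.lq (j + 1) (τ - t)) := by
    refine (i1.1.add i3.1).congr (Filter.Eventually.of_forall fun t => ?_)
    simp only [Pi.add_apply]
    ring
  have j2 : Integrable fun t => NUMF.P t * (NUMF.lqg j (τ - t) + NUMF.lqg (j + 1) (τ - t)) := by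
    refine (i2.1.add i4.1).congr (Filter.Eventually.of_forall fun t => ?_)
    simp only [Pi.add_apply]
    ring
  have h := Cloud.of (σ := σ) (ty := true) (u := vl ((1 - j) * l) τ) (τ := τ)
    (f := fun t => NUMF.lq j (τ - t) + NUMF.lq (j + 1) (τ - t))
    (g := fun t => NUMF.lqg j (τ - t) + NUMF.lqg (j + 1) (τ - t)) (fun t ht => ?_)
    (fun t ht => ?_) j1 j2
  · have e : clo j τ + clo (j + 1) τ =
        (∫ t, NUMF.P t * (NUMF.lq j (τ - t) + NUMF.lq (j + 1) (τ - t))) +
        ∫ t, NUMF.P t * (NUMF.lqg j (τ - t) + NUMF.lqg (j + 1) (τ - t)) := by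
      simp only [mul_add]
      rw [integral_add i1.1 i3.1, integral_add i2.1 i4.1]
      unfold clo
      ring
    rw [e]
    exact h
  · have hne := sub_ne_zero.2 ht
    have k1 := NUMF.log_q (j := j) hne
    have k2 := NUMF.log_q (j := j + 1) hne
    rw [← q_bridge] at k1 k2
    rw [vl_sub]
    change q1 _ ≠ 0 ∧ Real.log ‖q1 _‖ = _
    have hz := zj_l j (t - τ)
    have n0 := NUMF.zsin_ne (j := j) hne
    have n1 := NUMF.zsin_ne (j := j + 1) hne
    have n2 := NUMF.zsin_ne (j := j + 2) hne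
    have n3 := NUMF.zsin_ne (j := j + -1) hne
    have e2 := NUMF.zj_add j (t - τ) 2
    have e3 := NUMF.zj_add j (t - τ) (-1)
    rw [l_eq] at e2 e3
    rw [← hz] at n1 k2
    rw [← e2] at n2
    rw [← e3] at n3
    have hq := q1_eq n0 n1 (by
      rw [sub_eq_add_neg]
      convert n3 using 3
      push_cast
      ring) (by
      convert n2 using 3
      push_cast
      ring)
    rw [← hq, norm_mul, Real.log_mul (norm_ne_zero_iff.2 k1.1) (norm_ne_zero_iff.2 k2.1), k1.2, k2.2]
    refine ⟨mul_ne_zero k1.1 k2.1, ?_⟩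
    rw [← lq_neg, neg_sub, ← lq_neg (j + 1), neg_sub]
  · have hne := sub_ne_zero.2 ht
    have k1 := NUMF.log_qg (j := j) hne
    have k2 := NUMF.log_qg (j := j + 1) hne
    rw [← qg_bridge] at k1 k2
    rw [vl_sub]
    change Bd.qg _ * Bd.qg _ ≠ 0 ∧ Real.log ‖Bd.qg _ * Bd.qg _‖ = _
    rw [← zj_l] at k2
    rw [norm_mul, Real.log_mul (norm_ne_zero_iff.2 k1.1) (norm_ne_zero_iff.2 k2.1), k1.2, k2.2]
    refine ⟨mul_ne_zero k1.1 k2.1, ?_⟩
    rw [← lqg_neg, neg_sub, ← lqg_neg (j + 1), neg_sub]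

end NUO
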