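import Pool.Agent.NUO.Wind
import Pool.Agent.NUO.OneB
import Pool.Agent.NUAct.Bfin
import Pool.Agent.NUAct.CKe
import Pool.Agent.NUCR.Bil

/-!
# The constant of the action of the transported two species gas

Both species on the same path `ζ = t + i η`, current `h = s P η`, `B = s (P(ζ) ζ' - P) = i h' + ..`.
Objects: `F_X + F_Y = ∑ (fq (j c) (z - τ c) + fg (j c) (z - τ c)) + Ψ`.  Then

`S = s ∑ clo (j c) (τ c) + ∫ s P Re Ψ - 2 π ∑ wnu (j c) h (t0 c) + <h', V * h'> - Re ∫ B Ψ(ζ) + small`.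
-/

set_option autoImplicit false

open MeasureTheory Set Filter Topology Complex

namespace NUSEv

open NUMF NUKer NUAct

noncomputable section

variable {s ε M b δ : ℝ} {e η η1 : ℝ → ℝ} {Fe : Bool → ℂ → ℂ}

/-! ### the path -/

lemma le0 (h : Cur s ε M b e η) (t : ℝ) : |η t| ≤ e t := by
  have := h.oc.le t
  rwa [iD, norm_mul, Complex.norm_I, mul_one, Complex.norm_real, Real.norm_eq_abs] at this

lemma le1 (h : Cur s ε M b e η) (h1 : ∀ t, HasDerivAt η (η1 t) t) (t : ℝ) : |η1 t| ≤ e t := by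
  have := (h.oc1 h1).le t
  rwa [iD, norm_mul, Complex.norm_I, mul_one, Complex.norm_real, Real.norm_eq_abs] at this

lemma out0 (h : Cur s ε M b e η) {t : ℝ} (ht : b < |t|) : η t = 0 := by
  have := le0 h t
  rw [h.supp t ht] at this
  exact abs_nonpos_iff.1 this

lemma odisp (h : Cur s ε M b e η) (h1 : ∀ t, HasDerivAt η (η1 t) t) : NUO.Disp ε η η1 where
  der := h1
  cont := by
    have h2 := (h.oc1 h1).cont
    have h3 : Continuous fun t => (iD η1 t).im := Complex.continuous_im.comp h2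
    refine h3.congr fun t => ?_
    simp [iD]
  supp := by
    refine HasCompactSupport.intro (K := Icc (-b) b) isCompact_Icc fun t ht => out0 h ?_
    rw [mem_Icc, ← abs_le, not_le] at ht
    exact ht
  le t := (le0 h t).trans (h.le t)
  dle t := (le1 h h1 t).trans (h.le t)

lemma cur_le (h : Cur s ε M b e η) (hs : 0 ≤ s) (t : ℝ) : |s * P t * η t| ≤ M := by
  have hp := (P_pos t).le
  rw [abs_mul, abs_of_nonneg (mul_nonneg hs hp)]
  exact (mul_le_mul_of_nonneg_left (le0 h t) (mul_nonneg hs hp)).trans (h.mass t)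

/-- the path, strip of half width `β` -/
lemma path_of {β : ℝ} (h : Cur s ε M b e η) (hs : 0 ≤ s) (h1 : ∀ t, HasDerivAt η (η1 t) t)
    (hε : ε ≤ 1 / 20) (hβ : ε ≤ β) : Path β (1 / 2) 2 (zt (iD η)) (zd (iD η1)) := by
  obtain ⟨η2, D, -⟩ := h.disp' hs h1
  have P' := D.path hε
  refine ⟨P'.der, P'.cont, fun t => ?_, P'.dle, P'.c_pos, P'.c_le, P'.mono, P'.near⟩
  have e1 : (zt (iD η) t).im = η t := by simp [zt, iD]
  rw [e1]
  exact ((le0 h t).trans (h.le t)).trans hβ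

/-- the gas: both species on the path `t + i η` -/
abbrev gs (s : ℝ) (η η1 : ℝ → ℝ) (Fe : Bool → ℂ → ℂ) : Gas Bool :=
  two s (fun _ => zt (iD η)) (fun _ => zd (iD η1)) Fe

lemma gs_B (a : Bool) (t : ℝ) : (gs s η η1 Fe).B a t = Bf s (iD η) (iD η1) t := rfl

lemma gs_Fh (a : Bool) (t : ℝ) : (gs s η η1 Fe).Fh a t = Fe a (zt (iD η) t) := rfl

lemma gs_F (a : Bool) (t : ℝ) : (gs s η η1 Fe).F a t = Fe a t := rfl

lemma gs_rho (a : Bool) (t : ℝ) : (gs s η η1 Fe).ρ a t = s * P t := rfl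

lemma zt_eq (η : ℝ → ℝ) (t : ℝ) : zt (iD η) t = NUO.zt η t := rfl

lemma Bf_Bd (s : ℝ) (η η1 : ℝ → ℝ) (t : ℝ) : Bf s (iD η) (iD η1) t = NUO.Bd s η η1 t := by
  unfold Bf NUO.Bd
  rw [zt_eq]
  unfold zd iD
  push_cast
  ring

/-- the sum of the interactions of one species -/
def Q (s : ℝ) (η η1 : ℝ → ℝ) (Fe : Bool → ℂ → ℂ) (t : ℝ) : ℂ :=
  (gs s η η1 Fe).KB true true t + (gs s η η1 Fe).KB true false t

lemma sum_KB (a : Bool) (t : ℝ) : ∑ d, (gs s η η1 Fe).KB a d t = Q s η η1 Fe t := by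
  rw [Fintype.sum_bool]
  cases a
  · rw [add_comm]
    rfl
  · rfl

/-! ### the three parts of `S` -/

lemma gs_ok (hδ1 : δ ≤ 1 / 2) (h : Cur s ε M b e η) (hs : 0 ≤ s) (h1 : ∀ t, HasDerivAt η (η1 t) t)
    (hε : ε ≤ 1 / 20) (hβ : ε ≤ δ * l / 2) (hF : ∀ a, Ext (δ * l / 2) (Fe a)) :
    (gs s η η1 Fe).Ok := by
  have hl := l_pos
  exact two_ok s (b := δ * l / 2) (c := 1 / 2) (B := 2) (by nlinarith)
    (fun _ => path_of h hs h1 hε hβ) hF

lemma int_BQ (hok : (gs s η η1 Fe).Ok) :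
    Integrable fun t => Bf s (iD η) (iD η1) t * Q s η η1 Fe t := by
  have h1 := ((hok.p2 true true).add (hok.p2 true false)).integral_prod_left
  refine h1.congr (Eventually.of_forall fun t => ?_)
  simp only [Pi.add_apply]
  have e1 : ∀ d t', (gs s η η1 Fe).B true t * (gs s η η1 Fe).K true d t t' * (gs s η η1 Fe).B d t' =
      (gs s η η1 Fe).B true t * ((gs s η η1 Fe).K true d t t' * (gs s η η1 Fe).B d t') := by
    intro d t'
    ring
  simp_rw [e1]
  rw [integral_add ((hok.iB true true t).const_mul _) ((hok.iB true false t).const_mul _),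
    integral_const_mul, integral_const_mul, ← mul_add]
  rfl

/-- decomposition of `S` -/
lemma S_eq (hok : (gs s η η1 Fe).Ok) : (gs s η η1 Fe).S =
    (∫ t, s * P t * (Fe true t + Fe false t).re) -
      (∫ t, Bf s (iD η) (iD η1) t * (Fe true (zt (iD η) t) + Fe false (zt (iD η) t))).re -
      (∫ t, Bf s (iD η) (iD η1) t * Q s η η1 Fe t).re := by
  unfold Gas.S
  have iBQ : ∀ a d, Integrable fun t => (gs s η η1 Fe).B a t * (gs s η η1 Fe).KB a d t := by
    intro a d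
    have h1 := (hok.p2 a d).integral_prod_left
    refine h1.congr (Eventually.of_forall fun t => ?_)
    simp only
    have e1 : ∀ t', (gs s η η1 Fe).B a t * (gs s η η1 Fe).K a d t t' * (gs s η η1 Fe).B d t' =
        (gs s η η1 Fe).B a t * ((gs s η η1 Fe).K a d t t' * (gs s η η1 Fe).B d t') := by
      intro t'
      ring
    simp_rw [e1]
    rw [integral_const_mul]
    rfl
  have iBF : ∀ a, Integrable fun t => (gs s η η1 Fe).B a t * (gs s η η1 Fe).Fh a t := by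
    intro a
    refine ((hok.j6 a).sub (hok.j5 a)).congr (Eventually.of_forall fun t => ?_)
    simp only [Pi.sub_apply, Gas.B]
    ring
  have e1 : ∑ a, ∑ d, (∫ t, (gs s η η1 Fe).B a t * (gs s η η1 Fe).KB a d t) =
      2 * ∫ t, Bf s (iD η) (iD η1) t * Q s η η1 Fe t := by
    have e2 : ∀ a, ∑ d, (∫ t, (gs s η η1 Fe).B a t * (gs s η η1 Fe).KB a d t) =
        ∫ t, Bf s (iD η) (iD η1) t * Q s η η1 Fe t := by
      intro a
      rw [Fintype.sum_bool, ← integral_add (iBQ a true) (iBQ a false)]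
      refine integral_congr_ae (Eventually.of_forall fun t => ?_)
      simp only
      rw [← mul_add, gs_B, ← sum_KB (Fe := Fe) a t, Fintype.sum_bool]
    simp_rw [e2]
    rw [Fintype.sum_bool]
    ring
  have e3 : ∑ a, (∫ t, (gs s η η1 Fe).B a t * (gs s η η1 Fe).Fh a t) =
      ∫ t, Bf s (iD η) (iD η1) t * (Fe true (zt (iD η) t) + Fe false (zt (iD η) t)) := by
    rw [Fintype.sum_bool, ← integral_add (iBF true) (iBF false)]
    refine integral_congr_ae (Eventually.of_forall fun t => ?_)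
    simp only
    rw [mul_add]
    rfl
  have e4 : (∑ a, ∫ t, ((gs s η η1 Fe).ρ a t : ℂ) * (gs s η η1 Fe).F a t).re =
      ∫ t, s * P t * (Fe true t + Fe false t).re := by
    rw [Fintype.sum_bool, ← integral_add (hok.j4 true) (hok.j4 false)]
    have i4 := (hok.j4 true).add (hok.j4 false)
    have e5 := integral_re i4
    simp only [Pi.add_apply, RCLike.re_to_complex] at e5
    rw [← e5]
    refine integral_congr_ae (Eventually.of_forall fun t => ?_)
    simp only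
    rw [gs_rho, gs_rho, gs_F, gs_F, ← mul_add, Complex.re_ofReal_mul]
  rw [e1, e3, Complex.sub_re, Complex.sub_re, e4]
  congr 1
  have e6 : (1 / 2 : ℂ) * (2 * ∫ t, Bf s (iD η) (iD η1) t * Q s η η1 Fe t) =
      ∫ t, Bf s (iD η) (iD η1) t * Q s η η1 Fe t := by ring
  rw [e6]


/-! ### the double integral -/

lemma arith_dbl {C0 K1 K2 k0 b R M ε E0 Z : ℝ} (hC0' : 0 < C0) (hK1' : 0 < K1) (hK2' : 0 < K2)
    (hk0 : 0 < k0) (hb : 0 ≤ b) (hR : R = b + 1) (hM0 : 0 ≤ M) (hε0 : 0 ≤ ε) (hε20 : ε ≤ 1 / 20)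
    (hE0 : E0 = k0 * (C0 * (M * ε)) + 2 * b * ((K1 * R ^ 7 * ε + K2 * R ^ 6 * ε) * (C0 * M)))
    (hZ : Z = 2 * (C0 * (k0 * C0 + 2 * (K1 + K2) * C0) + k0 * C0 ^ 2 +
      C0 * (k0 * C0 + 2 * (K1 + K2) * C0))) :
    2 * b * (C0 * M * E0 + C0 * (M * ε) * (k0 * (C0 * M)) + C0 * (M * ε) * E0) ≤
      (20 + K1 + K2 + Z) * R ^ 9 * M ^ 2 * ε := by
  have hR1 : 1 ≤ R := by linarith
  have hbR : b ≤ R := by linarith
  have hR0 : 0 ≤ R := by linarith
  have hR8' : 1 ≤ R ^ 8 := one_le_pow₀ hR1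
  have hε8 : ε ≤ R ^ 8 * ε := le_mul_of_one_le_left hε0 hR8'
  obtain ⟨a0, ha0⟩ : ∃ a0 : ℝ, a0 = k0 * C0 + 2 * (K1 + K2) * C0 := ⟨_, rfl⟩
  have ha00 : 0 ≤ a0 := by rw [ha0]; positivity
  obtain ⟨W, hW⟩ : ∃ W : ℝ, W = R ^ 8 * ε := ⟨_, rfl⟩
  have hW0 : 0 ≤ W := by rw [hW]; positivity
  rw [← hW] at hε8
  have hE00 : 0 ≤ E0 := by rw [hE0]; positivity
  have hE1 : E0 ≤ a0 * (M * W) := by
    have t1 : k0 * (C0 * (M * ε)) ≤ k0 * C0 * (M * W) := by
      calc k0 * (C0 * (M * ε)) = k0 * C0 * (M * ε) := by ring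
        _ ≤ _ := by gcongr
    have t2 : 2 * b * ((K1 * R ^ 7 * ε + K2 * R ^ 6 * ε) * (C0 * M)) ≤
        2 * (K1 + K2) * C0 * (M * W) := by
      have h67 : R ^ 6 ≤ R ^ 7 := pow_le_pow_right₀ hR1 (by norm_num)
      have h3 : K2 * R ^ 6 * ε ≤ K2 * R ^ 7 * ε := by gcongr
      calc 2 * b * ((K1 * R ^ 7 * ε + K2 * R ^ 6 * ε) * (C0 * M)) ≤
          2 * R * ((K1 * R ^ 7 * ε + K2 * R ^ 7 * ε) * (C0 * M)) := by gcongr
        _ = _ := by rw [hW]; ring
    rw [hE0, ha0]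
    linarith
  have u1 : C0 * M * E0 ≤ C0 * a0 * (M ^ 2 * W) := by
    calc C0 * M * E0 ≤ C0 * M * (a0 * (M * W)) := by gcongr
      _ = _ := by ring
  have u2 : C0 * (M * ε) * (k0 * (C0 * M)) ≤ k0 * C0 ^ 2 * (M ^ 2 * W) := by
    calc C0 * (M * ε) * (k0 * (C0 * M)) = k0 * C0 ^ 2 * (M ^ 2 * ε) := by ring
      _ ≤ _ := by gcongr
  have u3 : C0 * (M * ε) * E0 ≤ C0 * a0 * (M ^ 2 * W) := by
    have hM1 : M * ε ≤ M := by nlinarith
    calc C0 * (M * ε) * E0 ≤ C0 * M * E0 := by gcongr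
      _ ≤ _ := u1
  have hY : 0 ≤ R ^ 9 * M ^ 2 * ε := by positivity
  have hs : C0 * M * E0 + C0 * (M * ε) * (k0 * (C0 * M)) + C0 * (M * ε) * E0 ≤
      C0 * a0 * (M ^ 2 * W) + k0 * C0 ^ 2 * (M ^ 2 * W) + C0 * a0 * (M ^ 2 * W) := by linarith
  have hs0 : 0 ≤ C0 * a0 * (M ^ 2 * W) + k0 * C0 ^ 2 * (M ^ 2 * W) + C0 * a0 * (M ^ 2 * W) := by
    positivity
  calc 2 * b * (C0 * M * E0 + C0 * (M * ε) * (k0 * (C0 * M)) + C0 * (M * ε) * E0) ≤
      2 * b * (C0 * a0 * (M ^ 2 * W) + k0 * C0 ^ 2 * (M ^ 2 * W) + C0 * a0 * (M ^ 2 * W)) :=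
        mul_le_mul_of_nonneg_left hs (by positivity)
    _ ≤ 2 * R * (C0 * a0 * (M ^ 2 * W) + k0 * C0 ^ 2 * (M ^ 2 * W) + C0 * a0 * (M ^ 2 * W)) :=
        mul_le_mul_of_nonneg_right (by linarith) hs0
    _ = Z * (R ^ 9 * M ^ 2 * ε) := by
        rw [hZ, hW, ha0]
        ring
    _ ≤ (20 + K1 + K2 + Z) * (R ^ 9 * M ^ 2 * ε) :=
        mul_le_mul_of_nonneg_right (by linarith) hY
    _ = _ := by ring

/-- **the double integral** -/
theorem exists_dbl : ∃ C : ℝ, 1 ≤ C ∧ ∀ {s ε M b : ℝ} {e η η1 : ℝ → ℝ} {Fe : Bool → ℂ → ℂ},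
    0 ≤ s → Cur s ε M b e η → (∀ t, HasDerivAt η (η1 t) t) → 0 ≤ b → C * (b + 1) ^ 7 * ε ≤ 1 →
    (gs s η η1 Fe).Ok →
    |-(∫ t, Bf s (iD η) (iD η1) t * Q s η η1 Fe t).re -
      NUCR.bil (hd s η η1) (hd s η η1)| ≤ C * (b + 1) ^ 9 * M ^ 2 * ε := by
  obtain ⟨C0, hC0, H0⟩ := exists_BB
  obtain ⟨K1, hK1, H1⟩ := exists_own
  obtain ⟨K2, hK2, H2⟩ := exists_cross
  have hk0 := NUCR.kap0_pos
  refine ⟨20 + K1 + K2 + 2 * (C0 * (NUCR.kap0 * C0 + 2 * (K1 + K2) * C0) + NUCR.kap0 * C0 ^ 2 +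
    C0 * (NUCR.kap0 * C0 + 2 * (K1 + K2) * C0)), ?_, ?_⟩
  · have : 0 ≤ 2 * (C0 * (NUCR.kap0 * C0 + 2 * (K1 + K2) * C0) + NUCR.kap0 * C0 ^ 2 +
      C0 * (NUCR.kap0 * C0 + 2 * (K1 + K2) * C0)) := by positivity
    linarith
  intro s ε M b e η η1 Fe hs h h1 hb hsm hok
  have hC0' : 0 < C0 := by linarith
  have hK1' : 0 < K1 := by linarith
  have hK2' : 0 < K2 := by linarith
  set Z : ℝ := 2 * (C0 * (NUCR.kap0 * C0 + 2 * (K1 + K2) * C0) + NUCR.kap0 * C0 ^ 2 +
    C0 * (NUCR.kap0 * C0 + 2 * (K1 + K2) * C0)) with hZ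
  have hZ0 : 0 ≤ Z := by positivity
  have hε0 := h.ε0
  have hM0 := h.M0 hs
  set R : ℝ := b + 1 with hR
  have hR1 : 1 ≤ R := by linarith
  have hR7 : 1 ≤ R ^ 7 := one_le_pow₀ hR1
  have hX : 0 ≤ R ^ 7 * ε := by positivity
  have hεX : ε ≤ R ^ 7 * ε := le_mul_of_one_le_left hε0 hR7
  have hsm' : (20 + K1 + K2 + Z) * (R ^ 7 * ε) ≤ 1 := by
    refine le_trans (le_of_eq ?_) hsm
    ring
  have hε20 : ε ≤ 1 / 20 := by nlinarith [mul_nonneg hK1'.le hX, mul_nonneg hK2'.le hX, mul_nonneg hZ0 hX]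
  have s1 : K1 * R ^ 7 * ε ≤ 1 := by
    nlinarith [mul_nonneg hK1'.le hX, mul_nonneg hK2'.le hX, mul_nonneg hZ0 hX]
  have hR67 : R ^ 6 * ε ≤ R ^ 7 * ε := by
    have : R ^ 6 ≤ R ^ 7 := pow_le_pow_right₀ hR1 (by norm_num)
    gcongr
  have s2 : K2 * R ^ 6 * ε ≤ 1 := by
    have h3 : K2 * (R ^ 6 * ε) ≤ K2 * (R ^ 7 * ε) := by gcongr
    nlinarith [mul_nonneg hK1'.le hX, mul_nonneg hK2'.le hX, mul_nonneg hZ0 hX]
  have hB := H0 hs hε20 h h1
  have hD := h.disp h1 R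
  obtain ⟨-, kw, ew⟩ := H1 R hR1 ε _ _ hD s1
  obtain ⟨-, kg, eg⟩ := H2 R hR1 ε _ _ _ _ hD hD s2
  set B : ℝ → ℂ := Bf s (iD η) (iD η1) with hBdef
  set g1 : ℝ → ℝ := hd s η η1 with hg1
  set Br' : ℝ → ℂ := Br s (iD η) (iD η1) with hBr
  have eB : ∀ t, B t = (g1 t : ℂ) * I + Br' t := fun t => B_eq s η η1 t
  -- `Q` is `V * B` up to a small error
  have iVB : ∀ t, Integrable fun t' : ℝ => (V (t - t') : ℂ) * B t' := fun t =>
    ((NUCR.V_int_sub t).ofReal).mul_bdd (c := C0 * M) hB.cont.aestronglyMeasurable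
      (Eventually.of_forall hB.le)
  have iVBr : ∀ t, Integrable fun t' : ℝ => (V (t - t') : ℂ) * Br' t' := fun t =>
    ((NUCR.V_int_sub t).ofReal).mul_bdd (c := C0 * (M * ε)) hB.rc.aestronglyMeasurable
      (Eventually.of_forall hB.rle)
  have iVg : ∀ t, Integrable fun t' : ℝ => V (t - t') * g1 t' := fun t =>
    (NUCR.V_int_sub t).mul_bdd (c := C0 * M) hB.hc.aestronglyMeasurable
      (Eventually.of_forall hB.hle)
  have hicc : ∀ {t : ℝ}, t ∉ Icc (-b) b → b < |t| := by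
    intro t ht
    rwa [mem_Icc, ← abs_le, not_le] at ht
  have iI : ∀ c : ℝ, Integrable ((Icc (-b) b).indicator fun _ : ℝ => c) := by
    intro c
    rw [integrable_indicator_iff measurableSet_Icc]
    exact integrableOn_const (by simp)
  have vI : ∀ c : ℝ, ∫ t, (Icc (-b) b).indicator (fun _ : ℝ => c) t = 2 * b * c := by
    intro c
    rw [integral_indicator measurableSet_Icc, setIntegral_const,
      Real.volume_real_Icc_of_le (by linarith), smul_eq_mul]
    ring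
  have hQ1 : ∀ t, |t| ≤ b → ‖Q s η η1 Fe t - ∫ t', (V (t - t') : ℂ) * B t'‖ ≤
      2 * b * ((K1 * R ^ 7 * ε + K2 * R ^ 6 * ε) * (C0 * M)) := by
    intro t ht
    have htR : |t| ≤ R := by linarith
    have e1 : Q s η η1 Fe t - ∫ t', (V (t - t') : ℂ) * B t' =
        ∫ t', (((gs s η η1 Fe).K true true t t' * B t' + (gs s η η1 Fe).K true false t t' * B t') -
          (V (t - t') : ℂ) * B t') := by
      have j1 : Integrable fun t' => (gs s η η1 Fe).K true true t t' * B t' := hok.iB true true t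
      have j2 : Integrable fun t' => (gs s η η1 Fe).K true false t t' * B t' := hok.iB true false t
      have j3 : Integrable fun t' => (gs s η η1 Fe).K true true t t' * B t' +
          (gs s η η1 Fe).K true false t t' * B t' := j1.add j2
      rw [integral_sub j3 (iVB t), integral_add j1 j2]
      rfl
    rw [e1]
    refine (norm_integral_le_of_norm_le (iI ((K1 * R ^ 7 * ε + K2 * R ^ 6 * ε) * (C0 * M))) ?_).trans
      (le_of_eq (vI _))
    have hae : ∀ᵐ t' : ℝ, t' ≠ t := by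
      rw [ae_iff]
      simp
    filter_upwards [hae] with t' hne
    by_cases ht' : t' ∈ Icc (-b) b
    · rw [indicator_of_mem ht']
      rw [mem_Icc, ← abs_le] at ht'
      have ht'R : |t'| ≤ R := by linarith
      have q1 := ew t t' htR ht'R hne.symm
      have q2 := eg t t' htR ht'R
      have e2 : (gs s η η1 Fe).K true true t t' = Up Us (zt (iD η)) t t' := by
        rw [two_K, if_pos rfl]
      have e3 : (gs s η η1 Fe).K true false t t' = Ux (zt (iD η) t - zt (iD η) t') := by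
        rw [two_K, if_neg (by decide)]
      have e4 : (V (t - t') : ℂ) = ((-Real.log (w (t - t')) : ℝ) : ℂ) +
          ((-Real.log (g (t - t')) : ℝ) : ℂ) := by
        rw [V_eq (sub_ne_zero.2 hne.symm)]
        push_cast
        ring
      rw [e2, e3, q1, q2, e4]
      have e5 : (((-Real.log (w (t - t')) : ℝ) : ℂ) - Lw (iD η) (iD η1) t t') * B t' +
          (((-Real.log (g (t - t')) : ℝ) : ℂ) - Lg (iD η) (iD η) t t') * B t' -
          (((-Real.log (w (t - t')) : ℝ) : ℂ) + ((-Real.log (g (t - t')) : ℝ) : ℂ)) * B t' =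
          -((Lw (iD η) (iD η1) t t' + Lg (iD η) (iD η) t t') * B t') := by ring
      rw [e5, norm_neg, norm_mul]
      have b1 := kw.bound htR ht'R
      have b2 := kg.bound htR ht'R
      have b3 := hB.le t'
      exact mul_le_mul ((norm_add_le _ _).trans (add_le_add b1 b2)) b3 (norm_nonneg _) (by positivity)
    · rw [indicator_of_notMem ht']
      have e2 : B t' = 0 := hB.supp t' (hicc ht')
      rw [e2]
      simp
  have hVB : ∀ t, ∫ t', (V (t - t') : ℂ) * B t' = (NUCR.cv g1 t : ℂ) * I +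
      ∫ t', (V (t - t') : ℂ) * Br' t' := by
    intro t
    have e1 : ∀ t', (V (t - t') : ℂ) * B t' = ((V (t - t') * g1 t' : ℝ) : ℂ) * I +
        (V (t - t') : ℂ) * Br' t' := by
      intro t'
      rw [eB]
      push_cast
      ring
    simp_rw [e1]
    have j1 : Integrable fun t' : ℝ => ((V (t - t') * g1 t' : ℝ) : ℂ) * I :=
      (iVg t).ofReal.mul_const I
    have j2 : ∫ t', ((V (t - t') * g1 t' : ℝ) : ℂ) = (NUCR.cv g1 t : ℂ) := integral_ofReal
    rw [integral_add j1 (iVBr t), integral_mul_const, j2]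
  have hVr : ∀ t, ‖∫ t', (V (t - t') : ℂ) * Br' t'‖ ≤ NUCR.kap0 * (C0 * (M * ε)) := by
    intro t
    refine (norm_integral_le_of_norm_le ((NUCR.V_int_sub t).mul_const (C0 * (M * ε)))
      (Eventually.of_forall fun t' => ?_)).trans (le_of_eq ?_)
    · rw [norm_mul, Complex.norm_real, Real.norm_eq_abs, abs_of_nonneg (NUCR.V_nonneg _)]
      exact mul_le_mul_of_nonneg_left (hB.rle t') (NUCR.V_nonneg _)
    · rw [integral_mul_const, NUCR.V_mass_sub]
  -- the remainder of `Q`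
  set E0 : ℝ := NUCR.kap0 * (C0 * (M * ε)) +
    2 * b * ((K1 * R ^ 7 * ε + K2 * R ^ 6 * ε) * (C0 * M)) with hE0
  have hE00 : 0 ≤ E0 := by positivity
  have hQ2 : ∀ t, |t| ≤ b → ‖Q s η η1 Fe t - (NUCR.cv g1 t : ℂ) * I‖ ≤ E0 := by
    intro t ht
    have a1 := hQ1 t ht
    rw [hVB t] at a1
    have a2 := hVr t
    have e1 : Q s η η1 Fe t - (NUCR.cv g1 t : ℂ) * I =
        (Q s η η1 Fe t - ((NUCR.cv g1 t : ℂ) * I + ∫ t', (V (t - t') : ℂ) * Br' t')) +
          ∫ t', (V (t - t') : ℂ) * Br' t' := by ring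
    rw [e1]
    refine (norm_add_le _ _).trans ?_
    rw [hE0]
    linarith
  -- integrability
  have iBQ := int_BQ hok
  have ig1 : Integrable g1 := by
    refine hB.hc.integrable_of_hasCompactSupport ?_
    refine HasCompactSupport.intro (K := Icc (-b) b) isCompact_Icc fun t ht => hB.hsupp t (hicc ht)
  have ibil : Integrable fun t => g1 t * NUCR.cv g1 t := by
    have h2 := (NUCR.int2 ig1 hB.hc.aestronglyMeasurable hB.hle).integral_prod_left
    refine h2.congr (Eventually.of_forall fun t => ?_)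
    simp only
    rw [integral_const_mul]
    rfl
  have e1 : -(∫ t, B t * Q s η η1 Fe t).re - NUCR.bil g1 g1 =
      ∫ t, (-(B t * Q s η η1 Fe t).re - g1 t * NUCR.cv g1 t) := by
    have e2 := integral_re iBQ
    simp only [RCLike.re_to_complex] at e2
    have e3 : Integrable fun t => -(B t * Q s η η1 Fe t).re := by
      have := iBQ.re.neg
      exact this
    rw [integral_sub e3 ibil, integral_neg, e2]
    rfl
  rw [e1, ← Real.norm_eq_abs]
  refine (norm_integral_le_of_norm_le (iI (C0 * M * E0 + C0 * (M * ε) * (NUCR.kap0 * (C0 * M)) +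
    C0 * (M * ε) * E0)) (Eventually.of_forall fun t => ?_)).trans ?_
  · by_cases ht : t ∈ Icc (-b) b
    · rw [indicator_of_mem ht]
      rw [mem_Icc, ← abs_le] at ht
      set E : ℂ := Q s η η1 Fe t - (NUCR.cv g1 t : ℂ) * I with hE
      have hEle : ‖E‖ ≤ E0 := hQ2 t ht
      have e2 : Q s η η1 Fe t = (NUCR.cv g1 t : ℂ) * I + E := by rw [hE]; ring
      have e3 : B t * Q s η η1 Fe t = -((g1 t * NUCR.cv g1 t : ℝ) : ℂ) + ((g1 t : ℂ) * I * E +
          Br' t * ((NUCR.cv g1 t : ℂ) * I) + Br' t * E) := by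
        rw [e2, eB]
        have := Complex.I_mul_I
        push_cast
        linear_combination ((g1 t : ℂ) * (NUCR.cv g1 t : ℂ)) * this
      have e4 : -(B t * Q s η η1 Fe t).re - g1 t * NUCR.cv g1 t =
          -((g1 t : ℂ) * I * E + Br' t * ((NUCR.cv g1 t : ℂ) * I) + Br' t * E).re := by
        rw [e3, Complex.add_re, Complex.neg_re, Complex.ofReal_re]
        ring
      rw [e4, Real.norm_eq_abs, abs_neg]
      refine (Complex.abs_re_le_norm _).trans ?_
      have c1 := hB.hle t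
      have c2 := hB.rle t
      have c3 := NUCR.cv_abs hB.hle t
      have n1 : ‖(g1 t : ℂ) * I * E‖ ≤ C0 * M * E0 := by
        rw [norm_mul, norm_mul, Complex.norm_I, mul_one, Complex.norm_real, Real.norm_eq_abs]
        exact mul_le_mul c1 hEle (norm_nonneg _) (by positivity)
      have n2 : ‖Br' t * ((NUCR.cv g1 t : ℂ) * I)‖ ≤ C0 * (M * ε) * (NUCR.kap0 * (C0 * M)) := by
        rw [norm_mul, norm_mul, Complex.norm_I, mul_one, Complex.norm_real, Real.norm_eq_abs]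
        exact mul_le_mul c2 c3 (abs_nonneg _) (by positivity)
      have n3 : ‖Br' t * E‖ ≤ C0 * (M * ε) * E0 := by
        rw [norm_mul]
        exact mul_le_mul c2 hEle (norm_nonneg _) (by positivity)
      exact (norm_add₃_le).trans (add_le_add (add_le_add n1 n2) n3)
    · rw [indicator_of_notMem ht]
      have e2 : B t = 0 := hB.supp t (hicc ht)
      have e3 : g1 t = 0 := hB.hsupp t (hicc ht)
      rw [e2, e3]
      simp
  · rw [vI]
    exact arith_dbl hC0' hK1' hK2' hk0 hb hR hM0 hε0 hε20 hE0 hZ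

/-! ### the potentials of the objects -/

section

variable {ι : Type} [Fintype ι] {j τ : ι → ℝ} {Ψ : ℂ → ℂ}

lemma f_real {j δ : ℝ} (hj : NUO.Off δ j) (hδ : 0 < δ) (t τ : ℝ) :
    (NUO.fq j (t - τ) + NUO.fg j (t - τ)).re = lq j (τ - t) + lqg j (τ - t) := by
  have hl := l_pos
  have e0 : ((t : ℂ) - τ).im = 0 := by simp
  have e1 : ((t : ℂ) - τ).re = t - τ := by simp
  rw [NUO.f_re hj (by rw [e0, abs_zero]; positivity), e0, e1, zero_div, sub_zero, ← neg_sub τ t,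
    NUO.lq_neg, NUO.lqg_neg]

/-- the potentials on the line -/
lemma part_line (hδ : 0 < δ) (hj : ∀ c, NUO.Off δ (j c)) (hok : (gs s η η1 Fe).Ok)
    (hF : ∀ z : ℂ, |z.im| ≤ δ * l / 2 → Fe true z + Fe false z =
      ∑ c, (NUO.fq (j c) (z - τ c) + NUO.fg (j c) (z - τ c)) + Ψ z) :
    (Integrable fun t : ℝ => s * P t * (Ψ t).re) ∧
    ∫ t : ℝ, s * P t * (Fe true t + Fe false t).re =
      s * ∑ c, NUO.clo (j c) (τ c) + ∫ t : ℝ, s * P t * (Ψ t).re := by
  have hl := l_pos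
  have hdl : 0 < δ * l := mul_pos hδ hl
  have i1 : Integrable fun t : ℝ => s * P t * (Fe true t + Fe false t).re := by
    refine (((hok.j4 true).add (hok.j4 false)).re).congr (Eventually.of_forall fun t => ?_)
    simp only [Pi.add_apply, RCLike.re_to_complex]
    rw [gs_rho, gs_rho, gs_F, gs_F, ← mul_add, Complex.re_ofReal_mul]
  have i2 : ∀ c ∈ Finset.univ, Integrable fun t : ℝ =>
      s * (P t * lq (j c) (τ c - t) + P t * lqg (j c) (τ c - t)) := fun c _ =>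
    ((int_lq (j c) (τ c)).1.add (int_lqg (j c) (τ c)).1).const_mul s
  have i3 : Integrable fun t : ℝ =>
      ∑ c, s * (P t * lq (j c) (τ c - t) + P t * lqg (j c) (τ c - t)) := integrable_finsetSum _ i2
  have e1 : ∀ t : ℝ, s * P t * (Fe true t + Fe false t).re =
      (∑ c, s * (P t * lq (j c) (τ c - t) + P t * lqg (j c) (τ c - t))) + s * P t * (Ψ t).re := by
    intro t
    rw [hF (t : ℂ) (by rw [Complex.ofReal_im, abs_zero]; positivity), Complex.add_re,
      Complex.re_sum, mul_add, Finset.mul_sum]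
    congr 1
    refine Finset.sum_congr rfl fun c _ => ?_
    rw [f_real (hj c) hδ]
    ring
  have i4 : Integrable fun t : ℝ => s * P t * (Ψ t).re := by
    refine (i1.sub i3).congr (Eventually.of_forall fun t => ?_)
    simp only [Pi.sub_apply]
    rw [e1]
    ring
  refine ⟨i4, ?_⟩
  simp_rw [e1]
  rw [integral_add i3 i4, integral_finsetSum _ i2, Finset.mul_sum]
  congr 1
  refine Finset.sum_congr rfl fun c _ => ?_
  rw [integral_const_mul, integral_add (int_lq (j c) (τ c)).1 (int_lqg (j c) (τ c)).1]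
  rfl

/-- the potentials on the path -/
lemma part_path (hδ : 0 < δ) (hδ1 : δ ≤ 1 / 2) (hj : ∀ c, NUO.Off δ (j c)) (hok : (gs s η η1 Fe).Ok)
    (D : NUO.Disp ε η η1) (hε : ε ≤ δ * l / 2)
    (hF : ∀ z : ℂ, |z.im| ≤ δ * l / 2 → Fe true z + Fe false z =
      ∑ c, (NUO.fq (j c) (z - τ c) + NUO.fg (j c) (z - τ c)) + Ψ z) :
    (∫ t, Bf s (iD η) (iD η1) t * (Fe true (zt (iD η) t) + Fe false (zt (iD η) t))).re =
      (∑ c, (∫ t, NUO.Bd s η η1 t *
        (NUO.fq (j c) (NUO.zt η t - τ c) + NUO.fg (j c) (NUO.zt η t - τ c))).re) +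
      (∫ t, Bf s (iD η) (iD η1) t * Ψ (zt (iD η) t)).re := by
  have hl := l_pos
  have hdl : 0 < δ * l := mul_pos hδ hl
  have i1 : Integrable fun t => Bf s (iD η) (iD η1) t *
      (Fe true (zt (iD η) t) + Fe false (zt (iD η) t)) := by
    refine (((hok.j6 true).sub (hok.j5 true)).add ((hok.j6 false).sub (hok.j5 false))).congr
      (Eventually.of_forall fun t => ?_)
    simp only [Pi.add_apply, Pi.sub_apply]
    have b1 : ∀ a, (gs s η η1 Fe).ρh a t * (gs s η η1 Fe).Fh a t -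
        (gs s η η1 Fe).ρ a t * (gs s η η1 Fe).Fh a t =
        Bf s (iD η) (iD η1) t * Fe a (zt (iD η) t) := by
      intro a
      rw [← sub_mul]
      rfl
    rw [b1, b1, mul_add]
  have hεl : ε < l := by nlinarith
  have i2 : ∀ c ∈ Finset.univ, Integrable fun t => NUO.Bd s η η1 t *
      (NUO.fq (j c) (NUO.zt η t - τ c) + NUO.fg (j c) (NUO.zt η t - τ c)) := by
    intro c _
    refine Continuous.integrable_of_hasCompactSupport ((NUO.Bd_cont D hεl s).mul ?_)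
      (HasCompactSupport.intro D.supp fun t ht => ?_)
    · rw [continuous_iff_continuousAt]
      intro t
      have h1 : |(NUO.zt η t - τ c).im| < δ * l := by
        have := D.im_le t
        have e : (NUO.zt η t - τ c).im = (NUO.zt η t).im := by simp
        rw [e]
        linarith
      have h2 := (NUO.hasDerivAt_fsum (hj c) h1).continuousAt
      exact h2.comp (f := fun t : ℝ => NUO.zt η t - τ c) ((D.zt_cont.sub continuous_const).continuousAt)
    · rw [NUO.Bd_zero s (D.d0 ht).1 (D.d0 ht).2, zero_mul]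
  have i3 := integrable_finsetSum _ i2
  have e1 : ∀ t, Bf s (iD η) (iD η1) t * (Fe true (zt (iD η) t) + Fe false (zt (iD η) t)) =
      (∑ c, NUO.Bd s η η1 t *
        (NUO.fq (j c) (NUO.zt η t - τ c) + NUO.fg (j c) (NUO.zt η t - τ c))) +
      Bf s (iD η) (iD η1) t * Ψ (zt (iD η) t) := by
    intro t
    rw [zt_eq, hF _ ((D.im_le t).trans hε), ← Bf_Bd, mul_add, Finset.mul_sum]
  have i4 : Integrable fun t => Bf s (iD η) (iD η1) t * Ψ (zt (iD η) t) := by
    refine (i1.sub i3).congr (Eventually.of_forall fun t => ?_)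
    simp only [Pi.sub_apply]
    rw [e1]
    ring
  simp_rw [e1]
  rw [integral_add i3 i4, integral_finsetSum _ i2, Complex.add_re, Complex.re_sum]

end

/-- **the constant of the action** -/
theorem main (hδ : 0 < δ) (hδ1 : δ ≤ 1 / 2) : ∃ C : ℝ, 1 ≤ C ∧
    ∀ (s ε M b K R : ℝ) (e η η1 : ℝ → ℝ) (Fe : Bool → ℂ → ℂ) (Ψ : ℂ → ℂ) (ι : Type) [Fintype ι]
      (j τ t0 : ι → ℝ), 0 ≤ s → Cur s ε M b e η → (∀ t, HasDerivAt η (η1 t) t) → 0 ≤ b →
      C * (b + 1) ^ 7 * ε ≤ 1 → 0 ≤ K → (∀ t t', |s * P t * η t - s * P t' * η t'| ≤ K * |t - t'|) →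
      (∀ a, Ext (δ * l / 2) (Fe a)) → (∀ c, NUO.Off δ (j c)) → (∀ c, |τ c - t0 c| ≤ R) →
      (∀ z : ℂ, |z.im| ≤ δ * l / 2 → Fe true z + Fe false z =
        ∑ c, (NUO.fq (j c) (z - τ c) + NUO.fg (j c) (z - τ c)) + Ψ z) →
      |(gs s η η1 Fe).S - (s * (∑ c, NUO.clo (j c) (τ c)) + (∫ t : ℝ, s * P t * (Ψ t).re) -
        2 * Real.pi * (∑ c, NUO.wnu (j c) * (s * P (t0 c) * η (t0 c))) +
        NUCR.bil (hd s η η1) (hd s η η1) -
        (∫ t, Bf s (iD η) (iD η1) t * Ψ (zt (iD η) t)).re)| ≤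
        C * (∑ c, (1 + |NUO.wnu (j c)|)) * (M * ε + K * (1 + R)) + C * (b + 1) ^ 9 * M ^ 2 * ε := by
  have hl := l_pos
  obtain ⟨C1, hC1, H1⟩ := exists_dbl
  obtain ⟨C2, hC2, H2⟩ := NUO.wind_obj hδ hδ1
  have hdl : 0 < δ * l / 2 := by positivity
  refine ⟨20 + C1 + C2 + 1 / (δ * l / 2), by
    have : 0 < 1 / (δ * l / 2) := by positivity
    linarith, ?_⟩
  intro s ε M b K R e η η1 Fe Ψ ι _ j τ t0 hs h h1 hb hsm hK hKL hF hj hR hsum
  have hε0 := h.ε0
  have hM0 := h.M0 hs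
  have hR7 : 1 ≤ (b + 1) ^ 7 := one_le_pow₀ (by linarith)
  obtain ⟨X, hX⟩ : ∃ X : ℝ, X = (b + 1) ^ 7 * ε := ⟨_, rfl⟩
  have hX0 : 0 ≤ X := by rw [hX]; positivity
  have hεX : ε ≤ X := by rw [hX]; exact le_mul_of_one_le_left hε0 hR7
  have hi : 0 < 1 / (δ * l / 2) := by positivity
  have hsm' : (20 + C1 + C2 + 1 / (δ * l / 2)) * X ≤ 1 := by
    rw [hX]
    refine le_trans (le_of_eq ?_) hsm
    ring
  have q1 : 0 ≤ C1 * X := by positivity
  have q2 : 0 ≤ C2 * X := by positivity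
  have q3 : 0 ≤ 1 / (δ * l / 2) * X := by positivity
  have hε20 : ε ≤ 1 / 20 := by linarith
  have hεδ : ε ≤ δ * l / 2 := by
    have : 1 / (δ * l / 2) * X ≤ 1 := by linarith
    rw [one_div, inv_mul_le_iff₀ hdl, mul_one] at this
    linarith
  have s1 : C1 * (b + 1) ^ 7 * ε ≤ 1 := by
    have e1 : C1 * (b + 1) ^ 7 * ε = C1 * X := by rw [hX]; ring
    rw [e1]
    linarith
  have hok := gs_ok hδ1 h hs h1 hε20 hεδ hF
  have D := odisp h h1
  have hd1 := H1 hs h h1 hb s1 hok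
  have a1 := (part_line hδ hj hok hsum).2
  have a2 := part_path hδ hδ1 hj hok D hεδ hsum
  have hone : ∀ c, |-(∫ t, NUO.Bd s η η1 t *
      (NUO.fq (j c) (NUO.zt η t - τ c) + NUO.fg (j c) (NUO.zt η t - τ c))).re +
      2 * Real.pi * (NUO.wnu (j c) * (s * P (t0 c) * η (t0 c)))| ≤
      C2 * (1 + |NUO.wnu (j c)|) * (M * ε + K * (1 + R)) := by
    intro c
    have h3 := H2 s M K ε (t0 c) R η η1 Unit (fun _ => j c) (fun _ => τ c) (fun _ => hj c) D hεδ
      (cur_le h hs) hK hKL (fun _ => hR c)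
    simp only [Finset.univ_unique, Finset.sum_singleton] at h3
    rwa [mul_assoc (2 * Real.pi)] at h3
  have hsumc : |∑ c, (-(∫ t, NUO.Bd s η η1 t *
      (NUO.fq (j c) (NUO.zt η t - τ c) + NUO.fg (j c) (NUO.zt η t - τ c))).re +
      2 * Real.pi * (NUO.wnu (j c) * (s * P (t0 c) * η (t0 c))))| ≤
      C2 * (∑ c, (1 + |NUO.wnu (j c)|)) * (M * ε + K * (1 + R)) := by
    refine (Finset.abs_sum_le_sum_abs _ _).trans
      ((Finset.sum_le_sum fun c _ => hone c).trans (le_of_eq ?_))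
    rw [← Finset.sum_mul, ← Finset.mul_sum]
  rw [Finset.sum_add_distrib, Finset.sum_neg_distrib, ← Finset.mul_sum] at hsumc
  have eS := S_eq hok
  rw [a1, a2] at eS
  rw [eS]
  obtain ⟨N, hN⟩ : ∃ N : ℝ, N = ∑ c, (1 + |NUO.wnu (j c)|) := ⟨_, rfl⟩
  rw [← hN] at hsumc ⊢
  have hN0 : 0 ≤ N := by rw [hN]; exact Finset.sum_nonneg fun c _ => by positivity
  have hG : 0 ≤ N * (M * ε + K * (1 + R)) := by
    rcases isEmpty_or_nonempty ι with hE | ⟨⟨c⟩⟩
    · have : N = 0 := by rw [hN, Finset.univ_eq_empty, Finset.sum_empty]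
      rw [this, zero_mul]
    · have hR0 : 0 ≤ R := (abs_nonneg _).trans (hR c)
      positivity
  have g1 : C2 * N * (M * ε + K * (1 + R)) ≤
      (20 + C1 + C2 + 1 / (δ * l / 2)) * N * (M * ε + K * (1 + R)) := by
    rw [mul_assoc, mul_assoc]
    exact mul_le_mul_of_nonneg_right (by linarith) hG
  have g2 : C1 * (b + 1) ^ 9 * M ^ 2 * ε ≤
      (20 + C1 + C2 + 1 / (δ * l / 2)) * (b + 1) ^ 9 * M ^ 2 * ε := by
    have h9 : 0 ≤ (b + 1) ^ 9 * M ^ 2 * ε := by positivity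
    calc C1 * (b + 1) ^ 9 * M ^ 2 * ε = C1 * ((b + 1) ^ 9 * M ^ 2 * ε) := by ring
      _ ≤ (20 + C1 + C2 + 1 / (δ * l / 2)) * ((b + 1) ^ 9 * M ^ 2 * ε) :=
          mul_le_mul_of_nonneg_right (by linarith) h9
      _ = _ := by ring
  rw [abs_le] at hsumc hd1 ⊢
  constructor <;> linarith [hsumc.1, hsumc.2, hd1.1, hd1.2]

end

end NUSEv
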