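import Pool.Agent.NUO.Blocks

/-!
# Closed form of `kw`

`kw j t = ∑_a c_a 2 sin (2 (a - j) l) / (cosh 2t + cos (2 (a - j) l))`.
-/

set_option autoImplicit false

open MeasureTheory Set Filter Topology Complex

namespace NUO

open NUMF

noncomputable section

/-- `2 sin 2y / (cosh 2t + cos 2y) = - ∂ h / ∂ y` -/
def kb1 (y t : ℝ) : ℝ := 2 * Real.sin (2 * y) / (Real.cosh (2 * t) + Real.cos (2 * y))

lemma kb1_per (y t : ℝ) (n : ℤ) : kb1 (y + 8 * n * l) t = kb1 y t := by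
  unfold kb1
  have : 2 * (y + 8 * n * l) = 2 * y + n * (2 * Real.pi) := by unfold l; ring
  rw [this, Real.sin_add_int_mul_two_pi, Real.cos_add_int_mul_two_pi]

lemma kb1_red (y t : ℝ) : kb1 (red y * l) t = kb1 (y * l) t := by
  unfold red
  rw [← kb1_per (y * l) t (-(round (y / 8)))]
  congr 1
  push_cast
  ring

lemma kb1_neg (y t : ℝ) : kb1 (-y) t = -kb1 y t := by
  unfold kb1
  rw [mul_neg, Real.sin_neg, Real.cos_neg]
  ring

lemma kb1_even (y t : ℝ) : kb1 y (-t) = kb1 y t := by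
  unfold kb1
  rw [mul_neg, Real.cosh_neg]

theorem kw_sum (j t : ℝ) : kw j t = ∑ i, ct i * kb1 ((av i - j) * l) t := by
  rw [kw_eq]
  refine Finset.sum_congr rfl fun i _ => ?_
  rw [tanh_im, ← kb1_red]
  rfl

/-- **closed form** -/
theorem kw_closed (j t : ℝ) : kw j t = kb1 ((4 - j) * l) t + (1 / 2) * kb1 ((2 - j) * l) t -
    (1 / 2) * kb1 ((2 + j) * l) t - (1 / 2) * kb1 ((3 - j) * l) t - (1 / 2) * kb1 ((5 - j) * l) t -
    kb1 (j * l) t + kb1 ((j + 1) * l) t + kb1 ((j - 1) * l) t := by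
  rw [kw_sum, sum8]
  simp only [ct, co, cx, av, Matrix.cons_val]
  push_cast
  have e1 : kb1 ((-2 - j) * l) t = -kb1 ((2 + j) * l) t := by
    rw [← kb1_neg]
    congr 1
    ring
  have e2 : kb1 ((0 - j) * l) t = -kb1 (j * l) t := by
    rw [← kb1_neg]
    congr 1
    ring
  have e3 : kb1 ((1 - j) * l) t = -kb1 ((j - 1) * l) t := by
    rw [← kb1_neg]
    congr 1
    ring
  have e4 : kb1 ((-1 - j) * l) t = -kb1 ((j + 1) * l) t := by
    rw [← kb1_neg]
    congr 1
    ring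
  rw [e1, e2, e3, e4]
  ring

lemma kw_even (j t : ℝ) : kw j (-t) = kw j t := by
  rw [kw_closed, kw_closed]
  simp only [kb1_even]

end

end NUO
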