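import Mathlib

/-!
# Window sums (O4d, abstract part)

For a finite configuration `t : κ → ℝ` let `win s t = ∑_w n_w ^ 2` (`n_w` = number of points in
the unit window `[w, w+1)`).  Exponentially decaying pair interactions and the squared `L²` norms
of exponentially decaying fields are bounded by `win`.
-/

open MeasureTheory Set

noncomputable section

namespace NUDispW

variable {κ : Type*}

/-- window energy -/
def win (s : Finset κ) (t : κ → ℝ) : ℝ :=
  ∑ w ∈ s.image (fun i => ⌊t i⌋), ((s.filter fun i => ⌊t i⌋ = w).card : ℝ) ^ 2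

theorem win_nonneg (s : Finset κ) (t : κ → ℝ) : 0 ≤ win s t :=
  Finset.sum_nonneg fun _ _ => sq_nonneg _

/-- exponential sum over `ℤ` -/
def Sd (d : ℝ) : ℝ := ∑' k : ℤ, Real.exp (-(d * |(k : ℝ)|))

theorem summable_Sd {d : ℝ} (hd : 0 < d) : Summable fun k : ℤ => Real.exp (-(d * |(k : ℝ)|)) := by
  have h0 : Summable fun n : ℕ => Real.exp (-d) ^ n :=
    summable_geometric_of_lt_one (Real.exp_pos _).le (by rw [Real.exp_lt_one_iff]; linarith)
  have h1 : Summable fun n : ℕ => Real.exp (-(d * |((n : ℤ) : ℝ)|)) := by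
    refine h0.congr fun n => ?_
    rw [← Real.exp_nat_mul]
    congr 1
    rw [Int.cast_natCast, abs_of_nonneg (Nat.cast_nonneg n)]
    ring
  refine Summable.of_nat_of_neg h1 (h1.congr fun n => ?_)
  push_cast
  rw [abs_neg]

theorem Sd_pos {d : ℝ} (hd : 0 < d) : 0 < Sd d :=
  (summable_Sd hd).tsum_pos (fun _ => (Real.exp_pos _).le) 0 (Real.exp_pos _)

theorem sum_exp_le {d : ℝ} (hd : 0 < d) (W : Finset ℤ) (w : ℤ) :
    ∑ w' ∈ W, Real.exp (-(d * |(w : ℝ) - (w' : ℝ)|)) ≤ Sd d := by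
  have h1 : ∑ w' ∈ W, Real.exp (-(d * |(w : ℝ) - (w' : ℝ)|)) =
      ∑ k ∈ W.image (fun w' => w - w'), Real.exp (-(d * |(k : ℝ)|)) := by
    rw [Finset.sum_image (fun a _ b _ h => by
      have : w - a = w - b := h
      omega)]
    refine Finset.sum_congr rfl fun w' _ => ?_
    push_cast
    rfl
  rw [h1]
  exact (summable_Sd hd).sum_le_tsum _ fun _ _ => (Real.exp_pos _).le

/-- a double sum over the points as a double sum over the windows -/
theorem sum_sum_floor (s : Finset κ) (t : κ → ℝ) (f : ℤ → ℤ → ℝ) :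
    ∑ i ∈ s, ∑ j ∈ s, f ⌊t i⌋ ⌊t j⌋ =
      ∑ w ∈ s.image (fun i => ⌊t i⌋), ∑ w' ∈ s.image (fun i => ⌊t i⌋),
        ((s.filter fun i => ⌊t i⌋ = w).card : ℝ) * ((s.filter fun i => ⌊t i⌋ = w').card : ℝ) *
          f w w' := by
  rw [Finset.sum_comp (fun w => ∑ j ∈ s, f w ⌊t j⌋) (fun i => ⌊t i⌋)]
  refine Finset.sum_congr rfl fun w _ => ?_
  rw [Finset.sum_comp (fun w' => f w w') (fun i => ⌊t i⌋), nsmul_eq_mul, Finset.mul_sum]
  refine Finset.sum_congr rfl fun w' _ => ?_
  rw [nsmul_eq_mul]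
  ring

/-- **exponentially decaying pair interactions are bounded by the window energy** -/
theorem pair_exp_le {d : ℝ} (hd : 0 < d) (s : Finset κ) (t : κ → ℝ) :
    ∑ i ∈ s, ∑ j ∈ s, Real.exp (-(d * |t i - t j|)) ≤ Real.exp d * Sd d * win s t := by
  have h1 : ∀ i j, Real.exp (-(d * |t i - t j|)) ≤
      Real.exp d * Real.exp (-(d * |((⌊t i⌋ : ℤ) : ℝ) - ((⌊t j⌋ : ℤ) : ℝ)|)) := by
    intro i j
    rw [← Real.exp_add]
    apply Real.exp_le_exp.2
    have a1 := Int.floor_le (t i)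
    have a2 := Int.lt_floor_add_one (t i)
    have a3 := Int.floor_le (t j)
    have a4 := Int.lt_floor_add_one (t j)
    have h2 : |((⌊t i⌋ : ℤ) : ℝ) - ((⌊t j⌋ : ℤ) : ℝ)| ≤ |t i - t j| + 1 := by
      rw [abs_le]
      have b1 := le_abs_self (t i - t j)
      have b2 := neg_abs_le (t i - t j)
      constructor <;> linarith
    nlinarith
  refine (Finset.sum_le_sum fun i _ => Finset.sum_le_sum fun j _ => h1 i j).trans ?_
  simp_rw [← Finset.mul_sum]
  rw [mul_assoc]
  refine mul_le_mul_of_nonneg_left ?_ (Real.exp_pos _).le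
  rw [sum_sum_floor s t (fun w w' => Real.exp (-(d * |(w : ℝ) - (w' : ℝ)|)))]
  set W := s.image (fun i => ⌊t i⌋)
  set n : ℤ → ℝ := fun w => ((s.filter fun i => ⌊t i⌋ = w).card : ℝ)
  have h2 : ∀ w w' : ℤ, n w * n w' * Real.exp (-(d * |(w : ℝ) - (w' : ℝ)|)) ≤
      (n w ^ 2 * Real.exp (-(d * |(w : ℝ) - (w' : ℝ)|)) +
        n w' ^ 2 * Real.exp (-(d * |(w : ℝ) - (w' : ℝ)|))) / 2 := by
    intro w w'
    have := Real.exp_pos (-(d * |(w : ℝ) - (w' : ℝ)|))
    nlinarith [mul_nonneg (sq_nonneg (n w - n w')) this.le]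
  refine (Finset.sum_le_sum fun w _ => Finset.sum_le_sum fun w' _ => h2 w w').trans ?_
  have h3 : ∑ w ∈ W, ∑ w' ∈ W, n w ^ 2 * Real.exp (-(d * |(w : ℝ) - (w' : ℝ)|)) ≤
      Sd d * ∑ w ∈ W, n w ^ 2 := by
    rw [Finset.mul_sum]
    refine Finset.sum_le_sum fun w _ => ?_
    rw [← Finset.mul_sum, mul_comm]
    exact mul_le_mul_of_nonneg_right (sum_exp_le hd W w) (sq_nonneg _)
  have h4 : ∑ w ∈ W, ∑ w' ∈ W, n w' ^ 2 * Real.exp (-(d * |(w : ℝ) - (w' : ℝ)|)) =
      ∑ w ∈ W, ∑ w' ∈ W, n w ^ 2 * Real.exp (-(d * |(w : ℝ) - (w' : ℝ)|)) := by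
    rw [Finset.sum_comm]
    refine Finset.sum_congr rfl fun w _ => Finset.sum_congr rfl fun w' _ => ?_
    rw [abs_sub_comm]
  simp_rw [add_div, Finset.sum_add_distrib, ← Finset.sum_div]
  rw [h4]
  have h5 : win s t = ∑ w ∈ W, n w ^ 2 := rfl
  rw [h5]
  linarith

/-- exponential majorant of a field created by the points `t i`, `i ∈ s` -/
def bmaj (s : Finset κ) (t : κ → ℝ) (c x : ℝ) : ℝ := ∑ i ∈ s, Real.exp (-(c * |x - t i|))

theorem bmaj_nonneg (s : Finset κ) (t : κ → ℝ) (c x : ℝ) : 0 ≤ bmaj s t c x :=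
  Finset.sum_nonneg fun _ _ => (Real.exp_pos _).le

theorem bmaj_cont (s : Finset κ) (t : κ → ℝ) (c : ℝ) : Continuous (bmaj s t c) := by
  unfold bmaj
  fun_prop

theorem integrable_exp_abs {c : ℝ} (hc : 0 < c) :
    Integrable (fun x : ℝ => Real.exp (-(c * |x|))) := by
  have h1 : IntegrableOn (fun x : ℝ => Real.exp (-(c * |x|))) (Ioi 0) := by
    refine (integrableOn_exp_mul_Ioi (a := -c) (by linarith) 0).congr_fun (fun x hx => ?_)
      measurableSet_Ioi
    simp only
    rw [abs_of_pos hx]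
    congr 1
    ring
  have h2 : IntegrableOn (fun x : ℝ => Real.exp (-(c * |x|))) (Iic 0) := by
    have h3 : IntegrableOn (fun x : ℝ => Real.exp (-(c * |(-x)|))) (Iio 0) := by
      have h4 : IntegrableOn (fun x : ℝ => Real.exp (-(c * |x|))) (Ioi (-0)) := by
        rw [neg_zero]; exact h1
      exact h4.comp_neg_Iio
    rw [integrableOn_Iic_iff_integrableOn_Iio]
    refine h3.congr_fun (fun x _ => ?_) measurableSet_Iio
    simp only [abs_neg]
  rw [← integrableOn_univ, ← Iic_union_Ioi (a := (0:ℝ))]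
  exact h2.union h1

theorem int_exp_abs {c : ℝ} (hc : 0 < c) (a : ℝ) :
    Integrable (fun x : ℝ => Real.exp (-(c * |x - a|))) ∧
      ∫ x : ℝ, Real.exp (-(c * |x - a|)) = 2 / c := by
  refine ⟨(integrable_exp_abs hc).comp_sub_right a, ?_⟩
  rw [integral_sub_right_eq_self (fun x : ℝ => Real.exp (-(c * |x|))) a,
    integral_comp_abs (f := fun x : ℝ => Real.exp (-(c * x)))]
  have h1 := integral_exp_mul_Ioi (a := -c) (by linarith) 0
  rw [show (fun x : ℝ => Real.exp (-(c * x))) = fun x => Real.exp (-c * x) by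
    funext x; congr 1; ring, h1]
  simp
  field_simp

theorem bmaj_integrable {c : ℝ} (hc : 0 < c) (s : Finset κ) (t : κ → ℝ) :
    Integrable (bmaj s t c) := by
  unfold bmaj
  exact integrable_finsetSum _ fun i _ => (int_exp_abs hc (t i)).1

theorem bmaj_sq_eq (s : Finset κ) (t : κ → ℝ) (c x : ℝ) :
    bmaj s t c x ^ 2 = ∑ i ∈ s, ∑ j ∈ s, Real.exp (-(c * |x - t i|)) *
      Real.exp (-(c * |x - t j|)) := by
  rw [bmaj, sq, Finset.sum_mul_sum]

theorem exp_pair_le {c : ℝ} (hc : 0 < c) (a b x : ℝ) :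
    Real.exp (-(c * |x - a|)) * Real.exp (-(c * |x - b|)) ≤
      Real.exp (-(c / 2 * |a - b|)) * Real.exp (-(c / 2 * |x - a|)) := by
  rw [← Real.exp_add, ← Real.exp_add]
  apply Real.exp_le_exp.2
  have h1 : |a - b| ≤ |x - a| + |x - b| := by
    have := abs_sub_le a x b
    rw [abs_sub_comm a x] at this
    exact this
  have h2 := abs_nonneg (x - b)
  nlinarith

/-- **the `L²` norm of an exponentially decaying field** -/
theorem bmaj_sq_int {c : ℝ} (hc : 0 < c) (s : Finset κ) (t : κ → ℝ) :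
    Integrable (fun x => bmaj s t c x ^ 2) ∧
    ∫ x, bmaj s t c x ^ 2 ≤ 4 / c * (Real.exp (c / 2) * Sd (c / 2)) * win s t := by
  have hc2 : 0 < c / 2 := by linarith
  have h0 : ∀ i j, Integrable fun x => Real.exp (-(c * |x - t i|)) * Real.exp (-(c * |x - t j|)) := by
    intro i j
    refine Integrable.mono' ((int_exp_abs hc2 (t i)).1.const_mul
      (Real.exp (-(c / 2 * |t i - t j|)))) (by fun_prop) (ae_of_all _ fun x => ?_)
    rw [Real.norm_eq_abs, abs_of_pos (by positivity)]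
    exact exp_pair_le hc _ _ _
  have h1 : Integrable (fun x => bmaj s t c x ^ 2) := by
    simp_rw [bmaj_sq_eq]
    exact integrable_finsetSum _ fun i _ => integrable_finsetSum _ fun j _ => h0 i j
  refine ⟨h1, ?_⟩
  simp_rw [bmaj_sq_eq]
  rw [integral_finsetSum _ fun i _ => integrable_finsetSum _ fun j _ => h0 i j]
  simp_rw [integral_finsetSum _ fun j _ => h0 _ j]
  have h2 : ∀ i j, ∫ x, Real.exp (-(c * |x - t i|)) * Real.exp (-(c * |x - t j|)) ≤
      4 / c * Real.exp (-(c / 2 * |t i - t j|)) := by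
    intro i j
    refine (integral_mono (h0 i j) ((int_exp_abs hc2 (t i)).1.const_mul
      (Real.exp (-(c / 2 * |t i - t j|)))) fun x => exp_pair_le hc _ _ _).trans_eq ?_
    rw [integral_const_mul, (int_exp_abs hc2 (t i)).2]
    field_simp
    ring
  refine (Finset.sum_le_sum fun i _ => Finset.sum_le_sum fun j _ => h2 i j).trans ?_
  simp_rw [← Finset.mul_sum]
  rw [mul_assoc]
  exact mul_le_mul_of_nonneg_left (pair_exp_le hc2 s t) (by positivity)

/-- the number of points is at most the window energy -/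
theorem card_le_win (s : Finset κ) (t : κ → ℝ) : (s.card : ℝ) ≤ win s t := by
  have h1 : s.card = ∑ w ∈ s.image (fun i => ⌊t i⌋), (s.filter fun i => ⌊t i⌋ = w).card :=
    Finset.card_eq_sum_card_image _ _
  rw [h1, win]
  push_cast
  refine Finset.sum_le_sum fun w _ => ?_
  rcases Nat.eq_zero_or_pos (s.filter fun i => ⌊t i⌋ = w).card with h | h
  · rw [h]; simp
  · have : (1 : ℝ) ≤ ((s.filter fun i => ⌊t i⌋ = w).card : ℝ) := by exact_mod_cast h
    nlinarith

/-- the window energy is at most the square of the number of points -/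
theorem win_le_card_sq (s : Finset κ) (t : κ → ℝ) : win s t ≤ (s.card : ℝ) ^ 2 := by
  have h1 : s.card = ∑ w ∈ s.image (fun i => ⌊t i⌋), (s.filter fun i => ⌊t i⌋ = w).card :=
    Finset.card_eq_sum_card_image _ _
  have h2 : ∀ w ∈ s.image (fun i => ⌊t i⌋), ((s.filter fun i => ⌊t i⌋ = w).card : ℝ) ^ 2 ≤
      (s.card : ℝ) * ((s.filter fun i => ⌊t i⌋ = w).card : ℝ) := by
    intro w _
    rw [sq]
    refine mul_le_mul_of_nonneg_right ?_ (Nat.cast_nonneg _)
    exact_mod_cast Finset.card_filter_le _ _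
  refine (Finset.sum_le_sum h2).trans_eq ?_
  rw [← Finset.mul_sum, sq]
  congr 1
  rw [h1]
  push_cast
  rfl

end NUDispW
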