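import Pool.Agent.NUO.Obj
import Pool.Agent.NUO.CoreK
import Pool.Agent.NUP1.Bounds

/-!
# Direct pair weights of the objects in exact positions (board/ABS O4d, direct part)

`Con` = classes of constituents (`L` quantum, `T` string of `St`, `S` string of `S, Sv, Svv`,
`V` satellite), `cl k` = the constituents of a kind, `cpos` the real part (unit `l`) of their
reference lines.  `lam x t = log ‖sin (x + i t)‖`, without its core `log |tanh (32 t)|` if
`sin x = 0`; `Dr same k k' t` = the direct energy of two objects in reference positions, cores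
removed.

* `pair_le`: `pairN ≤ exp (- Dr + 2 qq log |tanh (2 ^ k (zc_i - zc_j))| + C (d + 1 / r))`, also
  if `pairN = 0`;
* `direct_le`: the same as `coreO + Dr - eps ≤ - log pairN`;
* `core_ge`: the sum of the cores costs `4 log (C r ^ 2 / d)` per object of kind `S`.
-/

set_option autoImplicit false

noncomputable section

open Complex

namespace NUDispO

open NUP1 NUO NUDispR

/-! ### products of sines -/

/-- product of powers of moduli of sines, shifts in units of `l` -/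
def PZ (L : List (ℤ × ℤ)) (z : ℂ) : ℝ := (L.map fun p => ‖sin (z + p.1 * l)‖ ^ p.2).prod

lemma PZ_nil (z : ℂ) : PZ [] z = 1 := rfl

lemma PZ_cons (p : ℤ × ℤ) (L : List (ℤ × ℤ)) (z : ℂ) :
    PZ (p :: L) z = ‖sin (z + p.1 * l)‖ ^ p.2 * PZ L z := by
  simp [PZ]

lemma PZ_nonneg (L : List (ℤ × ℤ)) (z : ℂ) : 0 ≤ PZ L z := by
  unfold PZ
  refine List.prod_nonneg fun x hx => ?_
  obtain ⟨a, _, rfl⟩ := List.mem_map.1 hx
  positivity

/-- sines of the own pair function (`true` = string), `z` = difference of the positions -/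
def Lp : Bool → Bool → List (ℤ × ℤ)
  | true, true => [(0, 2), (1, 1), (-1, 1), (2, 1), (-2, 1), (3, 1), (-3, 1)]
  | false, true => [(0, 1), (1, 1), (-2, 1), (3, 1)]
  | true, false => [(0, 1), (-1, 1), (2, 1), (-3, 1)]
  | false, false => [(0, 2), (2, 1), (-2, 1), (1, -1), (-1, -1)]

/-- sines of the cross pair function -/
def Lc : Bool → Bool → List (ℤ × ℤ)
  | true, true => [(3, -2), (-3, -2), (2, -2), (-2, -2)]
  | false, true => [(3, -2), (-2, -2)]
  | true, false => [(-3, -2), (2, -2)]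
  | false, false => [(4, 2), (3, -2), (-3, -2)]

theorem pz_eq (s s' : Bool) (z : ℂ) : ‖Kn.pz s s' z‖ = PZ (Lp s s') z := by
  rcases s with _ | _ <;> rcases s' with _ | _ <;>
    simp only [Kn.pz, Lp, PZ_cons, PZ_nil, q, q1, q2, norm_mul, norm_div, norm_neg, norm_pow,
      Int.cast_zero, Int.cast_one, Int.cast_neg, Int.cast_ofNat, zero_mul, add_zero, one_mul,
      neg_mul, mul_one, zpow_one, zpow_neg]
  · have h2 : (2 : ℤ) = ((2 : ℕ) : ℤ) := rfl
    rw [h2, zpow_natCast, ← sub_eq_add_neg, ← sub_eq_add_neg]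
    ring
  · ring_nf
  · have e : ∀ w : ℂ, ‖sin (-w)‖ = ‖sin w‖ := fun w => by rw [Complex.sin_neg, norm_neg]
    rw [← e (-z), ← e (-z + l), ← e (-z - 2 * l), ← e (-z + 3 * l)]
    ring_nf
  · have h2 : (2 : ℤ) = ((2 : ℕ) : ℤ) := rfl
    rw [h2, zpow_natCast]
    ring_nf

lemma eight_l : 8 * l = Real.pi := by unfold l; ring

lemma eight_lC : 8 * (l : ℂ) = Real.pi := by exact_mod_cast congrArg ((↑) : ℝ → ℂ) eight_l

lemma cos_eq_sin4 (z : ℂ) : cos z = sin (z + 4 * l) := by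
  rw [show (4 * l : ℂ) = Real.pi / 2 by linear_combination (1 / 2) * eight_lC,
    Complex.sin_add_pi_div_two]

lemma norm_sin_add8 (z : ℂ) : ‖sin (z + 8 * l)‖ = ‖sin z‖ := by
  rw [eight_lC, Complex.sin_add_pi, norm_neg]

lemma qg_norm (z : ℂ) : ‖Bd.qg z‖ =
    ‖sin (z + 4 * l)‖ ^ 2 / (‖sin (z + 3 * l)‖ ^ 2 * ‖sin (z - 3 * l)‖ ^ 2) := by
  unfold Bd.qg
  rw [norm_div, norm_mul, norm_pow, norm_pow, norm_pow, cos_eq_sin4]

lemma zpow_m2 (x : ℝ) : x ^ (-2 : ℤ) = (x ^ 2)⁻¹ := by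
  rw [zpow_neg]
  rfl

lemma qq_le (z : ℂ) : ‖Bd.qg z * Bd.qg (z + l)‖ ≤
    ‖sin (z + 3 * l)‖ ^ (-2 : ℤ) * ‖sin (z - 2 * l)‖ ^ (-2 : ℤ) := by
  rw [norm_mul, qg_norm, qg_norm]
  have e1 : ‖sin (z + l + 4 * l)‖ = ‖sin (z - 3 * l)‖ := by
    rw [← norm_sin_add8 (z - 3 * l)]; ring_nf
  have e2 : z + l + 3 * l = z + 4 * l := by ring
  have e3 : z + l - 3 * l = z - 2 * l := by ring
  rw [e1, e2, e3, zpow_m2, zpow_m2]
  set a := ‖sin (z + 4 * l)‖
  set b := ‖sin (z + 3 * l)‖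
  set c := ‖sin (z - 3 * l)‖
  set d := ‖sin (z - 2 * l)‖
  have ha : 0 ≤ a := norm_nonneg _
  have hb : 0 ≤ b := norm_nonneg _
  have hc : 0 ≤ c := norm_nonneg _
  have hd : 0 ≤ d := norm_nonneg _
  rcases ha.eq_or_lt with h | h
  · rw [← h]
    simp only [ne_eq, OfNat.ofNat_ne_zero, not_false_eq_true, zero_pow, zero_div, zero_mul]
    positivity
  rcases hc.eq_or_lt with h' | h'
  · rw [← h']
    simp only [ne_eq, OfNat.ofNat_ne_zero, not_false_eq_true, zero_pow, zero_div, mul_zero,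
      div_zero]
    positivity
  apply le_of_eq
  field_simp

lemma qq_le' (z : ℂ) : ‖Bd.qg z * Bd.qg (z - l)‖ ≤
    ‖sin (z - 3 * l)‖ ^ (-2 : ℤ) * ‖sin (z + 2 * l)‖ ^ (-2 : ℤ) := by
  have h := qq_le (-z)
  have e : ∀ w : ℂ, ‖Bd.qg (-w)‖ = ‖Bd.qg w‖ := by
    intro w
    unfold Bd.qg
    rw [Complex.cos_neg, show -w + 3 * l = -(w - 3 * l) by ring,
      show -w - 3 * l = -(w + 3 * l) by ring, Complex.sin_neg, Complex.sin_neg]
    congr 2
    ring
  rw [norm_mul, e, show -z + l = -(z - l) by ring, e, show -z + 3 * l = -(z - 3 * l) by ring,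
    show -z - 2 * l = -(z + 2 * l) by ring, Complex.sin_neg, Complex.sin_neg, norm_neg,
    norm_neg] at h
  rwa [norm_mul]

theorem cz_le (s s' : Bool) (z : ℂ) : ‖Kn.cz s s' z‖ ≤ PZ (Lc s s') z := by
  rcases s with _ | _ <;> rcases s' with _ | _ <;>
    simp only [Kn.cz, Lc, PZ_cons, PZ_nil,
      Int.cast_neg, Int.cast_ofNat, neg_mul, mul_one, ← sub_eq_add_neg]
  · rw [qg_norm, zpow_m2, zpow_m2]
    apply le_of_eq
    have h2 : (2 : ℤ) = ((2 : ℕ) : ℤ) := rfl
    rw [h2, zpow_natCast]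
    ring
  · exact qq_le z
  · exact qq_le' z
  · have h1 := qq_le z
    have h2 := qq_le' z
    have e : Bd.qg z * Bd.qg z * (Bd.qg (z + l) * Bd.qg (z - l)) =
        (Bd.qg z * Bd.qg (z + l)) * (Bd.qg z * Bd.qg (z - l)) := by ring
    rw [e, norm_mul]
    refine (mul_le_mul h1 h2 (norm_nonneg _) (by positivity)).trans (le_of_eq ?_)
    ring

/-- the sines of a pair of constituents; `eq` = same species -/
def Ls (eq s s' : Bool) : List (ℤ × ℤ) := if eq then Lp s s' else Lc s s'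

theorem pp_le (a b : Bool × Bool × ℂ) :
    ‖pp a b‖ ≤ PZ (Ls (a.1 == b.1) a.2.1 b.2.1) (a.2.2 - b.2.2) := by
  unfold pp Ls
  by_cases h : a.1 = b.1
  · rw [if_pos h, if_pos (by simpa using h), pz_eq]
  · rw [if_neg h, if_neg (by simpa using h)]
    exact cz_le _ _ _

/-! ### one sine -/

/-- `log ‖sin (x + i t)‖`, core (scale `2 ^ k`) removed if `sin x = 0` -/
def lam (k : ℕ) (x t : ℝ) : ℝ :=
  if Real.sin x = 0 then GK k t else Real.log ‖sin (x + t * I)‖

lemma norm_sin_x {x : ℝ} (hx : Real.sin x = 0) (w : ℂ) : ‖sin (x + w)‖ = ‖sin w‖ := by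
  rw [Complex.sin_add, ← Complex.ofReal_sin, hx]
  have h1 : Real.cos x ^ 2 = 1 := by
    have := Real.sin_sq_add_cos_sq x
    rw [hx] at this
    linarith
  have h2 : ‖(Real.cos x : ℂ)‖ = 1 := by
    rw [Complex.norm_real, Real.norm_eq_abs]
    rw [← Real.sqrt_sq_eq_abs, h1, Real.sqrt_one]
  rw [Complex.ofReal_zero, zero_mul, zero_add, norm_mul, ← Complex.ofReal_cos, h2, one_mul]

lemma norm_sin_I (ζ : ℂ) : ‖sin (ζ * I)‖ = ‖sinh ζ‖ := by
  rw [Complex.sin_mul_I, norm_mul, norm_I, mul_one]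

lemma lam_core {k : ℕ} {x t : ℝ} (hx : Real.sin x = 0) : lam k x t = GK k t := if_pos hx

lemma lam_reg {k : ℕ} {x t : ℝ} (hx : Real.sin x ≠ 0) :
    lam k x t = Real.log ‖sin (x + t * I)‖ := if_neg hx

lemma le_norm_sin_x (x t : ℝ) : |Real.sin x| ≤ ‖sin (x + t * I)‖ := by
  have h := Bd.le_norm_sin (x + t * I)
  have e1 : ((x : ℂ) + t * I).re = x := by simp
  have e2 : ((x : ℂ) + t * I).im = t := by simp
  rw [e1, e2] at h
  have := Real.one_le_cosh t
  nlinarith [abs_nonneg (Real.sin x)]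

/-- powers against exponentials -/
lemma zpow_le_exp {b L E : ℝ} (hb : 0 < b) (h : |Real.log b - L| ≤ E) (n : ℤ) :
    b ^ n ≤ Real.exp (n * L + |(n : ℝ)| * E) := by
  have e : b ^ n = Real.exp (n * Real.log b) := by
    rw [mul_comm, Real.exp_mul, Real.exp_log hb, Real.rpow_intCast]
  rw [e, Real.exp_le_exp]
  have h1 : (n : ℝ) * (Real.log b - L) ≤ |(n : ℝ)| * E := by
    refine (le_abs_self _).trans ?_
    rw [abs_mul]
    exact mul_le_mul_of_nonneg_left h (abs_nonneg _)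
  linarith

/-- a sine which does not vanish on the reference line -/
lemma fac_reg {k : ℕ} {x t κ : ℝ} {δ : ℂ} (n : ℤ) (hκ : 0 < κ) (hx : κ ≤ |Real.sin x|)
    (hδ : ‖δ‖ * (1 + 1 / κ) ≤ 1 / 16) :
    ‖sin (x + t * I + δ)‖ ^ n ≤ Real.exp (n * lam k x t + |(n : ℝ)| * (8 * ‖δ‖ * (1 + 1 / κ))) := by
  have h0 : Real.sin x ≠ 0 := fun h => by rw [h, abs_zero] at hx; linarith
  have h1 : κ ≤ ‖sin (x + t * I)‖ := hx.trans (le_norm_sin_x x t)
  refine zpow_le_exp ?_ ?_ n
  · exact norm_pos_iff.2 (sin_ne_zero_of_disp hκ h1 hδ)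
  · rw [lam_reg h0]
    exact log_sin_disp hκ h1 hδ

/-- a sine with a zero on the reference line, nonnegative power: no lower bound of the distance -/
lemma fac_pos {k : ℕ} {x t : ℝ} {δ : ℂ} {n : ℤ} (hn : 0 ≤ n) (hx : Real.sin x = 0)
    (hδ : 2 ^ k * ‖δ‖ ≤ 1 / 48) :
    ‖sin (x + t * I + δ)‖ ^ n ≤ Real.exp (n * lam k x t + |(n : ℝ)| * (48 * 2 ^ k * ‖δ‖)) := by
  have e : (x : ℂ) + t * I + δ = x + (t - δ * I) * I := by
    linear_combination δ * Complex.I_mul_I
  rw [e, norm_sin_x hx, norm_sin_I, lam_core hx]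
  have hd : ‖(t - δ * I : ℂ) - t‖ = ‖δ‖ := by
    rw [show (t - δ * I : ℂ) - t = -(δ * I) by ring, norm_neg, norm_mul, norm_I, mul_one]
  have h1 := sinh_le_GK (k := k) (abs_im_le (ζ := t - δ * I) (by rw [hd]; exact hδ))
  have h2 := GK_disp_real (k := k) (ζ := t - δ * I) (by rw [hd]; exact hδ)
  rw [hd] at h2
  obtain ⟨m, rfl⟩ := Int.eq_ofNat_of_zero_le hn
  rw [zpow_natCast]
  have h3 : (0 : ℝ) ≤ ((m : ℤ) : ℝ) := by positivity
  rw [abs_of_nonneg h3]
  have h4 := (abs_le.1 h2).2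
  calc ‖sinh (t - δ * I)‖ ^ m ≤ Real.exp (GK k (t - δ * I)) ^ m :=
        pow_le_pow_left₀ (norm_nonneg _) h1 m
    _ ≤ Real.exp (GK k t + 48 * 2 ^ k * ‖δ‖) ^ m := by
        refine pow_le_pow_left₀ (Real.exp_pos _).le (Real.exp_le_exp.2 (by linarith)) m
    _ = _ := by
        rw [← Real.exp_nat_mul]
        push_cast
        ring_nf

/-- a sine with a zero on the reference line, core at the exact point `ζ` -/
lemma fac_core {k : ℕ} {x t η : ℝ} {δ ζ : ℂ} (n : ℤ) (hx : Real.sin x = 0) (h0 : sinh ζ ≠ 0)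
    (hζ : 2 ^ k * ‖ζ - t‖ ≤ 1 / 48) (hη : ‖(t - δ * I) - ζ‖ * (1 + 1 / ‖sinh ζ‖) ≤ η)
    (hη' : η ≤ 1 / 16) :
    ‖sin (x + t * I + δ)‖ ^ n ≤
      Real.exp (n * (lam k x t + Real.log ‖tanh ((2 : ℂ) ^ k * ζ)‖) +
      |(n : ℝ)| * (8 * η + 48 * 2 ^ k * ‖ζ - t‖)) := by
  have e : (x : ℂ) + t * I + δ = x + (t - δ * I) * I := by
    linear_combination δ * Complex.I_mul_I
  rw [e, norm_sin_x hx, lam_core hx]
  have hs : ‖sin (ζ * I)‖ = ‖sinh ζ‖ := norm_sin_I ζ
  have hpos : 0 < ‖sinh ζ‖ := norm_pos_iff.2 h0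
  have hna : ‖((t - δ * I) - ζ) * I‖ = ‖(t - δ * I) - ζ‖ := by rw [norm_mul, norm_I, mul_one]
  have h1 := log_sin_disp (z := ζ * I) (a := ((t - δ * I) - ζ) * I) hpos (le_of_eq hs.symm)
    (by rw [hna]; linarith)
  have h1' := sin_ne_zero_of_disp (z := ζ * I) (a := ((t - δ * I) - ζ) * I) hpos
    (le_of_eq hs.symm) (by rw [hna]; linarith)
  have e2 : ζ * I + ((t - δ * I) - ζ) * I = (t - δ * I) * I := by ring
  rw [e2] at h1 h1'
  rw [hs, hna] at h1
  have h2 := GK_eq (abs_im_le hζ) h0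
  have h3 := GK_disp_real hζ
  refine zpow_le_exp (norm_pos_iff.2 h1') ?_ n
  have h4 : 8 * ‖(t - δ * I) - ζ‖ * (1 + 1 / ‖sinh ζ‖) ≤ 8 * η := by linarith
  have h5 : Real.log ‖sin ((t - δ * I) * I)‖ - (GK k t + Real.log ‖tanh ((2 : ℂ) ^ k * ζ)‖) =
      (Real.log ‖sin ((t - δ * I) * I)‖ - Real.log ‖sinh ζ‖) + (GK k ζ - GK k t) := by
    rw [← h2]
    ring
  rw [h5]
  exact (abs_add_le _ _).trans (add_le_add (h1.trans h4) h3)

/-! ### products of sines -/

/-- energy of a product of sines at the reference distance `x l + i t` -/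
def Lam (k : ℕ) (L : List (ℤ × ℤ)) (x t : ℝ) : ℝ :=
  (L.map fun p => (p.2 : ℝ) * lam k ((x + p.1) * l) t).sum

/-- total degree -/
def dg (L : List (ℤ × ℤ)) : ℝ := (L.map fun p => |(p.2 : ℝ)|).sum

/-- total power of the sines which vanish on the reference line -/
def n0 (L : List (ℤ × ℤ)) (x : ℝ) : ℤ :=
  (L.map fun p => if Real.sin ((x + p.1) * l) = 0 then p.2 else 0).sum

lemma Lam_cons (k : ℕ) (p : ℤ × ℤ) (L : List (ℤ × ℤ)) (x t : ℝ) :
    Lam k (p :: L) x t = (p.2 : ℝ) * lam k ((x + p.1) * l) t + Lam k L x t := by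
  simp [Lam]

lemma dg_cons (p : ℤ × ℤ) (L : List (ℤ × ℤ)) : dg (p :: L) = |(p.2 : ℝ)| + dg L := by
  simp [dg]

lemma n0_cons (p : ℤ × ℤ) (L : List (ℤ × ℤ)) (x : ℝ) :
    n0 (p :: L) x = (if Real.sin ((x + p.1) * l) = 0 then p.2 else 0) + n0 L x := by
  simp [n0]

lemma dg_nonneg (L : List (ℤ × ℤ)) : 0 ≤ dg L := by
  unfold dg
  refine List.sum_nonneg fun x hx => ?_
  obtain ⟨a, _, rfl⟩ := List.mem_map.1 hx
  positivity

lemma arg_eq (x t : ℝ) (δ : ℂ) (n : ℤ) :
    ((x * l : ℝ) : ℂ) + t * I + δ + n * l = (((x + n) * l : ℝ) : ℂ) + t * I + δ := by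
  push_cast
  ring

/-- the constant of the displacement errors -/
def K0 (k : ℕ) (κ : ℝ) : ℝ := 8 * (1 + 1 / κ) + 48 * 2 ^ k

lemma K0_ge1 {k : ℕ} {κ : ℝ} : 8 * (1 + 1 / κ) ≤ K0 k κ := by
  unfold K0
  have : (0 : ℝ) < 2 ^ k := by positivity
  linarith

lemma K0_ge2 {k : ℕ} {κ : ℝ} (hκ : 0 < κ) : 48 * 2 ^ k ≤ K0 k κ := by
  unfold K0
  have : 0 < 1 / κ := by positivity
  linarith

/-- **no zero with negative power on the reference line** -/
theorem PZ_le {k : ℕ} {L : List (ℤ × ℤ)} {x t κ : ℝ} {δ : ℂ} (hκ : 0 < κ)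
    (hL : ∀ p ∈ L, κ ≤ |Real.sin ((x + p.1) * l)| ∨
      (Real.sin ((x + p.1) * l) = 0 ∧ 0 ≤ p.2)) (hδ : K0 k κ * ‖δ‖ ≤ 1 / 2) :
    PZ L (((x * l : ℝ) : ℂ) + t * I + δ) ≤ Real.exp (Lam k L x t + dg L * (K0 k κ * ‖δ‖)) := by
  have hk : 0 < 1 / κ := by positivity
  have h2k : (1 : ℝ) ≤ 2 ^ k := one_le_pow₀ (by norm_num)
  have hn := norm_nonneg δ
  have hδ1 : 8 * (1 + 1 / κ) * ‖δ‖ ≤ 1 / 2 :=
    (mul_le_mul_of_nonneg_right K0_ge1 hn).trans hδ
  have hδ2 : 48 * 2 ^ k * ‖δ‖ ≤ 1 / 2 :=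
    (mul_le_mul_of_nonneg_right (K0_ge2 hκ) hn).trans hδ
  induction L with
  | nil => simp [PZ_nil, Lam, dg]
  | cons p L ih =>
    have h1 := ih fun p' hp' => hL p' (List.mem_cons_of_mem _ hp')
    have hp : ‖sin (((x * l : ℝ) : ℂ) + t * I + δ + p.1 * l)‖ ^ p.2 ≤
        Real.exp ((p.2 : ℝ) * lam k ((x + p.1) * l) t + |(p.2 : ℝ)| * (K0 k κ * ‖δ‖)) := by
      rw [arg_eq]
      rcases hL p List.mem_cons_self with h | ⟨h, h'⟩
      · refine (fac_reg (k := k) p.2 hκ h (by nlinarith)).trans (Real.exp_le_exp.2 ?_)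
        have : 8 * ‖δ‖ * (1 + 1 / κ) ≤ K0 k κ * ‖δ‖ := by
          have := mul_le_mul_of_nonneg_right (K0_ge1 (k := k) (κ := κ)) hn
          linarith
        have := mul_le_mul_of_nonneg_left this (abs_nonneg (p.2 : ℝ))
        linarith
      · refine (fac_pos (k := k) h' h (by nlinarith)).trans (Real.exp_le_exp.2 ?_)
        have : 48 * 2 ^ k * ‖δ‖ ≤ K0 k κ * ‖δ‖ :=
          mul_le_mul_of_nonneg_right (K0_ge2 hκ) hn
        have := mul_le_mul_of_nonneg_left this (abs_nonneg (p.2 : ℝ))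
        linarith
    rw [PZ_cons, Lam_cons, dg_cons]
    calc _ ≤ Real.exp ((p.2 : ℝ) * lam k ((x + p.1) * l) t + |(p.2 : ℝ)| * (K0 k κ * ‖δ‖)) *
          Real.exp (Lam k L x t + dg L * (K0 k κ * ‖δ‖)) :=
          mul_le_mul hp h1 (PZ_nonneg _ _) (Real.exp_pos _).le
      _ = _ := by
          rw [← Real.exp_add]
          congr 1
          ring

/-- **cores at the exact point `ζ`** -/
theorem PZ_core_le {k : ℕ} {L : List (ℤ × ℤ)} {x t κ η : ℝ} {δ ζ : ℂ} (hκ : 0 < κ)
    (hL : ∀ p ∈ L, κ ≤ |Real.sin ((x + p.1) * l)| ∨ Real.sin ((x + p.1) * l) = 0)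
    (hδ : K0 k κ * ‖δ‖ ≤ 1 / 2) (h0 : sinh ζ ≠ 0) (hζ : 2 ^ k * ‖ζ - t‖ ≤ 1 / 48)
    (hη : ‖(t - δ * I) - ζ‖ * (1 + 1 / ‖sinh ζ‖) ≤ η) (hη' : η ≤ 1 / 16) :
    PZ L (((x * l : ℝ) : ℂ) + t * I + δ) ≤
      Real.exp (Lam k L x t + n0 L x * Real.log ‖tanh ((2 : ℂ) ^ k * ζ)‖ +
        dg L * (K0 k κ * (‖δ‖ + ‖ζ - t‖) + 8 * η)) := by
  have hk : 0 < 1 / κ := by positivity
  have h2k : (1 : ℝ) ≤ 2 ^ k := one_le_pow₀ (by norm_num)
  have hn := norm_nonneg δ
  have hn' := norm_nonneg (ζ - t)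
  have hδ1 : 8 * (1 + 1 / κ) * ‖δ‖ ≤ 1 / 2 :=
    (mul_le_mul_of_nonneg_right K0_ge1 hn).trans hδ
  have hη0 : 0 ≤ η := by
    refine le_trans ?_ hη
    positivity
  have hK : 0 ≤ K0 k κ := by
    unfold K0
    positivity
  induction L with
  | nil => simp [PZ_nil, Lam, dg, n0]
  | cons p L ih =>
    have h1 := ih fun p' hp' => hL p' (List.mem_cons_of_mem _ hp')
    have hp : ‖sin (((x * l : ℝ) : ℂ) + t * I + δ + p.1 * l)‖ ^ p.2 ≤
        Real.exp ((p.2 : ℝ) * lam k ((x + p.1) * l) t +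
          ((if Real.sin ((x + p.1) * l) = 0 then p.2 else 0 : ℤ) : ℝ) *
            Real.log ‖tanh ((2 : ℂ) ^ k * ζ)‖ +
          |(p.2 : ℝ)| * (K0 k κ * (‖δ‖ + ‖ζ - t‖) + 8 * η)) := by
      rw [arg_eq]
      rcases hL p List.mem_cons_self with h | h
      · have hne : Real.sin ((x + p.1) * l) ≠ 0 := fun h' => by
          rw [h', abs_zero] at h
          linarith
        rw [if_neg hne]
        refine (fac_reg (k := k) p.2 hκ h (by nlinarith)).trans (Real.exp_le_exp.2 ?_)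
        have : 8 * ‖δ‖ * (1 + 1 / κ) ≤ K0 k κ * (‖δ‖ + ‖ζ - t‖) + 8 * η := by
          have h5 := mul_le_mul_of_nonneg_right (K0_ge1 (k := k) (κ := κ)) hn
          have h6 := mul_nonneg hK hn'
          linarith
        have := mul_le_mul_of_nonneg_left this (abs_nonneg (p.2 : ℝ))
        push_cast
        linarith
      · rw [if_pos h]
        refine (fac_core (k := k) p.2 h h0 hζ hη hη').trans (Real.exp_le_exp.2 ?_)
        have : 8 * η + 48 * 2 ^ k * ‖ζ - t‖ ≤ K0 k κ * (‖δ‖ + ‖ζ - t‖) + 8 * η := by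
          have h5 := mul_le_mul_of_nonneg_right (K0_ge2 (k := k) hκ) hn'
          have h6 := mul_nonneg hK hn
          linarith
        have := mul_le_mul_of_nonneg_left this (abs_nonneg (p.2 : ℝ))
        linarith
    rw [PZ_cons, Lam_cons, dg_cons, n0_cons]
    refine (mul_le_mul hp h1 (PZ_nonneg _ _) (Real.exp_pos _).le).trans (le_of_eq ?_)
    rw [← Real.exp_add]
    congr 1
    push_cast
    ring

/-! ### constituents -/

/-- classes of constituents: `L` quantum, string of `St`, string of `S, Sv, Svv`, satellite -/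
inductive Con
  | L | T | S | V
  deriving DecidableEq

instance : Fintype Con := ⟨{.L, .T, .S, .V}, fun x => by cases x <;> decide⟩

/-- type (`true` = string) -/
def Con.ty : Con → Bool
  | .L => false
  | .T => true
  | .S => true
  | .V => false

/-- is the species the species of the object? -/
def Con.own : Con → Bool
  | .V => false
  | _ => true

/-- real part of the reference line, unit `l` -/
def Con.cp (jL e : ℝ) : Con → ℝ
  | .L => 1 - jL
  | .T => -(1 / 2)
  | .S => -(1 + e)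
  | .V => 1 - e

/-- the constituents of a kind -/
def cl : Kind → List Con
  | .L => [.L]
  | .St => [.T]
  | .S => [.S]
  | .Sv => [.S, .V]
  | .Svv => [.S, .V, .V]

/-- species of a constituent -/
def csp (x : Xo) (c : Con) : Bool := if c.own then sp x else !sp x

/-- displacement of a constituent -/
def dsp (P : Par) {r : ℕ} (O : Fin r → Xo) (i : Fin r) : Con → ℂ
  | .L => 0
  | .T => 0
  | .S => -(((ei P O i - P.e) * l : ℝ) : ℂ)
  | .V => -(((ei P O i - P.e) * l : ℝ) : ℂ) +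
      if kd (O i) = .Sv then rr P O i * Complex.exp (2 * Real.pi * an (O i) * I) else 0

/-- position of a constituent -/
def cpos (P : Par) {r : ℕ} (O : Fin r → Xo) (i : Fin r) (c : Con) : ℂ :=
  ((c.cp P.jL P.e * l : ℝ) : ℂ) + ht (O i) * I + dsp P O i c

theorem cons_eq (P : Par) {r : ℕ} (O : Fin r → Xo) (i : Fin r) :
    cons P O i = (cl (kd (O i))).map fun c => (csp (O i) c, c.ty, cpos P O i c) := by
  unfold cons parts cpos csp
  rcases hk : kd (O i) with _ | _ | _ | _ | _ <;>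
    simp only [cl, List.map_cons, List.map_nil, Con.own, Con.ty, Con.cp, dsp, hk, posL, posT, posS,
      posV, vl, if_true, add_zero, if_false, Bool.false_eq_true, reduceCtorEq] <;>
    norm_num <;> ring_nf <;> simp

/-- same species? (`σ` for the objects) -/
def eqs (σ : Bool) (a b : Con) : Bool := σ == (a.own == b.own)

lemma csp_eq (x y : Xo) (a b : Con) : (csp x a == csp y b) = eqs (sp x == sp y) a b := by
  unfold csp eqs
  rcases sp x <;> rcases sp y <;> rcases a.own <;> rcases b.own <;> rfl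

/-- the sines of the pair of constituents `a`, `b` of two objects -/
def LL (σ : Bool) (a b : Con) : List (ℤ × ℤ) := Ls (eqs σ a b) a.ty b.ty

/-- distance of the reference lines -/
def df (jL e : ℝ) (a b : Con) : ℝ := a.cp jL e - b.cp jL e

lemma dg_le (σ : Bool) (a b : Con) : dg (LL σ a b) ≤ 8 := by
  rcases σ <;> rcases a <;> rcases b <;>
    simp [LL, Ls, Lp, Lc, eqs, Con.own, Con.ty, dg] <;> norm_num

/-- **direct energy of two objects in reference positions, cores removed** -/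
def Dr (k : ℕ) (jL e : ℝ) (σ : Bool) (κ κ' : Kind) (t : ℝ) : ℝ :=
  -((cl κ).map fun a => ((cl κ').map fun b => Lam k (LL σ a b) (df jL e a b) t).sum).sum

lemma prod_le_exp {γ : Type*} (L : List γ) (u v : γ → ℝ) (h0 : ∀ c ∈ L, 0 ≤ u c)
    (h : ∀ c ∈ L, u c ≤ Real.exp (v c)) : (L.map u).prod ≤ Real.exp ((L.map v).sum) := by
  induction L with
  | nil => simp
  | cons c L ih =>
    rw [List.map_cons, List.map_cons, List.prod_cons, List.sum_cons, Real.exp_add]
    refine mul_le_mul (h c List.mem_cons_self)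
      (ih (fun c' hc' => h0 c' (List.mem_cons_of_mem _ hc'))
        fun c' hc' => h c' (List.mem_cons_of_mem _ hc')) ?_ (Real.exp_pos _).le
    refine List.prod_nonneg fun x hx => ?_
    obtain ⟨a, ha, rfl⟩ := List.mem_map.1 hx
    exact h0 a (List.mem_cons_of_mem _ ha)

lemma prod_prod_le {α β : Type*} (A : List α) (B : List β) (f g : α → β → ℝ)
    (h0 : ∀ a ∈ A, ∀ b ∈ B, 0 ≤ f a b) (h : ∀ a ∈ A, ∀ b ∈ B, f a b ≤ Real.exp (g a b)) :
    (A.map fun a => (B.map fun b => f a b).prod).prod ≤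
      Real.exp ((A.map fun a => (B.map fun b => g a b).sum).sum) := by
  refine prod_le_exp A _ _ (fun a ha => ?_) fun a ha => prod_le_exp B _ _ (h0 a ha) (h a ha)
  refine List.prod_nonneg fun x hx => ?_
  obtain ⟨b, hb, rfl⟩ := List.mem_map.1 hx
  exact h0 a ha b hb

theorem pairN_eq (P : Par) {r : ℕ} (O : Fin r → Xo) (i j : Fin r) :
    pairN P O i j = ((cl (kd (O i))).map fun a => ((cl (kd (O j))).map fun b =>
      ‖pp (csp (O i) a, a.ty, cpos P O i a) (csp (O j) b, b.ty, cpos P O j b)‖).prod).prod := by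
  unfold pairN ppN
  rw [cons_eq, cons_eq, List.map_map]
  congr 1
  refine List.map_congr_left fun a _ => ?_
  simp only [Function.comp, List.map_map]
  rfl

lemma cpos_sub (P : Par) {r : ℕ} (O : Fin r → Xo) (i j : Fin r) (a b : Con) :
    cpos P O i a - cpos P O j b = ((df P.jL P.e a b * l : ℝ) : ℂ) +
      ((ht (O i) - ht (O j) : ℝ) : ℂ) * I + (dsp P O i a - dsp P O j b) := by
  unfold cpos df
  push_cast
  ring

/-! ### coincidences of the reference lines -/

lemma sin_l_ne {y : ℝ} (h0 : y ≠ 0) (h1 : -8 < y) (h2 : y < 8) : Real.sin (y * l) ≠ 0 := by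
  have hl : 0 < l := NUP1.l_pos
  have hpi := eight_l
  rcases lt_or_gt_of_ne h0 with h | h
  · have : 0 < Real.sin (-(y * l)) := by
      apply Real.sin_pos_of_pos_of_lt_pi
      · nlinarith
      · nlinarith
    rw [Real.sin_neg] at this
    linarith
  · exact (Real.sin_pos_of_pos_of_lt_pi (by positivity) (by nlinarith)).ne'

/-- bounds of `2 df` -/
def lh : Con → Con → ℤ × ℤ
  | .L, .L => (-1, 1)
  | .L, .T => (-3, -1)
  | .L, .S => (-2, 2)
  | .L, .V => (-6, -2)
  | .T, .L => (1, 3)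
  | .T, .T => (-1, 1)
  | .T, .S => (1, 3)
  | .T, .V => (-3, -1)
  | .S, .L => (-2, 2)
  | .S, .T => (-3, -1)
  | .S, .S => (-1, 1)
  | .S, .V => (-5, -3)
  | .V, .L => (2, 6)
  | .V, .T => (1, 3)
  | .V, .S => (3, 5)
  | .V, .V => (-1, 1)

lemma df_mem {jL e : ℝ} (he : 0 < e) (he1 : e < 1) (hj : 2 < jL) (hj3 : jL < 3) (a b : Con) :
    ((lh a b).1 : ℝ) < 2 * df jL e a b ∧ 2 * df jL e a b < ((lh a b).2 : ℝ) := by
  rcases a <;> rcases b <;> simp only [lh, df, Con.cp] <;> norm_num <;>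
    constructor <;> linarith

lemma chk1 : ∀ σ a b, ¬(σ = true ∧ ((a = Con.S ∧ b = Con.V) ∨ (a = Con.V ∧ b = Con.S))) →
    ∀ p ∈ LL σ a b, p.2 < 0 → ((lh a b).2 + 2 * p.1 ≤ 0 ∧ -16 ≤ (lh a b).1 + 2 * p.1) ∨
      (0 ≤ (lh a b).1 + 2 * p.1 ∧ (lh a b).2 + 2 * p.1 ≤ 16) := by
  decide +kernel

/-- negative powers vanish on the reference lines only for a string and a satellite of one object
species -/
theorem neg_ne {jL e : ℝ} (he : 0 < e) (he1 : e < 1) (hj : 2 < jL) (hj3 : jL < 3) (σ : Bool)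
    (a b : Con) (hab : ¬(σ = true ∧ ((a = .S ∧ b = .V) ∨ (a = .V ∧ b = .S)))) :
    ∀ p ∈ LL σ a b, p.2 < 0 → Real.sin ((df jL e a b + p.1) * l) ≠ 0 := by
  intro p hp hn
  have h := df_mem he he1 hj hj3 a b
  rcases chk1 σ a b hab p hp hn with ⟨h1, h2⟩ | ⟨h1, h2⟩
  · have h1' : ((lh a b).2 : ℝ) + 2 * p.1 ≤ 0 := by exact_mod_cast h1
    have h2' : (-16 : ℝ) ≤ ((lh a b).1 : ℝ) + 2 * p.1 := by exact_mod_cast h2
    exact sin_l_ne (by intro h0; linarith) (by linarith) (by linarith)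
  · have h1' : 0 ≤ ((lh a b).1 : ℝ) + 2 * p.1 := by exact_mod_cast h1
    have h2' : ((lh a b).2 : ℝ) + 2 * p.1 ≤ (16 : ℝ) := by exact_mod_cast h2
    exact sin_l_ne (by intro h0; linarith) (by linarith) (by linarith)

/-! ### the constant `κ` -/

lemma exists_kap (L : List ℝ) : ∃ κ : ℝ, 0 < κ ∧ ∀ y ∈ L, κ ≤ |y| ∨ y = 0 := by
  induction L with
  | nil => exact ⟨1, one_pos, by simp⟩
  | cons y L ih =>
    obtain ⟨κ, h0, h⟩ := ih
    by_cases hy : y = 0
    · refine ⟨κ, h0, fun z hz => ?_⟩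
      rcases List.mem_cons.1 hz with rfl | hz
      · exact Or.inr hy
      · exact h z hz
    · refine ⟨min κ |y|, lt_min h0 (abs_pos.2 hy), fun z hz => ?_⟩
      rcases List.mem_cons.1 hz with rfl | hz
      · exact Or.inl (min_le_right _ _)
      · exact (h z hz).imp (fun h' => (min_le_left _ _).trans h') id

theorem exists_kappa (jL e : ℝ) : ∃ κ : ℝ, 0 < κ ∧ ∀ σ a b, ∀ p ∈ LL σ a b,
    κ ≤ |Real.sin ((df jL e a b + p.1) * l)| ∨ Real.sin ((df jL e a b + p.1) * l) = 0 := by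
  have h := fun i : Bool × Con × Con => exists_kap
    ((LL i.1 i.2.1 i.2.2).map fun p => Real.sin ((df jL e i.2.1 i.2.2 + p.1) * l))
  choose κ h0 h using h
  obtain ⟨ε, hε, hε'⟩ := exists_kap
    ((Finset.univ : Finset (Bool × Con × Con)).toList.map κ)
  refine ⟨ε, hε, fun σ a b p hp => ?_⟩
  have h1 : ε ≤ κ (σ, a, b) := by
    rcases hε' (κ (σ, a, b)) (List.mem_map.2 ⟨_, Finset.mem_toList.2 (Finset.mem_univ _), rfl⟩)
      with h1 | h1
    · rwa [abs_of_pos (h0 _)] at h1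
    · exact absurd h1 (h0 _).ne'
  exact (h (σ, a, b) _ (List.mem_map.2 ⟨p, hp, rfl⟩)).imp (fun h' => h1.trans h') id

/-! ### families -/

/-- family of a kind: cores are kept for two objects of one species and one family -/
def fam : Kind → Fin 3
  | .L => 0
  | .St => 1
  | .S => 2
  | .Sv => 2
  | .Svv => 2

/-- charge -/
def Qk : Kind → ℤ
  | .L => 1
  | .St => 1
  | .S => -1
  | .Sv => 0
  | .Svv => 1

/-- reference distance of two constituents of one family -/
def dfi : Con → Con → ℤ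
  | .S, .V => -2
  | .V, .S => 2
  | _, _ => 0

lemma df_eq_dfi (jL e : ℝ) : ∀ κ κ' : Kind, fam κ = fam κ' → ∀ a ∈ cl κ, ∀ b ∈ cl κ',
    df jL e a b = dfi a b := by
  intro κ κ' h a ha b hb
  rcases κ <;> rcases κ' <;> simp [fam] at h <;> simp [cl] at ha hb <;>
    (try rcases ha with rfl | rfl) <;> (try rcases hb with rfl | rfl) <;>
    simp [df, Con.cp, dfi, *] <;> ring

lemma n0_int (L : List (ℤ × ℤ)) (m : ℤ) (hL : ∀ p ∈ L, |m + p.1| < 8) :
    n0 L m = (L.map fun p => if m + p.1 = 0 then p.2 else 0).sum := by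
  induction L with
  | nil => rfl
  | cons p L ih =>
    rw [n0_cons, ih fun p' hp' => hL p' (List.mem_cons_of_mem _ hp'), List.map_cons,
      List.sum_cons]
    congr 1
    have h1 := abs_lt.1 (hL p List.mem_cons_self)
    by_cases h : m + p.1 = 0
    · have h' : ((m : ℝ) + p.1) = 0 := by exact_mod_cast h
      rw [if_pos h, if_pos (by rw [h', zero_mul, Real.sin_zero])]
    · have h' : ((m : ℝ) + p.1) ≠ 0 := by exact_mod_cast h
      rw [if_neg h, if_neg]
      refine sin_l_ne h' ?_ ?_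
      · exact_mod_cast h1.1
      · exact_mod_cast h1.2

lemma chk2 : ∀ κ κ', fam κ = fam κ' → ∀ a ∈ cl κ, ∀ b ∈ cl κ', ∀ p ∈ LL true a b,
    |dfi a b + p.1| < 8 := by
  decide +kernel

lemma chk3 : ∀ κ κ', fam κ = fam κ' →
    ((cl κ).map fun a => ((cl κ').map fun b =>
      ((LL true a b).map fun p => if dfi a b + p.1 = 0 then p.2 else 0).sum).sum).sum =
      2 * (Qk κ * Qk κ') := by
  decide +kernel

theorem n0_sum (jL e : ℝ) {κ κ' : Kind} (h : fam κ = fam κ') :
    ((cl κ).map fun a => ((cl κ').map fun b => n0 (LL true a b) (df jL e a b)).sum).sum =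
      2 * (Qk κ * Qk κ') := by
  rw [← chk3 κ κ' h]
  congr 1
  refine List.map_congr_left fun a ha => ?_
  congr 1
  refine List.map_congr_left fun b hb => ?_
  rw [df_eq_dfi jL e κ κ' h a ha b hb]
  exact n0_int _ _ (chk2 κ κ' h a ha b hb)

/-! ### lines and core points -/

lemma rk_le {r : ℕ} (O : Fin r → Xo) (i : Fin r) : rk O i ≤ r := by
  unfold rk
  exact (Finset.card_le_univ _).trans (le_of_eq (Fintype.card_fin r))

lemma rk_lt {r : ℕ} (O : Fin r → Xo) {i j : Fin r} (hij : i < j) (hs : sp (O i) = sp (O j)) :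
    rk O i < rk O j := by
  unfold rk
  refine Finset.card_lt_card (Finset.ssubset_iff_of_subset ?_ |>.2 ⟨i, ?_, ?_⟩)
  · intro x hx
    rw [Finset.mem_filter] at hx ⊢
    exact ⟨hx.1, hx.2.1.trans hij, hx.2.2.trans hs⟩
  · rw [Finset.mem_filter]
    exact ⟨Finset.mem_univ _, hij, hs⟩
  · rw [Finset.mem_filter]
    intro h
    exact lt_irrefl _ h.2.1

lemma rk_ne {r : ℕ} (O : Fin r → Xo) {i j : Fin r} (hij : i ≠ j) (hs : sp (O i) = sp (O j)) :
    (1 : ℝ) ≤ |(rk O i : ℝ) - rk O j| := by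
  rcases lt_or_gt_of_ne hij with h | h
  · have h1 : ((rk O i : ℕ) : ℝ) + 1 ≤ rk O j := by exact_mod_cast rk_lt O h hs
    rw [abs_sub_comm, abs_of_nonneg (by linarith)]
    linarith
  · have h1 : ((rk O j : ℕ) : ℝ) + 1 ≤ rk O i := by exact_mod_cast rk_lt O h hs.symm
    rw [abs_of_nonneg (by linarith)]
    linarith

variable (P : Par) {r : ℕ} (O : Fin r → Xo)

/-- shift of the core point of an object -/
def sh (i : Fin r) : ℝ := if fam (kd (O i)) = 2 then (ei P O i - P.e) * l else 0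

/-- core point of an object -/
def zc (i : Fin r) : ℂ := ht (O i) + sh P O i * I

lemma ei_sub (i : Fin r) : ei P O i - P.e = P.d r * (rk O i / r) := by
  unfold ei
  ring

lemma l_le : l ≤ 2 / 5 := by
  unfold l
  linarith [Real.pi_lt_d2]

lemma l_ge : 3 / 8 ≤ l := by
  unfold l
  linarith [Real.pi_gt_three]

lemma ei_abs (hd : 0 ≤ P.d r) (i : Fin r) : |ei P O i - P.e| ≤ P.d r := by
  rw [ei_sub, abs_mul, abs_of_nonneg hd]
  have h1 : |(rk O i : ℝ) / r| ≤ 1 := by
    rw [abs_of_nonneg (by positivity)]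
    have h2 : ((rk O i : ℕ) : ℝ) ≤ r := by exact_mod_cast rk_le O i
    have h3 : (0 : ℝ) < r := by
      have := i.pos
      exact_mod_cast this
    rw [div_le_one h3]
    exact h2
  nlinarith

lemma dsp_norm (hd : 0 ≤ P.d r) (i : Fin r) (hρ : 0 ≤ rr P O i) (a : Con) :
    ‖dsp P O i a‖ ≤ P.d r * l + rr P O i := by
  have hl := NUP1.l_pos
  have h1 : ‖(((ei P O i - P.e) * l : ℝ) : ℂ)‖ ≤ P.d r * l := by
    rw [Complex.norm_real, Real.norm_eq_abs, abs_mul, abs_of_pos hl]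
    exact mul_le_mul_of_nonneg_right (ei_abs P O hd i) hl.le
  have h0 : 0 ≤ P.d r * l := by positivity
  have hexp : ‖Complex.exp (2 * Real.pi * an (O i) * I)‖ = 1 := by
    rw [show (2 * Real.pi * an (O i) * I : ℂ) = ((2 * Real.pi * an (O i) : ℝ) : ℂ) * I by
      push_cast; ring, Complex.norm_exp_ofReal_mul_I]
  rcases a with _ | _ | _ | _
  · simp only [dsp, norm_zero]
    positivity
  · simp only [dsp, norm_zero]
    positivity
  · simp only [dsp, norm_neg]
    linarith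
  · simp only [dsp]
    refine (norm_add_le _ _).trans ?_
    rw [norm_neg]
    refine add_le_add h1 ?_
    split_ifs
    · rw [norm_mul, hexp, mul_one, Complex.norm_real, Real.norm_of_nonneg hρ]
    · rw [norm_zero]
      exact hρ

/-- the constituents of an object are near its core point -/
lemma dsp_core (i : Fin r) (hρ : 0 ≤ rr P O i) (a : Con) (ha : a ∈ cl (kd (O i))) :
    ‖dsp P O i a + sh P O i‖ ≤ if fam (kd (O i)) = 2 then rr P O i else 0 := by
  have hexp : ‖Complex.exp (2 * Real.pi * an (O i) * I)‖ = 1 := by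
    rw [show (2 * Real.pi * an (O i) * I : ℂ) = ((2 * Real.pi * an (O i) : ℝ) : ℂ) * I by
      push_cast; ring, Complex.norm_exp_ofReal_mul_I]
  rcases hk : kd (O i) with _ | _ | _ | _ | _ <;> rw [hk] at ha <;>
    simp only [cl, List.mem_cons, List.not_mem_nil, or_false] at ha <;>
    simp only [sh, hk, fam, if_true] <;>
    (try rcases ha with rfl | rfl | rfl) <;> simp only [dsp, hk] <;> (try simp) <;> (try exact hρ)
  all_goals rw [hexp, mul_one, abs_of_nonneg hρ]

lemma sum_split {α β : Type*} (A : List α) (B : List β) (g : α → β → ℝ) (n : α → β → ℤ)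
    (T E : ℝ) :
    (A.map fun a => (B.map fun b => g a b + n a b * T + E).sum).sum =
      (A.map fun a => (B.map fun b => g a b).sum).sum +
        ((A.map fun a => (B.map fun b => n a b).sum).sum : ℤ) * T + A.length * B.length * E := by
  have h1 : ∀ a, (B.map fun b => g a b + n a b * T + E).sum =
      (B.map fun b => g a b).sum + ((B.map fun b => n a b).sum : ℤ) * T + B.length * E := by
    intro a
    induction B with
    | nil => simp
    | cons b B ih =>
      simp only [List.map_cons, List.sum_cons, List.length_cons, ih]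
      push_cast
      ring
  simp only [h1]
  induction A with
  | nil => simp
  | cons a A ih =>
    simp only [List.map_cons, List.sum_cons, List.length_cons, ih]
    push_cast
    ring

lemma len_cl (κ : Kind) : ((cl κ).length : ℝ) ≤ 3 := by
  rcases κ <;> simp [cl] <;> norm_num

/-- power of the kept core of two objects -/
def qq (x y : Xo) : ℤ :=
  if sp x = sp y ∧ fam (kd x) = fam (kd y) then Qk (kd x) * Qk (kd y) else 0

lemma pairN_pp_le (i j : Fin r) (a b : Con) :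
    ‖pp (csp (O i) a, a.ty, cpos P O i a) (csp (O j) b, b.ty, cpos P O j b)‖ ≤
      PZ (LL (sp (O i) == sp (O j)) a b) (((df P.jL P.e a b * l : ℝ) : ℂ) +
        ((ht (O i) - ht (O j) : ℝ) : ℂ) * I + (dsp P O i a - dsp P O j b)) := by
  have h := pp_le (csp (O i) a, a.ty, cpos P O i a) (csp (O j) b, b.ty, cpos P O j b)
  simp only [csp_eq] at h
  rwa [cpos_sub] at h

lemma delta_le (hd : 0 < P.d r) (hρ : ∀ i, 0 ≤ rr P O i ∧ rr P O i ≤ P.d r / (224 * r ^ 2))
    (i j : Fin r) (a b : Con) : ‖dsp P O i a - dsp P O j b‖ ≤ P.d r := by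
  have h1 := dsp_norm P O hd.le i (hρ i).1 a
  have h2 := dsp_norm P O hd.le j (hρ j).1 b
  have hr : (1 : ℝ) ≤ r := by
    have := i.pos
    exact_mod_cast this
  have h3 : P.d r / (224 * r ^ 2) ≤ P.d r / 224 := by
    apply div_le_div_of_nonneg_left hd.le (by norm_num)
    nlinarith
  have h4 := (hρ i).2.trans h3
  have h5 := (hρ j).2.trans h3
  have h6 := l_le
  have h7 := norm_sub_le (dsp P O i a) (dsp P O j b)
  nlinarith

/-- **pairs without a kept core** -/
theorem pair_le_A {k : ℕ} {κ0 : ℝ} (he : 0 < P.e) (he1 : P.e < 1) (hj : 2 < P.jL)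
    (hj3 : P.jL < 3) (hκ : 0 < κ0) (hκL : ∀ σ a b, ∀ p ∈ LL σ a b,
      κ0 ≤ |Real.sin ((df P.jL P.e a b + p.1) * l)| ∨ Real.sin ((df P.jL P.e a b + p.1) * l) = 0)
    (hd : 0 < P.d r) (hd1 : K0 k κ0 * P.d r ≤ 1 / 2)
    (hρ : ∀ i, 0 ≤ rr P O i ∧ rr P O i ≤ P.d r / (224 * r ^ 2)) (i j : Fin r)
    (hij : ¬(sp (O i) = sp (O j) ∧ fam (kd (O i)) = fam (kd (O j)))) :
    pairN P O i j ≤ Real.exp (-Dr k P.jL P.e (sp (O i) == sp (O j)) (kd (O i)) (kd (O j))
      (ht (O i) - ht (O j)) + 72 * (K0 k κ0 * P.d r)) := by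
  have hK : 0 ≤ K0 k κ0 := by
    unfold K0
    positivity
  set σ := (sp (O i) == sp (O j)) with hσ
  rw [pairN_eq]
  refine (prod_prod_le (cl (kd (O i))) (cl (kd (O j))) _
    (fun a b => Lam k (LL σ a b) (df P.jL P.e a b) (ht (O i) - ht (O j)) + (0 : ℤ) * 0 +
      8 * (K0 k κ0 * P.d r)) (fun _ _ _ _ => norm_nonneg _) ?_).trans ?_
  · intro a ha b hb
    refine (pairN_pp_le P O i j a b).trans ?_
    have hδ := delta_le P O hd hρ i j a b
    have hns : ¬(σ = true ∧ ((a = .S ∧ b = .V) ∨ (a = .V ∧ b = .S))) := by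
      rintro ⟨h1, h2⟩
      rw [hσ, beq_iff_eq] at h1
      apply hij
      refine ⟨h1, ?_⟩
      rcases h2 with ⟨rfl, rfl⟩ | ⟨rfl, rfl⟩ <;>
      · rcases hi : kd (O i) <;> rcases hj : kd (O j) <;> rw [hi] at ha <;> rw [hj] at hb <;>
          simp [cl] at ha hb <;> simp [fam]
    refine (PZ_le (k := k) hκ ?_ ?_).trans (Real.exp_le_exp.2 ?_)
    · intro p hp
      rcases hκL σ a b p hp with h | h
      · exact Or.inl h
      · refine Or.inr ⟨h, ?_⟩
        by_contra hneg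
        exact neg_ne he he1 hj hj3 σ a b hns p hp (not_le.1 hneg) h
    · exact (mul_le_mul_of_nonneg_left hδ hK).trans hd1
    · have h1 : dg (LL σ a b) * (K0 k κ0 * ‖dsp P O i a - dsp P O j b‖) ≤
          8 * (K0 k κ0 * P.d r) :=
        mul_le_mul (dg_le σ a b) (mul_le_mul_of_nonneg_left hδ hK)
          (mul_nonneg hK (norm_nonneg _)) (by norm_num)
      linarith
  · rw [Real.exp_le_exp, sum_split]
    have h1 : ((cl (kd (O i))).length : ℝ) * (cl (kd (O j))).length ≤ 9 := by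
      have h2 := len_cl (kd (O i))
      have h3 := len_cl (kd (O j))
      have h4 : (0 : ℝ) ≤ (cl (kd (O i))).length := by positivity
      have h5 : (0 : ℝ) ≤ (cl (kd (O j))).length := by positivity
      nlinarith
    have h6 : 0 ≤ 8 * (K0 k κ0 * P.d r) := by positivity
    have h7 := mul_le_mul_of_nonneg_right h1 h6
    unfold Dr
    linarith

lemma zc_sub (i j : Fin r) : zc P O i - zc P O j =
    ((ht (O i) - ht (O j) : ℝ) : ℂ) + ((sh P O i - sh P O j : ℝ) : ℂ) * I := by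
  unfold zc
  push_cast
  ring

lemma sh_abs (hd : 0 ≤ P.d r) (i : Fin r) : |sh P O i| ≤ P.d r * l := by
  have hl := NUP1.l_pos
  unfold sh
  split_ifs
  · rw [abs_mul, abs_of_pos hl]
    exact mul_le_mul_of_nonneg_right (ei_abs P O hd i) hl.le
  · rw [abs_zero]
    positivity

lemma pp_zero_of {i j : Fin r} (hs : sp (O i) = sp (O j))
    (hf : fam (kd (O i)) = fam (kd (O j))) (h2 : fam (kd (O i)) ≠ 2)
    (ht0 : ht (O i) = ht (O j)) : pairN P O i j = 0 := by
  rw [pairN_eq]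
  rcases hi : kd (O i) <;> rcases hj : kd (O j) <;> rw [hi, hj] at hf <;>
    simp [fam] at hf <;> rw [hi] at h2 <;> simp [fam] at h2 <;>
    simp only [cl, List.map_cons, List.map_nil, List.prod_cons, List.prod_nil, mul_one]
  · have e : cpos P O i .L - cpos P O j .L = 0 := by
      rw [cpos_sub]
      simp [df, dsp, ht0]
    unfold pp
    simp only [csp, Con.own, Con.ty, if_true, hs, e, Kn.pz, q]
    simp
  · have e : cpos P O i .T - cpos P O j .T = 0 := by
      rw [cpos_sub]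
      simp [df, dsp, ht0]
    unfold pp
    simp only [csp, Con.own, Con.ty, if_true, hs, e, Kn.pz, q2, q1]
    simp

/-- lower bound of the distance of two core points -/
lemma core_far (hd : 0 < P.d r) (hd1 : P.d r ≤ 1) {i j : Fin r} (hij : i ≠ j)
    (hs : sp (O i) = sp (O j)) (hf : fam (kd (O i)) = fam (kd (O j)))
    (h2 : fam (kd (O i)) = 2) : P.d r / (6 * r) ≤ ‖sinh (zc P O i - zc P O j)‖ := by
  have hr : (1 : ℝ) ≤ r := by
    have := i.pos
    exact_mod_cast this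
  have e1 : sh P O i - sh P O j = P.d r * l / r * ((rk O i : ℝ) - rk O j) := by
    unfold sh
    rw [if_pos h2, if_pos (hf ▸ h2), ei_sub, ei_sub]
    ring
  have hl := NUP1.l_pos
  have hl1 := l_ge
  have hl2 := l_le
  set u := sh P O i - sh P O j with hu
  have hu1 : P.d r * l / r ≤ |u| := by
    rw [e1, abs_mul, abs_of_pos (by positivity)]
    have := rk_ne O hij hs
    have h0 : 0 < P.d r * l / r := by positivity
    nlinarith
  have hu2 : |u| ≤ 1 := by
    rw [hu]
    have h3 := sh_abs P O hd.le i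
    have h4 := sh_abs P O hd.le j
    have h5 := abs_sub (sh P O i) (sh P O j)
    nlinarith
  have h6 : ‖sinh (zc P O i - zc P O j)‖ ^ 2 =
      Real.sinh (ht (O i) - ht (O j)) ^ 2 + Real.sin u ^ 2 := by
    rw [NUCollT.norm_sinh_sq, zc_sub]
    simp [hu]
  have h7 : |u| / 2 ≤ |Real.sin u| := by
    have h8 : 0 ≤ |u| := abs_nonneg u
    have h9 := Real.mul_le_sin h8 (by linarith [Real.pi_gt_three])
    have h10 : |Real.sin u| = Real.sin |u| := by
      rcases le_total 0 u with h | h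
      · rw [abs_of_nonneg h, abs_of_nonneg (Real.sin_nonneg_of_nonneg_of_le_pi h (by
          rw [abs_of_nonneg h] at hu2; linarith [Real.pi_gt_three]))]
      · rw [abs_of_nonpos h, Real.sin_neg, abs_of_nonpos]
        have : 0 ≤ Real.sin (-u) := Real.sin_nonneg_of_nonneg_of_le_pi (by linarith) (by
          rw [abs_of_nonpos h] at hu2; linarith [Real.pi_gt_three])
        rw [Real.sin_neg] at this
        linarith
    rw [h10]
    have h11 : 1 / 2 ≤ 2 / Real.pi := by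
      rw [div_le_div_iff₀ (by norm_num) Real.pi_pos]
      linarith [Real.pi_le_four]
    nlinarith
  have h12 : P.d r / (6 * r) ≤ |u| / 2 := by
    refine le_trans ?_ (div_le_div_of_nonneg_right hu1 (by norm_num))
    rw [div_div, div_le_div_iff₀ (by positivity) (by positivity)]
    nlinarith [mul_pos hd (by linarith : (0 : ℝ) < r)]
  have h13 : |Real.sin u| ≤ ‖sinh (zc P O i - zc P O j)‖ := by
    rw [← abs_of_nonneg (norm_nonneg (sinh (zc P O i - zc P O j))), ← sq_le_sq, h6]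
    nlinarith [sq_nonneg (Real.sinh (ht (O i) - ht (O j)))]
  linarith

/-- **pairs with a kept core** -/
theorem pair_le_B {k : ℕ} {κ0 : ℝ} (hκ : 0 < κ0) (hκL : ∀ σ a b, ∀ p ∈ LL σ a b,
      κ0 ≤ |Real.sin ((df P.jL P.e a b + p.1) * l)| ∨ Real.sin ((df P.jL P.e a b + p.1) * l) = 0)
    (hd : 0 < P.d r) (hd1 : K0 k κ0 * P.d r ≤ 1 / 2)
    (hρ : ∀ i, 0 ≤ rr P O i ∧ rr P O i ≤ P.d r / (224 * r ^ 2)) {i j : Fin r} (hij : i ≠ j)
    (hs : sp (O i) = sp (O j)) (hf : fam (kd (O i)) = fam (kd (O j))) :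
    pairN P O i j ≤ Real.exp (-Dr k P.jL P.e (sp (O i) == sp (O j)) (kd (O i)) (kd (O j))
      (ht (O i) - ht (O j)) + 2 * (Qk (kd (O i)) * Qk (kd (O j)) : ℤ) *
        Real.log ‖tanh ((2 : ℂ) ^ k * (zc P O i - zc P O j))‖ +
        (144 * (K0 k κ0 * P.d r) + 36 / r)) := by
  have hK48 : 48 * 2 ^ k ≤ K0 k κ0 := K0_ge2 hκ
  have h2k : (1 : ℝ) ≤ 2 ^ k := one_le_pow₀ (by norm_num)
  have hK : 0 ≤ K0 k κ0 := by linarith
  have hr : (1 : ℝ) ≤ r := by
    have := i.pos
    exact_mod_cast this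
  have hdd : P.d r ≤ 1 := by nlinarith
  have hl := NUP1.l_pos
  have hl2 := l_le
  by_cases h00 : fam (kd (O i)) ≠ 2 ∧ ht (O i) = ht (O j)
  · rw [pp_zero_of P O hs hf h00.1 h00.2]
    exact (Real.exp_pos _).le
  set ζ := zc P O i - zc P O j with hζdef
  have hpos : 0 < ‖sinh ζ‖ := by
    by_cases h2 : fam (kd (O i)) = 2
    · refine lt_of_lt_of_le ?_ (core_far P O hd hdd hij hs hf h2)
      positivity
    · have hne : ht (O i) ≠ ht (O j) := fun h => h00 ⟨h2, h⟩
      rw [norm_pos_iff, hζdef, zc_sub]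
      unfold sh
      rw [if_neg h2, if_neg (hf ▸ h2), sub_zero, Complex.ofReal_zero, zero_mul, add_zero,
        ← Complex.ofReal_sinh]
      rw [Complex.ofReal_ne_zero, Real.sinh_ne_zero]
      exact sub_ne_zero.2 hne
  set t := ht (O i) - ht (O j) with htdef
  have hζt : ζ - t = ((sh P O i - sh P O j : ℝ) : ℂ) * I := by
    rw [hζdef, zc_sub]
    ring
  have hζn : ‖ζ - t‖ ≤ P.d r := by
    rw [hζt, norm_mul, norm_I, mul_one, Complex.norm_real, Real.norm_eq_abs]
    have h3 := sh_abs P O hd.le i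
    have h4 := sh_abs P O hd.le j
    have h5 := abs_sub (sh P O i) (sh P O j)
    nlinarith
  set σ := (sp (O i) == sp (O j)) with hσ
  have hσt : σ = true := by rw [hσ, beq_iff_eq]; exact hs
  rw [pairN_eq]
  have hη : ∀ a ∈ cl (kd (O i)), ∀ b ∈ cl (kd (O j)),
      ‖((t : ℂ) - (dsp P O i a - dsp P O j b) * I) - ζ‖ * (1 + 1 / ‖sinh ζ‖) ≤ 1 / (16 * r) := by
    intro a ha b hb
    have e : ((t : ℂ) - (dsp P O i a - dsp P O j b) * I) - ζ =
        -((dsp P O i a + sh P O i) - (dsp P O j b + sh P O j)) * I := by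
      have : ζ = t + ((sh P O i - sh P O j : ℝ) : ℂ) * I := by rw [← hζt]; ring
      rw [this]
      push_cast
      ring
    rw [e, norm_mul, norm_neg, norm_I, mul_one]
    have h1 := dsp_core P O i (hρ i).1 a ha
    have h2 := dsp_core P O j (hρ j).1 b hb
    have h3 := norm_sub_le (dsp P O i a + sh P O i) (dsp P O j b + sh P O j)
    by_cases h4 : fam (kd (O i)) = 2
    · rw [if_pos h4] at h1
      rw [if_pos (hf ▸ h4)] at h2
      have h5 := core_far P O hd hdd hij hs hf h4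
      have h6 : 1 / ‖sinh ζ‖ ≤ 6 * r / P.d r := by
        rw [div_le_div_iff₀ hpos hd]
        rw [div_le_iff₀ (by positivity)] at h5
        linarith
      have h7 : 1 + 1 / ‖sinh ζ‖ ≤ 7 * r / P.d r := by
        have : 1 ≤ r / P.d r := by
          rw [le_div_iff₀ hd]
          linarith
        have e : 7 * r / P.d r = r / P.d r + 6 * r / P.d r := by ring
        rw [e]
        linarith
      have h8 : ‖(dsp P O i a + sh P O i) - (dsp P O j b + sh P O j)‖ ≤
          P.d r / (112 * r ^ 2) := by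
        have h9 := (hρ i).2
        have h10 := (hρ j).2
        have : P.d r / (112 * (r : ℝ) ^ 2) = P.d r / (224 * r ^ 2) + P.d r / (224 * r ^ 2) := by
          field_simp
          norm_num
        rw [this]
        linarith
      calc _ ≤ P.d r / (112 * (r : ℝ) ^ 2) * (7 * r / P.d r) :=
            mul_le_mul h8 h7 (by positivity) (by positivity)
        _ = 1 / (16 * r) := by
            field_simp
            norm_num
    · rw [if_neg h4] at h1
      rw [if_neg (hf ▸ h4)] at h2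
      have h5 : ‖(dsp P O i a + sh P O i) - (dsp P O j b + sh P O j)‖ = 0 :=
        le_antisymm (by linarith) (norm_nonneg _)
      rw [h5, zero_mul]
      positivity
  have h16 : (1 : ℝ) / (16 * r) ≤ 1 / 16 := by
    apply div_le_div_of_nonneg_left (by norm_num) (by norm_num)
    linarith
  refine (prod_prod_le (cl (kd (O i))) (cl (kd (O j))) _
    (fun a b => Lam k (LL σ a b) (df P.jL P.e a b) t + n0 (LL true a b) (df P.jL P.e a b) *
      Real.log ‖tanh ((2 : ℂ) ^ k * ζ)‖ + (16 * (K0 k κ0 * P.d r) + 4 / r))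
      (fun _ _ _ _ => norm_nonneg _) ?_).trans ?_
  · intro a ha b hb
    refine (pairN_pp_le P O i j a b).trans ?_
    have hδ := delta_le P O hd hρ i j a b
    refine (PZ_core_le (k := k) hκ (hκL σ a b) ((mul_le_mul_of_nonneg_left hδ hK).trans hd1)
      (norm_pos_iff.1 hpos) ?_ (hη a ha b hb) h16).trans (Real.exp_le_exp.2 ?_)
    · have : 2 ^ k * ‖ζ - t‖ ≤ 2 ^ k * P.d r := mul_le_mul_of_nonneg_left hζn (by positivity)
      nlinarith
    · rw [← hσt]
      have h1 : dg (LL σ a b) * (K0 k κ0 * (‖dsp P O i a - dsp P O j b‖ + ‖ζ - t‖) +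
          8 * (1 / (16 * r))) ≤ 8 * (K0 k κ0 * (P.d r + P.d r) + 8 * (1 / (16 * r))) := by
        refine mul_le_mul (dg_le σ a b) ?_ ?_ (by norm_num)
        · have := mul_le_mul_of_nonneg_left (add_le_add hδ hζn) hK
          linarith
        · have := mul_nonneg hK (add_nonneg (norm_nonneg (dsp P O i a - dsp P O j b))
            (norm_nonneg (ζ - t)))
          positivity
      have h2 : 8 * (8 * (1 / (16 * (r : ℝ)))) = 4 / r := by
        field_simp
        norm_num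
      linarith
  · rw [Real.exp_le_exp, sum_split, n0_sum _ _ hf]
    have h1 : ((cl (kd (O i))).length : ℝ) * (cl (kd (O j))).length ≤ 9 := by
      have h2 := len_cl (kd (O i))
      have h3 := len_cl (kd (O j))
      have h4 : (0 : ℝ) ≤ (cl (kd (O i))).length := by positivity
      have h5 : (0 : ℝ) ≤ (cl (kd (O j))).length := by positivity
      nlinarith
    have h6 : 0 ≤ 16 * (K0 k κ0 * P.d r) + 4 / r := by positivity
    have h7 := mul_le_mul_of_nonneg_right h1 h6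
    have h8 : (9 : ℝ) * (4 / r) = 36 / r := by ring
    unfold Dr
    push_cast
    linarith

/-- **direct pair weights of the objects in exact positions** -/
theorem pair_le (k : ℕ) {jL e : ℝ} (he : 0 < e) (he1 : e < 1) (hj : 2 < jL) (hj3 : jL < 3) :
    ∃ C c : ℝ, 0 ≤ C ∧ 0 < c ∧ ∀ P : Par, P.jL = jL → P.e = e → ∀ (r : ℕ) (O : Fin r → Xo),
      0 < P.d r → P.d r ≤ c → (∀ i, 0 ≤ rr P O i ∧ rr P O i ≤ P.d r / (224 * r ^ 2)) →
      ∀ i j, i ≠ j → pairN P O i j ≤
        Real.exp (-Dr k jL e (sp (O i) == sp (O j)) (kd (O i)) (kd (O j)) (ht (O i) - ht (O j)) +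
          2 * (qq (O i) (O j) : ℝ) * Real.log ‖tanh ((2 : ℂ) ^ k * (zc P O i - zc P O j))‖ +
          C * (P.d r + 1 / r)) := by
  obtain ⟨κ, hκ, hκL⟩ := exists_kappa jL e
  have hK48 : 48 * 2 ^ k ≤ K0 k κ := K0_ge2 hκ
  have h2k : (1 : ℝ) ≤ 2 ^ k := one_le_pow₀ (by norm_num)
  have hK : 48 ≤ K0 k κ := by linarith
  refine ⟨144 * K0 k κ, 1 / (2 * K0 k κ), by positivity, by positivity, ?_⟩
  intro P hP1 hP2 r O hd hdc hρ i j hij
  subst hP1
  subst hP2
  have hd1 : K0 k κ * P.d r ≤ 1 / 2 := by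
    rw [le_div_iff₀ (by positivity)] at hdc
    linarith
  have hr : (1 : ℝ) ≤ r := by
    have := i.pos
    exact_mod_cast this
  have hr1 : 0 < 1 / (r : ℝ) := by positivity
  have hKd : 0 ≤ K0 k κ * P.d r := by positivity
  have e1 : (36 : ℝ) / r = 36 * (1 / r) := by ring
  have e2 : 36 * (1 / (r : ℝ)) ≤ 144 * K0 k κ * (1 / r) := by
    apply mul_le_mul_of_nonneg_right _ hr1.le
    linarith
  by_cases h : sp (O i) = sp (O j) ∧ fam (kd (O i)) = fam (kd (O j))
  · refine (pair_le_B P O (k := k) hκ hκL hd hd1 hρ hij h.1 h.2).trans (Real.exp_le_exp.2 ?_)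
    unfold qq
    rw [if_pos h]
    rw [e1]
    linarith
  · refine (pair_le_A P O (k := k) he he1 hj hj3 hκ hκL hd hd1 hρ i j h).trans
      (Real.exp_le_exp.2 ?_)
    unfold qq
    rw [if_neg h]
    push_cast
    have : 0 ≤ 144 * K0 k κ * (1 / (r : ℝ)) := by positivity
    linarith

/-- charge of an object, species `s`, family `{S, Sv, Svv}` -/
def qs (s : Bool) (x : Xo) : ℤ := if sp x = s ∧ fam (kd x) = 2 then Qk (kd x) else 0

lemma Qk_cases (κ : Kind) : Qk κ = -1 ∨ Qk κ = 0 ∨ Qk κ = 1 := by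
  rcases κ <;> simp [Qk]

lemma qs_cases (s : Bool) (x : Xo) : qs s x = -1 ∨ qs s x = 0 ∨ qs s x = 1 := by
  unfold qs
  split_ifs
  · exact Qk_cases _
  · exact Or.inr (Or.inl rfl)

lemma qq_sum (x y : Xo) : (fam (kd x) = 2 → fam (kd y) = 2 →
    qq x y = ∑ s : Bool, qs s x * qs s y) ∧
    (¬(fam (kd x) = 2 ∧ fam (kd y) = 2) → ∑ s : Bool, qs s x * qs s y = 0 ∧ 0 ≤ qq x y ∧
      (qq x y ≠ 0 → fam (kd x) ≠ 2 ∧ fam (kd y) ≠ 2)) := by
  obtain ⟨⟨s, κ⟩, u⟩ := x
  obtain ⟨⟨s', κ'⟩, u'⟩ := y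
  simp only [Fintype.sum_bool, qq, qs, sp, kd]
  rcases s <;> rcases s' <;> rcases κ <;> rcases κ' <;> simp [fam, Qk]

lemma im_small (hd : 0 < P.d r) {k : ℕ} (hdk : 2 ^ k * P.d r ≤ 1 / 48) (i j : Fin r) :
    |(2 : ℝ) ^ k * (zc P O i - zc P O j).im| ≤ Real.pi / 4 := by
  have e : (zc P O i - zc P O j).im = sh P O i - sh P O j := by
    rw [zc_sub]
    simp
  rw [e, abs_mul, abs_of_pos (by positivity : (0 : ℝ) < 2 ^ k)]
  have h3 := sh_abs P O hd.le i
  have h4 := sh_abs P O hd.le j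
  have h5 := abs_sub (sh P O i) (sh P O j)
  have h6 := l_le
  have h7 : |sh P O i - sh P O j| ≤ P.d r := by nlinarith
  have h8 := mul_le_mul_of_nonneg_left h7 (by positivity : (0 : ℝ) ≤ 2 ^ k)
  linarith [Real.pi_gt_three]

lemma zc_far (hd : 0 < P.d r) {i j : Fin r} (hij : i ≠ j) (hs : sp (O i) = sp (O j))
    (hi : fam (kd (O i)) = 2) (hj : fam (kd (O j)) = 2) :
    P.d r * l / r ≤ ‖zc P O i - zc P O j‖ := by
  have hr : (1 : ℝ) ≤ r := by
    have := i.pos
    exact_mod_cast this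
  have hl := NUP1.l_pos
  have e : (zc P O i - zc P O j).im = sh P O i - sh P O j := by
    rw [zc_sub]
    simp
  refine le_trans ?_ (Complex.abs_im_le_norm _)
  rw [e]
  unfold sh
  rw [if_pos hi, if_pos hj, ei_sub, ei_sub]
  rw [show P.d r * ((rk O i : ℝ) / r) * l - P.d r * ((rk O j : ℝ) / r) * l =
    P.d r * l / r * ((rk O i : ℝ) - rk O j) by ring, abs_mul, abs_of_pos (by positivity)]
  have := rk_ne O hij hs
  have h0 : 0 < P.d r * l / r := by positivity
  nlinarith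

/-- **sum of the cores**: the cost is only per object of kind `S` -/
theorem core_sum {k : ℕ} (hd : 0 < P.d r) (hdk : 2 ^ k * P.d r ≤ 1 / 48) :
    ∑ i, ∑ j ∈ Finset.univ.erase i, (qq (O i) (O j) : ℝ) *
      Real.log ‖tanh ((2 : ℂ) ^ k * (zc P O i - zc P O j))‖ ≤
    2 * (Finset.univ.filter fun i => kd (O i) = Kind.S).card *
      Real.log (r * (2 + 2 / (2 ^ k * (P.d r * l / r)))) := by
  rcases Nat.eq_zero_or_pos r with hr0 | hr0
  · subst hr0
    simp
  have hr : (0 : ℝ) < r := by exact_mod_cast hr0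
  have hl := NUP1.l_pos
  have hterm : ∀ i, ∀ j ∈ Finset.univ.erase i, (qq (O i) (O j) : ℝ) *
      Real.log ‖tanh ((2 : ℂ) ^ k * (zc P O i - zc P O j))‖ ≤
      ∑ s : Bool, ((qs s (O i) : ℝ) * qs s (O j)) *
        Real.log ‖tanh (((2 ^ k : ℝ) : ℂ) * (zc P O i - zc P O j))‖ := by
    intro i j _
    have e2 : (((2 ^ k : ℝ) : ℂ)) = (2 : ℂ) ^ k := by push_cast; rfl
    rw [e2, ← Finset.sum_mul]
    have h := qq_sum (O i) (O j)
    by_cases h2 : fam (kd (O i)) = 2 ∧ fam (kd (O j)) = 2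
    · rw [h.1 h2.1 h2.2]
      push_cast
      exact le_rfl
    · obtain ⟨h3, h4, h5⟩ := h.2 h2
      have h3' : ∑ s : Bool, ((qs s (O i) : ℝ) * qs s (O j)) = 0 := by exact_mod_cast h3
      rw [h3', zero_mul]
      have h4' : (0 : ℝ) ≤ qq (O i) (O j) := by exact_mod_cast h4
      refine mul_nonpos_of_nonneg_of_nonpos h4' (Real.log_nonpos (norm_nonneg _) ?_)
      refine NUCollT.norm_tanh_le_one ?_
      have e3 : ((2 : ℂ) ^ k * (zc P O i - zc P O j)).im =
          (2 : ℝ) ^ k * (zc P O i - zc P O j).im := by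
        rw [← e2, Complex.im_ofReal_mul]
      rw [e3]
      exact im_small P O hd hdk i j
  refine (Finset.sum_le_sum fun i _ => Finset.sum_le_sum (hterm i)).trans ?_
  have hcomm : ∑ i, ∑ j ∈ Finset.univ.erase i, ∑ s : Bool,
      ((qs s (O i) : ℝ) * qs s (O j)) *
        Real.log ‖tanh (((2 ^ k : ℝ) : ℂ) * (zc P O i - zc P O j))‖ =
      ∑ s : Bool, ∑ i, ∑ j ∈ Finset.univ.erase i, ((qs s (O i) : ℝ) * qs s (O j)) *
        Real.log ‖tanh (((2 ^ k : ℝ) : ℂ) * (zc P O i - zc P O j))‖ := by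
    rw [Finset.sum_comm' (s := Finset.univ) (t := fun _ => Finset.univ) (t' := Finset.univ)
      (s' := fun _ => Finset.univ) (by simp)]
    refine Finset.sum_congr rfl fun i _ => ?_
    rw [Finset.sum_comm]
  rw [hcomm]
  have hcoll : ∀ s : Bool, ∑ i, ∑ j ∈ Finset.univ.erase i,
      ((qs s (O i) : ℝ) * qs s (O j)) *
        Real.log ‖tanh (((2 ^ k : ℝ) : ℂ) * (zc P O i - zc P O j))‖ ≤
      2 * (Finset.univ.filter fun i => qs s (O i) = -1).card *
        Real.log (r * (2 + 2 / (2 ^ k * (P.d r * l / r)))) := by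
    intro s
    have h := NUCollT.coll_tanh (fun i => qs s (O i)) (zc P O) ((2 : ℝ) ^ k) (P.d r * l / r)
      (by positivity) (by positivity) (fun i => qs_cases s (O i))
      (fun i j => im_small P O hd hdk i j) (fun i j hij hi hj => by
        have h1 : sp (O i) = s ∧ fam (kd (O i)) = 2 := by
          by_contra h'
          exact hi (if_neg h')
        have h2 : sp (O j) = s ∧ fam (kd (O j)) = 2 := by
          by_contra h'
          exact hj (if_neg h')
        exact zc_far P O hd hij (h1.1.trans h2.1.symm) h1.2 h2.2)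
    rw [Fintype.card_fin] at h
    exact h
  refine (Finset.sum_le_sum fun s _ => hcoll s).trans (le_of_eq ?_)
  rw [← Finset.sum_mul, ← Finset.mul_sum]
  congr 2
  rw [← Nat.cast_sum]
  congr 1
  rw [← Finset.card_biUnion]
  · congr 1
    ext i
    simp only [Finset.mem_biUnion, Finset.mem_univ, true_and, Finset.mem_filter]
    constructor
    · rintro ⟨s, hs⟩
      unfold qs at hs
      split_ifs at hs with h
      rcases hk : kd (O i) <;> rw [hk] at hs <;> simp [Qk] at hs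
    · intro h
      refine ⟨sp (O i), ?_⟩
      unfold qs
      rw [h]
      simp [fam, Qk]
  · intro s _ s' _ hss
    rw [Function.onFun, Finset.disjoint_left]
    intro i hi hi'
    rw [Finset.mem_filter] at hi hi'
    have h1 : sp (O i) = s := by
      by_contra h'
      have := hi.2
      unfold qs at this
      rw [if_neg (fun h => h' h.1)] at this
      norm_num at this
    have h2 : sp (O i) = s' := by
      by_contra h'
      have := hi'.2
      unfold qs at this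
      rw [if_neg (fun h => h' h.1)] at this
      norm_num at this
    exact hss (h1.symm.trans h2)

/-- kept core of two objects, exact positions -/
def coreO (k : ℕ) (i j : Fin r) : ℝ :=
  -(2 * (qq (O i) (O j) : ℝ) * Real.log ‖tanh ((2 : ℂ) ^ k * (zc P O i - zc P O j))‖)

/-- **sum of the cores over the ordered pairs** -/
theorem core_ge {k : ℕ} (hd : 0 < P.d r) (hdk : 2 ^ k * P.d r ≤ 1 / 48) :
    -(4 * (Finset.univ.filter fun i => kd (O i) = Kind.S).card *
      Real.log (r * (2 + 2 / (2 ^ k * (P.d r * l / r))))) ≤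
    ∑ i, ∑ j ∈ Finset.univ.erase i, coreO P O k i j := by
  have h := core_sum P O (k := k) hd hdk
  have e : ∑ i, ∑ j ∈ Finset.univ.erase i, coreO P O k i j =
      -2 * ∑ i, ∑ j ∈ Finset.univ.erase i, (qq (O i) (O j) : ℝ) *
        Real.log ‖tanh ((2 : ℂ) ^ k * (zc P O i - zc P O j))‖ := by
    rw [Finset.mul_sum]
    refine Finset.sum_congr rfl fun i _ => ?_
    rw [Finset.mul_sum]
    refine Finset.sum_congr rfl fun j _ => ?_
    unfold coreO
    ring
  rw [e]
  linarith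

/-- **direct energies of the objects in exact positions** (form of `NUM3.stab`): the error is
`C (d + 1 / r)` per pair; one constant for all configurations -/
theorem direct_le (k : ℕ) {jL e : ℝ} (he : 0 < e) (he1 : e < 1) (hj : 2 < jL) (hj3 : jL < 3) :
    ∃ C c : ℝ, 0 ≤ C ∧ 0 < c ∧ 2 ^ k * c ≤ 1 / 48 ∧ ∀ P : Par, P.jL = jL → P.e = e →
      ∀ (r : ℕ) (O : Fin r → Xo), 0 < P.d r → P.d r ≤ c →
      (∀ i, 0 ≤ rr P O i ∧ rr P O i ≤ P.d r / (224 * r ^ 2)) →
      ∀ i j, i ≠ j → 0 < pairN P O i j →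
        coreO P O k i j +
          Dr k jL e (sp (O i) == sp (O j)) (kd (O i)) (kd (O j)) (ht (O i) - ht (O j)) -
          C * (P.d r + 1 / r) ≤ -Real.log (pairN P O i j) := by
  obtain ⟨C, c, hC, hc, h⟩ := pair_le k he he1 hj hj3
  refine ⟨C, min c (1 / (48 * 2 ^ k)), hC, lt_min hc (by positivity), ?_, ?_⟩
  · have h1 := min_le_right c (1 / (48 * 2 ^ k))
    have h2 : (2 : ℝ) ^ k * (1 / (48 * 2 ^ k)) = 1 / 48 := by
      field_simp
    have h3 := mul_le_mul_of_nonneg_left h1 (by positivity : (0 : ℝ) ≤ 2 ^ k)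
    linarith
  · intro P hP1 hP2 r O hd hdc hρ i j hij hpos
    have h1 := h P hP1 hP2 r O hd (hdc.trans (min_le_left _ _)) hρ i j hij
    rw [← Real.log_le_iff_le_exp hpos] at h1
    unfold coreO
    linarith

end NUDispO
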