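import Pool.Agent.NUO.DirP3
import Pool.Agent.NUO.DispO

/-!
# `Rdir = Dr`

The reference direct energies of `NUO/DirP3` (offsets in `l / 8`) and of `NUO/DispO` agree.
-/

set_option autoImplicit false

noncomputable section

open Complex

namespace NUDispO

open NUP1 NUO NUDispR NUDirP

lemma GK_eq_GCn (k : ℕ) (ζ : ℂ) : GK k ζ = GCn k ζ := rfl

lemma fl_eq (σ a b : Bool) : fl σ a b = Ls σ a b := by
  cases σ <;> cases a <;> cases b <;> rfl

lemma lam_eq_sl (k : ℕ) (x : ℤ) (t : ℝ) : lam k ((x : ℝ) * (l / 8)) t = sl k x t := by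
  by_cases h : (64 : ℤ) ∣ x
  · obtain ⟨m, rfl⟩ := h
    have e : (((64 * m : ℤ) : ℝ)) * (l / 8) = m * Real.pi := by
      rw [l8]
      push_cast
      ring
    have h0 : Real.sin ((((64 * m : ℤ) : ℝ)) * (l / 8)) = 0 := by
      rw [e, Real.sin_int_mul_pi]
    rw [lam_core h0, sl, if_pos (dvd_mul_right _ _)]
    rfl
  · have h1 := sin_ge h
    have h0 : Real.sin ((x : ℝ) * (l / 8)) ≠ 0 := by
      intro h2
      rw [h2, abs_zero] at h1
      norm_num at h1
    rw [lam_reg h0, sl, if_neg h]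

lemma Rc_eq (k : ℕ) (σ a b : Bool) (N : ℤ) (t : ℝ) :
    Rc k σ a b N t = -Lam k (Ls σ a b) ((N : ℝ) / 8) t := by
  unfold Rc Lam
  rw [fl_eq]
  congr 2
  refine List.map_congr_left fun p _ => ?_
  rw [← lam_eq_sl]
  congr 2
  push_cast
  ring

/-- the constituents of `NUDirP` from those of `NUDispO` -/
lemma rp_eq (ne nL : ℤ) (s : Bool) (κ : Kind) : rp ne nL s κ =
    (cl κ).map fun c => ((if c.own then s else !s), c.ty,
      (match c with
        | .L => 8 - nL
        | .T => -4
        | .S => -(8 + ne)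
        | .V => 8 - ne : ℤ)) := by
  cases κ <;> rfl

lemma off_eq (ne nL : ℤ) (c : Con) : (((match c with
        | .L => 8 - nL
        | .T => -4
        | .S => -(8 + ne)
        | .V => 8 - ne : ℤ)) : ℝ) / 8 = c.cp ((nL : ℝ) / 8) ((ne : ℝ) / 8) := by
  cases c <;> simp only [Con.cp] <;> push_cast <;> ring

lemma sum_neg' {α : Type*} (L : List α) (f : α → ℝ) :
    (L.map fun a => -f a).sum = -(L.map f).sum := by
  induction L with
  | nil => simp
  | cons a L ih => simp only [List.map_cons, List.sum_cons, ih]; ring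

/-- **the two forms of the direct energy agree** -/
theorem Rdir_eq_Dr (k : ℕ) (ne nL : ℤ) (σ : Bool) (κ κ' : Kind) (t : ℝ) :
    Rdir k ne nL σ κ κ' t = Dr k ((nL : ℝ) / 8) ((ne : ℝ) / 8) σ κ κ' t := by
  have key : ∀ a b : Con, ∀ x y : ℤ, (x : ℝ) / 8 = a.cp ((nL : ℝ) / 8) ((ne : ℝ) / 8) →
      (y : ℝ) / 8 = b.cp ((nL : ℝ) / 8) ((ne : ℝ) / 8) →
      Rc k ((if a.own then true else !true) == (if b.own then σ else !σ)) a.ty b.ty (x - y) t =
        -Lam k (LL σ a b) (df ((nL : ℝ) / 8) ((ne : ℝ) / 8) a b) t := by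
    intro a b x y hx hy
    rw [Rc_eq, LL, df, ← hx, ← hy]
    have e1 : ((if a.own then true else !true) == (if b.own then σ else !σ)) = eqs σ a b := by
      unfold eqs
      cases σ <;> cases a.own <;> cases b.own <;> rfl
    rw [e1]
    congr 2
    push_cast
    ring
  unfold Rdir Dr S2
  rw [rp_eq, rp_eq, List.map_map]
  have h1 : ∀ a ∈ cl κ, ((fun a : Bool × Bool × ℤ => (List.map (fun b : Bool × Bool × ℤ =>
      Rc k (a.1 == b.1) a.2.1 b.2.1 (a.2.2 - b.2.2) t)
      ((cl κ').map fun c => ((if c.own then σ else !σ), c.ty, (match c with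
        | .L => 8 - nL
        | .T => -4
        | .S => -(8 + ne)
        | .V => 8 - ne : ℤ)))).sum) ∘ fun c : Con => ((if c.own then true else !true), c.ty,
      (match c with
        | .L => 8 - nL
        | .T => -4
        | .S => -(8 + ne)
        | .V => 8 - ne : ℤ))) a =
      -(List.map (fun b => Lam k (LL σ a b) (df ((nL : ℝ) / 8) ((ne : ℝ) / 8) a b) t)
        (cl κ')).sum := by
    intro a _
    simp only [Function.comp, List.map_map]
    rw [← sum_neg']
    congr 1
    refine List.map_congr_left fun b _ => ?_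
    simp only [Function.comp]
    exact key a b _ _ (off_eq ne nL a) (off_eq ne nL b)
  rw [List.map_congr_left h1, sum_neg']

/-- the parameters of the construction: `e = 1 / 4`, `jL = 9 / 4` -/
theorem Rdir_eq_Dr_std (k : ℕ) (σ : Bool) (κ κ' : Kind) (t : ℝ) :
    Rdir k 2 18 σ κ κ' t = Dr k (9 / 4) (1 / 4) σ κ κ' t := by
  rw [Rdir_eq_Dr]
  norm_num

end NUDispO
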