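import Pool.Agent.NUO.DirP6

/-!
# Direct pair functions of the objects, part 7: the sum of the cores
-/

set_option autoImplicit false
set_option linter.unusedSimpArgs false
set_option linter.unusedVariables false

noncomputable section

open Complex Finset

namespace NUDirP

open NUP1 NUO NUDispR

/-- the harmonic sum as a real number -/
def Hr (r : ℕ) : ℝ := ∑ n ∈ Icc 1 r, 1 / (n : ℝ)

lemma Hr_le (r : ℕ) : Hr r ≤ 1 + Real.log r := by
  have h := harmonic_le_one_add_log r
  have e : (harmonic r : ℝ) = Hr r := by
    unfold harmonic Hr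
    push_cast
    clear h
    induction r with
    | zero => simp
    | succ r ih =>
      rw [sum_range_succ, ih, Finset.sum_Icc_succ_top (by omega)]
      push_cast
      rw [one_div]
  rw [e] at h
  exact h

/-- sum of the inverse distances of ranks -/
lemma rank_sum (a r : ℕ) (ha : a < r) (s : Finset ℕ) (hs : s ⊆ (range r).erase a) :
    ∑ m ∈ s, 1 / |(a : ℝ) - m| ≤ 2 * Hr r := by
  have h0 : ∑ m ∈ s, 1 / |(a : ℝ) - m| ≤ ∑ m ∈ (range r).erase a, 1 / |(a : ℝ) - m| :=
    sum_le_sum_of_subset_of_nonneg hs fun _ _ _ => by positivity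
  refine h0.trans ?_
  have hsplit : (range r).erase a = (range r).filter (fun m => m < a) ∪ (range r).filter (fun m => a < m) := by
    ext m
    simp only [mem_erase, mem_range, mem_union, mem_filter]
    omega
  have hdisj : Disjoint ((range r).filter (fun m => m < a)) ((range r).filter (fun m => a < m)) := by
    rw [Finset.disjoint_left]
    intro m h1 h2
    simp only [mem_filter] at h1 h2
    omega
  rw [hsplit, sum_union hdisj, two_mul]
  apply add_le_add
  · have h1 : ∑ m ∈ (range r).filter (fun m => m < a), 1 / |(a : ℝ) - m| =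
        ∑ n ∈ ((range r).filter (fun m => m < a)).image (fun m => a - m), 1 / (n : ℝ) := by
      rw [sum_image]
      · apply sum_congr rfl
        intro m hm
        simp only [mem_filter, mem_range] at hm
        rw [Nat.cast_sub hm.2.le, abs_of_nonneg]
        have : (m : ℝ) < a := by exact_mod_cast hm.2
        linarith
      · intro x hx y hy hxy
        simp only [coe_filter, mem_range, Set.mem_ofPred_eq] at hx hy
        simp only at hxy
        omega
    rw [h1]
    apply sum_le_sum_of_subset_of_nonneg
    · intro n hn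
      simp only [mem_image, mem_filter, mem_range, mem_Icc] at hn ⊢
      obtain ⟨m, hm, rfl⟩ := hn
      omega
    · intro _ _ _; positivity
  · have h1 : ∑ m ∈ (range r).filter (fun m => a < m), 1 / |(a : ℝ) - m| =
        ∑ n ∈ ((range r).filter (fun m => a < m)).image (fun m => m - a), 1 / (n : ℝ) := by
      rw [sum_image]
      · apply sum_congr rfl
        intro m hm
        simp only [mem_filter, mem_range] at hm
        rw [Nat.cast_sub hm.2.le, abs_sub_comm, abs_of_nonneg]
        have : (a : ℝ) < m := by exact_mod_cast hm.2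
        linarith
      · intro x hx y hy hxy
        simp only [coe_filter, mem_range, Set.mem_ofPred_eq] at hx hy
        simp only at hxy
        omega
    rw [h1]
    apply sum_le_sum_of_subset_of_nonneg
    · intro n hn
      simp only [mem_image, mem_filter, mem_range, mem_Icc] at hn ⊢
      obtain ⟨m, hm, rfl⟩ := hn
      omega
    · intro _ _ _; positivity

/-- sum of `1 / rd` over the other objects of the same species -/
lemma rd_sum {r : ℕ} (O : Fin r → Xo) (i : Fin r) :
    ∑ j ∈ univ.erase i, (if sp (O i) = sp (O j) then 1 / rd O i j else 0) ≤ 2 * Hr r := by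
  rw [← sum_filter]
  have h1 : ∑ j ∈ (univ.erase i).filter (fun j => sp (O i) = sp (O j)), 1 / rd O i j =
      ∑ m ∈ ((univ.erase i).filter (fun j => sp (O i) = sp (O j))).image (rk O),
        1 / |(rk O i : ℝ) - m| := by
    rw [sum_image]
    · rfl
    · intro x hx y hy hxy
      simp only [coe_filter, mem_erase, mem_univ, and_true, Set.mem_ofPred_eq] at hx hy
      by_contra hne
      exact rk_ne O hne (hx.2.symm.trans hy.2) hxy
  rw [h1]
  apply rank_sum _ _ (rk_lt_r O i)
  intro m hm
  simp only [mem_image, mem_filter, mem_erase, mem_univ, and_true, mem_range] at hm ⊢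
  obtain ⟨j, hj, rfl⟩ := hm
  exact ⟨(rk_ne O (Ne.symm hj.1) hj.2).symm, rk_lt_r O j⟩

/-- number of objects of a kind -/
def nk {r : ℕ} (O : Fin r → Xo) (k : Kind) : ℕ := (univ.filter fun i => kd (O i) = k).card

/-- charges of one species -/
def qs {r : ℕ} (O : Fin r → Xo) (s : Bool) (i : Fin r) : ℤ := if sp (O i) = s then Qc (kd (O i)) else 0

lemma Qc_cases (k : Kind) : Qc k = -1 ∨ Qc k = 0 ∨ Qc k = 1 := by cases k <;> simp [Qc]

/-- one species -/
lemma coll_species {K : ℕ} {P : Par} {r : ℕ} (hS : Small K P r) (O : Fin r → Xo) (s : Bool) :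
    ∑ i, ∑ j ∈ univ.erase i, ((qs O s i : ℝ) * qs O s j) * lam K (zt P O i - zt P O j) ≤
      2 * #{i | qs O s i = -1} * Real.log (r * (2 + 2 / (2 ^ K * (P.d r * l / r)))) := by
  rcases Nat.eq_zero_or_pos r with rfl | hr
  · simp
  have hl := NUP1.l_pos
  have hl2 := l_lt
  have hd := hS.d0
  have hr0 : (0 : ℝ) < r := by exact_mod_cast hr
  have h := NUCollT.coll_tanh (qs O s) (zt P O) (2 ^ K) (P.d r * l / r) (by positivity)
    (by positivity) (by
      intro i
      unfold qs
      split_ifs
      · exact Qc_cases _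
      · right; left; rfl) (by
      intro i j
      have h1 := zt_im_le hS O i j
      rw [abs_mul, abs_of_pos (by positivity)]
      have h2 : 2 ^ K * |(zt P O i - zt P O j).im| ≤ 2 ^ K * (P.d r * l) := by gcongr
      have h3 := hS.d1
      have h4 := Real.pi_gt_three
      have h5 : (0 : ℝ) < 2 ^ K * P.d r := by positivity
      nlinarith) (by
      intro i j hij hi hj
      unfold qs at hi hj
      have hsi : sp (O i) = s := by by_contra h1; exact hi (if_neg h1)
      have hsj : sp (O j) = s := by by_contra h1; exact hj (if_neg h1)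
      have hs : sp (O i) = sp (O j) := hsi.trans hsj.symm
      have h1 := zt_ge hS O i j hij hs
      have h2 := one_le_rd O hij hs
      rw [div_le_iff₀ hr0]
      nlinarith [mul_pos hd hl])
  rw [Fintype.card_fin] at h
  refine le_trans (le_of_eq ?_) h
  refine sum_congr rfl fun i _ => sum_congr rfl fun j _ => ?_
  unfold lam
  push_cast
  rfl

/-- **sum of the cores** -/
theorem core_sum {K : ℕ} {P : Par} {r : ℕ} (hS : Small K P r) (O : Fin r → Xo) :
    -(4 * nk O .S * Real.log (r * (2 + 2 / (2 ^ K * (P.d r * l / r)))) +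
      4 * nk O .Sv * (1 + Real.log r)) ≤ ∑ i, ∑ j ∈ univ.erase i, coreP K P O i j := by
  have e1 : ∀ i j, coreP K P O i j =
      -2 * (((qs O true i : ℝ) * qs O true j) * lam K (zt P O i - zt P O j) +
        ((qs O false i : ℝ) * qs O false j) * lam K (zt P O i - zt P O j)) -
      (xv (kd (O i)) * (if sp (O i) = sp (O j) then 1 / rd O i j else 0) +
        xv (kd (O j)) * (if sp (O j) = sp (O i) then 1 / rd O j i else 0)) := by
    intro i j
    unfold coreP qs
    have hr : rd O j i = rd O i j := by unfold rd; rw [abs_sub_comm]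
    rw [hr]
    cases hi : sp (O i) <;> cases hj : sp (O j) <;> simp <;> ring
  simp_rw [e1, sum_sub_distrib, sum_add_distrib]
  have sw : ∑ i, ∑ j ∈ univ.erase i, xv (kd (O j)) * (if sp (O j) = sp (O i) then 1 / rd O j i else 0) =
      ∑ i, ∑ j ∈ univ.erase i, xv (kd (O i)) * (if sp (O i) = sp (O j) then 1 / rd O i j else 0) := by
    have hh : ∀ f : Fin r → Fin r → ℝ, ∑ i, ∑ j ∈ univ.erase i, f i j =
        ∑ i, ∑ j, (if i = j then 0 else f i j) := by
      intro f
      refine sum_congr rfl fun i _ => ?_
      rw [← Finset.sum_erase_add _ _ (mem_univ i), if_pos rfl, add_zero]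
      refine sum_congr rfl fun j hj => ?_
      rw [if_neg (Ne.symm (ne_of_mem_erase hj))]
    rw [hh, hh, sum_comm]
    refine sum_congr rfl fun i _ => sum_congr rfl fun j _ => ?_
    by_cases h : i = j
    · subst h; simp
    · rw [if_neg h, if_neg (Ne.symm h)]
  rw [sw]
  have hb : ∑ i, ∑ j ∈ univ.erase i, xv (kd (O i)) * (if sp (O i) = sp (O j) then 1 / rd O i j else 0) ≤
      nk O .Sv * (2 * Hr r) := by
    calc _ ≤ ∑ i, xv (kd (O i)) * (2 * Hr r) := by
          refine sum_le_sum fun i _ => ?_
          rw [← mul_sum]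
          exact mul_le_mul_of_nonneg_left (rd_sum O i) (xv_nonneg _)
      _ = (∑ i, xv (kd (O i))) * (2 * Hr r) := by rw [sum_mul]
      _ = _ := by
          congr 1
          unfold nk
          rw [card_filter]
          push_cast
          refine sum_congr rfl fun i _ => ?_
          cases h : kd (O i) <;> simp [xv]
  have hH := Hr_le r
  have hn : (0 : ℝ) ≤ nk O .Sv := by positivity
  have hb2 : (nk O .Sv : ℝ) * (2 * Hr r) ≤ nk O .Sv * (2 * (1 + Real.log r)) := by gcongr
  have ht := coll_species hS O true
  have hf := coll_species hS O false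
  have hcount : ((#{i | qs O true i = -1} : ℕ) : ℝ) + ((#{i | qs O false i = -1} : ℕ) : ℝ) = nk O .S := by
    unfold nk
    rw [card_filter, card_filter, card_filter]
    push_cast
    rw [← sum_add_distrib]
    refine sum_congr rfl fun i _ => ?_
    unfold qs
    cases h : kd (O i) <;> cases h' : sp (O i) <;> simp [Qc]
  have m1 : ∑ i, ∑ j ∈ univ.erase i, -2 * (((qs O true i : ℝ) * qs O true j) * lam K (zt P O i - zt P O j) +
        ((qs O false i : ℝ) * qs O false j) * lam K (zt P O i - zt P O j)) =
      -2 * (∑ i, ∑ j ∈ univ.erase i, ((qs O true i : ℝ) * qs O true j) * lam K (zt P O i - zt P O j)) +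
      -2 * (∑ i, ∑ j ∈ univ.erase i, ((qs O false i : ℝ) * qs O false j) * lam K (zt P O i - zt P O j)) := by
    simp_rw [mul_add (-2 : ℝ), sum_add_distrib, mul_sum]
  rw [m1]
  set Lg := Real.log (r * (2 + 2 / (2 ^ K * (P.d r * l / r)))) with hLg
  have : 2 * ((#{i | qs O true i = -1} : ℕ) : ℝ) * Lg + 2 * ((#{i | qs O false i = -1} : ℕ) : ℝ) * Lg =
      2 * nk O .S * Lg := by rw [← hcount]; ring
  linarith

end NUDirP
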