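import Pool.Agent.NUO.Obj
import Pool.Agent.NUO.Act

/-!
# Integration over the configurations (module O6, first part)

`lintegral_conf_le`: a function of `r` objects bounded by
`M ∏ z (height) exp (-c ∑_{w ∈ W} n_w^2)` has integral at most
`M exp (∑ lam^2 / 4c) (10 ∫ z exp (-tilt))^r`.
-/

set_option autoImplicit false

open MeasureTheory Finset
open scoped ENNReal

noncomputable section

namespace NUO

/-- integral of a function of the height over the space of objects -/
theorem lintegral_nu_ht {f : ℝ → ℝ≥0∞} (hf : Measurable f) :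
    ∫⁻ x, f (ht x) ∂nu = 10 * ∫⁻ t, f t := by
  unfold nu
  rw [lintegral_prod _ (by fun_prop)]
  have h1 : ∀ x : Bool × Kind, ∫⁻ y, f (ht (x, y)) ∂((volume : Measure ℝ).prod
      ((volume : Measure ℝ).restrict (Set.Ioc 0 1))) = ∫⁻ t, f t := by
    intro x
    rw [lintegral_prod _ (by fun_prop)]
    refine lintegral_congr fun t => ?_
    simp [ht]
  simp_rw [h1]
  rw [lintegral_const, Measure.count_univ]
  have h2 : ENat.card (Bool × Kind) = 10 := by
    rw [ENat.card_eq_coe_fintype_card, Fintype.card_prod, Fintype.card_bool]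
    rfl
  rw [h2, mul_comm]
  rfl

theorem lintegral_pi_prod_le {r : ℕ} {g : Xo → ℝ} (hg0 : ∀ x, 0 ≤ g x) (hg : Integrable g nu) :
    ∫⁻ O : Fin r → Xo, ENNReal.ofReal (∏ i, g (O i)) ∂(Measure.pi fun _ => nu) =
      ENNReal.ofReal ((∫ x, g x ∂nu) ^ r) := by
  rw [← ofReal_integral_eq_lintegral_ofReal (Integrable.fintype_prod fun _ => hg)
    (Filter.Eventually.of_forall fun O => Finset.prod_nonneg fun i _ => hg0 _),
    integral_fintype_prod_eq_prod (fun (_ : Fin r) x => g x), Finset.prod_const,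
    Finset.card_univ, Fintype.card_fin]

theorem integrable_nu_ht {f : ℝ → ℝ} (hf : Measurable f) (hi : Integrable f) :
    Integrable (fun x : Xo => f (ht x)) nu := by
  refine ⟨(hf.comp (by fun_prop)).aestronglyMeasurable, ?_⟩
  unfold HasFiniteIntegral
  have := lintegral_nu_ht (f := fun t => ‖f t‖ₑ) (by fun_prop)
  rw [this]
  exact ENNReal.mul_lt_top (by norm_num) hi.2

theorem integral_nu_ht {f : ℝ → ℝ} (hf : Measurable f) (h0 : ∀ t, 0 ≤ f t) :
    ∫ x, f (ht x) ∂nu = 10 * ∫ t, f t := by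
  rw [integral_eq_lintegral_of_nonneg_ae (Filter.Eventually.of_forall fun x => h0 _)
      (hf.comp (by fun_prop)).aestronglyMeasurable,
    integral_eq_lintegral_of_nonneg_ae (Filter.Eventually.of_forall h0) hf.aestronglyMeasurable,
    lintegral_nu_ht (f := fun t => ENNReal.ofReal (f t)) (by fun_prop), ENNReal.toReal_mul]
  rfl

/-- **integral over the configurations of `r` objects** -/
theorem lintegral_conf_le (z : ℝ → ℝ) (hzm : Measurable z) (W : Finset ℤ) (lam : ℤ → ℝ)
    {c M : ℝ} (hc : 0 < c) (hM : 0 ≤ M) (hz0 : ∀ t, 0 ≤ z t)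
    (hz : Integrable (fun t => z t * Real.exp (-tilt W lam t))) {r : ℕ}
    (G : (Fin r → Xo) → ℝ≥0∞)
    (hG : ∀ O, G O ≤ ENNReal.ofReal (M * (∏ i, z (ht (O i))) *
      Real.exp (-(c * ∑ w ∈ W, (cnt (fun i => ht (O i)) w : ℝ) ^ 2)))) :
    ∫⁻ O, G O ∂(Measure.pi fun _ => nu) ≤
      ENNReal.ofReal (M * Real.exp ((∑ w ∈ W, lam w ^ 2) / (4 * c)) *
        (10 * ∫ t, z t * Real.exp (-tilt W lam t)) ^ r) := by
  set K : ℝ := M * Real.exp ((∑ w ∈ W, lam w ^ 2) / (4 * c)) with hK
  have hK0 : 0 ≤ K := mul_nonneg hM (Real.exp_pos _).le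
  have hm : Measurable fun t => z t * Real.exp (-tilt W lam t) :=
    hzm.mul (Real.measurable_exp.comp (tilt_measurable W lam).neg)
  have h1 : ∀ O : Fin r → Xo, G O ≤ ENNReal.ofReal K * ENNReal.ofReal
      (∏ i, (z (ht (O i)) * Real.exp (-tilt W lam (ht (O i))))) := by
    intro O
    rw [← ENNReal.ofReal_mul hK0]
    refine (hG O).trans (ENNReal.ofReal_le_ofReal ?_)
    rw [Finset.prod_mul_distrib]
    have h2 := energy_le W lam hc (fun i => ht (O i))
    have h3 : 0 ≤ M * ∏ i, z (ht (O i)) := mul_nonneg hM (Finset.prod_nonneg fun i _ => hz0 _)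
    calc _ ≤ M * (∏ i, z (ht (O i))) * (Real.exp ((∑ w ∈ W, lam w ^ 2) / (4 * c)) *
          ∏ i, Real.exp (-tilt W lam (ht (O i)))) := mul_le_mul_of_nonneg_left h2 h3
      _ = _ := by rw [hK]; ring
  refine (lintegral_mono h1).trans ?_
  rw [lintegral_const_mul' _ _ ENNReal.ofReal_ne_top,
    lintegral_pi_prod_le (g := fun x => z (ht x) * Real.exp (-tilt W lam (ht x)))
      (fun x => mul_nonneg (hz0 _) (Real.exp_pos _).le) (integrable_nu_ht hm hz),
    integral_nu_ht hm (fun t => mul_nonneg (hz0 _) (Real.exp_pos _).le), ← ENNReal.ofReal_mul hK0]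

end NUO
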