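import Pool.Agent.NUO.GlueN
import Pool.Agent.NUO.S4
import Pool.Agent.NUO.AsmAlg

/-!
# TARGET-A: the inequality for one configuration and one number of quanta

`perN_of_S4`: `S4`, the one body bounds (`one_act`) and the stability bound (`StabProd`) give `PerN`.
-/

set_option autoImplicit false

noncomputable section

open MeasureTheory Finset
open scoped ENNReal

namespace NUO

open NUStabP NUDirP NUDispW

/-- what is needed of the parameters and of the curve -/
structure Par0OK (K1 : ℝ) : Prop where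
  nn : 0 ≤ K1
  ok : ∀ m : ℕ, 3 ≤ m → ParOK (par0 m) m K1
  sm : ∀ m : ℕ, 3 ≤ m → ∀ r, Small 8 (par0 m) r
  good : ∀ e1 : ℝ, 0 < e1 → e1 ≤ 1 / 100 → ∀ J : ℝ, 0 ≤ J → ∃ m0 : ℕ, ∀ m ≥ m0,
    Good (par0 m) (etaA e1 J m) (etaA' e1 J m)

/-- **`PerN` from `S4`** -/
theorem perN_of_S4 {K1 : ℝ} (F : Par0OK K1) (hS : StabProd) (h4 : S4) : PerN := by
  obtain ⟨C2, c1, hC2, hc1, hstab⟩ := hS
  obtain ⟨K, Ca, c', hK, hCa, hc', h4⟩ := h4
  obtain ⟨C, c, hC, hc, hone⟩ :=
    one_act (κ := 1 / 50) (by norm_num) (2 * C2 + K + (C2 * 6144 + 1) * 4) K1 F.nn 12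
  refine ⟨C, c, 1 / 10, c1 / 2, c', Ca, 12 + 6, hC, hc, by norm_num, by positivity, hc', hCa, ?_⟩
  intro ep hep hep1 e1 he1 he11 J hJ δ hδ
  obtain ⟨d, Cst, hd, hCst, m0, h4⟩ :=
    h4 (c1 / 2) (by positivity) ep hep hep1 e1 he1 he11 J hJ δ hδ
  obtain ⟨m1, hgood⟩ := F.good e1 he1 he11 J hJ
  refine ⟨d, 1, Cst, hd, zero_le_one, hCst, max (max m0 m1) 3, fun m hm n hn b' hb' =>
    ⟨par0 m, etaA e1 J m, etaA' e1 J m, hgood m
      (((le_max_right _ _).trans (le_max_left _ _)).trans hm), fun r hr O W => ?_⟩⟩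
  have hm0 : m0 ≤ m := ((le_max_left _ _).trans (le_max_left _ _)).trans hm
  have hm3 : 3 ≤ m := (le_max_right _ _).trans hm
  have hm1 : (1 : ℝ) ≤ m := by exact_mod_cast (by omega : 1 ≤ m)
  unfold Fn
  by_cases hchg : chgO O true ≤ n ∧ chgO O false ≤ n
  swap
  · rw [if_neg hchg, mul_zero]
    exact zero_le
  rw [if_pos hchg]
  set B : ℝ := Cst * MF m * (m : ℝ) ^ (3 / 8 + Ca * (ep + e1) + δ) *
      (if (r : ℝ) ≤ Real.log m then 1 else Real.exp (c' * Real.log m)) with hBdef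
  have hB : 0 ≤ B := by
    have h1 : (0 : ℝ) ≤ if (r : ℝ) ≤ Real.log m then 1 else Real.exp (c' * Real.log m) := by
      split_ifs
      · exact zero_le_one
      · exact (Real.exp_pos _).le
    have h2 : 0 ≤ MF m := (Real.exp_pos _).le
    positivity
  have hlogm : 0 ≤ Real.log m := Real.log_nonneg hm1
  have hTb : 0 ≤ Tb (Real.log m) := by unfold Tb; positivity
  have hTW : Tb (Real.log m) / (1 - ep) ≤ TW ep e1 m := by
    unfold TW
    rw [div_le_iff₀ (by linarith)]
    have h1 : 1 ≤ (1 + 2 * e1 + 2 * ep) * (1 - ep) := by nlinarith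
    calc Tb (Real.log m) = 1 * Tb (Real.log m) := (one_mul _).symm
      _ ≤ ((1 + 2 * e1 + 2 * ep) * (1 - ep)) * Tb (Real.log m) :=
          mul_le_mul_of_nonneg_right h1 hTb
      _ = _ := by ring
  have hsm := F.sm m hm3 r
  have hob : ∀ i, 0 ≤ ob m (4 / 3 * (1 - ep)) (par0 m) O i := fun i =>
    ob_nonneg' m _ O i (rad0_pos _ _ _).le
  have hdr : (r : ℝ) ^ 2 * (par0 m).d r ≤ r := by
    rcases Nat.eq_zero_or_pos r with h | h
    · simp [h]
    · have h1 := d0_sq r
      have h2 : (1 : ℝ) ≤ r := by exact_mod_cast h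
      rw [par0_d]
      linarith
  have key := conf_alg (x := fun i => ht (O i)) (o := fun i => ob m (4 / 3 * (1 - ep)) (par0 m) O i)
    (u := fun i => oneE (par0 m) m e1 J (TW ep e1 m) O i)
    (act' := fun i => act C 1 c (1 / 10) (12 + 6) (Real.log m) ep e1 J r (ht (O i)))
    (coll := fun i => collC C2 4 (par0 m) r (O i))
    (col := fun i => colK (((r : ℝ) + 1) ^ 12) (kd (O i)))
    (PP := ∏ i, ∏ j, if i < j then pairN (par0 m) O i j else 1) (EG := enC O) (B := B) (K := K)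
    (C2 := C2) (A := (C2 * 6144 + 1) * 4) (c1 := c1) (kap := c1 / 2) (dr := (par0 m).d r) W hC2.le
    (by positivity) le_rfl hdr hob (fun i => collC_nonneg hC2.le (d0_pos r) _)
    (fun i => coll_bd hC2.le (by norm_num) (d0_pos r) (d0_inv r).le _)
    (fun W => hstab (par0 m) rfl rfl r hsm O W)
    (fun i => by
      have := hone m hm3 (par0 m) (F.ok m hm3) NUSlk.slk NUSlk.slk_le ep hep hep1 e1 he1 J hJ
        (TW ep e1 m) hTW r O i
      simpa only [oneE] using this) hB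
  have hobj : 0 ≤ objW m (4 / 3 * (1 - ep)) (par0 m) O := by
    unfold objW
    refine mul_nonneg (prod_nonneg fun i _ => hob i) ?_
    refine prod_nonneg fun i _ => prod_nonneg fun j _ => ?_
    split_ifs
    · exact pairN_nonneg _ _ _ _
    · exact zero_le_one
  have h5 := h4 m hm0 n hn b' hb' r hr O hchg.1 hchg.2
  calc ENNReal.ofReal (Real.exp (b' * (m - n))) *
        (ENNReal.ofReal (objW m (4 / 3 * (1 - ep)) (par0 m) O) *
          Z1 m (4 / 3 * (1 - ep)) (par0 m) (etaA e1 J m) (etaA' e1 J m) O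
            (n - chgO O true) (n - chgO O false))
      = ENNReal.ofReal (objW m (4 / 3 * (1 - ep)) (par0 m) O) *
        (ENNReal.ofReal (Real.exp (b' * (m - n))) *
          Z1 m (4 / 3 * (1 - ep)) (par0 m) (etaA e1 J m) (etaA' e1 J m) O
            (n - chgO O true) (n - chgO O false)) := by ring
    _ ≤ ENNReal.ofReal (objW m (4 / 3 * (1 - ep)) (par0 m) O) *
        ENNReal.ofReal (B * Real.exp (confE (par0 m) m e1 J (TW ep e1 m) K (c1 / 2) O)) :=
        mul_le_mul_right h5 _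
    _ = ENNReal.ofReal (objW m (4 / 3 * (1 - ep)) (par0 m) O *
        (B * Real.exp (confE (par0 m) m e1 J (TW ep e1 m) K (c1 / 2) O))) :=
        (ENNReal.ofReal_mul hobj).symm
    _ ≤ _ := ENNReal.ofReal_le_ofReal key

end NUO
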