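import Pool.Agent.NUP.MF.Str
import Pool.Agent.NUP.MF.Const

/-!
# Complex potentials of one constituent at offset `j`

With `F w = 2 log cosh w + log 2` (`NUMF.F`), `a = (4, 2, -2, 3, 5 | 0, 1, -1)` and coefficients
`(1, 1/2, 1/2, -1/2, -1/2 | 1, -1, -1)`:
`fq j z = ∑_own c_a F(z + i red (a - j) l) - log 2`, `fg j z = ∑_cross c_a F(z + i red (a - j) l) + log 2`.

* `fq_re`, `fg_re`: real parts are `lq (j - η / l) t`, `lqg (j - η / l) t` at `z = t + i η`;
* `hasDerivAt_fq`, `hasDerivAt_fg`;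
* `Ph j = (fq j + fg j)'` decays like `exp (-2 |Re z|)` with its derivative;
* `∫ Im Ph j = 2 π ν j`, `ν = 1, 0, 1, -1` on `(0,1), (1,2), (2,3), (3,4)`.
-/

set_option autoImplicit false

open MeasureTheory Set Filter Topology Complex

namespace NUO

open NUMF

noncomputable section

/-! ### reduction modulo 8 -/

/-- reduction of `y` modulo `8` to `[-4, 4]` -/
def red (y : ℝ) : ℝ := y - 8 * round (y / 8)

lemma abs_red_le (y : ℝ) : |red y| ≤ 4 := by
  have h1 := abs_sub_round (y / 8)
  unfold red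
  rw [show y - 8 * (round (y / 8) : ℝ) = 8 * (y / 8 - round (y / 8)) by ring, abs_mul,
    abs_of_pos (by norm_num : (0:ℝ) < 8)]
  linarith

/-- the offset has distance `≥ δ` from the integers -/
def Off (δ j : ℝ) : Prop := ∀ n : ℤ, δ ≤ |j - n|

lemma red_le {δ j : ℝ} (h : Off δ j) (a : ℤ) : |red (a - j)| ≤ 4 - δ := by
  set n : ℤ := round (((a : ℝ) - j) / 8) with hn
  have e : red (a - j) = a - j - 8 * (n : ℝ) := rfl
  have h1 := abs_red_le (a - j)
  have h2 := h (a - 8 * n - 4)
  have h3 := h (a - 8 * n + 4)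
  have e2 : j - ((a - 8 * n - 4 : ℤ) : ℝ) = 4 - red (a - j) := by rw [e]; push_cast; ring
  have e3 : j - ((a - 8 * n + 4 : ℤ) : ℝ) = -(4 + red (a - j)) := by rw [e]; push_cast; ring
  rw [abs_le] at h1
  rw [e2, abs_of_nonneg (by linarith)] at h2
  rw [e3, abs_neg, abs_of_nonneg (by linarith)] at h3
  exact abs_le.2 ⟨by linarith, by linarith⟩

lemma h_per_int (x y : ℝ) (n : ℤ) : h x (y + 8 * n * l) = h x y := by
  unfold h
  have : 2 * (y + 8 * n * l) = 2 * y + n * (2 * Real.pi) := by unfold l; ring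
  rw [this, Real.cos_add_int_mul_two_pi]

lemma h_red (x y η : ℝ) : h x (η + red y * l) = h x (η + y * l) := by
  unfold red
  have := h_per_int x (η + y * l) (-(round (y / 8)))
  rw [← this]
  congr 1
  push_cast
  ring

/-! ### the blocks -/

/-- shifts -/
def av : Fin 8 → ℤ := ![4, 2, -2, 3, 5, 0, 1, -1]

/-- coefficients, own species -/
def co : Fin 8 → ℝ := ![1, 1 / 2, 1 / 2, -1 / 2, -1 / 2, 0, 0, 0]

/-- coefficients, other species -/
def cx : Fin 8 → ℝ := ![0, 0, 0, 0, 0, 1, -1, -1]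

/-- imaginary shift -/
def yv (j : ℝ) (i : Fin 8) : ℝ := red (av i - j) * l

lemma four_l : 4 * l = Real.pi / 2 := by unfold l; ring

lemma yv_le {δ j : ℝ} (h : Off δ j) (i : Fin 8) : |yv j i| ≤ Real.pi / 2 - δ * l := by
  unfold yv
  rw [abs_mul, abs_of_pos l_pos, ← four_l, ← sub_mul]
  exact mul_le_mul_of_nonneg_right (red_le h _) l_pos.le

/-- own species -/
def fq (j : ℝ) (z : ℂ) : ℂ := ∑ i, (co i : ℂ) * F (z + yv j i * I) - Real.log 2

/-- other species -/
def fg (j : ℝ) (z : ℂ) : ℂ := ∑ i, (cx i : ℂ) * F (z + yv j i * I) + Real.log 2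

lemma im_shift (z : ℂ) (y : ℝ) : (z + y * I).im = z.im + y := by simp
lemma re_shift (z : ℂ) (y : ℝ) : (z + y * I).re = z.re := by simp

lemma im_lt {δ j : ℝ} (h : Off δ j) {z : ℂ} (hz : |z.im| < δ * l) (i : Fin 8) :
    |(z + yv j i * I).im| < Real.pi / 2 := by
  rw [im_shift]
  have h1 := yv_le h i
  have h2 := abs_add_le z.im (yv j i)
  linarith

lemma F_block {δ j : ℝ} (h : Off δ j) {z : ℂ} (hz : |z.im| < δ * l) (i : Fin 8) :
    (F (z + yv j i * I)).re = NUMF.h z.re (z.im + (av i - j) * l) := by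
  rw [F_re (im_lt h hz i), im_shift, re_shift]
  unfold yv
  rw [h_red]

lemma sum8 (f : Fin 8 → ℝ) : ∑ i, f i = f 0 + f 1 + f 2 + f 3 + f 4 + f 5 + f 6 + f 7 := by
  rw [Fin.sum_univ_eight]

theorem fq_re {δ j : ℝ} (h : Off δ j) {z : ℂ} (hz : |z.im| < δ * l) :
    (fq j z).re = lq (j - z.im / l) z.re := by
  have hl := l_pos
  unfold fq
  rw [Complex.sub_re, Complex.re_sum, Complex.ofReal_re]
  simp_rw [Complex.re_ofReal_mul, F_block h hz]
  rw [sum8]
  simp only [co, av, Matrix.cons_val]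
  have e : ∀ a : ℝ, z.im + (a - j) * l = (a - (j - z.im / l)) * l := by
    intro a
    field_simp
    ring
  have e2 : NUMF.h z.re (z.im + ((-2 : ℝ) - j) * l) = NUMF.h z.re ((2 + (j - z.im / l)) * l) := by
    rw [e, ← h_neg_right]
    congr 1
    ring
  push_cast
  rw [e2]
  simp_rw [e]
  unfold lq ro
  ring

theorem fg_re {δ j : ℝ} (h : Off δ j) {z : ℂ} (hz : |z.im| < δ * l) :
    (fg j z).re = lqg (j - z.im / l) z.re := by
  have hl := l_pos
  unfold fg
  rw [Complex.add_re, Complex.re_sum, Complex.ofReal_re]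
  simp_rw [Complex.re_ofReal_mul, F_block h hz]
  rw [sum8]
  simp only [cx, av, Matrix.cons_val]
  have e0 : NUMF.h z.re (z.im + ((0 : ℝ) - j) * l) = NUMF.h z.re ((j - z.im / l) * l) := by
    rw [← h_neg_right]
    congr 1
    field_simp
    ring
  have e1 : NUMF.h z.re (z.im + ((1 : ℝ) - j) * l) = NUMF.h z.re ((j - z.im / l) * l - l) := by
    rw [← h_neg_right]
    congr 1
    field_simp
    ring
  have e2 : NUMF.h z.re (z.im + ((-1 : ℝ) - j) * l) = NUMF.h z.re ((j - z.im / l) * l + l) := by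
    rw [← h_neg_right]
    congr 1
    field_simp
    ring
  push_cast
  rw [e0, e1, e2]
  unfold lqg
  ring

/-! ### derivatives -/

lemma hasDerivAt_F {w : ℂ} (hw : |w.im| < Real.pi / 2) : HasDerivAt F (2 * Complex.tanh w) w := by
  have h1 := ((Complex.hasDerivAt_cosh w).clog (cosh_slit hw)).const_mul 2
  have h2 := h1.add_const (Real.log 2 : ℂ)
  unfold F
  refine h2.congr_deriv ?_
  rw [Complex.tanh_eq_sinh_div_cosh]

/-- derivative of `fq` -/
def dq (j : ℝ) (z : ℂ) : ℂ := ∑ i, (co i : ℂ) * (2 * Complex.tanh (z + yv j i * I))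

/-- derivative of `fg` -/
def dg (j : ℝ) (z : ℂ) : ℂ := ∑ i, (cx i : ℂ) * (2 * Complex.tanh (z + yv j i * I))

lemma hasDerivAt_block {δ j : ℝ} (h : Off δ j) {z : ℂ} (hz : |z.im| < δ * l) (i : Fin 8) :
    HasDerivAt (fun z => F (z + yv j i * I)) (2 * Complex.tanh (z + yv j i * I)) z := by
  have h1 := hasDerivAt_F (im_lt h hz i)
  have h2 : HasDerivAt (fun z : ℂ => z + yv j i * I) 1 z := (hasDerivAt_id z).add_const _
  have h3 := h1.comp z h2
  rw [mul_one] at h3
  exact h3

theorem hasDerivAt_fq {δ j : ℝ} (h : Off δ j) {z : ℂ} (hz : |z.im| < δ * l) :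
    HasDerivAt (fq j) (dq j z) z := by
  have h1 : HasDerivAt (fun z => ∑ i, (co i : ℂ) * F (z + yv j i * I)) (dq j z) z :=
    HasDerivAt.fun_sum fun i _ => (hasDerivAt_block h hz i).const_mul _
  exact h1.sub_const _

theorem hasDerivAt_fg {δ j : ℝ} (h : Off δ j) {z : ℂ} (hz : |z.im| < δ * l) :
    HasDerivAt (fg j) (dg j z) z := by
  have h1 : HasDerivAt (fun z => ∑ i, (cx i : ℂ) * F (z + yv j i * I)) (dg j z) z :=
    HasDerivAt.fun_sum fun i _ => (hasDerivAt_block h hz i).const_mul _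
  exact h1.add_const _

/-- derivative of `fq + fg` -/
def Ph (j : ℝ) (z : ℂ) : ℂ := dq j z + dg j z

/-- total coefficient -/
def ct (i : Fin 8) : ℝ := co i + cx i

lemma sum_ct : ∑ i, ct i = 0 := by
  rw [sum8]
  simp only [ct, co, cx, Matrix.cons_val]
  norm_num

lemma sum_abs_ct : ∑ i, |ct i| = 6 := by
  rw [sum8]
  simp only [ct, co, cx, Matrix.cons_val]
  norm_num [abs_div]

lemma Ph_eq (j : ℝ) (z : ℂ) : Ph j z = ∑ i, (ct i : ℂ) * (2 * Complex.tanh (z + yv j i * I)) := by
  unfold Ph dq dg ct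
  rw [← Finset.sum_add_distrib]
  refine Finset.sum_congr rfl fun i _ => ?_
  push_cast
  ring

theorem hasDerivAt_fsum {δ j : ℝ} (h : Off δ j) {z : ℂ} (hz : |z.im| < δ * l) :
    HasDerivAt (fun z => fq j z + fg j z) (Ph j z) z :=
  (hasDerivAt_fq h hz).add (hasDerivAt_fg h hz)

/-! ### bounds of tanh -/

lemma norm_cosh_ge {w : ℂ} {b : ℝ} (hb : b < Real.pi / 2) (hw : |w.im| ≤ b) :
    Real.cosh w.re * Real.cos b ≤ ‖Complex.cosh w‖ := by
  have hpi := Real.pi_pos
  have hb0 : 0 ≤ b := (abs_nonneg _).trans hw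
  have h1 := Complex.abs_re_le_norm (Complex.cosh w)
  have h2 : Real.cos b ≤ Real.cos w.im := by
    rw [← Real.cos_abs w.im]
    exact Real.cos_le_cos_of_nonneg_of_le_pi (abs_nonneg _) (by linarith) hw
  have h3 := Real.cosh_pos w.re
  have h4 := le_abs_self (Complex.cosh w).re
  rw [re_cosh] at h4
  rw [re_cosh] at h1
  have h5 := mul_le_mul_of_nonneg_left h2 h3.le
  linarith

lemma exp_half_le_cosh (x : ℝ) : Real.exp |x| / 2 ≤ Real.cosh x := by
  rw [← Real.cosh_abs, Real.cosh_eq]
  have := Real.exp_pos (-|x|)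
  linarith

lemma cos_pos_of {b : ℝ} (h0 : 0 ≤ b) (hb : b < Real.pi / 2) : 0 < Real.cos b :=
  Real.cos_pos_of_mem_Ioo ⟨by linarith [Real.pi_pos], hb⟩

/-- `tanh` is exponentially close to the sign of the real part -/
lemma tanh_sub_one {w : ℂ} {b : ℝ} (hb : b < Real.pi / 2) (hw : |w.im| ≤ b) (h0 : 0 ≤ w.re) :
    ‖Complex.tanh w - 1‖ ≤ 2 / Real.cos b * Real.exp (-2 * |w.re|) := by
  have hb0 : 0 ≤ b := (abs_nonneg _).trans hw
  have hc := cos_pos_of hb0 hb
  have h1 := norm_cosh_ge hb hw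
  have h2 := exp_half_le_cosh w.re
  have h3 : 0 < ‖Complex.cosh w‖ := lt_of_lt_of_le (mul_pos (Real.cosh_pos _) hc) h1
  have hne : Complex.cosh w ≠ 0 := norm_pos_iff.1 h3
  have e : Complex.tanh w - 1 = -Complex.exp (-w) / Complex.cosh w := by
    rw [Complex.tanh_eq_sinh_div_cosh, eq_div_iff hne, sub_mul, div_mul_cancel₀ _ hne, one_mul]
    have := Complex.cosh_sub_sinh w
    linear_combination -this
  rw [e, norm_div, norm_neg, Complex.norm_exp, Complex.neg_re, div_le_iff₀ h3]
  rw [abs_of_nonneg h0] at h2 ⊢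
  have h4 : Real.exp (-2 * w.re) * Real.exp w.re = Real.exp (-w.re) := by
    rw [← Real.exp_add]; congr 1; ring
  have h5 := Real.exp_pos (-2 * w.re)
  calc Real.exp (-w.re) = 2 / Real.cos b * Real.exp (-2 * w.re) * (Real.exp w.re / 2 * Real.cos b) := by
        rw [← h4]
        field_simp
    _ ≤ 2 / Real.cos b * Real.exp (-2 * w.re) * ‖Complex.cosh w‖ := by
        gcongr
        exact (mul_le_mul_of_nonneg_right h2 hc.le).trans h1

lemma tanh_add_one {w : ℂ} {b : ℝ} (hb : b < Real.pi / 2) (hw : |w.im| ≤ b) (h0 : w.re ≤ 0) :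
    ‖Complex.tanh w + 1‖ ≤ 2 / Real.cos b * Real.exp (-2 * |w.re|) := by
  have h1 := tanh_sub_one (w := -w) hb (by rw [Complex.neg_im, abs_neg]; exact hw)
    (by rw [Complex.neg_re]; linarith)
  rw [Complex.tanh_neg, Complex.neg_re, abs_neg] at h1
  rw [← norm_neg]
  have e : -(Complex.tanh w + 1) = -Complex.tanh w - 1 := by ring
  rw [e]
  exact h1

/-- **decay of `Ph`** -/
theorem Ph_bound {δ j : ℝ} (h : Off δ j) {b : ℝ} (hb : b < δ * l) {z : ℂ} (hz : |z.im| ≤ b) :
    ‖Ph j z‖ ≤ 24 / Real.sin (δ * l - b) * Real.exp (-2 * |z.re|) := by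
  have hb0 : 0 ≤ b := (abs_nonneg _).trans hz
  set b' := Real.pi / 2 - (δ * l - b) with hb'
  have hb1 : b' < Real.pi / 2 := by rw [hb']; linarith
  have hcos : Real.cos b' = Real.sin (δ * l - b) := by rw [hb', Real.cos_pi_div_two_sub]
  have him : ∀ i, |(z + yv j i * I).im| ≤ b' := by
    intro i
    rw [im_shift, hb']
    have h1 := yv_le h i
    have h2 := abs_add_le z.im (yv j i)
    linarith
  have hb'0 : 0 ≤ b' := (abs_nonneg _).trans (him 0)
  have hc := cos_pos_of hb'0 hb1
  have hs : ∃ σ : ℂ, ∀ i, ‖Complex.tanh (z + yv j i * I) - σ‖ ≤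
      2 / Real.cos b' * Real.exp (-2 * |z.re|) := by
    rcases le_total 0 z.re with h0 | h0
    · refine ⟨1, fun i => ?_⟩
      have := tanh_sub_one hb1 (him i) (by rw [re_shift]; exact h0)
      rwa [re_shift] at this
    · refine ⟨-1, fun i => ?_⟩
      have := tanh_add_one hb1 (him i) (by rw [re_shift]; exact h0)
      rw [re_shift] at this
      rwa [sub_neg_eq_add]
  obtain ⟨σ, hσ⟩ := hs
  have e : Ph j z = ∑ i, (ct i : ℂ) * (2 * (Complex.tanh (z + yv j i * I) - σ)) := by
    rw [Ph_eq]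
    have h1 : ∑ i, (ct i : ℂ) * (2 * (Complex.tanh (z + yv j i * I) - σ)) =
        ∑ i, (ct i : ℂ) * (2 * Complex.tanh (z + yv j i * I)) - (∑ i, (ct i : ℂ)) * (2 * σ) := by
      rw [Finset.sum_mul, ← Finset.sum_sub_distrib]
      refine Finset.sum_congr rfl fun i _ => ?_
      ring
    have h2 : (∑ i, (ct i : ℂ)) = 0 := by
      rw [← Complex.ofReal_sum, sum_ct, Complex.ofReal_zero]
    rw [h1, h2, zero_mul, sub_zero]
  rw [e, ← hcos]
  calc ‖∑ i, (ct i : ℂ) * (2 * (Complex.tanh (z + yv j i * I) - σ))‖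
      ≤ ∑ i, |ct i| * (2 * (2 / Real.cos b' * Real.exp (-2 * |z.re|))) := by
        refine (norm_sum_le _ _).trans (Finset.sum_le_sum fun i _ => ?_)
        rw [norm_mul, norm_mul, Complex.norm_real, Complex.norm_ofNat, Real.norm_eq_abs]
        gcongr
        exact hσ i
    _ = _ := by
        rw [← Finset.sum_mul, sum_abs_ct]
        ring

/-- derivative of `Ph` -/
def Ph' (j : ℝ) (z : ℂ) : ℂ := ∑ i, (ct i : ℂ) * (2 * (1 / Complex.cosh (z + yv j i * I) ^ 2))

lemma hasDerivAt_tanh' {w : ℂ} (hw : Complex.cosh w ≠ 0) :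
    HasDerivAt Complex.tanh (1 / Complex.cosh w ^ 2) w := by
  have h1 := (Complex.hasDerivAt_sinh w).div (Complex.hasDerivAt_cosh w) hw
  have h2 : (fun z => Complex.sinh z / Complex.cosh z) = Complex.tanh := by
    ext z
    rw [Complex.tanh_eq_sinh_div_cosh]
  have h3 : HasDerivAt (fun z => Complex.sinh z / Complex.cosh z)
      ((Complex.cosh w * Complex.cosh w - Complex.sinh w * Complex.sinh w) / Complex.cosh w ^ 2) w := h1
  rw [h2] at h3
  refine h3.congr_deriv ?_
  have := Complex.cosh_sq w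
  congr 1
  linear_combination this

theorem hasDerivAt_Ph {δ j : ℝ} (h : Off δ j) {z : ℂ} (hz : |z.im| < δ * l) :
    HasDerivAt (Ph j) (Ph' j z) z := by
  have h0 : Ph j = fun z => ∑ i, (ct i : ℂ) * (2 * Complex.tanh (z + yv j i * I)) := by
    ext z
    exact Ph_eq j z
  rw [h0]
  refine HasDerivAt.fun_sum fun i _ => ?_
  refine HasDerivAt.const_mul _ (HasDerivAt.const_mul _ ?_)
  have h1 := hasDerivAt_tanh' (slitPlane_ne_zero (cosh_slit (im_lt h hz i)))
  have h2 : HasDerivAt (fun z : ℂ => z + yv j i * I) 1 z := (hasDerivAt_id z).add_const _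
  have h3 := h1.comp z h2
  rw [mul_one] at h3
  exact h3

theorem Ph'_bound {δ j : ℝ} (h : Off δ j) {b : ℝ} (hb : b < δ * l) {z : ℂ} (hz : |z.im| ≤ b) :
    ‖Ph' j z‖ ≤ 48 / Real.sin (δ * l - b) ^ 2 * Real.exp (-2 * |z.re|) := by
  have hb0 : 0 ≤ b := (abs_nonneg _).trans hz
  set b' := Real.pi / 2 - (δ * l - b) with hb'
  have hb1 : b' < Real.pi / 2 := by rw [hb']; linarith
  have hcos : Real.cos b' = Real.sin (δ * l - b) := by rw [hb', Real.cos_pi_div_two_sub]
  have him : ∀ i, |(z + yv j i * I).im| ≤ b' := by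
    intro i
    rw [im_shift, hb']
    have h1 := yv_le h i
    have h2 := abs_add_le z.im (yv j i)
    linarith
  have hb'0 : 0 ≤ b' := (abs_nonneg _).trans (him 0)
  have hc := cos_pos_of hb'0 hb1
  rw [← hcos]
  have hi : ∀ i, ‖1 / Complex.cosh (z + yv j i * I) ^ 2‖ ≤ 4 / Real.cos b' ^ 2 * Real.exp (-2 * |z.re|) := by
    intro i
    have h1 := norm_cosh_ge hb1 (him i)
    rw [re_shift] at h1
    have h2 := exp_half_le_cosh z.re
    have h3 : 0 < Real.exp |z.re| / 2 * Real.cos b' := by positivity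
    have h4 : Real.exp |z.re| / 2 * Real.cos b' ≤ ‖Complex.cosh (z + yv j i * I)‖ :=
      (mul_le_mul_of_nonneg_right h2 hc.le).trans h1
    rw [norm_div, norm_one, norm_pow]
    have h5 : (Real.exp |z.re| / 2 * Real.cos b') ^ 2 ≤ ‖Complex.cosh (z + yv j i * I)‖ ^ 2 :=
      pow_le_pow_left₀ h3.le h4 2
    calc 1 / ‖Complex.cosh (z + yv j i * I)‖ ^ 2 ≤ 1 / (Real.exp |z.re| / 2 * Real.cos b') ^ 2 :=
          one_div_le_one_div_of_le (by positivity) h5
      _ = _ := by
          have e : Real.exp (-2 * |z.re|) = (Real.exp |z.re| ^ 2)⁻¹ := by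
            rw [← Real.exp_nat_mul, ← Real.exp_neg]
            congr 1
            push_cast
            ring
          rw [e]
          field_simp
          ring
  unfold Ph'
  calc ‖∑ i, (ct i : ℂ) * (2 * (1 / Complex.cosh (z + yv j i * I) ^ 2))‖
      ≤ ∑ i, |ct i| * (2 * (4 / Real.cos b' ^ 2 * Real.exp (-2 * |z.re|))) := by
        refine (norm_sum_le _ _).trans (Finset.sum_le_sum fun i _ => ?_)
        rw [norm_mul, norm_mul, Complex.norm_real, Complex.norm_ofNat, Real.norm_eq_abs]
        gcongr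
        exact hi i
    _ = _ := by
        rw [← Finset.sum_mul, sum_abs_ct]
        ring

/-! ### the winding -/

lemma tanh_im (t y : ℝ) : (2 * Complex.tanh (t + y * I)).im =
    2 * Real.sin (2 * y) / (Real.cosh (2 * t) + Real.cos (2 * y)) := by
  have h1 : Complex.cosh (t + y * I) = ((Real.cosh t * Real.cos y : ℝ) : ℂ) +
      ((Real.sinh t * Real.sin y : ℝ) : ℂ) * I := by
    rw [Complex.cosh_add, Complex.cosh_mul_I, Complex.sinh_mul_I]
    push_cast
    ring
  have h2 : Complex.sinh (t + y * I) = ((Real.sinh t * Real.cos y : ℝ) : ℂ) +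
      ((Real.cosh t * Real.sin y : ℝ) : ℂ) * I := by
    rw [Complex.sinh_add, Complex.cosh_mul_I, Complex.sinh_mul_I]
    push_cast
    ring
  have h3 : Complex.normSq (Complex.cosh (t + y * I)) = (Real.cosh (2 * t) + Real.cos (2 * y)) / 2 := by
    rw [Complex.normSq_eq_norm_sq]
    have := two_norm_cosh_sq ((t : ℂ) + y * I)
    have e1 : ((t : ℂ) + y * I).re = t := by simp
    have e2 : ((t : ℂ) + y * I).im = y := by simp
    rw [e1, e2] at this
    linarith
  have e3 : (2 * Complex.tanh (t + y * I)).im = 2 * (Complex.tanh (t + y * I)).im := by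
    simp
  rw [e3, Complex.tanh_eq_sinh_div_cosh, Complex.div_im, h3, h1, h2]
  have e4 := Real.cosh_sq t
  simp only [Complex.add_re, Complex.ofReal_re, Complex.mul_re, Complex.I_re, mul_zero, Complex.ofReal_im,
    Complex.I_im, mul_one, sub_self, add_zero, Complex.add_im, Complex.mul_im, zero_add]
  rw [Real.sin_two_mul]
  rcases eq_or_ne (Real.cosh (2 * t) + Real.cos (2 * y)) 0 with h0 | h0
  · rw [h0]
    simp
  · field_simp
    linear_combination (Real.cos y * Real.sin y) * e4

lemma kp_integral {y : ℝ} (hy : |y| < Real.pi / 2) :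
    Integrable (fun t : ℝ => (2 * Complex.tanh (t + y * I)).im) ∧
    ∫ t : ℝ, (2 * Complex.tanh (t + y * I)).im = 4 * y := by
  have hpi := Real.pi_pos
  have hc := cos_pos_of (abs_nonneg y) hy
  have hbd : ∀ t : ℝ, |(2 * Complex.tanh (t + y * I)).im| ≤ 4 / Real.cos |y| * Real.exp (-2 * |t|) := by
    intro t
    have e1 : ((t : ℂ) + y * I).im = y := by simp
    have e2 : ((t : ℂ) + y * I).re = t := by simp
    rcases le_total 0 t with h0 | h0
    · have h1 := tanh_sub_one hy (w := (t : ℂ) + y * I) (by rw [e1]) (by rw [e2]; exact h0)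
      rw [e2] at h1
      have h2 := Complex.abs_im_le_norm (Complex.tanh (t + y * I) - 1)
      have h3 : (Complex.tanh (t + y * I) - 1).im = (Complex.tanh (t + y * I)).im := by simp
      rw [h3] at h2
      have h4 : (2 * Complex.tanh (t + y * I)).im = 2 * (Complex.tanh (t + y * I)).im := by simp
      rw [h4, abs_mul, abs_of_pos (by norm_num : (0:ℝ) < 2)]
      calc 2 * |(Complex.tanh (t + y * I)).im| ≤ 2 * (2 / Real.cos |y| * Real.exp (-2 * |t|)) := by
            gcongr
            exact h2.trans h1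
        _ = _ := by ring
    · have h1 := tanh_add_one hy (w := (t : ℂ) + y * I) (by rw [e1]) (by rw [e2]; exact h0)
      rw [e2] at h1
      have h2 := Complex.abs_im_le_norm (Complex.tanh (t + y * I) + 1)
      have h3 : (Complex.tanh (t + y * I) + 1).im = (Complex.tanh (t + y * I)).im := by simp
      rw [h3] at h2
      have h4 : (2 * Complex.tanh (t + y * I)).im = 2 * (Complex.tanh (t + y * I)).im := by simp
      rw [h4, abs_mul, abs_of_pos (by norm_num : (0:ℝ) < 2)]
      calc 2 * |(Complex.tanh (t + y * I)).im| ≤ 2 * (2 / Real.cos |y| * Real.exp (-2 * |t|)) := by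
            gcongr
            exact h2.trans h1
        _ = _ := by ring
  have hmeas : Measurable fun t : ℝ => (2 * Complex.tanh (t + y * I)).im := by
    simp_rw [tanh_im]
    fun_prop
  have hint : Integrable (fun t : ℝ => (2 * Complex.tanh (t + y * I)).im) := by
    refine Integrable.mono' ((int_exp_abs (b := 2) (by norm_num)).const_mul (4 / Real.cos |y|))
      hmeas.aestronglyMeasurable (Eventually.of_forall fun t => ?_)
    rw [Real.norm_eq_abs]
    exact hbd t
  refine ⟨hint, ?_⟩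
  have hf : ∀ t : ℝ, (2 * Complex.tanh (t + y * I)).im = (fun u => -2 * dell (2 * y) (2 * u)) |t| := by
    intro t
    simp only
    rw [tanh_im]
    unfold dell
    have e1 : 1 + 2 * Real.cos (2 * y) * Real.exp (-(2 * |t|)) + Real.exp (-(2 * |t|)) ^ 2 =
        2 * Real.exp (-(2 * |t|)) * (Real.cosh (2 * t) + Real.cos (2 * y)) := by
      rw [← Real.cosh_abs (2 * t), abs_mul, abs_of_pos (by norm_num : (0:ℝ) < 2), Real.cosh_eq]
      have : Real.exp (-(2 * |t|)) * Real.exp (2 * |t|) = 1 := by rw [← Real.exp_add]; simp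
      linear_combination (-1) * this
    rw [e1]
    have hx := Real.exp_pos (-(2 * |t|))
    rcases eq_or_ne (Real.cosh (2 * t) + Real.cos (2 * y)) 0 with h0 | h0
    · rw [h0]
      simp
    · field_simp
  have hi2 : IntegrableOn (fun u : ℝ => -2 * dell (2 * y) (2 * u)) (Ioi 0) := by
    refine (hint.integrableOn (s := Ioi 0)).congr_fun (fun t ht => ?_) measurableSet_Ioi
    have h7 := hf t
    simp only at h7 ⊢
    rw [h7, abs_of_pos ht]
  have hi3 : IntegrableOn (dell (2 * y)) (Ioi 0) := by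
    have h1 : IntegrableOn (fun u : ℝ => dell (2 * y) (2 * u)) (Ioi 0) := by
      refine (hi2.const_mul (-1 / 2)).congr (Eventually.of_forall fun u => ?_)
      simp only
      ring
    have h2 := (integrableOn_Ioi_comp_mul_left_iff (dell (2 * y)) 0 (a := 2) (by norm_num)).1 h1
    rwa [mul_zero] at h2
  have h5 := integral_dell (a := 2 * y) (by rw [abs_lt] at hy; linarith) (by rw [abs_lt] at hy; linarith) hi3
  simp_rw [hf]
  rw [integral_comp_abs (f := fun u => -2 * dell (2 * y) (2 * u)), integral_const_mul]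
  have h6 := integral_comp_mul_left_Ioi (dell (2 * y)) 0 (b := 2) (by norm_num)
  rw [mul_zero, h5, smul_eq_mul] at h6
  rw [h6]
  ring

/-- winding number of a constituent at offset `j` -/
def wnu (j : ℝ) : ℝ := 1 / 4 * ∑ i, ct i * red (av i - j)

/-- the density `Im Ph` -/
def kw (j t : ℝ) : ℝ := (Ph j t).im

lemma kw_eq (j t : ℝ) : kw j t = ∑ i, ct i * (2 * Complex.tanh (t + yv j i * I)).im := by
  unfold kw
  rw [Ph_eq, Complex.im_sum]
  refine Finset.sum_congr rfl fun i _ => ?_
  rw [Complex.im_ofReal_mul]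

theorem kw_integral {δ j : ℝ} (h : Off δ j) (hδ : 0 < δ) : Integrable (kw j) ∧
    ∫ t, kw j t = 2 * Real.pi * wnu j := by
  have hl := l_pos
  have hy : ∀ i, |yv j i| < Real.pi / 2 := by
    intro i
    have h1 := yv_le h i
    have : 0 < δ * l := mul_pos hδ hl
    linarith
  have hi : ∀ i ∈ Finset.univ, Integrable fun t : ℝ => ct i * (2 * Complex.tanh (t + yv j i * I)).im :=
    fun i _ => (kp_integral (hy i)).1.const_mul _
  have e : kw j = fun t : ℝ => ∑ i, ct i * (2 * Complex.tanh (t + yv j i * I)).im := by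
    ext t
    exact kw_eq j t
  rw [e]
  refine ⟨integrable_finsetSum _ hi, ?_⟩
  rw [integral_finsetSum _ hi]
  simp_rw [integral_const_mul]
  have : ∀ i, ct i * ∫ t : ℝ, (2 * Complex.tanh (t + yv j i * I)).im = 2 * Real.pi * (1 / 4) * (ct i * red (av i - j)) := by
    intro i
    rw [(kp_integral (hy i)).2]
    unfold yv l
    ring
  simp_rw [this]
  rw [← Finset.mul_sum]
  unfold wnu
  ring

lemma kw_bound {δ j : ℝ} (h : Off δ j) (hδ : 0 < δ) (t : ℝ) :
    |kw j t| ≤ 24 / Real.sin (δ * l) * Real.exp (-2 * |t|) := by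
  have h1 := Ph_bound h (b := 0) (mul_pos hδ l_pos) (z := (t : ℂ)) (by simp)
  rw [sub_zero, Complex.ofReal_re] at h1
  exact (Complex.abs_im_le_norm _).trans h1

lemma red_of {y : ℝ} (n : ℤ) (h1 : 8 * (n : ℝ) - 4 ≤ y) (h2 : y < 8 * n + 4) : red y = y - 8 * n := by
  have h3 : round (y / 8) = n := by
    rw [round_eq, Int.floor_eq_iff]
    constructor <;> linarith
  unfold red
  rw [h3]

/-- the value on `(0, 1)` -/
theorem wnu_01 {j : ℝ} (h0 : 0 < j) (h1 : j < 1) : wnu j = 1 := by
  unfold wnu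
  rw [sum8]
  simp only [ct, co, cx, av, Matrix.cons_val]
  push_cast
  rw [red_of (y := 4 - j) 0 (by push_cast; linarith) (by push_cast; linarith),
    red_of (y := 2 - j) 0 (by push_cast; linarith) (by push_cast; linarith),
    red_of (y := -2 - j) 0 (by push_cast; linarith) (by push_cast; linarith),
    red_of (y := 3 - j) 0 (by push_cast; linarith) (by push_cast; linarith),
    red_of (y := 5 - j) 1 (by push_cast; linarith) (by push_cast; linarith),
    red_of (y := 0 - j) 0 (by push_cast; linarith) (by push_cast; linarith),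
    red_of (y := 1 - j) 0 (by push_cast; linarith) (by push_cast; linarith),
    red_of (y := -1 - j) 0 (by push_cast; linarith) (by push_cast; linarith)]
  push_cast
  ring

/-- the value on `(1, 2)` -/
theorem wnu_12 {j : ℝ} (h0 : 1 < j) (h1 : j < 2) : wnu j = 0 := by
  unfold wnu
  rw [sum8]
  simp only [ct, co, cx, av, Matrix.cons_val]
  push_cast
  rw [red_of (y := 4 - j) 0 (by push_cast; linarith) (by push_cast; linarith),
    red_of (y := 2 - j) 0 (by push_cast; linarith) (by push_cast; linarith),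
    red_of (y := -2 - j) 0 (by push_cast; linarith) (by push_cast; linarith),
    red_of (y := 3 - j) 0 (by push_cast; linarith) (by push_cast; linarith),
    red_of (y := 5 - j) 0 (by push_cast; linarith) (by push_cast; linarith),
    red_of (y := 0 - j) 0 (by push_cast; linarith) (by push_cast; linarith),
    red_of (y := 1 - j) 0 (by push_cast; linarith) (by push_cast; linarith),
    red_of (y := -1 - j) 0 (by push_cast; linarith) (by push_cast; linarith)]
  push_cast
  ring

/-- the value on `(2, 3)` -/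
theorem wnu_23 {j : ℝ} (h0 : 2 < j) (h1 : j < 3) : wnu j = 1 := by
  unfold wnu
  rw [sum8]
  simp only [ct, co, cx, av, Matrix.cons_val]
  push_cast
  rw [red_of (y := 4 - j) 0 (by push_cast; linarith) (by push_cast; linarith),
    red_of (y := 2 - j) 0 (by push_cast; linarith) (by push_cast; linarith),
    red_of (y := -2 - j) (-1) (by push_cast; linarith) (by push_cast; linarith),
    red_of (y := 3 - j) 0 (by push_cast; linarith) (by push_cast; linarith),
    red_of (y := 5 - j) 0 (by push_cast; linarith) (by push_cast; linarith),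
    red_of (y := 0 - j) 0 (by push_cast; linarith) (by push_cast; linarith),
    red_of (y := 1 - j) 0 (by push_cast; linarith) (by push_cast; linarith),
    red_of (y := -1 - j) 0 (by push_cast; linarith) (by push_cast; linarith)]
  push_cast
  ring

/-- the value on `(3, 4)` -/
theorem wnu_34 {j : ℝ} (h0 : 3 < j) (h1 : j < 4) : wnu j = -1 := by
  unfold wnu
  rw [sum8]
  simp only [ct, co, cx, av, Matrix.cons_val]
  push_cast
  rw [red_of (y := 4 - j) 0 (by push_cast; linarith) (by push_cast; linarith),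
    red_of (y := 2 - j) 0 (by push_cast; linarith) (by push_cast; linarith),
    red_of (y := -2 - j) (-1) (by push_cast; linarith) (by push_cast; linarith),
    red_of (y := 3 - j) 0 (by push_cast; linarith) (by push_cast; linarith),
    red_of (y := 5 - j) 0 (by push_cast; linarith) (by push_cast; linarith),
    red_of (y := 0 - j) 0 (by push_cast; linarith) (by push_cast; linarith),
    red_of (y := 1 - j) 0 (by push_cast; linarith) (by push_cast; linarith),
    red_of (y := -1 - j) (-1) (by push_cast; linarith) (by push_cast; linarith)]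
  push_cast
  ring

end

end NUO
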