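import Pool.Agent.NUO.GenX

/-!
# Kernel-checked certificates for the dressed kernels (helper23)

A certificate is a list of terms `coef * base * product of multipliers`; its total numerator over
`gA ^ M * gB ^ p * gH ^ l` is an integer polynomial in `w = cosh z - 1` (`NUPolyR`), so the whole
positivity statement is two `decide +kernel` calls: `Cert.ok` (ranges) and one polynomial identity.
-/

set_option autoImplicit false
set_option linter.unusedSimpArgs false

open MeasureTheory Set Filter Topology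

namespace NUCX

open NUMH NUSB NUO NUPosK NUPolyR

noncomputable section

/-- `P (2π...)`: half step bases over `gB` -/
theorem gCp02 : PK fun k => PP k * (2 * ch 8 (zk k) * ch 4 (zk k) * (ch 6 (zk k) - ch 2 (zk k)) /
    gB (zk k)) := by
  have h := pk_log (N := 3 / 2) (a := (0:ℕ) / 4) (b := (4:ℕ) / 4) (by norm_num) (by norm_num) (by norm_num)
  refine (h.smul (c := Real.pi) Real.pi_pos.le).congr fun k hk => ?_
  have hz := zk_pos hk
  rw [ch_yk, ch_yk, gB_eq hz]
  have e1 : (3 / 2 : ℝ) * yk k = 6 * zk k := by unfold yk zk; ring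
  rw [e1]
  unfold PP
  rw [sinh16']
  have h4 : 0 < Real.sinh (4 * zk k) := Real.sinh_pos_iff.2 (by positivity)
  have h2 : 0 < Real.sinh (2 * zk k) := Real.sinh_pos_iff.2 (by positivity)
  have h6 : 0 < Real.sinh (6 * zk k) := Real.sinh_pos_iff.2 (by positivity)
  have h8 : 0 < ch 8 (zk k) := lt_of_lt_of_le one_pos (one_le_ch _ _)
  have h9 : 0 < ch 4 (zk k) := lt_of_lt_of_le one_pos (one_le_ch _ _)
  have q : ch 6 (zk k) - ch 2 (zk k) = 2 * Real.sinh (4 * zk k) * Real.sinh (2 * zk k) := by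
    have a1 : ch 6 (zk k) = Real.cosh (4 * zk k + 2 * zk k) := by unfold ch; congr 1; push_cast; ring
    have a2 : ch 2 (zk k) = Real.cosh (4 * zk k - 2 * zk k) := by unfold ch; congr 1; push_cast; ring
    rw [a1, a2, Real.cosh_add, Real.cosh_sub]; ring
  have q2 : ch 4 (zk k) - ch 0 (zk k) = 2 * Real.sinh (2 * zk k) ^ 2 := by
    have a1 : ch 4 (zk k) = Real.cosh (2 * (2 * zk k)) := by unfold ch; congr 1; push_cast; ring
    have a2 : ch 0 (zk k) = 1 := by unfold ch; simp
    rw [a1, a2, Real.cosh_two_mul, Real.cosh_sq]; ring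
  rw [q, q2]
  field_simp
  try ring

theorem gCp13 : PK fun k => PP k * (2 * ch 8 (zk k) * ch 4 (zk k) * (ch 7 (zk k) - ch 5 (zk k) +
    (ch 3 (zk k) - ch 1 (zk k))) / gB (zk k)) := by
  have h := pk_log (N := 3 / 2) (a := (3:ℕ) / 4) (b := (5:ℕ) / 4) (by norm_num) (by norm_num) (by norm_num)
  refine (h.smul (c := Real.pi) Real.pi_pos.le).congr fun k hk => ?_
  have hz := zk_pos hk
  rw [ch_yk, ch_yk, gB_eq hz]
  have e1 : (3 / 2 : ℝ) * yk k = 6 * zk k := by unfold yk zk; ring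
  rw [e1]
  unfold PP
  rw [sinh16']
  have h4 : 0 < Real.sinh (4 * zk k) := Real.sinh_pos_iff.2 (by positivity)
  have h2 : 0 < Real.sinh (2 * zk k) := Real.sinh_pos_iff.2 (by positivity)
  have h6 : 0 < Real.sinh (6 * zk k) := Real.sinh_pos_iff.2 (by positivity)
  have h8 : 0 < ch 8 (zk k) := lt_of_lt_of_le one_pos (one_le_ch _ _)
  have h9 : 0 < ch 4 (zk k) := lt_of_lt_of_le one_pos (one_le_ch _ _)
  have q : ch 7 (zk k) - ch 5 (zk k) + (ch 3 (zk k) - ch 1 (zk k)) =
      4 * Real.sinh (4 * zk k) * (Real.cosh (2 * zk k) * Real.sinh (zk k)) := by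
    have a1 : ch 7 (zk k) = Real.cosh (4 * zk k + (2 * zk k + zk k)) := by unfold ch; congr 1; push_cast; ring
    have a2 : ch 5 (zk k) = Real.cosh (4 * zk k + (2 * zk k - zk k)) := by unfold ch; congr 1; push_cast; ring
    have a3 : ch 3 (zk k) = Real.cosh (4 * zk k - (2 * zk k - zk k)) := by unfold ch; congr 1; push_cast; ring
    have a4 : ch 1 (zk k) = Real.cosh (4 * zk k - (2 * zk k + zk k)) := by
      unfold ch; congr 1; push_cast; ring
    rw [a1, a2, a3, a4]
    simp only [Real.cosh_add, Real.cosh_sub, Real.sinh_add, Real.sinh_sub]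
    ring
  have q2 : ch 5 (zk k) - ch 3 (zk k) = 4 * Real.sinh (2 * zk k) * Real.cosh (2 * zk k) * Real.sinh (zk k) := by
    have a1 : ch 5 (zk k) = Real.cosh (2 * (2 * zk k) + zk k) := by unfold ch; congr 1; push_cast; ring
    have a2 : ch 3 (zk k) = Real.cosh (2 * (2 * zk k) - zk k) := by unfold ch; congr 1; push_cast; ring
    rw [a1, a2, Real.cosh_add, Real.cosh_sub, Real.sinh_two_mul]; ring
  rw [q, q2]
  field_simp
  try ring

/-- literal Chebyshev lists -/
def tt : ℕ → IP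
  | 0 => t0 | 1 => t1 | 2 => t2 | 3 => t3 | 4 => t4 | 5 => t5 | 6 => t6 | 7 => t7 | 8 => t8 | 9 => t9
  | 10 => t10 | 11 => t11 | 12 => t12 | 13 => t13 | 14 => t14 | 15 => t15 | 16 => t16 | 17 => t17
  | _ => []

theorem ev_tt {n : ℕ} (hn : n ≤ 17) (z : ℝ) : ev (tt n) (ww z) = ch n z := by
  unfold ww ch
  interval_cases n <;> simp only [tt] <;>
  first
    | exact_mod_cast ev_t0 z | exact_mod_cast ev_t1 z | exact_mod_cast ev_t2 z | exact_mod_cast ev_t3 z
    | exact_mod_cast ev_t4 z | exact_mod_cast ev_t5 z | exact_mod_cast ev_t6 z | exact_mod_cast ev_t7 z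
    | exact_mod_cast ev_t8 z | exact_mod_cast ev_t9 z | exact_mod_cast ev_t10 z | exact_mod_cast ev_t11 z
    | exact_mod_cast ev_t12 z | exact_mod_cast ev_t13 z | exact_mod_cast ev_t14 z
    | exact_mod_cast ev_t15 z | exact_mod_cast ev_t16 z | exact_mod_cast ev_t17 z

def lA : IP := [1, 32, 80, 64, 16]
def lB : IP := [3, 32, 80, 64, 16]

theorem ev_lA (z : ℝ) : ev lA (ww z) = gA z := by
  have h := ev_tt (n := 4) (by norm_num) z
  unfold gA
  rw [← h]
  simp only [lA, tt, t4, ev_cons, ev_nil]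
  push_cast
  ring

theorem ev_lB (z : ℝ) : ev lB (ww z) = gB z := by
  have h := ev_tt (n := 4) (by norm_num) z
  unfold gB
  rw [← h]
  simp only [lB, tt, t4, ev_cons, ev_nil]
  push_cast
  ring

theorem ev_t2' (z : ℝ) : ev t2 (ww z) = gH z := ev_tt (n := 2) (by norm_num) z

def lpow (l : IP) : ℕ → IP
  | 0 => [1]
  | n + 1 => mul l (lpow l n)

theorem ev_lpow (l : IP) (n : ℕ) (w : ℝ) : ev (lpow l n) w = ev l w ^ n := by
  induction n with
  | zero => simp [lpow]
  | succ n ih => rw [lpow, ev_mul, ih, pow_succ]; ring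

/-- the denominators -/
def dn (i j l : ℕ) (z : ℝ) : ℝ := gA z ^ i * gB z ^ j * gH z ^ l

lemma dn_pos (i j l : ℕ) (z : ℝ) : 0 < dn i j l z := by
  have := gA_pos z; have := gB_pos z; have := gH_pos z
  unfold dn; positivity

lemma dn_add (i j l i' j' l' : ℕ) (z : ℝ) : dn (i + i') (j + j') (l + l') z = dn i j l z * dn i' j' l' z := by
  unfold dn; rw [pow_add, pow_add, pow_add]; ring

def ldn (i j l : ℕ) : IP := mul (lpow lA i) (mul (lpow lB j) (lpow t2 l))

lemma ev_ldn (i j l : ℕ) (z : ℝ) : ev (ldn i j l) (ww z) = dn i j l z := by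
  unfold ldn dn
  rw [ev_mul, ev_mul, ev_lpow, ev_lpow, ev_lpow, ev_lA, ev_lB, ev_t2']; ring

/-- positive kernel with numerator list -/
def GG (N : IP) (i j l : ℕ) : Prop := PK fun k => PP k * (ev N (ww (zk k)) / dn i j l (zk k))
/-- multiplier with numerator list -/
def UU (N : IP) (i j l : ℕ) : Prop := MK fun k => ev N (ww (zk k)) / dn i j l (zk k)

theorem GG.mul {N M : IP} {i j l i' j' l' : ℕ} (h : GG N i j l) (h' : UU M i' j' l') :
    GG (mul N M) (i + i') (j + j') (l + l') := by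
  refine (PK.mul h h').congr fun k _ => ?_
  rw [ev_mul, dn_add]
  have h1 := (dn_pos i j l (zk k)).ne'
  have h2 := (dn_pos i' j' l' (zk k)).ne'
  field_simp

theorem GG.add {N M : IP} {i j l : ℕ} (h : GG N i j l) (h' : GG M i j l) : GG (add N M) i j l := by
  refine (PK.add h h').congr fun k _ => ?_
  rw [ev_add]; ring

theorem GG.smul {N : IP} {i j l : ℕ} (c : ℕ) (h : GG N i j l) : GG (smul c N) i j l := by
  refine (PK.smul h (c := c) (by positivity)).congr fun k _ => ?_
  rw [ev_smul]; push_cast; ring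

theorem GG.lift {N : IP} {i j l : ℕ} (h : GG N i j l) (i' j' l' : ℕ) :
    GG (NUPolyR.mul N (ldn i' j' l')) (i + i') (j + j') (l + l') := by
  refine h.congr fun k _ => ?_
  rw [ev_mul, ev_ldn, dn_add]
  have h1 := (dn_pos i j l (zk k)).ne'
  have h2 := (dn_pos i' j' l' (zk k)).ne'
  field_simp

theorem GG.zero (i j l : ℕ) : GG [] i j l := by
  refine PK.zero.congr fun k _ => ?_
  simp

/-! ### the syntax -/

inductive Bs
  | D4 (a b : ℕ) | D2 (a b : ℕ) | D1 (a b : ℕ) | E2 | Cm (a b : ℕ) | Cp02 | Cp13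

def Bs.ok : Bs → Bool
  | .D4 a b => decide (a < b) && decide (b < 16)
  | .D2 a b => decide (a < b) && decide (b < 8)
  | .D1 a b => decide (a < b) && decide (b < 4)
  | .E2 => true
  | .Cm a b => decide (a < b) && decide (b ≤ 3)
  | .Cp02 => true
  | .Cp13 => true

def Bs.num : Bs → IP
  | .D4 a b => sub (tt b) (tt a)
  | .D2 a b => smul 2 (NUPolyR.mul t8 (sub (tt b) (tt a)))
  | .D1 a b => smul 4 (NUPolyR.mul (NUPolyR.mul t8 t4) (sub (tt b) (tt a)))
  | .E2 => NUPolyR.mul t8 (sub (smul 5 (sub t3 t1)) (smul 2 (sub t5 t3)))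
  | .Cm a b => smul 2 (NUPolyR.mul (NUPolyR.mul t8 t4)
      (add (sub (tt (4 + b)) (tt (4 + a))) (sub (tt (4 - a)) (tt (4 - b)))))
  | .Cp02 => smul 2 (NUPolyR.mul (NUPolyR.mul t8 t4) (sub t6 t2))
  | .Cp13 => smul 2 (NUPolyR.mul (NUPolyR.mul t8 t4) (add (sub t7 t5) (sub t3 t1)))

def Bs.i : Bs → ℕ
  | .Cm _ _ => 1
  | _ => 0
def Bs.j : Bs → ℕ
  | .Cp02 => 1
  | .Cp13 => 1
  | _ => 0

lemma E_t (n : ℕ) (hn : n ≤ 17) (z : ℝ) : ev (tt n) (ww z) = ch n z := ev_tt hn z

theorem Bs.gg (b : Bs) (h : b.ok = true) : GG b.num b.i b.j 0 := by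
  cases b with
  | D4 a b =>
    simp only [Bs.ok, Bool.and_eq_true, decide_eq_true_eq] at h
    refine (gD4 h.1 h.2).congr fun k _ => ?_
    simp only [Bs.num, Bs.i, Bs.j, dn, ev_sub, E_t a (by omega), E_t b (by omega), pow_zero]
    ring
  | D2 a b =>
    simp only [Bs.ok, Bool.and_eq_true, decide_eq_true_eq] at h
    refine (gD2 h.1 h.2).congr fun k _ => ?_
    have h8 : ev t8 (ww (zk k)) = ch 8 (zk k) := E_t 8 (by norm_num) _
    simp only [Bs.num, Bs.i, Bs.j, dn, ev_sub, ev_smul, ev_mul, h8, E_t a (by omega), E_t b (by omega),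
      pow_zero]
    push_cast
    ring
  | D1 a b =>
    simp only [Bs.ok, Bool.and_eq_true, decide_eq_true_eq] at h
    refine (gD1 h.1 h.2).congr fun k _ => ?_
    have h8 : ev t8 (ww (zk k)) = ch 8 (zk k) := E_t 8 (by norm_num) _
    have h4 : ev t4 (ww (zk k)) = ch 4 (zk k) := E_t 4 (by norm_num) _
    simp only [Bs.num, Bs.i, Bs.j, dn, ev_sub, ev_smul, ev_mul, h8, h4, E_t a (by omega),
      E_t b (by omega), pow_zero]
    push_cast
    ring
  | E2 =>
    refine gE2.congr fun k _ => ?_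
    have h8 : ev t8 (ww (zk k)) = ch 8 (zk k) := E_t 8 (by norm_num) _
    have h1 : ev t1 (ww (zk k)) = ch 1 (zk k) := E_t 1 (by norm_num) _
    have h3 : ev t3 (ww (zk k)) = ch 3 (zk k) := E_t 3 (by norm_num) _
    have h5 : ev t5 (ww (zk k)) = ch 5 (zk k) := E_t 5 (by norm_num) _
    simp only [Bs.num, Bs.i, Bs.j, dn, ev_sub, ev_smul, ev_mul, h8, h1, h3, h5, pow_zero]
    push_cast
    ring
  | Cm a b =>
    simp only [Bs.ok, Bool.and_eq_true, decide_eq_true_eq] at h
    refine (gCm h.1 h.2).congr fun k _ => ?_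
    have h8 : ev t8 (ww (zk k)) = ch 8 (zk k) := E_t 8 (by norm_num) _
    have h4 : ev t4 (ww (zk k)) = ch 4 (zk k) := E_t 4 (by norm_num) _
    simp only [Bs.num, Bs.i, Bs.j, dn, ev_sub, ev_add, ev_smul, ev_mul, h8, h4, E_t (4 + a) (by omega),
      E_t (4 + b) (by omega), E_t (4 - a) (by omega), E_t (4 - b) (by omega), pow_zero]
    push_cast
    ring
  | Cp02 =>
    refine gCp02.congr fun k _ => ?_
    have h8 : ev t8 (ww (zk k)) = ch 8 (zk k) := E_t 8 (by norm_num) _
    have h4 : ev t4 (ww (zk k)) = ch 4 (zk k) := E_t 4 (by norm_num) _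
    have h6 : ev t6 (ww (zk k)) = ch 6 (zk k) := E_t 6 (by norm_num) _
    have h2 : ev t2 (ww (zk k)) = ch 2 (zk k) := E_t 2 (by norm_num) _
    simp only [Bs.num, Bs.i, Bs.j, dn, ev_sub, ev_add, ev_smul, ev_mul, h8, h4, h6, h2, pow_zero]
    push_cast
    ring
  | Cp13 =>
    refine gCp13.congr fun k _ => ?_
    have h8 : ev t8 (ww (zk k)) = ch 8 (zk k) := E_t 8 (by norm_num) _
    have h4 : ev t4 (ww (zk k)) = ch 4 (zk k) := E_t 4 (by norm_num) _
    have h1 : ev t1 (ww (zk k)) = ch 1 (zk k) := E_t 1 (by norm_num) _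
    have h3 : ev t3 (ww (zk k)) = ch 3 (zk k) := E_t 3 (by norm_num) _
    have h5 : ev t5 (ww (zk k)) = ch 5 (zk k) := E_t 5 (by norm_num) _
    have h7 : ev t7 (ww (zk k)) = ch 7 (zk k) := E_t 7 (by norm_num) _
    simp only [Bs.num, Bs.i, Bs.j, dn, ev_sub, ev_add, ev_smul, ev_mul, h8, h4, h1, h3, h5, h7, pow_zero]
    push_cast
    ring

/-- multipliers: `m n = c_{n/4}/A`, `p n = c_{n/4}/B`, `q n = c_{n/4}/(AB)`, `h n = c_{n/4}/H`,
`r n = c_{n/4}/(AH)` -/
inductive Mu
  | m (n : ℕ) | p (n : ℕ) | q (n : ℕ) | h (n : ℕ) | r (n : ℕ)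

def Mu.ok : Mu → Bool
  | .m n => decide (n ≤ 3)
  | .p n => decide (n ≤ 3)
  | .q n => decide (n ≤ 6)
  | .h n => decide (n ≤ 1)
  | .r n => decide (n ≤ 5)

def Mu.num : Mu → IP
  | .m n => tt n
  | .p n => tt n
  | .q n => tt n
  | .h n => tt n
  | .r n => tt n

def Mu.i : Mu → ℕ
  | .m _ => 1 | .p _ => 0 | .q _ => 1 | .h _ => 0 | .r _ => 1
def Mu.j : Mu → ℕ
  | .m _ => 0 | .p _ => 1 | .q _ => 1 | .h _ => 0 | .r _ => 0
def Mu.l : Mu → ℕ
  | .m _ => 0 | .p _ => 0 | .q _ => 0 | .h _ => 1 | .r _ => 1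

theorem Mu.uu (u : Mu) (h : u.ok = true) : UU u.num u.i u.j u.l := by
  cases u with
  | m n =>
    simp only [Mu.ok, decide_eq_true_eq] at h
    refine (mM h).congr fun k _ => ?_
    simp only [Mu.num, Mu.i, Mu.j, Mu.l, dn, E_t n (by omega), pow_zero, pow_one, mul_one, one_mul]
  | p n =>
    simp only [Mu.ok, decide_eq_true_eq] at h
    refine (mP h).congr fun k _ => ?_
    simp only [Mu.num, Mu.i, Mu.j, Mu.l, dn, E_t n (by omega), pow_zero, pow_one, mul_one, one_mul]
  | q n =>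
    simp only [Mu.ok, decide_eq_true_eq] at h
    refine (mQ h).congr fun k _ => ?_
    simp only [Mu.num, Mu.i, Mu.j, Mu.l, dn, E_t n (by omega), pow_zero, pow_one, mul_one]
  | h n =>
    simp only [Mu.ok, decide_eq_true_eq] at h
    refine (mH h).congr fun k _ => ?_
    simp only [Mu.num, Mu.i, Mu.j, Mu.l, dn, E_t n (by omega), pow_zero, pow_one, one_mul]
  | r n =>
    simp only [Mu.ok, decide_eq_true_eq] at h
    refine (mR h).congr fun k _ => ?_
    simp only [Mu.num, Mu.i, Mu.j, Mu.l, dn, E_t n (by omega), pow_zero, pow_one, mul_one]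

/-- one term: coefficient, base, multipliers -/
structure Tm where
  c : ℕ
  b : Bs
  u : List Mu

def prodN (b : Bs) : List Mu → IP
  | [] => b.num
  | u :: l => NUPolyR.mul (prodN b l) u.num
def prodI (b : Bs) : List Mu → ℕ
  | [] => b.i
  | u :: l => prodI b l + u.i
def prodJ (b : Bs) : List Mu → ℕ
  | [] => b.j
  | u :: l => prodJ b l + u.j
def prodL : List Mu → ℕ
  | [] => 0
  | u :: l => prodL l + u.l
def allOk (b : Bs) : List Mu → Bool
  | [] => b.ok
  | u :: l => allOk b l && u.ok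

theorem prod_gg (b : Bs) (l : List Mu) (h : allOk b l = true) :
    GG (prodN b l) (prodI b l) (prodJ b l) (prodL l) := by
  induction l with
  | nil => exact b.gg h
  | cons u l ih =>
    simp only [allOk, Bool.and_eq_true] at h
    exact (ih h.1).mul (u.uu h.2)

/-- total numerator over `dn M p h` -/
def total (M p h : ℕ) : List Tm → IP
  | [] => []
  | t :: ts => add (smul t.c (NUPolyR.mul (prodN t.b t.u)
      (ldn (M - prodI t.b t.u) (p - prodJ t.b t.u) (h - prodL t.u)))) (total M p h ts)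

def okC (M p h : ℕ) : List Tm → Bool
  | [] => true
  | t :: ts => (allOk t.b t.u && (decide (prodI t.b t.u ≤ M) && (decide (prodJ t.b t.u ≤ p) &&
      decide (prodL t.u ≤ h)))) && okC M p h ts

theorem total_gg (M p h : ℕ) (ts : List Tm) (hok : okC M p h ts = true) : GG (total M p h ts) M p h := by
  induction ts with
  | nil => exact GG.zero M p h
  | cons t ts ih =>
    simp only [okC, Bool.and_eq_true, decide_eq_true_eq] at hok
    obtain ⟨⟨h1, h2, h3, h4⟩, h5⟩ := hok
    refine GG.add ?_ (ih h5)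
    refine GG.smul t.c ?_
    have := (prod_gg t.b t.u h1).lift (M - prodI t.b t.u) (p - prodJ t.b t.u) (h - prodL t.u)
    rwa [Nat.add_sub_cancel' h2, Nat.add_sub_cancel' h3, Nat.add_sub_cancel' h4] at this

/-! ### the dressed kernels -/

/-- numerators of `2 (fX + fY)`, `2 (fX - fY)` (times `5 H` for `S`) -/
def lX : B → IP
  | .L => add (sub t1 t3) (add (smul 2 t7) (sub t15 t11))
  | .T => add (add t2 t6) (add t10 t14)
  | .S => sub (NUPolyR.mul (smul 5 t2) lFXS2) (smul 2 lPsi)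
  | .V => lFXV2
def lY : B → IP
  | .L => smul 2 (sub t9 (add t5 t13))
  | .T => smul (-2) (add t2 t14)
  | .S => NUPolyR.mul (smul 5 t2) lFYS2
  | .V => lFYV2
def cc : B → ℕ
  | .L => 2 | .T => 2 | .S => 10 | .V => 2
def ee : B → ℕ
  | .L => 0 | .T => 0 | .S => 1 | .V => 0

lemma psi_eq (z : ℝ) : 5 * gH z * psi z = ev lPsi (ww z) := by
  have h := ev_eq lPsi_eq (ww z)
  simp only [ev_mul, ev_sub, ev_add, ev_smul, ev_cons, ev_nil] at h
  have e8 := E_t 8 (by norm_num) z
  have e4 := E_t 4 (by norm_num) z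
  have e1 := E_t 1 (by norm_num) z
  have e2 := E_t 2 (by norm_num) z
  simp only [tt] at e8 e4 e1 e2
  rw [h, e8, e4, e1, e2]
  have h4 := ch4_eq z
  have p1 : 0 < ch 1 z := lt_of_lt_of_le one_pos (one_le_ch _ _)
  have p2 : 0 < ch 2 z := lt_of_lt_of_le one_pos (one_le_ch _ _)
  unfold psi gH
  rw [h4]
  field_simp
  push_cast
  ring

lemma ev_lX (a : B) (z : ℝ) : ev (lX a) (ww z) = cc a * gH z ^ ee a * fX a z := by
  have e1 := E_t 1 (by norm_num) z
  have e2 := E_t 2 (by norm_num) z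
  have e3 := E_t 3 (by norm_num) z
  have e4 := E_t 4 (by norm_num) z
  have e5 := E_t 5 (by norm_num) z
  have e6 := E_t 6 (by norm_num) z
  have e7 := E_t 7 (by norm_num) z
  have e9 := E_t 9 (by norm_num) z
  have e10 := E_t 10 (by norm_num) z
  have e11 := E_t 11 (by norm_num) z
  have e13 := E_t 13 (by norm_num) z
  have e14 := E_t 14 (by norm_num) z
  have e15 := E_t 15 (by norm_num) z
  simp only [tt] at e1 e2 e3 e4 e5 e6 e7 e9 e10 e11 e13 e14 e15
  cases a with
  | L =>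
    simp only [lX, cc, ee, fX, fXL, ev_add, ev_sub, ev_smul, e1, e3, e7, e15, e11, pow_zero]
    push_cast; ring
  | T =>
    simp only [lX, cc, ee, fX, fXT, ev_add, ev_sub, ev_smul, e2, e6, e10, e14, pow_zero]
    push_cast; ring
  | S =>
    have h := ev_eq lFXS2_eq (ww z)
    simp only [ev_add, ev_smul, e3, e5, e7, e15] at h
    have hp := psi_eq z
    simp only [lX, cc, ee, fX, fXS, ev_add, ev_sub, ev_smul, ev_mul, h, ← hp, e2, pow_one]
    unfold gH
    push_cast; ring
  | V =>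
    have h := ev_eq lFXV2_eq (ww z)
    simp only [ev_add, ev_smul, e1, e3, e5, e7, e15] at h
    simp only [lX, cc, ee, fX, fXV, h, pow_zero]
    push_cast; ring

lemma ev_lY (a : B) (z : ℝ) : ev (lY a) (ww z) = cc a * gH z ^ ee a * fY a z := by
  have e2 := E_t 2 (by norm_num) z
  have e5 := E_t 5 (by norm_num) z
  have e7 := E_t 7 (by norm_num) z
  have e9 := E_t 9 (by norm_num) z
  have e11 := E_t 11 (by norm_num) z
  have e13 := E_t 13 (by norm_num) z
  have e14 := E_t 14 (by norm_num) z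
  have e15 := E_t 15 (by norm_num) z
  simp only [tt] at e2 e5 e7 e9 e11 e13 e14 e15
  cases a with
  | L =>
    simp only [lY, cc, ee, fY, fYL, ev_add, ev_sub, ev_smul, e9, e5, e13, pow_zero]
    push_cast; ring
  | T =>
    simp only [lY, cc, ee, fY, fYT, ev_add, ev_sub, ev_smul, e2, e14, pow_zero]
    push_cast; ring
  | S =>
    have h := ev_eq lFYS2_eq (ww z)
    simp only [ev_add, ev_smul, e5, e15] at h
    simp only [lY, cc, ee, fY, fYS, ev_smul, ev_mul, h, e2, pow_one]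
    unfold gH
    push_cast; ring
  | V =>
    have h := ev_eq lFYV2_eq (ww z)
    simp only [ev_add, ev_smul, e5, e7, e9, e11, e13, e15] at h
    simp only [lY, cc, ee, fY, fYV, h, pow_zero]
    push_cast; ring

lemma ev_lU (z : ℝ) : ev lU (ww z) = up z := by
  have h := ev_eq lU_eq (ww z)
  have e4 := E_t 4 (by norm_num) z
  simp only [tt] at e4
  simp only [ev_mul, ev_sub, ev_add, ev_smul, ev_cons, ev_nil, e4] at h
  rw [h]; unfold up; push_cast; ring

lemma ev_lV (z : ℝ) : ev lV (ww z) = um z := by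
  have h := ev_eq lV_eq (ww z)
  have e4 := E_t 4 (by norm_num) z
  simp only [tt] at e4
  simp only [ev_mul, ev_sub, ev_add, ev_smul, ev_cons, ev_nil, e4] at h
  rw [h]; unfold um; push_cast; ring

/-- the left side of the identity: `s = 1` same species, `s = -1` opposite species;
`cx H^ex (direct - extra) = ev X`. -/
def lhs (s : ℤ) (a b : B) (X : IP) (cx ex : ℕ) (c0 M p l : ℕ) : IP :=
  NUPolyR.mul (sub (smul (2 * cc a * cc b) (NUPolyR.mul (NUPolyR.mul lU lV)
      (NUPolyR.mul (lpow t2 (ee a + ee b)) X)))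
    (smul cx (NUPolyR.mul (lpow t2 ex) (add
      (NUPolyR.mul (NUPolyR.mul (add (lX a) (lY a)) (add (lX b) (lY b))) lV)
      (smul s (NUPolyR.mul (NUPolyR.mul (sub (lX a) (lY a)) (sub (lX b) (lY b))) lU))))))
    (smul c0 (ldn M p l))

def rhs (a b : B) (cx ex : ℕ) (T : IP) : IP :=
  smul (2 * cc a * cc b * cx) (NUPolyR.mul (NUPolyR.mul lU lV)
    (NUPolyR.mul (lpow t2 (ee a + ee b + ex)) T))

theorem kernel_eq (s : ℤ) (a b : B) (X : IP) (cx ex c0 M p l : ℕ) (T : IP) (hcx : 0 < cx) (hc0 : 0 < c0)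
    (hid : isZ (sub (lhs s a b X cx ex c0 M p l) (rhs a b cx ex T)) = true)
    (D : ℝ) {z : ℝ} (hz : 0 < z) (hX : ev X (ww z) = cx * gH z ^ ex * D) :
    D - (1 / 2) * ((fX a z + fY a z) * (fX b z + fY b z) / up z
      + s * ((fX a z - fY a z) * (fX b z - fY b z) / um z)) =
    1 / c0 * (ev T (ww z) / dn M p l z) := by
  have h := ev_eq hid (ww z)
  unfold lhs rhs at h
  simp only [ev_mul, ev_sub, ev_add, ev_smul, ev_lpow, ev_ldn, ev_t2', ev_lX, ev_lY, ev_lU, ev_lV, hX] at h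
  have hU := up_pos hz
  have hV := um_pos z
  have hH := gH_pos z
  have hD := dn_pos M p l z
  have hca : (0:ℝ) < cc a := by cases a <;> norm_num [cc]
  have hcb : (0:ℝ) < cc b := by cases b <;> norm_num [cc]
  have hcx' : (0:ℝ) < cx := by exact_mod_cast hcx
  have hc0' : (0:ℝ) < c0 := by exact_mod_cast hc0
  rw [pow_add, pow_add] at h
  have hHa := pow_pos hH (ee a)
  have hHb := pow_pos hH (ee b)
  have hHx := pow_pos hH ex
  have key : (2 * cc a * cc b * cx * (up z * um z) * (gH z ^ ee a * gH z ^ ee b * gH z ^ ex)) *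
      (c0 * dn M p l z) * (D - (1 / 2) * ((fX a z + fY a z) * (fX b z + fY b z) / up z
      + s * ((fX a z - fY a z) * (fX b z - fY b z) / um z))) =
      (2 * cc a * cc b * cx * (up z * um z) * (gH z ^ ee a * gH z ^ ee b * gH z ^ ex)) * ev T (ww z) := by
    have e1 : (fX a z + fY a z) * (fX b z + fY b z) / up z * up z =
      (fX a z + fY a z) * (fX b z + fY b z) := div_mul_cancel₀ _ hU.ne'
    have e2 : (fX a z - fY a z) * (fX b z - fY b z) / um z * um z =
      (fX a z - fY a z) * (fX b z - fY b z) := div_mul_cancel₀ _ hV.ne'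
    generalize (fX a z + fY a z) * (fX b z + fY b z) / up z = q1 at *
    generalize (fX a z - fY a z) * (fX b z - fY b z) / um z = q2 at *
    push_cast at h
    linear_combination h - (cc a * cc b * cx * um z * (gH z ^ ee a * gH z ^ ee b * gH z ^ ex) *
      (c0 * dn M p l z)) * e1 - (cc a * cc b * cx * up z * s * (gH z ^ ee a * gH z ^ ee b * gH z ^ ex) *
      (c0 * dn M p l z)) * e2
  have hK : 0 < (2 * cc a * cc b * cx * (up z * um z) * (gH z ^ ee a * gH z ^ ee b * gH z ^ ex) : ℝ) := by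
    positivity
  rw [mul_assoc] at key
  have key2 := mul_left_cancel₀ hK.ne' key
  rw [← key2]
  field_simp

theorem PK_cert (s : ℤ) (a b : B) (X : IP) (cx ex c0 M p l : ℕ) (ts : List Tm) (hcx : 0 < cx) (hc0 : 0 < c0)
    (hok : okC M p l ts = true)
    (hid : isZ (sub (lhs s a b X cx ex c0 M p l) (rhs a b cx ex (total M p l ts))) = true)
    (D : ℝ → ℝ) (hX : ∀ z, ev X (ww z) = cx * gH z ^ ex * D z) :
    PK fun k => PP k * (D (zk k) - (1 / 2) *
      ((fX a (zk k) + fY a (zk k)) * (fX b (zk k) + fY b (zk k)) / up (zk k)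
      + s * ((fX a (zk k) - fY a (zk k)) * (fX b (zk k) - fY b (zk k)) / um (zk k)))) := by
  have hc0' : (0:ℝ) ≤ 1 / (c0:ℝ) := by positivity
  refine (PK.smul (total_gg M p l ts hok) hc0').congr fun k hk => ?_
  rw [kernel_eq s a b X cx ex c0 M p l _ hcx hc0 hid (D (zk k)) (zk_pos hk) (hX _)]
  ring

/-- integer combinations of `ch n` -/
def cl : List (ℤ × ℕ) → IP
  | [] => []
  | (c, n) :: l => add (NUPolyR.smul c (tt n)) (cl l)
def cz : List (ℤ × ℕ) → ℝ → ℝ
  | [], _ => 0
  | (c, n) :: l, z => c * ch n z + cz l z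

theorem ev_cl (l : List (ℤ × ℕ)) (h : l.all (fun p => decide (p.2 ≤ 17)) = true) (z : ℝ) :
    ev (cl l) (ww z) = cz l z := by
  induction l with
  | nil => rfl
  | cons q l ih =>
    obtain ⟨c, n⟩ := q
    simp only [List.all_cons, Bool.and_eq_true, decide_eq_true_eq] at h
    simp only [cl, cz, ev_add, ev_smul, E_t n h.1, ih h.2]

lemma ch_zero (z : ℝ) : ch 0 z = 1 := by unfold ch; simp

lemma ev_lG5 (z : ℝ) : ev lG5 (ww z) = 5 * gg z := by
  have h := ev_eq lG5_eq (ww z)
  have e4 := E_t 4 (by norm_num) z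
  have e8 := E_t 8 (by norm_num) z
  have e12 := E_t 12 (by norm_num) z
  have e14 := E_t 14 (by norm_num) z
  simp only [tt] at e4 e8 e12 e14
  simp only [ev_mul, ev_sub, ev_add, ev_smul, ev_cons, ev_nil, e4, e8, e12, e14] at h
  rw [h]; unfold gg; push_cast; ring

lemma ev_lAl (z : ℝ) : ev lAl (ww z) = 5 * gH z ^ 2 * al z := by
  have h := ev_eq lAl_eq (ww z)
  have h2 := ev_eq lH2_eq (ww z)
  have e2 := E_t 2 (by norm_num) z
  simp only [tt] at e2
  simp only [ev_mul, ev_sub, ev_add, ev_smul, ev_cons, ev_nil, e2] at h h2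
  rw [h2] at h
  have hp : 0 < ch 2 z := lt_of_lt_of_le one_pos (one_le_ch _ _)
  rw [h]; unfold al gH; push_cast; field_simp; ring

lemma ev_lH2 (z : ℝ) : ev lH2 (ww z) = gH z ^ 2 := by
  have h2 := ev_eq lH2_eq (ww z)
  rw [ev_mul, ev_t2'] at h2
  rw [h2]; ring

lemma ev_lH4 (z : ℝ) : ev lH4 (ww z) = gH z ^ 4 := by
  have h2 := ev_eq lH4_eq (ww z)
  rw [ev_mul, ev_lH2] at h2
  rw [h2]; ring

end

end NUCX
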