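import Pool.Agent.NUO.CertX
import Pool.Agent.NUO.MHat7

/-!
# Kernel-checked certificates, `St` at `7/4` (helper23)
-/

set_option autoImplicit false
set_option linter.unusedSimpArgs false

open MeasureTheory Set Filter Topology

namespace NUCX7

open NUCX NUMH7 NUSB NUO NUPosK NUPolyR
open NUMH (B PP zk zk_pos gA gB gH gA_pos gB_pos gH_pos fXL fYL)

noncomputable section

/-! ### the dressed kernels -/

/-- numerators of `2 (fX + fY)`, `2 (fX - fY)` (times `5 H` for `S`) -/
def lX : B → IP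
  | .L => add (sub t1 t3) (add (smul 2 t7) (sub t15 t11))
  | .T => add (add t3 t5) (add t9 t15)
  | .S => sub (NUPolyR.mul (smul 5 t2) lFXS2) (smul 2 lPsi)
  | .V => lFXV2
def lY : B → IP
  | .L => smul 2 (sub t9 (add t5 t13))
  | .T => smul (-2) (add t3 t15)
  | .S => NUPolyR.mul (smul 5 t2) lFYS2
  | .V => lFYV2
def cc : B → ℕ
  | .L => 2 | .T => 2 | .S => 10 | .V => 2
def ee : B → ℕ
  | .L => 0 | .T => 0 | .S => 1 | .V => 0

lemma ev_lX (a : B) (z : ℝ) : ev (lX a) (ww z) = cc a * gH z ^ ee a * fX a z := by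
  have e1 := E_t 1 (by norm_num) z
  have e2 := E_t 2 (by norm_num) z
  have e3 := E_t 3 (by norm_num) z
  have e4 := E_t 4 (by norm_num) z
  have e5 := E_t 5 (by norm_num) z
  have e6 := E_t 6 (by norm_num) z
  have e7 := E_t 7 (by norm_num) z
  have e9 := E_t 9 (by norm_num) z
  have e10 := E_t 10 (by norm_num) z
  have e11 := E_t 11 (by norm_num) z
  have e13 := E_t 13 (by norm_num) z
  have e14 := E_t 14 (by norm_num) z
  have e15 := E_t 15 (by norm_num) z
  simp only [tt] at e1 e2 e3 e4 e5 e6 e7 e9 e10 e11 e13 e14 e15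
  cases a with
  | L =>
    simp only [lX, cc, ee, fX, fXL, ev_add, ev_sub, ev_smul, e1, e3, e7, e15, e11, pow_zero]
    push_cast; ring
  | T =>
    simp only [lX, cc, ee, fX, fXT, ev_add, ev_sub, ev_smul, e3, e5, e9, e15, pow_zero]
    push_cast; ring
  | S =>
    have h := ev_eq lFXS2_eq (ww z)
    simp only [ev_add, ev_smul, e3, e5, e7, e15] at h
    have hp := psi_eq z
    simp only [lX, cc, ee, fX, fXS, ev_add, ev_sub, ev_smul, ev_mul, h, ← hp, e2, pow_one]
    unfold gH
    push_cast; ring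
  | V =>
    have h := ev_eq lFXV2_eq (ww z)
    simp only [ev_add, ev_smul, e1, e3, e5, e7, e15] at h
    simp only [lX, cc, ee, fX, fXV, h, pow_zero]
    push_cast; ring

lemma ev_lY (a : B) (z : ℝ) : ev (lY a) (ww z) = cc a * gH z ^ ee a * fY a z := by
  have e2 := E_t 2 (by norm_num) z
  have e3 := E_t 3 (by norm_num) z
  have e5 := E_t 5 (by norm_num) z
  have e7 := E_t 7 (by norm_num) z
  have e9 := E_t 9 (by norm_num) z
  have e11 := E_t 11 (by norm_num) z
  have e13 := E_t 13 (by norm_num) z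
  have e14 := E_t 14 (by norm_num) z
  have e15 := E_t 15 (by norm_num) z
  simp only [tt] at e2 e3 e5 e7 e9 e11 e13 e14 e15
  cases a with
  | L =>
    simp only [lY, cc, ee, fY, fYL, ev_add, ev_sub, ev_smul, e9, e5, e13, pow_zero]
    push_cast; ring
  | T =>
    simp only [lY, cc, ee, fY, fYT, ev_add, ev_sub, ev_smul, e3, e15, pow_zero]
    push_cast; ring
  | S =>
    have h := ev_eq lFYS2_eq (ww z)
    simp only [ev_add, ev_smul, e5, e15] at h
    simp only [lY, cc, ee, fY, fYS, ev_smul, ev_mul, h, e2, pow_one]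
    unfold gH
    push_cast; ring
  | V =>
    have h := ev_eq lFYV2_eq (ww z)
    simp only [ev_add, ev_smul, e5, e7, e9, e11, e13, e15] at h
    simp only [lY, cc, ee, fY, fYV, h, pow_zero]
    push_cast; ring

/-- the left side of the identity: `s = 1` same species, `s = -1` opposite species;
`cx H^ex (direct - extra) = ev X`. -/
def lhs (s : ℤ) (a b : B) (X : IP) (cx ex : ℕ) (c0 M p l : ℕ) : IP :=
  NUPolyR.mul (sub (smul (2 * cc a * cc b) (NUPolyR.mul (NUPolyR.mul lU lV)
      (NUPolyR.mul (lpow t2 (ee a + ee b)) X)))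
    (smul cx (NUPolyR.mul (lpow t2 ex) (add
      (NUPolyR.mul (NUPolyR.mul (add (lX a) (lY a)) (add (lX b) (lY b))) lV)
      (smul s (NUPolyR.mul (NUPolyR.mul (sub (lX a) (lY a)) (sub (lX b) (lY b))) lU))))))
    (smul c0 (ldn M p l))

def rhs (a b : B) (cx ex : ℕ) (T : IP) : IP :=
  smul (2 * cc a * cc b * cx) (NUPolyR.mul (NUPolyR.mul lU lV)
    (NUPolyR.mul (lpow t2 (ee a + ee b + ex)) T))

theorem kernel_eq (s : ℤ) (a b : B) (X : IP) (cx ex c0 M p l : ℕ) (T : IP) (hcx : 0 < cx) (hc0 : 0 < c0)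
    (hid : isZ (sub (lhs s a b X cx ex c0 M p l) (rhs a b cx ex T)) = true)
    (D : ℝ) {z : ℝ} (hz : 0 < z) (hX : ev X (ww z) = cx * gH z ^ ex * D) :
    D - (1 / 2) * ((fX a z + fY a z) * (fX b z + fY b z) / up z
      + s * ((fX a z - fY a z) * (fX b z - fY b z) / um z)) =
    1 / c0 * (ev T (ww z) / dn M p l z) := by
  have h := ev_eq hid (ww z)
  unfold lhs rhs at h
  simp only [ev_mul, ev_sub, ev_add, ev_smul, ev_lpow, ev_ldn, ev_t2', ev_lX, ev_lY, ev_lU, ev_lV, hX] at h
  have hU := up_pos hz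
  have hV := um_pos z
  have hH := gH_pos z
  have hD := dn_pos M p l z
  have hca : (0:ℝ) < cc a := by cases a <;> norm_num [cc]
  have hcb : (0:ℝ) < cc b := by cases b <;> norm_num [cc]
  have hcx' : (0:ℝ) < cx := by exact_mod_cast hcx
  have hc0' : (0:ℝ) < c0 := by exact_mod_cast hc0
  rw [pow_add, pow_add] at h
  have hHa := pow_pos hH (ee a)
  have hHb := pow_pos hH (ee b)
  have hHx := pow_pos hH ex
  have key : (2 * cc a * cc b * cx * (up z * um z) * (gH z ^ ee a * gH z ^ ee b * gH z ^ ex)) *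
      (c0 * dn M p l z) * (D - (1 / 2) * ((fX a z + fY a z) * (fX b z + fY b z) / up z
      + s * ((fX a z - fY a z) * (fX b z - fY b z) / um z))) =
      (2 * cc a * cc b * cx * (up z * um z) * (gH z ^ ee a * gH z ^ ee b * gH z ^ ex)) * ev T (ww z) := by
    have e1 : (fX a z + fY a z) * (fX b z + fY b z) / up z * up z =
      (fX a z + fY a z) * (fX b z + fY b z) := div_mul_cancel₀ _ hU.ne'
    have e2 : (fX a z - fY a z) * (fX b z - fY b z) / um z * um z =
      (fX a z - fY a z) * (fX b z - fY b z) := div_mul_cancel₀ _ hV.ne'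
    generalize (fX a z + fY a z) * (fX b z + fY b z) / up z = q1 at *
    generalize (fX a z - fY a z) * (fX b z - fY b z) / um z = q2 at *
    push_cast at h
    linear_combination h - (cc a * cc b * cx * um z * (gH z ^ ee a * gH z ^ ee b * gH z ^ ex) *
      (c0 * dn M p l z)) * e1 - (cc a * cc b * cx * up z * s * (gH z ^ ee a * gH z ^ ee b * gH z ^ ex) *
      (c0 * dn M p l z)) * e2
  have hK : 0 < (2 * cc a * cc b * cx * (up z * um z) * (gH z ^ ee a * gH z ^ ee b * gH z ^ ex) : ℝ) := by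
    positivity
  rw [mul_assoc] at key
  have key2 := mul_left_cancel₀ hK.ne' key
  rw [← key2]
  field_simp

theorem PK_cert (s : ℤ) (a b : B) (X : IP) (cx ex c0 M p l : ℕ) (ts : List Tm) (hcx : 0 < cx) (hc0 : 0 < c0)
    (hok : okC M p l ts = true)
    (hid : isZ (sub (lhs s a b X cx ex c0 M p l) (rhs a b cx ex (total M p l ts))) = true)
    (D : ℝ → ℝ) (hX : ∀ z, ev X (ww z) = cx * gH z ^ ex * D z) :
    PK fun k => PP k * (D (zk k) - (1 / 2) *
      ((fX a (zk k) + fY a (zk k)) * (fX b (zk k) + fY b (zk k)) / up (zk k)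
      + s * ((fX a (zk k) - fY a (zk k)) * (fX b (zk k) - fY b (zk k)) / um (zk k)))) := by
  have hc0' : (0:ℝ) ≤ 1 / (c0:ℝ) := by positivity
  refine (PK.smul (total_gg M p l ts hok) hc0').congr fun k hk => ?_
  rw [kernel_eq s a b X cx ex c0 M p l _ hcx hc0 hid (D (zk k)) (zk_pos hk) (hX _)]
  ring


end

end NUCX7
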