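import Pool.Agent.NUO.GenX

/-!
# `ch n z` as a polynomial in `ch 1 z` (helper75)
-/

set_option autoImplicit false

namespace NUMH

open NUSB

lemma ch_rec (n : ℕ) (z : ℝ) : ch (n + 2) z = 2 * ch 1 z * ch (n + 1) z - ch n z := by
  unfold ch
  push_cast
  have e1 : ((n:ℝ) + 2) * z = ((n:ℝ) + 1) * z + z := by ring
  have e2 : (n:ℝ) * z = ((n:ℝ) + 1) * z - z := by ring
  rw [e1, e2, Real.cosh_add, Real.cosh_sub, one_mul]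
  ring

lemma cx0 (z : ℝ) : ch 0 z = 1 := by unfold ch; simp
lemma cx2 (z : ℝ) : ch 2 z = 2 * ch 1 z ^ 2 - 1 := by rw [ch_rec 0, cx0]; ring
lemma cx3 (z : ℝ) : ch 3 z = 4 * ch 1 z ^ 3 - 3 * ch 1 z := by rw [ch_rec 1, cx2]; ring
lemma cx4 (z : ℝ) : ch 4 z =
    8 * ch 1 z ^ 4 - 8 * ch 1 z ^ 2 + 1 := by rw [ch_rec 2, cx3, cx2]; ring
lemma cx5 (z : ℝ) : ch 5 z =
    16 * ch 1 z ^ 5 - 20 * ch 1 z ^ 3 + 5 * ch 1 z := by rw [ch_rec 3, cx4, cx3]; ring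
lemma cx6 (z : ℝ) : ch 6 z =
    32 * ch 1 z ^ 6 - 48 * ch 1 z ^ 4 + 18 * ch 1 z ^ 2 - 1 := by rw [ch_rec 4, cx5, cx4]; ring
lemma cx7 (z : ℝ) : ch 7 z =
    64 * ch 1 z ^ 7 - 112 * ch 1 z ^ 5 + 56 * ch 1 z ^ 3 - 7 * ch 1 z := by rw [ch_rec 5, cx6, cx5]; ring
lemma cx8 (z : ℝ) : ch 8 z =
    128 * ch 1 z ^ 8 - 256 * ch 1 z ^ 6 + 160 * ch 1 z ^ 4 - 32 * ch 1 z ^ 2 + 1 := by rw [ch_rec 6, cx7, cx6]; ring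
lemma cx9 (z : ℝ) : ch 9 z =
    256 * ch 1 z ^ 9 - 576 * ch 1 z ^ 7 + 432 * ch 1 z ^ 5 - 120 * ch 1 z ^ 3 + 9 * ch 1 z := by rw [ch_rec 7, cx8, cx7]; ring
lemma cx10 (z : ℝ) : ch 10 z =
    512 * ch 1 z ^ 10 - 1280 * ch 1 z ^ 8 + 1120 * ch 1 z ^ 6 - 400 * ch 1 z ^ 4 + 50 * ch 1 z ^ 2 - 1 := by rw [ch_rec 8, cx9, cx8]; ring
lemma cx11 (z : ℝ) : ch 11 z =
    1024 * ch 1 z ^ 11 - 2816 * ch 1 z ^ 9 + 2816 * ch 1 z ^ 7 - 1232 * ch 1 z ^ 5 + 220 * ch 1 z ^ 3 - 11 * ch 1 z := by rw [ch_rec 9, cx10, cx9]; ring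
lemma cx12 (z : ℝ) : ch 12 z =
    2048 * ch 1 z ^ 12 - 6144 * ch 1 z ^ 10 + 6912 * ch 1 z ^ 8 - 3584 * ch 1 z ^ 6 + 840 * ch 1 z ^ 4 - 72 * ch 1 z ^ 2 + 1 := by rw [ch_rec 10, cx11, cx10]; ring
lemma cx13 (z : ℝ) : ch 13 z =
    4096 * ch 1 z ^ 13 - 13312 * ch 1 z ^ 11 + 16640 * ch 1 z ^ 9 - 9984 * ch 1 z ^ 7 + 2912 * ch 1 z ^ 5 - 364 * ch 1 z ^ 3 + 13 * ch 1 z := by rw [ch_rec 11, cx12, cx11]; ring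
lemma cx14 (z : ℝ) : ch 14 z =
    8192 * ch 1 z ^ 14 - 28672 * ch 1 z ^ 12 + 39424 * ch 1 z ^ 10 - 26880 * ch 1 z ^ 8 + 9408 * ch 1 z ^ 6 - 1568 * ch 1 z ^ 4 + 98 * ch 1 z ^ 2 - 1 := by rw [ch_rec 12, cx13, cx12]; ring
lemma cx15 (z : ℝ) : ch 15 z =
    16384 * ch 1 z ^ 15 - 61440 * ch 1 z ^ 13 + 92160 * ch 1 z ^ 11 - 70400 * ch 1 z ^ 9 + 28800 * ch 1 z ^ 7 - 6048 * ch 1 z ^ 5 + 560 * ch 1 z ^ 3 - 15 * ch 1 z := by rw [ch_rec 13, cx14, cx13]; ring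
lemma cx16 (z : ℝ) : ch 16 z =
    32768 * ch 1 z ^ 16 - 131072 * ch 1 z ^ 14 + 212992 * ch 1 z ^ 12 - 180224 * ch 1 z ^ 10 + 84480 * ch 1 z ^ 8 - 21504 * ch 1 z ^ 6 + 2688 * ch 1 z ^ 4 - 128 * ch 1 z ^ 2 + 1 := by rw [ch_rec 14, cx15, cx14]; ring

end NUMH
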