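import Pool.Agent.NUO.Cone

/-!
# Cone lemma for the bases `D1`, `D2` with a core

* `PK_coneG K θ`: the kernel `2 (log |sin (θ + i t)| - GC K t)`;
* `PK_coneD1`: `4 ch 8 ch 4 (ch 4 - ch 2) - core`, kernel `log (cosh 8t / (cosh 8t - 1)) + 2 log |tanh 256 t|`;
* `PK_coneD2`: `2 ch 8 (ch 8 - ch 6) - core`.
-/

set_option autoImplicit false

open MeasureTheory Set

namespace NUCone

noncomputable section

open Pool.Agent.NUM3 NUSB
open NUMF (sk sk_pos)
open NUPosK (PK)

/-- general form -/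
theorem PK_coneG (K : ℕ) {θ : ℝ} (h0 : 0 < θ) (h1 : θ < Real.pi) (hK : (1 / 2) ^ K ≤ |Real.sin θ|) :
    PK fun k => 2 / (k * sk k) * (Real.cosh (Real.pi / 2 * k) - Real.cosh ((Real.pi / 2 - θ) * k) -
      sk k * Real.tanh (Real.pi / 2 ^ (K + 2) * k)) := by
  have a1 := CF_sin h0 h1
  have a2 := (a1.sub (CF_GC K)).smul 2
  have a3 : CF (fun t => 2 * (Real.log ‖Complex.sin (θ + t * Complex.I)‖ - GC K t)) 0
      (fun k => -(2 / (k * sk k) * (Real.cosh (Real.pi / 2 * k) - Real.cosh ((Real.pi / 2 - θ) * k) -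
      sk k * Real.tanh (Real.pi / 2 ^ (K + 2) * k)))) := by
    refine a2.congr (fun t => rfl) (by ring) fun k hk => ?_
    have hs : sk k ≠ 0 := (sk_pos hk).ne'
    have hk0 : k ≠ 0 := (ne_of_gt hk)
    unfold gc
    have e1 : Real.sinh (Real.pi / 2 * k) = sk k := rfl
    rw [e1]
    field_simp
    ring
  obtain ⟨i, e⟩ := a3.eval
  have i' := i.neg
  refine ⟨?_, fun t => ?_⟩
  · refine i'.congr (Filter.Eventually.of_forall fun k => ?_)
    simp
  · have h := GC_le_sin K hK t
    have h2 := e t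
    rw [← integral_neg] at h2
    have h3 : ∫ k in Ioi (0:ℝ), (2 / (k * sk k) * (Real.cosh (Real.pi / 2 * k) -
        Real.cosh ((Real.pi / 2 - θ) * k) - sk k * Real.tanh (Real.pi / 2 ^ (K + 2) * k))) *
        Real.cos (k * t) = 2 * (Real.log ‖Complex.sin (θ + t * Complex.I)‖ - GC K t) := by
      rw [h2]
      congr 1
      funext k
      ring
    rw [h3]
    linarith

lemma sinh16 (z : ℝ) : Real.sinh (16 * z) = 4 * Real.sinh (4 * z) * ch 4 z * ch 8 z := by
  have h1 : Real.sinh (16 * z) = 2 * Real.sinh (8 * z) * Real.cosh (8 * z) := by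
    rw [← Real.sinh_two_mul]; ring_nf
  have h2 : Real.sinh (8 * z) = 2 * Real.sinh (4 * z) * Real.cosh (4 * z) := by
    rw [← Real.sinh_two_mul]; ring_nf
  rw [h1, h2]; unfold ch; push_cast; ring

lemma sinh16' (z : ℝ) : Real.sinh (16 * z) = 2 * Real.sinh (8 * z) * ch 8 z := by
  have h1 : Real.sinh (16 * z) = 2 * Real.sinh (8 * z) * Real.cosh (8 * z) := by
    rw [← Real.sinh_two_mul]; ring_nf
  rw [h1]; unfold ch; push_cast; ring

theorem PK_coneD1 : PK (fun k => PQ k * (4 * ch 8 (zk k) * ch 4 (zk k) * (ch 4 (zk k) - ch 2 (zk k)) -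
    core (zk k))) := by
  have hpi := Real.pi_pos
  have h := ((PK_coneG 6 (θ := Real.pi / 4) (by positivity) (by linarith) (by
    rw [Real.sin_pi_div_four, abs_of_pos (by positivity)]
    have : (1 : ℝ) ≤ √2 := by rw [Real.one_le_sqrt]; norm_num
    norm_num
    linarith)).dilate (l := 1 / 4) (by norm_num)).smul (c := 1 / 4) (by norm_num)
  refine h.congr fun k hk => ?_
  have hz := zk_pos hk
  have hs4 : Real.sinh (4 * zk k) ≠ 0 := (Real.sinh_pos_iff.2 (by positivity)).ne'
  have e1 : sk (1 / 4 * k) = Real.sinh (4 * zk k) := by unfold sk zk; congr 1; ring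
  have e2 : Real.cosh (Real.pi / 2 * (1 / 4 * k)) = ch 4 (zk k) := by
    unfold ch zk; congr 1; push_cast; ring
  have e3 : Real.cosh ((Real.pi / 2 - Real.pi / 4) * (1 / 4 * k)) = ch 2 (zk k) := by
    unfold ch zk; congr 1; push_cast; ring
  have e4 : Real.pi / 2 ^ (6 + 2) * (1 / 4 * k) = zk k / 32 := by unfold zk; norm_num; ring
  have c4 : ch 4 (zk k) ≠ 0 := by unfold ch; exact (Real.cosh_pos _).ne'
  have c8 : ch 8 (zk k) ≠ 0 := by unfold ch; exact (Real.cosh_pos _).ne'
  have hk0 : k ≠ 0 := ne_of_gt hk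
  rw [e1, e2, e3, e4]
  unfold PQ core
  rw [sinh16]
  field_simp

theorem PK_coneD2 : PK (fun k => PQ k * (2 * ch 8 (zk k) * (ch 8 (zk k) - ch 6 (zk k)) -
    core (zk k))) := by
  have hpi := Real.pi_pos
  have h := ((PK_coneG 7 (θ := Real.pi / 8) (by positivity) (by linarith) (by
    have h1 := Real.mul_le_sin (x := Real.pi / 8) (by positivity) (by linarith)
    have h2 : 2 / Real.pi * (Real.pi / 8) = 1 / 4 := by
      have := Real.pi_ne_zero
      field_simp; norm_num
    rw [h2] at h1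
    refine le_trans ?_ (h1.trans (le_abs_self _))
    norm_num)).dilate (l := 1 / 2) (by norm_num)).smul (c := 1 / 2) (by norm_num)
  refine h.congr fun k hk => ?_
  have hz := zk_pos hk
  have hs8 : Real.sinh (8 * zk k) ≠ 0 := (Real.sinh_pos_iff.2 (by positivity)).ne'
  have e1 : sk (1 / 2 * k) = Real.sinh (8 * zk k) := by unfold sk zk; congr 1; ring
  have e2 : Real.cosh (Real.pi / 2 * (1 / 2 * k)) = ch 8 (zk k) := by
    unfold ch zk; congr 1; push_cast; ring
  have e3 : Real.cosh ((Real.pi / 2 - Real.pi / 8) * (1 / 2 * k)) = ch 6 (zk k) := by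
    unfold ch zk; congr 1; push_cast; ring
  have e4 : Real.pi / 2 ^ (7 + 2) * (1 / 2 * k) = zk k / 32 := by unfold zk; norm_num; ring
  have c8 : ch 8 (zk k) ≠ 0 := by unfold ch; exact (Real.cosh_pos _).ne'
  have hk0 : k ≠ 0 := ne_of_gt hk
  rw [e1, e2, e3, e4]
  unfold PQ core
  rw [sinh16']
  field_simp

end

end NUCone
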