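import Pool.Agent.NUO.CoreC

/-!
# The cone lemma for log cores

`2 GCn K t ≤ log ((cosh 2 t + cos φ) / 2)` if `2 ^ (-K) ≤ cos (φ / 2)`: a kernel
`log ((cosh 2 t + cos φ) / (cosh 2 t - 1))` stays `≥ 0` after removing its core
`- 2 log |tanh (2 ^ K t)|`.
-/

set_option autoImplicit false

noncomputable section

open Finset

namespace NUDispR

/-- product of `cosh (2 ^ j t)`, `j < K` -/
def Pc (K : ℕ) (t : ℝ) : ℝ := ∏ j ∈ range K, Real.cosh (2 ^ j * t)

lemma one_le_Pc (K : ℕ) (t : ℝ) : 1 ≤ Pc K t := by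
  unfold Pc
  induction K with
  | zero => simp
  | succ K ih =>
    rw [prod_range_succ]
    have := Real.one_le_cosh (2 ^ K * t)
    nlinarith

lemma sinh_Pc (K : ℕ) (t : ℝ) : Real.sinh (2 ^ K * t) = 2 ^ K * Real.sinh t * Pc K t := by
  unfold Pc
  induction K with
  | zero => simp
  | succ K ih =>
    rw [pow_succ', mul_assoc, Real.sinh_two_mul, ih, prod_range_succ]
    ring

/-- real form of `GCn` -/
theorem GCn_real (K : ℕ) (t : ℝ) :
    GCn K (t : ℂ) = Real.log (Real.cosh (2 ^ K * t)) - Real.log (Pc K t) - K * Real.log 2 := by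
  have e : ∀ j : ℕ, ‖Complex.cosh ((2 : ℂ) ^ j * (t : ℂ))‖ = Real.cosh (2 ^ j * t) := by
    intro j
    rw [show (2 : ℂ) ^ j * (t : ℂ) = ((2 ^ j * t : ℝ) : ℂ) by push_cast; ring,
      ← Complex.ofReal_cosh, Complex.norm_real, Real.norm_of_nonneg (Real.cosh_pos _).le]
  unfold GCn Pc
  simp_rw [e]
  rw [Real.log_prod fun j _ => (Real.cosh_pos _).ne']

theorem exp_two_GCn (K : ℕ) (t : ℝ) :
    Real.exp (2 * GCn K (t : ℂ)) = Real.sinh t ^ 2 + 1 / (4 ^ K * Pc K t ^ 2) := by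
  have hP := one_le_Pc K t
  have hc := Real.cosh_pos (2 ^ K * t)
  have h2 : (0 : ℝ) < 2 ^ K := by positivity
  have e1 : GCn K (t : ℂ) = Real.log (Real.cosh (2 ^ K * t) / (Pc K t * 2 ^ K)) := by
    rw [GCn_real, Real.log_div hc.ne' (by positivity), Real.log_mul (by positivity) h2.ne',
      Real.log_pow]
    ring
  rw [e1, mul_comm, Real.exp_mul, Real.exp_log (by positivity)]
  have e2 : (Real.cosh (2 ^ K * t) / (Pc K t * 2 ^ K)) ^ (2 : ℝ) =
      Real.cosh (2 ^ K * t) ^ 2 / (Pc K t * 2 ^ K) ^ 2 := by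
    rw [show (2 : ℝ) = ((2 : ℕ) : ℝ) by norm_num, Real.rpow_natCast, div_pow]
  rw [e2, Real.cosh_sq, sinh_Pc]
  have h4 : (4 : ℝ) ^ K = 2 ^ K * 2 ^ K := by rw [← mul_pow]; norm_num
  rw [h4]
  field_simp

/-- **cone lemma** -/
theorem two_GCn_le {K : ℕ} {φ t : ℝ} (h : 1 / 2 ^ K ≤ Real.cos (φ / 2)) :
    2 * GCn K (t : ℂ) ≤ Real.log ((Real.cosh (2 * t) + Real.cos φ) / 2) := by
  have h0 : 0 < Real.cos (φ / 2) := lt_of_lt_of_le (by positivity) h
  have e : (Real.cosh (2 * t) + Real.cos φ) / 2 = Real.sinh t ^ 2 + Real.cos (φ / 2) ^ 2 := by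
    have h1 := Real.cos_sq (φ / 2)
    rw [mul_div_cancel₀ φ two_ne_zero] at h1
    rw [h1, Real.cosh_two_mul, Real.cosh_sq]
    ring
  rw [e, Real.le_log_iff_exp_le (by positivity), exp_two_GCn]
  have hP := one_le_Pc K t
  have h2 : (0 : ℝ) < 2 ^ K := by positivity
  have h4 : (4 : ℝ) ^ K = 2 ^ K * 2 ^ K := by rw [← mul_pow]; norm_num
  have h5 : 1 / (4 ^ K * Pc K t ^ 2) ≤ (1 / 2 ^ K) ^ 2 := by
    rw [div_pow, one_pow, h4]
    apply div_le_div_of_nonneg_left (by norm_num) (by positivity)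
    have h7 : 1 ≤ Pc K t ^ 2 := one_le_pow₀ hP
    have h8 := mul_le_mul_of_nonneg_left h7 (mul_pos h2 h2).le
    nlinarith
  have h6 : (1 / 2 ^ K : ℝ) ^ 2 ≤ Real.cos (φ / 2) ^ 2 :=
    pow_le_pow_left₀ (by positivity) h 2
  linarith

/-- the kernel `log ((cosh 2 t + cos φ) / (cosh 2 t - 1))` is at least its core (`t ≠ 0`) -/
theorem cone_kernel {K : ℕ} {φ t : ℝ} (h : 1 / 2 ^ K ≤ Real.cos (φ / 2)) (ht : t ≠ 0) :
    -2 * Real.log |Real.tanh (2 ^ K * t)| ≤
      Real.log ((Real.cosh (2 * t) + Real.cos φ) / (Real.cosh (2 * t) - 1)) := by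
  have h1 := two_GCn_le (t := t) h
  have hs : Real.sinh t ≠ 0 := Real.sinh_ne_zero.2 ht
  have e1 : Real.cosh (2 * t) - 1 = 2 * Real.sinh t ^ 2 := by
    rw [Real.cosh_two_mul, Real.cosh_sq]
    ring
  have hg : Real.log |Real.sinh t| - Real.log |Real.tanh (2 ^ K * t)| = GCn K (t : ℂ) := by
    have h2 := core_eqn (K := K) (ζ := (t : ℂ)) (by
      simp only [Complex.ofReal_im, mul_zero, abs_zero]
      positivity) (by
      rw [← Complex.ofReal_sinh]
      exact_mod_cast hs)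
    rw [← h2, ← Complex.ofReal_sinh, show (2 : ℂ) ^ K * (t : ℂ) = ((2 ^ K * t : ℝ) : ℂ) by
      push_cast; ring, ← Complex.ofReal_tanh, Complex.norm_real, Complex.norm_real,
      Real.norm_eq_abs, Real.norm_eq_abs]
  have h0 : 0 < Real.cos (φ / 2) := lt_of_lt_of_le (by positivity) h
  have e : Real.cosh (2 * t) + Real.cos φ = 2 * (Real.sinh t ^ 2 + Real.cos (φ / 2) ^ 2) := by
    have h1 := Real.cos_sq (φ / 2)
    rw [mul_div_cancel₀ φ two_ne_zero] at h1
    rw [h1, Real.cosh_two_mul, Real.cosh_sq]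
    ring
  have e3 : Real.log ((Real.cosh (2 * t) + Real.cos φ) / (Real.cosh (2 * t) - 1)) =
      Real.log ((Real.cosh (2 * t) + Real.cos φ) / 2) - 2 * Real.log |Real.sinh t| := by
    have h3 : 0 < Real.sinh t ^ 2 := by positivity
    have h4 : 0 < Real.sinh t ^ 2 + Real.cos (φ / 2) ^ 2 := by positivity
    rw [e1, e, mul_div_mul_left _ _ two_ne_zero, mul_div_cancel_left₀ _ two_ne_zero,
      Real.log_div h4.ne' h3.ne', ← sq_abs (Real.sinh t), Real.log_pow]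
    norm_num
  rw [e3]
  linarith

/-- the case used by the certificates: `φ = 7 π / 8`, `K = 8` -/
theorem cos_ok : (1 : ℝ) / 2 ^ 8 ≤ Real.cos (7 * Real.pi / 8 / 2) := by
  rw [show 7 * Real.pi / 8 / 2 = Real.pi / 2 - Real.pi / 16 by ring, Real.cos_pi_div_two_sub]
  have h1 := Real.mul_le_sin (x := Real.pi / 16) (by positivity) (by linarith [Real.pi_pos])
  have h2 : 2 / Real.pi * (Real.pi / 16) = 1 / 8 := by
    field_simp
    norm_num
  rw [h2] at h1
  have h3 : (1 : ℝ) / 2 ^ 8 ≤ 1 / 8 := by norm_num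
  exact h3.trans h1

end NUDispR
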