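import Pool.Agent.NUO.Cone
import Pool.Agent.NUO.Lower

/-!
# Core bases of scale `N = 4, 2, 1` with the core `-2 log |tanh 256 t|` removed, and values of `D2`
(helper23)

* `PK_cM`: the kernel `2 (log ‖sin (θ + i t)‖ - GC n t)` is in `PK` if `2^(-n) ≤ |sin θ|`;
* `core4`, `core2`, `core1`: `PP (ch 16 - ch n - core)`, `PP (2 ch 8 (ch 8 - ch n) - core)`,
  `PP (4 ch 8 ch 4 (ch 4 - ch n) - core)`;
* `D2_value`, `D2_lower`.
-/

set_option autoImplicit false

open MeasureTheory Set Filter Topology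

namespace NUCoreB

open NUPosK NUCone Pool.Agent.NUM3
open NUMH (PP zk zk_pos sinh16 sinh16' D4_value)
open NUSB (ch core one_le_ch)
open NUMF (sk sk_pos)

noncomputable section

/-- transform of `2 (log ‖sin (θ + i t)‖ - GC n t)` -/
def cM (n : ℕ) (θ k : ℝ) : ℝ := 2 * (gc n k - Real.cosh ((Real.pi / 2 - θ) * k) / (k * sk k))

theorem cM_eval (n : ℕ) {θ : ℝ} (h0 : 0 < θ) (h1 : θ < Real.pi) :
    IntegrableOn (cM n θ) (Ioi 0) ∧
    ∀ t, ∫ k in Ioi (0:ℝ), cM n θ k * Real.cos (k * t) =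
      2 * (Real.log ‖Complex.sin (θ + t * Complex.I)‖ - GC n t) := by
  have h2 := ((CF_sin h0 h1).sub (CF_GC n)).smul 2
  have h3 : CF (fun t => 2 * (Real.log ‖Complex.sin (θ + t * Complex.I)‖ - GC n t)) 0
      (fun k => -(cM n θ k)) := by
    refine h2.congr (fun t => rfl) (by ring) fun k hk => ?_
    unfold cM
    ring
  obtain ⟨i, e⟩ := h3.eval
  have i' := i.neg
  refine ⟨?_, fun t => ?_⟩
  · refine i'.congr (Filter.Eventually.of_forall fun k => ?_)
    simp
  · rw [e t, ← integral_neg]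
    congr 1
    funext k
    ring

theorem PK_cM (n : ℕ) {θ : ℝ} (h0 : 0 < θ) (h1 : θ < Real.pi) (h : (1 / 2) ^ n ≤ |Real.sin θ|) :
    PK (cM n θ) := by
  refine ⟨(cM_eval n h0 h1).1, fun t => ?_⟩
  rw [(cM_eval n h0 h1).2 t]
  have := GC_le_sin n h t
  linarith

/-- `N = 4` -/
theorem core4 {n : ℕ} (hn : n < 16) : PK fun k => PP k * (ch 16 (zk k) - ch n (zk k) - core (zk k)) := by
  have hpi := Real.pi_pos
  have hn' : (n:ℝ) ≤ 15 := by exact_mod_cast (by omega : n ≤ 15)
  have hn0 : (0:ℝ) ≤ n := by positivity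
  have hθ0 : Real.pi / 32 ≤ Real.pi / 2 - n * Real.pi / 32 := by nlinarith
  have hθ1 : Real.pi / 2 - n * Real.pi / 32 ≤ Real.pi / 2 := by
    have : 0 ≤ n * Real.pi / 32 := by positivity
    linarith
  have hs : (1 / 2 : ℝ) ^ 8 ≤ |Real.sin (Real.pi / 2 - n * Real.pi / 32)| := by
    have h1 := Real.mul_le_sin (x := Real.pi / 2 - n * Real.pi / 32) (by linarith [hθ0]) hθ1
    have h2 : (1 / 16 : ℝ) ≤ 2 / Real.pi * (Real.pi / 2 - n * Real.pi / 32) := by
      calc (1 / 16 : ℝ) = 2 / Real.pi * (Real.pi / 32) := by field_simp; norm_num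
        _ ≤ _ := by gcongr
    refine le_trans ?_ (le_abs_self _)
    refine le_trans ?_ h1
    refine le_trans ?_ h2
    norm_num
  have h := PK_cM 8 (θ := Real.pi / 2 - n * Real.pi / 32) (by linarith) (by linarith) hs
  refine (h.smul (c := Real.pi) hpi.le).congr fun k hk => ?_
  have hz := zk_pos hk
  have e1 : Real.pi / 2 * k = 16 * zk k := by unfold zk; ring
  have e2 : (Real.pi / 2 - (Real.pi / 2 - n * Real.pi / 32)) * k = n * zk k := by unfold zk; ring
  have e3 : Real.pi / 2 ^ (8 + 2) * k = zk k / 32 := by unfold zk; norm_num; ring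
  have h4 : 0 < Real.sinh (16 * zk k) := Real.sinh_pos_iff.2 (by positivity)
  unfold cM gc sk PP core
  rw [e1, e2, e3]
  unfold ch
  push_cast
  field_simp
  ring

/-- `N = 2` -/
theorem core2 : PK fun k => PP k * (2 * ch 8 (zk k) * (ch 8 (zk k) - ch 6 (zk k)) - core (zk k)) := by
  have hpi := Real.pi_pos
  have hs : (1 / 2 : ℝ) ^ 7 ≤ |Real.sin (Real.pi / 8)| := by
    have h1 := Real.mul_le_sin (x := Real.pi / 8) (by positivity) (by linarith)
    have h2 : (1 / 4 : ℝ) = 2 / Real.pi * (Real.pi / 8) := by field_simp; norm_num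
    refine le_trans ?_ (le_abs_self _)
    refine le_trans ?_ h1
    rw [← h2]
    norm_num
  have h := (PK_cM 7 (θ := Real.pi / 8) (by positivity) (by linarith) hs).dilate (l := 1 / 2)
    (by norm_num)
  refine (h.smul (c := Real.pi / 2) (by positivity)).congr fun k hk => ?_
  have hz := zk_pos hk
  have e1 : Real.pi / 2 * (1 / 2 * k) = 8 * zk k := by unfold zk; ring
  have e2 : (Real.pi / 2 - Real.pi / 8) * (1 / 2 * k) = 6 * zk k := by unfold zk; ring
  have e3 : Real.pi / 2 ^ (7 + 2) * (1 / 2 * k) = zk k / 32 := by unfold zk; norm_num; ring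
  have h4 : 0 < Real.sinh (8 * zk k) := Real.sinh_pos_iff.2 (by positivity)
  have h8 : 0 < Real.cosh (8 * zk k) := Real.cosh_pos _
  unfold cM gc sk PP core
  rw [e1, e2, e3, sinh16]
  unfold ch
  push_cast
  field_simp
  ring

/-- `N = 1` -/
theorem core1 : PK fun k => PP k * (4 * ch 8 (zk k) * ch 4 (zk k) * (ch 4 (zk k) - ch 2 (zk k)) -
    core (zk k)) := by
  have hpi := Real.pi_pos
  have hs : (1 / 2 : ℝ) ^ 6 ≤ |Real.sin (Real.pi / 4)| := by
    have h1 := Real.mul_le_sin (x := Real.pi / 4) (by positivity) (by linarith)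
    have h2 : (1 / 2 : ℝ) = 2 / Real.pi * (Real.pi / 4) := by field_simp; norm_num
    refine le_trans ?_ (le_abs_self _)
    refine le_trans ?_ h1
    rw [← h2]
    norm_num
  have h := (PK_cM 6 (θ := Real.pi / 4) (by positivity) (by linarith) hs).dilate (l := 1 / 4)
    (by norm_num)
  refine (h.smul (c := Real.pi / 4) (by positivity)).congr fun k hk => ?_
  have hz := zk_pos hk
  have e1 : Real.pi / 2 * (1 / 4 * k) = 4 * zk k := by unfold zk; ring
  have e2 : (Real.pi / 2 - Real.pi / 4) * (1 / 4 * k) = 2 * zk k := by unfold zk; ring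
  have e3 : Real.pi / 2 ^ (6 + 2) * (1 / 4 * k) = zk k / 32 := by unfold zk; norm_num; ring
  have h4 : 0 < Real.sinh (4 * zk k) := Real.sinh_pos_iff.2 (by positivity)
  have h8 : 0 < Real.cosh (8 * zk k) := Real.cosh_pos _
  have h9 : 0 < Real.cosh (4 * zk k) := Real.cosh_pos _
  unfold cM gc sk PP core
  rw [e1, e2, e3, sinh16']
  unfold ch
  push_cast
  field_simp
  ring

/-! ### values of `D2` -/

lemma D2_value {a b : ℕ} (ha : a < 8) (hb : b < 8) (t : ℝ) :
    IntegrableOn (fun k => PP k * (2 * ch 8 (zk k) * (ch b (zk k) - ch a (zk k))) * Real.cos (k * t))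
      (Ioi 0) ∧
    ∫ k in Ioi (0:ℝ), PP k * (2 * ch 8 (zk k) * (ch b (zk k) - ch a (zk k))) * Real.cos (k * t) =
      Real.pi * (Real.log (Real.cosh (4 * t) + Real.cos (a * Real.pi / 8)) -
        Real.log (Real.cosh (4 * t) + Real.cos (b * Real.pi / 8))) := by
  obtain ⟨i, e⟩ := D4_value (a := 2 * a) (b := 2 * b) (by omega) (by omega) (2 * t)
  set f : ℝ → ℝ := fun k => PP k * (ch (2 * b) (zk k) - ch (2 * a) (zk k)) * Real.cos (k * (2 * t))
    with hf
  have hh : (0:ℝ) < 1 / 2 := by norm_num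
  have key : ∀ k ∈ Ioi (0:ℝ), PP k * (2 * ch 8 (zk k) * (ch b (zk k) - ch a (zk k))) * Real.cos (k * t) =
      1 / 2 * f (1 / 2 * k) := by
    intro k hk
    have hk0 : 0 < k := hk
    have hz := zk_pos hk0
    have ez : zk (1 / 2 * k) = zk k / 2 := by unfold zk; ring
    have q : ∀ n : ℕ, ch (2 * n) (zk (1 / 2 * k)) = ch n (zk k) := fun n => by
      rw [ez]; unfold ch; congr 1; push_cast; ring
    have h8 : 0 < Real.sinh (8 * zk k) := Real.sinh_pos_iff.2 (by positivity)
    have hc : 0 < ch 8 (zk k) := lt_of_lt_of_le one_pos (one_le_ch _ _)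
    simp only [hf, q]
    unfold PP
    have e16 : 16 * zk (1 / 2 * k) = 8 * zk k := by rw [ez]; ring
    rw [sinh16, e16]
    have ec : 1 / 2 * k * (2 * t) = k * t := by ring
    rw [ec]
    field_simp
  have i2 : IntegrableOn (fun k => f (1 / 2 * k)) (Ioi 0) := by
    have := (integrableOn_Ioi_comp_mul_left_iff f (c := 0) hh).2 (by simpa using i)
    exact this
  refine ⟨IntegrableOn.congr_fun (i2.const_mul (1 / 2)) (fun k hk => (key k hk).symm)
    measurableSet_Ioi, ?_⟩
  rw [setIntegral_congr_fun measurableSet_Ioi key, integral_const_mul,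
    integral_comp_mul_left_Ioi f 0 hh, mul_zero, smul_eq_mul]
  have e3 : ∫ k in Ioi (0:ℝ), f k = Real.pi * (Real.log (Real.cosh (2 * (2 * t)) +
      Real.cos ((2 * a : ℕ) * Real.pi / 16)) - Real.log (Real.cosh (2 * (2 * t)) +
      Real.cos ((2 * b : ℕ) * Real.pi / 16))) := e
  rw [e3]
  have e4 : 2 * (2 * t) = 4 * t := by ring
  have e5 : ∀ n : ℕ, ((2 * n : ℕ) : ℝ) * Real.pi / 16 = n * Real.pi / 8 := fun n => by
    push_cast; ring
  rw [e4, e5, e5]
  ring

lemma cosh_four_le {t : ℝ} (ht : |t| ≤ 1) : Real.cosh (4 * t) ≤ 28 := by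
  have h1 : Real.cosh (4 * t) ≤ Real.cosh 4 := by
    rw [Real.cosh_le_cosh, abs_mul, abs_of_pos (by norm_num : (0:ℝ) < 4)]
    norm_num
    linarith
  have h2 : Real.cosh 4 ≤ 28 := by
    rw [Real.cosh_eq]
    have e1 := Real.exp_one_lt_d9
    have e2 : Real.exp 4 = Real.exp 1 ^ 4 := by rw [← Real.exp_nat_mul]; norm_num
    have e3 : Real.exp (-4) ≤ 1 / 5 := by
      rw [Real.exp_neg]
      have := Real.add_one_le_exp (4:ℝ)
      rw [inv_le_comm₀ (Real.exp_pos _) (by norm_num)]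
      linarith
    have e4 := Real.exp_pos 1
    have e5 : Real.exp 1 ^ 4 ≤ 2.7183 ^ 4 := pow_le_pow_left₀ e4.le (by linarith) 4
    rw [e2]
    norm_num at e5 ⊢
    linarith
  exact h1.trans h2

lemma D2_lower {a b : ℕ} (hab : a ≤ b) (hb : b < 8) {t : ℝ} (ht : |t| ≤ 1) :
    Real.pi / 29 * (Real.cos (a * Real.pi / 8) - Real.cos (b * Real.pi / 8)) ≤
      ∫ k in Ioi (0:ℝ), PP k * (2 * ch 8 (zk k) * (ch b (zk k) - ch a (zk k))) * Real.cos (k * t) := by
  have hpi := Real.pi_pos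
  rw [(D2_value (lt_of_le_of_lt hab hb) hb t).2]
  set α := Real.cos (a * Real.pi / 8)
  set β := Real.cos (b * Real.pi / 8)
  set C := Real.cosh (4 * t)
  have hC : C ≤ 28 := cosh_four_le ht
  have hC1 : 1 ≤ C := Real.one_le_cosh _
  have hb' : (b:ℝ) < 8 := by exact_mod_cast hb
  have hab' : (a:ℝ) ≤ b := by exact_mod_cast hab
  have ha0 : (0:ℝ) ≤ a := by positivity
  have hβ : -1 < β := by
    rw [← Real.cos_pi]
    exact Real.cos_lt_cos_of_nonneg_of_le_pi (by positivity) le_rfl (by nlinarith)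
  have hαβ : β ≤ α := Real.cos_le_cos_of_nonneg_of_le_pi (by positivity) (by nlinarith) (by nlinarith)
  have hα : α ≤ 1 := Real.cos_le_one _
  have p1 : 0 < C + α := by linarith
  have p2 : 0 < C + β := by linarith
  have h1 : (α - β) / (C + α) ≤ Real.log (C + α) - Real.log (C + β) := by
    rw [← Real.log_div p1.ne' p2.ne']
    have := Real.one_sub_inv_le_log_of_pos (x := (C + α) / (C + β)) (by positivity)
    refine le_trans (le_of_eq ?_) this
    rw [inv_div]
    field_simp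
    ring
  have h2 : (α - β) / 29 ≤ (α - β) / (C + α) := by
    apply div_le_div_of_nonneg_left (by linarith) p1 (by linarith)
  calc Real.pi / 29 * (α - β) = Real.pi * ((α - β) / 29) := by ring
    _ ≤ _ := by gcongr; linarith

end

end NUCoreB
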