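import Pool.Agent.NUO.DispR

/-!
# The regular part of the core, scale `2 ^ K`
-/

set_option autoImplicit false

noncomputable section

open Complex Finset

namespace NUDispR

/-- regular part of `log |sinh|` for the core `log |tanh (2 ^ K ·)|` -/
def GCn (K : ℕ) (ζ : ℂ) : ℝ :=
  Real.log ‖cosh (2 ^ K * ζ)‖ - ∑ j ∈ range K, Real.log ‖cosh (2 ^ j * ζ)‖ - K * Real.log 2

lemma im_boundn {K : ℕ} {ζ : ℂ} (h : |2 ^ K * ζ.im| ≤ Real.pi / 4) {j : ℕ} (hj : j ≤ K) :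
    |((2 : ℂ) ^ j * ζ).im| ≤ Real.pi / 4 := by
  have h1 : ((2 : ℂ) ^ j * ζ).im = 2 ^ j * ζ.im := by
    rw [show (2 : ℂ) ^ j = ((2 ^ j : ℝ) : ℂ) by push_cast; rfl, Complex.im_ofReal_mul]
  rw [h1]
  refine le_trans ?_ h
  have hj0 : (0 : ℝ) < 2 ^ j := by positivity
  have hK0 : (0 : ℝ) < 2 ^ K := by positivity
  rw [abs_mul, abs_mul, abs_of_pos hj0, abs_of_pos hK0]
  apply mul_le_mul_of_nonneg_right _ (abs_nonneg _)
  exact pow_le_pow_right₀ (by norm_num) hj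

lemma cosh_ne {w : ℂ} (h : |w.im| ≤ Real.pi / 4) : cosh w ≠ 0 :=
  norm_pos_iff.mp (lt_of_lt_of_le (by norm_num) (half_le_norm_cosh h))

lemma log_sinh_pow {ζ : ℂ} (h0 : sinh ζ ≠ 0) (k : ℕ) (h : ∀ j < k, cosh ((2 : ℂ) ^ j * ζ) ≠ 0) :
    sinh ((2 : ℂ) ^ k * ζ) ≠ 0 ∧ Real.log ‖sinh ((2 : ℂ) ^ k * ζ)‖ =
      Real.log ‖sinh ζ‖ + ∑ j ∈ range k, Real.log ‖cosh (2 ^ j * ζ)‖ + k * Real.log 2 := by
  induction k with
  | zero => simpa using h0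
  | succ k ih =>
    obtain ⟨h1, h2⟩ := ih fun j hj => h j (by omega)
    have h3 := h k (by omega)
    have e : sinh ((2 : ℂ) ^ (k + 1) * ζ) = 2 * sinh ((2 : ℂ) ^ k * ζ) * cosh ((2 : ℂ) ^ k * ζ) := by
      rw [← Complex.sinh_two_mul]; ring_nf
    rw [e]
    refine ⟨mul_ne_zero (mul_ne_zero two_ne_zero h1) h3, ?_⟩
    rw [norm_mul, norm_mul, Real.log_mul (by simp [h1]) (norm_ne_zero_iff.2 h3),
      Real.log_mul (by simp) (norm_ne_zero_iff.2 h1), h2, sum_range_succ]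
    have : ‖(2 : ℂ)‖ = 2 := by simp
    rw [this]
    push_cast
    ring

/-- `log |sinh ζ| - log |tanh (2 ^ K ζ)|` is the regular part -/
theorem core_eqn {K : ℕ} {ζ : ℂ} (h : |2 ^ K * ζ.im| ≤ Real.pi / 4) (h0 : sinh ζ ≠ 0) :
    Real.log ‖sinh ζ‖ - Real.log ‖tanh (2 ^ K * ζ)‖ = GCn K ζ := by
  obtain ⟨h1, h2⟩ := log_sinh_pow h0 K fun j hj => cosh_ne (im_boundn h hj.le)
  have h3 := cosh_ne (im_boundn h le_rfl)
  rw [Complex.tanh_eq_sinh_div_cosh, norm_div,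
    Real.log_div (norm_ne_zero_iff.2 h1) (norm_ne_zero_iff.2 h3), h2, GCn]
  ring

/-- Lipschitz bound of the regular part of the core -/
theorem core_dispn {K : ℕ} {ζ a : ℂ} (h : |2 ^ K * ζ.im| ≤ Real.pi / 4) (ha : 2 ^ K * ‖a‖ ≤ 1 / 48) :
    |GCn K (ζ + a) - GCn K ζ| ≤ 48 * 2 ^ K * ‖a‖ := by
  have ha0 := norm_nonneg a
  have key : ∀ j : ℕ, j ≤ K →
      |Real.log ‖cosh ((2 : ℂ) ^ j * (ζ + a))‖ - Real.log ‖cosh ((2 : ℂ) ^ j * ζ)‖| ≤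
        24 * (2 ^ j * ‖a‖) := by
    intro j hj
    rw [mul_add]
    have h1 : ‖(2 : ℂ) ^ j * a‖ = 2 ^ j * ‖a‖ := by
      rw [norm_mul, norm_pow]; simp
    have h3 : (2 : ℝ) ^ j ≤ 2 ^ K := pow_le_pow_right₀ (by norm_num) hj
    have h2 := log_cosh_disp (w := (2 : ℂ) ^ j * ζ) (b := (2 : ℂ) ^ j * a) (im_boundn h hj)
      (by rw [h1]; nlinarith)
    rwa [h1] at h2
  have h1 : |∑ j ∈ range K, Real.log ‖cosh ((2 : ℂ) ^ j * (ζ + a))‖ -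
      ∑ j ∈ range K, Real.log ‖cosh ((2 : ℂ) ^ j * ζ)‖| ≤ 24 * 2 ^ K * ‖a‖ := by
    rw [← sum_sub_distrib]
    refine (abs_sum_le_sum_abs _ _).trans ?_
    calc ∑ j ∈ range K, |Real.log ‖cosh ((2 : ℂ) ^ j * (ζ + a))‖ - Real.log ‖cosh ((2 : ℂ) ^ j * ζ)‖|
        ≤ ∑ j ∈ range K, 24 * (2 ^ j * ‖a‖) :=
          sum_le_sum fun j hj => key j (mem_range.1 hj).le
      _ = 24 * (∑ j ∈ range K, (2 : ℝ) ^ j) * ‖a‖ := by
          rw [← mul_sum, ← sum_mul]; ring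
      _ ≤ _ := by
          have : ∑ j ∈ range K, (2 : ℝ) ^ j ≤ 2 ^ K := by
            rw [geom_sum_eq (by norm_num)]
            norm_num
          gcongr
  have h2 := key K le_rfl
  unfold GCn
  rw [abs_le] at *
  constructor <;> linarith [h1.1, h1.2, h2.1, h2.2]

end NUDispR
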