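import Pool.Agent.NUO.MHat7
import Pool.Agent.NUO.SBlockK

/-!
NUO/ND17 (helper25): the pointwise parts of the same kind kernels `L`-`St`, `St`-`S`, `St`-`Svv` with
`St = {7/4, 11/4}` (design D1). `z = π k / 32`, everything over `P`.
-/

namespace NUD17

open NUSB

noncomputable section

/-- `D1[0,1/2] + 2 D4[0,1/2] + D4[5/2,3]` -/
def NTS (z : ℝ) : ℝ := 4 * (ch 8 z * (ch 4 z * (ch 2 z - 1))) + (2 * (ch 2 z - 1) + (ch 12 z - ch 10 z))

/-- `D4[0,1/2]` -/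
def NTV (z : ℝ) : ℝ := ch 2 z - 1

/-- `D2[1/2,1]` -/
def NLT (z : ℝ) : ℝ := 2 * (ch 8 z * (ch 4 z - ch 2 z))

/-- pointwise part of `L`-`St` -/
def nLT (k : ℝ) : ℝ := PQ k * NLT (zk k)

/-- pointwise part of `St`-`S` -/
def nTS (k : ℝ) : ℝ := PQ k * NTS (zk k)

/-- pointwise part of `St`-`Svv` -/
def nTV (k : ℝ) : ℝ := PQ k * NTV (zk k)

end

end NUD17
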