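import Pool.Agent.NUO.D1Data7
import Pool.Agent.NUO.ND17
import Pool.Agent.NUO.D1Block

/-!
NUO/D1Block7 (helper25): the rows `L`, `St = {7/4, 11/4}` of the positive semidefinite part of (STAB)
(design D1): `form_z`, `form_k`. The couplings `L`-`St`, `St`-`S` and `St`-`Svv` are all in the form.
-/

namespace NUD17

open NUPolyR NUSB NUMH7 NUMH Real
open NUD1 (sS rL e6 evBTT evHUV evS sS_nonneg pos3 quad_nn ellL ellL_nonneg rL_sq block2)

noncomputable section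

def ell (z : ℝ) : ℝ := NUMH7.Ms .T .T z - co z - NN z
/-- remainders of `St`-`S`, `St`-`Svv` -/
def rS (z : ℝ) : ℝ := NUMH7.Ms .T .S z - NTS z
def rV (z : ℝ) : ℝ := NUMH7.Ms .T .V z - NTV z

theorem evP7 (z : ℝ) : ev lP7 (ww z) = 2 * (NUMH7.fXT z + NUMH7.fYT z) := by
  rw [ev_eq lP7_eq]
  simp only [ev_add, ev_smul, e3, e5, e9, e15, NUMH7.fXT, NUMH7.fYT]
  push_cast; ring

theorem evM7 (z : ℝ) : ev lM7 (ww z) = 2 * (NUMH7.fXT z - NUMH7.fYT z) := by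
  rw [ev_eq lM7_eq]
  simp only [ev_add, ev_sub, ev_smul, e3, e5, e9, e15, NUMH7.fXT, NUMH7.fYT]
  push_cast; ring

theorem evXS7 (z : ℝ) : ev lXS7 (ww z) = 2 * NUMH7.bTS z - 2 * NTS z := by
  rw [ev_eq lXS7_eq]
  simp only [ev_add, ev_sub, ev_smul, ev_mul, ev_cons, ev_nil, e2, e4, e6, e8, e10, e12, e14,
    NUMH7.bTS, NTS]
  push_cast; ring

theorem evXV7 (z : ℝ) : ev lXV7 (ww z) = 2 * NUMH7.bTV z - 2 * NTV z := by
  rw [ev_eq lXV7_eq]
  simp only [ev_add, ev_sub, ev_smul, ev_cons, ev_nil, e2, e6, e10, e14, NUMH7.bTV, NTV]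
  push_cast; ring

theorem evRS {z : ℝ} (hz : 0 < z) : ev lRS7 (ww z) = 40 * ch 2 z * (up z * um z) * rS z := by
  have hU := (up_pos hz).ne'
  have hV := (um_pos z).ne'
  have h2 : ch 2 z ≠ 0 := by linarith [one_le_ch 2 z]
  rw [ev_eq lRS7_eq]
  simp only [ev_mul, ev_add, ev_sub, ev_smul, evHUV, evXS7, evP7, evM7, evPS, evMS, evV, evU, rS,
    NUMH7.Ms, NUMH7.bb, NUMH7.fX, NUMH7.fY]
  have e1 : fXS z - psi z + fYS z = fXS z + fYS z - psi z := by ring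
  have e2 : fXS z - psi z - fYS z = fXS z - fYS z - psi z := by ring
  rw [e1, e2]
  generalize fXS z + fYS z - psi z = p
  generalize fXS z - fYS z - psi z = m
  generalize NUMH7.fXT z + NUMH7.fYT z = p'
  generalize NUMH7.fXT z - NUMH7.fYT z = m'
  generalize up z = U at *
  generalize um z = V at *
  field_simp
  push_cast; ring

theorem evRV {z : ℝ} (hz : 0 < z) : ev lRV7 (ww z) = 40 * ch 2 z * (up z * um z) * rV z := by
  have hU := (up_pos hz).ne'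
  have hV := (um_pos z).ne'
  have h2 : ch 2 z ≠ 0 := by linarith [one_le_ch 2 z]
  rw [ev_eq lRV7_eq]
  simp only [ev_mul, ev_add, ev_sub, ev_smul, evHUV, evXV7, evP7, evM7, evPV, evMV, evV, evU, rV,
    NUMH7.Ms, NUMH7.bb, NUMH7.fX, NUMH7.fY]
  generalize fXV z + fYV z = p
  generalize fXV z - fYV z = m
  generalize NUMH7.fXT z + NUMH7.fYT z = p'
  generalize NUMH7.fXT z - NUMH7.fYT z = m'
  generalize up z = U at *
  generalize um z = V at *
  field_simp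
  push_cast; ring

theorem evE {z : ℝ} (hz : 0 < z) :
    ev lE7 (ww z) = 1000 * (up z * um z) * (31 + ch 1 z) * ell z := by
  have hU := (up_pos hz).ne'
  have hV := (um_pos z).ne'
  have hx : (31 + ch 1 z) ≠ 0 := by linarith [one_le_ch 1 z]
  rw [ev_eq lE7_eq]
  simp only [ev_mul, ev_add, ev_sub, ev_smul, evBTT, evP7, evM7, evN1, evK, evNx, evUVx, evUV, evV, evU,
    ell, NUMH7.Ms, NUMH7.bb, NUMH7.fX, NUMH7.fY, co]
  generalize NUMH7.fXT z + NUMH7.fYT z = p'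
  generalize NUMH7.fXT z - NUMH7.fYT z = m'
  generalize up z = U at *
  generalize um z = V at *
  generalize 31 + ch 1 z = X at *
  field_simp
  push_cast; ring

theorem ell_nonneg {z : ℝ} (hz : 0 < z) : 0 ≤ ell z := by
  obtain ⟨h1, h2, _⟩ := pos3 hz
  have h := ev_nonneg lE7_nn (ww_nonneg z)
  rw [evE hz] at h
  exact nonneg_of_mul_nonneg_right h (by positivity)

/-- remainder of `L`-`St` -/
def rLT (z : ℝ) : ℝ := NUMH7.Ms .L .T z - NLT z

theorem evRLT {z : ℝ} (hz : 0 < z) : ev lRLT (ww z) = 8 * (up z * um z) * rLT z := by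
  have hU := (up_pos hz).ne'
  have hV := (um_pos z).ne'
  have hX : ev lXLT (ww z) = NUMH7.bLT z - NLT z := by
    rw [ev_eq lXLT_eq]
    simp only [ev_add, ev_sub, ev_smul, ev_mul, e2, e4, e6, e8, e14, NUMH7.bLT, NLT]
    push_cast; ring
  rw [ev_eq lRLT_eq]
  simp only [ev_mul, ev_add, ev_sub, ev_smul, hX, evUV, evP7, evM7, NUD1.evPL, NUD1.evML, evV, evU,
    rLT, NUMH7.Ms, NUMH7.bb, NUMH7.fX, NUMH7.fY]
  generalize fXL z + fYL z = p
  generalize fXL z - fYL z = m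
  generalize NUMH7.fXT z + NUMH7.fYT z = p'
  generalize NUMH7.fXT z - NUMH7.fYT z = m'
  generalize up z = U at *
  generalize um z = V at *
  field_simp
  push_cast; ring

theorem rLT_sq {z : ℝ} (hz : 0 < z) : rLT z ^ 2 ≤ (1 / 5 * ellL z) * (1 / 5 * ell z) := by
  obtain ⟨h1, h2, _⟩ := pos3 hz
  have h := ev_nonneg lCLT_nn (ww_nonneg z)
  rw [ev_eq lCLT_eq] at h
  simp only [ev_mul, ev_sub, ev_smul, NUD1.evEL hz, evE hz, evRLT hz, evNx] at h
  have e : (0:ℝ) ≤ 25000000 * ((up z * um z) ^ 2 * (31 + ch 1 z) ^ 2) *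
      ((1 / 5 * ellL z) * (1 / 5 * ell z) - rLT z ^ 2) := by
    refine h.trans (le_of_eq ?_)
    push_cast; ring
  have := nonneg_of_mul_nonneg_right e (by positivity)
  linarith

/-- reduced entries -/
def aa (z : ℝ) : ℝ := eSS z + core z - co z - sS z / 24
def bb' (z : ℝ) : ℝ := eSV z - core z + co z
def dd (z : ℝ) : ℝ := eVV z + core z - co z

theorem evA2 {z : ℝ} (hz : 0 < z) : ev NUD1.lA2 (ww z) = 3 * MM z * aa z := by
  have hMM : ev lUVHx (ww z) = MM z / 1000 := by rw [evUVHx, MM]; ring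
  rw [ev_eq NUD1.lA2_eq]
  simp only [ev_sub, ev_smul, ev_mul, evA hz, evS, hMM, aa]
  push_cast; ring

theorem evDet2 {z : ℝ} (hz : 0 < z) :
    ev NUD1.lDet2 (ww z) = 3 * MM z ^ 2 * (aa z * dd z - bb' z ^ 2) := by
  rw [ev_eq NUD1.lDet2_eq]
  simp only [ev_sub, ev_smul, ev_mul, evA2 hz, evB hz, evD hz, bb', dd]
  push_cast; ring

theorem evHX (z : ℝ) : ev lHX (ww z) = ch 2 z ^ 2 * (31 + ch 1 z) ^ 2 := by
  rw [ev_eq lHX_eq, ev_mul, ev_mul, evH2, evNx]; ring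

/-- the square of the common denominator of the remainders -/
def WW (z : ℝ) : ℝ := 1600 * ch 2 z ^ 4 * (31 + ch 1 z) ^ 2 * (up z * um z) ^ 2

theorem evRSS {z : ℝ} (hz : 0 < z) : ev lRSS (ww z) = WW z * rS z ^ 2 := by
  rw [ev_eq lRSS_eq, ev_mul, ev_mul, evRS hz, evHX, WW]; ring
theorem evRSV {z : ℝ} (hz : 0 < z) : ev lRSV (ww z) = WW z * (rS z * rV z) := by
  rw [ev_eq lRSV_eq, ev_mul, ev_mul, evRS hz, evRV hz, evHX, WW]; ring
theorem evRVV {z : ℝ} (hz : 0 < z) : ev lRVV (ww z) = WW z * rV z ^ 2 := by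
  rw [ev_eq lRVV_eq, ev_mul, ev_mul, evRV hz, evHX, WW]; ring

/-- `1000 U V (31+x) * 3 M` -/
theorem WW_eq (z : ℝ) : 1875 * WW z = 1000 * (up z * um z) * (31 + ch 1 z) * (3 * MM z) := by
  unfold WW MM; ring

theorem min1 {z : ℝ} (hz : 0 < z) : rS z ^ 2 ≤ 4 / 5 * ell z * aa z := by
  obtain ⟨h1, h2, h3⟩ := pos3 hz
  have hM := MM_pos hz
  have h := ev_nonneg lM17_nn (ww_nonneg z)
  rw [ev_eq lM17_eq] at h
  simp only [ev_sub, ev_mul, ev_smul, evE hz, evA2 hz, evRSS hz] at h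
  have e : (0:ℝ) ≤ (1000 * (up z * um z) * (31 + ch 1 z) * (3 * MM z)) *
      (5 * (4 / 5 * ell z * aa z - rS z ^ 2)) := by
    refine h.trans (le_of_eq ?_)
    have := WW_eq z
    push_cast
    linear_combination (-5 * rS z ^ 2) * this
  have := nonneg_of_mul_nonneg_right e (by positivity)
  linarith

theorem min2 {z : ℝ} (hz : 0 < z) : rV z ^ 2 ≤ 4 / 5 * ell z * dd z := by
  obtain ⟨h1, h2, h3⟩ := pos3 hz
  have hM := MM_pos hz
  have h := ev_nonneg lM27_nn (ww_nonneg z)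
  rw [ev_eq lM27_eq] at h
  simp only [ev_sub, ev_mul, ev_smul, evE hz, evD hz, evRVV hz] at h
  have e : (0:ℝ) ≤ (1000 * (up z * um z) * (31 + ch 1 z) * MM z) *
      (5 * (4 / 5 * ell z * dd z - rV z ^ 2)) := by
    refine h.trans (le_of_eq ?_)
    have := WW_eq z
    push_cast
    unfold dd
    linear_combination (-5 * rV z ^ 2 / 3) * this
  have := nonneg_of_mul_nonneg_right e (by positivity)
  linarith

theorem det3 {z : ℝ} (hz : 0 < z) : 0 ≤ 4 / 5 * ell z * (aa z * dd z - bb' z ^ 2)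
    - (rS z ^ 2 * dd z - 2 * (rS z * rV z) * bb' z) - rV z ^ 2 * aa z := by
  obtain ⟨h1, h2, h3⟩ := pos3 hz
  have hM := MM_pos hz
  have h := ev_nonneg lDet3_nn (ww_nonneg z)
  rw [ev_eq lDet3_eq] at h
  simp only [ev_sub, ev_mul, ev_smul, evE hz, evDet2 hz, evA2 hz, evB hz, evD hz, evRSS hz, evRSV hz,
    evRVV hz] at h
  have e : (0:ℝ) ≤ (1000 * (up z * um z) * (31 + ch 1 z) * (3 * MM z) * MM z) *
      (5 * (4 / 5 * ell z * (aa z * dd z - bb' z ^ 2)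
    - (rS z ^ 2 * dd z - 2 * (rS z * rV z) * bb' z) - rV z ^ 2 * aa z)) := by
    refine h.trans (le_of_eq ?_)
    have := WW_eq z
    push_cast
    unfold dd bb'
    linear_combination (-5 * MM z * (rS z ^ 2 * (eVV z + core z - co z) - 2 * (rS z * rV z)
      * (eSV z - core z + co z)) - 5 * MM z * rV z ^ 2 * aa z) * this
  have := nonneg_of_mul_nonneg_right e (by positivity)
  linarith

theorem three {l a b d p q : ℝ} (hl : 0 ≤ l) (h1 : p ^ 2 ≤ l * a) (h2 : q ^ 2 ≤ l * d)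
    (h3 : 0 ≤ l * (a * d - b ^ 2) - (p ^ 2 * d - 2 * (p * q) * b) - q ^ 2 * a)
    (h0 : ∀ s v : ℝ, 0 ≤ a * s ^ 2 + 2 * b * (s * v) + d * v ^ 2) (x s v : ℝ) :
    0 ≤ l * x ^ 2 + 2 * p * (x * s) + 2 * q * (x * v) + (a * s ^ 2 + 2 * b * (s * v) + d * v ^ 2) := by
  rcases hl.eq_or_lt with h | h
  · have hp : p = 0 := by rw [← h] at h1; nlinarith [sq_nonneg p]
    have hq : q = 0 := by rw [← h] at h2; nlinarith [sq_nonneg q]
    rw [← h, hp, hq]
    have := h0 s v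
    linarith
  · have hdet : (l * b - p * q) ^ 2 ≤ (l * a - p ^ 2) * (l * d - q ^ 2) := by
      have := mul_nonneg hl h3
      nlinarith
    have h4 := quad_nn (sub_nonneg.2 h1) (sub_nonneg.2 h2) hdet s v
    have h5 : 0 ≤ l * (l * x ^ 2 + 2 * p * (x * s) + 2 * q * (x * v) +
        (a * s ^ 2 + 2 * b * (s * v) + d * v ^ 2)) := by
      have e : l * (l * x ^ 2 + 2 * p * (x * s) + 2 * q * (x * v) +
        (a * s ^ 2 + 2 * b * (s * v) + d * v ^ 2)) = (l * x + p * s + q * v) ^ 2 +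
          ((l * a - p ^ 2) * s ^ 2 + 2 * (l * b - p * q) * (s * v) + (l * d - q ^ 2) * v ^ 2) := by
        ring
      rw [e]
      positivity
    exact nonneg_of_mul_nonneg_right h5 h

theorem block3 {z : ℝ} (hz : 0 < z) (x s v : ℝ) :
    0 ≤ 4 / 5 * ell z * x ^ 2 + 2 * rS z * (x * s) + 2 * rV z * (x * v) +
      (aa z * s ^ 2 + 2 * bb' z * (s * v) + dd z * v ^ 2) :=
  three (mul_nonneg (by norm_num) (ell_nonneg hz)) (min1 hz) (min2 hz) (det3 hz) (fun s v => block2 hz s v) x s v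

theorem Ms_LL (z : ℝ) : NUMH7.Ms .L .L z = NUMH.Ms .L .L z := rfl
theorem Ms_LS (z : ℝ) : NUMH7.Ms .L .S z = NUMH.Ms .L .S z := rfl
theorem Ms_LV (z : ℝ) : NUMH7.Ms .L .V z = NUMH.Ms .L .V z := rfl

/-- the form over `P` -/
theorem form_z {z : ℝ} (hz : 0 < z) (xL xT s v : ℝ) :
    0 ≤ (NUMH7.Ms .L .L z - core z - NN z) * xL ^ 2 + (NUMH7.Ms .T .T z - core z - NN z) * xT ^ 2 +
      2 * rLT z * (xL * xT) + 2 * (NUMH7.Ms .L .S z - (1 / 2) * (ch 16 z - ch 14 z) - NUD1.NLS z) * (xL * s) +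
      2 * rS z * (xT * s) + 2 * rV z * (xT * v) +
      (eSS z * s ^ 2 + 2 * eSV z * (s * v) + eVV z * v ^ 2) := by
  have h1 := quad_nn (A := 4 / 5 * ellL z) (C := sS z / 24) (B := rL z)
    (mul_nonneg (by norm_num) (ellL_nonneg hz)) (div_nonneg (sS_nonneg z) (by norm_num))
    ((rL_sq hz).trans (le_of_eq (by ring))) xL s
  have h2 := quad_nn (mul_nonneg (by norm_num) (ellL_nonneg hz)) (mul_nonneg (by norm_num)
    (ell_nonneg hz)) (rLT_sq hz) xL xT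
  have h3 := block3 hz xT s v
  have h4 : 0 ≤ (co z - core z) * (xL ^ 2 + xT ^ 2 + (s - v) ^ 2) :=
    mul_nonneg (sub_nonneg.2 (core_le hz.le)) (by positivity)
  have e : (NUMH7.Ms .L .L z - core z - NN z) * xL ^ 2 + (NUMH7.Ms .T .T z - core z - NN z) * xT ^ 2 +
      2 * rLT z * (xL * xT) + 2 * (NUMH7.Ms .L .S z - (1 / 2) * (ch 16 z - ch 14 z) - NUD1.NLS z) * (xL * s) +
      2 * rS z * (xT * s) + 2 * rV z * (xT * v) +
      (eSS z * s ^ 2 + 2 * eSV z * (s * v) + eVV z * v ^ 2) =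
      (1 / 5 * ellL z * xL ^ 2 + 2 * rLT z * (xL * xT) + 1 / 5 * ell z * xT ^ 2) +
      (4 / 5 * ellL z * xL ^ 2 + 2 * rL z * (xL * s) + sS z / 24 * s ^ 2) +
      (4 / 5 * ell z * xT ^ 2 + 2 * rS z * (xT * s) + 2 * rV z * (xT * v) +
      (aa z * s ^ 2 + 2 * bb' z * (s * v) + dd z * v ^ 2)) +
      (co z - core z) * (xL ^ 2 + xT ^ 2 + (s - v) ^ 2) := by
    rw [Ms_LL, Ms_LS]
    unfold ellL ell aa bb' dd rL; ring
  rw [e]
  linarith

/-- **the form of design D1, `St = {7/4, 11/4}`** -/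
theorem form_k {k : ℝ} (hk : 0 < k) (xL xT s v : ℝ) :
    0 ≤ (PQ k * (NUMH7.Ms .L .L (NUSB.zk k) - core (NUSB.zk k)) - NUStabT.nK k) * xL ^ 2 +
      (PQ k * (NUMH7.Ms .T .T (NUSB.zk k) - core (NUSB.zk k)) - NUStabT.nK k) * xT ^ 2 +
      2 * (PQ k * NUMH7.Ms .L .T (NUSB.zk k) - nLT k) * (xL * xT) +
      2 * (PQ k * (NUMH7.Ms .L .S (NUSB.zk k) - (1 / 2) * core (NUSB.zk k)) - NUD1.nLS k) * (xL * s) +
      2 * (PQ k * NUMH7.Ms .T .S (NUSB.zk k) - nTS k) * (xT * s) +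
      2 * (PQ k * NUMH7.Ms .T .V (NUSB.zk k) - nTV k) * (xT * v) +
      ((alphaK k - gK k) * s ^ 2 + 2 * (betaK k + wK k * gK k) * (s * v) +
        (gamK k - wK k ^ 2 * gK k) * v ^ 2) := by
  have h := mul_nonneg (PQ_pos hk).le (form_z (NUSB.zk_pos hk) xL xT s v)
  refine h.trans (le_of_eq ?_)
  unfold NUStabT.nK NUD1.nLS nLT nTS nTV alphaK betaK gamK gK wK rS rV rLT
  ring

end

end NUD17
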