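import Mathlib

/-!
# Displacement of direct pair functions (board/ABS O4d, direct part)

* `log_sin_disp`: `|log ‖sin (z + a)‖ - log ‖sin z‖| ≤ 8 ‖a‖ (1 + 1/κ)` if `κ ≤ ‖sin z‖`.
* `LS_disp`: the same for finite products of sines.
* `core_disp`: `log ‖sinh ζ‖ - log ‖tanh (32 ζ)‖` is Lipschitz in a strip.
-/

noncomputable section

open Complex

namespace NUDispR

lemma norm_sin_le {b : ℂ} (hb : ‖b‖ ≤ 1) : ‖sin b‖ ≤ 2 * ‖b‖ := by
  have h1 : ‖exp (-b * I) - 1‖ ≤ 2 * ‖b‖ := by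
    have := Complex.norm_exp_sub_one_le (x := -b * I) (by simpa using hb)
    simpa using this
  have h2 : ‖exp (b * I) - 1‖ ≤ 2 * ‖b‖ := by
    have := Complex.norm_exp_sub_one_le (x := b * I) (by simpa using hb)
    simpa using this
  have h3 : sin b = ((exp (-b * I) - 1) - (exp (b * I) - 1)) * I / 2 := by
    rw [sin]; ring
  rw [h3, norm_div, norm_mul, norm_I, mul_one]
  have h4 := norm_sub_le (exp (-b * I) - 1) (exp (b * I) - 1)
  have h5 : ‖(2 : ℂ)‖ = 2 := by simp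
  rw [h5]
  linarith

lemma norm_cos_sub_one_le {a : ℂ} (ha : ‖a‖ ≤ 1) : ‖cos a - 1‖ ≤ 2 * ‖a‖ ^ 2 := by
  have h1 : cos a - 1 = -2 * sin (a / 2) ^ 2 := by
    have h := Complex.cos_sq' (a / 2)
    have h2 := Complex.cos_two_mul (a / 2)
    rw [mul_div_cancel₀ a (two_ne_zero)] at h2
    rw [h2, h]; ring
  have hb : ‖a / 2‖ = ‖a‖ / 2 := by rw [norm_div]; simp
  have h2 := norm_sin_le (b := a / 2) (by rw [hb]; linarith [norm_nonneg a])
  rw [hb] at h2
  rw [h1, norm_mul, norm_pow]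
  have h3 : ‖(-2 : ℂ)‖ = 2 := by simp
  rw [h3]
  have h4 : ‖sin (a / 2)‖ ^ 2 ≤ ‖a‖ ^ 2 := by
    apply pow_le_pow_left₀ (norm_nonneg _)
    linarith
  linarith

lemma abs_log_norm_one_add_le {w : ℂ} (hw : ‖w‖ ≤ 1 / 2) : |Real.log ‖1 + w‖| ≤ 2 * ‖w‖ := by
  have h1 : ‖1 + w‖ ≤ 1 + ‖w‖ := by
    refine (norm_add_le _ _).trans ?_; rw [norm_one]
  have h2 : 1 - ‖w‖ ≤ ‖1 + w‖ := by
    have := norm_sub_norm_le (1 : ℂ) (-w)
    rw [norm_neg, norm_one, sub_neg_eq_add] at this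
    exact this
  have h0 := norm_nonneg w
  have hpos : 0 < ‖1 + w‖ := by linarith
  rw [abs_le]
  constructor
  · have h3 : 1 - 1 / ‖1 + w‖ ≤ Real.log ‖1 + w‖ := by
      have := Real.one_sub_inv_le_log_of_pos hpos
      rw [one_div]; exact this
    have h4 : 1 / ‖1 + w‖ ≤ 1 + 2 * ‖w‖ := by
      rw [div_le_iff₀ hpos]
      nlinarith
    linarith
  · have h3 := Real.log_le_sub_one_of_pos hpos
    linarith

/-- displacement of `log |sin|` -/
theorem log_sin_disp {z a : ℂ} {κ : ℝ} (hκ : 0 < κ) (hz : κ ≤ ‖sin z‖)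
    (ha : ‖a‖ * (1 + 1 / κ) ≤ 1 / 16) :
    |Real.log ‖sin (z + a)‖ - Real.log ‖sin z‖| ≤ 8 * ‖a‖ * (1 + 1 / κ) := by
  have hs : 0 < ‖sin z‖ := lt_of_lt_of_le hκ hz
  have hs0 : sin z ≠ 0 := norm_pos_iff.mp hs
  have hk : 0 < 1 / κ := by positivity
  have ha0 := norm_nonneg a
  have ha1 : ‖a‖ ≤ 1 / 16 := by nlinarith
  set w : ℂ := (cos a - 1) + cos z / sin z * sin a with hw
  have hfac : sin (z + a) = sin z * (1 + w) := by
    rw [sin_add, hw]
    field_simp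
    ring
  have hcot : ‖cos z / sin z‖ ≤ 1 + 1 / κ := by
    rw [norm_div]
    have h1 : ‖cos z‖ ^ 2 ≤ 1 + ‖sin z‖ ^ 2 := by
      rw [← norm_pow, Complex.cos_sq']
      refine (norm_sub_le _ _).trans ?_
      rw [norm_one, norm_pow]
    have h2 : ‖cos z‖ ≤ 1 + ‖sin z‖ := by
      nlinarith [norm_nonneg (cos z), norm_nonneg (sin z)]
    rw [div_le_iff₀ hs]
    have h3 : 1 ≤ 1 / κ * ‖sin z‖ := by
      rw [div_mul_eq_mul_div, one_mul, le_div_iff₀ hκ]; linarith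
    nlinarith
  have hw1 : ‖w‖ ≤ 4 * ‖a‖ * (1 + 1 / κ) := by
    rw [hw]
    refine (norm_add_le _ _).trans ?_
    rw [norm_mul]
    have h1 := norm_cos_sub_one_le (a := a) (by linarith)
    have h2 := norm_sin_le (b := a) (by linarith)
    have h3 : ‖cos z / sin z‖ * ‖sin a‖ ≤ (1 + 1 / κ) * (2 * ‖a‖) := by gcongr
    nlinarith
  have hw2 : ‖w‖ ≤ 1 / 2 := by nlinarith
  have hlog := abs_log_norm_one_add_le hw2
  have hne : ‖1 + w‖ ≠ 0 := by
    have h2 := norm_sub_norm_le (1 : ℂ) (-w)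
    rw [norm_neg, norm_one, sub_neg_eq_add] at h2
    have : 0 < ‖1 + w‖ := by linarith
    exact this.ne'
  rw [hfac, norm_mul, Real.log_mul hs.ne' hne, add_sub_cancel_left]
  refine hlog.trans ?_
  linarith

/-- `log` of the modulus of a finite product of sines (exponents in `ℤ`) -/
def LS (L : List (ℂ × ℤ)) (z : ℂ) : ℝ := (L.map fun p => (p.2 : ℝ) * Real.log ‖sin (z + p.1)‖).sum

/-- total degree -/
def deg (L : List (ℂ × ℤ)) : ℝ := (L.map fun p => |(p.2 : ℝ)|).sum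

lemma LS_cons (p : ℂ × ℤ) (L : List (ℂ × ℤ)) (z : ℂ) :
    LS (p :: L) z = (p.2 : ℝ) * Real.log ‖sin (z + p.1)‖ + LS L z := by
  simp [LS]

lemma deg_cons (p : ℂ × ℤ) (L : List (ℂ × ℤ)) : deg (p :: L) = |(p.2 : ℝ)| + deg L := by
  simp [deg]

lemma LS_append (L L' : List (ℂ × ℤ)) (z : ℂ) : LS (L ++ L') z = LS L z + LS L' z := by
  simp [LS]

/-- a finite product of sines -/
def PS (L : List (ℂ × ℤ)) (z : ℂ) : ℂ := (L.map fun p => sin (z + p.1) ^ p.2).prod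

lemma log_PS (L : List (ℂ × ℤ)) (z : ℂ) (h : ∀ p ∈ L, sin (z + p.1) ≠ 0) :
    PS L z ≠ 0 ∧ Real.log ‖PS L z‖ = LS L z := by
  induction L with
  | nil => simp [PS, LS]
  | cons p L ih =>
    have h1 := ih fun p' hp' => h p' (List.mem_cons_of_mem _ hp')
    have h2 := h p List.mem_cons_self
    have h3 : PS (p :: L) z = sin (z + p.1) ^ p.2 * PS L z := by simp [PS]
    have h4 : sin (z + p.1) ^ p.2 ≠ 0 := zpow_ne_zero _ h2
    refine ⟨by rw [h3]; exact mul_ne_zero h4 h1.1, ?_⟩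
    rw [h3, norm_mul, Real.log_mul (norm_ne_zero_iff.mpr h4) (norm_ne_zero_iff.mpr h1.1), h1.2,
      LS_cons, norm_zpow, Real.log_zpow]

/-- displacement of the logarithm of a product of sines -/
theorem LS_disp {L : List (ℂ × ℤ)} {z a : ℂ} {κ : ℝ} (hκ : 0 < κ)
    (hz : ∀ p ∈ L, κ ≤ ‖sin (z + p.1)‖) (ha : ‖a‖ * (1 + 1 / κ) ≤ 1 / 16) :
    |LS L (z + a) - LS L z| ≤ deg L * (8 * ‖a‖ * (1 + 1 / κ)) := by
  induction L with
  | nil => simp [LS, deg]
  | cons p L ih =>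
    have h1 := ih fun p' hp' => hz p' (List.mem_cons_of_mem _ hp')
    have h2 := log_sin_disp hκ (hz p List.mem_cons_self) ha
    rw [LS_cons, LS_cons, deg_cons]
    have h3 : z + a + p.1 = z + p.1 + a := by ring
    rw [h3]
    have h4 : |(p.2 : ℝ) * Real.log ‖sin (z + p.1 + a)‖ - (p.2 : ℝ) * Real.log ‖sin (z + p.1)‖|
        ≤ |(p.2 : ℝ)| * (8 * ‖a‖ * (1 + 1 / κ)) := by
      rw [← mul_sub, abs_mul]
      gcongr
    calc |(p.2 : ℝ) * Real.log ‖sin (z + p.1 + a)‖ + LS L (z + a)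
          - ((p.2 : ℝ) * Real.log ‖sin (z + p.1)‖ + LS L z)|
        = |((p.2 : ℝ) * Real.log ‖sin (z + p.1 + a)‖ - (p.2 : ℝ) * Real.log ‖sin (z + p.1)‖)
          + (LS L (z + a) - LS L z)| := by ring_nf
      _ ≤ _ := (abs_add_le _ _).trans (by rw [add_mul]; exact add_le_add h4 h1)

/-- non-vanishing along the displacement -/
lemma sin_ne_zero_of_disp {z a : ℂ} {κ : ℝ} (hκ : 0 < κ) (hz : κ ≤ ‖sin z‖)
    (ha : ‖a‖ * (1 + 1 / κ) ≤ 1 / 16) : sin (z + a) ≠ 0 := by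
  have hs : 0 < ‖sin z‖ := lt_of_lt_of_le hκ hz
  have hk : 0 < 1 / κ := by positivity
  have ha0 := norm_nonneg a
  have ha1 : ‖a‖ ≤ 1 / 16 := by nlinarith
  have h1 := norm_cos_sub_one_le (a := a) (by linarith)
  have h2 := norm_sin_le (b := a) (by linarith)
  have h3 : ‖cos z‖ ≤ 1 + ‖sin z‖ := by
    have h1 : ‖cos z‖ ^ 2 ≤ 1 + ‖sin z‖ ^ 2 := by
      rw [← norm_pow, Complex.cos_sq']
      refine (norm_sub_le _ _).trans ?_
      rw [norm_one, norm_pow]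
    nlinarith [norm_nonneg (cos z), norm_nonneg (sin z)]
  intro h
  have h4 : sin z = -(sin z * (cos a - 1) + cos z * sin a) := by
    rw [sin_add] at h
    linear_combination h
  have h5 : ‖sin z‖ ≤ ‖sin z‖ * (2 * ‖a‖ ^ 2) + (1 + ‖sin z‖) * (2 * ‖a‖) := by
    conv_lhs => rw [h4]
    rw [norm_neg]
    refine (norm_add_le _ _).trans ?_
    rw [norm_mul, norm_mul]
    gcongr
  have h6 : ‖a‖ ≤ ‖sin z‖ / 16 := by
    have h7 : ‖a‖ * (1 / κ) ≤ 1 / 16 := by nlinarith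
    rw [mul_one_div, div_le_iff₀ hκ] at h7
    linarith
  have h8 : ‖a‖ ^ 2 ≤ 1 / 256 := by nlinarith
  have h9 : ‖sin z‖ * (2 * ‖a‖ ^ 2) ≤ ‖sin z‖ * (1 / 128) := by gcongr; linarith
  have h10 : (1 + ‖sin z‖) * (2 * ‖a‖) ≤ ‖sin z‖ / 8 + ‖sin z‖ / 8 := by nlinarith
  linarith

/-! ### the core -/

lemma norm_cosh_sq' (w : ℂ) : ‖cosh w‖ ^ 2 = Real.sinh w.re ^ 2 + Real.cos w.im ^ 2 := by
  conv_lhs => rw [← Complex.re_add_im w, Complex.cosh_add, Complex.cosh_mul_I, Complex.sinh_mul_I,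
    ← Complex.ofReal_sinh, ← Complex.ofReal_cosh, ← Complex.ofReal_sin, ← Complex.ofReal_cos]
  rw [← Complex.normSq_eq_norm_sq, Complex.normSq_apply]
  simp only [Complex.add_re, Complex.mul_re, Complex.ofReal_re, Complex.ofReal_im, Complex.I_re,
    Complex.I_im, Complex.add_im, Complex.mul_im]
  have h1 := Real.cosh_sq w.re
  have h2 := Real.sin_sq_add_cos_sq w.im
  ring_nf
  rw [h1]
  have : Real.sin w.im ^ 2 = 1 - Real.cos w.im ^ 2 := by linarith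
  rw [this]
  ring

lemma half_le_norm_cosh {w : ℂ} (h : |w.im| ≤ Real.pi / 4) : 1 / 2 ≤ ‖cosh w‖ := by
  have h1 : 0 ≤ Real.cos (2 * w.im) := by
    apply Real.cos_nonneg_of_neg_pi_div_two_le_of_le <;> linarith [abs_le.mp h]
  rw [Real.cos_two_mul] at h1
  have h2 : 1 / 2 ≤ ‖cosh w‖ ^ 2 := by
    rw [norm_cosh_sq']; nlinarith [sq_nonneg (Real.sinh w.re)]
  nlinarith [norm_nonneg (cosh w)]

lemma cosh_eq_sin (w : ℂ) : cosh w = sin (w * I + Real.pi / 2) := by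
  rw [Complex.sin_add_pi_div_two, Complex.cos_mul_I]

lemma log_cosh_disp {w b : ℂ} (h : |w.im| ≤ Real.pi / 4) (hb : ‖b‖ ≤ 1 / 48) :
    |Real.log ‖cosh (w + b)‖ - Real.log ‖cosh w‖| ≤ 24 * ‖b‖ := by
  have h1 := half_le_norm_cosh h
  rw [cosh_eq_sin w] at h1
  have h2 := log_sin_disp (z := w * I + Real.pi / 2) (a := b * I) (κ := 1 / 2) (by norm_num) h1
    (by simp only [norm_mul, norm_I, mul_one]; linarith)
  simp only [norm_mul, norm_I, mul_one] at h2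
  rw [cosh_eq_sin w, cosh_eq_sin (w + b)]
  have h3 : (w + b) * I + (Real.pi : ℂ) / 2 = w * I + Real.pi / 2 + b * I := by ring
  rw [h3]
  refine h2.trans ?_
  linarith

/-- the regular part of the core -/
def GC (ζ : ℂ) : ℝ := Real.log ‖cosh (32 * ζ)‖ - Real.log ‖cosh (16 * ζ)‖ - Real.log ‖cosh (8 * ζ)‖
  - Real.log ‖cosh (4 * ζ)‖ - Real.log ‖cosh (2 * ζ)‖ - Real.log ‖cosh ζ‖ - Real.log 32

lemma sinh_32 (ζ : ℂ) : sinh (32 * ζ) =
    32 * sinh ζ * cosh ζ * cosh (2 * ζ) * cosh (4 * ζ) * cosh (8 * ζ) * cosh (16 * ζ) := by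
  have h1 : sinh (32 * ζ) = 2 * sinh (16 * ζ) * cosh (16 * ζ) := by
    rw [← Complex.sinh_two_mul]; ring_nf
  have h2 : sinh (16 * ζ) = 2 * sinh (8 * ζ) * cosh (8 * ζ) := by
    rw [← Complex.sinh_two_mul]; ring_nf
  have h3 : sinh (8 * ζ) = 2 * sinh (4 * ζ) * cosh (4 * ζ) := by
    rw [← Complex.sinh_two_mul]; ring_nf
  have h4 : sinh (4 * ζ) = 2 * sinh (2 * ζ) * cosh (2 * ζ) := by
    rw [← Complex.sinh_two_mul]; ring_nf
  have h5 : sinh (2 * ζ) = 2 * sinh ζ * cosh ζ := Complex.sinh_two_mul ζ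
  rw [h1, h2, h3, h4, h5]; ring

lemma im_bound {ζ : ℂ} (h : |32 * ζ.im| ≤ Real.pi / 4) {n : ℝ} (hn : 0 ≤ n) (hn' : n ≤ 32) :
    |((n : ℂ) * ζ).im| ≤ Real.pi / 4 := by
  have h1 : ((n : ℂ) * ζ).im = n * ζ.im := by simp
  rw [h1]
  refine le_trans ?_ h
  rw [abs_mul, abs_mul, abs_of_nonneg hn]
  norm_num
  gcongr

/-- `log |sinh ζ| - log |tanh 32 ζ|` is the regular part -/
theorem core_eq {ζ : ℂ} (h : |32 * ζ.im| ≤ Real.pi / 4) (h0 : sinh ζ ≠ 0) :
    Real.log ‖sinh ζ‖ - Real.log ‖tanh (32 * ζ)‖ = GC ζ := by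
  have c1 : cosh ζ ≠ 0 := by
    have := half_le_norm_cosh (w := ζ) (by simpa using im_bound h (n := 1) (by norm_num) (by norm_num))
    exact norm_pos_iff.mp (by linarith)
  have c2 : cosh (2 * ζ) ≠ 0 := by
    have := half_le_norm_cosh (w := 2 * ζ) (by simpa using im_bound h (n := 2) (by norm_num) (by norm_num))
    exact norm_pos_iff.mp (by linarith)
  have c4 : cosh (4 * ζ) ≠ 0 := by
    have := half_le_norm_cosh (w := 4 * ζ) (by simpa using im_bound h (n := 4) (by norm_num) (by norm_num))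
    exact norm_pos_iff.mp (by linarith)
  have c8 : cosh (8 * ζ) ≠ 0 := by
    have := half_le_norm_cosh (w := 8 * ζ) (by simpa using im_bound h (n := 8) (by norm_num) (by norm_num))
    exact norm_pos_iff.mp (by linarith)
  have c16 : cosh (16 * ζ) ≠ 0 := by
    have := half_le_norm_cosh (w := 16 * ζ) (by simpa using im_bound h (n := 16) (by norm_num) (by norm_num))
    exact norm_pos_iff.mp (by linarith)
  have c32 : cosh (32 * ζ) ≠ 0 := by
    have := half_le_norm_cosh (w := 32 * ζ) (by simpa using im_bound h (n := 32) (by norm_num) (by norm_num))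
    exact norm_pos_iff.mp (by linarith)
  rw [Complex.tanh_eq_sinh_div_cosh, sinh_32, GC]
  simp only [norm_div, norm_mul]
  have n0 := norm_ne_zero_iff.mpr h0
  have n1 := norm_ne_zero_iff.mpr c1
  have n2 := norm_ne_zero_iff.mpr c2
  have n4 := norm_ne_zero_iff.mpr c4
  have n8 := norm_ne_zero_iff.mpr c8
  have n16 := norm_ne_zero_iff.mpr c16
  have n32 := norm_ne_zero_iff.mpr c32
  have n : ‖(32 : ℂ)‖ = 32 := by simp
  rw [n, Real.log_div (by positivity) n32, Real.log_mul (by positivity) n16,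
    Real.log_mul (by positivity) n8, Real.log_mul (by positivity) n4,
    Real.log_mul (by positivity) n2, Real.log_mul (by positivity) n1,
    Real.log_mul (by norm_num) n0]
  ring

/-- Lipschitz bound of the regular part of the core -/
theorem core_disp {ζ a : ℂ} (h : |32 * ζ.im| ≤ Real.pi / 4) (ha : ‖a‖ ≤ 1 / 1536) :
    |GC (ζ + a) - GC ζ| ≤ 1512 * ‖a‖ := by
  have key : ∀ n : ℝ, 0 ≤ n → n ≤ 32 →
      |Real.log ‖cosh ((n : ℂ) * (ζ + a))‖ - Real.log ‖cosh ((n : ℂ) * ζ)‖| ≤ 24 * (n * ‖a‖) := by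
    intro n hn hn'
    rw [mul_add]
    have h1 : ‖(n : ℂ) * a‖ = n * ‖a‖ := by
      rw [norm_mul, Complex.norm_real, Real.norm_of_nonneg hn]
    have h2 := log_cosh_disp (w := (n : ℂ) * ζ) (b := (n : ℂ) * a) (im_bound h hn hn')
      (by rw [h1]; nlinarith [norm_nonneg a])
    rwa [h1] at h2
  have k1 := key 1 (by norm_num) (by norm_num)
  have k2 := key 2 (by norm_num) (by norm_num)
  have k4 := key 4 (by norm_num) (by norm_num)
  have k8 := key 8 (by norm_num) (by norm_num)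
  have k16 := key 16 (by norm_num) (by norm_num)
  have k32 := key 32 (by norm_num) (by norm_num)
  push_cast at k1 k2 k4 k8 k16 k32
  rw [one_mul, one_mul] at k1
  unfold GC
  rw [abs_le] at *
  constructor <;> linarith [k1.1, k1.2, k2.1, k2.2, k4.1, k4.2, k8.1, k8.2, k16.1, k16.2, k32.1, k32.2]

end NUDispR
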