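import Pool.Agent.NUO.Obj
import Pool.Agent.NUO.DispR
import Pool.Agent.NUO.CollT

/-!
# Direct pair functions of the objects, part 1: one pair of constituents

Offsets are integers in units `l / 8 = π / 64`.
-/

set_option autoImplicit false
set_option linter.unusedSimpArgs false
set_option linter.unusedVariables false

noncomputable section

open Complex

namespace NUDirP

open NUP1 NUO NUDispR

/-- the factors of the pair function (own species?, type, type): (offset in units of `l`, exponent) -/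
def fl : Bool → Bool → Bool → List (ℤ × ℤ)
  | true, false, false => [(0, 2), (2, 1), (-2, 1), (1, -1), (-1, -1)]
  | true, true, false => [(0, 1), (-1, 1), (2, 1), (-3, 1)]
  | true, false, true => [(0, 1), (1, 1), (-2, 1), (3, 1)]
  | true, true, true => [(0, 2), (1, 1), (-1, 1), (2, 1), (-2, 1), (3, 1), (-3, 1)]
  | false, false, false => [(4, 2), (3, -2), (-3, -2)]
  | false, true, false => [(-3, -2), (2, -2)]
  | false, false, true => [(3, -2), (-2, -2)]
  | false, true, true => [(3, -2), (-3, -2), (2, -2), (-2, -2)]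

/-- sum over the factors of `m log ‖sin (D + n l)‖` -/
def LF (same a b : Bool) (D : ℂ) : ℝ :=
  ((fl same a b).map fun p => (p.2 : ℝ) * Real.log ‖sin (D + (p.1 : ℂ) * l)‖).sum

/-- all factors are nonzero -/
def NZ (same a b : Bool) (D : ℂ) : Prop := ∀ p ∈ fl same a b, sin (D + (p.1 : ℂ) * l) ≠ 0

lemma log_mulC {a b : ℂ} (ha : a ≠ 0) (hb : b ≠ 0) :
    Real.log ‖a * b‖ = Real.log ‖a‖ + Real.log ‖b‖ := by
  rw [norm_mul, Real.log_mul (norm_ne_zero_iff.2 ha) (norm_ne_zero_iff.2 hb)]

lemma log_divC {a b : ℂ} (ha : a ≠ 0) (hb : b ≠ 0) :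
    Real.log ‖a / b‖ = Real.log ‖a‖ - Real.log ‖b‖ := by
  rw [norm_div, Real.log_div (norm_ne_zero_iff.2 ha) (norm_ne_zero_iff.2 hb)]

lemma log_powC {a : ℂ} (n : ℕ) : Real.log ‖a ^ n‖ = n * Real.log ‖a‖ := by
  rw [norm_pow, Real.log_pow]

lemma eight_l : (8 : ℂ) * (l : ℂ) = Real.pi := by
  unfold l; push_cast; ring

lemma cos_eq (z : ℂ) : cos z = sin (z + 4 * l) := by
  have : (4 : ℂ) * (l : ℂ) = Real.pi / 2 := by unfold l; push_cast; ring
  rw [this, Complex.sin_add_pi_div_two]

lemma sin_add_8 (z : ℂ) : sin (z + 8 * l) = - sin z := by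
  rw [eight_l, Complex.sin_add_pi]

lemma norm_neg_sin (z : ℂ) : ‖sin (-z)‖ = ‖sin z‖ := by rw [Complex.sin_neg, norm_neg]

lemma add_neg_two (z : ℂ) : z + -2 * (l : ℂ) = z - 2 * l := by ring
lemma add_neg_one (z : ℂ) : z + -1 * (l : ℂ) = z - l := by ring
lemma add_one' (z : ℂ) : z + 1 * (l : ℂ) = z + l := by ring
lemma add_zero' (z : ℂ) : z + 0 * (l : ℂ) = z := by ring
lemma add_neg_three (z : ℂ) : z + -3 * (l : ℂ) = z - 3 * l := by ring

/-- `q` -/
lemma q_log {z : ℂ} (h : q z ≠ 0) : NZ true false false z ∧ Real.log ‖q z‖ = LF true false false z := by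
  have h1 : sin z ≠ 0 := fun e => h (by simp [q, e])
  have h2 : sin (z + 2 * l) ≠ 0 := fun e => h (by simp [q, e])
  have h3 : sin (z - 2 * l) ≠ 0 := fun e => h (by simp [q, e])
  have h4 : sin (z + l) ≠ 0 := fun e => h (by simp [q, e])
  have h5 : sin (z - l) ≠ 0 := fun e => h (by simp [q, e])
  constructor
  · intro p hp
    simp only [fl, List.mem_cons, List.not_mem_nil, or_false] at hp
    rcases hp with rfl | rfl | rfl | rfl | rfl <;> push_cast <;>
      (try simp only [add_neg_two, add_neg_one, add_one', add_zero', add_neg_three]) <;> assumption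
  · unfold q LF
    simp only [fl, List.map_cons, List.map_nil, List.sum_cons, List.sum_nil]
    push_cast
    simp only [add_neg_two, add_neg_one, add_one', add_zero', add_neg_three]
    rw [neg_div, norm_neg, log_divC (by simp [h1, h2, h3]) (by simp [h4, h5]),
      log_mulC (by simp [h1, h2]) h3, log_mulC (by simp [h1]) h2, log_powC, log_mulC h4 h5]
    push_cast
    ring

/-- `q1` -/
lemma q1_log {z : ℂ} (h : q1 z ≠ 0) : NZ true false true z ∧ Real.log ‖q1 z‖ = LF true false true z := by
  have h1 : sin z ≠ 0 := fun e => h (by simp [q1, e])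
  have h2 : sin (z + l) ≠ 0 := fun e => h (by simp [q1, e])
  have h3 : sin (z - 2 * l) ≠ 0 := fun e => h (by simp [q1, e])
  have h4 : sin (z + 3 * l) ≠ 0 := fun e => h (by simp [q1, e])
  constructor
  · intro p hp
    simp only [fl, List.mem_cons, List.not_mem_nil, or_false] at hp
    rcases hp with rfl | rfl | rfl | rfl <;> push_cast <;>
      (try simp only [add_neg_two, add_neg_one, add_one', add_zero', add_neg_three]) <;> assumption
  · unfold q1 LF
    simp only [fl, List.map_cons, List.map_nil, List.sum_cons, List.sum_nil]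
    push_cast
    simp only [add_neg_two, add_neg_one, add_one', add_zero', add_neg_three]
    rw [log_mulC (by simp [h1, h2, h3]) h4, log_mulC (by simp [h1, h2]) h3, log_mulC h1 h2]
    ring

/-- `q1 (-z)` -/
lemma q1n_log {z : ℂ} (h : q1 (-z) ≠ 0) :
    NZ true true false z ∧ Real.log ‖q1 (-z)‖ = LF true true false z := by
  have e1 : ‖sin (-z)‖ = ‖sin z‖ := norm_neg_sin z
  have e2 : ‖sin (-z + l)‖ = ‖sin (z - l)‖ := by rw [← norm_neg_sin (z - l)]; ring_nf
  have e3 : ‖sin (-z - 2 * l)‖ = ‖sin (z + 2 * l)‖ := by rw [← norm_neg_sin (z + 2 * l)]; ring_nf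
  have e4 : ‖sin (-z + 3 * l)‖ = ‖sin (z - 3 * l)‖ := by rw [← norm_neg_sin (z - 3 * l)]; ring_nf
  obtain ⟨h0, hl⟩ := q1_log h
  have g1 : sin (-z) ≠ 0 := fun e => h (by simp [q1] at *; simp [e])
  have g2 : sin (-z + l) ≠ 0 := fun e => h (by simp [q1, e])
  have g3 : sin (-z - 2 * l) ≠ 0 := fun e => h (by simp [q1, e])
  have g4 : sin (-z + 3 * l) ≠ 0 := fun e => h (by simp [q1, e])
  have h1 : sin z ≠ 0 := by rw [← norm_ne_zero_iff] at g1 ⊢; rwa [← e1]
  have h2 : sin (z - l) ≠ 0 := by rw [← norm_ne_zero_iff] at g2 ⊢; rwa [← e2]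
  have h3 : sin (z + 2 * l) ≠ 0 := by rw [← norm_ne_zero_iff] at g3 ⊢; rwa [← e3]
  have h4 : sin (z - 3 * l) ≠ 0 := by rw [← norm_ne_zero_iff] at g4 ⊢; rwa [← e4]
  constructor
  · intro p hp
    simp only [fl, List.mem_cons, List.not_mem_nil, or_false] at hp
    rcases hp with rfl | rfl | rfl | rfl <;> push_cast <;>
      (try simp only [add_neg_two, add_neg_one, add_one', add_zero', add_neg_three]) <;> assumption
  · rw [hl]
    unfold LF
    simp only [fl, List.map_cons, List.map_nil, List.sum_cons, List.sum_nil]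
    push_cast
    simp only [add_neg_two, add_neg_one, add_one', add_zero', add_neg_three]
    rw [e1, e2, e3, e4]

/-- `q2` -/
lemma q2_log {z : ℂ} (h : q2 z ≠ 0) : NZ true true true z ∧ Real.log ‖q2 z‖ = LF true true true z := by
  have ha : q1 z ≠ 0 := left_ne_zero_of_mul h
  have hb : q1 (z - l) ≠ 0 := right_ne_zero_of_mul h
  have h1 : sin z ≠ 0 := fun e => ha (by simp [q1, e])
  have h2 : sin (z + l) ≠ 0 := fun e => ha (by simp [q1, e])
  have h3 : sin (z - 2 * l) ≠ 0 := fun e => ha (by simp [q1, e])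
  have h4 : sin (z + 3 * l) ≠ 0 := fun e => ha (by simp [q1, e])
  have k1 : sin (z - l) ≠ 0 := fun e => hb (by simp [q1, e])
  have k3 : sin (z - 3 * l) ≠ 0 := fun e => hb (by
    have : z - l - 2 * l = z - 3 * l := by ring
    simp [q1, this, e])
  have k4 : sin (z + 2 * l) ≠ 0 := fun e => hb (by
    have : z - l + 3 * l = z + 2 * l := by ring
    simp [q1, this, e])
  constructor
  · intro p hp
    simp only [fl, List.mem_cons, List.not_mem_nil, or_false] at hp
    rcases hp with rfl | rfl | rfl | rfl | rfl | rfl | rfl <;> push_cast <;>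
      (try simp only [add_neg_two, add_neg_one, add_one', add_zero', add_neg_three]) <;> assumption
  · have e : q2 z = (sin z * sin (z + l) * sin (z - 2 * l) * sin (z + 3 * l)) *
        (sin (z - l) * sin z * sin (z - 3 * l) * sin (z + 2 * l)) := by
      unfold q2 q1
      rw [show z - l + l = z by ring, show z - l - 2 * l = z - 3 * l by ring,
        show z - l + 3 * l = z + 2 * l by ring]
    rw [e]
    unfold LF
    simp only [fl, List.map_cons, List.map_nil, List.sum_cons, List.sum_nil]
    push_cast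
    simp only [add_neg_two, add_neg_one, add_one', add_zero', add_neg_three]
    rw [log_mulC (by simp [h1, h2, h3, h4]) (by simp [k1, h1, k3, k4]),
      log_mulC (by simp [h1, h2, h3]) h4, log_mulC (by simp [h1, h2]) h3, log_mulC h1 h2,
      log_mulC (by simp [k1, h1, k3]) k4, log_mulC (by simp [k1, h1]) k3, log_mulC k1 h1]
    ring

/-- `qg` -/
lemma qg_log {z : ℂ} (h : Bd.qg z ≠ 0) :
    NZ false false false z ∧ Real.log ‖Bd.qg z‖ = LF false false false z := by
  have h1 : sin (z + 4 * l) ≠ 0 := fun e => h (by simp [Bd.qg, cos_eq, e])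
  have h2 : sin (z + 3 * l) ≠ 0 := fun e => h (by simp [Bd.qg, e])
  have h3 : sin (z - 3 * l) ≠ 0 := fun e => h (by simp [Bd.qg, e])
  constructor
  · intro p hp
    simp only [fl, List.mem_cons, List.not_mem_nil, or_false] at hp
    rcases hp with rfl | rfl | rfl <;> push_cast <;>
      (try simp only [add_neg_two, add_neg_one, add_one', add_zero', add_neg_three]) <;> assumption
  · unfold Bd.qg LF
    simp only [fl, List.map_cons, List.map_nil, List.sum_cons, List.sum_nil]
    push_cast
    simp only [add_neg_two, add_neg_one, add_one', add_zero', add_neg_three]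
    rw [cos_eq, log_divC (by simp [h1]) (by simp [h2, h3]), log_mulC (by simp [h2]) (by simp [h3]),
      log_powC, log_powC, log_powC]
    push_cast
    ring

lemma norm_sin_eq (z w : ℂ) (h : z = w + 8 * l ∨ z + 8 * l = w) : ‖sin z‖ = ‖sin w‖ := by
  rcases h with rfl | rfl
  · rw [sin_add_8, norm_neg]
  · rw [sin_add_8, norm_neg]

lemma ne_of_norm {a b : ℂ} (h : ‖a‖ = ‖b‖) (ha : a ≠ 0) : b ≠ 0 := by
  rw [← norm_ne_zero_iff] at ha ⊢; rwa [← h]

/-- `qg z * qg (z + l)` -/
lemma ft_log {z : ℂ} (h : Bd.qg z * Bd.qg (z + l) ≠ 0) :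
    NZ false false true z ∧ Real.log ‖Bd.qg z * Bd.qg (z + l)‖ = LF false false true z := by
  have ha : Bd.qg z ≠ 0 := left_ne_zero_of_mul h
  have hb : Bd.qg (z + l) ≠ 0 := right_ne_zero_of_mul h
  have h1 : sin (z + 4 * l) ≠ 0 := fun e => ha (by simp [Bd.qg, cos_eq, e])
  have h2 : sin (z + 3 * l) ≠ 0 := fun e => ha (by simp [Bd.qg, e])
  have h3 : sin (z - 3 * l) ≠ 0 := fun e => ha (by simp [Bd.qg, e])
  have h4 : sin (z - 2 * l) ≠ 0 := fun e => hb (by
    have : z + l - 3 * l = z - 2 * l := by ring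
    simp [Bd.qg, this, e])
  obtain ⟨_, la⟩ := qg_log ha
  obtain ⟨_, lb⟩ := qg_log hb
  constructor
  · intro p hp
    simp only [fl, List.mem_cons, List.not_mem_nil, or_false] at hp
    rcases hp with rfl | rfl <;> push_cast <;>
      (try simp only [add_neg_two, add_neg_one, add_one', add_zero', add_neg_three]) <;> assumption
  · rw [log_mulC ha hb, la, lb]
    unfold LF
    simp only [fl, List.map_cons, List.map_nil, List.sum_cons, List.sum_nil]
    push_cast
    simp only [add_neg_two, add_neg_one, add_one', add_zero', add_neg_three]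
    rw [norm_sin_eq (z + l + 4 * l) (z - 3 * l) (Or.inl (by ring)),
      show z + l + 3 * l = z + 4 * l by ring, show z + (l : ℂ) - 3 * l = z - 2 * l by ring]
    ring

/-- `qg z * qg (z - l)` -/
lemma tf_log {z : ℂ} (h : Bd.qg z * Bd.qg (z - l) ≠ 0) :
    NZ false true false z ∧ Real.log ‖Bd.qg z * Bd.qg (z - l)‖ = LF false true false z := by
  have ha : Bd.qg z ≠ 0 := left_ne_zero_of_mul h
  have hb : Bd.qg (z - l) ≠ 0 := right_ne_zero_of_mul h
  have h3 : sin (z - 3 * l) ≠ 0 := fun e => ha (by simp [Bd.qg, e])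
  have h4 : sin (z + 2 * l) ≠ 0 := fun e => hb (by
    have : z - l + 3 * l = z + 2 * l := by ring
    simp [Bd.qg, this, e])
  obtain ⟨_, la⟩ := qg_log ha
  obtain ⟨_, lb⟩ := qg_log hb
  constructor
  · intro p hp
    simp only [fl, List.mem_cons, List.not_mem_nil, or_false] at hp
    rcases hp with rfl | rfl <;> push_cast <;>
      (try simp only [add_neg_two, add_neg_one, add_one', add_zero', add_neg_three]) <;> assumption
  · rw [log_mulC ha hb, la, lb]
    unfold LF
    simp only [fl, List.map_cons, List.map_nil, List.sum_cons, List.sum_nil]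
    push_cast
    simp only [add_neg_two, add_neg_one, add_one', add_zero', add_neg_three]
    rw [norm_sin_eq (z - l - 3 * l) (z + 4 * l) (Or.inr (by ring)),
      show z - l + 4 * l = z + 3 * (l : ℂ) by ring, show z - l + 3 * l = z + 2 * (l : ℂ) by ring]
    ring

/-- string - string of different species -/
lemma tt_log {z : ℂ} (h : Bd.qg z * Bd.qg z * (Bd.qg (z + l) * Bd.qg (z - l)) ≠ 0) :
    NZ false true true z ∧
      Real.log ‖Bd.qg z * Bd.qg z * (Bd.qg (z + l) * Bd.qg (z - l))‖ = LF false true true z := by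
  have ha : Bd.qg z * Bd.qg (z + l) ≠ 0 := by
    intro e; apply h
    linear_combination (Bd.qg z * Bd.qg (z - l)) * e
  have hb : Bd.qg z * Bd.qg (z - l) ≠ 0 := by
    intro e; apply h
    linear_combination (Bd.qg z * Bd.qg (z + l)) * e
  obtain ⟨na, la⟩ := ft_log ha
  obtain ⟨nb, lb⟩ := tf_log hb
  have e : Bd.qg z * Bd.qg z * (Bd.qg (z + l) * Bd.qg (z - l)) =
      (Bd.qg z * Bd.qg (z + l)) * (Bd.qg z * Bd.qg (z - l)) := by ring
  constructor
  · intro p hp
    simp only [fl, List.mem_cons, List.not_mem_nil, or_false] at hp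
    rcases hp with rfl | rfl | rfl | rfl
    · exact na (3, -2) (by simp [fl])
    · exact nb (-3, -2) (by simp [fl])
    · exact nb (2, -2) (by simp [fl])
    · exact na (-2, -2) (by simp [fl])
  · rw [e, log_mulC ha hb, la, lb]
    unfold LF
    simp only [fl, List.map_cons, List.map_nil, List.sum_cons, List.sum_nil]
    ring

/-- **logarithm of the pair function of two constituents** -/
theorem pp_log (a b : Bool × Bool × ℂ) (h : pp a b ≠ 0) :
    NZ (a.1 == b.1) a.2.1 b.2.1 (a.2.2 - b.2.2) ∧
      Real.log ‖pp a b‖ = LF (a.1 == b.1) a.2.1 b.2.1 (a.2.2 - b.2.2) := by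
  obtain ⟨s, τ, u⟩ := a
  obtain ⟨s', τ', v⟩ := b
  simp only [pp] at h ⊢
  by_cases hs : s = s'
  · subst hs
    rw [if_pos rfl] at h ⊢
    rw [beq_self_eq_true]
    cases τ <;> cases τ' <;> simp only [Kn.pz] at h ⊢
    · exact q_log h
    · exact q1_log h
    · exact q1n_log h
    · exact q2_log h
  · rw [if_neg hs] at h ⊢
    rw [beq_eq_false_iff_ne.2 hs]
    cases τ <;> cases τ' <;> simp only [Kn.cz] at h ⊢
    · exact qg_log h
    · exact ft_log h
    · exact tf_log h
    · exact tt_log h

end NUDirP
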