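import Pool.Agent.NUO.DirP1
import Pool.Agent.NUO.CoreC

/-!
# Direct pair functions of the objects, part 2: displacement of one pair of constituents
-/

set_option autoImplicit false
set_option linter.unusedSimpArgs false
set_option linter.unusedVariables false

noncomputable section

open Complex

namespace NUDirP

open NUP1 NUO NUDispR

/-- regular part of a factor, offset `x` in units `l / 8`; the core scale is `2 ^ K` -/
def sl (K : ℕ) (x : ℤ) (t : ℝ) : ℝ :=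
  if (64 : ℤ) ∣ x then GCn K (t : ℂ) else Real.log ‖sin (((x : ℝ) * (l / 8) : ℝ) + (t : ℂ) * I)‖

/-- the core -/
def lam (K : ℕ) (ζ : ℂ) : ℝ := Real.log ‖tanh (2 ^ K * ζ)‖

lemma l8 : l / 8 = Real.pi / 64 := by unfold l; ring

/-- offsets which are not multiples of `8 l` are bounded away from the zeros -/
lemma sin_ge {x : ℤ} (hx : ¬ (64 : ℤ) ∣ x) : 1 / 32 ≤ |Real.sin ((x : ℝ) * (l / 8))| := by
  have hpi := Real.pi_pos
  set q : ℤ := x / 64 with hq
  set s : ℤ := x % 64 with hs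
  have h1 : x = 64 * q + s := by omega
  have h2 : 0 < s := by
    rcases (Int.emod_nonneg x (by norm_num : (64 : ℤ) ≠ 0)).lt_or_eq with h | h
    · exact h
    · exact absurd (Int.dvd_of_emod_eq_zero h.symm) hx
  have h3 : s < 64 := Int.emod_lt_of_pos x (by norm_num)
  have h4 : (x : ℝ) * (l / 8) = s * (Real.pi / 64) + q * Real.pi := by
    rw [l8]; rw [h1]; push_cast; ring
  rw [h4, Real.sin_add_int_mul_pi, abs_mul, abs_zpow, abs_neg, abs_one, one_zpow, one_mul]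
  have h5 : (1 : ℝ) ≤ s := by exact_mod_cast h2
  have h6 : (s : ℝ) ≤ 63 := by
    have : s ≤ 63 := by omega
    exact_mod_cast this
  rcases le_total (s : ℝ) 32 with h7 | h7
  · have h8 := Real.mul_le_sin (x := (s : ℝ) * (Real.pi / 64)) (by positivity) (by nlinarith)
    have h9 : 2 / Real.pi * ((s : ℝ) * (Real.pi / 64)) = s / 32 := by field_simp; ring
    rw [h9] at h8
    exact le_trans (by linarith) (le_trans h8 (le_abs_self _))
  · have h8 := Real.mul_le_sin (x := Real.pi - (s : ℝ) * (Real.pi / 64)) (by nlinarith) (by nlinarith)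
    have h9 : 2 / Real.pi * (Real.pi - (s : ℝ) * (Real.pi / 64)) = 2 - s / 32 := by field_simp; ring
    rw [h9, Real.sin_pi_sub] at h8
    exact le_trans (by linarith) (le_trans h8 (le_abs_self _))

lemma norm_sin_ge (a t : ℝ) : |Real.sin a| ≤ ‖sin ((a : ℂ) + t * I)‖ := by
  have h := Bd.le_norm_sin ((a : ℂ) + t * I)
  have h1 : ((a : ℂ) + t * I).re = a := by simp
  rw [h1] at h
  exact le_trans (le_mul_of_one_le_right (abs_nonneg _) (Real.one_le_cosh _)) h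

lemma norm_sin_add_int (k : ℤ) (w : ℂ) : ‖sin ((k : ℂ) * Real.pi + w)‖ = ‖sin w‖ := by
  have h : cos ((k : ℂ) * Real.pi) = ((Real.cos (k * Real.pi) : ℝ) : ℂ) := by push_cast; rfl
  rw [Complex.sin_add, Complex.sin_int_mul_pi, h, zero_mul, zero_add, norm_mul, Complex.norm_real,
    Real.norm_eq_abs, Real.abs_cos_int_mul_pi, one_mul]

lemma norm_sin_sinh (t : ℝ) (δ : ℂ) : ‖sin ((t : ℂ) * I + δ)‖ = ‖sinh ((t : ℂ) - I * δ)‖ := by
  have h : (t : ℂ) * I + δ = ((t : ℂ) - I * δ) * I := by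
    have := Complex.I_mul_I
    linear_combination δ * this
  rw [h, Complex.sin_mul_I, norm_mul, norm_I, mul_one]

/-- displacement of one factor -/
theorem fac_disp {K : ℕ} (hK : 4 ≤ K) {x : ℤ} {t : ℝ} {δ : ℂ} (hδ : 2 ^ K * ‖δ‖ ≤ 1 / 48)
    (hne : sin ((((x : ℝ) * (l / 8) : ℝ) : ℂ) + t * I + δ) ≠ 0) :
    |Real.log ‖sin ((((x : ℝ) * (l / 8) : ℝ) : ℂ) + t * I + δ)‖ -
      ((if (64 : ℤ) ∣ x then lam K ((t : ℂ) - I * δ) else 0) + sl K x t)| ≤ 48 * 2 ^ K * ‖δ‖ := by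
  have hδ0 := norm_nonneg δ
  have h16 : (16 : ℝ) ≤ 2 ^ K := by
    calc (16 : ℝ) = 2 ^ 4 := by norm_num
      _ ≤ 2 ^ K := pow_le_pow_right₀ (by norm_num) hK
  by_cases hx : (64 : ℤ) ∣ x
  · rw [if_pos hx]
    unfold sl
    rw [if_pos hx]
    obtain ⟨k, rfl⟩ := hx
    have e1 : (((((64 * k : ℤ)) : ℝ) * (l / 8) : ℝ) : ℂ) + t * I + δ =
        (k : ℂ) * Real.pi + ((t : ℂ) * I + δ) := by
      rw [l8]; push_cast; ring
    rw [e1] at hne ⊢
    rw [norm_sin_add_int, norm_sin_sinh]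
    have h0 : sinh ((t : ℂ) - I * δ) ≠ 0 := by
      intro h
      apply hne
      have h1 : ‖sin ((k : ℂ) * Real.pi + ((t : ℂ) * I + δ))‖ = 0 := by
        rw [norm_sin_add_int, norm_sin_sinh, h, norm_zero]
      exact norm_eq_zero.1 h1
    have him : |2 ^ K * ((t : ℂ) - I * δ).im| ≤ Real.pi / 4 := by
      have h1 : ((t : ℂ) - I * δ).im = -δ.re := by simp
      rw [h1, abs_mul, abs_neg, abs_of_pos (by positivity)]
      have h2 := Complex.abs_re_le_norm δ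
      have h3 := Real.pi_gt_three
      have h4 : (2 : ℝ) ^ K * |δ.re| ≤ 2 ^ K * ‖δ‖ := by gcongr
      linarith
    have c := core_eqn him h0
    have d := core_dispn (K := K) (ζ := (t : ℂ)) (a := -(I * δ)) (by simp; positivity)
      (by rw [norm_neg, norm_mul, norm_I, one_mul]; exact hδ)
    rw [norm_neg, norm_mul, norm_I, one_mul, ← sub_eq_add_neg, ← c] at d
    unfold lam
    have e2 : Real.log ‖sinh ((t : ℂ) - I * δ)‖ -
        (Real.log ‖tanh (2 ^ K * ((t : ℂ) - I * δ))‖ + GCn K t)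
        = Real.log ‖sinh ((t : ℂ) - I * δ)‖ - Real.log ‖tanh (2 ^ K * ((t : ℂ) - I * δ))‖ -
          GCn K t := by
      ring
    rw [e2]
    exact d
  · rw [if_neg hx, zero_add]
    unfold sl
    rw [if_neg hx]
    have h1 : (1 / 32 : ℝ) ≤ ‖sin ((((x : ℝ) * (l / 8) : ℝ) : ℂ) + t * I)‖ :=
      (sin_ge hx).trans (norm_sin_ge _ _)
    have h2 := log_sin_disp (a := δ) (by norm_num : (0 : ℝ) < 1 / 32) h1 (by nlinarith)
    refine h2.trans ?_
    nlinarith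

/-- multiplicity of the core -/
def m0 (same a b : Bool) (N : ℤ) : ℤ :=
  ((fl same a b).map fun p => if (64 : ℤ) ∣ N + 8 * p.1 then p.2 else 0).sum

/-- regular part of the pair energy of two constituents with difference of offsets `N` -/
def Rc (K : ℕ) (same a b : Bool) (N : ℤ) (t : ℝ) : ℝ :=
  -((fl same a b).map fun p => (p.2 : ℝ) * sl K (N + 8 * p.1) t).sum

lemma deg_le (same a b : Bool) : ((fl same a b).map fun p => |(p.2 : ℝ)|).sum ≤ 8 := by
  cases same <;> cases a <;> cases b <;> simp [fl] <;> norm_num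

lemma list_disp {K : ℕ} (hK : 4 ≤ K) (L : List (ℤ × ℤ)) {N : ℤ} {t : ℝ} {δ : ℂ}
    (hδ : 2 ^ K * ‖δ‖ ≤ 1 / 48)
    (h : ∀ p ∈ L, sin ((((N : ℝ) * (l / 8) : ℝ) : ℂ) + t * I + δ + (p.1 : ℂ) * l) ≠ 0) :
    |(L.map fun p => (p.2 : ℝ) *
        Real.log ‖sin ((((N : ℝ) * (l / 8) : ℝ) : ℂ) + t * I + δ + (p.1 : ℂ) * l)‖).sum -
      (((L.map fun p => if (64 : ℤ) ∣ N + 8 * p.1 then p.2 else 0).sum : ℤ) *
        lam K ((t : ℂ) - I * δ) + (L.map fun p => (p.2 : ℝ) * sl K (N + 8 * p.1) t).sum)| ≤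
      (L.map fun p => |(p.2 : ℝ)|).sum * (48 * 2 ^ K * ‖δ‖) := by
  induction L with
  | nil => simp
  | cons p L ih =>
    have h1 := ih fun p' hp' => h p' (List.mem_cons_of_mem _ hp')
    have h2 := h p List.mem_cons_self
    have e : (((N : ℝ) * (l / 8) : ℝ) : ℂ) + t * I + δ + (p.1 : ℂ) * l =
        ((((N + 8 * p.1 : ℤ) : ℝ) * (l / 8) : ℝ) : ℂ) + t * I + δ := by
      push_cast; ring
    rw [e] at h2
    have h3 := fac_disp hK hδ h2
    simp only [List.map_cons, List.sum_cons]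
    rw [e]
    have h4 : |(p.2 : ℝ) * Real.log ‖sin (((((N + 8 * p.1 : ℤ) : ℝ) * (l / 8) : ℝ) : ℂ) + t * I + δ)‖ -
        (((if (64 : ℤ) ∣ N + 8 * p.1 then p.2 else 0 : ℤ) : ℝ) * lam K ((t : ℂ) - I * δ) +
          (p.2 : ℝ) * sl K (N + 8 * p.1) t)| ≤ |(p.2 : ℝ)| * (48 * 2 ^ K * ‖δ‖) := by
      have e2 : (((if (64 : ℤ) ∣ N + 8 * p.1 then p.2 else 0 : ℤ) : ℝ) * lam K ((t : ℂ) - I * δ) +
          (p.2 : ℝ) * sl K (N + 8 * p.1) t) = (p.2 : ℝ) *
          ((if (64 : ℤ) ∣ N + 8 * p.1 then lam K ((t : ℂ) - I * δ) else 0) + sl K (N + 8 * p.1) t) := by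
        split_ifs <;> push_cast <;> ring
      rw [e2, ← mul_sub, abs_mul]
      exact mul_le_mul_of_nonneg_left h3 (abs_nonneg _)
    rw [add_mul (|(p.2 : ℝ)|)]
    refine le_trans (le_of_eq ?_) ((abs_add_le _ _).trans (add_le_add h4 h1))
    congr 1
    generalize (if (64 : ℤ) ∣ N + 8 * p.1 then p.2 else 0 : ℤ) = A
    generalize (L.map fun p => if (64 : ℤ) ∣ N + 8 * p.1 then p.2 else 0).sum = B
    rw [Int.cast_add A B]
    ring

/-- ext. constituent: (species, type, offset in units `l / 8`, displacement) -/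
abbrev Ec := Bool × Bool × ℤ × ℂ

/-- the constituent at height `t` -/
def toC (t : ℝ) (e : Ec) : Bool × Bool × ℂ :=
  (e.1, e.2.1, (((e.2.2.1 : ℝ) * (l / 8) : ℝ) : ℂ) + t * I + e.2.2.2)

/-- **displacement of a pair of constituents** -/
theorem pair_disp {K : ℕ} (hK : 4 ≤ K) {t t' : ℝ} {a b : Ec} (h : pp (toC t a) (toC t' b) ≠ 0) {D : ℝ}
    (hD : ‖a.2.2.2 - b.2.2.2‖ ≤ D) (hδ : 2 ^ K * D ≤ 1 / 48) :
    |-Real.log ‖pp (toC t a) (toC t' b)‖ -
      (-(m0 (a.1 == b.1) a.2.1 b.2.1 (a.2.2.1 - b.2.2.1) : ℝ) *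
          lam K (((t - t' : ℝ) : ℂ) - I * (a.2.2.2 - b.2.2.2)) +
        Rc K (a.1 == b.1) a.2.1 b.2.1 (a.2.2.1 - b.2.2.1) (t - t'))| ≤ 384 * 2 ^ K * D := by
  obtain ⟨hnz, hlog⟩ := pp_log _ _ h
  have e : (toC t a).2.2 - (toC t' b).2.2 =
      ((((a.2.2.1 - b.2.2.1 : ℤ) : ℝ) * (l / 8) : ℝ) : ℂ) + ((t - t' : ℝ) : ℂ) * I +
        (a.2.2.2 - b.2.2.2) := by
    simp only [toC]; push_cast; ring
  have e1 : (toC t a).1 = a.1 := rfl
  have e2 : (toC t' b).1 = b.1 := rfl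
  have e3 : (toC t a).2.1 = a.2.1 := rfl
  have e4 : (toC t' b).2.1 = b.2.1 := rfl
  rw [hlog, e1, e2, e3, e4]
  rw [e1, e2, e3, e4] at hnz
  unfold NZ at hnz
  rw [e] at hnz ⊢
  have hp : (0 : ℝ) < 2 ^ K := by positivity
  have h1 := list_disp hK (fl (a.1 == b.1) a.2.1 b.2.1) (N := a.2.2.1 - b.2.2.1) (t := t - t')
    (δ := a.2.2.2 - b.2.2.2) ((mul_le_mul_of_nonneg_left hD hp.le).trans hδ) hnz
  unfold LF Rc m0
  have h3 := deg_le (a.1 == b.1) a.2.1 b.2.1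
  have h4 : ((fl (a.1 == b.1) a.2.1 b.2.1).map fun p => |(p.2 : ℝ)|).sum *
      (48 * 2 ^ K * ‖a.2.2.2 - b.2.2.2‖) ≤ 384 * 2 ^ K * D := by
    calc _ ≤ 8 * (48 * 2 ^ K * D) := by
          apply mul_le_mul h3 (by gcongr) (by positivity) (by norm_num)
      _ = _ := by ring
  refine le_trans (le_of_eq ?_) (h1.trans h4)
  rw [← abs_neg]
  congr 1
  ring

end NUDirP
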