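import Pool.Agent.NUO.DirP2

/-!
# Direct pair functions of the objects, part 3: one pair of objects
-/

set_option autoImplicit false
set_option linter.unusedSimpArgs false
set_option linter.unusedVariables false

noncomputable section

open Complex

namespace NUDirP

open NUP1 NUO NUDispR

/-! ### displacement of the core -/

lemma norm_sinh_ge {ζ : ℂ} (h : |ζ.im| ≤ Real.pi / 4) : 4 / 7 * ‖ζ‖ ≤ ‖sinh ζ‖ := by
  have h1 := NUCollT.norm_sinh_sq ζ
  have h2 := NUCollT.sin_sq_ge h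
  have h3 : ζ.re ^ 2 ≤ Real.sinh ζ.re ^ 2 := by
    rw [← sq_abs ζ.re, ← sq_abs (Real.sinh ζ.re), Real.abs_sinh]
    apply pow_le_pow_left₀ (abs_nonneg _)
    exact Real.self_le_sinh_iff.2 (abs_nonneg _)
  have h4 : ‖ζ‖ ^ 2 = ζ.re ^ 2 + ζ.im ^ 2 := by
    rw [← Complex.normSq_eq_norm_sq, Complex.normSq_apply]; ring
  apply le_of_sq_le_sq _ (norm_nonneg _)
  rw [mul_pow, h4, h1]
  nlinarith [sq_nonneg ζ.re, sq_nonneg ζ.im]

theorem lam_disp {K : ℕ} {ζ δ : ℂ} (him : |2 ^ K * ζ.im| ≤ Real.pi / 4)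
    (him' : |2 ^ K * (ζ + δ).im| ≤ Real.pi / 4)
    (hζ : ζ ≠ 0) (h1 : ‖δ‖ ≤ ‖ζ‖ / 32) (h2 : 2 ^ K * ‖δ‖ ≤ 1 / 48) (h3 : ‖δ‖ ≤ 1 / 200) :
    |lam K (ζ + δ) - lam K ζ| ≤ 14 * (‖δ‖ / ‖ζ‖) + (8 + 48 * 2 ^ K) * ‖δ‖ := by
  have hz : 0 < ‖ζ‖ := norm_pos_iff.2 hζ
  have hδ0 := norm_nonneg δ
  have hp1 : (1 : ℝ) ≤ 2 ^ K := one_le_pow₀ (by norm_num)
  have him1 : |ζ.im| ≤ Real.pi / 4 := by
    rw [abs_mul, abs_of_pos (by positivity)] at him
    nlinarith [abs_nonneg ζ.im]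
  have hk := norm_sinh_ge him1
  have hkp : 0 < 4 / 7 * ‖ζ‖ := by positivity
  have e1 : ‖sin (ζ * I)‖ = ‖sinh ζ‖ := by rw [Complex.sin_mul_I, norm_mul, norm_I, mul_one]
  have e2 : ‖sin (ζ * I + δ * I)‖ = ‖sinh (ζ + δ)‖ := by
    rw [← add_mul, Complex.sin_mul_I, norm_mul, norm_I, mul_one]
  have e3 : 1 / (4 / 7 * ‖ζ‖) = 7 / 4 * (1 / ‖ζ‖) := by field_simp
  have hd : ‖δ‖ / ‖ζ‖ ≤ 1 / 32 := by rw [div_le_iff₀ hz]; linarith
  have hcond : ‖δ * I‖ * (1 + 1 / (4 / 7 * ‖ζ‖)) ≤ 1 / 16 := by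
    rw [norm_mul, norm_I, mul_one, e3]
    have : ‖δ‖ * (1 + 7 / 4 * (1 / ‖ζ‖)) = ‖δ‖ + 7 / 4 * (‖δ‖ / ‖ζ‖) := by ring
    rw [this]
    linarith
  have hk' : 4 / 7 * ‖ζ‖ ≤ ‖sin (ζ * I)‖ := by rw [e1]; exact hk
  have a1 := log_sin_disp hkp hk' hcond
  have a2 := sin_ne_zero_of_disp hkp hk' hcond
  rw [e1, e2, norm_mul, norm_I, mul_one, e3] at a1
  have s0 : sinh ζ ≠ 0 := norm_pos_iff.1 (lt_of_lt_of_le hkp hk)
  have s1 : sinh (ζ + δ) ≠ 0 := by
    rw [← norm_ne_zero_iff, ← e2, norm_ne_zero_iff]; exact a2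
  have c0 := core_eqn him s0
  have c1 := core_eqn him' s1
  have c2 := core_dispn (a := δ) him h2
  have e4 : lam K (ζ + δ) - lam K ζ = (Real.log ‖sinh (ζ + δ)‖ - Real.log ‖sinh ζ‖) -
      (GCn K (ζ + δ) - GCn K ζ) := by
    unfold lam; rw [← c0, ← c1]; ring
  rw [e4]
  refine (abs_sub _ _).trans ?_
  have e5 : 8 * ‖δ‖ * (1 + 7 / 4 * (1 / ‖ζ‖)) = 8 * ‖δ‖ + 14 * (‖δ‖ / ‖ζ‖) := by ring
  rw [e5] at a1
  linarith

/-! ### sums over lists -/

/-- double sum over two lists -/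
def S2 {α β : Type*} (A : List α) (B : List β) (f : α → β → ℝ) : ℝ :=
  (A.map fun a => (B.map fun b => f a b).sum).sum

lemma S2_nil {α β : Type*} (B : List β) (f : α → β → ℝ) : S2 [] B f = 0 := rfl

lemma S2_cons {α β : Type*} (a : α) (A : List α) (B : List β) (f : α → β → ℝ) :
    S2 (a :: A) B f = (B.map fun b => f a b).sum + S2 A B f := by simp [S2]

lemma sum_map_le {β : Type*} (B : List β) (f g : β → ℝ) (E : ℝ) (h : ∀ b ∈ B, f b ≤ g b + E) :
    (B.map f).sum ≤ (B.map g).sum + B.length * E := by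
  induction B with
  | nil => simp
  | cons b B ih =>
    have h1 := ih fun b' hb' => h b' (List.mem_cons_of_mem _ hb')
    have h2 := h b List.mem_cons_self
    simp only [List.map_cons, List.sum_cons, List.length_cons]
    push_cast
    linarith

lemma S2_le {α β : Type*} (A : List α) (B : List β) (f g : α → β → ℝ) (E : ℝ)
    (h : ∀ a ∈ A, ∀ b ∈ B, f a b ≤ g a b + E) :
    S2 A B f ≤ S2 A B g + A.length * (B.length * E) :=
  sum_map_le A _ _ _ fun a ha => sum_map_le B _ _ _ fun b hb => h a ha b hb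

lemma S2_nonneg {α β : Type*} (A : List α) (B : List β) (f : α → β → ℝ)
    (h : ∀ a ∈ A, ∀ b ∈ B, 0 ≤ f a b) : 0 ≤ S2 A B f := by
  refine List.sum_nonneg fun x hx => ?_
  obtain ⟨a, ha, rfl⟩ := List.mem_map.1 hx
  refine List.sum_nonneg fun y hy => ?_
  obtain ⟨b, hb, rfl⟩ := List.mem_map.1 hy
  exact h a ha b hb

lemma S2_add {α β : Type*} (A : List α) (B : List β) (f g : α → β → ℝ) :
    S2 A B (fun a b => f a b + g a b) = S2 A B f + S2 A B g := by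
  simp only [S2, List.sum_map_add]

lemma log_list_prod (L : List ℝ) (h : ∀ x ∈ L, x ≠ 0) :
    L.prod ≠ 0 ∧ Real.log L.prod = (L.map Real.log).sum := by
  induction L with
  | nil => simp
  | cons x L ih =>
    obtain ⟨h1, h2⟩ := ih fun y hy => h y (List.mem_cons_of_mem _ hy)
    have h3 := h x List.mem_cons_self
    simp only [List.prod_cons, List.map_cons, List.sum_cons]
    exact ⟨mul_ne_zero h3 h1, by rw [Real.log_mul h3 h1, h2]⟩

lemma log_ppN {A B : List (Bool × Bool × ℂ)} (h : 0 < ppN A B) :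
    (∀ a ∈ A, ∀ b ∈ B, pp a b ≠ 0) ∧ Real.log (ppN A B) = S2 A B fun a b => Real.log ‖pp a b‖ := by
  have h1 : ∀ x ∈ A.map fun a => (B.map fun b => ‖pp a b‖).prod, x ≠ 0 := by
    intro x hx hx0
    apply h.ne'
    unfold ppN
    exact List.prod_eq_zero (hx0 ▸ hx)
  have h2 : ∀ a ∈ A, ∀ b ∈ B, ‖pp a b‖ ≠ 0 := by
    intro a ha b hb hab
    apply h1 _ (List.mem_map.2 ⟨a, ha, rfl⟩)
    apply List.prod_eq_zero
    exact List.mem_map.2 ⟨b, hb, hab⟩
  refine ⟨fun a ha b hb => norm_ne_zero_iff.1 (h2 a ha b hb), ?_⟩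
  unfold ppN S2
  rw [(log_list_prod _ h1).2, List.map_map]
  congr 1
  apply List.map_congr_left
  intro a ha
  simp only [Function.comp]
  have h3 : ∀ x ∈ B.map fun b => ‖pp a b‖, x ≠ 0 := by
    intro x hx
    obtain ⟨b, hb, rfl⟩ := List.mem_map.1 hx
    exact h2 a ha b hb
  rw [(log_list_prod _ h3).2, List.map_map]
  rfl

/-! ### reference constituents -/

/-- reference constituents: (species, type, offset in units `l / 8`), `e = ne / 8`, `jL = nL / 8` -/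
def rp (ne nL : ℤ) (s : Bool) : Kind → List (Bool × Bool × ℤ)
  | .L => [(s, false, 8 - nL)]
  | .St => [(s, true, -4)]
  | .S => [(s, true, -(8 + ne))]
  | .Sv => [(s, true, -(8 + ne)), (!s, false, 8 - ne)]
  | .Svv => [(s, true, -(8 + ne)), (!s, false, 8 - ne), (!s, false, 8 - ne)]

/-- constituents with displacements -/
def dp (ne nL : ℤ) (s : Bool) (k : Kind) (κ ε : ℂ) : List Ec :=
  match k with
  | .L => [(s, false, 8 - nL, 0)]
  | .St => [(s, true, -4, 0)]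
  | .S => [(s, true, -(8 + ne), κ)]
  | .Sv => [(s, true, -(8 + ne), κ), (!s, false, 8 - ne, κ + ε)]
  | .Svv => [(s, true, -(8 + ne), κ), (!s, false, 8 - ne, κ), (!s, false, 8 - ne, κ)]

/-- the direct pair energy of two objects at the reference positions, core removed
(`same` = same species) -/
def Rdir (K : ℕ) (ne nL : ℤ) (same : Bool) (k k' : Kind) (t : ℝ) : ℝ :=
  S2 (rp ne nL true k) (rp ne nL same k')
    fun a b => Rc K (a.1 == b.1) a.2.1 b.2.1 (a.2.2 - b.2.2) t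

lemma Rdir_eq (K : ℕ) (ne nL : ℤ) (s s' : Bool) (k k' : Kind) (κ ε κ' ε' : ℂ) (t : ℝ) :
    S2 (dp ne nL s k κ ε) (dp ne nL s' k' κ' ε')
      (fun a b => Rc K (a.1 == b.1) a.2.1 b.2.1 (a.2.2.1 - b.2.2.1) t) =
      Rdir K ne nL (s == s') k k' t := by
  cases s <;> cases s' <;> cases k <;> cases k' <;> rfl

/-- the kinds `S`, `Sv`, `Svv` -/
def Sf : Kind → Bool
  | .L => false
  | .St => false
  | _ => true

/-- charge -/
def Qc : Kind → ℤ
  | .S => -1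
  | .Svv => 1
  | _ => 0

/-- no attractive core outside the family `S`, `Sv`, `Svv` of one species -/
def Good (ne nL : ℤ) : Prop := ∀ (same : Bool) (k k' : Kind), ¬(same = true ∧ Sf k = true ∧ Sf k' = true) →
  ∀ a ∈ rp ne nL true k, ∀ b ∈ rp ne nL same k', 0 ≤ m0 (a.1 == b.1) a.2.1 b.2.1 (a.2.2 - b.2.2)

instance (ne nL : ℤ) : Decidable (Good ne nL) := by unfold Good; infer_instance

theorem good_2_18 : Good 2 18 := by decide
theorem good_2_17 : Good 2 17 := by decide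
theorem good_3_18 : Good 3 18 := by decide
theorem good_4_20 : Good 4 20 := by decide

lemma dp_mem {ne nL : ℤ} {s : Bool} {k : Kind} {κ ε : ℂ} {a : Ec} (h : a ∈ dp ne nL s k κ ε) :
    (a.1, a.2.1, a.2.2.1) ∈ rp ne nL s k := by
  cases k <;> simp only [dp, rp, List.mem_cons, List.not_mem_nil, or_false] at h ⊢
  · rw [h]
  · rw [h]
  · rw [h]
  · rcases h with h | h <;> simp [h]
  · rcases h with h | h | h <;> simp [h]

lemma dp_length (ne nL : ℤ) (s : Bool) (k : Kind) (κ ε : ℂ) : (dp ne nL s k κ ε).length ≤ 3 := by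
  cases k <;> simp [dp]

lemma rp_flip (ne nL : ℤ) (s : Bool) (k : Kind) (a : Bool × Bool × ℤ) (h : a ∈ rp ne nL s k) :
    (!a.1, a.2.1, a.2.2) ∈ rp ne nL (!s) k := by
  cases k <;> simp only [rp, List.mem_cons, List.not_mem_nil, or_false] at h ⊢
  · rw [h]
  · rw [h]
  · rw [h]
  · rcases h with h | h <;> simp [h]
  · rcases h with h | h | h <;> simp [h]

lemma good_dp {ne nL : ℤ} (hG : Good ne nL) {s s' : Bool} {k k' : Kind} {κ ε κ' ε' : ℂ}
    (h : ¬(s = s' ∧ Sf k = true ∧ Sf k' = true)) {a b : Ec} (ha : a ∈ dp ne nL s k κ ε)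
    (hb : b ∈ dp ne nL s' k' κ' ε') : 0 ≤ m0 (a.1 == b.1) a.2.1 b.2.1 (a.2.2.1 - b.2.2.1) := by
  have ha1 := dp_mem ha
  have hb1 := dp_mem hb
  cases s
  · have ha2 := rp_flip _ _ _ _ _ ha1
    have hb2 := rp_flip _ _ _ _ _ hb1
    have := hG (!s') k k' (by
      intro h'; apply h
      refine ⟨?_, h'.2⟩
      cases s' <;> simp_all) _ ha2 _ hb2
    have e : ((!a.1) == !b.1) = (a.1 == b.1) := by cases a.1 <;> cases b.1 <;> rfl
    rw [← e]
    exact this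
  · have := hG s' k k' (by
      intro h'; apply h
      exact ⟨h'.1.symm, h'.2⟩) _ ha1 _ hb1
    simpa using this

end NUDirP
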