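import Pool.Agent.NUO.DirP3

/-!
# Direct pair functions of the objects, part 4: lower bound of `-log pairN`
-/

set_option autoImplicit false
set_option linter.unusedSimpArgs false
set_option linter.unusedVariables false

noncomputable section

open Complex

namespace NUDirP

open NUP1 NUO NUDispR

lemma S2_map {α β α' β' : Type*} (A : List α) (B : List β) (f : α → α') (g : β → β')
    (F : α' → β' → ℝ) : S2 (A.map f) (B.map g) F = S2 A B fun a b => F (f a) (g b) := by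
  simp [S2, List.map_map, Function.comp_def]

lemma S2_neg {α β : Type*} (A : List α) (B : List β) (f : α → β → ℝ) :
    S2 A B (fun a b => -f a b) = -S2 A B f := by
  have : ∀ L : List ℝ, (L.map fun x => -x).sum = -L.sum := by
    intro L
    induction L with
    | nil => simp
    | cons x L ih => simp only [List.map_cons, List.sum_cons, ih]; ring
  unfold S2
  rw [← this, List.map_map]
  congr 1
  apply List.map_congr_left
  intro a _
  simp only [Function.comp]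
  rw [← this, List.map_map]
  rfl

/-- the core part of a pair of constituents -/
def cp (K : ℕ) (τ : ℝ) (a b : Ec) : ℝ :=
  -(m0 (a.1 == b.1) a.2.1 b.2.1 (a.2.2.1 - b.2.2.1) : ℝ) * lam K ((τ : ℂ) - I * (a.2.2.2 - b.2.2.2))

theorem pair_gen {K : ℕ} (hK : 4 ≤ K) {ne nL : ℤ} {s s' : Bool} {k k' : Kind}
    {κ ε κ' ε' : ℂ} {t t' D : ℝ} (hD0 : 0 ≤ D)
    (hD : ∀ a ∈ dp ne nL s k κ ε, ∀ b ∈ dp ne nL s' k' κ' ε', ‖a.2.2.2 - b.2.2.2‖ ≤ D)
    (hD1 : 2 ^ K * D ≤ 1 / 48)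
    (hpos : 0 < ppN ((dp ne nL s k κ ε).map (toC t)) ((dp ne nL s' k' κ' ε').map (toC t'))) :
    S2 (dp ne nL s k κ ε) (dp ne nL s' k' κ' ε') (cp K (t - t')) +
      Rdir K ne nL (s == s') k k' (t - t') - 3456 * 2 ^ K * D ≤
      -Real.log (ppN ((dp ne nL s k κ ε).map (toC t)) ((dp ne nL s' k' κ' ε').map (toC t'))) := by
  obtain ⟨hnz, hlog⟩ := log_ppN hpos
  rw [S2_map] at hlog
  rw [hlog, ← S2_neg, ← Rdir_eq K ne nL s s' k k' κ ε κ' ε', ← S2_add]
  have hE : 0 ≤ 384 * 2 ^ K * D := by positivity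
  have h1 := S2_le (dp ne nL s k κ ε) (dp ne nL s' k' κ' ε')
    (fun a b => cp K (t - t') a b + Rc K (a.1 == b.1) a.2.1 b.2.1 (a.2.2.1 - b.2.2.1) (t - t'))
    (fun a b => -Real.log ‖pp (toC t a) (toC t' b)‖) (384 * 2 ^ K * D) (by
      intro a ha b hb
      have h2 := pair_disp hK (t := t) (t' := t') (hnz _ (List.mem_map_of_mem ha) _ (List.mem_map_of_mem hb))
        (hD a ha b hb) hD1
      unfold cp
      have h3 := (abs_le.1 h2).1
      linarith)
  have h4 : ((dp ne nL s k κ ε).length : ℝ) ≤ 3 := by exact_mod_cast dp_length ne nL s k κ ε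
  have h5 : ((dp ne nL s' k' κ' ε').length : ℝ) ≤ 3 := by exact_mod_cast dp_length ne nL s' k' κ' ε'
  have h6 : ((dp ne nL s k κ ε).length : ℝ) * ((dp ne nL s' k' κ' ε').length * (384 * 2 ^ K * D)) ≤
      3456 * 2 ^ K * D := by
    calc _ ≤ 3 * (3 * (384 * 2 ^ K * D)) := by gcongr
      _ = _ := by ring
  linarith

lemma lam_nonpos {K : ℕ} {ζ : ℂ} (h : |2 ^ K * ζ.im| ≤ Real.pi / 4) : lam K ζ ≤ 0 := by
  apply Real.log_nonpos (norm_nonneg _)
  apply NUCollT.norm_tanh_le_one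
  have := im_boundn h le_rfl
  exact this

lemma im_small {K : ℕ} {τ D : ℝ} {δ : ℂ} (hδ : ‖δ‖ ≤ D) (hD : 2 ^ K * D ≤ 1 / 48) :
    |2 ^ K * ((τ : ℂ) - I * δ).im| ≤ Real.pi / 4 := by
  have h1 : ((τ : ℂ) - I * δ).im = -δ.re := by simp
  rw [h1, abs_mul, abs_neg, abs_of_pos (by positivity)]
  have h2 := Complex.abs_re_le_norm δ
  have h3 := Real.pi_gt_three
  have h4 : (2 : ℝ) ^ K * |δ.re| ≤ 2 ^ K * D := by gcongr; linarith
  linarith

/-- outside the family `S`, `Sv`, `Svv` of one species the cores are repulsive -/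
theorem core_good {K : ℕ} {ne nL : ℤ} (hG : Good ne nL) {s s' : Bool} {k k' : Kind}
    {κ ε κ' ε' : ℂ} (h : ¬(s = s' ∧ Sf k = true ∧ Sf k' = true)) {τ D : ℝ}
    (hD : ∀ a ∈ dp ne nL s k κ ε, ∀ b ∈ dp ne nL s' k' κ' ε', ‖a.2.2.2 - b.2.2.2‖ ≤ D)
    (hD1 : 2 ^ K * D ≤ 1 / 48) :
    0 ≤ S2 (dp ne nL s k κ ε) (dp ne nL s' k' κ' ε') (cp K τ) := by
  refine S2_nonneg _ _ _ fun a ha b hb => ?_
  have h1 := good_dp hG h ha hb
  have h2 := lam_nonpos (im_small (τ := τ) (hD a ha b hb) hD1)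
  unfold cp
  have h3 : (0 : ℝ) ≤ m0 (a.1 == b.1) a.2.1 b.2.1 (a.2.2.1 - b.2.2.1) := by exact_mod_cast h1
  nlinarith

/-- is it of kind `Sv`? -/
def xv : Kind → ℝ
  | .Sv => 1
  | _ => 0

lemma xv_nonneg (k : Kind) : 0 ≤ xv k := by cases k <;> simp [xv]

lemma m0_ss (s : Bool) : m0 (s == s) true true 0 = 2 := by cases s <;> decide
lemma m0_sv (s : Bool) : m0 (s == !s) true false (-16) = -2 := by cases s <;> decide
lemma m0_vs (s : Bool) : m0 ((!s) == s) false true 16 = -2 := by cases s <;> decide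
lemma m0_vv (s : Bool) : m0 ((!s) == !s) false false 0 = 2 := by cases s <;> decide

/-- the family `S`, `Sv`, `Svv` of one species: the total charge and the dipole error -/
theorem core_fam {K : ℕ} {ne nL : ℤ} {s : Bool} {k k' : Kind} {κ ε κ' ε' : ℂ} {τ E E' : ℝ}
    (hk : Sf k = true) (hk' : Sf k' = true) (hE0 : 0 ≤ E) (hE0' : 0 ≤ E')
    (h1 : k = Kind.Sv → |lam K ((τ : ℂ) - I * (κ - κ') + -(I * ε)) - lam K ((τ : ℂ) - I * (κ - κ'))| ≤ E)
    (h2 : k' = Kind.Sv → |lam K ((τ : ℂ) - I * (κ - κ') + I * ε') - lam K ((τ : ℂ) - I * (κ - κ'))| ≤ E')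
    (h3 : k = Kind.Sv → k' = Kind.Sv → |lam K ((τ : ℂ) - I * (κ - κ') + -(I * (ε - ε'))) -
      lam K ((τ : ℂ) - I * (κ - κ'))| ≤ E + E') :
    -2 * (Qc k : ℝ) * (Qc k' : ℝ) * lam K ((τ : ℂ) - I * (κ - κ')) - 4 * (xv k * E + xv k' * E') ≤
      S2 (dp ne nL s k κ ε) (dp ne nL s k' κ' ε') (cp K τ) := by
  have a1 : -(8 + ne) - -(8 + ne) = (0 : ℤ) := by ring
  have a2 : -(8 + ne) - (8 - ne) = (-16 : ℤ) := by ring
  have a3 : (8 - ne) - -(8 + ne) = (16 : ℤ) := by ring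
  have a4 : (8 - ne) - (8 - ne) = (0 : ℤ) := by ring
  have c1 : (τ : ℂ) - I * (κ - (κ' + ε')) = (τ : ℂ) - I * (κ - κ') + I * ε' := by ring
  have c2 : (τ : ℂ) - I * (κ + ε - κ') = (τ : ℂ) - I * (κ - κ') + -(I * ε) := by ring
  have c3 : (τ : ℂ) - I * (κ + ε - (κ' + ε')) = (τ : ℂ) - I * (κ - κ') + -(I * (ε - ε')) := by ring
  cases k <;> simp [Sf] at hk <;> cases k' <;> simp [Sf] at hk' <;>
    simp only [dp, S2, cp, List.map_cons, List.map_nil, List.sum_cons, List.sum_nil, a1, a2, a3, a4,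
      m0_ss, m0_sv, m0_vs, m0_vv, c1, c2, c3, Qc, xv] <;> push_cast
  · linarith
  · have := abs_le.1 (h2 rfl)
    linarith [this.1, this.2]
  · linarith
  · have := abs_le.1 (h1 rfl)
    linarith [this.1, this.2]
  · have e1 := abs_le.1 (h1 rfl)
    have e2 := abs_le.1 (h2 rfl)
    have e3 := abs_le.1 (h3 rfl rfl)
    linarith [e1.1, e1.2, e2.1, e2.2, e3.1, e3.2]
  · have := abs_le.1 (h1 rfl)
    linarith [this.1, this.2]
  · linarith
  · have := abs_le.1 (h2 rfl)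
    linarith [this.1, this.2]
  · linarith

end NUDirP
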