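import Pool.Agent.NUO.DirP5

/-!
# Direct pair functions of the objects, part 6: the lower bound and the sum of the cores
-/

set_option autoImplicit false
set_option linter.unusedSimpArgs false
set_option linter.unusedVariables false

noncomputable section

open Complex Finset

namespace NUDirP

open NUP1 NUO NUDispR

/-- **lower bound of the direct energy of two objects** -/
theorem dir_ge {K : ℕ} (hK : 4 ≤ K) {ne nL : ℤ} (hG : Good ne nL) {P : Par} (he : P.e = ne / 8)
    (hj : P.jL = nL / 8) {r : ℕ} (hS : Small K P r) (O : Fin r → Xo) {i j : Fin r} (hij : i ≠ j)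
    (hpos : 0 < pairN P O i j) :
    coreP K P O i j + Rdir K ne nL (sp (O i) == sp (O j)) (kd (O i)) (kd (O j)) (ht (O i) - ht (O j)) -
      1800 * 2 ^ K * P.d r ≤ -Real.log (pairN P O i j) := by
  have hl := NUP1.l_pos
  have hl2 := l_lt
  have hd := hS.d0
  have hd1 := hS.d1
  have hK16 : (16 : ℝ) ≤ 2 ^ K := by
    calc (16 : ℝ) = 2 ^ 4 := by norm_num
      _ ≤ 2 ^ K := pow_le_pow_right₀ (by norm_num) hK
  have hD := disp_le hS O i j (ne := ne) (nL := nL) (s := sp (O i)) (s' := sp (O j))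
    (k := kd (O i)) (k' := kd (O j))
  have hD1 : 2 ^ K * (P.d r / 2) ≤ 1 / 48 := by linarith
  unfold pairN at hpos ⊢
  rw [cons_eq he hj, cons_eq he hj] at hpos ⊢
  have h1 := pair_gen hK (by linarith) hD hD1 hpos
  have e1 : 3456 * 2 ^ K * (P.d r / 2) = 1728 * 2 ^ K * P.d r := by ring
  rw [e1] at h1
  suffices h : coreP K P O i j - 10 * 2 ^ K * P.d r ≤
      S2 (dp ne nL (sp (O i)) (kd (O i)) (kap P O i) (eps P O i))
        (dp ne nL (sp (O j)) (kd (O j)) (kap P O j) (eps P O j)) (cp K (ht (O i) - ht (O j))) by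
    have : 0 < 2 ^ K * P.d r := by positivity
    linarith
  have hp0 : 0 < 2 ^ K * P.d r := by positivity
  by_cases hf : sp (O i) = sp (O j) ∧ Sf (kd (O i)) = true ∧ Sf (kd (O j)) = true
  · obtain ⟨hs, hk, hk'⟩ := hf
    unfold coreP
    rw [if_pos hs]
    set ζ := zt P O i - zt P O j with hζ
    have hr1 : (1 : ℝ) ≤ r := by
      have : 1 ≤ r := by have := i.2; omega
      exact_mod_cast this
    have hr0 : (0 : ℝ) < r := by linarith
    have hrd := one_le_rd O hij hs
    have hge := zt_ge hS O i j hij hs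
    have him := zt_im_le hS O i j
    rw [← hζ] at hge him
    have hz : P.d r * l / r ≤ ‖ζ‖ := by
      rw [div_le_iff₀ hr0]
      nlinarith [mul_pos hd hl]
    have hz0 : 0 < ‖ζ‖ := lt_of_lt_of_le (by positivity) hz
    have hζ0 : ζ ≠ 0 := norm_pos_iff.1 hz0
    have hdl : P.d r * l ≤ 2 / 5 * P.d r := by nlinarith
    have imb : ∀ δ : ℂ, 32 * ‖δ‖ ≤ P.d r * l → |2 ^ K * (ζ + δ).im| ≤ Real.pi / 4 := by
      intro δ hδ
      have h2 := Complex.abs_im_le_norm δ
      have h3 : |(ζ + δ).im| ≤ P.d r / 2 := by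
        rw [Complex.add_im]
        refine (abs_add_le _ _).trans ?_
        linarith
      rw [abs_mul, abs_of_pos (by positivity)]
      have h4 : 2 ^ K * |(ζ + δ).im| ≤ 2 ^ K * (P.d r / 2) := by gcongr
      have := Real.pi_gt_three
      linarith
    have him0 : |2 ^ K * ζ.im| ≤ Real.pi / 4 := by
      have := imb 0 (by simp; positivity)
      simpa using this
    have key : ∀ δ : ℂ, 32 * (r * ‖δ‖) ≤ P.d r * l →
        |lam K (ζ + δ) - lam K ζ| ≤ 14 * (‖δ‖ / ‖ζ‖) + (8 + 48 * 2 ^ K) * ‖δ‖ := by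
      intro δ hδ
      have hδ0 := norm_nonneg δ
      have h2 : ‖δ‖ ≤ r * ‖δ‖ := by nlinarith
      have h3 : 32 * ‖δ‖ ≤ P.d r * l := by linarith
      have h5 : P.d r ≤ 1 / 384 := by nlinarith
      refine lam_disp him0 (imb δ h3) hζ0 ?_ ?_ ?_
      · have h4 : P.d r * l / r ≥ 32 * ‖δ‖ := by
          rw [ge_iff_le, le_div_iff₀ hr0]; linarith
        linarith
      · have h4 : ‖δ‖ ≤ P.d r / 32 := by nlinarith
        have h6 : 2 ^ K * ‖δ‖ ≤ 2 ^ K * (P.d r / 32) := by gcongr
        linarith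
      · linarith
    obtain ⟨ri0, ri1⟩ := rr_le hS O i
    obtain ⟨rj0, rj1⟩ := rr_le hS O j
    have qi : 64 * (r * rr P O i) ≤ P.d r * l := by
      have := hS.r1 (ht (O i)); unfold rr; linarith
    have qj : 64 * (r * rr P O j) ≤ P.d r * l := by
      have := hS.r1 (ht (O j)); unfold rr; linarith
    have ni : ‖eps P O i‖ = rr P O i := by rw [norm_eps, abs_of_nonneg ri0]
    have nj : ‖eps P O j‖ = rr P O j := by rw [norm_eps, abs_of_nonneg rj0]
    have nI : ∀ w : ℂ, ‖I * w‖ = ‖w‖ := fun w => by rw [norm_mul, norm_I, one_mul]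
    set c : ℝ := 8 + 48 * 2 ^ K with hc
    have hc0 : 0 < c := by positivity
    set Ei : ℝ := 14 * (rr P O i / ‖ζ‖) + c * rr P O i with hEi
    set Ej : ℝ := 14 * (rr P O j / ‖ζ‖) + c * rr P O j with hEj
    have Ei0 : 0 ≤ Ei := by positivity
    have Ej0 : 0 ≤ Ej := by positivity
    have k1 := key (-(I * eps P O i)) (by
      rw [norm_neg, nI, ni]; nlinarith [mul_nonneg hr0.le ri0])
    have k2 := key (I * eps P O j) (by
      rw [nI, nj]; nlinarith [mul_nonneg hr0.le rj0])
    have n3 : ‖eps P O i - eps P O j‖ ≤ rr P O i + rr P O j := by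
      refine (norm_sub_le _ _).trans ?_
      rw [ni, nj]
    have k3 := key (-(I * (eps P O i - eps P O j))) (by
      rw [norm_neg, nI]
      have : r * ‖eps P O i - eps P O j‖ ≤ r * (rr P O i + rr P O j) := by gcongr
      linarith)
    rw [norm_neg, nI, ni] at k1
    rw [nI, nj] at k2
    rw [norm_neg, nI] at k3
    have k3' : |lam K (ζ + -(I * (eps P O i - eps P O j))) - lam K ζ| ≤ Ei + Ej := by
      refine k3.trans ?_
      have a1 : ‖eps P O i - eps P O j‖ / ‖ζ‖ ≤ (rr P O i + rr P O j) / ‖ζ‖ := by gcongr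
      rw [add_div] at a1
      have a2 : c * ‖eps P O i - eps P O j‖ ≤ c * (rr P O i + rr P O j) := by gcongr
      rw [hEi, hEj]
      linarith
    have hcf := core_fam (K := K) (ne := ne) (nL := nL) (s := sp (O i)) (τ := ht (O i) - ht (O j))
      (κ := kap P O i) (ε := eps P O i) (κ' := kap P O j) (ε' := eps P O j) (E := Ei) (E' := Ej)
      hk hk' Ei0 Ej0
    rw [← zt_sub, ← hζ] at hcf
    have hcf' := hcf (fun _ => k1) (fun _ => k2) (fun _ _ => k3')
    rw [← hs]
    refine le_trans ?_ hcf'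
    -- size of the errors
    have size : ∀ ρ : ℝ, 0 ≤ ρ → 64 * (r * ρ) ≤ P.d r * l →
        4 * (14 * (ρ / ‖ζ‖) + c * ρ) ≤ 1 / rd O i j + 5 * 2 ^ K * P.d r := by
      intro ρ hρ hρ1
      have a1 : ρ / ‖ζ‖ ≤ 1 / (64 * rd O i j) := by
        rw [div_le_div_iff₀ hz0 (by positivity), one_mul]
        have a2 : r * (ρ * (64 * rd O i j)) ≤ r * ‖ζ‖ := by
          calc r * (ρ * (64 * rd O i j)) = 64 * (r * ρ) * rd O i j := by ring
            _ ≤ P.d r * l * rd O i j := by gcongr
            _ ≤ _ := hge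
        exact le_of_mul_le_mul_left a2 hr0
      have a3 : 1 / (64 * rd O i j) = (1 / rd O i j) / 64 := by
        rw [one_div, one_div, mul_inv]; ring
      rw [a3] at a1
      have a4 : 0 < 1 / rd O i j := by positivity
      have a5 : ρ ≤ r * ρ := by nlinarith
      have a6 : ρ ≤ P.d r / 160 := by nlinarith
      have a7 : c ≤ 49 * 2 ^ K := by rw [hc]; linarith
      have a8 : c * ρ ≤ 49 * 2 ^ K * (P.d r / 160) := by gcongr
      nlinarith
    have si := size _ ri0 qi
    have sj := size _ rj0 qj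
    have x0 := xv_nonneg (kd (O i))
    have x0' := xv_nonneg (kd (O j))
    have x1 : xv (kd (O i)) ≤ 1 := by cases kd (O i) <;> simp [xv]
    have x1' : xv (kd (O j)) ≤ 1 := by cases kd (O j) <;> simp [xv]
    have t1 : 4 * (xv (kd (O i)) * Ei) ≤ xv (kd (O i)) / rd O i j + 5 * 2 ^ K * P.d r := by
      have a1 : xv (kd (O i)) * (4 * Ei) ≤ xv (kd (O i)) * (1 / rd O i j + 5 * 2 ^ K * P.d r) := by
        apply mul_le_mul_of_nonneg_left _ x0
        rw [hEi]; exact si
      have a2 : xv (kd (O i)) * (5 * 2 ^ K * P.d r) ≤ 5 * 2 ^ K * P.d r := by nlinarith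
      rw [div_eq_mul_one_div]
      linarith
    have t2 : 4 * (xv (kd (O j)) * Ej) ≤ xv (kd (O j)) / rd O i j + 5 * 2 ^ K * P.d r := by
      have a1 : xv (kd (O j)) * (4 * Ej) ≤ xv (kd (O j)) * (1 / rd O i j + 5 * 2 ^ K * P.d r) := by
        apply mul_le_mul_of_nonneg_left _ x0'
        rw [hEj]; exact sj
      have a2 : xv (kd (O j)) * (5 * 2 ^ K * P.d r) ≤ 5 * 2 ^ K * P.d r := by nlinarith
      rw [div_eq_mul_one_div]
      linarith
    rw [add_div]
    linarith
  · have h2 := core_good hG hf hD hD1 (τ := ht (O i) - ht (O j)) (K := K)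
    have h3 : coreP K P O i j ≤ 0 := by
      unfold coreP
      split_ifs with hs
      · have h4 : (Qc (kd (O i)) : ℝ) * (Qc (kd (O j)) : ℝ) = 0 := by
          have h5 : Sf (kd (O i)) = false ∨ Sf (kd (O j)) = false := by
            by_contra h6
            push Not at h6
            apply hf
            refine ⟨hs, ?_, ?_⟩
            · simpa using h6.1
            · simpa using h6.2
          rcases h5 with h5 | h5
          · have : Qc (kd (O i)) = 0 := by
              cases hk : kd (O i) <;> rw [hk] at h5 <;> simp [Sf, Qc] at h5 ⊢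
            rw [this]; simp
          · have : Qc (kd (O j)) = 0 := by
              cases hk : kd (O j) <;> rw [hk] at h5 <;> simp [Sf, Qc] at h5 ⊢
            rw [this]; simp
        have h6 : 0 ≤ (xv (kd (O i)) + xv (kd (O j))) / rd O i j :=
          div_nonneg (add_nonneg (xv_nonneg _) (xv_nonneg _)) (abs_nonneg _)
        have h7 : -2 * (Qc (kd (O i)) : ℝ) * (Qc (kd (O j)) : ℝ) * lam K (zt P O i - zt P O j) = 0 := by
          rw [mul_assoc (-2 : ℝ), h4]; ring
        rw [h7]
        linarith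
      · exact le_rfl
    linarith

end NUDirP
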