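import Pool.Agent.NUO.Blocks
import Pool.Agent.NUO.DispW

/-!
# Displacement of the potentials (O4d)

`SF B τ f f'`: `f` is `C¹` with derivative `f'`, `|f|, |f'| ≤ B exp (-2 |t - τ|)`.
The difference of the potentials `lq`, `lqg` at a displaced offset `j + δ t` and at the offset `j`
is `SF (C ε)` when `|δ|, |δ'| ≤ ε`.
-/

set_option autoImplicit false

open MeasureTheory Set Filter Topology

noncomputable section

namespace NUDispE

open NUMF NUO

/-- small localised `C¹` fields -/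
structure SF (B τ : ℝ) (f f' : ℝ → ℝ) : Prop where
  deriv : ∀ t, HasDerivAt f (f' t) t
  cont : Continuous f'
  le : ∀ t, |f t| ≤ B * Real.exp (-2 * |t - τ|)
  le' : ∀ t, |f' t| ≤ B * Real.exp (-2 * |t - τ|)

theorem SF.add {B B' τ : ℝ} {f f' g g' : ℝ → ℝ} (hf : SF B τ f f') (hg : SF B' τ g g') :
    SF (B + B') τ (fun t => f t + g t) (fun t => f' t + g' t) where
  deriv t := (hf.deriv t).add (hg.deriv t)
  cont := hf.cont.add hg.cont
  le t := (abs_add_le _ _).trans (by rw [add_mul]; exact add_le_add (hf.le t) (hg.le t))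
  le' t := (abs_add_le _ _).trans (by rw [add_mul]; exact add_le_add (hf.le' t) (hg.le' t))

theorem SF.smul {B τ : ℝ} {f f' : ℝ → ℝ} (c : ℝ) (hf : SF B τ f f') :
    SF (|c| * B) τ (fun t => c * f t) (fun t => c * f' t) where
  deriv t := (hf.deriv t).const_mul c
  cont := continuous_const.mul hf.cont
  le t := by
    rw [abs_mul, mul_assoc]
    exact mul_le_mul_of_nonneg_left (hf.le t) (abs_nonneg c)
  le' t := by
    rw [abs_mul, mul_assoc]
    exact mul_le_mul_of_nonneg_left (hf.le' t) (abs_nonneg c)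

theorem SF.mono {B B' τ : ℝ} {f f' : ℝ → ℝ} (hf : SF B τ f f') (h : B ≤ B') :
    SF B' τ f f' where
  deriv := hf.deriv
  cont := hf.cont
  le t := (hf.le t).trans (mul_le_mul_of_nonneg_right h (Real.exp_pos _).le)
  le' t := (hf.le' t).trans (mul_le_mul_of_nonneg_right h (Real.exp_pos _).le)

theorem SF.congr {B τ : ℝ} {f f' g g' : ℝ → ℝ} (hf : SF B τ f f') (h : ∀ t, g t = f t)
    (h' : ∀ t, g' t = f' t) : SF B τ g g' := by
  have e1 : g = f := funext h
  have e2 : g' = f' := funext h'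
  rw [e1, e2]
  exact hf

theorem SF.zero (τ : ℝ) : SF 0 τ (fun _ => 0) (fun _ => 0) where
  deriv t := hasDerivAt_const t 0
  cont := continuous_const
  le t := by simp
  le' t := by simp

/-! ### the elementary function `h` -/

theorem arg_ge {κ a : ℝ} (hκ : 0 ≤ κ) (ha : κ ≤ |Real.cos a|) (t : ℝ) :
    κ ^ 2 * Real.cosh (2 * t) ≤ Real.cosh (2 * t) + Real.cos (2 * a) := by
  have h1 := Real.one_le_cosh (2 * t)
  have h2 : κ ^ 2 ≤ Real.cos a ^ 2 := by
    rw [← sq_abs (Real.cos a)]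
    exact pow_le_pow_left₀ hκ ha 2
  have h3 := Real.cos_two_mul a
  have h4 : Real.cos a ^ 2 ≤ 1 := by
    have := Real.sin_sq_add_cos_sq a
    nlinarith [sq_nonneg (Real.sin a)]
  rw [h3]
  nlinarith

theorem cosh_ge (t : ℝ) : Real.exp (2 * |t|) / 2 ≤ Real.cosh (2 * t) := by
  rw [← Real.cosh_abs (2 * t), abs_mul, abs_two, Real.cosh_eq]
  have := Real.exp_pos (-(2 * |t|))
  linarith

theorem inv_cosh_le (t : ℝ) : (Real.cosh (2 * t))⁻¹ ≤ 2 * Real.exp (-2 * |t|) := by
  have h1 := cosh_ge t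
  have h2 := Real.exp_pos (2 * |t|)
  have h3 : (Real.cosh (2 * t))⁻¹ ≤ (Real.exp (2 * |t|) / 2)⁻¹ := inv_anti₀ (by positivity) h1
  refine h3.trans_eq ?_
  rw [inv_div, div_eq_mul_inv, ← Real.exp_neg]
  congr 2
  ring

theorem abs_log_sub_le {u v w : ℝ} (hw : 0 < w) (hu : w ≤ u) (hv : w ≤ v) :
    |Real.log u - Real.log v| ≤ |u - v| / w := by
  have hu0 : 0 < u := hw.trans_le hu
  have hv0 : 0 < v := hw.trans_le hv
  have key : ∀ x y : ℝ, w ≤ x → w ≤ y → Real.log x - Real.log y ≤ |x - y| / w := by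
    intro x y hx hy
    have hx0 : 0 < x := hw.trans_le hx
    have hy0 : 0 < y := hw.trans_le hy
    rw [← Real.log_div hx0.ne' hy0.ne']
    have h1 := Real.log_le_sub_one_of_pos (div_pos hx0 hy0)
    have h2 : x / y - 1 = (x - y) / y := by field_simp
    rw [h2] at h1
    refine h1.trans ?_
    rcases le_total 0 (x - y) with h | h
    · rw [abs_of_nonneg h]
      exact div_le_div_of_nonneg_left h hw hy
    · exact (div_nonpos_of_nonpos_of_nonneg h hy0.le).trans (by positivity)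
  rw [abs_le]
  constructor
  · have := key v u hv hu
    rw [abs_sub_comm] at this
    linarith
  · exact key u v hu hv

theorem cos_diff_le (a d : ℝ) : |Real.cos (2 * (a + d)) - Real.cos (2 * a)| ≤ 2 * |d| := by
  have h := Real.abs_cos_sub_cos_le (2 * (a + d)) (2 * a)
  refine h.trans_eq ?_
  rw [show 2 * (a + d) - 2 * a = 2 * d by ring, abs_mul, abs_two]

/-- **displacement of the elementary function** -/
theorem SF_h {κ ε a τ : ℝ} {δ δ' : ℝ → ℝ} (hκ : 0 < κ) (hκ1 : κ ≤ 1) (hε : 0 ≤ ε)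
    (hd : ∀ t, HasDerivAt δ (δ' t) t) (hc : Continuous δ') (hδ : ∀ t, |δ t| ≤ ε)
    (hδ' : ∀ t, |δ' t| ≤ ε) (ha : ∀ x, |x| ≤ ε → κ ≤ |Real.cos (a + x)|) :
    SF (12 * ε / κ ^ 4) τ (fun t => h (t - τ) (a + δ t) - h (t - τ) a)
      (fun t => (2 * Real.sinh (2 * (t - τ)) - 2 * Real.sin (2 * (a + δ t)) * δ' t) /
          (Real.cosh (2 * (t - τ)) + Real.cos (2 * (a + δ t))) -
        2 * Real.sinh (2 * (t - τ)) / (Real.cosh (2 * (t - τ)) + Real.cos (2 * a))) := by
  have ha0 : κ ≤ |Real.cos a| := by simpa using ha 0 (by simpa using hε)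
  have hcδ : Continuous δ := continuous_iff_continuousAt.2 fun t => (hd t).continuousAt
  have hκ2 : 0 < κ ^ 2 := by positivity
  have p1 : ∀ t, κ ^ 2 * Real.cosh (2 * (t - τ)) ≤
      Real.cosh (2 * (t - τ)) + Real.cos (2 * (a + δ t)) := fun t =>
    arg_ge hκ.le (ha _ (hδ t)) _
  have p2 : ∀ t, κ ^ 2 * Real.cosh (2 * (t - τ)) ≤
      Real.cosh (2 * (t - τ)) + Real.cos (2 * a) := fun t => arg_ge hκ.le ha0 _
  have p0 : ∀ t, 0 < κ ^ 2 * Real.cosh (2 * (t - τ)) := fun t =>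
    mul_pos hκ2 (Real.cosh_pos _)
  have q1 : ∀ t, Real.cosh (2 * (t - τ)) + Real.cos (2 * (a + δ t)) ≠ 0 := fun t =>
    ((p0 t).trans_le (p1 t)).ne'
  have q2 : ∀ t, Real.cosh (2 * (t - τ)) + Real.cos (2 * a) ≠ 0 := fun t =>
    ((p0 t).trans_le (p2 t)).ne'
  have hk4 : κ ^ 4 ≤ κ ^ 2 := by
    have : κ ^ 4 = κ ^ 2 * κ ^ 2 := by ring
    rw [this]
    have : κ ^ 2 ≤ 1 := pow_le_one₀ hκ.le hκ1
    nlinarith
  have hk4' : 0 < κ ^ 4 := by positivity
  refine ⟨fun t => ?_, ?_, fun t => ?_, fun t => ?_⟩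
  · -- derivative
    have b1 : HasDerivAt (fun t : ℝ => 2 * (t - τ)) 2 t := by
      simpa using ((hasDerivAt_id t).sub_const τ).const_mul 2
    have c1 := b1.cosh
    have b2 : HasDerivAt (fun t : ℝ => 2 * (a + δ t)) (2 * δ' t) t :=
      ((hd t).const_add a).const_mul 2
    have c2 := b2.cos
    have d1 := (c1.add c2).log (q1 t)
    have d2 := (c1.add_const (Real.cos (2 * a))).log (q2 t)
    have d3 := d1.sub d2
    refine (d3.congr_deriv ?_)
    simp only [Pi.add_apply]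
    congr 1
    · congr 1
      ring
    · congr 1
      ring
  · -- continuity
    refine Continuous.sub (Continuous.div (by fun_prop) (by fun_prop) q1)
      (Continuous.div (by fun_prop) (by fun_prop) q2)
  · -- size
    have h1 := abs_log_sub_le (p0 t) (p1 t) (p2 t)
    have h2 := cos_diff_le a (δ t)
    have h3 := inv_cosh_le (t - τ)
    have h4 := Real.cosh_pos (2 * (t - τ))
    have h5 : |(Real.cosh (2 * (t - τ)) + Real.cos (2 * (a + δ t))) -
        (Real.cosh (2 * (t - τ)) + Real.cos (2 * a))| ≤ 2 * ε := by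
      rw [add_sub_add_left_eq_sub]
      linarith [hδ t]
    change |Real.log (Real.cosh (2 * (t - τ)) + Real.cos (2 * (a + δ t))) -
      Real.log (Real.cosh (2 * (t - τ)) + Real.cos (2 * a))| ≤ _
    refine h1.trans ?_
    calc _ ≤ 2 * ε / (κ ^ 2 * Real.cosh (2 * (t - τ))) := by gcongr
      _ = 2 * ε / κ ^ 2 * (Real.cosh (2 * (t - τ)))⁻¹ := by
        rw [div_mul_eq_div_div]
        rfl
      _ ≤ 2 * ε / κ ^ 4 * (2 * Real.exp (-2 * |t - τ|)) := by gcongr
      _ = 4 * ε / κ ^ 4 * Real.exp (-2 * |t - τ|) := by ring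
      _ ≤ _ := by
        gcongr
        linarith
  · -- size of the derivative
    set A := Real.cosh (2 * (t - τ)) + Real.cos (2 * (a + δ t)) with hA
    set B := Real.cosh (2 * (t - τ)) + Real.cos (2 * a) with hB
    set S := Real.sinh (2 * (t - τ)) with hS
    set K := Real.cosh (2 * (t - τ)) with hK
    have hK0 : 0 < K := Real.cosh_pos _
    have hA0 : 0 < A := (p0 t).trans_le (p1 t)
    have hB0 : 0 < B := (p0 t).trans_le (p2 t)
    have hAB : |A - B| ≤ 2 * ε := by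
      rw [hA, hB, add_sub_add_left_eq_sub]
      linarith [cos_diff_le a (δ t), hδ t]
    have hSK : |S| ≤ K := by
      rw [hS, hK, abs_le]
      rw [Real.sinh_eq, Real.cosh_eq]
      have e1 := Real.exp_pos (2 * (t - τ))
      have e2 := Real.exp_pos (-(2 * (t - τ)))
      constructor <;> linarith
    have e1 : (2 * S - 2 * Real.sin (2 * (a + δ t)) * δ' t) / A - 2 * S / B =
        -(2 * Real.sin (2 * (a + δ t)) * δ' t) / A + 2 * S * (B - A) / (A * B) := by
      field_simp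
      ring
    rw [e1]
    refine (abs_add_le _ _).trans ?_
    have f1 : |-(2 * Real.sin (2 * (a + δ t)) * δ' t) / A| ≤ 2 * ε / (κ ^ 2 * K) := by
      rw [abs_div, abs_neg, abs_mul, abs_mul, abs_two, abs_of_pos hA0]
      have g1 := Real.abs_sin_le_one (2 * (a + δ t))
      calc 2 * |Real.sin (2 * (a + δ t))| * |δ' t| / A ≤ 2 * 1 * ε / (κ ^ 2 * K) := by
            gcongr
            · exact hδ' t
            · exact p1 t
        _ = _ := by ring
    have f2 : |2 * S * (B - A) / (A * B)| ≤ 4 * ε / (κ ^ 4 * K) := by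
      rw [abs_div, abs_mul, abs_mul, abs_two, abs_of_pos (mul_pos hA0 hB0), abs_sub_comm B A]
      calc 2 * |S| * |A - B| / (A * B) ≤ 2 * K * (2 * ε) / ((κ ^ 2 * K) * (κ ^ 2 * K)) := by
            gcongr
            · exact p1 t
            · exact p2 t
        _ = _ := by
          field_simp
          ring
    have h3 := inv_cosh_le (t - τ)
    calc _ ≤ 2 * ε / (κ ^ 2 * K) + 4 * ε / (κ ^ 4 * K) := add_le_add f1 f2
      _ ≤ 2 * ε / (κ ^ 4 * K) + 4 * ε / (κ ^ 4 * K) := by gcongr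
      _ = 6 * ε / κ ^ 4 * K⁻¹ := by
        field_simp
        ring
      _ ≤ 6 * ε / κ ^ 4 * (2 * Real.exp (-2 * |t - τ|)) := by gcongr
      _ = _ := by ring

/-- existential form -/
def SFe (B τ : ℝ) (f : ℝ → ℝ) : Prop := ∃ f', SF B τ f f'

theorem SFe.add {B B' τ : ℝ} {f g : ℝ → ℝ} (hf : SFe B τ f) (hg : SFe B' τ g) :
    SFe (B + B') τ (fun t => f t + g t) := by
  obtain ⟨f', hf⟩ := hf
  obtain ⟨g', hg⟩ := hg
  exact ⟨_, hf.add hg⟩

theorem SFe.smul {B τ : ℝ} {f : ℝ → ℝ} (c : ℝ) (hf : SFe B τ f) :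
    SFe (|c| * B) τ (fun t => c * f t) := by
  obtain ⟨f', hf⟩ := hf
  exact ⟨_, hf.smul c⟩

theorem SFe.mono {B B' τ : ℝ} {f : ℝ → ℝ} (hf : SFe B τ f) (h : B ≤ B') : SFe B' τ f := by
  obtain ⟨f', hf⟩ := hf
  exact ⟨_, hf.mono h⟩

theorem SFe.congr {B τ : ℝ} {f g : ℝ → ℝ} (hf : SFe B τ f) (h : ∀ t, g t = f t) :
    SFe B τ g := by
  have e : g = f := funext h
  rw [e]
  exact hf

theorem SFe.zero (τ : ℝ) : SFe 0 τ (fun _ => 0) := ⟨_, SF.zero τ⟩

/-! ### offsets -/

theorem Off_shift {δ ε j x : ℝ} (h : Off (δ + ε) j) (hx : |x| ≤ ε) : Off δ (j + x) := by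
  intro n
  have h1 := h n
  have h2 : |j - n| ≤ |j + x - n| + |x| := by
    have := abs_sub_le (j - n) (j + x - n) 0
    rw [sub_zero, sub_zero, show j - (n:ℝ) - (j + x - n) = -x by ring, abs_neg] at this
    linarith
  linarith

theorem cos_red_ge {δ j : ℝ} (hδ : 0 ≤ δ) (h : Off δ j) (a : ℤ) :
    Real.sin (δ * l) ≤ |Real.cos ((a - j) * l)| := by
  have hl := l_pos
  have hfl := four_l
  have h1 := red_le h a
  have e1 : ((a : ℝ) - j) * l = red (a - j) * l + (round (((a : ℝ) - j) / 8) : ℤ) * Real.pi := by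
    unfold red
    have : Real.pi = 8 * l := by linarith
    rw [this]
    ring
  rw [e1, Real.cos_add_int_mul_pi, abs_mul, abs_zpow, abs_neg, abs_one, one_zpow, one_mul]
  have h2 : Real.sin (δ * l) ≤ Real.cos (red (a - j) * l) := by
    rw [← Real.cos_abs (red (a - j) * l), ← Real.cos_pi_div_two_sub]
    apply Real.cos_le_cos_of_nonneg_of_le_pi (abs_nonneg _)
    · have : 0 ≤ δ * l := by positivity
      linarith [Real.pi_pos]
    · rw [abs_mul, abs_of_pos hl]
      nlinarith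
  exact h2.trans (le_abs_self _)

/-- displacement of one block -/
theorem SFe_block {δ0 ε j τ : ℝ} {δ δ' : ℝ → ℝ} (h0 : 0 < δ0) (h01 : δ0 ≤ 1) (hε : 0 ≤ ε)
    (hd : ∀ t, HasDerivAt δ (δ' t) t) (hc : Continuous δ') (hδ : ∀ t, |δ t| ≤ ε)
    (hδ' : ∀ t, |δ' t| ≤ ε) (hj : Off (δ0 + ε) j) (a : ℤ) :
    SFe (12 * ε / Real.sin (δ0 * l) ^ 4) τ
      (fun t => h (t - τ) ((a - (j + δ t)) * l) - h (t - τ) ((a - j) * l)) := by
  have hl := l_pos
  have hfl := four_l
  have hl1 : l ≤ 1 := by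
    have := Real.pi_lt_four
    linarith
  have hs : 0 < Real.sin (δ0 * l) := Real.sin_pos_of_pos_of_lt_pi (by positivity) (by nlinarith)
  have h1 := SF_h (κ := Real.sin (δ0 * l)) (ε := ε * l) (a := (a - j) * l) (τ := τ)
    (δ := fun t => -l * δ t) (δ' := fun t => -l * δ' t) hs (Real.sin_le_one _) (by positivity)
    (fun t => (hd t).const_mul _) (by fun_prop)
    (fun t => by
      rw [abs_mul, abs_neg, abs_of_pos hl, mul_comm]
      exact mul_le_mul_of_nonneg_right (hδ t) hl.le)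
    (fun t => by
      rw [abs_mul, abs_neg, abs_of_pos hl, mul_comm]
      exact mul_le_mul_of_nonneg_right (hδ' t) hl.le)
    (fun x hx => by
      have e : ((a : ℝ) - j) * l + x = (a - (j + -(x / l))) * l := by
        field_simp
        ring
      rw [e]
      refine cos_red_ge h0.le (Off_shift hj ?_) a
      rw [abs_neg, abs_div, abs_of_pos hl, div_le_iff₀ hl]
      exact hx)
  have h2 : SFe (12 * (ε * l) / Real.sin (δ0 * l) ^ 4) τ
      (fun t => h (t - τ) ((a - j) * l + -l * δ t) - h (t - τ) ((a - j) * l)) := ⟨_, h1⟩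
  refine (h2.mono ?_).congr fun t => ?_
  · gcongr
    nlinarith
  · congr 2
    ring

/-- **displacement of the own potential** -/
theorem SFe_lq {δ0 ε j τ : ℝ} {δ δ' : ℝ → ℝ} (h0 : 0 < δ0) (h01 : δ0 ≤ 1) (hε : 0 ≤ ε)
    (hd : ∀ t, HasDerivAt δ (δ' t) t) (hc : Continuous δ') (hδ : ∀ t, |δ t| ≤ ε)
    (hδ' : ∀ t, |δ' t| ≤ ε) (hj : Off (δ0 + ε) j) :
    SFe (36 * ε / Real.sin (δ0 * l) ^ 4) τ
      (fun t => lq (j + δ t) (t - τ) - lq j (t - τ)) := by
  have hb := fun a : ℤ => SFe_block (τ := τ) h0 h01 hε hd hc hδ hδ' hj a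
  refine ((((hb 4).add ((hb 2).smul (1 / 2))).add ((hb (-2)).smul (1 / 2))).add
    (((hb 3).smul (-1 / 2)).add ((hb 5).smul (-1 / 2)))).mono ?_ |>.congr fun t => ?_
  · have : |(1:ℝ) / 2| = 1 / 2 := by norm_num
    have : |(-1:ℝ) / 2| = 1 / 2 := by norm_num
    rw [show |(1:ℝ) / 2| = 1 / 2 by norm_num, show |(-1:ℝ) / 2| = 1 / 2 by norm_num]
    apply le_of_eq
    ring
  · unfold lq ro
    push_cast
    rw [← h_neg_right (t - τ) ((2 + (j + δ t)) * l), ← h_neg_right (t - τ) ((2 + j) * l),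
      show -((2 + (j + δ t)) * l) = (-2 - (j + δ t)) * l by ring,
      show -((2 + j) * l) = (-2 - j) * l by ring]
    ring

/-- **displacement of the cross potential** -/
theorem SFe_lqg {δ0 ε j τ : ℝ} {δ δ' : ℝ → ℝ} (h0 : 0 < δ0) (h01 : δ0 ≤ 1) (hε : 0 ≤ ε)
    (hd : ∀ t, HasDerivAt δ (δ' t) t) (hc : Continuous δ') (hδ : ∀ t, |δ t| ≤ ε)
    (hδ' : ∀ t, |δ' t| ≤ ε) (hj : Off (δ0 + ε) j) :
    SFe (36 * ε / Real.sin (δ0 * l) ^ 4) τ
      (fun t => lqg (j + δ t) (t - τ) - lqg j (t - τ)) := by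
  have hb := fun a : ℤ => SFe_block (τ := τ) h0 h01 hε hd hc hδ hδ' hj a
  refine (((hb 0).add ((hb (-1)).smul (-1))).add ((hb 1).smul (-1))).mono ?_ |>.congr fun t => ?_
  · rw [show |(-1:ℝ)| = 1 by norm_num]
    apply le_of_eq
    ring
  · unfold lqg
    push_cast
    rw [← h_neg_right (t - τ) ((j + δ t) * l), ← h_neg_right (t - τ) (j * l),
      ← h_neg_right (t - τ) ((j + δ t) * l + l), ← h_neg_right (t - τ) (j * l + l),
      ← h_neg_right (t - τ) ((j + δ t) * l - l), ← h_neg_right (t - τ) (j * l - l),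
      show -((j + δ t) * l) = (0 - (j + δ t)) * l by ring, show -(j * l) = (0 - j) * l by ring,
      show -((j + δ t) * l + l) = (-1 - (j + δ t)) * l by ring,
      show -(j * l + l) = (-1 - j) * l by ring,
      show -((j + δ t) * l - l) = (1 - (j + δ t)) * l by ring,
      show -(j * l - l) = (1 - j) * l by ring]
    ring

end NUDispE
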