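import Pool.Agent.NUO.DispE
import Pool.Agent.NUO.Obj

/-!
# Potentials of the objects on the curve `A'` (O4d)

* `log_q`, `log_q1`, `log_qg`, `log_cg`: logarithms of the pair functions at a non-integer offset,
  for every height (also `0`);
* `log_potN`: `log potN P O i s (l - η t + i t) = ∑ lpot` over the quanta of the object;
* `dF_SFe`: the difference with the reference potential (all strings at offset `2 + e`, satellites
  at offset `e`, exact heights, `η = 0`) is a small localised `C¹` field.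
-/

set_option autoImplicit false

open MeasureTheory Set Filter Topology

noncomputable section

namespace NUDispP

open NUMF NUO NUDispE

/-- the point of offset `j` at height `t` -/
def zz (j t : ℝ) : ℂ := ((j * NUMF.l : ℝ) : ℂ) + t * Complex.I

theorem zz_add (j t a : ℝ) : zz j t + (a * NUMF.l : ℝ) = zz (j + a) t := by
  unfold zz
  push_cast
  ring

theorem l_eq : NUP1.l = NUMF.l := rfl

/-- `log |sin|` at offset `j + a`, `a` an integer, `j` not an integer -/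
theorem log_sin {δ j : ℝ} (hδ : 0 < δ) (hδ1 : δ ≤ 1) (h : Off δ j) (a : ℤ) (t : ℝ) :
    Complex.sin (zz (j + a) t) ≠ 0 ∧
      Real.log ‖Complex.sin (zz (j + a) t)‖ =
        (NUMF.h t ((4 - a - j) * NUMF.l) - Real.log 2) / 2 := by
  have hl := l_pos
  have hfl := NUO.four_l
  have hs : 0 < Real.sin (δ * NUMF.l) := by
    refine Real.sin_pos_of_pos_of_lt_pi (by positivity) ?_
    nlinarith [Real.pi_pos]
  have h1 := cos_red_ge hδ.le h (4 - a)
  have h2 : Real.sin ((j + a) * NUMF.l) ^ 2 = Real.cos ((((4 - a : ℤ) : ℝ) - j) * NUMF.l) ^ 2 := by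
    have : (((4 - a : ℤ) : ℝ) - j) * NUMF.l = Real.pi / 2 - (j + a) * NUMF.l := by
      push_cast
      linarith
    rw [this, Real.cos_pi_div_two_sub]
  have h3 : 0 < Real.sin ((j + a) * NUMF.l) ^ 2 := by
    rw [h2, ← sq_abs]
    have : 0 < |Real.cos ((((4 - a : ℤ) : ℝ) - j) * NUMF.l)| := hs.trans_le h1
    positivity
  have h4 : Complex.sin (zz (j + a) t) ≠ 0 := by
    intro e
    have h5 := norm_sin_sq ((j + a) * NUMF.l) t
    have e' : Complex.sin ((((j + a) * NUMF.l : ℝ) : ℂ) + t * Complex.I) = 0 := e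
    rw [e', norm_zero] at h5
    have h6 := Real.one_le_cosh (2 * t)
    have h7 := Real.cos_two_mul ((j + a) * NUMF.l)
    have h8 := Real.sin_sq_add_cos_sq ((j + a) * NUMF.l)
    nlinarith
  refine ⟨h4, ?_⟩
  have h5 := log_norm_sin (x := (j + a) * NUMF.l) (y := t) h4
  have e : 4 * NUMF.l - (j + a) * NUMF.l = (4 - a - j) * NUMF.l := by ring
  rw [e] at h5
  have h6 : Complex.sin (zz (j + a) t) =
      Complex.sin ((((j + a) * NUMF.l : ℝ) : ℂ) + t * Complex.I) := rfl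
  rw [h6]
  linarith

/-- `log |cos|` at offset `j` -/
theorem log_cos {δ j : ℝ} (hδ : 0 < δ) (hδ1 : δ ≤ 1) (h : Off δ j) (t : ℝ) :
    Complex.cos (zz j t) ≠ 0 ∧
      Real.log ‖Complex.cos (zz j t)‖ = (NUMF.h t (j * NUMF.l) - Real.log 2) / 2 := by
  have hl := l_pos
  have hfl := NUO.four_l
  have hs : 0 < Real.sin (δ * NUMF.l) := by
    refine Real.sin_pos_of_pos_of_lt_pi (by positivity) ?_
    nlinarith [Real.pi_pos]
  have h1 := cos_red_ge hδ.le h 0
  have h3 : 0 < Real.cos (j * NUMF.l) ^ 2 := by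
    rw [← sq_abs]
    have e : ((0 : ℤ) : ℝ) - j = -j := by push_cast; ring
    rw [e, neg_mul, Real.cos_neg] at h1
    have : 0 < |Real.cos (j * NUMF.l)| := hs.trans_le h1
    positivity
  have h4 : Complex.cos (zz j t) ≠ 0 := by
    intro e
    have h5 := norm_cos_sq (j * NUMF.l) t
    have e' : Complex.cos (((j * NUMF.l : ℝ) : ℂ) + t * Complex.I) = 0 := e
    rw [e', norm_zero] at h5
    have h6 := Real.one_le_cosh (2 * t)
    have h7 := Real.cos_two_mul (j * NUMF.l)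
    nlinarith
  refine ⟨h4, ?_⟩
  have h5 := log_norm_cos (x := j * NUMF.l) (y := t) h4
  have h6 : Complex.cos (zz j t) = Complex.cos (((j * NUMF.l : ℝ) : ℂ) + t * Complex.I) := rfl
  rw [h6]
  linarith

/-- reflection and period of `h` -/
theorem h_ref (t y : ℝ) (n : ℤ) : NUMF.h t ((8 * n - y) * NUMF.l) = NUMF.h t (y * NUMF.l) := by
  have h1 := h_per_int t (-(y * NUMF.l)) n
  rw [h_neg_right] at h1
  rw [← h1]
  congr 1
  ring

theorem log_q {δ j : ℝ} (hδ : 0 < δ) (hδ1 : δ ≤ 1) (h : Off δ j) (t : ℝ) :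
    NUP1.q (zz j t) ≠ 0 ∧ Real.log ‖NUP1.q (zz j t)‖ = lq j t := by
  obtain ⟨n0, l0⟩ := log_sin hδ hδ1 h 0 t
  obtain ⟨n1, l1⟩ := log_sin hδ hδ1 h 1 t
  obtain ⟨n2, l2⟩ := log_sin hδ hδ1 h 2 t
  obtain ⟨m1, k1⟩ := log_sin hδ hδ1 h (-1) t
  obtain ⟨m2, k2⟩ := log_sin hδ hδ1 h (-2) t
  have e0 : zz (j + (0 : ℤ)) t = zz j t := by simp
  have e1 : zz (j + (1 : ℤ)) t = zz j t + NUP1.l := by
    rw [l_eq, ← zz_add]; push_cast; ring
  have e2 : zz (j + (2 : ℤ)) t = zz j t + 2 * NUP1.l := by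
    rw [l_eq, ← zz_add]; push_cast; ring
  have e3 : zz (j + (-1 : ℤ)) t = zz j t - NUP1.l := by
    rw [l_eq, ← zz_add]; push_cast; ring
  have e4 : zz (j + (-2 : ℤ)) t = zz j t - 2 * NUP1.l := by
    rw [l_eq, ← zz_add]; push_cast; ring
  rw [e0] at n0 l0
  rw [e1] at n1 l1
  rw [e2] at n2 l2
  rw [e3] at m1 k1
  rw [e4] at m2 k2
  have hq : NUP1.q (zz j t) = -(Complex.sin (zz j t) ^ 2 * Complex.sin (zz j t + 2 * NUP1.l) *
      Complex.sin (zz j t - 2 * NUP1.l)) /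
      (Complex.sin (zz j t + NUP1.l) * Complex.sin (zz j t - NUP1.l)) := by
    rfl
  rw [hq]
  have p0 := norm_pos_iff.2 n0
  have p1 := norm_pos_iff.2 n1
  have p2 := norm_pos_iff.2 n2
  have q1 := norm_pos_iff.2 m1
  have q2 := norm_pos_iff.2 m2
  refine ⟨div_ne_zero (neg_ne_zero.2 (mul_ne_zero (mul_ne_zero (pow_ne_zero 2 n0) n2) m2))
    (mul_ne_zero n1 m1), ?_⟩
  rw [norm_div, norm_neg, norm_mul, norm_mul, norm_mul, norm_pow,
    Real.log_div (by positivity) (by positivity), Real.log_mul (by positivity) (by positivity),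
    Real.log_mul (by positivity) (by positivity), Real.log_mul (by positivity) (by positivity),
    Real.log_pow, l0, l1, l2, k1, k2]
  unfold lq ro
  have r1 := h_ref t (2 + j) 1
  push_cast at r1 ⊢
  rw [show (8 * 1 - (2 + j)) * NUMF.l = (4 - -2 - j) * NUMF.l by ring] at r1
  rw [r1, show (4 - 0 - j) * NUMF.l = (4 - j) * NUMF.l by ring,
    show (4 - 2 - j) * NUMF.l = (2 - j) * NUMF.l by ring,
    show (4 - 1 - j) * NUMF.l = (3 - j) * NUMF.l by ring,
    show (4 - -1 - j) * NUMF.l = (5 - j) * NUMF.l by ring]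
  ring

theorem log_q1 {δ j : ℝ} (hδ : 0 < δ) (hδ1 : δ ≤ 1) (h : Off δ j) (t : ℝ) :
    NUP1.q1 (zz j t) ≠ 0 ∧ Real.log ‖NUP1.q1 (zz j t)‖ = lq j t + lq (j + 1) t := by
  obtain ⟨n0, l0⟩ := log_sin hδ hδ1 h 0 t
  obtain ⟨n1, l1⟩ := log_sin hδ hδ1 h 1 t
  obtain ⟨n3, l3⟩ := log_sin hδ hδ1 h 3 t
  obtain ⟨m2, k2⟩ := log_sin hδ hδ1 h (-2) t
  have e0 : zz (j + (0 : ℤ)) t = zz j t := by simp
  have e1 : zz (j + (1 : ℤ)) t = zz j t + NUP1.l := by
    rw [l_eq, ← zz_add]; push_cast; ring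
  have e3 : zz (j + (3 : ℤ)) t = zz j t + 3 * NUP1.l := by
    rw [l_eq, ← zz_add]; push_cast; ring
  have e4 : zz (j + (-2 : ℤ)) t = zz j t - 2 * NUP1.l := by
    rw [l_eq, ← zz_add]; push_cast; ring
  rw [e0] at n0 l0
  rw [e1] at n1 l1
  rw [e3] at n3 l3
  rw [e4] at m2 k2
  have hq : NUP1.q1 (zz j t) = Complex.sin (zz j t) * Complex.sin (zz j t + NUP1.l) *
      Complex.sin (zz j t - 2 * NUP1.l) * Complex.sin (zz j t + 3 * NUP1.l) := rfl
  rw [hq]
  have p0 := norm_pos_iff.2 n0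
  have p1 := norm_pos_iff.2 n1
  have p3 := norm_pos_iff.2 n3
  have q2 := norm_pos_iff.2 m2
  refine ⟨mul_ne_zero (mul_ne_zero (mul_ne_zero n0 n1) m2) n3, ?_⟩
  rw [norm_mul, norm_mul, norm_mul, Real.log_mul (by positivity) (by positivity),
    Real.log_mul (by positivity) (by positivity), Real.log_mul (by positivity) (by positivity),
    l0, l1, l3, k2]
  unfold lq ro
  have r1 := h_ref t (2 + j) 1
  have r2 := h_ref t (2 + (j + 1)) 1
  push_cast at r1 r2 ⊢
  rw [show (8 * 1 - (2 + j)) * NUMF.l = (4 - -2 - j) * NUMF.l by ring] at r1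
  rw [show (8 * 1 - (2 + (j + 1))) * NUMF.l = (5 - j) * NUMF.l by ring] at r2
  rw [← r1, ← r2, show (4 - 0 - j) * NUMF.l = (4 - j) * NUMF.l by ring,
    show (4 - 1 - j) * NUMF.l = (3 - j) * NUMF.l by ring,
    show (4 - 3 - j) * NUMF.l = (1 - j) * NUMF.l by ring,
    show (4 - (j + 1)) * NUMF.l = (3 - j) * NUMF.l by ring,
    show (2 - (j + 1)) * NUMF.l = (1 - j) * NUMF.l by ring,
    show (3 - (j + 1)) * NUMF.l = (2 - j) * NUMF.l by ring,
    show (5 - (j + 1)) * NUMF.l = (4 - j) * NUMF.l by ring]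
  ring

theorem log_qg {δ j : ℝ} (hδ : 0 < δ) (hδ1 : δ ≤ 1) (h : Off δ j) (t : ℝ) :
    NUP1.Bd.qg (zz j t) ≠ 0 ∧ Real.log ‖NUP1.Bd.qg (zz j t)‖ = lqg j t := by
  obtain ⟨n0, l0⟩ := log_cos hδ hδ1 h t
  obtain ⟨n3, l3⟩ := log_sin hδ hδ1 h 3 t
  obtain ⟨m3, k3⟩ := log_sin hδ hδ1 h (-3) t
  have e3 : zz (j + (3 : ℤ)) t = zz j t + 3 * NUP1.l := by
    rw [l_eq, ← zz_add]; push_cast; ring
  have e4 : zz (j + (-3 : ℤ)) t = zz j t - 3 * NUP1.l := by
    rw [l_eq, ← zz_add]; push_cast; ring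
  rw [e3] at n3 l3
  rw [e4] at m3 k3
  have hq : NUP1.Bd.qg (zz j t) = Complex.cos (zz j t) ^ 2 /
      (Complex.sin (zz j t + 3 * NUP1.l) ^ 2 * Complex.sin (zz j t - 3 * NUP1.l) ^ 2) := rfl
  rw [hq]
  have p0 := norm_pos_iff.2 n0
  have p3 := norm_pos_iff.2 n3
  have q3 := norm_pos_iff.2 m3
  refine ⟨div_ne_zero (pow_ne_zero 2 n0) (mul_ne_zero (pow_ne_zero 2 n3) (pow_ne_zero 2 m3)), ?_⟩
  rw [norm_div, norm_mul, norm_pow, norm_pow, norm_pow,
    Real.log_div (by positivity) (by positivity), Real.log_mul (by positivity) (by positivity),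
    Real.log_pow, Real.log_pow, Real.log_pow, l0, l3, k3]
  unfold lqg
  have r1 := h_ref t (j - 1) 0
  have r2 := h_ref t (j + 1) 1
  push_cast at r1 r2 ⊢
  rw [show (8 * 0 - (j - 1)) * NUMF.l = (4 - 3 - j) * NUMF.l by ring] at r1
  rw [show (8 * 1 - (j + 1)) * NUMF.l = (4 - -3 - j) * NUMF.l by ring] at r2
  rw [r1, r2, show (j - 1) * NUMF.l = j * NUMF.l - NUMF.l by ring,
    show (j + 1) * NUMF.l = j * NUMF.l + NUMF.l by ring]
  ring

theorem Off_int {δ j : ℝ} (h : Off δ j) (a : ℤ) : Off δ (j + a) := by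
  intro n
  have := h (n - a)
  push_cast at this
  rwa [show j - (n - a : ℝ) = j + a - n by ring] at this

theorem Off_half {δ : ℝ} (h : δ ≤ 1 / 2) : Off δ (1 / 2) := by
  intro n
  rcases le_or_gt n 0 with hn | hn
  · have h1 : (n : ℝ) ≤ 0 := by exact_mod_cast hn
    rw [abs_of_nonneg (by linarith)]
    linarith
  · have h1 : (1 : ℝ) ≤ n := by exact_mod_cast hn
    rw [abs_of_nonpos (by linarith)]
    linarith

theorem Off.weaken {δ δ' j : ℝ} (h : Off δ j) (hd : δ' ≤ δ) : Off δ' j := fun n => hd.trans (h n)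

/-! ### constituents -/

/-- potential of a quantum of species `s'` on a quantum of species `s`, offset difference `j`,
height difference `t` -/
def lp (s s' : Bool) (j t : ℝ) : ℝ := if s = s' then lq j t else lqg j t

/-- potential of a constituent (`ty = true`: string) -/
def lpt (s s' ty : Bool) (j t : ℝ) : ℝ := if ty then lp s s' j t + lp s s' (j + 1) t else lp s s' j t

theorem vl_sub (j y t τ : ℝ) : NUP1.vl (NUP1.l - y) t - NUP1.vl ((1 - j) * NUP1.l) τ =
    zz (j - y / NUMF.l) (t - τ) := by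
  have hl := l_pos
  unfold NUP1.vl zz
  rw [l_eq]
  have e : (j - y / NUMF.l) * NUMF.l = j * NUMF.l - y := by
    field_simp
  rw [e]
  push_cast
  ring

theorem log_pp {δ j y : ℝ} (hδ : 0 < δ) (hδ1 : δ ≤ 1) (h : Off δ (j - y / NUMF.l))
    (s s' ty : Bool) (t τ : ℝ) :
    0 < ‖pp (s, false, NUP1.vl (NUP1.l - y) t) (s', ty, NUP1.vl ((1 - j) * NUP1.l) τ)‖ ∧
    Real.log ‖pp (s, false, NUP1.vl (NUP1.l - y) t) (s', ty, NUP1.vl ((1 - j) * NUP1.l) τ)‖ =
      lpt s s' ty (j - y / NUMF.l) (t - τ) := by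
  unfold pp lpt lp
  simp only
  rw [vl_sub]
  set J := j - y / NUMF.l with hJ
  have h1 : Off δ (J + 1) := by
    have := Off_int h 1
    push_cast at this
    exact this
  have ez : zz J (t - τ) + NUP1.l = zz (J + 1) (t - τ) := by
    rw [l_eq, ← zz_add]
    push_cast
    ring
  by_cases hs : s = s'
  · rw [if_pos hs, if_pos hs, if_pos hs]
    cases ty
    · obtain ⟨a1, a2⟩ := log_q hδ hδ1 h (t - τ)
      exact ⟨norm_pos_iff.2 a1, by simpa [NUP1.Kn.pz] using a2⟩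
    · obtain ⟨a1, a2⟩ := log_q1 hδ hδ1 h (t - τ)
      exact ⟨norm_pos_iff.2 a1, by simpa [NUP1.Kn.pz] using a2⟩
  · rw [if_neg hs, if_neg hs, if_neg hs]
    obtain ⟨a1, a2⟩ := log_qg hδ hδ1 h (t - τ)
    obtain ⟨b1, b2⟩ := log_qg hδ hδ1 h1 (t - τ)
    cases ty
    · exact ⟨norm_pos_iff.2 a1, by simpa [NUP1.Kn.cz] using a2⟩
    · have e : NUP1.Kn.cz false true (zz J (t - τ)) =
          NUP1.Bd.qg (zz J (t - τ)) * NUP1.Bd.qg (zz (J + 1) (t - τ)) := by
        change NUP1.Bd.qg (zz J (t - τ)) * NUP1.Bd.qg (zz J (t - τ) + NUP1.l) = _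
        rw [ez]
      rw [e]
      refine ⟨norm_pos_iff.2 (mul_ne_zero a1 b1), ?_⟩
      rw [norm_mul, Real.log_mul (norm_pos_iff.2 a1).ne' (norm_pos_iff.2 b1).ne', a2, b2]
      simp

/-- constituents of an object: (species, type, offset, height) -/
def cl (jL jS jV τV : ℝ) (x : Xo) : List (Bool × Bool × ℝ × ℝ) :=
  match kd x with
  | .L => [(sp x, false, jL, ht x)]
  | .St => [(sp x, true, 3 / 2, ht x)]
  | .S => [(sp x, true, jS, ht x)]
  | .Sv => [(sp x, true, jS, ht x), (!sp x, false, jV, τV)]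
  | .Svv => [(sp x, true, jS, ht x), (!sp x, false, jS - 2, ht x), (!sp x, false, jS - 2, ht x)]

/-- position of a constituent -/
def ps (p : Bool × Bool × ℝ × ℝ) : Bool × Bool × ℂ :=
  (p.1, p.2.1, NUP1.vl ((1 - p.2.2.1) * NUP1.l) p.2.2.2)

/-- offset of the satellite of `Sv` -/
def oV (e ρ a : ℝ) : ℝ := e - ρ * Real.cos (2 * Real.pi * a) / NUMF.l

/-- height of the satellite of `Sv` -/
def hV (ρ : ℝ) (x : Xo) : ℝ := ht x + ρ * Real.sin (2 * Real.pi * an x)

theorem posV_eq (e ρ t a : ℝ) : posV e ρ t a =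
    NUP1.vl ((1 - oV e ρ a) * NUP1.l) (t + ρ * Real.sin (2 * Real.pi * a)) := by
  have hl := l_pos
  unfold posV posS NUP1.vl oV
  rw [l_eq]
  have e1 : (1 - (e - ρ * Real.cos (2 * Real.pi * a) / NUMF.l)) * NUMF.l =
      (1 - e) * NUMF.l + ρ * Real.cos (2 * Real.pi * a) := by
    field_simp
    ring
  rw [e1]
  have e2 : Complex.exp (2 * Real.pi * a * Complex.I) =
      (Real.cos (2 * Real.pi * a) : ℂ) + (Real.sin (2 * Real.pi * a) : ℂ) * Complex.I := by
    rw [show (2 * Real.pi * a * Complex.I : ℂ) = ((2 * Real.pi * a : ℝ) : ℂ) * Complex.I by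
      push_cast; ring, Complex.exp_mul_I, Complex.ofReal_cos, Complex.ofReal_sin]
  rw [e2]
  push_cast
  ring

theorem parts_eq (jL e ρ : ℝ) (x : Xo) :
    parts jL e ρ x = (cl jL (2 + e) (oV e ρ (an x)) (hV ρ x) x).map ps := by
  obtain ⟨⟨s, k⟩, t, a⟩ := x
  cases k
  · simp [parts, cl, ps, posL, sp, ht]
  · simp only [parts, cl, ps, posT, sp, ht, List.map_cons, List.map_nil]
    congr 4
    ring
  · simp only [parts, cl, ps, posS, sp, ht, List.map_cons, List.map_nil]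
    congr 4
    ring
  · simp only [parts, cl, ps, posS, posV_eq, hV, sp, ht, NUO.an, List.map_cons, List.map_nil]
    congr 4
    ring
  · have h1 : posS e t + 2 * (NUP1.l : ℂ) = NUP1.vl ((1 - (2 + e - 2)) * NUP1.l) t := by
      unfold posS NUP1.vl
      push_cast
      ring
    have h2 : posS e t = NUP1.vl ((1 - (2 + e)) * NUP1.l) t := by
      unfold posS
      congr 1
      ring
    simp only [parts, cl, ps, sp, ht, List.map_cons, List.map_nil, h1]
    rw [h2]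

/-- potential of a list of constituents on a quantum of species `s` at height `t`, all offsets
shifted by `d` -/
def PT (s : Bool) (L : List (Bool × Bool × ℝ × ℝ)) (d t : ℝ) : ℝ :=
  (L.map fun p => lpt s p.1 p.2.1 (p.2.2.1 + d) (t - p.2.2.2)).sum

theorem log_ppN {δ y : ℝ} (hδ : 0 < δ) (hδ1 : δ ≤ 1) (s : Bool) (t : ℝ)
    (L : List (Bool × Bool × ℝ × ℝ)) (h : ∀ p ∈ L, Off δ (p.2.2.1 - y / NUMF.l)) :
    0 < ppN [(s, false, NUP1.vl (NUP1.l - y) t)] (L.map ps) ∧
    Real.log (ppN [(s, false, NUP1.vl (NUP1.l - y) t)] (L.map ps)) = PT s L (-(y / NUMF.l)) t := by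
  induction L with
  | nil => simp [ppN, PT]
  | cons p L ih =>
    obtain ⟨h1, h2⟩ := ih fun p hp => h p (List.mem_cons_of_mem _ hp)
    obtain ⟨h3, h4⟩ := log_pp hδ hδ1 (h p List.mem_cons_self) s p.1 p.2.1 t p.2.2.2
    have e : ppN [(s, false, NUP1.vl (NUP1.l - y) t)] ((p :: L).map ps) =
        ‖pp (s, false, NUP1.vl (NUP1.l - y) t) (ps p)‖ *
          ppN [(s, false, NUP1.vl (NUP1.l - y) t)] (L.map ps) := by
      simp [ppN]
    rw [e]
    have h3' : 0 < ‖pp (s, false, NUP1.vl (NUP1.l - y) t) (ps p)‖ := h3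
    refine ⟨mul_pos h3' h1, ?_⟩
    rw [Real.log_mul h3'.ne' h1.ne', h2]
    have h4' : Real.log ‖pp (s, false, NUP1.vl (NUP1.l - y) t) (ps p)‖ =
      lpt s p.1 p.2.1 (p.2.2.1 - y / NUMF.l) (t - p.2.2.2) := h4
    rw [h4']
    simp only [PT, List.map_cons, List.sum_cons]
    rw [sub_eq_add_neg p.2.2.1]

/-! ### displacement of the constituents -/

/-- change of the centre -/
theorem SFe.recenter {B τ τ' ρ : ℝ} {f : ℝ → ℝ} (hB : 0 ≤ B) (hf : SFe B τ f)
    (h : |τ - τ'| ≤ ρ) : SFe (B * Real.exp (2 * ρ)) τ' f := by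
  obtain ⟨f', hf⟩ := hf
  have h1 : ∀ t, Real.exp (-2 * |t - τ|) ≤ Real.exp (2 * ρ) * Real.exp (-2 * |t - τ'|) := by
    intro t
    rw [← Real.exp_add]
    apply Real.exp_le_exp.2
    have := abs_sub_le t τ τ'
    linarith
  refine ⟨f', hf.deriv, hf.cont, fun t => (hf.le t).trans ?_, fun t => (hf.le' t).trans ?_⟩
  · rw [mul_assoc]
    exact mul_le_mul_of_nonneg_left (h1 t) hB
  · rw [mul_assoc]
    exact mul_le_mul_of_nonneg_left (h1 t) hB

theorem SFe_lp {δ0 ε j τ : ℝ} {δ δ' : ℝ → ℝ} (h0 : 0 < δ0) (h01 : δ0 ≤ 1) (hε : 0 ≤ ε)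
    (hd : ∀ t, HasDerivAt δ (δ' t) t) (hc : Continuous δ') (hδ : ∀ t, |δ t| ≤ ε)
    (hδ' : ∀ t, |δ' t| ≤ ε) (hj : Off (δ0 + ε) j) (s s' : Bool) :
    SFe (36 * ε / Real.sin (δ0 * NUMF.l) ^ 4) τ
      (fun t => lp s s' (j + δ t) (t - τ) - lp s s' j (t - τ)) := by
  unfold lp
  by_cases hs : s = s'
  · simp only [if_pos hs]
    exact SFe_lq h0 h01 hε hd hc hδ hδ' hj
  · simp only [if_neg hs]
    exact SFe_lqg h0 h01 hε hd hc hδ hδ' hj

theorem SFe_lpt {δ0 ε j τ : ℝ} {δ δ' : ℝ → ℝ} (h0 : 0 < δ0) (h01 : δ0 ≤ 1) (hε : 0 ≤ ε)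
    (hd : ∀ t, HasDerivAt δ (δ' t) t) (hc : Continuous δ') (hδ : ∀ t, |δ t| ≤ ε)
    (hδ' : ∀ t, |δ' t| ≤ ε) (hj : Off (δ0 + ε) j) (s s' ty : Bool) :
    SFe ((if ty then 72 else 36) * ε / Real.sin (δ0 * NUMF.l) ^ 4) τ
      (fun t => lpt s s' ty (j + δ t) (t - τ) - lpt s s' ty j (t - τ)) := by
  have h1 := SFe_lp (τ := τ) h0 h01 hε hd hc hδ hδ' hj s s'
  cases ty
  · simpa [lpt] using h1
  · have hj1 : Off (δ0 + ε) (j + 1) := by
      have := Off_int hj 1
      push_cast at this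
      exact this
    have h2 := SFe_lp (τ := τ) h0 h01 hε hd hc hδ hδ' hj1 s s'
    refine ((h1.add h2).mono ?_).congr fun t => ?_
    · apply le_of_eq
      simp only [if_true]
      ring
    · simp only [lpt, if_true]
      rw [show j + 1 + δ t = j + δ t + 1 by ring]
      ring

/-- the displacement `δ(t) = Δ - η t / l` -/
theorem disp_bounds {ε ε1 Δ : ℝ} {η η' : ℝ → ℝ} (hη : ∀ t, |η t| ≤ ε1) (hη' : ∀ t, |η' t| ≤ ε1)
    (hdη : ∀ t, HasDerivAt η (η' t) t) (hcη : Continuous η') (hΔ : |Δ| + ε1 / NUMF.l ≤ ε) :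
    (∀ t, HasDerivAt (fun t => Δ - η t / NUMF.l) (-(η' t / NUMF.l)) t) ∧
    Continuous (fun t => -(η' t / NUMF.l)) ∧ (∀ t, |Δ - η t / NUMF.l| ≤ ε) ∧
    (∀ t, |-(η' t / NUMF.l)| ≤ ε) ∧ 0 ≤ ε := by
  have hl := l_pos
  have h1 : ∀ t, |η t / NUMF.l| ≤ ε1 / NUMF.l := fun t => by
    rw [abs_div, abs_of_pos hl]
    exact div_le_div_of_nonneg_right (hη t) hl.le
  have h2 : ∀ t, |η' t / NUMF.l| ≤ ε1 / NUMF.l := fun t => by
    rw [abs_div, abs_of_pos hl]
    exact div_le_div_of_nonneg_right (hη' t) hl.le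
  have h3 := abs_nonneg Δ
  refine ⟨fun t => ?_, by fun_prop, fun t => ?_, fun t => ?_, ?_⟩
  · simpa using ((hdη t).div_const NUMF.l).const_sub Δ
  · exact (abs_sub _ _).trans ((add_le_add le_rfl (h1 t)).trans hΔ)
  · rw [abs_neg]
    linarith [h2 t]
  · have := (abs_nonneg _).trans (h1 0)
    linarith

/-- **displacement of the potential of an object**: actual offsets `2 + e`, `oV e ρ (an x)` and
curve `η`, against the reference offsets `2 + e0`, `e0` and `η = 0`; the heights are exact -/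
theorem SFe_PT {δ0 ε ε1 jL e e0 ρ : ℝ} {η η' : ℝ → ℝ} (h0 : 0 < δ0) (hε2 : δ0 + ε ≤ 1 / 2)
    (hη : ∀ t, |η t| ≤ ε1) (hη' : ∀ t, |η' t| ≤ ε1) (hdη : ∀ t, HasDerivAt η (η' t) t)
    (hcη : Continuous η') (hρ0 : 0 ≤ ρ) (hρ1 : ρ ≤ 1)
    (he : |e - e0| + ρ / NUMF.l + ε1 / NUMF.l ≤ ε) (hjL : Off (δ0 + ε) jL) (he0 : Off (δ0 + ε) e0)
    (s : Bool) (x : Xo) :
    SFe (400 * ε / Real.sin (δ0 * NUMF.l) ^ 4) (ht x)
      (fun t => PT s (cl jL (2 + e) (oV e ρ (NUO.an x)) (hV ρ x) x) (-(η t / NUMF.l)) t -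
        PT s (cl jL (2 + e0) e0 (hV ρ x) x) 0 t) := by
  have hl := l_pos
  have hρl : 0 ≤ ρ / NUMF.l := by positivity
  have h01 : δ0 ≤ 1 := by
    have h1 := (disp_bounds (Δ := e - e0) (ε := ε) hη hη' hdη hcη (by linarith)).2.2.2.2
    linarith
  have D0 := disp_bounds (Δ := 0) (ε := ε) hη hη' hdη hcη (by
    rw [abs_zero]
    have := abs_nonneg (e - e0)
    linarith)
  have D1 := disp_bounds (Δ := e - e0) (ε := ε) hη hη' hdη hcη (by linarith)
  have hΔV : |oV e ρ (NUO.an x) - e0| ≤ |e - e0| + ρ / NUMF.l := by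
    unfold oV
    have h1 : |ρ * Real.cos (2 * Real.pi * NUO.an x) / NUMF.l| ≤ ρ / NUMF.l := by
      rw [abs_div, abs_mul, abs_of_pos hl, abs_of_nonneg hρ0]
      gcongr
      exact mul_le_of_le_one_right hρ0 (Real.abs_cos_le_one _)
    have h2 : e - ρ * Real.cos (2 * Real.pi * NUO.an x) / NUMF.l - e0 =
        (e - e0) - ρ * Real.cos (2 * Real.pi * NUO.an x) / NUMF.l := by ring
    rw [h2]
    exact (abs_sub _ _).trans (add_le_add le_rfl h1)
  have D2 := disp_bounds (Δ := oV e ρ (NUO.an x) - e0) (ε := ε) hη hη' hdη hcη (by linarith)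
  have hε := D0.2.2.2.2
  have o32 : Off (δ0 + ε) (3 / 2) := by
    have := Off_int (Off_half hε2) 1
    push_cast at this
    rwa [show (1:ℝ) / 2 + 1 = 3 / 2 by norm_num] at this
  have o2 : Off (δ0 + ε) (2 + e0) := by
    have := Off_int he0 2
    push_cast at this
    rwa [add_comm e0 2] at this
  set S := Real.sin (δ0 * NUMF.l) ^ 4 with hS
  have hS0 : 0 < S := by
    have hfl := NUO.four_l
    have : 0 < Real.sin (δ0 * NUMF.l) := by
      refine Real.sin_pos_of_pos_of_lt_pi (by positivity) ?_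
      nlinarith [Real.pi_pos]
    positivity
  -- the string
  have hstr : SFe (72 * ε / S) (ht x) (fun t => lpt s (sp x) true (2 + e + -(η t / NUMF.l))
      (t - ht x) - lpt s (sp x) true (2 + e0) (t - ht x)) := by
    refine ((SFe_lpt (τ := ht x) h0 h01 hε D1.1 D1.2.1 D1.2.2.1 D1.2.2.2.1 o2 s (sp x)
      true).mono ?_).congr fun t => ?_
    · simp only [if_true]
      exact le_rfl
    · rw [show 2 + e0 + (e - e0 - η t / NUMF.l) = 2 + e + -(η t / NUMF.l) by ring]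
  obtain ⟨⟨sx, k⟩, tx, ax⟩ := x
  cases k
  · -- L
    refine ((SFe_lpt (τ := tx) h0 h01 hε D0.1 D0.2.1 D0.2.2.1 D0.2.2.2.1 hjL s sx
      false).mono ?_).congr fun t => ?_
    · simp only [Bool.false_eq_true, if_false]
      gcongr
      norm_num
    · simp only [PT, cl, sp, ht, List.map_cons, List.map_nil, List.sum_cons, List.sum_nil,
        add_zero]
      rw [show jL + (0 - η t / NUMF.l) = jL + -(η t / NUMF.l) by ring]
  · -- St
    refine ((SFe_lpt (τ := tx) h0 h01 hε D0.1 D0.2.1 D0.2.2.1 D0.2.2.2.1 o32 s sx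
      true).mono ?_).congr fun t => ?_
    · simp only [if_true]
      gcongr
      norm_num
    · simp only [PT, cl, sp, ht, List.map_cons, List.map_nil, List.sum_cons, List.sum_nil,
        add_zero]
      rw [show 3 / 2 + (0 - η t / NUMF.l) = 3 / 2 + -(η t / NUMF.l) by ring]
  · -- S
    refine (hstr.mono ?_).congr fun t => ?_
    · gcongr
      norm_num
    · simp only [PT, cl, sp, ht, List.map_cons, List.map_nil, List.sum_cons, List.sum_nil,
        add_zero]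
  · -- Sv
    have hV1 : |hV ρ ((sx, Kind.Sv), (tx, ax)) - tx| ≤ ρ := by
      simp only [hV, ht, NUO.an]
      rw [add_sub_cancel_left, abs_mul, abs_of_nonneg hρ0]
      exact mul_le_of_le_one_right hρ0 (Real.abs_sin_le_one _)
    have h1 := SFe_lpt (τ := hV ρ ((sx, Kind.Sv), (tx, ax))) h0 h01 hε D2.1 D2.2.1 D2.2.2.1
      D2.2.2.2.1 he0 s (!sx) false
    have h2 := SFe.recenter (by
      simp only [Bool.false_eq_true, if_false]
      positivity) h1 hV1
    have hexp : Real.exp (2 * ρ) ≤ 8 := by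
      have h3 : Real.exp (2 * ρ) ≤ Real.exp 2 := Real.exp_le_exp.2 (by linarith)
      have h4 : Real.exp 2 = Real.exp 1 * Real.exp 1 := by rw [← Real.exp_add]; norm_num
      have h5 := Real.exp_one_lt_d9
      have h6 := Real.exp_pos 1
      nlinarith
    refine ((hstr.add h2).mono ?_).congr fun t => ?_
    · simp only [Bool.false_eq_true, if_false]
      have h3 : 36 * ε / S * Real.exp (2 * ρ) ≤ 36 * ε / S * 8 := by gcongr
      have h4 : 0 ≤ ε / S := by positivity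
      have h5 : 72 * ε / S = 72 * (ε / S) := by ring
      have h6 : 36 * ε / S * 8 = 288 * (ε / S) := by ring
      have h7 : 400 * ε / S = 400 * (ε / S) := by ring
      rw [h6] at h3
      rw [h5, h7]
      linarith
    · simp only [PT, cl, sp, ht, List.map_cons, List.map_nil, List.sum_cons, List.sum_nil,
        add_zero]
      rw [show e0 + (oV e ρ (NUO.an ((sx, Kind.Sv), (tx, ax))) - e0 - η t / NUMF.l) =
        oV e ρ (NUO.an ((sx, Kind.Sv), (tx, ax))) + -(η t / NUMF.l) by ring]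
      ring
  · -- Svv
    have h1 : SFe (36 * ε / S) tx (fun t => lpt s (!sx) false (2 + e - 2 + -(η t / NUMF.l))
        (t - tx) - lpt s (!sx) false (2 + e0 - 2) (t - tx)) := by
      refine ((SFe_lpt (τ := tx) h0 h01 hε D1.1 D1.2.1 D1.2.2.1 D1.2.2.2.1 he0 s (!sx)
        false).mono ?_).congr fun t => ?_
      · simp only [Bool.false_eq_true, if_false]
        exact le_rfl
      · rw [show e0 + (e - e0 - η t / NUMF.l) = 2 + e - 2 + -(η t / NUMF.l) by ring,
          show 2 + e0 - 2 = e0 by ring]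
    refine ((hstr.add (h1.add h1)).mono ?_).congr fun t => ?_
    · have h4 : 0 ≤ ε / S := by positivity
      have h5 : 72 * ε / S + (36 * ε / S + 36 * ε / S) = 144 * (ε / S) := by ring
      have h7 : 400 * ε / S = 400 * (ε / S) := by ring
      rw [h5, h7]
      linarith
    · simp only [PT, cl, sp, ht, List.map_cons, List.map_nil, List.sum_cons, List.sum_nil,
        add_zero]
      ring

/-! ### the objects of a configuration -/

theorem ei_bound (P : Par) {r : ℕ} (O : Fin r → Xo) (i : Fin r) (hd : 0 ≤ P.d r) :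
    |ei P O i - P.e| ≤ P.d r := by
  unfold ei
  rw [add_sub_cancel_left, abs_mul, abs_of_nonneg hd]
  have h1 : (rk O i : ℝ) ≤ r := by
    have h2 : rk O i ≤ r := by
      unfold rk
      refine (Finset.card_le_univ _).trans ?_
      simp
    exact_mod_cast h2
  have h2 : |(rk O i : ℝ) / r| ≤ 1 := by
    rw [abs_of_nonneg (by positivity)]
    exact div_le_one_of_le₀ h1 (Nat.cast_nonneg _)
  exact mul_le_of_le_one_right hd h2

/-- the reference constituents of the object `i`: string at offset `2 + P.e`, satellite at offset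
`P.e`, exact heights -/
def cref (P : Par) {r : ℕ} (O : Fin r → Xo) (i : Fin r) : List (Bool × Bool × ℝ × ℝ) :=
  cl P.jL (2 + P.e) P.e (hV (rr P O i) (O i)) (O i)

/-- the true constituents -/
def ctrue (P : Par) {r : ℕ} (O : Fin r → Xo) (i : Fin r) : List (Bool × Bool × ℝ × ℝ) :=
  cl P.jL (2 + ei P O i) (oV (ei P O i) (rr P O i) (NUO.an (O i))) (hV (rr P O i) (O i)) (O i)

theorem Off_ctrue {δ0 ε jL e e0 ρ y : ℝ} (hε2 : δ0 + ε ≤ 1 / 2) (hρ0 : 0 ≤ ρ)
    (he : |e - e0| + ρ / NUMF.l + |y| / NUMF.l ≤ ε) (hjL : Off (δ0 + ε) jL)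
    (he0 : Off (δ0 + ε) e0) (x : Xo) :
    ∀ p ∈ cl jL (2 + e) (oV e ρ (NUO.an x)) (hV ρ x) x, Off δ0 (p.2.2.1 - y / NUMF.l) := by
  have hl := l_pos
  have hρl : 0 ≤ ρ / NUMF.l := by positivity
  have hy : |-(y / NUMF.l)| = |y| / NUMF.l := by rw [abs_neg, abs_div, abs_of_pos hl]
  have hy0 : 0 ≤ |y| / NUMF.l := by positivity
  have ha := abs_nonneg (e - e0)
  have o32 : Off (δ0 + ε) (3 / 2) := by
    have := Off_int (Off_half hε2) 1
    push_cast at this
    rwa [show (1:ℝ) / 2 + 1 = 3 / 2 by norm_num] at this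
  have o2 : Off (δ0 + ε) (2 + e0) := by
    have := Off_int he0 2
    push_cast at this
    rwa [add_comm e0 2] at this
  have k1 : Off δ0 (jL - y / NUMF.l) := by
    rw [sub_eq_add_neg]
    exact Off_shift hjL (by rw [hy]; linarith)
  have k2 : Off δ0 (3 / 2 - y / NUMF.l) := by
    rw [sub_eq_add_neg]
    exact Off_shift o32 (by rw [hy]; linarith)
  have k3 : Off δ0 (2 + e - y / NUMF.l) := by
    rw [show 2 + e - y / NUMF.l = 2 + e0 + (e - e0 + -(y / NUMF.l)) by ring]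
    exact Off_shift o2 ((abs_add_le _ _).trans (by rw [hy]; linarith))
  have k5 : Off δ0 (2 + e - 2 - y / NUMF.l) := by
    rw [show 2 + e - 2 - y / NUMF.l = e0 + (e - e0 + -(y / NUMF.l)) by ring]
    exact Off_shift he0 ((abs_add_le _ _).trans (by rw [hy]; linarith))
  have k4 : Off δ0 (oV e ρ (NUO.an x) - y / NUMF.l) := by
    have h1 : |ρ * Real.cos (2 * Real.pi * NUO.an x) / NUMF.l| ≤ ρ / NUMF.l := by
      rw [abs_div, abs_mul, abs_of_pos hl, abs_of_nonneg hρ0]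
      gcongr
      exact mul_le_of_le_one_right hρ0 (Real.abs_cos_le_one _)
    have h2 : oV e ρ (NUO.an x) - y / NUMF.l = e0 + ((e - e0) +
        (-(ρ * Real.cos (2 * Real.pi * NUO.an x) / NUMF.l) + -(y / NUMF.l))) := by
      unfold oV
      ring
    rw [h2]
    refine Off_shift he0 ((abs_add_le _ _).trans ((add_le_add le_rfl (abs_add_le _ _)).trans ?_))
    rw [hy, abs_neg]
    linarith
  obtain ⟨⟨sx, k⟩, tx, ax⟩ := x
  cases k <;> simp only [cl, List.mem_cons, List.not_mem_nil, or_false, forall_eq_or_imp,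
    forall_eq] <;> simp_all

/-- **the potential of an object on the curve `A'`** -/
theorem log_potN {δ0 ε y : ℝ} (P : Par) {r : ℕ} (O : Fin r → Xo) (i : Fin r) (h0 : 0 < δ0)
    (hε2 : δ0 + ε ≤ 1 / 2) (hd : 0 ≤ P.d r) (hρ0 : 0 ≤ rr P O i)
    (he : P.d r + rr P O i / NUMF.l + |y| / NUMF.l ≤ ε) (hjL : Off (δ0 + ε) P.jL)
    (he0 : Off (δ0 + ε) P.e) (s : Bool) (t : ℝ) :
    0 < potN P O i s (NUP1.vl (NUP1.l - y) t) ∧
    Real.log (potN P O i s (NUP1.vl (NUP1.l - y) t)) = PT s (ctrue P O i) (-(y / NUMF.l)) t := by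
  have hl := l_pos
  have h1 := ei_bound P O i hd
  have h01 : δ0 ≤ 1 := by
    have : 0 ≤ ε := by
      refine le_trans ?_ he
      positivity
    linarith
  have h2 := log_ppN h0 h01 s t (ctrue P O i) (Off_ctrue (e0 := P.e) hε2 hρ0 (by linarith) hjL he0
    (O i))
  unfold potN cons
  rw [parts_eq]
  exact h2

/-- **the displacement of the potential of an object** -/
theorem SFe_potN {δ0 ε ε1 : ℝ} {η η' : ℝ → ℝ} (P : Par) {r : ℕ} (O : Fin r → Xo) (i : Fin r)
    (h0 : 0 < δ0) (hε2 : δ0 + ε ≤ 1 / 2)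
    (hη : ∀ t, |η t| ≤ ε1) (hη' : ∀ t, |η' t| ≤ ε1) (hdη : ∀ t, HasDerivAt η (η' t) t)
    (hcη : Continuous η') (hd : 0 ≤ P.d r) (hρ0 : 0 ≤ rr P O i) (hρ1 : rr P O i ≤ 1)
    (he : P.d r + rr P O i / NUMF.l + ε1 / NUMF.l ≤ ε) (hjL : Off (δ0 + ε) P.jL)
    (he0 : Off (δ0 + ε) P.e) (s : Bool) :
    SFe (400 * ε / Real.sin (δ0 * NUMF.l) ^ 4) (ht (O i))
      (fun t => Real.log (potN P O i s (NUP1.vl (NUP1.l - η t) t)) - PT s (cref P O i) 0 t) := by
  have hl := l_pos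
  have h1 := ei_bound P O i hd
  refine (SFe_PT (e := ei P O i) h0 hε2 hη hη' hdη hcη hρ0 hρ1 (by linarith) hjL he0 s
    (O i)).congr fun t => ?_
  rw [(log_potN P O i h0 hε2 hd hρ0 (y := η t) (by
    have h3 : |η t| / NUMF.l ≤ ε1 / NUMF.l := by
      have := hη t
      gcongr
    linarith) hjL he0 s t).2]
  rfl

end NUDispP
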