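import Pool.Agent.NUC37.Cut
import Pool.Agent.NUO.DispP

/-!
# Energy of the displacement field (O4d)

`fields_repr`: a sum of localised `C¹` fields of size `B` at the points `τ i` is, on the window,
a Fourier series on the circle with energy `≤ 12 B² Kw win`.
`dFO_repr`: the displacement field of a configuration of objects.
-/

set_option autoImplicit false

open MeasureTheory Set Filter Topology

noncomputable section

namespace NUDispQ

open NUMF NUO NUDispE NUDispW NUDispP Pool.Agent.Szego62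

variable {κ : Type*}

/-- the constant of the window bound -/
def Kw : ℝ := 4 / 2 * (Real.exp (2 / 2) * Sd (2 / 2))

theorem Kw_pos : 0 < Kw := by
  unfold Kw
  have := Sd_pos (d := 2 / 2) (by norm_num)
  positivity

theorem sum_abs_le {B : ℝ} (s : Finset κ) (τ : κ → ℝ) (f : κ → ℝ → ℝ) (t : ℝ)
    (h : ∀ i ∈ s, |f i t| ≤ B * Real.exp (-2 * |t - τ i|)) :
    |∑ i ∈ s, f i t| ≤ B * bmaj s τ 2 t := by
  refine (Finset.abs_sum_le_sum_abs _ _).trans ?_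
  rw [bmaj, Finset.mul_sum]
  refine Finset.sum_le_sum fun i hi => (h i hi).trans_eq ?_
  congr 2
  ring

theorem int_sq_le {B a b : ℝ} (hab : a ≤ b) (s : Finset κ) (τ : κ → ℝ) {E : ℝ → ℝ}
    (hE : ContinuousOn E (Icc a b)) (h : ∀ t, |E t| ≤ B * bmaj s τ 2 t) :
    ∫ x in a..b, E x ^ 2 ≤ B ^ 2 * Kw * win s τ := by
  have h1 := bmaj_sq_int (c := 2) (by norm_num) s τ
  have h2 : ∀ x, E x ^ 2 ≤ B ^ 2 * bmaj s τ 2 x ^ 2 := by
    intro x
    rw [← mul_pow, ← sq_abs (E x)]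
    exact pow_le_pow_left₀ (abs_nonneg _) (h x) 2
  rw [intervalIntegral.integral_of_le hab]
  have h3 : ∫ x in Ioc a b, E x ^ 2 ≤ ∫ x in Ioc a b, B ^ 2 * bmaj s τ 2 x ^ 2 := by
    refine setIntegral_mono_on ?_ ?_ measurableSet_Ioc fun x _ => h2 x
    · exact ((hE.pow 2).integrableOn_Icc).mono_set Ioc_subset_Icc_self
    · exact (h1.1.const_mul _).integrableOn
  have h4 : ∫ x in Ioc a b, B ^ 2 * bmaj s τ 2 x ^ 2 ≤ ∫ x, B ^ 2 * bmaj s τ 2 x ^ 2 :=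
    setIntegral_le_integral (h1.1.const_mul _) (ae_of_all _ fun x => by positivity)
  refine (h3.trans h4).trans ?_
  rw [integral_const_mul, mul_assoc]
  exact mul_le_mul_of_nonneg_left h1.2 (sq_nonneg B)

/-- **representation and energy of a sum of localised fields** -/
theorem fields_repr {G L T B : ℝ} (hG : 9 ≤ G) (hL : 0 < L) (hT : 2 * T + 2 ≤ L)
    (s : Finset κ) (τ : κ → ℝ) (f : κ → ℝ → ℝ) (hf : ∀ i ∈ s, SFe B (τ i) (f i)) :
    ∃ (F0 : ℝ) (c : ℕ → ℂ), (Summable fun p => ‖c p‖) ∧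
      (∀ t, |t| ≤ T → ∑ i ∈ s, f i t = F0 + Aser c (2 * Real.pi * t / L)) ∧
      (Summable fun p => L * ‖c p‖ ^ 2 / NUC62.uh G (NUC62.kp L p)) ∧
      L * F0 ^ 2 ≤ B ^ 2 * Kw * win s τ ∧
      ∑' p, L * ‖c p‖ ^ 2 / NUC62.uh G (NUC62.kp L p) ≤ 12 * (B ^ 2 * Kw * win s τ) := by
  classical
  have h0 : ∀ i, ∃ f', i ∈ s → SF B (τ i) (f i) f' := by
    intro i
    by_cases hi : i ∈ s
    · obtain ⟨f', h⟩ := hf i hi
      exact ⟨f', fun _ => h⟩
    · exact ⟨fun _ => 0, fun h => absurd h hi⟩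
  choose f' hf' using h0
  have hd : ∀ x, HasDerivAt (fun t => ∑ i ∈ s, f i t) (∑ i ∈ s, f' i x) x := by
    intro x
    exact HasDerivAt.fun_sum fun i hi => (hf' i hi).deriv x
  have hc' : Continuous fun x => ∑ i ∈ s, f' i x :=
    continuous_finsetSum _ fun i hi => (hf' i hi).cont
  have hc : Continuous fun x => ∑ i ∈ s, f i x :=
    continuous_iff_continuousAt.2 fun x => (hd x).continuousAt
  obtain ⟨F0, c, k1, k2, k3, k4, k5⟩ := NUC37.repr hG hL hT (E := fun t => ∑ i ∈ s, f i t)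
    (E' := fun x => ∑ i ∈ s, f' i x) (fun x _ => hd x) hc'.continuousOn
  have hLL : -(L / 2) ≤ L / 2 := by linarith
  have b1 := int_sq_le hLL s τ hc.continuousOn fun t =>
    sum_abs_le s τ f t fun i hi => (hf' i hi).le t
  have b2 := int_sq_le hLL s τ hc'.continuousOn fun t =>
    sum_abs_le s τ f' t fun i hi => (hf' i hi).le' t
  refine ⟨F0, c, k1, k2, k3, k4.trans b1, k5.trans ?_⟩
  have q1 : Continuous fun x => (∑ i ∈ s, f i x) ^ 2 := hc.pow 2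
  have q2 : Continuous fun x => (∑ i ∈ s, f' i x) ^ 2 := hc'.pow 2
  rw [intervalIntegral.integral_add (q1.intervalIntegrable _ _) (q2.intervalIntegrable _ _)]
  linarith

/-- the total displacement field on the quanta of species `s` -/
def dFO (P : Par) {r : ℕ} (O : Fin r → Xo) (η : ℝ → ℝ) (s : Bool) (t : ℝ) : ℝ :=
  ∑ i, (Real.log (potN P O i s (NUP1.vl (NUP1.l - η t) t)) - PT s (cref P O i) 0 t)

/-- **the displacement field of a configuration**: exact splitting and energy -/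
theorem dFO_repr {G L T δ0 ε ε1 : ℝ} (hG : 9 ≤ G) (hL : 0 < L) (hT : 2 * T + 2 ≤ L)
    {η η' : ℝ → ℝ} (P : Par) {r : ℕ} (O : Fin r → Xo)
    (h0 : 0 < δ0) (hε2 : δ0 + ε ≤ 1 / 2)
    (hη : ∀ t, |η t| ≤ ε1) (hη' : ∀ t, |η' t| ≤ ε1) (hdη : ∀ t, HasDerivAt η (η' t) t)
    (hcη : Continuous η') (hd : 0 ≤ P.d r) (hρ0 : ∀ i, 0 ≤ rr P O i) (hρ1 : ∀ i, rr P O i ≤ 1)
    (he : ∀ i, P.d r + rr P O i / NUMF.l + ε1 / NUMF.l ≤ ε) (hjL : Off (δ0 + ε) P.jL)
    (he0 : Off (δ0 + ε) P.e) (s : Bool) :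
    ∃ (F0 : ℝ) (c : ℕ → ℂ), (Summable fun p => ‖c p‖) ∧
      (∀ t, |t| ≤ T → dFO P O η s t = F0 + Aser c (2 * Real.pi * t / L)) ∧
      (Summable fun p => L * ‖c p‖ ^ 2 / NUC62.uh G (NUC62.kp L p)) ∧
      L * F0 ^ 2 ≤ (400 * ε / Real.sin (δ0 * NUMF.l) ^ 4) ^ 2 * Kw *
        win Finset.univ (fun i => ht (O i)) ∧
      ∑' p, L * ‖c p‖ ^ 2 / NUC62.uh G (NUC62.kp L p) ≤
        12 * ((400 * ε / Real.sin (δ0 * NUMF.l) ^ 4) ^ 2 * Kw *
          win Finset.univ (fun i => ht (O i))) :=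
  fields_repr hG hL hT Finset.univ (fun i => ht (O i)) _ fun i _ =>
    SFe_potN P O i h0 hε2 hη hη' hdη hcη hd (hρ0 i) (hρ1 i) (he i) hjL he0 s

/-- pointwise bound of the displacement field -/
theorem dFO_le {δ0 ε ε1 : ℝ} {η η' : ℝ → ℝ} (P : Par) {r : ℕ} (O : Fin r → Xo)
    (h0 : 0 < δ0) (hε2 : δ0 + ε ≤ 1 / 2)
    (hη : ∀ t, |η t| ≤ ε1) (hη' : ∀ t, |η' t| ≤ ε1) (hdη : ∀ t, HasDerivAt η (η' t) t)
    (hcη : Continuous η') (hd : 0 ≤ P.d r) (hρ0 : ∀ i, 0 ≤ rr P O i) (hρ1 : ∀ i, rr P O i ≤ 1)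
    (he : ∀ i, P.d r + rr P O i / NUMF.l + ε1 / NUMF.l ≤ ε) (hjL : Off (δ0 + ε) P.jL)
    (he0 : Off (δ0 + ε) P.e) (s : Bool) (t : ℝ) :
    |dFO P O η s t| ≤ 400 * ε / Real.sin (δ0 * NUMF.l) ^ 4 *
      bmaj Finset.univ (fun i => ht (O i)) 2 t :=
  sum_abs_le Finset.univ (fun i => ht (O i))
    (fun i t => Real.log (potN P O i s (NUP1.vl (NUP1.l - η t) t)) - PT s (cref P O i) 0 t)
    t fun i _ => by
    obtain ⟨f', h⟩ := SFe_potN P O i h0 hε2 hη hη' hdη hcη hd (hρ0 i) (hρ1 i) (he i) hjL he0 s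
    exact h.le t

end NUDispQ
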