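import Pool.Agent.NUP1S.ConfO
import Pool.Agent.NUP1S.CurveN
import Pool.Agent.NUO.Glue

/-!
# The gas of quanta in the field of the objects on a straight line is bounded by the positive gas on
the curves (step II of the corollary R4)

`gas_pot_le`: general one body functions `G`, `G'` and curves of both signs;
`gas_le_Z1`: the instance of TARGET-A.
-/

set_option autoImplicit false
set_option linter.unusedSectionVars false

noncomputable section

open Complex MeasureTheory Finset
open scoped ENNReal Real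

namespace NUO

open NUP1 NUP1S NUP1S.Ab
open NUP1.Bd (cwz pwz qg chg sin_pos_of Ob)

/-- the kind of a quantum or of a string -/
def obB : Bool → Ob
  | true => .S
  | false => .A

theorem tyB_obB (t : Bool) : tyB (obB t) = t := by cases t <;> rfl

/-- the closed strip of real parts -/
abbrev Ks (δ : ℝ) : Set ℝ := Set.Icc (19 / 20 * l) ((1 + δ) * l)

/-- a quantum of species `s` in the strip does not meet a pole of the part `p` -/
def OkP (δ : ℝ) (s : Bool) (p : Part) : Prop :=
  ∀ v ∈ Ks δ, Ok (s, .A) (p.1, obB p.2.1) (v - p.2.2.re)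

/-- rate of a part -/
def rtP (s : Bool) (p : Part) : ℝ := rt (s, .A) (p.1, obB p.2.1)

theorem pp_eq_gz (s : Bool) (p : Part) (z : ℂ) :
    pp (s, false, z) p = gz (s, .A) (p.1, obB p.2.1) (z - p.2.2) := by
  rw [gz_pp, tyB_obB]
  rfl

theorem meas_pp (s : Bool) (p : Part) : Measurable fun z => pp (s, false, z) p := by
  simp_rw [pp_eq_gz]
  exact (measurable_gz _ _).comp (measurable_id.sub_const _)

theorem diff_pp {δ : ℝ} {s : Bool} {p : Part} (h : OkP δ s p) {u : ℂ} (hu : u.re ∈ Ks δ) :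
    DifferentiableAt ℂ (fun z => pp (s, false, z) p) u := by
  simp_rw [pp_eq_gz]
  have h1 : DifferentiableAt ℂ (gz (s, .A) (p.1, obB p.2.1)) (u - p.2.2) :=
    differentiableAt_gz _ _ (by rw [Complex.sub_re]; exact h _ hu)
  exact h1.comp u (differentiableAt_id.sub_const _)

theorem bdd_pp {δ : ℝ} {s : Bool} {p : Part} (h : OkP δ s p) :
    Bdd (Ks δ) (rtP s p) (fun z => pp (s, false, z) p) := by
  have hK : IsCompact ((fun v => v - p.2.2.re) '' Ks δ) :=
    isCompact_Icc.image (by fun_prop)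
  obtain ⟨C, hC, hb⟩ := bdd_gz hK (s, .A) (p.1, obB p.2.1) (by
    rintro _ ⟨v, hv, rfl⟩
    exact h v hv)
  refine ⟨C * Real.exp (|rtP s p| * |p.2.2.im|), by positivity, fun z hz => ?_⟩
  simp only []
  rw [pp_eq_gz]
  refine (hb (z - p.2.2) ⟨z.re, hz, by simp⟩).trans ?_
  rw [mul_assoc, ← Real.exp_add, Complex.sub_im]
  refine mul_le_mul_of_nonneg_left (Real.exp_le_exp.2 ?_) hC
  show rtP s p * |z.im - p.2.2.im| ≤ _
  have h1 : |z.im - p.2.2.im| ≤ |z.im| + |p.2.2.im| := abs_sub _ _
  have h2 : |z.im| ≤ |z.im - p.2.2.im| + |p.2.2.im| := by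
    have := abs_add_le (z.im - p.2.2.im) p.2.2.im
    simpa using this
  rcases le_total 0 (rtP s p) with h0 | h0
  · rw [abs_of_nonneg h0]
    nlinarith
  · rw [abs_of_nonpos h0]
    nlinarith

/-! ### lists of parts -/

theorem meas_list (s : Bool) (B : List Part) : Measurable fun z => ppC [(s, false, z)] B := by
  simp_rw [ppC_single]
  induction B with
  | nil => simp
  | cons p B ih =>
    simp only [List.map_cons, List.prod_cons]
    exact (meas_pp s p).mul ih

theorem diff_list {δ : ℝ} {s : Bool} {B : List Part} (h : ∀ p ∈ B, OkP δ s p) {u : ℂ}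
    (hu : u.re ∈ Ks δ) : DifferentiableAt ℂ (fun z => ppC [(s, false, z)] B) u := by
  simp_rw [ppC_single]
  induction B with
  | nil => simp
  | cons p B ih =>
    simp only [List.map_cons, List.prod_cons]
    exact (diff_pp (h p List.mem_cons_self) hu).mul
      (ih fun q hq => h q (List.mem_cons_of_mem _ hq))

theorem bdd_list {δ : ℝ} {s : Bool} {B : List Part} (h : ∀ p ∈ B, OkP δ s p) :
    Bdd (Ks δ) (B.map (rtP s)).sum (fun z => ppC [(s, false, z)] B) := by
  simp_rw [ppC_single]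
  induction B with
  | nil => exact ⟨1, zero_le_one, fun z _ => by simp⟩
  | cons p B ih =>
    simp only [List.map_cons, List.prod_cons, List.sum_cons]
    exact (bdd_pp (h p List.mem_cons_self)).mul (ih fun q hq => h q (List.mem_cons_of_mem _ hq))

/-! ### the field of the configuration -/

variable {r : ℕ}

theorem meas_potC (P : Par) (O : Fin r → Xo) (s : Bool) : Measurable (potC P O s) := by
  unfold potC potG
  exact Finset.measurable_prod _ fun i _ => meas_list s _

theorem diff_potC {δ : ℝ} {P : Par} {O : Fin r → Xo} {s : Bool}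
    (h : ∀ i, ∀ p ∈ cons P O i, OkP δ s p) {u : ℂ} (hu : u.re ∈ Ks δ) :
    DifferentiableAt ℂ (potC P O s) u := by
  unfold potC potG
  exact DifferentiableAt.fun_finsetProd fun i _ => diff_list (h i) hu

theorem bdd_potC {δ : ℝ} {P : Par} {O : Fin r → Xo} {s : Bool}
    (h : ∀ i, ∀ p ∈ cons P O i, OkP δ s p) :
    Bdd (Ks δ) (∑ i, ((cons P O i).map (rtP s)).sum) (potC P O s) := by
  unfold potC potG
  have : ∀ S : Finset (Fin r), Bdd (Ks δ) (∑ i ∈ S, ((cons P O i).map (rtP s)).sum)
      (fun z => ∏ i ∈ S, ppC [(s, false, z)] (cons P O i)) := by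
    intro S
    induction S using Finset.induction_on with
    | empty => exact ⟨1, zero_le_one, fun z _ => by simp⟩
    | insert i S hi ih =>
      simp_rw [Finset.sum_insert hi, Finset.prod_insert hi]
      exact (bdd_list (h i)).mul ih
  exact this univ

/-! ### the rates -/

theorem rt_parts (s : Bool) (jL e ρ : ℝ) (x : Xo) : ((parts jL e ρ x).map (rtP s)).sum =
    (if s then 2 else -2) * ((NUO.chg true x : ℝ) - NUO.chg false x) := by
  obtain ⟨⟨c, k⟩, t, a⟩ := x
  cases s <;> cases c <;> cases k <;>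
    simp [parts, NUO.chg, rtP, rt, sc, obB, NUP1.Bd.chg] <;> norm_num

theorem rt_conf (s : Bool) (P : Par) (O : Fin r → Xo) :
    ∑ i, ((cons P O i).map (rtP s)).sum =
      (if s then 2 else -2) * ((chgO O true : ℝ) - chgO O false) := by
  unfold cons
  simp_rw [rt_parts]
  rw [← Finset.mul_sum, Finset.sum_sub_distrib]
  unfold chgO
  push_cast
  rfl

/-! ### no poles -/

theorem sne {x : ℝ} (h1 : -(8 * l) < x) (h2 : x < 8 * l) (h0 : x ≠ 0) : Real.sin x ≠ 0 := by
  rcases lt_or_gt_of_ne h0 with h | h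
  · have := sin_pos_of (x := -x) (by linarith) (by linarith)
    rw [Real.sin_neg] at this
    exact (by linarith : Real.sin x < 0).ne
  · exact (sin_pos_of h h2).ne'

/-- quantum - quantum -/
theorem okA {s c : Bool} {d : ℝ} (h1 : -(3 * l) < d) (h2 : d < 3 * l)
    (h3 : |d| < l ∨ l < d) : Ok (s, .A) (c, .A) d := by
  have hl := Bd.l_pos
  intro x hx
  unfold poles at hx
  by_cases hc : s = c
  · simp only [hc, if_true, List.mem_cons, List.not_mem_nil, or_false] at hx
    rcases hx with rfl | rfl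
    · refine sne (by linarith) (by linarith) ?_
      rcases h3 with h3 | h3
      · have := (abs_lt.1 h3).1
        linarith
      · linarith
    · refine sne (by linarith) (by linarith) ?_
      rcases h3 with h3 | h3
      · have := (abs_lt.1 h3).2
        linarith
      · linarith
  · simp only [hc, if_false, List.mem_cons, List.not_mem_nil, or_false] at hx
    rcases hx with rfl | rfl
    · exact sne (by linarith) (by linarith) (by linarith)
    · exact sne (by linarith) (by linarith) (by linarith)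

/-- quantum - string -/
theorem okS {s c : Bool} {d : ℝ} (h1 : 0 < d) (h2 : d < 3 * l) (h3 : d ≠ 2 * l) :
    Ok (s, .A) (c, .S) d := by
  have hl := Bd.l_pos
  intro x hx
  unfold poles at hx
  by_cases hc : s = c
  · simp [hc] at hx
  · simp only [hc, if_false, List.mem_cons, List.not_mem_nil, or_false] at hx
    rcases hx with rfl | rfl | rfl | rfl
    · exact sne (by linarith) (by linarith) (by linarith)
    · exact sne (by linarith) (by linarith) (by linarith)
    · exact sne (by linarith) (by linarith) (by linarith)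
    · exact sne (by linarith) (by linarith) fun h => h3 (by linarith)

theorem rk_lt59 (O : Fin r → Xo) (i : Fin r) : rk O i < r := by
  have := Finset.card_lt_univ_of_notMem
    (s := univ.filter fun j : Fin r => j < i ∧ sp (O j) = sp (O i)) (x := i) (by simp)
  rw [Fintype.card_fin] at this
  exact this

theorem ei_mem59 {P : Par} (h : GoodP P) (O : Fin r → Xo) (i : Fin r) :
    1 / 10 ≤ ei P O i ∧ ei P O i ≤ 3 / 5 := h.shift (rk_lt59 O i)

theorem rr_mem {P : Par} (h : GoodP P) (O : Fin r → Xo) (i : Fin r) :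
    0 < rr P O i ∧ rr P O i ≤ l / 16 := ⟨h.r0 _ _, rad_bound h _ _⟩

theorem vl_re59 (σ t : ℝ) : (vl σ t).re = σ := by simp [vl]

theorem circ_re (ρ a : ℝ) : (ρ * Complex.exp (2 * Real.pi * a * I)).re =
    ρ * Real.cos (2 * Real.pi * a) := by
  rw [show (2 * Real.pi * a * I : ℂ) = ((2 * Real.pi * a : ℝ) : ℂ) * I by push_cast; ring,
    Complex.re_ofReal_mul, Complex.exp_ofReal_mul_I_re]

theorem posV_re59 (e ρ t a : ℝ) : (posV e ρ t a).re = (1 - e) * l + ρ * Real.cos (2 * Real.pi * a) := by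
  unfold posV posS
  rw [Complex.add_re, Complex.add_re, circ_re, vl_re59]
  simp
  ring

theorem okP_cons {δ : ℝ} (hδ : δ ≤ 1 / 20) {P : Par} (h : GoodP P) (hj : P.jL + δ < 3)
    (O : Fin r → Xo) (i : Fin r) (s : Bool) : ∀ p ∈ cons P O i, OkP δ s p := by
  have hl := Bd.l_pos
  obtain ⟨e1, e2⟩ := ei_mem59 h O i
  obtain ⟨r1, r2⟩ := rr_mem h O i
  have j1 := h.j1
  set e := ei P O i with he
  set ρ := rr P O i with hρ
  have hS : ∀ v ∈ Ks δ, ∀ c : Bool, Ok (s, .A) (c, .S) (v - (-((1 + e) * l))) := by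
    intro v hv c
    refine okS ?_ ?_ ?_
    · nlinarith [hv.1]
    · nlinarith [hv.2]
    · have : 2 * l < v - (-((1 + e) * l)) := by nlinarith [hv.1]
      exact this.ne'
  have hV : ∀ v ∈ Ks δ, ∀ c : Bool, ∀ x : ℝ, |x| ≤ l / 16 →
      Ok (s, .A) (c, .A) (v - ((1 - e) * l + x)) := by
    intro v hv c x hx
    obtain ⟨x1, x2⟩ := abs_le.1 hx
    have a1 : v - ((1 - e) * l + x) < l := by nlinarith [hv.2]
    have a2 : -l < v - ((1 - e) * l + x) := by nlinarith [hv.1]
    exact okA (by linarith) (by linarith) (Or.inl (abs_lt.2 ⟨a2, a1⟩))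
  have hcos : ∀ a : ℝ, |ρ * Real.cos (2 * Real.pi * a)| ≤ l / 16 := by
    intro a
    rw [abs_mul, abs_of_pos r1]
    have := Real.abs_cos_le_one (2 * Real.pi * a)
    nlinarith
  intro p hp v hv
  unfold cons at hp
  rcases hO : O i with ⟨⟨c, k⟩, t, a⟩
  rw [hO] at hp
  cases k
  · -- L
    simp only [parts, List.mem_singleton] at hp
    subst hp
    show Ok (s, .A) (c, .A) (v - (posL P.jL t).re)
    unfold posL
    rw [vl_re59]
    refine okA ?_ ?_ (Or.inr ?_)
    · nlinarith [hv.1]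
    · nlinarith [hv.2]
    · nlinarith [hv.1]
  · -- St
    simp only [parts, List.mem_singleton] at hp
    subst hp
    show Ok (s, .A) (c, .S) (v - (posT t).re)
    unfold posT
    rw [vl_re59]
    refine okS ?_ ?_ ?_
    · nlinarith [hv.1]
    · nlinarith [hv.2]
    · have : v - -(1 / 2 * l) < 2 * l := by nlinarith [hv.2]
      exact this.ne
  · -- S
    simp only [parts, List.mem_singleton] at hp
    subst hp
    show Ok (s, .A) (c, .S) (v - (posS e t).re)
    unfold posS
    rw [vl_re59]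
    exact hS v hv c
  · -- Sv
    simp only [parts, List.mem_cons, List.not_mem_nil, or_false] at hp
    rcases hp with rfl | rfl
    · show Ok (s, .A) (c, .S) (v - (posS e t).re)
      unfold posS
      rw [vl_re59]
      exact hS v hv c
    · show Ok (s, .A) (!c, .A) (v - (posV e ρ t a).re)
      rw [posV_re59]
      exact hV v hv _ _ (hcos a)
  · -- Svv
    simp only [parts, List.mem_cons, List.not_mem_nil, or_false] at hp
    have h0 : (posS e t + 2 * l).re = (1 - e) * l + 0 := by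
      unfold posS
      rw [Complex.add_re, vl_re59]
      simp
      ring
    rcases hp with rfl | rfl | rfl
    · show Ok (s, .A) (c, .S) (v - (posS e t).re)
      unfold posS
      rw [vl_re59]
      exact hS v hv c
    · show Ok (s, .A) (!c, .A) (v - (posS e t + 2 * l).re)
      rw [h0]
      exact hV v hv _ _ (by rw [abs_zero]; positivity)
    · show Ok (s, .A) (!c, .A) (v - (posS e t + 2 * l).re)
      rw [h0]
      exact hV v hv _ _ (by rw [abs_zero]; positivity)

/-! ### the curves -/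

/-- a curve `Re u = l - η`, `- δ l ≤ η ≤ l / 20` -/
structure CrvR (δ : ℝ) (η η' : ℝ → ℝ) : Prop where
  hd : ∀ t, HasDerivAt η (η' t) t
  hc : Continuous η'
  h0 : ∀ t, -(δ * l) ≤ η t
  h1 : ∀ t, η t ≤ l / 20
  hb : ∃ B, ∀ t, |η' t| ≤ B

theorem CrvR.crv {δ : ℝ} {η η' : ℝ → ℝ} (h : CrvR δ η η') (hδ : 0 ≤ δ) :
    Crv (19 / 20 * l) ((1 + δ) * l) l (dA η) (dA η') := by
  have hl := Bd.l_pos
  have him : ∀ t, (dA η t).im = η t := fun t => by unfold dA; simp
  obtain ⟨B, hB⟩ := h.hb
  refine ⟨fun t => ?_, ?_, ⟨max (max (δ * l) (l / 20)) B, ?_, fun t => ⟨?_, ?_⟩⟩, ⟨?_, ?_⟩,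
    fun t => ?_, fun t => ?_⟩
  · exact (h.hd t).ofReal_comp.mul_const I
  · unfold dA
    exact (continuous_ofReal.comp h.hc).mul continuous_const
  · exact le_max_of_le_left (le_max_of_le_right (by positivity))
  · unfold dA
    rw [norm_mul, norm_I, mul_one, Complex.norm_real, Real.norm_eq_abs]
    refine le_max_of_le_left (abs_le.2 ⟨?_, (h.h1 t).trans (le_max_right _ _)⟩)
    have := h.h0 t
    have h2 : δ * l ≤ max (δ * l) (l / 20) := le_max_left _ _
    linarith
  · unfold dA
    rw [norm_mul, norm_I, mul_one, Complex.norm_real, Real.norm_eq_abs]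
    exact le_max_of_le_right (hB t)
  · linarith
  · nlinarith
  · rw [him]
    have := h.h1 t
    linarith
  · rw [him]
    have := h.h0 t
    linarith

theorem pos_pA (η : ℝ → ℝ) (t : ℝ) : vl l t + I * dA η t = pA η t := by
  unfold pA dA vl
  push_cast
  rw [mul_comm I, mul_assoc, I_mul_I]
  ring

theorem pA_mem {δ : ℝ} {η η' : ℝ → ℝ} (h : CrvR δ η η') (t : ℝ) : (pA η t).re ∈ Ks δ := by
  unfold pA
  rw [vl_re59]
  have h0 := h.h0 t
  have h1 := h.h1 t
  exact ⟨by linarith, by linarith⟩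

/-- constants in the one body factors -/
theorem WO_smul {p n : ℕ} (DX DX1 DY DY1 : ℝ → ℂ) (a a' : ℝ → ℝ) (c : ℝ) (t : Fin p → ℝ)
    (t' : Fin n → ℝ) : NU42.WO DX DX1 DY DY1 (fun t => c * a t) (fun t => c * a' t) t t' =
      c ^ (p + n) * NU42.WO DX DX1 DY DY1 a a' t t' := by
  have e : ∀ {k : ℕ} (D1 : ℝ → ℂ) (a : ℝ → ℝ) (t : Fin k → ℝ),
      NU42.ob D1 (fun t => c * a t) t = c ^ k * NU42.ob D1 a t := by
    intro k D1 a t
    unfold NU42.ob
    have : ∀ i, ‖1 + D1 (t i)‖ * (c * a (t i)) = c * (‖1 + D1 (t i)‖ * a (t i)) := fun i => by ring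
    simp_rw [this]
    rw [Finset.prod_mul_distrib, Finset.prod_const, Finset.card_univ, Fintype.card_fin]
  unfold NU42.WO
  rw [e, e, pow_add]
  ring

/-- one body factor with a general one body function -/
def qG (G : ℂ → ℂ) (P : Par) (η : ℝ → ℝ) (O : Fin r → Xo) (s : Bool) (t : ℝ) : ℝ :=
  (2 * Real.pi)⁻¹ * ‖G (pA η t)‖ * ∏ i, potN P O i s (pA η t)

/-- the positive gas with general one body functions and two curves -/
def ZG (G G' : ℂ → ℂ) (P : Par) (η η' ζ ζ' : ℝ → ℝ) (O : Fin r → Xo) (a b : ℕ) : ℝ≥0∞ :=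
  ((a.factorial : ℝ≥0∞) * b.factorial)⁻¹ * ∫⁻ x : (Fin a → ℝ) × (Fin b → ℝ),
    ENNReal.ofReal (NU42.WO (dA η) (dA η') (dA ζ) (dA ζ') (qG G P η O true)
      (qG G' P ζ O false) x.1 x.2)

/-- **Step II, general form**: the gas in the field of the objects is bounded by the positive gas
on any two admissible curves (which may depend on the objects). -/
theorem gas_pot_le {P : Par} (hP : GoodP P) {δ : ℝ} (hδ0 : 0 ≤ δ) (hδ : δ ≤ 1 / 20)
    (hj : P.jL + δ < 3) {η η' ζ ζ' : ℝ → ℝ} (hη : CrvR δ η η') (hζ : CrvR δ ζ ζ')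
    (O : Fin r → Xo) {κ : ℝ} (hκ : 0 < κ) {G G' : ℂ → ℂ} (m1 : Measurable G)
    (m2 : Measurable G') (d1 : ∀ u : ℂ, u.re ∈ Ks δ → DifferentiableAt ℂ G u)
    (d2 : ∀ u : ℂ, u.re ∈ Ks δ → DifferentiableAt ℂ G' u)
    (b1 : Bdd (Ks δ) (-κ) G) (b2 : Bdd (Ks δ) (-κ) G') {a b : ℕ}
    (hn : a + chgO O true = b + chgO O false) :
    ‖gas a b l (fun z => G z * potC P O true z) (fun z => G' z * potC P O false z)‖ₑ ≤
      ZG G G' P η η' ζ ζ' O a b := by
  have hl := Bd.l_pos
  have hQ : ((a : ℝ) - b) = (chgO O false : ℝ) - chgO O true := by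
    have : (a : ℝ) + chgO O true = b + chgO O false := by exact_mod_cast hn
    linarith
  have ok := fun s i => okP_cons hδ hP hj O i s
  have r1 := rt_conf true P O
  have r2 := rt_conf false P O
  simp only [if_true] at r1
  simp only [Bool.false_eq_true, if_false] at r2
  have B1 := (b1.mul (bdd_potC (ok true))).rate (s' := -(κ + 2 * (((a : ℤ) - b : ℤ) : ℝ))) (by
    rw [r1]
    push_cast
    linarith)
  have B2 := (b2.mul (bdd_potC (ok false))).rate (s' := -(κ - 2 * (((a : ℤ) - b : ℤ) : ℝ))) (by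
    rw [r2]
    push_cast
    linarith)
  have hg : Reg p0 κ (19 / 20 * l) ((1 + δ) * l) ((a : ℤ) - b)
      (g2 (fun z => G z * potC P O true z) (fun z => G' z * potC P O false z)) := by
    refine reg_p0 (m1.mul (meas_potC P O true)) (m2.mul (meas_potC P O false))
      (fun u h1 h2 => (d1 u ⟨h1, h2⟩).mul (diff_potC (ok true) ⟨h1, h2⟩))
      (fun u h1 h2 => (d2 u ⟨h1, h2⟩).mul (diff_potC (ok false) ⟨h1, h2⟩))
      (DecOn_of_Bdd B1 le_rfl) (DecOn_of_Bdd B2 le_rfl)
  obtain ⟨hI, hle⟩ := gas_le hκ (by nlinarith) (hη.crv hδ0) (hζ.crv hδ0) a b hg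
  simp only [pos_pA] at hI hle
  have hq1 : qG G P η O true = fun t => (2 * Real.pi)⁻¹ * ‖G (pA η t) * potC P O true (pA η t)‖ := by
    funext t
    unfold qG
    rw [norm_mul, norm_potC]
    ring
  have hq2 : qG G' P ζ O false =
      fun t => (2 * Real.pi)⁻¹ * ‖G' (pA ζ t) * potC P O false (pA ζ t)‖ := by
    funext t
    unfold qG
    rw [norm_mul, norm_potC]
    ring
  unfold ZG
  rw [hq1, hq2]
  simp_rw [WO_smul]
  rw [← ofReal_integral_eq_lintegral_ofReal]
  · have e1 : ((a.factorial : ℝ≥0∞) * b.factorial)⁻¹ =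
        ENNReal.ofReal (((a.factorial : ℝ) * b.factorial)⁻¹) := by
      rw [ENNReal.ofReal_inv_of_pos (by positivity), ENNReal.ofReal_mul (by positivity),
        ENNReal.ofReal_natCast, ENNReal.ofReal_natCast]
    rw [e1, ← ENNReal.ofReal_mul (by positivity), ← ofReal_norm_eq_enorm]
    refine ENNReal.ofReal_le_ofReal (hle.trans (le_of_eq ?_))
    rw [integral_const_mul]
    have h2pi : (2 * Real.pi) ^ (a + b) ≠ 0 := by positivity
    have hf : ((a.factorial : ℝ) * b.factorial) ≠ 0 := by positivity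
    rw [inv_pow, mul_inv, mul_assoc]
    rfl
  · exact hI.const_mul _
  · refine Filter.Eventually.of_forall fun x => ?_
    exact mul_nonneg (by positivity) (NU42.WO_nonneg _ _ _ _ (fun _ => norm_nonneg _)
      (fun _ => norm_nonneg _) _ _)

/-! ### the instance of TARGET-A -/

theorem Good.goodP {P : Par} {η η' : ℝ → ℝ} (h : Good P η η') : GoodP P :=
  ⟨h.j1, h.j2, h.e1, h.d0, h.e2, h.r0, h.r1⟩

theorem Good.crvR {P : Par} {η η' : ℝ → ℝ} (h : Good P η η') : CrvR 0 η η' :=
  ⟨h.hd, h.hc, fun t => by simpa using h.h0 t, h.h1, h.hb⟩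

theorem adm_std {β : ℝ} (h0 : 0 < β) (h1 : β < 4 / 3) : Adm β (3 / 2 * l) :=
  (lines_std h0 h1).adm

theorem G0_eq (m M : ℕ) (β : ℝ) (u : ℂ) : G0 m M β u = R0 cc m u * NUP1S.ph β M u := by
  unfold G0 R0 NUP1S.ph
  ring

theorem norm_cc : ‖cc‖ = 2 * Real.cos l := by
  have hl := Bd.l_pos
  have hc : 0 ≤ Real.cos l := Real.cos_nonneg_of_mem_Icc ⟨by
    have := Real.pi_pos
    linarith, by unfold l; linarith [Real.pi_pos]⟩
  unfold cc
  rw [norm_mul, norm_neg, Complex.norm_ofNat, Complex.norm_real, Real.norm_of_nonneg hc]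

theorem norm_G0 (m M : ℕ) (β : ℝ) (u : ℂ) : ‖G0 m M β u‖ = RN m u * ‖ph M β u‖ := by
  unfold G0 RN ph
  rw [norm_mul, norm_mul, norm_cc, norm_mul, norm_mul, norm_pow, norm_pow, norm_pow, norm_div,
    norm_div, norm_one, norm_pow, one_div, one_div, inv_pow, inv_pow, div_pow, mul_pow]
  ring

theorem meas_G0 (m M : ℕ) (β : ℝ) : Measurable (G0 m M β) := by
  have : G0 m M β = fun u => R0 cc m u * NUP1S.ph β M u := funext fun u => G0_eq m M β u
  rw [this]
  exact (measurable_R0 _ _).mul (measurable_ph _ _)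

theorem strip_facts {x : ℝ} (hx : x ∈ Ks 0) : NP x ∧ |x + l / 2| ≤ 3 / 2 * l := by
  have hl := Bd.l_pos
  obtain ⟨h1, h2⟩ := hx
  refine ⟨NP_pos (by linarith) (by linarith), ?_⟩
  rw [abs_of_nonneg (by linarith)]
  linarith

theorem diff_G0 {β : ℝ} (h0 : 0 < β) (h1 : β < 4 / 3) (m M : ℕ) {u : ℂ} (hu : u.re ∈ Ks 0) :
    DifferentiableAt ℂ (G0 m M β) u := by
  have : G0 m M β = fun u => R0 cc m u * NUP1S.ph β M u := funext fun u => G0_eq m M β u
  rw [this]
  obtain ⟨a1, a2⟩ := strip_facts hu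
  exact (diffAt_R0 _ _ a1).mul (diffAt_ph (adm_std h0 h1) M a2)

theorem bdd_G0 {β : ℝ} (h0 : 0 < β) (h1 : β < 4 / 3) (m M : ℕ) :
    Bdd (Ks 0) (-(2 * β)) (G0 m M β) := by
  have : G0 m M β = fun u => R0 cc m u * NUP1S.ph β M u := funext fun u => G0_eq m M β u
  rw [this]
  exact ((bdd_R0 cc m isCompact_Icc fun x hx => (strip_facts hx).1).mul
    (bdd_ph (adm_std h0 h1) M fun x hx => (strip_facts hx).2)).rate (by ring)

/-- **Step II for TARGET-A.** -/
theorem gas_le_Z1 {m : ℕ} {β : ℝ} (h0 : 0 < β) (h1 : β < 4 / 3) {P : Par} {η η' : ℝ → ℝ}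
    (h : Good P η η') (O : Fin r → Xo) {a b : ℕ} (hn : a + chgO O true = b + chgO O false) :
    ‖gas a b l (fun z => G0 m m β z * potC P O true z) (fun z => G0 m m β z * potC P O false z)‖ₑ ≤
      Z1 m β P η η' O a b := by
  refine (gas_pot_le h.goodP le_rfl (by norm_num) (by simpa using h.j2) h.crvR h.crvR O
    (κ := 2 * β) (by linarith) (meas_G0 m m β) (meas_G0 m m β)
    (fun u hu => diff_G0 h0 h1 m m hu) (fun u hu => diff_G0 h0 h1 m m hu)
    (bdd_G0 h0 h1 m m) (bdd_G0 h0 h1 m m) hn).trans (le_of_eq ?_)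
  have hq : ∀ s, qG (G0 m m β) P η O s = qA m β P η O s := fun s => by
    funext t
    unfold qG qA
    rw [norm_G0]
  unfold ZG Z1
  rw [hq, hq]

end NUO

end
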