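import Pool.Agent.NUO.Glue
import Pool.Agent.NUO.ActInt
import Pool.Agent.NUCR.SumN

/-!
# The final glue of TARGET-A, one number `n` of quanta at a time (tilted bounds)

`PerN`: the bound of `exp (b' (m - n)) Fn` for `b' = d` and `b' = -d`; `numUp_of_PerN`.
-/

set_option autoImplicit false

noncomputable section

open MeasureTheory Finset
open scoped ENNReal

namespace NUO

/-- **O6, one `n`**: the tilted inequality for one configuration -/
def PerN : Prop := ∃ (C c b c1 c' Ca : ℝ) (k : ℕ), 0 < C ∧ 0 < c ∧ 0 < b ∧ 0 < c1 ∧ 0 ≤ c' ∧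
  0 ≤ Ca ∧ ∀ ep : ℝ, 0 < ep → ep ≤ 1 / 100 → ∀ e1 : ℝ, 0 < e1 → e1 ≤ 1 / 100 → ∀ J : ℝ, 0 ≤ J →
    ∀ δ : ℝ, 0 < δ → ∃ d C' Cst : ℝ, 0 < d ∧ 0 ≤ C' ∧ 0 ≤ Cst ∧ ∃ m0 : ℕ, ∀ m ≥ m0,
      ∀ n ≤ 2 * m, ∀ b' : ℝ, b' = d ∨ b' = -d →
      ∃ (P : Par) (η η' : ℝ → ℝ), Good P η η' ∧ ∀ r ≤ 4 * m, ∀ (O : Fin r → Xo) (W : Finset ℤ),
        ENNReal.ofReal (Real.exp (b' * (m - n))) * Fn m (4 / 3 * (1 - ep)) P η η' n O ≤
          ENNReal.ofReal (Cst * MF m * (m : ℝ) ^ (3 / 8 + Ca * (ep + e1) + δ) *
            (if (r : ℝ) ≤ Real.log m then 1 else Real.exp (c' * Real.log m)) *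
            (∏ i, act C C' c b k (Real.log m) ep e1 J r (ht (O i))) *
            Real.exp (-(c1 * ∑ w ∈ W, (cO O w : ℝ) ^ 2)))

/-- **the final glue**, version with one `n` at a time -/
theorem numUp_of_PerN (hR : R4) (hP : PerN) : Pool.Agent.NUF.NumUp := by
  refine numUp_of fun ε hε => ?_
  obtain ⟨C, c, b, c1, c', Ca, k, hC, hc, hb, hc1, hc', hCa, hP⟩ := hP
  obtain ⟨a, ha, hcore⟩ := sum_core (c' := c') (δ := ε / 4) hc' (by positivity)
  -- the parameters
  set κ : ℝ := min (a / 2 / (10 * C)) 1 with hκ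
  have hκ0 : 0 < κ := lt_min (by positivity) one_pos
  have hκ1 : 10 * C * κ ≤ a / 2 := by
    have : κ ≤ a / 2 / (10 * C) := min_le_left _ _
    rw [le_div_iff₀ (by positivity)] at this
    linarith
  set ep : ℝ := min (κ / 12) (min (1 / 100) (ε / (8 * (Ca + 1)))) with hep
  have hep0 : 0 < ep := lt_min (by positivity) (lt_min (by norm_num) (by positivity))
  have hep1 : ep ≤ κ / 12 := min_le_left _ _
  have hep2' : ep ≤ 1 / 100 := (min_le_right _ _).trans (min_le_left _ _)
  have hep2 : ep ≤ 1 / 4 := hep2'.trans (by norm_num)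
  have hep3 : ep ≤ ε / (8 * (Ca + 1)) := (min_le_right _ _).trans (min_le_right _ _)
  have hCe : Ca * ep ≤ ε / 8 := by
    rw [le_div_iff₀ (by positivity)] at hep3
    nlinarith
  obtain ⟨J, hJ0, hJ⟩ : ∃ J : ℝ, 0 ≤ J ∧ Real.exp (-(2 * Real.pi * J)) ≤ κ / 2 := by
    refine ⟨max 0 (-Real.log (κ / 2)), le_max_left _ _, ?_⟩
    have hpi := Real.pi_gt_three
    have h1 : -Real.log (κ / 2) ≤ 2 * Real.pi * max 0 (-Real.log (κ / 2)) := by
      have h2 := le_max_right 0 (-Real.log (κ / 2))
      have h3 := le_max_left 0 (-Real.log (κ / 2))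
      nlinarith
    calc Real.exp (-(2 * Real.pi * max 0 (-Real.log (κ / 2)))) ≤ Real.exp (Real.log (κ / 2)) :=
          Real.exp_le_exp.2 (by linarith)
      _ = κ / 2 := Real.exp_log (by positivity)
  obtain ⟨d, C', Cst, hd, hC', hCst, m0, hm0⟩ :=
    hP ep hep0 hep2' ep hep0 hep2' J hJ0 (ε / 4) (by positivity)
  obtain ⟨D, k', C3, LA, hD, hC3, hA⟩ := act_sum (c1 := c1) hC hC' hc1 ha
    (show 0 < ε / 4 / 2 by positivity) 10 (actInt hC.le hC' hc hb k)
  obtain ⟨LS, hS⟩ := hcore C3 hC3
  -- large `m`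
  obtain ⟨m1, hm1⟩ : ∃ m1 : ℕ, ∀ m ≥ m1, max (max LA LS) 2 ≤ Real.log m := by
    have := (Real.tendsto_log_atTop.comp tendsto_natCast_atTop_atTop).eventually_ge_atTop
      (max (max LA LS) 2)
    exact Filter.eventually_atTop.1 this
  -- small `m`
  set N : ℕ := max m0 m1 with hN
  set f : ℕ → ℝ := fun m => ∑ n ∈ range (2 * m + 1), ‖Zn m m (4 / 3 * (1 - ep)) n‖ with hf
  have hf0 : ∀ m, 0 ≤ f m := fun m => Finset.sum_nonneg fun n _ => norm_nonneg _
  have hβ0 : 0 < 4 / 3 * (1 - ep) := by linarith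
  have hβ1 : 4 / 3 * (1 - ep) < 4 / 3 := by linarith
  have hMF : ∀ m, 0 < MF m := fun m => Real.exp_pos _
  set B : ℝ := ∑ m ∈ range N, f m / MF m with hB
  have hB0 : 0 ≤ B := Finset.sum_nonneg fun m _ => div_nonneg (hf0 m) (hMF m).le
  set Q : ℝ := 4 * (1 + 1 / d) with hQ
  have hQ0 : 0 < Q := by positivity
  refine ⟨max (Q * Cst) B, fun m hm => ⟨m, 4 / 3 * (1 - ep), le_rfl, hβ0, hβ1, ?_⟩⟩
  have hm1' : (1 : ℝ) ≤ m := by exact_mod_cast hm
  rcases lt_or_ge m N with hlt | hge
  · -- small
    have h1 : f m / MF m ≤ B := Finset.single_le_sum (f := fun m => f m / MF m)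
      (fun m _ => div_nonneg (hf0 m) (hMF m).le) (Finset.mem_range.2 hlt)
    have h2 : (1 : ℝ) ≤ (m : ℝ) ^ (3 / 8 + ε) := Real.one_le_rpow hm1' (by positivity)
    have h3 : f m ≤ B * MF m := by rwa [div_le_iff₀ (hMF m)] at h1
    calc f m ≤ B * MF m := h3
      _ ≤ max (Q * Cst) B * MF m := mul_le_mul_of_nonneg_right (le_max_right _ _) (hMF m).le
      _ ≤ max (Q * Cst) B * (m : ℝ) ^ (3 / 8 + ε) * MF m := by
          refine mul_le_mul_of_nonneg_right ?_ (hMF m).le
          exact le_mul_of_one_le_right (hB0.trans (le_max_right _ _)) h2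
  · -- large
    have g0 : m0 ≤ m := (le_max_left _ _).trans hge
    have g1 := hm1 m ((le_max_right _ _).trans hge)
    set L : ℝ := Real.log m with hL
    have gA : LA ≤ L := ((le_max_left _ _).trans (le_max_left _ _)).trans g1
    have gS : LS ≤ L := ((le_max_right _ _).trans (le_max_left _ _)).trans g1
    have gL : 2 ≤ L := (le_max_right _ _).trans g1
    have hL0 : 0 ≤ L := by linarith
    have hmpos : (0 : ℝ) < m := by linarith
    have hmL : (m : ℝ) = Real.exp L := (Real.exp_log hmpos).symm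
    set M : ℝ := Cst * MF m * (m : ℝ) ^ (3 / 8 + Ca * (ep + ep) + ε / 4) with hM
    have hM0 : 0 ≤ M := by
      have := (hMF m).le
      positivity
    have hrR : ∀ r < 4 * m + 1, (r : ℝ) ≤ Real.exp (2 * L) := by
      intro r hr
      have h1 : (r : ℝ) ≤ 4 * m := by exact_mod_cast Nat.lt_succ_iff.1 hr
      have h2 : (4 : ℝ) ≤ m := by
        rw [hmL]
        have := Real.add_one_le_exp (1 : ℝ)
        have h3 : Real.exp 1 * Real.exp 1 = Real.exp 2 := by rw [← Real.exp_add]; norm_num
        have h4 : Real.exp 2 ≤ Real.exp L := Real.exp_le_exp.2 gL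
        nlinarith
      have h5 : Real.exp (2 * L) = m * m := by rw [two_mul, Real.exp_add, ← hmL]
      rw [h5]
      nlinarith
    have hsm : (10 : ℕ) * C * (Real.exp (-(2 * Real.pi * J)) + 3 * ep + 3 * ep) ≤ a / 2 := by
      refine le_trans ?_ hκ1
      push_cast
      refine mul_le_mul_of_nonneg_left ?_ (by positivity)
      linarith
    have hAr := hA L gA ep hep0.le hep2 ep hep0 hep2 J hJ0 hsm
    -- the chain
    set A : ℕ → ℝ := fun r => 10 * ∫ t, act C C' c b k L ep ep J r t *
      Real.exp (-tilt (WZ D L r) (lamZ k' L r) t) with hAdef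
    set Bf : ℕ → ℝ := fun r => if (r : ℝ) ≤ L then M else M * Real.exp (c' * L) with hBf
    have hBf0 : ∀ r, 0 ≤ Bf r := fun r => by
      simp only [hBf]
      split_ifs
      · exact hM0
      · positivity
    have hact0 : ∀ r t, 0 ≤ act C C' c b k L ep ep J r t := fun r t => act_nonneg hC.le hC' hL0
    have key : ∀ n ≤ 2 * m, ∀ b' : ℝ, b' = d ∨ b' = -d →
        ENNReal.ofReal (Real.exp (b' * (m - n))) * ‖Zn m m (4 / 3 * (1 - ep)) n‖ₑ ≤
        ENNReal.ofReal (∑ r ∈ range (4 * m + 1),
          Bf r * Real.exp (cost D k' c1 L r) * (A r ^ r / (r.factorial : ℝ))) := by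
      intro n hn b' hb'
      obtain ⟨P, η, η', hG, hO⟩ := hm0 m g0 n hn b' hb'
      calc _ ≤ ENNReal.ofReal (Real.exp (b' * (m - n))) *
            ∑ r ∈ range (4 * m + 1), ((r.factorial : ℝ≥0∞))⁻¹ *
            ∫⁻ O : Fin r → Xo, Fn m (4 / 3 * (1 - ep)) P η η' n O ∂(Measure.pi fun _ => nu) := by
            refine mul_le_mul_right ?_ _
            refine (hR m _ hβ0 hβ1 P η η' hG n).trans ?_
            refine Finset.sum_le_sum_of_subset ?_
            intro r hr
            have := Finset.mem_range.1 hr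
            exact Finset.mem_range.2 (by omega)
        _ = ∑ r ∈ range (4 * m + 1), ((r.factorial : ℝ≥0∞))⁻¹ *
            ∫⁻ O : Fin r → Xo, ENNReal.ofReal (Real.exp (b' * (m - n))) *
              Fn m (4 / 3 * (1 - ep)) P η η' n O ∂(Measure.pi fun _ => nu) := by
            rw [Finset.mul_sum]
            refine Finset.sum_congr rfl fun r _ => ?_
            rw [lintegral_const_mul' _ _ ENNReal.ofReal_ne_top]
            ring
        _ ≤ ∑ r ∈ range (4 * m + 1), ((r.factorial : ℝ≥0∞))⁻¹ *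
            ENNReal.ofReal (Bf r * Real.exp (cost D k' c1 L r) * A r ^ r) := by
            refine Finset.sum_le_sum fun r hr => ?_
            refine mul_le_mul_right ?_ _
            have hr4 : r ≤ 4 * m := Nat.lt_succ_iff.1 (Finset.mem_range.1 hr)
            obtain ⟨hi, -, -, -, -⟩ := hAr r (hrR r (Finset.mem_range.1 hr))
            refine le_trans (lintegral_mono fun O => hO r hr4 O (WZ D L r)) ?_
            have h1 := lint_conf_le (r := r) (act C C' c b k L ep ep J r) (hact0 r) (WZ D L r)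
              (lamZ k' L r) hc1 (hBf0 r) hi
            refine le_trans (le_of_eq ?_) h1
            refine lintegral_congr fun O => ?_
            congr 1
            simp only [hBf, cO]
            split_ifs
            · rw [mul_one]
            · rfl
        _ = ENNReal.ofReal (∑ r ∈ range (4 * m + 1),
          Bf r * Real.exp (cost D k' c1 L r) * (A r ^ r / (r.factorial : ℝ))) := by
            rw [ENNReal.ofReal_sum_of_nonneg]
            · refine Finset.sum_congr rfl fun r hr => ?_
              have hfac : (0 : ℝ) < (r.factorial : ℝ) := by positivity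
              have e1 : ((r.factorial : ℝ≥0∞))⁻¹ = ENNReal.ofReal ((r.factorial : ℝ)⁻¹) := by
                rw [ENNReal.ofReal_inv_of_pos hfac, ENNReal.ofReal_natCast]
              rw [e1, ← ENNReal.ofReal_mul (by positivity)]
              congr 1
              field_simp
            · intro r hr
              have hI := (hAr r (hrR r (Finset.mem_range.1 hr))).2.1
              have h2 := hBf0 r
              have h3 : 0 ≤ A r := by simp only [hAdef]; positivity
              positivity
    have hsum : ∑ r ∈ range (4 * m + 1),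
        Bf r * Real.exp (cost D k' c1 L r) * (A r ^ r / (r.factorial : ℝ)) ≤
          M * Real.exp (ε / 4 * L) := by
      refine hS L gS M hM0 (4 * m + 1) A (cost D k' c1 L) _ ?_ ?_ ?_ ?_ ?_
      · intro r hr
        have hI := (hAr r (hrR r hr)).2.1
        simp only [hAdef]
        positivity
      · intro r hr
        have hI := (hAr r (hrR r hr)).2.2.1
        simpa [hAdef] using hI
      · intro r hr h
        have := (hAr r (hrR r hr)).2.2.2.1 h
        linarith
      · intro r hr h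
        exact (hAr r (hrR r hr)).2.2.2.2 h
      · intro r hr
        exact le_rfl
    have hone : ∀ n ≤ 2 * m, ∀ b' : ℝ, b' = d ∨ b' = -d →
        Real.exp (b' * (m - n)) * ‖Zn m m (4 / 3 * (1 - ep)) n‖ ≤ M * Real.exp (ε / 4 * L) := by
      intro n hn b' hb'
      have h1 := (key n hn b' hb').trans (ENNReal.ofReal_le_ofReal hsum)
      rw [← ofReal_norm, ← ENNReal.ofReal_mul (Real.exp_pos _).le] at h1
      exact (ENNReal.ofReal_le_ofReal_iff (by positivity)).1 h1
    have hfin : f m ≤ Q * (M * Real.exp (ε / 4 * L)) := by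
      have h1 := NUCR.sum_n_le (b := 0) (d := d) (s := (m : ℝ)) (Q := M * Real.exp (ε / 4 * L)) hd
        (by positivity) (fun n => ‖Zn m m (4 / 3 * (1 - ep)) n‖) (2 * m + 1)
        (fun n hn => by
          have := hone n (by omega) d (Or.inl rfl)
          simpa using this)
        (fun n hn => by
          have := hone n (by omega) (-d) (Or.inr rfl)
          simpa using this)
      rw [hf, hQ]
      simpa using h1
    have hexp : Real.exp (ε / 4 * L) = (m : ℝ) ^ (ε / 4) := by
      rw [Real.rpow_def_of_pos hmpos, ← hL]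
      ring_nf
    calc f m ≤ Q * (M * Real.exp (ε / 4 * L)) := hfin
      _ = Q * Cst * (m : ℝ) ^ (3 / 8 + Ca * (ep + ep) + ε / 4 + ε / 4) * MF m := by
          rw [hexp, hM, Real.rpow_add hmpos (3 / 8 + Ca * (ep + ep) + ε / 4)]
          ring
      _ ≤ Q * Cst * (m : ℝ) ^ (3 / 8 + ε) * MF m := by
          refine mul_le_mul_of_nonneg_right (mul_le_mul_of_nonneg_left ?_ (by positivity))
            (hMF m).le
          refine Real.rpow_le_rpow_of_exponent_le hm1' ?_
          linarith [hCe]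
      _ ≤ max (Q * Cst) B * (m : ℝ) ^ (3 / 8 + ε) * MF m := by
          refine mul_le_mul_of_nonneg_right ?_ (hMF m).le
          exact mul_le_mul_of_nonneg_right (le_max_left _ _) (by positivity)

/-- TARGET-A from the representation and the bound of one configuration -/
theorem numUp_of_PerConf (hR : R4) (hP : PerConf) : Pool.Agent.NUF.NumUp :=
  numUp_of_R4 hR hP fun _ _ _ _ k h1 h2 h3 h4 => actInt h1 h2 h3 h4 k

end NUO

end
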