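import Pool.Agent.NUO.CertX

/-!
# The opposite species kernels of (STAB): certificates (helper23; certificates of helper9)

`Mc a b` (`NUMH.Mc`, kinds `L`, `T = St`, `S`, `V = Svv`) minus the exact core terms, resp. with the
compensation kernel `gg`, is in the class `PK` (nonnegative in real space, integrable transform).
-/

set_option autoImplicit false
set_option linter.unusedSimpArgs false

open MeasureTheory Set Filter Topology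

namespace NUKX

open NUMH NUCX NUSB NUO NUPosK NUPolyR

noncomputable section

/-- certificate of `Mc .L .L` -/
def cLL : List Tm := [
  ⟨4, .D2 2 4, []⟩,
  ⟨5, .D4 8 10, []⟩,
  ⟨1, .D4 12 14, [.p 0]⟩,
  ⟨6, .D4 10 12, []⟩,
  ⟨1, .D4 6 8, []⟩,
  ⟨4, .D2 4 6, [.m 0]⟩,
  ⟨4, .Cp02, [.q 0]⟩,
  ⟨5, .D4 2 4, [.p 0]⟩,
  ⟨8, .Cp02, [.p 2]⟩,
  ⟨1, .D2 2 4, [.m 0]⟩,
  ⟨1, .D2 0 2, [.p 0]⟩]

theorem X_L_L : PK fun k => PP k * (Mc .L .L (zk k)) := by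
  refine (PK_cert (-1) .L .L (cl [(1, 0), (-2, 4)]) 1 0 12 1 2 0 cLL (by norm_num) (by norm_num)
    (by decide +kernel) (by decide +kernel) (fun z => xb .L .L z) ?_).congr fun k _ => ?_
  · intro z
    try simp only [ev_add, ev_sub, ev_smul, ev_mul, ev_lG5, ev_lAl, ev_lH2, ev_lH4]
    rw [ev_cl _ (by decide)]
    simp only [cz, ch_zero, xb, xLT, xLS, xLV, xTS, xTV, xSV]
    push_cast
    ring
  · unfold Mc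
    push_cast
    ring

/-- certificate of `Mc .L .T` -/
def cLT : List Tm := [
  ⟨72, .D4 11 13, []⟩,
  ⟨48, .Cp13, [.q 0]⟩,
  ⟨30, .D1 1 3, [.p 0]⟩,
  ⟨16, .D2 3 5, []⟩,
  ⟨32, .Cm 1 3, [.m 0]⟩,
  ⟨120, .D4 7 9, []⟩,
  ⟨115, .D4 9 11, []⟩,
  ⟨72, .D4 3 5, [.p 0]⟩,
  ⟨19, .D2 5 7, [.m 0]⟩,
  ⟨32, .Cm 1 3, [.m 2]⟩,
  ⟨16, .D2 3 5, [.m 0]⟩,
  ⟨77, .D4 5 7, []⟩,
  ⟨48, .Cp02, [.p 1]⟩]

theorem X_L_T : PK fun k => PP k * (Mc .L .T (zk k)) := by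
  refine (PK_cert (-1) .L .T (cl [(-1, 5), (-1, 7)]) 1 0 192 2 2 0 cLT (by norm_num) (by norm_num)
    (by decide +kernel) (by decide +kernel) (fun z => xb .L .T z) ?_).congr fun k _ => ?_
  · intro z
    try simp only [ev_add, ev_sub, ev_smul, ev_mul, ev_lG5, ev_lAl, ev_lH2, ev_lH4]
    rw [ev_cl _ (by decide)]
    simp only [cz, ch_zero, xb, xLT, xLS, xLV, xTS, xTV, xSV]
    push_cast
    ring
  · unfold Mc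
    push_cast
    ring

/-- certificate of `Mc .L .V` -/
def cLV : List Tm := [
  ⟨12, .D4 6 8, []⟩,
  ⟨3, .D1 0 2, []⟩,
  ⟨15, .D2 2 4, [.m 0]⟩,
  ⟨8, .D2 4 6, []⟩,
  ⟨9, .D4 12 14, [.p 0]⟩,
  ⟨3, .D4 2 4, [.p 0]⟩,
  ⟨2, .Cm 0 2, []⟩,
  ⟨12, .D4 10 12, []⟩,
  ⟨16, .Cp02, [.q 0]⟩,
  ⟨10, .D2 2 4, [.p 0]⟩,
  ⟨8, .Cp02, [.p 2]⟩,
  ⟨12, .D4 12 14, [.m 0]⟩]

theorem X_L_V : PK fun k => PP k * (Mc .L .V (zk k) - (ch 16 (zk k) - ch 14 (zk k))) := by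
  refine (PK_cert (-1) .L .V (cl [(1, 0), (-2, 4), (1, 8), (-1, 12), (1, 16), (-1, 16), (1, 14)]) 1 0 24 1 2 0 cLV (by norm_num) (by norm_num)
    (by decide +kernel) (by decide +kernel) (fun z => xb .L .V z - (ch 16 z - ch 14 z)) ?_).congr fun k _ => ?_
  · intro z
    try simp only [ev_add, ev_sub, ev_smul, ev_mul, ev_lG5, ev_lAl, ev_lH2, ev_lH4]
    rw [ev_cl _ (by decide)]
    simp only [cz, ch_zero, xb, xLT, xLS, xLV, xTS, xTV, xSV]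
    push_cast
    ring
  · unfold Mc
    push_cast
    ring

/-- certificate of `Mc .T .T` -/
def cTT : List Tm := [
  ⟨8, .Cm 0 2, [.m 0, .m 2]⟩,
  ⟨23, .D4 10 12, [.q 0]⟩,
  ⟨46, .D4 6 8, []⟩,
  ⟨23, .D4 4 6, []⟩,
  ⟨22, .D2 4 6, [.m 0, .m 0]⟩,
  ⟨14, .D2 2 4, [.q 0]⟩,
  ⟨2, .D4 2 4, []⟩,
  ⟨48, .D4 10 12, []⟩,
  ⟨3, .D1 0 2, [.p 0, .p 0]⟩,
  ⟨6, .D2 2 4, [.p 0, .q 0]⟩,
  ⟨2, .D1 0 2, [.p 0]⟩,
  ⟨2, .D4 2 4, [.p 0]⟩,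
  ⟨2, .D4 10 12, [.m 0]⟩,
  ⟨46, .D4 8 10, []⟩]

theorem X_T_T : PK fun k => PP k * (Mc .T .T (zk k)) := by
  refine (PK_cert (-1) .T .T (cl [(-2, 4), (-2, 8)]) 1 0 48 3 2 0 cTT (by norm_num) (by norm_num)
    (by decide +kernel) (by decide +kernel) (fun z => xb .T .T z) ?_).congr fun k _ => ?_
  · intro z
    try simp only [ev_add, ev_sub, ev_smul, ev_mul, ev_lG5, ev_lAl, ev_lH2, ev_lH4]
    rw [ev_cl _ (by decide)]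
    simp only [cz, ch_zero, xb, xLT, xLS, xLV, xTS, xTV, xSV]
    push_cast
    ring
  · unfold Mc
    push_cast
    ring

/-- certificate of `Mc .T .V` -/
def cTV : List Tm := [
  ⟨32, .Cm 1 3, [.m 2]⟩,
  ⟨84, .D4 7 9, []⟩,
  ⟨87, .D4 5 7, []⟩,
  ⟨18, .D2 1 3, [.p 0]⟩,
  ⟨20, .D4 3 5, []⟩,
  ⟨12, .D4 3 5, [.p 0]⟩,
  ⟨105, .D4 9 11, []⟩,
  ⟨27, .D2 5 7, [.m 0]⟩,
  ⟨24, .Cm 1 3, [.m 0]⟩,
  ⟨88, .D4 11 13, []⟩,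
  ⟨48, .Cp13, [.q 0]⟩,
  ⟨28, .D2 3 5, [.m 0]⟩]

theorem X_T_V : PK fun k => PP k * (Mc .T .V (zk k)) := by
  refine (PK_cert (-1) .T .V (cl [(-1, 5), (1, 13)]) 1 0 96 2 2 0 cTV (by norm_num) (by norm_num)
    (by decide +kernel) (by decide +kernel) (fun z => xb .T .V z) ?_).congr fun k _ => ?_
  · intro z
    try simp only [ev_add, ev_sub, ev_smul, ev_mul, ev_lG5, ev_lAl, ev_lH2, ev_lH4]
    rw [ev_cl _ (by decide)]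
    simp only [cz, ch_zero, xb, xLT, xLS, xLV, xTS, xTV, xSV]
    push_cast
    ring
  · unfold Mc
    push_cast
    ring

/-- certificate of `Mc .S .L` -/
def cSL : List Tm := [
  ⟨15, .D2 4 6, [.p 0, .h 0, .h 0]⟩,
  ⟨380, .D4 6 8, []⟩,
  ⟨64, .D4 6 8, [.m 0]⟩,
  ⟨120, .Cm 0 2, [.m 0]⟩,
  ⟨119, .D2 0 2, [.h 0, .h 0]⟩,
  ⟨190, .D4 8 10, [.p 0]⟩,
  ⟨58, .D2 1 3, [.h 1, .h 0]⟩,
  ⟨156, .D4 10 12, []⟩,
  ⟨84, .Cp02, [.q 0, .h 0, .h 0]⟩,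
  ⟨204, .D4 4 6, []⟩,
  ⟨116, .D2 2 4, [.p 0]⟩,
  ⟨106, .D4 8 10, [.m 0]⟩,
  ⟨252, .Cm 0 2, [.m 0, .h 0]⟩,
  ⟨96, .Cp02, [.q 0, .h 0]⟩,
  ⟨258, .D1 0 2, []⟩,
  ⟨102, .D1 1 3, [.h 1]⟩]

theorem X_S_L : PK fun k => PP k * (Mc .S .L (zk k)) := by
  refine (PK_cert (-1) .S .L (cl [(-1, 4), (-1, 8)]) 1 0 720 2 2 2 cSL (by norm_num) (by norm_num)
    (by decide +kernel) (by decide +kernel) (fun z => xb .S .L z) ?_).congr fun k _ => ?_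
  · intro z
    try simp only [ev_add, ev_sub, ev_smul, ev_mul, ev_lG5, ev_lAl, ev_lH2, ev_lH4]
    rw [ev_cl _ (by decide)]
    simp only [cz, ch_zero, xb, xLT, xLS, xLV, xTS, xTV, xSV]
    push_cast
    ring
  · unfold Mc
    push_cast
    ring

/-- certificate of `Mc .S .T` -/
def cST : List Tm := [
  ⟨11843240, .E2, [.m 0, .h 0]⟩,
  ⟨97700, .E2, [.h 0, .h 0]⟩,
  ⟨1892605, .D2 3 5, [.m 0, .m 0, .h 0]⟩,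
  ⟨676500, .Cm 1 3, [.m 0, .m 0, .h 0, .h 0]⟩,
  ⟨753908, .E2, [.p 0]⟩,
  ⟨4320000, .D4 5 7, [.m 0]⟩,
  ⟨90000, .D4 1 3, [.p 0, .p 0, .h 0, .h 0]⟩,
  ⟨146700, .E2, [.p 0, .p 0, .h 0, .h 0]⟩,
  ⟨149260, .E2, [.p 0, .h 0]⟩,
  ⟨377325, .D2 3 5, [.p 0, .p 0, .h 0, .h 0]⟩,
  ⟨9925292, .E2, [.m 0]⟩,
  ⟨7380000, .D4 3 5, [.m 0]⟩,
  ⟨527716, .E2, [.m 0, .m 0]⟩,
  ⟨4428000, .E2, [.h 0]⟩,
  ⟨1230000, .Cm 0 2, [.m 0, .m 0, .h 1]⟩,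
  ⟨5565432, .D2 3 5, [.m 0, .q 0]⟩]

theorem X_S_T : PK fun k => PP k * (Mc .S .T (zk k)) := by
  refine (PK_cert (-1) .S .T (cl [(-1, 1), (-1, 5), (-1, 7), (-1, 11)]) 1 0 7380000 3 2 2 cST (by norm_num) (by norm_num)
    (by decide +kernel) (by decide +kernel) (fun z => xb .S .T z) ?_).congr fun k _ => ?_
  · intro z
    try simp only [ev_add, ev_sub, ev_smul, ev_mul, ev_lG5, ev_lAl, ev_lH2, ev_lH4]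
    rw [ev_cl _ (by decide)]
    simp only [cz, ch_zero, xb, xLT, xLS, xLV, xTS, xTV, xSV]
    push_cast
    ring
  · unfold Mc
    push_cast
    ring

/-- certificate of `Mc .S .S` -/
def cSS : List Tm := [
  ⟨19510968, .D1 0 2, [.m 0]⟩,
  ⟨1655426, .D2 2 4, [.h 0, .h 0, .h 0, .h 0]⟩,
  ⟨35354016, .D2 2 4, [.m 0, .m 0]⟩,
  ⟨862172, .D1 1 3, [.p 0, .h 1, .h 0, .h 0, .h 0]⟩,
  ⟨27260928, .Cm 1 3, [.m 0, .m 3, .h 0]⟩,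
  ⟨24872496, .D4 8 10, [.m 0]⟩,
  ⟨2485544, .D2 2 4, [.h 0, .h 0, .h 0]⟩,
  ⟨473604, .D4 3 5, [.p 0, .p 0, .h 1, .h 0, .h 0, .h 0]⟩,
  ⟨16186176, .Cm 0 2, [.m 0, .m 0, .h 0]⟩,
  ⟨32442928, .D2 2 4, [.h 0, .h 0]⟩,
  ⟨12920544, .D4 10 12, [.m 0, .m 0]⟩,
  ⟨55692, .D4 2 4, [.p 0, .p 0, .h 0, .h 0, .h 0, .h 0]⟩,
  ⟨59998408, .D2 0 2, []⟩,
  ⟨3226872, .Cp02, [.p 0, .h 0, .h 0, .h 0]⟩,
  ⟨52461016, .D2 2 4, [.h 0]⟩,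
  ⟨32804112, .D4 8 10, []⟩,
  ⟨31187520, .D4 2 4, [.m 0]⟩,
  ⟨1059966, .Cp02, [.p 0, .h 0, .h 0, .h 0, .h 0]⟩,
  ⟨1887137, .Cp02, [.h 0, .h 0, .h 0, .h 0]⟩]

theorem X_S_S : PK fun k => PP k * (Mc .S .S (zk k) + gg (zk k)) := by
  refine (PK_cert (-1) .S .S (add (NUPolyR.smul 5 (cl [(-2, 4), (-2, 8)])) lG5) 5 0 63892800 3 2 4 cSS (by norm_num) (by norm_num)
    (by decide +kernel) (by decide +kernel) (fun z => xb .S .S z + gg z) ?_).congr fun k _ => ?_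
  · intro z
    try simp only [ev_add, ev_sub, ev_smul, ev_mul, ev_lG5, ev_lAl, ev_lH2, ev_lH4]
    rw [ev_cl _ (by decide)]
    simp only [cz, ch_zero, xb, xLT, xLS, xLV, xTS, xTV, xSV]
    push_cast
    ring
  · unfold Mc
    push_cast
    ring

/-- certificate of `Mc .S .V` -/
def cSV : List Tm := [
  ⟨180, .D4 8 10, [.p 0, .h 0]⟩,
  ⟨100, .D4 6 8, []⟩,
  ⟨560, .Cp02, [.p 0, .h 0]⟩,
  ⟨680, .D2 0 2, [.m 0]⟩,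
  ⟨1440, .D4 10 12, []⟩,
  ⟨4340, .D4 0 2, []⟩,
  ⟨4660, .D4 2 4, []⟩,
  ⟨2167, .D2 0 2, [.h 0, .h 0]⟩,
  ⟨3540, .D4 4 6, []⟩,
  ⟨160, .Cp02, [.p 0, .h 0, .h 0]⟩,
  ⟨4347, .D2 2 4, [.h 0, .h 0]⟩,
  ⟨4800, .D4 12 14, []⟩,
  ⟨110, .D2 4 6, [.p 0, .h 0, .h 0]⟩,
  ⟨1200, .Cm 0 2, [.m 0, .h 0]⟩,
  ⟨640, .D2 4 6, [.m 0]⟩,
  ⟨3360, .Cm 0 2, [.m 0]⟩,
  ⟨1520, .D4 12 14, [.m 0]⟩]

theorem X_S_V : PK fun k => PP k * (Mc .S .V (zk k) - gg (zk k) * al (zk k) - (ch 16 (zk k) - ch 14 (zk k))) := by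
  refine (PK_cert (-1) .S .V (sub (NUPolyR.smul 25 (NUPolyR.mul lH2 (cl [(-1, 8), (1, 16), (-1, 16), (1, 14)]))) (NUPolyR.mul lG5 lAl)) 25 2 4800 2 2 2 cSV (by norm_num) (by norm_num)
    (by decide +kernel) (by decide +kernel) (fun z => xb .S .V z - gg z * al z - (ch 16 z - ch 14 z)) ?_).congr fun k _ => ?_
  · intro z
    try simp only [ev_add, ev_sub, ev_smul, ev_mul, ev_lG5, ev_lAl, ev_lH2, ev_lH4]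
    rw [ev_cl _ (by decide)]
    simp only [cz, ch_zero, xb, xLT, xLS, xLV, xTS, xTV, xSV]
    push_cast
    ring
  · unfold Mc
    push_cast
    ring

/-- certificate of `Mc .V .V` -/
def cVV : List Tm := [
  ⟨576928, .D2 3 5, [.h 1, .h 0, .h 0, .h 0]⟩,
  ⟨171260, .D1 0 2, [.p 0, .h 0, .h 0, .h 0, .h 0]⟩,
  ⟨12096000, .D1 1 3, [.h 1]⟩,
  ⟨418670, .D4 12 14, [.h 0, .h 0, .h 0, .h 0]⟩,
  ⟨126000, .Cp02, [.q 0, .h 0, .h 0, .h 0, .h 0]⟩,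
  ⟨80740, .D4 0 2, [.p 0, .h 0, .h 0, .h 0, .h 0]⟩,
  ⟨220500, .D4 6 8, [.p 0, .h 0, .h 0, .h 0, .h 0]⟩,
  ⟨2010028, .D1 1 3, [.h 1, .h 0]⟩,
  ⟨252000, .Cp02, [.p 0, .h 0, .h 0, .h 0]⟩,
  ⟨2223572, .D1 0 2, [.h 0]⟩,
  ⟨9375888, .D4 8 10, []⟩,
  ⟨2240000, .D2 2 4, [.m 0]⟩,
  ⟨3070400, .D4 4 6, []⟩,
  ⟨1445552, .D4 6 8, []⟩,
  ⟨10609840, .D4 2 4, []⟩,
  ⟨6776000, .D2 4 6, [.m 0]⟩,
  ⟨4804679, .D2 2 4, [.h 0, .h 0, .h 0, .h 0]⟩]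

theorem X_V_V : PK fun k => PP k * (Mc .V .V (zk k) + gg (zk k) * al (zk k) ^ 2 - 2 * (ch 16 (zk k) - ch 14 (zk k))) := by
  refine (PK_cert (-1) .V .V (add (NUPolyR.smul 125 (NUPolyR.mul lH4 (cl [(4, 0), (-6, 4), (2, 16), (-2, 16), (2, 14)]))) (NUPolyR.mul lG5 (NUPolyR.mul lAl lAl))) 125 4 6048000 1 2 4 cVV (by norm_num) (by norm_num)
    (by decide +kernel) (by decide +kernel) (fun z => xb .V .V z + gg z * al z ^ 2 - 2 * (ch 16 z - ch 14 z)) ?_).congr fun k _ => ?_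
  · intro z
    try simp only [ev_add, ev_sub, ev_smul, ev_mul, ev_lG5, ev_lAl, ev_lH2, ev_lH4]
    rw [ev_cl _ (by decide)]
    simp only [cz, ch_zero, xb, xLT, xLS, xLV, xTS, xTV, xSV]
    push_cast
    ring
  · unfold Mc
    push_cast
    ring

end

end NUKX
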