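import Pool.Agent.NUO.CertX7

/-!
# Opposite species kernels of (STAB) with `St` at `7/4`: certificates (helper23)
-/

set_option autoImplicit false
set_option linter.unusedSimpArgs false

open MeasureTheory Set Filter Topology

namespace NUMH7

open NUCX NUCX7 NUSB NUO NUPosK NUPolyR
open NUMH (B PP zk zk_pos)

noncomputable section

/-- certificate of `Mc .L .T` -/
def cLT : List Tm := [
  ⟨6, .D4 8 10, []⟩,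
  ⟨6, .D4 10 12, []⟩,
  ⟨8, .D4 6 8, []⟩,
  ⟨2, .Cm 0 2, [.m 2]⟩,
  ⟨4, .D2 2 4, []⟩,
  ⟨1, .Cp02, [.p 0]⟩,
  ⟨4, .D4 2 4, [.p 0]⟩,
  ⟨4, .D4 12 14, []⟩,
  ⟨4, .D2 4 6, [.m 0]⟩,
  ⟨4, .D4 0 2, []⟩,
  ⟨3, .Cm 0 2, []⟩,
  ⟨2, .Cp13, [.p 3]⟩]

theorem X_L_T : PK fun k => PP k * Mc .L .T (zk k) := by
  refine (NUCX7.PK_cert (-1) .L .T (cl [(-2, 6)]) 1 0 12 2 2 0 cLT (by norm_num) (by norm_num)
    (by decide +kernel) (by decide +kernel) (fun z => xb .L .T z) ?_).congr fun k _ => ?_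
  · intro z
    rw [ev_cl _ (by decide)]
    simp only [cz, ch_zero, xb, xLT, xTS, xTV]
    push_cast
    ring
  · unfold Mc
    push_cast
    ring

/-- certificate of `Mc .T .T` -/
def cTT : List Tm := [
  ⟨16, .Cm 0 2, [.m 0]⟩,
  ⟨360, .D4 8 10, []⟩,
  ⟨3, .D4 0 2, [.p 0]⟩,
  ⟨135, .D4 12 14, []⟩,
  ⟨114, .D4 6 8, []⟩,
  ⟨80, .Cm 1 3, [.m 0, .q 5]⟩,
  ⟨3, .D4 0 2, [.m 0, .m 0]⟩,
  ⟨6, .D4 2 4, [.p 0]⟩,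
  ⟨15, .D1 0 2, [.p 0, .p 0]⟩,
  ⟨216, .D4 4 6, []⟩,
  ⟨210, .Cm 0 2, []⟩,
  ⟨74, .D2 2 4, [.m 0, .m 0]⟩,
  ⟨7, .D1 0 2, [.p 0]⟩,
  ⟨135, .D4 10 12, []⟩,
  ⟨98, .D2 2 4, [.q 0]⟩]

theorem X_T_T : PK fun k => PP k * Mc .T .T (zk k) := by
  refine (NUCX7.PK_cert (-1) .T .T (cl [(-2, 4), (-2, 8)]) 1 0 240 3 2 0 cTT (by norm_num) (by norm_num)
    (by decide +kernel) (by decide +kernel) (fun z => xb .T .T z) ?_).congr fun k _ => ?_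
  · intro z
    rw [ev_cl _ (by decide)]
    simp only [cz, ch_zero, xb, xLT, xTS, xTV]
    push_cast
    ring
  · unfold Mc
    push_cast
    ring

/-- certificate of `Mc .S .T` -/
def cST : List Tm := [
  ⟨30330, .D2 2 4, [.p 0, .p 0, .h 0]⟩,
  ⟨352800, .D2 2 4, [.m 0, .m 0]⟩,
  ⟨91098, .D2 4 6, [.m 0, .m 0, .h 0]⟩,
  ⟨441504, .D4 8 10, [.p 0]⟩,
  ⟨271656, .Cm 0 2, [.m 0]⟩,
  ⟨12375, .D2 2 4, [.p 0, .p 0, .h 0, .h 0]⟩,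
  ⟨465696, .D4 2 4, []⟩,
  ⟨457632, .D4 10 12, [.m 0]⟩,
  ⟨181440, .E2, [.h 1]⟩,
  ⟨502012, .D4 8 10, []⟩,
  ⟨3240, .E2, [.p 0, .p 0, .h 1, .h 0]⟩,
  ⟨1400, .E2, [.h 1, .h 0]⟩,
  ⟨846692, .D4 6 8, []⟩,
  ⟨2016, .D4 10 12, [.h 0, .h 0]⟩,
  ⟨55657, .D2 2 4, [.h 0, .h 0]⟩,
  ⟨75600, .Cm 0 2, [.m 0, .m 0, .h 0]⟩,
  ⟨443520, .Cm 1 3, [.m 0, .q 5]⟩,
  ⟨28476, .D2 2 4, [.p 0]⟩]

theorem X_S_T : PK fun k => PP k * Mc .S .T (zk k) := by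
  refine (NUCX7.PK_cert (-1) .S .T (cl [(-1, 2), (-2, 6), (-1, 10)]) 1 0 907200 3 2 2 cST (by norm_num) (by norm_num)
    (by decide +kernel) (by decide +kernel) (fun z => xb .S .T z) ?_).congr fun k _ => ?_
  · intro z
    rw [ev_cl _ (by decide)]
    simp only [cz, ch_zero, xb, xLT, xTS, xTV]
    push_cast
    ring
  · unfold Mc
    push_cast
    ring

/-- certificate of `Mc .T .V` -/
def cTV : List Tm := [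
  ⟨6, .D2 0 2, [.p 0]⟩,
  ⟨54, .D4 6 8, []⟩,
  ⟨22, .D2 4 6, []⟩,
  ⟨1, .D4 12 14, [.m 0]⟩,
  ⟨16, .Cp13, [.p 3]⟩,
  ⟨22, .D4 12 14, []⟩,
  ⟨1, .D4 8 10, [.p 0]⟩,
  ⟨52, .D2 4 6, [.m 0]⟩,
  ⟨8, .Cp02, [.q 0]⟩,
  ⟨1, .D4 10 12, [.p 0]⟩,
  ⟨7, .D2 2 4, [.p 0]⟩,
  ⟨41, .D4 8 10, []⟩,
  ⟨12, .Cm 0 2, [.m 0]⟩,
  ⟨72, .D4 10 12, []⟩]

theorem X_T_V : PK fun k => PP k * Mc .T .V (zk k) := by
  refine (NUCX7.PK_cert (-1) .T .V (cl [(-1, 6), (1, 14)]) 1 0 48 2 2 0 cTV (by norm_num) (by norm_num)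
    (by decide +kernel) (by decide +kernel) (fun z => xb .T .V z) ?_).congr fun k _ => ?_
  · intro z
    rw [ev_cl _ (by decide)]
    simp only [cz, ch_zero, xb, xLT, xTS, xTV]
    push_cast
    ring
  · unfold Mc
    push_cast
    ring

end

end NUMH7
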