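import Pool.Agent.NUO.GasSum
import Pool.Agent.NUO.Obj

/-!
# The sum over the configurations on the object space `Xo` (O5, lintegral form)
-/

open MeasureTheory Finset Filter
open scoped ENNReal

noncomputable section

namespace NUO

/-- `r` objects in one space `X`; no measurability of `F` is needed -/
theorem lint_leX {X : Type*} [MeasurableSpace X] {ν : Measure X} [SigmaFinite ν] (h : X → ℝ)
    (z : X → ℝ) (W : Finset ℤ) (lam : ℤ → ℝ) {c M : ℝ} (hc : 0 < c) (hM : 0 ≤ M)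
    (hz0 : ∀ y, 0 ≤ z y)
    (hz : Integrable (fun y => z y * Real.exp (-tilt W lam (h y))) ν) (r : ℕ)
    (F : (Fin r → X) → ℝ≥0∞)
    (hF : ∀ O, F O ≤ ENNReal.ofReal (M * (∏ i, z (O i)) *
      Real.exp (-(c * ∑ w ∈ W, (cnt (fun i => h (O i)) w : ℝ) ^ 2)))) :
    ∫⁻ O, F O ∂(Measure.pi fun _ : Fin r => ν) ≤
      ENNReal.ofReal (M * Real.exp ((∑ w ∈ W, lam w ^ 2) / (4 * c)) *
        (∫ y, z y * Real.exp (-tilt W lam (h y)) ∂ν) ^ r) := by
  have h1 : ∀ O, F O ≤ ENNReal.ofReal (M * Real.exp ((∑ w ∈ W, lam w ^ 2) / (4 * c)) *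
      ∏ i, (z (O i) * Real.exp (-tilt W lam (h (O i))))) := by
    intro O
    refine (hF O).trans (ENNReal.ofReal_le_ofReal ?_)
    rw [Finset.prod_mul_distrib]
    have h2 := energy_le W lam hc (fun i => h (O i))
    have h3 : 0 ≤ M * ∏ i, z (O i) := mul_nonneg hM (Finset.prod_nonneg fun i _ => hz0 _)
    calc M * (∏ i, z (O i)) * Real.exp (-(c * ∑ w ∈ W, (cnt (fun i => h (O i)) w : ℝ) ^ 2))
        ≤ M * (∏ i, z (O i)) * (Real.exp ((∑ w ∈ W, lam w ^ 2) / (4 * c)) *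
          ∏ i, Real.exp (-tilt W lam (h (O i)))) := mul_le_mul_of_nonneg_left h2 h3
      _ = _ := by ring
  have hint : Integrable (fun O : Fin r → X => M * Real.exp ((∑ w ∈ W, lam w ^ 2) / (4 * c)) *
      ∏ i, (z (O i) * Real.exp (-tilt W lam (h (O i))))) (Measure.pi fun _ : Fin r => ν) :=
    (Integrable.fintype_prod (f := fun (_ : Fin r) y => z y * Real.exp (-tilt W lam (h y)))
      (fun _ => hz)).const_mul _
  refine (lintegral_mono h1).trans (le_of_eq ?_)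
  rw [← ofReal_integral_eq_lintegral_ofReal hint (Eventually.of_forall fun O => by
    have h3 : 0 ≤ ∏ i, (z (O i) * Real.exp (-tilt W lam (h (O i)))) :=
      Finset.prod_nonneg fun i _ => mul_nonneg (hz0 _) (Real.exp_pos _).le
    positivity)]
  congr 1
  rw [integral_const_mul,
    integral_fintype_prod_eq_prod (fun (_ : Fin r) y => z y * Real.exp (-tilt W lam (h y))),
    Finset.prod_const, Finset.card_univ, Fintype.card_fin]

lemma integrable_nu {f : ℝ → ℝ} (hf : Integrable f) : Integrable (fun x : Xo => f (ht x)) nu := by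
  unfold nu
  have h1 : Integrable (fun p : ℝ × ℝ => f p.1 * 1)
      ((volume : Measure ℝ).prod ((volume : Measure ℝ).restrict (Set.Ioc 0 1))) := by
    exact Integrable.mul_prod (f := f) (g := fun _ : ℝ => (1 : ℝ)) hf (integrable_const _)
  have h2 : Integrable (fun x : Xo => (fun _ : Bool × Kind => (1 : ℝ)) x.1 *
      (fun p : ℝ × ℝ => f p.1 * 1) x.2)
      ((Measure.count : Measure (Bool × Kind)).prod
        ((volume : Measure ℝ).prod ((volume : Measure ℝ).restrict (Set.Ioc 0 1)))) :=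
    Integrable.mul_prod (f := fun _ : Bool × Kind => (1 : ℝ)) (g := fun p : ℝ × ℝ => f p.1 * 1)
      (integrable_const _) h1
  simpa using h2

lemma integral_nu (f : ℝ → ℝ) : ∫ x : Xo, f (ht x) ∂nu = 10 * ∫ t, f t := by
  unfold nu
  have h1 : ∫ p : ℝ × ℝ, f p.1 * 1
      ∂((volume : Measure ℝ).prod ((volume : Measure ℝ).restrict (Set.Ioc 0 1))) =
      (∫ t, f t) * ∫ _a : ℝ, (1 : ℝ) ∂((volume : Measure ℝ).restrict (Set.Ioc 0 1)) :=
    integral_prod_mul f (fun _ => (1 : ℝ))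
  have h2 : ∫ x : Xo, (fun _ : Bool × Kind => (1 : ℝ)) x.1 *
      (fun p : ℝ × ℝ => f p.1 * 1) x.2
      ∂((Measure.count : Measure (Bool × Kind)).prod
        ((volume : Measure ℝ).prod ((volume : Measure ℝ).restrict (Set.Ioc 0 1)))) =
      (∫ _x : Bool × Kind, (1 : ℝ) ∂Measure.count) * ∫ p : ℝ × ℝ, f p.1 * 1
        ∂((volume : Measure ℝ).prod ((volume : Measure ℝ).restrict (Set.Ioc 0 1))) :=
    integral_prod_mul (fun _ : Bool × Kind => (1 : ℝ)) (fun p : ℝ × ℝ => f p.1 * 1)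
  have h3 : ∫ _x : Bool × Kind, (1 : ℝ) ∂Measure.count = 10 := by
    rw [integral_const, measureReal_def, Measure.count_univ]
    have : ENat.card (Bool × Kind) = 10 := by
      rw [ENat.card_eq_coe_fintype_card]
      rfl
    rw [this]
    simp
  have h4 : ∫ _a : ℝ, (1 : ℝ) ∂((volume : Measure ℝ).restrict (Set.Ioc 0 1)) = 1 := by
    simp
  rw [h3, h1, h4] at h2
  have h5 : ∫ x : Xo, f (ht x) ∂((Measure.count : Measure (Bool × Kind)).prod
        ((volume : Measure ℝ).prod ((volume : Measure ℝ).restrict (Set.Ioc 0 1)))) =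
      ∫ x : Xo, (fun _ : Bool × Kind => (1 : ℝ)) x.1 * (fun p : ℝ × ℝ => f p.1 * 1) x.2
      ∂((Measure.count : Measure (Bool × Kind)).prod
        ((volume : Measure ℝ).prod ((volume : Measure ℝ).restrict (Set.Ioc 0 1)))) := by
    simp [ht]
  rw [h5, h2, mul_one]

/-- **O5 for the object space `Xo`**: the sum over the number of objects of the integrals over
the configurations.  `F r O` is arbitrary (for instance a sum over the number of quanta). -/
theorem xo_sum_of {C c b c1 c' : ℝ} {k : ℕ} (hC : 0 < C) (hc1 : 0 < c1) (hc' : 0 ≤ c')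
    {δ : ℝ} (hδ : 0 < δ) :
    ∃ a0 : ℝ, 0 < a0 ∧ ∀ C' : ℝ, 0 ≤ C' → ActInt C C' c b k → ∃ D L0 : ℝ, 0 < D ∧
      ∀ L ≥ L0, ∀ ep : ℝ, 0 ≤ ep → ep ≤ 1 / 4 →
      ∀ e1 : ℝ, 0 < e1 → e1 ≤ 1 / 4 → ∀ J : ℝ, 0 ≤ J →
      Real.exp (-(2 * Real.pi * J)) + 3 * e1 + 3 * ep ≤ a0 →
      ∀ M : ℝ, 0 ≤ M → ∀ R : ℕ, (R : ℝ) ≤ Real.exp (2 * L) →
      ∀ F : (r : ℕ) → (Fin r → Xo) → ℝ≥0∞,
      (∀ r < R, ∀ O, F r O ≤ ENNReal.ofReal ((if (r : ℝ) ≤ L then M else M * Real.exp (c' * L)) *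
          (∏ i, act C C' c b k L ep e1 J r (ht (O i))) *
          Real.exp (-(c1 * ∑ w ∈ WZ D L r, (cnt (fun i => ht (O i)) w : ℝ) ^ 2)))) →
      ∑ r ∈ range R, ((r.factorial : ℝ≥0∞))⁻¹ * ∫⁻ O, F r O ∂(Measure.pi fun _ : Fin r => nu) ≤
        ENNReal.ofReal (M * Real.exp (δ * L)) := by
  obtain ⟨a, ha, hcore⟩ := sum_core hc' hδ
  refine ⟨a / 2 / (10 * C), by positivity, fun C' hC' hAct => ?_⟩
  obtain ⟨D, k', C3, LA, hD, hC3, hA⟩ := act_sum hC hC' hc1 ha
    (show 0 < δ / 2 by linarith) 10 hAct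
  obtain ⟨LS, hS⟩ := hcore C3 hC3
  refine ⟨D, max (max LA LS) 0, hD, fun L hL ep hep hep' e1 he1 he1' J hJ hsm M hM R hR F hF => ?_⟩
  have l1 : LA ≤ L := ((le_max_left _ _).trans (le_max_left _ _)).trans hL
  have l2 : LS ≤ L := ((le_max_right _ _).trans (le_max_left _ _)).trans hL
  have l3 : 0 ≤ L := (le_max_right _ _).trans hL
  have hsm' : ((10 : ℕ) : ℝ) * C * (Real.exp (-(2 * Real.pi * J)) + 3 * e1 + 3 * ep) ≤ a / 2 := by
    rw [le_div_iff₀ (by positivity)] at hsm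
    push_cast
    linarith
  have hAr := hA L l1 ep hep hep' e1 he1 he1' J hJ hsm'
  have hrR : ∀ r < R, (r : ℝ) ≤ Real.exp (2 * L) := fun r hr =>
    le_trans (by exact_mod_cast hr.le) hR
  set A : ℕ → ℝ := fun r => ((10 : ℕ) : ℝ) * ∫ t, act C C' c b k L ep e1 J r t *
    Real.exp (-tilt (WZ D L r) (lamZ k' L r) t) with hAdef
  set S : ℕ → ℝ := fun r => (if (r : ℝ) ≤ L then M else M * Real.exp (c' * L)) *
    Real.exp (cost D k' c1 L r) * (A r ^ r / (r.factorial : ℝ)) with hSdef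
  have hA0 : ∀ r < R, 0 ≤ A r := fun r hr => mul_nonneg (Nat.cast_nonneg _) (hAr r (hrR r hr)).2.1
  have hMr : ∀ r : ℕ, 0 ≤ (if (r : ℝ) ≤ L then M else M * Real.exp (c' * L)) := by
    intro r
    split_ifs
    · exact hM
    · positivity
  have hS0 : ∀ r < R, 0 ≤ S r := fun r hr => by
    have h1 := hMr r
    have h2 := hA0 r hr
    rw [hSdef]
    positivity
  have hfin := hS L l2 M hM R A (cost D k' c1 L) S hA0
    (fun r hr => (hAr r (hrR r hr)).2.2.1) (fun r hr h => (hAr r (hrR r hr)).2.2.2.1 h)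
    (fun r hr h => (hAr r (hrR r hr)).2.2.2.2 h) (fun r hr => le_refl _)
  refine le_trans ?_ (ENNReal.ofReal_le_ofReal hfin)
  rw [ENNReal.ofReal_sum_of_nonneg fun r hr => hS0 r (Finset.mem_range.mp hr)]
  refine Finset.sum_le_sum fun r hr => ?_
  have hrR' := Finset.mem_range.mp hr
  obtain ⟨hi, hI0, -, -, -⟩ := hAr r (hrR r hrR')
  have hact0 : ∀ t, 0 ≤ act C C' c b k L ep e1 J r t := fun t => act_nonneg hC.le hC' l3
  have hk := lint_leX (ν := nu) (fun x : Xo => ht x)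
    (fun x : Xo => act C C' c b k L ep e1 J r (ht x)) (WZ D L r) (lamZ k' L r) hc1 (hMr r)
    (fun _ => hact0 _)
    (integrable_nu (f := fun t => act C C' c b k L ep e1 J r t *
      Real.exp (-tilt (WZ D L r) (lamZ k' L r) t)) hi) r (F r) (hF r hrR')
  have hint : ∫ y : Xo, act C C' c b k L ep e1 J r (ht y) *
      Real.exp (-tilt (WZ D L r) (lamZ k' L r) (ht y)) ∂nu = A r := by
    rw [hAdef]
    have := integral_nu (fun t => act C C' c b k L ep e1 J r t *
      Real.exp (-tilt (WZ D L r) (lamZ k' L r) t))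
    rw [this]
    norm_num
  rw [hint] at hk
  have hfac : ((r.factorial : ℝ≥0∞))⁻¹ = ENNReal.ofReal ((r.factorial : ℝ)⁻¹) := by
    rw [ENNReal.ofReal_inv_of_pos (by positivity), ENNReal.ofReal_natCast]
  rw [hfac]
  refine (mul_le_mul_right hk _).trans (le_of_eq ?_)
  rw [← ENNReal.ofReal_mul (by positivity)]
  congr 1
  rw [hSdef]
  unfold cost
  simp only
  ring

end NUO
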