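import Pool.Agent.NUO.AsmN
import Pool.Agent.NUO.Par0K
import Pool.Agent.NUO.Par0G
import Pool.Agent.NUO.Ranges
import Pool.Agent.NUM3.Certs4
import Pool.Agent.NUP1S.R4
import Pool.Agent.NUF.FINA
import Pool.Agent.NUQ.DenL

/-!
# TARGET-A: the last glue

`perN_of`: `S4 → PerN` (stability bound and parameters included); `numUp_of_S4`: `S4 → NumUp`;
`numUp_of_CS`: `CrudeA → SharpA → NumUp`.
-/

set_option autoImplicit false

noncomputable section

namespace NUO

/-- the parameters of TARGET-A satisfy everything that is needed -/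
theorem par0OK : Par0OK K1c where
  nn := K1c_nonneg
  ok m _ := parOK_par0 m
  sm m _ r := small_par0 m r
  good _ he _ _ hJ := good_par0 he hJ

/-- `PerN` from `S4` -/
theorem perN_of (h4 : S4) : PerN := perN_of_S4 par0OK Pool.Agent.NUM3.stabProd h4

/-- **TARGET-A** from section 4 -/
theorem numUp_of_S4 (h4 : S4) : Pool.Agent.NUF.NumUp := numUp_of_PerN NUP1S.Ab.r4 (perN_of h4)

/-- **TARGET-A** from the two bounds of the gas -/
theorem numUp_of_CS (hC : CrudeA) (hS : SharpA) : Pool.Agent.NUF.NumUp := numUp_of_S4 (s4_of hC hS)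

end NUO
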