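import Pool.Agent.NUO.InA
import Pool.Agent.NUO.CurA
import Pool.Agent.NUO.AsmAlg
import Pool.Agent.NUH0.DatE2
import Pool.Agent.NUH0.DatN
import Pool.Agent.NUBR.Z1

/-!
# TARGET-A: from the gas with the data of a configuration to the crude and the sharp bound

`crudeA_of : DatA → CrudeG → CrudeA`, `sharpA_of : DatA → SharpG → SharpA`.  The exponent `En` of the
data is the sum of the one body exponents, the energy of the densities and small terms (`exists_en`);
the tilt `exp (b' (m - n))` is the constant `-b'/2` in the one body potential (`tilt_le`).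
-/

set_option autoImplicit false

noncomputable section

open MeasureTheory Finset Filter Topology
open scoped ENNReal

namespace NUO

open NUH0 NUStabP NUDispW

/-! ### numbers -/

lemma pe_tendsto (j : ℕ) {κ : ℝ} (hκ : 0 < κ) :
    Tendsto (fun m : ℕ => (Real.log m + 1) ^ j * (m : ℝ) ^ (-κ)) atTop (𝓝 0) := by
  have h1 := tendsto_rpow_mul_exp_neg_mul_atTop_nhds_zero (j : ℝ) κ hκ
  have h2 : Tendsto (fun m : ℕ => Real.log m + 1) atTop atTop :=
    tendsto_atTop_add_const_right _ _ (Real.tendsto_log_atTop.comp tendsto_natCast_atTop_atTop)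
  have h3 := (h1.comp h2).const_mul (Real.exp κ)
  rw [mul_zero] at h3
  refine h3.congr' ?_
  filter_upwards [eventually_ge_atTop 1] with m hm
  have hmp : (0 : ℝ) < m := by exact_mod_cast hm
  simp only [Function.comp_apply]
  rw [Real.rpow_natCast, Real.rpow_def_of_pos hmp, ← mul_assoc, mul_comm (Real.exp κ), mul_assoc,
    ← Real.exp_add]
  congr 2
  ring

lemma pe_small (j : ℕ) {κ : ℝ} (hκ : 0 < κ) {x : ℝ} (hx : 0 < x) :
    ∃ m0 : ℕ, ∀ m ≥ m0, (Real.log m + 1) ^ j * (m : ℝ) ^ (-κ) ≤ x := by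
  obtain ⟨m0, h⟩ := Filter.eventually_atTop.1 ((pe_tendsto j hκ).eventually_le_const hx)
  exact ⟨m0, h⟩

lemma int_P_slk (x : ℝ) : (∫ u, NUMF.P u * NUC43.slk (u - x)) = NUSlk.slk x := by
  unfold NUSlk.slk
  congr 1
  funext u
  rw [NUC43.slk_psiS, ← NUSlk.psiS_neg, neg_sub]

lemma sum_rrA {r : ℕ} (m : ℕ) (O : Fin r → Xo) : ∑ i, rr (par0 m) O i ≤ 1 := by
  have h1 : ∀ i, rr (par0 m) O i ≤ 1 / ((r : ℝ) + 1) := by
    intro i
    have h2 := rad0_le2 m r (ht (O i))
    have h3 := d0_le r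
    have h4 := d0_pos r
    have h5 : (0 : ℝ) ≤ r := Nat.cast_nonneg r
    show rad0 m r (ht (O i)) ≤ _
    refine h2.trans ?_
    rw [div_le_div_iff₀ (by positivity) (by positivity)]
    have h6 : d0 r ≤ 1 := by linarith
    nlinarith
  calc ∑ i, rr (par0 m) O i ≤ ∑ _i : Fin r, 1 / ((r : ℝ) + 1) := Finset.sum_le_sum fun i _ => h1 i
    _ = r * (1 / ((r : ℝ) + 1)) := by simp
    _ ≤ 1 := by
        rw [mul_one_div, div_le_one (by positivity)]
        linarith

/-! ### the exponent -/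

/-- **the exponent `En` of the data of TARGET-A** -/
theorem exists_en : ∃ K0 : ℝ, 0 ≤ K0 ∧ ∀ e1 : ℝ, 0 < e1 → e1 ≤ 1 / 100 → ∀ J : ℝ, 0 ≤ J →
    ∀ kap : ℝ, 0 < kap → ∀ (k : ℕ) (κ : ℝ), 0 < κ → ∃ (Cc : ℝ) (m0 : ℕ), ∀ m ≥ m0,
    ∀ b' : ℝ, |b'| ≤ 1 → ∀ B1 : ℝ → ℝ, (∀ t, 0 ≤ B1 t) → (∀ t, B1 t ≤ 1) →
    Integrable (fun t => m * NUMF.P t * B1 t) → ∀ (r : ℕ) (O : Fin r → Xo) (dl ε M : ℝ) (e : ℝ → ℝ),
    IOk dl ε M ((1 - e1) * Tb (Real.log m)) e (inA m e1 J b' B1) (par0 m) r →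
    ε ≤ (m : ℝ) ^ (-κ) → M ≤ Real.log m ^ k →
    dl ≤ 1 / (6000 * ((r : ℝ) + 1) ^ 2) + 3 * (m : ℝ) ^ (-κ) →
    (datO (inA m e1 J b' B1) (par0 m) O).En ≤
      (∑ i, (m * mfo (cons (par0 m) O i) + m * slkK NUSlk.slk (kd (O i)) (ht (O i)) -
        2 * Real.pi * wK (kd (O i)) * NUCUR.cur e1 (Tb (Real.log m)) J (ht (O i)))) + enC O +
      K0 * r + kap * win univ (fun i => ht (O i)) + Cc + 2 * (∫ t, m * NUMF.P t * B1 t) - b' * m := by
  obtain ⟨C, hC, H⟩ := En_datO (δ := 1 / 8) (by norm_num) (by norm_num)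
  obtain ⟨K2, hK2, H2⟩ := exists_muphi NUC43.adm0
  refine ⟨2 * C + 8 * K2, by linarith, ?_⟩
  intro e1 he he1 J hJ kap hkap k κ hκ
  obtain ⟨CL, hCL, HL⟩ := lip_curA he
  obtain ⟨CB, hCB, HB⟩ := bil_curA he (by linarith)
  have hC0 : 0 < C := by linarith
  have hK20 : 0 < K2 := by linarith
  obtain ⟨m1, hm1⟩ := pe_small (9 + 2 * k) hκ (x := min (1 / C) (min (kap / (6 * K2)) 1))
    (lt_min (by positivity) (lt_min (by positivity) one_pos))
  obtain ⟨m2, hm2⟩ := log_large (8 / 3 * max 1 (max (CL * J) (CB * J ^ 2)))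
  refine ⟨2 * K2 + 2, max (max m1 m2) 1, ?_⟩
  intro m hm b' hb' B1 hB0 hB1 hBi r O dl ε M e hI hε hM hdl
  have hmm1 : m1 ≤ m := ((le_max_left _ _).trans (le_max_left _ _)).trans hm
  have hmm2 : m2 ≤ m := ((le_max_right _ _).trans (le_max_left _ _)).trans hm
  have hm1' : 1 ≤ m := (le_max_right _ _).trans hm
  have hmp : (0 : ℝ) < m := by exact_mod_cast hm1'
  obtain ⟨u, hu⟩ : ∃ u : ℝ, u = (Real.log m + 1) ^ (9 + 2 * k) * (m : ℝ) ^ (-κ) := ⟨_, rfl⟩
  have hux := hm1 m hmm1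
  rw [← hu] at hux
  have hu1 : u ≤ 1 / C := hux.trans (min_le_left _ _)
  have hu2 : u ≤ kap / (6 * K2) := hux.trans ((min_le_right _ _).trans (min_le_left _ _))
  have hu3 : u ≤ 1 := hux.trans ((min_le_right _ _).trans (min_le_right _ _))
  have hL0 : 0 ≤ Real.log m := log_nn m
  have hT := hm2 m hmm2
  obtain ⟨T, hTd⟩ : ∃ T : ℝ, T = Tb (Real.log m) := ⟨_, rfl⟩
  have hTb : T = 3 / 8 * Real.log m := hTd
  have hTm : max 1 (max (CL * J) (CB * J ^ 2)) ≤ T := by rw [hTb]; linarith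
  have hT1 : 1 ≤ T := (le_max_left _ _).trans hTm
  have hT2 : CL * J ≤ T := ((le_max_left _ _).trans (le_max_right _ _)).trans hTm
  have hT3 : CB * J ^ 2 ≤ T := ((le_max_right _ _).trans (le_max_right _ _)).trans hTm
  have hT0 : 0 < T := by linarith
  -- powers
  have hpow : 0 < (m : ℝ) ^ (-κ) := Real.rpow_pos_of_pos hmp _
  have hLp : 1 ≤ Real.log m + 1 := by linarith
  have pw : ∀ j : ℕ, j ≤ 9 + 2 * k → (Real.log m + 1) ^ j * (m : ℝ) ^ (-κ) ≤ u := by
    intro j hj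
    rw [hu]
    exact mul_le_mul_of_nonneg_right (pow_le_pow_right₀ hLp hj) hpow.le
  have hM0 : 0 ≤ M := hI.cur.M0 hI.s0
  have hε0 : 0 ≤ ε := hI.cur.ε0
  have hLk : Real.log m ^ k ≤ (Real.log m + 1) ^ k := pow_le_pow_left₀ hL0 (by linarith) k
  have hMk : M ≤ (Real.log m + 1) ^ k := hM.trans hLk
  have hMε : M * ε ≤ 1 := by
    refine (mul_le_mul hMk hε hε0 (by positivity)).trans ?_
    exact (pw k (by omega)).trans hu3
  obtain ⟨b, hbd⟩ : ∃ b : ℝ, b = (1 - e1) * Tb (Real.log m) := ⟨_, rfl⟩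
  have hb0 : 0 ≤ b := hbd ▸ hI.b0
  have hbL : b + 1 ≤ Real.log m + 1 := by
    rw [hbd, ← hTd]
    nlinarith
  have hb7 : C * (b + 1) ^ 7 * ε ≤ 1 := by
    have h1 : (b + 1) ^ 7 * ε ≤ (Real.log m + 1) ^ 7 * (m : ℝ) ^ (-κ) :=
      mul_le_mul (pow_le_pow_left₀ (by linarith) hbL 7) hε hε0 (by positivity)
    have h2 := (h1.trans (pw 7 (by omega))).trans hu1
    rw [le_div_iff₀ hC0] at h2
    linarith
  have hb9 : C * (b + 1) ^ 9 * M ^ 2 * ε ≤ 1 := by
    have h1 : (b + 1) ^ 9 * M ^ 2 ≤ (Real.log m + 1) ^ 9 * ((Real.log m + 1) ^ k) ^ 2 :=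
      mul_le_mul (pow_le_pow_left₀ (by linarith) hbL 9) (pow_le_pow_left₀ hM0 hMk 2) (by positivity)
        (by positivity)
    have h2 : (Real.log m + 1) ^ 9 * ((Real.log m + 1) ^ k) ^ 2 = (Real.log m + 1) ^ (9 + 2 * k) := by
      rw [← pow_mul, ← pow_add, mul_comm k 2]
    rw [h2] at h1
    have h3 : (b + 1) ^ 9 * M ^ 2 * ε ≤ u := by
      rw [hu]
      exact mul_le_mul h1 hε hε0 (by positivity)
    have h4 := h3.trans hu1
    rw [le_div_iff₀ hC0] at h4
    linarith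
  -- the exponent of the data
  have hl : ∀ t t', |(m : ℝ) * NUMF.P t * etaA e1 J m t - m * NUMF.P t' * etaA e1 J m t'| ≤
      1 * |t - t'| := by
    intro t t'
    refine (HL J hJ m (by rw [← hTd]; exact hT1) t t').trans ?_
    refine mul_le_mul_of_nonneg_right ?_ (abs_nonneg _)
    rw [← hTd, div_le_one hT0]
    exact hT2
  have hPB : ∀ a, Integrable fun t => NUMF.P t * (inA m e1 J b' B1).B a t := by
    intro a
    have h1 : Integrable fun t => NUMF.P t * B1 t := by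
      have h2 := hBi.const_mul ((m : ℝ)⁻¹)
      refine h2.congr (Eventually.of_forall fun t => ?_)
      simp only
      field_simp
    have h3 := h1.sub (NUMF.P_integrable.mul_const (b' / 2))
    refine h3.congr (Eventually.of_forall fun t => ?_)
    simp only [Pi.sub_apply, inA]
    ring
  have hEn := H (inA m e1 J b' B1) ε M b 1 e (par0 m) r O (fun _ _ => rfl) (fun _ _ => rfl) hI.pg
    NUC43.adm0 hI.s0 (hbd ▸ hI.cur) hI.der hb0 hb7 zero_le_one hl hPB
  have hEn' := (abs_le.1 hEn).2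
  -- one body terms
  have s1 : (∑ i, ((inA m e1 J b' B1).s * mfo (cons (par0 m) O i) +
      (inA m e1 J b' B1).s * slkK (fun t => ∫ u, NUMF.P u * NUC43.slk (u - t)) (kd (O i)) (ht (O i)) -
      2 * Real.pi * (wK (kd (O i)) * ((inA m e1 J b' B1).s * NUMF.P (ht (O i)) *
        (inA m e1 J b' B1).η (ht (O i)))))) =
      ∑ i, (m * mfo (cons (par0 m) O i) + m * slkK NUSlk.slk (kd (O i)) (ht (O i)) -
        2 * Real.pi * wK (kd (O i)) * NUCUR.cur e1 (Tb (Real.log m)) J (ht (O i))) := by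
    refine Finset.sum_congr rfl fun i _ => ?_
    have h1 : (fun t => ∫ u, NUMF.P u * NUC43.slk (u - t)) = NUSlk.slk := funext int_P_slk
    have h2 : (inA m e1 J b' B1).s * NUMF.P (ht (O i)) * (inA m e1 J b' B1).η (ht (O i)) =
        NUCUR.cur e1 (Tb (Real.log m)) J (ht (O i)) := congrFun (cur_etaA (e1 := e1) (J := J) hm1') (ht (O i))
    rw [h1, h2]
    show (m : ℝ) * _ + m * _ - _ = _
    ring
  -- the energy of the densities
  have s2 : 1 / 2 * (∑ i, ∑ k, Pool.Agent.NUM3.ER (NUC43.sgX (par0 m).jL (par0 m).e)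
      (NUC43.sgY (par0 m).jL (par0 m).e) (NUC43.sgT (par0 m).jL (par0 m).e)
      (NUO.sp (O i) == NUO.sp (O k)) (kd (O i)) (kd (O k)) (ht (O i)) (ht (O k))) = enC O :=
    (NUC43.cfg_energy NUC43.adm0 O).symm
  -- the real potentials
  have s3 : (∑ a, ∫ t, (inA m e1 J b' B1).s * NUMF.P t * (inA m e1 J b' B1).B a t) =
      2 * (∫ t, m * NUMF.P t * B1 t) - b' * m := by
    have h1 : ∀ a, (∫ t, (inA m e1 J b' B1).s * NUMF.P t * (inA m e1 J b' B1).B a t) =
        (∫ t, m * NUMF.P t * B1 t) - b' / 2 * m := by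
      intro a
      have h2 : ∀ t, (inA m e1 J b' B1).s * NUMF.P t * (inA m e1 J b' B1).B a t =
          m * NUMF.P t * B1 t - (b' / 2 * m) * NUMF.P t := by
        intro t
        show (m : ℝ) * NUMF.P t * (B1 t - b' / 2) = _
        ring
      simp_rw [h2]
      rw [integral_sub hBi (NUMF.P_integrable.const_mul _), integral_const_mul, NUMF.integral_P,
        mul_one]
    rw [Fintype.sum_bool, h1, h1]
    ring
  -- the remainder
  have hw : ∀ a t, |wO (inA m e1 J b' B1) a t| ≤ 2 := by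
    intro a t
    have h1 : wO (inA m e1 J b' B1) a t = B1 t - b' / 2 := by
      unfold wO
      rw [Vn_inA]
      show (0 : ℂ).re + (B1 t - b' / 2) - 0 = _
      simp
    rw [h1]
    have := hB0 t
    have := hB1 t
    rw [abs_le] at hb' ⊢
    constructor <;> linarith [hb'.1, hb'.2]
  have hr0 : (0 : ℝ) ≤ r := Nat.cast_nonneg r
  have hwin0 := win_nonneg (univ : Finset (Fin r)) (fun i => ht (O i))
  have hwin := win_le_sq (fun i => ht (O i))
  have s4 : (∑ a, ∫ t, NUC43.muC (par0 m).jL (par0 m).e O a t *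
      phiO (inA m e1 J b' B1) (par0 m) O a t) ≤
      8 * K2 * r + 2 * K2 + kap * win univ (fun i => ht (O i)) := by
    have hdw : dl * win univ (fun i => ht (O i)) ≤ 1 + 3 * (m : ℝ) ^ (-κ) *
        win univ (fun i => ht (O i)) := by
      have h1 : 1 / (6000 * ((r : ℝ) + 1) ^ 2) * win univ (fun i => ht (O i)) ≤ 1 := by
        rw [one_div_mul_eq_div, div_le_one (by positivity)]
        nlinarith
      nlinarith [mul_le_mul_of_nonneg_right hdl hwin0]
    have h0 : (m : ℝ) ^ (-κ) ≤ kap / (6 * K2) := by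
      have := pw 0 (by omega)
      rw [pow_zero, one_mul] at this
      exact this.trans hu2
    have h3 : 2 * K2 * (3 * (m : ℝ) ^ (-κ)) ≤ kap := by
      rw [le_div_iff₀ (by positivity)] at h0
      linarith
    have h4 : ∀ a, (∫ t, NUC43.muC (par0 m).jL (par0 m).e O a t *
        phiO (inA m e1 J b' B1) (par0 m) O a t) ≤ K2 * (r * (1 + 1 + 2) +
          (1 + 3 * (m : ℝ) ^ (-κ) * win univ (fun i => ht (O i)))) := by
      intro a
      refine (le_abs_self _).trans (((H2 (O := O) rfl rfl hI a 2 (hw a)).2).trans ?_)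
      refine mul_le_mul_of_nonneg_left (add_le_add (mul_le_mul_of_nonneg_left ?_ hr0) hdw) hK20.le
      linarith [sum_rrA m O]
    rw [Fintype.sum_bool]
    have h5 := h4 true
    have h6 := h4 false
    have h7 : 2 * K2 * (3 * (m : ℝ) ^ (-κ)) * win univ (fun i => ht (O i)) ≤
        kap * win univ (fun i => ht (O i)) := mul_le_mul_of_nonneg_right h3 hwin0
    linarith
  -- the energy of the current
  have s5 : NUCR.bil (NUAct.hd (inA m e1 J b' B1).s (inA m e1 J b' B1).η (inA m e1 J b' B1).η1)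
      (NUAct.hd (inA m e1 J b' B1).s (inA m e1 J b' B1).η (inA m e1 J b' B1).η1) ≤ 1 := by
    have h1 := HB J hJ m (by rw [← hTd]; exact hT1)
    rw [← hTd] at h1
    refine (le_abs_self _).trans (h1.trans ?_)
    rw [div_le_one hT0]
    exact hT3
  rw [s1, s2, s3] at hEn'
  have s6 : C * r * (M * ε + 1) ≤ 2 * C * r := by
    have : C * r * (M * ε + 1) ≤ C * r * (1 + 1) := mul_le_mul_of_nonneg_left (by linarith)
      (by positivity)
    linarith
  linarith

/-! ### the tilt -/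

lemma chg_le_two (s : Bool) (x : Xo) : chg s x ≤ 2 := by
  rcases x with ⟨⟨a, K⟩, t, α⟩
  cases s <;> cases a <;> cases K <;> simp [chg, sp]

lemma chgO_le_two {r : ℕ} (O : Fin r → Xo) (s : Bool) : (chgO O s : ℝ) ≤ 2 * r := by
  have h : chgO O s ≤ 2 * r := by
    unfold chgO
    refine (Finset.sum_le_sum fun i _ => chg_le_two s (O i)).trans ?_
    simp [mul_comm]
  exact_mod_cast h

/-- **the gas without activities, tilted**, gives `Z1` -/
theorem tilt_le {m n : ℕ} {β b' : ℝ} {P : Par} {η η' : ℝ → ℝ} (h0 : ∀ t, |η t| < NUMF.l) {r : ℕ}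
    (O : Fin r → Xo) {p q : ℕ} {X : Dat} {aX aY cf : ℝ → ℝ}
    (hX : ∀ t, aX t * cf t = Real.exp (-(b' / 2)) * NUBR.aA m β P η O true t)
    (hY : ∀ t, aY t * cf t = Real.exp (-(b' / 2)) * NUBR.aA m β P η O false t)
    (hD : ∀ a, X.D a = dA η) (hD1 : ∀ a, X.D1 a = dA η') {Q E : ℝ}
    (h : ∫⁻ x, ENNReal.ofReal (W0 X p q aX aY cf x) ≤
      ENNReal.ofReal ((p.factorial : ℝ) * q.factorial *
        (Q * Real.exp (NUMFC.MFs m p q + E)))) :
    ENNReal.ofReal (Real.exp (b' * (m - n))) * Z1 m β P η η' O p q ≤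
      ENNReal.ofReal (Q * Real.exp (NUMFC.MF m + E + b' * (m - n) + b' / 2 * (p + q))) := by
  have e1 : ∀ x : (Fin p → ℝ) × (Fin q → ℝ), NU42.WO (dA η) (dA η') (dA η) (dA η')
      (NUBR.aA m β P η O true) (NUBR.aA m β P η O false) x.1 x.2 =
      Real.exp (b' / 2) ^ (p + q) * W0 X p q aX aY cf x := by
    intro x
    unfold W0
    rw [funext hX, funext hY, hD, hD, hD1, hD1, NUBR.WO_smul, ← mul_assoc, ← mul_pow, ← Real.exp_add]
    have : b' / 2 + -(b' / 2) = 0 := by ring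
    rw [this, Real.exp_zero, one_pow, one_mul]
  have hf : (0 : ℝ) < (p.factorial : ℝ) * q.factorial := by positivity
  have e2 : ((p.factorial : ℝ≥0∞) * q.factorial)⁻¹ =
      ENNReal.ofReal (((p.factorial : ℝ) * q.factorial)⁻¹) := by
    rw [ENNReal.ofReal_inv_of_pos hf, ENNReal.ofReal_mul (by positivity), ENNReal.ofReal_natCast,
      ENNReal.ofReal_natCast]
  have hpos : (0 : ℝ) ≤ Real.exp (b' / 2) ^ (p + q) := by positivity
  have e3 : ∫⁻ x : (Fin p → ℝ) × (Fin q → ℝ), ENNReal.ofReal (NU42.WO (dA η) (dA η') (dA η) (dA η')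
      (NUBR.aA m β P η O true) (NUBR.aA m β P η O false) x.1 x.2) =
      ENNReal.ofReal (Real.exp (b' / 2) ^ (p + q)) *
        ∫⁻ x, ENNReal.ofReal (W0 X p q aX aY cf x) := by
    rw [← lintegral_const_mul' _ _ ENNReal.ofReal_ne_top]
    refine lintegral_congr fun x => ?_
    rw [e1 x, ENNReal.ofReal_mul hpos]
  rw [NUBR.Z1_eq h0, e3, e2]
  calc _ ≤ ENNReal.ofReal (Real.exp (b' * (m - n))) * (ENNReal.ofReal (NUMFC.act ^ (p + q)) *
        (ENNReal.ofReal (((p.factorial : ℝ) * q.factorial)⁻¹) *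
          (ENNReal.ofReal (Real.exp (b' / 2) ^ (p + q)) *
            ENNReal.ofReal ((p.factorial : ℝ) * q.factorial *
              (Q * Real.exp (NUMFC.MFs m p q + E)))))) := by gcongr
    _ = ENNReal.ofReal (Q * Real.exp (NUMFC.MF m + E + b' * (m - n) + b' / 2 * (p + q))) := by
        rw [← ENNReal.ofReal_mul hpos, ← ENNReal.ofReal_mul (by positivity),
          ← ENNReal.ofReal_mul (pow_nonneg NUMFC.act_pos.le _),
          ← ENNReal.ofReal_mul (Real.exp_pos _).le]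
        congr 1
        have h1 : Real.exp (b' / 2) ^ (p + q) = Real.exp (b' / 2 * (p + q)) := by
          rw [← Real.exp_nat_mul]
          push_cast
          ring_nf
        rw [h1, Real.exp_add (NUMFC.MFs m p q), show NUMFC.MF m + E + b' * (m - n) + b' / 2 * (p + q) =
          NUMFC.MF m + (E + b' * (m - n) + b' / 2 * (p + q)) by ring,
          Real.exp_add (NUMFC.MF m), ← NUMFC.act_MFs m p q, Real.exp_add (E + b' * (m - n)),
          Real.exp_add E]
        field_simp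

/-! ### the configuration -/

/-- the exponent of a configuration, split -/
lemma confE_split {P : Par} {m : ℕ} {e1 J T' K kap : ℝ} {r : ℕ} (O : Fin r → Xo) :
    confE P m e1 J T' K kap O =
      (∑ i, (m * mfo (cons P O i) + m * slkK NUSlk.slk (kd (O i)) (ht (O i)) -
        2 * Real.pi * wK (kd (O i)) * NUCUR.cur e1 (Tb (Real.log m)) J (ht (O i)))) +
      5 / 2 * excS T' O + K * r + enC O + kap * win univ (fun i => ht (O i)) := by
  unfold confE oneE excS exc
  rw [Finset.sum_add_distrib, ← Finset.mul_sum]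

/-- **one configuration**: from the bound of the gas to the bound of `Z1` -/
theorem red_step {K0 KG : ℝ} {kap Cc C Q : ℝ} {m n r : ℕ} {ep e1 J b' : ℝ} {B1 : ℝ → ℝ}
    {O : Fin r → Xo} (hQ : 0 ≤ Q) (hb' : |b'| ≤ 1)
    (hEn : (datO (inA m e1 J b' B1) (par0 m) O).En ≤
      (∑ i, (m * mfo (cons (par0 m) O i) + m * slkK NUSlk.slk (kd (O i)) (ht (O i)) -
        2 * Real.pi * wK (kd (O i)) * NUCUR.cur e1 (Tb (Real.log m)) J (ht (O i)))) + enC O +
      K0 * r + kap / 2 * win univ (fun i => ht (O i)) + Cc + 2 * (∫ t, m * NUMF.P t * B1 t) - b' * m)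
    (hBC : (∫ t, m * NUMF.P t * B1 t) ≤ C) (hct : chgO O true ≤ n) (hcf : chgO O false ≤ n)
    {aX aY cf : ℝ → ℝ} (h0 : ∀ t, |etaA e1 J m t| < NUMF.l)
    (hX : ∀ t, aX t * cf t = Real.exp (-(b' / 2)) *
      NUBR.aA m (4 / 3 * (1 - ep)) (par0 m) (etaA e1 J m) O true t)
    (hY : ∀ t, aY t * cf t = Real.exp (-(b' / 2)) *
      NUBR.aA m (4 / 3 * (1 - ep)) (par0 m) (etaA e1 J m) O false t)
    (h : ∫⁻ x, ENNReal.ofReal (W0 (datO (inA m e1 J b' B1) (par0 m) O) (n - chgO O true)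
        (n - chgO O false) aX aY cf x) ≤
      ENNReal.ofReal (((n - chgO O true).factorial : ℝ) * (n - chgO O false).factorial *
        (Q * Real.exp (confG ep e1 m (inA m e1 J b' B1) (par0 m) (n - chgO O true)
          (n - chgO O false) KG (kap / 2) O)))) :
    ENNReal.ofReal (Real.exp (b' * (m - n))) *
      Z1 m (4 / 3 * (1 - ep)) (par0 m) (etaA e1 J m) (etaA' e1 J m) O
        (n - chgO O true) (n - chgO O false) ≤
      ENNReal.ofReal (Q * Real.exp (Cc + 2 * C) * MF m *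
        Real.exp (confE (par0 m) m e1 J (TW ep e1 m) (KG + K0 + 2) kap O -
          1 / 10 * excS (TW ep e1 m) O)) := by
  have h1 : confG ep e1 m (inA m e1 J b' B1) (par0 m) (n - chgO O true) (n - chgO O false) KG
      (kap / 2) O = NUMFC.MFs m (n - chgO O true) (n - chgO O false) +
      ((datO (inA m e1 J b' B1) (par0 m) O).En + KG * r + 12 / 5 * excS (TW ep e1 m) O +
        kap / 2 * win univ (fun i => ht (O i))) := by
    unfold confG
    show NUMFC.MFs (m : ℝ) _ _ + _ + _ + _ + _ = _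
    ring
  rw [h1] at h
  refine (tilt_le (n := n) h0 O hX hY (fun a => datO_D _ _ _ a) (fun a => datO_D1 _ _ _ a) h).trans ?_
  refine ENNReal.ofReal_le_ofReal ?_
  have hMF : MF m = Real.exp (NUMFC.MF m) := rfl
  rw [hMF, mul_assoc, mul_assoc, ← Real.exp_add, ← Real.exp_add]
  refine mul_le_mul_of_nonneg_left (Real.exp_le_exp.2 ?_) hQ
  rw [confE_split, Nat.cast_sub hct, Nat.cast_sub hcf]
  have c1 := chgO_le_two O true
  have c2 := chgO_le_two O false
  have c3 : (0 : ℝ) ≤ chgO O true := Nat.cast_nonneg _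
  have c4 : (0 : ℝ) ≤ chgO O false := Nat.cast_nonneg _
  have hr0 : (0 : ℝ) ≤ r := Nat.cast_nonneg r
  have h5 : -(b' / 2) * (chgO O true + chgO O false) ≤ 2 * r := by
    have h6 : -(b' / 2) ≤ 1 / 2 := by
      rw [abs_le] at hb'
      linarith [hb'.1]
    nlinarith
  linarith

/-- **the crude bound of TARGET-A** -/
theorem crudeA_of (hD : DatA) (hG : CrudeG) : CrudeA := by
  obtain ⟨KG, Ca, hKG, hCa, hG⟩ := hG
  obtain ⟨K0, hK0, hEn⟩ := exists_en
  refine ⟨KG + K0 + 2, Ca, by positivity, hCa, ?_⟩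
  intro kap hkap ep hep hep1 e1 he he1 J hJ δ hδ
  obtain ⟨k, κ, CB, w, C, hκ, hCB, hw, hw1, hC, hD⟩ := hD ep hep hep1 e1 he he1 J hJ
  obtain ⟨ϑ, Cst, hϑ, hCst, m1, hG⟩ := hG (kap / 2) (by positivity) ep hep hep1 e1 he he1 δ hδ k κ CB
    hκ hCB
  obtain ⟨d, hd, m2, hD⟩ := hD ϑ hϑ
  obtain ⟨Cc, m3, hEn⟩ := hEn e1 he he1 J hJ (kap / 2) (by positivity) k κ hκ
  refine ⟨min d 1, Cst * Real.exp (Cc + 2 * C), lt_min hd one_pos, by positivity,
    max m1 (max m2 m3), ?_⟩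
  intro m hm n hn b' hb' r hr O hct hcf
  have hm1 : m1 ≤ m := (le_max_left _ _).trans hm
  have hm2 : m2 ≤ m := ((le_max_left _ _).trans (le_max_right _ _)).trans hm
  have hm3 : m3 ≤ m := ((le_max_right _ _).trans (le_max_right _ _)).trans hm
  obtain ⟨B1, hB, hB0, hB1, hBi, hBC, hD⟩ := hD m hm2 b' (hb'.trans (min_le_left _ _))
  obtain ⟨aX, aY, cf, hX, hY, hdat, -⟩ := hD n hn r hr O hct hcf
  have h1 := hG m hm1 (inA m e1 J b' B1) (par0 m) r O (n - chgO O true) (n - chgO O false) aX aY cf B1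
    hdat
  obtain ⟨dl, ε, M, e, hI, hε, hM, hdl⟩ := hdat.ok
  have h2 := hEn m hm3 b' (hb'.trans (min_le_right _ _)) B1 hB0 hB1 hBi r O dl ε M e hI hε hM hdl
  have h0 : ∀ t, |etaA e1 J m t| < NUMF.l := by
    intro t
    have h3 := hI.eta_lt t
    have h4 := NUMF.l_pos
    have h5 : (inA m e1 J b' B1).η t = etaA e1 J m t := rfl
    rw [h5] at h3
    linarith
  have h3 := red_step (ep := ep) (KG := KG) (by positivity) (hb'.trans (min_le_right _ _)) h2 hBC
    hct hcf h0 hX hY h1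
  refine h3.trans (le_of_eq ?_)
  congr 1
  ring

/-- **the sharp bound of TARGET-A** -/
theorem sharpA_of (hD : DatA) (hG : SharpG) : SharpA := by
  obtain ⟨KG, Ca, hKG, hCa, hG⟩ := hG
  obtain ⟨K0, hK0, hEn⟩ := exists_en
  refine ⟨KG + K0 + 2, Ca, by positivity, hCa, ?_⟩
  intro kap hkap ep hep hep1 e1 he he1 J hJ δ hδ
  obtain ⟨k, κ, CB, w, C, hκ, hCB, hw, hw1, hC, hD⟩ := hD ep hep hep1 e1 he he1 J hJ
  obtain ⟨ϑ, Cst, hϑ, hCst, m1, hG⟩ := hG (kap / 2) (by positivity) ep hep hep1 e1 he he1 δ hδ k κ CB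
    w hκ hCB hw hw1
  obtain ⟨d, hd, m2, hD⟩ := hD ϑ hϑ
  obtain ⟨Cc, m3, hEn⟩ := hEn e1 he he1 J hJ (kap / 2) (by positivity) k κ hκ
  refine ⟨min d 1, Cst * Real.exp (Cc + 2 * C), lt_min hd one_pos, by positivity,
    max m1 (max m2 m3), ?_⟩
  intro m hm n hn _ b' hb' r hr hrL O hht hct hcf
  have hm1 : m1 ≤ m := (le_max_left _ _).trans hm
  have hm2 : m2 ≤ m := ((le_max_left _ _).trans (le_max_right _ _)).trans hm
  have hm3 : m3 ≤ m := ((le_max_right _ _).trans (le_max_right _ _)).trans hm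
  obtain ⟨B1, hB, hB0, hB1, hBi, hBC, hD⟩ := hD m hm2 b' (hb'.trans (min_le_left _ _))
  obtain ⟨aX, aY, cf, hX, hY, hdat, hGD⟩ := hD n hn r hr O hct hcf
  have h1 := hG m hm1 (inA m e1 J b' B1) (par0 m) r O (n - chgO O true) (n - chgO O false) aX aY cf B1
    hdat (hGD hrL hht) hrL hht
  obtain ⟨dl, ε, M, e, hI, hε, hM, hdl⟩ := hdat.ok
  have h2 := hEn m hm3 b' (hb'.trans (min_le_right _ _)) B1 hB0 hB1 hBi r O dl ε M e hI hε hM hdl
  have h0 : ∀ t, |etaA e1 J m t| < NUMF.l := by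
    intro t
    have h3 := hI.eta_lt t
    have h4 := NUMF.l_pos
    have h5 : (inA m e1 J b' B1).η t = etaA e1 J m t := rfl
    rw [h5] at h3
    linarith
  have h3 := red_step (ep := ep) (KG := KG) (by positivity) (hb'.trans (min_le_right _ _)) h2 hBC
    hct hcf h0 hX hY h1
  refine h3.trans (ENNReal.ofReal_le_ofReal ?_)
  have hexc := excS_nonneg (TW ep e1 m) O
  have hMF : 0 ≤ MF m := (Real.exp_pos _).le
  have h6 : Real.exp (confE (par0 m) m e1 J (TW ep e1 m) (KG + K0 + 2) kap O -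
      1 / 10 * excS (TW ep e1 m) O) ≤
      Real.exp (confE (par0 m) m e1 J (TW ep e1 m) (KG + K0 + 2) kap O) :=
    Real.exp_le_exp.2 (by linarith)
  refine (mul_le_mul_of_nonneg_left h6 (by positivity)).trans (le_of_eq ?_)
  ring

end NUO
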