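import Pool.Agent.NUO.NumUp
import Pool.Agent.NUO.InstG
import Pool.Agent.NUO.InA
import Pool.Agent.NUO.RedA

/-!
# TARGET-A: the numerator of the partition function of the sphere lattice from above

`numUp : NumUp`: for every `ε > 0` there is `C` such that `‖Wd_m(2)‖ ≤ C m^(3/8 + ε) bulk m` for all `m ≥ 1`.
`zzUp`: `‖ZZ 2 m‖ ≤ C m^(1/6 + ε)`.
-/

set_option autoImplicit false

noncomputable section

namespace NUO

theorem crudeA : CrudeA := crudeA_of datA crudeG

theorem sharpA : SharpA := sharpA_of datA sharpG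

theorem s4 : S4 := s4_of crudeA sharpA

/-- **TARGET-A** -/
theorem numUp : Pool.Agent.NUF.NumUp := numUp_of_CS crudeA sharpA

/-- the partition function of the sphere lattice from above -/
theorem zzUp : ∀ ε : ℝ, 0 < ε → ∃ C : ℝ, ∀ m : ℕ, 1 ≤ m →
    ‖Pool.Agent.NUF.ZZ 2 m‖ ≤ C * (m : ℝ) ^ (1 / 6 + ε) :=
  Pool.Agent.NUF.ZZ_of_num_den numUp Pool.Agent.NUQ.denLow

end NUO
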