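import Mathlib

/-!
NUO/PolyR (helper25): integer polynomials as lists (low degree first), evaluated at a real number,
with kernel-decidable identity and positivity tests.  Chebyshev polynomials at `w = cosh z - 1`.
-/

namespace NUPolyR

/-- integer polynomial, low degree first -/
abbrev IP := List ℤ

noncomputable def ev : IP → ℝ → ℝ
  | [], _ => 0
  | a :: l, w => (a : ℝ) + w * ev l w

def add : IP → IP → IP
  | [], m => m
  | a :: l, [] => a :: l
  | a :: l, b :: m => (a + b) :: add l m

def smul (k : ℤ) : IP → IP
  | [] => []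
  | a :: l => (k * a) :: smul k l

def mul : IP → IP → IP
  | [], _ => []
  | a :: l, m => add (smul a m) (0 :: mul l m)

def sub (l m : IP) : IP := add l (smul (-1) m)

/-- all coefficients vanish -/
def isZ : IP → Bool
  | [] => true
  | a :: l => (a == 0) && isZ l

/-- all coefficients are nonnegative -/
def isNN : IP → Bool
  | [] => true
  | (Int.ofNat _) :: l => isNN l
  | (Int.negSucc _) :: _ => false

@[simp] theorem ev_nil (w : ℝ) : ev [] w = 0 := rfl
@[simp] theorem ev_cons (a : ℤ) (l : IP) (w : ℝ) : ev (a :: l) w = (a : ℝ) + w * ev l w := rfl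

theorem ev_add (l m : IP) (w : ℝ) : ev (add l m) w = ev l w + ev m w := by
  induction l generalizing m with
  | nil => simp [add]
  | cons a l ih =>
    cases m with
    | nil => simp [add]
    | cons b m => simp [add, ih]; ring

theorem ev_smul (k : ℤ) (l : IP) (w : ℝ) : ev (smul k l) w = (k : ℝ) * ev l w := by
  induction l with
  | nil => simp [smul]
  | cons a l ih => simp [smul, ih]; ring

theorem ev_mul (l m : IP) (w : ℝ) : ev (mul l m) w = ev l w * ev m w := by
  induction l with
  | nil => simp [mul]
  | cons a l ih => simp [mul, ev_add, ev_smul, ih]; ring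

theorem ev_sub (l m : IP) (w : ℝ) : ev (sub l m) w = ev l w - ev m w := by
  simp [sub, ev_add, ev_smul]; ring

theorem ev_isZ {l : IP} (h : isZ l = true) (w : ℝ) : ev l w = 0 := by
  induction l with
  | nil => rfl
  | cons a l ih =>
    simp only [isZ, Bool.and_eq_true, beq_iff_eq] at h
    simp [h.1, ih h.2]

theorem ev_eq {l m : IP} (h : isZ (sub l m) = true) (w : ℝ) : ev l w = ev m w := by
  have := ev_isZ h w
  rw [ev_sub] at this
  linarith

theorem ev_nonneg {l : IP} (h : isNN l = true) {w : ℝ} (hw : 0 ≤ w) : 0 ≤ ev l w := by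
  induction l with
  | nil => simp
  | cons a l ih =>
    cases a with
    | ofNat n =>
      have h' : isNN l = true := h
      have := ih h'
      simp only [ev_cons, Int.ofNat_eq_natCast, Int.cast_natCast]
      positivity
    | negSucc n => simp [isNN] at h

/-- the Chebyshev recursion, on lists. -/
theorem cheb_step {a b c : IP} {z n : ℝ} (h : isZ (sub (sub (mul [2, 2] b) a) c) = true)
    (ha : ev a (Real.cosh z - 1) = Real.cosh (n * z))
    (hb : ev b (Real.cosh z - 1) = Real.cosh ((n + 1) * z)) :
    ev c (Real.cosh z - 1) = Real.cosh ((n + 2) * z) := by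
  have h1 := ev_isZ h (Real.cosh z - 1)
  rw [ev_sub, ev_sub, ev_mul, ha, hb] at h1
  simp only [ev_cons, ev_nil, mul_zero, add_zero] at h1
  have e1 : Real.cosh ((n + 2) * z) = Real.cosh ((n + 1) * z) * Real.cosh z
      + Real.sinh ((n + 1) * z) * Real.sinh z := by
    rw [← Real.cosh_add]; ring_nf
  have e2 : Real.cosh (n * z) = Real.cosh ((n + 1) * z) * Real.cosh z
      - Real.sinh ((n + 1) * z) * Real.sinh z := by
    rw [← Real.cosh_sub]; ring_nf
  push_cast at h1
  rw [e1]
  rw [e2] at h1
  nlinarith [h1]

end NUPolyR
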