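import Pool.Agent.NUO.PosBase

/-!
# Convolutions of multipliers

* `MK.mul`: `MK u → MK v → MK (u * v)`;
* `MK.toPK`: an integrable `MK` function is `PK`;
* `mk_log`: the logarithmic base kernel including the core `b = N`.
-/

set_option autoImplicit false

open MeasureTheory Set Filter Topology

namespace NUPosK

noncomputable section

lemma int_mul_sin {G : ℝ → ℝ} (hG : Integrable G) (k : ℝ) :
    Integrable (fun s => G s * Real.sin (k * s)) := by
  refine Integrable.mono' (g := fun k => ‖G k‖) hG.norm ?_ ?_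
  · exact hG.aestronglyMeasurable.mul (Measurable.aestronglyMeasurable (by fun_prop))
  · refine Eventually.of_forall fun s => ?_
    rw [norm_mul]
    exact mul_le_of_le_one_right (norm_nonneg _) (by rw [Real.norm_eq_abs]; exact Real.abs_sin_le_one _)

/-- the function behind a multiplier may be taken even -/
lemma MK.even {u : ℝ → ℝ} (hu : MK u) :
    ∃ G : ℝ → ℝ, Integrable G ∧ (∀ s, 0 ≤ G s) ∧ (∀ s, G (-s) = G s) ∧
      ∀ k : ℝ, 0 < k → ∫ s, G s * Real.cos (k * s) = u k := by
  obtain ⟨G, h1, h2, h3⟩ := hu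
  refine ⟨fun s => 1 / 2 * (G s + G (-s)), (h1.add h1.comp_neg).const_mul _, fun s => ?_, fun s => ?_, fun k hk => ?_⟩
  · have := h2 s
    have := h2 (-s)
    show 0 ≤ 1 / 2 * (G s + G (-s))
    linarith
  · show 1 / 2 * (G (-s) + G (- -s)) = 1 / 2 * (G s + G (-s))
    rw [neg_neg, add_comm]
  · have e : ∀ s, 1 / 2 * (G s + G (-s)) * Real.cos (k * s) =
        1 / 2 * (G s * Real.cos (k * s) + G (-s) * Real.cos (k * -s)) := by
      intro s
      rw [mul_neg, Real.cos_neg]
      ring
    have i1 := int_mul_cos h1 k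
    have i2 : Integrable fun s => G (-s) * Real.cos (k * -s) := i1.comp_neg
    simp_rw [e]
    rw [integral_const_mul, integral_add i1 i2, integral_neg_eq_self (fun s => G s * Real.cos (k * s)), h3 k hk]
    ring

/-- **products of multipliers** -/
theorem MK.mul {u v : ℝ → ℝ} (hu : MK u) (hv : MK v) : MK fun k => u k * v k := by
  obtain ⟨F, f1, f2, f3, f4⟩ := hu.even
  obtain ⟨G, g1, g2, g3, g4⟩ := hv.even
  have hprod : Integrable (fun p : ℝ × ℝ => F p.2 * G (p.1 - p.2)) (volume.prod volume) :=
    Integrable.convolution_integrand (ContinuousLinearMap.mul ℝ ℝ) f1 g1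
  have hsin : ∀ k : ℝ, ∫ y, G y * Real.sin (k * y) = 0 := by
    intro k
    have h1 := integral_neg_eq_self (fun y => G y * Real.sin (k * y)) volume
    have h2 : (fun y => G (-y) * Real.sin (k * -y)) = fun y => -(G y * Real.sin (k * y)) := by
      funext y
      rw [g3, mul_neg, Real.sin_neg]
      ring
    rw [h2, integral_neg] at h1
    linarith
  refine ⟨fun s => ∫ x, F x * G (s - x), ?_, ?_, ?_⟩
  · exact hprod.integral_prod_left
  · intro s
    exact integral_nonneg fun x => mul_nonneg (f2 x) (g2 _)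
  · intro k hk
    have hp2 : Integrable (fun p : ℝ × ℝ => F p.2 * G (p.1 - p.2) * Real.cos (k * p.1)) (volume.prod volume) := by
      refine hprod.mul_bdd (c := 1) (Continuous.aestronglyMeasurable (by fun_prop)) ?_
      refine Eventually.of_forall fun p => ?_
      rw [Real.norm_eq_abs]
      exact Real.abs_cos_le_one _
    have e1 : ∀ s, (∫ x, F x * G (s - x)) * Real.cos (k * s) = ∫ x, F x * G (s - x) * Real.cos (k * s) := by
      intro s
      rw [integral_mul_const]
    simp_rw [e1]
    rw [integral_integral_swap hp2]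
    have e2 : ∀ x, ∫ s, F x * G (s - x) * Real.cos (k * s) = F x * Real.cos (k * x) * v k := by
      intro x
      have h1 := integral_add_right_eq_self (μ := volume) (fun s => F x * G (s - x) * Real.cos (k * s)) x
      rw [← h1]
      have h2 : ∀ y : ℝ, F x * G (y + x - x) * Real.cos (k * (y + x)) =
          F x * Real.cos (k * x) * (G y * Real.cos (k * y)) - F x * Real.sin (k * x) * (G y * Real.sin (k * y)) := by
        intro y
        rw [add_sub_cancel_right, mul_add, Real.cos_add]
        ring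
      simp_rw [h2]
      rw [integral_sub ((int_mul_cos g1 k).const_mul _) ((int_mul_sin g1 k).const_mul _), integral_const_mul,
        integral_const_mul, hsin, g4 k hk]
      ring
    simp_rw [e2]
    rw [integral_mul_const, f4 k hk]

lemma gauss_half (e s : ℝ) (he : 0 < e) : 0 ≤ ∫ k in Ioi (0:ℝ), Real.exp (-e * k ^ 2) * Real.cos (k * s) := by
  have h1 : ∫ k in Ioi (0:ℝ), Real.exp (-e * k ^ 2) * Real.cos (k * s) =
      1 / 2 * ∫ k : ℝ, Real.exp (-e * k ^ 2) * Real.cos (k * s) := by
    have hi : Integrable fun k : ℝ => Real.exp (-e * k ^ 2) * Real.cos (k * s) := by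
      refine (integrable_exp_neg_mul_sq he).mul_bdd (c := 1) (Continuous.aestronglyMeasurable (by fun_prop)) ?_
      refine Eventually.of_forall fun p => ?_
      rw [Real.norm_eq_abs]
      exact Real.abs_cos_le_one _
    have h2 := integral_comp_abs (f := fun k => Real.exp (-e * k ^ 2) * Real.cos (k * s))
    have h3 : ∀ k : ℝ, Real.exp (-e * |k| ^ 2) * Real.cos (|k| * s) = Real.exp (-e * k ^ 2) * Real.cos (k * s) := by
      intro k
      rw [sq_abs]
      congr 1
      rcases abs_cases k with ⟨h, _⟩ | ⟨h, _⟩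
      · rw [h]
      · rw [h, neg_mul, Real.cos_neg]
    simp_rw [h3] at h2
    rw [h2]
    ring
  rw [h1]
  have hre : (0 : ℝ) < ((e : ℝ) : ℂ).re := by rwa [Complex.ofReal_re]
  have h2 := fourierIntegral_gaussian hre (s : ℂ)
  have hci : Integrable fun k : ℝ => Complex.exp (Complex.I * s * k) * Complex.exp (-(e : ℂ) * (k : ℂ) ^ 2) := by
    have hi : Integrable fun k : ℝ => ((Real.exp (-e * k ^ 2) : ℝ) : ℂ) := (integrable_exp_neg_mul_sq he).ofReal
    have h3 := hi.bdd_mul (c := 1) (f := fun k : ℝ => Complex.exp (Complex.I * s * k))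
      (Continuous.aestronglyMeasurable (by fun_prop)) (Eventually.of_forall fun k => by
        rw [show Complex.I * s * k = ((s * k : ℝ) : ℂ) * Complex.I by push_cast; ring, Complex.norm_exp_ofReal_mul_I])
    refine h3.congr (Eventually.of_forall fun k => ?_)
    simp only []
    push_cast
    rfl
  have h3 := integral_re hci
  simp only [RCLike.re_to_complex] at h3
  have h4 : ∀ k : ℝ, (Complex.exp (Complex.I * s * k) * Complex.exp (-(e : ℂ) * (k : ℂ) ^ 2)).re =
      Real.exp (-e * k ^ 2) * Real.cos (k * s) := by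
    intro k
    rw [show Complex.I * s * k = ((k * s : ℝ) : ℂ) * Complex.I by push_cast; ring,
      show -(e : ℂ) * (k : ℂ) ^ 2 = ((-e * k ^ 2 : ℝ) : ℂ) by push_cast; ring, ← Complex.ofReal_exp,
      Complex.re_mul_ofReal, Complex.exp_ofReal_mul_I_re]
    ring
  simp_rw [h4] at h3
  rw [h3, h2]
  have h5 : ((Real.pi : ℂ) / (e : ℂ)) ^ (1 / 2 : ℂ) * Complex.exp (-(s : ℂ) ^ 2 / (4 * (e : ℂ))) =
      (((Real.pi / e) ^ (1 / 2 : ℝ) * Real.exp (-s ^ 2 / (4 * e)) : ℝ) : ℂ) := by
    push_cast
    rw [Complex.ofReal_cpow (by positivity)]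
    push_cast
    rfl
  rw [h5, Complex.ofReal_re]
  positivity

/-- an integrable multiplier is `PK` -/
theorem MK.toPK {u : ℝ → ℝ} (hu : MK u) (hi : IntegrableOn u (Ioi 0)) : PK u := by
  obtain ⟨G, g1, g2, g3⟩ := hu
  refine ⟨hi, fun t => ?_⟩
  -- Gaussian cut
  have hlim : Tendsto (fun n : ℕ => ∫ k in Ioi (0:ℝ), Real.exp (-(1 / ((n : ℝ) + 1)) * k ^ 2) * (u k * Real.cos (k * t)))
      atTop (𝓝 (∫ k in Ioi (0:ℝ), u k * Real.cos (k * t))) := by
    refine tendsto_integral_of_dominated_convergence (fun k => ‖u k * Real.cos (k * t)‖) ?_ ?_ ?_ ?_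
    · intro n
      exact (Continuous.aestronglyMeasurable (by fun_prop)).mul (intOn_mul_cos hi t).aestronglyMeasurable
    · exact (intOn_mul_cos hi t).norm
    · intro n
      refine Eventually.of_forall fun k => ?_
      rw [norm_mul]
      refine mul_le_of_le_one_left (norm_nonneg _) ?_
      rw [Real.norm_eq_abs, abs_of_pos (Real.exp_pos _)]
      apply Real.exp_le_one_iff.2
      have : 0 ≤ 1 / ((n : ℝ) + 1) * k ^ 2 := by positivity
      linarith
    · refine Eventually.of_forall fun k => ?_
      have h1 : Tendsto (fun n : ℕ => Real.exp (-(1 / ((n : ℝ) + 1)) * k ^ 2)) atTop (𝓝 (Real.exp (-0 * k ^ 2))) :=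
        (Real.continuous_exp.tendsto _).comp ((tendsto_one_div_add_atTop_nhds_zero_nat.neg).mul_const _)
      have h2 := h1.mul_const (u k * Real.cos (k * t))
      simpa using h2
  refine ge_of_tendsto' hlim fun n => ?_
  set e : ℝ := 1 / ((n : ℝ) + 1) with he
  have he0 : 0 < e := by positivity
  have hE : IntegrableOn (fun k : ℝ => Real.exp (-e * k ^ 2)) (Ioi 0) := (integrable_exp_neg_mul_sq he0).integrableOn
  have h1 : ∫ k in Ioi (0:ℝ), Real.exp (-e * k ^ 2) * (u k * Real.cos (k * t)) =
      ∫ k in Ioi (0:ℝ), ∫ s, G s * (Real.exp (-e * k ^ 2) * (Real.cos (k * s) * Real.cos (k * t))) := by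
    refine setIntegral_congr_fun measurableSet_Ioi fun k hk => ?_
    show Real.exp (-e * k ^ 2) * (u k * Real.cos (k * t)) = _
    rw [← g3 k hk]
    rw [← integral_mul_const, ← integral_const_mul]
    congr 1
    funext s
    ring
  rw [h1]
  have hp : Integrable (fun p : ℝ × ℝ => G p.2 * (Real.exp (-e * p.1 ^ 2) * (Real.cos (p.1 * p.2) * Real.cos (p.1 * t))))
      ((volume.restrict (Ioi 0)).prod volume) := by
    have h2 : Integrable (fun p : ℝ × ℝ => Real.exp (-e * p.1 ^ 2) * G p.2) ((volume.restrict (Ioi 0)).prod volume) :=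
      hE.mul_prod g1
    have h3 := h2.mul_bdd (c := 1) (g := fun p : ℝ × ℝ => Real.cos (p.1 * p.2) * Real.cos (p.1 * t))
      (Continuous.aestronglyMeasurable (by fun_prop)) (Eventually.of_forall fun p => by
        rw [norm_mul, Real.norm_eq_abs, Real.norm_eq_abs]
        exact mul_le_one₀ (Real.abs_cos_le_one _) (abs_nonneg _) (Real.abs_cos_le_one _))
    refine h3.congr (Eventually.of_forall fun p => ?_)
    simp only []
    ring
  rw [integral_integral_swap hp]
  refine integral_nonneg fun s => ?_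
  show 0 ≤ ∫ k in Ioi (0:ℝ), G s * (Real.exp (-e * k ^ 2) * (Real.cos (k * s) * Real.cos (k * t)))
  rw [integral_const_mul]
  refine mul_nonneg (g2 s) ?_
  have h4 : ∀ k : ℝ, Real.exp (-e * k ^ 2) * (Real.cos (k * s) * Real.cos (k * t)) =
      1 / 2 * (Real.exp (-e * k ^ 2) * Real.cos (k * (s + t)) + Real.exp (-e * k ^ 2) * Real.cos (k * (s - t))) := by
    intro k
    rw [mul_add k s t, mul_sub k s t, Real.cos_add, Real.cos_sub]
    ring
  simp_rw [h4]
  rw [integral_const_mul]
  have i1 := intOn_mul_cos hE (s + t)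
  have i2 := intOn_mul_cos hE (s - t)
  rw [integral_add i1 i2]
  have := gauss_half e (s + t) he0
  have := gauss_half e (s - t) he0
  linarith

end

end NUPosK

namespace NUO

open NUMF NUPosK

noncomputable section

/-- scale `N = 4`, core included -/
lemma mlog4 {a b : ℝ} (ha : 0 ≤ a) (hab : a < b) (hb : b ≤ Real.pi / 2) :
    MK fun k => 2 * Real.pi / k * (Real.cosh (b * k) - Real.cosh (a * k)) / sk k := by
  have hpi := Real.pi_pos
  have h4 : 4 * l = Real.pi / 2 := by unfold l; ring
  have ha1 : |a| ≤ 4 * l := by rw [h4, abs_of_nonneg ha]; linarith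
  have hb1 : |b| ≤ 4 * l := by rw [h4, abs_of_nonneg (ha.trans hab.le)]; exact hb
  refine ⟨fun t => if t = 0 then 0 else h t a - h t b, ?_, ?_, ?_⟩
  · refine (integral_h_sub ha1 hb1).1.congr ?_
    filter_upwards [ae_ne_zero] with t ht
    rw [if_neg ht]
  · intro t
    show 0 ≤ if t = 0 then (0:ℝ) else h t a - h t b
    split_ifs with ht
    · exact le_rfl
    · rw [sub_nonneg]
      unfold h
      have h1 : Real.cos (2 * b) ≤ Real.cos (2 * a) :=
        Real.cos_le_cos_of_nonneg_of_le_pi (by linarith) (by linarith) (by linarith)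
      have h2 : 1 < Real.cosh (2 * t) := Real.one_lt_cosh.2 (by simpa using ht)
      have h3 := Real.neg_one_le_cos (2 * b)
      exact Real.log_le_log (by linarith) (by linarith)
  · intro k hk
    have e : (fun t => (if t = 0 then (0:ℝ) else h t a - h t b) * Real.cos (k * t)) =ᵐ[volume]
        fun t => (h t a - h t b) * Real.cos (k * t) := by
      filter_upwards [ae_ne_zero] with t ht
      rw [if_neg ht]
    have hs := sk_pos hk
    rw [integral_congr_ae e, (h_forward (h4 ▸ ha1) (h4 ▸ hb1) hk).2]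
    field_simp

/-- the logarithmic kernel with `b ≤ N` -/
theorem mk_log {N a b : ℝ} (ha : 0 ≤ a) (hab : a < b) (hb : b ≤ N) :
    MK fun k => 1 / k * (Real.cosh (b * yk k) - Real.cosh (a * yk k)) / Real.sinh (N * yk k) := by
  have hpi := Real.pi_pos
  have hN : 0 < N := by linarith
  have h1 := (mlog4 (a := a * (Real.pi / (2 * N))) (b := b * (Real.pi / (2 * N))) (by positivity)
    (by gcongr) (by
      calc b * (Real.pi / (2 * N)) ≤ N * (Real.pi / (2 * N)) := by gcongr
        _ = Real.pi / 2 := by field_simp)).dilate (l := N / 4) (by positivity)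
  refine (h1.smul (c := N / 4 / (2 * Real.pi)) (by positivity)).congr fun k hk => ?_
  rw [sk_scale]
  have e1 : b * (Real.pi / (2 * N)) * (N / 4 * k) = b * yk k := by unfold yk; field_simp; ring
  have e2 : a * (Real.pi / (2 * N)) * (N / 4 * k) = a * yk k := by unfold yk; field_simp; ring
  rw [e1, e2]
  field_simp

end

end NUO
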