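import Mathlib

/-!
# Potentials of bounded type on a strip

`PotB b κ c τ f f1`: `f' = f1` on `|Im z| < b`, `f1` is exponentially close to `± c` on the two sides of
the height `τ`, `|f| ≤ κ (1 + |Re z - τ|)`.  Closed under sums, multiples, change of `τ`; bounds of all
derivatives on smaller strips (Cauchy).
-/

set_option autoImplicit false

open Complex Set Filter Topology

namespace NUO

noncomputable section

/-- potentials on the strip `|Im z| < b` -/
structure PotB (b κ c τ : ℝ) (f f1 : ℂ → ℂ) : Prop where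
  b0 : 0 < b
  hd : ∀ z : ℂ, |z.im| < b → HasDerivAt f (f1 z) z
  tr : ∀ z : ℂ, |z.im| < b → τ ≤ z.re → ‖f1 z - c‖ ≤ κ * Real.exp (-2 * |z.re - τ|)
  tl : ∀ z : ℂ, |z.im| < b → z.re ≤ τ → ‖f1 z + c‖ ≤ κ * Real.exp (-2 * |z.re - τ|)
  val : ∀ z : ℂ, |z.im| < b → ‖f z‖ ≤ κ * (1 + |z.re - τ|)

variable {b κ c τ κ' c' τ' : ℝ} {f f1 g g1 : ℂ → ℂ}

namespace PotB

theorem κ0 (h : PotB b κ c τ f f1) : 0 ≤ κ := by
  have h1 := h.val (τ : ℂ) (by simpa using h.b0)
  simp only [Complex.ofReal_re, sub_self, abs_zero, add_zero, mul_one] at h1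
  exact (norm_nonneg _).trans h1

theorem mono (h : PotB b κ c τ f f1) (hk : κ ≤ κ') : PotB b κ' c τ f f1 := by
  refine ⟨h.b0, h.hd, fun z hz hr => (h.tr z hz hr).trans ?_, fun z hz hr => (h.tl z hz hr).trans ?_,
    fun z hz => (h.val z hz).trans ?_⟩
  · exact mul_le_mul_of_nonneg_right hk (Real.exp_pos _).le
  · exact mul_le_mul_of_nonneg_right hk (Real.exp_pos _).le
  · exact mul_le_mul_of_nonneg_right hk (by positivity)

theorem zero (hb : 0 < b) (τ : ℝ) : PotB b 0 0 τ (fun _ => 0) (fun _ => 0) :=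
  ⟨hb, fun z _ => hasDerivAt_const z 0, fun z _ _ => by simp, fun z _ _ => by simp,
    fun z _ => by simp⟩

theorem add (h : PotB b κ c τ f f1) (h' : PotB b κ' c' τ g g1) :
    PotB b (κ + κ') (c + c') τ (fun z => f z + g z) (fun z => f1 z + g1 z) := by
  refine ⟨h.b0, fun z hz => (h.hd z hz).add (h'.hd z hz), fun z hz hr => ?_, fun z hz hr => ?_,
    fun z hz => ?_⟩
  · have e : f1 z + g1 z - ((c + c' : ℝ) : ℂ) = (f1 z - c) + (g1 z - c') := by push_cast; ring
    rw [e, add_mul]
    exact (norm_add_le _ _).trans (add_le_add (h.tr z hz hr) (h'.tr z hz hr))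
  · have e : f1 z + g1 z + ((c + c' : ℝ) : ℂ) = (f1 z + c) + (g1 z + c') := by push_cast; ring
    rw [e, add_mul]
    exact (norm_add_le _ _).trans (add_le_add (h.tl z hz hr) (h'.tl z hz hr))
  · rw [add_mul]
    exact (norm_add_le _ _).trans (add_le_add (h.val z hz) (h'.val z hz))

theorem smul (h : PotB b κ c τ f f1) (a : ℝ) :
    PotB b (|a| * κ) (a * c) τ (fun z => a * f z) (fun z => a * f1 z) := by
  refine ⟨h.b0, fun z hz => (h.hd z hz).const_mul _, fun z hz hr => ?_, fun z hz hr => ?_,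
    fun z hz => ?_⟩
  · have e : (a : ℂ) * f1 z - ((a * c : ℝ) : ℂ) = a * (f1 z - c) := by push_cast; ring
    rw [e, norm_mul, Complex.norm_real, Real.norm_eq_abs, mul_assoc]
    exact mul_le_mul_of_nonneg_left (h.tr z hz hr) (abs_nonneg _)
  · have e : (a : ℂ) * f1 z + ((a * c : ℝ) : ℂ) = a * (f1 z + c) := by push_cast; ring
    rw [e, norm_mul, Complex.norm_real, Real.norm_eq_abs, mul_assoc]
    exact mul_le_mul_of_nonneg_left (h.tl z hz hr) (abs_nonneg _)
  · rw [norm_mul, Complex.norm_real, Real.norm_eq_abs, mul_assoc]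
    exact mul_le_mul_of_nonneg_left (h.val z hz) (abs_nonneg _)

theorem listSum {α : Type*} {b τ : ℝ} (hb : 0 < b) (L : List α) {κ c : α → ℝ} {f f1 : α → ℂ → ℂ}
    (h : ∀ x ∈ L, PotB b (κ x) (c x) τ (f x) (f1 x)) :
    PotB b (L.map κ).sum (L.map c).sum τ (fun z => (L.map fun x => f x z).sum)
      (fun z => (L.map fun x => f1 x z).sum) := by
  induction L with
  | nil => simpa using zero hb τ
  | cons a L ih =>
    have h1 := h a (by simp)
    have h2 := ih fun x hx => h x (by simp [hx])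
    simpa using h1.add h2

theorem sum {ι : Type*} {b τ : ℝ} (hb : 0 < b) (s : Finset ι) {κ c : ι → ℝ} {f f1 : ι → ℂ → ℂ}
    (h : ∀ x ∈ s, PotB b (κ x) (c x) τ (f x) (f1 x)) :
    PotB b (∑ x ∈ s, κ x) (∑ x ∈ s, c x) τ (fun z => ∑ x ∈ s, f x z)
      (fun z => ∑ x ∈ s, f1 x z) := by
  classical
  induction s using Finset.induction_on with
  | empty => simpa using zero hb τ
  | insert a s ha ih =>
    have h1 := h a (by simp)
    have h2 := ih fun x hx => h x (by simp [hx])
    simp only [Finset.sum_insert ha]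
    exact h1.add h2

theorem norm_add_le' (h : PotB b κ c τ f f1) {z : ℂ} (hz : |z.im| < b) (σ : ℝ) (hσ : |σ| ≤ |c|) :
    ‖f1 z - σ‖ ≤ κ + 2 * |c| := by
  have hk := h.κ0
  have key : ∀ s : ℝ, |s| ≤ |c| → ‖f1 z - s‖ ≤ κ → ‖f1 z - σ‖ ≤ κ + 2 * |c| := by
    intro s hs h1
    have e : f1 z - σ = (f1 z - s) + ((s - σ : ℝ) : ℂ) := by push_cast; ring
    rw [e]
    refine (norm_add_le _ _).trans ?_
    rw [Complex.norm_real, Real.norm_eq_abs]
    have := abs_sub s σ
    linarith
  rcases le_total τ z.re with hr | hr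
  · refine key c le_rfl ((h.tr z hz hr).trans ?_)
    refine mul_le_of_le_one_right hk (Real.exp_le_one_iff.2 ?_)
    have := abs_nonneg (z.re - τ)
    linarith
  · refine key (-c) (by rw [abs_neg]) ?_
    have e : f1 z - ((-c : ℝ) : ℂ) = f1 z + c := by push_cast; ring
    rw [e]
    refine (h.tl z hz hr).trans ?_
    refine mul_le_of_le_one_right hk (Real.exp_le_one_iff.2 ?_)
    have := abs_nonneg (z.re - τ)
    linarith

/-- crude bound of the derivative -/
theorem norm_le (h : PotB b κ c τ f f1) {z : ℂ} (hz : |z.im| < b) : ‖f1 z‖ ≤ κ + 2 * |c| := by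
  have := h.norm_add_le' hz 0 (by simp)
  simpa using this

/-- bounds near `z`, right side -/
theorem near_r (h : PotB b κ c τ f f1) {z w : ℂ} (hw : |w.im| < b) (hz : τ ≤ z.re)
    (hzw : |w.re - z.re| ≤ 1) : ‖f1 w - c‖ ≤ (κ + 2 * |c|) * Real.exp 2 * Real.exp (-2 * |z.re - τ|) := by
  have hk := h.κ0
  have hc := abs_nonneg c
  have hzw' := abs_le.1 hzw
  rw [mul_assoc, ← Real.exp_add]
  rcases le_total τ w.re with hr | hr
  · refine (h.tr w hw hr).trans ?_
    have e : Real.exp (-2 * |w.re - τ|) ≤ Real.exp (2 + -2 * |z.re - τ|) := by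
      refine Real.exp_le_exp.2 ?_
      rw [abs_of_nonneg (by linarith), abs_of_nonneg (by linarith)]
      linarith
    exact mul_le_mul (by linarith) e (Real.exp_pos _).le (by linarith)
  · refine (h.norm_add_le' hw c le_rfl).trans ?_
    refine le_mul_of_one_le_right (by linarith) (Real.one_le_exp ?_)
    rw [abs_of_nonneg (by linarith)]
    linarith

/-- bounds near `z`, left side -/
theorem near_l (h : PotB b κ c τ f f1) {z w : ℂ} (hw : |w.im| < b) (hz : z.re ≤ τ)
    (hzw : |w.re - z.re| ≤ 1) : ‖f1 w + c‖ ≤ (κ + 2 * |c|) * Real.exp 2 * Real.exp (-2 * |z.re - τ|) := by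
  have hk := h.κ0
  have hc := abs_nonneg c
  have hzw' := abs_le.1 hzw
  rw [mul_assoc, ← Real.exp_add]
  rcases le_total w.re τ with hr | hr
  · refine (h.tl w hw hr).trans ?_
    have e : Real.exp (-2 * |w.re - τ|) ≤ Real.exp (2 + -2 * |z.re - τ|) := by
      refine Real.exp_le_exp.2 ?_
      rw [abs_of_nonpos (by linarith), abs_of_nonpos (by linarith)]
      linarith
    exact mul_le_mul (by linarith) e (Real.exp_pos _).le (by linarith)
  · have h1 := h.norm_add_le' hw (-c) (by rw [abs_neg])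
    have e : f1 w - ((-c : ℝ) : ℂ) = f1 w + c := by push_cast; ring
    rw [e] at h1
    refine h1.trans ?_
    refine le_mul_of_one_le_right (by linarith) (Real.one_le_exp ?_)
    rw [abs_of_nonpos (by linarith)]
    linarith

/-- change of the centre -/
theorem shift (h : PotB b κ c τ f f1) (hτ : |τ - τ'| ≤ 1) :
    PotB b ((κ + 2 * |c|) * Real.exp 2) c τ' f f1 := by
  have hk := h.κ0
  have hc := abs_nonneg c
  have hτ' := abs_le.1 hτ
  refine ⟨h.b0, h.hd, fun z hz hr => ?_, fun z hz hr => ?_, fun z hz => ?_⟩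
  · rw [mul_assoc, ← Real.exp_add]
    rcases le_total τ z.re with h1 | h1
    · refine (h.tr z hz h1).trans ?_
      have e : Real.exp (-2 * |z.re - τ|) ≤ Real.exp (2 + -2 * |z.re - τ'|) := by
        refine Real.exp_le_exp.2 ?_
        rw [abs_of_nonneg (by linarith), abs_of_nonneg (by linarith)]
        linarith
      exact mul_le_mul (by linarith) e (Real.exp_pos _).le (by linarith)
    · refine (h.norm_add_le' hz c le_rfl).trans ?_
      refine le_mul_of_one_le_right (by linarith) (Real.one_le_exp ?_)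
      rw [abs_of_nonneg (by linarith)]
      linarith
  · rw [mul_assoc, ← Real.exp_add]
    rcases le_total z.re τ with h1 | h1
    · refine (h.tl z hz h1).trans ?_
      have e : Real.exp (-2 * |z.re - τ|) ≤ Real.exp (2 + -2 * |z.re - τ'|) := by
        refine Real.exp_le_exp.2 ?_
        rw [abs_of_nonpos (by linarith), abs_of_nonpos (by linarith)]
        linarith
      exact mul_le_mul (by linarith) e (Real.exp_pos _).le (by linarith)
    · have h2 := h.norm_add_le' hz (-c) (by rw [abs_neg])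
      have e : f1 z - ((-c : ℝ) : ℂ) = f1 z + c := by push_cast; ring
      rw [e] at h2
      refine h2.trans ?_
      refine le_mul_of_one_le_right (by linarith) (Real.one_le_exp ?_)
      rw [abs_of_nonpos (by linarith)]
      linarith
  · refine (h.val z hz).trans ?_
    have h1 : |z.re - τ| ≤ |z.re - τ'| + 1 := by
      have := abs_sub_le z.re τ' τ
      have h2 : |τ' - τ| ≤ 1 := by rw [abs_sub_comm]; exact hτ
      linarith
    have h2 : (3:ℝ) ≤ Real.exp 2 := by
      have := Real.add_one_le_exp (2:ℝ)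
      linarith
    have h3 := abs_nonneg (z.re - τ')
    calc κ * (1 + |z.re - τ|) ≤ κ * (2 * (1 + |z.re - τ'|)) := by
          refine mul_le_mul_of_nonneg_left ?_ hk
          linarith
      _ ≤ (κ + 2 * |c|) * (Real.exp 2 * (1 + |z.re - τ'|)) := by
          refine mul_le_mul (by linarith) ?_ (by positivity) (by linarith)
          exact mul_le_mul_of_nonneg_right (by linarith) (by positivity)
      _ = _ := by ring

/-! ### analyticity and higher derivatives -/

theorem isOpen_strip (b : ℝ) : IsOpen {z : ℂ | |z.im| < b} :=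
  isOpen_lt (continuous_abs.comp Complex.continuous_im) continuous_const

theorem an (h : PotB b κ c τ f f1) : AnalyticOnNhd ℂ f {z : ℂ | |z.im| < b} := by
  refine DifferentiableOn.analyticOnNhd (fun z hz => ?_) (isOpen_strip b)
  exact (h.hd z hz).differentiableAt.differentiableWithinAt

theorem hasDerivAt_iter (h : PotB b κ c τ f f1) (k : ℕ) {z : ℂ} (hz : |z.im| < b) :
    HasDerivAt (iteratedDeriv k f) (iteratedDeriv (k + 1) f z) z := by
  have h1 : AnalyticAt ℂ (iteratedDeriv k f) z := by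
    rw [iteratedDeriv_eq_iterate]
    exact (h.an z hz).iterated_deriv k
  rw [iteratedDeriv_succ]
  exact h1.differentiableAt.hasDerivAt

theorem deriv_eq (h : PotB b κ c τ f f1) {z : ℂ} (hz : |z.im| < b) : deriv f z = f1 z :=
  (h.hd z hz).deriv

/-- Cauchy bound with a constant subtracted -/
theorem cauchy (h : PotB b κ c τ f f1) {b' ρ M : ℝ} (hρ : 0 < ρ) (hbρ : b' + ρ < b) (n : ℕ) {z : ℂ}
    (hz : |z.im| ≤ b') (σ : ℂ) (hM : ∀ w : ℂ, ‖w - z‖ ≤ ρ → ‖f1 w - σ‖ ≤ M) :
    ‖iteratedDeriv (n + 2) f z‖ ≤ (n + 1).factorial * M / ρ ^ (n + 1) := by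
  have hball : ∀ w : ℂ, ‖w - z‖ ≤ ρ → |w.im| < b := by
    intro w hw
    have h1 : |(w - z).im| ≤ ρ := (Complex.abs_im_le_norm _).trans hw
    rw [Complex.sub_im] at h1
    have h2 : |w.im| ≤ |w.im - z.im| + |z.im| := by
      have := abs_add_le (w.im - z.im) z.im
      simpa using this
    linarith
  have hzb : |z.im| < b := hball z (by simpa using hρ.le)
  -- the function `deriv f - σ`
  have hdiff : DiffContOnCl ℂ (fun w => deriv f w - σ) (Metric.ball z ρ) := by
    refine DifferentiableOn.diffContOnCl ?_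
    intro w hw
    rw [closure_ball _ hρ.ne', Metric.mem_closedBall, dist_eq_norm] at hw
    have h1 : AnalyticAt ℂ (deriv f) w := (h.an w (hball w hw)).deriv
    exact (h1.differentiableAt.sub_const σ).differentiableWithinAt
  have hsph : ∀ w ∈ Metric.sphere z ρ, ‖deriv f w - σ‖ ≤ M := by
    intro w hw
    rw [Metric.mem_sphere, dist_eq_norm] at hw
    rw [h.deriv_eq (hball w hw.le)]
    exact hM w hw.le
  have h2 := Complex.norm_iteratedDeriv_le_of_forall_mem_sphere_norm_le (n + 1) hρ hdiff hsph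
  have e : iteratedDeriv (n + 1) (fun w => deriv f w - σ) z = iteratedDeriv (n + 2) f z := by
    rw [iteratedDeriv_succ', show n + 2 = (n + 1) + 1 from rfl, iteratedDeriv_succ',
      iteratedDeriv_succ' (f := deriv f)]
    congr 1
    funext w
    exact deriv_sub_const σ
  rw [e] at h2
  exact h2

/-- **derivatives of order `≥ 2`** -/
theorem iter_bound (h : PotB b κ c τ f f1) {b' ρ : ℝ} (hρ : 0 < ρ) (hρ1 : ρ ≤ 1) (hbρ : b' + ρ < b)
    (n : ℕ) {z : ℂ} (hz : |z.im| ≤ b') : ‖iteratedDeriv (n + 2) f z‖ ≤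
      (n + 1).factorial * ((κ + 2 * |c|) * Real.exp 2) / ρ ^ (n + 1) * Real.exp (-2 * |z.re - τ|) := by
  have hball : ∀ w : ℂ, ‖w - z‖ ≤ ρ → |w.im| < b ∧ |w.re - z.re| ≤ 1 := by
    intro w hw
    have h1 : |(w - z).im| ≤ ρ := (Complex.abs_im_le_norm _).trans hw
    have h3 : |(w - z).re| ≤ ρ := (Complex.abs_re_le_norm _).trans hw
    rw [Complex.sub_im] at h1
    rw [Complex.sub_re] at h3
    have h2 : |w.im| ≤ |w.im - z.im| + |z.im| := by
      have := abs_add_le (w.im - z.im) z.im
      simpa using this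
    exact ⟨by linarith, by linarith⟩
  rcases le_total τ z.re with hr | hr
  · refine (h.cauchy hρ hbρ n hz c fun w hw => h.near_r (hball w hw).1 hr (hball w hw).2).trans
      (le_of_eq ?_)
    ring
  · refine (h.cauchy (M := (κ + 2 * |c|) * Real.exp 2 * Real.exp (-2 * |z.re - τ|)) hρ hbρ n hz (-c)
      fun w hw => ?_).trans (le_of_eq ?_)
    · rw [sub_neg_eq_add]
      exact h.near_l (hball w hw).1 hr (hball w hw).2
    · ring

/-- uniform bound of the derivatives of order `≥ 1` -/
theorem iter_bound' (h : PotB b κ c τ f f1) {b' ρ : ℝ} (hρ : 0 < ρ) (hρ1 : ρ ≤ 1) (hbρ : b' + ρ < b)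
    (n : ℕ) {z : ℂ} (hz : |z.im| ≤ b') : ‖iteratedDeriv (n + 1) f z‖ ≤
      n.factorial * ((κ + 2 * |c|) * Real.exp 2) / ρ ^ n := by
  have hk := h.κ0
  have hc := abs_nonneg c
  cases n with
  | zero =>
    rw [zero_add, iteratedDeriv_one, h.deriv_eq (by linarith)]
    refine (h.norm_le (by linarith)).trans ?_
    simp only [Nat.factorial_zero, Nat.cast_one, one_mul, pow_zero, div_one]
    exact le_mul_of_one_le_right (by linarith) (Real.one_le_exp (by norm_num))
  | succ n =>
    refine (h.iter_bound hρ hρ1 hbρ n hz).trans ?_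
    refine mul_le_of_le_one_right (by positivity) (Real.exp_le_one_iff.2 ?_)
    have := abs_nonneg (z.re - τ)
    linarith

/-- neutral potentials: all derivatives of order `≥ 1` decay -/
theorem iter_bound_neutral (h : PotB b κ 0 τ f f1) {b' ρ : ℝ} (hρ : 0 < ρ) (hρ1 : ρ ≤ 1)
    (hbρ : b' + ρ < b) (n : ℕ) {z : ℂ} (hz : |z.im| ≤ b') : ‖iteratedDeriv (n + 1) f z‖ ≤
      n.factorial * (κ * Real.exp 2) / ρ ^ n * Real.exp (-2 * |z.re - τ|) := by
  have hk := h.κ0
  cases n with
  | zero =>
    rw [zero_add, iteratedDeriv_one, h.deriv_eq (by linarith)]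
    simp only [Nat.factorial_zero, Nat.cast_one, one_mul, pow_zero, div_one]
    have h1 : κ ≤ κ * Real.exp 2 := le_mul_of_one_le_right hk (Real.one_le_exp (by norm_num))
    rcases le_total τ z.re with hr | hr
    · have := h.tr z (by linarith) hr
      rw [Complex.ofReal_zero, sub_zero] at this
      exact this.trans (mul_le_mul_of_nonneg_right h1 (Real.exp_pos _).le)
    · have := h.tl z (by linarith) hr
      rw [Complex.ofReal_zero, add_zero] at this
      exact this.trans (mul_le_mul_of_nonneg_right h1 (Real.exp_pos _).le)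
  | succ n =>
    have := h.iter_bound hρ hρ1 hbρ n hz
    rwa [abs_zero, mul_zero, add_zero] at this

end PotB

end

end NUO
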