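import Pool.Agent.NUO.Obj
import Pool.Agent.NUO.Blocks
import Pool.Agent.NUO.PotB

/-!
# Complex potentials of the objects of a configuration

Curve variable `ζ`: a quantum of the curve is at `u = l + i ζ`.
-/

set_option autoImplicit false
set_option linter.unusedSimpArgs false

open Complex Set Filter Topology

namespace NUO

open NUMF (cosh_slit cosh_ne two_norm_cosh_sq)

noncomputable section


lemma ll_eq : NUP1.l = NUMF.l := rfl

lemma ll_pos : 0 < NUMF.l := NUMF.l_pos

/-! ### the block of one sine -/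

/-- imaginary shift of the block `log ‖sin (u - w + k l)‖` -/
def yw (w : ℂ) (k : ℤ) : ℝ := red (((3 - k : ℤ) : ℝ) - (-(w.re / NUMF.l))) * NUMF.l

/-- the real part of `w` is at distance `≥ δ l` from the multiples of `l` -/
def Away (δ : ℝ) (w : ℂ) : Prop := ∀ n : ℤ, δ * NUMF.l ≤ |w.re - n * NUMF.l|

lemma Away.off {δ : ℝ} {w : ℂ} (h : Away δ w) : Off δ (-(w.re / NUMF.l)) := by
  intro n
  have h1 := h (-n)
  have hl := ll_pos
  have e : -(w.re / NUMF.l) - n = -((w.re - ((-n : ℤ) : ℝ) * NUMF.l) / NUMF.l) := by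
    push_cast
    field_simp
    ring
  rw [e, abs_neg, abs_div, abs_of_pos hl, le_div_iff₀ hl]
  exact h1

lemma yw_le {δ : ℝ} {w : ℂ} (h : Away δ w) (k : ℤ) : |yw w k| ≤ Real.pi / 2 - δ * NUMF.l := by
  unfold yw
  rw [abs_mul, abs_of_pos ll_pos, ← four_l, ← sub_mul]
  exact mul_le_mul_of_nonneg_right (red_le h.off _) ll_pos.le

/-- argument of the block -/
def wz (w : ℂ) (k : ℤ) (ζ : ℂ) : ℂ := ζ - w.im + yw w k * I

lemma wz_re (w : ℂ) (k : ℤ) (ζ : ℂ) : (wz w k ζ).re = ζ.re - w.im := by simp [wz]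

lemma wz_im (w : ℂ) (k : ℤ) (ζ : ℂ) : (wz w k ζ).im = ζ.im + yw w k := by simp [wz]

lemma wz_lt {δ : ℝ} {w : ℂ} (h : Away δ w) (k : ℤ) {ζ : ℂ} (hζ : |ζ.im| < δ * NUMF.l) :
    |(wz w k ζ).im| < Real.pi / 2 := by
  rw [wz_im]
  have h1 := yw_le h k
  have h2 := abs_add_le ζ.im (yw w k)
  linarith

/-- the block -/
def bk (w : ℂ) (k : ℤ) (ζ : ℂ) : ℂ := Complex.log (Complex.cosh (wz w k ζ))

/-- derivative of the block -/
def bk1 (w : ℂ) (k : ℤ) (ζ : ℂ) : ℂ := Complex.tanh (wz w k ζ)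

lemma cos_red (x y : ℝ) : Real.cos (2 * (x + red y * NUMF.l)) = Real.cos (2 * (x + y * NUMF.l)) := by
  unfold red
  have e : 2 * (x + (y - 8 * (round (y / 8) : ℝ)) * NUMF.l) =
      2 * (x + y * NUMF.l) - round (y / 8) * (2 * Real.pi) := by
    unfold NUMF.l
    ring
  rw [e, Real.cos_sub_int_mul_two_pi]

/-- the modulus of the sine -/
lemma norm_sin_bk (w : ℂ) (k : ℤ) (ζ : ℂ) :
    ‖sin ((NUMF.l + I * ζ) - w + k * NUMF.l)‖ = ‖Complex.cosh (wz w k ζ)‖ := by
  have hl := ll_pos
  have e : ((NUMF.l + I * ζ) - w + k * NUMF.l : ℂ) =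
      ((NUMF.l - ζ.im - w.re + k * NUMF.l : ℝ) : ℂ) + ((ζ.re - w.im : ℝ) : ℂ) * I := by
    apply Complex.ext <;> simp [sub_eq_add_neg]
  have h1 := NUMF.norm_sin_sq (NUMF.l - ζ.im - w.re + k * NUMF.l) (ζ.re - w.im)
  have h2 := two_norm_cosh_sq (wz w k ζ)
  rw [← e] at h1
  rw [wz_re, wz_im] at h2
  have h3 : Real.cos (2 * (ζ.im + yw w k)) = -Real.cos (2 * (NUMF.l - ζ.im - w.re + k * NUMF.l)) := by
    unfold yw
    rw [cos_red]
    have e2 : 2 * (ζ.im + (((3 - k : ℤ) : ℝ) - (-(w.re / NUMF.l))) * NUMF.l) =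
        Real.pi - 2 * (NUMF.l - ζ.im - w.re + k * NUMF.l) := by
      have : (8 : ℝ) * NUMF.l = Real.pi := by unfold NUMF.l; ring
      push_cast
      field_simp
      linear_combination this
    rw [e2, Real.cos_pi_sub]
  rw [h3] at h2
  have h4 : ‖sin ((NUMF.l + I * ζ) - w + k * NUMF.l)‖ ^ 2 = ‖Complex.cosh (wz w k ζ)‖ ^ 2 := by linarith
  exact (pow_left_inj₀ (norm_nonneg _) (norm_nonneg _) two_ne_zero).1 h4

lemma exp_bk {δ : ℝ} {w : ℂ} (h : Away δ w) (k : ℤ) {ζ : ℂ} (hζ : |ζ.im| < δ * NUMF.l) :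
    Real.exp (bk w k ζ).re = ‖sin ((NUMF.l + I * ζ) - w + k * NUMF.l)‖ := by
  rw [norm_sin_bk]
  unfold bk
  rw [Complex.log_re, Real.exp_log (norm_pos_iff.2 (cosh_ne (wz_lt h k hζ)))]

lemma sin_pos' {δ : ℝ} {w : ℂ} (h : Away δ w) (k : ℤ) {ζ : ℂ} (hζ : |ζ.im| < δ * NUMF.l) :
    0 < ‖sin ((NUMF.l + I * ζ) - w + k * NUMF.l)‖ := by
  rw [← exp_bk h k hζ]
  exact Real.exp_pos _

lemma hasDerivAt_bk {δ : ℝ} {w : ℂ} (h : Away δ w) (k : ℤ) {ζ : ℂ} (hζ : |ζ.im| < δ * NUMF.l) :
    HasDerivAt (bk w k) (bk1 w k ζ) ζ := by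
  have h1 := (Complex.hasDerivAt_cosh (wz w k ζ)).clog (cosh_slit (wz_lt h k hζ))
  have h2 : HasDerivAt (wz w k) 1 ζ := by
    unfold wz
    exact ((hasDerivAt_id ζ).sub_const _).add_const _
  have h3 := h1.comp ζ h2
  rw [mul_one] at h3
  unfold bk1
  rw [Complex.tanh_eq_sinh_div_cosh]
  exact h3

/-- constant of a block on the strip `|Im ζ| < b`, `b < δ l` -/
def kb (δ b : ℝ) : ℝ := 2 / Real.sin (δ * NUMF.l - b) + (2 * |Real.log (Real.sin (δ * NUMF.l - b))| +
  2 * Real.pi + 2)

/-- **the block is a potential** -/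
theorem potB_bk {δ b : ℝ} (hb0 : 0 < b) (hb : b < δ * NUMF.l) {w : ℂ} (h : Away δ w) (k : ℤ) :
    PotB b (kb δ b) 1 w.im (bk w k) (bk1 w k) := by
  set b' := Real.pi / 2 - (δ * NUMF.l - b) with hb'
  have hb1 : b' < Real.pi / 2 := by rw [hb']; linarith
  have hcos : Real.cos b' = Real.sin (δ * NUMF.l - b) := by rw [hb', Real.cos_pi_div_two_sub]
  have him : ∀ ζ : ℂ, |ζ.im| < b → |(wz w k ζ).im| ≤ b' := by
    intro ζ hζ
    rw [wz_im, hb']
    have h1 := yw_le h k
    have h2 := abs_add_le ζ.im (yw w k)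
    linarith
  have hb'0 : 0 ≤ b' := (abs_nonneg _).trans (him (0:ℂ) (by simpa using hb0))
  have hc := cos_pos_of hb'0 hb1
  have hkb1 : 2 / Real.cos b' ≤ kb δ b := by
    unfold kb
    rw [hcos]
    have := abs_nonneg (Real.log (Real.sin (δ * NUMF.l - b)))
    have := Real.pi_pos
    linarith
  have hkb2 : 2 * |Real.log (Real.sin (δ * NUMF.l - b))| + 2 * Real.pi + 2 ≤ kb δ b := by
    unfold kb
    have : 0 ≤ 2 / Real.sin (δ * NUMF.l - b) := by rw [← hcos]; positivity
    linarith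
  refine ⟨hb0, fun ζ hζ => hasDerivAt_bk h k (hζ.trans hb), fun ζ hζ hr => ?_, fun ζ hζ hr => ?_,
    fun ζ hζ => ?_⟩
  · have h1 := tanh_sub_one hb1 (him ζ hζ) (by rw [wz_re]; linarith)
    rw [wz_re] at h1
    rw [Complex.ofReal_one]
    exact h1.trans (mul_le_mul_of_nonneg_right hkb1 (Real.exp_pos _).le)
  · have h1 := tanh_add_one hb1 (him ζ hζ) (by rw [wz_re]; linarith)
    rw [wz_re] at h1
    rw [Complex.ofReal_one]
    exact h1.trans (mul_le_mul_of_nonneg_right hkb1 (Real.exp_pos _).le)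
  · have h1 := NUMF.F_bound hb1 (him ζ hζ)
    have h2 : bk w k ζ = (NUMF.F (wz w k ζ) - Real.log 2) / 2 := by
      unfold bk NUMF.F
      ring
    have l2 : 0 < Real.log 2 := Real.log_pos (by norm_num)
    have l2' : Real.log 2 ≤ 1 := by
      have := Real.log_two_lt_d9
      linarith
    have h3 : ‖NUMF.F (wz w k ζ) - Real.log 2‖ ≤ ‖NUMF.F (wz w k ζ)‖ + Real.log 2 := by
      refine (norm_sub_le _ _).trans ?_
      rw [Complex.norm_real, Real.norm_eq_abs, abs_of_pos l2]
    rw [h2, norm_div, Complex.norm_ofNat]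
    rw [wz_re, hcos] at h1
    have h4 := abs_nonneg (ζ.re - w.im)
    have h5 := abs_nonneg (Real.log (Real.sin (δ * NUMF.l - b)))
    have h6 := Real.pi_pos
    have h7 : |ζ.re - w.im| * 2 ≤ |ζ.re - w.im| * kb δ b :=
      mul_le_mul_of_nonneg_left (by linarith) h4
    nlinarith

/-! ### constituents -/

/-- the sines of the pair function of a quantum and a constituent: (shift, power); arguments: own
species?, type (`true` = string) -/
def mlt : Bool → Bool → List (ℤ × ℝ)
  | true, false => [(0, 2), (2, 1), (-2, 1), (1, -1), (-1, -1)]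
  | true, true => [(0, 1), (1, 1), (-2, 1), (3, 1)]
  | false, false => [(4, 2), (3, -2), (-3, -2)]
  | false, true => [(3, -2), (-2, -2)]

/-- potential of the constituent `x` on a quantum of species `s` -/
def cp (s : Bool) (x : Bool × Bool × ℂ) (ζ : ℂ) : ℂ :=
  ((mlt (decide (s = x.1)) x.2.1).map fun kc => (kc.2 : ℂ) * bk x.2.2 kc.1 ζ).sum

/-- its derivative -/
def cp1 (s : Bool) (x : Bool × Bool × ℂ) (ζ : ℂ) : ℂ :=
  ((mlt (decide (s = x.1)) x.2.1).map fun kc => (kc.2 : ℂ) * bk1 x.2.2 kc.1 ζ).sum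

/-- its charge as seen by species `s` -/
def cq (s : Bool) (x : Bool × Bool × ℂ) : ℝ :=
  (if s = x.1 then 2 else -2) * (if x.2.1 then 2 else 1)

lemma mlt_sum (o ty : Bool) : ((mlt o ty).map fun kc => kc.2 * (1:ℝ)).sum =
    (if o then 2 else -2) * (if ty then 2 else 1) := by
  cases o <;> cases ty <;> norm_num [mlt]

lemma mlt_abs (o ty : Bool) (K : ℝ) (hK : 0 ≤ K) :
    ((mlt o ty).map fun kc => |kc.2| * K).sum ≤ 6 * K := by
  cases o <;> cases ty <;> simp [mlt] <;> linarith

theorem potB_cp {δ b : ℝ} (hb0 : 0 < b) (hb : b < δ * NUMF.l) (s : Bool) {x : Bool × Bool × ℂ}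
    (h : Away δ x.2.2) : PotB b (6 * kb δ b) (cq s x) x.2.2.im (cp s x) (cp1 s x) := by
  have hk := (potB_bk hb0 hb h 0).κ0
  have h1 := PotB.listSum hb0 (mlt (decide (s = x.1)) x.2.1) (κ := fun kc => |kc.2| * kb δ b)
    (c := fun kc => kc.2 * (1:ℝ)) (f := fun kc ζ => (kc.2 : ℂ) * bk x.2.2 kc.1 ζ)
    (f1 := fun kc ζ => (kc.2 : ℂ) * bk1 x.2.2 kc.1 ζ) (τ := x.2.2.im)
    fun kc _ => (potB_bk hb0 hb h kc.1).smul kc.2
  rw [mlt_sum] at h1
  have e : cq s x = (if decide (s = x.1) = true then 2 else -2) * (if x.2.1 = true then 2 else 1) := by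
    unfold cq
    simp
  rw [e]
  exact h1.mono (mlt_abs _ _ _ hk)

lemma exp_two (x : ℝ) : Real.exp (2 * x) = Real.exp x ^ 2 := by
  rw [← Real.exp_nat_mul]
  norm_num

/-- **modulus of the pair function** -/
theorem exp_cp {δ : ℝ} (s : Bool) {x : Bool × Bool × ℂ} (h : Away δ x.2.2) {ζ : ℂ}
    (hζ : |ζ.im| < δ * NUMF.l) : Real.exp (cp s x ζ).re = ‖pp (s, false, NUMF.l + I * ζ) x‖ := by
  obtain ⟨sx, ty, w⟩ := x
  simp only at h
  set z : ℂ := (NUMF.l + I * ζ) - w with hz
  have hS : ∀ k : ℤ, ‖sin (z + k * NUMF.l)‖ = Real.exp (bk w k ζ).re := fun k => (exp_bk h k hζ).symm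
  have s0 : ‖sin z‖ = Real.exp (bk w 0 ζ).re := by
    have := hS 0
    simpa using this
  have s1 : ‖sin (z + NUP1.l)‖ = Real.exp (bk w 1 ζ).re := by
    have := hS 1
    rw [ll_eq]
    simpa using this
  have s2 : ‖sin (z + 2 * NUP1.l)‖ = Real.exp (bk w 2 ζ).re := by
    have := hS 2
    rw [ll_eq]
    simpa using this
  have s3 : ‖sin (z + 3 * NUP1.l)‖ = Real.exp (bk w 3 ζ).re := by
    have := hS 3
    rw [ll_eq]
    simpa using this
  have s4 : ‖cos z‖ = Real.exp (bk w 4 ζ).re := by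
    have := hS 4
    have e : z + ((4 : ℤ) : ℂ) * NUMF.l = z + Real.pi / 2 := by
      unfold NUMF.l
      push_cast
      ring
    rw [e, Complex.sin_add_pi_div_two] at this
    exact this
  have sm1 : ‖sin (z - NUP1.l)‖ = Real.exp (bk w (-1) ζ).re := by
    have := hS (-1)
    rw [← this]
    congr 2
    rw [ll_eq]
    push_cast
    ring
  have sm2 : ‖sin (z - 2 * NUP1.l)‖ = Real.exp (bk w (-2) ζ).re := by
    have := hS (-2)
    rw [← this]
    congr 2
    rw [ll_eq]
    push_cast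
    ring
  have sm3 : ‖sin (z - 3 * NUP1.l)‖ = Real.exp (bk w (-3) ζ).re := by
    have := hS (-3)
    rw [← this]
    congr 2
    rw [ll_eq]
    push_cast
    ring
  -- the shifted cosine and sines of the string
  have c1 : ‖cos (z + NUP1.l)‖ = ‖sin (z - 3 * NUP1.l)‖ := by
    have e : z + NUP1.l = (z - 3 * NUP1.l) + Real.pi / 2 := by
      unfold NUP1.l
      push_cast
      ring
    rw [e, Complex.cos_add_pi_div_two, norm_neg]
  have c2 : ‖sin (z + NUP1.l + 3 * NUP1.l)‖ = ‖cos z‖ := by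
    have e : z + NUP1.l + 3 * NUP1.l = z + Real.pi / 2 := by
      unfold NUP1.l
      push_cast
      ring
    rw [e, Complex.sin_add_pi_div_two]
  have c3 : ‖sin (z + NUP1.l - 3 * NUP1.l)‖ = ‖sin (z - 2 * NUP1.l)‖ := by
    congr 2
    ring
  have p : ∀ k : ℤ, Real.exp (bk w k ζ).re ≠ 0 := fun k => (Real.exp_pos _).ne'
  unfold cp pp
  by_cases hs : s = sx
  · subst hs
    cases ty
    · simp only [decide_true, mlt, List.map_cons, List.map_nil, List.sum_cons, List.sum_nil,
        if_true, NUP1.Kn.pz]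
      rw [← hz]
      unfold NUP1.q
      rw [norm_div, norm_neg, norm_mul, norm_mul, norm_mul, norm_pow, s0, s2, sm2, s1, sm1]
      simp only [Complex.add_re, Complex.re_ofReal_mul, add_zero, one_mul,
        neg_one_mul, Real.exp_add, Real.exp_neg, exp_two]
      have := p 1
      have := p (-1)
      field_simp
    · simp only [decide_true, mlt, List.map_cons, List.map_nil, List.sum_cons, List.sum_nil,
        if_true, NUP1.Kn.pz]
      rw [← hz]
      unfold NUP1.q1
      rw [norm_mul, norm_mul, norm_mul, s0, s1, sm2, s3]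
      simp only [Complex.add_re, Complex.re_ofReal_mul, add_zero, one_mul,
        Real.exp_add]
      ring
  · have hd : decide (s = sx) = false := by simpa using hs
    cases ty
    · simp only [hd, mlt, List.map_cons, List.map_nil, List.sum_cons, List.sum_nil, if_neg hs,
        NUP1.Kn.cz]
      rw [← hz]
      unfold NUP1.Bd.qg
      rw [norm_div, norm_mul, norm_pow, norm_pow, norm_pow, s4, s3, sm3]
      simp only [Complex.add_re, Complex.re_ofReal_mul, add_zero,
        neg_mul, Real.exp_add, Real.exp_neg, exp_two]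
      have := p 3
      have := p (-3)
      field_simp
    · simp only [hd, mlt, List.map_cons, List.map_nil, List.sum_cons, List.sum_nil, if_neg hs,
        NUP1.Kn.cz]
      rw [← hz]
      unfold NUP1.Bd.qg
      rw [norm_mul, norm_div, norm_div, norm_mul, norm_mul, norm_pow, norm_pow, norm_pow, norm_pow,
        norm_pow, norm_pow, c1, c2, c3, s4, s3, sm3, sm2]
      simp only [Complex.add_re, Complex.re_ofReal_mul, add_zero,
        neg_mul, Real.exp_add, Real.exp_neg, exp_two]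
      have := p 3
      have := p (-3)
      have := p (-2)
      have := p 4
      field_simp

/-! ### objects -/

/-- conditions on the parameters: all constituents stay `δ l` away from the multiples of `l` -/
structure PG (δ : ℝ) (P : Par) : Prop where
  δ0 : 0 < δ
  j1 : 2 + δ ≤ P.jL
  j2 : P.jL ≤ 3 - δ
  e1 : 2 * δ ≤ P.e
  d0 : ∀ r, 0 ≤ P.d r
  e2 : ∀ r, P.e + P.d r ≤ 1 - 2 * δ
  r0 : ∀ r t, 0 ≤ P.rad r t
  r1 : ∀ r t, P.rad r t ≤ δ * NUMF.l

lemma PG.δ4 {δ : ℝ} {P : Par} (h : PG δ P) : 4 * δ ≤ 1 := by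
  have h1 := h.e1
  have h2 := h.e2 0
  have h3 := h.d0 0
  linarith

lemma away_of {δ x : ℝ} {w : ℂ} (hw : w.re = x * NUMF.l) (a : ℤ) (h1 : a + δ ≤ x) (h2 : x ≤ a + 1 - δ) :
    Away δ w := by
  intro n
  have hl := ll_pos
  have e : w.re - n * NUMF.l = (x - n) * NUMF.l := by rw [hw]; ring
  rw [e, abs_mul, abs_of_pos hl]
  refine mul_le_mul_of_nonneg_right ?_ hl.le
  rcases le_or_gt n a with hn | hn
  · have h3 : (n : ℝ) ≤ a := by exact_mod_cast hn
    exact le_trans (by linarith) (le_abs_self _)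
  · have h3 : (a : ℝ) + 1 ≤ n := by exact_mod_cast hn
    refine le_trans ?_ (neg_le_abs _)
    linarith

lemma ei_mem {δ : ℝ} {P : Par} (h : PG δ P) {r : ℕ} (O : Fin r → Xo) (i : Fin r) :
    2 * δ ≤ ei P O i ∧ ei P O i ≤ 1 - 2 * δ := by
  have h1 := h.e1
  have h2 := h.e2 r
  have h3 := h.d0 r
  have hr : 0 < r := i.pos
  have hr' : (0:ℝ) < r := by exact_mod_cast hr
  have h4 : (rk O i : ℝ) ≤ r := by
    have : rk O i ≤ r := by
      unfold rk
      exact (Finset.card_filter_le _ _).trans (by simp)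
    exact_mod_cast this
  have h5 : (rk O i : ℝ) / r ≤ 1 := by rw [div_le_one hr']; exact h4
  have h6 : 0 ≤ (rk O i : ℝ) / r := by positivity
  unfold ei
  constructor
  · nlinarith
  · nlinarith

lemma posV_re (e ρ t a : ℝ) : (posV e ρ t a).re = (-(1 + e) + 2) * NUMF.l + ρ * Real.cos (2 * Real.pi * a) := by
  unfold posV posS NUP1.vl
  rw [show (2 * (Real.pi : ℂ) * a * I) = ((2 * Real.pi * a : ℝ) : ℂ) * I by push_cast; ring]
  simp only [Complex.add_re, Complex.re_ofReal_mul, Complex.exp_ofReal_mul_I_re]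
  simp [ll_eq]
  ring

lemma posV_im (e ρ t a : ℝ) : (posV e ρ t a).im = t + ρ * Real.sin (2 * Real.pi * a) := by
  unfold posV posS NUP1.vl
  rw [show (2 * (Real.pi : ℂ) * a * I) = ((2 * Real.pi * a : ℝ) : ℂ) * I by push_cast; ring]
  simp only [Complex.add_im, Complex.im_ofReal_mul, Complex.exp_ofReal_mul_I_im]
  simp

/-- all constituents are away from the lattice, and near the height of the object -/
theorem cons_away {δ : ℝ} {P : Par} (h : PG δ P) {r : ℕ} (O : Fin r → Xo) (i : Fin r) :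
    ∀ x ∈ cons P O i, Away δ x.2.2 ∧ |x.2.2.im - ht (O i)| ≤ 1 := by
  have hl := ll_pos
  have hl1 : NUMF.l ≤ 1 := by
    unfold NUMF.l
    have := Real.pi_le_four
    linarith
  obtain ⟨he1, he2⟩ := ei_mem h O i
  have hd := h.δ0
  have hd4 := h.δ4
  have hr0 := h.r0 r (ht (O i))
  have hr1 := h.r1 r (ht (O i))
  have hS : Away δ (posS (ei P O i) (ht (O i))) := by
    refine away_of (x := -(1 + ei P O i)) ?_ (-2) (by push_cast; linarith) (by push_cast; linarith)
    simp [posS, NUP1.vl, ll_eq]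
    ring
  have hSi : (posS (ei P O i) (ht (O i))).im = ht (O i) := by simp [posS, NUP1.vl]
  have hV2 : Away δ (posS (ei P O i) (ht (O i)) + 2 * NUP1.l) := by
    refine away_of (x := 1 - ei P O i) ?_ 0 (by push_cast; linarith) (by push_cast; linarith)
    simp [posS, NUP1.vl, ll_eq]
    ring
  have hV2i : (posS (ei P O i) (ht (O i)) + 2 * NUP1.l).im = ht (O i) := by simp [posS, NUP1.vl]
  intro x hx
  unfold cons parts at hx
  rcases hk : kd (O i) with _ | _ | _ | _ | _ <;> simp only [hk] at hx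
  · -- L
    simp only [List.mem_cons, List.not_mem_nil, or_false] at hx
    subst hx
    refine ⟨away_of (x := 1 - P.jL) ?_ (-2) (by push_cast; linarith [h.j2]) (by push_cast; linarith [h.j1]), ?_⟩
    · simp [posL, NUP1.vl, ll_eq]
    · simp [posL, NUP1.vl]
  · -- St
    simp only [List.mem_cons, List.not_mem_nil, or_false] at hx
    subst hx
    refine ⟨away_of (x := -(1 / 2)) ?_ (-1) (by push_cast; linarith) (by push_cast; linarith), ?_⟩
    · simp [posT, NUP1.vl, ll_eq]
    · simp [posT, NUP1.vl]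
  · -- S
    simp only [List.mem_cons, List.not_mem_nil, or_false] at hx
    subst hx
    refine ⟨hS, ?_⟩
    simp only
    rw [hSi]
    simp
  · -- Sv
    simp only [List.mem_cons, List.not_mem_nil, or_false] at hx
    rcases hx with hx | hx
    · subst hx
      refine ⟨hS, ?_⟩
      simp only
      rw [hSi]
      simp
    · subst hx
      simp only
      have hc := Real.abs_cos_le_one (2 * Real.pi * an (O i))
      have hs := Real.abs_sin_le_one (2 * Real.pi * an (O i))
      have hc' := abs_le.1 hc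
      constructor
      · refine away_of (x := 1 - ei P O i + rr P O i * Real.cos (2 * Real.pi * an (O i)) / NUMF.l) ?_ 0 ?_ ?_
        · rw [posV_re]
          field_simp
          ring
        · have h1 : -δ ≤ rr P O i * Real.cos (2 * Real.pi * an (O i)) / NUMF.l := by
            rw [le_div_iff₀ hl]
            unfold rr
            nlinarith
          push_cast
          linarith
        · have h1 : rr P O i * Real.cos (2 * Real.pi * an (O i)) / NUMF.l ≤ δ := by
            rw [div_le_iff₀ hl]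
            unfold rr
            nlinarith
          push_cast
          linarith
      · rw [posV_im]
        have h1 : |rr P O i * Real.sin (2 * Real.pi * an (O i))| ≤ 1 := by
          rw [abs_mul]
          have h2 : |rr P O i| ≤ 1 := by
            unfold rr
            rw [abs_of_nonneg hr0]
            nlinarith
          nlinarith [abs_nonneg (rr P O i), abs_nonneg (Real.sin (2 * Real.pi * an (O i)))]
        have e : ht (O i) + rr P O i * Real.sin (2 * Real.pi * an (O i)) - ht (O i) =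
            rr P O i * Real.sin (2 * Real.pi * an (O i)) := by ring
        rw [e]
        exact h1
  · -- Svv
    simp only [List.mem_cons, List.not_mem_nil, or_false] at hx
    rcases hx with hx | hx | hx
    · subst hx
      refine ⟨hS, ?_⟩
      simp only
      rw [hSi]
      simp
    · subst hx
      refine ⟨hV2, ?_⟩
      simp only
      rw [hV2i]
      simp
    · subst hx
      refine ⟨hV2, ?_⟩
      simp only
      rw [hV2i]
      simp

/-- **potential of the object `i` on a quantum of species `s` of the curve** -/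
def fO (P : Par) {r : ℕ} (O : Fin r → Xo) (i : Fin r) (s : Bool) (ζ : ℂ) : ℂ :=
  ((cons P O i).map fun x => cp s x ζ).sum

/-- its derivative -/
def fO1 (P : Par) {r : ℕ} (O : Fin r → Xo) (i : Fin r) (s : Bool) (ζ : ℂ) : ℂ :=
  ((cons P O i).map fun x => cp1 s x ζ).sum

/-- the constant of an object -/
def KO (δ b : ℝ) : ℝ := 3 * ((6 * kb δ b + 8) * Real.exp 2)

/-- charge of the object as seen by species `s` -/
def qO (s : Bool) (x : Xo) : ℝ := 2 * ((chg s x : ℝ) - chg (!s) x)

lemma cq_sum (P : Par) {r : ℕ} (O : Fin r → Xo) (i : Fin r) (s : Bool) :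
    ((cons P O i).map fun x => cq s x).sum = qO s (O i) := by
  unfold cons parts qO chg cq
  rcases hk : kd (O i) with _ | _ | _ | _ | _ <;> rcases hsp : sp (O i) with _ | _ <;> cases s <;>
    simp [hk, hsp] <;> norm_num

lemma abs_cq_le (s : Bool) (x : Bool × Bool × ℂ) : |cq s x| ≤ 4 := by
  unfold cq
  split_ifs <;> norm_num

lemma kb_nonneg {δ b : ℝ} (hb0 : 0 < b) (hb : b < δ * NUMF.l) {w : ℂ} (h : Away δ w) : 0 ≤ kb δ b :=
  (potB_bk hb0 hb h 0).κ0

theorem potB_fO {δ b : ℝ} (hb0 : 0 < b) (hb : b < δ * NUMF.l) {P : Par} (h : PG δ P) {r : ℕ}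
    (O : Fin r → Xo) (i : Fin r) (s : Bool) :
    PotB b (KO δ b) (qO s (O i)) (ht (O i)) (fO P O i s) (fO1 P O i s) := by
  have hc := cons_away h O i
  have hk : 0 ≤ kb δ b := by
    have : (cons P O i) ≠ [] := by
      unfold cons parts
      rcases hk : kd (O i) with _ | _ | _ | _ | _ <;> simp [hk]
    obtain ⟨x, hx⟩ := List.exists_mem_of_ne_nil _ this
    exact kb_nonneg hb0 hb (hc x hx).1
  have h1 := PotB.listSum hb0 (cons P O i) (κ := fun x => (6 * kb δ b + 2 * |cq s x|) * Real.exp 2)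
    (c := fun x => cq s x) (f := fun x ζ => cp s x ζ) (f1 := fun x ζ => cp1 s x ζ) (τ := ht (O i))
    fun x hx => (potB_cp hb0 hb s (hc x hx).1).shift (hc x hx).2
  rw [cq_sum] at h1
  refine h1.mono ?_
  -- at most three constituents
  have h2 : ∀ L : List (Bool × Bool × ℂ), (L.map fun x => (6 * kb δ b + 2 * |cq s x|) * Real.exp 2).sum ≤
      L.length * ((6 * kb δ b + 8) * Real.exp 2) := by
    intro L
    induction L with
    | nil => simp
    | cons a L ih =>
      rw [List.map_cons, List.sum_cons, List.length_cons]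
      push_cast
      have h3 := abs_cq_le s a
      have h4 : (6 * kb δ b + 2 * |cq s a|) * Real.exp 2 ≤ (6 * kb δ b + 8) * Real.exp 2 :=
        mul_le_mul_of_nonneg_right (by linarith) (Real.exp_pos _).le
      linarith
  have h5 : (cons P O i).length ≤ 3 := by
    unfold cons parts
    rcases hk : kd (O i) with _ | _ | _ | _ | _ <;> simp [hk]
  refine (h2 _).trans ?_
  unfold KO
  have h6 : ((cons P O i).length : ℝ) ≤ 3 := by exact_mod_cast h5
  exact mul_le_mul_of_nonneg_right h6 (by positivity)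

/-- **exactness** -/
theorem exp_fO {δ : ℝ} {P : Par} (h : PG δ P) {r : ℕ} (O : Fin r → Xo) (i : Fin r) (s : Bool) {ζ : ℂ}
    (hζ : |ζ.im| < δ * NUMF.l) : potN P O i s (NUMF.l + I * ζ) = Real.exp (fO P O i s ζ).re := by
  have hc := cons_away h O i
  have key : ∀ L : List (Bool × Bool × ℂ), (∀ x ∈ L, Away δ x.2.2) →
      (L.map fun x => ‖pp (s, false, (NUMF.l + I * ζ : ℂ)) x‖).prod =
        Real.exp ((L.map fun x => cp s x ζ).sum).re := by
    intro L hL
    induction L with
    | nil => simp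
    | cons a L ih =>
      rw [List.map_cons, List.prod_cons, List.map_cons, List.sum_cons, Complex.add_re, Real.exp_add,
        ih fun x hx => hL x (by simp [hx]), exp_cp s (hL a (by simp)) hζ]
  unfold potN ppN fO
  rw [List.map_cons, List.map_nil, List.prod_cons, List.prod_nil, mul_one]
  exact key _ fun x hx => (hc x hx).1

theorem potN_pos {δ : ℝ} {P : Par} (h : PG δ P) {r : ℕ} (O : Fin r → Xo) (i : Fin r) (s : Bool) {ζ : ℂ}
    (hζ : |ζ.im| < δ * NUMF.l) : 0 < potN P O i s (NUMF.l + I * ζ) := by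
  rw [exp_fO h O i s hζ]
  exact Real.exp_pos _

end

end NUO
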