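import Pool.Agent.NUP1S.Obw
import Pool.Agent.NUP1S.Inst2
import Pool.Agent.NUO.MeasGas

/-!
# Regularity of the field of the objects near the line `re u = l`

`PK P a b`: the strip `a ≤ re u ≤ b` stays away from the poles of the pair functions of a quantum at
`u` with the constituents of the objects.  `bdd_potC`: exact exponential rate; `diff_potC`.
-/

set_option autoImplicit false

noncomputable section

open Complex MeasureTheory Finset

namespace NUO.PR39

open NUP1 NUP1S NUP1S.Ab
open NUP1.Bd (Ob)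

/-- type of a constituent -/
def obT (t : Bool) : Ob := if t then .S else .A

/-- the pair function of a quantum with a constituent -/
theorem pp_gz (s : Bool) (z : ℂ) (a : Part) :
    pp (s, false, z) a = gz (s, .A) (a.1, obT a.2.1) (z - a.2.2) := by
  obtain ⟨s', t, w⟩ := a
  unfold pp gz obT
  cases t <;> cases s <;> cases s' <;> rfl

/-- translation by a complex number -/
theorem Bdd.shiftC {K : Set ℝ} {s : ℝ} {g : ℂ → ℂ} (w : ℂ)
    (h : Bdd ((fun d => d - w.re) '' K) s g) : Bdd K s (fun z => g (z - w)) := by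
  obtain ⟨C, hC, h⟩ := h
  refine ⟨C * Real.exp (|s| * |w.im|), by positivity, fun z hz => ?_⟩
  have h1 := h (z - w) ⟨z.re, hz, by simp⟩
  refine h1.trans ?_
  rw [mul_assoc, ← Real.exp_add]
  refine mul_le_mul_of_nonneg_left (Real.exp_le_exp.2 ?_) hC
  rw [sub_im]
  have h2 : |(|z.im - w.im| - |z.im|)| ≤ |w.im| := by
    have := abs_abs_sub_abs_le (z.im - w.im) z.im
    rwa [show z.im - w.im - z.im = -w.im by ring, abs_neg] at this
  have h3 : s * (|z.im - w.im| - |z.im|) ≤ |s| * |w.im| := by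
    refine (le_abs_self _).trans ?_
    rw [abs_mul]
    exact mul_le_mul_of_nonneg_left h2 (abs_nonneg _)
  linarith

/-- all constituents are away from the poles -/
def OkL (K : Set ℝ) (A : List Part) : Prop :=
  ∀ a ∈ A, ∀ s : Bool, ∀ d ∈ K, Ok (s, .A) (a.1, obT a.2.1) (d - a.2.2.re)

/-- sum of the rates -/
def rtL (s : Bool) (A : List Part) : ℝ := (A.map fun a => rt (s, .A) (a.1, obT a.2.1)).sum

theorem bdd_ppC {K : Set ℝ} (hK : IsCompact K) (s : Bool) (A : List Part) (h : OkL K A) :
    Bdd K (rtL s A) (fun z => ppC [(s, false, z)] A) := by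
  induction A with
  | nil =>
    have h1 : (fun z : ℂ => ppC [(s, false, z)] []) = fun _ => 1 := by
      funext z
      exact ppC_nil_right _
    rw [h1]
    exact (Bdd.const K 1).rate (by simp [rtL])
  | cons a A ih =>
    have h1 : (fun z : ℂ => ppC [(s, false, z)] (a :: A)) = fun z =>
        gz (s, .A) (a.1, obT a.2.1) (z - a.2.2) * ppC [(s, false, z)] A := by
      funext z
      rw [ppC_single, ppC_single, List.map_cons, List.prod_cons, pp_gz]
    have h2 : Bdd K (rt (s, .A) (a.1, obT a.2.1))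
        (fun z => gz (s, .A) (a.1, obT a.2.1) (z - a.2.2)) := by
      refine Bdd.shiftC a.2.2 (bdd_gz (hK.image (by fun_prop)) _ _ ?_)
      rintro _ ⟨d, hd, rfl⟩
      exact h a (by simp) s d hd
    have h3 := ih fun b hb => h b (by simp [hb])
    rw [h1]
    exact (h2.mul h3).rate (by simp [rtL])

theorem diff_ppC {K : Set ℝ} (s : Bool) (A : List Part) (h : OkL K A) {z : ℂ} (hz : z.re ∈ K) :
    DifferentiableAt ℂ (fun z => ppC [(s, false, z)] A) z := by
  induction A with
  | nil =>
    have h1 : (fun z : ℂ => ppC [(s, false, z)] []) = fun _ => 1 := by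
      funext z
      exact ppC_nil_right _
    rw [h1]
    exact differentiableAt_const _
  | cons a A ih =>
    have h1 : (fun z : ℂ => ppC [(s, false, z)] (a :: A)) = fun z =>
        gz (s, .A) (a.1, obT a.2.1) (z - a.2.2) * ppC [(s, false, z)] A := by
      funext z
      rw [ppC_single, ppC_single, List.map_cons, List.prod_cons, pp_gz]
    rw [h1]
    refine DifferentiableAt.mul ?_ (ih fun b hb => h b (by simp [hb]))
    have h2 : DifferentiableAt ℂ (gz (s, .A) (a.1, obT a.2.1)) (z - a.2.2) := by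
      refine differentiableAt_gz _ _ ?_
      rw [sub_re]
      exact h a (by simp) s z.re hz
    exact h2.comp z (differentiableAt_id.sub_const _)

/-- product of bounded functions -/
theorem Bdd.finprod {K : Set ℝ} {ι : Type*} (S : Finset ι) (s : ι → ℝ) (g : ι → ℂ → ℂ)
    (h : ∀ i ∈ S, Bdd K (s i) (g i)) : Bdd K (∑ i ∈ S, s i) (fun z => ∏ i ∈ S, g i z) := by
  classical
  induction S using Finset.induction_on with
  | empty =>
    simp only [Finset.sum_empty, Finset.prod_empty]
    exact Bdd.const K 1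
  | insert a S ha ih =>
    simp only [Finset.sum_insert ha, Finset.prod_insert ha]
    exact (h a (by simp)).mul (ih fun i hi => h i (by simp [hi]))

/-- conditions on the parameters and on the strip -/
structure PK (P : Par) (a b : ℝ) : Prop where
  a1 : 19 / 20 * NUP1.l ≤ a
  b1 : b ≤ 21 / 20 * NUP1.l
  j1 : NUP1.l < a + (P.jL - 1) * NUP1.l
  j2 : b + (P.jL - 1) * NUP1.l < 3 * NUP1.l
  e1 : 1 / 10 ≤ P.e
  d0 : ∀ r, 0 < P.d r
  e2 : ∀ r, P.e + P.d r ≤ 3 / 5
  r0 : ∀ r t, 0 < P.rad r t
  r1 : ∀ r t, P.rad r t ≤ NUP1.l * P.d r / (8 * (r + 1))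

theorem rk_le {r : ℕ} (O : Fin r → Xo) (i : Fin r) : rk O i ≤ r := by
  unfold rk
  exact (Finset.card_le_univ _).trans (by simp)

theorem ei_mem {P : Par} (h0 : ∀ r, 0 < P.d r) (h2 : ∀ r, P.e + P.d r ≤ 3 / 5) {r : ℕ}
    (O : Fin r → Xo) (i : Fin r) : P.e ≤ ei P O i ∧ ei P O i ≤ 3 / 5 := by
  have hr : (0 : ℝ) < r := by exact_mod_cast i.pos
  have h1 : (0 : ℝ) ≤ rk O i / r := by positivity
  have h3 : (rk O i : ℝ) / r ≤ 1 := by
    rw [div_le_one hr]
    exact_mod_cast rk_le O i
  have h4 := h0 r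
  have h5 := h2 r
  unfold ei
  constructor <;> nlinarith

theorem rr_mem {P : Par} {a b : ℝ} (h : PK P a b) {r : ℕ} (O : Fin r → Xo) (i : Fin r) :
    0 < rr P O i ∧ rr P O i ≤ NUP1.l / 32 := by
  have hl := NUP1.l_pos
  refine ⟨h.r0 _ _, (h.r1 _ _).trans ?_⟩
  have hr : (1 : ℝ) ≤ r := by exact_mod_cast i.pos
  have h2 := h.e2 r
  have h3 := h.e1
  rw [div_le_iff₀ (by linarith)]
  have h4 : P.d r ≤ 1 / 2 := by linarith
  nlinarith

theorem sin_ne_Ioo {x : ℝ} (h : 0 < x ∧ x < 8 * NUP1.l ∨ -(8 * NUP1.l) < x ∧ x < 0) :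
    Real.sin x ≠ 0 := by
  have hpi : Real.pi = 8 * NUP1.l := Bd.pi_eq
  rcases h with ⟨h1, h2⟩ | ⟨h1, h2⟩
  · exact (Real.sin_pos_of_pos_of_lt_pi h1 (by linarith)).ne'
  · have := Real.sin_pos_of_pos_of_lt_pi (x := -x) (by linarith) (by linarith)
    rw [Real.sin_neg] at this
    exact (by linarith : Real.sin x < 0).ne

theorem posV_re (e ρ t a : ℝ) : (posV e ρ t a).re = (1 - e) * NUP1.l +
    ρ * Real.cos (2 * Real.pi * a) := by
  unfold posV posS vl
  have h1 : Complex.exp (2 * Real.pi * a * I) = Complex.exp (((2 * Real.pi * a : ℝ) : ℂ) * I) := by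
    push_cast
    ring_nf
  rw [h1]
  simp only [add_re, mul_re, ofReal_re, ofReal_im, I_re, I_im, Complex.exp_ofReal_mul_I_re,
    Complex.exp_ofReal_mul_I_im]
  simp
  ring

/-- the constituents are away from the poles -/
theorem okL_cons {P : Par} {a b : ℝ} (h : PK P a b) {r : ℕ} (O : Fin r → Xo) (i : Fin r) :
    OkL (Set.Icc a b) (cons P O i) := by
  have hl := NUP1.l_pos
  obtain ⟨e1, e2⟩ := ei_mem h.d0 h.e2 O i
  obtain ⟨r1, r2⟩ := rr_mem h O i
  have he := h.e1
  have ha := h.a1
  have hb := h.b1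
  have hj1 := h.j1
  have hj2 := h.j2
  -- a quantum at distance in `(-3 l, 3 l)` without `±l`
  have q1 : ∀ (s s' : Bool) (x : ℝ), NUP1.l < x → x < 3 * NUP1.l → Ok (s, .A) (s', .A) x := by
    intro s s' x h1 h2 y hy
    unfold poles at hy
    by_cases hs : s = s'
    · rw [if_pos hs] at hy
      simp only [List.mem_cons, List.not_mem_nil, or_false] at hy
      rcases hy with rfl | rfl
      · exact sin_ne_Ioo (Or.inl ⟨by linarith, by linarith⟩)
      · exact sin_ne_Ioo (Or.inl ⟨by linarith, by linarith⟩)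
    · rw [if_neg hs] at hy
      simp only [List.mem_cons, List.not_mem_nil, or_false] at hy
      rcases hy with rfl | rfl
      · exact sin_ne_Ioo (Or.inl ⟨by linarith, by linarith⟩)
      · exact sin_ne_Ioo (Or.inr ⟨by linarith, by linarith⟩)
  have q2 : ∀ (s s' : Bool) (x : ℝ), 0 < x → x < NUP1.l → Ok (s, .A) (s', .A) x := by
    intro s s' x h1 h2 y hy
    unfold poles at hy
    by_cases hs : s = s'
    · rw [if_pos hs] at hy
      simp only [List.mem_cons, List.not_mem_nil, or_false] at hy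
      rcases hy with rfl | rfl
      · exact sin_ne_Ioo (Or.inl ⟨by linarith, by linarith⟩)
      · exact sin_ne_Ioo (Or.inr ⟨by linarith, by linarith⟩)
    · rw [if_neg hs] at hy
      simp only [List.mem_cons, List.not_mem_nil, or_false] at hy
      rcases hy with rfl | rfl
      · exact sin_ne_Ioo (Or.inl ⟨by linarith, by linarith⟩)
      · exact sin_ne_Ioo (Or.inr ⟨by linarith, by linarith⟩)
  have q3 : ∀ (s s' : Bool) (x : ℝ), 0 < x → x < 3 * NUP1.l → x ≠ 2 * NUP1.l →
      Ok (s, .A) (s', .S) x := by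
    intro s s' x h1 h2 h3 y hy
    unfold poles at hy
    by_cases hs : s = s'
    · rw [if_pos hs] at hy
      simp at hy
    · rw [if_neg hs] at hy
      simp only [List.mem_cons, List.not_mem_nil, or_false] at hy
      rcases hy with rfl | rfl | rfl | rfl
      · exact sin_ne_Ioo (Or.inl ⟨by linarith, by linarith⟩)
      · exact sin_ne_Ioo (Or.inr ⟨by linarith, by linarith⟩)
      · exact sin_ne_Ioo (Or.inl ⟨by linarith, by linarith⟩)
      · rcases lt_or_gt_of_ne h3 with h3 | h3
        · exact sin_ne_Ioo (Or.inr ⟨by linarith, by linarith⟩)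
        · exact sin_ne_Ioo (Or.inl ⟨by linarith, by linarith⟩)
  have hS : ∀ (s s' : Bool) (d t : ℝ), d ∈ Set.Icc a b →
      Ok (s, .A) (s', .S) (d - (posS (ei P O i) t).re) := by
    intro s s' d t hd
    have h1 : (posS (ei P O i) t).re = -((1 + ei P O i) * NUP1.l) := by
      unfold posS vl
      simp
    rw [h1]
    have hd1 := hd.1
    have hd2 := hd.2
    exact q3 s s' _ (by nlinarith) (by nlinarith) (by nlinarith)
  have hV : ∀ (s s' : Bool) (d t c : ℝ), d ∈ Set.Icc a b →
      Ok (s, .A) (s', .A) (d - (posV (ei P O i) (rr P O i) t c).re) := by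
    intro s s' d t c hd
    rw [posV_re]
    have hd1 := hd.1
    have hd2 := hd.2
    have c1 := Real.neg_one_le_cos (2 * Real.pi * c)
    have c2 := Real.cos_le_one (2 * Real.pi * c)
    exact q2 s s' _ (by nlinarith) (by nlinarith)
  have hV0 : ∀ (s s' : Bool) (d t : ℝ), d ∈ Set.Icc a b →
      Ok (s, .A) (s', .A) (d - (posS (ei P O i) t + 2 * NUP1.l).re) := by
    intro s s' d t hd
    have h1 : (posS (ei P O i) t + 2 * NUP1.l).re = (1 - ei P O i) * NUP1.l := by
      unfold posS vl
      simp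
      ring
    rw [h1]
    have hd1 := hd.1
    have hd2 := hd.2
    exact q2 s s' _ (by nlinarith) (by nlinarith)
  intro c hc s d hd
  have hd1 := hd.1
  have hd2 := hd.2
  unfold cons parts at hc
  rcases hk : kd (O i) with _ | _ | _ | _ | _ <;> rw [hk] at hc <;>
    simp only [List.mem_cons, List.not_mem_nil, or_false] at hc
  · rw [hc]
    have h1 : (posL P.jL (ht (O i))).re = (1 - P.jL) * NUP1.l := by
      unfold posL vl
      simp
    show Ok (s, .A) (sp (O i), .A) (d - (posL P.jL (ht (O i))).re)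
    rw [h1]
    exact q1 _ _ _ (by nlinarith) (by nlinarith)
  · rw [hc]
    have h1 : (posT (ht (O i))).re = -(1 / 2 * NUP1.l) := by
      unfold posT vl
      simp
    show Ok (s, .A) (sp (O i), .S) (d - (posT (ht (O i))).re)
    rw [h1]
    exact q3 _ _ _ (by nlinarith) (by nlinarith) (by nlinarith)
  · rw [hc]
    exact hS s (sp (O i)) d _ hd
  · rcases hc with hc | hc <;> rw [hc]
    · exact hS s (sp (O i)) d _ hd
    · exact hV s (!sp (O i)) d _ _ hd
  · rcases hc with hc | hc | hc <;> rw [hc]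
    · exact hS s (sp (O i)) d _ hd
    · exact hV0 s (!sp (O i)) d _ hd
    · exact hV0 s (!sp (O i)) d _ hd

/-- the rates are the charges -/
theorem rtL_parts (s : Bool) (jL e ρ : ℝ) (x : Xo) :
    rtL s (parts jL e ρ x) = 2 * ((chg s x : ℝ) - chg (!s) x) := by
  obtain ⟨⟨c, k⟩, t, a⟩ := x
  cases k <;> cases s <;> cases c <;>
    simp [rtL, parts, rt, sc, obT, chg, Bd.chg] <;> norm_num

/-- **exact rate of the field of the objects** -/
theorem bdd_potC {P : Par} {a b : ℝ} (h : PK P a b) {r : ℕ} (O : Fin r → Xo) (s : Bool) :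
    Bdd (Set.Icc a b) (2 * ((chgO O s : ℝ) - chgO O (!s))) (potC P O s) := by
  have h1 := Bdd.finprod (K := Set.Icc a b) univ (fun i => rtL s (cons P O i))
    (fun i z => ppC [(s, false, z)] (cons P O i))
    fun i _ => bdd_ppC isCompact_Icc s _ (okL_cons h O i)
  refine h1.rate ?_
  have h2 : ∀ i, rtL s (cons P O i) = 2 * ((chg s (O i) : ℝ) - chg (!s) (O i)) := fun i =>
    rtL_parts s _ _ _ _
  simp_rw [h2]
  unfold chgO
  push_cast
  rw [← Finset.mul_sum, Finset.sum_sub_distrib]

theorem diff_potC {P : Par} {a b : ℝ} (h : PK P a b) {r : ℕ} (O : Fin r → Xo) (s : Bool) {z : ℂ}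
    (hz : z.re ∈ Set.Icc a b) : DifferentiableAt ℂ (potC P O s) z := by
  unfold potC potG
  exact DifferentiableAt.fun_finsetProd fun i _ => diff_ppC s _ (okL_cons h O i) hz

end NUO.PR39

end
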