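import Pool.Agent.NUO.SBlockData

/-!
NUO/SBlock (helper25): the `{S, Svv} × {X, Y}` block of (STAB), cores removed (doc nu34/25e).
`z = y / 4 = π k / 32`, all kernels divided by `P = 2π / (k sinh 4y)`.
-/

set_option linter.unusedSimpArgs false

namespace NUSB

open NUPolyR Real

noncomputable section

/-- `c_{n/4} = cosh (n z)` -/
def ch (n : ℕ) (z : ℝ) : ℝ := Real.cosh ((n : ℝ) * z)

/-- `U_+ / P` -/
def up (z : ℝ) : ℝ := (ch 4 z - 1) * (2 * ch 4 z - 1) * (2 * ch 4 z + 1) ^ 2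
/-- `U_- / P` -/
def um (z : ℝ) : ℝ := (ch 4 z + 1) * (2 * ch 4 z - 1) ^ 3
/-- potentials of `S` (offsets 9/4, 13/4) and of `Svv` (with two satellites at 1/4), over `P` -/
def fXS (z : ℝ) : ℝ := (ch 3 z + ch 5 z + ch 7 z + ch 15 z) / 2
def fYS (z : ℝ) : ℝ := - ch 5 z - ch 15 z
def fXV (z : ℝ) : ℝ := (4 * ch 1 z - 3 * ch 3 z - 3 * ch 5 z + ch 7 z + ch 15 z) / 2
def fYV (z : ℝ) : ℝ := - ch 5 z + ch 7 z + ch 9 z - ch 11 z - ch 13 z + ch 15 z
/-- direct pair energies (same species), over `P` -/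
def bSS (z : ℝ) : ℝ := ch 4 z + ch 8 z + ch 12 z + ch 16 z
def bSV (z : ℝ) : ℝ := - ch 4 z + ch 8 z + ch 12 z - ch 16 z
def bVV (z : ℝ) : ℝ := -3 * ch 4 z + 5 * ch 8 z - 3 * ch 12 z + ch 16 z
/-- the slack of `S`, over `P` -/
def psi (z : ℝ) : ℝ := ch 8 z * ch 4 z * (ch 4 z - 1) * (2 / ch 1 z + (6 / 5) / (ch 1 z * ch 2 z))
/-- the pointwise nonnegative same kind kernel `N`, over `P` -/
def NN (z : ℝ) : ℝ := (3 / 5) * ((17 / 10) * (ch 8 z - 1) - (ch 10 z - 1))
/-- the log core `-2 log |tanh 256 t|`, over `P` -/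
def core (z : ℝ) : ℝ := Real.sinh (16 * z) * Real.tanh (z / 32)
/-- the compensation kernel `g`, over `P` -/
def gg (z : ℝ) : ℝ := ch 14 z - ch 12 z + (14 / 5) * (ch 8 z * (ch 4 z - 1))
def al (z : ℝ) : ℝ := 1 - (3 / 5) / ch 2 z ^ 2

/-- entries of the block `M_same - N - core v v^T - g u u^T`, over `P` -/
def eSS (z : ℝ) : ℝ := bSS z - (1 / 2) * ((fXS z + fYS z - psi z) ^ 2 / up z
  + (fXS z - fYS z - psi z) ^ 2 / um z) - NN z - core z - gg z
def eSV (z : ℝ) : ℝ := bSV z - (1 / 2) * ((fXS z + fYS z - psi z) * (fXV z + fYV z) / up z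
  + (fXS z - fYS z - psi z) * (fXV z - fYV z) / um z) - NN z + core z + gg z * al z
def eVV (z : ℝ) : ℝ := bVV z - (1 / 2) * ((fXV z + fYV z) ^ 2 / up z
  + (fXV z - fYV z) ^ 2 / um z) - NN z - core z - gg z * al z ^ 2

theorem one_le_ch (n : ℕ) (z : ℝ) : 1 ≤ ch n z := Real.one_le_cosh _

theorem one_lt_ch {n : ℕ} (hn : n ≠ 0) {z : ℝ} (hz : 0 < z) : 1 < ch n z := by
  rw [ch, Real.one_lt_cosh]
  positivity

theorem up_pos {z : ℝ} (hz : 0 < z) : 0 < up z := by
  have h := one_lt_ch (n := 4) (by norm_num) hz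
  unfold up
  have h1 : 0 < ch 4 z - 1 := by linarith
  have h2 : 0 < 2 * ch 4 z - 1 := by linarith
  have h3 : 0 < 2 * ch 4 z + 1 := by linarith
  positivity

theorem um_pos (z : ℝ) : 0 < um z := by
  have h := one_le_ch 4 z
  unfold um
  have h1 : 0 < ch 4 z + 1 := by linarith
  have h2 : 0 < 2 * ch 4 z - 1 := by linarith
  positivity

/-- `(n-1) sinh w ≤ sinh ((n-1) w)`, in the form `tanh w (31 + cosh (32 w)) ≤ sinh (32 w)`. -/
theorem nat_mul_sinh_le (n : ℕ) {w : ℝ} (hw : 0 ≤ w) : (n : ℝ) * Real.sinh w ≤ Real.sinh (n * w) := by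
  induction n with
  | zero => simp
  | succ n ih =>
    have e : ((n + 1 : ℕ) : ℝ) * w = n * w + w := by push_cast; ring
    rw [e, Real.sinh_add]
    have h1 : 1 ≤ Real.cosh w := Real.one_le_cosh _
    have h2 : 1 ≤ Real.cosh (n * w) := Real.one_le_cosh _
    have h3 : 0 ≤ Real.sinh w := Real.sinh_nonneg_iff.2 hw
    have h4 : 0 ≤ Real.sinh (n * w) := Real.sinh_nonneg_iff.2 (by positivity)
    push_cast
    nlinarith [mul_nonneg h4 (sub_nonneg.2 h1), mul_nonneg h3 (sub_nonneg.2 h2)]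

theorem tanh_le_core {z : ℝ} (hz : 0 ≤ z) :
    Real.tanh (z / 32) ≤ Real.sinh z / (31 + Real.cosh z) := by
  have h := nat_mul_sinh_le 31 (w := z / 32) (by positivity)
  push_cast at h
  have hc : 0 < Real.cosh (z / 32) := Real.cosh_pos _
  have hz1 : 1 ≤ Real.cosh z := Real.one_le_cosh _
  rw [Real.tanh_eq_sinh_div_cosh, div_le_div_iff₀ hc (by linarith)]
  have e : Real.sinh (31 * (z / 32)) = Real.sinh z * Real.cosh (z / 32)
      - Real.cosh z * Real.sinh (z / 32) := by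
    rw [← Real.sinh_sub]; congr 1; ring
  rw [e] at h
  nlinarith

theorem core_le {z : ℝ} (hz : 0 ≤ z) :
    core z ≤ (ch 17 z - ch 15 z) / 2 / (31 + ch 1 z) := by
  have h := tanh_le_core hz
  have e : (ch 17 z - ch 15 z) / 2 = Real.sinh (16 * z) * Real.sinh z := by
    have e1 : ch 17 z = Real.cosh (16 * z + z) := by unfold ch; congr 1; push_cast; ring
    have e2 : ch 15 z = Real.cosh (16 * z - z) := by unfold ch; congr 1; push_cast; ring
    rw [e1, e2, Real.cosh_add, Real.cosh_sub]; ring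
  have e3 : ch 1 z = Real.cosh z := by unfold ch; congr 1; push_cast; ring
  rw [e, e3, mul_div_assoc]
  exact mul_le_mul_of_nonneg_left h (Real.sinh_nonneg_iff.2 (by positivity))

/-! ### the polynomials -/

/-- upper bound of the core -/
def co (z : ℝ) : ℝ := (ch 17 z - ch 15 z) / 2 / (31 + ch 1 z)
def ww (z : ℝ) : ℝ := Real.cosh z - 1
/-- common denominator -/
def MM (z : ℝ) : ℝ := 1000 * up z * um z * ch 2 z ^ 4 * (31 + ch 1 z)

theorem ww_nonneg (z : ℝ) : 0 ≤ ww z := by unfold ww; linarith [Real.one_le_cosh z]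

theorem e1 (z : ℝ) : ev t1 (ww z) = ch 1 z := by rw [ww, ev_t1, ch]; norm_num
theorem e2 (z : ℝ) : ev t2 (ww z) = ch 2 z := by rw [ww, ev_t2, ch]; norm_num
theorem e3 (z : ℝ) : ev t3 (ww z) = ch 3 z := by rw [ww, ev_t3, ch]; norm_num
theorem e4 (z : ℝ) : ev t4 (ww z) = ch 4 z := by rw [ww, ev_t4, ch]; norm_num
theorem e5 (z : ℝ) : ev t5 (ww z) = ch 5 z := by rw [ww, ev_t5, ch]; norm_num
theorem e7 (z : ℝ) : ev t7 (ww z) = ch 7 z := by rw [ww, ev_t7, ch]; norm_num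
theorem e8 (z : ℝ) : ev t8 (ww z) = ch 8 z := by rw [ww, ev_t8, ch]; norm_num
theorem e9 (z : ℝ) : ev t9 (ww z) = ch 9 z := by rw [ww, ev_t9, ch]; norm_num
theorem e10 (z : ℝ) : ev t10 (ww z) = ch 10 z := by rw [ww, ev_t10, ch]; norm_num
theorem e11 (z : ℝ) : ev t11 (ww z) = ch 11 z := by rw [ww, ev_t11, ch]; norm_num
theorem e12 (z : ℝ) : ev t12 (ww z) = ch 12 z := by rw [ww, ev_t12, ch]; norm_num
theorem e13 (z : ℝ) : ev t13 (ww z) = ch 13 z := by rw [ww, ev_t13, ch]; norm_num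
theorem e14 (z : ℝ) : ev t14 (ww z) = ch 14 z := by rw [ww, ev_t14, ch]; norm_num
theorem e15 (z : ℝ) : ev t15 (ww z) = ch 15 z := by rw [ww, ev_t15, ch]; norm_num
theorem e16 (z : ℝ) : ev t16 (ww z) = ch 16 z := by rw [ww, ev_t16, ch]; norm_num
theorem e17 (z : ℝ) : ev t17 (ww z) = ch 17 z := by rw [ww, ev_t17, ch]; norm_num

theorem ch4_eq (z : ℝ) : ch 4 z - 1 = 8 * ch 1 z ^ 2 * (ch 1 z ^ 2 - 1) := by
  rw [← e4, ← e1]
  simp only [t4, t1, ev_cons, ev_nil]
  push_cast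
  ring

theorem evU (z : ℝ) : ev lU (ww z) = up z := by
  rw [ev_eq lU_eq]
  simp only [ev_mul, ev_add, ev_sub, ev_smul, ev_cons, ev_nil, e4, up]
  push_cast; ring

theorem evV (z : ℝ) : ev lV (ww z) = um z := by
  rw [ev_eq lV_eq]
  simp only [ev_mul, ev_add, ev_sub, ev_smul, ev_cons, ev_nil, e4, um]
  push_cast; ring

theorem evPsi (z : ℝ) : ev lPsi (ww z) = 5 * ch 2 z * psi z := by
  have h1 : ch 1 z ≠ 0 := by linarith [one_le_ch 1 z]
  have h2 : ch 2 z ≠ 0 := by linarith [one_le_ch 2 z]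
  rw [ev_eq lPsi_eq]
  simp only [ev_mul, ev_add, ev_sub, ev_smul, ev_cons, ev_nil, e4, e8, e1, e2, psi]
  rw [ch4_eq]
  field_simp
  push_cast; ring

theorem evPS (z : ℝ) : ev lPS (ww z) = 10 * ch 2 z * (fXS z + fYS z - psi z) := by
  rw [ev_eq lPS_eq]
  simp only [ev_mul, ev_add, ev_sub, ev_smul, evPsi, ev_eq lFXS2_eq, ev_eq lFYS2_eq, e2, e3, e5, e7,
    e15, fXS, fYS]
  push_cast; ring

theorem evMS (z : ℝ) : ev lMS (ww z) = 10 * ch 2 z * (fXS z - fYS z - psi z) := by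
  rw [ev_eq lMS_eq]
  simp only [ev_mul, ev_add, ev_sub, ev_smul, evPsi, ev_eq lFXS2_eq, ev_eq lFYS2_eq, e2, e3, e5, e7,
    e15, fXS, fYS]
  push_cast; ring

theorem evPV (z : ℝ) : ev lPV (ww z) = 10 * ch 2 z * (fXV z + fYV z) := by
  rw [ev_eq lPV_eq]
  simp only [ev_mul, ev_add, ev_sub, ev_smul, ev_eq lFXV2_eq, ev_eq lFYV2_eq, e1, e2, e3, e5, e7,
    e9, e11, e13, e15, fXV, fYV]
  push_cast; ring

theorem evMV (z : ℝ) : ev lMV (ww z) = 10 * ch 2 z * (fXV z - fYV z) := by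
  rw [ev_eq lMV_eq]
  simp only [ev_mul, ev_add, ev_sub, ev_smul, ev_eq lFXV2_eq, ev_eq lFYV2_eq, e1, e2, e3, e5, e7,
    e9, e11, e13, e15, fXV, fYV]
  push_cast; ring

theorem evBSS (z : ℝ) : ev lBSS2 (ww z) = 2 * bSS z := by
  simp only [ev_eq lBSS2_eq, ev_add, ev_smul, e4, e8, e12, e16, bSS]; push_cast; ring
theorem evBSV (z : ℝ) : ev lBSV2 (ww z) = 2 * bSV z := by
  simp only [ev_eq lBSV2_eq, ev_add, ev_smul, e4, e8, e12, e16, bSV]; push_cast; ring
theorem evBVV (z : ℝ) : ev lBVV2 (ww z) = 2 * bVV z := by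
  simp only [ev_eq lBVV2_eq, ev_add, ev_smul, e4, e8, e12, e16, bVV]; push_cast; ring

theorem evH2 (z : ℝ) : ev lH2 (ww z) = ch 2 z ^ 2 := by
  rw [ev_eq lH2_eq, ev_mul, e2]; ring
theorem evH4 (z : ℝ) : ev lH4 (ww z) = ch 2 z ^ 4 := by
  rw [ev_eq lH4_eq, ev_mul, evH2]; ring
theorem evNx (z : ℝ) : ev [32, 1] (ww z) = 31 + ch 1 z := by
  rw [← e1]; simp only [t1, ev_cons, ev_nil]; push_cast; ring
theorem evG5 (z : ℝ) : ev lG5 (ww z) = 5 * gg z := by
  rw [ev_eq lG5_eq]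
  simp only [ev_mul, ev_add, ev_sub, ev_smul, ev_cons, ev_nil, e14, e12, e8, e4, gg]
  push_cast; ring
theorem evAl (z : ℝ) : ev lAl (ww z) = 5 * ch 2 z ^ 2 * al z := by
  have h2 : ch 2 z ≠ 0 := by linarith [one_le_ch 2 z]
  rw [ev_eq lAl_eq]
  simp only [ev_mul, ev_add, ev_sub, ev_smul, ev_cons, ev_nil, evH2, al]
  field_simp
  push_cast; ring
theorem evN1 (z : ℝ) : ev lN1 (ww z) = 1000 * NN z := by
  rw [ev_eq lN1_eq]
  simp only [ev_mul, ev_add, ev_sub, ev_smul, ev_cons, ev_nil, e8, e10, NN]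
  push_cast; ring
theorem evK (z : ℝ) : ev lK (ww z) = ch 17 z - ch 15 z := by
  rw [ev_eq lK_eq, ev_sub, e17, e15]
theorem evUV (z : ℝ) : ev lUV (ww z) = up z * um z := by
  rw [ev_eq lUV_eq, ev_mul, evU, evV]
theorem evVx (z : ℝ) : ev lVx (ww z) = 5 * um z * ch 2 z ^ 2 * (31 + ch 1 z) := by
  rw [ev_eq lVx_eq, ev_smul, ev_mul, ev_mul, evV, evH2, evNx]; push_cast; ring
theorem evUx (z : ℝ) : ev lUx (ww z) = 5 * up z * ch 2 z ^ 2 * (31 + ch 1 z) := by
  rw [ev_eq lUx_eq, ev_smul, ev_mul, ev_mul, evU, evH2, evNx]; push_cast; ring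
theorem evUVH (z : ℝ) : ev lUVH (ww z) = up z * um z * ch 2 z ^ 4 := by
  rw [ev_eq lUVH_eq, ev_mul, evUV, evH4]
theorem evUVHx (z : ℝ) : ev lUVHx (ww z) = up z * um z * ch 2 z ^ 4 * (31 + ch 1 z) := by
  rw [ev_eq lUVHx_eq, ev_mul, evUVH, evNx]
theorem evUVx (z : ℝ) : ev lUVx (ww z) = up z * um z * (31 + ch 1 z) := by
  rw [ev_eq lUVx_eq, ev_mul, evUV, evNx]

theorem evA {z : ℝ} (hz : 0 < z) : ev lA (ww z) = MM z * (eSS z + core z - co z) := by
  have hU := (up_pos hz).ne'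
  have hV := (um_pos z).ne'
  have hx : (31 + ch 1 z) ≠ 0 := by linarith [one_le_ch 1 z]
  have h2 : ch 2 z ≠ 0 := by linarith [one_le_ch 2 z]
  rw [ev_eq lA_eq]
  simp only [ev_mul, ev_sub, ev_smul, evBSS, evPS, evMS, evN1, evK, evUVHx, evVx, evUx, evUVH, evUVx,
    evG5, evH4, eSS, MM, co]
  generalize fXS z + fYS z - psi z = p
  generalize fXS z - fYS z - psi z = m
  generalize up z = U at *
  generalize um z = V at *
  generalize 31 + ch 1 z = X at *
  field_simp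
  push_cast; ring

theorem evB {z : ℝ} (hz : 0 < z) : ev lB (ww z) = MM z * (eSV z - core z + co z) := by
  have hU := (up_pos hz).ne'
  have hV := (um_pos z).ne'
  have hx : (31 + ch 1 z) ≠ 0 := by linarith [one_le_ch 1 z]
  have h2 : ch 2 z ≠ 0 := by linarith [one_le_ch 2 z]
  rw [ev_eq lB_eq]
  simp only [ev_mul, ev_sub, ev_smul, evBSV, evPS, evMS, evPV, evMV, evN1, evK, evUVHx, evVx, evUx,
    evUVH, evUVx, evG5, evH2, evAl, eSV, MM, co]
  generalize fXS z + fYS z - psi z = p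
  generalize fXS z - fYS z - psi z = m
  generalize fXV z + fYV z = p'
  generalize fXV z - fYV z = m'
  generalize up z = U at *
  generalize um z = V at *
  generalize 31 + ch 1 z = X at *
  field_simp
  push_cast; ring

theorem evD {z : ℝ} (hz : 0 < z) : ev lD (ww z) = MM z * (eVV z + core z - co z) := by
  have hU := (up_pos hz).ne'
  have hV := (um_pos z).ne'
  have hx : (31 + ch 1 z) ≠ 0 := by linarith [one_le_ch 1 z]
  have h2 : ch 2 z ≠ 0 := by linarith [one_le_ch 2 z]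
  rw [ev_eq lD_eq]
  simp only [ev_mul, ev_sub, ev_smul, evBVV, evPV, evMV, evN1, evK, evUVHx, evVx, evUx,
    evUVH, evUVx, evG5, evAl, eVV, MM, co]
  generalize fXV z + fYV z = p'
  generalize fXV z - fYV z = m'
  generalize up z = U at *
  generalize um z = V at *
  generalize 31 + ch 1 z = X at *
  field_simp
  push_cast; ring

theorem MM_pos {z : ℝ} (hz : 0 < z) : 0 < MM z := by
  have hU := up_pos hz
  have hV := um_pos z
  have hx : 0 < (31 + ch 1 z) := by linarith [one_le_ch 1 z]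
  have h2 : 0 < ch 2 z := by linarith [one_le_ch 2 z]
  unfold MM; positivity

/-- the quadratic form of the block (same kind minus `N`, core and `g u u^T`) is nonnegative. -/
theorem block_nonneg {z : ℝ} (hz : 0 < z) (s v : ℝ) :
    0 ≤ eSS z * s ^ 2 + 2 * eSV z * (s * v) + eVV z * v ^ 2 := by
  have hM := MM_pos hz
  have hw := ww_nonneg z
  have hA : 0 ≤ eSS z + core z - co z := by
    have := ev_nonneg lA_nn hw
    rw [evA hz] at this
    exact nonneg_of_mul_nonneg_right this hM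
  have hD : 0 ≤ eVV z + core z - co z := by
    have := ev_nonneg lD_nn hw
    rw [evD hz] at this
    exact nonneg_of_mul_nonneg_right this hM
  have hdet : (eSV z - core z + co z) ^ 2 ≤ (eSS z + core z - co z) * (eVV z + core z - co z) := by
    have h1 := ev_nonneg lDet_nn hw
    rw [ev_eq lDet_eq, ev_sub, ev_mul, ev_mul, evA hz, evB hz, evD hz] at h1
    have h2 : 0 ≤ MM z ^ 2 * ((eSS z + core z - co z) * (eVV z + core z - co z)
        - (eSV z - core z + co z) ^ 2) := by nlinarith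
    have h3 := nonneg_of_mul_nonneg_right h2 (by positivity)
    linarith
  have hc : core z ≤ co z := core_le hz.le
  set a := eSS z + core z - co z with ha
  set b := eSV z - core z + co z with hb
  set d := eVV z + core z - co z with hd
  have key : 0 ≤ a * s ^ 2 + 2 * b * (s * v) + d * v ^ 2 := by
    rcases hA.eq_or_lt with h0 | h0
    · have hb0 : b = 0 := by
        have : b ^ 2 ≤ 0 := by rw [← h0] at hdet; simpa using hdet
        exact pow_eq_zero_iff (two_ne_zero) |>.1 (le_antisymm this (sq_nonneg b))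
      rw [hb0, ← h0]
      have := mul_nonneg hD (sq_nonneg v)
      linarith
    · have h1 : 0 ≤ a * (a * s ^ 2 + 2 * b * (s * v) + d * v ^ 2) := by
        have : a * (a * s ^ 2 + 2 * b * (s * v) + d * v ^ 2)
          = (a * s + b * v) ^ 2 + (a * d - b ^ 2) * v ^ 2 := by ring
        rw [this]
        have := mul_nonneg (sub_nonneg.2 hdet) (sq_nonneg v)
        positivity
      exact nonneg_of_mul_nonneg_right h1 h0
  have e : eSS z * s ^ 2 + 2 * eSV z * (s * v) + eVV z * v ^ 2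
      = (a * s ^ 2 + 2 * b * (s * v) + d * v ^ 2) + (co z - core z) * (s - v) ^ 2 := by
    rw [ha, hb, hd]; ring
  rw [e]
  have := mul_nonneg (sub_nonneg.2 hc) (sq_nonneg (s - v))
  linarith

theorem gg_nonneg (z : ℝ) : 0 ≤ gg z := by
  have h1 : ch 12 z ≤ ch 14 z := by
    unfold ch
    rw [Real.cosh_le_cosh]
    push_cast
    rw [abs_mul, abs_mul]
    exact mul_le_mul_of_nonneg_right (by norm_num) (abs_nonneg z)
  have h2 := one_le_ch 8 z
  have h3 := one_le_ch 4 z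
  unfold gg
  have : 0 ≤ ch 8 z * (ch 4 z - 1) := mul_nonneg (by linarith) (by linarith)
  linarith

end

end NUSB
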