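import Pool.Agent.NUO.SEval
import Pool.Agent.NUO.PotG
import Pool.Agent.NUCUR.A

/-!
# The constant of the action for a configuration of objects

`conf`: `S = s ∑ mfo (cons P O i) - 2 π ∑ wk (kd (O i)) h (ht (O i)) + <h', V * h'> + small`.
-/

set_option autoImplicit false

open MeasureTheory Set Filter Topology Complex

namespace NUSEv

open NUMF NUKer NUAct

noncomputable section

/-! ### clouds -/

lemma mk_off (w : ℂ) : NUP1.vl ((1 - NUO.off w) * NUP1.l) w.im = w := by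
  have hl := l_pos
  have e : (1 - NUO.off w) * NUP1.l = w.re := by
    unfold NUO.off
    have : NUMF.l = NUP1.l := rfl
    rw [this] at hl ⊢
    field_simp
    ring
  rw [e]
  unfold NUP1.vl
  exact Complex.re_add_im w

/-- sum of the clouds of the quanta -/
lemma cloud_one (x : Bool × Bool × ℂ) :
    NUO.Cloud [x] ((NUO.offs x).map fun p => NUO.clo p.1 p.2).sum := by
  obtain ⟨σ, ty, w⟩ := x
  cases ty
  · have h := NUO.good_quantum σ (NUO.off w) w.im
    rw [mk_off] at h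
    have e : ((NUO.offs (σ, false, w)).map fun p => NUO.clo p.1 p.2).sum =
        NUO.clo (NUO.off w) w.im := by
      simp [NUO.offs]
    rw [e]
    exact h
  · have h := NUO.good_string σ (NUO.off w) w.im
    rw [mk_off] at h
    have e : ((NUO.offs (σ, true, w)).map fun p => NUO.clo p.1 p.2).sum =
        NUO.clo (NUO.off w) w.im + NUO.clo (NUO.off w + 1) w.im := by
      simp [NUO.offs]
    rw [e]
    exact h

lemma cloud_list (B : List (Bool × Bool × ℂ)) :
    NUO.Cloud B ((B.flatMap NUO.offs).map fun p => NUO.clo p.1 p.2).sum := by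
  induction B with
  | nil => simpa using NUO.Cloud.nil
  | cons x B ih =>
    rw [List.flatMap_cons, List.map_append, List.sum_append]
    exact NUO.Cloud.cons (cloud_one x) ih

theorem mfo_eq (P : NUO.Par) {r : ℕ} (O : Fin r → NUO.Xo) (i : Fin r) :
    NUO.mfo (NUO.cons P O i) = ((NUO.offO P O i).map fun p => NUO.clo p.1 p.2).sum :=
  (cloud_list _).val

/-! ### winding numbers -/

/-- winding number of a kind -/
def wk : NUO.Kind → ℝ
  | .L => 1
  | .St => 1
  | .S => 0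
  | .Sv => 1
  | .Svv => 2

lemma wk_nonneg (k : NUO.Kind) : 0 ≤ wk k := by cases k <;> simp [wk]

lemma off_vl (x t : ℝ) : NUO.off (NUP1.vl ((1 - x) * NUP1.l) t) = x := by
  have hl : NUP1.l ≠ 0 := NUP1.l_pos.ne'
  have e : NUMF.l = NUP1.l := rfl
  unfold NUO.off NUP1.vl
  rw [e]
  simp
  field_simp
  ring

theorem sum_wnu {δ : ℝ} {P : NUO.Par} (h : NUO.PG δ P) {r : ℕ} (O : Fin r → NUO.Xo) (i : Fin r) :
    ((NUO.offO P O i).map fun p => NUO.wnu p.1).sum = wk (NUO.kd (O i)) := by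
  have hl : 0 < NUP1.l := NUP1.l_pos
  have hδ := h.δ0
  obtain ⟨he1, he2⟩ := NUO.ei_mem h O i
  have hr0 := h.r0 r (NUO.ht (O i))
  have hr1 := h.r1 r (NUO.ht (O i))
  have hj1 := h.j1
  have hj2 := h.j2
  have oL : NUO.off (NUO.posL P.jL (NUO.ht (O i))) = P.jL := off_vl _ _
  have oT : NUO.off (NUO.posT (NUO.ht (O i))) = 3 / 2 := by
    have := off_vl (3 / 2) (NUO.ht (O i))
    rw [← this]
    unfold NUO.posT
    congr 2
    ring
  have oS : NUO.off (NUO.posS (NUO.ei P O i) (NUO.ht (O i))) = 2 + NUO.ei P O i := by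
    have := off_vl (2 + NUO.ei P O i) (NUO.ht (O i))
    rw [← this]
    unfold NUO.posS
    congr 2
    ring
  have oV2 : NUO.off (NUO.posS (NUO.ei P O i) (NUO.ht (O i)) + 2 * NUP1.l) = NUO.ei P O i := by
    have e : NUO.off (NUO.posS (NUO.ei P O i) (NUO.ht (O i)) + 2 * NUP1.l) =
        NUO.off (NUO.posS (NUO.ei P O i) (NUO.ht (O i))) - 2 := by
      unfold NUO.off
      have : NUMF.l = NUP1.l := rfl
      rw [this]
      simp
      field_simp
      ring
    rw [e, oS]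
    ring
  have oV : ∃ c : ℝ, |c| ≤ 1 ∧ NUO.off (NUO.posV (NUO.ei P O i) (NUO.rr P O i) (NUO.ht (O i))
      (NUO.an (O i))) = NUO.ei P O i - NUO.rr P O i / NUP1.l * c := by
    refine ⟨Real.cos (2 * Real.pi * NUO.an (O i)), Real.abs_cos_le_one _, ?_⟩
    have e : NUO.off (NUO.posV (NUO.ei P O i) (NUO.rr P O i) (NUO.ht (O i)) (NUO.an (O i))) =
        NUO.off (NUO.posS (NUO.ei P O i) (NUO.ht (O i)) + 2 * NUP1.l) -
          NUO.rr P O i / NUP1.l * Real.cos (2 * Real.pi * NUO.an (O i)) := by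
      unfold NUO.off NUO.posV
      have : NUMF.l = NUP1.l := rfl
      rw [this, Complex.add_re, Complex.re_ofReal_mul]
      have e2 : (Complex.exp (2 * Real.pi * NUO.an (O i) * I)).re =
          Real.cos (2 * Real.pi * NUO.an (O i)) := by
        have := Complex.exp_ofReal_mul_I_re (2 * Real.pi * NUO.an (O i))
        push_cast at this
        exact this
      rw [e2]
      field_simp
      ring
    rw [e, oV2]
  have hV : NUO.wnu (NUO.off (NUO.posV (NUO.ei P O i) (NUO.rr P O i) (NUO.ht (O i))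
      (NUO.an (O i)))) = 1 := by
    obtain ⟨c, hc, e⟩ := oV
    rw [e]
    have hq0 : 0 ≤ NUO.rr P O i / NUP1.l := div_nonneg hr0 hl.le
    have hq1 : NUO.rr P O i / NUP1.l ≤ δ := by
      rw [div_le_iff₀ hl]
      exact hr1
    have hc' := abs_le.1 hc
    have b1 : |NUO.rr P O i / NUP1.l * c| ≤ δ := by
      rw [abs_mul, abs_of_nonneg hq0]
      calc _ ≤ δ * 1 := mul_le_mul hq1 hc (abs_nonneg _) hδ.le
        _ = δ := mul_one _
    have b2 := abs_le.1 b1
    exact NUO.wnu_01 (by linarith) (by linarith)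
  unfold NUO.offO NUO.cons NUO.parts wk
  cases NUO.kd (O i)
  · simp [NUO.offs, oL]
    exact NUO.wnu_23 (by linarith) (by linarith)
  · simp [NUO.offs, oT]
    rw [show (3 : ℝ) / 2 + 1 = 5 / 2 by norm_num, NUO.wnu_12 (by norm_num) (by norm_num),
      NUO.wnu_23 (by norm_num) (by norm_num)]
    norm_num
  · simp [NUO.offs, oS]
    rw [NUO.wnu_23 (by linarith) (by linarith), NUO.wnu_34 (by linarith) (by linarith)]
    norm_num
  · simp [NUO.offs, oS]
    rw [NUO.wnu_23 (by linarith) (by linarith), NUO.wnu_34 (by linarith) (by linarith), hV]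
    norm_num
  · simp [NUO.offs, oS, oV2]
    rw [NUO.wnu_23 (by linarith) (by linarith), NUO.wnu_34 (by linarith) (by linarith),
      NUO.wnu_01 (by linarith) (by linarith)]
    norm_num

lemma wnu_abs (j : ℝ) : |NUO.wnu j| ≤ 6 := by
  unfold NUO.wnu
  rw [abs_mul, abs_of_pos (by norm_num : (0:ℝ) < 1 / 4)]
  have h1 : |∑ i, NUO.ct i * NUO.red (NUO.av i - j)| ≤ 24 := by
    refine (Finset.abs_sum_le_sum_abs _ _).trans ?_
    calc ∑ i, |NUO.ct i * NUO.red (NUO.av i - j)| ≤ ∑ i, |NUO.ct i| * 4 := by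
          refine Finset.sum_le_sum fun i _ => ?_
          rw [abs_mul]
          exact mul_le_mul_of_nonneg_left (NUO.abs_red_le _) (abs_nonneg _)
      _ = 24 := by rw [← Finset.sum_mul, NUO.sum_abs_ct]; norm_num
  linarith

lemma offO_len (P : NUO.Par) {r : ℕ} (O : Fin r → NUO.Xo) (i : Fin r) :
    (NUO.offO P O i).length ≤ 4 := by
  unfold NUO.offO NUO.cons NUO.parts
  cases NUO.kd (O i) <;> simp [NUO.offs]

/-! ### the constant for a configuration -/

/-- index of the quanta of all objects -/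
abbrev IQ (P : NUO.Par) {r : ℕ} (O : Fin r → NUO.Xo) : Type :=
  Σ i : Fin r, Fin (NUO.offO P O i).length

lemma sum_IQ {P : NUO.Par} {r : ℕ} {O : Fin r → NUO.Xo} (f : Fin r → ℝ × ℝ → ℝ) :
    ∑ c : IQ P O, f c.1 ((NUO.offO P O c.1).get c.2) =
      ∑ i, ((NUO.offO P O i).map (f i)).sum := by
  rw [Fintype.sum_sigma]
  refine Finset.sum_congr rfl fun i _ => ?_
  have := Fin.sum_univ_fun_getElem (NUO.offO P O i) (f i)
  rw [← this]
  rfl

lemma sum_IQC {P : NUO.Par} {r : ℕ} {O : Fin r → NUO.Xo} (f : Fin r → ℝ × ℝ → ℂ) :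
    ∑ c : IQ P O, f c.1 ((NUO.offO P O c.1).get c.2) =
      ∑ i, ((NUO.offO P O i).map (f i)).sum := by
  rw [Fintype.sum_sigma]
  refine Finset.sum_congr rfl fun i _ => ?_
  have := Fin.sum_univ_fun_getElem (NUO.offO P O i) (f i)
  rw [← this]
  rfl

/-- **the constant of the action for a configuration** -/
theorem conf {δ : ℝ} (hδ : 0 < δ) (hδ1 : δ ≤ 1 / 2) : ∃ C : ℝ, 1 ≤ C ∧
    ∀ (s ε M b K : ℝ) (e η η1 : ℝ → ℝ) (P : NUO.Par), NUO.PG δ P → ∀ (r : ℕ) (O : Fin r → NUO.Xo),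
      0 ≤ s → Cur s ε M b e η → (∀ t, HasDerivAt η (η1 t) t) → 0 ≤ b →
      C * (b + 1) ^ 7 * ε ≤ 1 → 0 ≤ K → (∀ t t', |s * NUMF.P t * η t - s * NUMF.P t' * η t'| ≤
        K * |t - t'|) →
      |(gs s η η1 (NUO.FO P O)).S - (s * (∑ i, NUO.mfo (NUO.cons P O i)) -
        2 * Real.pi * (∑ i, wk (NUO.kd (O i)) * (s * NUMF.P (NUO.ht (O i)) * η (NUO.ht (O i)))) +
        NUCR.bil (hd s η η1) (hd s η η1))| ≤
        C * r * (M * ε + K) + C * (b + 1) ^ 9 * M ^ 2 * ε := by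
  have hl := l_pos
  obtain ⟨C, hC, H⟩ := main hδ hδ1
  refine ⟨56 * C, by linarith, ?_⟩
  intro s ε M b K e η η1 P hP r O hs h h1 hb hsm hK hKL
  have hε0 := h.ε0
  have hM0 := h.M0 hs
  have hC0 : 0 < C := by linarith
  have hsm' : C * (b + 1) ^ 7 * ε ≤ 1 := by
    refine le_trans ?_ hsm
    have : 0 ≤ (b + 1) ^ 7 * ε := by positivity
    nlinarith
  have hdl : 0 < δ * l := mul_pos hδ hl
  have hoff : ∀ c : IQ P O, NUO.Off δ ((NUO.offO P O c.1).get c.2).1 ∧
      |((NUO.offO P O c.1).get c.2).2 - NUO.ht (O c.1)| ≤ 1 := fun c =>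
    NUO.offO_off hP O c.1 _ (List.get_mem _ _)
  have hm := H s ε M b K 1 e η η1 (NUO.FO P O) (fun _ => 0) (IQ P O)
    (fun c => ((NUO.offO P O c.1).get c.2).1) (fun c => ((NUO.offO P O c.1).get c.2).2)
    (fun c => NUO.ht (O c.1)) hs h h1 hb hsm' hK hKL
    (fun a => NUO.ext_FO O (b := 3 * (δ * l) / 4) (by positivity)
      (by have : NUMF.l = l := rfl
          linarith) hP a (by linarith))
    (fun c => (hoff c).1) (fun c => (hoff c).2) (fun z _ => by
      rw [NUO.FO_sum, add_zero]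
      have e1 := sum_IQC (P := P) (O := O) fun _ p => NUO.fq p.1 (z - p.2) + NUO.fg p.1 (z - p.2)
      rw [e1]
      exact Finset.sum_congr rfl fun i _ => NUO.fO_sum P O i z)
  have e1 : ∑ c : IQ P O, NUO.clo ((NUO.offO P O c.1).get c.2).1 ((NUO.offO P O c.1).get c.2).2 =
      ∑ i, NUO.mfo (NUO.cons P O i) := by
    rw [sum_IQ (P := P) (O := O) fun _ p => NUO.clo p.1 p.2]
    exact Finset.sum_congr rfl fun i _ => (mfo_eq P O i).symm
  have e2 : ∑ c : IQ P O, NUO.wnu ((NUO.offO P O c.1).get c.2).1 *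
      (s * NUMF.P (NUO.ht (O c.1)) * η (NUO.ht (O c.1))) =
      ∑ i, wk (NUO.kd (O i)) * (s * NUMF.P (NUO.ht (O i)) * η (NUO.ht (O i))) := by
    rw [sum_IQ (P := P) (O := O) fun i p => NUO.wnu p.1 *
      (s * NUMF.P (NUO.ht (O i)) * η (NUO.ht (O i)))]
    refine Finset.sum_congr rfl fun i _ => ?_
    rw [List.sum_map_mul_right, sum_wnu hP O i]
  have e3 : ∑ c : IQ P O, (1 + |NUO.wnu ((NUO.offO P O c.1).get c.2).1|) ≤ 28 * r := by
    have h2 : ∑ c : IQ P O, (1 + |NUO.wnu ((NUO.offO P O c.1).get c.2).1|) ≤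
        ∑ c : IQ P O, (7 : ℝ) := Finset.sum_le_sum fun c _ => by
      have := wnu_abs ((NUO.offO P O c.1).get c.2).1
      linarith
    refine h2.trans ?_
    rw [Fintype.sum_sigma]
    have h3 : ∀ i ∈ (Finset.univ : Finset (Fin r)),
        ∑ _k : Fin (NUO.offO P O i).length, (7 : ℝ) ≤ 28 := by
      intro i _
      rw [Finset.sum_const, Finset.card_univ, Fintype.card_fin, nsmul_eq_mul]
      have h4 : ((NUO.offO P O i).length : ℝ) ≤ 4 := by exact_mod_cast offO_len P O i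
      linarith
    refine (Finset.sum_le_sum h3).trans ?_
    rw [Finset.sum_const, Finset.card_univ, Fintype.card_fin, nsmul_eq_mul]
    linarith
  rw [e1, e2] at hm
  simp only [Complex.zero_re, mul_zero, integral_zero, add_zero, sub_zero] at hm
  refine hm.trans ?_
  have hG : 0 ≤ M * ε + K * (1 + 1) := by positivity
  have hG2 : M * ε + K * (1 + 1) ≤ 2 * (M * ε + K) := by
    have : 0 ≤ M * ε := by positivity
    linarith
  have g1 : C * (∑ c : IQ P O, (1 + |NUO.wnu ((NUO.offO P O c.1).get c.2).1|)) *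
      (M * ε + K * (1 + 1)) ≤ 56 * C * r * (M * ε + K) := by
    calc _ ≤ C * (28 * r) * (2 * (M * ε + K)) := by gcongr
      _ = _ := by ring
  have g2 : C * (b + 1) ^ 9 * M ^ 2 * ε ≤ 56 * C * (b + 1) ^ 9 * M ^ 2 * ε := by
    have h9 : 0 ≤ C * ((b + 1) ^ 9 * M ^ 2 * ε) := by positivity
    nlinarith
  linarith

/-! ### the current of TARGET-A -/

lemma tendsto_pe {κ : ℝ} (hκ : 0 < κ) :
    Tendsto (fun T : ℝ => (T + 1) ^ 9 * Real.exp (-(κ * T))) atTop (𝓝 0) := by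
  have h1 := Real.tendsto_pow_mul_exp_neg_atTop_nhds_zero 9
  have h2 : Tendsto (fun T : ℝ => κ * (T + 1)) atTop atTop :=
    (tendsto_atTop_add_const_right _ _ tendsto_id).const_mul_atTop hκ
  have h3 := (h1.comp h2).const_mul (Real.exp κ / κ ^ 9)
  rw [mul_zero] at h3
  refine h3.congr fun T => ?_
  simp only [Function.comp]
  have e : Real.exp (-(κ * (T + 1))) = Real.exp (-(κ * T)) / Real.exp κ := by
    rw [← Real.exp_sub]
    congr 1
    ring
  rw [e, mul_pow]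
  have := (Real.exp_pos κ).ne'
  field_simp

/-- **the constant of the action, current of TARGET-A** -/
theorem conf_cur {δ e1 J : ℝ} (hδ : 0 < δ) (hδ1 : δ ≤ 1 / 2) (he : 0 < e1) (he1 : e1 < 1)
    (hJ : 0 ≤ J) {θ : ℝ} (hθ : 0 < θ) : ∃ m0 : ℝ, 1 ≤ m0 ∧ ∀ m : ℝ, m0 ≤ m → ∀ η η1 : ℝ → ℝ,
      (∀ t, η t = NUCUR.cur e1 (3 / 8 * Real.log m) J t / (m * NUMF.P t)) →
      (∀ t, HasDerivAt η (η1 t) t) → ∀ P : NUO.Par, NUO.PG δ P → ∀ (r : ℕ) (O : Fin r → NUO.Xo),
      |(gs m η η1 (NUO.FO P O)).S - (m * (∑ i, NUO.mfo (NUO.cons P O i)) -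
        2 * Real.pi * (∑ i, wk (NUO.kd (O i)) *
          NUCUR.cur e1 (3 / 8 * Real.log m) J (NUO.ht (O i))))| ≤ θ * (1 + r) := by
  obtain ⟨C1, hC1, H1⟩ := exists_cur
  obtain ⟨C4, hC4, H4⟩ := NUCUR.cur_bound4 he
  obtain ⟨C5, hC5, H5⟩ := NUCUR.cur_bound he 1
  obtain ⟨C6, hC6, H6⟩ := NUCUR.cur_energy he he1
  obtain ⟨C7, hC7, H7⟩ := conf hδ hδ1
  have hc0 : 0 < 4 / (√3 * Real.pi) := div_pos (by norm_num) (mul_pos sq3_pos Real.pi_pos)
  set c0 : ℝ := 4 / (√3 * Real.pi) with hc0d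
  set A : ℝ := C1 * (C4 * J) / c0 with hA
  have hA0 : 0 ≤ A := by positivity
  have hκ : 0 < 8 / 3 * e1 := by positivity
  have hlim := tendsto_pe hκ
  have hsm : ∀ (c y : ℝ), 0 < y → ∀ᶠ T in atTop,
      c * ((T + 1) ^ 9 * Real.exp (-(8 / 3 * e1 * T))) ≤ y := by
    intro c y hy
    have h1 := hlim.const_mul c
    rw [mul_zero] at h1
    exact (h1.eventually_lt_const hy).mono fun T hT => hT.le
  have hdv : ∀ (c y : ℝ), 0 < y → ∀ᶠ T : ℝ in atTop, c / T ≤ y := by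
    intro c y hy
    have h1 : Tendsto (fun T : ℝ => c / T) atTop (𝓝 0) := tendsto_const_nhds.div_atTop tendsto_id
    exact (h1.eventually_lt_const hy).mono fun T hT => hT.le
  have hev := (((((hsm (C7 * A) 1 one_pos).and (hsm (C7 * (C1 * (C4 * J)) * A) (θ / 2)
    (by positivity))).and (hsm (C7 * (C1 * (C4 * J)) ^ 2 * A) (θ / 2) (by positivity))).and
    (hdv (C7 * (C5 * J)) (θ / 2) (by positivity))).and (hdv (C6 * J ^ 2) (θ / 2)
    (by positivity))).and (eventually_ge_atTop (1 : ℝ))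
  have hev2 : ∀ᶠ m : ℝ in atTop, 1 ≤ m ∧ _ := (eventually_ge_atTop 1).and
    ((Real.tendsto_log_atTop.const_mul_atTop (by norm_num : (0:ℝ) < 3 / 8)).eventually hev)
  obtain ⟨m0, hm0⟩ := eventually_atTop.1 hev2
  refine ⟨max m0 1, le_max_right _ _, ?_⟩
  intro m hm η η1 hη h1 P hP r O
  obtain ⟨hm1, ⟨⟨⟨⟨k1, k2⟩, k3⟩, k4⟩, k5⟩, hT1⟩ := hm0 m ((le_max_left _ _).trans hm)
  have hmp : 0 < m := by linarith
  set T : ℝ := 3 / 8 * Real.log m with hT
  have hT0 : 0 < T := by linarith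
  set f : ℝ := (T + 1) ^ 9 * Real.exp (-(8 / 3 * e1 * T)) with hf
  have hf0 : 0 ≤ f := by positivity
  obtain ⟨b, hb⟩ : ∃ b : ℝ, b = (1 - e1) * T := ⟨_, rfl⟩
  have hb0 : 0 ≤ b := by rw [hb]; exact mul_nonneg (by linarith) hT0.le
  have hbT : b ≤ T := by rw [hb]; nlinarith
  obtain ⟨e, hcur⟩ := H1 m (C4 * J) b hmp hb0 (NUCUR.cur e1 T J)
    (NUCUR.cur_contDiff (n := (4 : ℕ∞))) (fun k hk t => H4 T J hT1 hJ k hk t)
    (fun t ht => NUCUR.cur_zero he hT0 (by rw [← hb]; exact ht))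
  have hηe : η = fun t => NUCUR.cur e1 T J t / (m * NUMF.P t) := funext hη
  rw [← hηe] at hcur
  have hmP : ∀ t, 0 < m * NUMF.P t := fun t => mul_pos hmp (P_pos t)
  have hcη : ∀ t, m * NUMF.P t * η t = NUCUR.cur e1 T J t := fun t => by
    rw [hη, mul_div_cancel₀ _ (hmP t).ne']
  -- size of the displacement
  set ε : ℝ := C1 * (C4 * J) / (m * NUMF.P b) with hε
  have hεf : ε ≤ A * Real.exp (-(8 / 3 * e1 * T)) := by
    have h2 := le_P b
    rw [abs_of_nonneg hb0] at h2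
    have h3 : m = Real.exp (8 / 3 * T) := by
      rw [hT, show 8 / 3 * (3 / 8 * Real.log m) = Real.log m by ring, Real.exp_log hmp]
    have h4 : c0 * Real.exp (8 / 3 * e1 * T) ≤ m * NUMF.P b := by
      calc c0 * Real.exp (8 / 3 * e1 * T) =
            Real.exp (8 / 3 * T) * (c0 * Real.exp (-(8 / 3) * b)) := by
            have : 8 / 3 * e1 * T = 8 / 3 * T + -(8 / 3) * b := by rw [hb]; ring
            rw [this, Real.exp_add]
            ring
        _ = m * (c0 * Real.exp (-(8 / 3) * b)) := by rw [← h3]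
        _ ≤ _ := mul_le_mul_of_nonneg_left h2 hmp.le
    have h5 : 0 < c0 * Real.exp (8 / 3 * e1 * T) := mul_pos hc0 (Real.exp_pos _)
    calc ε ≤ C1 * (C4 * J) / (c0 * Real.exp (8 / 3 * e1 * T)) :=
          div_le_div_of_nonneg_left (by positivity) h5 h4
      _ = A * Real.exp (-(8 / 3 * e1 * T)) := by
          rw [hA, Real.exp_neg]
          field_simp
  have hε0 : 0 ≤ ε := hcur.ε0
  have hT19 : ∀ n ≤ 9, (b + 1) ^ n * ε ≤ A * f := by
    intro n hn
    have h2 : (b + 1) ^ n ≤ (T + 1) ^ 9 := by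
      calc (b + 1) ^ n ≤ (T + 1) ^ n := by gcongr
        _ ≤ (T + 1) ^ 9 := pow_le_pow_right₀ (by linarith) hn
    calc (b + 1) ^ n * ε ≤ (T + 1) ^ 9 * (A * Real.exp (-(8 / 3 * e1 * T))) :=
          mul_le_mul h2 hεf hε0 (by positivity)
      _ = A * f := by rw [hf]; ring
  have hC70 : 0 < C7 := by linarith
  have q0 := hT19 0 (by norm_num)
  have q7 := hT19 7 (by norm_num)
  have q9 := hT19 9 (by norm_num)
  rw [pow_zero, one_mul] at q0
  have hd5 : ∀ t, ‖deriv (NUCUR.cur e1 T J) t‖ ≤ C5 * J / T := by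
    intro t
    have := H5 T J hT0 hJ t
    rwa [iteratedDeriv_one, pow_one, ← Real.norm_eq_abs] at this
  have hdiff : ∀ t, HasDerivAt (NUCUR.cur e1 T J) (deriv (NUCUR.cur e1 T J) t) t := fun t =>
    (((NUCUR.cur_contDiff (e := e1) (T := T) (J := J) (n := (1 : ℕ∞))).differentiable
      (by norm_num)) t).hasDerivAt
  have hLip : ∀ t t', |NUCUR.cur e1 T J t - NUCUR.cur e1 T J t'| ≤ C5 * J / T * |t - t'| := by
    intro t t'
    have h2 := Convex.norm_image_sub_le_of_norm_hasDerivWithin_le (f := NUCUR.cur e1 T J)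
      (f' := deriv (NUCUR.cur e1 T J)) (C := C5 * J / T) (s := univ) (x := t') (y := t)
      (fun x _ => (hdiff x).hasDerivWithinAt) (fun x _ => hd5 x) convex_univ (mem_univ _) (mem_univ _)
    rwa [Real.norm_eq_abs, Real.norm_eq_abs] at h2
  have hhd : hd m η η1 = deriv (NUCUR.cur e1 T J) := by
    funext t
    have h2 := hasDerivAt_hd m h1 t
    have h3 : (fun t => m * NUMF.P t * η t) = NUCUR.cur e1 T J := funext hcη
    rw [h3] at h2
    exact h2.deriv.symm
  have hm := H7 m ε (C1 * (C4 * J)) b (C5 * J / T) e η η1 P hP r O hmp.le hcur h1 hb0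
    (by
      calc C7 * (b + 1) ^ 7 * ε = C7 * ((b + 1) ^ 7 * ε) := by ring
        _ ≤ C7 * (A * f) := by gcongr
        _ = C7 * A * f := by ring
        _ ≤ 1 := k1) (by positivity)
    (fun t t' => by rw [hcη, hcη]; exact hLip t t')
  simp only [hcη] at hm
  have hen := H6 T J hT0 hJ
  have hbil : |NUCR.bil (hd m η η1) (hd m η η1)| ≤ θ / 2 := by
    rw [hhd]
    exact hen.trans k5
  have g1 : C7 * r * (C1 * (C4 * J) * ε + C5 * J / T) ≤ θ * r := by
    have h2 : C7 * (C1 * (C4 * J) * ε) ≤ θ / 2 := by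
      calc C7 * (C1 * (C4 * J) * ε) ≤ C7 * (C1 * (C4 * J) * (A * f)) := by gcongr
        _ = C7 * (C1 * (C4 * J)) * A * f := by ring
        _ ≤ θ / 2 := k2
    have h3 : C7 * (C5 * J / T) ≤ θ / 2 := by
      rw [← mul_div_assoc]
      exact k4
    have hr : (0 : ℝ) ≤ r := Nat.cast_nonneg _
    have h4 : C7 * (C1 * (C4 * J) * ε) + C7 * (C5 * J / T) ≤ θ := by linarith
    calc C7 * r * (C1 * (C4 * J) * ε + C5 * J / T) =
          (C7 * (C1 * (C4 * J) * ε) + C7 * (C5 * J / T)) * r := by ring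
      _ ≤ θ * r := mul_le_mul_of_nonneg_right h4 hr
  have g2 : C7 * (b + 1) ^ 9 * (C1 * (C4 * J)) ^ 2 * ε ≤ θ / 2 := by
    calc C7 * (b + 1) ^ 9 * (C1 * (C4 * J)) ^ 2 * ε =
          C7 * (C1 * (C4 * J)) ^ 2 * ((b + 1) ^ 9 * ε) := by ring
      _ ≤ C7 * (C1 * (C4 * J)) ^ 2 * (A * f) := by gcongr
      _ = C7 * (C1 * (C4 * J)) ^ 2 * A * f := by ring
      _ ≤ θ / 2 := k3
  rw [abs_le] at hm hbil ⊢
  constructor <;> linarith [hm.1, hm.2, hbil.1, hbil.2]

end

end NUSEv
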