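import Pool.Agent.NUO.GasG
import Pool.Agent.NUS4.SharpI

/-!
# `CrudeG` and `SharpG` from the instance of a configuration

`InstG`: the data `DatG` give `NUH0.Inst` and the bound of the local energy.
-/

set_option autoImplicit false

noncomputable section

open MeasureTheory Finset
open scoped ENNReal

namespace NUO

open NUH0 NUStabP NUDispW

/-- the instance of a configuration -/
def InstG : Prop :=
  ∀ ep : ℝ, 0 < ep → ep ≤ 1 / 100 → ∀ e1 : ℝ, 0 < e1 → e1 ≤ 1 / 100 →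
    ∀ (k : ℕ) (κ CB : ℝ), 0 < κ → 0 ≤ CB → ∃ A : ℝ, 1 ≤ A ∧ ∀ x : ℝ, 0 < x →
    ∃ ϑ N1 : ℝ, 0 < ϑ ∧ 0 ≤ N1 ∧ ∃ m0 : ℕ, ∀ m ≥ m0,
      ∀ (I : Inp) (P : Par) (r : ℕ) (O : Fin r → Xo) (p n : ℕ) (aX aY cf B1 : ℝ → ℝ),
      DatG ep e1 κ CB ϑ k m I P O p n aX aY cf B1 →
        Inst (datO I P O) p n 8 A κ m (fun i => ht (O i)) (TW ep e1 m) ((1 - e1) * Tb (Real.log m))
          (fun _ => I.η) (fun _ => I.η1) ∧
        ∀ T, 0 ≤ T → NT (datO I P O) T ≤ N1 + x * win univ (fun i => ht (O i)) + x * T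

/-- constant of the shells -/
def shC : ℝ := Real.exp (5 / 2) / (1 - Real.exp (-(1 / 4)))

theorem shC_nonneg : 0 ≤ shC := by
  have h : Real.exp (-(1 / 4 : ℝ)) < 1 := by
    rw [Real.exp_lt_one_iff]
    norm_num
  have h2 : 0 < 1 - Real.exp (-(1 / 4 : ℝ)) := by linarith
  unfold shC
  positivity

/-- **the sum over the shells is bounded** -/
theorem shF_le {ep e1 ε' CB : ℝ} (hep : 0 < ep) (hep1 : ep ≤ 1 / 100) (he : 0 < e1) (hε0 : 0 ≤ ε')
    (hε : ε' ≤ 1 / 200) (hCB : 0 ≤ CB) {m : ℕ} (hm : 1 ≤ m) {T0 : ℝ} (hT : TW ep e1 m ≤ T0) :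
    shF (CB * m) (8 / 3 * (1 - ep)) (7 / 3 + 2 * ε') T0 ≤ CB * shC := by
  have hm1 : (1:ℝ) ≤ m := by exact_mod_cast hm
  have hmp : (0:ℝ) < m := by linarith
  have hL := Real.log_nonneg hm1
  have h1 : Real.log m ≤ 8 / 3 * (1 - ep) * T0 := by
    have h2 : 8 / 3 * (1 - ep) * TW ep e1 m ≤ 8 / 3 * (1 - ep) * T0 :=
      mul_le_mul_of_nonneg_left hT (by linarith)
    refine le_trans ?_ h2
    unfold TW Tb
    have h3 : 1 ≤ (1 - ep) * (1 + 2 * e1 + 2 * ep) := by nlinarith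
    calc Real.log m = 1 * Real.log m := by ring
      _ ≤ (1 - ep) * (1 + 2 * e1 + 2 * ep) * Real.log m := by gcongr
      _ = _ := by ring
  have h2 : CB * m * Real.exp (-(8 / 3 * (1 - ep)) * T0) ≤ CB := by
    have h3 : Real.exp (-(8 / 3 * (1 - ep)) * T0) ≤ ((m:ℝ))⁻¹ := by
      have h4 : ((m : ℝ))⁻¹ = Real.exp (-Real.log m) := by rw [Real.exp_neg, Real.exp_log hmp]
      rw [h4]
      exact Real.exp_le_exp.2 (by linarith)
    calc CB * m * Real.exp (-(8 / 3 * (1 - ep)) * T0) ≤ CB * m * ((m:ℝ))⁻¹ := by gcongr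
      _ = CB := by field_simp
  have h5 : Real.exp (-(8 / 3 * (1 - ep) - (7 / 3 + 2 * ε'))) ≤ Real.exp (-(1 / 4)) :=
    Real.exp_le_exp.2 (by linarith)
  have h6 : Real.exp (-(1 / 4 : ℝ)) < 1 := by
    rw [Real.exp_lt_one_iff]
    norm_num
  have h7 : Real.exp (7 / 3 + 2 * ε') ≤ Real.exp (5 / 2) := Real.exp_le_exp.2 (by linarith)
  unfold shF shC
  rw [← mul_div_assoc]
  have h8 : 0 < 1 - Real.exp (-(1 / 4 : ℝ)) := by linarith
  have h9 : 0 ≤ CB * m * Real.exp (-(8 / 3 * (1 - ep)) * T0) := by positivity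
  gcongr

/-- the arithmetic of the exponents -/
theorem arithG {L T' ep e1 δ ε' x x2 C N1 kap W S Y R M0 : ℝ} (hL : 0 ≤ L)
    (hT' : T' = (1 + 2 * e1 + 2 * ep) * Tb L) (hep : 0 < ep) (hep1 : ep ≤ 1 / 100) (he : 0 < e1)
    (he1 : e1 ≤ 1 / 100) (hε'0 : 0 ≤ ε') (hε' : ε' ≤ δ / 4) (hx0 : 0 ≤ x) (hx : x ≤ δ / 4)
    (hx1 : x ≤ kap / 4) (hx2 : C * x2 ≤ kap / 4) (hW : 0 ≤ W) (hY : Y ≤ S) (hR : 0 ≤ R) :
    M0 + ((7 / 3 + 2 * ε') * T' + 12 / 5 * Y + 6 * R + C * (1 + (N1 + x2 * W)) +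
        x * (W + 1 + L) + 1) ≤
      (C * (1 + N1) + x + 1) + L * (7 / 8 + 2 * (ep + e1) + δ / 2) +
        (M0 + 6 * R + 12 / 5 * S + kap * W) := by
  have h1 : (7 / 3 + 2 * ε') * T' ≤ L * (7 / 8 + 2 * (ep + e1) + δ / 4) := by
    rw [hT']
    unfold Tb
    have h2 : (7 / 3 + 2 * ε') * (1 + 2 * e1 + 2 * ep) * (3 / 8) ≤ 7 / 8 + 2 * (ep + e1) + ε' := by
      nlinarith
    calc (7 / 3 + 2 * ε') * ((1 + 2 * e1 + 2 * ep) * (3 / 8 * L)) =
        ((7 / 3 + 2 * ε') * (1 + 2 * e1 + 2 * ep) * (3 / 8)) * L := by ring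
      _ ≤ (7 / 8 + 2 * (ep + e1) + ε') * L := by gcongr
      _ ≤ _ := by nlinarith
  have h3 : C * x2 * W ≤ kap / 4 * W := by gcongr
  have h4 : x * W ≤ kap / 4 * W := by gcongr
  have h5 : x * L ≤ δ / 4 * L := by gcongr
  have h6 : 0 ≤ kap / 2 * W := by
    have : 0 ≤ kap := by linarith
    positivity
  nlinarith

/-- **the crude bound** -/
theorem crudeG_of (hI : InstG) : CrudeG := by
  refine ⟨6, 2, by norm_num, by norm_num, ?_⟩
  intro kap hkap ep hep hep1 e1 he he1 δ hδ k κ CB hκ hCB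
  obtain ⟨A, hA, hInst⟩ := hI ep hep hep1 e1 he he1 k κ CB hκ hCB
  obtain ⟨ε', hε'⟩ : ∃ ε' : ℝ, ε' = min (1 / 200) (δ / 4) := ⟨_, rfl⟩
  have hε'0 : 0 < ε' := by rw [hε']; exact lt_min (by norm_num) (by positivity)
  have hε'1 : ε' ≤ 1 / 200 := by rw [hε']; exact min_le_left _ _
  have hε'2 : ε' ≤ δ / 4 := by rw [hε']; exact min_le_right _ _
  obtain ⟨C, hC, HC⟩ := crude (k := 8) (A := A) (κ := κ) (ε' := ε') (by norm_num) hA hκ hε'0 hε'1
  obtain ⟨x, hx⟩ : ∃ x : ℝ, x = min (kap / 4) (δ / 4) := ⟨_, rfl⟩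
  have hx0 : 0 < x := by rw [hx]; exact lt_min (by positivity) (by positivity)
  have hx1 : x ≤ kap / 4 := by rw [hx]; exact min_le_left _ _
  have hx2 : x ≤ δ / 4 := by rw [hx]; exact min_le_right _ _
  obtain ⟨m1, HM⟩ := HC hx0
  obtain ⟨x2, hx2d⟩ : ∃ x2 : ℝ, x2 = min (ε' / (C + 1)) (kap / 4 / (C + 1)) := ⟨_, rfl⟩
  have hC1 : 0 < C + 1 := by linarith
  have hx20 : 0 < x2 := by rw [hx2d]; exact lt_min (by positivity) (by positivity)
  have hx2a : C * x2 ≤ ε' := by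
    have h1 : x2 ≤ ε' / (C + 1) := by rw [hx2d]; exact min_le_left _ _
    rw [le_div_iff₀ hC1] at h1
    nlinarith
  have hx2b : C * x2 ≤ kap / 4 := by
    have h1 : x2 ≤ kap / 4 / (C + 1) := by rw [hx2d]; exact min_le_right _ _
    rw [le_div_iff₀ hC1] at h1
    nlinarith
  obtain ⟨ϑ, N1, hϑ, hN1, m2, hI2⟩ := hInst x2 hx20
  refine ⟨ϑ, Real.exp (C * (1 + N1) + x + 1) * (1 + CB * shC), hϑ, by
    have := shC_nonneg
    positivity, max (max m1 m2) 3, ?_⟩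
  intro m hm I P r O p n aX aY cf B1 hD
  obtain ⟨i1, i2⟩ := hI2 m ((le_max_right _ _).trans ((le_max_left _ _).trans hm)) I P r O p n aX aY cf
    B1 hD
  have hm3 : 3 ≤ m := (le_max_right _ _).trans hm
  have hmr : (3:ℝ) ≤ m := by exact_mod_cast hm3
  have hmp : (0:ℝ) < m := by linarith
  obtain ⟨L, hL⟩ : ∃ L, L = Real.log m := ⟨_, rfl⟩
  have hL0 : 0 ≤ L := by rw [hL]; exact Real.log_nonneg (by linarith)
  obtain ⟨T', hT'⟩ : ∃ T', T' = TW ep e1 m := ⟨_, rfl⟩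
  have hTW : T' = (1 + 2 * e1 + 2 * ep) * Tb L := by rw [hT', hL]; rfl
  have hT1 : 3 / 8 * L ≤ T' := by
    rw [hTW]
    unfold Tb
    nlinarith
  have hT2 : T' ≤ L := by
    rw [hTW]
    unfold Tb
    nlinarith
  have hb0 : 0 ≤ (1 - e1) * Tb (Real.log m) := by
    rw [← hL]
    unfold Tb
    have : 0 ≤ 1 - e1 := by linarith
    positivity
  have hb1 : (1 - e1) * Tb (Real.log m) ≤ Real.log m := by
    rw [← hL]
    unfold Tb
    nlinarith
  have hY0 := excS_nonneg T' O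
  have hw0 := win_nonneg (Finset.univ : Finset (Fin r)) (fun i => ht (O i))
  have key := HM m ((le_max_left _ _).trans ((le_max_left _ _).trans hm)) i1 hb0 hb1 hD.shl
    (by linarith) (Y := excS T' O) (by rw [← hT', ← hL]; exact hT1) (by rw [← hT', ← hL]; exact hT2)
    hY0 (fun i => by
      have := excS_ge T' O i
      rw [← hT']
      linarith) (N0 := N1 + x2 * win univ (fun i => ht (O i))) (e1 := x2) hx2a
    (fun T hT => i2 T (by
      have h1 := T0i_ge (T' := TW ep e1 m) (Y := excS T' O) (r := r) (m := m) hA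
        (by rw [← hL]; exact hL0) hY0
      rw [← hT'] at h1 hT
      linarith))
  refine key.trans (ENNReal.ofReal_le_ofReal ?_)
  have hT0 : TW ep e1 m ≤ T0i (TW ep e1 m) (excS T' O) A r m := by
    have h1 := T0i_ge (T' := TW ep e1 m) (Y := excS T' O) (r := r) (m := m) hA
      (by rw [← hL]; exact hL0) hY0
    linarith
  have hsh := shF_le (ε' := ε') (CB := CB) hep hep1 he hε'0.le hε'1 hCB (m := m) (by omega) hT0
  have hsh0 := shF_nonneg (T0 := T0i (TW ep e1 m) (excS T' O) A r m) hD.shl.D0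
    (show 7 / 3 + 2 * ε' < 8 / 3 * (1 - ep) by linarith)
  have har := arithG (M0 := NUMFC.MFs I.s p n + (datO I P O).En) (N1 := N1) (R := r)
    (Y := excS T' O) (S := excS T' O) (W := win univ (fun i => ht (O i))) hL0 hTW hep hep1 he he1
    hε'0.le hε'2 hx0.le hx2 hx1 hx2b hw0 le_rfl (Nat.cast_nonneg r)
  have hexp : Real.exp (NUMFC.MFs (datO I P O).s p n + (datO I P O).En +
      ((7 / 3 + 2 * ε') * TW ep e1 m + 12 / 5 * excS T' O + 6 * r +
        C * (1 + (N1 + x2 * win univ fun i => ht (O i))) +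
        x * ((win univ fun i => ht (O i)) + 1 + Real.log m) + 1)) ≤
      Real.exp (C * (1 + N1) + x + 1) * ((m : ℝ) ^ (7 / 8 + 2 * (ep + e1) + δ) *
        Real.exp (confG ep e1 m I P p n 6 kap O)) := by
    rw [Real.rpow_def_of_pos hmp, ← Real.exp_add, ← Real.exp_add]
    refine Real.exp_le_exp.2 ?_
    unfold confG
    rw [← hT', ← hL]
    have h1 : L * (7 / 8 + 2 * (ep + e1) + δ / 2) ≤ L * (7 / 8 + 2 * (ep + e1) + δ) := by gcongr; linarith
    have h2 : NUMFC.MFs (datO I P O).s p n = NUMFC.MFs I.s p n := rfl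
    rw [h2]
    linarith
  calc (p.factorial : ℝ) * n.factorial * Real.exp (NUMFC.MFs (datO I P O).s p n + (datO I P O).En +
      ((7 / 3 + 2 * ε') * TW ep e1 m + 12 / 5 * excS T' O + 6 * r +
        C * (1 + (N1 + x2 * win univ fun i => ht (O i))) +
        x * ((win univ fun i => ht (O i)) + 1 + Real.log m) + 1)) *
      (1 + shF (CB * m) (8 / 3 * (1 - ep)) (7 / 3 + 2 * ε') (T0i (TW ep e1 m) (excS T' O) A r m))
      ≤ (p.factorial : ℝ) * n.factorial * (Real.exp (C * (1 + N1) + x + 1) *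
        ((m : ℝ) ^ (7 / 8 + 2 * (ep + e1) + δ) *
        Real.exp (confG ep e1 m I P p n 6 kap O))) * (1 + CB * shC) := by gcongr
    _ = _ := by ring

/-- **the sharp bound** -/
theorem sharpG_of (hI : InstG) : SharpG := by
  refine ⟨6, 3, by norm_num, by norm_num, ?_⟩
  intro kap hkap ep hep hep1 e1 he he1 δ hδ k κ CB w hκ hCB hw hw1
  obtain ⟨A, hA, hInst⟩ := hI ep hep hep1 e1 he he1 k κ CB hκ hCB
  obtain ⟨ε', hε'⟩ : ∃ ε' : ℝ, ε' = min (1 / 200) (δ / 4) := ⟨_, rfl⟩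
  have hε'0 : 0 < ε' := by rw [hε']; exact lt_min (by norm_num) (by positivity)
  have hε'1 : ε' ≤ 1 / 200 := by rw [hε']; exact min_le_left _ _
  have hε'2 : ε' ≤ δ / 4 := by rw [hε']; exact min_le_right _ _
  obtain ⟨C, hC, HC⟩ := NUS4.sharpI (ε := ε') (k := 8) (A := A) (κ := κ) (ε' := ε') hε'0 (by linarith)
    (by norm_num) hA hκ hε'0 hε'1
  obtain ⟨x, hx⟩ : ∃ x : ℝ, x = min (kap / 4) (δ / 4) := ⟨_, rfl⟩
  have hx0 : 0 < x := by rw [hx]; exact lt_min (by positivity) (by positivity)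
  have hx1 : x ≤ kap / 4 := by rw [hx]; exact min_le_left _ _
  have hx2 : x ≤ δ / 4 := by rw [hx]; exact min_le_right _ _
  obtain ⟨C', m1, hC', -, HM⟩ := HC k he (by linarith) hw hw1 hx0
  obtain ⟨x2, hx2d⟩ : ∃ x2 : ℝ, x2 = min (ε' / (C + 1)) (kap / 4 / (C + 1)) := ⟨_, rfl⟩
  have hC1 : 0 < C + 1 := by linarith
  have hx20 : 0 < x2 := by rw [hx2d]; exact lt_min (by positivity) (by positivity)
  have hx2a : C * x2 ≤ ε' := by
    have h1 : x2 ≤ ε' / (C + 1) := by rw [hx2d]; exact min_le_left _ _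
    rw [le_div_iff₀ hC1] at h1
    nlinarith
  have hx2b : C * x2 ≤ kap / 4 := by
    have h1 : x2 ≤ kap / 4 / (C + 1) := by rw [hx2d]; exact min_le_right _ _
    rw [le_div_iff₀ hC1] at h1
    nlinarith
  obtain ⟨ϑ, N1, hϑ, hN1, m2, hI2⟩ := hInst x2 hx20
  refine ⟨ϑ, C' * Real.exp (C * (1 + N1) + x + 1) * (1 + CB * shC), hϑ, by
    have := shC_nonneg
    positivity, max (max m1 m2) 3, ?_⟩
  intro m hm I P r O p n aX aY cf B1 hD hG hr hht
  obtain ⟨i1, i2⟩ := hI2 m ((le_max_right _ _).trans ((le_max_left _ _).trans hm)) I P r O p n aX aY cf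
    B1 hD
  have hm3 : 3 ≤ m := (le_max_right _ _).trans hm
  have hmr : (3:ℝ) ≤ m := by exact_mod_cast hm3
  have hmp : (0:ℝ) < m := by linarith
  obtain ⟨L, hL⟩ : ∃ L, L = Real.log m := ⟨_, rfl⟩
  have hL0 : 0 ≤ L := by rw [hL]; exact Real.log_nonneg (by linarith)
  obtain ⟨T', hT'⟩ : ∃ T', T' = TW ep e1 m := ⟨_, rfl⟩
  have hTW : T' = (1 + 2 * e1 + 2 * ep) * Tb L := by rw [hT', hL]; rfl
  have hT1 : 3 / 8 * L ≤ T' := by
    rw [hTW]
    unfold Tb
    nlinarith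
  have hT2 : T' ≤ L := by
    rw [hTW]
    unfold Tb
    nlinarith
  have hb0 : 0 ≤ (1 - e1) * Tb (Real.log m) := by
    rw [← hL]
    unfold Tb
    have : 0 ≤ 1 - e1 := by linarith
    positivity
  have hb1 : (1 - e1) * Tb (Real.log m) ≤ Real.log m := by
    rw [← hL]
    unfold Tb
    nlinarith
  obtain ⟨Y, hY⟩ : ∃ Y, Y = min (excS T' O) (L ^ 2) := ⟨_, rfl⟩
  have hY0 : 0 ≤ Y := by rw [hY]; exact le_min (excS_nonneg T' O) (by positivity)
  have hYS : Y ≤ excS T' O := by rw [hY]; exact min_le_left _ _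
  have hYL : Y ≤ L ^ 2 := by rw [hY]; exact min_le_right _ _
  have hw0 := win_nonneg (Finset.univ : Finset (Fin r)) (fun i => ht (O i))
  have hT0 : TW ep e1 m ≤ T0i (TW ep e1 m) Y A r m := by
    have h1 := T0i_ge (T' := TW ep e1 m) (Y := Y) (r := r) (m := m) hA
      (by rw [← hL]; exact hL0) hY0
    linarith
  have key := HM m ((le_max_left _ _).trans ((le_max_left _ _).trans hm)) i1 hb0 hb1 hD.shl
    (by linarith) hG (Y := Y) (by rw [← hT', ← hL]; exact hT1) (by rw [← hT', ← hL]; exact hT2)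
    hY0 (by rw [← hL]; exact hYL) (fun i => by
      have h1 := excS_ge T' O i
      have h2 := hht i
      rw [← hL] at h2
      rw [← hT', hY]
      rcases min_choice (excS T' O) (L ^ 2) with h | h
      · rw [h]
        linarith
      · rw [h]
        linarith) (by rw [← hL] at hr ⊢; exact hr)
    (N0 := N1 + x2 * win univ (fun i => ht (O i))) (e1 := x2) hx2a
    (fun T hT => i2 T (by
      rw [← hT'] at hT0 hT
      linarith))
  refine key.trans (ENNReal.ofReal_le_ofReal ?_)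
  have hsh := shF_le (ε' := ε') (CB := CB) hep hep1 he hε'0.le hε'1 hCB (m := m) (by omega) hT0
  have hsh0 := shF_nonneg (T0 := T0i (TW ep e1 m) Y A r m) hD.shl.D0
    (show 7 / 3 + 2 * ε' < 8 / 3 * (1 - ep) by linarith)
  have har := arithG (M0 := NUMFC.MFs I.s p n + (datO I P O).En) (N1 := N1) (R := r)
    (Y := Y) (S := excS T' O) (W := win univ (fun i => ht (O i))) hL0 hTW hep hep1 he he1
    hε'0.le hε'2 hx0.le hx2 hx1 hx2b hw0 hYS (Nat.cast_nonneg r)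
  have hexp : Real.exp (NUMFC.MFs (datO I P O).s p n + (datO I P O).En +
      ((7 / 3 + 2 * ε') * TW ep e1 m + 12 / 5 * Y + 6 * r +
        C * (1 + (N1 + x2 * win univ fun i => ht (O i))) +
        x * ((win univ fun i => ht (O i)) + 1 + Real.log m) + 1)) ≤
      Real.exp (C * (1 + N1) + x + 1) * ((m : ℝ) ^ (7 / 8 + 2 * (ep + e1) + δ / 2) *
        Real.exp (confG ep e1 m I P p n 6 kap O)) := by
    rw [Real.rpow_def_of_pos hmp, ← Real.exp_add, ← Real.exp_add]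
    refine Real.exp_le_exp.2 ?_
    unfold confG
    rw [← hT', ← hL]
    have h2 : NUMFC.MFs (datO I P O).s p n = NUMFC.MFs I.s p n := rfl
    rw [h2]
    linarith
  have hpow : (m : ℝ) ^ (7 / 8 + 2 * (ep + e1) + δ / 2) * (m : ℝ) ^ (-(1 / 2 : ℝ) + (ε' + e1)) ≤
      (m : ℝ) ^ (3 / 8 + 3 * (ep + e1) + δ) := by
    rw [← Real.rpow_add hmp]
    refine Real.rpow_le_rpow_of_exponent_le (by linarith) ?_
    linarith
  have hp1 : 0 ≤ (m : ℝ) ^ (-(1 / 2 : ℝ) + (ε' + e1)) := (Real.rpow_pos_of_pos hmp _).le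
  have hp2 : 0 ≤ (m : ℝ) ^ (7 / 8 + 2 * (ep + e1) + δ / 2) := (Real.rpow_pos_of_pos hmp _).le
  have hshC := shC_nonneg
  calc C' * ((p.factorial : ℝ) * n.factorial * Real.exp (NUMFC.MFs (datO I P O).s p n +
      (datO I P O).En + ((7 / 3 + 2 * ε') * TW ep e1 m + 12 / 5 * Y + 6 * r +
        C * (1 + (N1 + x2 * win univ fun i => ht (O i))) +
        x * ((win univ fun i => ht (O i)) + 1 + Real.log m) + 1)) *
      (1 + shF (CB * m) (8 / 3 * (1 - ep)) (7 / 3 + 2 * ε') (T0i (TW ep e1 m) Y A r m))) *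
        (m : ℝ) ^ (-(1 / 2 : ℝ) + (ε' + e1))
      ≤ C' * ((p.factorial : ℝ) * n.factorial * (Real.exp (C * (1 + N1) + x + 1) *
        ((m : ℝ) ^ (7 / 8 + 2 * (ep + e1) + δ / 2) *
        Real.exp (confG ep e1 m I P p n 6 kap O))) * (1 + CB * shC)) *
        (m : ℝ) ^ (-(1 / 2 : ℝ) + (ε' + e1)) := by gcongr
    _ = (p.factorial : ℝ) * n.factorial * (C' * Real.exp (C * (1 + N1) + x + 1) * (1 + CB * shC) *
        ((m : ℝ) ^ (7 / 8 + 2 * (ep + e1) + δ / 2) * (m : ℝ) ^ (-(1 / 2 : ℝ) + (ε' + e1))) *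
        Real.exp (confG ep e1 m I P p n 6 kap O)) := by ring
    _ ≤ (p.factorial : ℝ) * n.factorial * (C' * Real.exp (C * (1 + N1) + x + 1) * (1 + CB * shC) *
        (m : ℝ) ^ (3 / 8 + 3 * (ep + e1) + δ) *
        Real.exp (confG ep e1 m I P p n 6 kap O)) := by gcongr
    _ = _ := by ring

end NUO
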