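import Pool.Agent.NUO.StabX
import Pool.Agent.NUO.DirP7

/-!
# The ordered pair inequality of the stability bound, for configurations of objects

`En same K K' t` is the response energy of a pair (any function with
`Rdir - En = RsK / RcK`).
-/

set_option autoImplicit false

open MeasureTheory Set Finset

noncomputable section

namespace NUStabT

open NUO Pool.Agent.NUM3
open NUDirP (Small Rdir coreP nk)

/-- the response energy `En` dresses the direct energy -/
def Dress (En : Bool → Kind → Kind → ℝ → ℝ) : Prop := ∀ (same : Bool) (b d : Kind) (t : ℝ),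
  Rdir 8 2 18 same b d t - En same b d t = if same then RsK b d t else RcK b d t

/-- cost of the cores -/
def Cc (P : Par) {r : ℕ} (O : Fin r → Xo) : ℝ :=
  4 * nk O .S * Real.log (r * (2 + 2 / (2 ^ 8 * (P.d r * NUP1.l / r)))) +
    4 * nk O .Sv * (1 + Real.log r)

/-- **ordered pair inequality** -/
theorem stab_pairs : ∃ Bk : ℝ, 0 ≤ Bk ∧ ∀ {c0 : ℝ}, Certs c0 → 0 ≤ c0 →
    ∀ {En : Bool → Kind → Kind → ℝ → ℝ}, Dress En →
    ∀ {P : Par}, P.e = 1 / 4 → P.jL = 9 / 4 → ∀ {r : ℕ}, Small 8 P r → ∀ (O : Fin r → Xo),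
    (∀ i j, i ≠ j → 0 < pairN P O i j) →
    c0 / 4 * W2 univ (fun i => ⌊ht (O i)⌋) - (c0 + Bk) * r - Cc P O -
        460800 * P.d r * (r : ℝ) ^ 2 ≤
      ∑ i, ∑ j ∈ univ.erase i, (-Real.log (pairN P O i j) -
        En (sp (O i) == sp (O j)) (kd (O i)) (kd (O j)) (ht (O i) - ht (O j))) := by
  obtain ⟨Bk, hB0, hB⟩ := stab_kinds
  refine ⟨Bk, hB0, ?_⟩
  intro c0 hC hc0 En hEn P he hj r hS O hpos
  have hd := hS.d0
  have h := hB hC hc0 (s := (univ : Finset (Fin r))) (a := fun i => kd (O i))
    (sp := fun i => sp (O i)) (t := fun i => ht (O i))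
    (m := fun i j => -Real.log (pairN P O i j) -
        En (sp (O i) == sp (O j)) (kd (O i)) (kd (O j)) (ht (O i) - ht (O j)))
    (core := coreP 8 P O) (Cc := Cc P O) (ε := 460800 * P.d r) (by positivity) (by
      intro i _ j _ hij
      have h1 := NUDirP.dir_ge (K := 8) (by norm_num) NUDirP.good_2_18 (P := P)
        (by rw [he]; norm_num) (by rw [hj]; norm_num) hS O hij (hpos i j hij)
      have h2 := hEn (sp (O i) == sp (O j)) (kd (O i)) (kd (O j)) (ht (O i) - ht (O j))
      have h3 : (1800 : ℝ) * 2 ^ 8 = 460800 := by norm_num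
      rw [h3] at h1
      by_cases hs : sp (O i) = sp (O j)
      · rw [if_pos hs]
        have h4 : (sp (O i) == sp (O j)) = true := by rw [hs]; exact beq_self_eq_true _
        rw [h4] at h1 h2 ⊢
        rw [if_pos rfl] at h2
        linarith
      · rw [if_neg hs]
        have h4 : (sp (O i) == sp (O j)) = false := beq_eq_false_iff_ne.2 hs
        rw [h4] at h1 h2 ⊢
        rw [if_neg (by simp)] at h2
        linarith) (by
      have := NUDirP.core_sum hS O
      unfold Cc
      convert this using 2)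
  rw [card_univ, Fintype.card_fin] at h
  exact h

end NUStabT
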