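import Pool.Agent.NUO.Sum

/-!
# Summation over objects given as words (form of stages 2 and 3 of the exact representation)

The objects of the two species are `Fin p` and `Fin p'`; the kinds are words `k : Fin p → K`,
`k' : Fin p' → K'`.  `two_le`: one pair `(p, p')`, kinds already summed in the activities.
`words_le`: sum over the words with kind dependent spaces.  `anti_le`: `p + p' = r`.
-/

open MeasureTheory Finset

noncomputable section

namespace NUO

/-- **integral over the heights** of `p` objects of the first and `p'` of the second species -/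
theorem two_le (z z' : ℝ → ℝ) (W : Finset ℤ) (lam : ℤ → ℝ) {c M : ℝ} (hc : 0 < c) (hM : 0 ≤ M)
    (hz0 : ∀ y, 0 ≤ z y) (hz0' : ∀ y, 0 ≤ z' y)
    (hz : Integrable (fun y => z y * Real.exp (-tilt W lam y)))
    (hz' : Integrable (fun y => z' y * Real.exp (-tilt W lam y))) (p p' : ℕ)
    (G : (Fin p → ℝ) × (Fin p' → ℝ) → ℝ) (hG0 : ∀ x, 0 ≤ G x)
    (hG : ∀ x, G x ≤ M * ((∏ i, z (x.1 i)) * ∏ j, z' (x.2 j)) *
      Real.exp (-(c * ∑ w ∈ W, (cnt (Sum.elim x.1 x.2) w : ℝ) ^ 2))) :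
    ∫ x, G x ∂((Measure.pi fun _ => volume).prod (Measure.pi fun _ => volume)) ≤
      M * Real.exp ((∑ w ∈ W, lam w ^ 2) / (4 * c)) *
        ((∫ y, z y * Real.exp (-tilt W lam y)) ^ p *
          (∫ y, z' y * Real.exp (-tilt W lam y)) ^ p') := by
  have h1 : ∀ x, G x ≤ M * Real.exp ((∑ w ∈ W, lam w ^ 2) / (4 * c)) *
      ((∏ i, (z (x.1 i) * Real.exp (-tilt W lam (x.1 i)))) *
        ∏ j, (z' (x.2 j) * Real.exp (-tilt W lam (x.2 j)))) := by
    intro x
    refine (hG x).trans ?_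
    have h2 := energy_le W lam hc (Sum.elim x.1 x.2)
    rw [Fintype.prod_sum_type] at h2
    simp only [Sum.elim_inl, Sum.elim_inr] at h2
    have h3 : 0 ≤ M * ((∏ i, z (x.1 i)) * ∏ j, z' (x.2 j)) :=
      mul_nonneg hM (mul_nonneg (Finset.prod_nonneg fun i _ => hz0 _)
        (Finset.prod_nonneg fun i _ => hz0' _))
    refine (mul_le_mul_of_nonneg_left h2 h3).trans (le_of_eq ?_)
    rw [Finset.prod_mul_distrib, Finset.prod_mul_distrib]
    ring
  have e1 := integral_prod_mul (μ := Measure.pi fun _ : Fin p => (volume : Measure ℝ))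
    (ν := Measure.pi fun _ : Fin p' => (volume : Measure ℝ))
    (fun x : Fin p → ℝ => ∏ i, (z (x i) * Real.exp (-tilt W lam (x i))))
    (fun x : Fin p' → ℝ => ∏ j, (z' (x j) * Real.exp (-tilt W lam (x j))))
  rw [integral_fintype_prod_eq_prod (fun (_ : Fin p) y => z y * Real.exp (-tilt W lam y)),
    integral_fintype_prod_eq_prod (fun (_ : Fin p') y => z' y * Real.exp (-tilt W lam y)),
    Finset.prod_const, Finset.prod_const, Finset.card_univ, Finset.card_univ, Fintype.card_fin,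
    Fintype.card_fin] at e1
  rw [← e1, ← integral_const_mul]
  refine integral_mono_of_nonneg (Filter.Eventually.of_forall hG0) (Integrable.const_mul ?_ _)
    (Filter.Eventually.of_forall h1)
  exact Integrable.mul_prod (f := fun x : Fin p → ℝ => ∏ i, (z (x i) * Real.exp (-tilt W lam (x i))))
    (g := fun x : Fin p' → ℝ => ∏ j, (z' (x j) * Real.exp (-tilt W lam (x j))))
    (Integrable.fintype_prod fun _ => hz) (Integrable.fintype_prod fun _ => hz')

/-- **sum over the words** with kind dependent spaces (kinds `K` of the first, `K'` of the second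
species) -/
theorem words_le {K K' : Type*} [Fintype K] [Fintype K'] [DecidableEq K] [DecidableEq K']
    {X : K → Type*} {X' : K' → Type*}
    {mX : ∀ κ, MeasurableSpace (X κ)} {mX' : ∀ κ, MeasurableSpace (X' κ)}
    {ν : ∀ κ, Measure (X κ)} [∀ κ, SigmaFinite (ν κ)]
    {ν' : ∀ κ, Measure (X' κ)} [∀ κ, SigmaFinite (ν' κ)]
    (ht : ∀ κ, X κ → ℝ) (ht' : ∀ κ, X' κ → ℝ) (z : ∀ κ, X κ → ℝ) (z' : ∀ κ, X' κ → ℝ)
    (W : Finset ℤ) (lam : ℤ → ℝ) {c M : ℝ}
    (hc : 0 < c) (hM : 0 ≤ M) (hz0 : ∀ κ y, 0 ≤ z κ y) (hz0' : ∀ κ y, 0 ≤ z' κ y)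
    (hz : ∀ κ, Integrable (fun y => z κ y * Real.exp (-tilt W lam (ht κ y))) (ν κ))
    (hz' : ∀ κ, Integrable (fun y => z' κ y * Real.exp (-tilt W lam (ht' κ y))) (ν' κ))
    (p p' : ℕ)
    (G : (k : Fin p → K) → (k' : Fin p' → K') →
      ((i : Fin p) → X (k i)) × ((j : Fin p') → X' (k' j)) → ℝ)
    (hG0 : ∀ k k' x, 0 ≤ G k k' x)
    (hG : ∀ k k' x, G k k' x ≤ M * ((∏ i, z (k i) (x.1 i)) * ∏ j, z' (k' j) (x.2 j)) *
      Real.exp (-(c * ∑ w ∈ W, (cnt (Sum.elim (fun i => ht (k i) (x.1 i))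
        (fun j => ht' (k' j) (x.2 j))) w : ℝ) ^ 2))) :
    ∑ k : Fin p → K, ∑ k' : Fin p' → K',
        ∫ x, G k k' x ∂((Measure.pi fun i => ν (k i)).prod (Measure.pi fun j => ν' (k' j))) ≤
      M * Real.exp ((∑ w ∈ W, lam w ^ 2) / (4 * c)) *
        ((∑ κ, ∫ y, z κ y * Real.exp (-tilt W lam (ht κ y)) ∂(ν κ)) ^ p *
          (∑ κ, ∫ y, z' κ y * Real.exp (-tilt W lam (ht' κ y)) ∂(ν' κ)) ^ p') := by
  have key : ∀ (k : Fin p → K) (k' : Fin p' → K'),
      ∫ x, G k k' x ∂((Measure.pi fun i => ν (k i)).prod (Measure.pi fun j => ν' (k' j))) ≤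
      M * Real.exp ((∑ w ∈ W, lam w ^ 2) / (4 * c)) *
        ((∏ i, ∫ y, z (k i) y * Real.exp (-tilt W lam (ht (k i) y)) ∂(ν (k i))) *
          ∏ j, ∫ y, z' (k' j) y * Real.exp (-tilt W lam (ht' (k' j) y)) ∂(ν' (k' j))) := by
    intro k k'
    have h1 : ∀ x, G k k' x ≤ M * Real.exp ((∑ w ∈ W, lam w ^ 2) / (4 * c)) *
        ((∏ i, (z (k i) (x.1 i) * Real.exp (-tilt W lam (ht (k i) (x.1 i))))) *
          ∏ j, (z' (k' j) (x.2 j) * Real.exp (-tilt W lam (ht' (k' j) (x.2 j))))) := by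
      intro x
      refine (hG k k' x).trans ?_
      have h2 := energy_le W lam hc (Sum.elim (fun i => ht (k i) (x.1 i))
        (fun j => ht' (k' j) (x.2 j)))
      rw [Fintype.prod_sum_type] at h2
      simp only [Sum.elim_inl, Sum.elim_inr] at h2
      have h3 : 0 ≤ M * ((∏ i, z (k i) (x.1 i)) * ∏ j, z' (k' j) (x.2 j)) :=
        mul_nonneg hM (mul_nonneg (Finset.prod_nonneg fun i _ => hz0 _ _)
          (Finset.prod_nonneg fun i _ => hz0' _ _))
      refine (mul_le_mul_of_nonneg_left h2 h3).trans (le_of_eq ?_)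
      rw [Finset.prod_mul_distrib, Finset.prod_mul_distrib]
      ring
    have e1 := integral_prod_mul (μ := Measure.pi fun i : Fin p => ν (k i))
      (ν := Measure.pi fun j : Fin p' => ν' (k' j))
      (fun x : (i : Fin p) → X (k i) =>
        ∏ i, (z (k i) (x i) * Real.exp (-tilt W lam (ht (k i) (x i)))))
      (fun x : (j : Fin p') → X' (k' j) =>
        ∏ j, (z' (k' j) (x j) * Real.exp (-tilt W lam (ht' (k' j) (x j)))))
    rw [integral_fintype_prod_eq_prod
        (fun (i : Fin p) y => z (k i) y * Real.exp (-tilt W lam (ht (k i) y))),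
      integral_fintype_prod_eq_prod
        (fun (j : Fin p') y => z' (k' j) y * Real.exp (-tilt W lam (ht' (k' j) y)))] at e1
    rw [← e1, ← integral_const_mul]
    refine integral_mono_of_nonneg (Filter.Eventually.of_forall (hG0 k k'))
      (Integrable.const_mul ?_ _) (Filter.Eventually.of_forall h1)
    exact Integrable.mul_prod
      (f := fun x : (i : Fin p) → X (k i) =>
        ∏ i, (z (k i) (x i) * Real.exp (-tilt W lam (ht (k i) (x i)))))
      (g := fun x : (j : Fin p') → X' (k' j) =>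
        ∏ j, (z' (k' j) (x j) * Real.exp (-tilt W lam (ht' (k' j) (x j)))))
      (Integrable.fintype_prod_dep fun i => hz (k i))
      (Integrable.fintype_prod_dep fun j => hz' (k' j))
  refine (Finset.sum_le_sum fun k _ => Finset.sum_le_sum fun k' _ => key k k').trans (le_of_eq ?_)
  rw [Fintype.sum_pow, Fintype.sum_pow, Finset.sum_mul_sum, Finset.mul_sum]
  refine Finset.sum_congr rfl fun k _ => ?_
  rw [Finset.mul_sum]

/-- binomial theorem with factorials -/
theorem anti_sum (A B : ℝ) (r : ℕ) :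
    ∑ pq ∈ antidiagonal r, ((pq.1.factorial : ℝ)⁻¹ * (pq.2.factorial : ℝ)⁻¹) *
      (A ^ pq.1 * B ^ pq.2) = (A + B) ^ r / (r.factorial : ℝ) := by
  rw [Commute.add_pow' (Commute.all A B) r, Finset.sum_div]
  refine Finset.sum_congr rfl fun pq h => ?_
  rw [HasAntidiagonal.mem_antidiagonal] at h
  rw [nsmul_eq_mul]
  have h1 := Nat.choose_mul_factorial_mul_factorial (n := r) (k := pq.1) (by omega)
  rw [show r - pq.1 = pq.2 by omega] at h1
  have h2 : ((r.choose pq.1 : ℕ) : ℝ) * (pq.1.factorial : ℝ) * (pq.2.factorial : ℝ) =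
      (r.factorial : ℝ) := by exact_mod_cast h1
  have h3 : (pq.1.factorial : ℝ) ≠ 0 := by positivity
  have h4 : (pq.2.factorial : ℝ) ≠ 0 := by positivity
  have h5 : (r.factorial : ℝ) ≠ 0 := by positivity
  rw [← h2]
  have h6 : ((r.choose pq.1 : ℕ) : ℝ) ≠ 0 := by
    intro h; rw [h, zero_mul, zero_mul] at h2; exact h5 h2.symm
  field_simp

/-- **all pairs `(p, p')` with `p + p' = r`** -/
theorem anti_le {A B Q : ℝ} (r : ℕ) (S : ℕ → ℕ → ℝ)
    (h : ∀ p p', p + p' = r → S p p' ≤ Q * (A ^ p * B ^ p')) :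
    ∑ pq ∈ antidiagonal r, ((pq.1.factorial : ℝ)⁻¹ * (pq.2.factorial : ℝ)⁻¹) * S pq.1 pq.2 ≤
      Q * ((A + B) ^ r / (r.factorial : ℝ)) := by
  rw [← anti_sum, Finset.mul_sum]
  refine Finset.sum_le_sum fun pq hpq => ?_
  have := h pq.1 pq.2 (HasAntidiagonal.mem_antidiagonal.1 hpq)
  have h0 : (0 : ℝ) ≤ (pq.1.factorial : ℝ)⁻¹ * (pq.2.factorial : ℝ)⁻¹ := by positivity
  calc _ ≤ ((pq.1.factorial : ℝ)⁻¹ * (pq.2.factorial : ℝ)⁻¹) * (Q * (A ^ pq.1 * B ^ pq.2)) :=
        mul_le_mul_of_nonneg_left this h0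
    _ = _ := by ring

/-- a sum over `p, p' ≤ N` of nonnegative terms by the total number -/
theorem sum_sum_le_anti (N : ℕ) (a : ℕ → ℕ → ℝ) (ha : ∀ p p', 0 ≤ a p p') :
    ∑ p ∈ range (N + 1), ∑ p' ∈ range (N + 1), a p p' ≤
      ∑ r ∈ range (2 * N + 1), ∑ pq ∈ antidiagonal r, a pq.1 pq.2 := by
  rw [← Finset.sum_product', ← Finset.sum_fiberwise_of_maps_to
    (s := range (N + 1) ×ˢ range (N + 1)) (t := range (2 * N + 1)) (g := fun pq => pq.1 + pq.2)
    (fun pq h => by
      rw [Finset.mem_product, Finset.mem_range, Finset.mem_range] at h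
      rw [Finset.mem_range]
      omega)]
  refine Finset.sum_le_sum fun r _ => Finset.sum_le_sum_of_subset_of_nonneg ?_
    fun pq _ _ => ha _ _
  intro pq h
  exact HasAntidiagonal.mem_antidiagonal.2 (Finset.mem_filter.1 h).2

end NUO
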