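import Pool.Agent.NUO.MHat
import Pool.Agent.NUO.PosBase

/-!
NUO/XL (helper39): positivity of the cross kernels L-L' and L-Svv' of (STAB), certificates of helper9
(team-store nu34_h9cert2: LL, LF). `z = zk k = π k / 32`.
-/

set_option autoImplicit false

namespace NUXL

open NUSB NUMH NUO NUPosK NUPolyR

lemma yk_z (k : ℝ) : yk k = 4 * zk k := by
  unfold yk zk
  ring

lemma ch_q (n : ℕ) {a : ℝ} (ha : a = n / 4) (k : ℝ) : Real.cosh (a * yk k) = ch n (zk k) := by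
  rw [yk_z, ha]
  unfold ch
  congr 1
  ring

lemma sinh_pos' {a k : ℝ} (ha : 0 < a) (hk : 0 < k) : 0 < Real.sinh (a * zk k) :=
  Real.sinh_pos_iff.2 (mul_pos ha (zk_pos hk))

lemma sinh16 (z : ℝ) : Real.sinh (16 * z) = 2 * Real.sinh (8 * z) * ch 8 z := by
  rw [show 16 * z = 2 * (8 * z) by ring, Real.sinh_two_mul]
  unfold ch
  norm_num

lemma sinh8 (z : ℝ) : Real.sinh (8 * z) = 2 * Real.sinh (4 * z) * ch 4 z := by
  rw [show 8 * z = 2 * (4 * z) by ring, Real.sinh_two_mul]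
  unfold ch
  norm_num

lemma ch_pos (n : ℕ) (z : ℝ) : 0 < ch n z := by linarith [one_le_ch n z]

lemma am_pos (z : ℝ) : 0 < 2 * ch 4 z - 1 := by linarith [one_le_ch 4 z]
lemma ap_pos (z : ℝ) : 0 < 2 * ch 4 z + 1 := by linarith [one_le_ch 4 z]

/-- `sinh(3w) = sinh w (4 sinh² w + 3)`, in the form needed for `sinh (3y/2)`, `y/2 = 2z` -/
lemma sinh6 (z : ℝ) : Real.sinh (6 * z) = Real.sinh (2 * z) * (2 * ch 4 z + 1) := by
  have e : ch 4 z = Real.cosh (2 * (2 * z)) := by unfold ch; congr 1; push_cast; ring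
  rw [e, show 6 * z = 3 * (2 * z) by ring, Real.sinh_three_mul, Real.cosh_two_mul, Real.cosh_sq]
  ring

lemma cosh6 (z : ℝ) : Real.cosh (6 * z) = Real.cosh (2 * z) * (2 * ch 4 z - 1) := by
  have e : ch 4 z = Real.cosh (2 * (2 * z)) := by unfold ch; congr 1; push_cast; ring
  have h : ∀ w : ℝ, Real.cosh (3 * w) = Real.cosh w * (2 * Real.cosh (2 * w) - 1) := by
    intro w
    rw [Real.cosh_three_mul, Real.cosh_two_mul, Real.sinh_sq]
    ring
  rw [e, show 6 * z = 3 * (2 * z) by ring]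
  exact h (2 * z)

lemma sinh12 (z : ℝ) : Real.sinh (12 * z) = Real.sinh (4 * z) * ((2 * ch 4 z - 1) * (2 * ch 4 z + 1)) := by
  have e : Real.sinh (4 * z) = 2 * Real.sinh (2 * z) * Real.cosh (2 * z) := by
    rw [show 4 * z = 2 * (2 * z) by ring, Real.sinh_two_mul]
  rw [show 12 * z = 2 * (6 * z) by ring, Real.sinh_two_mul, sinh6, cosh6, e]
  ring

/-! ### bases -/

lemma pD4 {n m : ℕ} (h1 : n < m) (h2 : m < 16) : PK fun k => PP k * (ch m (zk k) - ch n (zk k)) := by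
  have h := (pk_log (N := 4) (a := (n : ℝ) / 4) (b := (m : ℝ) / 4) (by positivity)
    (by have : (n : ℝ) < m := by exact_mod_cast h1
        linarith)
    (by have : (m : ℝ) < 16 := by exact_mod_cast h2
        linarith)).smul (c := 2 * Real.pi) (by have := Real.pi_pos; positivity)
  refine h.congr fun k hk => ?_
  rw [ch_q n rfl, ch_q m rfl]
  unfold PP
  rw [show Real.sinh (4 * yk k) = Real.sinh (16 * zk k) by rw [yk_z]; congr 1; ring]
  have := sinh_pos' (a := 16) (by norm_num) hk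
  field_simp

lemma pD2 {n m : ℕ} (h1 : n < m) (h2 : m < 8) :
    PK fun k => PP k * (2 * ch 8 (zk k) * (ch m (zk k) - ch n (zk k))) := by
  have h := (pk_log (N := 2) (a := (n : ℝ) / 4) (b := (m : ℝ) / 4) (by positivity)
    (by have : (n : ℝ) < m := by exact_mod_cast h1
        linarith)
    (by have : (m : ℝ) < 8 := by exact_mod_cast h2
        linarith)).smul (c := 2 * Real.pi) (by have := Real.pi_pos; positivity)
  refine h.congr fun k hk => ?_
  rw [ch_q n rfl, ch_q m rfl]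
  unfold PP
  rw [show Real.sinh (2 * yk k) = Real.sinh (8 * zk k) by rw [yk_z]; congr 1; ring, sinh16]
  have := sinh_pos' (a := 8) (by norm_num) hk
  have := ch_pos 8 (zk k)
  field_simp

lemma pD1 {n m : ℕ} (h1 : n < m) (h2 : m < 4) :
    PK fun k => PP k * (4 * ch 8 (zk k) * ch 4 (zk k) * (ch m (zk k) - ch n (zk k))) := by
  have h := (pk_log (N := 1) (a := (n : ℝ) / 4) (b := (m : ℝ) / 4) (by positivity)
    (by have : (n : ℝ) < m := by exact_mod_cast h1
        linarith)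
    (by have : (m : ℝ) < 4 := by exact_mod_cast h2
        linarith)).smul (c := 2 * Real.pi) (by have := Real.pi_pos; positivity)
  refine h.congr fun k hk => ?_
  rw [ch_q n rfl, ch_q m rfl]
  unfold PP
  rw [show Real.sinh (1 * yk k) = Real.sinh (4 * zk k) by rw [yk_z]; congr 1; ring, sinh16, sinh8]
  have := sinh_pos' (a := 4) (by norm_num) hk
  have := ch_pos 8 (zk k)
  have := ch_pos 4 (zk k)
  field_simp
  ring

/-- `Cp[0, 1/2]` -/
lemma pCp : PK fun k => PP k * (2 * ch 8 (zk k) * ch 4 (zk k) * (ch 6 (zk k) - ch 2 (zk k)) /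
    (2 * ch 4 (zk k) + 1)) := by
  have h := (pk_log (N := 3 / 2) (a := 0) (b := 1) le_rfl (by norm_num) (by norm_num)).smul
    (c := Real.pi) Real.pi_pos.le
  refine h.congr fun k hk => ?_
  rw [ch_q 0 (a := 0) (by norm_num), ch_q 4 (a := 1) (by norm_num)]
  unfold PP
  rw [show Real.sinh (3 / 2 * yk k) = Real.sinh (6 * zk k) by rw [yk_z]; congr 1; ring, sinh16, sinh8, sinh6]
  have e1 : ch 6 (zk k) - ch 2 (zk k) = 2 * Real.sinh (4 * zk k) * Real.sinh (2 * zk k) := by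
    have h6 : ch 6 (zk k) = Real.cosh (4 * zk k + 2 * zk k) := by unfold ch; congr 1; push_cast; ring
    have h2 : ch 2 (zk k) = Real.cosh (4 * zk k - 2 * zk k) := by unfold ch; congr 1; push_cast; ring
    rw [h6, h2, Real.cosh_add, Real.cosh_sub]
    ring
  have e2 : ch 4 (zk k) - ch 0 (zk k) = 2 * Real.sinh (2 * zk k) ^ 2 := by
    have h4 : ch 4 (zk k) = Real.cosh (2 * (2 * zk k)) := by unfold ch; congr 1; push_cast; ring
    have h0 : ch 0 (zk k) = 1 := by unfold ch; simp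
    rw [h4, h0, Real.cosh_two_mul, Real.cosh_sq]
    ring
  rw [e1, e2]
  have h4 := sinh_pos' (a := 4) (by norm_num) hk
  have h2 := sinh_pos' (a := 2) (by norm_num) hk
  generalize Real.sinh (4 * zk k) = S at h4 ⊢
  generalize Real.sinh (2 * zk k) = R at h2 ⊢
  have := ch_pos 8 (zk k)
  have := ch_pos 4 (zk k)
  have := ap_pos (zk k)
  field_simp

/-- `Cm[0, 1/2]` -/
lemma pCm : PK fun k => PP k * (2 * ch 8 (zk k) * ch 4 (zk k) * (ch 6 (zk k) - ch 2 (zk k)) /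
    (2 * ch 4 (zk k) - 1)) := by
  have h := (pk_sc (N := 3 / 2) (a := 0) (b := 1) (by norm_num) (by norm_num) (by norm_num)).smul
    (c := Real.pi) Real.pi_pos.le
  refine h.congr fun k hk => ?_
  unfold PP
  rw [show Real.cosh (3 / 2 * yk k) = Real.cosh (6 * zk k) by rw [yk_z]; congr 1; ring,
    show Real.sinh (1 * yk k) = Real.sinh (2 * (2 * zk k)) by rw [yk_z]; congr 1; ring, zero_mul,
    Real.sinh_zero, Real.sinh_two_mul, sinh16, sinh8, cosh6]
  have e1 : ch 6 (zk k) - ch 2 (zk k) = 2 * Real.sinh (4 * zk k) * Real.sinh (2 * zk k) := by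
    have h6 : ch 6 (zk k) = Real.cosh (4 * zk k + 2 * zk k) := by unfold ch; congr 1; push_cast; ring
    have h2 : ch 2 (zk k) = Real.cosh (4 * zk k - 2 * zk k) := by unfold ch; congr 1; push_cast; ring
    rw [h6, h2, Real.cosh_add, Real.cosh_sub]
    ring
  rw [e1]
  have h4 := sinh_pos' (a := 4) (by norm_num) hk
  have h2 := sinh_pos' (a := 2) (by norm_num) hk
  have h3 := Real.cosh_pos (2 * zk k)
  generalize Real.sinh (4 * zk k) = S at h4 ⊢
  generalize Real.sinh (2 * zk k) = R at h2 ⊢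
  generalize Real.cosh (2 * zk k) = Q at h3 ⊢
  have := ch_pos 8 (zk k)
  have := ch_pos 4 (zk k)
  have := am_pos (zk k)
  field_simp
  ring

/-! ### multipliers -/

lemma m0 : MK fun k => 1 / (2 * ch 4 (zk k) - 1) := by
  refine (mk_cc (N := 3 / 2) (a := 1 / 2) (by norm_num) (by norm_num)).congr fun k hk => ?_
  rw [show Real.cosh (3 / 2 * yk k) = Real.cosh (6 * zk k) by rw [yk_z]; congr 1; ring,
    show Real.cosh (1 / 2 * yk k) = Real.cosh (2 * zk k) by rw [yk_z]; congr 1; ring, cosh6]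
  have := Real.cosh_pos (2 * zk k)
  have := am_pos (zk k)
  field_simp

lemma p0 : MK fun k => 1 / (2 * ch 4 (zk k) + 1) := by
  refine (mk_ss (N := 3 / 2) (a := 1 / 2) (by norm_num) (by norm_num)).congr fun k hk => ?_
  rw [show Real.sinh (3 / 2 * yk k) = Real.sinh (6 * zk k) by rw [yk_z]; congr 1; ring,
    show Real.sinh (1 / 2 * yk k) = Real.sinh (2 * zk k) by rw [yk_z]; congr 1; ring, sinh6]
  have := sinh_pos' (a := 2) (by norm_num) hk
  have := ap_pos (zk k)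
  field_simp

lemma p2 : MK fun k => ch 2 (zk k) / (2 * ch 4 (zk k) + 1) := by
  refine (mk_css (N := 3 / 2) (a := 1 / 2) (b := 1 / 2) (by norm_num) (by norm_num) (by norm_num)
    (by norm_num)).congr fun k hk => ?_
  rw [show Real.sinh (3 / 2 * yk k) = Real.sinh (6 * zk k) by rw [yk_z]; congr 1; ring,
    show Real.sinh (1 / 2 * yk k) = Real.sinh (2 * zk k) by rw [yk_z]; congr 1; ring, sinh6,
    ch_q 2 (by norm_num)]
  have := sinh_pos' (a := 2) (by norm_num) hk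
  have := ap_pos (zk k)
  field_simp

lemma q0 : MK fun k => 1 / ((2 * ch 4 (zk k) - 1) * (2 * ch 4 (zk k) + 1)) := by
  refine (mk_ss (N := 3) (a := 1) (by norm_num) (by norm_num)).congr fun k hk => ?_
  rw [show Real.sinh (3 * yk k) = Real.sinh (12 * zk k) by rw [yk_z]; congr 1; ring,
    show Real.sinh (1 * yk k) = Real.sinh (4 * zk k) by rw [yk_z]; congr 1; ring, sinh12]
  have := sinh_pos' (a := 4) (by norm_num) hk
  have := ap_pos (zk k)
  have := am_pos (zk k)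
  field_simp

/-! ### the kernel L-L' -/

lemma ch0 (z : ℝ) : ch 0 z = 1 := by unfold ch; simp

lemma e6 (z : ℝ) : ev t6 (ww z) = ch 6 z := by rw [ww, ev_t6, ch]; norm_num

theorem idLL {z : ℝ} (hz : 0 < z) : Mc .L .L z =
    1 / 3 * (2 * ch 8 z * (ch 4 z - ch 2 z)) + 5 / 12 * (ch 10 z - ch 8 z) +
    1 / 12 * ((ch 14 z - ch 12 z) * (1 / (2 * ch 4 z + 1))) + 1 / 2 * (ch 12 z - ch 10 z) +
    1 / 12 * (ch 8 z - ch 6 z) + 1 / 3 * ((2 * ch 8 z * (ch 6 z - ch 4 z)) * (1 / (2 * ch 4 z - 1))) +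
    1 / 3 * ((2 * ch 8 z * ch 4 z * (ch 6 z - ch 2 z) / (2 * ch 4 z + 1)) *
      (1 / ((2 * ch 4 z - 1) * (2 * ch 4 z + 1)))) +
    5 / 12 * ((ch 4 z - ch 2 z) * (1 / (2 * ch 4 z + 1))) +
    2 / 3 * ((2 * ch 8 z * ch 4 z * (ch 6 z - ch 2 z) / (2 * ch 4 z + 1)) * (ch 2 z / (2 * ch 4 z + 1))) +
    1 / 12 * ((2 * ch 8 z * (ch 4 z - ch 2 z)) * (1 / (2 * ch 4 z - 1))) +
    1 / 12 * ((2 * ch 8 z * (ch 2 z - ch 0 z)) * (1 / (2 * ch 4 z + 1))) := by
  obtain ⟨A, hA⟩ : ∃ A, A = 2 * ch 4 z - 1 := ⟨_, rfl⟩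
  obtain ⟨B, hB⟩ : ∃ B, B = 2 * ch 4 z + 1 := ⟨_, rfl⟩
  obtain ⟨cm, hcm⟩ : ∃ cm, cm = ch 4 z - 1 := ⟨_, rfl⟩
  obtain ⟨cp, hcp⟩ : ∃ cp, cp = ch 4 z + 1 := ⟨_, rfl⟩
  have hA0 : 0 < A := by rw [hA]; exact am_pos z
  have hB0 : 0 < B := by rw [hB]; exact ap_pos z
  have hcm0 : 0 < cm := by rw [hcm]; linarith [one_lt_ch (n := 4) (by norm_num) hz]
  have hcp0 : 0 < cp := by rw [hcp]; linarith [ch_pos 4 z]
  unfold Mc up um
  simp only [xb, fX, fY, fXL, fYL, ch0]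
  rw [← hA, ← hB, ← hcm, ← hcp]
  field_simp
  rw [hA, hB, hcm, hcp]
  simp only [← e1, ← e2, ← e3, ← e4, ← e5, ← e6, ← e7, ← e8, ← e9, ← e10, ← e11, ← e12, ← e13, ← e14, ← e15]
  generalize ww z = w
  simp only [t1, t2, t3, t4, t5, t6, t7, t8, t9, t10, t11, t12, t13, t14, t15, ev_cons, ev_nil]
  push_cast
  ring

theorem X_L_L : PK fun k => PP k * Mc .L .L (zk k) := by
  have h := (((((((((((pD2 (n := 2) (m := 4) (by norm_num) (by norm_num)).smul (c := 1 / 3) (by norm_num)).add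
    ((pD4 (n := 8) (m := 10) (by norm_num) (by norm_num)).smul (c := 5 / 12) (by norm_num))).add
    (((pD4 (n := 12) (m := 14) (by norm_num) (by norm_num)).mul p0).smul (c := 1 / 12) (by norm_num))).add
    ((pD4 (n := 10) (m := 12) (by norm_num) (by norm_num)).smul (c := 1 / 2) (by norm_num))).add
    ((pD4 (n := 6) (m := 8) (by norm_num) (by norm_num)).smul (c := 1 / 12) (by norm_num))).add
    (((pD2 (n := 4) (m := 6) (by norm_num) (by norm_num)).mul m0).smul (c := 1 / 3) (by norm_num))).add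
    ((pCp.mul q0).smul (c := 1 / 3) (by norm_num))).add
    (((pD4 (n := 2) (m := 4) (by norm_num) (by norm_num)).mul p0).smul (c := 5 / 12) (by norm_num))).add
    ((pCp.mul p2).smul (c := 2 / 3) (by norm_num))).add
    (((pD2 (n := 2) (m := 4) (by norm_num) (by norm_num)).mul m0).smul (c := 1 / 12) (by norm_num))).add
    (((pD2 (n := 0) (m := 2) (by norm_num) (by norm_num)).mul p0).smul (c := 1 / 12) (by norm_num))
  refine h.congr fun k hk => ?_
  rw [idLL (zk_pos hk)]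
  ring

/-! ### the kernel L-Svv' -/

theorem idLV {z : ℝ} (hz : 0 < z) : Mc .L .V z - (ch 16 z - ch 14 z) =
    1 / 2 * (ch 8 z - ch 6 z) + 1 / 8 * (4 * ch 8 z * ch 4 z * (ch 2 z - ch 0 z)) +
    5 / 8 * ((2 * ch 8 z * (ch 4 z - ch 2 z)) * (1 / (2 * ch 4 z - 1))) +
    1 / 3 * (2 * ch 8 z * (ch 6 z - ch 4 z)) +
    3 / 8 * ((ch 14 z - ch 12 z) * (1 / (2 * ch 4 z + 1))) +
    1 / 8 * ((ch 4 z - ch 2 z) * (1 / (2 * ch 4 z + 1))) +
    1 / 12 * (2 * ch 8 z * ch 4 z * (ch 6 z - ch 2 z) / (2 * ch 4 z - 1)) +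
    1 / 2 * (ch 12 z - ch 10 z) +
    2 / 3 * ((2 * ch 8 z * ch 4 z * (ch 6 z - ch 2 z) / (2 * ch 4 z + 1)) *
      (1 / ((2 * ch 4 z - 1) * (2 * ch 4 z + 1)))) +
    5 / 12 * ((2 * ch 8 z * (ch 4 z - ch 2 z)) * (1 / (2 * ch 4 z + 1))) +
    1 / 3 * ((2 * ch 8 z * ch 4 z * (ch 6 z - ch 2 z) / (2 * ch 4 z + 1)) * (ch 2 z / (2 * ch 4 z + 1))) +
    1 / 2 * ((ch 14 z - ch 12 z) * (1 / (2 * ch 4 z - 1))) := by
  obtain ⟨A, hA⟩ : ∃ A, A = 2 * ch 4 z - 1 := ⟨_, rfl⟩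
  obtain ⟨B, hB⟩ : ∃ B, B = 2 * ch 4 z + 1 := ⟨_, rfl⟩
  obtain ⟨cm, hcm⟩ : ∃ cm, cm = ch 4 z - 1 := ⟨_, rfl⟩
  obtain ⟨cp, hcp⟩ : ∃ cp, cp = ch 4 z + 1 := ⟨_, rfl⟩
  have hA0 : 0 < A := by rw [hA]; exact am_pos z
  have hB0 : 0 < B := by rw [hB]; exact ap_pos z
  have hcm0 : 0 < cm := by rw [hcm]; linarith [one_lt_ch (n := 4) (by norm_num) hz]
  have hcp0 : 0 < cp := by rw [hcp]; linarith [ch_pos 4 z]
  unfold Mc up um
  simp only [xb, xLV, fX, fY, fXL, fYL, fXV, fYV, ch0]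
  rw [← hA, ← hB, ← hcm, ← hcp]
  field_simp
  rw [hA, hB, hcm, hcp]
  simp only [← e1, ← e2, ← e3, ← e4, ← e5, ← e6, ← e7, ← e8, ← e9, ← e10, ← e11, ← e12, ← e13, ← e14, ← e15, ← e16]
  generalize ww z = w
  simp only [t1, t2, t3, t4, t5, t6, t7, t8, t9, t10, t11, t12, t13, t14, t15, t16, ev_cons, ev_nil]
  push_cast
  ring

theorem X_L_V : PK fun k => PP k * (Mc .L .V (zk k) - (ch 16 (zk k) - ch 14 (zk k))) := by
  have h := ((((((((((((pD4 (n := 6) (m := 8) (by norm_num) (by norm_num)).smul (c := 1 / 2) (by norm_num)).add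
    ((pD1 (n := 0) (m := 2) (by norm_num) (by norm_num)).smul (c := 1 / 8) (by norm_num))).add
    (((pD2 (n := 2) (m := 4) (by norm_num) (by norm_num)).mul m0).smul (c := 5 / 8) (by norm_num))).add
    ((pD2 (n := 4) (m := 6) (by norm_num) (by norm_num)).smul (c := 1 / 3) (by norm_num))).add
    (((pD4 (n := 12) (m := 14) (by norm_num) (by norm_num)).mul p0).smul (c := 3 / 8) (by norm_num))).add
    (((pD4 (n := 2) (m := 4) (by norm_num) (by norm_num)).mul p0).smul (c := 1 / 8) (by norm_num))).add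
    (pCm.smul (c := 1 / 12) (by norm_num))).add
    ((pD4 (n := 10) (m := 12) (by norm_num) (by norm_num)).smul (c := 1 / 2) (by norm_num))).add
    ((pCp.mul q0).smul (c := 2 / 3) (by norm_num))).add
    (((pD2 (n := 2) (m := 4) (by norm_num) (by norm_num)).mul p0).smul (c := 5 / 12) (by norm_num))).add
    ((pCp.mul p2).smul (c := 1 / 3) (by norm_num))).add
    (((pD4 (n := 12) (m := 14) (by norm_num) (by norm_num)).mul m0).smul (c := 1 / 2) (by norm_num))
  refine h.congr fun k hk => ?_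
  rw [idLV (zk_pos hk)]
  ring

end NUXL
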