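import Pool.Agent.NUO.ChebX
import Pool.Agent.NUO.PosF
import Pool.Agent.NUO.PolyY

/-!
# Y_L_L (helper45)

The kernel `L`-`L` of the same species: `PP (Ms L L - core)` is `PK`, with lower bound `1/100` on `|t| ≤ 1`.
-/

set_option autoImplicit false
set_option linter.unusedVariables false
set_option linter.unusedSimpArgs false

open MeasureTheory Set

namespace NUMH

open NUSB NUO NUPosK

noncomputable section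

/-- plus part -/
private lemma Y_L_L_u1 (x A B H : ℝ) (eA : A = 16 * x ^ 4 - 16 * x ^ 2 + 1) (eB : B = 16 * x ^ 4 - 16 * x ^ 2 + 3) (eH : H = 2 * x ^ 2 - 1) (hx : x ≠ 0) (hx1 : x ^ 2 - 1 ≠ 0) (hA : A ≠ 0) (hB : B ≠ 0) (hH : H ≠ 0) :
    (-16 * x + 488 * x ^ 3 - 5016 * x ^ 5 + 22464 * x ^ 7 - 50176 * x ^ 9 + 58880 * x ^ 11 - 34816 * x ^ 13 + 8192 * x ^ 15) * (-16 * x + 488 * x ^ 3 - 5016 * x ^ 5 + 22464 * x ^ 7 - 50176 * x ^ 9 + 58880 * x ^ 11 - 34816 * x ^ 13 + 8192 * x ^ 15) / ((8 * x ^ 2 * (x ^ 2 - 1)) * A * B ^ 2) * (A ^ 1 * B ^ 2 * x ^ 0 * H ^ 0) =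
    (-32 + 1408 * x ^ 2 - 24872 * x ^ 4 + 233416 * x ^ 6 - 1299840 * x ^ 8 + 4562304 * x ^ 10 - 10433536 * x ^ 12 + 15742976 * x ^ 14 - 15532032 * x ^ 16 + 9633792 * x ^ 18 - 3407872 * x ^ 20 + 524288 * x ^ 22) * (A ^ 1 * B ^ 0 * x ^ 0 * H ^ 0) := by
  have h : (-16 * x + 488 * x ^ 3 - 5016 * x ^ 5 + 22464 * x ^ 7 - 50176 * x ^ 9 + 58880 * x ^ 11 - 34816 * x ^ 13 + 8192 * x ^ 15) * (-16 * x + 488 * x ^ 3 - 5016 * x ^ 5 + 22464 * x ^ 7 - 50176 * x ^ 9 + 58880 * x ^ 11 - 34816 * x ^ 13 + 8192 * x ^ 15) / ((8 * x ^ 2 * (x ^ 2 - 1)) * A * B ^ 2) =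
      (-32 + 1408 * x ^ 2 - 24872 * x ^ 4 + 233416 * x ^ 6 - 1299840 * x ^ 8 + 4562304 * x ^ 10 - 10433536 * x ^ 12 + 15742976 * x ^ 14 - 15532032 * x ^ 16 + 9633792 * x ^ 18 - 3407872 * x ^ 20 + 524288 * x ^ 22) / (A ^ 0 * B ^ 2 * x ^ 0 * H ^ 0) := by
    rw [div_eq_div_iff (by positivity) (by positivity)]
    rw [eA, eB, eH]
    ring
  rw [h]
  have e : A ^ 1 * B ^ 2 * x ^ 0 * H ^ 0 = (A ^ 0 * B ^ 2 * x ^ 0 * H ^ 0) * (A ^ 1 * B ^ 0 * x ^ 0 * H ^ 0) := by ring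
  rw [e, ← mul_assoc, div_mul_cancel₀ _ (by positivity)]

/-- minus part -/
private lemma Y_L_L_u2 (x A B H : ℝ) (eA : A = 16 * x ^ 4 - 16 * x ^ 2 + 1) (eB : B = 16 * x ^ 4 - 16 * x ^ 2 + 3) (eH : H = 2 * x ^ 2 - 1) (hx : x ≠ 0) (hx1 : x ^ 2 - 1 ≠ 0) (hA : A ≠ 0) (hB : B ≠ 0) (hH : H ≠ 0) :
    (2 * x - 40 * x ^ 3 - 24 * x ^ 5 + 3648 * x ^ 7 - 17408 * x ^ 9 + 32256 * x ^ 11 - 26624 * x ^ 13 + 8192 * x ^ 15) * (2 * x - 40 * x ^ 3 - 24 * x ^ 5 + 3648 * x ^ 7 - 17408 * x ^ 9 + 32256 * x ^ 11 - 26624 * x ^ 13 + 8192 * x ^ 15) / ((2 * H ^ 2) * A ^ 3) * (A ^ 1 * B ^ 2 * x ^ 0 * H ^ 0) =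
    (2 * x ^ 2 - 8 * x ^ 4 - 376 * x ^ 6 + 1664 * x ^ 8 + 16128 * x ^ 10 - 84992 * x ^ 12 + 149504 * x ^ 14 - 114688 * x ^ 16 + 32768 * x ^ 18) * (A ^ 0 * B ^ 2 * x ^ 0 * H ^ 0) := by
  have h : (2 * x - 40 * x ^ 3 - 24 * x ^ 5 + 3648 * x ^ 7 - 17408 * x ^ 9 + 32256 * x ^ 11 - 26624 * x ^ 13 + 8192 * x ^ 15) * (2 * x - 40 * x ^ 3 - 24 * x ^ 5 + 3648 * x ^ 7 - 17408 * x ^ 9 + 32256 * x ^ 11 - 26624 * x ^ 13 + 8192 * x ^ 15) / ((2 * H ^ 2) * A ^ 3) =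
      (2 * x ^ 2 - 8 * x ^ 4 - 376 * x ^ 6 + 1664 * x ^ 8 + 16128 * x ^ 10 - 84992 * x ^ 12 + 149504 * x ^ 14 - 114688 * x ^ 16 + 32768 * x ^ 18) / (A ^ 1 * B ^ 0 * x ^ 0 * H ^ 0) := by
    rw [div_eq_div_iff (by positivity) (by positivity)]
    rw [eA, eH]
    ring
  rw [h]
  have e : A ^ 1 * B ^ 2 * x ^ 0 * H ^ 0 = (A ^ 1 * B ^ 0 * x ^ 0 * H ^ 0) * (A ^ 0 * B ^ 2 * x ^ 0 * H ^ 0) := by ring
  rw [e, ← mul_assoc, div_mul_cancel₀ _ (by positivity)]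

/-- the certificate -/
theorem Y_L_L_id {z : ℝ} (hz : 0 < z) :
    1 * ((ch 16 z - ch 14 z)) +
    3 / 4 * ((ch 14 z - ch 0 z)) +
    -1 * ((ch 12 z - ch 0 z)) +
    -3 / 4 * ((ch 10 z - ch 0 z)) +
    1 * ((ch 8 z - ch 0 z)) +
    1 / 4 * ((ch 6 z - ch 0 z)) +
    -1 / 2 * ((ch 2 z - ch 0 z)) +
    1 * ((ch 2 z - ch 0 z) * (ch 2 z / gA z)) +
    7 / 8 * ((ch 2 z - ch 0 z) * (ch 0 z / gA z)) +
    1 * ((ch 2 z - ch 0 z) * (ch 2 z / gB z)) +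
    7 / 8 * ((ch 2 z - ch 0 z) * (ch 0 z / gB z)) +
    1 / 4 * ((ch 2 z - ch 0 z) * (ch 0 z / gB z) * (ch 0 z / gB z)) =
    Ms .L .L z := by
  have hA := gA_pos z
  have hB := gB_pos z
  have hH := gH_pos z
  have hx : 1 < ch 1 z := one_lt_ch (by norm_num) hz
  have hx0 : 0 < ch 1 z := by linarith
  have hx1 : ch 1 z ^ 2 - 1 ≠ 0 := by nlinarith
  have eA : gA z = 16 * ch 1 z ^ 4 - 16 * ch 1 z ^ 2 + 1 := by unfold gA; rw [cx4]; ring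
  have eB : gB z = 16 * ch 1 z ^ 4 - 16 * ch 1 z ^ 2 + 3 := by unfold gB; rw [cx4]; ring
  have eH : gH z = 2 * ch 1 z ^ 2 - 1 := by unfold gH; rw [cx2]
  have eup : up z = (8 * ch 1 z ^ 2 * (ch 1 z ^ 2 - 1)) * gA z * gB z ^ 2 := by
    unfold up gA gB
    rw [cx4]
    ring
  have eum : um z = (2 * gH z ^ 2) * gA z ^ 3 := by
    rw [eH]
    unfold um gA
    rw [cx4]
    ring
  have ipL : fX .L z + fY .L z = -16 * ch 1 z + 488 * ch 1 z ^ 3 - 5016 * ch 1 z ^ 5 + 22464 * ch 1 z ^ 7 - 50176 * ch 1 z ^ 9 + 58880 * ch 1 z ^ 11 - 34816 * ch 1 z ^ 13 + 8192 * ch 1 z ^ 15 := by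
    simp only [fX, fY, fXL, fYL, fXT, fYT, fXV, fYV, cx0, cx2, cx3, cx4, cx5, cx6, cx7, cx8, cx9, cx10, cx11, cx12, cx13, cx14, cx15, cx16]
    ring
  have imL : fX .L z - fY .L z = 2 * ch 1 z - 40 * ch 1 z ^ 3 - 24 * ch 1 z ^ 5 + 3648 * ch 1 z ^ 7 - 17408 * ch 1 z ^ 9 + 32256 * ch 1 z ^ 11 - 26624 * ch 1 z ^ 13 + 8192 * ch 1 z ^ 15 := by
    simp only [fX, fY, fXL, fYL, fXT, fYT, fXV, fYV, cx0, cx2, cx3, cx4, cx5, cx6, cx7, cx8, cx9, cx10, cx11, cx12, cx13, cx14, cx15, cx16]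
    ring
  have hL : gA z ^ 1 * gB z ^ 2 * ch 1 z ^ 0 * gH z ^ 0 ≠ 0 := by positivity
  have v1 := Y_L_L_u1 (ch 1 z) (gA z) (gB z) (gH z) eA eB eH hx0.ne' hx1 hA.ne' hB.ne' hH.ne'
  have v2 := Y_L_L_u2 (ch 1 z) (gA z) (gB z) (gH z) eA eB eH hx0.ne' hx1 hA.ne' hB.ne' hH.ne'
  have hM : Ms .L .L z = bb .L .L z - 1 / 2 * (((fX .L z + fY .L z) * (fX .L z + fY .L z) / up z) + ((fX .L z - fY .L z) * (fX .L z - fY .L z) / um z)) := by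
    unfold Ms
    ring
  rw [ipL, imL, eup, eum] at hM
  have t0 : ((ch 16 z - ch 14 z)) * (gA z ^ 1 * gB z ^ 2 * ch 1 z ^ 0 * gH z ^ 0) = ((ch 16 z - ch 14 z)) * (gA z ^ 1 * gB z ^ 2 * ch 1 z ^ 0 * gH z ^ 0) := by
    field_simp
  have t1 : ((ch 14 z - ch 0 z)) * (gA z ^ 1 * gB z ^ 2 * ch 1 z ^ 0 * gH z ^ 0) = ((ch 14 z - ch 0 z)) * (gA z ^ 1 * gB z ^ 2 * ch 1 z ^ 0 * gH z ^ 0) := by
    field_simp
  have t2 : ((ch 12 z - ch 0 z)) * (gA z ^ 1 * gB z ^ 2 * ch 1 z ^ 0 * gH z ^ 0) = ((ch 12 z - ch 0 z)) * (gA z ^ 1 * gB z ^ 2 * ch 1 z ^ 0 * gH z ^ 0) := by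
    field_simp
  have t3 : ((ch 10 z - ch 0 z)) * (gA z ^ 1 * gB z ^ 2 * ch 1 z ^ 0 * gH z ^ 0) = ((ch 10 z - ch 0 z)) * (gA z ^ 1 * gB z ^ 2 * ch 1 z ^ 0 * gH z ^ 0) := by
    field_simp
  have t4 : ((ch 8 z - ch 0 z)) * (gA z ^ 1 * gB z ^ 2 * ch 1 z ^ 0 * gH z ^ 0) = ((ch 8 z - ch 0 z)) * (gA z ^ 1 * gB z ^ 2 * ch 1 z ^ 0 * gH z ^ 0) := by
    field_simp
  have t5 : ((ch 6 z - ch 0 z)) * (gA z ^ 1 * gB z ^ 2 * ch 1 z ^ 0 * gH z ^ 0) = ((ch 6 z - ch 0 z)) * (gA z ^ 1 * gB z ^ 2 * ch 1 z ^ 0 * gH z ^ 0) := by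
    field_simp
  have t6 : ((ch 2 z - ch 0 z)) * (gA z ^ 1 * gB z ^ 2 * ch 1 z ^ 0 * gH z ^ 0) = ((ch 2 z - ch 0 z)) * (gA z ^ 1 * gB z ^ 2 * ch 1 z ^ 0 * gH z ^ 0) := by
    field_simp
  have t7 : ((ch 2 z - ch 0 z) * (ch 2 z / gA z)) * (gA z ^ 1 * gB z ^ 2 * ch 1 z ^ 0 * gH z ^ 0) = ((ch 2 z - ch 0 z) * ch 2 z) * (gA z ^ 0 * gB z ^ 2 * ch 1 z ^ 0 * gH z ^ 0) := by
    field_simp
  have t8 : ((ch 2 z - ch 0 z) * (ch 0 z / gA z)) * (gA z ^ 1 * gB z ^ 2 * ch 1 z ^ 0 * gH z ^ 0) = ((ch 2 z - ch 0 z) * ch 0 z) * (gA z ^ 0 * gB z ^ 2 * ch 1 z ^ 0 * gH z ^ 0) := by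
    field_simp
  have t9 : ((ch 2 z - ch 0 z) * (ch 2 z / gB z)) * (gA z ^ 1 * gB z ^ 2 * ch 1 z ^ 0 * gH z ^ 0) = ((ch 2 z - ch 0 z) * ch 2 z) * (gA z ^ 1 * gB z ^ 1 * ch 1 z ^ 0 * gH z ^ 0) := by
    field_simp
  have t10 : ((ch 2 z - ch 0 z) * (ch 0 z / gB z)) * (gA z ^ 1 * gB z ^ 2 * ch 1 z ^ 0 * gH z ^ 0) = ((ch 2 z - ch 0 z) * ch 0 z) * (gA z ^ 1 * gB z ^ 1 * ch 1 z ^ 0 * gH z ^ 0) := by
    field_simp
  have t11 : ((ch 2 z - ch 0 z) * (ch 0 z / gB z) * (ch 0 z / gB z)) * (gA z ^ 1 * gB z ^ 2 * ch 1 z ^ 0 * gH z ^ 0) = ((ch 2 z - ch 0 z) * ch 0 z * ch 0 z) * (gA z ^ 1 * gB z ^ 0 * ch 1 z ^ 0 * gH z ^ 0) := by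
    field_simp
  apply mul_right_cancel₀ hL
  have hp : 1 * (((ch 16 z - ch 14 z)) * (gA z ^ 1 * gB z ^ 2 * ch 1 z ^ 0 * gH z ^ 0)) + 3 / 4 * (((ch 14 z - ch 0 z)) * (gA z ^ 1 * gB z ^ 2 * ch 1 z ^ 0 * gH z ^ 0)) + -1 * (((ch 12 z - ch 0 z)) * (gA z ^ 1 * gB z ^ 2 * ch 1 z ^ 0 * gH z ^ 0)) + -3 / 4 * (((ch 10 z - ch 0 z)) * (gA z ^ 1 * gB z ^ 2 * ch 1 z ^ 0 * gH z ^ 0)) + 1 * (((ch 8 z - ch 0 z)) * (gA z ^ 1 * gB z ^ 2 * ch 1 z ^ 0 * gH z ^ 0)) + 1 / 4 * (((ch 6 z - ch 0 z)) * (gA z ^ 1 * gB z ^ 2 * ch 1 z ^ 0 * gH z ^ 0)) + -1 / 2 * (((ch 2 z - ch 0 z)) * (gA z ^ 1 * gB z ^ 2 * ch 1 z ^ 0 * gH z ^ 0)) + 1 * (((ch 2 z - ch 0 z) * ch 2 z) * (gA z ^ 0 * gB z ^ 2 * ch 1 z ^ 0 * gH z ^ 0)) + 7 / 8 * (((ch 2 z - ch 0 z) * ch 0 z) * (gA z ^ 0 * gB z ^ 2 * ch 1 z ^ 0 * gH z ^ 0)) + 1 * (((ch 2 z - ch 0 z) * ch 2 z) * (gA z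 ^ 1 * gB z ^ 1 * ch 1 z ^ 0 * gH z ^ 0)) + 7 / 8 * (((ch 2 z - ch 0 z) * ch 0 z) * (gA z ^ 1 * gB z ^ 1 * ch 1 z ^ 0 * gH z ^ 0)) + 1 / 4 * (((ch 2 z - ch 0 z) * ch 0 z * ch 0 z) * (gA z ^ 1 * gB z ^ 0 * ch 1 z ^ 0 * gH z ^ 0)) =
      (bb .L .L z) * (gA z ^ 1 * gB z ^ 2 * ch 1 z ^ 0 * gH z ^ 0) - 1 / 2 * ((-32 + 1408 * ch 1 z ^ 2 - 24872 * ch 1 z ^ 4 + 233416 * ch 1 z ^ 6 - 1299840 * ch 1 z ^ 8 + 4562304 * ch 1 z ^ 10 - 10433536 * ch 1 z ^ 12 + 15742976 * ch 1 z ^ 14 - 15532032 * ch 1 z ^ 16 + 9633792 * ch 1 z ^ 18 - 3407872 * ch 1 z ^ 20 + 524288 * ch 1 z ^ 22) * (gA z ^ 1 * gB z ^ 0 * ch 1 z ^ 0 * gH z ^ 0) + (2 * ch 1 z ^ 2 - 8 * ch 1 z ^ 4 - 376 * ch 1 z ^ 6 + 1664 * ch 1 z ^ 8 + 16128 * ch 1 z ^ 10 - 84992 * ch 1 z ^ 12 + 149504 * ch 1 z ^ 14 - 114688 * ch 1 z ^ 16 + 32768 * ch 1 z ^ 18) * (gA z ^ 0 * gB z ^ 2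 * ch 1 z ^ 0 * gH z ^ 0)) := by
    rw [eA, eB, eH]
    simp only [xb, bb, xLT, xLS, xLV, xTS, xTV, xSV, bLT, bLS, bLV, bTS, bTV, bSS, bSV, bVV, gg, cx0, cx2, cx3, cx4, cx5, cx6, cx7, cx8, cx9, cx10, cx11, cx12, cx13, cx14, cx15, cx16]
    ring
  rw [hM]
  linear_combination (1) * t0 + (3 / 4) * t1 + (-1) * t2 + (-3 / 4) * t3 + (1) * t4 + (1 / 4) * t5 + (-1 / 2) * t6 + (1) * t7 + (7 / 8) * t8 + (1) * t9 + (7 / 8) * t10 + (1 / 4) * t11 + hp + 1 / 2 * v1 + 1 / 2 * v2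


/-- the logarithmic part -/
def wLL (z : ℝ) : ℝ :=
  (ch 16 z - ch 14 z - core z) + 3 / 4 * (ch 14 z - ch 0 z) - (ch 12 z - ch 0 z) - 3 / 4 * (ch 10 z - ch 0 z) +
  (ch 8 z - ch 0 z) + 1 / 4 * (ch 6 z - ch 0 z) + 5 / 4 * (ch 2 z - ch 0 z)

/-- four times the transform of `wLL`, over `π` -/
def gLL (C β1 β2 β3 G : ℝ) : ℝ :=
  Real.log (C - β1) + 4 * Real.log (C - β2) + 3 * Real.log (C - β3) + 6 * Real.log (C + 1) - 4 * G -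
  4 * Real.log C - Real.log (C + β3) - 5 * Real.log (C + β1)

theorem EV_wLL : EV (fun k => PP k * wLL (zk k)) fun t => Real.pi / 4 * gLL (Real.cosh (2 * t))
    (Real.cos (Real.pi / 8)) (Real.cos (Real.pi / 4)) (Real.cos (3 * Real.pi / 8))
    (Real.log 2 + 2 * Pool.Agent.NUM3.GC 8 t) := by
  have h := (((((EV_cone.add (EV.smul (3 / 4) (EV_log (b := 14) (by norm_num) 0 (by norm_num)))).add
    (EV.smul (-1) (EV_log (b := 12) (by norm_num) 0 (by norm_num)))).add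
    (EV.smul (-3 / 4) (EV_log (b := 10) (by norm_num) 0 (by norm_num)))).add
    (EV.smul 1 (EV_log (b := 8) (by norm_num) 0 (by norm_num)))).add
    (EV.smul (1 / 4) (EV_log (b := 6) (by norm_num) 0 (by norm_num)))).add
    (EV.smul (5 / 4) (EV_log (b := 2) (by norm_num) 0 (by norm_num)))
  refine h.congr (fun k hk => ?_) fun t => ?_
  · unfold wLL
    ring
  · rw [cone_val, cq0, cq2, cq6, cq8, cq10, cq12, cq14, add_zero]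
    unfold gLL
    simp only [← sub_eq_add_neg]
    ring

lemma gLL_bounds {C β1 β2 β3 G : ℝ} (hC : 1 ≤ C) (h1 : 0 ≤ β1 ∧ β1 ≤ 231 / 250) (h2 : 0 ≤ β2 ∧ β2 ≤ 283 / 400)
    (h3 : 0 ≤ β3 ∧ β3 ≤ 383 / 1000) (hG : G ≤ Real.log (C - 1 + 1 / 32768)) :
    0 ≤ gLL C β1 β2 β3 G ∧ (C ≤ 19 / 5 → 128 / 10000 ≤ gLL C β1 β2 β3 G) := by
  obtain ⟨s, rfl⟩ : ∃ s, C = s + 1 := ⟨C - 1, by ring⟩
  have hs : 0 ≤ s := by linarith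
  obtain ⟨h10, h11⟩ := h1
  obtain ⟨h20, h21⟩ := h2
  obtain ⟨h30, h31⟩ := h3
  have p1 : 0 < s + 1 - β1 := by linarith
  have p2 : 0 < s + 1 - β2 := by linarith
  have p3 : 0 < s + 1 - β3 := by linarith
  have p4 : 0 < s + 1 + 1 := by linarith
  have p5 : 0 < s + 1 - 1 + 1 / 32768 := by linarith
  have p6 : 0 < s + 1 := by linarith
  have p7 : 0 < s + 1 + β3 := by linarith
  have p8 : 0 < s + 1 + β1 := by linarith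
  have hP : (s + 19 / 250) * (s + 117 / 400) ^ 4 * (s + 617 / 1000) ^ 3 * (s + 2) ^ 6 ≤
      (s + 1 - β1) * (s + 1 - β2) ^ 4 * (s + 1 - β3) ^ 3 * (s + 1 + 1) ^ 6 := by
    have q1 : s + 19 / 250 ≤ s + 1 - β1 := by linarith
    have q2 : s + 117 / 400 ≤ s + 1 - β2 := by linarith
    have q3 : s + 617 / 1000 ≤ s + 1 - β3 := by linarith
    have q4 : s + 2 ≤ s + 1 + 1 := by linarith
    gcongr
  have hQ : (s + 1 - 1 + 1 / 32768) ^ 4 * (s + 1) ^ 4 * (s + 1 + β3) * (s + 1 + β1) ^ 5 ≤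
      (s + 1 / 32768) ^ 4 * (s + 1) ^ 4 * (s + 1383 / 1000) * (s + 481 / 250) ^ 5 := by
    have q5 : s + 1 - 1 + 1 / 32768 ≤ s + 1 / 32768 := by linarith
    have q7 : s + 1 + β3 ≤ s + 1383 / 1000 := by linarith
    have q8 : s + 1 + β1 ≤ s + 481 / 250 := by linarith
    gcongr
  have lP : Real.log ((s + 1 - β1) * (s + 1 - β2) ^ 4 * (s + 1 - β3) ^ 3 * (s + 1 + 1) ^ 6) =
      Real.log (s + 1 - β1) + 4 * Real.log (s + 1 - β2) + 3 * Real.log (s + 1 - β3) + 6 * Real.log (s + 1 + 1) := by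
    rw [Real.log_mul (by positivity) (by positivity), Real.log_mul (by positivity) (by positivity),
      Real.log_mul (by positivity) (by positivity), Real.log_pow, Real.log_pow, Real.log_pow]
    push_cast
    ring
  have lQ : Real.log ((s + 1 - 1 + 1 / 32768) ^ 4 * (s + 1) ^ 4 * (s + 1 + β3) * (s + 1 + β1) ^ 5) =
      4 * Real.log (s + 1 - 1 + 1 / 32768) + 4 * Real.log (s + 1) + Real.log (s + 1 + β3) +
      5 * Real.log (s + 1 + β1) := by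
    rw [Real.log_mul (by positivity) (by positivity), Real.log_mul (by positivity) (by positivity),
      Real.log_mul (by positivity) (by positivity), Real.log_pow, Real.log_pow, Real.log_pow]
    push_cast
    ring
  have hQ0 : 0 < (s + 1 - 1 + 1 / 32768) ^ 4 * (s + 1) ^ 4 * (s + 1 + β3) * (s + 1 + β1) ^ 5 := by positivity
  unfold gLL
  constructor
  · have h := Real.log_le_log hQ0 ((hQ.trans (Y_L_L_p0 hs)).trans hP)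
    rw [lP, lQ] at h
    linarith
  · intro hC2
    have h0 := (mul_le_mul_of_nonneg_left hQ (by norm_num : (0:ℝ) ≤ 1013 / 1000)).trans
      ((Y_L_L_p1 hs (by linarith)).trans hP)
    have h := Real.log_le_log (by positivity) h0
    rw [Real.log_mul (by norm_num) hQ0.ne', lP, lQ] at h
    have h4 := Real.one_sub_inv_le_log_of_pos (by norm_num : (0:ℝ) < 1013 / 1000)
    norm_num at h4
    linarith

/-- the remainder -/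
theorem PK_rLL : PK fun k => PP k * (ch 2 (zk k) - ch 0 (zk k)) *
    (ch 2 (zk k) / gA (zk k) + 7 / 8 * (ch 0 (zk k) / gA (zk k)) + ch 2 (zk k) / gB (zk k) +
      7 / 8 * (ch 0 (zk k) / gB (zk k)) + 1 / 4 * (ch 0 (zk k) / gB (zk k) * (ch 0 (zk k) / gB (zk k))) - 7 / 4) := by
  have h := (((((K0_m 2 (by norm_num)).add ((K0_m 0 (by norm_num)).smul (c := 7 / 8) (by norm_num))).add
    (K0_p 2 (by norm_num))).add ((K0_p 0 (by norm_num)).smul (c := 7 / 8) (by norm_num))).add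
    ((K0_pp 0 0 (by norm_num) (by norm_num)).smul (c := 1 / 4) (by norm_num))).add
    ((gD4 (a := 0) (b := 2) (by norm_num) (by norm_num)).smul
      (c := 2 / 3 + 7 / 8 * (2 / 3) + 131 / 500 + 7 / 8 * (131 / 500) + 1 / 4 * (743 / 10000) - 7 / 4) (by norm_num))
  refine h.congr fun k hk => ?_
  ring

lemma Y_L_L_split {k : ℝ} (hk : 0 < k) : PP k * wLL (zk k) + PP k * (ch 2 (zk k) - ch 0 (zk k)) *
    (ch 2 (zk k) / gA (zk k) + 7 / 8 * (ch 0 (zk k) / gA (zk k)) + ch 2 (zk k) / gB (zk k) +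
      7 / 8 * (ch 0 (zk k) / gB (zk k)) + 1 / 4 * (ch 0 (zk k) / gB (zk k) * (ch 0 (zk k) / gB (zk k))) - 7 / 4) =
    PP k * (Ms .L .L (zk k) - core (zk k)) := by
  rw [← Y_L_L_id (zk_pos hk)]
  unfold wLL
  ring

/-- **`Y_L_L`**: the kernel `L`-`L`, same species, without the core -/
theorem Y_L_L : PK fun k => PP k * (Ms .L .L (zk k) - core (zk k)) := by
  refine EV_wLL.pk_add (fun t => ?_) PK_rLL fun k hk => Y_L_L_split hk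
  exact mul_nonneg (by have := Real.pi_pos; positivity)
    (gLL_bounds (Real.one_le_cosh _) beta1 beta2 beta3 (core_le t)).1

/-- the lower bound on `|t| ≤ 1` -/
theorem Y_L_L_c0 {t : ℝ} (ht : |t| ≤ 1) :
    1 / 100 ≤ ∫ k in Ioi (0:ℝ), PP k * (Ms .L .L (zk k) - core (zk k)) * Real.cos (k * t) := by
  refine le_trans ?_ (EV_wLL.lower PK_rLL (fun k hk => Y_L_L_split hk) t)
  have h := (gLL_bounds (Real.one_le_cosh (2 * t)) beta1 beta2 beta3 (core_le t)).2 (cosh2_le38 ht)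
  have hp := Real.pi_gt_d2
  nlinarith

end

end NUMH
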