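import Pool.Agent.NUO.CertX
import Pool.Agent.NUO.CoreBase


/-!
# Same species kernel of (STAB), kinds `T, T` (helper23; certificate of helper9)
-/

set_option autoImplicit false
set_option linter.unusedSimpArgs false

open MeasureTheory Set Filter Topology

namespace NUMH

open NUO NUPosK NUPolyR NUCX
open NUSB hiding zk

noncomputable section

/-- certificate -/
def sTT : List Tm := [
  ⟨5, .D1 0 2, [.m 0]⟩,
  ⟨10, .D2 2 4, [.q 0]⟩,
  ⟨2, .D2 0 2, [.p 0, .p 0]⟩,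
  ⟨2, .D2 2 4, [.p 0, .p 0]⟩,
  ⟨2, .D4 0 2, [.m 0, .m 0, .m 0]⟩,
  ⟨12, .D2 4 6, [.m 0]⟩,
  ⟨5, .D1 0 2, [.p 0]⟩,
  ⟨6, .D4 6 8, [.q 0, .q 0]⟩,
  ⟨12, .D4 2 4, [.q 0, .q 0]⟩,
  ⟨6, .D4 4 6, [.q 0, .q 0]⟩,
  ⟨2, .D4 2 4, [.m 0, .m 0, .m 0]⟩,
  ⟨12, .D4 0 2, [.q 0, .q 0]⟩,
  ⟨12, .D2 2 4, []⟩]

/-- the part of the kernel that carries neither the core bases nor the base used for the lower bound -/
def dTT (z : ℝ) : ℝ := Ms .T .T z - 5 / 8 * (4 * ch 8 z * ch 4 z * (ch 4 z - ch 2 z)) -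
  3 / 8 * (2 * ch 8 z * (ch 8 z - ch 6 z)) - 2 * ch 8 z * (ch 6 z - ch 4 z)

theorem PK_dTT : PK fun k => PP k * dTT (zk k) := by
  refine (PK_cert 1 .T .T (sub (sub (sub (NUPolyR.smul 8 (cl [(1, 4), (1, 8), (1, 12), (1, 16)]))
    (NUPolyR.smul 20 (NUPolyR.mul (NUPolyR.mul t8 t4) (sub t4 t2))))
    (NUPolyR.smul 6 (NUPolyR.mul t8 (sub t8 t6)))) (NUPolyR.smul 16 (NUPolyR.mul t8 (sub t6 t4))))
    8 0 16 3 2 0 sTT (by norm_num) (by norm_num) (by decide +kernel) (by decide +kernel)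
    (fun z => bb .T .T z - 5 / 8 * (4 * ch 8 z * ch 4 z * (ch 4 z - ch 2 z)) -
      3 / 8 * (2 * ch 8 z * (ch 8 z - ch 6 z)) - 2 * ch 8 z * (ch 6 z - ch 4 z)) ?_).congr fun k _ => ?_
  · intro z
    have e2 := E_t 2 (by norm_num) z
    have e4 := E_t 4 (by norm_num) z
    have e6 := E_t 6 (by norm_num) z
    have e8 := E_t 8 (by norm_num) z
    simp only [tt] at e2 e4 e6 e8
    simp only [ev_add, ev_sub, ev_smul, ev_mul, e2, e4, e6, e8]
    rw [ev_cl _ (by decide)]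
    simp only [cz, bb]
    push_cast
    ring
  · unfold dTT Ms
    push_cast
    ring

lemma Y_T_T_eq (k : ℝ) : PP k * (Ms .T .T (zk k) - core (zk k)) =
    1 * (PP k * (2 * ch 8 (zk k) * (ch 6 (zk k) - ch 4 (zk k)))) +
    (PP k * dTT (zk k) + (5 / 8 * (PP k * (4 * ch 8 (zk k) * ch 4 (zk k) * (ch 4 (zk k) - ch 2 (zk k)) -
      core (zk k))) + 3 / 8 * (PP k * (2 * ch 8 (zk k) * (ch 8 (zk k) - ch 6 (zk k)) - core (zk k))))) := by
  unfold dTT
  ring

lemma PK_restTT : PK fun k => PP k * dTT (zk k) + (5 / 8 * (PP k * (4 * ch 8 (zk k) * ch 4 (zk k) *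
    (ch 4 (zk k) - ch 2 (zk k)) - core (zk k))) +
    3 / 8 * (PP k * (2 * ch 8 (zk k) * (ch 8 (zk k) - ch 6 (zk k)) - core (zk k)))) :=
  PK_dTT.add ((NUCoreB.core1.smul (by norm_num)).add (NUCoreB.core2.smul (by norm_num)))

/-- **`St`-`St`, same species**: nonnegative after removing the core -/
theorem Y_T_T : PK fun k => PP k * (Ms .T .T (zk k) - core (zk k)) :=
  (((gD2 (a := 4) (b := 6) (by norm_num) (by norm_num)).smul (c := 1) (by norm_num)).add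
    PK_restTT).congr fun k _ => (Y_T_T_eq k).symm

/-- lower bound at distance at most one -/
theorem Y_T_T_low {t : ℝ} (ht : |t| ≤ 1) : Real.pi / 50 ≤
    ∫ k in Ioi (0:ℝ), PP k * (Ms .T .T (zk k) - core (zk k)) * Real.cos (k * t) := by
  have h1 := NUCoreB.D2_lower (a := 4) (b := 6) (by norm_num) (by norm_num) ht
  have i1 := (NUCoreB.D2_value (a := 4) (b := 6) (by norm_num) (by norm_num) t).1
  have i2 := intOn_mul_cos PK_restTT.1 t
  have e : ∫ k in Ioi (0:ℝ), PP k * (Ms .T .T (zk k) - core (zk k)) * Real.cos (k * t) =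
      (∫ k in Ioi (0:ℝ), PP k * (2 * ch 8 (zk k) * (ch 6 (zk k) - ch 4 (zk k))) * Real.cos (k * t)) +
      ∫ k in Ioi (0:ℝ), (PP k * dTT (zk k) + (5 / 8 * (PP k * (4 * ch 8 (zk k) * ch 4 (zk k) *
        (ch 4 (zk k) - ch 2 (zk k)) - core (zk k))) +
        3 / 8 * (PP k * (2 * ch 8 (zk k) * (ch 8 (zk k) - ch 6 (zk k)) - core (zk k))))) *
        Real.cos (k * t) := by
    rw [← integral_add i1 i2]
    refine setIntegral_congr_fun measurableSet_Ioi fun k _ => ?_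
    simp only [Y_T_T_eq k]
    ring
  rw [e]
  have h2 := PK_restTT.2 t
  have c1 : Real.cos ((4:ℕ) * Real.pi / 8) = 0 := by
    rw [show ((4:ℕ):ℝ) * Real.pi / 8 = Real.pi / 2 by push_cast; ring, Real.cos_pi_div_two]
  have c2 : Real.cos ((6:ℕ) * Real.pi / 8) = -(Real.sqrt 2 / 2) := by
    rw [show ((6:ℕ):ℝ) * Real.pi / 8 = Real.pi - Real.pi / 4 by push_cast; ring, Real.cos_pi_sub,
      Real.cos_pi_div_four]
  rw [c1, c2] at h1
  have h3 : 1.4 ≤ Real.sqrt 2 := by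
    apply Real.le_sqrt_of_sq_le
    norm_num
  have hpi := Real.pi_pos
  have h4 : Real.pi / 50 ≤ Real.pi / 29 * (0 - -(Real.sqrt 2 / 2)) := by
    calc Real.pi / 50 ≤ Real.pi / 29 * 0.7 := by
          rw [div_mul_eq_mul_div, div_le_div_iff₀ (by norm_num) (by norm_num)]
          nlinarith
      _ ≤ _ := by
          apply mul_le_mul_of_nonneg_left _ (by positivity)
          linarith
  linarith

end

end NUMH
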