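import Pool.Agent.NUO.Y_T_T
import Pool.Agent.NUO.StabTab

/-!
# Fields `TT`, `TT1` of `NUStabT.Certs` (helper23)
-/

set_option autoImplicit false

open MeasureTheory Set

noncomputable section

namespace NUStabT

open NUMH (B Ms PP)
open NUPosK (PK)
open NUSB

theorem y_TT : PK (mS .T .T) := (PK_PQ (m := fun z => Ms .T .T z - core z) NUMH.Y_T_T).congr fun k _ => by
  unfold mS; simp only [κs]; ring

theorem y_TT1 : ∀ x, |x| ≤ 1 → (1 / 50 : ℝ) ≤ IT (mS .T .T) x := by
  intro x hx
  have h := NUMH.Y_T_T_low hx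
  have e : ∫ k in Ioi (0:ℝ), PP k * (Ms .T .T (NUMH.zk k) - core (NUMH.zk k)) * Real.cos (k * x) =
      Real.pi * IT (mS .T .T) x := by
    unfold IT
    rw [← integral_const_mul]
    refine setIntegral_congr_fun measurableSet_Ioi fun k _ => ?_
    simp only [PP_eq, mS, κs]
    have : NUMH.zk k = zk k := rfl
    rw [this]
    ring
  rw [e] at h
  have hpi := Real.pi_pos
  by_contra hc
  push Not at hc
  have := mul_lt_mul_of_pos_left hc hpi
  linarith

end NUStabT
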